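import Pool.Agent.Lib.MP_0430e4_lc.AC.ShD

/-!
Sh7 (SHELL51.md section 5): from a weighted bilinear sum to the box norm.
PROOF. Over the integers `wt (x-y) = wt x + wt y - 2 <lz x, lz y>` (each coordinate), so
`ph(ψ wt(x-y)) = ph(ψ wt x) ph(ψ wt y) ph(-2ψ <lz x, lz y>)`. Put `F x = f x ph(ψ wt x)`, `H` likewise:
`|∑_{x,y} F x H y ph(-2ψ<x,y>)|^2 ≤ |A| ∑_x |∑_y H y ph(-2ψ<x,y>)|^2`
`= |A| ∑_{y,y'} H y conj(H y') ∑_x ph(-2ψ<x,y-y'>) ≤ |A| ∑_{y,y'} |∑_x ph(2ψ<x,y-y'>)|`; Cauchy-Schwarz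
once more over the `|A|^2` pairs `(y,y')`: the fourth power is at most `|A|^2 |A|^2 Box`.
`lz` is injective (`Main.lz_inj`, copy it as a private lemma if Main is not imported).
-/

set_option autoImplicit false

open Finset

namespace Pool.Agent.Lib.MP_0430e4_lc.AC

open BY BY.Four

private theorem Sh7_ph_add (a b : ℝ) : ph (a + b) = ph a * ph b := by
  unfold ph
  rw [← Complex.exp_add]
  congr 1
  push_cast
  ring

private theorem Sh7_norm (a : ℝ) : ‖ph a‖ = 1 := Complex.norm_exp_ofReal_mul_I a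

private theorem Sh7_conj (a : ℝ) : (starRingEnd ℂ) (ph a) = ph (-a) := by
  unfold ph
  rw [← Complex.exp_conj, map_mul, Complex.conj_ofReal, Complex.conj_I]
  congr 1
  push_cast
  ring

private theorem Sh7_lz_inj {n : ℕ} : Function.Injective (lz : Wd n → (Fin n → ℤ)) := by
  intro x y h
  funext i
  have h1 := congrFun h i
  unfold lz at h1
  have h2 : (x i).val = (y i).val := by exact_mod_cast h1
  exact ZMod.val_injective 2 h2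

private theorem Sh7_pt0 (a : ZMod 2) : (if a ≠ 0 then (1 : ℤ) else 0) = a.val := by
  revert a
  decide

private theorem Sh7_wt {n : ℕ} (x : Wd n) : (wt x : ℤ) = ∑ i, lz x i := by
  unfold wt hammingNorm lz
  rw [Finset.card_filter]
  push_cast
  apply Finset.sum_congr rfl
  intro i _
  exact Sh7_pt0 (x i)

private theorem Sh7_pt (a b : ZMod 2) : ((a - b).val : ℤ) = a.val + b.val - 2 * (a.val * b.val) := by
  revert a b
  decide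

private theorem Sh7_wt_sub {n : ℕ} (x y : Wd n) :
    (wt (x - y) : ℤ) = wt x + wt y - 2 * (lz x ⬝ᵥ lz y) := by
  rw [Sh7_wt, Sh7_wt, Sh7_wt]
  unfold dotProduct
  rw [Finset.mul_sum, ← Finset.sum_add_distrib, ← Finset.sum_sub_distrib]
  apply Finset.sum_congr rfl
  intro i _
  exact Sh7_pt (x i) (y i)

private theorem Sh7_ph {n : ℕ} (x y : Wd n) (ψ : ℝ) :
    ph (ψ * (wt (x - y) : ℝ)) = ph (ψ * (wt x : ℝ)) * ph (ψ * (wt y : ℝ)) *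
      ph (-(2 * ψ) * ((lz x ⬝ᵥ lz y : ℤ) : ℝ)) := by
  rw [← Sh7_ph_add, ← Sh7_ph_add]
  congr 1
  have h1 : ((wt (x - y) : ℤ) : ℝ) = ((wt x + wt y - 2 * (lz x ⬝ᵥ lz y) : ℤ) : ℝ) := by
    rw [Sh7_wt_sub]
  push_cast at h1
  rw [h1]
  push_cast
  ring

theorem box_w {n : ℕ} (A : Finset (Wd n)) (f h : Wd n → ℂ) (hf : ∀ x, ‖f x‖ ≤ 1)
    (hh : ∀ x, ‖h x‖ ≤ 1) (ψ : ℝ) :
    ‖∑ x ∈ A, ∑ y ∈ A, f x * h y * ph (ψ * (wt (x - y) : ℝ))‖ ^ 4 ≤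
      (A.card : ℝ) ^ 4 * Box (A.image lz) (2 * ψ) := by
  classical
  obtain ⟨F, hF⟩ : ∃ F : Wd n → ℂ, F = fun x => f x * ph (ψ * (wt x : ℝ)) := ⟨_, rfl⟩
  obtain ⟨G, hG⟩ : ∃ G : Wd n → ℂ, G = fun x => h x * ph (ψ * (wt x : ℝ)) := ⟨_, rfl⟩
  have hF1 : ∀ x, ‖F x‖ ≤ 1 := by
    intro x
    rw [hF]
    show ‖f x * ph _‖ ≤ 1
    rw [norm_mul, Sh7_norm, mul_one]
    exact hf x
  have hG1 : ∀ x, ‖G x‖ ≤ 1 := by
    intro x
    rw [hG]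
    show ‖h x * ph _‖ ≤ 1
    rw [norm_mul, Sh7_norm, mul_one]
    exact hh x
  obtain ⟨T, hT⟩ : ∃ T : Wd n → ℂ, T = fun x =>
    ∑ y ∈ A, G y * ph (-(2 * ψ) * ((lz x ⬝ᵥ lz y : ℤ) : ℝ)) := ⟨_, rfl⟩
  obtain ⟨K, hK⟩ : ∃ K : Wd n → Wd n → ℂ, K = fun y y' =>
    ∑ x ∈ A, ph (2 * ψ * ((lz x ⬝ᵥ (lz y' - lz y) : ℤ) : ℝ)) := ⟨_, rfl⟩
  have e1 : ∑ x ∈ A, ∑ y ∈ A, f x * h y * ph (ψ * (wt (x - y) : ℝ)) = ∑ x ∈ A, F x * T x := by
    apply Finset.sum_congr rfl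
    intro x _
    rw [hT]
    show _ = F x * ∑ y ∈ A, G y * ph (-(2 * ψ) * ((lz x ⬝ᵥ lz y : ℤ) : ℝ))
    rw [Finset.mul_sum]
    apply Finset.sum_congr rfl
    intro y _
    rw [Sh7_ph, hF, hG]
    ring
  have h2 : ‖∑ x ∈ A, F x * T x‖ ^ 2 ≤ (A.card : ℝ) * ∑ x ∈ A, ‖T x‖ ^ 2 := by
    have h3 : ‖∑ x ∈ A, F x * T x‖ ≤ ∑ x ∈ A, ‖T x‖ := by
      refine (norm_sum_le _ _).trans (Finset.sum_le_sum fun x _ => ?_)
      rw [norm_mul]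
      calc ‖F x‖ * ‖T x‖ ≤ 1 * ‖T x‖ := mul_le_mul_of_nonneg_right (hF1 x) (norm_nonneg _)
        _ = ‖T x‖ := one_mul _
    exact (pow_le_pow_left₀ (norm_nonneg _) h3 2).trans sq_sum_le_card_mul_sum_sq
  have h3 : ∑ x ∈ A, ‖T x‖ ^ 2 ≤ ∑ y ∈ A, ∑ y' ∈ A, ‖K y y'‖ := by
    have h4 : ((∑ x ∈ A, ‖T x‖ ^ 2 : ℝ) : ℂ) =
        ∑ y ∈ A, ∑ y' ∈ A, G y * (starRingEnd ℂ) (G y') * K y y' := by
      rw [Complex.ofReal_sum]
      have h5 : ∀ x ∈ A, ((‖T x‖ ^ 2 : ℝ) : ℂ) = ∑ y ∈ A, ∑ y' ∈ A,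
          G y * (starRingEnd ℂ) (G y') * ph (2 * ψ * ((lz x ⬝ᵥ (lz y' - lz y) : ℤ) : ℝ)) := by
        intro x _
        have h6 : ((‖T x‖ ^ 2 : ℝ) : ℂ) = T x * (starRingEnd ℂ) (T x) := by
          rw [Complex.mul_conj']
          push_cast
          rfl
        rw [h6, hT]
        show (∑ y ∈ A, G y * ph (-(2 * ψ) * ((lz x ⬝ᵥ lz y : ℤ) : ℝ))) *
          (starRingEnd ℂ) (∑ y ∈ A, G y * ph (-(2 * ψ) * ((lz x ⬝ᵥ lz y : ℤ) : ℝ))) = _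
        rw [map_sum, Finset.sum_mul_sum]
        apply Finset.sum_congr rfl
        intro y _
        apply Finset.sum_congr rfl
        intro y' _
        rw [map_mul, Sh7_conj]
        have h7 : ph (2 * ψ * ((lz x ⬝ᵥ (lz y' - lz y) : ℤ) : ℝ)) =
            ph (-(2 * ψ) * ((lz x ⬝ᵥ lz y : ℤ) : ℝ)) *
              ph (-(-(2 * ψ) * ((lz x ⬝ᵥ lz y' : ℤ) : ℝ))) := by
          rw [← Sh7_ph_add, dotProduct_sub]
          congr 1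
          push_cast
          ring
        rw [h7]
        ring
      rw [Finset.sum_congr rfl h5, Finset.sum_comm]
      apply Finset.sum_congr rfl
      intro y _
      rw [Finset.sum_comm]
      apply Finset.sum_congr rfl
      intro y' _
      rw [hK]
      show _ = G y * (starRingEnd ℂ) (G y') *
        ∑ x ∈ A, ph (2 * ψ * ((lz x ⬝ᵥ (lz y' - lz y) : ℤ) : ℝ))
      rw [Finset.mul_sum]
    have h5 : ∑ x ∈ A, ‖T x‖ ^ 2 = ‖((∑ x ∈ A, ‖T x‖ ^ 2 : ℝ) : ℂ)‖ := by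
      rw [Complex.norm_real, Real.norm_eq_abs, abs_of_nonneg]
      exact Finset.sum_nonneg fun x _ => by positivity
    rw [h5, h4]
    refine (norm_sum_le _ _).trans (Finset.sum_le_sum fun y _ => ?_)
    refine (norm_sum_le _ _).trans (Finset.sum_le_sum fun y' _ => ?_)
    rw [norm_mul, norm_mul, RCLike.norm_conj]
    calc ‖G y‖ * ‖G y'‖ * ‖K y y'‖ ≤ 1 * ‖K y y'‖ := by
          apply mul_le_mul_of_nonneg_right _ (norm_nonneg _)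
          exact mul_le_one₀ (hG1 y) (norm_nonneg _) (hG1 y')
      _ = ‖K y y'‖ := one_mul _
  have h4 : (∑ y ∈ A, ∑ y' ∈ A, ‖K y y'‖) ^ 2 ≤
      (A.card : ℝ) ^ 2 * ∑ y ∈ A, ∑ y' ∈ A, ‖K y y'‖ ^ 2 := by
    rw [← Finset.sum_product', ← Finset.sum_product']
    have h5 := sq_sum_le_card_mul_sum_sq (s := A ×ˢ A) (f := fun p => ‖K p.1 p.2‖)
    rw [Finset.card_product] at h5
    push_cast at h5
    rw [sq (A.card : ℝ)]
    exact h5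
  have h5 : ∑ y ∈ A, ∑ y' ∈ A, ‖K y y'‖ ^ 2 = Box (A.image lz) (2 * ψ) := by
    unfold Box
    rw [Finset.sum_image (fun a _ b _ hab => Sh7_lz_inj hab), Finset.sum_comm]
    apply Finset.sum_congr rfl
    intro y _
    rw [Finset.sum_image (fun a _ b _ hab => Sh7_lz_inj hab)]
    apply Finset.sum_congr rfl
    intro y' _
    rw [Finset.sum_image (fun a _ b _ hab => Sh7_lz_inj hab), hK]
  have h6 : 0 ≤ ∑ x ∈ A, ‖T x‖ ^ 2 := Finset.sum_nonneg fun x _ => by positivity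
  rw [e1]
  calc ‖∑ x ∈ A, F x * T x‖ ^ 4 = (‖∑ x ∈ A, F x * T x‖ ^ 2) ^ 2 := by ring
    _ ≤ ((A.card : ℝ) * ∑ x ∈ A, ‖T x‖ ^ 2) ^ 2 := pow_le_pow_left₀ (by positivity) h2 2
    _ = (A.card : ℝ) ^ 2 * (∑ x ∈ A, ‖T x‖ ^ 2) ^ 2 := by ring
    _ ≤ (A.card : ℝ) ^ 2 * (∑ y ∈ A, ∑ y' ∈ A, ‖K y y'‖) ^ 2 :=
        mul_le_mul_of_nonneg_left (pow_le_pow_left₀ h6 h3 2) (by positivity)
    _ ≤ (A.card : ℝ) ^ 2 * ((A.card : ℝ) ^ 2 * ∑ y ∈ A, ∑ y' ∈ A, ‖K y y'‖ ^ 2) :=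
        mul_le_mul_of_nonneg_left h4 (by positivity)
    _ = (A.card : ℝ) ^ 4 * Box (A.image lz) (2 * ψ) := by rw [h5]; ring

end Pool.Agent.Lib.MP_0430e4_lc.AC
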