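import Pool.Agent.Lib.MP_0430e4_lc.AC.DefsX
import Pool.Agent.Lib.MP_0430e4_lc.AC.Sh7

/-!
`BoxW` (two Cauchy-Schwarz steps with bounded weights) is `Sh7.box_w` (helper20).
-/

set_option autoImplicit false

namespace Pool.Agent.Lib.MP_0430e4_lc.AC

open BY BY.Four

theorem boxW : BoxW := fun _ A f g ψ hf hg => box_w A f g hf hg ψ

theorem boxS : BoxS := by
  intro n A ψ
  have h := box_w A (fun _ => 1) (fun _ => 1) (fun _ => by simp) (fun _ => by simp) ψ
  simpa [Bs] using h

end Pool.Agent.Lib.MP_0430e4_lc.AC
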