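import Pool.Agent.Lib.MP_0430e4_lc.BY.FourA

/-!
Project ALLCODES (MP_0430e4_lc, theorem T*): definitions and interfaces (helper1).

Structure side: `MultS` (multiples theorem, helper30), `PieceS` (pieces), `SmallS` (small angles).
Analytic side: `Forced`, `TypD`.
-/

set_option autoImplicit false

open Finset

namespace Pool.Agent.Lib.MP_0430e4_lc.AC

open BY BY.Four

/-- `exp (i a)` -/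
noncomputable def ph (a : ℝ) : ℂ := Complex.exp ((a : ℂ) * Complex.I)

/-- the word `x` as a vector of integers `0`, `1` -/
def lz {n : ℕ} (x : Wd n) : Fin n → ℤ := fun i => ((x i).val : ℤ)

/-- `|A|^4` times the box norm of the kernel `exp (i a <x,y>)` on `A × A`:
`∑_{y,y'} |∑_x exp (i a <x, y - y'>)|^2` -/
noncomputable def Box {n : ℕ} (A : Finset (Fin n → ℤ)) (a : ℝ) : ℝ :=
  ∑ y ∈ A, ∑ y' ∈ A, ‖∑ x ∈ A, ph (a * ((x ⬝ᵥ (y - y') : ℤ) : ℝ))‖ ^ 2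

/-- **(MULTIPLES)** large box norm at `a` forces large box norm at `m a`. -/
def MultS : Prop := ∀ (m : ℕ) (η : ℝ), 0 < η → ∃ τ : ℝ, 0 < τ ∧ ∃ n0 : ℕ, ∀ n ≥ n0,
  ∀ A : Finset (Fin n → ℤ), A.Nonempty → (∀ x ∈ A, ∀ i, x i = 0 ∨ x i = 1) → ∀ a : ℝ,
    pw n (-τ) * (A.card : ℝ) ^ 4 ≤ Box A a → pw n (-η) * (A.card : ℝ) ^ 4 ≤ Box A (m * a)

/-- `∑_{x,y ∈ A} exp (i ψ |x-y|)` -/
noncomputable def Bs {n : ℕ} (A : Finset (Wd n)) (ψ : ℝ) : ℂ :=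
  ∑ x ∈ A, ∑ y ∈ A, ph (ψ * (wt (x - y) : ℝ))

/-- `∑_{x,y ∈ A} (1+t)^(N-|x-y|) (1-t)^|x-y|` -/
noncomputable def Qt {n : ℕ} (A : Finset (Wd n)) (N : ℕ) (t : ℝ) : ℝ :=
  ∑ x ∈ A, ∑ y ∈ A, (1 + t) ^ (N - wt (x - y)) * (1 - t) ^ wt (x - y)

/-- typical distances (only up to `n/2`) of one code -/
def Typ {n : ℕ} (C : Finset (Wd n)) (τ : ℝ) : Prop :=
  ∀ w : ℕ, 1 ≤ w → 2 * w ≤ n → (nP C w : ℝ) ≤ (C.card : ℝ) ^ 2 * pw n (τ - 1) * n.choose w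

/-- amplitude of one code at `p e^(iψ)` -/
def Amp {n : ℕ} (C : Finset (Wd n)) (τ p ψ : ℝ) : Prop :=
  (C.card : ℝ) ^ 2 * pw n (-1 - τ) * (1 + p) ^ n ≤
    ‖∑ x ∈ C, ∑ y ∈ C, ((p : ℂ) * ph ψ) ^ wt (x - y)‖

/-- **(PIECE)** -/
def PieceS : Prop := ∀ R p0 t2 : ℝ, 0 < p0 → p0 ≤ 1 → 0 ≤ t2 → t2 < 1 →
  (1 + p0 * t2) * (2 : ℝ) ^ (1 - R) < 1 + p0 →
  ∃ c : ℝ, 0 < c ∧ ∀ τ' : ℝ, 0 < τ' → ∃ τ : ℝ, 0 < τ ∧ ∃ n0 : ℕ, ∀ n ≥ n0, ∀ C : Finset (Wd n),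
    pw n R ≤ C.card → Typ C τ → ∀ p ψ t : ℝ, p0 ≤ p → p ≤ 1 → 0 ≤ t → t ≤ t2 → Amp C τ p ψ →
    ∃ (T : Finset (Fin n)) (A : Finset (Wd n)), A ⊆ C ∧ A.Nonempty ∧ c * n ≤ T.card ∧
      (∀ x ∈ A, ∀ y ∈ A, ∀ i, i ∉ T → x i = y i) ∧
      pw n (-τ') * ((A.card : ℝ) ^ 2 + Qt A T.card t) ≤ ‖Bs A ψ‖

/-- two Cauchy-Schwarz steps -/
def BoxS : Prop := ∀ (n : ℕ) (A : Finset (Wd n)) (ψ : ℝ),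
  ‖Bs A ψ‖ ^ 4 ≤ (A.card : ℝ) ^ 4 * Box (A.image lz) (2 * ψ)

/-- **(SMALL ANGLE)** -/
def SmallS : Prop := ∀ (n : ℕ) (A : Finset (Wd n)) (T : Finset (Fin n)) (θ : ℝ), 0 ≤ θ →
  θ < Real.pi / 4 → (∀ x ∈ A, ∀ y ∈ A, ∀ i, i ∉ T → x i = y i) →
    Box (A.image lz) (4 * θ) ≤ (A.card : ℝ) ^ 2 * (Real.cos θ ^ T.card * Qt A T.card (Real.tan θ))

/-- **Theorem A'** -/
def NoAlign : Prop := ∀ (R p0 θ1 θ2 : ℝ) (m : ℕ), 0 < p0 → p0 ≤ 1 → 0 < θ1 → θ1 ≤ θ2 →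
  θ2 < Real.pi / 4 → (1 + p0 * Real.tan θ2) * (2 : ℝ) ^ (1 - R) < 1 + p0 →
  ∃ τ : ℝ, 0 < τ ∧ ∃ n0 : ℕ, ∀ n ≥ n0, ∀ C : Finset (Wd n), pw n R ≤ C.card → Typ C τ →
    ∀ p ψ : ℝ, p0 ≤ p → p ≤ 1 → (∃ j : ℤ, 2 * θ1 ≤ |m * ψ - Real.pi * j| ∧
      |m * ψ - Real.pi * j| ≤ 2 * θ2) → ¬ Amp C τ p ψ

/-! ### the analytic side -/

/-- all codes with distance `δ n` have typical distances up to `n/2` (`L` = exponent of the linear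
program) -/
def TypD (δ L : ℝ) : Prop := ∀ ε : ℝ, 0 < ε → ∃ n0 : ℕ, ∀ n ≥ n0, ∀ C : Finset (Wd n),
  IsCode ⌈δ * n⌉₊ C → ∀ w : ℕ, 1 ≤ w → 2 * w ≤ n →
    (nP C w : ℝ) ≤ C.card * pw n (L - 1 + ε) * n.choose w

/-- **(FORCED AMPLITUDE)** near-optimal codes have full amplitude at a point `p e^(iψ)` with `ψ` in
any prescribed interval next to (and below) the angle `ψ0` of the tip. -/
def Forced (δ L : ℝ) : Prop := ∃ ψ0 ρ p0 : ℝ, 0 < ρ ∧ 0 < p0 ∧ p0 ≤ 1 ∧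
  (2 : ℝ) ^ (1 - L) < 1 + p0 ∧ ∀ a b : ℝ, ψ0 - ρ ≤ a → a < b → b ≤ ψ0 → ∀ τ : ℝ, 0 < τ →
    ∃ ε : ℝ, 0 < ε ∧ ∃ n0 : ℕ, ∀ n ≥ n0, ∀ C : Finset (Wd n), IsCode ⌈δ * n⌉₊ C →
      pw n (L - ε) ≤ C.card → ∃ p ψ : ℝ, p0 ≤ p ∧ p ≤ 1 ∧ a ≤ ψ ∧ ψ ≤ b ∧ Amp C τ p ψ

end Pool.Agent.Lib.MP_0430e4_lc.AC
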