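import Pool.Agent.Lib.MP_0430e4_lc.AC.Defs

/-!
Project ALLCODES: weighted forms (helper1). `NoAlignX` is the final target of board x3_mod.
-/

set_option autoImplicit false

open Finset

namespace Pool.Agent.Lib.MP_0430e4_lc.AC

open BY BY.Four

/-- upper bound of the enumerator on `[v0,1]` -/
def WU {n : ℕ} (C : Finset (Wd n)) (τ v0 : ℝ) : Prop := ∀ v : ℝ, v0 ≤ v → v ≤ 1 →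
  ∑ x ∈ C, ∑ y ∈ C, v ^ wt (x - y) ≤ (C.card : ℝ) ^ 2 * pw n (τ - 1) * (1 + v) ^ n

/-- amplitude at `p e^(iψ)` with bounded weights -/
def AmpW {n : ℕ} (C : Finset (Wd n)) (f g : Wd n → ℂ) (τ p ψ : ℝ) : Prop :=
  (C.card : ℝ) ^ 2 * pw n (-1 - τ) * (1 + p) ^ n ≤
    ‖∑ x ∈ C, ∑ y ∈ C, f x * g y * ((p : ℂ) * ph ψ) ^ wt (x - y)‖

/-- two Cauchy-Schwarz steps, bounded weights -/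
def BoxW : Prop := ∀ (n : ℕ) (A : Finset (Wd n)) (f g : Wd n → ℂ) (ψ : ℝ),
  (∀ x, ‖f x‖ ≤ 1) → (∀ x, ‖g x‖ ≤ 1) →
  ‖∑ x ∈ A, ∑ y ∈ A, f x * g y * ph (ψ * (wt (x - y) : ℝ))‖ ^ 4 ≤
    (A.card : ℝ) ^ 4 * Box (A.image lz) (2 * ψ)

/-- **Theorem A'', weighted** (from (X); no assumption on the size of `C`) -/
def NoAlignX : Prop := ∀ (p0 v0 θ1 θ2 : ℝ) (m : ℕ), 0 < p0 → p0 ≤ 1 → 0 < θ1 → θ1 ≤ θ2 →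
  θ2 < Real.pi / 4 →
  v0 * (1 - p0 + p0 * (Real.cos θ2 + Real.sin θ2)) ≤ p0 * (Real.cos θ2 - Real.sin θ2) →
  ∃ τ : ℝ, 0 < τ ∧ ∃ n0 : ℕ, ∀ n ≥ n0, ∀ C : Finset (Wd n), C.Nonempty → WU C τ v0 →
    ∀ f g : Wd n → ℂ, (∀ x, ‖f x‖ ≤ 1) → (∀ x, ‖g x‖ ≤ 1) →
    ∀ p ψ : ℝ, p0 ≤ p → p ≤ 1 → (∃ j : ℤ, 2 * θ1 ≤ |m * ψ - Real.pi * j| ∧
      |m * ψ - Real.pi * j| ≤ 2 * θ2) → ¬ AmpW C f g τ p ψ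

/-- **(FORCED AMPLITUDE)**, with `p` also slightly above `1` -/
def Forced' (δ L : ℝ) : Prop := ∃ ψ0 ρ p0 : ℝ, 0 < ρ ∧ 0 < p0 ∧ p0 ≤ 1 ∧
  (2 : ℝ) ^ (1 - L) < 1 + p0 ∧ ∀ a b : ℝ, ψ0 - ρ ≤ a → a < b → b ≤ ψ0 → ∀ τ : ℝ, 0 < τ →
    ∃ ε : ℝ, 0 < ε ∧ ∃ n0 : ℕ, ∀ n ≥ n0, ∀ C : Finset (Wd n), IsCode ⌈δ * n⌉₊ C →
      pw n (L - ε) ≤ C.card → ∃ p ψ : ℝ, p0 ≤ p ∧ p0 * p ≤ 1 ∧ a ≤ ψ ∧ ψ ≤ b ∧ Amp C τ p ψ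

end Pool.Agent.Lib.MP_0430e4_lc.AC
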