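import Pool.Agent.Lib.MP_0430e4_lc.AC.IqA

/-!
Project ALLCODES, inequality (I), part B (helper72): `AZ t ^ 2 = ∑ (-1)^m sech(m t/2)^2`,
`0 < AZ t ≤ tanh (t/2)^2`, and `cval t < binEntropy ((1 - √(AZ t))/2)`.
-/

set_option autoImplicit false

namespace Pool.Agent.Lib.MP_0430e4_lc.AC.Iq

open Real Filter Topology Finset

open Exact (sech sech_pos sech_neg sech_zero sech_le_one sech_le_exp sech_anti hm cval)

/-! ### the double series -/

/-- the double series -/
noncomputable def dd (t : ℝ) (p : ℕ × ℕ) : ℝ :=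
  (-1) ^ p.1 * (4 * ((p.1 : ℝ) + 1)) * (exp (-t)) ^ ((p.1 + 1) * (2 * p.2 + 1))

theorem summable_dd {t : ℝ} (ht : 0 < t) : Summable (dd t) := by
  have hr0 : 0 < exp (-t) := exp_pos _
  have hr : exp (-t) < 1 := by rw [exp_lt_one_iff]; linarith
  have h1 : Summable fun m : ℕ => 4 * ((m : ℝ) + 1) * exp (-t) ^ m := by
    have h2 := summable_pow_mul_geometric_of_norm_lt_one (R := ℝ) 1 (r := exp (-t))
      (by rwa [Real.norm_of_nonneg hr0.le])
    have h3 := summable_geometric_of_lt_one hr0.le hr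
    refine ((h2.add h3).mul_left 4).congr fun m => ?_
    rw [pow_one]; ring
  have h2 : Summable fun j : ℕ => exp (-t) ^ j := summable_geometric_of_lt_one hr0.le hr
  have h3 : Summable fun p : ℕ × ℕ => (4 * ((p.1 : ℝ) + 1) * exp (-t) ^ p.1) * exp (-t) ^ p.2 :=
    h1.mul_of_nonneg h2 (fun m => by positivity) (fun m => by positivity)
  apply Summable.of_norm_bounded h3
  rintro ⟨m, j⟩
  unfold dd
  simp only
  rw [norm_mul, norm_mul, norm_pow, norm_neg, norm_one, one_pow, one_mul,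
    Real.norm_of_nonneg (by positivity), Real.norm_of_nonneg (by positivity)]
  have e : 4 * ((m : ℝ) + 1) * exp (-t) ^ m * exp (-t) ^ j =
      4 * ((m : ℝ) + 1) * exp (-t) ^ (m + j) := by rw [pow_add]; ring
  rw [e]
  apply mul_le_mul_of_nonneg_left _ (by positivity)
  apply pow_le_pow_of_le_one hr0.le hr.le
  nlinarith [Nat.zero_le (m * j)]

theorem row_dd {t : ℝ} (ht : 0 < t) (m : ℕ) :
    ∑' j : ℕ, dd t (m, j) = (-1) ^ m * (2 * ((m : ℝ) + 1) / sinh (((m : ℝ) + 1) * t)) := by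
  have hm : (0 : ℝ) < (m : ℝ) + 1 := by positivity
  have hr0 : 0 < exp (-t) := exp_pos _
  have hr : exp (-t) < 1 := by rw [exp_lt_one_iff]; linarith
  set x : ℝ := exp (-t) ^ (m + 1) with hx
  have hx0 : 0 < x := by positivity
  have hx1 : x < 1 := pow_lt_one₀ hr0.le hr (by omega)
  have hx2 : x ^ 2 < 1 := pow_lt_one₀ hx0.le hx1 (by norm_num)
  have h1 : ∀ j : ℕ, dd t (m, j) = (-1) ^ m * (4 * ((m : ℝ) + 1)) * x * (x ^ 2) ^ j := by
    intro j
    unfold dd
    simp only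
    have e2 : (x ^ 2) ^ j = exp (-t) ^ ((m + 1) * 2 * j) := by rw [pow_mul, pow_mul, ← hx]
    have e : (m + 1) * (2 * j + 1) = (m + 1) + (m + 1) * 2 * j := by ring
    rw [e2, e, pow_add, ← hx]
    ring
  simp only [h1]
  rw [tsum_mul_left, tsum_geometric_of_lt_one (by positivity) hx2]
  have h2 : sinh (((m : ℝ) + 1) * t) = (1 - x ^ 2) / (2 * x) := by
    rw [sinh_eq]
    have e1 : exp (-(((m : ℝ) + 1) * t)) = x := by
      rw [hx, ← exp_nat_mul]; congr 1; push_cast; ring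
    have e2 : exp (((m : ℝ) + 1) * t) = x⁻¹ := by
      rw [← e1, exp_neg, inv_inv]
    rw [e1, e2]
    field_simp
  rw [h2]
  have h3 : (1 - x ^ 2) ≠ 0 := by linarith
  field_simp
  ring

theorem col_dd {t : ℝ} (ht : 0 < t) (j : ℕ) :
    ∑' m : ℕ, dd t (m, j) = sech (((j : ℝ) + 1 / 2) * t) ^ 2 := by
  have hr0 : 0 < exp (-t) := exp_pos _
  have hr : exp (-t) < 1 := by rw [exp_lt_one_iff]; linarith
  set x : ℝ := exp (-t) ^ (2 * j + 1) with hx
  have hx0 : 0 < x := by positivity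
  have hx1 : x < 1 := pow_lt_one₀ hr0.le hr (by omega)
  have h0 : HasSum (fun n : ℕ => (n : ℝ) * (-x) ^ n) (-x / (1 - -x) ^ 2) :=
    hasSum_coe_mul_geometric_of_norm_lt_one (by rw [norm_neg, Real.norm_of_nonneg hx0.le]; exact hx1)
  have h1 : HasSum (fun n : ℕ => ((n + 1 : ℕ) : ℝ) * (-x) ^ (n + 1)) (-x / (1 - -x) ^ 2) := by
    have h2 := (hasSum_nat_add_iff' 1).mpr h0
    simpa using h2
  have h2 := h1.mul_left (-4)
  have h3 : ∀ m : ℕ, dd t (m, j) = -4 * (((m + 1 : ℕ) : ℝ) * (-x) ^ (m + 1)) := by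
    intro m
    unfold dd
    simp only
    have e : exp (-t) ^ ((m + 1) * (2 * j + 1)) = x ^ (m + 1) := by
      rw [hx, ← pow_mul]; congr 1; ring
    rw [e, neg_pow x (m + 1), pow_succ (-1 : ℝ) m]
    push_cast
    ring
  simp only [h3]
  rw [h2.tsum_eq]
  unfold Exact.sech
  have e1 : exp (-(((j : ℝ) + 1 / 2) * t)) ^ 2 = x := by
    rw [hx, ← exp_nat_mul, ← exp_nat_mul]; congr 1; push_cast; ring
  set y : ℝ := exp (-(((j : ℝ) + 1 / 2) * t)) with hy
  have hy0 : 0 < y := exp_pos _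
  have e2 : exp (((j : ℝ) + 1 / 2) * t) = y⁻¹ := by rw [hy, exp_neg, inv_inv]
  have e3 : (y⁻¹ + y) / 2 = (1 + y ^ 2) / (2 * y) := by field_simp
  have e4 : (1 + y ^ 2) ≠ 0 := by positivity
  rw [cosh_eq, e2, ← hy, ← e1, e3, inv_div, sub_neg_eq_add]
  field_simp
  ring

/-- `∑ (-1)^m 2(m+1)/sinh((m+1)t) = ∑ sech((j+1/2)t)^2` -/
theorem lambert {t : ℝ} (ht : 0 < t) :
    ∑' m : ℕ, (-1) ^ m * (2 * ((m : ℝ) + 1) / sinh (((m : ℝ) + 1) * t)) =
      ∑' j : ℕ, sech (((j : ℝ) + 1 / 2) * t) ^ 2 := by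
  have hs := summable_dd ht
  have h1 := hs.tsum_prod
  have hs' : Summable ((dd t) ∘ (Equiv.prodComm ℕ ℕ)) := (Equiv.prodComm ℕ ℕ).summable_iff.mpr hs
  have h2 := hs'.tsum_prod
  have h0 : ∑' p, ((dd t) ∘ (Equiv.prodComm ℕ ℕ)) p = ∑' p, dd t p :=
    (Equiv.prodComm ℕ ℕ).tsum_eq (dd t)
  rw [h0, h1] at h2
  simp only [Function.comp, Equiv.prodComm_apply, Prod.swap_prod_mk] at h2
  calc _ = ∑' m : ℕ, ∑' j : ℕ, dd t (m, j) := tsum_congr fun m => (row_dd ht m).symm
    _ = ∑' j : ℕ, ∑' m : ℕ, dd t (m, j) := h2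
    _ = _ := tsum_congr fun j => col_dd ht j

theorem summable_sq_z {t : ℝ} (ht : 0 < t) : Summable fun j : ℤ => sz j * sech (j * t) ^ 2 := by
  apply Summable.of_norm
  refine Summable.of_nonneg_of_le (fun j => norm_nonneg _) (fun j => ?_) (summable_z ht)
  rw [norm_mul, Real.norm_eq_abs, abs_sz, one_mul, Real.norm_of_nonneg (sq_nonneg _)]
  have h1 := sech_pos (j * t)
  have h2 := sech_le_one (j * t)
  nlinarith

theorem BZ_eq {t : ℝ} (ht : 0 < t) :
    BZ t = 1 + 2 * ∑' m : ℕ, (-1) ^ (m + 1) * sech (((m : ℝ) + 1) * t) ^ 2 := by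
  unfold BZ
  rw [tsum_even (summable_sq_z ht)]
  · rw [sz_zero]
    simp only [Int.cast_zero, zero_mul, sech_zero, one_pow, mul_one]
    congr 2
    apply tsum_congr
    intro m
    have h3 : sz ((m : ℤ) + 1) = (-1) ^ (m + 1) := by
      have := sz_nat (m + 1)
      push_cast at this
      exact this
    rw [h3]
    push_cast
    rfl
  · intro j
    rw [sz_neg]
    have e1 : ((-j : ℤ) : ℝ) * t = -((j : ℝ) * t) := by push_cast; ring
    rw [e1, sech_neg]

theorem AZ_eq {t : ℝ} (ht : 0 < t) :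
    AZ t = 1 + 2 * ∑' m : ℕ, (-1) ^ (m + 1) * sech (((m : ℝ) + 1) * t) := by
  have hs : Summable fun j : ℤ => sz j * sech (j * t) := (summable_norm_sz ht).of_norm
  unfold AZ
  rw [tsum_even hs]
  · rw [sz_zero]
    simp only [Int.cast_zero, zero_mul, sech_zero, mul_one]
    congr 2
    apply tsum_congr
    intro m
    have h3 : sz ((m : ℤ) + 1) = (-1) ^ (m + 1) := by
      have := sz_nat (m + 1)
      push_cast at this
      exact this
    rw [h3]
    push_cast
    rfl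
  · intro j
    rw [sz_neg]
    have e1 : ((-j : ℤ) : ℝ) * t = -((j : ℝ) * t) := by push_cast; ring
    rw [e1, sech_neg]

/-- **`AZ t ^ 2 = BZ (t / 2)`** -/
theorem AZ_sq_eq {t : ℝ} (ht : 0 < t) : AZ t ^ 2 = BZ (t / 2) := by
  have ht2 : 0 < t / 2 := by linarith
  rw [AZ_sq ht, BZ_eq ht2, Exact.tsum_int_sq ht]
  have h1 : ∑' m : ℕ, (-1) ^ (m + 1) * (2 * ((m : ℝ) + 1) / sinh (((m : ℝ) + 1) * t)) =
      - ∑' j : ℕ, sech (((j : ℝ) + 1 / 2) * t) ^ 2 := by
    rw [← lambert ht, ← tsum_neg]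
    apply tsum_congr
    intro m
    rw [pow_succ]; ring
  have hs : Summable fun m : ℕ => (-1 : ℝ) ^ (m + 1) * sech (((m : ℝ) + 1) * (t / 2)) ^ 2 := by
    apply Summable.of_norm
    refine (Exact.summable_succ_sq ht2).congr fun m => ?_
    rw [norm_mul, norm_pow, norm_neg, norm_one, one_pow, one_mul, Real.norm_of_nonneg (sq_nonneg _)]
  have hev : Summable fun k : ℕ => (-1 : ℝ) ^ (2 * k + 1) *
      sech ((((2 * k : ℕ) : ℝ) + 1) * (t / 2)) ^ 2 :=
    hs.comp_injective (i := fun k : ℕ => 2 * k) (fun a b h => by simpa using h)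
  have hod : Summable fun k : ℕ => (-1 : ℝ) ^ (2 * k + 1 + 1) *
      sech ((((2 * k + 1 : ℕ) : ℝ) + 1) * (t / 2)) ^ 2 :=
    hs.comp_injective (i := fun k : ℕ => 2 * k + 1) (fun a b h => by simpa using h)
  have h5 := tsum_even_add_odd
    (f := fun m : ℕ => (-1 : ℝ) ^ (m + 1) * sech (((m : ℝ) + 1) * (t / 2)) ^ 2) hev hod
  rw [h1, ← h5]
  have e1 : ∀ k : ℕ, (-1 : ℝ) ^ (2 * k + 1) * sech ((((2 * k : ℕ) : ℝ) + 1) * (t / 2)) ^ 2 =
      -(sech (((k : ℝ) + 1 / 2) * t) ^ 2) := by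
    intro k
    rw [pow_succ, pow_mul]
    have : ((((2 * k : ℕ) : ℝ) + 1) * (t / 2)) = ((k : ℝ) + 1 / 2) * t := by push_cast; ring
    rw [this]
    norm_num
  have e2 : ∀ k : ℕ, (-1 : ℝ) ^ (2 * k + 1 + 1) *
      sech ((((2 * k + 1 : ℕ) : ℝ) + 1) * (t / 2)) ^ 2 = sech (((k : ℝ) + 1) * t) ^ 2 := by
    intro k
    have e : (-1 : ℝ) ^ (2 * k + 1 + 1) = 1 := by
      rw [show 2 * k + 1 + 1 = 2 * (k + 1) by ring, pow_mul]; norm_num
    have : ((((2 * k + 1 : ℕ) : ℝ) + 1) * (t / 2)) = ((k : ℝ) + 1) * t := by push_cast; ring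
    rw [this, e, one_mul]
  simp only [e1, e2]
  rw [tsum_neg]
  ring

/-! ### bounds -/

theorem SZ_ge {t : ℝ} (ht : 0 < t) : 1 + 2 * sech t ≤ SZ t := by
  unfold SZ
  rw [Exact.tsum_int ht]
  have h1 := (Exact.summable_succ ht).le_tsum 0 (fun j _ => (sech_pos _).le)
  simp only [Nat.cast_zero, zero_add, one_mul] at h1
  linarith

theorem summable_alt {t c : ℝ} (ht : 0 < t) (hc : 0 ≤ c) :
    Summable fun m : ℕ => (-1 : ℝ) ^ m * sech (((m : ℝ) + c) * t) := by
  apply Summable.of_norm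
  have hr : exp (-t) < 1 := by rw [exp_lt_one_iff]; linarith
  have hg : Summable fun j : ℕ => 2 * exp (-t) ^ j :=
    (summable_geometric_of_lt_one (exp_pos _).le hr).mul_left 2
  refine Summable.of_nonneg_of_le (fun j => norm_nonneg _) (fun j => ?_) hg
  rw [norm_mul, norm_pow, norm_neg, norm_one, one_pow, one_mul, Real.norm_of_nonneg (sech_pos _).le]
  refine (sech_le_exp _).trans ?_
  rw [← exp_nat_mul]
  apply mul_le_mul_of_nonneg_left _ (by norm_num)
  apply exp_le_exp.2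
  have : 0 ≤ c * t := mul_nonneg hc ht.le
  nlinarith

/-- alternating bounds -/
theorem AZ_bounds {t : ℝ} (ht : 0 < t) :
    1 - 2 * sech t ≤ AZ t ∧ AZ t ≤ 1 - 2 * sech t + 2 * sech (2 * t) := by
  rw [AZ_eq ht]
  have hs := summable_alt (c := 1) ht zero_le_one
  have h1 : ∑' m : ℕ, (-1) ^ (m + 1) * sech (((m : ℝ) + 1) * t) =
      -∑' m : ℕ, (-1) ^ m * sech (((m : ℝ) + 1) * t) := by
    rw [← tsum_neg]
    apply tsum_congr
    intro m
    rw [pow_succ]; ring
  have hanti : Antitone fun m : ℕ => sech (((m : ℝ) + 1) * t) := by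
    apply antitone_nat_of_succ_le
    intro m
    apply sech_anti (by positivity)
    push_cast
    nlinarith
  have htend := hs.hasSum.tendsto_sum_nat
  have h2 := hanti.tendsto_le_alternating_series htend 0
  have h3 := hanti.alternating_series_le_tendsto htend 1
  simp only [mul_zero, zero_add, mul_one, sum_range_succ, range_one, sum_singleton,
    pow_zero, Nat.cast_zero, one_mul, pow_one, Nat.cast_one] at h2 h3
  rw [h1]
  have e : (1 + 1 : ℝ) * t = 2 * t := by ring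
  rw [e] at h3
  constructor <;> linarith

/-- tanh of the half argument -/
theorem tanh_half_sq (t : ℝ) : tanh (t / 2) ^ 2 = (cosh t - 1) / (cosh t + 1) := by
  rw [tanh_eq_sinh_div_cosh]
  have h1 : cosh t = 2 * cosh (t / 2) ^ 2 - 1 := by
    have h2 := cosh_two_mul (t / 2)
    rw [show 2 * (t / 2) = t by ring] at h2
    have h3 := cosh_sq (t / 2)
    linarith
  have h2 : sinh (t / 2) ^ 2 = cosh (t / 2) ^ 2 - 1 := by
    have := cosh_sq (t / 2); linarith
  have h3 := cosh_pos (t / 2)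
  rw [div_pow, h2, h1]
  field_simp
  ring

theorem tanh_sq' (t : ℝ) : tanh t ^ 2 = (cosh t ^ 2 - 1) / cosh t ^ 2 := by
  rw [tanh_eq_sinh_div_cosh, div_pow]
  have := cosh_sq t
  congr 1
  linarith

/-- the recursion -/
theorem AZ_rec {t : ℝ} (ht : 0 < t) : AZ t * SZ t = AZ (2 * t) ^ 2 := by
  rw [AZ_mul_SZ ht, AZ_sq_eq (by linarith : 0 < 2 * t)]
  congr 1
  ring

theorem AZ_step {t : ℝ} (ht : 0 < t) (h : 0 < AZ (2 * t) ∧ AZ (2 * t) ≤ tanh t ^ 2) :
    0 < AZ t ∧ AZ t ≤ tanh (t / 2) ^ 2 := by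
  have hS := SZ_ge ht
  have hsp := sech_pos t
  have hS0 : 0 < SZ t := by linarith
  have hr := AZ_rec ht
  have hp : 0 < AZ t := by
    have h1 : 0 < AZ t * SZ t := by rw [hr]; exact pow_pos h.1 2
    exact (mul_pos_iff_of_pos_right hS0).1 h1
  refine ⟨hp, ?_⟩
  have hc : 1 < cosh t := one_lt_cosh.2 ht.ne'
  set c := cosh t with hcd
  have hse : sech t = 1 / c := by unfold Exact.sech; rw [one_div]
  have h1 : AZ t * (1 + 2 / c) ≤ ((c ^ 2 - 1) / c ^ 2) ^ 2 := by
    calc AZ t * (1 + 2 / c) ≤ AZ t * SZ t := by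
          apply mul_le_mul_of_nonneg_left _ hp.le
          rw [hse] at hS
          have : 2 / c = 2 * (1 / c) := by ring
          rw [this]; exact hS
      _ = AZ (2 * t) ^ 2 := hr
      _ ≤ (tanh t ^ 2) ^ 2 := pow_le_pow_left₀ h.1.le h.2 2
      _ = _ := by rw [tanh_sq']
  rw [tanh_half_sq, le_div_iff₀ (by linarith)]
  have h2 : AZ t * (c ^ 3 * (c + 2)) ≤ (c ^ 2 - 1) ^ 2 := by
    have h3 := mul_le_mul_of_nonneg_right h1 (by positivity : (0 : ℝ) ≤ c ^ 4)
    have e1 : AZ t * (1 + 2 / c) * c ^ 4 = AZ t * (c ^ 3 * (c + 2)) := by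
      field_simp
    have e2 : ((c ^ 2 - 1) / c ^ 2) ^ 2 * c ^ 4 = (c ^ 2 - 1) ^ 2 := by
      field_simp
    rwa [e1, e2] at h3
  have hpos : 0 < c ^ 3 * (c + 2) := by positivity
  have h4 : AZ t * (c + 1) * (c ^ 3 * (c + 2)) ≤ (c - 1) * (c ^ 3 * (c + 2)) := by
    calc AZ t * (c + 1) * (c ^ 3 * (c + 2)) = AZ t * (c ^ 3 * (c + 2)) * (c + 1) := by ring
      _ ≤ (c ^ 2 - 1) ^ 2 * (c + 1) := mul_le_mul_of_nonneg_right h2 (by linarith)
      _ = (c - 1) * (c ^ 4 + 2 * c ^ 3 - 2 * c - 1) := by ring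
      _ ≤ (c - 1) * (c ^ 3 * (c + 2)) := by
          apply mul_le_mul_of_nonneg_left _ (by linarith)
          nlinarith
  exact le_of_mul_le_mul_right h4 hpos

theorem AZ_large {t : ℝ} (ht : 2 ≤ t) : 0 < AZ t ∧ AZ t ≤ tanh (t / 2) ^ 2 := by
  have ht0 : 0 < t := by linarith
  obtain ⟨h1, h2⟩ := AZ_bounds ht0
  have hc : 3 ≤ cosh t := by
    have h3 : cosh 2 ≤ cosh t := by
      rw [cosh_le_cosh, abs_of_pos (by norm_num), abs_of_pos ht0]; exact ht
    have h4 : (3 : ℝ) ≤ cosh 2 := by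
      have h5 : cosh 2 = 2 * cosh 1 ^ 2 - 1 := by
        have h6 := cosh_two_mul (1 : ℝ)
        rw [mul_one] at h6
        have h7 := cosh_sq (1 : ℝ)
        linarith
      have h6 : (1.5 : ℝ) ≤ cosh 1 := by
        rw [cosh_eq]
        have h7 := Real.exp_one_gt_d9
        have h8 : 0.3 ≤ exp (-1 : ℝ) := by
          rw [exp_neg, le_inv_comm₀ (by norm_num) (exp_pos _)]
          have := Real.exp_one_lt_d9
          linarith [this, show (2.7182818286 : ℝ) ≤ 0.3⁻¹ by norm_num]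
        linarith
      rw [h5]; nlinarith
    linarith
  set c := cosh t with hcd
  have hse : sech t = 1 / c := by unfold Exact.sech; rw [one_div]
  have hse2 : sech (2 * t) = 1 / (2 * c ^ 2 - 1) := by
    unfold Exact.sech
    rw [cosh_two_mul, one_div]
    have := cosh_sq t
    congr 1
    rw [hcd]; linarith
  constructor
  · rw [hse] at h1
    have : 2 * (1 / c) ≤ 2 / 3 := by
      rw [mul_one_div, div_le_div_iff₀ (by linarith) (by norm_num)]; linarith
    linarith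
  · refine h2.trans ?_
    rw [tanh_half_sq, hse, hse2]
    have h3 : (0 : ℝ) < 2 * c ^ 2 - 1 := by nlinarith
    have h4 : (c - 1) / (c + 1) - (1 - 2 * (1 / c) + 2 * (1 / (2 * c ^ 2 - 1))) =
        2 * (c ^ 2 - c - 1) / (c * (c + 1) * (2 * c ^ 2 - 1)) := by
      obtain ⟨d, hd⟩ : ∃ d : ℝ, d = 2 * c ^ 2 - 1 := ⟨_, rfl⟩
      rw [← hd] at h3 ⊢
      have hd0 : d ≠ 0 := h3.ne'
      have hc0 : c ≠ 0 := by linarith
      have hc1 : c + 1 ≠ 0 := by linarith
      field_simp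
      rw [hd]
      ring
    have h5 : 0 ≤ 2 * (c ^ 2 - c - 1) / (c * (c + 1) * (2 * c ^ 2 - 1)) := by
      apply div_nonneg
      · nlinarith
      · positivity
    linarith

theorem AZ_main {t : ℝ} (ht : 0 < t) : 0 < AZ t ∧ AZ t ≤ tanh (t / 2) ^ 2 := by
  have key : ∀ n : ℕ, ∀ t : ℝ, 0 < t → 2 ≤ 2 ^ n * t → 0 < AZ t ∧ AZ t ≤ tanh (t / 2) ^ 2 := by
    intro n
    induction n with
    | zero =>
      intro t _ h
      rw [pow_zero, one_mul] at h
      exact AZ_large h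
    | succ n ih =>
      intro t ht h
      apply AZ_step ht
      have h1 := ih (2 * t) (by linarith) (by rw [pow_succ] at h; linarith)
      rwa [show 2 * t / 2 = t by ring] at h1
  obtain ⟨n, hn⟩ := pow_unbounded_of_one_lt (2 / t) (by norm_num : (1 : ℝ) < 2)
  rw [div_lt_iff₀ ht] at hn
  exact key n t ht hn.le

/-! ### the entropy -/

theorem hm_strictAnti {x y : ℝ} (hx : 0 ≤ x) (hxy : x < y) : hm y < hm x := by
  unfold Exact.hm
  apply Real.binEntropy_strictMonoOn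
  · constructor
    · positivity
    · rw [div_le_iff₀ (by positivity)]
      have : 1 ≤ exp y := one_le_exp (by linarith)
      norm_num
      linarith
  · constructor
    · positivity
    · rw [div_le_iff₀ (by positivity)]
      have : 1 ≤ exp x := one_le_exp hx
      norm_num
      linarith
  · apply one_div_lt_one_div_of_lt (by positivity)
    have := exp_lt_exp.2 hxy
    linarith

theorem cval_lt_hm {t : ℝ} (ht : 0 < t) : cval t < hm t := by
  have hs : Summable fun m : ℕ => (-1 : ℝ) ^ m * hm (((m : ℝ) + 1) * t) := by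
    apply Summable.of_norm
    refine (Exact.summable_hm ht).congr fun m => ?_
    rw [norm_mul, norm_pow, norm_neg, norm_one, one_pow, one_mul,
      Real.norm_of_nonneg (Exact.hm_nonneg _)]
  have hanti : Antitone fun m : ℕ => hm (((m : ℝ) + 1) * t) := by
    apply antitone_nat_of_succ_le
    intro m
    apply (hm_strictAnti (by positivity) _).le
    push_cast
    nlinarith
  have htend := hs.hasSum.tendsto_sum_nat
  have h2 := hanti.tendsto_le_alternating_series htend 1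
  simp only [mul_one, sum_range_succ, range_zero, sum_empty, zero_add,
    pow_zero, Nat.cast_zero, one_mul, pow_one, Nat.cast_one] at h2
  have h3 : hm ((1 + 1 + 1) * t) < hm ((1 + 1) * t) := hm_strictAnti (by positivity) (by nlinarith)
  unfold Exact.cval
  norm_num at h2 h3 ⊢
  linarith

/-- **the inequality `H(r) > 1 - L`** at the end of the second branch -/
theorem cval_lt_ent {t : ℝ} (ht : 0 < t) :
    cval t < binEntropy ((1 - √(AZ t)) / 2) := by
  obtain ⟨h1, h2⟩ := AZ_main ht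
  have ht2 : 0 ≤ tanh (t / 2) := by
    rw [tanh_eq_sinh_div_cosh]
    apply div_nonneg _ (cosh_pos _).le
    rw [sinh_nonneg_iff]; linarith
  have h3 : √(AZ t) ≤ tanh (t / 2) := by
    rw [← Real.sqrt_sq ht2]
    exact Real.sqrt_le_sqrt h2
  have h4 : hm t = binEntropy ((1 - tanh (t / 2)) / 2) := by
    rw [Exact.binEntropy_tanh]; congr 1; ring
  refine lt_of_lt_of_le (cval_lt_hm ht) ?_
  rw [h4]
  have h5 : 0 ≤ √(AZ t) := Real.sqrt_nonneg _
  have h6 : tanh (t / 2) ≤ 1 := (tanh_lt_one _).le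
  apply Real.binEntropy_strictMonoOn.monotoneOn
  · constructor
    · linarith
    · norm_num; linarith
  · constructor
    · linarith
    · norm_num; linarith
  · linarith

end Pool.Agent.Lib.MP_0430e4_lc.AC.Iq
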