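import Pool.Agent.Lib.MP_0430e4_lc.AC.YT4
import Pool.Agent.Lib.MP_0430e4_lc.Exact.INP

/-!
Project ALLCODES, part Y (helper13): the potential of branch I as a function of `x ∈ (0,1)`.

`sx b Z` is the inverse of the increasing function `Z` from `(0, b)` onto `(0,1)`; `pot_of` turns a
potential in the parameter `s` into a `Pot`; `potI` is branch I.
-/

set_option autoImplicit false

open Finset Filter Topology

namespace Pool.Agent.Lib.MP_0430e4_lc.AC

open BY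

open Classical in
/-- the inverse function of `Z` on `(0, b)` -/
noncomputable def sx (b : ℝ) (Z : ℝ → ℝ) (x : ℝ) : ℝ :=
  if h : ∃ s : ℝ, 0 < s ∧ s < b ∧ Z s = x then h.choose else 0

theorem sx_spec {b : ℝ} {Z : ℝ → ℝ} {x : ℝ} (h : ∃ s : ℝ, 0 < s ∧ s < b ∧ Z s = x) :
    0 < sx b Z x ∧ sx b Z x < b ∧ Z (sx b Z x) = x := by
  unfold sx
  rw [dif_pos h]
  exact h.choose_spec

/-- `Z` increases from `0` to `1` on `(0, b)` -/
structure Up (b : ℝ) (Z Z' : ℝ → ℝ) : Prop where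
  hb : 0 < b
  hd : ∀ s, 0 < s → s < b → HasDerivAt Z (Z' s) s
  pos : ∀ s, 0 < s → s < b → 0 < Z' s
  cont : ∀ s, 0 < s → s < b → ContinuousAt Z' s
  zero : Tendsto Z (𝓝[>] 0) (𝓝 0)
  one : Tendsto Z (𝓝[<] b) (𝓝 1)

namespace Up

variable {b : ℝ} {Z Z' : ℝ → ℝ} (H : Up b Z Z')
include H

theorem mono : StrictMonoOn Z (Set.Ioo 0 b) := by
  apply strictMonoOn_of_deriv_pos (convex_Ioo 0 b)
  · intro s hs
    exact (H.hd s hs.1 hs.2).continuousAt.continuousWithinAt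
  · intro s hs
    rw [interior_Ioo] at hs
    rw [(H.hd s hs.1 hs.2).deriv]
    exact H.pos s hs.1 hs.2

theorem exists_s {x : ℝ} (h0 : 0 < x) (h1 : x < 1) : ∃ s : ℝ, 0 < s ∧ s < b ∧ Z s = x := by
  have hb := H.hb
  have e1 : ∀ᶠ s in 𝓝[>] (0 : ℝ), Z s < x := H.zero.eventually_lt_const h0
  have e2 : ∀ᶠ s in 𝓝[<] b, x < Z s := H.one.eventually_const_lt h1
  have f1 : ∀ᶠ s in 𝓝[>] (0 : ℝ), s ∈ Set.Ioo 0 (b / 2) := Ioo_mem_nhdsGT (by linarith)
  have f2 : ∀ᶠ s in 𝓝[<] b, s ∈ Set.Ioo (b / 2) b := Ioo_mem_nhdsLT (by linarith)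
  obtain ⟨s1, hs1, hs1'⟩ := (e1.and f1).exists
  obtain ⟨s2, hs2, hs2'⟩ := (e2.and f2).exists
  have hle : s1 ≤ s2 := by linarith [hs1'.2, hs2'.1]
  have hc : ContinuousOn Z (Set.Icc s1 s2) := fun s hs =>
    (H.hd s (by linarith [hs1'.1, hs.1]) (by linarith [hs2'.2, hs.2])).continuousAt.continuousWithinAt
  obtain ⟨s, hs, hsx⟩ := intermediate_value_Icc hle hc ⟨hs1.le, hs2.le⟩
  exact ⟨s, by linarith [hs1'.1, hs.1], by linarith [hs2'.2, hs.2], hsx⟩

theorem spec {x : ℝ} (h0 : 0 < x) (h1 : x < 1) :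
    0 < sx b Z x ∧ sx b Z x < b ∧ Z (sx b Z x) = x := sx_spec (H.exists_s h0 h1)

theorem mem {s : ℝ} (h0 : 0 < s) (h1 : s < b) : 0 < Z s ∧ Z s < 1 := by
  constructor
  · have h2 : Z (s / 2) ≤ Z s := (H.mono ⟨by linarith, by linarith⟩ ⟨h0, h1⟩ (by linarith)).le
    have h3 : 0 ≤ Z (s / 2) := by
      apply le_of_tendsto H.zero
      filter_upwards [Ioo_mem_nhdsGT (show (0 : ℝ) < s / 2 by linarith)] with y hy
      exact (H.mono ⟨hy.1, by linarith [hy.2]⟩ ⟨by linarith, by linarith⟩ hy.2).le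
    have h4 : Z (s / 2) < Z s := H.mono ⟨by linarith, by linarith⟩ ⟨h0, h1⟩ (by linarith)
    linarith
  · set u := (s + b) / 2 with hu
    have h4 : Z s < Z u := H.mono ⟨h0, h1⟩ ⟨by linarith, by linarith⟩ (by linarith)
    have h3 : Z u ≤ 1 := by
      apply ge_of_tendsto H.one
      filter_upwards [Ioo_mem_nhdsLT (show u < b by linarith)] with y hy
      exact (H.mono ⟨by linarith, by linarith⟩ ⟨by linarith [hy.1], hy.2⟩ hy.1).le
    linarith

theorem inv_eq {s : ℝ} (h0 : 0 < s) (h1 : s < b) : sx b Z (Z s) = s := by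
  obtain ⟨m0, m1⟩ := H.mem h0 h1
  obtain ⟨a, c, e⟩ := H.spec m0 m1
  exact H.mono.injOn ⟨a, c⟩ ⟨h0, h1⟩ e

theorem inv_lt {x s : ℝ} (h0 : 0 < x) (h1 : x < 1) (s0 : 0 < s) (s1 : s < b) (h : x < Z s) :
    sx b Z x < s := by
  obtain ⟨a, c, e⟩ := H.spec h0 h1
  by_contra hcon
  push Not at hcon
  have := H.mono.monotoneOn ⟨s0, s1⟩ ⟨a, c⟩ hcon
  linarith

theorem lt_inv {x s : ℝ} (h0 : 0 < x) (h1 : x < 1) (s0 : 0 < s) (s1 : s < b) (h : Z s < x) :
    s < sx b Z x := by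
  obtain ⟨a, c, e⟩ := H.spec h0 h1
  by_contra hcon
  push Not at hcon
  have := H.mono.monotoneOn ⟨a, c⟩ ⟨s0, s1⟩ hcon
  linarith

theorem inv_cont {x : ℝ} (h0 : 0 < x) (h1 : x < 1) : ContinuousAt (sx b Z) x := by
  obtain ⟨a, c, e⟩ := H.spec h0 h1
  set s := sx b Z x with hs
  rw [Metric.continuousAt_iff]
  intro ε hε
  obtain ⟨r, hr⟩ : ∃ r : ℝ, r = min (ε / 2) (min (s / 2) ((b - s) / 2)) := ⟨_, rfl⟩
  have hr0 : 0 < r := by rw [hr]; exact lt_min (by linarith) (lt_min (by linarith) (by linarith))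
  have hr1 : r ≤ ε / 2 := by rw [hr]; exact min_le_left _ _
  have hr2 : r ≤ s / 2 := by rw [hr]; exact (min_le_right _ _).trans (min_le_left _ _)
  have hr3 : r ≤ (b - s) / 2 := by rw [hr]; exact (min_le_right _ _).trans (min_le_right _ _)
  have l1 : Z (s - r) < x := by
    rw [← e]; exact H.mono ⟨by linarith, by linarith⟩ ⟨a, c⟩ (by linarith)
  have l2 : x < Z (s + r) := by
    rw [← e]; exact H.mono ⟨a, c⟩ ⟨by linarith, by linarith⟩ (by linarith)
  refine ⟨min (min (x - Z (s - r)) (Z (s + r) - x)) (min x (1 - x)), ?_, ?_⟩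
  · exact lt_min (lt_min (by linarith) (by linarith)) (lt_min h0 (by linarith))
  · intro y hy
    rw [Real.dist_eq] at hy
    have k1 : |y - x| < x - Z (s - r) :=
      hy.trans_le ((min_le_left _ _).trans (min_le_left _ _))
    have k2 : |y - x| < Z (s + r) - x :=
      hy.trans_le ((min_le_left _ _).trans (min_le_right _ _))
    have k3 : |y - x| < x := hy.trans_le ((min_le_right _ _).trans (min_le_left _ _))
    have k4 : |y - x| < 1 - x := hy.trans_le ((min_le_right _ _).trans (min_le_right _ _))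
    rw [abs_lt] at k1 k2 k3 k4
    have y0 : 0 < y := by linarith [k3.1]
    have y1 : y < 1 := by linarith [k4.2]
    have m1 := H.lt_inv y0 y1 (s := s - r) (by linarith) (by linarith) (by linarith [k1.1])
    have m2 := H.inv_lt y0 y1 (s := s + r) (by linarith) (by linarith) (by linarith [k2.2])
    rw [Real.dist_eq, abs_lt]
    constructor <;> linarith

theorem inv_deriv {x : ℝ} (h0 : 0 < x) (h1 : x < 1) :
    HasDerivAt (sx b Z) (Z' (sx b Z x))⁻¹ x := by
  obtain ⟨a, c, e⟩ := H.spec h0 h1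
  apply HasDerivAt.of_local_left_inverse (H.inv_cont h0 h1) (H.hd _ a c) (H.pos _ a c).ne'
  filter_upwards [Ioo_mem_nhds h0 h1] with y hy
  exact (H.spec hy.1 hy.2).2.2

theorem inv_zero : Tendsto (sx b Z) (𝓝[>] 0) (𝓝[>] 0) := by
  rw [tendsto_nhdsWithin_iff]
  have hb := H.hb
  have hpos : ∀ᶠ x in 𝓝[>] (0 : ℝ), 0 < sx b Z x := by
    filter_upwards [Ioo_mem_nhdsGT (show (0 : ℝ) < 1 by norm_num)] with x hx
    exact (H.spec hx.1 hx.2).1
  refine ⟨?_, hpos⟩
  rw [Metric.tendsto_nhds]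
  intro ε hε
  obtain ⟨r, hr⟩ : ∃ r : ℝ, r = min (ε / 2) (b / 2) := ⟨_, rfl⟩
  have hr0 : 0 < r := by rw [hr]; exact lt_min (by linarith) (by linarith)
  have hr1 : r ≤ ε / 2 := by rw [hr]; exact min_le_left _ _
  have hr2 : r ≤ b / 2 := by rw [hr]; exact min_le_right _ _
  have hZ := H.mem hr0 (by linarith)
  filter_upwards [Ioo_mem_nhdsGT (show (0 : ℝ) < Z r from hZ.1), hpos] with x hx hxp
  have h1 : x < 1 := hx.2.trans hZ.2
  have h2 := H.inv_lt hx.1 h1 hr0 (by linarith) hx.2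
  rw [Real.dist_eq, sub_zero, abs_of_pos hxp]
  linarith

end Up

/-- a potential given in the parameter `s` -/
theorem pot_of {δ b : ℝ} {Z Z' W W' : ℝ → ℝ} (H : Up b Z Z')
    (hW : ∀ s, 0 < s → s < b → HasDerivAt W (W' s) s)
    (hWc : ∀ s, 0 < s → s < b → ContinuousAt W' s)
    (hs : Tendsto (fun s => W s / Z s) (𝓝[>] 0) (𝓝 (1 - 2 * δ)))
    (lb : ∀ s β, 0 < s → s < b → 0 < β → ∃ a : ℝ, 0 < a ∧ ∃ n0 : ℕ, ∀ n ≥ n0, ∀ (l : ℝ)
      (f : Wd n → ℝ), WCert l f → (1 - 2 * δ) * n ≤ l → ∑ x, f x ≤ pw n (Tensor.ell δ + a) →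
      Real.exp (n * (W s - β)) ≤ Pfr f (Z s))
    (ub : ∀ s β, 0 < s → s < b → 0 < β → ∃ a : ℝ, 0 < a ∧ ∃ n0 : ℕ, ∀ n ≥ n0, ∀ (l : ℝ)
      (f : Wd n → ℝ), WCert l f → (1 - 2 * δ) * n ≤ l → ∑ x, f x ≤ pw n (Tensor.ell δ + a) →
      Pfr f (Z s) ≤ Real.exp (n * (W s + β))) :
    Pot δ (fun x => W (sx b Z x)) (fun x => x * (W' (sx b Z x) / Z' (sx b Z x))) where
  deriv x h0 h1 := by
    obtain ⟨a, c, e⟩ := H.spec h0 h1
    have h2 := (hW _ a c).comp x (H.inv_deriv h0 h1)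
    refine h2.congr_deriv ?_
    field_simp
  cont x h0 h1 := by
    obtain ⟨a, c, e⟩ := H.spec h0 h1
    have h2 := H.inv_cont h0 h1
    have h3 : ContinuousAt (fun x => W' (sx b Z x)) x := ContinuousAt.comp (hWc _ a c) h2
    have h4 : ContinuousAt (fun x => Z' (sx b Z x)) x := ContinuousAt.comp (H.cont _ a c) h2
    exact continuousAt_id.mul (h3.div h4 (H.pos _ a c).ne')
  slope := by
    have h2 := hs.comp H.inv_zero
    refine h2.congr' ?_
    filter_upwards [Ioo_mem_nhdsGT (show (0 : ℝ) < 1 by norm_num)] with x hx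
    simp only [Function.comp]
    rw [(H.spec hx.1 hx.2).2.2]
  lb x β h0 h1 hβ := by
    obtain ⟨a, c, e⟩ := H.spec h0 h1
    have := lb _ β a c hβ
    rw [e] at this
    exact this
  ub x β h0 h1 hβ := by
    obtain ⟨a, c, e⟩ := H.spec h0 h1
    have := ub _ β a c hβ
    rw [e] at this
    exact this

/-! ### branch I -/

open LPLOW Lower

/-- derivative of `Zr` -/
noncomputable def Zr' (η s : ℝ) : ℝ := (1 - Zr η s ^ 2) * Ar η s

/-- derivative of `Ur` -/
noncomputable def Ur' (η c s : ℝ) : ℝ :=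
  (c - f0 (nm η)) / η + ((S (cS η) (s : ℂ)).re - 1) / 4 - Zr η s * Ar η s

section
variable {η : ℝ} (hη : 0 < η)
include hη

/-- the formula for the potential, as a function on `(-η, η)` -/
theorem hasDerivAt_Wr (c : ℝ) {s : ℝ} (hs : |s| < η) :
    HasDerivAt (fun s : ℝ => (c - f0 (nm η)) / η * s + (S (Lower.cU η) (s : ℂ)).re +
      Real.log (1 - Zr η s ^ 2) / 2) (Ur' η c s) s := by
  have h1 := (Lower.hasDerivAt_U hη (s := (s : ℂ)) (by simpa using hs)).real_of_complex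
  have h2 : HasDerivAt (fun s : ℝ => (c - f0 (nm η)) / η * s) ((c - f0 (nm η)) / η) s := by
    simpa using (hasDerivAt_id s).const_mul ((c - f0 (nm η)) / η)
  have h3 := hasDerivAt_Zr hη hs
  have h4 := ((h3.pow 2).const_sub 1).log (one_sub_Zr_sq_pos s).ne'
  refine ((h2.add h1).add (h4.div_const 2)).congr_deriv ?_
  unfold Ur'
  have h5 : ((S (cS η) (s : ℂ) - 1) / 4).re = ((S (cS η) (s : ℂ)).re - 1) / 4 := by
    have h3 : (S (cS η) (s : ℂ) - 1) / 4 = ((((1 : ℝ) / 4 : ℝ)) : ℂ) * (S (cS η) (s : ℂ) - 1) := by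
      push_cast; ring
    rw [h3, Complex.re_ofReal_mul, Complex.sub_re, Complex.one_re]
    ring
  rw [h5]
  have h6 := (one_sub_Zr_sq_pos (η := η) s).ne'
  simp only [Pi.pow_apply]
  field_simp
  push_cast
  ring

theorem hasDerivAt_Ur (c : ℝ) {s : ℝ} (h0 : 0 < s) (h1 : s < η) :
    HasDerivAt (Ur η c) (Ur' η c s) s := by
  have h := hasDerivAt_Wr hη c (s := s) (by rw [abs_of_pos h0]; exact h1)
  refine h.congr_of_eventuallyEq ?_
  filter_upwards [Ioo_mem_nhds h0 h1] with y hy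
  exact Ur_eq hη c hy.1.le hy.2

theorem cont_S {c : ℤ → ℝ} (hc : Dec η c) {s : ℝ} (hs : |s| < η) :
    ContinuousAt (fun s : ℝ => (S c (s : ℂ)).re) s := by
  have h1 := hc.continuousAt (s := (s : ℂ)) (by simpa using hs)
  have h2 : ContinuousAt (fun s : ℝ => S c (s : ℂ)) s :=
    ContinuousAt.comp (f := fun s : ℝ => (s : ℂ)) h1 Complex.continuous_ofReal.continuousAt
  exact Complex.continuous_re.continuousAt.comp h2

theorem cont_Ar {s : ℝ} (hs : |s| < η) : ContinuousAt (Ar η) s := cont_S hη (dec_cA hη) hs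

theorem cont_Zr' {s : ℝ} (hs : |s| < η) : ContinuousAt (Zr' η) s := by
  have h1 := (hasDerivAt_Zr hη hs).continuousAt
  exact (continuousAt_const.sub (h1.pow 2)).mul (cont_Ar hη hs)

theorem cont_Ur' (c : ℝ) {s : ℝ} (hs : |s| < η) : ContinuousAt (Ur' η c) s := by
  have h1 := (hasDerivAt_Zr hη hs).continuousAt
  exact (continuousAt_const.add (((cont_S hη (dec_cS hη) hs).sub continuousAt_const).div_const
    4)).sub (h1.mul (cont_Ar hη hs))

theorem Zr_tendsto_one : Tendsto (Zr η) (𝓝[<] η) (𝓝 1) := by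
  have hr0 := nm_pos hη
  have hr1 := nm_lt hη
  have h1 : ContinuousAt (fun s : ℂ => ‖zz (nm η) s‖) (η : ℂ) :=
    (zz_diff hr0 hr1 (by simpa using hη.le) (by rw [eta_nm hη]; simp)).continuousAt.norm
  have h2 : ContinuousAt (fun s : ℝ => ‖zz (nm η) (s : ℂ)‖) η :=
    ContinuousAt.comp (f := fun s : ℝ => (s : ℂ)) h1 Complex.continuous_ofReal.continuousAt
  have h3 : ‖zz (nm η) (η : ℂ)‖ = 1 := zz_norm hr0 hr1 (by rw [eta_nm hη]; simp)
  have h4 : Tendsto (fun s : ℝ => ‖zz (nm η) (s : ℂ)‖) (𝓝[<] η) (𝓝 1) := by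
    rw [← h3]
    exact h2.tendsto.mono_left nhdsWithin_le_nhds
  refine h4.congr' ?_
  filter_upwards [Ioo_mem_nhdsLT hη] with s hs
  rw [zz_real hη hs.1.le hs.2, Complex.norm_real, Real.norm_eq_abs,
    abs_of_nonneg (Zr_nonneg hη hs.1.le hs.2)]

theorem upI : Up η (Zr η) (Zr' η) where
  hb := hη
  hd s h0 h1 := hasDerivAt_Zr hη (by rw [abs_of_pos h0]; exact h1)
  pos s h0 h1 := mul_pos (one_sub_Zr_sq_pos s) (Ar_pos hη (by rw [abs_of_pos h0]; exact h1))
  cont s h0 h1 := cont_Zr' hη (by rw [abs_of_pos h0]; exact h1)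
  zero := by
    have h := (hasDerivAt_Zr hη (s := 0) (by simpa using hη)).continuousAt.tendsto
    rw [Zr_zero] at h
    exact h.mono_left nhdsWithin_le_nhds
  one := Zr_tendsto_one hη

end

/-- the potential of branch I -/
noncomputable def UI (t x : ℝ) : ℝ := Ur (t / 2) (Exact.cval t) (sx (t / 2) (Zr (t / 2)) x)

/-- `x U'(x)` on branch I -/
noncomputable def gI (t x : ℝ) : ℝ := x * (Ur' (t / 2) (Exact.cval t) (sx (t / 2) (Zr (t / 2)) x) /
  Zr' (t / 2) (sx (t / 2) (Zr (t / 2)) x))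

theorem ell_I {t : ℝ} (ht : 0 < t) :
    Tensor.ell ((1 - Exact.sI t) / 2) * Real.log 2 = Exact.cval t := by
  have hl2 : 0 < Real.log 2 := Real.log_pos (by norm_num)
  rw [(Exact.fin_I Exact.inputs ht).1]
  field_simp

theorem pw_eq_exp (n : ℕ) (x : ℝ) : pw n x = Real.exp (n * (x * Real.log 2)) := by
  unfold pw
  rw [Real.rpow_def_of_pos (by norm_num)]
  congr 1; ring

theorem potI {t : ℝ} (ht : 0 < t) : Pot ((1 - Exact.sI t) / 2) (UI t) (gI t) := by
  have hη : 0 < t / 2 := by linarith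
  have hl2 : 0 < Real.log 2 := Real.log_pos (by norm_num)
  have hlv : 1 - 2 * ((1 - Exact.sI t) / 2) = Exact.sI t := by ring
  have hell := ell_I ht
  apply pot_of (upI hη) (fun s h0 h1 => hasDerivAt_Ur hη (Exact.cval t) h0 h1)
    (fun s h0 h1 => cont_Ur' hη _ (by rw [abs_of_pos h0]; exact h1))
  · rw [hlv]
    have h1 := (hasDerivAt_Wr hη (Exact.cval t) (s := 0) (by simpa using hη)).tendsto_slope_zero_right
    have h2 := (hasDerivAt_Zr hη (s := 0) (by simpa using hη)).tendsto_slope_zero_right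
    have hA : 0 < Ar (t / 2) 0 := Ar_pos hη (by simpa using hη)
    have e1 : Ur' (t / 2) (Exact.cval t) 0 = Exact.sI t * Ar (t / 2) 0 := by
      unfold Ur'
      rw [Zr_zero, zero_mul, sub_zero, Complex.ofReal_zero, slope_crit ht]
    have e2 : (1 - Zr (t / 2) 0 ^ 2) * Ar (t / 2) 0 = Ar (t / 2) 0 := by
      rw [Zr_zero]; ring
    rw [e1] at h1
    rw [e2] at h2
    have h3 := h1.div h2 hA.ne'
    rw [mul_div_assoc, div_self hA.ne', mul_one] at h3
    refine h3.congr' ?_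
    filter_upwards [Ioo_mem_nhdsGT hη] with s hs
    have hU := Ur_eq hη (Exact.cval t) hs.1.le hs.2
    simp only [Pi.div_apply, zero_add, smul_eq_mul]
    rw [← hU, maj_zero, Zr_zero]
    have hs0 : s ≠ 0 := hs.1.ne'
    have hZ := (Zr_pos hη hs.1 hs.2).ne'
    simp only [ne_eq, OfNat.ofNat_ne_zero, not_false_eq_true, zero_pow, sub_zero, Real.log_one,
      zero_div, add_zero]
    field_simp
  · intro s β h0 h1 hβ
    obtain ⟨a, ha, h⟩ := lbI ht h0 h1 hβ
    refine ⟨a / Real.log 2, by positivity, 1, fun n hn l f hf hl hm => h n hn l f hf ?_ ?_⟩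
    · rw [hlv] at hl; exact hl
    · refine hm.trans (le_of_eq ?_)
      rw [pw_eq_exp, add_mul, hell, div_mul_cancel₀ _ hl2.ne']
  · intro s β h0 h1 hβ
    refine ⟨β / Real.log 2, by positivity, 1, fun n hn l f hf hl hm => ?_⟩
    have hm' : ∑ x, f x ≤ Real.exp (n * (Exact.cval t + β)) := by
      refine hm.trans (le_of_eq ?_)
      rw [pw_eq_exp, add_mul, hell, div_mul_cancel₀ _ hl2.ne']
    have h2 := ubI hη h0.le h1 hf hm'
    refine h2.trans (Real.exp_le_exp.2 ?_)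
    apply mul_le_mul_of_nonneg_left _ (Nat.cast_nonneg n)
    rw [Ur_add hη]
    have : β / (t / 2) * s ≤ β := by
      rw [div_mul_eq_mul_div, div_le_iff₀ hη]
      exact mul_le_mul_of_nonneg_left h1.le hβ.le
    linarith

end Pool.Agent.Lib.MP_0430e4_lc.AC
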