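import Pool.Agent.Lib.MP_0430e4_lc.AC.HiIneq
import Pool.Agent.Lib.MP_0430e4_lc.AC.IqB
import Pool.Agent.Lib.MP_0430e4_lc.AC.YT7

/-!
Project ALLCODES (helper62): `ell δ > 0` for `0 ≤ δ < 1/2`, `ell δ < 1` for `0 < δ ≤ 1/2`, and the
inequality of the high weights at every `δ` in `(0, 1/2)` (`hi_ineq'`).
-/

set_option autoImplicit false

open Finset Filter Topology

namespace Pool.Agent.Lib.MP_0430e4_lc.AC

theorem cval_pos {t : ℝ} (ht : 0 < t) : 0 < Exact.cval t := by
  have hs : Summable fun m : ℕ => (-1 : ℝ) ^ m * Exact.hm (((m : ℝ) + 1) * t) := by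
    apply Summable.of_norm
    refine (Exact.summable_hm ht).congr fun m => ?_
    rw [norm_mul, norm_pow, norm_neg, norm_one, one_pow, one_mul,
      Real.norm_of_nonneg (Exact.hm_nonneg _)]
  have hanti : Antitone fun m : ℕ => Exact.hm (((m : ℝ) + 1) * t) := by
    apply antitone_nat_of_succ_le
    intro m
    apply (Iq.hm_strictAnti (by positivity) _).le
    push_cast
    nlinarith
  have htend := hs.hasSum.tendsto_sum_nat
  have h2 := hanti.alternating_series_le_tendsto htend 1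
  simp only [mul_one, sum_range_succ, range_zero, sum_empty, zero_add,
    pow_zero, Nat.cast_zero, one_mul, pow_one, Nat.cast_one] at h2
  have h3 : Exact.hm ((1 + 1) * t) < Exact.hm t := Iq.hm_strictAnti ht.le (by nlinarith)
  unfold Exact.cval
  norm_num at h2 h3 ⊢
  linarith

theorem ell_pos {δ : ℝ} (h0 : 0 ≤ δ) (h1 : δ < 1 / 2) : 0 < Tensor.ell δ := by
  have hpi := Real.pi_pos
  have hp : (1 : ℝ) / 2 - 1 / Real.pi < 1 / 2 := by
    have : 0 < 1 / Real.pi := by positivity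
    linarith
  obtain ⟨δ', g1, g2⟩ := exists_between (max_lt h1 hp)
  have g3 : δ < δ' := lt_of_le_of_lt (le_max_left _ _) g1
  have g4 : 1 / 2 - 1 / Real.pi < δ' := lt_of_le_of_lt (le_max_right _ _) g1
  have g5 : 1 - 2 * δ' < 2 / Real.pi := by
    have e : 2 / Real.pi = 2 * (1 / Real.pi) := by ring
    rw [e]
    linarith
  obtain ⟨t, ht, hts⟩ := Exact.exists_sI (s := 1 - 2 * δ') (by linarith) g5
  refine ell_pos_of_near h0 h1 ⟨δ', g3, g2, ?_⟩
  have h := ell_I ht
  have e : (1 - Exact.sI t) / 2 = δ' := by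
    rw [hts]
    ring
  rw [e] at h
  have h2 := cval_pos ht
  rw [← h] at h2
  exact (mul_pos_iff_of_pos_right (Real.log_pos (by norm_num))).1 h2

theorem ell_lt_one {δ : ℝ} (h0 : 0 < δ) (h1 : δ ≤ 1 / 2) : Tensor.ell δ < 1 := by
  have := ell_le_plotkin h0.le h1
  linarith

/-- the inequality of the high weights at every `δ` -/
theorem hi_ineq' {δ : ℝ} (h0 : 0 < δ) (h1 : δ < 1 / 2) :
    δ * Real.log (1 / ((2 : ℝ) ^ (1 - Tensor.ell δ) - 1)) < Tensor.ell δ * Real.log 2 :=
  hi_ineq h0 h1 (ell_pos h0.le h1)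

end Pool.Agent.Lib.MP_0430e4_lc.AC
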