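import Pool.Agent.Lib.MP_0430e4_lc.AC.NX2

/-!
Project ALLCODES, module NX3 (helper10): `NoAlignX` from `MultS` and `BoxW`.

For every piece `A` and `U(A) = |∑_{x,y ∈ A} f g e^(iψ|x-y|)|`, `S(A)` = small angle kernel sum:
`U(A) ≤ δ |A|^2 + 2^(ηn) S(A)`, `δ = 2^(-2τn)/2` (if `U(A) ≥ δ |A|^2`, MULTIPLES applies). Summation
over the mixture and `WU` at `p` and at `p(c-s)/(1-p+p(c+s))` give
`Z 2^(-τn) ≤ Z (2^(-τn)/2 + 2^((η+τ)n) ρ^n)`.
-/

set_option autoImplicit false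

open Finset

namespace Pool.Agent.Lib.MP_0430e4_lc.AC

open BY BY.Four

theorem nx3_ph_pow (ψ : ℝ) (k : ℕ) : ph ψ ^ k = ph (ψ * k) := by
  unfold ph
  rw [← Complex.exp_nat_mul]
  congr 1
  push_cast
  ring

theorem nx3_cs {θ θ2 : ℝ} (h0 : 0 ≤ θ) (h1 : θ ≤ θ2) (h2 : θ2 < Real.pi / 4) :
    Real.cos θ2 ≤ Real.cos θ ∧ Real.sin θ ≤ Real.sin θ2 ∧
      Real.cos θ + Real.sin θ ≤ Real.cos θ2 + Real.sin θ2 ∧ 0 ≤ Real.sin θ ∧
      Real.sin θ2 ≤ Real.cos θ2 ∧ Real.cos θ ≤ 1 := by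
  have hπ := Real.pi_pos
  have e1 : Real.cos θ2 ≤ Real.cos θ := Real.cos_le_cos_of_nonneg_of_le_pi h0 (by linarith) h1
  have e2 : Real.sin θ ≤ Real.sin θ2 :=
    Real.sin_le_sin_of_le_of_le_pi_div_two (by linarith) (by linarith) h1
  have e4 : 0 ≤ Real.sin θ := Real.sin_nonneg_of_nonneg_of_le_pi h0 (by linarith)
  have c2 : 0 < Real.cos θ2 := Real.cos_pos_of_mem_Ioo ⟨by linarith, by linarith⟩
  have e5 : Real.sin θ2 ≤ Real.cos θ2 := by
    have h3 : Real.sin θ2 ≤ Real.sin (Real.pi / 4) :=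
      Real.sin_le_sin_of_le_of_le_pi_div_two (by linarith) (by linarith) h2.le
    have h4 : Real.cos (Real.pi / 4) ≤ Real.cos θ2 :=
      Real.cos_le_cos_of_nonneg_of_le_pi (by linarith) (by linarith) h2.le
    rw [Real.sin_pi_div_four] at h3
    rw [Real.cos_pi_div_four] at h4
    linarith
  refine ⟨e1, e2, ?_, e4, e5, Real.cos_le_one θ⟩
  have h5 : Real.sin (2 * θ) ≤ Real.sin (2 * θ2) :=
    Real.sin_le_sin_of_le_of_le_pi_div_two (by linarith) (by linarith) (by linarith)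
  rw [Real.sin_two_mul, Real.sin_two_mul] at h5
  have h6 := Real.sin_sq_add_cos_sq θ
  have h7 := Real.sin_sq_add_cos_sq θ2
  apply le_of_sq_le_sq _ (by linarith [e4.trans e2])
  linarith

/-- `v0 ≤ p (c-s) / (1-p+p(c+s))` in product form -/
theorem nx3_v0 {v0 p0 p K D K2 D2 : ℝ} (hp0 : 0 < p0) (hp : p0 ≤ p) (hp1 : p ≤ 1) (hK : 0 ≤ K)
    (hKK : K ≤ K2) (hDD : D2 ≤ D) (hD2 : 0 ≤ D2)
    (h : v0 * (1 - p0 + p0 * K2) ≤ p0 * D2) : v0 * (1 - p + p * K) ≤ p * D := by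
  have hp00 : 0 < p := hp0.trans_le hp
  rcases le_or_gt v0 0 with hv | hv
  · have h1 : 0 ≤ 1 - p + p * K := by
      have := mul_nonneg hp00.le hK
      linarith
    have h2 : v0 * (1 - p + p * K) ≤ 0 := mul_nonpos_of_nonpos_of_nonneg hv h1
    have h3 : 0 ≤ p * D := mul_nonneg hp00.le (hD2.trans hDD)
    linarith
  · have h1 : v0 * (1 - p0 + p0 * K) ≤ p0 * D := by
      have h2 : v0 * (p0 * K) ≤ v0 * (p0 * K2) :=
        mul_le_mul_of_nonneg_left (mul_le_mul_of_nonneg_left hKK hp0.le) hv.le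
      have h3 : p0 * D2 ≤ p0 * D := mul_le_mul_of_nonneg_left hDD hp0.le
      linarith
    have h2 : p0 * (v0 * (1 - p + p * K)) ≤ p0 * (p * D) := by
      have h3 := mul_le_mul_of_nonneg_left h1 hp00.le
      have h4 : v0 * p0 ≤ v0 * p := mul_le_mul_of_nonneg_left hp hv.le
      linarith
    exact le_of_mul_le_mul_left h2 hp0

/-- one piece: either no amplitude or much mass of the small angle kernel -/
private theorem nx3_cs1 {c s : ℝ} (hc : 0 ≤ c) (hs : 0 ≤ s) (h : s ^ 2 + c ^ 2 = 1) : 1 ≤ c + s := by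
  nlinarith [mul_nonneg hc hs]

theorem nx3_piece (hB : BoxW) {n : ℕ} (C : Finset (Wd n)) (J : Finset (Fin n))
    (A : Finset (Wd n)) (hA : A ∈ pcs C J) (f g : Wd n → ℂ) (hf : ∀ x, ‖f x‖ ≤ 1)
    (hg : ∀ x, ‖g x‖ ≤ 1) (m : ℕ) (ψ θ : ℝ) (hθ0 : 0 ≤ θ) (hθ : θ < Real.pi / 4) (j : ℤ)
    (h : |m * ψ - Real.pi * j| = 2 * θ) (δ τM η : ℝ) (hδ0 : 0 < δ) (hδ : pw n (-τM) ≤ δ ^ 4)
    (hM : pw n (-τM) * ((A.image lz).card : ℝ) ^ 4 ≤ Box (A.image lz) (2 * ψ) →
      pw n (-η) * ((A.image lz).card : ℝ) ^ 4 ≤ Box (A.image lz) (m * (2 * ψ))) :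
    ‖∑ x ∈ A, ∑ y ∈ A, f x * g y * ph (ψ * (wt (x - y) : ℝ))‖ ≤ δ * (A.card : ℝ) ^ 2 +
      pw n η * ∑ x ∈ A, ∑ y ∈ A, ∏ i ∈ Jᶜ,
        (if x i = y i then Real.cos θ + Real.sin θ else Real.cos θ - Real.sin θ) := by
  set U := ‖∑ x ∈ A, ∑ y ∈ A, f x * g y * ph (ψ * (wt (x - y) : ℝ))‖ with hU
  set S := ∑ x ∈ A, ∑ y ∈ A, ∏ i ∈ Jᶜ,
        (if x i = y i then Real.cos θ + Real.sin θ else Real.cos θ - Real.sin θ) with hS
  have hcs := nx3_cs hθ0 le_rfl hθ
  have hS0 : 0 ≤ S := by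
    apply Finset.sum_nonneg; intro x _
    apply Finset.sum_nonneg; intro y _
    apply Finset.prod_nonneg; intro i _
    split_ifs
    · linarith [hcs.2.2.2.1, hcs.2.2.2.2.1]
    · linarith [hcs.2.2.2.2.1]
  have hcard : (0 : ℝ) < A.card := by
    have := (pcs_nonempty hA).card_pos
    exact_mod_cast this
  rcases le_or_gt U (δ * (A.card : ℝ) ^ 2) with h1 | h1
  · have : 0 ≤ pw n η * S := mul_nonneg (pw_pos n _).le hS0
    linarith
  · have h2 : U ^ 4 ≤ (A.card : ℝ) ^ 4 * Box (A.image lz) (2 * ψ) := hB n A f g ψ hf hg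
    have h3 : (δ * (A.card : ℝ) ^ 2) ^ 4 ≤ U ^ 4 := pow_le_pow_left₀ (by positivity) h1.le 4
    have h4 : pw n (-τM) * ((A.image lz).card : ℝ) ^ 4 ≤ Box (A.image lz) (2 * ψ) := by
      rw [card_image_lz]
      have h5 : (A.card : ℝ) ^ 4 * (pw n (-τM) * (A.card : ℝ) ^ 4) ≤
          (A.card : ℝ) ^ 4 * Box (A.image lz) (2 * ψ) := by
        refine le_trans ?_ (h3.trans h2)
        have h6 : pw n (-τM) * ((A.card : ℝ) ^ 4 * (A.card : ℝ) ^ 4) ≤
            δ ^ 4 * ((A.card : ℝ) ^ 4 * (A.card : ℝ) ^ 4) :=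
          mul_le_mul_of_nonneg_right hδ (by positivity)
        calc (A.card : ℝ) ^ 4 * (pw n (-τM) * (A.card : ℝ) ^ 4)
            = pw n (-τM) * ((A.card : ℝ) ^ 4 * (A.card : ℝ) ^ 4) := by ring
          _ ≤ _ := h6
          _ = _ := by ring
      exact le_of_mul_le_mul_left h5 (by positivity)
    have h7 := hM h4
    rw [card_image_lz] at h7
    have h8 := h7.trans (piece_le A J (pcs_const hA) m ψ θ hθ0 hθ j h)
    have h9 : pw n (-η) * (A.card : ℝ) ^ 2 ≤ S := by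
      have h10 : (A.card : ℝ) ^ 2 * (pw n (-η) * (A.card : ℝ) ^ 2) ≤ (A.card : ℝ) ^ 2 * S := by
        calc (A.card : ℝ) ^ 2 * (pw n (-η) * (A.card : ℝ) ^ 2) = pw n (-η) * (A.card : ℝ) ^ 4 := by
              ring
          _ ≤ _ := h8
      exact le_of_mul_le_mul_left h10 (by positivity)
    have h11 : U ≤ (A.card : ℝ) ^ 2 := by
      calc U ≤ ∑ x ∈ A, ∑ y ∈ A, (1 : ℝ) := by
            refine (norm_sum_le _ _).trans (Finset.sum_le_sum fun x _ => ?_)
            refine (norm_sum_le _ _).trans (Finset.sum_le_sum fun y _ => ?_)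
            rw [norm_mul, norm_mul, Sml.norm_ph', mul_one]
            exact mul_le_one₀ (hf x) (norm_nonneg _) (hg y)
        _ = _ := by
            simp only [Finset.sum_const, nsmul_eq_mul, mul_one]
            ring
    have h12 : (A.card : ℝ) ^ 2 ≤ pw n η * S := by
      have h13 := mul_le_mul_of_nonneg_left h9 (pw_pos n η).le
      rw [← mul_assoc, ← pw_add, add_neg_cancel, pw_zero, one_mul] at h13
      exact h13
    have h14 : 0 ≤ δ * (A.card : ℝ) ^ 2 := by positivity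
    linarith

/-- the contraction factor -/
theorem nx3_rho {p0 p c c1 : ℝ} (hp0 : 0 < p0) (hp : p0 ≤ p) (hc : c ≤ c1) (hc1 : c1 ≤ 1) :
    1 - p + 2 * p * c ≤ (1 - 2 * p0 * (1 - c1) / (1 + p0)) * (1 + p) := by
  have h1 : (0 : ℝ) < 1 + p0 := by linarith
  have h2 : (1 - 2 * p0 * (1 - c1) / (1 + p0)) * (1 + p) =
      (1 + p) - 2 * (p0 * (1 + p) * (1 - c1)) / (1 + p0) := by
    field_simp
  have h3 : 2 * (p0 * (1 + p) * (1 - c1)) / (1 + p0) ≤ 2 * (p * (1 - c)) := by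
    rw [div_le_iff₀ h1]
    have h4 : p0 * (1 + p) ≤ p * (1 + p0) := by linarith
    have h5 : p0 * (1 + p) * (1 - c1) ≤ p * (1 + p0) * (1 - c1) :=
      mul_le_mul_of_nonneg_right h4 (by linarith)
    have h6 : p * (1 + p0) * (1 - c1) ≤ p * (1 + p0) * (1 - c) :=
      mul_le_mul_of_nonneg_left (by linarith) (mul_nonneg (by linarith) h1.le)
    linarith
  rw [h2]
  linarith

/-- **NoAlignX** -/
theorem noAlignX_of (hM : MultS) (hB : BoxW) : NoAlignX := by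
  intro p0 v0 θ1 θ2 m hp0 hp01 hθ1 hθ12 hθ2 hv
  have hπ := Real.pi_pos
  set c1 := Real.cos θ1 with hc1
  have hc1lt : c1 < 1 := by
    rw [hc1, ← Real.cos_zero]
    exact Real.cos_lt_cos_of_nonneg_of_le_pi le_rfl (by linarith) hθ1
  have hc1pos : 0 < c1 := Real.cos_pos_of_mem_Ioo ⟨by linarith, by linarith⟩
  set ρ := 1 - 2 * p0 * (1 - c1) / (1 + p0) with hρ
  have hρ0 : 0 < ρ := by
    have h1 : 2 * p0 * (1 - c1) / (1 + p0) < 1 := by
      rw [div_lt_one (by linarith)]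
      linarith [mul_pos hp0 hc1pos]
    linarith
  have hρ1 : ρ < 1 := by
    have h1 : 0 < 2 * p0 * (1 - c1) / (1 + p0) :=
      div_pos (mul_pos (by linarith) (by linarith)) (by linarith)
    linarith
  set L := -Real.logb 2 ρ with hL
  have hL0 : 0 < L := by
    have := Real.logb_neg (b := 2) (by norm_num) hρ0 hρ1
    linarith
  have hρn : ∀ n : ℕ, ρ ^ n = pw n (-L) := by
    intro n
    unfold pw
    rw [hL, neg_neg, Real.rpow_mul (by norm_num), Real.rpow_logb (by norm_num) (by norm_num) hρ0,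
      Real.rpow_natCast]
  obtain ⟨τM, hτM, nM, hMult⟩ := hM m (L / 4) (by linarith)
  set τ := min (τM / 16) (L / 8) with hτ
  have hτ0 : 0 < τ := lt_min (by linarith) (by linarith)
  have hτa : τ ≤ τM / 16 := min_le_left _ _
  have hτb : τ ≤ L / 8 := min_le_right _ _
  obtain ⟨n1, hn1⟩ := pw_large 16 (t := τM - 8 * τ) (by linarith)
  obtain ⟨n2, hn2⟩ := pw_large 3 (t := L / 2) (by linarith)
  refine ⟨τ, hτ0, max nM (max n1 n2), ?_⟩
  intro n hn C hC hWU f g hf hg p ψ hp hp1 hj hAmp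
  have hnM : nM ≤ n := le_trans (le_max_left _ _) hn
  have hnn1 : n1 ≤ n := le_trans (le_trans (le_max_left _ _) (le_max_right _ _)) hn
  have hnn2 : n2 ≤ n := le_trans (le_trans (le_max_right _ _) (le_max_right _ _)) hn
  obtain ⟨j, hj1, hj2⟩ := hj
  set θ := |m * ψ - Real.pi * j| / 2 with hθ
  have hθe : |m * ψ - Real.pi * j| = 2 * θ := by rw [hθ]; ring
  have hθ1' : θ1 ≤ θ := by linarith
  have hθ2' : θ ≤ θ2 := by linarith
  have hθ0 : 0 ≤ θ := by linarith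
  have hθ4 : θ < Real.pi / 4 := by linarith
  have hp00 : 0 < p := hp0.trans_le hp
  obtain ⟨a1, a2, a3, a4, a5, a6⟩ := nx3_cs hθ0 hθ2' hθ2
  have acs := (nx3_cs hθ0 le_rfl hθ4).2.2.2.2.1
  set c := Real.cos θ with hc
  set s := Real.sin θ with hs
  have hcc1 : c ≤ c1 := Real.cos_le_cos_of_nonneg_of_le_pi hθ1.le (by linarith) hθ1'
  have hcard : (0 : ℝ) < C.card := by
    have := hC.card_pos
    exact_mod_cast this
  set Z := (C.card : ℝ) ^ 2 * pw n (-1) * (1 + p) ^ n with hZ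
  have hZ0 : 0 < Z := mul_pos (mul_pos (pow_pos hcard 2) (pw_pos n _)) (pow_pos (by linarith) n)
  set δ := 1 / 2 * pw n (-(2 * τ)) with hδ
  have hδ0 : 0 < δ := mul_pos (by norm_num) (pw_pos n _)
  have hδ4 : pw n (-τM) ≤ δ ^ 4 := by
    have h1 := hn1 n hnn1
    have h2 : δ ^ 4 = 1 / 16 * pw n (-(8 * τ)) := by
      rw [hδ, mul_pow, pw_pow]
      norm_num
      congr 1
      ring
    rw [h2]
    have h3 : pw n (-(8 * τ)) = pw n (-τM) * pw n (τM - 8 * τ) := by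
      rw [← pw_add]; congr 1; ring
    rw [h3]
    have h4 := mul_le_mul_of_nonneg_left h1 (pw_pos n (-τM)).le
    linarith
  -- the amplitude
  have hamp : Z * pw n (-τ) ≤ ‖∑ x ∈ C, ∑ y ∈ C, f x * g y * ((p : ℂ) * ph ψ) ^ wt (x - y)‖ := by
    have h1 : Z * pw n (-τ) = (C.card : ℝ) ^ 2 * pw n (-1 - τ) * (1 + p) ^ n := by
      rw [hZ, show (-1 - τ : ℝ) = -1 + -τ by ring, pw_add]; ring
    rw [h1]
    exact hAmp
  have hmix : ∑ x ∈ C, ∑ y ∈ C, f x * g y * ((p : ℂ) * ph ψ) ^ wt (x - y) =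
      ∑ J : Finset (Fin n), ((wJ p J : ℝ) : ℂ) * ∑ A ∈ pcs C J, ∑ x ∈ A, ∑ y ∈ A,
        f x * g y * ph (ψ * (wt (x - y) : ℝ)) := by
    rw [← mixC]
    apply Finset.sum_congr rfl; intro x _
    apply Finset.sum_congr rfl; intro y _
    rw [mul_pow, nx3_ph_pow]
    ring
  have hsum : ‖∑ x ∈ C, ∑ y ∈ C, f x * g y * ((p : ℂ) * ph ψ) ^ wt (x - y)‖ ≤
      ∑ J : Finset (Fin n), wJ p J * ∑ A ∈ pcs C J, (δ * (A.card : ℝ) ^ 2 +
        pw n (L / 4) * ∑ x ∈ A, ∑ y ∈ A, ∏ i ∈ Jᶜ, (if x i = y i then c + s else c - s)) := by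
    rw [hmix]
    refine (norm_sum_le _ _).trans (Finset.sum_le_sum fun J _ => ?_)
    rw [norm_mul, Complex.norm_real, Real.norm_of_nonneg (wJ_nonneg hp00.le hp1 J)]
    apply mul_le_mul_of_nonneg_left _ (wJ_nonneg hp00.le hp1 J)
    refine (norm_sum_le _ _).trans (Finset.sum_le_sum fun A hA => ?_)
    exact nx3_piece hB C J A hA f g hf hg m ψ θ hθ0 hθ4 j hθe δ τM (L / 4) hδ0 hδ4
      (hMult n hnM (A.image lz) ((pcs_nonempty hA).image _) (lz_01 A) (2 * ψ))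
  have hsplit : ∑ J : Finset (Fin n), wJ p J * ∑ A ∈ pcs C J, (δ * (A.card : ℝ) ^ 2 +
        pw n (L / 4) * ∑ x ∈ A, ∑ y ∈ A, ∏ i ∈ Jᶜ, (if x i = y i then c + s else c - s)) =
      δ * ∑ x ∈ C, ∑ y ∈ C, p ^ wt (x - y) + pw n (L / 4) *
        ∑ x ∈ C, ∑ y ∈ C, (1 - p + p * (c + s)) ^ (n - wt (x - y)) * (p * (c - s)) ^ wt (x - y) := by
    rw [mixM, ← mixR, Finset.mul_sum, Finset.mul_sum, ← Finset.sum_add_distrib]
    apply Finset.sum_congr rfl; intro J _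
    rw [Finset.sum_add_distrib, ← Finset.mul_sum, ← Finset.mul_sum]
    ring
  -- the two totals
  have hv0p0 : v0 ≤ p := by
    have h1 := nx3_v0 hp0 hp hp1 (K := c + s) (D := c - s) (K2 := Real.cos θ2 + Real.sin θ2)
      (D2 := Real.cos θ2 - Real.sin θ2) (by linarith) a3 (by linarith) (by linarith) hv
    have h2 : c - s ≤ 1 := by linarith
    have h3 : 1 ≤ c + s := by
      have h4 := Real.sin_sq_add_cos_sq θ
      have h5 : 0 ≤ c := by linarith
      exact nx3_cs1 h5 a4 h4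
    rcases le_or_gt v0 0 with h6 | h6
    · linarith
    · have h7 : 1 ≤ 1 - p + p * (c + s) := by linarith [mul_le_mul_of_nonneg_left h3 hp00.le]
      linarith [mul_le_mul_of_nonneg_left h7 h6.le, mul_le_mul_of_nonneg_left h2 hp00.le]
  have htot1 : ∑ x ∈ C, ∑ y ∈ C, p ^ wt (x - y) ≤ Z * pw n τ := by
    refine (hWU p hv0p0 hp1).trans (le_of_eq ?_)
    rw [hZ, show (τ - 1 : ℝ) = -1 + τ by ring, pw_add]; ring
  set a := 1 - p + p * (c + s) with ha
  have ha0 : 0 < a := by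
    have h3 : 1 ≤ c + s := by
      have h4 := Real.sin_sq_add_cos_sq θ
      have h5 : 0 ≤ c := by linarith
      exact nx3_cs1 h5 a4 h4
    linarith [mul_le_mul_of_nonneg_left h3 hp00.le]
  have htot2 : ∑ x ∈ C, ∑ y ∈ C, a ^ (n - wt (x - y)) * (p * (c - s)) ^ wt (x - y) ≤
      Z * pw n τ * ρ ^ n := by
    set v := p * (c - s) / a with hvv
    have hva : v * a = p * (c - s) := by rw [hvv]; field_simp
    have hv1 : v ≤ 1 := by
      rw [hvv, div_le_one ha0, ha]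
      linarith [mul_nonneg hp00.le a4]
    have hv2 : v0 ≤ v := by
      rw [hvv, le_div_iff₀ ha0]
      exact nx3_v0 hp0 hp hp1 (K := c + s) (D := c - s) (K2 := Real.cos θ2 + Real.sin θ2)
        (D2 := Real.cos θ2 - Real.sin θ2) (by linarith) a3 (by linarith) (by linarith) hv
    have h1 : ∑ x ∈ C, ∑ y ∈ C, a ^ (n - wt (x - y)) * (p * (c - s)) ^ wt (x - y) =
        a ^ n * ∑ x ∈ C, ∑ y ∈ C, v ^ wt (x - y) := by
      rw [Finset.mul_sum]
      apply Finset.sum_congr rfl; intro x _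
      rw [Finset.mul_sum]
      apply Finset.sum_congr rfl; intro y _
      have h2 : n = (n - wt (x - y)) + wt (x - y) := (Nat.sub_add_cancel (wt_le _)).symm
      rw [← hva, mul_pow]
      calc a ^ (n - wt (x - y)) * (v ^ wt (x - y) * a ^ wt (x - y))
          = a ^ ((n - wt (x - y)) + wt (x - y)) * v ^ wt (x - y) := by rw [pow_add]; ring
        _ = _ := by rw [← h2]
    rw [h1]
    have h3 := mul_le_mul_of_nonneg_left (hWU v hv2 hv1) (pow_nonneg ha0.le n)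
    refine h3.trans ?_
    have h4 : a ^ n * ((C.card : ℝ) ^ 2 * pw n (τ - 1) * (1 + v) ^ n) =
        (C.card : ℝ) ^ 2 * pw n (τ - 1) * (a * (1 + v)) ^ n := by rw [mul_pow]; ring
    have h5 : a * (1 + v) = 1 - p + 2 * p * c := by
      have : a * (1 + v) = a + v * a := by ring
      rw [this, hva, ha]; ring
    have h6 := nx3_rho hp0 hp hcc1 hc1lt.le
    have h7 : (a * (1 + v)) ^ n ≤ (ρ * (1 + p)) ^ n := by
      apply pow_le_pow_left₀
      · rw [h5]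
        have h8 : 0 < c := by
          rw [hc]
          exact Real.cos_pos_of_mem_Ioo ⟨by linarith, by linarith⟩
        linarith [mul_pos hp00 h8]
      · rw [h5]; exact h6
    rw [h4]
    have h8 := mul_le_mul_of_nonneg_left h7
      (mul_nonneg (pow_nonneg hcard.le 2) (pw_pos n (τ - 1)).le)
    refine h8.trans (le_of_eq ?_)
    rw [hZ, mul_pow, show (τ - 1 : ℝ) = -1 + τ by ring, pw_add]; ring
  -- the contradiction
  have hfin : Z * pw n (-τ) ≤ δ * (Z * pw n τ) + pw n (L / 4) * (Z * pw n τ * ρ ^ n) := by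
    refine hamp.trans (hsum.trans ?_)
    rw [hsplit]
    exact add_le_add (mul_le_mul_of_nonneg_left htot1 hδ0.le)
      (mul_le_mul_of_nonneg_left htot2 (pw_pos n _).le)
  have hfin2 : pw n (-τ) ≤ 1 / 2 * pw n (-τ) + pw n (L / 4 + τ - L) := by
    have h1 : δ * (Z * pw n τ) + pw n (L / 4) * (Z * pw n τ * ρ ^ n) =
        Z * (1 / 2 * pw n (-τ) + pw n (L / 4 + τ - L)) := by
      rw [hδ, hρn n, show (L / 4 + τ - L : ℝ) = L / 4 + τ + -L by ring, pw_add, pw_add,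
        show (-τ : ℝ) = -(2 * τ) + τ by ring, pw_add]
      ring
    rw [h1] at hfin
    exact le_of_mul_le_mul_left hfin hZ0
  have hfin3 : pw n (-τ) ≤ 2 * pw n (L / 4 + τ - L) := by linarith
  have hfin4 : 1 ≤ 2 * pw n (L / 4 + 2 * τ - L) := by
    have h1 := mul_le_mul_of_nonneg_left hfin3 (pw_pos n τ).le
    rw [← pw_add, add_neg_cancel, pw_zero] at h1
    refine h1.trans (le_of_eq ?_)
    rw [show (L / 4 + 2 * τ - L : ℝ) = τ + (L / 4 + τ - L) by ring, pw_add n τ]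
    ring
  have hfin5 : pw n (L / 4 + 2 * τ - L) ≤ pw n (-(L / 2)) := pw_mono n (by linarith)
  have h3 := hn2 n hnn2
  rw [pw_neg] at hfin5
  have h4 : (pw n (L / 2))⁻¹ ≤ 1 / 3 := by
    rw [inv_eq_one_div]
    exact one_div_le_one_div_of_le (by norm_num) h3
  linarith

end Pool.Agent.Lib.MP_0430e4_lc.AC
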