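import Pool.Agent.Lib.MP_0430e4_lc.AC.Sh11

/-!
SHELLS (helper51): the forced amplitude on a compact segment of radii is enough.
-/

set_option autoImplicit false

open Finset Filter Topology

namespace Pool.Agent.Lib.MP_0430e4_lc.AC

open BY BY.Four

/-- **(FORCED AMPLITUDE, off the diagonal, on a radial segment)** near-optimal codes have full
off-diagonal amplitude near a point `p e^(iψ)`, `p0 ≤ p ≤ p1`, `ψ/π` irrational; the shell of radius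
`a0/(1+a0)` (`p0 = 2a0/(1+a0^2)`) contains many code words. -/
def ForcedS (δ L : ℝ) : Prop := ∃ a0 p1 ψ : ℝ, 0 < a0 ∧ a0 < 1 ∧ p1 < 1 ∧
  (∀ (m : ℕ) (j : ℤ), 0 < m → (m : ℝ) * ψ ≠ Real.pi * j) ∧
  (1 - L) * Real.log 2 < Real.binEntropy (a0 / (1 + a0)) ∧
  ∀ τ : ℝ, 0 < τ → ∃ ε : ℝ, 0 < ε ∧ ∃ n0 : ℕ, ∀ n ≥ n0, ∀ C : Finset (Wd n),
    IsCode ⌈δ * n⌉₊ C → pw n (L - ε) ≤ C.card →
      ∃ (p : ℝ) (u : ℂ), 2 * a0 / (1 + a0 ^ 2) ≤ p ∧ p ≤ p1 ∧ ‖u - (p : ℂ) * ph ψ‖ ≤ τ ∧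
        AmpO C τ u

theorem sh12_ent {a : ℝ} (ha : 0 < a) :
    Real.binEntropy (a / (1 + a)) = Real.log (1 + a) - a / (1 + a) * Real.log a := by
  have h1 : 0 < 1 + a := by linarith
  have h2 : 1 - a / (1 + a) = 1 / (1 + a) := by field_simp; ring
  rw [Real.binEntropy, h2, inv_div, inv_div, div_one, Real.log_div h1.ne' ha.ne']
  field_simp
  ring

theorem sh12_cond {a L : ℝ} (ha : 0 < a)
    (h : (1 - L) * Real.log 2 < Real.binEntropy (a / (1 + a))) :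
    (2 : ℝ) ^ (1 - L) * a ^ (a / (1 + a)) < 1 + a := by
  rw [sh12_ent ha] at h
  have h1 : 0 < 1 + a := by linarith
  have h2 : 0 < (2 : ℝ) ^ (1 - L) := Real.rpow_pos_of_pos (by norm_num) _
  have h3 : 0 < a ^ (a / (1 + a)) := Real.rpow_pos_of_pos ha _
  rw [← Real.log_lt_log_iff (by positivity) h1, Real.log_mul h2.ne' h3.ne',
    Real.log_rpow (by norm_num), Real.log_rpow ha]
  linarith

theorem sh12_mono {a b L : ℝ} (ha : 0 < a) (hab : a ≤ b) (hb : b < 1)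
    (h : (1 - L) * Real.log 2 < Real.binEntropy (a / (1 + a))) :
    (1 - L) * Real.log 2 < Real.binEntropy (b / (1 + b)) := by
  refine h.trans_le ?_
  have h1 : 0 < 1 + a := by linarith
  have h2 : 0 < 1 + b := by linarith
  apply Real.binEntropy_strictMonoOn.monotoneOn
  · constructor
    · positivity
    · rw [div_le_iff₀ h1]; linarith
  · constructor
    · exact div_nonneg (by linarith) h2.le
    · rw [div_le_iff₀ h2]; linarith
  · rw [div_le_div_iff₀ h1 h2]; nlinarith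

/-- the radius `a` of `p = 2a/(1+a^2)` -/
theorem sh12_inv {a0 p : ℝ} (ha0 : 0 < a0) (ha1 : a0 < 1) (hp : 2 * a0 / (1 + a0 ^ 2) ≤ p)
    (hp1 : p < 1) : ∃ a : ℝ, a0 ≤ a ∧ a < 1 ∧ 2 * a / (1 + a ^ 2) = p := by
  have hp0 : 0 < p := lt_of_lt_of_le (by positivity) hp
  set s : ℝ := Real.sqrt (1 - p ^ 2) with hs
  have hs0 : 0 < s := Real.sqrt_pos.mpr (by nlinarith)
  have hs2 : s ^ 2 = 1 - p ^ 2 := Real.sq_sqrt (by nlinarith)
  have hs1 : s < 1 := by nlinarith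
  set a : ℝ := (1 - s) / p with ha
  have hap : a * p = 1 - s := by rw [ha]; field_simp
  have ha1' : a < 1 := by
    rw [ha, div_lt_one hp0]
    nlinarith
  have ha0' : 0 < a := by rw [ha]; exact div_pos (by linarith) hp0
  have heq : 2 * a / (1 + a ^ 2) = p := by
    rw [div_eq_iff (by positivity)]
    have h3 : p * (2 * a) = p * (p * (1 + a ^ 2)) := by
      have : (a * p) ^ 2 = (1 - s) ^ 2 := by rw [hap]
      nlinarith
    exact mul_left_cancel₀ hp0.ne' h3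
  refine ⟨a, ?_, ha1', heq⟩
  by_contra hc
  push Not at hc
  rw [← heq, div_le_div_iff₀ (by positivity) (by positivity)] at hp
  nlinarith [mul_pos (sub_pos.mpr hc) (sub_pos.mpr (show a * a0 < 1 by nlinarith))]

/-- no alignment in a neighbourhood of one point -/
theorem no_align_pt (hM : MultS) {L a ψ : ℝ} (ha0 : 0 < a) (ha1 : a < 1)
    (hirr : ∀ (m : ℕ) (j : ℤ), 0 < m → (m : ℝ) * ψ ≠ Real.pi * j)
    (hcond : (2 : ℝ) ^ (1 - L) * a ^ (a / (1 + a)) < 1 + a) :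
    ∃ θ : ℝ, 0 < θ ∧ ∃ τ : ℝ, 0 < τ ∧ ∃ n0 : ℕ, ∀ n ≥ n0, ∀ C : Finset (Wd n),
      pw n (L - θ) ≤ C.card → Typ C τ →
      ∀ u : ℂ, ‖u - ((2 * a / (1 + a ^ 2) : ℝ) : ℂ) * ph ψ‖ ≤ τ → ¬ AmpO C τ u := by
  have hπ := Real.pi_pos
  obtain ⟨θ, hθ0, hθc⟩ : ∃ θ : ℝ, 0 < θ ∧
      (2 : ℝ) ^ (1 - (L - θ)) * a ^ (a / (1 + a)) < 1 + a := by
    have hcont : ContinuousAt (fun θ : ℝ => (2 : ℝ) ^ (1 - (L - θ)) * a ^ (a / (1 + a))) 0 := by
      apply ContinuousAt.mul _ continuousAt_const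
      apply ContinuousAt.rpow continuousAt_const (by fun_prop)
      left; norm_num
    have h0 : (fun θ : ℝ => (2 : ℝ) ^ (1 - (L - θ)) * a ^ (a / (1 + a))) 0 < 1 + a := by
      simp only [sub_zero]
      exact hcond
    have h1 := hcont.eventually_lt_const h0
    obtain ⟨r, hr, h2⟩ := Metric.eventually_nhds_iff.mp h1
    refine ⟨r / 2, by positivity, ?_⟩
    apply h2
    rw [Real.dist_eq, sub_zero, abs_of_pos (by positivity)]
    linarith
  obtain ⟨φ0, hφ00, hφ04, htab⟩ := tab_small (R := L - θ) ha0 ha1 hθc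
  obtain ⟨N, hN⟩ := exists_nat_gt (Real.pi / φ0)
  obtain ⟨m, hm0, -, hm⟩ := Real.exists_nat_abs_mul_sub_round_le (ψ / Real.pi) (n := N + 1) (by omega)
  set j : ℤ := round ((m : ℝ) * (ψ / Real.pi)) with hj
  set φ : ℝ := |(m : ℝ) * ψ - Real.pi * j| with hφ
  have hφpos : 0 < φ := by
    rw [hφ, abs_pos, sub_ne_zero]
    exact hirr m j hm0
  have hφle : φ ≤ φ0 := by
    have h1 : (m : ℝ) * ψ - Real.pi * j = Real.pi * ((m : ℝ) * (ψ / Real.pi) - j) := by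
      field_simp
    rw [hφ, h1, abs_mul, abs_of_pos hπ]
    have h2 : (0 : ℝ) < ((N + 1 : ℕ) : ℝ) + 1 := by positivity
    have h3 : Real.pi < φ0 * (((N + 1 : ℕ) : ℝ) + 1) := by
      rw [div_lt_iff₀ hφ00] at hN
      push_cast
      nlinarith
    calc Real.pi * |(m : ℝ) * (ψ / Real.pi) - j| ≤ Real.pi * (1 / (((N + 1 : ℕ) : ℝ) + 1)) :=
          mul_le_mul_of_nonneg_left hm hπ.le
      _ ≤ φ0 := by
          rw [mul_one_div, div_le_iff₀ h2]
          exact h3.le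
  obtain ⟨τ, hτ, n1, hNA⟩ := no_align_sh hM (m := m) (j := j) (ψ := ψ) hφpos (hφle.trans hφ04) rfl
    hθc (htab φ hφpos hφle)
  exact ⟨θ, hθ0, τ, hτ, n1, hNA⟩

theorem AmpO.mono {n : ℕ} {C : Finset (Wd n)} {τ τ' : ℝ} {u : ℂ} (h : AmpO C τ' u) (hτ : τ' ≤ τ) :
    AmpO C τ u := by
  unfold AmpO at h ⊢
  refine le_trans ?_ h
  apply mul_le_mul_of_nonneg_right _ (by positivity)
  apply mul_le_mul_of_nonneg_left _ (sq_nonneg _)
  exact pw_mono n (by linarith)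

theorem Typ.mono {n : ℕ} {C : Finset (Wd n)} {τ τ' : ℝ} (h : Typ C τ') (hτ : τ' ≤ τ) :
    Typ C τ := by
  intro w hw1 hw2
  refine (h w hw1 hw2).trans ?_
  apply mul_le_mul_of_nonneg_right _ (Nat.cast_nonneg _)
  apply mul_le_mul_of_nonneg_left _ (sq_nonneg _)
  exact pw_mono n (by linarith)

/-- no alignment on a whole radial segment -/
theorem no_align_seg (hM : MultS) {L a0 p1 ψ : ℝ} (ha0 : 0 < a0) (ha1 : a0 < 1) (hp1 : p1 < 1)
    (hirr : ∀ (m : ℕ) (j : ℤ), 0 < m → (m : ℝ) * ψ ≠ Real.pi * j)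
    (hcond : (1 - L) * Real.log 2 < Real.binEntropy (a0 / (1 + a0))) :
    ∃ θ : ℝ, 0 < θ ∧ ∃ τ : ℝ, 0 < τ ∧ ∃ n0 : ℕ, ∀ n ≥ n0, ∀ C : Finset (Wd n),
      pw n (L - θ) ≤ C.card → Typ C τ → ∀ (p : ℝ) (u : ℂ), 2 * a0 / (1 + a0 ^ 2) ≤ p → p ≤ p1 →
        ‖u - (p : ℂ) * ph ψ‖ ≤ τ → ¬ AmpO C τ u := by
  -- the statement at one point
  have hpt : ∀ p ∈ Set.Icc (2 * a0 / (1 + a0 ^ 2)) p1, ∃ θ : ℝ, 0 < θ ∧ ∃ τ : ℝ, 0 < τ ∧ ∃ n0 : ℕ,
      ∀ n ≥ n0, ∀ C : Finset (Wd n), pw n (L - θ) ≤ C.card → Typ C τ →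
        ∀ u : ℂ, ‖u - (p : ℂ) * ph ψ‖ ≤ τ → ¬ AmpO C τ u := by
    intro p hp
    obtain ⟨a, haa, ha1', hpa⟩ := sh12_inv ha0 ha1 hp.1 (hp.2.trans_lt hp1)
    have hapos : 0 < a := ha0.trans_le haa
    have h := no_align_pt hM (L := L) (ψ := ψ) hapos ha1' hirr
      (sh12_cond hapos (sh12_mono ha0 haa ha1' hcond))
    rw [hpa] at h
    exact h
  -- induction on compactness
  let Q : Set ℝ → Prop := fun S => ∃ θ : ℝ, 0 < θ ∧ ∃ τ : ℝ, 0 < τ ∧ ∃ n0 : ℕ, ∀ n ≥ n0,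
    ∀ C : Finset (Wd n), pw n (L - θ) ≤ C.card → Typ C τ → ∀ p ∈ S, ∀ u : ℂ,
      ‖u - (p : ℂ) * ph ψ‖ ≤ τ → ¬ AmpO C τ u
  have hQ : Q (Set.Icc (2 * a0 / (1 + a0 ^ 2)) p1) := by
    refine isCompact_Icc.induction_on (p := Q) ?_ ?_ ?_ ?_
    · exact ⟨1, one_pos, 1, one_pos, 0, fun n _ C _ _ p hp => absurd hp (Set.notMem_empty p)⟩
    · rintro s t hst ⟨θ, hθ, τ, hτ, n0, h⟩
      exact ⟨θ, hθ, τ, hτ, n0, fun n hn C hC hT p hp => h n hn C hC hT p (hst hp)⟩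
    · rintro s t ⟨θ, hθ, τ, hτ, n0, h⟩ ⟨θ', hθ', τ', hτ', n0', h'⟩
      refine ⟨min θ θ', lt_min hθ hθ', min τ τ', lt_min hτ hτ', max n0 n0', ?_⟩
      intro n hn C hC hT p hp u hu hA
      rcases hp with hp | hp
      · exact h n ((le_max_left _ _).trans hn) C
          ((pw_mono n (by have := min_le_left θ θ'; linarith)).trans hC)
          (hT.mono (min_le_left _ _)) p hp u (hu.trans (min_le_left _ _))
          (hA.mono (min_le_left _ _))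
      · exact h' n ((le_max_right _ _).trans hn) C
          ((pw_mono n (by have := min_le_right θ θ'; linarith)).trans hC)
          (hT.mono (min_le_right _ _)) p hp u (hu.trans (min_le_right _ _))
          (hA.mono (min_le_right _ _))
    · intro p hp
      obtain ⟨θ, hθ, τ, hτ, n0, h⟩ := hpt p hp
      refine ⟨Metric.ball p (τ / 2), mem_nhdsWithin_of_mem_nhds (Metric.ball_mem_nhds p (by positivity)),
        θ, hθ, τ / 2, by positivity, n0, ?_⟩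
      intro n hn C hC hT p' hp' u hu hA
      refine h n hn C hC (hT.mono (by linarith)) u ?_ (hA.mono (by linarith))
      have h1 : u - (p : ℂ) * ph ψ = (u - (p' : ℂ) * ph ψ) + ((p' - p : ℝ) : ℂ) * ph ψ := by
        push_cast; ring
      rw [h1]
      refine (norm_add_le _ _).trans ?_
      rw [norm_mul, norm_ph, mul_one, Complex.norm_real, Real.norm_eq_abs]
      rw [Metric.mem_ball, Real.dist_eq] at hp'
      linarith
  obtain ⟨θ, hθ, τ, hτ, n0, h⟩ := hQ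
  exact ⟨θ, hθ, τ, hτ, n0, fun n hn C hC hT p u h1 h2 => h n hn C hC hT p ⟨h1, h2⟩ u⟩

/-- `R(δ) < L(δ)` from `MultS`, `TypD`, `ForcedS` -/
theorem rate_le_of_shS (hM : MultS) {δ L : ℝ} (hT : TypD δ L) (hF : ForcedS δ L) :
    ∃ ε : ℝ, 0 < ε ∧ Rr δ ≤ L - ε := by
  obtain ⟨a0, p1, ψ, ha0, ha1, hp1, hirr, hcond, hF⟩ := hF
  obtain ⟨θ, hθ0, τ, hτ, n1, hNA⟩ := no_align_seg hM ha0 ha1 hp1 hirr hcond
  obtain ⟨ε2, hε2, n2, hF⟩ := hF τ hτ
  obtain ⟨n3, hT⟩ := hT (τ / 2) (by positivity)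
  set ε : ℝ := min ε2 (min θ (τ / 2)) with hε
  have hε0 : 0 < ε := lt_min hε2 (lt_min hθ0 (by positivity))
  have hεa : ε ≤ ε2 := min_le_left _ _
  have hεb : ε ≤ θ := (min_le_right _ _).trans (min_le_left _ _)
  have hεc : ε ≤ τ / 2 := (min_le_right _ _).trans (min_le_right _ _)
  refine ⟨ε, hε0, Rr_le_of ⟨max n1 (max n2 n3), ?_⟩⟩
  intro n hn C hC
  have hn1 : n1 ≤ n := (le_max_left _ _).trans hn
  have hn2 : n2 ≤ n := (le_max_left _ _).trans ((le_max_right _ _).trans hn)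
  have hn3 : n3 ≤ n := (le_max_right _ _).trans ((le_max_right _ _).trans hn)
  by_contra hcon
  push Not at hcon
  have hc1 : pw n (L - ε2) ≤ C.card := (pw_mono n (by linarith)).trans hcon
  have hc2 : pw n (L - θ) ≤ C.card := (pw_mono n (by linarith)).trans hcon
  have hTyp : Typ C τ := by
    intro w hw1 hw2
    refine (hT n hn3 C hC w hw1 hw2).trans ?_
    apply mul_le_mul_of_nonneg_right _ (Nat.cast_nonneg _)
    rw [sq, mul_assoc]
    apply mul_le_mul_of_nonneg_left _ (Nat.cast_nonneg _)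
    calc pw n (L - 1 + τ / 2) ≤ pw n ((L - ε) + (τ - 1)) := pw_mono n (by linarith)
      _ = pw n (L - ε) * pw n (τ - 1) := pw_add _ _ _
      _ ≤ C.card * pw n (τ - 1) := mul_le_mul_of_nonneg_right hcon (pw_pos n _).le
  obtain ⟨p, u, hpa, hpb, hu, hA⟩ := hF n hn2 C hC hc1
  exact hNA n hn1 C hc2 hTyp p u hpa hpb hu hA

end Pool.Agent.Lib.MP_0430e4_lc.AC
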