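import Pool.Agent.Lib.MP_0430e4_lc.AC.Defs
import Pool.Agent.Lib.MP_0430e4_lc.BY.H.HAm0
import Pool.Agent.Lib.MP_0430e4_lc.BY.H.Rad
import Pool.Agent.Lib.MP_0430e4_lc.Exact.FIN

/-!
Project ALLCODES: typical distances at every relative distance (helper13).

The argument of `BY.HA_holds` with a general `δ ∈ (0, 1/2)` and `L = Tensor.ell δ`.
-/

set_option autoImplicit false

open Finset Filter Topology

namespace Pool.Agent.Lib.MP_0430e4_lc.AC

open BY BY.Four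

/-- near-optimal radial certificates of a slightly larger level -/
theorem near_gen {δ : ℝ} (h0 : 0 < δ) (ε : ℝ) (hε : 0 < ε) :
    ∃ c : ℝ, 0 < c ∧ c ≤ 1 ∧ c ≤ δ ∧ ∃ n0 : ℕ, ∀ n ≥ n0,
    ∃ (f : Wd n → ℝ) (H : ℕ → ℝ), RadF f H ∧ WCert ((1 - 2 * δ + c) * n) f ∧
      ∑ x, f x ≤ pw n (Tensor.ell δ + ε) := by
  have hcont := Exact.ell_continuousAt h0
  have hev : ∀ᶠ t in 𝓝 δ, Tensor.ell t < Tensor.ell δ + ε / 3 := by
    apply hcont.eventually_lt_const
    linarith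
  obtain ⟨κ, hκ, hκ'⟩ := Metric.eventually_nhds_iff.mp hev
  set c : ℝ := min κ (min δ 1) with hc
  have hc0 : 0 < c := lt_min hκ (lt_min h0 one_pos)
  have hcκ : c ≤ κ := min_le_left _ _
  have hcm : c ≤ δ := (min_le_right _ _).trans (min_le_left _ _)
  have hc1 : c ≤ 1 := (min_le_right _ _).trans (min_le_right _ _)
  refine ⟨c, hc0, hc1, hcm, ?_⟩
  set δ' : ℝ := δ - c / 2 with hδ
  have hδ0 : 0 < δ' := by rw [hδ]; linarith
  have hell : Tensor.ell δ' < Tensor.ell δ + ε / 3 := by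
    apply hκ'
    rw [Real.dist_eq, hδ, abs_lt]
    constructor <;> linarith
  have ht := Tensor.tendsto_ell hδ0.le
  have hev2 : ∀ᶠ n : ℕ in atTop, Tensor.lexp δ' n / n < Tensor.ell δ + ε / 2 :=
    ht.eventually_lt_const (by linarith)
  obtain ⟨n0, hn0⟩ := eventually_atTop.mp hev2
  refine ⟨max n0 1, fun n hn => ?_⟩
  have h4 := hn0 n ((le_max_left _ _).trans hn)
  have hn' : (0 : ℝ) < n := by exact_mod_cast (le_max_right n0 1).trans hn
  rw [div_lt_iff₀ hn'] at h4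
  have hlev : (1 - 2 * δ') * n ≤ n := Tensor.level_le hδ0.le n
  have h5 : 1 ≤ Tensor.Lam n ((1 - 2 * δ') * n) := Tensor.one_le_lam hlev
  have h6 : Tensor.Lam n ((1 - 2 * δ') * n) < pw n (Tensor.ell δ + ε / 2) := by
    unfold pw
    rw [← Real.logb_lt_iff_lt_rpow (by norm_num) (by linarith)]
    exact h4
  unfold Tensor.Lam at h6
  obtain ⟨v, ⟨h, hcert, rfl⟩, hv⟩ := exists_lt_of_csInf_lt (Tensor.lam_nonempty hlev) h6
  obtain ⟨f, H, hR, hW, hsum⟩ := radialize hcert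
  have hlv : (1 - 2 * δ') * n = (1 - 2 * δ + c) * n := by
    rw [hδ]; ring
  rw [hlv] at hW
  refine ⟨f, H, hR, hW, ?_⟩
  rw [hsum]
  refine hv.le.trans ?_
  unfold pw
  apply Real.rpow_le_rpow_of_exponent_le (by norm_num)
  apply mul_le_mul_of_nonneg_right _ hn'.le
  linarith

theorem ha_gen {δ : ℝ} (h0 : 0 < δ) (h1 : δ < 1 / 2) (ε : ℝ) (hε : 0 < ε) : ∃ n0 : ℕ, ∀ n ≥ n0,
    ∀ C : Finset (Wd n), IsCode ⌈δ * n⌉₊ C → ∀ w : ℕ, ⌈δ * n⌉₊ ≤ w → w + ⌈δ * n⌉₊ ≤ n →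
      (Nw C w : ℝ) ≤ C.card * pw n (Tensor.ell δ - 1 + ε) * n.choose w := by
  obtain ⟨c, hc, hc1, -, n1, hn1⟩ := near_gen h0 (ε / 2) (by linarith)
  obtain ⟨n2, hn2⟩ := poly_le_pw (32 / c ^ 2) (ε / 2) (by linarith)
  refine ⟨max (max n1 n2) 1, fun n hn C hC w hw hwn => ?_⟩
  have hna : n1 ≤ n := (le_max_left _ _).trans ((le_max_left _ _).trans hn)
  have hnb : n2 ≤ n := (le_max_right _ _).trans ((le_max_left _ _).trans hn)
  have hnc : 1 ≤ n := (le_max_right _ _).trans hn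
  have hn0 : (0 : ℝ) < n := by exact_mod_cast hnc
  obtain ⟨f, H, hr, hf, hm⟩ := hn1 n hna
  set D : ℕ := ⌈δ * n⌉₊ with hD
  have hD1 : δ * (n : ℝ) ≤ D := Nat.le_ceil _
  have hD2 : D ≤ n := by
    rw [hD]
    apply Nat.ceil_le.mpr
    nlinarith
  have hD3 : 0 < D := by
    rw [hD]
    exact Nat.ceil_pos.mpr (mul_pos h0 hn0)
  set b : ℝ := 1 - 2 * δ with hb
  have hb0 : 0 < b := by rw [hb]; linarith
  have hb1 : b < 1 := by rw [hb]; linarith
  set s : ℝ := c / 8 with hs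
  have hs0 : 0 < s := by positivity
  have hs1 : s < 1 := by rw [hs]; linarith
  have hlev : b + c / 2 ≤ (1 - s) / (1 + s) * (b + c) := by
    rw [div_mul_eq_mul_div, le_div_iff₀ (by linarith)]
    have h1 : s = c / 8 := hs
    rw [h1]
    nlinarith
  set l : ℝ := (1 - s) / (1 + s) * ((b + c) * n) with hl
  have hl2 : (b + c / 2) * n ≤ l := by
    rw [hl, ← mul_assoc]
    exact mul_le_mul_of_nonneg_right hlev hn0.le
  have hnD : (n : ℝ) - 2 * D ≤ b * n := by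
    rw [hb]; nlinarith
  have hlpos : 0 ≤ (b + c) * n := by positivity
  have hadj := fun x => mulC_adj hf.nonneg hlpos hs0.le hs1 hf.adj x
  have hnn := fun x => mulC_nonneg hf.nonneg hs0.le hs1.le x
  have hcn : (0 : ℝ) < n.choose w := by
    exact_mod_cast Nat.choose_pos (by omega)
  have hhat : ∀ x : Wd n, 0 ≤ hatW (mulC f s) x := by
    intro x
    rw [hatW_mulC]
    have h1 := hf.hat x
    have h2 : 0 ≤ ∑ z, mub z * hatW f (x + z) :=
      Finset.sum_nonneg fun z _ => mul_nonneg (mub_pos z).le (hf.hat _)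
    positivity
  have hlow : ∀ x : Wd n, wt x = w →
      s * (2 ^ n / (((n : ℝ) + 1) ^ 3 * n.choose w)) ≤ hatW (mulC f s) x := by
    intro x hx
    rw [← hx]
    apply hat_low hf hr hD2 _ hs0.le (by omega) (by omega)
    have : 0 < c * n := by positivity
    linarith [hnD]
  have hsl := slackA (n := n) (l := l) (μ := l) (d := D) (w := w) hnn hhat
    (by intro x; rw [hl]; exact hadj x) (by nlinarith [mul_pos hc hn0]) le_rfl hC (by omega) hlow
  have hmass : ∑ x, mulC f s x ≤ 2 * pw n (Tensor.ell δ + ε / 2) := by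
    calc ∑ x, mulC f s x ≤ ∑ x, 2 * f x :=
          Finset.sum_le_sum fun x _ => mulC_le hf.nonneg hs0.le hs1.le x
      _ = 2 * ∑ x, f x := by rw [Finset.mul_sum]
      _ ≤ _ := by linarith
  have hl0 : 0 ≤ l := le_trans (by positivity) hl2
  have hCc : (0 : ℝ) ≤ C.card := Nat.cast_nonneg _
  have hmass0 : 0 ≤ ∑ x, mulC f s x := Finset.sum_nonneg fun x _ => hnn x
  have hR : (C.card : ℝ) * (n - l) * ∑ x, mulC f s x ≤
      C.card * n * (2 * pw n (Tensor.ell δ + ε / 2)) := by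
    calc (C.card : ℝ) * (n - l) * ∑ x, mulC f s x ≤ C.card * n * ∑ x, mulC f s x := by
          apply mul_le_mul_of_nonneg_right _ hmass0
          apply mul_le_mul_of_nonneg_left _ hCc
          linarith
      _ ≤ _ := mul_le_mul_of_nonneg_left hmass (by positivity)
  have hN0 : (0 : ℝ) ≤ Nw C w := Nat.cast_nonneg _
  have hLb : c / 2 * n * (s * (2 ^ n / (((n : ℝ) + 1) ^ 3 * n.choose w)) * Nw C w) ≤
      (l - (n - 2 * D)) * (s * (2 ^ n / (((n : ℝ) + 1) ^ 3 * n.choose w)) * Nw C w) := by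
    apply mul_le_mul_of_nonneg_right _ (by positivity)
    nlinarith
  have hfin := (hLb.trans hsl).trans hR
  have hpoly := hn2 n hnb
  have hpw1 : pw n (Tensor.ell δ + ε / 2) = 2 ^ n * pw n (Tensor.ell δ - 1 + ε / 2) := by
    rw [← pw_one n, ← pw_add]
    congr 1
    ring
  have hpw2 : pw n (Tensor.ell δ - 1 + ε) = pw n (Tensor.ell δ - 1 + ε / 2) * pw n (ε / 2) := by
    rw [← pw_add]
    congr 1
    ring
  have hP := pw_pos n (Tensor.ell δ - 1 + ε / 2)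
  have h2n : (0 : ℝ) < 2 ^ n := by positivity
  -- solve for the number of pairs
  have h9 : (Nw C w : ℝ) ≤ C.card * (32 / c ^ 2 * ((n : ℝ) + 1) ^ 3) *
      pw n (Tensor.ell δ - 1 + ε / 2) * n.choose w := by
    rw [hpw1] at hfin
    have h10 : c / 2 * n * (s * (2 ^ n / (((n : ℝ) + 1) ^ 3 * n.choose w)) * Nw C w) =
        (c ^ 2 / 16 * n * 2 ^ n / (((n : ℝ) + 1) ^ 3 * n.choose w)) * Nw C w := by
      rw [hs]; ring
    rw [h10] at hfin
    have h11 : (0 : ℝ) < c ^ 2 / 16 * n * 2 ^ n / (((n : ℝ) + 1) ^ 3 * n.choose w) := by positivity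
    have h12 : (C.card : ℝ) * n * (2 * (2 ^ n * pw n (Tensor.ell δ - 1 + ε / 2))) =
        (c ^ 2 / 16 * n * 2 ^ n / (((n : ℝ) + 1) ^ 3 * n.choose w)) *
          (C.card * (32 / c ^ 2 * ((n : ℝ) + 1) ^ 3) * pw n (Tensor.ell δ - 1 + ε / 2) *
            n.choose w) := by
      field_simp
      ring
    rw [h12] at hfin
    exact le_of_mul_le_mul_left hfin h11
  refine h9.trans ?_
  rw [hpw2]
  have h13 : (C.card : ℝ) * (32 / c ^ 2 * ((n : ℝ) + 1) ^ 3) * pw n (Tensor.ell δ - 1 + ε / 2) ≤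
      C.card * (pw n (Tensor.ell δ - 1 + ε / 2) * pw n (ε / 2)) := by
    calc (C.card : ℝ) * (32 / c ^ 2 * ((n : ℝ) + 1) ^ 3) * pw n (Tensor.ell δ - 1 + ε / 2) =
          (C.card * pw n (Tensor.ell δ - 1 + ε / 2)) * (32 / c ^ 2 * ((n : ℝ) + 1) ^ 3) := by ring
      _ ≤ (C.card * pw n (Tensor.ell δ - 1 + ε / 2)) * pw n (ε / 2) :=
          mul_le_mul_of_nonneg_left hpoly (by positivity)
      _ = _ := by ring
  exact mul_le_mul_of_nonneg_right h13 hcn.le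

theorem typD_holds {δ : ℝ} (h0 : 0 < δ) (h1 : δ < 1 / 2) : TypD δ (Tensor.ell δ) := by
  intro ε hε
  obtain ⟨n0, hn0⟩ := ha_gen h0 h1 ε hε
  refine ⟨n0, fun n hn C hC w hw1 hw2 => ?_⟩
  rcases lt_or_ge w ⌈δ * n⌉₊ with h | h
  · rw [nP_small hC (by omega) h, Nat.cast_zero]
    have := pw_pos n (Tensor.ell δ - 1 + ε)
    positivity
  · exact hn0 n hn C hC w h (by omega)

end Pool.Agent.Lib.MP_0430e4_lc.AC
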