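import Pool.Agent.Lib.MP_0430e4_lc.AC.Main4
import Pool.Agent.Lib.MP_0430e4_lc.AC.Sh12
import Pool.Agent.Lib.MP_0430e4_lc.AC.NX3
import Pool.Agent.Lib.MP_0430e4_lc.AC.BoxWd
import Pool.Agent.Lib.MP_0430e4_lc.AC.YT1
import Pool.Agent.Lib.MP_0430e4_lc.ACM.M5
import Pool.Agent.Lib.MP_0430e4_lc.Exact.INP

/-!
Project ALLCODES: final assembly (helper1). What is owed by the analysis:
`FV : ∀ t > 0, ForcedV ((1 - sI t) / 2) (ell ((1 - sI t) / 2))` (distances above `1/2 - 1/π`) and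
`FS : ∀ t > 0, ForcedS ((1 - sII t) / 2) (ell ((1 - sII t) / 2))` (distances below).
-/

set_option autoImplicit false

open Finset Filter Topology

namespace Pool.Agent.Lib.MP_0430e4_lc.AC

open BY BY.Four

/-- target of Y1 -/
def FV : Prop := ∀ t : ℝ, 0 < t → ForcedV ((1 - Exact.sI t) / 2) (Tensor.ell ((1 - Exact.sI t) / 2))

/-- target of Y2 -/
def FS : Prop := ∀ t : ℝ, 0 < t →
  ForcedS ((1 - Exact.sII t) / 2) (Tensor.ell ((1 - Exact.sII t) / 2))

theorem above_of (hV : FV) {δ : ℝ} (h0 : 1 / 2 - 1 / Real.pi < δ) (h1 : δ < 1 / 2) :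
    Rr δ < Tensor.ell δ := by
  have e : 2 / Real.pi = 2 * (1 / Real.pi) := by ring
  have hpi : (0 : ℝ) < 1 / 2 - 1 / Real.pi := by
    have h2 : 1 / Real.pi < 1 / 2 := one_div_lt_one_div_of_lt (by norm_num)
      (by linarith [Real.pi_gt_three])
    linarith
  obtain ⟨t, ht, hts⟩ := Exact.exists_sI (s := 1 - 2 * δ) (by linarith) (by linarith)
  have hd : (1 - Exact.sI t) / 2 = δ := by rw [hts]; ring
  have h := hV t ht
  rw [hd] at h
  obtain ⟨ε, hε, hR⟩ := rate_le_ofV (noAlignX_of ACM.multS boxW)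
    (typD_holds (lt_trans hpi h0) h1) h
  linarith

theorem below_of (hS : FS) {δ : ℝ} (h0 : 0 < δ) (h1 : δ < 1 / 2 - 1 / Real.pi) :
    Rr δ < Tensor.ell δ := by
  have e : 2 / Real.pi = 2 * (1 / Real.pi) := by ring
  have hpi : (0 : ℝ) < 1 / Real.pi := one_div_pos.mpr Real.pi_pos
  obtain ⟨t, ht, hts⟩ := Exact.exists_sII (s := 1 - 2 * δ) (by linarith) (by linarith)
  have hd : (1 - Exact.sII t) / 2 = δ := by rw [hts]; ring
  have h := hS t ht
  rw [hd] at h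
  obtain ⟨ε, hε, hR⟩ := rate_le_of_shS ACM.multS (typD_holds h0 (by linarith)) h
  linarith

end Pool.Agent.Lib.MP_0430e4_lc.AC
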