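import Pool.Agent.Lib.MP_0430e4_lc.AC.YT10

/-!
Project ALLCODES, part Y2 (helper51): the cost of the level.

* `yc_tan`: the tangent lines of the second branch lie below the exponent;
* `yc_first`: every `s0 ∈ (2/π, 1)` is `sII t` for the smallest possible `t`;
* `yc_cost`: a little more distance costs at most the slope.
-/

set_option autoImplicit false

open Finset Filter Topology

namespace Pool.Agent.Lib.MP_0430e4_lc.AC

open LPLOW Lower BY

/-- the value of `v` on the contact arc: `-2 ycK` is the slope of `ell * log 2` -/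
noncomputable def ycK (t : ℝ) : ℝ := t / 4 * Or (t / 2) 0

theorem yc_Or_zero (t : ℝ) : Or (t / 2) 0 = ∑' j : ℤ, Exact.sech (j * t) := by
  rw [← S_cO_zero]
  unfold Or
  rw [Complex.ofReal_zero]

theorem ycK_pos {t : ℝ} (ht : 0 < t) : 0 < ycK t := by
  unfold ycK
  have := Or_pos (η := t / 2) (by linarith) (s := 0) (by rw [abs_zero]; linarith)
  positivity

theorem ycK_cont {t : ℝ} (ht : 0 < t) : ContinuousAt ycK t := by
  have h2 : ContinuousOn (fun t : ℝ => ∑' j : ℕ, Exact.sech ((j + 1) * t)) (Set.Ioi 0) :=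
    Exact.RI.cont_aux (g := Exact.sech) (by norm_num) Exact.RI.continuous_sech
      (fun x => (Exact.sech_pos x).le) (fun x y hx hxy => Exact.sech_anti hx hxy)
      (fun t ht => Exact.summable_succ ht)
  have h3 : ContinuousAt (fun t : ℝ => ∑' j : ℕ, Exact.sech ((j + 1) * t)) t :=
    h2.continuousAt (Ioi_mem_nhds ht)
  have h4 : ContinuousAt (fun t : ℝ => t / 4 * (1 + 2 * ∑' j : ℕ, Exact.sech ((j + 1) * t))) t :=
    (continuousAt_id.div_const 4).mul (continuousAt_const.add (continuousAt_const.mul h3))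
  refine h4.congr ?_
  filter_upwards [Ioi_mem_nhds ht] with u hu
  unfold ycK
  rw [yc_Or_zero, Exact.tsum_int hu]

/-- **tangent lines** -/
theorem yc_tan {t δ : ℝ} (ht : 0 < t) (h0 : 0 < δ) :
    Real.log 2 - Exact.cval t + ycK t * ((1 - 2 * δ) - Exact.sII t) ≤
      Tensor.ell δ * Real.log 2 := by
  have hl2 : 0 < Real.log 2 := Real.log_pos (by norm_num)
  have hη : 0 < t / 2 := by linarith
  by_contra hcon
  push Not at hcon
  obtain ⟨e, he⟩ : ∃ e : ℝ, e = (Real.log 2 - Exact.cval t + ycK t * ((1 - 2 * δ) - Exact.sII t) -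
      Tensor.ell δ * Real.log 2) / (2 * Real.log 2) := ⟨_, rfl⟩
  have he0 : 0 < e := by rw [he]; apply div_pos <;> linarith
  have he1 : e * (2 * Real.log 2) = Real.log 2 - Exact.cval t +
      ycK t * ((1 - 2 * δ) - Exact.sII t) - Tensor.ell δ * Real.log 2 := by
    rw [he]; field_simp
  obtain ⟨c, hc, -, -, n0, hn0⟩ := near_gen h0 e he0
  obtain ⟨n, hn⟩ : ∃ n : ℕ, n = max n0 1 := ⟨_, rfl⟩
  have hn1 : 1 ≤ n := by rw [hn]; exact le_max_right _ _
  have hn' : (0 : ℝ) < n := by exact_mod_cast hn1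
  obtain ⟨f, H, -, hW, hm⟩ := hn0 n (by rw [hn]; exact le_max_left _ _)
  obtain ⟨ε, hε⟩ : ∃ ε : ℝ, ε = (Tensor.ell δ + e) * Real.log 2 -
      (Real.log 2 - Exact.cval t) := ⟨_, rfl⟩
  have hm' : ∑ x, f x ≤ Real.exp (n * (Real.log 2 - Exact.cval t + ε)) := by
    refine hm.trans (le_of_eq ?_)
    rw [pw_eq_exp]
    congr 1
    rw [hε]; ring
  have hkey : ∀ s : ℝ, 0 ≤ s → s < t / 2 →
      1 + ((1 - 2 * δ + c) * n) * Zs (t / 2) s ≤
        Real.exp (n * (Us (t / 2) (Exact.cval t) s + ε / (t / 2) * s)) := by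
    intro s hs0 hs1
    exact (Pfr_lower hW (Zs_nonneg hη hs0 hs1)).trans (ubII hη hs0 hs1 hW hm')
  have hz0 : |(0 : ℝ)| < t / 2 := by rw [abs_zero]; exact hη
  have hd1 : HasDerivAt (fun s => 1 + ((1 - 2 * δ + c) * n) * Zs (t / 2) s)
      (((1 - 2 * δ + c) * n) * (Or (t / 2) 0 / 2)) 0 := by
    have h1 := ((hasDerivAt_Zs hη hz0).const_mul ((1 - 2 * δ + c) * n)).const_add 1
    refine h1.congr_deriv ?_
    unfold Zs'
    rw [Zs_zero]; ring
  have hd2 : HasDerivAt (fun s => Real.exp (n * (Us (t / 2) (Exact.cval t) s + ε / (t / 2) * s)))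
      (n * (Exact.sII t * (Or (t / 2) 0 / 2) + ε / (t / 2))) 0 := by
    have h1 : HasDerivAt (fun s : ℝ => ε / (t / 2) * s) (ε / (t / 2)) 0 := by
      simpa using (hasDerivAt_id (0 : ℝ)).const_mul (ε / (t / 2))
    have h2 := (((hasDerivAt_Us hη (Exact.cval t) hz0).add h1).const_mul (n : ℝ)).exp
    refine h2.congr_deriv ?_
    rw [slope_crit2 ht]
    simp only [Pi.add_apply, mul_zero, add_zero]
    rw [Us_zero, mul_zero, Real.exp_zero, one_mul]
  have h3 := Lower.deriv_le_of_le hη hd1 hd2 (by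
      show 1 + ((1 - 2 * δ + c) * n) * Zs (t / 2) 0 =
        Real.exp (n * (Us (t / 2) (Exact.cval t) 0 + ε / (t / 2) * 0))
      rw [Zs_zero, Us_zero, mul_zero, mul_zero, add_zero, add_zero, mul_zero, Real.exp_zero])
    (fun s hs0 hs1 => hkey s hs0.le hs1)
  have h4 : (1 - 2 * δ + c) * (Or (t / 2) 0 / 2) ≤ Exact.sII t * (Or (t / 2) 0 / 2) +
      ε / (t / 2) := by
    apply le_of_mul_le_mul_left _ hn'
    linarith
  have hO : 0 < Or (t / 2) 0 := Or_pos hη hz0
  have h5 : (1 - 2 * δ + c) * ycK t ≤ Exact.sII t * ycK t + ε := by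
    have h6 := mul_le_mul_of_nonneg_left h4 hη.le
    have h7 : t / 2 * (Exact.sII t * (Or (t / 2) 0 / 2) + ε / (t / 2)) =
        Exact.sII t * ycK t + ε := by
      unfold ycK; field_simp; ring
    have h8 : t / 2 * ((1 - 2 * δ + c) * (Or (t / 2) 0 / 2)) = (1 - 2 * δ + c) * ycK t := by
      unfold ycK; ring
    rw [h7, h8] at h6
    exact h6
  have h9 : 0 < c * ycK t := mul_pos hc (ycK_pos ht)
  have h10 : 0 < e * Real.log 2 := mul_pos he0 hl2
  nlinarith

/-- the first time at which the level is reached -/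
theorem yc_first {s0 : ℝ} (h0 : 2 / Real.pi < s0) (h1 : s0 < 1) :
    ∃ t : ℝ, 0 < t ∧ Exact.sII t = s0 ∧ ∀ t' : ℝ, 0 < t' → t' < t → Exact.sII t' < s0 := by
  obtain ⟨t1, ht1, hs1⟩ := Exact.exists_sII h0 h1
  have hev := Exact.tendsto_sII_zero.eventually_lt_const h0
  rw [eventually_nhdsWithin_iff, Metric.eventually_nhds_iff] at hev
  obtain ⟨a, ha, hev⟩ := hev
  have hlow : ∀ t : ℝ, 0 < t → t < a → Exact.sII t < s0 := by
    intro t ht hta
    exact hev (y := t) (by rw [Real.dist_eq, sub_zero, abs_of_pos ht]; exact hta) ht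
  have hat1 : a ≤ t1 := by
    by_contra hc
    push Not at hc
    have := hlow t1 ht1 hc
    linarith
  set K : Set ℝ := {t | t ∈ Set.Icc a t1 ∧ s0 ≤ Exact.sII t} with hK
  have hcont : ContinuousOn Exact.sII (Set.Icc a t1) :=
    Exact.sII_continuousOn.mono fun t ht => lt_of_lt_of_le ha ht.1
  have hKc : IsCompact K := by
    have : K = Set.Icc a t1 ∩ Exact.sII ⁻¹' Set.Ici s0 := by
      ext t; simp [hK]
    rw [this]
    exact isCompact_Icc.of_isClosed_subset
      (hcont.preimage_isClosed_of_isClosed isClosed_Icc isClosed_Ici) Set.inter_subset_left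
  obtain ⟨t, htK, htmin⟩ := hKc.exists_isLeast ⟨t1, ⟨hat1, le_rfl⟩, hs1.ge⟩
  have ht0 : 0 < t := lt_of_lt_of_le ha htK.1.1
  have hbelow : ∀ t' : ℝ, 0 < t' → t' < t → Exact.sII t' < s0 := by
    intro t' h2 h3
    by_contra hc
    push Not at hc
    rcases lt_or_ge t' a with h4 | h4
    · have := hlow t' h2 h4
      linarith
    · have h5 := htmin (a := t') ⟨⟨h4, h3.le.trans htK.1.2⟩, hc⟩
      linarith
  refine ⟨t, ht0, le_antisymm ?_ htK.2, hbelow⟩
  have hct : ContinuousAt Exact.sII t := Exact.sII_continuousOn.continuousAt (Ioi_mem_nhds ht0)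
  have h6 : Tendsto Exact.sII (𝓝[<] t) (𝓝 (Exact.sII t)) := hct.tendsto.mono_left nhdsWithin_le_nhds
  apply le_of_tendsto h6
  filter_upwards [Ioo_mem_nhdsLT ht0] with t' ht'
  exact (hbelow t' ht'.1 ht'.2).le

/-- **the cost of the level** -/
theorem yc_cost {t : ℝ} (ht : 0 < t) (hfirst : ∀ t' : ℝ, 0 < t' → t' < t → Exact.sII t' < Exact.sII t)
    {τ x0 : ℝ} (hτ : 0 < τ) (hx0 : 0 < x0) : ∃ x : ℝ, 0 < x ∧ x < x0 ∧
    Tensor.ell ((1 - Exact.sII t) / 2 + x / 2) * Real.log 2 ≤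
      Real.log 2 - Exact.cval t - x * (ycK t * (1 - τ)) := by
  have hK := ycK_pos ht
  have h1 : ∀ᶠ u in 𝓝 t, ycK t * (1 - τ) < ycK u :=
    (ycK_cont ht).eventually_const_lt (by nlinarith [mul_pos hK hτ])
  have hct : ContinuousAt Exact.sII t := Exact.sII_continuousOn.continuousAt (Ioi_mem_nhds ht)
  have h2 : ∀ᶠ u in 𝓝 t, Exact.sII t - x0 < Exact.sII u :=
    hct.eventually_const_lt (by linarith)
  have h3 : ∀ᶠ u in 𝓝[<] t, u ∈ Set.Ioo 0 t := Ioo_mem_nhdsLT ht
  obtain ⟨u, ⟨hu1, hu2⟩, hu3⟩ := (((h1.and h2).filter_mono nhdsWithin_le_nhds).and h3).exists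
  have hs1 := Exact.sII_lt_one ht
  have hs2 := Exact.sII_pos hu3.1
  have hlt := hfirst u hu3.1 hu3.2
  refine ⟨Exact.sII t - Exact.sII u, by linarith, by linarith, ?_⟩
  have e1 : (1 - Exact.sII t) / 2 + (Exact.sII t - Exact.sII u) / 2 = (1 - Exact.sII u) / 2 := by
    ring
  rw [e1, ell_II hu3.1]
  have h5 := yc_tan (t := u) (δ := (1 - Exact.sII t) / 2) hu3.1 (by linarith)
  rw [ell_II ht] at h5
  have e2 : 1 - 2 * ((1 - Exact.sII t) / 2) - Exact.sII u = Exact.sII t - Exact.sII u := by ring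
  rw [e2] at h5
  have h6 : (Exact.sII t - Exact.sII u) * (ycK t * (1 - τ)) ≤
      ycK u * (Exact.sII t - Exact.sII u) := by
    rw [mul_comm (ycK u)]
    exact mul_le_mul_of_nonneg_left hu1.le (by linarith)
  linarith

/-- cheap certificates of a slightly lower level, for all large lengths -/
theorem yc_cert {t : ℝ} (ht : 0 < t)
    (hfirst : ∀ t' : ℝ, 0 < t' → t' < t → Exact.sII t' < Exact.sII t)
    {τ x0 : ℝ} (hτ : 0 < τ) (hx0 : 0 < x0) : ∃ x : ℝ, 0 < x ∧ x < x0 ∧ ∀ e : ℝ, 0 < e →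
    ∃ n0 : ℕ, ∀ n ≥ n0, ∃ (f : Wd n → ℝ) (H : ℕ → ℝ), RadF f H ∧
      WCert ((Exact.sII t - x) * n) f ∧
      ∑ y, f y ≤ Real.exp (n * (Real.log 2 - Exact.cval t - x * (ycK t * (1 - τ)) + e)) := by
  have hs := Exact.sII_pos ht
  obtain ⟨x, hx, hx1, hell⟩ := yc_cost ht hfirst hτ (lt_min hx0 hs)
  have hxa := hx1.trans_le (min_le_left x0 (Exact.sII t))
  have hs1 := Exact.sII_lt_one ht
  refine ⟨x, hx, hxa, fun e he => ?_⟩
  have hl2 : 0 < Real.log 2 := Real.log_pos (by norm_num)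
  obtain ⟨c, hc, -, -, n0, hn0⟩ := near_gen (δ := (1 - Exact.sII t) / 2 + x / 2)
    (by linarith) (e / Real.log 2) (by positivity)
  refine ⟨n0, fun n hn => ?_⟩
  obtain ⟨f, H, hR, hW, hm⟩ := hn0 n hn
  have hn' : (0 : ℝ) ≤ n := Nat.cast_nonneg n
  refine ⟨f, H, hR, ?_, ?_⟩
  · refine ⟨hW.nonneg, hW.hat, fun y => ?_, hW.one⟩
    refine le_trans ?_ (hW.adj y)
    apply mul_le_mul_of_nonneg_right _ (hW.nonneg y)
    apply mul_le_mul_of_nonneg_right _ hn'
    linarith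
  · refine hm.trans ?_
    rw [pw_eq_exp]
    apply Real.exp_le_exp.2
    apply mul_le_mul_of_nonneg_left _ hn'
    rw [add_mul, div_mul_cancel₀ _ hl2.ne']
    linarith

end Pool.Agent.Lib.MP_0430e4_lc.AC
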