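import Pool.Agent.Lib.MP_0430e4_lc.AC.Final
import Pool.Agent.Lib.MP_0430e4_lc.AC.YC1

/-!
Project ALLCODES (helper51): the target of Y2 is needed only for the first parameter `t` of each
level (this is what the cost lemma `yc_cert` uses).
-/

set_option autoImplicit false

open Finset Filter Topology

namespace Pool.Agent.Lib.MP_0430e4_lc.AC

open BY BY.Four

/-- target of Y2, weak form -/
def FS1 : Prop := ∀ t : ℝ, 0 < t → (∀ t' : ℝ, 0 < t' → t' < t → Exact.sII t' < Exact.sII t) →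
  ForcedS ((1 - Exact.sII t) / 2) (Tensor.ell ((1 - Exact.sII t) / 2))

theorem FS.to1 (h : FS) : FS1 := fun t ht _ => h t ht

theorem below_of1 (hS : FS1) {δ : ℝ} (h0 : 0 < δ) (h1 : δ < 1 / 2 - 1 / Real.pi) :
    Rr δ < Tensor.ell δ := by
  have e : 2 / Real.pi = 2 * (1 / Real.pi) := by ring
  have hpi : (0 : ℝ) < 1 / Real.pi := one_div_pos.mpr Real.pi_pos
  obtain ⟨t, ht, hts, hfirst⟩ := yc_first (s0 := 1 - 2 * δ) (by linarith) (by linarith)
  have hd : (1 - Exact.sII t) / 2 = δ := by rw [hts]; ring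
  have h := hS t ht (fun t' h2 h3 => by rw [hts]; exact hfirst t' h2 h3)
  rw [hd] at h
  obtain ⟨ε, hε, hR⟩ := rate_le_of_shS ACM.multS (typD_holds h0 (by linarith)) h
  linarith

end Pool.Agent.Lib.MP_0430e4_lc.AC
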