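import Pool.Agent.Lib.MP_0430e4_lc.BY.H.Mul
import Pool.Agent.Lib.MP_0430e4_lc.BY.H.HAm
import Pool.Agent.Lib.MP_0430e4_lc.BY.H.UB
import Pool.Agent.Lib.MP_0430e4_lc.BY.H.Mass

/-!
Project ALLCODES, high weights (helper30), part 1: the inequality (HX) of /team-store/LEFT30.md.

`f ≥ 0`, `hatW f ≥ 0`, `fe` = even part, `fe y = f y (1 + e 1 y) / 2`. The neighbour sum of `fe` is
nonnegative and has transform `(n - 2 wt x) hatW fe x`; pairing with the code gives
`∑_{w > n - D} N_w (2 w - n) hatW fe ≤ n |C| hatW fe 0 + ∑_{D ≤ w ≤ n/2} N_w (n - 2 w) hatW fe`.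
-/

set_option autoImplicit false

open Finset

namespace Pool.Agent.Lib.MP_0430e4_lc.AC

open BY

variable {n : ℕ}

/-- the all-ones word -/
def ones : Wd n := fun _ => 1

/-- even part -/
noncomputable def evn (f : Wd n → ℝ) (y : Wd n) : ℝ := f y * ((1 + e ones y) / 2)

theorem hx_abs_e (x y : Wd n) : |e x y| ≤ 1 := (abs_e x y).le

theorem evn_nonneg {f : Wd n → ℝ} (hf : ∀ x, 0 ≤ f x) (y : Wd n) : 0 ≤ evn f y := by
  unfold evn
  have h := abs_le.mp (hx_abs_e (ones : Wd n) y)
  apply mul_nonneg (hf y)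
  linarith [h.1]

theorem evn_zero (f : Wd n → ℝ) : evn f 0 = f 0 := by
  unfold evn
  rw [e_zero_right]
  ring

theorem hatW_evn (f : Wd n → ℝ) (x : Wd n) :
    hatW (evn f) x = (hatW f x + hatW f (x + ones)) / 2 := by
  unfold hatW evn
  rw [← Finset.sum_add_distrib, Finset.sum_div]
  apply Finset.sum_congr rfl
  intro y _
  rw [e_add_left]
  ring

theorem wt_add_ones (x : Wd n) : wt (x + ones) = n - wt x := by
  have h : (univ.filter (fun i : Fin n => x i ≠ 0)).card +
      (univ.filter (fun i : Fin n => ¬ x i ≠ 0)).card = n := by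
    rw [Finset.card_filter_add_card_filter_not]
    simp
  have h1 : wt x = (univ.filter (fun i : Fin n => x i ≠ 0)).card := rfl
  have h2 : wt (x + ones) = (univ.filter (fun i : Fin n => ¬ x i ≠ 0)).card := by
    unfold wt hammingNorm
    congr 1
    ext i
    simp only [Finset.mem_filter, Finset.mem_univ, true_and, not_not]
    rw [Pi.add_apply]
    have : (ones : Wd n) i = 1 := rfl
    rw [this]
    have h11 : (1 : ZMod 2) + 1 = 0 := by decide
    rcases z01 (x i) with h | h
    · simp [h]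
    · simp [h, h11]
  omega

theorem hx_hatW_le {f : Wd n → ℝ} (hf : ∀ x, 0 ≤ f x) (x : Wd n) : hatW f x ≤ ∑ y, f y := by
  unfold hatW
  apply Finset.sum_le_sum
  intro y _
  have h1 := (abs_le.mp (abs_e_le x y)).2
  have h2 := mul_le_mul_of_nonneg_left h1 (hf y)
  linarith

theorem hx_le_mass {f : Wd n → ℝ} {H : ℕ → ℝ} (hf : ∀ x, 0 ≤ f x) (hr : RadF (hatW f) H) {j : ℕ}
    (hj : j ≤ n) : H j ≤ ∑ y, f y := by
  have hc : 0 < (univ.filter (fun y : Wd n => wt y = j)).card := by
    rw [card_wt]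
    exact Nat.choose_pos hj
  obtain ⟨y, hy⟩ := card_pos.mp hc
  rw [← (mem_filter.mp hy).2, ← hr y]
  exact hx_hatW_le hf y

/-- **(HX)** for one function and one high weight. -/
theorem hx {d v : ℕ} {f : Wd n → ℝ} {H : ℕ → ℝ} (hf : ∀ x, 0 ≤ f x) (hh : ∀ x, 0 ≤ hatW f x)
    (hr : RadF (hatW f) H) {C : Finset (Wd n)} (hC : IsCode d C) (hd : 2 * d ≤ n) (hv : v < d)
    {K : ℝ} (hK : 0 ≤ K) (hA : ∀ w : ℕ, d ≤ w → w + d ≤ n → (Nw C w : ℝ) ≤ K * n.choose w) :
    ((n : ℝ) - 2 * d) * (Nw C (n - v) * H v) ≤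
      2 * n * (C.card * ∑ x, f x + K * (2 ^ n * f 0)) := by
  have hvn : v ≤ n := by omega
  have hn0 : (0 : ℝ) ≤ n := Nat.cast_nonneg n
  set m : ℝ := ∑ x, f x with hm
  have hm0 : 0 ≤ m := Finset.sum_nonneg fun x _ => hf x
  have hH0 : ∀ j ≤ n, 0 ≤ H j := fun j hj => hm_nonneg hr hh hj
  have hHm : ∀ j ≤ n, H j ≤ m := fun j hj => hx_le_mass hf hr hj
  set E : ℕ → ℝ := fun w => (H w + H (n - w)) / 2 with hE
  have hE0 : ∀ j ≤ n, 0 ≤ E j := fun j hj => by
    have h1 := hH0 j hj
    have h2 := hH0 (n - j) (Nat.sub_le n j)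
    simp only [hE]; linarith
  have hEr : RadF (hatW (evn f)) E := by
    intro x
    rw [hatW_evn, hr x, hr (x + ones), wt_add_ones]
  -- the pairing
  have hp := pair_words C (fun y => ∑ i, evn f (y + sing i))
  have hpos : 0 ≤ ∑ y, (∑ i, evn f (y + sing i)) * (∑ x ∈ C, e x y) ^ 2 :=
    Finset.sum_nonneg fun y _ => mul_nonneg (Finset.sum_nonneg fun i _ => evn_nonneg hf _)
      (sq_nonneg _)
  rw [hp] at hpos
  have h1 : ∑ x ∈ C, ∑ x' ∈ C, hatW (fun y => ∑ i, evn f (y + sing i)) (x - x') =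
      ∑ x ∈ C, ∑ x' ∈ C, (fun w : ℕ => ((n : ℝ) - 2 * w) * E w) (wt (x - x')) := by
    apply Finset.sum_congr rfl; intro x _
    apply Finset.sum_congr rfl; intro x' _
    rw [hatW_adj, hEr]
  rw [h1, sum_pairs C (fun w : ℕ => ((n : ℝ) - 2 * w) * E w)] at hpos
  -- the total of the even part
  have htot : ∑ w ∈ range (n + 1), (n.choose w : ℝ) * E w = 2 ^ n * f 0 := by
    have h2 := hm_Pfr_eq hEr 1
    rw [Pfr_one, sum_hatW, evn_zero] at h2
    rw [h2]
    apply Finset.sum_congr rfl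
    intro w _
    ring
  -- termwise bound
  have hterm : ∀ w ∈ range (n + 1), (Nw C w : ℝ) * (((n : ℝ) - 2 * w) * E w) ≤
      (if w = 0 then (C.card : ℝ) * (n * m) else 0) + n * K * ((n.choose w : ℝ) * E w) -
        (if w = n - v then ((n : ℝ) - 2 * v) * (Nw C (n - v) * E (n - v)) else 0) := by
    intro w hw
    have hwn : w ≤ n := Nat.lt_succ_iff.mp (mem_range.mp hw)
    have hEw := hE0 w hwn
    have hNw : (0 : ℝ) ≤ Nw C w := Nat.cast_nonneg _
    have hch : (0 : ℝ) ≤ n.choose w := Nat.cast_nonneg _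
    have hKc : 0 ≤ n * K * ((n.choose w : ℝ) * E w) := by positivity
    by_cases c0 : w = 0
    · subst c0
      rw [if_pos rfl, if_neg (by omega), Nw_zero]
      have h3 : E 0 ≤ m := by
        have h4 := hHm 0 (Nat.zero_le _)
        have h5 := hHm n le_rfl
        simp only [hE, Nat.sub_zero]
        linarith
      have h4 : (C.card : ℝ) * (((n : ℝ) - 2 * (0 : ℕ)) * E 0) ≤ C.card * (n * m) := by
        apply mul_le_mul_of_nonneg_left _ (Nat.cast_nonneg _)
        rw [Nat.cast_zero, mul_zero, sub_zero]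
        exact mul_le_mul_of_nonneg_left h3 hn0
      linarith
    · rw [if_neg c0]
      by_cases c1 : w = n - v
      · rw [if_pos c1, ← c1]
        have h3 : (w : ℝ) = n - v := by rw [c1, Nat.cast_sub hvn]
        rw [h3]
        have h4 : (Nw C w : ℝ) * (((n : ℝ) - 2 * (n - v)) * E w) =
            -(((n : ℝ) - 2 * v) * (Nw C w * E w)) := by ring
        rw [h4]
        linarith
      · rw [if_neg c1]
        by_cases c2 : w < d
        · rw [Nw_of_lt hC c0 c2]
          simp only [Nat.cast_zero, zero_mul]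
          linarith
        · push Not at c2
          by_cases c3 : w + d ≤ n
          · have h3 := hA w c2 c3
            have h4 : ((n : ℝ) - 2 * w) * E w ≤ n * E w := by
              apply mul_le_mul_of_nonneg_right _ hEw
              have : (0 : ℝ) ≤ w := Nat.cast_nonneg w
              linarith
            calc (Nw C w : ℝ) * (((n : ℝ) - 2 * w) * E w) ≤ Nw C w * (n * E w) :=
                  mul_le_mul_of_nonneg_left h4 hNw
              _ ≤ (K * n.choose w) * (n * E w) := mul_le_mul_of_nonneg_right h3 (by positivity)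
              _ = 0 + n * K * ((n.choose w : ℝ) * E w) - 0 := by ring
          · have h3 : (n : ℝ) - 2 * w ≤ 0 := by
              have : n ≤ 2 * w := by omega
              have : (n : ℝ) ≤ 2 * w := by exact_mod_cast this
              linarith
            have h4 : (Nw C w : ℝ) * (((n : ℝ) - 2 * w) * E w) ≤ 0 :=
              mul_nonpos_of_nonneg_of_nonpos hNw (mul_nonpos_of_nonpos_of_nonneg h3 hEw)
            linarith
  have hsum := hpos.trans (Finset.sum_le_sum hterm)
  rw [Finset.sum_sub_distrib, Finset.sum_add_distrib, Finset.sum_ite_eq', Finset.sum_ite_eq',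
    ← Finset.mul_sum, htot, if_pos (mem_range.mpr (Nat.succ_pos n)),
    if_pos (mem_range.mpr (by omega))] at hsum
  have h5 : E (n - v) = (H (n - v) + H v) / 2 := by
    simp only [hE]
    rw [Nat.sub_sub_self hvn]
  have h6 := hH0 (n - v) (Nat.sub_le n v)
  have h7 := hH0 v hvn
  have hN : (0 : ℝ) ≤ Nw C (n - v) := Nat.cast_nonneg _
  have h8 : (Nw C (n - v) : ℝ) * H v ≤ 2 * (Nw C (n - v) * E (n - v)) := by
    rw [h5]
    nlinarith [mul_nonneg hN h6]
  have hvd : (v : ℝ) ≤ d := by exact_mod_cast hv.le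
  have h2d : (0 : ℝ) ≤ (n : ℝ) - 2 * d := by
    have : ((2 * d : ℕ) : ℝ) ≤ n := by exact_mod_cast hd
    push_cast at this
    linarith
  have h9 : 0 ≤ (Nw C (n - v) : ℝ) * E (n - v) := mul_nonneg hN (hE0 _ (Nat.sub_le n v))
  calc ((n : ℝ) - 2 * d) * (Nw C (n - v) * H v)
      ≤ ((n : ℝ) - 2 * d) * (2 * (Nw C (n - v) * E (n - v))) := mul_le_mul_of_nonneg_left h8 h2d
    _ ≤ ((n : ℝ) - 2 * v) * (2 * (Nw C (n - v) * E (n - v))) := by
        apply mul_le_mul_of_nonneg_right _ (by positivity)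
        linarith
    _ ≤ _ := by linarith

end Pool.Agent.Lib.MP_0430e4_lc.AC
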