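import Pool.Agent.Lib.MP_0430e4_lc.AC.YT6
import Pool.Agent.Lib.MP_0430e4_lc.AC.HX1

/-!
Project ALLCODES, part Y: the dual distribution at high levels (`hb_sym`): the bound `hb_gen` for
`S_k` holds for `S_{n-k}` as well.  Same proof with `f (y) + f (y + 1...1)` (mass doubled).
-/

set_option autoImplicit false

open Finset Filter Topology

namespace Pool.Agent.Lib.MP_0430e4_lc.AC

open BY

variable {n : ℕ}

/-- symmetrised function -/
noncomputable def symF (f : Wd n → ℝ) (y : Wd n) : ℝ := f y + f (y + ones)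

theorem symF_nonneg {f : Wd n → ℝ} (hf : ∀ x, 0 ≤ f x) (y : Wd n) : 0 ≤ symF f y :=
  add_nonneg (hf _) (hf _)

theorem sum_symF (f : Wd n → ℝ) : ∑ y, symF f y = 2 * ∑ y, f y := by
  unfold symF
  rw [Finset.sum_add_distrib]
  have h : ∑ y : Wd n, f (y + ones) = ∑ y, f y :=
    Fintype.sum_equiv (Equiv.addRight (ones : Wd n)) _ _ (fun y => rfl)
  rw [h]; ring

theorem hatW_symF (f : Wd n → ℝ) (x : Wd n) : hatW (symF f) x = hatW f x * (1 + e x ones) := by
  unfold hatW symF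
  have h : ∑ y : Wd n, f (y + ones) * e x y = ∑ y : Wd n, f y * e x (y + ones) := by
    refine Fintype.sum_equiv (Equiv.addRight (ones : Wd n)) _ _ (fun y => ?_)
    show f (y + ones) * e x y = f (y + ones) * e x (y + ones + ones)
    have h2 : y + ones + ones = y := by
      rw [add_assoc]
      have h3 : (ones : Wd n) + ones = 0 := by
        funext i
        show (1 : ZMod 2) + 1 = 0
        decide
      rw [h3, add_zero]
    rw [h2]
  calc ∑ y, (f y + f (y + ones)) * e x y = ∑ y, f y * e x y + ∑ y, f (y + ones) * e x y := by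
        rw [← Finset.sum_add_distrib]
        exact Finset.sum_congr rfl fun y _ => by ring
    _ = ∑ y, f y * e x y + ∑ y, f y * e x (y + ones) := by rw [h]
    _ = _ := by
        rw [mul_add, mul_one, Finset.sum_mul]
        congr 1
        exact Finset.sum_congr rfl fun y _ => by rw [e_add_right]; ring

theorem hatW_symF_nonneg {f : Wd n → ℝ} (hh : ∀ x, 0 ≤ hatW f x) (x : Wd n) :
    0 ≤ hatW (symF f) x := by
  rw [hatW_symF]
  have h := abs_le.mp (hx_abs_e x (ones : Wd n))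
  apply mul_nonneg (hh x)
  linarith [h.1]

theorem symF_adj {f : Wd n → ℝ} {l : ℝ} (ha : ∀ x, l * f x ≤ ∑ i, f (x + sing i)) (x : Wd n) :
    l * symF f x ≤ ∑ i, symF f (x + sing i) := by
  unfold symF
  rw [Finset.sum_add_distrib, mul_add]
  apply add_le_add (ha x)
  refine (ha (x + ones)).trans (le_of_eq ?_)
  apply Finset.sum_congr rfl
  intro i _
  rw [add_right_comm]

/-- **(HB)** at high levels. -/
theorem hb_sym {δ : ℝ} {U g : ℝ → ℝ} (P : Pot δ U g) (h0 : 0 < δ) (h1 : δ < 1 / 2) (ε : ℝ)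
    (hε : 0 < ε) (x2 : ℝ) (hx0 : 0 < x2) (hx1 : x2 < 1) : ∃ n0 : ℕ, ∀ n ≥ n0,
    ∀ C : Finset (Wd n), IsCode ⌈δ * n⌉₊ C → ∀ k : ℕ, g x2 * n ≤ k →
      (2 * k ≤ n ∨ ∃ κ : ℝ, (∀ y : ℝ, 0 < y → y < 1 → g y ≤ κ) ∧ (k : ℝ) + (κ + ε) * n ≤ n) →
    ∃ x : ℝ, x2 ≤ x ∧ x < 1 ∧
      Sk C (n - k) * Real.exp (n * U x) ≤
        C.card * pw n (Tensor.ell δ + ε) * x ^ k * n.choose k := by
  have hlog : 0 < Real.log 2 := Real.log_pos (by norm_num)
  have hlog1 : Real.log 2 ≤ 1 := by
    have := Real.log_two_lt_d9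
    linarith
  obtain ⟨a, ha, n1, hmass⟩ := mass_gen P h0 h1 (ε / 4 * Real.log 2) x2 (by positivity) hx0 hx1
  obtain ⟨ε', hε'⟩ : ∃ ε' : ℝ, ε' = min (ε / 4) a := ⟨_, rfl⟩
  have he0 : 0 < ε' := by rw [hε']; exact lt_min (by positivity) ha
  have he1 : ε' ≤ ε / 4 := by rw [hε']; exact min_le_left _ _
  have he2 : ε' ≤ a := by rw [hε']; exact min_le_right _ _
  obtain ⟨c, hc0, hc1, -, n2, hnear⟩ := near_gen h0 ε' he0
  obtain ⟨n3, hn3⟩ := HBaux.pw_lin (2 * (2 / c)) (show (0 : ℝ) < ε / 2 by positivity)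
  refine ⟨n1 + n2 + n3 + 1, fun n hn C hC k hk1 hk2 => ?_⟩
  obtain ⟨f, H, hR, hW, hsum⟩ := hnear n (by omega)
  have hnpos : (0 : ℝ) < (n : ℝ) := by
    have : 0 < n := by omega
    exact_mod_cast this
  obtain ⟨b, hb⟩ : ∃ b : ℝ, b = 1 - 2 * δ := ⟨_, rfl⟩
  have hb0 : 0 < b := by rw [hb]; linarith
  rw [← hb] at hW
  have hcn : 0 < c * (n : ℝ) := by positivity
  have hlev : b * (n : ℝ) ≤ (b + c) * n := by
    rw [add_mul]; linarith
  have hkn : k ≤ n := by
    rcases hk2 with h | ⟨κ, hκ, h⟩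
    · omega
    · have h2 := P.nonneg h0 (show (0 : ℝ) < 1 / 2 by norm_num) (by norm_num)
      have h3 := hκ (1 / 2) (by norm_num) (by norm_num)
      have h4 : 0 ≤ (κ + ε) * n := by
        apply mul_nonneg _ hnpos.le
        linarith
      have h5 : (k : ℝ) ≤ n := by linarith
      exact_mod_cast h5
  obtain ⟨x, hx2, hxlt, j, hjk, ⟨y, hy0, hy1, hjy⟩, hE⟩ := hmass n (by omega) _ f H hR hW
    (by rw [← hb]; exact hlev) (hsum.trans (pw_mono n (by linarith))) k hk1 hkn
  have hjk2 : j + k ≤ n := by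
    rcases hk2 with h | ⟨κ, hκ, h⟩
    · omega
    · have h3 := hκ y hy0 hy1
      have h4 : (g y + ε / 4 * Real.log 2) * n ≤ (κ + ε) * n := by
        apply mul_le_mul_of_nonneg_right _ hnpos.le
        nlinarith
      have h5 : (j : ℝ) + k ≤ n := by linarith
      exact_mod_cast h5
  refine ⟨x, hx2, hxlt, ?_⟩
  have hxpos : 0 < x := lt_of_lt_of_le hx0 hx2
  have hch : (0 : ℝ) < (n.choose k : ℝ) := by
    exact_mod_cast Nat.choose_pos hkn
  have hD : (n : ℝ) - 2 * (⌈δ * n⌉₊ : ℕ) ≤ b * n := by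
    have h : δ * (n : ℝ) ≤ (⌈δ * n⌉₊ : ℝ) := Nat.le_ceil _
    rw [hb]; linarith
  have hGn : ∀ y, 0 ≤ addC f 1 y := addC_nonneg hW.nonneg zero_le_one
  have hB := slackB (l := (b + c) * n) (μ := b * n)
    (c := n.choose j * H j / ((n + 1) * n.choose k)) (d := ⌈δ * n⌉₊) (k := n - k)
    (f := symF (addC f 1))
    (symF_nonneg hGn)
    (hatW_symF_nonneg fun y => by
      rw [hatW_addC, one_mul]
      apply mul_nonneg (hW.hat y)
      have := abs_le.mp (abs_psib y)
      linarith [this.1])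
    (symF_adj (addC_adj zero_le_one hW.adj)) hD hlev hC
    (fun y hy => by
      have h2 : wt (y + ones) = k := by rw [wt_add_ones, hy]; omega
      have h3 := HBaux.shell_le hR hW.nonneg hjk hjk2 (y + ones) h2
      have h4 := hGn y
      unfold symF
      linarith)
  rw [sum_symF, sum_addC] at hB
  have hf0 : 0 ≤ ∑ x, f x := Finset.sum_nonneg fun x _ => hW.nonneg x
  have hM : (0 : ℝ) ≤ C.card := Nat.cast_nonneg _
  have h3 := main_ineq_gen (l := (b + c) * n) (b := b) (c := c) (m := n.choose j * H j)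
    (S := Sk C (n - k)) (M := C.card) (B := 2 * ∑ x, f x)
    hnpos hc0 hb0.le (by ring) (n.choose k : ℝ) hch hM (by positivity) (by
      refine hB.trans (le_of_eq ?_)
      ring)
  have h4 : ∑ x, f x ≤ pw n (Tensor.ell δ + ε / 4) := hsum.trans (pw_mono n (by linarith))
  have hS := Sk_nonneg C (n - k)
  have hexp : Real.exp (ε / 4 * Real.log 2 * n) = pw n (ε / 4) := (HBaux.pw_exp n _).symm
  rw [hexp] at hE
  have hxk : 0 < x ^ k := pow_pos hxpos k
  have hp1 := pw_pos n (ε / 4)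
  have hp2 := pw_pos n (Tensor.ell δ + ε / 4)
  have h5 : 2 * (2 / c) * ((n : ℝ) + 1) ≤ pw n (ε / 2) := hn3 n (by omega)
  calc Sk C (n - k) * Real.exp (n * U x)
      ≤ Sk C (n - k) * (x ^ k * pw n (ε / 4) * (n.choose j * H j)) :=
        mul_le_mul_of_nonneg_left hE hS
    _ = x ^ k * pw n (ε / 4) * ((n.choose j * H j) * Sk C (n - k)) := by ring
    _ ≤ x ^ k * pw n (ε / 4) * (2 / c * (n + 1) * (C.card * (2 * ∑ x, f x) * n.choose k)) :=
        mul_le_mul_of_nonneg_left h3 (by positivity)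
    _ = x ^ k * pw n (ε / 4) * (2 * (2 / c) * (n + 1) * (C.card * (∑ x, f x) * n.choose k)) := by
        ring
    _ ≤ x ^ k * pw n (ε / 4) * (pw n (ε / 2) * (C.card * pw n (Tensor.ell δ + ε / 4) *
          n.choose k)) := by
        apply mul_le_mul_of_nonneg_left _ (by positivity)
        apply mul_le_mul h5 _ (by positivity) (pw_pos n _).le
        apply mul_le_mul_of_nonneg_right _ hch.le
        exact mul_le_mul_of_nonneg_left h4 hM
    _ = C.card * (pw n (ε / 4) * pw n (ε / 2) * pw n (Tensor.ell δ + ε / 4)) * x ^ k *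
          n.choose k := by ring
    _ = C.card * pw n (Tensor.ell δ + ε) * x ^ k * n.choose k := by
        rw [← pw_add, ← pw_add]
        congr 4
        ring

end Pool.Agent.Lib.MP_0430e4_lc.AC
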