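import Pool.Agent.Lib.MP_0430e4_lc.AC.YT4
import Pool.Agent.Lib.MP_0430e4_lc.BY.H.Mass

/-!
Project ALLCODES, part Y (helper13): the masses of near-optimal certificates, any branch
(general form of `BY.mass`, helper84).
-/

set_option autoImplicit false

open Finset Filter Topology

namespace Pool.Agent.Lib.MP_0430e4_lc.AC

open BY

theorem Pot.near {δ : ℝ} {U g : ℝ → ℝ} (P : Pot δ U g) {y η : ℝ} (h0 : 0 < y) (h1 : y < 1)
    (hη : 0 < η) :
    (∃ u, y < u ∧ u < 1 ∧ g u ≤ g y + η) ∧ ∃ v, 0 < v ∧ v < y ∧ g y - η ≤ g v := by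
  obtain ⟨d, hd, hc⟩ := Metric.continuousAt_iff.mp (P.cont y h0 h1) η hη
  constructor
  · have hm : 0 < min (d / 2) ((1 - y) / 2) := lt_min (by linarith) (by linarith)
    have hm1 := min_le_left (d / 2) ((1 - y) / 2)
    have hm2 := min_le_right (d / 2) ((1 - y) / 2)
    refine ⟨y + min (d / 2) ((1 - y) / 2), by linarith, by linarith, ?_⟩
    have h := hc (x := y + min (d / 2) ((1 - y) / 2)) (by
      rw [Real.dist_eq, add_sub_cancel_left, abs_of_pos hm]
      linarith)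
    rw [Real.dist_eq] at h
    have := (abs_lt.mp h).2
    linarith
  · have hm : 0 < min (d / 2) (y / 2) := lt_min (by linarith) (by linarith)
    have hm1 := min_le_left (d / 2) (y / 2)
    have hm2 := min_le_right (d / 2) (y / 2)
    refine ⟨y - min (d / 2) (y / 2), by linarith, by linarith, ?_⟩
    have h := hc (x := y - min (d / 2) (y / 2)) (by
      rw [Real.dist_eq, abs_sub_comm, abs_of_pos (by linarith)]
      linarith)
    rw [Real.dist_eq] at h
    have := (abs_lt.mp h).1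
    linarith

variable {δ : ℝ} {U g : ℝ → ℝ}

theorem mass_at (P : Pot δ U g) (hδ : 0 < δ) (y η β' : ℝ) (h0 : 0 < y) (h1 : y < 1) (hη : 0 < η) (hβ : 0 < β') :
    ∃ a : ℝ, 0 < a ∧ ∃ n0 : ℕ, ∀ n ≥ n0, ∀ (l : ℝ) (f : Wd n → ℝ) (H : ℕ → ℝ), RadF f H →
    WCert l f → (1 - 2 * δ) * n ≤ l → ∑ x, f x ≤ pw n (Tensor.ell δ + a) →
    ∃ j : ℕ, (j : ℝ) ≤ (g y + η) * n ∧ (g y - η) * n ≤ j ∧
      Real.exp (n * U y) * Real.exp (-(β' * n)) ≤ n.choose j * H j * y ^ j := by
  obtain ⟨⟨u, hu0, hu1, hu⟩, v, hv0, hv1, hv⟩ := P.near h0 h1 (half_pos hη)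
  set lam : ℝ := Real.log u - Real.log y with hlam
  set mu : ℝ := Real.log y - Real.log v with hmu
  have hlam0 : 0 < lam := by
    rw [hlam]
    have := Real.log_lt_log h0 hu0
    linarith
  have hmu0 : 0 < mu := by
    rw [hmu]
    have := Real.log_lt_log hv0 hv1
    linarith
  set β : ℝ := min β' (min (η / 2 * lam) (η / 2 * mu)) / 4 with hβdef
  have hβ0 : 0 < β := by
    rw [hβdef]
    have : 0 < min β' (min (η / 2 * lam) (η / 2 * mu)) :=
      lt_min hβ (lt_min (by positivity) (by positivity))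
    linarith
  have hb1 : 4 * β ≤ β' := by
    rw [hβdef]
    have := min_le_left β' (min (η / 2 * lam) (η / 2 * mu))
    linarith
  have hb2 : 4 * β ≤ η / 2 * lam := by
    rw [hβdef]
    have := min_le_right β' (min (η / 2 * lam) (η / 2 * mu))
    have := min_le_left (η / 2 * lam) (η / 2 * mu)
    linarith
  have hb3 : 4 * β ≤ η / 2 * mu := by
    rw [hβdef]
    have := min_le_right β' (min (η / 2 * lam) (η / 2 * mu))
    have := min_le_right (η / 2 * lam) (η / 2 * mu)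
    linarith
  obtain ⟨a1, ha1, n1, hlb⟩ := P.lb y β h0 h1 hβ0
  obtain ⟨a2, ha2, n2, hub⟩ := P.ub u β (h0.trans hu0) hu1 hβ0
  obtain ⟨a3, ha3, n3, hvb⟩ := P.ub v β hv0 (hv1.trans h1) hβ0
  refine ⟨min a1 (min a2 a3), lt_min ha1 (lt_min ha2 ha3),
    max (n1 + n2 + n3) (max 3 (⌈1 / β ^ 2⌉₊ + 1)), ?_⟩
  intro n hn l f H hr hf hl hmass
  have hn1 : n1 + n2 + n3 ≤ n := (le_max_left _ _).trans hn
  have hn2 : 3 ≤ n := ((le_max_left _ _).trans (le_max_right _ _)).trans hn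
  have hn3 : ⌈1 / β ^ 2⌉₊ + 1 ≤ n := ((le_max_right _ _).trans (le_max_right _ _)).trans hn
  have hn4 : 1 / β ^ 2 < n := by
    have h := Nat.le_ceil (1 / β ^ 2)
    have h' : ((⌈1 / β ^ 2⌉₊ + 1 : ℕ) : ℝ) ≤ n := by exact_mod_cast hn3
    push_cast at h'
    linarith
  have hlarge := hm_large hβ0 hn2 hn4
  have hnn : (0 : ℝ) ≤ n := Nat.cast_nonneg n
  have hm1 : ∑ x, f x ≤ pw n (Tensor.ell δ + a1) :=
    hmass.trans (pw_mono n (add_le_add le_rfl (min_le_left _ _)))
  have hm2 : ∑ x, f x ≤ pw n (Tensor.ell δ + a2) :=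
    hmass.trans (pw_mono n (add_le_add le_rfl ((min_le_right _ _).trans (min_le_left _ _))))
  have hm3 : ∑ x, f x ≤ pw n (Tensor.ell δ + a3) :=
    hmass.trans (pw_mono n (add_le_add le_rfl ((min_le_right _ _).trans (min_le_right _ _))))
  have hlow : Real.exp (n * U y) * Real.exp (-(β * n)) ≤ Pfr f y := by
    have h := hlb n (by omega) l f hf hl hm1
    rw [← Real.exp_add]
    refine le_trans (le_of_eq ?_) h
    congr 1; ring
  by_contra hcon
  push Not at hcon
  have hPu := hub n (by omega) l f hf hl hm2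
  have hPv := hvb n (by omega) l f hf hl hm3
  have hmj : ∀ j, j ≤ n → 0 ≤ (n.choose j : ℝ) * H j := fun j hj =>
    mul_nonneg (Nat.cast_nonneg _) (hm_nonneg hr hf.nonneg hj)
  have hyu : Real.log y = Real.log u - lam := by rw [hlam]; ring
  have hyv : Real.log y = Real.log v + mu := by rw [hmu]; ring
  have hpow : ∀ (r : ℝ), 0 < r → ∀ j : ℕ, r ^ j = Real.exp (j * Real.log r) := by
    intro r hr j
    rw [Real.exp_nat_mul, Real.exp_log hr]
  have hterm : ∀ j ∈ range (n + 1), (n.choose j : ℝ) * H j * y ^ j ≤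
      Real.exp (n * U y) * Real.exp (-(β' * n)) +
      Real.exp (-((g y + η) * n * lam)) * ((n.choose j : ℝ) * H j * u ^ j) +
      Real.exp ((g y - η) * n * mu) * ((n.choose j : ℝ) * H j * v ^ j) := by
    intro j hj
    have hj' : j ≤ n := Nat.lt_succ_iff.mp (mem_range.mp hj)
    have hm0 := hmj j hj'
    have hu' : 0 ≤ (n.choose j : ℝ) * H j * u ^ j := mul_nonneg hm0 (pow_nonneg (h0.trans hu0).le _)
    have hv' : 0 ≤ (n.choose j : ℝ) * H j * v ^ j := mul_nonneg hm0 (pow_nonneg hv0.le _)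
    have e1 : 0 ≤ Real.exp (n * U y) * Real.exp (-(β' * n)) := by positivity
    have e2 : 0 ≤ Real.exp (-((g y + η) * n * lam)) * ((n.choose j : ℝ) * H j * u ^ j) :=
      mul_nonneg (Real.exp_pos _).le hu'
    have e3 : 0 ≤ Real.exp ((g y - η) * n * mu) * ((n.choose j : ℝ) * H j * v ^ j) :=
      mul_nonneg (Real.exp_pos _).le hv'
    by_cases c1 : (j : ℝ) ≤ (g y + η) * n
    · by_cases c2 : (g y - η) * n ≤ j
      · have h3 := (hcon j c1 c2).le
        linarith
      · push Not at c2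
        have h3 : y ^ j ≤ Real.exp ((g y - η) * n * mu) * v ^ j := by
          rw [hpow y h0, hpow v hv0, ← Real.exp_add]
          apply Real.exp_le_exp.mpr
          rw [hyv]
          have := mul_le_mul_of_nonneg_right c2.le hmu0.le
          linarith
        have h4 := mul_le_mul_of_nonneg_left h3 hm0
        have h5 : (n.choose j : ℝ) * H j * (Real.exp ((g y - η) * n * mu) * v ^ j) =
          Real.exp ((g y - η) * n * mu) * ((n.choose j : ℝ) * H j * v ^ j) := by ring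
        linarith
    · push Not at c1
      have h3 : y ^ j ≤ Real.exp (-((g y + η) * n * lam)) * u ^ j := by
        rw [hpow y h0, hpow u (h0.trans hu0), ← Real.exp_add]
        apply Real.exp_le_exp.mpr
        rw [hyu]
        have := mul_le_mul_of_nonneg_right c1.le hlam0.le
        linarith
      have h4 := mul_le_mul_of_nonneg_left h3 hm0
      have h5 : (n.choose j : ℝ) * H j * (Real.exp (-((g y + η) * n * lam)) * u ^ j) =
        Real.exp (-((g y + η) * n * lam)) * ((n.choose j : ℝ) * H j * u ^ j) := by ring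
      linarith
  have hsum := sum_le_sum hterm
  rw [← hm_Pfr_eq hr y, sum_add_distrib, sum_add_distrib, sum_const, card_range, nsmul_eq_mul,
    ← mul_sum, ← mul_sum, ← hm_Pfr_eq hr u, ← hm_Pfr_eq hr v] at hsum
  have hU : Real.exp (-((g y + η) * n * lam)) * Pfr f u ≤
      Real.exp (n * U y) * Real.exp (-(3 * β * n)) := by
    refine (mul_le_mul_of_nonneg_left hPu (Real.exp_pos _).le).trans ?_
    rw [← Real.exp_add, ← Real.exp_add]
    apply Real.exp_le_exp.mpr
    have h3 := P.le_log hδ h0 hu0.le hu1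
    rw [← hlam] at h3
    have h4 : g u * lam ≤ (g y + η / 2) * lam := mul_le_mul_of_nonneg_right hu hlam0.le
    have h5 : (n : ℝ) * (U u - U y + β + 3 * β - (g y + η) * lam) ≤ n * 0 := by
      apply mul_le_mul_of_nonneg_left _ hnn
      linarith
    linarith
  have hV : Real.exp ((g y - η) * n * mu) * Pfr f v ≤
      Real.exp (n * U y) * Real.exp (-(3 * β * n)) := by
    refine (mul_le_mul_of_nonneg_left hPv (Real.exp_pos _).le).trans ?_
    rw [← Real.exp_add, ← Real.exp_add]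
    apply Real.exp_le_exp.mpr
    have h3 := P.ge_log hδ hv0 hv1.le h1
    rw [← hmu] at h3
    have h4 : (g y - η / 2) * mu ≤ g v * mu := mul_le_mul_of_nonneg_right hv hmu0.le
    have h5 : (n : ℝ) * (U v - U y + β + 3 * β + (g y - η) * mu) ≤ n * 0 := by
      apply mul_le_mul_of_nonneg_left _ hnn
      linarith
    linarith
  have hW : ((n + 1 : ℕ) : ℝ) * (Real.exp (n * U y) * Real.exp (-(β' * n))) ≤
      (n + 1) * (Real.exp (n * U y) * Real.exp (-(3 * β * n))) := by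
    push_cast
    apply mul_le_mul_of_nonneg_left _ (by positivity)
    apply mul_le_mul_of_nonneg_left _ (by positivity)
    apply Real.exp_le_exp.mpr
    have : (n : ℝ) * (3 * β) ≤ n * β' := mul_le_mul_of_nonneg_left (by linarith) hnn
    linarith
  have hfin : Real.exp (n * U y) * Real.exp (-(β * n)) ≤
      Real.exp (n * U y) * (((n : ℝ) + 3) * Real.exp (-(3 * β * n))) := by
    linarith
  have h6 := le_of_mul_le_mul_left hfin (Real.exp_pos _)
  have h7 : ((n : ℝ) + 3) * Real.exp (-(3 * β * n)) <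
      Real.exp (2 * β * n) * Real.exp (-(3 * β * n)) :=
    mul_lt_mul_of_pos_right hlarge (Real.exp_pos _)
  rw [← Real.exp_add] at h7
  have h8 : 2 * β * n + -(3 * β * n) = -(β * n) := by ring
  rw [h8] at h7
  linarith

/-- the statement of `mass_at` for one point -/
def HmAt (δ : ℝ) (U g : ℝ → ℝ) (y η β' a : ℝ) (n0 : ℕ) : Prop :=
  ∀ n ≥ n0, ∀ (l : ℝ) (f : Wd n → ℝ) (H : ℕ → ℝ), RadF f H →
    WCert l f → (1 - 2 * δ) * n ≤ l → ∑ x, f x ≤ pw n (Tensor.ell δ + a) →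
    ∃ j : ℕ, (j : ℝ) ≤ (g y + η) * n ∧ (g y - η) * n ≤ j ∧
      Real.exp (n * U y) * Real.exp (-(β' * n)) ≤ n.choose j * H j * y ^ j

theorem HmAt.mono {y η β' a a' : ℝ} {n0 n0' : ℕ} (h : HmAt δ U g y η β' a n0) (ha : a' ≤ a)
    (hn : n0 ≤ n0') : HmAt δ U g y η β' a' n0' := by
  intro n hn' l f H hr hf hl hm
  apply h n (hn.trans hn') l f H hr hf hl
  exact hm.trans (pw_mono n (add_le_add le_rfl ha))

theorem hm_family (P : Pot δ U g) (hδ : 0 < δ) {η β' : ℝ} (hη : 0 < η) (hβ : 0 < β') (y : ℕ → ℝ)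
    (hy : ∀ i, 0 < y i ∧ y i < 1) (N : ℕ) :
    ∃ a : ℝ, 0 < a ∧ ∃ n0 : ℕ, ∀ i < N, HmAt δ U g (y i) η β' a n0 := by
  induction N with
  | zero => exact ⟨1, one_pos, 0, fun i hi => absurd hi (Nat.not_lt_zero i)⟩
  | succ N ih =>
    obtain ⟨a, ha, n0, h⟩ := ih
    obtain ⟨a', ha', n0', h'⟩ := mass_at P hδ (y N) η β' (hy N).1 (hy N).2 hη hβ
    refine ⟨min a a', lt_min ha ha', max n0 n0', fun i hi => ?_⟩
    rcases Nat.lt_succ_iff_lt_or_eq.mp hi with h1 | h1
    · exact (h i h1).mono (min_le_left _ _) (le_max_left _ _)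
    · rw [h1]
      exact HmAt.mono h' (min_le_right _ _) (le_max_right _ _)

theorem hm_fin (P : Pot δ U g) (hδ : 0 < δ) {n : ℕ} {ε x2 y m : ℝ} {k j : ℕ} (h1 : x2 < 1) (hy0 : 0 < y)
    (hy1 : y < 1) (hk : g x2 * n ≤ k) (hky : g y * n ≤ k)
    (hjk : ((k : ℝ) - j) * (-Real.log y) ≤ 3 / 4 * ε * n)
    (hm : Real.exp (n * U y) * Real.exp (-(ε / 4 * n)) ≤ m * y ^ j) :
    ∃ x : ℝ, x2 ≤ x ∧ x < 1 ∧ Real.exp (n * U x) ≤ x ^ k * Real.exp (ε * n) * m := by
  refine ⟨max y x2, le_max_right _ _, max_lt hy1 h1, ?_⟩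
  set x : ℝ := max y x2 with hx
  have hyx : y ≤ x := le_max_left _ _
  have hx1 : x < 1 := max_lt hy1 h1
  have hx0 : 0 < x := lt_of_lt_of_le hy0 hyx
  have hkx : g x * n ≤ k := by
    rcases max_choice y x2 with h | h
    · rw [hx, h]; exact hky
    · rw [hx, h]; exact hk
  have hlog : 0 ≤ Real.log x - Real.log y := by
    have := Real.log_le_log hy0 hyx
    linarith
  have h2 := mul_le_mul_of_nonneg_left (P.le_log hδ hy0 hyx hx1) (Nat.cast_nonneg (α := ℝ) n)
  have h3 := mul_le_mul_of_nonneg_right hkx hlog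
  have hpow : ∀ (r : ℝ), 0 < r → ∀ j : ℕ, r ^ j = Real.exp (j * Real.log r) := by
    intro r hr j
    rw [Real.exp_nat_mul, Real.exp_log hr]
  rw [hpow y hy0] at hm
  have hm2 : Real.exp (n * U y - ε / 4 * n - j * Real.log y) ≤ m := by
    have h4 := mul_le_mul_of_nonneg_right hm (Real.exp_pos (-(j * Real.log y))).le
    rw [mul_assoc m, ← Real.exp_add, ← Real.exp_add, ← Real.exp_add, add_neg_cancel,
      Real.exp_zero, mul_one] at h4
    have e : n * U y - ε / 4 * n - j * Real.log y =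
        n * U y + -(ε / 4 * n) + -(j * Real.log y) := by ring
    rw [e]
    exact h4
  rw [hpow x hx0, ← Real.exp_add]
  refine le_trans ?_ (mul_le_mul_of_nonneg_left hm2 (Real.exp_pos _).le)
  rw [← Real.exp_add]
  apply Real.exp_le_exp.mpr
  linarith

theorem mass_gen (P : Pot δ U g) (hδ : 0 < δ) (hδ1 : δ < 1 / 2) (ε x2 : ℝ) (hε : 0 < ε) (h0 : 0 < x2) (h1 : x2 < 1) :
    ∃ a : ℝ, 0 < a ∧ ∃ n0 : ℕ, ∀ n ≥ n0, ∀ (l : ℝ) (f : Wd n → ℝ) (H : ℕ → ℝ), RadF f H →
    WCert l f → (1 - 2 * δ) * n ≤ l → ∑ x, f x ≤ pw n (Tensor.ell δ + a) →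
    ∀ k : ℕ, g x2 * n ≤ k → k ≤ n →
    ∃ x : ℝ, x2 ≤ x ∧ x < 1 ∧ ∃ j : ℕ, j ≤ k ∧ (∃ y : ℝ, 0 < y ∧ y < 1 ∧ (j : ℝ) ≤ (g y + ε) * n) ∧
      Real.exp (n * U x) ≤ x ^ k * Real.exp (ε * n) * (n.choose j * H j) := by
  obtain ⟨xs, hxs0, hxs1, hxs⟩ := P.g_small hδ (P.pos hδ hδ1 h0 h1)
  obtain ⟨xl, hxl⟩ : ∃ xl : ℝ, xl = min xs (x2 / 2) := ⟨_, rfl⟩
  have hxl0 : 0 < xl := by rw [hxl]; exact lt_min hxs0 (by linarith)
  have hxl2 : xl < x2 := by rw [hxl]; exact lt_of_le_of_lt (min_le_right _ _) (by linarith)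
  have hxl1 : xl < 1 := hxl2.trans h1
  set xt : ℝ := max x2 (Real.exp (-(ε / 2))) with hxt
  have hxt2 : x2 ≤ xt := le_max_left _ _
  have hxt0 : 0 < xt := lt_of_lt_of_le h0 hxt2
  have hxt1 : xt < 1 := max_lt h1 (by rw [Real.exp_lt_one_iff]; linarith)
  have hxtlog : -Real.log xt ≤ ε / 2 := by
    have h := Real.log_le_log (Real.exp_pos (-(ε / 2))) (le_max_right x2 (Real.exp (-(ε / 2))))
    rw [Real.log_exp] at h
    linarith
  have hgl0 : 0 ≤ g xl := P.nonneg hδ hxl0 hxl1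
  have hgg : g xl < g x2 := hxs xl hxl0 (by rw [hxl]; exact min_le_left _ _)
  set Lam : ℝ := -Real.log xl with hLam
  have hLam0 : 0 < Lam := by
    have := Real.log_neg hxl0 hxl1
    rw [hLam]
    linarith
  set η : ℝ := min (min ((g x2 - g xl) / 2) (ε / (6 * Lam))) ε with hη
  have hη0 : 0 < η := lt_min (lt_min (by linarith) (by positivity)) hε
  have hηε : η ≤ ε := min_le_right _ _
  have hη1 : 2 * η ≤ g x2 - g xl := by
    have : η ≤ (g x2 - g xl) / 2 := (min_le_left _ _).trans (min_le_left _ _)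
    linarith
  have hη2 : 3 * η * Lam ≤ ε / 2 := by
    have h : η ≤ ε / (6 * Lam) := (min_le_left _ _).trans (min_le_right _ _)
    rw [le_div_iff₀ (by positivity)] at h
    linarith
  have hivt : ∀ i : ℕ, ∃ y : ℝ, (xl ≤ y ∧ y ≤ xt) ∧
      (g xl ≤ i * η → i * η ≤ g xt → g y = i * η) := by
    intro i
    by_cases c : g xl ≤ i * η ∧ i * η ≤ g xt
    · have hcont : ContinuousOn g (Set.Icc xl xt) := fun z hz =>
        (P.cont _ (lt_of_lt_of_le hxl0 hz.1) (lt_of_le_of_lt hz.2 hxt1)).continuousWithinAt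
      obtain ⟨y, hy, hy'⟩ := intermediate_value_Icc (hxl2.le.trans hxt2) hcont ⟨c.1, c.2⟩
      exact ⟨y, ⟨hy.1, hy.2⟩, fun _ _ => hy'⟩
    · exact ⟨xl, ⟨le_rfl, hxl2.le.trans hxt2⟩, fun a b => absurd ⟨a, b⟩ c⟩
  choose y hy hyg using hivt
  have hε4 : 0 < ε / 4 := by linarith
  obtain ⟨a1, ha1, n1, hfam⟩ := hm_family P hδ hη0 hε4 y
    (fun i => ⟨lt_of_lt_of_le hxl0 (hy i).1, lt_of_le_of_lt (hy i).2 hxt1⟩) ⌈1 / η⌉₊
  obtain ⟨a2, ha2, n2, htop⟩ := mass_at P hδ xt η (ε / 4) hxt0 hxt1 hη0 hε4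
  refine ⟨min a1 a2, lt_min ha1 ha2, max 1 (max n1 n2), ?_⟩
  intro n hn l f H hr hf hl hmass k hk1 hk2
  have hn1 : 1 ≤ n := (le_max_left _ _).trans hn
  have hnn1 : n1 ≤ n := ((le_max_left _ _).trans (le_max_right _ _)).trans hn
  have hnn2 : n2 ≤ n := ((le_max_right _ _).trans (le_max_right _ _)).trans hn
  have hn0 : (0 : ℝ) < n := by exact_mod_cast hn1
  have hk2' : (k : ℝ) ≤ n := by exact_mod_cast hk2
  have hηn : 0 < η * n := by positivity
  obtain ⟨i, hi1, hi2⟩ : ∃ i : ℕ, ((i : ℝ) + 1) * (η * n) ≤ k ∧ (k : ℝ) < (i + 2) * (η * n) := by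
    have hq1 := Nat.floor_le (a := (k : ℝ) / (η * n)) (by positivity)
    have hq2 := Nat.lt_floor_add_one ((k : ℝ) / (η * n))
    have hq3 : 1 ≤ ⌊(k : ℝ) / (η * n)⌋₊ := by
      rw [Nat.one_le_floor_iff, le_div_iff₀ hηn]
      have : 2 * η * n ≤ g x2 * n := mul_le_mul_of_nonneg_right (by linarith) hn0.le
      linarith
    obtain ⟨i, hi⟩ := Nat.exists_eq_add_of_le' hq3
    refine ⟨i, ?_, ?_⟩
    · rw [le_div_iff₀ hηn, hi] at hq1
      push_cast at hq1
      exact hq1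
    · rw [div_lt_iff₀ hηn, hi] at hq2
      push_cast at hq2
      linarith
  have hkj : ∀ j : ℕ, (j : ℝ) ≤ k → j ≤ k := fun j hj => by exact_mod_cast hj
  by_cases c : (i : ℝ) * η ≤ g xt
  · have hc2 : g xl ≤ i * η := by
      have h2 : g x2 * n < (i + 2) * η * n := by linarith
      have h3 := lt_of_mul_lt_mul_right h2 hn0.le
      linarith
    have hgy := hyg i hc2 c
    have hiN : i < ⌈1 / η⌉₊ := by
      rw [Nat.lt_ceil, lt_div_iff₀ hη0]
      have h2 : ((i : ℝ) + 1) * η * n ≤ 1 * n := by linarith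
      have h3 := le_of_mul_le_mul_right h2 hn0
      linarith
    obtain ⟨j, hj1, hj2, hj3⟩ := (hfam i hiN).mono (min_le_left a1 a2) le_rfl n hnn1 l f H hr hf
      hl hmass
    have hjy : (j : ℝ) ≤ (g (y i) + ε) * n := hj1.trans (by
      apply mul_le_mul_of_nonneg_right _ hn0.le
      linarith)
    rw [hgy] at hj1 hj2
    have hjk : (j : ℝ) ≤ k := by linarith
    have hy0 : 0 < y i := lt_of_lt_of_le hxl0 (hy i).1
    have hy1 : y i < 1 := lt_of_le_of_lt (hy i).2 hxt1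
    have hlogy : -Real.log (y i) ≤ Lam := by
      have := Real.log_le_log hxl0 (hy i).1
      rw [hLam]
      linarith
    have hlogy0 : 0 ≤ -Real.log (y i) := by
      have := Real.log_nonpos hy0.le hy1.le
      linarith
    obtain ⟨x, hx1, hx2, hx3⟩ := hm_fin P hδ (m := n.choose j * H j) (ε := ε) h1 hy0 hy1 hk1
      (by rw [hgy]; linarith) (by
        have h2 : (k : ℝ) - j ≤ 3 * η * n := by linarith
        calc ((k : ℝ) - j) * (-Real.log (y i)) ≤ (3 * η * n) * Lam :=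
              mul_le_mul h2 hlogy hlogy0 (by positivity)
          _ = 3 * η * Lam * n := by ring
          _ ≤ ε / 2 * n := mul_le_mul_of_nonneg_right hη2 hn0.le
          _ ≤ 3 / 4 * ε * n := by
              have : 0 < ε * n := by positivity
              linarith) hj3
    exact ⟨x, hx1, hx2, j, hkj j hjk, ⟨y i, hy0, hy1, hjy⟩, hx3⟩
  · push Not at c
    obtain ⟨j, hj1, hj2, hj3⟩ := HmAt.mono htop (min_le_right a1 a2) le_rfl n hnn2 l f H hr hf
      hl hmass
    have h2 : g xt * n < i * η * n := mul_lt_mul_of_pos_right c hn0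
    have hjk : (j : ℝ) ≤ k := by linarith
    have hlogy0 : 0 ≤ -Real.log xt := by
      have := Real.log_nonpos hxt0.le hxt1.le
      linarith
    obtain ⟨x, hx1, hx2, hx3⟩ := hm_fin P hδ (m := n.choose j * H j) (ε := ε) h1 hxt0 hxt1 hk1
      (by linarith) (by
        have h2 : (k : ℝ) - j ≤ n := by
          have : (0 : ℝ) ≤ j := Nat.cast_nonneg j
          linarith
        calc ((k : ℝ) - j) * (-Real.log xt) ≤ n * (ε / 2) :=
              mul_le_mul h2 hxtlog hlogy0 (by positivity)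
          _ ≤ 3 / 4 * ε * n := by
              have : 0 < ε * n := by positivity
              linarith) hj3
    exact ⟨x, hx1, hx2, j, hkj j hjk, ⟨xt, hxt0, hxt1, hj1.trans (by
      apply mul_le_mul_of_nonneg_right _ hn0.le
      linarith)⟩, hx3⟩

end Pool.Agent.Lib.MP_0430e4_lc.AC
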