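import Pool.Agent.Lib.MP_0430e4_lc.AC.YT4
import Pool.Agent.Lib.MP_0430e4_lc.AC.YT5

/-!
Project ALLCODES, high weights (helper30), part 2: masses of nonnegative sequences with a given
logarithmic generating function (`Pot` and `mass_gen` of helper13 for an abstract family of
sequences).
-/

set_option autoImplicit false

open Finset Filter Topology

namespace Pool.Agent.Lib.MP_0430e4_lc.AC

open BY

/-- generating polynomial -/
noncomputable def gnp (n : ℕ) (p : ℕ → ℝ) (x : ℝ) : ℝ := ∑ j ∈ range (n + 1), p j * x ^ j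

/-- A family `Q a n` of nonnegative sequences of length `n`, with logarithmic generating function
`U` up to an error which vanishes with `a`. -/
structure SPot (Q : ℝ → ℕ → (ℕ → ℝ) → Prop) (U g : ℝ → ℝ) : Prop where
  mono : ∀ a a' n p, a ≤ a' → Q a n p → Q a' n p
  nn : ∀ a n p, Q a n p → ∀ j ≤ n, 0 ≤ p j
  ex : ∀ a, 0 < a → ∀ N : ℕ, ∃ n ≥ N, ∃ p, Q a n p
  deriv : ∀ x, 0 < x → x < 1 → HasDerivAt U (g x / x) x
  cont : ∀ x, 0 < x → x < 1 → ContinuousAt g x
  lb : ∀ x β, 0 < x → x < 1 → 0 < β → ∃ a : ℝ, 0 < a ∧ ∃ n0 : ℕ, ∀ n ≥ n0, ∀ p, Q a n p →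
    Real.exp (n * (U x - β)) ≤ gnp n p x
  ub : ∀ x β, 0 < x → x < 1 → 0 < β → ∃ a : ℝ, 0 < a ∧ ∃ n0 : ℕ, ∀ n ≥ n0, ∀ p, Q a n p →
    gnp n p x ≤ Real.exp (n * (U x + β))

theorem gnp_pair {n : ℕ} {p : ℕ → ℝ} (hp : ∀ j ≤ n, 0 ≤ p j) {a b q : ℝ} (ha : 0 < a)
    (hab : a ≤ b) (hq : 1 ≤ q) : gnp n p (q * a) * gnp n p b ≤ gnp n p a * gnp n p (q * b) := by
  have h2 : ∀ u v : ℝ, 2 * (gnp n p u * gnp n p v) =
      ∑ i ∈ range (n + 1), ∑ j ∈ range (n + 1), p i * p j * (u ^ i * v ^ j + u ^ j * v ^ i) := by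
    intro u v
    have h1 : gnp n p u * gnp n p v = ∑ i ∈ range (n + 1), ∑ j ∈ range (n + 1),
        p i * p j * (u ^ i * v ^ j) := by
      unfold gnp
      rw [Finset.sum_mul_sum]
      apply Finset.sum_congr rfl; intro i _
      apply Finset.sum_congr rfl; intro j _
      ring
    have h3 : gnp n p u * gnp n p v = ∑ i ∈ range (n + 1), ∑ j ∈ range (n + 1),
        p i * p j * (u ^ j * v ^ i) := by
      rw [h1, Finset.sum_comm]
      apply Finset.sum_congr rfl; intro i _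
      apply Finset.sum_congr rfl; intro j _
      ring
    rw [two_mul]
    nth_rewrite 1 [h1]
    rw [h3, ← Finset.sum_add_distrib]
    apply Finset.sum_congr rfl; intro i _
    rw [← Finset.sum_add_distrib]
    apply Finset.sum_congr rfl; intro j _
    ring
  have h3 : 2 * (gnp n p (q * a) * gnp n p b) ≤ 2 * (gnp n p a * gnp n p (q * b)) := by
    rw [h2, h2]
    apply Finset.sum_le_sum; intro i hi
    apply Finset.sum_le_sum; intro j hj
    exact mul_le_mul_of_nonneg_left (pair_term ha hab hq _ _)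
      (mul_nonneg (hp i (Nat.lt_succ_iff.mp (mem_range.mp hi)))
        (hp j (Nat.lt_succ_iff.mp (mem_range.mp hj))))
  linarith

theorem gnp_nonneg {n : ℕ} {p : ℕ → ℝ} (hp : ∀ j ≤ n, 0 ≤ p j) {r : ℝ} (hr : 0 ≤ r) :
    0 ≤ gnp n p r :=
  Finset.sum_nonneg fun j hj => mul_nonneg (hp j (Nat.lt_succ_iff.mp (mem_range.mp hj)))
    (pow_nonneg hr _)

namespace SPot

variable {Q : ℝ → ℕ → (ℕ → ℝ) → Prop} {U g : ℝ → ℝ} (P : SPot Q U g)
include P

theorem four {β : ℝ} (hβ : 0 < β) {x1 x2 x3 x4 : ℝ} (a1 : 0 < x1) (b1 : x1 < 1) (a2 : 0 < x2)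
    (b2 : x2 < 1) (a3 : 0 < x3) (b3 : x3 < 1) (a4 : 0 < x4) (b4 : x4 < 1) :
    ∃ (n : ℕ) (p : ℕ → ℝ), 1 ≤ n ∧ (∀ j ≤ n, 0 ≤ p j) ∧
      Real.exp (n * (U x1 - β)) ≤ gnp n p x1 ∧ Real.exp (n * (U x2 - β)) ≤ gnp n p x2 ∧
      gnp n p x3 ≤ Real.exp (n * (U x3 + β)) ∧ gnp n p x4 ≤ Real.exp (n * (U x4 + β)) := by
  obtain ⟨e1, he1, n1, H1⟩ := P.lb x1 β a1 b1 hβ
  obtain ⟨e2, he2, n2, H2⟩ := P.lb x2 β a2 b2 hβ
  obtain ⟨e3, he3, n3, H3⟩ := P.ub x3 β a3 b3 hβ
  obtain ⟨e4, he4, n4, H4⟩ := P.ub x4 β a4 b4 hβ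
  obtain ⟨n, hn, p, hp⟩ := P.ex (min (min e1 e2) (min e3 e4))
    (lt_min (lt_min he1 he2) (lt_min he3 he4)) (n1 + n2 + n3 + n4 + 1)
  have m1 : min (min e1 e2) (min e3 e4) ≤ e1 := (min_le_left _ _).trans (min_le_left _ _)
  have m2 : min (min e1 e2) (min e3 e4) ≤ e2 := (min_le_left _ _).trans (min_le_right _ _)
  have m3 : min (min e1 e2) (min e3 e4) ≤ e3 := (min_le_right _ _).trans (min_le_left _ _)
  have m4 : min (min e1 e2) (min e3 e4) ≤ e4 := (min_le_right _ _).trans (min_le_right _ _)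
  exact ⟨n, p, by omega, P.nn _ n p hp, H1 n (by omega) p (P.mono _ _ _ _ m1 hp),
    H2 n (by omega) p (P.mono _ _ _ _ m2 hp), H3 n (by omega) p (P.mono _ _ _ _ m3 hp),
    H4 n (by omega) p (P.mono _ _ _ _ m4 hp)⟩

theorem cross {a b q : ℝ} (ha : 0 < a) (hab : a ≤ b) (hq : 1 ≤ q) (hb : q * b < 1) :
    U (q * a) + U b ≤ U a + U (q * b) := by
  by_contra hcon
  push Not at hcon
  have hb0 : 0 < b := ha.trans_le hab
  have hb1 : b < 1 := by nlinarith
  have hqa : q * a < 1 := by nlinarith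
  obtain ⟨β, hβ⟩ : ∃ β : ℝ, β = (U (q * a) + U b - (U a + U (q * b))) / 8 := ⟨_, rfl⟩
  have hβ0 : 0 < β := by rw [hβ]; linarith
  obtain ⟨n, f, hn, hf, e1, e2, e3, e4⟩ := P.four hβ0 (x1 := q * a) (x2 := b) (x3 := a)
    (x4 := q * b) (by positivity) hqa hb0 hb1 ha (by linarith) (by positivity) hb
  have hp := gnp_pair hf ha hab hq
  have hn0 : (0 : ℝ) < n := by exact_mod_cast hn
  have h1 : Real.exp (n * (U (q * a) - β)) * Real.exp (n * (U b - β)) ≤
      Real.exp (n * (U a + β)) * Real.exp (n * (U (q * b) + β)) := by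
    calc _ ≤ gnp n f (q * a) * gnp n f b :=
          mul_le_mul e1 e2 (Real.exp_pos _).le (gnp_nonneg hf (by positivity))
      _ ≤ gnp n f a * gnp n f (q * b) := hp
      _ ≤ _ := mul_le_mul e3 e4 (gnp_nonneg hf (by positivity)) (Real.exp_pos _).le
  rw [← Real.exp_add, ← Real.exp_add, Real.exp_le_exp] at h1
  have h2 : (n : ℝ) * (U (q * a) - β + (U b - β)) ≤ n * (U a + β + (U (q * b) + β)) := by linarith
  have h3 := le_of_mul_le_mul_left h2 hn0
  linarith

/-- `U` is convex in `log x` -/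
theorem gmono {a b : ℝ} (ha : 0 < a) (hab : a ≤ b) (hb : b < 1) : g a ≤ g b := by
  have hb0 : 0 < b := ha.trans_le hab
  by_contra hcon
  push Not at hcon
  have hd : HasDerivAt (fun s : ℝ => U a + U ((1 + s) * b) - (U ((1 + s) * a) + U b))
      (g b - g a) 0 := by
    have k : ∀ x : ℝ, 0 < x → x < 1 → HasDerivAt (fun s : ℝ => U ((1 + s) * x)) (g x) 0 := by
      intro x hx0 hx1
      have h1 : HasDerivAt (fun s : ℝ => (1 + s) * x) x 0 := by
        have := ((hasDerivAt_id (0 : ℝ)).const_add 1).mul_const x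
        simpa using this
      have h2 : HasDerivAt U (g x / x) ((1 + 0) * x) := by
        rw [add_zero, one_mul]; exact P.deriv x hx0 hx1
      refine (h2.comp 0 h1).congr_deriv ?_
      field_simp
    have h3 := ((k b hb0 hb).const_add (U a)).sub ((k a ha (hab.trans_lt hb)).add_const (U b))
    exact h3
  obtain ⟨e, he, hle⟩ := near_le (θ := (g a - g b) / 2) (by linarith) (by simp) hd
  set s : ℝ := min (e / 2) ((1 / b - 1) / 2) with hs
  have hb1 : 0 < 1 / b - 1 := by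
    rw [sub_pos, lt_div_iff₀ hb0]; linarith
  have hs0 : 0 < s := lt_min (by linarith) (by linarith)
  have hs1 : s < e := lt_of_le_of_lt (min_le_left _ _) (by linarith)
  have hs2 : (1 + s) * b < 1 := by
    have h1 : s < 1 / b - 1 := lt_of_le_of_lt (min_le_right _ _) (by linarith)
    have h2 : 1 + s < 1 / b := by linarith
    calc (1 + s) * b < 1 / b * b := mul_lt_mul_of_pos_right h2 hb0
      _ = 1 := by field_simp
  have h1 := hle s hs0 hs1
  have h2 := P.cross ha hab (q := 1 + s) (by linarith) hs2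
  have h3 : (g b - g a + (g a - g b) / 2) * s < 0 := by
    have : g b - g a + (g a - g b) / 2 < 0 := by linarith
    exact mul_neg_of_neg_of_pos this hs0
  linarith

theorem le_log {y y' : ℝ} (hy : 0 < y) (h : y ≤ y') (h1 : y' < 1) :
    U y' - U y ≤ g y' * (Real.log y' - Real.log y) := by
  have hd : ∀ x ∈ Set.Icc y y',
      HasDerivAt (fun x => U x - g y' * Real.log x) (g x / x - g y' * x⁻¹) x := by
    intro x hx
    have hx0 : 0 < x := lt_of_lt_of_le hy hx.1
    exact (P.deriv x hx0 (lt_of_le_of_lt hx.2 h1)).sub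
      ((Real.hasDerivAt_log hx0.ne').const_mul _)
  have hanti : AntitoneOn (fun x => U x - g y' * Real.log x) (Set.Icc y y') := by
    apply antitoneOn_of_deriv_nonpos (convex_Icc _ _)
    · exact fun x hx => (hd x hx).continuousAt.continuousWithinAt
    · exact fun x hx => (hd x (interior_subset hx)).differentiableAt.differentiableWithinAt
    · intro x hx
      have hx' := interior_subset hx
      rw [(hd x hx').deriv]
      have hx0 : 0 < x := lt_of_lt_of_le hy hx'.1
      have h2 := P.gmono hx0 hx'.2 h1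
      rw [div_eq_mul_inv, ← sub_mul]
      exact mul_nonpos_of_nonpos_of_nonneg (by linarith) (inv_pos.mpr hx0).le
  have h3 := hanti (Set.left_mem_Icc.mpr h) (Set.right_mem_Icc.mpr h) h
  simp only at h3
  linarith

theorem ge_log {y y' : ℝ} (hy : 0 < y) (h : y ≤ y') (h1 : y' < 1) :
    g y * (Real.log y' - Real.log y) ≤ U y' - U y := by
  have hd : ∀ x ∈ Set.Icc y y',
      HasDerivAt (fun x => U x - g y * Real.log x) (g x / x - g y * x⁻¹) x := by
    intro x hx
    have hx0 : 0 < x := lt_of_lt_of_le hy hx.1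
    exact (P.deriv x hx0 (lt_of_le_of_lt hx.2 h1)).sub
      ((Real.hasDerivAt_log hx0.ne').const_mul _)
  have hmono : MonotoneOn (fun x => U x - g y * Real.log x) (Set.Icc y y') := by
    apply monotoneOn_of_deriv_nonneg (convex_Icc _ _)
    · exact fun x hx => (hd x hx).continuousAt.continuousWithinAt
    · exact fun x hx => (hd x (interior_subset hx)).differentiableAt.differentiableWithinAt
    · intro x hx
      have hx' := interior_subset hx
      rw [(hd x hx').deriv]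
      have hx0 : 0 < x := lt_of_lt_of_le hy hx'.1
      have h2 := P.gmono hy hx'.1 (lt_of_le_of_lt hx'.2 h1)
      rw [div_eq_mul_inv, ← sub_mul]
      exact mul_nonneg (by linarith) (inv_pos.mpr hx0).le
  have h3 := hmono (Set.left_mem_Icc.mpr h) (Set.right_mem_Icc.mpr h) h
  simp only at h3
  linarith

theorem near {y η : ℝ} (h0 : 0 < y) (h1 : y < 1) (hη : 0 < η) :
    (∃ u, y < u ∧ u < 1 ∧ g u ≤ g y + η) ∧ ∃ v, 0 < v ∧ v < y ∧ g y - η ≤ g v := by
  obtain ⟨d, hd, hc⟩ := Metric.continuousAt_iff.mp (P.cont y h0 h1) η hη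
  constructor
  · have hm : 0 < min (d / 2) ((1 - y) / 2) := lt_min (by linarith) (by linarith)
    have hm1 := min_le_left (d / 2) ((1 - y) / 2)
    have hm2 := min_le_right (d / 2) ((1 - y) / 2)
    refine ⟨y + min (d / 2) ((1 - y) / 2), by linarith, by linarith, ?_⟩
    have h := hc (x := y + min (d / 2) ((1 - y) / 2)) (by
      rw [Real.dist_eq, add_sub_cancel_left, abs_of_pos hm]
      linarith)
    rw [Real.dist_eq] at h
    have := (abs_lt.mp h).2
    linarith
  · have hm : 0 < min (d / 2) (y / 2) := lt_min (by linarith) (by linarith)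
    have hm1 := min_le_left (d / 2) (y / 2)
    have hm2 := min_le_right (d / 2) (y / 2)
    refine ⟨y - min (d / 2) (y / 2), by linarith, by linarith, ?_⟩
    have h := hc (x := y - min (d / 2) (y / 2)) (by
      rw [Real.dist_eq, abs_sub_comm, abs_of_pos (by linarith)]
      linarith)
    rw [Real.dist_eq] at h
    have := (abs_lt.mp h).1
    linarith

theorem mass_at (y η β' : ℝ) (h0 : 0 < y) (h1 : y < 1) (hη : 0 < η) (hβ : 0 < β') :
    ∃ a : ℝ, 0 < a ∧ ∃ n0 : ℕ, ∀ n ≥ n0, ∀ p, Q a n p →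
    ∃ j : ℕ, j ≤ n ∧ (j : ℝ) ≤ (g y + η) * n ∧ (g y - η) * n ≤ j ∧
      Real.exp (n * U y) * Real.exp (-(β' * n)) ≤ p j * y ^ j := by
  obtain ⟨⟨u, hu0, hu1, hu⟩, v, hv0, hv1, hv⟩ := P.near h0 h1 (half_pos hη)
  set lam : ℝ := Real.log u - Real.log y with hlam
  set mu : ℝ := Real.log y - Real.log v with hmu
  have hlam0 : 0 < lam := by
    rw [hlam]
    have := Real.log_lt_log h0 hu0
    linarith
  have hmu0 : 0 < mu := by
    rw [hmu]
    have := Real.log_lt_log hv0 hv1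
    linarith
  set β : ℝ := min β' (min (η / 2 * lam) (η / 2 * mu)) / 4 with hβdef
  have hβ0 : 0 < β := by
    rw [hβdef]
    have : 0 < min β' (min (η / 2 * lam) (η / 2 * mu)) :=
      lt_min hβ (lt_min (by positivity) (by positivity))
    linarith
  have hb1 : 4 * β ≤ β' := by
    rw [hβdef]
    have := min_le_left β' (min (η / 2 * lam) (η / 2 * mu))
    linarith
  have hb2 : 4 * β ≤ η / 2 * lam := by
    rw [hβdef]
    have := min_le_right β' (min (η / 2 * lam) (η / 2 * mu))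
    have := min_le_left (η / 2 * lam) (η / 2 * mu)
    linarith
  have hb3 : 4 * β ≤ η / 2 * mu := by
    rw [hβdef]
    have := min_le_right β' (min (η / 2 * lam) (η / 2 * mu))
    have := min_le_right (η / 2 * lam) (η / 2 * mu)
    linarith
  obtain ⟨a1, ha1, n1, hlb⟩ := P.lb y β h0 h1 hβ0
  obtain ⟨a2, ha2, n2, hub⟩ := P.ub u β (h0.trans hu0) hu1 hβ0
  obtain ⟨a3, ha3, n3, hvb⟩ := P.ub v β hv0 (hv1.trans h1) hβ0
  refine ⟨min a1 (min a2 a3), lt_min ha1 (lt_min ha2 ha3),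
    max (n1 + n2 + n3) (max 3 (⌈1 / β ^ 2⌉₊ + 1)), ?_⟩
  intro n hn p hq
  have hn1 : n1 + n2 + n3 ≤ n := (le_max_left _ _).trans hn
  have hn2 : 3 ≤ n := ((le_max_left _ _).trans (le_max_right _ _)).trans hn
  have hn3 : ⌈1 / β ^ 2⌉₊ + 1 ≤ n := ((le_max_right _ _).trans (le_max_right _ _)).trans hn
  have hn4 : 1 / β ^ 2 < n := by
    have h := Nat.le_ceil (1 / β ^ 2)
    have h' : ((⌈1 / β ^ 2⌉₊ + 1 : ℕ) : ℝ) ≤ n := by exact_mod_cast hn3
    push_cast at h'
    linarith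
  have hlarge := hm_large hβ0 hn2 hn4
  have hnn : (0 : ℝ) ≤ n := Nat.cast_nonneg n
  have hq1 := P.mono _ a1 _ _ (min_le_left _ _) hq
  have hq2 := P.mono _ a2 _ _ ((min_le_right _ _).trans (min_le_left _ _)) hq
  have hq3 := P.mono _ a3 _ _ ((min_le_right _ _).trans (min_le_right _ _)) hq
  have hlow : Real.exp (n * U y) * Real.exp (-(β * n)) ≤ gnp n p y := by
    have h := hlb n (by omega) p hq1
    rw [← Real.exp_add]
    refine le_trans (le_of_eq ?_) h
    congr 1; ring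
  by_contra hcon
  push Not at hcon
  have hPu := hub n (by omega) p hq2
  have hPv := hvb n (by omega) p hq3
  have hmj : ∀ j, j ≤ n → 0 ≤ p j := P.nn _ n p hq
  have hyu : Real.log y = Real.log u - lam := by rw [hlam]; ring
  have hyv : Real.log y = Real.log v + mu := by rw [hmu]; ring
  have hpow : ∀ (r : ℝ), 0 < r → ∀ j : ℕ, r ^ j = Real.exp (j * Real.log r) := by
    intro r hr j
    rw [Real.exp_nat_mul, Real.exp_log hr]
  have hterm : ∀ j ∈ range (n + 1), p j * y ^ j ≤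
      Real.exp (n * U y) * Real.exp (-(β' * n)) +
      Real.exp (-((g y + η) * n * lam)) * (p j * u ^ j) +
      Real.exp ((g y - η) * n * mu) * (p j * v ^ j) := by
    intro j hj
    have hj' : j ≤ n := Nat.lt_succ_iff.mp (mem_range.mp hj)
    have hm0 := hmj j hj'
    have hu' : 0 ≤ p j * u ^ j := mul_nonneg hm0 (pow_nonneg (h0.trans hu0).le _)
    have hv' : 0 ≤ p j * v ^ j := mul_nonneg hm0 (pow_nonneg hv0.le _)
    have e1 : 0 ≤ Real.exp (n * U y) * Real.exp (-(β' * n)) := by positivity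
    have e2 : 0 ≤ Real.exp (-((g y + η) * n * lam)) * (p j * u ^ j) :=
      mul_nonneg (Real.exp_pos _).le hu'
    have e3 : 0 ≤ Real.exp ((g y - η) * n * mu) * (p j * v ^ j) :=
      mul_nonneg (Real.exp_pos _).le hv'
    by_cases c1 : (j : ℝ) ≤ (g y + η) * n
    · by_cases c2 : (g y - η) * n ≤ j
      · have h3 := (hcon j hj' c1 c2).le
        linarith
      · push Not at c2
        have h3 : y ^ j ≤ Real.exp ((g y - η) * n * mu) * v ^ j := by
          rw [hpow y h0, hpow v hv0, ← Real.exp_add]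
          apply Real.exp_le_exp.mpr
          rw [hyv]
          have := mul_le_mul_of_nonneg_right c2.le hmu0.le
          linarith
        have h4 := mul_le_mul_of_nonneg_left h3 hm0
        have h5 : p j * (Real.exp ((g y - η) * n * mu) * v ^ j) =
          Real.exp ((g y - η) * n * mu) * (p j * v ^ j) := by ring
        linarith
    · push Not at c1
      have h3 : y ^ j ≤ Real.exp (-((g y + η) * n * lam)) * u ^ j := by
        rw [hpow y h0, hpow u (h0.trans hu0), ← Real.exp_add]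
        apply Real.exp_le_exp.mpr
        rw [hyu]
        have := mul_le_mul_of_nonneg_right c1.le hlam0.le
        linarith
      have h4 := mul_le_mul_of_nonneg_left h3 hm0
      have h5 : p j * (Real.exp (-((g y + η) * n * lam)) * u ^ j) =
        Real.exp (-((g y + η) * n * lam)) * (p j * u ^ j) := by ring
      linarith
  have hsum := sum_le_sum hterm
  rw [sum_add_distrib, sum_add_distrib, sum_const, card_range, nsmul_eq_mul,
    ← mul_sum, ← mul_sum] at hsum
  have hsum' : gnp n p y ≤ ((n + 1 : ℕ) : ℝ) * (Real.exp (n * U y) * Real.exp (-(β' * n))) +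
      Real.exp (-((g y + η) * n * lam)) * gnp n p u +
      Real.exp ((g y - η) * n * mu) * gnp n p v := hsum
  have hU : Real.exp (-((g y + η) * n * lam)) * gnp n p u ≤
      Real.exp (n * U y) * Real.exp (-(3 * β * n)) := by
    refine (mul_le_mul_of_nonneg_left hPu (Real.exp_pos _).le).trans ?_
    rw [← Real.exp_add, ← Real.exp_add]
    apply Real.exp_le_exp.mpr
    have h3 := P.le_log h0 hu0.le hu1
    rw [← hlam] at h3
    have h4 : g u * lam ≤ (g y + η / 2) * lam := mul_le_mul_of_nonneg_right hu hlam0.le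
    have h5 : (n : ℝ) * (U u - U y + β + 3 * β - (g y + η) * lam) ≤ n * 0 := by
      apply mul_le_mul_of_nonneg_left _ hnn
      linarith
    linarith
  have hV : Real.exp ((g y - η) * n * mu) * gnp n p v ≤
      Real.exp (n * U y) * Real.exp (-(3 * β * n)) := by
    refine (mul_le_mul_of_nonneg_left hPv (Real.exp_pos _).le).trans ?_
    rw [← Real.exp_add, ← Real.exp_add]
    apply Real.exp_le_exp.mpr
    have h3 := P.ge_log hv0 hv1.le h1
    rw [← hmu] at h3
    have h4 : (g y - η / 2) * mu ≤ g v * mu := mul_le_mul_of_nonneg_right hv hmu0.le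
    have h5 : (n : ℝ) * (U v - U y + β + 3 * β + (g y - η) * mu) ≤ n * 0 := by
      apply mul_le_mul_of_nonneg_left _ hnn
      linarith
    linarith
  have hW : ((n + 1 : ℕ) : ℝ) * (Real.exp (n * U y) * Real.exp (-(β' * n))) ≤
      (n + 1) * (Real.exp (n * U y) * Real.exp (-(3 * β * n))) := by
    push_cast
    apply mul_le_mul_of_nonneg_left _ (by positivity)
    apply mul_le_mul_of_nonneg_left _ (by positivity)
    apply Real.exp_le_exp.mpr
    have : (n : ℝ) * (3 * β) ≤ n * β' := mul_le_mul_of_nonneg_left (by linarith) hnn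
    linarith
  have hfin : Real.exp (n * U y) * Real.exp (-(β * n)) ≤
      Real.exp (n * U y) * (((n : ℝ) + 3) * Real.exp (-(3 * β * n))) := by
    linarith
  have h6 := le_of_mul_le_mul_left hfin (Real.exp_pos _)
  have h7 : ((n : ℝ) + 3) * Real.exp (-(3 * β * n)) <
      Real.exp (2 * β * n) * Real.exp (-(3 * β * n)) :=
    mul_lt_mul_of_pos_right hlarge (Real.exp_pos _)
  rw [← Real.exp_add] at h7
  have h8 : 2 * β * n + -(3 * β * n) = -(β * n) := by ring
  rw [h8] at h7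
  linarith

theorem family {η β' : ℝ} (hη : 0 < η) (hβ : 0 < β') (y : ℕ → ℝ)
    (hy : ∀ i, 0 < y i ∧ y i < 1) (N : ℕ) :
    ∃ a : ℝ, 0 < a ∧ ∃ n0 : ℕ, ∀ i < N, ∀ n ≥ n0, ∀ p, Q a n p →
    ∃ j : ℕ, j ≤ n ∧ (j : ℝ) ≤ (g (y i) + η) * n ∧ (g (y i) - η) * n ≤ j ∧
      Real.exp (n * U (y i)) * Real.exp (-(β' * n)) ≤ p j * (y i) ^ j := by
  induction N with
  | zero => exact ⟨1, one_pos, 0, fun i hi => absurd hi (Nat.not_lt_zero i)⟩
  | succ N ih =>
    obtain ⟨a, ha, n0, h⟩ := ih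
    obtain ⟨a', ha', n0', h'⟩ := P.mass_at (y N) η β' (hy N).1 (hy N).2 hη hβ
    refine ⟨min a a', lt_min ha ha', max n0 n0', fun i hi n hn p hp => ?_⟩
    rcases Nat.lt_succ_iff_lt_or_eq.mp hi with h1 | h1
    · exact h i h1 n ((le_max_left _ _).trans hn) p (P.mono _ _ _ _ (min_le_left _ _) hp)
    · rw [h1]
      exact h' n ((le_max_right _ _).trans hn) p (P.mono _ _ _ _ (min_le_right _ _) hp)

theorem fin {n : ℕ} {ε x2 y m : ℝ} {k j : ℕ} (h0 : 0 < x2) (h1 : x2 < 1) (hy2 : x2 ≤ y)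
    (hy1 : y < 1)
    (hjk : ((k : ℝ) - j) * (-Real.log y) ≤ 3 / 4 * ε * n)
    (hm : Real.exp (n * U y) * Real.exp (-(ε / 4 * n)) ≤ m * y ^ j) :
    Real.exp (n * U y) ≤ y ^ k * Real.exp (ε * n) * m := by
  have hy0 : 0 < y := lt_of_lt_of_le h0 hy2
  have hpow : ∀ (r : ℝ), 0 < r → ∀ j : ℕ, r ^ j = Real.exp (j * Real.log r) := by
    intro r hr j
    rw [Real.exp_nat_mul, Real.exp_log hr]
  rw [hpow y hy0] at hm
  have hm2 : Real.exp (n * U y - ε / 4 * n - j * Real.log y) ≤ m := by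
    have h4 := mul_le_mul_of_nonneg_right hm (Real.exp_pos (-(j * Real.log y))).le
    rw [mul_assoc m, ← Real.exp_add, ← Real.exp_add, ← Real.exp_add, add_neg_cancel,
      Real.exp_zero, mul_one] at h4
    have e : n * U y - ε / 4 * n - j * Real.log y =
        n * U y + -(ε / 4 * n) + -(j * Real.log y) := by ring
    rw [e]
    exact h4
  rw [hpow y hy0, ← Real.exp_add]
  refine le_trans ?_ (mul_le_mul_of_nonneg_left hm2 (Real.exp_pos _).le)
  rw [← Real.exp_add]
  apply Real.exp_le_exp.mpr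
  linarith

/-- masses at all places above `(g x2 + ε) n` -/
theorem mass (ε x2 : ℝ) (hε : 0 < ε) (h0 : 0 < x2) (h1 : x2 < 1) :
    ∃ a : ℝ, 0 < a ∧ ∃ n0 : ℕ, ∀ n ≥ n0, ∀ p, Q a n p →
    ∀ k : ℕ, (g x2 + ε) * n ≤ k → k ≤ n →
    ∃ x : ℝ, x2 ≤ x ∧ x < 1 ∧ ∃ j : ℕ, j ≤ k ∧
      Real.exp (n * U x) ≤ x ^ k * Real.exp (ε * n) * p j := by
  set xt : ℝ := max x2 (Real.exp (-(ε / 2))) with hxt
  have hxt2 : x2 ≤ xt := le_max_left _ _
  have hxt0 : 0 < xt := lt_of_lt_of_le h0 hxt2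
  have hxt1 : xt < 1 := max_lt h1 (by rw [Real.exp_lt_one_iff]; linarith)
  have hxtlog : -Real.log xt ≤ ε / 2 := by
    have h := Real.log_le_log (Real.exp_pos (-(ε / 2))) (le_max_right x2 (Real.exp (-(ε / 2))))
    rw [Real.log_exp] at h
    linarith
  set Lam : ℝ := -Real.log x2 with hLam
  have hLam0 : 0 < Lam := by
    have := Real.log_neg h0 h1
    rw [hLam]
    linarith
  set η : ℝ := min (ε / 2) (ε / (6 * Lam)) with hη
  have hη0 : 0 < η := lt_min (by linarith) (by positivity)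
  have hηε : η ≤ ε / 2 := min_le_left _ _
  have hη2 : 3 * η * Lam ≤ ε / 2 := by
    have h : η ≤ ε / (6 * Lam) := min_le_right _ _
    rw [le_div_iff₀ (by positivity)] at h
    linarith
  have hivt : ∀ i : ℕ, ∃ y : ℝ, (x2 ≤ y ∧ y ≤ xt) ∧
      (g x2 ≤ i * η → i * η ≤ g xt → g y = i * η) := by
    intro i
    by_cases c : g x2 ≤ i * η ∧ i * η ≤ g xt
    · have hcont : ContinuousOn g (Set.Icc x2 xt) := fun z hz =>
        (P.cont _ (lt_of_lt_of_le h0 hz.1) (lt_of_le_of_lt hz.2 hxt1)).continuousWithinAt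
      obtain ⟨y, hy, hy'⟩ := intermediate_value_Icc hxt2 hcont ⟨c.1, c.2⟩
      exact ⟨y, ⟨hy.1, hy.2⟩, fun _ _ => hy'⟩
    · exact ⟨x2, ⟨le_rfl, hxt2⟩, fun a b => absurd ⟨a, b⟩ c⟩
  choose y hy hyg using hivt
  have hε4 : 0 < ε / 4 := by linarith
  obtain ⟨a1, ha1, n1, hfam⟩ := P.family hη0 hε4 y
    (fun i => ⟨lt_of_lt_of_le h0 (hy i).1, lt_of_le_of_lt (hy i).2 hxt1⟩) ⌈1 / η⌉₊
  obtain ⟨a2, ha2, n2, htop⟩ := P.mass_at xt η (ε / 4) hxt0 hxt1 hη0 hε4
  have hg2 : 0 ≤ g x2 := by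
    -- some sequence sees a mass at `j ≥ 0` near `g x2`
    by_contra hcon
    push Not at hcon
    obtain ⟨a, ha, m0, h⟩ := P.mass_at x2 (-(g x2) / 2) 1 h0 h1 (by linarith) one_pos
    obtain ⟨n, hn, p, hp⟩ := P.ex a ha (m0 + 1)
    obtain ⟨j, -, hj, -, -⟩ := h n (by omega) p hp
    have hn0 : (0 : ℝ) < n := by
      have : 0 < n := by omega
      exact_mod_cast this
    have h2 : (g x2 + -(g x2) / 2) * n < 0 := mul_neg_of_neg_of_pos (by linarith) hn0
    have h3 : (0 : ℝ) ≤ j := Nat.cast_nonneg j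
    linarith
  refine ⟨min a1 a2, lt_min ha1 ha2, max 1 (max n1 n2), ?_⟩
  intro n hn p hp k hk1 hk2
  have hn1 : 1 ≤ n := (le_max_left _ _).trans hn
  have hnn1 : n1 ≤ n := ((le_max_left _ _).trans (le_max_right _ _)).trans hn
  have hnn2 : n2 ≤ n := ((le_max_right _ _).trans (le_max_right _ _)).trans hn
  have hn0 : (0 : ℝ) < n := by exact_mod_cast hn1
  have hk2' : (k : ℝ) ≤ n := by exact_mod_cast hk2
  have hηn : 0 < η * n := by positivity
  have h2η : 2 * η ≤ ε := by linarith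
  obtain ⟨i, hi1, hi2⟩ : ∃ i : ℕ, ((i : ℝ) + 1) * (η * n) ≤ k ∧ (k : ℝ) < (i + 2) * (η * n) := by
    have hq1 := Nat.floor_le (a := (k : ℝ) / (η * n)) (by positivity)
    have hq2 := Nat.lt_floor_add_one ((k : ℝ) / (η * n))
    have hq3 : 1 ≤ ⌊(k : ℝ) / (η * n)⌋₊ := by
      rw [Nat.one_le_floor_iff, le_div_iff₀ hηn]
      have : η * n ≤ (g x2 + ε) * n := mul_le_mul_of_nonneg_right (by linarith) hn0.le
      linarith
    obtain ⟨i, hi⟩ := Nat.exists_eq_add_of_le' hq3
    refine ⟨i, ?_, ?_⟩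
    · rw [le_div_iff₀ hηn, hi] at hq1
      push_cast at hq1
      exact hq1
    · rw [div_lt_iff₀ hηn, hi] at hq2
      push_cast at hq2
      linarith
  by_cases c : (i : ℝ) * η ≤ g xt
  · have hc2 : g x2 ≤ i * η := by
      have h2 : (g x2 + ε) * n < (i + 2) * η * n := by linarith
      have h3 := lt_of_mul_lt_mul_right h2 hn0.le
      linarith
    have hgy := hyg i hc2 c
    have hiN : i < ⌈1 / η⌉₊ := by
      rw [Nat.lt_ceil, lt_div_iff₀ hη0]
      have h2 : ((i : ℝ) + 1) * η * n ≤ 1 * n := by linarith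
      have h3 := le_of_mul_le_mul_right h2 hn0
      linarith
    obtain ⟨j, -, hj1, hj2, hj3⟩ := hfam i hiN n hnn1 p (P.mono _ _ _ _ (min_le_left _ _) hp)
    rw [hgy] at hj1 hj2
    have hjk : (j : ℝ) ≤ k := by linarith
    have hy0 : 0 < y i := lt_of_lt_of_le h0 (hy i).1
    have hy1 : y i < 1 := lt_of_le_of_lt (hy i).2 hxt1
    have hlogy : -Real.log (y i) ≤ Lam := by
      have := Real.log_le_log h0 (hy i).1
      rw [hLam]
      linarith
    have hlogy0 : 0 ≤ -Real.log (y i) := by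
      have := Real.log_nonpos hy0.le hy1.le
      linarith
    refine ⟨y i, (hy i).1, hy1, j, by exact_mod_cast hjk, ?_⟩
    apply P.fin h0 h1 (hy i).1 hy1 _ hj3
    have h2 : (k : ℝ) - j ≤ 3 * η * n := by linarith
    calc ((k : ℝ) - j) * (-Real.log (y i)) ≤ (3 * η * n) * Lam :=
          mul_le_mul h2 hlogy hlogy0 (by positivity)
      _ = 3 * η * Lam * n := by ring
      _ ≤ ε / 2 * n := mul_le_mul_of_nonneg_right hη2 hn0.le
      _ ≤ 3 / 4 * ε * n := by
          have : 0 < ε * n := by positivity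
          linarith
  · push Not at c
    obtain ⟨j, -, hj1, hj2, hj3⟩ := htop n hnn2 p (P.mono _ _ _ _ (min_le_right _ _) hp)
    have h2 : g xt * n < i * η * n := mul_lt_mul_of_pos_right c hn0
    have hjk : (j : ℝ) ≤ k := by linarith
    have hlogy0 : 0 ≤ -Real.log xt := by
      have := Real.log_nonpos hxt0.le hxt1.le
      linarith
    refine ⟨xt, hxt2, hxt1, j, by exact_mod_cast hjk, ?_⟩
    apply P.fin h0 h1 hxt2 hxt1 _ hj3
    have h2 : (k : ℝ) - j ≤ n := by
      have : (0 : ℝ) ≤ j := Nat.cast_nonneg j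
      linarith
    calc ((k : ℝ) - j) * (-Real.log xt) ≤ n * (ε / 2) :=
          mul_le_mul h2 hxtlog hlogy0 (by positivity)
      _ ≤ 3 / 4 * ε * n := by
          have : 0 < ε * n := by positivity
          linarith

end SPot

end Pool.Agent.Lib.MP_0430e4_lc.AC
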