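import Pool.Agent.Lib.MP_0430e4_lc.AC.YT1
import Pool.Agent.Lib.MP_0430e4_lc.BY.H.High

/-!
Project ALLCODES, part Y (helper13): high weights at any relative distance (general form of
`BY.HHigh_of_HA`, helper41). `s = 2^(1-ell) - 1`, i.e. `2^(ell-1) (1+s) = 1`.
-/

set_option autoImplicit false

open Finset Filter Topology

namespace Pool.Agent.Lib.MP_0430e4_lc.AC

open BY

variable {n : ℕ}

/-- the total mass `∑ w, N_w s^w` -/
theorem total_le_gen {C : Finset (Wd n)} {D : ℕ} (hD : 2 * D ≤ n) (hC : IsCode D C) {K s : ℝ}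
    (hK : 0 ≤ K) (h0 : 0 < s) (h1 : s ≤ 1) (hh : ((n : ℝ) + 1) * s ^ (n - 2 * D) ≤ 1 / 2)
    (hA : ∀ w : ℕ, D ≤ w → w + D ≤ n → (Nw C w : ℝ) ≤ C.card * K * n.choose w) :
    ∑ w ∈ range (n + 1), (Nw C w : ℝ) * s ^ w ≤ 2 * (C.card * (1 + K * (1 + s) ^ n)) := by
  obtain ⟨W, hW⟩ : ∃ W : ℝ, W = ∑ w ∈ range (n + 1), (Nw C w : ℝ) * s ^ w := ⟨_, rfl⟩
  have hW0 : 0 ≤ W := by rw [hW]; exact Finset.sum_nonneg fun w _ => by positivity
  rw [← hW]
  have hb : ∀ w ∈ range (n + 1), (Nw C w : ℝ) * s ^ w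
      ≤ (if w = 0 then (C.card : ℝ) else 0) + C.card * K * (s ^ w * 1 ^ (n - w) * n.choose w)
        + W * s ^ (n - 2 * D) := by
    intro w hw
    have hwn : w ≤ n := Nat.lt_succ_iff.mp (Finset.mem_range.mp hw)
    have hp1 : 0 ≤ (C.card : ℝ) * K * (s ^ w * 1 ^ (n - w) * n.choose w) := by positivity
    have hp2 : 0 ≤ W * s ^ (n - 2 * D) := by positivity
    by_cases hw0 : w = 0
    · subst hw0
      rw [if_pos rfl, Nw_zero, pow_zero, mul_one]
      linarith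
    · rw [if_neg hw0, zero_add]
      by_cases hwD : w < D
      · rw [Nw_of_lt hC hw0 hwD, Nat.cast_zero, zero_mul]
        linarith
      · push Not at hwD
        by_cases hwn2 : w + D ≤ n
        · have := hA w hwD hwn2
          calc (Nw C w : ℝ) * s ^ w ≤ (C.card * K * n.choose w) * s ^ w :=
                mul_le_mul_of_nonneg_right this (by positivity)
            _ = C.card * K * (s ^ w * 1 ^ (n - w) * n.choose w) := by rw [one_pow]; ring
            _ ≤ _ := by linarith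
        · push Not at hwn2
          have hv : n - w ≤ n := Nat.sub_le _ _
          have h3 := single_le C h0 h1 hv
          rw [Nat.sub_sub_self hwn, ← hW] at h3
          have h4 : s ^ w ≤ s ^ (n - w) * s ^ (n - 2 * D) := by
            rw [← pow_add]
            apply pow_le_pow_of_le_one h0.le h1
            omega
          calc (Nw C w : ℝ) * s ^ w ≤ (Nw C w : ℝ) * (s ^ (n - w) * s ^ (n - 2 * D)) :=
                mul_le_mul_of_nonneg_left h4 (by positivity)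
            _ = ((Nw C w : ℝ) * s ^ (n - w)) * s ^ (n - 2 * D) := by ring
            _ ≤ W * s ^ (n - 2 * D) := mul_le_mul_of_nonneg_right h3 (by positivity)
            _ ≤ _ := by linarith
  have hsum := Finset.sum_le_sum hb
  rw [← hW, Finset.sum_add_distrib, Finset.sum_add_distrib, ← Finset.mul_sum,
    ← add_pow s 1 n, Finset.sum_const, Finset.card_range, nsmul_eq_mul,
    Finset.sum_ite_eq' (range (n + 1)) 0 (fun _ => (C.card : ℝ)),
    if_pos (Finset.mem_range.mpr (Nat.succ_pos n))] at hsum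
  rw [add_comm s 1] at hsum
  push_cast at hsum
  have h5 : ((n : ℝ) + 1) * (W * s ^ (n - 2 * D)) ≤ W * (1 / 2) := by
    calc ((n : ℝ) + 1) * (W * s ^ (n - 2 * D)) = W * (((n : ℝ) + 1) * s ^ (n - 2 * D)) := by
          ring
      _ ≤ W * (1 / 2) := mul_le_mul_of_nonneg_left hh hW0
  linarith

/-- `2 ⌈δ n⌉ + (1 - 2δ)/2 n ≤ n` for large `n` -/
theorem two_ceil_le {δ : ℝ} (h0 : 0 < δ) (h1 : δ < 1 / 2) : ∃ n0 : ℕ, ∀ n ≥ n0,
    2 * (⌈δ * n⌉₊ : ℝ) + (1 - 2 * δ) / 2 * n ≤ n := by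
  refine ⟨⌈4 / (1 - 2 * δ)⌉₊ + 1, fun n hn => ?_⟩
  have hd : 0 < 1 - 2 * δ := by linarith
  have h2 : 4 / (1 - 2 * δ) ≤ n := by
    refine (Nat.le_ceil _).trans ?_
    have : ⌈4 / (1 - 2 * δ)⌉₊ ≤ n := by omega
    exact_mod_cast this
  rw [div_le_iff₀ hd] at h2
  have h3 : (⌈δ * n⌉₊ : ℝ) < δ * n + 1 := Nat.ceil_lt_add_one (by positivity)
  nlinarith

theorem HBauxLin (A : ℝ) {t : ℝ} (ht : 0 < t) :
    ∃ n0 : ℕ, ∀ n ≥ n0, A * ((n : ℝ) + 1) ≤ pw n t := by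
  obtain ⟨n0, hn0⟩ := poly_le_pw (|A|) t ht
  refine ⟨n0, fun n hn => le_trans ?_ (hn0 n hn)⟩
  have h1 : (1 : ℝ) ≤ (n : ℝ) + 1 := by
    have : (0 : ℝ) ≤ n := Nat.cast_nonneg n
    linarith
  have h2 : (n : ℝ) + 1 ≤ ((n : ℝ) + 1) ^ 3 := by
    calc (n : ℝ) + 1 = ((n : ℝ) + 1) ^ 1 := (pow_one _).symm
      _ ≤ ((n : ℝ) + 1) ^ 3 := pow_le_pow_right₀ h1 (by norm_num)
  calc A * ((n : ℝ) + 1) ≤ |A| * ((n : ℝ) + 1) :=
        mul_le_mul_of_nonneg_right (le_abs_self A) (by linarith)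
    _ ≤ |A| * ((n : ℝ) + 1) ^ 3 := mul_le_mul_of_nonneg_left h2 (abs_nonneg A)

/-- `(n+1) s^(b n) → 0` -/
theorem poly_geo {s b : ℝ} (h0 : 0 < s) (h1 : s < 1) (hb : 0 < b) : ∃ n0 : ℕ, ∀ n ≥ n0, ∀ m : ℕ,
    b * n ≤ m → ((n : ℝ) + 1) * s ^ m ≤ 1 / 2 := by
  obtain ⟨e, he⟩ : ∃ e : ℝ, e = -(b * Real.logb 2 s) := ⟨_, rfl⟩
  have he0 : 0 < e := by
    have := Real.logb_neg (b := 2) (by norm_num) h0 h1
    rw [he]
    nlinarith
  obtain ⟨n0, hn0⟩ := HBauxLin (2 : ℝ) he0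
  refine ⟨n0, fun n hn m hm => ?_⟩
  have h2 := hn0 n hn
  have h3 : s ^ m ≤ pw n (-e) := by
    have h4 : s ^ m = (2 : ℝ) ^ (Real.logb 2 s * m) := by
      rw [Real.rpow_mul (by norm_num), Real.rpow_logb (by norm_num) (by norm_num) h0,
        Real.rpow_natCast]
    rw [h4]
    unfold pw
    apply Real.rpow_le_rpow_of_exponent_le (by norm_num)
    have := Real.logb_neg (b := 2) (by norm_num) h0 h1
    rw [he]
    nlinarith
  have h5 : pw n e * pw n (-e) = 1 := by rw [← pw_add, add_neg_cancel, pw_zero]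
  have h6 := pw_pos n (-e)
  have h7 : (0 : ℝ) ≤ (n : ℝ) + 1 := by positivity
  calc ((n : ℝ) + 1) * s ^ m ≤ ((n : ℝ) + 1) * pw n (-e) := mul_le_mul_of_nonneg_left h3 h7
    _ = 1 / 2 * (2 * ((n : ℝ) + 1) * pw n (-e)) := by ring
    _ ≤ 1 / 2 * (pw n e * pw n (-e)) := by
        apply mul_le_mul_of_nonneg_left _ (by norm_num)
        exact mul_le_mul_of_nonneg_right h2 h6.le
    _ = 1 / 2 := by rw [h5, mul_one]

/-- **(HHigh)** at any relative distance -/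
theorem hhigh_gen {δ : ℝ} (h0 : 0 < δ) (h1 : δ < 1 / 2) (hR0 : 0 < Tensor.ell δ)
    (hR1 : Tensor.ell δ < 1) (ε : ℝ) (hε : 0 < ε) : ∃ n0 : ℕ, ∀ n ≥ n0,
    ∀ C : Finset (Wd n), IsCode ⌈δ * n⌉₊ C → ∀ v : ℕ, v ≤ ⌈δ * n⌉₊ →
      (Nw C (n - v) : ℝ) ≤ C.card * pw n ε * (1 / ((2 : ℝ) ^ (1 - Tensor.ell δ) - 1)) ^ v := by
  obtain ⟨s, hs⟩ : ∃ s : ℝ, s = (2 : ℝ) ^ (1 - Tensor.ell δ) - 1 := ⟨_, rfl⟩
  have hs0 : 0 < s := by
    have : (1 : ℝ) < 2 ^ (1 - Tensor.ell δ) := Real.one_lt_rpow (by norm_num) (by linarith)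
    rw [hs]; linarith
  have hs1 : s < 1 := by
    have : (2 : ℝ) ^ (1 - Tensor.ell δ) < 2 ^ (1 : ℝ) :=
      Real.rpow_lt_rpow_of_exponent_lt (by norm_num) (by linarith)
    rw [Real.rpow_one] at this
    rw [hs]; linarith
  rw [← hs]
  obtain ⟨n1, hA⟩ := ha_gen h0 h1 (ε / 2) (by linarith)
  obtain ⟨n2, hp⟩ := pw_large 4 (show 0 < ε / 2 by linarith)
  obtain ⟨n3, hceil⟩ := two_ceil_le h0 h1
  obtain ⟨n4, hgeo⟩ := poly_geo hs0 hs1 (show 0 < (1 - 2 * δ) / 2 by linarith)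
  refine ⟨n1 + n2 + n3 + n4 + 1, fun n hn C hC v hv => ?_⟩
  have hnpos : (0 : ℝ) < n := by
    have : 0 < n := by omega
    exact_mod_cast this
  have hc := hceil n (by omega)
  obtain ⟨D, hD⟩ : ∃ D : ℕ, D = ⌈δ * n⌉₊ := ⟨_, rfl⟩
  rw [← hD] at hc hC hv
  have h2D : 2 * D ≤ n := by
    have h : 2 * (D : ℝ) ≤ n := by
      have : 0 ≤ (1 - 2 * δ) / 2 * (n : ℝ) := by
        apply mul_nonneg _ hnpos.le
        linarith
      linarith
    exact_mod_cast h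
  have hT := total_le_gen h2D hC (K := pw n (Tensor.ell δ - 1 + ε / 2)) (pw_pos _ _).le hs0 hs1.le
    (hgeo n (by omega) (n - 2 * D) (by
      rw [Nat.cast_sub h2D]
      push_cast
      linarith))
    (fun w hw1 hw2 => by
      have := hA n (by omega) C (by rw [← hD]; exact hC) w (by rw [← hD]; exact hw1)
        (by rw [← hD]; exact hw2)
      exact this)
  have hP : pw n (Tensor.ell δ - 1 + ε / 2) * (1 + s) ^ n = pw n (ε / 2) := by
    have h3 : (1 + s) ^ n = pw n (1 - Tensor.ell δ) := by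
      unfold pw
      rw [hs, Real.rpow_mul (by norm_num), Real.rpow_natCast]
      congr 1; ring
    rw [h3, ← pw_add]
    congr 1
    ring
  rw [hP] at hT
  have h4 := hp n (by omega)
  have hcc : (0 : ℝ) ≤ C.card := by positivity
  have hP2 : pw n (ε / 2) * pw n (ε / 2) = pw n ε := by
    rw [← pw_add]
    congr 1
    ring
  have hT2 : ∑ w ∈ range (n + 1), (Nw C w : ℝ) * s ^ w ≤ C.card * pw n ε := by
    refine hT.trans ?_
    have h5 : 2 * (1 + pw n (ε / 2)) ≤ pw n ε := by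
      rw [← hP2]
      nlinarith
    calc 2 * ((C.card : ℝ) * (1 + pw n (ε / 2))) = C.card * (2 * (1 + pw n (ε / 2))) := by ring
      _ ≤ C.card * pw n ε := mul_le_mul_of_nonneg_left h5 hcc
  have hsg := single_le C (s := s) hs0 hs1.le (v := v) (by omega)
  have hinv : s ^ v * (1 / s) ^ v = 1 := by
    rw [← mul_pow, mul_one_div, div_self hs0.ne', one_pow]
  calc (Nw C (n - v) : ℝ) = (Nw C (n - v) : ℝ) * (s ^ v * (1 / s) ^ v) := by
        rw [hinv, mul_one]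
    _ = ((Nw C (n - v) : ℝ) * s ^ v) * (1 / s) ^ v := by ring
    _ ≤ (C.card * pw n ε) * (1 / s) ^ v :=
        mul_le_mul_of_nonneg_right (hsg.trans hT2) (by positivity)
    _ = C.card * pw n ε * (1 / s) ^ v := rfl

end Pool.Agent.Lib.MP_0430e4_lc.AC
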