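import Pool.Agent.Lib.MP_0430e4_lc.AC.HX1
import Pool.Agent.Lib.MP_0430e4_lc.AC.HX2
import Pool.Agent.Lib.MP_0430e4_lc.AC.YT8
import Pool.Agent.Lib.MP_0430e4_lc.BY.H.HBm

/-!
Project ALLCODES, high weights (helper30), part 3: the sharp bound (HHX) for the number of pairs at
distance `n - v`, `v < ⌈δ n⌉`:
`Nw C (n - v) * exp (n Uw r) ≤ |C| 2^{n (ell δ + ε)} r ^ v C(n,v)` for some `r ∈ [η/2, 1)`, where
`Uw r = log (1 + r) + U ((1 - r) / (1 + r))`.
-/

set_option autoImplicit false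

open Finset Filter Topology

namespace Pool.Agent.Lib.MP_0430e4_lc.AC

open BY

variable {n : ℕ}

/-- the Möbius map of the weight side -/
noncomputable def hxy (r : ℝ) : ℝ := (1 - r) / (1 + r)

/-- the potential on the weight side -/
noncomputable def hxU (U : ℝ → ℝ) (r : ℝ) : ℝ := Real.log (1 + r) + U (hxy r)

/-- `r` times the derivative of `hxU U` -/
noncomputable def hxg (g : ℝ → ℝ) (r : ℝ) : ℝ :=
  r / (1 + r) - 2 * r / (1 + r) ^ 2 * (g (hxy r) / hxy r)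

theorem hxy_pos {r : ℝ} (h0 : 0 < r) (h1 : r < 1) : 0 < hxy r := by
  unfold hxy
  exact div_pos (by linarith) (by linarith)

theorem hxy_lt {r : ℝ} (h0 : 0 < r) : hxy r < 1 := by
  unfold hxy
  rw [div_lt_one (by linarith)]
  linarith

theorem hxy_hasDerivAt {r : ℝ} (h0 : 0 < r) : HasDerivAt hxy (-2 / (1 + r) ^ 2) r := by
  have h1 : HasDerivAt (fun r : ℝ => 1 - r) (-1) r := by
    simpa using (hasDerivAt_id r).const_sub 1
  have h2 : HasDerivAt (fun r : ℝ => 1 + r) 1 r := by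
    simpa using (hasDerivAt_id r).const_add 1
  have h3 : (1 : ℝ) + r ≠ 0 := by linarith
  refine (h1.div h2 h3).congr_deriv ?_
  congr 1
  ring

theorem hxU_hasDerivAt {U g : ℝ → ℝ} (hU : ∀ x, 0 < x → x < 1 → HasDerivAt U (g x / x) x) {r : ℝ}
    (h0 : 0 < r) (h1 : r < 1) : HasDerivAt (hxU U) (hxg g r / r) r := by
  have h2 : HasDerivAt (fun r : ℝ => 1 + r) 1 r := by
    simpa using (hasDerivAt_id r).const_add 1
  have h3 : (1 : ℝ) + r ≠ 0 := by linarith
  have h4 := h2.log h3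
  have h5 := (hU (hxy r) (hxy_pos h0 h1) (hxy_lt h0)).comp r (hxy_hasDerivAt h0)
  refine (h4.add h5).congr_deriv ?_
  unfold hxg
  field_simp
  ring

theorem hxg_continuousAt {g : ℝ → ℝ} (hg : ∀ x, 0 < x → x < 1 → ContinuousAt g x) {r : ℝ}
    (h0 : 0 < r) (h1 : r < 1) : ContinuousAt (hxg g) r := by
  have hy : ContinuousAt hxy r := (hxy_hasDerivAt h0).continuousAt
  have h2 : ContinuousAt (fun r => g (hxy r)) r :=
    ContinuousAt.comp (f := hxy) (g := g) (hg (hxy r) (hxy_pos h0 h1) (hxy_lt h0)) hy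
  have h3 : (1 : ℝ) + r ≠ 0 := by linarith
  have h4 : hxy r ≠ 0 := (hxy_pos h0 h1).ne'
  unfold hxg
  have h5 : ContinuousAt (fun r : ℝ => 1 + r) r := by fun_prop
  have h6 : ContinuousAt (fun r : ℝ => (1 + r) ^ 2) r := by fun_prop
  have h7 : ContinuousAt (fun r : ℝ => 2 * r) r := by fun_prop
  exact (continuousAt_id.div h5 h3).sub ((h7.div h6 (pow_ne_zero 2 h3)).mul (h2.div hy h4))

theorem Pfr_hatW (f : Wd n → ℝ) {r : ℝ} (hr : 0 < r) :
    Pfr (hatW f) r = (1 + r) ^ n * Pfr f (hxy r) := by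
  unfold Pfr hatW
  have h1 : ∀ x : Wd n, (∑ y, f y * e x y) * r ^ wt x = ∑ y, f y * (e y x * r ^ wt x) := by
    intro x
    rw [Finset.sum_mul]
    apply Finset.sum_congr rfl
    intro y _
    rw [e_comm y x]
    ring
  rw [Finset.sum_congr rfl fun x _ => h1 x, Finset.sum_comm, Finset.mul_sum]
  apply Finset.sum_congr rfl
  intro y _
  rw [← Finset.mul_sum]
  have h2 := gen_e (R := ℝ) y r
  simp only [Algebra.algebraMap_self, RingHom.id_apply] at h2
  rw [h2]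
  have hr1 : (0 : ℝ) < 1 + r := by linarith
  have h3 : (1 + r) ^ n = (1 + r) ^ wt y * (1 + r) ^ (n - wt y) := by
    rw [← pow_add]
    congr 1
    have := wt_le y
    omega
  have h4 : (1 - r) ^ wt y = (1 + r) ^ wt y * hxy r ^ wt y := by
    rw [← mul_pow]
    congr 1
    unfold hxy
    field_simp
  rw [h3, h4]
  ring

/-- the family of transforms of near-optimal certificates -/
def HxQ (δ a : ℝ) (n : ℕ) (p : ℕ → ℝ) : Prop :=
  ∃ (l : ℝ) (f : Wd n → ℝ) (Hh : ℕ → ℝ), WCert l f ∧ (1 - 2 * δ) * n ≤ l ∧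
    ∑ x, f x ≤ pw n (Tensor.ell δ + a) ∧ RadF (hatW f) Hh ∧ ∀ j ≤ n, p j = n.choose j * Hh j

theorem gnp_eq_Pfr {f : Wd n → ℝ} {Hh : ℕ → ℝ} (hr : RadF (hatW f) Hh) {p : ℕ → ℝ}
    (hp : ∀ j ≤ n, p j = n.choose j * Hh j) (r : ℝ) : gnp n p r = Pfr (hatW f) r := by
  rw [hm_Pfr_eq hr]
  unfold gnp
  apply Finset.sum_congr rfl
  intro j hj
  rw [hp j (Nat.lt_succ_iff.mp (mem_range.mp hj))]

theorem hx_spot {δ : ℝ} {U g : ℝ → ℝ} (P : Pot δ U g) (h0 : 0 < δ) :
    SPot (HxQ δ) (hxU U) (hxg g) where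
  mono := by
    rintro a a' n p haa ⟨l, f, Hh, hW, hl, hs, hr, hp⟩
    exact ⟨l, f, Hh, hW, hl, hs.trans (pw_mono n (add_le_add le_rfl haa)), hr, hp⟩
  nn := by
    rintro a n p ⟨l, f, Hh, hW, hl, hs, hr, hp⟩ j hj
    rw [hp j hj]
    exact mul_nonneg (Nat.cast_nonneg _) (hm_nonneg hr hW.hat hj)
  ex := by
    intro a ha N
    obtain ⟨c, hc, -, -, n0, hn0⟩ := near_gen h0 a ha
    obtain ⟨f, H, hr, hW, hs⟩ := hn0 (max n0 N) (le_max_left _ _)
    refine ⟨max n0 N, le_max_right _ _,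
      fun j => (max n0 N).choose j * ∑ k ∈ range (max n0 N + 1), H k * kr (max n0 N) k j,
      _, f, _, hW, ?_, hs, radF_hatW hr, fun j _ => rfl⟩
    apply mul_le_mul_of_nonneg_right _ (Nat.cast_nonneg _)
    linarith
  deriv := fun x hx0 hx1 => hxU_hasDerivAt P.deriv hx0 hx1
  cont := fun x hx0 hx1 => hxg_continuousAt P.cont hx0 hx1
  lb := by
    intro x β hx0 hx1 hβ
    obtain ⟨a, ha, n0, hn0⟩ := P.lb (hxy x) β (hxy_pos hx0 hx1) (hxy_lt hx0) hβ
    refine ⟨a, ha, n0, ?_⟩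
    rintro n hn p ⟨l, f, Hh, hW, hl, hs, hr, hp⟩
    rw [gnp_eq_Pfr hr hp, Pfr_hatW f hx0]
    have h1 := hn0 n hn l f hW hl hs
    have hx2 : (0 : ℝ) < 1 + x := by linarith
    have h2 : Real.exp (n * (hxU U x - β)) =
        (1 + x) ^ n * Real.exp (n * (U (hxy x) - β)) := by
      have h3 : (1 + x) ^ n = Real.exp (n * Real.log (1 + x)) := by
        rw [Real.exp_nat_mul, Real.exp_log hx2]
      rw [h3, ← Real.exp_add]
      congr 1
      unfold hxU
      ring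
    rw [h2]
    exact mul_le_mul_of_nonneg_left h1 (by positivity)
  ub := by
    intro x β hx0 hx1 hβ
    obtain ⟨a, ha, n0, hn0⟩ := P.ub (hxy x) β (hxy_pos hx0 hx1) (hxy_lt hx0) hβ
    refine ⟨a, ha, n0, ?_⟩
    rintro n hn p ⟨l, f, Hh, hW, hl, hs, hr, hp⟩
    rw [gnp_eq_Pfr hr hp, Pfr_hatW f hx0]
    have h1 := hn0 n hn l f hW hl hs
    have hx2 : (0 : ℝ) < 1 + x := by linarith
    have h2 : Real.exp (n * (hxU U x + β)) =
        (1 + x) ^ n * Real.exp (n * (U (hxy x) + β)) := by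
      have h3 : (1 + x) ^ n = Real.exp (n * Real.log (1 + x)) := by
        rw [Real.exp_nat_mul, Real.exp_log hx2]
      rw [h3, ← Real.exp_add]
      congr 1
      unfold hxU
      ring
    rw [h2]
    exact mul_le_mul_of_nonneg_left h1 (by positivity)

theorem psib_rad : RadF (psib : Wd n → ℝ)
    (fun w => ∑ k ∈ range (n + 1), 1 / (((n : ℝ) + 1) * n.choose k) * kr n k w) := by
  intro y
  unfold psib
  rw [← Finset.sum_fiberwise_of_maps_to (s := univ) (t := range (n + 1)) (g := fun z : Wd n => wt z)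
    (fun z _ => Finset.mem_range.mpr (Nat.lt_succ_of_le (wt_le z)))]
  apply Finset.sum_congr rfl
  intro k _
  rw [← sum_e_wt, Finset.mul_sum]
  apply Finset.sum_congr rfl
  intro z hz
  unfold mub
  rw [(Finset.mem_filter.mp hz).2, e_comm]

theorem psib_zero : psib (0 : Wd n) = 1 := by
  unfold psib
  have h : ∀ z : Wd n, mub z * e z 0 = mub z := by
    intro z
    rw [e_zero_right, mul_one]
  rw [Finset.sum_congr rfl fun z _ => h z, sum_mub]

/-- **(HX)** with the mass of the transform. -/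
theorem hx_mass {d v j : ℕ} {l : ℝ} {f : Wd n → ℝ} {H Hh : ℕ → ℝ} (hW : WCert l f)
    (hR : RadF f H) (hr : RadF (hatW f) Hh) {C : Finset (Wd n)} (hC : IsCode d C) (hd : 2 * d ≤ n)
    (hv : v < d) (hj : j ≤ v)
    {K : ℝ} (hK : 0 ≤ K) (hA : ∀ w : ℕ, d ≤ w → w + d ≤ n → (Nw C w : ℝ) ≤ K * n.choose w) :
    ((n : ℝ) - 2 * d) * (Nw C (n - v) * (n.choose j * Hh j / ((n + 1) * n.choose v))) ≤
      4 * n * (C.card * ∑ x, f x + K * 2 ^ n) := by
  have hR' : RadF (mulC f 1) (fun w => H w * (1 + 1 *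
      ∑ k ∈ range (n + 1), 1 / (((n : ℝ) + 1) * n.choose k) * kr n k w)) := by
    intro y
    unfold mulC
    rw [hR y, psib_rad y]
  obtain ⟨H', hr'⟩ : ∃ H', RadF (hatW (mulC f 1)) H' := ⟨_, radF_hatW hR'⟩
  have hf' := mulC_nonneg hW.nonneg zero_le_one le_rfl
  have hh' : ∀ x : Wd n, 0 ≤ hatW (mulC f 1) x := by
    intro x
    rw [hatW_mulC]
    have h1 : 0 ≤ ∑ z, mub z * hatW f (x + z) :=
      Finset.sum_nonneg fun z _ => mul_nonneg (mub_pos z).le (hW.hat _)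
    have h2 := hW.hat x
    linarith
  have h1 := hx hf' hh' hr' hC hd hv hK hA
  have h2 : ∑ x, mulC f 1 x ≤ 2 * ∑ x, f x := by
    rw [Finset.mul_sum]
    exact Finset.sum_le_sum fun x _ => mulC_le hW.nonneg zero_le_one le_rfl x
  have h3 : mulC f 1 0 = 2 := by
    unfold mulC
    rw [psib_zero, hW.one]
    norm_num
  rw [h3] at h1
  obtain ⟨x, hx⟩ : ∃ x : Wd n, wt x = v := by
    have hc : 0 < (univ.filter (fun y : Wd n => wt y = v)).card := by
      rw [card_wt]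
      exact Nat.choose_pos (by omega)
    obtain ⟨y, hy⟩ := card_pos.mp hc
    exact ⟨y, (mem_filter.mp hy).2⟩
  have h4 := ker hr hW.hat (j := j) (x := x) (by omega) (by omega)
  have h5 := hatW_mulC f 1 x
  have h6 := hr' x
  rw [hx] at h4 h6
  have h7 : n.choose j * Hh j / ((n + 1) * n.choose v) ≤ H' v := by
    rw [← h6, h5]
    have := hW.hat x
    linarith
  have hN : (0 : ℝ) ≤ Nw C (n - v) := Nat.cast_nonneg _
  have h2d : (0 : ℝ) ≤ (n : ℝ) - 2 * d := by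
    have : ((2 * d : ℕ) : ℝ) ≤ n := by exact_mod_cast hd
    push_cast at this
    linarith
  have hM : (0 : ℝ) ≤ C.card := Nat.cast_nonneg _
  have hn0 : (0 : ℝ) ≤ n := Nat.cast_nonneg n
  calc ((n : ℝ) - 2 * d) * (Nw C (n - v) * (n.choose j * Hh j / ((n + 1) * n.choose v)))
      ≤ ((n : ℝ) - 2 * d) * (Nw C (n - v) * H' v) :=
        mul_le_mul_of_nonneg_left (mul_le_mul_of_nonneg_left h7 hN) h2d
    _ ≤ 2 * n * (C.card * ∑ x, mulC f 1 x + K * (2 ^ n * 2)) := h1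
    _ ≤ 2 * n * (C.card * (2 * ∑ x, f x) + K * (2 ^ n * 2)) := by
        apply mul_le_mul_of_nonneg_left _ (by positivity)
        have := mul_le_mul_of_nonneg_left h2 hM
        linarith
    _ = _ := by ring

theorem hxg_le {g : ℝ → ℝ} (hg : ∀ x, 0 < x → x < 1 → 0 ≤ g x) {r : ℝ} (h0 : 0 < r)
    (h1 : r < 1) : hxg g r ≤ r := by
  unfold hxg
  have hr : (0 : ℝ) < 1 + r := by linarith
  have h2 : 0 ≤ 2 * r / (1 + r) ^ 2 * (g (hxy r) / hxy r) := by
    have h3 := hg (hxy r) (hxy_pos h0 h1) (hxy_lt h0)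
    have h4 := hxy_pos h0 h1
    positivity
  have h3 : r / (1 + r) ≤ r := by
    rw [div_le_iff₀ hr]
    nlinarith
  linarith

/-- **(HHX)**: the sharp bound for the high weights. -/
theorem hhx_gen {δ : ℝ} {U g : ℝ → ℝ} (P : Pot δ U g) (h0 : 0 < δ) (h1 : δ < 1 / 2) (ε η : ℝ)
    (hε : 0 < ε) (hη : 0 < η) (hη1 : η ≤ 1) : ∃ n0 : ℕ, ∀ n ≥ n0,
    ∀ C : Finset (Wd n), IsCode ⌈δ * n⌉₊ C → ∀ v : ℕ, v < ⌈δ * n⌉₊ → η * n ≤ v →
    ∃ r : ℝ, η / 2 ≤ r ∧ r < 1 ∧
      Nw C (n - v) * Real.exp (n * hxU U r) ≤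
        C.card * pw n (Tensor.ell δ + ε) * r ^ v * n.choose v := by
  have hlog : 0 < Real.log 2 := Real.log_pos (by norm_num)
  have hd : 0 < 1 - 2 * δ := by linarith
  obtain ⟨ε1, he1⟩ : ∃ ε1 : ℝ, ε1 = min (η / 2) (ε / 4 * Real.log 2) := ⟨_, rfl⟩
  have he10 : 0 < ε1 := by rw [he1]; exact lt_min (by positivity) (by positivity)
  have he11 : ε1 ≤ η / 2 := by rw [he1]; exact min_le_left _ _
  have he12 : ε1 ≤ ε / 4 * Real.log 2 := by rw [he1]; exact min_le_right _ _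
  obtain ⟨a, ha, n1, hmass⟩ := (hx_spot P h0).mass ε1 (η / 2) he10 (by positivity) (by linarith)
  obtain ⟨ε', hε'⟩ : ∃ ε' : ℝ, ε' = min (ε / 4) a := ⟨_, rfl⟩
  have he0 : 0 < ε' := by rw [hε']; exact lt_min (by positivity) ha
  have he2 : ε' ≤ ε / 4 := by rw [hε']; exact min_le_left _ _
  have he3 : ε' ≤ a := by rw [hε']; exact min_le_right _ _
  obtain ⟨c, hc0, hc1, -, n2, hnear⟩ := near_gen h0 ε' he0
  obtain ⟨n3, hha⟩ := ha_gen h0 h1 (ε / 4) (by positivity)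
  obtain ⟨n4, hceil⟩ := two_ceil_le h0 h1
  obtain ⟨n5, hn5⟩ := HBaux.pw_lin (16 / (1 - 2 * δ)) (show (0 : ℝ) < ε / 2 by positivity)
  refine ⟨n1 + n2 + n3 + n4 + n5 + 1, fun n hn C hC v hv hηv => ?_⟩
  obtain ⟨f, H, hR, hW, hsum⟩ := hnear n (by omega)
  have hnpos : (0 : ℝ) < (n : ℝ) := by
    have : 0 < n := by omega
    exact_mod_cast this
  set d : ℕ := ⌈δ * n⌉₊ with hdd
  have h2d := hceil n (by omega)
  rw [← hdd] at h2d
  have h2dn : 2 * d ≤ n := by
    have : (2 * d : ℝ) ≤ n := by nlinarith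
    exact_mod_cast this
  have hvn : v ≤ n := by omega
  have hr := radF_hatW hR
  have hlev : (1 - 2 * δ) * (n : ℝ) ≤ (1 - 2 * δ + c) * n := by
    apply mul_le_mul_of_nonneg_right _ hnpos.le
    linarith
  obtain ⟨r, hr2, hr1, j, hjv, hE⟩ := hmass n (by omega)
    (fun j => n.choose j * ∑ k ∈ range (n + 1), H k * kr n k j)
    ⟨_, f, _, hW, hlev, hsum.trans (pw_mono n (by linarith)), hr, fun j _ => rfl⟩ v (by
      have h3 := hxg_le (g := g) (fun x hx0 hx1 => P.nonneg h0 hx0 hx1)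
        (show (0 : ℝ) < η / 2 by positivity) (by linarith)
      calc (hxg g (η / 2) + ε1) * n ≤ η * n := by
            apply mul_le_mul_of_nonneg_right _ hnpos.le
            linarith
        _ ≤ v := hηv) hvn
  refine ⟨r, hr2, hr1, ?_⟩
  have hrpos : 0 < r := lt_of_lt_of_le (by positivity) hr2
  have hM : (0 : ℝ) ≤ C.card := Nat.cast_nonneg _
  have hK : 0 ≤ (C.card : ℝ) * pw n (Tensor.ell δ - 1 + ε / 4) :=
    mul_nonneg hM (pw_pos n _).le
  have hX := hx_mass hW hR hr hC h2dn hv hjv hK (fun w hw1 hw2 => hha n (by omega) C hC w hw1 hw2)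
  set p : ℝ := n.choose j * ∑ k ∈ range (n + 1), H k * kr n k j with hp
  have hch : (0 : ℝ) < (n.choose v : ℝ) := by exact_mod_cast Nat.choose_pos hvn
  have hN : (0 : ℝ) ≤ Nw C (n - v) := Nat.cast_nonneg _
  have hn1 : (0 : ℝ) < (n : ℝ) + 1 := by linarith
  have hp0 : 0 ≤ p := by
    rw [hp]
    exact mul_nonneg (Nat.cast_nonneg _) (hm_nonneg hr hW.hat (by omega))
  have h5 : ∑ x, f x ≤ pw n (Tensor.ell δ + ε / 4) := hsum.trans (pw_mono n (by linarith))
  have h6 : pw n (Tensor.ell δ - 1 + ε / 4) * 2 ^ n = pw n (Tensor.ell δ + ε / 4) := by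
    have h7 : (2 : ℝ) ^ n = pw n 1 := by
      unfold pw
      rw [one_mul, Real.rpow_natCast]
    rw [h7, ← pw_add]
    congr 1
    ring
  have h7 : (C.card : ℝ) * ∑ x, f x + C.card * pw n (Tensor.ell δ - 1 + ε / 4) * 2 ^ n ≤
      2 * (C.card * pw n (Tensor.ell δ + ε / 4)) := by
    rw [mul_assoc (C.card : ℝ) (pw n (Tensor.ell δ - 1 + ε / 4)), h6]
    have := mul_le_mul_of_nonneg_left h5 hM
    linarith
  have h8 : (1 - 2 * δ) / 2 * n * (Nw C (n - v) * (p / ((n + 1) * n.choose v))) ≤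
      4 * n * (2 * (C.card * pw n (Tensor.ell δ + ε / 4))) := by
    calc (1 - 2 * δ) / 2 * n * (Nw C (n - v) * (p / ((n + 1) * n.choose v)))
        ≤ ((n : ℝ) - 2 * d) * (Nw C (n - v) * (p / ((n + 1) * n.choose v))) := by
          apply mul_le_mul_of_nonneg_right _ (by positivity)
          linarith
      _ ≤ 4 * n * (C.card * ∑ x, f x + C.card * pw n (Tensor.ell δ - 1 + ε / 4) * 2 ^ n) := hX
      _ ≤ _ := mul_le_mul_of_nonneg_left h7 (by positivity)
  have h9 : (Nw C (n - v) : ℝ) * p ≤ 16 / (1 - 2 * δ) * (n + 1) *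
      (C.card * pw n (Tensor.ell δ + ε / 4) * n.choose v) := by
    have e1 : (1 - 2 * δ) / 2 * n * (Nw C (n - v) * (p / ((n + 1) * n.choose v))) =
        (Nw C (n - v) * p) * ((1 - 2 * δ) / 2 * n / ((n + 1) * n.choose v)) := by
      field_simp
    rw [e1] at h8
    have h10 : (Nw C (n - v) : ℝ) * p ≤
        (4 * n * (2 * (C.card * pw n (Tensor.ell δ + ε / 4)))) /
          ((1 - 2 * δ) / 2 * n / ((n + 1) * n.choose v)) := by
      rw [le_div_iff₀ (by positivity)]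
      exact h8
    refine h10.trans (le_of_eq ?_)
    field_simp
    ring
  have hrv : 0 < r ^ v := pow_pos hrpos v
  have h11 := hn5 n (by omega)
  have hexp : Real.exp (ε1 * n) ≤ pw n (ε / 4) := by
    rw [HBaux.pw_exp]
    exact Real.exp_le_exp.mpr (mul_le_mul_of_nonneg_right he12 hnpos.le)
  have hp1 := pw_pos n (ε / 4)
  have hp2 := pw_pos n (Tensor.ell δ + ε / 4)
  calc Nw C (n - v) * Real.exp (n * hxU U r)
      ≤ Nw C (n - v) * (r ^ v * Real.exp (ε1 * n) * p) := mul_le_mul_of_nonneg_left hE hN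
    _ ≤ Nw C (n - v) * (r ^ v * pw n (ε / 4) * p) := by
        apply mul_le_mul_of_nonneg_left _ hN
        apply mul_le_mul_of_nonneg_right _ hp0
        exact mul_le_mul_of_nonneg_left hexp hrv.le
    _ = r ^ v * pw n (ε / 4) * (Nw C (n - v) * p) := by ring
    _ ≤ r ^ v * pw n (ε / 4) * (16 / (1 - 2 * δ) * (n + 1) *
          (C.card * pw n (Tensor.ell δ + ε / 4) * n.choose v)) :=
        mul_le_mul_of_nonneg_left h9 (by positivity)
    _ ≤ r ^ v * pw n (ε / 4) * (pw n (ε / 2) *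
          (C.card * pw n (Tensor.ell δ + ε / 4) * n.choose v)) := by
        apply mul_le_mul_of_nonneg_left _ (by positivity)
        apply mul_le_mul_of_nonneg_right h11 (by positivity)
    _ = C.card * (pw n (ε / 4) * pw n (ε / 2) * pw n (Tensor.ell δ + ε / 4)) * r ^ v *
          n.choose v := by ring
    _ = C.card * pw n (Tensor.ell δ + ε) * r ^ v * n.choose v := by
        rw [← pw_add, ← pw_add]
        congr 4
        ring

end Pool.Agent.Lib.MP_0430e4_lc.AC
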