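import Pool.Agent.Lib.MP_0430e4_lc.AC.HX3

/-!
Project ALLCODES, high weights (helper30), part 4: the contribution of the pairs at distance `n - v`,
`v < ⌈δ n⌉`, to the pairing with a polynomial whose coefficient at `u ^ (n - v)` is small against the
critical potential.
-/

set_option autoImplicit false

open Finset Filter Topology

namespace Pool.Agent.Lib.MP_0430e4_lc.AC

open BY

variable {n : ℕ}

theorem wt_sub_le' (a b : Wd n) : wt (a - b) ≤ wt a + wt b := by
  have h1 : wt (a - b) = hammingDist a b := by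
    rw [hammingDist_comm, hammingDist_eq_hammingNorm, neg_add_eq_sub]
    rfl
  have h2 := hammingDist_triangle a 0 b
  rw [hammingDist_zero_right, hammingDist_zero_left] at h2
  rw [h1]
  exact h2

/-- two words of the code at distance `n - v` from a third one coincide if `2 v < d` -/
theorem nw_small {C : Finset (Wd n)} {d v : ℕ} (hC : IsCode d C) (hv : 2 * v < d) (hvn : v ≤ n) :
    Nw C (n - v) ≤ C.card := by
  unfold Nw
  apply Finset.card_le_card_of_injOn (fun p => p.1)
  · intro p hp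
    exact (Finset.mem_product.mp (Finset.mem_filter.mp hp).1).1
  · intro p hp q hq hpq
    rw [Finset.mem_coe, Finset.mem_filter, Finset.mem_product] at hp hq
    have hpq' : p.1 = q.1 := hpq
    by_cases h : p.2 = q.2
    · exact Prod.ext hpq' h
    · exfalso
      have h1 := hC _ hp.1.2 _ hq.1.2 h
      have h2 : p.2 - q.2 = (q.1 - q.2 + ones) - (p.1 - p.2 + ones) := by
        rw [hpq']
        abel
      have h3 := wt_sub_le' (q.1 - q.2 + ones) (p.1 - p.2 + ones)
      rw [← h2, wt_add_ones, wt_add_ones, hp.2, hq.2] at h3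
      omega

/-- **High weights**: the pairs at distance `n - v`. -/
theorem high_gen {δ : ℝ} {U g : ℝ → ℝ} (P : Pot δ U g) (h0 : 0 < δ) (h1 : δ < 1 / 2) (c : ℝ)
    (hc : 0 < c) : ∃ ε : ℝ, 0 < ε ∧ ∃ c2 : ℝ, 0 < c2 ∧ ∃ n0 : ℕ, ∀ n ≥ n0,
    ∀ C : Finset (Wd n), IsCode ⌈δ * n⌉₊ C → pw n (Tensor.ell δ - ε) ≤ C.card →
    ∀ v : ℕ, v < ⌈δ * n⌉₊ → ∀ γ : ℝ, 0 ≤ γ →
      γ ≤ pw n (Tensor.ell δ) * Real.exp (-(c * n)) * n.choose v →
      (∀ r : ℝ, δ / 4 ≤ r → r < 1 → γ * r ^ v ≤ Real.exp (n * (hxU U r - c))) →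
      Nw C (n - v) * γ / n.choose v ≤ (C.card : ℝ) ^ 2 * Real.exp (-(c2 * n)) := by
  have hlog : 0 < Real.log 2 := Real.log_pos (by norm_num)
  obtain ⟨ε, hε⟩ : ∃ ε : ℝ, ε = c / (4 * Real.log 2) := ⟨_, rfl⟩
  have hε0 : 0 < ε := by rw [hε]; positivity
  have hεc : 2 * ε * Real.log 2 = c / 2 := by
    rw [hε]; field_simp; ring
  obtain ⟨n1, hhx⟩ := hhx_gen P h0 h1 ε (δ / 2) hε0 (by positivity) (by linarith)
  obtain ⟨n2, hceil⟩ := two_ceil_le h0 h1
  refine ⟨ε, hε0, c / 2, by positivity, n1 + n2 + 1, fun n hn C hC hcard v hv γ hγ hS hA => ?_⟩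
  have hnpos : (0 : ℝ) < (n : ℝ) := by
    have : 0 < n := by omega
    exact_mod_cast this
  have h2d := hceil n (by omega)
  set d : ℕ := ⌈δ * n⌉₊ with hdd
  have h2dn : 2 * d ≤ n := by
    have : (2 * d : ℝ) ≤ n := by nlinarith
    exact_mod_cast this
  have hvn : v ≤ n := by omega
  have hch : (0 : ℝ) < (n.choose v : ℝ) := by exact_mod_cast Nat.choose_pos hvn
  have hM : (0 : ℝ) ≤ C.card := Nat.cast_nonneg _
  have hN : (0 : ℝ) ≤ Nw C (n - v) := Nat.cast_nonneg _
  have hp2 : pw n (2 * ε) * Real.exp (-(c * n)) = Real.exp (-(c / 2 * n)) := by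
    rw [HBaux.pw_exp, ← Real.exp_add, hεc]
    congr 1
    ring
  have hMM : ∀ t : ℝ, t ≤ 2 * ε → (C.card : ℝ) * pw n (Tensor.ell δ + t - ε) *
      Real.exp (-(c * n)) ≤ (C.card : ℝ) ^ 2 * Real.exp (-(c / 2 * n)) := by
    intro t ht
    have e1 : pw n (Tensor.ell δ + t - ε) = pw n (Tensor.ell δ - ε) * pw n t := by
      rw [← pw_add]; congr 1; ring
    have e2 : pw n t ≤ pw n (2 * ε) := pw_mono n ht
    have e3 := pw_pos n t
    rw [e1]
    calc (C.card : ℝ) * (pw n (Tensor.ell δ - ε) * pw n t) * Real.exp (-(c * n))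
        = (C.card : ℝ) * pw n (Tensor.ell δ - ε) * (pw n t * Real.exp (-(c * n))) := by ring
      _ ≤ (C.card : ℝ) * C.card * (pw n (2 * ε) * Real.exp (-(c * n))) := by
          apply mul_le_mul (mul_le_mul_of_nonneg_left hcard hM) _ (by positivity) (by positivity)
          exact mul_le_mul_of_nonneg_right e2 (Real.exp_pos _).le
      _ = _ := by rw [hp2]; ring
  rcases lt_or_ge (2 * v) d with hvd | hvd
  · have h3 : (Nw C (n - v) : ℝ) ≤ C.card := by exact_mod_cast nw_small hC hvd hvn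
    calc Nw C (n - v) * γ / n.choose v ≤ C.card * (pw n (Tensor.ell δ) * Real.exp (-(c * n)) *
          n.choose v) / n.choose v := by
          apply div_le_div_of_nonneg_right _ hch.le
          exact mul_le_mul h3 hS hγ hM
      _ = C.card * pw n (Tensor.ell δ + ε - ε) * Real.exp (-(c * n)) := by
          rw [add_sub_cancel_right]
          field_simp
      _ ≤ _ := hMM ε (by linarith)
  · have hηv : δ / 2 * n ≤ v := by
      have h3 : δ * (n : ℝ) ≤ d := Nat.le_ceil _
      have h4 : (d : ℝ) ≤ 2 * v := by exact_mod_cast hvd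
      linarith
    obtain ⟨r, hr1, hr2, hX⟩ := hhx n (by omega) C hC v hv hηv
    have hr0 : 0 < r := lt_of_lt_of_le (by positivity) hr1
    have hrv : 0 < r ^ v := pow_pos hr0 v
    have h3 := hA r (by linarith) hr2
    have h4 : Nw C (n - v) * γ * r ^ v ≤
        (C.card * pw n (Tensor.ell δ + ε) * Real.exp (-(c * n)) * n.choose v) * r ^ v := by
      calc Nw C (n - v) * γ * r ^ v = Nw C (n - v) * (γ * r ^ v) := by ring
        _ ≤ Nw C (n - v) * Real.exp (n * (hxU U r - c)) := mul_le_mul_of_nonneg_left h3 hN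
        _ = Nw C (n - v) * Real.exp (n * hxU U r) * Real.exp (-(c * n)) := by
            rw [mul_assoc, ← Real.exp_add]
            congr 2
            ring
        _ ≤ (C.card * pw n (Tensor.ell δ + ε) * r ^ v * n.choose v) * Real.exp (-(c * n)) :=
            mul_le_mul_of_nonneg_right hX (Real.exp_pos _).le
        _ = _ := by ring
    have h5 := le_of_mul_le_mul_right h4 hrv
    calc Nw C (n - v) * γ / n.choose v ≤
          (C.card * pw n (Tensor.ell δ + ε) * Real.exp (-(c * n)) * n.choose v) / n.choose v :=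
          div_le_div_of_nonneg_right h5 hch.le
      _ = C.card * pw n (Tensor.ell δ + 2 * ε - ε) * Real.exp (-(c * n)) := by
          have : Tensor.ell δ + 2 * ε - ε = Tensor.ell δ + ε := by ring
          rw [this]
          field_simp
      _ ≤ _ := hMM (2 * ε) le_rfl

end Pool.Agent.Lib.MP_0430e4_lc.AC
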