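import Pool.Agent.Lib.MP_0430e4_lc.AC.PA1
import Pool.Agent.Lib.MP_0430e4_lc.AC.YT1

/-!
Project ALLCODES, part Y (helper13): the abstract theorem of both branches, definitions.

`G = Gp n m c = ∑_{k ≤ m} c_k (1-X)^k (1+X)^(n-k)`, i.e. `G(u) = (1+u)^n F((1-u)/(1+u))`,
`F(z) = ∑ c_k z^k` (`Gp_inv`: every real polynomial of degree `≤ n` is of this form).
`up s φ = exp (s + i φ)`.
-/

set_option autoImplicit false

open Finset Polynomial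

namespace Pool.Agent.Lib.MP_0430e4_lc.AC

open BY

/-- two arcs of angles `[p1,p2]`, `[p3,p4]` (for one arc take `p3 = p4 = p2`) -/
def OnArc (p1 p2 p3 p4 φ : ℝ) : Prop := (p1 ≤ φ ∧ φ ≤ p2) ∨ (p3 ≤ φ ∧ φ ≤ p4)

/-- What is needed of one polynomial `G` on the circles. `σ` radius of the contour, `τ` size of the
rectangle shift, `η` height of the bump, `κ` gain off the arcs, `e` gain at the ends of the arcs,
`ωa ≤ ωb` slopes (local weights) on the arcs for `s < 0`, `s > 0`. -/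
structure WOK (n : ℕ) (G : ℝ[X]) (δ σ τ η κ e ωa ωb p1 p2 p3 p4 : ℝ) : Prop where
  far : ∀ φ : ℝ, 0 ≤ φ → φ ≤ Real.pi → (φ ≤ p1 ∨ (p2 ≤ φ ∧ φ ≤ p3) ∨ p4 ≤ φ) →
    ‖G.aeval (up σ φ)‖ ≤ 2 ^ n * Real.exp (n * (σ * δ - κ))
  arc : ∀ φ : ℝ, OnArc p1 p2 p3 p4 φ → ‖G.aeval (up σ φ)‖ ≤ 2 ^ n * Real.exp (n * η)
  out : ∀ φ : ℝ, OnArc p1 p2 p3 p4 φ →
    ‖G.aeval (up τ φ)‖ ≤ 2 ^ n * Real.exp (n * (τ * ωb + η))
  inn : ∀ φ : ℝ, OnArc p1 p2 p3 p4 φ →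
    ‖G.aeval (up (-τ) φ)‖ ≤ 2 ^ n * Real.exp (n * (-(τ * ωa) + η))
  edge : ∀ s φ : ℝ, -τ ≤ s → s ≤ τ → (φ = p1 ∨ φ = p2 ∨ φ = p3 ∨ φ = p4) →
    ‖G.aeval (up s φ)‖ ≤ 2 ^ n * Real.exp (n * (max (s * ωa) (s * ωb) - e))

/-- What is needed of the test function and one code `C` (`d = ⌈δ n⌉`). -/
structure COK (n m : ℕ) (c : ℕ → ℝ) (L δ κ : ℝ) (C : Finset (Wd n)) : Prop where
  deg : m ≤ n
  /-- the k side (see `kside_of`) -/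
  kside : (1 / 4) * (C.card : ℝ) ^ 2 ≤ ∑ k ∈ range (m + 1), c k / n.choose k * Sk C k
  /-- the mass `F(1)` -/
  mass : ∑ k ∈ range (m + 1), c k ≤ pw n L * Real.exp (-(κ * n))
  /-- the high weights `w > n - d` -/
  high : ∑ w ∈ (range (n + 1)).filter (fun w => n < w + ⌈δ * n⌉₊),
    (Nw C w : ℝ) * (|(Gp n m c).coeff w| / n.choose w) ≤
      (C.card : ℝ) ^ 2 * Real.exp (-(κ * n))

end Pool.Agent.Lib.MP_0430e4_lc.AC
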