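import Pool.Agent.Lib.MP_0430e4_lc.AC.HX4
import Pool.Agent.Lib.MP_0430e4_lc.AC.PA2

/-!
Project ALLCODES, high weights (helper30), part 5: near-optimal codes have few pairs at distance
`n - v`, `v < ⌈δ n⌉` (every `δ ∈ (0,1/2)`); the hypothesis `hi` of the abstract theorem for a window
around `1/2`; the two-regime form of `high_gen`; the field `high` of `COK`.
-/

set_option autoImplicit false

open Finset Filter Topology

namespace Pool.Agent.Lib.MP_0430e4_lc.AC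

open BY

theorem hx_lin (A : ℝ) {t : ℝ} (ht : 0 < t) :
    ∃ n0 : ℕ, ∀ n ≥ n0, A * ((n : ℝ) + 1) ≤ Real.exp (t * n) := by
  have hlog : 0 < Real.log 2 := Real.log_pos (by norm_num)
  obtain ⟨n0, hn0⟩ := HBaux.pw_lin A (show 0 < t / Real.log 2 by positivity)
  refine ⟨n0, fun n hn => ?_⟩
  have h := hn0 n hn
  rw [HBaux.pw_exp] at h
  have e1 : t / Real.log 2 * Real.log 2 * n = t * n := by field_simp
  rwa [e1] at h

namespace Pot

variable {δ : ℝ} {U g : ℝ → ℝ} (P : Pot δ U g) (h0 : 0 < δ)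
include P h0

theorem U_mono {a b : ℝ} (ha : 0 < a) (hab : a ≤ b) (hb : b < 1) : U a ≤ U b := by
  have h1 := P.ge_log h0 ha hab hb
  have h2 := P.nonneg h0 ha (lt_of_le_of_lt hab hb)
  have h3 : 0 ≤ Real.log b - Real.log a := by
    have := Real.log_le_log ha hab
    linarith
  have := mul_nonneg h2 h3
  linarith

theorem U_pos (h1 : δ < 1 / 2) {b : ℝ} (h2 : 0 < b) (hb : b < 1) : 0 < U b := by
  have hs := P.slope
  have hd : 0 < (1 - 2 * δ) / 2 := by linarith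
  have e1 : ∀ᶠ x : ℝ in 𝓝[>] 0, (1 - 2 * δ) / 2 < U x / x :=
    hs.eventually (eventually_gt_nhds (by linarith))
  have e3 : ∀ᶠ y : ℝ in 𝓝[>] 0, y < b := by
    filter_upwards [Ioo_mem_nhdsGT h2] with y hy using hy.2
  have e4 : ∀ᶠ y : ℝ in 𝓝[>] 0, 0 < y := self_mem_nhdsWithin
  obtain ⟨y, hy1, hy2, hy3⟩ := (e1.and (e3.and e4)).exists
  have h4 : (1 - 2 * δ) / 2 * y < U y := by rwa [lt_div_iff₀ hy3] at hy1
  have h5 : 0 < (1 - 2 * δ) / 2 * y := mul_pos hd hy3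
  have h6 := P.U_mono h0 hy3 hy2.le hb
  linarith

omit h0 in
/-- the weight potential is close to `log 2` near `r = 1` -/
theorem hxU_near {κ : ℝ} (hκ : 0 < κ) : ∃ rb : ℝ, 0 < rb ∧ rb < 1 ∧ ∀ r : ℝ, rb ≤ r → r < 1 →
    Real.log 2 - κ ≤ hxU U r := by
  have h5 := P.tendsto_zero
  have e1 : ∀ᶠ x : ℝ in 𝓝[>] 0, -(κ / 2) < U x := h5.eventually (eventually_gt_nhds (by linarith))
  obtain ⟨y0, hy0, hy⟩ := (mem_nhdsGT_iff_exists_Ioo_subset.mp e1)
  have hy0' : 0 < y0 := hy0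
  set rb : ℝ := max (max (1 / 2) (1 - y0 / 2)) (1 - κ / 4) with hrb
  have hr1 : 1 / 2 ≤ rb := (le_max_left _ _).trans (le_max_left _ _)
  have hr2 : 1 - y0 / 2 ≤ rb := (le_max_right _ _).trans (le_max_left _ _)
  have hr3 : 1 - κ / 4 ≤ rb := le_max_right _ _
  have hr4 : rb < 1 := by
    rw [hrb]
    exact max_lt (max_lt (by norm_num) (by linarith)) (by linarith)
  refine ⟨rb, by linarith, hr4, fun r hr hr' => ?_⟩
  have hr0 : 0 < r := by linarith
  have hyp := hxy_pos hr0 hr'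
  have hyl : hxy r < y0 := by
    unfold hxy
    rw [div_lt_iff₀ (by linarith)]
    nlinarith
  have h6 : -(κ / 2) < U (hxy r) := hy ⟨hyp, hyl⟩
  have h7 : Real.log 2 - κ / 2 ≤ Real.log (1 + r) := by
    have h8 : Real.log (2 / (1 + r)) ≤ 2 / (1 + r) - 1 := Real.log_le_sub_one_of_pos (by positivity)
    rw [Real.log_div (by norm_num) (by linarith)] at h8
    have h9 : 2 / (1 + r) - 1 ≤ κ / 2 := by
      rw [div_sub_one (by linarith), div_le_iff₀ (by linarith)]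
      nlinarith
    linarith
  unfold hxU
  linarith

end Pot

/-- `C(n,v) r^v ≤ (1+r)^n` -/
theorem choose_pow_le (n v : ℕ) {r : ℝ} (hr : 0 ≤ r) (hv : v ≤ n) :
    (n.choose v : ℝ) * r ^ v ≤ (1 + r) ^ n := by
  rw [add_comm 1 r, add_pow]
  have h := Finset.single_le_sum (f := fun m => r ^ m * 1 ^ (n - m) * (n.choose m : ℝ))
    (fun i _ => by positivity) (mem_range.mpr (Nat.lt_succ_of_le hv))
  simp only [one_pow, mul_one] at h ⊢
  rw [mul_comm]
  exact h

/-- entropy gain: `C(n,v) ≤ exp (n (log 2 - 2 κ))` for `v ≤ δ n` -/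
theorem choose_gain {δ : ℝ} (h0 : 0 < δ) (h1 : δ < 1 / 2) : ∃ κ : ℝ, 0 < κ ∧ ∀ n v : ℕ,
    (v : ℝ) ≤ δ * n → (n.choose v : ℝ) ≤ Real.exp (n * (Real.log 2 - 2 * κ)) := by
  set β : ℝ := δ / (1 - δ) with hβ
  have hd : 0 < 1 - δ := by linarith
  have hβ0 : 0 < β := by positivity
  have hβ1 : β < 1 := by rw [hβ, div_lt_one hd]; linarith
  have hH : Real.log (1 + β) - δ * Real.log β < Real.log 2 := by
    have e1 : 1 + β = 1 / (1 - δ) := by rw [hβ]; field_simp; ring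
    rw [e1, hβ, Real.log_div h0.ne' hd.ne', Real.log_div one_ne_zero hd.ne', Real.log_one]
    have h2 := Real.binEntropy_lt_log_two.mpr (show δ ≠ 2⁻¹ by norm_num; linarith)
    rw [Real.binEntropy_eq_negMulLog_add_negMulLog_one_sub, Real.negMulLog, Real.negMulLog] at h2
    linarith
  set κ : ℝ := (Real.log 2 - (Real.log (1 + β) - δ * Real.log β)) / 2 with hκ
  refine ⟨κ, by rw [hκ]; linarith, fun n v hv => ?_⟩
  rcases Nat.lt_or_ge n v with h | h
  · rw [Nat.choose_eq_zero_of_lt h, Nat.cast_zero]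
    exact (Real.exp_pos _).le
  · have h2 := choose_pow_le n v hβ0.le h
    have h3 : β ^ v = Real.exp (v * Real.log β) := by
      rw [Real.exp_nat_mul, Real.exp_log hβ0]
    have h4 : (1 + β) ^ n = Real.exp (n * Real.log (1 + β)) := by
      rw [Real.exp_nat_mul, Real.exp_log (by linarith)]
    rw [h3, h4] at h2
    have h5 : (n.choose v : ℝ) ≤ Real.exp (n * Real.log (1 + β)) * Real.exp (-(v * Real.log β)) := by
      rw [Real.exp_neg, ← div_eq_mul_inv, le_div_iff₀ (Real.exp_pos _)]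
      exact h2
    refine h5.trans ?_
    rw [← Real.exp_add]
    apply Real.exp_le_exp.mpr
    have h6 : Real.log β < 0 := Real.log_neg hβ0 hβ1
    have h7 : -(v * Real.log β) ≤ -(δ * n * Real.log β) := by nlinarith
    have h8 : (n : ℝ) * (Real.log 2 - 2 * κ) = n * Real.log (1 + β) + -(δ * n * Real.log β) := by
      rw [hκ]; ring
    linarith

/-- the binomial term against the critical potential, uniformly in `r` -/
theorem choose_hxU {δ : ℝ} {U g : ℝ → ℝ} (P : Pot δ U g) (h0 : 0 < δ) (h1 : δ < 1 / 2) :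
    ∃ κ : ℝ, 0 < κ ∧ ∀ (n v : ℕ) (r : ℝ), (v : ℝ) ≤ δ * n → 0 < r → r < 1 →
      (n.choose v : ℝ) * r ^ v ≤ Real.exp (n * (hxU U r - κ)) := by
  obtain ⟨κ, hκ, hch⟩ := choose_gain h0 h1
  obtain ⟨rb, hrb0, hrb1, hrb⟩ := P.hxU_near hκ
  have hyb := hxy_pos hrb0 hrb1
  have hUb := P.U_pos h0 h1 hyb (hxy_lt hrb0)
  refine ⟨min κ (U (hxy rb)), lt_min hκ hUb, fun n v r hv hr0 hr1 => ?_⟩
  have hn0 : (0 : ℝ) ≤ n := Nat.cast_nonneg n
  have hvn : v ≤ n := by
    have : (v : ℝ) ≤ n := by nlinarith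
    exact_mod_cast this
  rcases le_or_gt rb r with h | h
  · have h2 := hrb r h hr1
    calc (n.choose v : ℝ) * r ^ v ≤ n.choose v * 1 := by
          apply mul_le_mul_of_nonneg_left (pow_le_one₀ hr0.le hr1.le) (Nat.cast_nonneg _)
      _ ≤ Real.exp (n * (Real.log 2 - 2 * κ)) := by rw [mul_one]; exact hch n v hv
      _ ≤ _ := by
          apply Real.exp_le_exp.mpr
          apply mul_le_mul_of_nonneg_left _ hn0
          have := min_le_left κ (U (hxy rb))
          linarith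
  · have h2 := choose_pow_le n v hr0.le hvn
    have h3 : (1 + r) ^ n = Real.exp (n * Real.log (1 + r)) := by
      rw [Real.exp_nat_mul, Real.exp_log (by linarith)]
    refine h2.trans ?_
    rw [h3]
    apply Real.exp_le_exp.mpr
    apply mul_le_mul_of_nonneg_left _ hn0
    have h4 : U (hxy rb) ≤ U (hxy r) := by
      apply P.U_mono h0 hyb _ (hxy_lt hr0)
      unfold hxy
      rw [div_le_div_iff₀ (by linarith) (by linarith)]
      nlinarith
    have := min_le_right κ (U (hxy rb))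
    unfold hxU
    linarith

/-- **few pairs at distance `n - v`** -/
theorem hi_all {δ : ℝ} {U g : ℝ → ℝ} (P : Pot δ U g) (h0 : 0 < δ) (h1 : δ < 1 / 2)
    (hR0 : 0 < Tensor.ell δ) : ∃ κ : ℝ, 0 < κ ∧ ∃ ε : ℝ, 0 < ε ∧ ∃ n0 : ℕ, ∀ n ≥ n0,
    ∀ C : Finset (Wd n), IsCode ⌈δ * n⌉₊ C → pw n (Tensor.ell δ - ε) ≤ C.card →
    ∀ v : ℕ, v < ⌈δ * n⌉₊ → (Nw C (n - v) : ℝ) ≤ (C.card : ℝ) ^ 2 * Real.exp (-(κ * n)) := by
  have hlog : 0 < Real.log 2 := Real.log_pos (by norm_num)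
  obtain ⟨κ, hκ, hch⟩ := choose_hxU P h0 h1
  set κ' : ℝ := min (κ / 2) (Tensor.ell δ * Real.log 2 / 2) with hκ'
  have hκ'0 : 0 < κ' := lt_min (by positivity) (by positivity)
  have hκ'1 : κ' ≤ κ / 2 := min_le_left _ _
  have hκ'2 : κ' ≤ Tensor.ell δ * Real.log 2 / 2 := min_le_right _ _
  obtain ⟨ε, hε⟩ : ∃ ε : ℝ, ε = min (κ / (4 * Real.log 2)) (Tensor.ell δ / 2) := ⟨_, rfl⟩
  have hε0 : 0 < ε := by rw [hε]; exact lt_min (by positivity) (by positivity)
  have hε1 : ε ≤ κ / (4 * Real.log 2) := by rw [hε]; exact min_le_left _ _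
  have hε2 : ε ≤ Tensor.ell δ / 2 := by rw [hε]; exact min_le_right _ _
  have hε3 : 2 * ε * Real.log 2 ≤ κ / 2 := by
    have := mul_le_mul_of_nonneg_right hε1 (show 0 ≤ 2 * Real.log 2 by positivity)
    have e : κ / (4 * Real.log 2) * (2 * Real.log 2) = κ / 2 := by field_simp; ring
    rw [e] at this
    linarith
  obtain ⟨n1, hhx⟩ := hhx_gen P h0 h1 ε (δ / 2) hε0 (by positivity) (by linarith)
  obtain ⟨n2, hceil⟩ := two_ceil_le h0 h1
  refine ⟨κ', hκ'0, ε, hε0, n1 + n2 + 1, fun n hn C hC hcard v hv => ?_⟩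
  have hnpos : (0 : ℝ) < (n : ℝ) := by
    have : 0 < n := by omega
    exact_mod_cast this
  have h2d := hceil n (by omega)
  have hvδ : (v : ℝ) ≤ δ * n := (Nat.lt_ceil.mp hv).le
  set d : ℕ := ⌈δ * n⌉₊ with hdd
  have h2dn : 2 * d ≤ n := by
    have : (2 * d : ℝ) ≤ n := by nlinarith
    exact_mod_cast this
  have hvn : v ≤ n := by omega
  have hM : (0 : ℝ) ≤ C.card := Nat.cast_nonneg _
  rcases lt_or_ge (2 * v) d with hvd | hvd
  · have h3 : (Nw C (n - v) : ℝ) ≤ C.card := by exact_mod_cast nw_small hC hvd hvn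
    have h4 : 1 ≤ (C.card : ℝ) * Real.exp (-(κ' * n)) := by
      have h5 : Real.exp (κ' * n) ≤ pw n (Tensor.ell δ - ε) := by
        rw [HBaux.pw_exp]
        apply Real.exp_le_exp.mpr
        apply mul_le_mul_of_nonneg_right _ hnpos.le
        nlinarith
      have h6 : Real.exp (κ' * n) ≤ C.card := h5.trans hcard
      calc (1 : ℝ) = Real.exp (κ' * n) * Real.exp (-(κ' * n)) := by
            rw [← Real.exp_add, add_neg_cancel, Real.exp_zero]
        _ ≤ _ := mul_le_mul_of_nonneg_right h6 (Real.exp_pos _).le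
    calc (Nw C (n - v) : ℝ) ≤ C.card * 1 := by rw [mul_one]; exact h3
      _ ≤ C.card * (C.card * Real.exp (-(κ' * n))) := mul_le_mul_of_nonneg_left h4 hM
      _ = _ := by ring
  · have hηv : δ / 2 * n ≤ v := by
      have h3 : δ * (n : ℝ) ≤ d := Nat.le_ceil _
      have h4 : (d : ℝ) ≤ 2 * v := by exact_mod_cast hvd
      linarith
    obtain ⟨r, hr1, hr2, hX⟩ := hhx n (by omega) C hC v hv hηv
    have hr0 : 0 < r := lt_of_lt_of_le (by positivity) hr1
    have h3 := hch n v r hvδ hr0 hr2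
    have h4 : (Nw C (n - v) : ℝ) * Real.exp (n * hxU U r) ≤
        (C.card * pw n (Tensor.ell δ + ε) * Real.exp (-(κ * n))) * Real.exp (n * hxU U r) := by
      calc (Nw C (n - v) : ℝ) * Real.exp (n * hxU U r)
          ≤ C.card * pw n (Tensor.ell δ + ε) * r ^ v * n.choose v := hX
        _ = C.card * pw n (Tensor.ell δ + ε) * (n.choose v * r ^ v) := by ring
        _ ≤ C.card * pw n (Tensor.ell δ + ε) * Real.exp (n * (hxU U r - κ)) := by
            apply mul_le_mul_of_nonneg_left h3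
            exact mul_nonneg hM (pw_pos n _).le
        _ = _ := by
            rw [mul_assoc _ (Real.exp (-(κ * n))), ← Real.exp_add]
            congr 2
            ring
    have h5 := le_of_mul_le_mul_right h4 (Real.exp_pos _)
    have e1 : pw n (Tensor.ell δ + ε) = pw n (Tensor.ell δ - ε) * pw n (2 * ε) := by
      rw [← pw_add]; congr 1; ring
    have e2 : pw n (2 * ε) * Real.exp (-(κ * n)) ≤ Real.exp (-(κ' * n)) := by
      rw [HBaux.pw_exp, ← Real.exp_add]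
      apply Real.exp_le_exp.mpr
      nlinarith
    calc (Nw C (n - v) : ℝ) ≤ C.card * pw n (Tensor.ell δ + ε) * Real.exp (-(κ * n)) := h5
      _ = (C.card * pw n (Tensor.ell δ - ε)) * (pw n (2 * ε) * Real.exp (-(κ * n))) := by
          rw [e1]; ring
      _ ≤ (C.card * C.card) * Real.exp (-(κ' * n)) := by
          apply mul_le_mul (mul_le_mul_of_nonneg_left hcard hM) e2 (by
            have := pw_pos n (2 * ε)
            positivity) (by positivity)
      _ = _ := by ring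

/-- hypothesis `hi` of the abstract theorem for a window around `1/2`, every `δ` -/
theorem hi_half_all {δ : ℝ} {U g : ℝ → ℝ} (P : Pot δ U g) (h0 : 0 < δ) (h1 : δ < 1 / 2)
    (hR0 : 0 < Tensor.ell δ) : ∃ κ : ℝ, 0 < κ ∧ ∀ ta tb ρ κ2 : ℝ, 0 ≤ ta → ta ≤ tb → tb ≤ 1 →
      1 / 2 - ρ ≤ ta → tb ≤ 1 / 2 + ρ → 2 * ρ + κ2 < κ →
    ∃ ε2 : ℝ, 0 < ε2 ∧ ∃ n2 : ℕ, ∀ n ≥ n2, ∀ C : Finset (Wd n), IsCode ⌈δ * n⌉₊ C →
      pw n (Tensor.ell δ - ε2) ≤ C.card →
      ∑ w ∈ (range (n + 1)).filter (fun w => n < w + ⌈δ * n⌉₊), (Nw C w : ℝ) * bw n ta tb w ≤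
          (C.card : ℝ) ^ 2 * ((1 / 2) ^ n * Real.exp (-(κ2 * n))) := by
  obtain ⟨κ, hκ, ε, hε, n0, H⟩ := hi_all P h0 h1 hR0
  refine ⟨κ, hκ, fun ta tb ρ κ2 hta hab htb hl hu hk => ?_⟩
  have hρ : 0 ≤ ρ := by linarith
  set t : ℝ := (κ - 2 * ρ - κ2) / 2 with ht
  have ht0 : 0 < t := by rw [ht]; linarith
  obtain ⟨n1, hn1⟩ := hx_lin 1 ht0
  refine ⟨ε, hε, n0 + n1 + 1, fun n hn C hC hcard => ?_⟩
  have hn0 : (0 : ℝ) ≤ n := Nat.cast_nonneg n
  have hlin := hn1 n (by omega)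
  rw [one_mul] at hlin
  have hM : (0 : ℝ) ≤ (C.card : ℝ) ^ 2 := by positivity
  have hpow : (1 / 2 + ρ) ^ n ≤ (1 / 2) ^ n * Real.exp (2 * ρ * n) := by
    have e1 : 1 / 2 + ρ = 1 / 2 * (1 + 2 * ρ) := by ring
    rw [e1, mul_pow]
    apply mul_le_mul_of_nonneg_left _ (by positivity)
    have h2 : 1 + 2 * ρ ≤ Real.exp (2 * ρ) := by
      have := Real.add_one_le_exp (2 * ρ)
      linarith
    calc (1 + 2 * ρ) ^ n ≤ Real.exp (2 * ρ) ^ n := pow_le_pow_left₀ (by positivity) h2 n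
      _ = _ := by rw [← Real.exp_nat_mul]; congr 1; ring
  have hterm : ∀ w ∈ (range (n + 1)).filter (fun w => n < w + ⌈δ * n⌉₊),
      (Nw C w : ℝ) * bw n ta tb w ≤ (C.card : ℝ) ^ 2 * Real.exp (-(κ * n)) *
        (((n : ℝ) + 1) * ((1 / 2) ^ n * Real.exp (2 * ρ * n))) := by
    intro w hw
    rw [mem_filter, mem_range] at hw
    have hwn : w ≤ n := by omega
    have h3 := H n (by omega) C hC hcard (n - w) (by omega)
    rw [Nat.sub_sub_self hwn] at h3
    have h4 := bw_half hwn hta hab htb hl hu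
    have h5 := bw_nonneg (n := n) (w := w) hta hab htb
    apply mul_le_mul h3 _ h5 (by positivity)
    refine h4.trans ?_
    exact mul_le_mul_of_nonneg_left hpow (by positivity)
  have hcardle : ((range (n + 1)).filter (fun w => n < w + ⌈δ * n⌉₊)).card ≤ n + 1 := by
    refine (Finset.card_filter_le _ _).trans ?_
    rw [card_range]
  calc ∑ w ∈ (range (n + 1)).filter (fun w => n < w + ⌈δ * n⌉₊), (Nw C w : ℝ) * bw n ta tb w
      ≤ ((range (n + 1)).filter (fun w => n < w + ⌈δ * n⌉₊)).card •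
        ((C.card : ℝ) ^ 2 * Real.exp (-(κ * n)) *
        (((n : ℝ) + 1) * ((1 / 2) ^ n * Real.exp (2 * ρ * n)))) := Finset.sum_le_card_nsmul _ _ _ hterm
    _ ≤ ((n : ℝ) + 1) * ((C.card : ℝ) ^ 2 * Real.exp (-(κ * n)) *
        (((n : ℝ) + 1) * ((1 / 2) ^ n * Real.exp (2 * ρ * n)))) := by
        rw [nsmul_eq_mul]
        apply mul_le_mul_of_nonneg_right _ (by positivity)
        exact_mod_cast hcardle
    _ = (C.card : ℝ) ^ 2 * ((1 / 2) ^ n * (((n : ℝ) + 1) * ((n : ℝ) + 1) *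
          (Real.exp (-(κ * n)) * Real.exp (2 * ρ * n)))) := by ring
    _ ≤ (C.card : ℝ) ^ 2 * ((1 / 2) ^ n * (Real.exp (t * n) * Real.exp (t * n) *
          (Real.exp (-(κ * n)) * Real.exp (2 * ρ * n)))) := by
        gcongr
    _ = (C.card : ℝ) ^ 2 * ((1 / 2) ^ n * Real.exp (-(κ2 * n))) := by
        rw [← Real.exp_add, ← Real.exp_add, ← Real.exp_add]
        congr 3
        rw [ht]
        ring

/-- the field `high` of `COK` from the pointwise bounds -/
theorem high_sum {c2 : ℝ} (hc : 0 < c2) : ∃ n0 : ℕ, ∀ n ≥ n0, ∀ (d : ℕ) (C : Finset (Wd n))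
    (G : ℕ → ℝ), (∀ v : ℕ, v < d → v ≤ n →
      (Nw C (n - v) : ℝ) * |G (n - v)| / n.choose v ≤ (C.card : ℝ) ^ 2 * Real.exp (-(c2 * n))) →
    ∑ w ∈ (range (n + 1)).filter (fun w => n < w + d), (Nw C w : ℝ) * (|G w| / n.choose w) ≤
      (C.card : ℝ) ^ 2 * Real.exp (-(c2 / 2 * n)) := by
  obtain ⟨n1, hn1⟩ := hx_lin 1 (show 0 < c2 / 2 by positivity)
  refine ⟨n1, fun n hn d C G h => ?_⟩
  have hlin := hn1 n hn
  rw [one_mul] at hlin
  have hterm : ∀ w ∈ (range (n + 1)).filter (fun w => n < w + d),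
      (Nw C w : ℝ) * (|G w| / n.choose w) ≤ (C.card : ℝ) ^ 2 * Real.exp (-(c2 * n)) := by
    intro w hw
    rw [mem_filter, mem_range] at hw
    have hwn : w ≤ n := by omega
    have h3 := h (n - w) (by omega) (Nat.sub_le n w)
    rw [Nat.sub_sub_self hwn, Nat.choose_symm hwn, mul_div_assoc] at h3
    exact h3
  have hcardle : ((range (n + 1)).filter (fun w => n < w + d)).card ≤ n + 1 := by
    refine (Finset.card_filter_le _ _).trans ?_
    rw [card_range]
  calc ∑ w ∈ (range (n + 1)).filter (fun w => n < w + d), (Nw C w : ℝ) * (|G w| / n.choose w)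
      ≤ ((range (n + 1)).filter (fun w => n < w + d)).card •
        ((C.card : ℝ) ^ 2 * Real.exp (-(c2 * n))) := Finset.sum_le_card_nsmul _ _ _ hterm
    _ ≤ ((n : ℝ) + 1) * ((C.card : ℝ) ^ 2 * Real.exp (-(c2 * n))) := by
        rw [nsmul_eq_mul]
        apply mul_le_mul_of_nonneg_right _ (by positivity)
        exact_mod_cast hcardle
    _ ≤ Real.exp (c2 / 2 * n) * ((C.card : ℝ) ^ 2 * Real.exp (-(c2 * n))) :=
        mul_le_mul_of_nonneg_right hlin (by positivity)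
    _ = (C.card : ℝ) ^ 2 * (Real.exp (c2 / 2 * n) * Real.exp (-(c2 * n))) := by ring
    _ = _ := by
        rw [← Real.exp_add]
        congr 2
        ring

/-- **High weights**, two regimes: a fixed gain `c` against `2^n` (used for `r` near `1`), and a gain
`c'` against the critical potential on `[δ/4, rb]` only, `rb` depending on `c`. -/
theorem high_gen2 {δ : ℝ} {U g : ℝ → ℝ} (P : Pot δ U g) (h0 : 0 < δ) (h1 : δ < 1 / 2) (c : ℝ)
    (hc : 0 < c) : ∃ rb : ℝ, 0 < rb ∧ rb < 1 ∧ ∀ c' : ℝ, 0 < c' →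
    ∃ ε : ℝ, 0 < ε ∧ ∃ c2 : ℝ, 0 < c2 ∧ ∃ n0 : ℕ, ∀ n ≥ n0,
    ∀ C : Finset (Wd n), IsCode ⌈δ * n⌉₊ C → pw n (Tensor.ell δ - ε) ≤ C.card →
    ∀ v : ℕ, v < ⌈δ * n⌉₊ → ∀ γ : ℝ, 0 ≤ γ →
      γ ≤ pw n (Tensor.ell δ) * Real.exp (-(c * n)) * n.choose v →
      γ ≤ 2 ^ n * Real.exp (-(c * n)) →
      (∀ r : ℝ, δ / 4 ≤ r → r ≤ rb → γ * r ^ v ≤ Real.exp (n * (hxU U r - c'))) →
      Nw C (n - v) * γ / n.choose v ≤ (C.card : ℝ) ^ 2 * Real.exp (-(c2 * n)) := by
  obtain ⟨rb, hrb0, hrb1, hrb⟩ := P.hxU_near (show 0 < c / 2 by positivity)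
  refine ⟨rb, hrb0, hrb1, fun c' hc' => ?_⟩
  obtain ⟨cm, hcm⟩ : ∃ cm : ℝ, cm = min (c / 2) c' := ⟨_, rfl⟩
  have hcm0 : 0 < cm := by rw [hcm]; exact lt_min (by positivity) hc'
  have hcm1 : cm ≤ c / 2 := by rw [hcm]; exact min_le_left _ _
  have hcm2 : cm ≤ c' := by rw [hcm]; exact min_le_right _ _
  obtain ⟨ε, hε, c2, hc2, n0, H⟩ := high_gen P h0 h1 cm hcm0
  refine ⟨ε, hε, c2, hc2, n0, fun n hn C hC hcard v hv γ hγ hS hB hA => ?_⟩
  have hn0 : (0 : ℝ) ≤ n := Nat.cast_nonneg n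
  apply H n hn C hC hcard v hv γ hγ
  · refine hS.trans ?_
    apply mul_le_mul_of_nonneg_right _ (Nat.cast_nonneg _)
    apply mul_le_mul_of_nonneg_left _ (pw_pos n _).le
    apply Real.exp_le_exp.mpr
    nlinarith
  · intro r hr1 hr2
    have hr0 : 0 < r := lt_of_lt_of_le (by positivity) hr1
    rcases le_or_gt r rb with h | h
    · refine (hA r hr1 h).trans ?_
      apply Real.exp_le_exp.mpr
      apply mul_le_mul_of_nonneg_left _ hn0
      linarith
    · have h3 := hrb r h.le hr2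
      have h4 : r ^ v ≤ 1 := pow_le_one₀ hr0.le hr2.le
      have h5 : (2 : ℝ) ^ n = Real.exp (n * Real.log 2) := by
        rw [Real.exp_nat_mul, Real.exp_log (by norm_num)]
      calc γ * r ^ v ≤ γ * 1 := mul_le_mul_of_nonneg_left h4 hγ
        _ ≤ 2 ^ n * Real.exp (-(c * n)) := by rw [mul_one]; exact hB
        _ = Real.exp (n * (Real.log 2 - c)) := by
            rw [h5, ← Real.exp_add]
            congr 1
            ring
        _ ≤ _ := by
            apply Real.exp_le_exp.mpr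
            apply mul_le_mul_of_nonneg_left _ hn0
            linarith

end Pool.Agent.Lib.MP_0430e4_lc.AC
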