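import Pool.Agent.Lib.MP_0430e4_lc.AC.HX5
import Pool.Agent.Lib.MP_0430e4_lc.BY.P.N04
import Pool.Agent.Lib.MP_0430e4_lc.BY.P.N05

/-!
Project ALLCODES, high weights (helper30), part 6: from bounds of a polynomial on circles, with a
rectangle over one sector `[p1, p4]`, to the field `high` of `COK`.
-/

set_option autoImplicit false

open Finset Filter Topology Polynomial

namespace Pool.Agent.Lib.MP_0430e4_lc.AC

open BY

/-- Jensen: `2^n r^(δ n) ≤ Pfr (hatW f) r` -/
theorem hx_jensen {n : ℕ} {δ l : ℝ} {f : Wd n → ℝ} (hW : WCert l f) (hl : (1 - 2 * δ) * n ≤ l)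
    {r : ℝ} (hr0 : 0 < r) (hr1 : r ≤ 1) :
    Real.exp (n * (Real.log 2 + δ * Real.log r)) ≤ Pfr (hatW f) r := by
  set a : ℝ := Real.log r with ha
  have ha0 : a ≤ 0 := Real.log_nonpos hr0.le hr1
  have h1 : ∀ x : Wd n, Real.exp (δ * n * a) * ((1 + a * (wt x - δ * n)) * hatW f x) ≤
      hatW f x * r ^ wt x := by
    intro x
    have h2 : r ^ wt x = Real.exp (δ * n * a) * Real.exp (a * (wt x - δ * n)) := by
      rw [← Real.exp_add]
      have : δ * n * a + a * (wt x - δ * n) = wt x * a := by ring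
      rw [this, Real.exp_nat_mul, ha, Real.exp_log hr0]
    have h3 := Real.add_one_le_exp (a * (wt x - δ * n))
    have h4 := hW.hat x
    rw [h2]
    calc Real.exp (δ * n * a) * ((1 + a * (wt x - δ * n)) * hatW f x)
        ≤ Real.exp (δ * n * a) * (Real.exp (a * (wt x - δ * n)) * hatW f x) := by
          apply mul_le_mul_of_nonneg_left _ (Real.exp_pos _).le
          apply mul_le_mul_of_nonneg_right _ h4
          linarith
      _ = _ := by ring
  have h2 : ∑ x : Wd n, hatW f x = 2 ^ n := by rw [sum_hatW, hW.one, mul_one]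
  have h3 : (2 : ℝ) ^ n * l ≤ ∑ x, ((n : ℝ) - 2 * wt x) * hatW f x := by
    have h4 : ∑ x : Wd n, ((n : ℝ) - 2 * wt x) * hatW f x =
        ∑ x, hatW (fun y => ∑ i, f (y + sing i)) x := by
      apply Finset.sum_congr rfl
      intro x _
      rw [hatW_adj]
    rw [h4, sum_hatW]
    apply mul_le_mul_of_nonneg_left _ (by positivity)
    have h5 := hW.adj 0
    rw [hW.one, mul_one] at h5
    exact h5
  have h4 : ∑ x : Wd n, (1 + a * (wt x - δ * n)) * hatW f x = 2 ^ n * (1 - a * (δ * n) + a * n / 2) -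
      a / 2 * ∑ x, ((n : ℝ) - 2 * wt x) * hatW f x := by
    rw [← h2, Finset.sum_mul, Finset.mul_sum, ← Finset.sum_sub_distrib]
    apply Finset.sum_congr rfl
    intro x _
    ring
  have h5 : (2 : ℝ) ^ n ≤ ∑ x : Wd n, (1 + a * (wt x - δ * n)) * hatW f x := by
    rw [h4]
    have h6 : -(a / 2) * (2 ^ n * ((1 - 2 * δ) * n)) ≤
        -(a / 2) * ∑ x, ((n : ℝ) - 2 * wt x) * hatW f x := by
      apply mul_le_mul_of_nonneg_left _ (by linarith)
      refine le_trans ?_ h3
      exact mul_le_mul_of_nonneg_left hl (by positivity)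
    linarith
  have h6 : Real.exp (n * (Real.log 2 + δ * a)) = Real.exp (δ * n * a) * 2 ^ n := by
    have : (2 : ℝ) ^ n = Real.exp (n * Real.log 2) := by
      rw [Real.exp_nat_mul, Real.exp_log (by norm_num)]
    rw [this, ← Real.exp_add]
    congr 1
    ring
  rw [h6]
  unfold Pfr
  calc Real.exp (δ * n * a) * 2 ^ n
      ≤ Real.exp (δ * n * a) * ∑ x : Wd n, (1 + a * (wt x - δ * n)) * hatW f x :=
        mul_le_mul_of_nonneg_left h5 (Real.exp_pos _).le
    _ = ∑ x : Wd n, Real.exp (δ * n * a) * ((1 + a * (wt x - δ * n)) * hatW f x) := by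
        rw [Finset.mul_sum]
    _ ≤ _ := Finset.sum_le_sum fun x _ => h1 x

/-- the weight potential is at least the line of slope `δ` through `log 2` -/
theorem hxU_ge {δ : ℝ} {U g : ℝ → ℝ} (P : Pot δ U g) (h0 : 0 < δ) {r : ℝ} (hr0 : 0 < r)
    (hr1 : r < 1) : Real.log 2 + δ * Real.log r ≤ hxU U r := by
  by_contra hcon
  push Not at hcon
  set β : ℝ := (Real.log 2 + δ * Real.log r - hxU U r) / 2 with hβ
  have hβ0 : 0 < β := by rw [hβ]; linarith
  obtain ⟨a, ha, n1, H⟩ := P.ub (hxy r) β (hxy_pos hr0 hr1) (hxy_lt hr0) hβ0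
  obtain ⟨c, hc, -, -, n2, hnear⟩ := near_gen h0 a ha
  obtain ⟨f, H', -, hW, hs⟩ := hnear (n1 + n2 + 1) (by omega)
  have hlev : (1 - 2 * δ) * ((n1 + n2 + 1 : ℕ) : ℝ) ≤ (1 - 2 * δ + c) * ((n1 + n2 + 1 : ℕ) : ℝ) := by
    apply mul_le_mul_of_nonneg_right _ (Nat.cast_nonneg _)
    linarith
  have h1 := H (n1 + n2 + 1) (by omega) _ f hW hlev hs
  have h2 := hx_jensen hW hlev hr0 hr1.le
  rw [Pfr_hatW f hr0] at h2
  have hr2 : (0 : ℝ) < 1 + r := by linarith
  have h3 : (1 + r) ^ (n1 + n2 + 1) = Real.exp ((n1 + n2 + 1 : ℕ) * Real.log (1 + r)) := by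
    rw [Real.exp_nat_mul, Real.exp_log hr2]
  have h4 : Real.exp ((n1 + n2 + 1 : ℕ) * (Real.log 2 + δ * Real.log r)) ≤
      Real.exp ((n1 + n2 + 1 : ℕ) * (hxU U r + β)) := by
    refine h2.trans ?_
    rw [h3]
    calc Real.exp ((n1 + n2 + 1 : ℕ) * Real.log (1 + r)) * Pfr f (hxy r)
        ≤ Real.exp ((n1 + n2 + 1 : ℕ) * Real.log (1 + r)) *
          Real.exp ((n1 + n2 + 1 : ℕ) * (U (hxy r) + β)) :=
          mul_le_mul_of_nonneg_left h1 (Real.exp_pos _).le
      _ = _ := by
          rw [← Real.exp_add]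
          congr 1
          unfold hxU
          ring
  rw [Real.exp_le_exp] at h4
  have hn : (0 : ℝ) < ((n1 + n2 + 1 : ℕ) : ℝ) := by positivity
  have h5 := le_of_mul_le_mul_left h4 hn
  linarith

/-- A coefficient of a real polynomial, from the circle of radius `exp σ` off the sector `[p1,p4]`,
the circle of radius `exp τ` on the sector, and the radial edges. -/
theorem coeff_rect (G : ℝ[X]) {σ τ p1 p4 A : ℝ} (w : ℕ) (h0 : 0 ≤ p1) (hab : p1 ≤ p4)
    (hpi : p4 ≤ Real.pi)
    (hfar : ∀ φ : ℝ, 0 ≤ φ → φ ≤ Real.pi → (φ ≤ p1 ∨ p4 ≤ φ) →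
      ‖G.aeval (up σ φ)‖ * Real.exp (-σ * w) ≤ A)
    (harc : ∀ φ : ℝ, p1 ≤ φ → φ ≤ p4 → ‖G.aeval (up τ φ)‖ * Real.exp (-τ * w) ≤ A)
    (hedge : ∀ s ∈ Set.uIcc σ τ, ∀ φ : ℝ, (φ = p1 ∨ φ = p4) →
      ‖G.aeval (up s φ)‖ * Real.exp (-s * w) ≤ A) :
    |G.coeff w| ≤ (2 + |τ - σ|) * A := by
  have hpp : 0 < Real.pi := Real.pi_pos
  have hA0 : 0 ≤ A := le_trans (mul_nonneg (norm_nonneg _) (Real.exp_pos _).le)
    (hfar 0 le_rfl hpp.le (Or.inl h0))
  have h1 := coeff_split G (σ := σ) (pa := p1) (pb := p4) (A := A * Real.exp (σ * w)) w h0 hab hpi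
    (by
      intro φ hφ0 hφ1 hφ2
      have h2 := hfar φ hφ0 hφ1 hφ2
      have h3 : Real.exp (-σ * w) * Real.exp (σ * w) = 1 := by
        rw [← Real.exp_add]; simp
      calc ‖G.aeval (up σ φ)‖ = ‖G.aeval (up σ φ)‖ * (Real.exp (-σ * w) * Real.exp (σ * w)) := by
            rw [h3, mul_one]
        _ = ‖G.aeval (up σ φ)‖ * Real.exp (-σ * w) * Real.exp (σ * w) := by ring
        _ ≤ _ := mul_le_mul_of_nonneg_right h2 (Real.exp_pos _).le)
  have h3 : A * Real.exp (σ * w) * Real.exp (-σ * w) = A := by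
    rw [mul_assoc, ← Real.exp_add]; simp
  rw [h3] at h1
  -- the sector
  set H : ℂ → ℂ := fun z => G.aeval (Complex.exp z) * Complex.exp (-(w : ℂ) * z) with hH
  have hHd : Differentiable ℂ H := by
    apply Differentiable.mul
    · exact (Polynomial.differentiable_aeval G).comp Complex.differentiable_exp
    · fun_prop
  have hHn : ∀ s φ : ℝ, ‖H ((s : ℂ) + (φ : ℂ) * Complex.I)‖ =
      ‖G.aeval (up s φ)‖ * Real.exp (-s * w) := by
    intro s φ
    simp only [hH]
    rw [norm_mul, Complex.norm_exp]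
    have h4 : (-(w : ℂ) * ((s : ℂ) + (φ : ℂ) * Complex.I)).re = -s * w := by
      simp
      ring
    rw [h4]
    rfl
  have h4 := rect_le hHd (s0 := σ) (s1 := τ) (pa := p1) (pb := p4) (A := A) (Ba := A) (Bb := A) hab
    (fun φ h5 h6 => by rw [hHn]; exact harc φ h5 h6)
    (fun s hs => by rw [hHn]; exact hedge s hs p1 (Or.inl rfl))
    (fun s hs => by rw [hHn]; exact hedge s hs p4 (Or.inr rfl))
  have h5 : nr G σ p1 p4 w = ∫ φ in p1..p4, H ((σ : ℂ) + (φ : ℂ) * Complex.I) := rfl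
  rw [← h5] at h4
  have h6 : |(nr G σ p1 p4 w).re / Real.pi| ≤ (1 + |τ - σ|) * A := by
    rw [abs_div, abs_of_pos hpp, div_le_iff₀ hpp]
    have h7 := (Complex.abs_re_le_norm (nr G σ p1 p4 w)).trans h4
    have h8 : 0 ≤ |τ - σ| * A := mul_nonneg (abs_nonneg _) hA0
    have h9 : (p4 - p1) * A ≤ Real.pi * A := mul_le_mul_of_nonneg_right (by linarith) hA0
    have hpi3 := Real.pi_gt_three
    linarith [mul_nonneg (sub_nonneg.2 hpi3.le) h8]
  have h7 := abs_le.mp h1
  have h8 := abs_le.mp h6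
  rw [abs_le]
  constructor <;> linarith [h7.1, h7.2, h8.1, h8.2]

/-- What is needed of `G` for the high weights: `σ` the small radius of the far bound, `τ` the size of
the rectangle over the sector `[p1,p4]`, `η` the height of the bump, `ωb` the slope, `rb < 1`. -/
structure HOK (n : ℕ) (G : ℝ[X]) (U : ℝ → ℝ) (δ σ τ η c e c' ωb p1 p4 rb : ℝ) : Prop where
  top : ∀ w ≤ n, |G.coeff w| ≤ pw n (Tensor.ell δ) * Real.exp (-(c * n)) * n.choose w
  far : ∀ φ : ℝ, 0 ≤ φ → φ ≤ Real.pi → (φ ≤ p1 ∨ p4 ≤ φ) →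
    ‖G.aeval (up σ φ)‖ ≤ 2 ^ n * Real.exp (n * (σ * (1 - δ) - c))
  out : ∀ φ : ℝ, p1 ≤ φ → φ ≤ p4 → ‖G.aeval (up τ φ)‖ ≤ 2 ^ n * Real.exp (n * (τ * ωb + η))
  edge : ∀ s φ : ℝ, 0 ≤ s → s ≤ τ → (φ = p1 ∨ φ = p4) →
    ‖G.aeval (up s φ)‖ ≤ 2 ^ n * Real.exp (n * (s * ωb - e))
  high : ∀ r : ℝ, δ / 4 ≤ r → r ≤ rb → ∀ φ : ℝ, 0 ≤ φ → φ ≤ Real.pi →
    (-Real.log r < τ → φ ≤ p1 ∨ p4 ≤ φ) →
    ‖G.aeval (up (-Real.log r) φ)‖ ≤ Real.exp (n * (-Real.log r + hxU U r - c'))

/-- **The field `high` of `COK`** for every `δ`. -/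
theorem high_of_circles {δ : ℝ} {U g : ℝ → ℝ} (P : Pot δ U g) (h0 : 0 < δ) (h1 : δ < 1 / 2)
    {σ τ η c e ωb p1 p4 : ℝ} (hσ : 0 ≤ σ) (hστ : σ ≤ τ) (hc : 0 < c) (he : 0 < e)
    (hωb : ωb ≤ 1 - δ) (hη : η < τ * (1 - δ - ωb))
    (hp0 : 0 ≤ p1) (hp1 : p1 ≤ p4) (hp4 : p4 ≤ Real.pi) :
    ∃ rb : ℝ, 0 < rb ∧ rb < 1 ∧ ∀ c' : ℝ, 0 < c' → ∃ ε : ℝ, 0 < ε ∧ ∃ κ : ℝ, 0 < κ ∧ ∃ n0 : ℕ,
    ∀ n ≥ n0, ∀ C : Finset (Wd n), IsCode ⌈δ * n⌉₊ C → pw n (Tensor.ell δ - ε) ≤ C.card →
    ∀ G : ℝ[X], HOK n G U δ σ τ η c e c' ωb p1 p4 rb →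
      ∑ w ∈ (range (n + 1)).filter (fun w => n < w + ⌈δ * n⌉₊),
        (Nw C w : ℝ) * (|G.coeff w| / n.choose w) ≤
          (C.card : ℝ) ^ 2 * Real.exp (-(κ * n)) := by
  have hτ0 : 0 ≤ τ := hσ.trans hστ
  -- the fixed gain
  obtain ⟨c0, hc0⟩ : ∃ c0 : ℝ, c0 = min (min c e) (τ * (1 - δ - ωb) - η) := ⟨_, rfl⟩
  have hc00 : 0 < c0 := by rw [hc0]; exact lt_min (lt_min hc he) (by linarith)
  have hc01 : c0 ≤ c := by rw [hc0]; exact (min_le_left _ _).trans (min_le_left _ _)
  have hc02 : c0 ≤ e := by rw [hc0]; exact (min_le_left _ _).trans (min_le_right _ _)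
  have hc03 : c0 ≤ τ * (1 - δ - ωb) - η := by rw [hc0]; exact min_le_right _ _
  obtain ⟨rb, hrb0, hrb1, H⟩ := high_gen2 P h0 h1 (c0 / 2) (by positivity)
  refine ⟨rb, hrb0, hrb1, fun c' hc' => ?_⟩
  obtain ⟨c1, hc1⟩ : ∃ c1 : ℝ, c1 = min c' c0 := ⟨_, rfl⟩
  have hc10 : 0 < c1 := by rw [hc1]; exact lt_min hc' hc00
  have hc11 : c1 ≤ c' := by rw [hc1]; exact min_le_left _ _
  have hc12 : c1 ≤ c0 := by rw [hc1]; exact min_le_right _ _
  obtain ⟨ε, hε, c2, hc2, n1, H2⟩ := H (c1 / 2) (by positivity)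
  obtain ⟨n2, hsum⟩ := high_sum hc2
  obtain ⟨n3, hlin⟩ := hx_lin (2 + τ + |Real.log (δ / 4)|) (show 0 < c1 / 2 by positivity)
  refine ⟨ε, hε, c2 / 2, by positivity, n1 + n2 + n3, fun n hn C hC hcard G hG => ?_⟩
  have hn0 : (0 : ℝ) ≤ n := Nat.cast_nonneg n
  have hT : 2 + τ + |Real.log (δ / 4)| ≤ Real.exp (c1 / 2 * n) := by
    refine le_trans ?_ (hlin n (by omega))
    have : 0 ≤ |Real.log (δ / 4)| := abs_nonneg _
    nlinarith
  have h2n : (2 : ℝ) ^ n = Real.exp (n * Real.log 2) := by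
    rw [Real.exp_nat_mul, Real.exp_log (by norm_num)]
  apply hsum n (by omega) ⌈δ * n⌉₊ C (fun w => G.coeff w)
  intro v hv hvn
  have hvδ : (v : ℝ) ≤ δ * n := (Nat.lt_ceil.mp hv).le
  have hwc : ((n - v : ℕ) : ℝ) = n - v := by rw [Nat.cast_sub hvn]
  have hδn : (1 - δ) * (n : ℝ) ≤ ((n - v : ℕ) : ℝ) := by rw [hwc]; linarith
  have hchs : n.choose (n - v) = n.choose v := Nat.choose_symm hvn
  apply H2 n (by omega) C hC hcard v hv |G.coeff (n - v)| (abs_nonneg _)
  · -- the small weights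
    have h3 := hG.top (n - v) (Nat.sub_le n v)
    rw [hchs] at h3
    refine h3.trans ?_
    apply mul_le_mul_of_nonneg_right _ (Nat.cast_nonneg _)
    apply mul_le_mul_of_nonneg_left _ (pw_pos n _).le
    apply Real.exp_le_exp.mpr
    linarith [mul_le_mul_of_nonneg_right hc01 hn0, mul_nonneg hc00.le hn0]
  · -- against `2^n`
    have h3 := coeff_rect G (σ := σ) (τ := τ) (p1 := p1) (p4 := p4)
      (A := 2 ^ n * Real.exp (-(c0 * n))) (n - v) hp0 hp1 hp4 (by
        intro φ hφ0 hφ1 hφ2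
        have h4 := hG.far φ hφ0 hφ1 hφ2
        calc ‖G.aeval (up σ φ)‖ * Real.exp (-σ * ((n - v : ℕ) : ℝ))
            ≤ 2 ^ n * Real.exp (n * (σ * (1 - δ) - c)) * Real.exp (-σ * ((n - v : ℕ) : ℝ)) :=
              mul_le_mul_of_nonneg_right h4 (Real.exp_pos _).le
          _ = 2 ^ n * Real.exp (n * (σ * (1 - δ) - c) + -σ * ((n - v : ℕ) : ℝ)) := by
              rw [mul_assoc, ← Real.exp_add]
          _ ≤ _ := by
              apply mul_le_mul_of_nonneg_left _ (by positivity)
              apply Real.exp_le_exp.mpr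
              linarith [mul_le_mul_of_nonneg_left hδn hσ, mul_le_mul_of_nonneg_right hc01 hn0]) (by
        intro φ hφ0 hφ1
        have h4 := hG.out φ hφ0 hφ1
        calc ‖G.aeval (up τ φ)‖ * Real.exp (-τ * ((n - v : ℕ) : ℝ))
            ≤ 2 ^ n * Real.exp (n * (τ * ωb + η)) * Real.exp (-τ * ((n - v : ℕ) : ℝ)) :=
              mul_le_mul_of_nonneg_right h4 (Real.exp_pos _).le
          _ = 2 ^ n * Real.exp (n * (τ * ωb + η) + -τ * ((n - v : ℕ) : ℝ)) := by
              rw [mul_assoc, ← Real.exp_add]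
          _ ≤ _ := by
              apply mul_le_mul_of_nonneg_left _ (by positivity)
              apply Real.exp_le_exp.mpr
              linarith [mul_le_mul_of_nonneg_left hδn hτ0, mul_le_mul_of_nonneg_right hc03 hn0]) (by
        intro s hs φ hφ
        rw [Set.uIcc_of_le hστ] at hs
        have hs0 : 0 ≤ s := hσ.trans hs.1
        have h4 := hG.edge s φ hs0 hs.2 hφ
        calc ‖G.aeval (up s φ)‖ * Real.exp (-s * ((n - v : ℕ) : ℝ))
            ≤ 2 ^ n * Real.exp (n * (s * ωb - e)) * Real.exp (-s * ((n - v : ℕ) : ℝ)) :=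
              mul_le_mul_of_nonneg_right h4 (Real.exp_pos _).le
          _ = 2 ^ n * Real.exp (n * (s * ωb - e) + -s * ((n - v : ℕ) : ℝ)) := by
              rw [mul_assoc, ← Real.exp_add]
          _ ≤ _ := by
              apply mul_le_mul_of_nonneg_left _ (by positivity)
              apply Real.exp_le_exp.mpr
              have h5 : s * ωb * n ≤ s * (1 - δ) * n :=
                mul_le_mul_of_nonneg_right (mul_le_mul_of_nonneg_left hωb hs0) hn0
              have h6 : s * ((1 - δ) * n) ≤ s * ((n - v : ℕ) : ℝ) := mul_le_mul_of_nonneg_left hδn hs0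
              linarith [mul_le_mul_of_nonneg_right hc02 hn0])
    refine h3.trans ?_
    have h4 : 2 + |τ - σ| ≤ Real.exp (c0 / 2 * n) := by
      rw [abs_of_nonneg (by linarith)]
      have h5 : Real.exp (c1 / 2 * n) ≤ Real.exp (c0 / 2 * n) := by
        apply Real.exp_le_exp.mpr
        linarith [mul_le_mul_of_nonneg_right hc12 hn0]
      have : 0 ≤ |Real.log (δ / 4)| := abs_nonneg _
      linarith
    calc (2 + |τ - σ|) * (2 ^ n * Real.exp (-(c0 * n)))
        ≤ Real.exp (c0 / 2 * n) * (2 ^ n * Real.exp (-(c0 * n))) :=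
          mul_le_mul_of_nonneg_right h4 (by positivity)
      _ = 2 ^ n * (Real.exp (c0 / 2 * n) * Real.exp (-(c0 * n))) := by ring
      _ = _ := by
          rw [← Real.exp_add]
          congr 2
          ring
  · -- against the critical potential
    intro r hr1 hr2
    have hr0 : 0 < r := lt_of_lt_of_le (by positivity) hr1
    have hr3 : r < 1 := lt_of_le_of_lt hr2 hrb1
    obtain ⟨t, ht⟩ : ∃ t : ℝ, t = -Real.log r := ⟨_, rfl⟩
    have ht0 : 0 < t := by rw [ht]; linarith [Real.log_neg hr0 hr3]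
    have hrt : r = Real.exp (-t) := by rw [ht, neg_neg, Real.exp_log hr0]
    have hU := hxU_ge P h0 hr0 hr3
    have hlogr : Real.log r = -t := by rw [ht]; ring
    rw [hlogr] at hU
    have hrv : r ^ v = Real.exp (-(t * v)) := by
      rw [hrt, ← Real.exp_nat_mul]
      congr 1
      ring
    have hhigh := hG.high r hr1 hr2
    rw [← ht] at hhigh
    -- a bound of the coefficient
    have hmain : |G.coeff (n - v)| ≤ (2 + τ + |Real.log (δ / 4)|) *
        Real.exp (n * (hxU U r - c1) + t * v) := by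
      rcases lt_or_ge t τ with htτ | htτ
      · have h3 := coeff_rect G (σ := t) (τ := τ) (p1 := p1) (p4 := p4)
          (A := Real.exp (n * (hxU U r - c1) + t * v)) (n - v) hp0 hp1 hp4 (by
            intro φ hφ0 hφ1 hφ2
            have h4 := hhigh φ hφ0 hφ1 (fun _ => hφ2)
            calc ‖G.aeval (up t φ)‖ * Real.exp (-t * ((n - v : ℕ) : ℝ))
                ≤ Real.exp (n * (t + hxU U r - c')) * Real.exp (-t * ((n - v : ℕ) : ℝ)) :=
                  mul_le_mul_of_nonneg_right h4 (Real.exp_pos _).le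
              _ ≤ _ := by
                  rw [← Real.exp_add, hwc]
                  apply Real.exp_le_exp.mpr
                  linarith [mul_le_mul_of_nonneg_right hc11 hn0]) (by
            intro φ hφ0 hφ1
            have h4 := hG.out φ hφ0 hφ1
            calc ‖G.aeval (up τ φ)‖ * Real.exp (-τ * ((n - v : ℕ) : ℝ))
                ≤ 2 ^ n * Real.exp (n * (τ * ωb + η)) * Real.exp (-τ * ((n - v : ℕ) : ℝ)) :=
                  mul_le_mul_of_nonneg_right h4 (Real.exp_pos _).le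
              _ ≤ _ := by
                  rw [h2n, ← Real.exp_add, ← Real.exp_add, hwc]
                  apply Real.exp_le_exp.mpr
                  have h5 : (n : ℝ) * (Real.log 2 + δ * -t) ≤ n * hxU U r :=
                    mul_le_mul_of_nonneg_left hU hn0
                  have h6 : (τ - t) * (v : ℝ) ≤ (τ - t) * (δ * n) :=
                    mul_le_mul_of_nonneg_left hvδ (by linarith)
                  have h7 : (n : ℝ) * c1 ≤ n * (τ * (1 - δ - ωb) - η) :=
                    mul_le_mul_of_nonneg_left (hc12.trans hc03) hn0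
                  linarith) (by
            intro s hs φ hφ
            rw [Set.uIcc_of_le htτ.le] at hs
            have hs0 : 0 ≤ s := ht0.le.trans hs.1
            have h4 := hG.edge s φ hs0 hs.2 hφ
            calc ‖G.aeval (up s φ)‖ * Real.exp (-s * ((n - v : ℕ) : ℝ))
                ≤ 2 ^ n * Real.exp (n * (s * ωb - e)) * Real.exp (-s * ((n - v : ℕ) : ℝ)) :=
                  mul_le_mul_of_nonneg_right h4 (Real.exp_pos _).le
              _ ≤ _ := by
                  rw [h2n, ← Real.exp_add, ← Real.exp_add, hwc]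
                  apply Real.exp_le_exp.mpr
                  have h5 : (n : ℝ) * (Real.log 2 + δ * -t) ≤ n * hxU U r :=
                    mul_le_mul_of_nonneg_left hU hn0
                  have h6 : (s - t) * (v : ℝ) ≤ (s - t) * (δ * n) :=
                    mul_le_mul_of_nonneg_left hvδ (by linarith [hs.1])
                  have h7 : (n : ℝ) * c1 ≤ n * e :=
                    mul_le_mul_of_nonneg_left (hc12.trans hc02) hn0
                  have h8 : s * ωb * n ≤ s * (1 - δ) * n :=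
                    mul_le_mul_of_nonneg_right (mul_le_mul_of_nonneg_left hωb hs0) hn0
                  linarith)
        refine h3.trans ?_
        apply mul_le_mul_of_nonneg_right _ (Real.exp_pos _).le
        rw [abs_of_pos (by linarith)]
        have : 0 ≤ |Real.log (δ / 4)| := abs_nonneg _
        linarith
      · have h3 := coeff_rect G (σ := t) (τ := t) (p1 := 0) (p4 := 0)
          (A := Real.exp (n * (hxU U r - c1) + t * v)) (n - v) le_rfl le_rfl Real.pi_pos.le (by
            intro φ hφ0 hφ1 hφ2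
            have h4 := hhigh φ hφ0 hφ1 (fun h => absurd h (not_lt.mpr htτ))
            calc ‖G.aeval (up t φ)‖ * Real.exp (-t * ((n - v : ℕ) : ℝ))
                ≤ Real.exp (n * (t + hxU U r - c')) * Real.exp (-t * ((n - v : ℕ) : ℝ)) :=
                  mul_le_mul_of_nonneg_right h4 (Real.exp_pos _).le
              _ ≤ _ := by
                  rw [← Real.exp_add, hwc]
                  apply Real.exp_le_exp.mpr
                  linarith [mul_le_mul_of_nonneg_right hc11 hn0]) (by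
            intro φ hφ0 hφ1
            have h4 := hhigh φ hφ0 (hφ1.trans Real.pi_pos.le) (fun h => absurd h (not_lt.mpr htτ))
            calc ‖G.aeval (up t φ)‖ * Real.exp (-t * ((n - v : ℕ) : ℝ))
                ≤ Real.exp (n * (t + hxU U r - c')) * Real.exp (-t * ((n - v : ℕ) : ℝ)) :=
                  mul_le_mul_of_nonneg_right h4 (Real.exp_pos _).le
              _ ≤ _ := by
                  rw [← Real.exp_add, hwc]
                  apply Real.exp_le_exp.mpr
                  linarith [mul_le_mul_of_nonneg_right hc11 hn0]) (by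
            intro s hs φ hφ
            rw [Set.uIcc_self, Set.mem_singleton_iff] at hs
            have hφ' : φ = 0 := by rcases hφ with h | h <;> exact h
            rw [hs, hφ']
            have h4 := hhigh 0 le_rfl Real.pi_pos.le (fun h => absurd h (not_lt.mpr htτ))
            calc ‖G.aeval (up t 0)‖ * Real.exp (-t * ((n - v : ℕ) : ℝ))
                ≤ Real.exp (n * (t + hxU U r - c')) * Real.exp (-t * ((n - v : ℕ) : ℝ)) :=
                  mul_le_mul_of_nonneg_right h4 (Real.exp_pos _).le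
              _ ≤ _ := by
                  rw [← Real.exp_add, hwc]
                  apply Real.exp_le_exp.mpr
                  linarith [mul_le_mul_of_nonneg_right hc11 hn0])
        refine h3.trans ?_
        apply mul_le_mul_of_nonneg_right _ (Real.exp_pos _).le
        rw [sub_self, abs_zero]
        have : 0 ≤ |Real.log (δ / 4)| := abs_nonneg _
        linarith
    calc |G.coeff (n - v)| * r ^ v
        ≤ (2 + τ + |Real.log (δ / 4)|) * Real.exp (n * (hxU U r - c1) + t * v) * r ^ v :=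
          mul_le_mul_of_nonneg_right hmain (pow_pos hr0 v).le
      _ = (2 + τ + |Real.log (δ / 4)|) * Real.exp (n * (hxU U r - c1)) := by
          rw [hrv, mul_assoc, ← Real.exp_add]
          congr 2
          ring
      _ ≤ Real.exp (c1 / 2 * n) * Real.exp (n * (hxU U r - c1)) :=
          mul_le_mul_of_nonneg_right hT (Real.exp_pos _).le
      _ = Real.exp (n * (hxU U r - c1 / 2)) := by
          rw [← Real.exp_add]
          congr 1
          ring

end Pool.Agent.Lib.MP_0430e4_lc.AC
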