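import Pool.Agent.Lib.MP_0430e4_lc.TensorRate

/-!
Project ALLCODES (helper62): the exponent is at most `1 - 2δ`, and the inequality of the high
weights, `δ log (1 / (2^(1-L) - 1)) < L log 2` for `0 < L ≤ 1 - 2δ`, hence for `L = ell δ`, at every
`δ` in `(0, 1/2)`.

With `a = 2^(-s)`, `s = 1 - 2δ`, `r = L / s`: `(2a - 1)^r + 1 ≤ 2 a^r` (concavity of the power), so
`log (1 / (2^(1-L) - 1)) ≤ r log (1 / (2^(1-s) - 1))`. With `y = 2δ` it remains
`log (2^y - 1) + 2 (1/y - 1) log 2 > 0` on `(0, 1)`: the derivative is negative because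
`2^y (2 - y²) > 2`, and the value at `1` is `0`.
-/

set_option autoImplicit false

open Finset Filter Topology

namespace Pool.Agent.Lib.MP_0430e4_lc.AC

/-- `2 < 2^y (2 - y²)` on `(0, 1)` -/
theorem hi_two {y : ℝ} (h0 : 0 < y) (h1 : y < 1) : 2 < (2 : ℝ) ^ y * (2 - y ^ 2) := by
  have hy2 : y ^ 2 < y := by nlinarith
  -- `2^(1 - y²) ≤ 2 - y²`
  have h2 : (2 : ℝ) ^ (1 - y ^ 2) ≤ 2 - y ^ 2 := by
    have h := rpow_one_add_le_one_add_mul_self (s := 1) (p := 1 - y ^ 2) (by norm_num)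
      (by nlinarith) (by nlinarith)
    norm_num at h
    linarith
  have h3 : (2 : ℝ) ^ (1 : ℝ) < (2 : ℝ) ^ (y + (1 - y ^ 2)) :=
    Real.rpow_lt_rpow_of_exponent_lt (by norm_num) (by linarith)
  rw [Real.rpow_one, Real.rpow_add (by norm_num)] at h3
  exact lt_of_lt_of_le h3 (mul_le_mul_of_nonneg_left h2 (by positivity))

/-- `log (2^y - 1) + 2 (1/y - 1) log 2 > 0` on `(0, 1)` -/
theorem hi_log {y : ℝ} (h0 : 0 < y) (h1 : y < 1) :
    0 < Real.log ((2 : ℝ) ^ y - 1) + 2 * (1 / y - 1) * Real.log 2 := by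
  have hl2 : 0 < Real.log 2 := Real.log_pos (by norm_num)
  set f : ℝ → ℝ := fun x => Real.log ((2 : ℝ) ^ x - 1) + 2 * (1 / x - 1) * Real.log 2 with hf
  have hpos : ∀ x : ℝ, 0 < x → 0 < (2 : ℝ) ^ x - 1 := by
    intro x hx
    have := Real.one_lt_rpow (x := 2) (by norm_num) hx
    linarith
  have hd : ∀ x : ℝ, 0 < x → HasDerivAt f
      ((2 : ℝ) ^ x * Real.log 2 / ((2 : ℝ) ^ x - 1) + 2 * (-(x ^ 2)⁻¹) * Real.log 2) x := by
    intro x hx
    have e1 : HasDerivAt (fun x : ℝ => (2 : ℝ) ^ x - 1) ((2 : ℝ) ^ x * Real.log 2) x := by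
      have := (Real.hasStrictDerivAt_const_rpow (a := 2) (by norm_num) x).hasDerivAt
      exact this.sub_const 1
    have e2 := e1.log (hpos x hx).ne'
    have e3 : HasDerivAt (fun x : ℝ => 2 * (1 / x - 1) * Real.log 2)
        (2 * (-(x ^ 2)⁻¹) * Real.log 2) x := by
      have e4 : HasDerivAt (fun x : ℝ => 1 / x - 1) (-(x ^ 2)⁻¹) x := by
        have := (hasDerivAt_inv hx.ne').sub_const 1
        refine this.congr_of_eventuallyEq ?_
        filter_upwards with z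
        rw [one_div]
      exact (e4.const_mul 2).mul_const _
    exact e2.add e3
  have hneg : ∀ x : ℝ, 0 < x → x < 1 →
      (2 : ℝ) ^ x * Real.log 2 / ((2 : ℝ) ^ x - 1) + 2 * (-(x ^ 2)⁻¹) * Real.log 2 < 0 := by
    intro x hx hx1
    have g1 := hi_two hx hx1
    have g2 := hpos x hx
    have g3 : 0 < x ^ 2 := by positivity
    have e : (2 : ℝ) ^ x * Real.log 2 / ((2 : ℝ) ^ x - 1) + 2 * (-(x ^ 2)⁻¹) * Real.log 2 =
        -(Real.log 2 * (((2 : ℝ) ^ x * (2 - x ^ 2)) - 2)) / (((2 : ℝ) ^ x - 1) * x ^ 2) := by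
      field_simp
      ring
    rw [e]
    apply div_neg_of_neg_of_pos _ (by positivity)
    have : 0 < Real.log 2 * (((2 : ℝ) ^ x * (2 - x ^ 2)) - 2) := mul_pos hl2 (by linarith)
    linarith
  have hanti : StrictAntiOn f (Set.Icc y 1) := by
    apply strictAntiOn_of_deriv_neg (convex_Icc y 1)
    · intro x hx
      exact (hd x (lt_of_lt_of_le h0 hx.1)).continuousAt.continuousWithinAt
    · intro x hx
      rw [interior_Icc] at hx
      rw [(hd x (h0.trans hx.1)).deriv]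
      exact hneg x (h0.trans hx.1) hx.2
  have h2 := hanti (Set.left_mem_Icc.2 h1.le) (Set.right_mem_Icc.2 h1.le) h1
  have h3 : f 1 = 0 := by
    simp only [hf, Real.rpow_one]
    norm_num
  rw [h3] at h2
  exact h2

/-- concavity of the power: `(2a - 1)^r + 1 ≤ 2 a^r` -/
theorem hi_conc {a r : ℝ} (ha : 1 / 2 ≤ a) (hr0 : 0 ≤ r) (hr1 : r ≤ 1) :
    (2 * a - 1) ^ r + 1 ≤ 2 * a ^ r := by
  have hx : (2 * a - 1) ∈ Set.Ici (0 : ℝ) := by
    simp only [Set.mem_Ici]
    linarith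
  have hy : (1 : ℝ) ∈ Set.Ici (0 : ℝ) := Set.mem_Ici.2 zero_le_one
  have h := (Real.concaveOn_rpow hr0 hr1).2 hx hy (show (0 : ℝ) ≤ 1 / 2 by norm_num)
    (show (0 : ℝ) ≤ 1 / 2 by norm_num) (by norm_num)
  simp only [smul_eq_mul, Real.one_rpow] at h
  have e : 1 / 2 * (2 * a - 1) + 1 / 2 * 1 = a := by ring
  rw [e] at h
  linarith

/-- the inequality of the high weights -/
theorem hi_num {δ L : ℝ} (h0 : 0 < δ) (h1 : δ < 1 / 2) (hL0 : 0 < L) (hL1 : L ≤ 1 - 2 * δ) :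
    δ * Real.log (1 / ((2 : ℝ) ^ (1 - L) - 1)) < L * Real.log 2 := by
  have hl2 : 0 < Real.log 2 := Real.log_pos (by norm_num)
  set s : ℝ := 1 - 2 * δ with hs
  have hs0 : 0 < s := by rw [hs]; linarith
  have hs1 : s < 1 := by rw [hs]; linarith
  set r : ℝ := L / s with hr
  have hr0 : 0 < r := by positivity
  have hr1 : r ≤ 1 := by
    rw [hr, div_le_one hs0]
    exact hL1
  have hLr : L = r * s := by
    rw [hr]
    field_simp
  set a : ℝ := (2 : ℝ) ^ (-s) with ha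
  have ha0 : 1 / 2 < a := by
    have h : (2 : ℝ) ^ (-1 : ℝ) < (2 : ℝ) ^ (-s) :=
      Real.rpow_lt_rpow_of_exponent_lt (by norm_num) (by linarith)
    rw [Real.rpow_neg_one] at h
    linarith
  have hc := hi_conc ha0.le hr0.le hr1
  have e1 : 2 * a ^ r = (2 : ℝ) ^ (1 - L) := by
    rw [ha, ← Real.rpow_mul (by norm_num), sub_eq_add_neg, Real.rpow_add (by norm_num),
      Real.rpow_one]
    congr 2
    rw [hLr]
    ring
  have e2 : 2 * a = (2 : ℝ) ^ (2 * δ) := by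
    have : (2 : ℝ) ^ (2 * δ) = (2 : ℝ) ^ (1 + -s) := by
      congr 1
      rw [hs]
      ring
    rw [this, Real.rpow_add (by norm_num), Real.rpow_one]
  have hpos : 0 < 2 * a - 1 := by linarith
  have hpr : 0 < (2 * a - 1) ^ r := Real.rpow_pos_of_pos hpos r
  have h3 : (2 * a - 1) ^ r ≤ (2 : ℝ) ^ (1 - L) - 1 := by
    rw [← e1]
    linarith
  have h4 : Real.log (1 / ((2 : ℝ) ^ (1 - L) - 1)) ≤ r * (-Real.log (2 * a - 1)) := by
    rw [one_div, Real.log_inv]
    have h5 := Real.log_le_log hpr h3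
    rw [Real.log_rpow hpos] at h5
    linarith
  have h6 := hi_log (y := 2 * δ) (by linarith) (by linarith)
  rw [← e2] at h6
  have h7 : δ * (-Real.log (2 * a - 1)) < s * Real.log 2 := by
    have h8 : δ * (2 * (1 / (2 * δ) - 1) * Real.log 2) = s * Real.log 2 := by
      rw [hs]
      field_simp
    nlinarith [mul_pos h0 h6]
  calc δ * Real.log (1 / ((2 : ℝ) ^ (1 - L) - 1)) ≤ δ * (r * (-Real.log (2 * a - 1))) :=
        mul_le_mul_of_nonneg_left h4 h0.le
    _ = r * (δ * (-Real.log (2 * a - 1))) := by ring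
    _ < r * (s * Real.log 2) := mul_lt_mul_of_pos_left h7 hr0
    _ = L * Real.log 2 := by rw [hLr]; ring

/-- one letter, all ones: level `1`, mass `2` -/
theorem ell_zero_le : Tensor.ell 0 ≤ 1 := by
  have hh : Tensor.IsCert ((1 - 2 * (0 : ℝ)) * (1 : ℕ)) (fun _ : Fin 1 → Bool => (1 : ℝ)) := by
    refine ⟨fun _ => zero_le_one, fun x => ?_, fun y => ?_, one_pos⟩
    · have e : ∑ y : Fin 1 → Bool, (1 : ℝ) * Tensor.chi x y =
          ∑ b : Bool, Tensor.sg (x 0) b := by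
        rw [← (Equiv.funUnique (Fin 1) Bool).sum_comp]
        refine Finset.sum_congr rfl fun y _ => ?_
        rw [one_mul, Tensor.chi_eq, Fin.prod_univ_one]
        rfl
      rw [e]
      cases x 0 <;> simp [Tensor.sg]
    · simp
  have h := Tensor.ell_le_of_cert le_rfl le_rfl hh
  refine h.trans ?_
  have e : Tensor.val (fun _ : Fin 1 → Bool => (1 : ℝ)) = 2 := by
    unfold Tensor.val
    simp
  rw [e]
  simp

/-- one letter, the point mass: level `0`, mass `1` -/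
theorem ell_half_le : Tensor.ell (1 / 2) ≤ 0 := by
  classical
  have hh : Tensor.IsCert ((1 - 2 * (1 / 2 : ℝ)) * (1 : ℕ))
      (fun y : Fin 1 → Bool => if y = (fun _ => false) then (1 : ℝ) else 0) := by
    refine ⟨fun y => ?_, fun x => ?_, fun y => ?_, ?_⟩
    · split_ifs <;> norm_num
    · simp [ite_mul, Tensor.chi_zero_right]
    · have e : (1 - 2 * (1 / 2 : ℝ)) * (1 : ℕ) = 0 := by norm_num
      rw [e, zero_mul]
      refine Finset.sum_nonneg fun i _ => ?_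
      split_ifs <;> norm_num
    · simp
  have h := Tensor.ell_le_of_cert (by norm_num) le_rfl hh
  refine h.trans ?_
  have e : Tensor.val (fun y : Fin 1 → Bool => if y = (fun _ => false) then (1 : ℝ) else 0) = 1 := by
    unfold Tensor.val
    simp
  rw [e]
  simp

/-- the bound `L(δ) ≤ 1 - 2δ` -/
theorem ell_le_plotkin {δ : ℝ} (h0 : 0 ≤ δ) (h1 : δ ≤ 1 / 2) : Tensor.ell δ ≤ 1 - 2 * δ := by
  have hx : (0 : ℝ) ∈ Set.Ici (0 : ℝ) := Set.mem_Ici.2 le_rfl
  have hy : (1 / 2 : ℝ) ∈ Set.Ici (0 : ℝ) := by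
    simp only [Set.mem_Ici]
    norm_num
  have h := Tensor.ell_convexOn.2 hx hy (show 0 ≤ 1 - 2 * δ by linarith)
    (show 0 ≤ 2 * δ by linarith) (by ring)
  simp only [smul_eq_mul, mul_zero, zero_add] at h
  have e : 2 * δ * (1 / 2) = δ := by ring
  rw [e] at h
  have g1 := mul_le_mul_of_nonneg_left ell_zero_le (show 0 ≤ 1 - 2 * δ by linarith)
  have g2 := mul_le_mul_of_nonneg_left ell_half_le (show 0 ≤ 2 * δ by linarith)
  linarith

/-- the inequality of the high weights for the exponent -/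
theorem hi_ineq {δ : ℝ} (h0 : 0 < δ) (h1 : δ < 1 / 2) (hL : 0 < Tensor.ell δ) :
    δ * Real.log (1 / ((2 : ℝ) ^ (1 - Tensor.ell δ) - 1)) < Tensor.ell δ * Real.log 2 :=
  hi_num h0 h1 hL (ell_le_plotkin h0.le h1.le)

/-- positivity from positivity near `1/2` -/
theorem ell_pos_of_near {δ : ℝ} (h0 : 0 ≤ δ) (h1 : δ < 1 / 2)
    (h : ∃ δ', δ < δ' ∧ δ' < 1 / 2 ∧ 0 < Tensor.ell δ') : 0 < Tensor.ell δ := by
  obtain ⟨δ', g1, g2, g3⟩ := h
  by_contra hcon
  rw [not_lt] at hcon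
  set t : ℝ := (δ' - δ) / (1 / 2 - δ) with ht
  have hd : 0 < 1 / 2 - δ := by linarith
  have ht0 : 0 ≤ t := div_nonneg (by linarith) hd.le
  have ht1 : t ≤ 1 := by
    rw [ht, div_le_one hd]
    linarith
  have hx : δ ∈ Set.Ici (0 : ℝ) := h0
  have hy : (1 / 2 : ℝ) ∈ Set.Ici (0 : ℝ) := by
    simp only [Set.mem_Ici]
    norm_num
  have hc := Tensor.ell_convexOn.2 hx hy (show 0 ≤ 1 - t by linarith) ht0 (by ring)
  simp only [smul_eq_mul] at hc
  have e : (1 - t) * δ + t * (1 / 2) = δ' := by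
    have h2 : t * (1 / 2 - δ) = δ' - δ := by
      rw [ht]
      exact div_mul_cancel₀ _ hd.ne'
    linarith
  rw [e] at hc
  have g4 := mul_nonpos_of_nonneg_of_nonpos (show 0 ≤ 1 - t by linarith) hcon
  have g5 := mul_nonpos_of_nonneg_of_nonpos ht0 ell_half_le
  linarith

end Pool.Agent.Lib.MP_0430e4_lc.AC
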