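import Pool.Agent.Lib.MP_0430e4_lc.Exact.HM
import Mathlib

/-!
# The inequality `1 - L(δ) < H(r)` below `δ* = 1/2 - 1/π` (helper20)

`t > 0` is the parameter of the second branch (`δ = (1 - sII t) / 2`, `L δ = 1 - cval t / log 2`) and
`rth t = ∑_{n ≥ 1} (-1)^(n-1) exp (-n² t) = (1 - θ₄) / 2`. Result: `0 < rth t < 1/2` and
`cval t < binEntropy (rth t)`.
-/

set_option autoImplicit false

namespace Pool.Agent.Lib.MP_0430e4_lc.AC

open Real Finset Filter Topology Exact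

/-- `∑_{n ≥ 1} (-1)^(n-1) exp (-n² t)` -/
noncomputable def rth (t : ℝ) : ℝ := ∑' n : ℕ, (-1 : ℝ) ^ n * exp (-((n + 1) ^ 2 * t))

theorem summable_sq {t : ℝ} (ht : 0 < t) (c : ℝ) (hc : 0 ≤ c) :
    Summable fun n : ℕ => exp (-((n + c) ^ 2 * t)) := by
  have h1 : Summable fun n : ℕ => exp (-t) ^ n :=
    summable_geometric_of_lt_one (exp_pos _).le (by rw [exp_lt_one_iff]; linarith)
  refine Summable.of_nonneg_of_le (fun n => (exp_pos _).le) (fun n => ?_) h1
  rw [← exp_nat_mul]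
  apply exp_le_exp.2
  have h2 : (n : ℝ) ≤ (n + c) ^ 2 := by
    have h3 : (0 : ℝ) ≤ n := n.cast_nonneg
    rcases Nat.eq_zero_or_pos n with h0 | h0
    · subst h0
      simp only [Nat.cast_zero, zero_add]
      positivity
    · have h4 : (1 : ℝ) ≤ n := by exact_mod_cast h0
      nlinarith
  nlinarith

theorem rth_anti {t : ℝ} (ht : 0 < t) : Antitone fun n : ℕ => exp (-((n + 1) ^ 2 * t)) := by
  intro a b hab
  apply exp_le_exp.2
  have h1 : (a : ℝ) ≤ b := by exact_mod_cast hab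
  have h2 : (0 : ℝ) ≤ a := a.cast_nonneg
  have h3 : ((a : ℝ) + 1) ^ 2 ≤ (b + 1) ^ 2 := by nlinarith
  nlinarith

theorem summable_rth {t : ℝ} (ht : 0 < t) :
    Summable fun n : ℕ => (-1 : ℝ) ^ n * exp (-((n + 1) ^ 2 * t)) := by
  apply Summable.of_norm
  have : (fun n : ℕ => ‖(-1 : ℝ) ^ n * exp (-((n + 1) ^ 2 * t))‖) =
      fun n : ℕ => exp (-((n + 1) ^ 2 * t)) := by
    funext n
    rw [norm_mul, norm_pow, norm_neg, norm_one, one_pow, one_mul, norm_eq_abs, abs_exp]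
  rw [this]
  exact summable_sq ht 1 zero_le_one

/-- `exp(-t) - exp(-4t) ≤ rth t` -/
theorem le_rth {t : ℝ} (ht : 0 < t) : exp (-t) - exp (-(4 * t)) ≤ rth t := by
  have h1 := (summable_rth ht).hasSum.tendsto_sum_nat
  have h2 := (rth_anti ht).alternating_series_le_tendsto h1 1
  simp only [sum_range_succ, mul_one, range_one, sum_singleton] at h2
  unfold rth
  refine le_trans (le_of_eq ?_) h2
  norm_num
  ring_nf

theorem rth_pos {t : ℝ} (ht : 0 < t) : 0 < rth t := by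
  refine lt_of_lt_of_le ?_ (le_rth ht)
  have : exp (-(4 * t)) < exp (-t) := exp_lt_exp.2 (by linarith)
  linarith

/-- the theta function on the other side -/
theorem theta {t : ℝ} (ht : 0 < t) :
    1 - 2 * rth t = √(π / t) * (2 * ∑' n : ℕ, exp (-((n + 1 / 2) ^ 2 * (π ^ 2 / t)))) := by
  have h0 := Complex.tsum_exp_neg_quadratic (a := ((t / π : ℝ) : ℂ))
    (by rw [Complex.ofReal_re]; positivity) (-(Complex.I / 2))
  have hpi : (π : ℂ) ≠ 0 := by exact_mod_cast pi_ne_zero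
  have htc : (t : ℂ) ≠ 0 := by exact_mod_cast ht.ne'
  -- left side
  have hL : ∀ n : ℤ, Complex.exp (-π * ((t / π : ℝ) : ℂ) * n ^ 2 +
      2 * π * (-(Complex.I / 2)) * n) =
      (((-1 : ℝ) ^ n.natAbs * exp (-((n : ℝ) ^ 2 * t)) : ℝ) : ℂ) := by
    intro n
    rw [Complex.exp_add]
    have e1 : -(π : ℂ) * ((t / π : ℝ) : ℂ) * n ^ 2 = ((-((n : ℝ) ^ 2 * t) : ℝ) : ℂ) := by
      push_cast
      field_simp
    have e2 : 2 * (π : ℂ) * (-(Complex.I / 2)) * n = ((-n : ℤ) : ℂ) * (π * Complex.I) := by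
      push_cast
      ring
    rw [e1, e2, ← Complex.ofReal_exp, Complex.exp_int_mul, Complex.exp_pi_mul_I]
    push_cast
    rw [mul_comm]
    congr 1
    rcases Int.even_or_odd n with h | h
    · rw [h.neg.neg_one_zpow, (Int.natAbs_even.2 h).neg_one_pow]
    · rw [h.neg.neg_one_zpow, (Int.natAbs_odd.2 h).neg_one_pow]
  have hR : ∀ n : ℤ, Complex.exp (-π / ((t / π : ℝ) : ℂ) *
      (n + Complex.I * (-(Complex.I / 2))) ^ 2) =
      ((exp (-(((n : ℝ) + 1 / 2) ^ 2 * (π ^ 2 / t))) : ℝ) : ℂ) := by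
    intro n
    have e1 : (n : ℂ) + Complex.I * (-(Complex.I / 2)) = n + 1 / 2 := by
      have : Complex.I * (-(Complex.I / 2)) = -(Complex.I * Complex.I) / 2 := by ring
      rw [this, Complex.I_mul_I]
      ring
    rw [e1, Complex.ofReal_exp]
    congr 1
    push_cast
    field_simp
  simp only [hL, hR] at h0
  have hpow : ((t / π : ℝ) : ℂ) ^ (1 / 2 : ℂ) = ((√(t / π) : ℝ) : ℂ) := by
    rw [sqrt_eq_rpow, Complex.ofReal_cpow (by positivity)]
    push_cast
    rfl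
  rw [hpow, ← Complex.ofReal_tsum, ← Complex.ofReal_tsum] at h0
  have h1 : (∑' n : ℤ, (-1 : ℝ) ^ n.natAbs * exp (-((n : ℝ) ^ 2 * t))) =
      1 / √(t / π) * ∑' n : ℤ, exp (-(((n : ℝ) + 1 / 2) ^ 2 * (π ^ 2 / t))) := by
    exact_mod_cast h0
  have hs : √(π / t) = 1 / √(t / π) := by
    rw [one_div, ← sqrt_inv, inv_div]
  -- left sum
  have h2 : (∑' n : ℤ, (-1 : ℝ) ^ n.natAbs * exp (-((n : ℝ) ^ 2 * t))) = 1 - 2 * rth t := by
    have hs1 : Summable fun n : ℕ => (-1 : ℝ) ^ (n : ℤ).natAbs * exp (-(((n : ℤ) : ℝ) ^ 2 * t)) := by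
      apply Summable.of_norm
      have : (fun n : ℕ => ‖(-1 : ℝ) ^ (n : ℤ).natAbs * exp (-(((n : ℤ) : ℝ) ^ 2 * t))‖) =
          fun n : ℕ => exp (-((n + (0 : ℝ)) ^ 2 * t)) := by
        funext n
        rw [norm_mul, norm_pow, norm_neg, norm_one, one_pow, one_mul, norm_eq_abs, abs_exp]
        simp
      rw [this]
      exact summable_sq ht 0 le_rfl
    have e3 : ∀ n : ℕ, (-1 : ℝ) ^ (-((n : ℤ) + 1)).natAbs * exp (-(((-((n : ℤ) + 1) : ℤ) : ℝ) ^ 2 * t))
        = -((-1 : ℝ) ^ n * exp (-((n + 1) ^ 2 * t))) := by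
      intro n
      have e4 : (-((n : ℤ) + 1)).natAbs = n + 1 := by omega
      rw [e4, pow_succ]
      push_cast
      have e6 : (-((n : ℝ) + 1)) ^ 2 = (n + 1) ^ 2 := by ring
      rw [e6]
      ring
    have hs2 : Summable fun n : ℕ =>
        (-1 : ℝ) ^ (-((n : ℤ) + 1)).natAbs * exp (-(((-((n : ℤ) + 1) : ℤ) : ℝ) ^ 2 * t)) := by
      simp only [e3]
      exact (summable_rth ht).neg
    have h5 := tsum_of_nat_of_neg_add_one
      (f := fun n : ℤ => (-1 : ℝ) ^ n.natAbs * exp (-((n : ℝ) ^ 2 * t))) hs1 hs2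
    rw [h5]
    simp only [e3]
    rw [tsum_neg, hs1.tsum_eq_zero_add]
    have e7 : ∀ n : ℕ, (-1 : ℝ) ^ (((n + 1 : ℕ) : ℤ)).natAbs * exp (-((((n + 1 : ℕ) : ℤ) : ℝ) ^ 2 * t))
        = -((-1 : ℝ) ^ n * exp (-((n + 1) ^ 2 * t))) := by
      intro n
      rw [Int.natAbs_natCast, pow_succ]
      push_cast
      ring
    simp only [e7]
    rw [tsum_neg]
    unfold rth
    norm_num
    ring
  have h3 : (∑' n : ℤ, exp (-(((n : ℝ) + 1 / 2) ^ 2 * (π ^ 2 / t)))) =
      2 * ∑' n : ℕ, exp (-((n + 1 / 2) ^ 2 * (π ^ 2 / t))) := by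
    have hq : 0 < π ^ 2 / t := by positivity
    have hs3 := summable_sq hq (1 / 2) (by norm_num)
    have e9 : ∀ n : ℕ, exp (-((((-((n : ℤ) + 1) : ℤ) : ℝ) + 1 / 2) ^ 2 * (π ^ 2 / t))) =
        exp (-((n + 1 / 2) ^ 2 * (π ^ 2 / t))) := by
      intro n
      push_cast
      congr 3
      ring
    have h6 := tsum_of_nat_of_neg_add_one
      (f := fun n : ℤ => exp (-(((n : ℝ) + 1 / 2) ^ 2 * (π ^ 2 / t)))) (by simpa using hs3)
      (by simp only [e9]; exact hs3)
    rw [h6]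
    simp only [e9, Int.cast_natCast]
    rw [two_mul]
  rw [← h2, h1, h3, hs]

theorem rth_lt_half {t : ℝ} (ht : 0 < t) : rth t < 1 / 2 := by
  have h1 := theta ht
  have h2 : 0 < ∑' n : ℕ, exp (-((n + 1 / 2) ^ 2 * (π ^ 2 / t))) :=
    (summable_sq (by positivity) (1 / 2) (by norm_num)).tsum_pos (fun n => (exp_pos _).le) 0
      (exp_pos _)
  have h3 : 0 < √(π / t) := sqrt_pos.2 (by positivity)
  have h4 : 0 < 1 - 2 * rth t := by rw [h1]; positivity
  linarith

/-! ### the alternating series `cval` -/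

theorem hm_anti {x y : ℝ} (hx : 0 ≤ x) (hxy : x ≤ y) : hm y ≤ hm x := by
  unfold hm
  have h1 : (1 : ℝ) ≤ exp x := one_le_exp hx
  have h2 : exp x ≤ exp y := exp_le_exp.2 hxy
  apply binEntropy_strictMonoOn.monotoneOn
  · constructor
    · positivity
    · rw [div_le_iff₀ (by positivity)]
      linarith
  · constructor
    · positivity
    · rw [div_le_iff₀ (by positivity)]
      linarith
  · apply one_div_le_one_div_of_le (by positivity)
    linarith

theorem cval_anti {t : ℝ} (ht : 0 < t) : Antitone fun m : ℕ => hm ((m + 1) * t) := by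
  intro a b hab
  have h1 : (a : ℝ) ≤ b := by exact_mod_cast hab
  exact hm_anti (by positivity) (by nlinarith)

theorem cval_tendsto {t : ℝ} (ht : 0 < t) :
    Tendsto (fun n : ℕ => ∑ i ∈ range n, (-1 : ℝ) ^ i * hm ((i + 1) * t)) atTop (𝓝 (cval t)) := by
  have h1 : Summable fun m : ℕ => (-1 : ℝ) ^ m * hm ((m + 1) * t) := by
    apply Summable.of_norm
    have : (fun m : ℕ => ‖(-1 : ℝ) ^ m * hm ((m + 1) * t)‖) = fun m : ℕ => hm ((m + 1) * t) := by
      funext m
      rw [norm_mul, norm_pow, norm_neg, norm_one, one_pow, one_mul, norm_eq_abs,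
        abs_of_nonneg (hm_nonneg _)]
    rw [this]
    exact summable_hm ht
  exact h1.hasSum.tendsto_sum_nat

theorem cval_le {t : ℝ} (ht : 0 < t) : cval t ≤ hm t := by
  have h2 := (cval_anti ht).tendsto_le_alternating_series (cval_tendsto ht) 0
  simpa using h2

theorem cval_le3 {t : ℝ} (ht : 0 < t) : cval t ≤ hm t - hm (2 * t) + hm (3 * t) := by
  have h2 := (cval_anti ht).tendsto_le_alternating_series (cval_tendsto ht) 1
  simp only [sum_range_succ, mul_one, range_one, sum_singleton] at h2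
  refine le_trans h2 (le_of_eq ?_)
  norm_num
  ring_nf

/-! ### large `t` -/

theorem big {t : ℝ} (ht : 1 / 3 ≤ t) : cval t < binEntropy (rth t) := by
  have ht0 : 0 < t := by linarith
  have hy0 : 0 < exp (-t) := exp_pos _
  have hy1 : exp (-t) ≤ 3 / 4 := by
    have h1 : exp (-t) ≤ exp (-(1 / 3)) := exp_le_exp.2 (by linarith)
    have h2 : exp (-(1 / 3)) ≤ 3 / 4 := by
      rw [exp_neg, inv_le_comm₀ (exp_pos _) (by norm_num)]
      have := add_one_le_exp (1 / 3 : ℝ)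
      linarith
    linarith
  have h4 : exp (-(4 * t)) = exp (-t) ^ 4 := by
    rw [← exp_nat_mul]
    congr 1
    push_cast
    ring
  have h5 := le_rth ht0
  rw [h4] at h5
  have h6 : hm t = binEntropy (exp (-t) / (1 + exp (-t))) := by
    unfold hm
    congr 1
    rw [exp_neg]
    have := exp_pos t
    field_simp
    ring
  refine lt_of_le_of_lt (cval_le ht0) ?_
  rw [h6]
  set y := exp (-t) with hy
  have h7 : y / (1 + y) < y - y ^ 4 := by
    rw [div_lt_iff₀ (by positivity)]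
    have h8 : y ^ 2 + y ^ 3 < 1 := by
      have h9 : y ^ 2 ≤ (3 / 4) ^ 2 := by gcongr
      have h10 : y ^ 3 ≤ (3 / 4) ^ 3 := by gcongr
      linarith
    nlinarith [mul_pos hy0 hy0]
  apply binEntropy_strictMonoOn
  · constructor
    · positivity
    · rw [div_le_iff₀ (by positivity)]
      linarith
  · exact ⟨(rth_pos ht0).le, by have := rth_lt_half ht0; norm_num at this ⊢; linarith⟩
  · linarith

/-! ### small `t` -/

theorem hm_hasDerivAt (x : ℝ) : HasDerivAt hm (-(x * (exp x / (1 + exp x) ^ 2))) x := by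
  have e : hm = fun x => log (1 + exp (-x)) + x / (1 + exp x) := by
    funext y
    exact hm_eq y
  rw [e]
  have h1 : HasDerivAt (fun x : ℝ => exp (-x)) (-exp (-x)) x := by
    have := (hasDerivAt_neg x).exp
    simpa using this
  have h2 : HasDerivAt (fun x : ℝ => 1 + exp (-x)) (-exp (-x)) x := h1.const_add 1
  have h3 : HasDerivAt (fun x : ℝ => log (1 + exp (-x))) (-exp (-x) / (1 + exp (-x))) x :=
    h2.log (by positivity)
  have h4 : HasDerivAt (fun x : ℝ => 1 + exp x) (exp x) x := (hasDerivAt_exp x).const_add 1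
  have h5 := (hasDerivAt_id x).div h4 (by positivity)
  have h6 := h3.add h5
  refine h6.congr_deriv ?_
  simp only [id]
  rw [exp_neg]
  have := exp_pos x
  field_simp
  ring

theorem hm_step {t : ℝ} (ht : 0 < t) (ht3 : t ≤ 1 / 3) : t ^ 2 / 3 ≤ hm (2 * t) - hm (3 * t) := by
  obtain ⟨ξ, hξ, he⟩ := exists_hasDerivAt_eq_slope hm (fun x => -(x * (exp x / (1 + exp x) ^ 2)))
    (show 2 * t < 3 * t by linarith)
    (fun x _ => (hm_hasDerivAt x).continuousAt.continuousWithinAt) (fun x _ => hm_hasDerivAt x)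
  have h1 : 3 * t - 2 * t = t := by ring
  rw [h1, eq_div_iff ht.ne'] at he
  have hξ1 : 2 * t < ξ := hξ.1
  have hξ2 : ξ < 1 := by linarith [hξ.2]
  have hu1 : 1 ≤ exp ξ := one_le_exp (by linarith)
  have hu2 : exp ξ ≤ 3 := by
    have h2 : exp ξ ≤ exp 1 := exp_le_exp.2 hξ2.le
    have h3 := exp_one_lt_d9
    linarith
  have h4 : 1 / 6 ≤ exp ξ / (1 + exp ξ) ^ 2 := by
    rw [div_le_div_iff₀ (by norm_num) (by positivity)]
    nlinarith
  have h5 : t * 2 * (1 / 6) ≤ ξ * (exp ξ / (1 + exp ξ) ^ 2) := by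
    apply mul_le_mul _ h4 (by norm_num) (by linarith)
    linarith
  nlinarith

theorem tail_le {s : ℝ} (hs : 29 ≤ s) :
    ∑' n : ℕ, exp (-((n + 1 / 2) ^ 2 * s)) ≤ exp (-(s / 4)) * (30 / 29) := by
  have hs0 : 0 < s := by linarith
  have h0 : exp (-s) ≤ 1 / 30 := by
    rw [exp_neg, one_div]
    apply inv_anti₀ (by norm_num)
    have := add_one_le_exp s
    linarith
  have h1 : Summable fun n : ℕ => exp (-(s / 4)) * exp (-s) ^ n :=
    (summable_geometric_of_lt_one (exp_pos _).le (by linarith)).mul_left _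
  have h2 : ∑' n : ℕ, exp (-((n + 1 / 2) ^ 2 * s)) ≤ ∑' n : ℕ, exp (-(s / 4)) * exp (-s) ^ n := by
    apply (summable_sq hs0 (1 / 2) (by norm_num)).tsum_le_tsum _ h1
    intro n
    rw [← exp_nat_mul, ← exp_add]
    apply exp_le_exp.2
    have h3 : (0 : ℝ) ≤ n := n.cast_nonneg
    have h4 : (0 : ℝ) ≤ (n : ℝ) ^ 2 * s := by positivity
    nlinarith
  refine h2.trans ?_
  rw [tsum_mul_left, tsum_geometric_of_lt_one (exp_pos _).le (by linarith)]
  apply mul_le_mul_of_nonneg_left _ (exp_pos _).le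
  rw [inv_le_comm₀ (by linarith) (by norm_num)]
  linarith

theorem q_le {t : ℝ} (ht : 0 < t) (ht3 : t ≤ 1 / 3) :
    (1 - 2 * rth t) * log 2 < t ^ 2 / 3 := by
  have hp1 := pi_gt_d2
  have hp2 := pi_lt_d2
  have hpp : 9.8 < π ^ 2 := by nlinarith
  have hs : 29 ≤ π ^ 2 / t := by
    rw [le_div_iff₀ ht]
    nlinarith
  have h1 : √(π / t) ≤ π / t / 3 := by
    have h9 : 9 ≤ π / t := by
      rw [le_div_iff₀ ht]
      linarith
    rw [sqrt_le_left (by positivity)]
    nlinarith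
  have h2 := tail_le hs
  have h3 : 1 - 2 * rth t ≤ π / t / 3 * (2 * (exp (-(π ^ 2 / t / 4)) * (30 / 29))) := by
    rw [theta ht]
    have h4 : 0 ≤ ∑' n : ℕ, exp (-((n + 1 / 2) ^ 2 * (π ^ 2 / t))) :=
      tsum_nonneg fun n => (exp_pos _).le
    gcongr
  obtain ⟨x, hx⟩ : ∃ x : ℝ, x = π ^ 2 / t / 4 := ⟨_, rfl⟩
  rw [← hx] at h3
  have hx7 : 7 ≤ x := by rw [hx]; linarith
  have hx0 : 0 < x := by linarith
  have hxt : t = π ^ 2 / (4 * x) := by
    rw [hx]
    field_simp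
  have h5 : exp (-x) ≤ 120 / x ^ 5 := by
    have h6 := pow_div_factorial_le_exp x hx0.le 5
    rw [exp_neg, inv_le_comm₀ (exp_pos _) (by positivity), inv_div]
    have h7 : ((Nat.factorial 5 : ℕ) : ℝ) = 120 := by norm_num [Nat.factorial]
    rw [h7] at h6
    exact h6
  have hl : log 2 < 0.694 := by
    have := log_two_lt_d9
    linarith
  have hl0 : 0 < log 2 := log_pos (by norm_num)
  have h8 : (1 - 2 * rth t) * log 2 ≤
      π / t / 3 * (2 * (120 / x ^ 5 * (30 / 29))) * 0.694 := by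
    have h9 : 1 - 2 * rth t ≤ π / t / 3 * (2 * (120 / x ^ 5 * (30 / 29))) := by
      refine h3.trans ?_
      gcongr
    have h10 : 0 ≤ π / t / 3 * (2 * (120 / x ^ 5 * (30 / 29))) := by positivity
    calc (1 - 2 * rth t) * log 2 ≤ π / t / 3 * (2 * (120 / x ^ 5 * (30 / 29))) * log 2 := by
          gcongr
      _ ≤ _ := by gcongr
  refine lt_of_le_of_lt h8 ?_
  rw [hxt]
  have e1 : π / (π ^ 2 / (4 * x)) / 3 * (2 * (120 / x ^ 5 * (30 / 29))) * 0.694 =
      (4 * 2 * 120 * 30 * 0.694 / (3 * 29)) / (π * x ^ 4) := by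
    field_simp
  have e2 : (π ^ 2 / (4 * x)) ^ 2 / 3 = π ^ 4 / (48 * x ^ 2) := by
    field_simp
    norm_num
  rw [e1, e2, div_lt_div_iff₀ (by positivity) (by positivity)]
  have h11 : 49 ≤ x ^ 2 := by nlinarith
  have h12 : 300 < π ^ 5 := by
    have : (3.14 : ℝ) ^ 5 < π ^ 5 := by gcongr
    refine lt_trans ?_ this
    norm_num
  have e3 : π ^ 4 * (π * x ^ 4) = π ^ 5 * x ^ 2 * x ^ 2 := by ring
  rw [e3]
  have h13 : 300 * 49 * x ^ 2 ≤ π ^ 5 * x ^ 2 * x ^ 2 := by
    apply mul_le_mul_of_nonneg_right _ (by positivity)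
    apply mul_le_mul h12.le h11 (by norm_num) (by positivity)
  have h14 : 0 < x ^ 2 := by positivity
  nlinarith

theorem ent_ge {t : ℝ} (ht : 0 < t) :
    log 2 - (1 - 2 * rth t) * log 2 ≤ binEntropy (rth t) := by
  have h1 := rth_pos ht
  have h2 := rth_lt_half ht
  have h30 : ConcaveOn ℝ (Set.Icc 0 1) binEntropy := strictConcave_binEntropy.concaveOn
  have h3 := h30.2 (show (0 : ℝ) ∈ Set.Icc (0 : ℝ) 1 by simp)
    (show (1 / 2 : ℝ) ∈ Set.Icc (0 : ℝ) 1 by constructor <;> norm_num)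
    (show 0 ≤ 1 - 2 * rth t by linarith) (show 0 ≤ 2 * rth t by linarith)
    (show 1 - 2 * rth t + 2 * rth t = 1 by ring)
  simp only [smul_eq_mul, binEntropy_zero, mul_zero, zero_add] at h3
  have h4 : binEntropy (1 / 2) = log 2 := by
    have := binEntropy_two_inv
    rwa [← one_div] at this
  rw [h4] at h3
  have h5 : 2 * rth t * (1 / 2) = rth t := by ring
  rw [h5] at h3
  linarith

theorem small {t : ℝ} (ht : 0 < t) (ht3 : t ≤ 1 / 3) : cval t < binEntropy (rth t) := by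
  have h1 := cval_le3 ht
  have h2 := hm_step ht ht3
  have h3 := q_le ht ht3
  have h4 := ent_ge ht
  have h5 : hm t ≤ log 2 := by
    rw [← hm_zero]
    exact hm_anti le_rfl ht.le
  linarith

/-- **Row I.** -/
theorem ineqI {t : ℝ} (ht : 0 < t) : cval t < binEntropy (rth t) := by
  rcases le_total (1 / 3) t with h | h
  · exact big h
  · exact small ht h

end Pool.Agent.Lib.MP_0430e4_lc.AC
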