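import Pool.Agent.Lib.MP_0430e4_lc.Exact.HM
import Pool.Agent.Lib.MP_0430e4_lc.Exact.SE

/-!
Project ALLCODES, inequality (I), part A (helper72): sums of hyperbolic secants over the integers.

`AZ t = ∑_{m ∈ ℤ} (-1)^m sech (m t)`, `SZ t = ∑ sech (m t)`, `BZ t = ∑ (-1)^m sech (m t)^2`.

* `AZ_mul_SZ : AZ t * SZ t = BZ t`
* `AZ_sq : AZ t ^ 2 = ∑_m (-1)^m c_m`, `c_m = ∑_j sech (j t) sech ((m-j) t)`, and
  `c_m = 2 m / sinh (m t)` for `m ≥ 1` (telescoping sum of `tanh`).
-/

set_option autoImplicit false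

namespace Pool.Agent.Lib.MP_0430e4_lc.AC.Iq

open Real Filter Topology Finset

open Exact (sech sech_pos sech_neg sech_zero sech_le_one sech_le_exp sech_anti)

/-- the sign `(-1)^m` -/
noncomputable def sz (m : ℤ) : ℝ := (-1) ^ m

theorem sz_add (a b : ℤ) : sz (a + b) = sz a * sz b := zpow_add₀ (by norm_num) a b

theorem sz_zero : sz 0 = 1 := by simp [sz]

theorem sz_one : sz 1 = -1 := by simp [sz]

theorem sz_sq (a : ℤ) : sz a * sz a = 1 := by
  unfold sz
  rw [← mul_zpow]; simp

theorem sz_neg (a : ℤ) : sz (-a) = sz a := by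
  have h := sz_add a (-a)
  rw [add_neg_cancel, sz_zero] at h
  have h2 := sz_sq a
  have h3 : sz a ≠ 0 := by intro h0; rw [h0] at h; simp at h
  have : sz a * sz (-a) = sz a * sz a := by rw [← h, h2]
  exact mul_left_cancel₀ h3 this

theorem sz_sub (a b : ℤ) : sz (a - b) = sz a * sz b := by rw [sub_eq_add_neg, sz_add, sz_neg]

theorem abs_sz (a : ℤ) : |sz a| = 1 := by
  unfold sz
  rw [abs_zpow]; simp

theorem sz_nat (m : ℕ) : sz (m : ℤ) = (-1) ^ m := by simp [sz]

section
variable {t : ℝ} (ht : 0 < t)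
include ht

theorem summable_z : Summable fun j : ℤ => sech (j * t) := by
  apply Summable.of_nat_of_neg_add_one
  · rw [← summable_nat_add_iff 1]
    simpa using Exact.summable_succ ht
  · have h := Exact.summable_succ ht
    refine h.congr fun n => ?_
    rw [← sech_neg]
    congr 1
    push_cast; ring

theorem summable_norm_z : Summable fun j : ℤ => ‖sech (j * t)‖ := by
  refine (summable_z ht).congr fun j => ?_
  rw [Real.norm_of_nonneg (sech_pos _).le]

theorem summable_norm_sz : Summable fun j : ℤ => ‖sz j * sech (j * t)‖ := by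
  refine (summable_z ht).congr fun j => ?_
  rw [norm_mul, Real.norm_eq_abs, abs_sz, one_mul, Real.norm_of_nonneg (sech_pos _).le]

end

/-- convolution -/
theorem conv {f g : ℤ → ℝ} (hf : Summable fun j => ‖f j‖) (hg : Summable fun j => ‖g j‖) :
    (∑' j, f j) * (∑' l, g l) = ∑' m : ℤ, ∑' j : ℤ, f j * g (m - j) := by
  have hs : Summable (fun p : ℤ × ℤ => f p.1 * g p.2) := summable_mul_of_summable_norm hf hg
  rw [tsum_mul_tsum_of_summable_norm hf hg]
  let e : ℤ × ℤ ≃ ℤ × ℤ :=
    { toFun := fun p => (p.2, p.1 - p.2)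
      invFun := fun p => (p.1 + p.2, p.1)
      left_inv := fun p => by simp
      right_inv := fun p => by simp }
  rw [← e.tsum_eq (fun p : ℤ × ℤ => f p.1 * g p.2)]
  exact (hs.comp_injective e.injective).tsum_prod

/-- `sech a sech b sinh (a - b) = tanh a - tanh b` -/
theorem sech_mul (a b : ℝ) : sech a * sech b * sinh (a - b) = tanh a - tanh b := by
  unfold Exact.sech
  rw [sinh_sub, tanh_eq_sinh_div_cosh, tanh_eq_sinh_div_cosh]
  have h1 := (cosh_pos a).ne'
  have h2 := (cosh_pos b).ne'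
  field_simp

theorem tendsto_tanh : Tendsto tanh atTop (𝓝 1) := by
  have h : ∀ x : ℝ, tanh x = 1 - 2 / (exp (2 * x) + 1) := by
    intro x
    rw [tanh_eq_sinh_div_cosh, sinh_eq, cosh_eq]
    have h1 : exp (2 * x) = exp x * exp x := by rw [← exp_add]; ring_nf
    have h2 : exp (-x) = (exp x)⁻¹ := exp_neg x
    rw [h1, h2]
    have h3 := exp_pos x
    field_simp
    ring
  have h1 : Tendsto (fun x : ℝ => 1 - 2 / (exp (2 * x) + 1)) atTop (𝓝 (1 - 0)) := by
    apply tendsto_const_nhds.sub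
    apply Tendsto.div_atTop tendsto_const_nhds
    apply tendsto_atTop_add_const_right
    exact tendsto_exp_atTop.comp (tendsto_id.const_mul_atTop (by norm_num))
  rw [sub_zero] at h1
  exact h1.congr fun x => (h x).symm

section
variable {t : ℝ} (ht : 0 < t)
include ht

theorem sub_tanh_nonneg (j : ℝ) : 0 ≤ tanh (j * t) - tanh ((j - 1) * t) := by
  rw [← sech_mul]
  have h1 : 0 < sinh (j * t - (j - 1) * t) := by
    rw [sinh_pos_iff]; ring_nf; exact ht
  exact mul_nonneg (mul_nonneg (sech_pos _).le (sech_pos _).le) h1.le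

theorem hasSum_tanh_nat :
    HasSum (fun n : ℕ => tanh ((n : ℝ) * t) - tanh (((n : ℝ) - 1) * t)) (1 + tanh t) := by
  rw [hasSum_iff_tendsto_nat_of_nonneg (fun n => sub_tanh_nonneg ht _)]
  have h1 : ∀ n : ℕ, ∑ i ∈ range n, (tanh ((i : ℝ) * t) - tanh (((i : ℝ) - 1) * t)) =
      tanh (((n : ℝ) - 1) * t) + tanh t := by
    intro n
    induction n with
    | zero => simp [tanh_neg]
    | succ n ih =>
      rw [sum_range_succ, ih]
      push_cast
      rw [add_sub_cancel_right]; ring
  simp only [h1]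
  apply Tendsto.add_const
  apply tendsto_tanh.comp
  apply Tendsto.atTop_mul_const ht
  exact tendsto_atTop_add_const_right _ _ tendsto_natCast_atTop_atTop

theorem hasSum_tanh_neg :
    HasSum (fun n : ℕ => tanh ((-((n : ℝ) + 1)) * t) - tanh ((-((n : ℝ) + 1) - 1) * t))
      (1 - tanh t) := by
  rw [hasSum_iff_tendsto_nat_of_nonneg (fun n => sub_tanh_nonneg ht _)]
  have h1 : ∀ n : ℕ, ∑ i ∈ range n, (tanh ((-((i : ℝ) + 1)) * t) -
      tanh ((-((i : ℝ) + 1) - 1) * t)) = tanh (((n : ℝ) + 1) * t) - tanh t := by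
    intro n
    induction n with
    | zero => simp
    | succ n ih =>
      rw [sum_range_succ, ih]
      push_cast
      have e1 : (-((n : ℝ) + 1)) * t = -(((n : ℝ) + 1) * t) := by ring
      have e2 : (-((n : ℝ) + 1) - 1) * t = -(((n : ℝ) + 1 + 1) * t) := by ring
      rw [e1, e2, tanh_neg, tanh_neg]; ring
  simp only [h1]
  apply Tendsto.sub_const
  apply tendsto_tanh.comp
  apply Tendsto.atTop_mul_const ht
  exact tendsto_atTop_add_const_right _ _ tendsto_natCast_atTop_atTop

theorem hasSum_tanh :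
    HasSum (fun j : ℤ => tanh ((j : ℝ) * t) - tanh (((j : ℝ) - 1) * t)) 2 := by
  have h := HasSum.of_nat_of_neg_add_one
    (f := fun j : ℤ => tanh ((j : ℝ) * t) - tanh (((j : ℝ) - 1) * t))
    (by simpa using hasSum_tanh_nat ht) (by simpa using hasSum_tanh_neg ht)
  have e : (1 + tanh t) + (1 - tanh t) = 2 := by ring
  rwa [e] at h

theorem hasSum_tanh_m (m : ℕ) :
    HasSum (fun j : ℤ => tanh ((j : ℝ) * t) - tanh (((j : ℝ) - m) * t)) (2 * m) := by
  induction m with
  | zero =>
    simp only [Nat.cast_zero, sub_zero, sub_self, mul_zero]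
    exact hasSum_zero
  | succ m ih =>
    have h1 : HasSum (fun j : ℤ => tanh (((j : ℝ) - m) * t) - tanh (((j : ℝ) - (m + 1)) * t)) 2 := by
      have h2 := (Equiv.subRight (m : ℤ)).hasSum_iff.mpr (hasSum_tanh ht)
      refine h2.congr_fun ?_ |> fun h => h
      intro j
      simp only [Function.comp, Equiv.subRight_apply]
      push_cast
      ring_nf
    have h3 := ih.add h1
    have e : 2 * (m : ℝ) + 2 = 2 * ((m + 1 : ℕ) : ℝ) := by push_cast; ring
    rw [e] at h3
    refine h3.congr_fun ?_ |> fun h => h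
    intro j
    push_cast
    ring


/-- alternating telescoping sums vanish -/
theorem hasSum_tanh_alt :
    HasSum (fun j : ℤ => sz j * (tanh ((j : ℝ) * t) - tanh (((j : ℝ) - 1) * t))) 0 := by
  have hs : Summable (fun j : ℤ => sz j * (tanh ((j : ℝ) * t) - tanh (((j : ℝ) - 1) * t))) := by
    apply Summable.of_norm
    refine (hasSum_tanh ht).summable.congr fun j => ?_
    rw [norm_mul, Real.norm_eq_abs, abs_sz, one_mul, Real.norm_of_nonneg (sub_tanh_nonneg ht _)]
  have h1 := hs.hasSum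
  have h2 := (Equiv.subLeft (1 : ℤ)).hasSum_iff.mpr h1
  have h3 : (fun j : ℤ => sz j * (tanh ((j : ℝ) * t) - tanh (((j : ℝ) - 1) * t))) ∘
      (Equiv.subLeft (1 : ℤ)) =
      fun j : ℤ => -(sz j * (tanh ((j : ℝ) * t) - tanh (((j : ℝ) - 1) * t))) := by
    funext j
    simp only [Function.comp, Equiv.subLeft_apply]
    rw [sz_sub, sz_one]
    push_cast
    have e1 : (1 - (j : ℝ)) * t = -(((j : ℝ) - 1) * t) := by ring
    have e2 : (1 - (j : ℝ) - 1) * t = -((j : ℝ) * t) := by ring
    rw [e1, e2, tanh_neg, tanh_neg]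
    ring
  rw [h3] at h2
  have h4 := h2.unique h1.neg
  have h5 : ∑' j : ℤ, sz j * (tanh ((j : ℝ) * t) - tanh (((j : ℝ) - 1) * t)) = 0 := by linarith
  rwa [h5] at h1

theorem hasSum_tanh_alt_m (m : ℕ) :
    HasSum (fun j : ℤ => sz j * (tanh ((j : ℝ) * t) - tanh (((j : ℝ) - m) * t))) 0 := by
  induction m with
  | zero =>
    simp only [Nat.cast_zero, sub_zero, sub_self, mul_zero]
    exact hasSum_zero
  | succ m ih =>
    have h1 : HasSum (fun j : ℤ => sz j * (tanh (((j : ℝ) - m) * t) -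
        tanh (((j : ℝ) - (m + 1)) * t))) 0 := by
      have h2 := ((Equiv.subRight (m : ℤ)).hasSum_iff.mpr (hasSum_tanh_alt ht)).mul_left (sz m)
      rw [mul_zero] at h2
      refine h2.congr_fun ?_ |> fun h => h
      intro j
      simp only [Function.comp, Equiv.subRight_apply]
      rw [sz_sub]
      have h3 := sz_sq m
      have h4 : sz m * (sz j * sz m * (tanh (((j - m : ℤ) : ℝ) * t) -
          tanh ((((j - m : ℤ) : ℝ) - 1) * t))) = sz j * (tanh (((j - m : ℤ) : ℝ) * t) -
          tanh ((((j - m : ℤ) : ℝ) - 1) * t)) := by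
        linear_combination (sz j * (tanh (((j - m : ℤ) : ℝ) * t) -
          tanh ((((j - m : ℤ) : ℝ) - 1) * t))) * h3
      rw [h4]
      push_cast
      ring_nf
    have h3 := ih.add h1
    rw [add_zero] at h3
    refine h3.congr_fun ?_ |> fun h => h
    intro j
    push_cast
    ring

/-- the coefficients of the square -/
theorem coef_sq {m : ℕ} (hm : m ≠ 0) :
    ∑' j : ℤ, sech (j * t) * sech (((m : ℤ) - j : ℤ) * t) = 2 * m / sinh (m * t) := by
  have hm' : (0 : ℝ) < m := by exact_mod_cast Nat.pos_of_ne_zero hm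
  have hs : 0 < sinh (m * t) := by rw [sinh_pos_iff]; positivity
  rw [eq_div_iff hs.ne', ← tsum_mul_right, ← (hasSum_tanh_m ht m).tsum_eq]
  apply tsum_congr
  intro j
  rw [← sech_mul]
  have e1 : (((m : ℤ) - j : ℤ) : ℝ) * t = -(((j : ℝ) - m) * t) := by push_cast; ring
  have e2 : (j : ℝ) * t - ((j : ℝ) - m) * t = m * t := by ring
  rw [e1, sech_neg, e2]

/-- the mixed coefficients vanish -/
theorem coef_mix {m : ℤ} (hm : m ≠ 0) :
    ∑' j : ℤ, sz j * sech (j * t) * sech ((m - j : ℤ) * t) = 0 := by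
  have key : ∀ m : ℕ, m ≠ 0 → ∑' j : ℤ, sz j * sech (j * t) * sech (((m : ℤ) - j : ℤ) * t) = 0 := by
    intro m hm
    have hm' : (0 : ℝ) < m := by exact_mod_cast Nat.pos_of_ne_zero hm
    have hs : 0 < sinh (m * t) := by rw [sinh_pos_iff]; positivity
    have h1 : (∑' j : ℤ, sz j * sech (j * t) * sech (((m : ℤ) - j : ℤ) * t)) * sinh (m * t) = 0 := by
      rw [← tsum_mul_right, ← (hasSum_tanh_alt_m ht m).tsum_eq]
      apply tsum_congr
      intro j
      rw [← sech_mul]
      have e1 : (((m : ℤ) - j : ℤ) : ℝ) * t = -(((j : ℝ) - m) * t) := by push_cast; ring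
      have e2 : (j : ℝ) * t - ((j : ℝ) - m) * t = m * t := by ring
      rw [e1, sech_neg, e2]
      ring
    rcases mul_eq_zero.mp h1 with h | h
    · exact h
    · exact absurd h hs.ne'
  rcases Int.natAbs_eq m with h | h
  · rw [h]
    apply key
    intro h0
    rw [h0] at h
    exact hm (by simpa using h)
  · have h2 := key m.natAbs (by intro h0; rw [h0] at h; exact hm (by simpa using h))
    rw [← (Equiv.neg ℤ).tsum_eq] at h2
    rw [← h2]
    apply tsum_congr
    intro j
    simp only [Equiv.neg_apply]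
    rw [sz_neg]
    have e1 : ((-j : ℤ) : ℝ) * t = -((j : ℝ) * t) := by push_cast; ring
    have e2 : (((m.natAbs : ℤ) - -j : ℤ) : ℝ) * t = -(((m - j : ℤ) : ℝ) * t) := by
      have h3 : (m.natAbs : ℤ) = -m := by omega
      rw [h3]; push_cast; ring
    rw [e1, e2, sech_neg, sech_neg]

end

/-- `∑ (-1)^m sech (m t)` -/
noncomputable def AZ (t : ℝ) : ℝ := ∑' j : ℤ, sz j * sech (j * t)

/-- `∑ sech (m t)` -/
noncomputable def SZ (t : ℝ) : ℝ := ∑' j : ℤ, sech (j * t)

/-- `∑ (-1)^m sech (m t)^2` -/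
noncomputable def BZ (t : ℝ) : ℝ := ∑' j : ℤ, sz j * sech (j * t) ^ 2

theorem AZ_mul_SZ {t : ℝ} (ht : 0 < t) : AZ t * SZ t = BZ t := by
  unfold AZ SZ BZ
  rw [conv (summable_norm_sz ht) (summable_norm_z ht), tsum_eq_single 0]
  · apply tsum_congr
    intro j
    have e : (((0 : ℤ) - j : ℤ) : ℝ) * t = -((j : ℝ) * t) := by push_cast; ring
    rw [e, sech_neg]; ring
  · intro m hm
    exact coef_mix ht hm

/-- a sum over the integers of an even function -/
theorem tsum_even {f : ℤ → ℝ} (hf : Summable f) (hs : ∀ j, f (-j) = f j) :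
    ∑' j : ℤ, f j = f 0 + 2 * ∑' m : ℕ, f (m + 1) := by
  have h1 : Summable fun n : ℕ => f n := hf.comp_injective Nat.cast_injective
  have h2 : (fun n : ℕ => f (-((n : ℤ) + 1))) = fun n : ℕ => f ((n : ℤ) + 1) := by
    funext n
    exact hs _
  have h3 : Summable fun n : ℕ => f ((n : ℤ) + 1) := by
    rw [← summable_nat_add_iff 1] at h1
    simpa using h1
  rw [tsum_of_nat_of_neg_add_one h1 (by rw [h2]; exact h3), h2, h1.tsum_eq_zero_add]
  simp only [Nat.cast_zero, Nat.cast_add, Nat.cast_one]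
  ring

/-- the square of the alternating sum -/
theorem AZ_sq {t : ℝ} (ht : 0 < t) : AZ t ^ 2 = ∑' j : ℤ, sech (j * t) ^ 2 +
    2 * ∑' m : ℕ, (-1) ^ (m + 1) * (2 * ((m : ℝ) + 1) / sinh (((m : ℝ) + 1) * t)) := by
  have h1 : AZ t ^ 2 = ∑' m : ℤ, sz m * ∑' j : ℤ, sech (j * t) * sech ((m - j : ℤ) * t) := by
    unfold AZ
    rw [sq, conv (summable_norm_sz ht) (summable_norm_sz ht)]
    apply tsum_congr
    intro m
    rw [← tsum_mul_left]
    apply tsum_congr
    intro j
    rw [sz_sub]
    linear_combination (sech (j * t) * sech ((m - j : ℤ) * t) * sz m) * sz_sq j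
  have hsum : Summable fun m : ℤ => sz m * ∑' j : ℤ, sech (j * t) * sech ((m - j : ℤ) * t) := by
    have hs : Summable (fun p : ℤ × ℤ => (sz p.1 * sech (p.1 * t)) * (sz p.2 * sech (p.2 * t))) :=
      summable_mul_of_summable_norm (summable_norm_sz ht) (summable_norm_sz ht)
    let e : ℤ × ℤ ≃ ℤ × ℤ :=
      { toFun := fun p => (p.2, p.1 - p.2)
        invFun := fun p => (p.1 + p.2, p.1)
        left_inv := fun p => by simp
        right_inv := fun p => by simp }
    have h2 := (hs.comp_injective e.injective).prod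
    refine h2.congr fun m => ?_
    rw [← tsum_mul_left]
    apply tsum_congr
    intro j
    simp only [Function.comp, e, Equiv.coe_fn_mk]
    rw [sz_sub]
    linear_combination (sech (j * t) * sech ((m - j : ℤ) * t) * sz m) * sz_sq j
  have hev : ∀ m : ℤ, sz (-m) * ∑' j : ℤ, sech (j * t) * sech ((-m - j : ℤ) * t) =
      sz m * ∑' j : ℤ, sech (j * t) * sech ((m - j : ℤ) * t) := by
    intro m
    rw [sz_neg, ← (Equiv.neg ℤ).tsum_eq]
    congr 1
    apply tsum_congr
    intro j
    simp only [Equiv.neg_apply]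
    have e1 : ((-j : ℤ) : ℝ) * t = -((j : ℝ) * t) := by push_cast; ring
    have e2 : (((-m - -j : ℤ)) : ℝ) * t = -(((m - j : ℤ) : ℝ) * t) := by push_cast; ring
    rw [e1, e2, sech_neg, sech_neg]
  rw [h1, tsum_even hsum hev]
  congr 1
  · rw [sz_zero, one_mul]
    apply tsum_congr
    intro j
    have e : (((0 : ℤ) - j : ℤ) : ℝ) * t = -((j : ℝ) * t) := by push_cast; ring
    rw [e, sech_neg]; ring
  · congr 1
    apply tsum_congr
    intro m
    have h2 := coef_sq ht (Nat.succ_ne_zero m)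
    have h3 : sz ((m : ℤ) + 1) = (-1) ^ (m + 1) := by
      have := sz_nat (m + 1)
      push_cast at this
      exact this
    rw [h3]
    congr 1
    push_cast at h2
    rw [← h2]
    apply tsum_congr
    intro j
    push_cast
    rfl

end Pool.Agent.Lib.MP_0430e4_lc.AC.Iq
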