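import Pool.Agent.Lib.MP_0430e4_lc.AC.Defs
import Pool.Agent.Lib.MP_0430e4_lc.BY.Final

/-!
Project ALLCODES: assembly (helper1).
-/

set_option autoImplicit false

open Finset Filter Topology

namespace Pool.Agent.Lib.MP_0430e4_lc.AC

open BY BY.Four

theorem norm_ph (a : ℝ) : ‖ph a‖ = 1 := Complex.norm_exp_ofReal_mul_I a

theorem lz_inj {n : ℕ} : Function.Injective (lz : Wd n → (Fin n → ℤ)) := by
  intro x y h
  funext i
  have h1 := congrFun h i
  unfold lz at h1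
  have h2 : (x i).val = (y i).val := by exact_mod_cast h1
  exact ZMod.val_injective 2 h2

theorem lz_01M {n : ℕ} (x : Wd n) (i : Fin n) : lz x i = 0 ∨ lz x i = 1 := by
  unfold lz
  rcases z01 (x i) with h | h
  · left; rw [h]; rfl
  · right; rw [h]; rfl

theorem ph_two_pi (a : ℝ) (j s : ℤ) : ph ((a + 2 * Real.pi * j) * s) = ph (a * s) := by
  unfold ph
  have h : (((a + 2 * Real.pi * j) * s : ℝ) : ℂ) * Complex.I =
      ((a * s : ℝ) : ℂ) * Complex.I + ((j * s : ℤ) : ℂ) * (2 * Real.pi * Complex.I) := by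
    push_cast; ring
  rw [h, Complex.exp_add, Complex.exp_int_mul_two_pi_mul_I, mul_one]

theorem Box_period {n : ℕ} (A : Finset (Fin n → ℤ)) (a : ℝ) (j : ℤ) :
    Box A (a + 2 * Real.pi * j) = Box A a := by
  unfold Box
  simp only [ph_two_pi]

theorem Box_negM {n : ℕ} (A : Finset (Fin n → ℤ)) (a : ℝ) : Box A (-a) = Box A a := by
  unfold Box
  apply Finset.sum_congr rfl; intro y _
  apply Finset.sum_congr rfl; intro y' _
  rw [← Complex.norm_conj (∑ x ∈ A, ph (a * _))]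
  congr 2
  rw [map_sum]
  apply Finset.sum_congr rfl; intro x _
  unfold ph
  rw [← Complex.exp_conj]
  congr 1
  simp

theorem norm_Bs_le {n : ℕ} (A : Finset (Wd n)) (ψ : ℝ) : ‖Bs A ψ‖ ≤ (A.card : ℝ) ^ 2 := by
  unfold Bs
  refine (norm_sum_le _ _).trans ?_
  calc ∑ x ∈ A, ‖∑ y ∈ A, ph (ψ * (wt (x - y) : ℝ))‖ ≤ ∑ x ∈ A, (A.card : ℝ) := by
        apply Finset.sum_le_sum; intro x _
        refine (norm_sum_le _ _).trans ?_
        simp [norm_ph]
    _ = (A.card : ℝ) ^ 2 := by rw [Finset.sum_const, nsmul_eq_mul, sq]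

theorem noAlign_of (hM : MultS) (hP : PieceS) (hB : BoxS) (hS : SmallS) : NoAlign := by
  intro R p0 θ1 θ2 m hp0 hp1 hθ1 h12 hθ2 hcond
  have hπ := Real.pi_pos
  have hθ20 : 0 < θ2 := hθ1.trans_le h12
  have hθ2' : θ2 < Real.pi / 2 := by linarith
  have ht0 : 0 ≤ Real.tan θ2 := (Real.tan_pos_of_pos_of_lt_pi_div_two hθ20 hθ2').le
  have ht1 : Real.tan θ2 < 1 := by
    rw [← Real.tan_pi_div_four]
    exact Real.tan_lt_tan_of_nonneg_of_lt_pi_div_two hθ20.le (by linarith) hθ2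
  obtain ⟨c, hc, hP⟩ := hP R p0 (Real.tan θ2) hp0 hp1 ht0 ht1 hcond
  have hcos0 : 0 < Real.cos θ1 := Real.cos_pos_of_mem_Ioo ⟨by linarith, by linarith⟩
  have hcos1 : Real.cos θ1 < 1 := by
    rw [← Real.cos_zero]
    exact Real.cos_lt_cos_of_nonneg_of_le_pi_div_two le_rfl (by linarith) hθ1
  set g : ℝ := c * (-Real.logb 2 (Real.cos θ1)) with hg
  have hlog : Real.logb 2 (Real.cos θ1) < 0 := Real.logb_neg (by norm_num) hcos0 hcos1
  have hg0 : 0 < g := mul_pos hc (by linarith)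
  obtain ⟨τM, hτM, nM, hM⟩ := hM m (g / 4) (by positivity)
  set τ' : ℝ := min (g / 4) (τM / 4) with hτ'
  have hτ'0 : 0 < τ' := lt_min (by positivity) (by positivity)
  obtain ⟨τ, hτ, nP', hP⟩ := hP τ' hτ'0
  refine ⟨τ, hτ, max (max nM nP') 1, ?_⟩
  intro n hn C hC hTyp p ψ hpp hp1' ⟨j, hj1, hj2⟩ hAmp
  have hn1 : nM ≤ n := (le_max_left _ _).trans ((le_max_left _ _).trans hn)
  have hn2 : nP' ≤ n := (le_max_right _ _).trans ((le_max_left _ _).trans hn)
  have hn3 : 1 ≤ n := (le_max_right _ _).trans hn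
  set θ : ℝ := |m * ψ - Real.pi * j| / 2 with hθ
  have hθa : θ1 ≤ θ := by rw [hθ]; linarith
  have hθb : θ ≤ θ2 := by rw [hθ]; linarith
  have hθ0 : 0 < θ := hθ1.trans_le hθa
  have hθπ : θ < Real.pi / 4 := hθb.trans_lt hθ2
  have htt0 : 0 ≤ Real.tan θ := (Real.tan_pos_of_pos_of_lt_pi_div_two hθ0 (by linarith)).le
  have htt2 : Real.tan θ ≤ Real.tan θ2 := by
    rcases hθb.eq_or_lt with h | h
    · rw [h]
    · exact (Real.tan_lt_tan_of_nonneg_of_lt_pi_div_two hθ0.le hθ2' h).le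
  obtain ⟨T, A, hAC, hAne, hTc, hAT, hA⟩ := hP n hn2 C hC hTyp p ψ (Real.tan θ) hpp hp1' htt0 htt2 hAmp
  have hcard : ((A.image lz).card : ℝ) = A.card := by
    rw [Finset.card_image_of_injective _ lz_inj]
  have ha : (0 : ℝ) < A.card := by exact_mod_cast hAne.card_pos
  have hwle : ∀ x ∈ A, ∀ y ∈ A, 0 ≤ (1 + Real.tan θ) ^ (T.card - wt (x - y)) *
      (1 - Real.tan θ) ^ wt (x - y) := by
    intro x _ y _
    have : Real.tan θ ≤ 1 := htt2.trans ht1.le
    apply mul_nonneg <;> apply pow_nonneg <;> linarith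
  have hQ0 : 0 ≤ Qt A T.card (Real.tan θ) :=
    Finset.sum_nonneg fun x hx => Finset.sum_nonneg fun y hy => hwle x hx y hy
  have hb1 : pw n (-τ') * (A.card : ℝ) ^ 2 ≤ ‖Bs A ψ‖ := by
    refine le_trans ?_ hA
    apply mul_le_mul_of_nonneg_left _ (pw_pos n _).le
    linarith
  have hb2 : pw n (-τ') * Qt A T.card (Real.tan θ) ≤ (A.card : ℝ) ^ 2 := by
    refine le_trans ?_ (hA.trans (norm_Bs_le A ψ))
    apply mul_le_mul_of_nonneg_left _ (pw_pos n _).le
    have := sq_nonneg (A.card : ℝ)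
    linarith
  have hb3 : Qt A T.card (Real.tan θ) ≤ pw n τ' * (A.card : ℝ) ^ 2 := by
    have h1 : pw n τ' * pw n (-τ') = 1 := by rw [← pw_add, add_neg_cancel, pw_zero]
    calc Qt A T.card (Real.tan θ) = pw n τ' * (pw n (-τ') * Qt A T.card (Real.tan θ)) := by
          rw [← mul_assoc, h1, one_mul]
      _ ≤ _ := mul_le_mul_of_nonneg_left hb2 (pw_pos n _).le
  -- the box norm at `2ψ`
  have hbox1 : pw n (-τM) * ((A.image lz).card : ℝ) ^ 4 ≤ Box (A.image lz) (2 * ψ) := by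
    rw [hcard]
    have h1 := hB n A ψ
    have h2 : (pw n (-τ') * (A.card : ℝ) ^ 2) ^ 4 ≤ ‖Bs A ψ‖ ^ 4 :=
      pow_le_pow_left₀ (mul_nonneg (pw_pos n _).le (sq_nonneg _)) hb1 4
    have h3 : (pw n (-τ') * (A.card : ℝ) ^ 2) ^ 4 =
        (A.card : ℝ) ^ 4 * (pw n (4 * -τ') * (A.card : ℝ) ^ 4) := by
      rw [mul_pow, pw_pow]
      push_cast
      ring
    rw [h3] at h2
    have h4 := le_of_mul_le_mul_left (h2.trans h1) (by positivity)
    refine le_trans ?_ h4
    apply mul_le_mul_of_nonneg_right _ (by positivity)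
    apply pw_mono
    have := min_le_right (g / 4) (τM / 4)
    linarith
  have hbox2 := hM n hn1 (A.image lz) (hAne.image _) (by
    intro x hx i
    obtain ⟨x', _, rfl⟩ := Finset.mem_image.mp hx
    exact lz_01M x' i) (2 * ψ) hbox1
  have hbox3 : Box (A.image lz) (m * (2 * ψ)) = Box (A.image lz) (4 * θ) := by
    have h1 : m * (2 * ψ) = 2 * (m * ψ - Real.pi * j) + 2 * Real.pi * j := by ring
    rw [h1, Box_period]
    rcases abs_choice (m * ψ - Real.pi * j) with h | h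
    · congr 1
      rw [hθ, h]; ring
    · rw [← Box_negM]
      congr 1
      rw [hθ, h]; ring
  rw [hbox3, hcard] at hbox2
  have hsm := hS n A T θ hθ0.le hθπ hAT
  have hcosθ0 : 0 ≤ Real.cos θ := Real.cos_nonneg_of_mem_Icc ⟨by linarith, by linarith⟩
  have hcosθ : Real.cos θ ≤ Real.cos θ1 :=
    Real.cos_le_cos_of_nonneg_of_le_pi hθ1.le (by linarith) hθa
  have hkey : pw n (-(g / 4)) * (A.card : ℝ) ^ 4 ≤
      (A.card : ℝ) ^ 4 * (Real.cos θ ^ T.card * pw n τ') := by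
    refine hbox2.trans (hsm.trans ?_)
    calc (A.card : ℝ) ^ 2 * (Real.cos θ ^ T.card * Qt A T.card (Real.tan θ))
        ≤ (A.card : ℝ) ^ 2 * (Real.cos θ ^ T.card * (pw n τ' * (A.card : ℝ) ^ 2)) := by
          apply mul_le_mul_of_nonneg_left _ (by positivity)
          exact mul_le_mul_of_nonneg_left hb3 (pow_nonneg hcosθ0 _)
      _ = _ := by ring
  have hkey2 : pw n (-(g / 4)) ≤ Real.cos θ ^ T.card * pw n τ' := by
    rw [mul_comm] at hkey
    exact le_of_mul_le_mul_left hkey (by positivity)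
  have hcosT : Real.cos θ ^ T.card ≤ pw n (-g) := by
    calc Real.cos θ ^ T.card ≤ Real.cos θ1 ^ T.card := pow_le_pow_left₀ hcosθ0 hcosθ _
      _ = Real.cos θ1 ^ (T.card : ℝ) := (Real.rpow_natCast _ _).symm
      _ ≤ Real.cos θ1 ^ (c * n) :=
          Real.rpow_le_rpow_of_exponent_ge hcos0 hcos1.le hTc
      _ = pw n (-g) := by
          unfold pw
          rw [hg]
          have h1 : Real.cos θ1 = (2 : ℝ) ^ Real.logb 2 (Real.cos θ1) :=
            (Real.rpow_logb (by norm_num) (by norm_num) hcos0).symm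
          conv_lhs => rw [h1]
          rw [← Real.rpow_mul (by norm_num)]
          congr 1; ring
  have hfin : pw n (-(g / 4)) ≤ pw n (-(3 * g / 4)) := by
    calc pw n (-(g / 4)) ≤ Real.cos θ ^ T.card * pw n τ' := hkey2
      _ ≤ pw n (-g) * pw n (g / 4) := by
          apply mul_le_mul hcosT (pw_mono n (min_le_left _ _)) (pw_pos n _).le (pw_pos n _).le
      _ = pw n (-(3 * g / 4)) := by rw [← pw_add]; congr 1; ring
  have hn' : (1 : ℝ) ≤ n := by exact_mod_cast hn3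
  have hlt : pw n (-(3 * g / 4)) < pw n (-(g / 4)) := by
    unfold pw
    apply Real.rpow_lt_rpow_of_exponent_lt (by norm_num)
    nlinarith
  linarith

/-- `R(δ) < L(δ)` from the two analytic inputs (`L` = any number) -/
theorem rate_le_of (hN : NoAlign) {δ L : ℝ} (hT : TypD δ L) (hF : Forced δ L) :
    ∃ ε : ℝ, 0 < ε ∧ Rr δ ≤ L - ε := by
  obtain ⟨ψ0, ρ, p0, hρ, hp0, hp1, hcond, hF⟩ := hF
  have hπ := Real.pi_pos
  -- a small angle `θ2`
  obtain ⟨θ2, hθ20, hθ2π, hθ2c⟩ : ∃ θ2 : ℝ, 0 < θ2 ∧ θ2 < Real.pi / 4 ∧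
      (1 + p0 * Real.tan θ2) * (2 : ℝ) ^ (1 - (L - θ2)) < 1 + p0 := by
    have hcont : ContinuousAt (fun θ : ℝ => (1 + p0 * Real.tan θ) * (2 : ℝ) ^ (1 - (L - θ))) 0 := by
      apply ContinuousAt.mul
      · apply continuousAt_const.add
        apply continuousAt_const.mul
        exact Real.continuousAt_tan.mpr (by rw [Real.cos_zero]; norm_num)
      · apply ContinuousAt.rpow continuousAt_const (by fun_prop)
        left; norm_num
    have h0 : (fun θ : ℝ => (1 + p0 * Real.tan θ) * (2 : ℝ) ^ (1 - (L - θ))) 0 < 1 + p0 := by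
      simp only [Real.tan_zero, mul_zero, add_zero, one_mul, sub_zero]
      exact hcond
    have h1 := hcont.eventually_lt_const h0
    obtain ⟨r, hr, h2⟩ := Metric.eventually_nhds_iff.mp h1
    refine ⟨min (r / 2) (Real.pi / 8), lt_min (by positivity) (by positivity), ?_, ?_⟩
    · have := min_le_right (r / 2) (Real.pi / 8); linarith
    · apply h2
      rw [Real.dist_eq, sub_zero, abs_of_pos (lt_min (by positivity) (by positivity))]
      have := min_le_left (r / 2) (Real.pi / 8); linarith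
  set θ1 : ℝ := θ2 / 2 with hθ1
  obtain ⟨m, hm⟩ := exists_nat_gt (max ((Real.pi + 2 * θ2) / ρ) 1)
  have hm1 : (Real.pi + 2 * θ2) / ρ < m := lt_of_le_of_lt (le_max_left _ _) hm
  have hm0 : (0 : ℝ) < m := lt_of_lt_of_le one_pos ((le_max_right _ _).trans hm.le)
  set j : ℤ := ⌊(m * ψ0 - 2 * θ2) / Real.pi⌋ with hj
  have hj1 : Real.pi * j ≤ m * ψ0 - 2 * θ2 := by
    have := Int.floor_le ((m * ψ0 - 2 * θ2) / Real.pi)
    rw [le_div_iff₀ hπ] at this
    rw [hj]; linarith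
  have hj2 : m * ψ0 - 2 * θ2 < Real.pi * j + Real.pi := by
    have := Int.lt_floor_add_one ((m * ψ0 - 2 * θ2) / Real.pi)
    rw [div_lt_iff₀ hπ] at this
    rw [hj]; linarith
  obtain ⟨τ, hτ, n1, hN⟩ := hN (L - θ2) p0 θ1 θ2 m hp0 hp1 (by positivity) (by linarith) hθ2π hθ2c
  have ha : ψ0 - ρ ≤ (Real.pi * j + 2 * θ1) / m := by
    rw [le_div_iff₀ hm0]
    rw [div_lt_iff₀ hρ] at hm1
    nlinarith
  have hb : (Real.pi * j + 2 * θ2) / m ≤ ψ0 := by
    rw [div_le_iff₀ hm0]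
    linarith
  have hab : (Real.pi * j + 2 * θ1) / m < (Real.pi * j + 2 * θ2) / m := by
    apply div_lt_div_of_pos_right _ hm0
    linarith
  obtain ⟨ε2, hε2, n2, hF⟩ := hF _ _ ha hab hb τ hτ
  obtain ⟨n3, hT⟩ := hT (τ / 2) (by positivity)
  set ε : ℝ := min ε2 (min θ2 (τ / 2)) with hε
  have hε0 : 0 < ε := lt_min hε2 (lt_min hθ20 (by positivity))
  have hεa : ε ≤ ε2 := min_le_left _ _
  have hεb : ε ≤ θ2 := (min_le_right _ _).trans (min_le_left _ _)
  have hεc : ε ≤ τ / 2 := (min_le_right _ _).trans (min_le_right _ _)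
  refine ⟨ε, hε0, Rr_le_of ⟨max n1 (max n2 n3), ?_⟩⟩
  intro n hn C hC
  have hn1 : n1 ≤ n := (le_max_left _ _).trans hn
  have hn2 : n2 ≤ n := (le_max_left _ _).trans ((le_max_right _ _).trans hn)
  have hn3 : n3 ≤ n := (le_max_right _ _).trans ((le_max_right _ _).trans hn)
  by_contra hcon
  push Not at hcon
  have hc1 : pw n (L - ε2) ≤ C.card := (pw_mono n (by linarith)).trans hcon
  have hc2 : pw n (L - θ2) ≤ C.card := (pw_mono n (by linarith)).trans hcon
  have hTyp : Typ C τ := by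
    intro w hw1 hw2
    refine (hT n hn3 C hC w hw1 hw2).trans ?_
    apply mul_le_mul_of_nonneg_right _ (Nat.cast_nonneg _)
    rw [sq, mul_assoc]
    apply mul_le_mul_of_nonneg_left _ (Nat.cast_nonneg _)
    calc pw n (L - 1 + τ / 2) ≤ pw n ((L - ε) + (τ - 1)) := pw_mono n (by linarith)
      _ = pw n (L - ε) * pw n (τ - 1) := pw_add _ _ _
      _ ≤ C.card * pw n (τ - 1) := mul_le_mul_of_nonneg_right hcon (pw_pos n _).le
  obtain ⟨p, ψ, hp1, hp2, hψ1, hψ2, hA⟩ := hF n hn2 C hC hc1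
  refine hN n hn1 C hc2 hTyp p ψ hp1 hp2 ⟨j, ?_, ?_⟩ hA
  · rw [div_le_iff₀ hm0] at hψ1
    refine le_trans ?_ (le_abs_self _)
    linarith
  · rw [le_div_iff₀ hm0] at hψ2
    rw [div_le_iff₀ hm0] at hψ1
    rw [abs_of_nonneg (by linarith)]
    linarith

end Pool.Agent.Lib.MP_0430e4_lc.AC
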