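import Pool.Agent.Lib.MP_0430e4_lc.AC.Up

/-!
Project ALLCODES: assembly from `NoAlignX`, `TypD`, `Forced'` (helper1).
-/

set_option autoImplicit false

open Finset Filter Topology

namespace Pool.Agent.Lib.MP_0430e4_lc.AC

open BY BY.Four

variable {n : ℕ}

theorem ph_neg_mul (ψ : ℝ) : ph (-ψ) * ph ψ = 1 := by
  unfold ph
  rw [← Complex.exp_add]
  have : ((-ψ : ℝ) : ℂ) * Complex.I + (ψ : ℂ) * Complex.I = 0 := by push_cast; ring
  rw [this, Complex.exp_zero]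

/-- amplitude with `p ≤ 1` for the doubled code -/
theorem AmpW_of_le (C : Finset (Wd n)) {τ τ' p ψ : ℝ} (h4 : 4 * pw n (-1 - τ') ≤ pw n (-1 - τ))
    (hp0 : 0 ≤ p) (hA : Amp C τ p ψ) :
    AmpW (dbl C) (fun x => if x ∈ C then 1 else 0) (fun x => if x ∈ C then 1 else 0) τ' p ψ := by
  classical
  unfold AmpW
  unfold Amp at hA
  have hsub : C ⊆ dbl C := Finset.subset_union_left
  have e1 : ∑ x ∈ dbl C, ∑ y ∈ dbl C, (if x ∈ C then (1 : ℂ) else 0) * (if y ∈ C then (1 : ℂ) else 0) *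
      ((p : ℂ) * ph ψ) ^ wt (x - y) = ∑ x ∈ C, ∑ y ∈ C, ((p : ℂ) * ph ψ) ^ wt (x - y) := by
    rw [← Finset.sum_subset hsub]
    · apply Finset.sum_congr rfl; intro x hx
      rw [← Finset.sum_subset hsub]
      · apply Finset.sum_congr rfl; intro y hy
        rw [if_pos hx, if_pos hy, one_mul, one_mul]
      · intro y _ hy
        rw [if_neg hy]; ring
    · intro x _ hx
      apply Finset.sum_eq_zero; intro y _
      rw [if_neg hx]; ring
  rw [e1]
  refine le_trans ?_ hA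
  have h1 : ((dbl C).card : ℝ) ^ 2 ≤ 4 * (C.card : ℝ) ^ 2 := by
    have h2 : ((dbl C).card : ℝ) ≤ 2 * C.card := by exact_mod_cast card_dbl_le C
    have h3 : (0 : ℝ) ≤ (dbl C).card := Nat.cast_nonneg _
    nlinarith
  apply mul_le_mul_of_nonneg_right _ (by positivity)
  calc ((dbl C).card : ℝ) ^ 2 * pw n (-1 - τ') ≤ 4 * (C.card : ℝ) ^ 2 * pw n (-1 - τ') :=
        mul_le_mul_of_nonneg_right h1 (pw_pos n _).le
    _ = (C.card : ℝ) ^ 2 * (4 * pw n (-1 - τ')) := by ring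
    _ ≤ _ := mul_le_mul_of_nonneg_left h4 (by positivity)

/-- amplitude at `p ≥ 1` becomes amplitude at `1/p` between the code and its complement -/
theorem AmpW_of_ge (C : Finset (Wd n)) {τ τ' p ψ : ℝ} (h4 : 4 * pw n (-1 - τ') ≤ pw n (-1 - τ))
    (hp0 : 0 < p) (hA : Amp C τ p ψ) :
    AmpW (dbl C) (fun x => if x ∈ C then 1 else 0) (fun x => if x + onesU ∈ C then 1 else 0) τ' p⁻¹
      (-ψ) := by
  classical
  unfold AmpW
  unfold Amp at hA
  have hsub : C ⊆ dbl C := Finset.subset_union_left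
  have hsub2 : C.image (· + onesU) ⊆ dbl C := Finset.subset_union_right
  have hmem : ∀ y : Wd n, y + onesU ∈ C ↔ y ∈ C.image (· + onesU) := by
    intro y
    rw [Finset.mem_image]
    constructor
    · intro h
      exact ⟨y + onesU, h, by simp only [add_assoc, ones_add_ones, add_zero]⟩
    · rintro ⟨a, ha, rfl⟩
      simpa only [add_assoc, ones_add_ones, add_zero] using ha
  set q : ℂ := ((p⁻¹ : ℝ) : ℂ) * ph (-ψ) with hq
  set z : ℂ := (p : ℂ) * ph ψ with hz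
  have hqz : q * z = 1 := by
    have hpc : (p : ℂ) ≠ 0 := by exact_mod_cast hp0.ne'
    rw [hq, hz]
    have := ph_neg_mul ψ
    push_cast
    field_simp
    linear_combination this
  have e1 : ∑ x ∈ dbl C, ∑ y ∈ dbl C, (if x ∈ C then (1 : ℂ) else 0) *
      (if y + onesU ∈ C then (1 : ℂ) else 0) * q ^ wt (x - y) =
        ∑ x ∈ C, ∑ y ∈ C, q ^ (n - wt (x - y)) := by
    rw [← Finset.sum_subset hsub]
    · apply Finset.sum_congr rfl; intro x hx
      rw [← Finset.sum_subset hsub2]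
      · rw [Finset.sum_image fun a _ b _ h => add_ones_inj h]
        apply Finset.sum_congr rfl; intro y hy
        have hy' : y + onesU + onesU ∈ C := by
          simpa only [add_assoc, ones_add_ones, add_zero] using hy
        rw [if_pos hx, if_pos hy', one_mul, one_mul, wt_sub_ones]
      · intro y _ hy
        rw [if_neg (fun h => hy ((hmem y).1 h))]; ring
    · intro x _ hx
      apply Finset.sum_eq_zero; intro y _
      rw [if_neg hx]; ring
  rw [e1]
  have e2 : ∀ x y : Wd n, q ^ (n - wt (x - y)) = q ^ n * z ^ wt (x - y) := by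
    intro x y
    have h1 : q ^ n = q ^ (n - wt (x - y)) * q ^ wt (x - y) := by
      rw [← pow_add, Nat.sub_add_cancel (wt_le _)]
    rw [h1, mul_assoc, ← mul_pow, hqz, one_pow, mul_one]
  rw [Finset.sum_congr rfl fun x _ => Finset.sum_congr rfl fun y _ => e2 x y]
  simp only [← Finset.mul_sum]
  rw [norm_mul, norm_pow]
  have hqn : ‖q‖ = p⁻¹ := by
    rw [hq, norm_mul, norm_ph, mul_one, Complex.norm_real, Real.norm_eq_abs, abs_of_pos (by positivity)]
  rw [hqn]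
  have h1 : ((dbl C).card : ℝ) ^ 2 ≤ 4 * (C.card : ℝ) ^ 2 := by
    have h2 : ((dbl C).card : ℝ) ≤ 2 * C.card := by exact_mod_cast card_dbl_le C
    have h3 : (0 : ℝ) ≤ (dbl C).card := Nat.cast_nonneg _
    nlinarith
  have h5 : ((dbl C).card : ℝ) ^ 2 * pw n (-1 - τ') ≤ (C.card : ℝ) ^ 2 * pw n (-1 - τ) := by
    calc ((dbl C).card : ℝ) ^ 2 * pw n (-1 - τ') ≤ 4 * (C.card : ℝ) ^ 2 * pw n (-1 - τ') :=
          mul_le_mul_of_nonneg_right h1 (pw_pos n _).le
      _ = (C.card : ℝ) ^ 2 * (4 * pw n (-1 - τ')) := by ring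
      _ ≤ _ := mul_le_mul_of_nonneg_left h4 (by positivity)
  calc ((dbl C).card : ℝ) ^ 2 * pw n (-1 - τ') * (1 + p⁻¹) ^ n
      ≤ (C.card : ℝ) ^ 2 * pw n (-1 - τ) * (1 + p⁻¹) ^ n :=
        mul_le_mul_of_nonneg_right h5 (by positivity)
    _ = p⁻¹ ^ n * ((C.card : ℝ) ^ 2 * pw n (-1 - τ) * (1 + p) ^ n) := by
        have h6 : (1 + p⁻¹) = p⁻¹ * (1 + p) := by field_simp; ring
        rw [h6, mul_pow]; ring
    _ ≤ _ := mul_le_mul_of_nonneg_left hA (by positivity)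

/-- the choice of the small angle -/
theorem exists_theta {p0 v0 : ℝ} (hp0 : 0 < p0) (h : v0 < p0) : ∃ θ : ℝ, 0 < θ ∧
    θ < Real.pi / 4 ∧
      v0 * (1 - p0 + p0 * (Real.cos θ + Real.sin θ)) ≤ p0 * (Real.cos θ - Real.sin θ) := by
  have hπ := Real.pi_pos
  have hcont : Continuous (fun θ : ℝ => v0 * (1 - p0 + p0 * (Real.cos θ + Real.sin θ)) -
      p0 * (Real.cos θ - Real.sin θ)) := by fun_prop
  have h0 : (fun θ : ℝ => v0 * (1 - p0 + p0 * (Real.cos θ + Real.sin θ)) -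
      p0 * (Real.cos θ - Real.sin θ)) 0 < 0 := by
    simp only [Real.cos_zero, Real.sin_zero, add_zero, sub_zero, mul_one]
    linarith
  have h1 := hcont.continuousAt.eventually_lt_const h0
  obtain ⟨r, hr, h2⟩ := Metric.eventually_nhds_iff.mp h1
  refine ⟨min (r / 2) (Real.pi / 8), lt_min (by positivity) (by positivity), ?_, ?_⟩
  · have := min_le_right (r / 2) (Real.pi / 8); linarith
  · have h3 := h2 (y := min (r / 2) (Real.pi / 8)) (by
      rw [Real.dist_eq, sub_zero, abs_of_pos (lt_min (by positivity) (by positivity))]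
      have := min_le_left (r / 2) (Real.pi / 8); linarith)
    linarith

/-- **assembly (A)**: `R(δ) ≤ L - ε` from the structure theorem and the two analytic inputs -/
theorem rate_le_ofX (hN : NoAlignX) {δ L : ℝ} (hT : TypD δ L) (hF : Forced' δ L) :
    ∃ ε : ℝ, 0 < ε ∧ Rr δ ≤ L - ε := by
  classical
  obtain ⟨ψ0, ρ, p0, hρ, hp0, hp1, hcond, hF⟩ := hF
  have hπ := Real.pi_pos
  -- `v0 < p0` and `R = L - ε1`
  obtain ⟨v0, hv00, hv0p, hv0c⟩ : ∃ v0 : ℝ, 0 < v0 ∧ v0 < p0 ∧ (2 : ℝ) ^ (1 - L) < 1 + v0 := by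
    refine ⟨max ((((2 : ℝ) ^ (1 - L) - 1) + p0) / 2) (p0 / 2), ?_, ?_, ?_⟩
    · exact lt_of_lt_of_le (by positivity) (le_max_right _ _)
    · apply max_lt <;> linarith
    · have := le_max_left ((((2 : ℝ) ^ (1 - L) - 1) + p0) / 2) (p0 / 2)
      linarith
  obtain ⟨ε1, hε10, hε1c⟩ : ∃ ε1 : ℝ, 0 < ε1 ∧ (2 : ℝ) ^ (1 - (L - ε1)) ≤ 1 + v0 := by
    have hcont : ContinuousAt (fun x : ℝ => (2 : ℝ) ^ (1 - (L - x))) 0 :=
      ContinuousAt.rpow continuousAt_const (by fun_prop) (by left; norm_num)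
    have h0 : (fun x : ℝ => (2 : ℝ) ^ (1 - (L - x))) 0 < 1 + v0 := by
      simp only [sub_zero]; exact hv0c
    have h1 := hcont.eventually_lt_const h0
    obtain ⟨r, hr, h2⟩ := Metric.eventually_nhds_iff.mp h1
    refine ⟨r / 2, by positivity, (h2 ?_).le⟩
    rw [Real.dist_eq, sub_zero, abs_of_pos (by positivity)]; linarith
  obtain ⟨θ2, hθ20, hθ2π, hθ2c⟩ := exists_theta hp0 hv0p
  set θ1 : ℝ := θ2 / 2 with hθ1
  obtain ⟨m, hm⟩ := exists_nat_gt (max ((Real.pi + 2 * θ2) / ρ) 1)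
  have hm1 : (Real.pi + 2 * θ2) / ρ < m := lt_of_le_of_lt (le_max_left _ _) hm
  have hm0 : (0 : ℝ) < m := lt_of_lt_of_le one_pos ((le_max_right _ _).trans hm.le)
  set j : ℤ := ⌊(m * ψ0 - 2 * θ2) / Real.pi⌋ with hj
  have hj1 : Real.pi * j ≤ m * ψ0 - 2 * θ2 := by
    have := Int.floor_le ((m * ψ0 - 2 * θ2) / Real.pi)
    rw [le_div_iff₀ hπ] at this
    rw [hj]; linarith
  have hj2 : m * ψ0 - 2 * θ2 < Real.pi * j + Real.pi := by
    have := Int.lt_floor_add_one ((m * ψ0 - 2 * θ2) / Real.pi)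
    rw [div_lt_iff₀ hπ] at this
    rw [hj]; linarith
  obtain ⟨τ, hτ, n1, hN⟩ := hN p0 v0 θ1 θ2 m hp0 hp1 (by positivity) (by linarith) hθ2π hθ2c
  have ha : ψ0 - ρ ≤ (Real.pi * j + 2 * θ1) / m := by
    rw [le_div_iff₀ hm0]
    rw [div_lt_iff₀ hρ] at hm1
    nlinarith
  have hb : (Real.pi * j + 2 * θ2) / m ≤ ψ0 := by
    rw [div_le_iff₀ hm0]
    linarith
  have hab : (Real.pi * j + 2 * θ1) / m < (Real.pi * j + 2 * θ2) / m := by
    apply div_lt_div_of_pos_right _ hm0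
    linarith
  obtain ⟨ε2, hε2, n2, hF⟩ := hF _ _ ha hab hb (τ / 2) (by positivity)
  obtain ⟨τT, hτT, n3, hU⟩ := WU_of_Typ (R := L - ε1) (τ' := τ) hv00 hε1c hτ
  obtain ⟨n4, hT⟩ := hT (τT / 2) (by positivity)
  obtain ⟨n5, hn5⟩ := pw_large 4 (show (0 : ℝ) < τ / 2 by positivity)
  set ε : ℝ := min ε2 (min ε1 (τT / 2)) with hε
  have hε0 : 0 < ε := lt_min hε2 (lt_min hε10 (by positivity))
  have hεa : ε ≤ ε2 := min_le_left _ _
  have hεb : ε ≤ ε1 := (min_le_right _ _).trans (min_le_left _ _)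
  have hεc : ε ≤ τT / 2 := (min_le_right _ _).trans (min_le_right _ _)
  refine ⟨ε, hε0, Rr_le_of ⟨max n1 (max n2 (max n3 (max n4 n5))), ?_⟩⟩
  intro n hn C hC
  have hn1 : n1 ≤ n := (le_max_left _ _).trans hn
  have hn' := (le_max_right _ _).trans hn
  have hn2 : n2 ≤ n := (le_max_left _ _).trans hn'
  have hn'' := (le_max_right _ _).trans hn'
  have hn3 : n3 ≤ n := (le_max_left _ _).trans hn''
  have hn''' := (le_max_right _ _).trans hn''
  have hn4 : n4 ≤ n := (le_max_left _ _).trans hn'''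
  have hn5' : n5 ≤ n := (le_max_right _ _).trans hn'''
  by_contra hcon
  push Not at hcon
  have hc1 : pw n (L - ε2) ≤ C.card := (pw_mono n (by linarith)).trans hcon
  have hc2 : pw n (L - ε1) ≤ C.card := (pw_mono n (by linarith)).trans hcon
  have hC0 : (0 : ℝ) < C.card := lt_of_lt_of_le (pw_pos n _) hcon
  have hCne : C.Nonempty := by rw [← Finset.card_pos]; exact_mod_cast hC0
  have hTyp : Typ C τT := by
    intro w hw1 hw2
    refine (hT n hn4 C hC w hw1 hw2).trans ?_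
    apply mul_le_mul_of_nonneg_right _ (Nat.cast_nonneg _)
    rw [sq, mul_assoc]
    apply mul_le_mul_of_nonneg_left _ (Nat.cast_nonneg _)
    calc pw n (L - 1 + τT / 2) ≤ pw n ((L - ε) + (τT - 1)) := pw_mono n (by linarith)
      _ = pw n (L - ε) * pw n (τT - 1) := pw_add _ _ _
      _ ≤ C.card * pw n (τT - 1) := mul_le_mul_of_nonneg_right hcon (pw_pos n _).le
  have hWU := hU n hn3 C hc2 hTyp
  have hdne : (dbl C).Nonempty := hCne.mono Finset.subset_union_left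
  obtain ⟨p, ψ, hp1', hp2, hψ1, hψ2, hA⟩ := hF n hn2 C hC hc1
  have h4 : 4 * pw n (-1 - τ) ≤ pw n (-1 - τ / 2) := by
    have h5 : pw n (-1 - τ / 2) = pw n (-1 - τ) * pw n (τ / 2) := by
      rw [← pw_add]; congr 1; ring
    rw [h5, mul_comm]
    exact mul_le_mul_of_nonneg_left (hn5 n hn5') (pw_pos n _).le
  rw [div_le_iff₀ hm0] at hψ1
  rw [le_div_iff₀ hm0] at hψ2
  have hang : 2 * θ1 ≤ m * ψ - Real.pi * j ∧ m * ψ - Real.pi * j ≤ 2 * θ2 := by
    constructor <;> linarith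
  have hang0 : 0 ≤ m * ψ - Real.pi * j := by linarith [hang.1]
  have hb1 : ∀ x : Wd n, ‖(if x ∈ C then (1 : ℂ) else 0)‖ ≤ 1 := by
    intro x; split_ifs <;> simp
  have hb2 : ∀ x : Wd n, ‖(if x + onesU ∈ C then (1 : ℂ) else 0)‖ ≤ 1 := by
    intro x; split_ifs <;> simp
  rcases le_total p 1 with hple | hpge
  · refine hN n hn1 (dbl C) hdne hWU _ _ hb1 hb1 p ψ hp1' hple ⟨j, ?_, ?_⟩
      (AmpW_of_le C h4 (hp0.le.trans hp1') hA)
    · rw [abs_of_nonneg hang0]; exact hang.1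
    · rw [abs_of_nonneg hang0]; exact hang.2
  · have hppos : 0 < p := by linarith
    have habs : |m * -ψ - Real.pi * ((-j : ℤ) : ℝ)| = m * ψ - Real.pi * j := by
      have : m * -ψ - Real.pi * ((-j : ℤ) : ℝ) = -(m * ψ - Real.pi * j) := by push_cast; ring
      rw [this, abs_neg, abs_of_nonneg hang0]
    refine hN n hn1 (dbl C) hdne hWU _ _ hb1 hb2 p⁻¹ (-ψ) ?_ ?_ ⟨-j, ?_, ?_⟩
      (AmpW_of_ge C h4 hppos hA)
    · rw [le_inv_comm₀ hp0 hppos]
      rw [← one_div, le_div_iff₀ hp0]; linarith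
    · exact inv_le_one_of_one_le₀ hpge
    · rw [habs]; exact hang.1
    · rw [habs]; exact hang.2

end Pool.Agent.Lib.MP_0430e4_lc.AC
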