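import Pool.Agent.Lib.MP_0430e4_lc.AC.Main2

/-!
Project ALLCODES: assembly from windows of angles (helper1). `ForcedW`: the amplitude is forced in
windows `[ψ0 - w, ψ0 - t3 w]` with `t3` fixed and `w` arbitrarily small (helper64).
-/

set_option autoImplicit false

open Finset Filter Topology

namespace Pool.Agent.Lib.MP_0430e4_lc.AC

open BY BY.Four

/-- **(FORCED AMPLITUDE)**, windows: `ψ ∈ [ψ0 - w, ψ0 - t3 w]`, `w` as small as we like. -/
def ForcedW (δ L : ℝ) : Prop := ∃ ψ0 p0 t3 : ℝ, 0 < p0 ∧ p0 ≤ 1 ∧ (2 : ℝ) ^ (1 - L) < 1 + p0 ∧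
  0 < t3 ∧ ∀ w1 : ℝ, 0 < w1 → ∃ w : ℝ, 0 < w ∧ w ≤ w1 ∧ ∀ τ : ℝ, 0 < τ →
    ∃ ε : ℝ, 0 < ε ∧ ∃ n0 : ℕ, ∀ n ≥ n0, ∀ C : Finset (Wd n), IsCode ⌈δ * n⌉₊ C →
      pw n (L - ε) ≤ C.card → ∃ p ψ : ℝ, p0 ≤ p ∧ p0 * p ≤ 1 ∧ ψ0 - w ≤ ψ ∧ ψ ≤ ψ0 - t3 * w ∧
        Amp C τ p ψ

theorem Forced'.toW {δ L : ℝ} (h : Forced' δ L) : ForcedW δ L := by
  obtain ⟨ψ0, ρ, p0, hρ, hp0, hp1, hc, h⟩ := h
  refine ⟨ψ0, p0, 1 / 2, hp0, hp1, hc, by norm_num, fun w1 hw1 => ?_⟩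
  have hw : 0 < min w1 ρ := lt_min hw1 hρ
  refine ⟨min w1 ρ, hw, min_le_left _ _, fun τ hτ => ?_⟩
  have h1 := min_le_right w1 ρ
  exact h _ _ (by linarith) (by linarith) (by linarith) τ hτ

variable {n : ℕ}

theorem WU.mono {C : Finset (Wd n)} {τ τ' v0 : ℝ} (h : τ ≤ τ') (hv : 0 ≤ v0) (hW : WU C τ v0) :
    WU C τ' v0 := by
  intro v h1 h2
  refine (hW v h1 h2).trans ?_
  have : 0 ≤ v := hv.trans h1
  apply mul_le_mul_of_nonneg_right _ (by positivity)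
  apply mul_le_mul_of_nonneg_left _ (by positivity)
  exact pw_mono n (by linarith)

theorem AmpW.mono {C : Finset (Wd n)} {f g : Wd n → ℂ} {τ τ' p ψ : ℝ} (h : τ ≤ τ') (hp : 0 ≤ p)
    (hA : AmpW C f g τ p ψ) : AmpW C f g τ' p ψ := by
  unfold AmpW at hA ⊢
  refine le_trans ?_ hA
  apply mul_le_mul_of_nonneg_right _ (by positivity)
  apply mul_le_mul_of_nonneg_left _ (by positivity)
  exact pw_mono n (by linarith)

/-- `NoAlignX` for finitely many `m` at once -/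
theorem noAlign_fin (hN : NoAlignX) {p0 v0 θ1 θ2 : ℝ} (hp0 : 0 < p0) (hp1 : p0 ≤ 1)
    (hv0 : 0 ≤ v0) (hθ1 : 0 < θ1) (h12 : θ1 ≤ θ2) (hθ2 : θ2 < Real.pi / 4)
    (hc : v0 * (1 - p0 + p0 * (Real.cos θ2 + Real.sin θ2)) ≤ p0 * (Real.cos θ2 - Real.sin θ2))
    (M : ℕ) : ∃ τ : ℝ, 0 < τ ∧ ∃ n0 : ℕ, ∀ m ≤ M, ∀ n ≥ n0, ∀ C : Finset (Wd n), C.Nonempty →
      WU C τ v0 → ∀ f g : Wd n → ℂ, (∀ x, ‖f x‖ ≤ 1) → (∀ x, ‖g x‖ ≤ 1) →
      ∀ p ψ : ℝ, p0 ≤ p → p ≤ 1 → (∃ j : ℤ, 2 * θ1 ≤ |m * ψ - Real.pi * j| ∧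
        |m * ψ - Real.pi * j| ≤ 2 * θ2) → ¬ AmpW C f g τ p ψ := by
  induction M with
  | zero =>
      obtain ⟨τ, hτ, n0, h⟩ := hN p0 v0 θ1 θ2 0 hp0 hp1 hθ1 h12 hθ2 hc
      refine ⟨τ, hτ, n0, fun m hm => ?_⟩
      obtain rfl : m = 0 := Nat.le_zero.mp hm
      exact h
  | succ M ih =>
      obtain ⟨τ1, hτ1, n1, h1⟩ := ih
      obtain ⟨τ2, hτ2, n2, h2⟩ := hN p0 v0 θ1 θ2 (M + 1) hp0 hp1 hθ1 h12 hθ2 hc
      refine ⟨min τ1 τ2, lt_min hτ1 hτ2, max n1 n2, ?_⟩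
      intro m hm n hn C hC hW f g hf hg p ψ hp hp' hj hA
      have hpn : 0 ≤ p := hp0.le.trans hp
      rcases Nat.lt_or_ge m (M + 1) with hlt | hge
      · exact h1 m (Nat.lt_succ_iff.mp hlt) n ((le_max_left _ _).trans hn) C hC
          (hW.mono (min_le_left _ _) hv0) f g hf hg p ψ hp hp' hj (hA.mono (min_le_left _ _) hpn)
      · obtain rfl : m = M + 1 := le_antisymm hm hge
        exact h2 n ((le_max_right _ _).trans hn) C hC
          (hW.mono (min_le_right _ _) hv0) f g hf hg p ψ hp hp' hj (hA.mono (min_le_right _ _) hpn)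

/-- next to `ψ0` from below there are no points `π j / m`, `1 ≤ m ≤ M` -/
theorem gap_fin (ψ0 : ℝ) (M : ℕ) : ∃ g : ℝ, 0 < g ∧ ∀ m : ℕ, 1 ≤ m → m ≤ M → ∀ j : ℤ,
    Real.pi * j < m * ψ0 → g ≤ m * ψ0 - Real.pi * j := by
  have hπ := Real.pi_pos
  induction M with
  | zero => exact ⟨1, one_pos, fun m h1 h2 => absurd h1 (by omega)⟩
  | succ M ih =>
      obtain ⟨g, hg, h⟩ := ih
      -- the largest `j` with `π j < (M+1) ψ0`
      set y : ℝ := ((M + 1 : ℕ) : ℝ) * ψ0 with hy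
      set J : ℤ := ⌈y / Real.pi⌉ - 1 with hJ
      have hJ1 : Real.pi * J < y := by
        have := Int.ceil_lt_add_one (y / Real.pi)
        have h2 : (J : ℝ) < y / Real.pi := by rw [hJ]; push_cast; linarith
        rw [lt_div_iff₀ hπ] at h2; linarith
      refine ⟨min g (y - Real.pi * J), lt_min hg (by linarith), ?_⟩
      intro m h1 h2 j hj
      rcases Nat.lt_or_ge m (M + 1) with hlt | hge
      · exact (min_le_left _ _).trans (h m h1 (Nat.lt_succ_iff.mp hlt) j hj)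
      · obtain rfl : m = M + 1 := le_antisymm h2 hge
        refine (min_le_right _ _).trans ?_
        have h3 : (j : ℝ) < y / Real.pi := by
          rw [lt_div_iff₀ hπ]; rw [hy]; linarith
        have h4 : j < ⌈y / Real.pi⌉ := Int.lt_ceil.mpr h3
        have h5 : j ≤ J := by rw [hJ]; omega
        have h6 : (j : ℝ) ≤ J := by exact_mod_cast h5
        have := mul_le_mul_of_nonneg_left h6 hπ.le
        rw [← hy]; linarith

/-- **assembly (A), windows** -/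
theorem rate_le_ofW (hN : NoAlignX) {δ L : ℝ} (hT : TypD δ L) (hF : ForcedW δ L) :
    ∃ ε : ℝ, 0 < ε ∧ Rr δ ≤ L - ε := by
  classical
  obtain ⟨ψ0, p0, t3, hp0, hp1, hcond, ht3, hF⟩ := hF
  have hπ := Real.pi_pos
  obtain ⟨v0, hv00, hv0p, hv0c⟩ : ∃ v0 : ℝ, 0 < v0 ∧ v0 < p0 ∧ (2 : ℝ) ^ (1 - L) < 1 + v0 := by
    refine ⟨max ((((2 : ℝ) ^ (1 - L) - 1) + p0) / 2) (p0 / 2), ?_, ?_, ?_⟩
    · exact lt_of_lt_of_le (by positivity) (le_max_right _ _)
    · apply max_lt <;> linarith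
    · have := le_max_left ((((2 : ℝ) ^ (1 - L) - 1) + p0) / 2) (p0 / 2)
      linarith
  obtain ⟨ε1, hε10, hε1c⟩ : ∃ ε1 : ℝ, 0 < ε1 ∧ (2 : ℝ) ^ (1 - (L - ε1)) ≤ 1 + v0 := by
    have hcont : ContinuousAt (fun x : ℝ => (2 : ℝ) ^ (1 - (L - x))) 0 :=
      ContinuousAt.rpow continuousAt_const (by fun_prop) (by left; norm_num)
    have h0 : (fun x : ℝ => (2 : ℝ) ^ (1 - (L - x))) 0 < 1 + v0 := by
      simp only [sub_zero]; exact hv0c
    have h1 := hcont.eventually_lt_const h0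
    obtain ⟨r, hr, h2⟩ := Metric.eventually_nhds_iff.mp h1
    refine ⟨r / 2, by positivity, (h2 ?_).le⟩
    rw [Real.dist_eq, sub_zero, abs_of_pos (by positivity)]; linarith
  obtain ⟨θ2, hθ20, hθ2π, hθ2c⟩ := exists_theta hp0 hv0p
  obtain ⟨M, hM⟩ := exists_nat_gt (max (Real.pi / (2 * θ2)) 1)
  have hM1 : Real.pi / (2 * θ2) < M := lt_of_le_of_lt (le_max_left _ _) hM
  have hM0 : 0 < M := by
    have : (0 : ℝ) < M := lt_of_lt_of_le one_pos ((le_max_right _ _).trans hM.le)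
    exact_mod_cast this
  obtain ⟨g, hg, hgap⟩ := gap_fin ψ0 M
  have hMr : (0 : ℝ) < M := by exact_mod_cast hM0
  obtain ⟨w, hw0, hw1, hF⟩ := hF (g / (2 * M)) (by positivity)
  set θ1 : ℝ := min (θ2 / 2) (min (g / 4) (t3 * w / 2)) with hθ1
  have hθ10 : 0 < θ1 := lt_min (by positivity) (lt_min (by positivity) (by positivity))
  have hθ1a : θ1 ≤ θ2 / 2 := min_le_left _ _
  have hθ1b : θ1 ≤ g / 4 := (min_le_right _ _).trans (min_le_left _ _)
  have hθ1c : θ1 ≤ t3 * w / 2 := (min_le_right _ _).trans (min_le_right _ _)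
  -- the angles of the window
  have hangle : ∀ ψ : ℝ, ψ0 - w ≤ ψ → ψ ≤ ψ0 - t3 * w → ∃ m : ℕ, m ≤ M ∧ ∃ j : ℤ,
      2 * θ1 ≤ |m * ψ - Real.pi * j| ∧ |m * ψ - Real.pi * j| ≤ 2 * θ2 := by
    intro ψ h1 h2
    obtain ⟨j, k, hk0, hkM, hjk⟩ := Real.exists_int_int_abs_mul_sub_le (ψ / Real.pi) hM0
    obtain ⟨m, rfl⟩ : ∃ m : ℕ, k = m := ⟨k.toNat, (Int.toNat_of_nonneg hk0.le).symm⟩
    have hm1 : 1 ≤ m := by exact_mod_cast hk0
    have hmM : m ≤ M := by exact_mod_cast hkM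
    have hm1' : (1 : ℝ) ≤ m := by exact_mod_cast hm1
    have hmM' : (m : ℝ) ≤ M := by exact_mod_cast hmM
    refine ⟨m, hmM, j, ?_, ?_⟩
    · rcases lt_or_ge (Real.pi * j) (m * ψ0) with hlt | hge
      · have h3 := hgap m hm1 hmM j hlt
        have h4 : (m : ℝ) * w ≤ g / 2 := by
          calc (m : ℝ) * w ≤ M * (g / (2 * M)) := mul_le_mul hmM' hw1 hw0.le hMr.le
            _ = g / 2 := by field_simp
        have h5 : (m : ℝ) * ψ0 - m * w ≤ m * ψ := by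
          have := mul_le_mul_of_nonneg_left h1 (show (0 : ℝ) ≤ m by linarith)
          linarith
        refine le_trans ?_ (le_abs_self _)
        linarith
      · have h5 : (m : ℝ) * ψ ≤ m * ψ0 - m * (t3 * w) := by
          have := mul_le_mul_of_nonneg_left h2 (show (0 : ℝ) ≤ m by linarith)
          linarith
        have h6 : t3 * w ≤ m * (t3 * w) := by
          have : 0 < t3 * w := by positivity
          nlinarith
        refine le_trans ?_ (neg_le_abs _)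
        linarith
    · have h3 : (m : ℝ) * ψ - Real.pi * j = Real.pi * ((m : ℤ) * (ψ / Real.pi) - j) := by
        push_cast; field_simp
      rw [h3, abs_mul, abs_of_pos hπ]
      have h4 : Real.pi * |((m : ℤ) : ℝ) * (ψ / Real.pi) - j| ≤ Real.pi * (1 / (M + 1)) :=
        mul_le_mul_of_nonneg_left hjk hπ.le
      refine h4.trans ?_
      rw [mul_one_div, div_le_iff₀ (by positivity)]
      rw [div_lt_iff₀ (by positivity)] at hM1
      nlinarith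
  obtain ⟨τ, hτ, n1, hN⟩ := noAlign_fin hN hp0 hp1 hv00.le hθ10 (by linarith) hθ2π hθ2c M
  obtain ⟨ε2, hε2, n2, hF⟩ := hF (τ / 2) (by positivity)
  obtain ⟨τT, hτT, n3, hU⟩ := WU_of_Typ (R := L - ε1) (τ' := τ) hv00 hε1c hτ
  obtain ⟨n4, hT⟩ := hT (τT / 2) (by positivity)
  obtain ⟨n5, hn5⟩ := pw_large 4 (show (0 : ℝ) < τ / 2 by positivity)
  set ε : ℝ := min ε2 (min ε1 (τT / 2)) with hε
  have hε0 : 0 < ε := lt_min hε2 (lt_min hε10 (by positivity))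
  have hεa : ε ≤ ε2 := min_le_left _ _
  have hεb : ε ≤ ε1 := (min_le_right _ _).trans (min_le_left _ _)
  have hεc : ε ≤ τT / 2 := (min_le_right _ _).trans (min_le_right _ _)
  refine ⟨ε, hε0, Rr_le_of ⟨max n1 (max n2 (max n3 (max n4 n5))), ?_⟩⟩
  intro n hn C hC
  have hn1 : n1 ≤ n := (le_max_left _ _).trans hn
  have hn' := (le_max_right _ _).trans hn
  have hn2 : n2 ≤ n := (le_max_left _ _).trans hn'
  have hn'' := (le_max_right _ _).trans hn'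
  have hn3 : n3 ≤ n := (le_max_left _ _).trans hn''
  have hn''' := (le_max_right _ _).trans hn''
  have hn4 : n4 ≤ n := (le_max_left _ _).trans hn'''
  have hn5' : n5 ≤ n := (le_max_right _ _).trans hn'''
  by_contra hcon
  push Not at hcon
  have hc1 : pw n (L - ε2) ≤ C.card := (pw_mono n (by linarith)).trans hcon
  have hc2 : pw n (L - ε1) ≤ C.card := (pw_mono n (by linarith)).trans hcon
  have hC0 : (0 : ℝ) < C.card := lt_of_lt_of_le (pw_pos n _) hcon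
  have hCne : C.Nonempty := by rw [← Finset.card_pos]; exact_mod_cast hC0
  have hTyp : Typ C τT := by
    intro w hw1 hw2
    refine (hT n hn4 C hC w hw1 hw2).trans ?_
    apply mul_le_mul_of_nonneg_right _ (Nat.cast_nonneg _)
    rw [sq, mul_assoc]
    apply mul_le_mul_of_nonneg_left _ (Nat.cast_nonneg _)
    calc pw n (L - 1 + τT / 2) ≤ pw n ((L - ε) + (τT - 1)) := pw_mono n (by linarith)
      _ = pw n (L - ε) * pw n (τT - 1) := pw_add _ _ _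
      _ ≤ C.card * pw n (τT - 1) := mul_le_mul_of_nonneg_right hcon (pw_pos n _).le
  have hWU := hU n hn3 C hc2 hTyp
  have hdne : (dbl C).Nonempty := hCne.mono Finset.subset_union_left
  obtain ⟨p, ψ, hp1', hp2, hψ1, hψ2, hA⟩ := hF n hn2 C hC hc1
  have h4 : 4 * pw n (-1 - τ) ≤ pw n (-1 - τ / 2) := by
    have h5 : pw n (-1 - τ / 2) = pw n (-1 - τ) * pw n (τ / 2) := by
      rw [← pw_add]; congr 1; ring
    rw [h5, mul_comm]
    exact mul_le_mul_of_nonneg_left (hn5 n hn5') (pw_pos n _).le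
  obtain ⟨m, hmM, j, hj1, hj2⟩ := hangle ψ hψ1 hψ2
  have hb1 : ∀ x : Wd n, ‖(if x ∈ C then (1 : ℂ) else 0)‖ ≤ 1 := by
    intro x; split_ifs <;> simp
  have hb2 : ∀ x : Wd n, ‖(if x + onesU ∈ C then (1 : ℂ) else 0)‖ ≤ 1 := by
    intro x; split_ifs <;> simp
  rcases le_total p 1 with hple | hpge
  · exact hN m hmM n hn1 (dbl C) hdne hWU _ _ hb1 hb1 p ψ hp1' hple ⟨j, hj1, hj2⟩
      (AmpW_of_le C h4 (hp0.le.trans hp1') hA)
  · have hppos : 0 < p := by linarith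
    have habs : |(m : ℝ) * -ψ - Real.pi * ((-j : ℤ) : ℝ)| = |m * ψ - Real.pi * j| := by
      have : (m : ℝ) * -ψ - Real.pi * ((-j : ℤ) : ℝ) = -(m * ψ - Real.pi * j) := by push_cast; ring
      rw [this, abs_neg]
    refine hN m hmM n hn1 (dbl C) hdne hWU _ _ hb1 hb2 p⁻¹ (-ψ) ?_ ?_ ⟨-j, ?_, ?_⟩
      (AmpW_of_ge C h4 hppos hA)
    · rw [le_inv_comm₀ hp0 hppos]
      rw [← one_div, le_div_iff₀ hp0]; linarith
    · exact inv_le_one_of_one_le₀ hpge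
    · rw [habs]; exact hj1
    · rw [habs]; exact hj2

end Pool.Agent.Lib.MP_0430e4_lc.AC
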