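import Pool.Agent.Lib.MP_0430e4_lc.AC.Defs

/-!
SHELLS (helper51, /team-store/SHELL51.md): definitions.
-/

set_option autoImplicit false

open Finset

namespace Pool.Agent.Lib.MP_0430e4_lc.AC

open BY BY.Four

/-- off-diagonal amplitude of one code at the point `u` -/
def AmpO {n : ℕ} (C : Finset (Wd n)) (τ : ℝ) (u : ℂ) : Prop :=
  (C.card : ℝ) ^ 2 * pw n (-1 - τ) * (1 + ‖u‖) ^ n ≤ ‖∑ x ∈ C, ∑ y ∈ C.erase x, u ^ wt (x - y)‖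

/-- the normalisation `M^2 2^(-n) (1+a)^(2n)` -/
noncomputable def ZZ {n : ℕ} (a : ℝ) (C : Finset (Wd n)) : ℝ :=
  (C.card : ℝ) ^ 2 * pw n (-1) * ((1 + a) ^ 2) ^ n

/-- code words in the thick shell of radius `r n`, half width `η n` around `c` -/
noncomputable def win {n : ℕ} (r η : ℝ) (C : Finset (Wd n)) (c : Wd n) : Finset (Wd n) :=
  C.filter (fun x => |(wt (x - c) : ℝ) - r * n| ≤ η * n)

/-- product kernel of a 2x2 table -/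
noncomputable def KK {n : ℕ} (g : ZMod 2 → ZMod 2 → ℝ) (x y : Wd n) : ℝ := ∏ i, g (x i) (y i)

/-- the kernel `λ + 4φ (s-r)(t-r)` -/
noncomputable def kp (lam φ r : ℝ) (s t : ZMod 2) : ℝ :=
  lam + 4 * φ * ((s.val : ℝ) - r) * ((t.val : ℝ) - r)

/-- the second factor `λ = 1 - φ^2 r^2 (1-r)^2 / 2` -/
noncomputable def lamF (φ r : ℝ) : ℝ := 1 - φ ^ 2 * r ^ 2 * (1 - r) ^ 2 / 2

/-- hypotheses on the table `g` (`a`, `λ`, `G`, rate `R`) -/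
structure TabOK (a lam G R : ℝ) (g : ZMod 2 → ZMod 2 → ℝ) : Prop where
  a0 : 0 < a
  a1 : a < 1
  lam0 : 0 < lam
  lam1 : lam ≤ 1
  sym : g 0 1 = g 1 0
  p00 : 0 ≤ g 0 0
  p01 : 0 ≤ g 0 1
  p11 : 0 ≤ g 1 1
  G00 : g 0 0 ≤ G
  G11 : g 1 1 ≤ G
  eig : g 0 0 + 2 * a * g 0 1 + a ^ 2 * g 1 1 = lam * (1 + a) ^ 2
  le1 : 2 * a * g 0 1 ≤ g 0 0 + a ^ 2 * g 1 1
  h2 : 8 * a * g 0 1 * (g 0 0 + a ^ 2 * g 1 1) ≤ lam ^ 2 * (1 + a) ^ 4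
  h1 : G * (2 : ℝ) ^ (1 - R) * a ^ (a / (1 + a)) < lam * (1 + a)

/-- **(FORCED AMPLITUDE, off the diagonal, at one point)** near-optimal codes have full off-diagonal
amplitude in every neighbourhood of one point `p e^(iψ)`, `p = 2a/(1+a^2)`, `ψ/π` irrational, and the
shells of radius `a/(1+a)` contain many code words (`H(a/(1+a)) > 1 - L`). -/
def ForcedO (δ L : ℝ) : Prop := ∃ a ψ : ℝ, 0 < a ∧ a < 1 ∧
  (∀ (m : ℕ) (j : ℤ), 0 < m → (m : ℝ) * ψ ≠ Real.pi * j) ∧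
  (2 : ℝ) ^ (1 - L) * a ^ (a / (1 + a)) < 1 + a ∧
  ∀ τ : ℝ, 0 < τ → ∃ ε : ℝ, 0 < ε ∧ ∃ n0 : ℕ, ∀ n ≥ n0, ∀ C : Finset (Wd n),
    IsCode ⌈δ * n⌉₊ C → pw n (L - ε) ≤ C.card →
      ∃ u : ℂ, ‖u - ((2 * a / (1 + a ^ 2) : ℝ) : ℂ) * ph ψ‖ ≤ τ ∧ AmpO C τ u

end Pool.Agent.Lib.MP_0430e4_lc.AC
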