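import Pool.Agent.Lib.MP_0430e4_lc.AC.Main3
import Pool.Agent.Lib.MP_0430e4_lc.AC.ShD

/-!
Project ALLCODES: assembly from two-sided windows of angles around the tip (helper1). `ForcedV`:
off-diagonal amplitude at `p e^(iψ)`, `ρ ≤ |ψ - ψ0| ≤ w`, `w` as small as we like.
-/

set_option autoImplicit false

open Finset Filter Topology

namespace Pool.Agent.Lib.MP_0430e4_lc.AC

open BY BY.Four

/-- **(FORCED AMPLITUDE), branch I**: off-diagonal amplitude at `p e^(iψ)` with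
`ρ ≤ |ψ - ψ0| ≤ w`; `w` is as small as we like, `ρ > 0` may depend on `w` (not on `τ`), `p` lies
between `p0` and `1/p0`. -/
def ForcedV (δ L : ℝ) : Prop := ∃ ψ0 p0 : ℝ, 0 < p0 ∧ p0 ≤ 1 ∧ (2 : ℝ) ^ (1 - L) < 1 + p0 ∧
  ∀ w1 : ℝ, 0 < w1 → ∃ w ρ : ℝ, 0 < w ∧ w ≤ w1 ∧ 0 < ρ ∧ ∀ τ : ℝ, 0 < τ →
    ∃ ε : ℝ, 0 < ε ∧ ∃ n0 : ℕ, ∀ n ≥ n0, ∀ C : Finset (Wd n), IsCode ⌈δ * n⌉₊ C →
      pw n (L - ε) ≤ C.card → ∃ p ψ : ℝ, p0 ≤ p ∧ p0 * p ≤ 1 ∧ ρ ≤ |ψ - ψ0| ∧ |ψ - ψ0| ≤ w ∧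
        AmpO C τ ((p : ℂ) * ph ψ)

variable {n : ℕ}

theorem Amp.mono {C : Finset (Wd n)} {τ τ' p ψ : ℝ} (h : τ ≤ τ') (hp : 0 ≤ p)
    (hA : Amp C τ p ψ) : Amp C τ' p ψ := by
  unfold Amp at hA ⊢
  refine le_trans ?_ hA
  apply mul_le_mul_of_nonneg_right _ (by positivity)
  apply mul_le_mul_of_nonneg_left _ (by positivity)
  exact pw_mono n (by linarith)

/-- next to `ψ0` there are no points `π j / m`, `1 ≤ m ≤ M`, except `ψ0` itself -/
theorem gap_fin2 (ψ0 : ℝ) (M : ℕ) : ∃ g : ℝ, 0 < g ∧ ∀ m : ℕ, 1 ≤ m → m ≤ M → ∀ j : ℤ,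
    (m : ℝ) * ψ0 ≠ Real.pi * j → g ≤ |m * ψ0 - Real.pi * j| := by
  obtain ⟨g1, hg1, h1⟩ := gap_fin ψ0 M
  obtain ⟨g2, hg2, h2⟩ := gap_fin (-ψ0) M
  refine ⟨min g1 g2, lt_min hg1 hg2, fun m hm hmM j hne => ?_⟩
  rcases lt_or_gt_of_ne hne with hlt | hgt
  · have h3 := h2 m hm hmM (-j) (by push_cast; linarith)
    push_cast at h3
    refine (min_le_right _ _).trans (le_trans ?_ (neg_le_abs _))
    linarith
  · exact (min_le_left _ _).trans ((h1 m hm hmM j hgt).trans (le_abs_self _))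

/-- the diagonal is negligible at radius `≥ p0` -/
theorem Amp_of_AmpO {L p0 : ℝ} (hp0 : 0 < p0) (hcond : (2 : ℝ) ^ (1 - L) < 1 + p0) :
    ∃ c : ℝ, 0 < c ∧ ∀ τ : ℝ, 0 < τ → τ ≤ c → ∃ n0 : ℕ, ∀ n ≥ n0, ∀ C : Finset (Wd n),
      pw n (L - c) ≤ C.card → ∀ p ψ : ℝ, p0 ≤ p → AmpO C τ ((p : ℂ) * ph ψ) →
        Amp C (2 * τ) p ψ := by
  have hlog : 0 < Real.log 2 := Real.log_pos (by norm_num)
  have h1p : 0 < 1 + p0 := by linarith
  -- `1 + p0 = 2^(1 - L + 4c)`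
  set c : ℝ := (Real.logb 2 (1 + p0) - (1 - L)) / 4 with hcdef
  have hc0 : 0 < c := by
    have h1 : Real.logb 2 ((2 : ℝ) ^ (1 - L)) < Real.logb 2 (1 + p0) :=
      Real.logb_lt_logb (by norm_num) (by positivity) hcond
    rw [Real.logb_rpow (by norm_num) (by norm_num)] at h1
    rw [hcdef]; linarith
  have hpow : ∀ n : ℕ, (1 + p0) ^ n = pw n (1 - L + 4 * c) := by
    intro n
    have h2 : (1 + p0) = (2 : ℝ) ^ (1 - L + 4 * c) := by
      have h3 : 1 - L + 4 * c = Real.logb 2 (1 + p0) := by rw [hcdef]; ring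
      rw [h3, Real.rpow_logb (by norm_num) (by norm_num) h1p]
    unfold pw
    rw [Real.rpow_mul (by norm_num), ← h2, Real.rpow_natCast]
  refine ⟨c, hc0, fun τ hτ hτc => ?_⟩
  obtain ⟨n1, hn1⟩ := pw_large 2 hτ
  obtain ⟨n2, hn2⟩ := pw_large 2 hc0
  refine ⟨max n1 n2, fun n hn C hC p ψ hp hA => ?_⟩
  have h1 := hn1 n ((le_max_left _ _).trans hn)
  have h2 := hn2 n ((le_max_right _ _).trans hn)
  unfold AmpO at hA
  unfold Amp
  have hpn : 0 ≤ p := hp0.le.trans hp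
  have hnorm : ‖(p : ℂ) * ph ψ‖ = p := by
    rw [norm_mul, norm_ph, mul_one, Complex.norm_real, Real.norm_eq_abs, abs_of_nonneg hpn]
  rw [hnorm] at hA
  have hsplit : ∑ x ∈ C, ∑ y ∈ C, ((p : ℂ) * ph ψ) ^ wt (x - y) =
      (∑ x ∈ C, ∑ y ∈ C.erase x, ((p : ℂ) * ph ψ) ^ wt (x - y)) + C.card := by
    have h3 : ∀ x ∈ C, ∑ y ∈ C, ((p : ℂ) * ph ψ) ^ wt (x - y) =
        (∑ y ∈ C.erase x, ((p : ℂ) * ph ψ) ^ wt (x - y)) + 1 := by
      intro x hx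
      rw [← Finset.sum_erase_add C _ hx]
      congr 1
      rw [sub_self]
      have : wt (0 : Wd n) = 0 := hammingNorm_zero
      rw [this, pow_zero]
    rw [Finset.sum_congr rfl h3, Finset.sum_add_distrib, Finset.sum_const, nsmul_eq_mul, mul_one]
  rw [hsplit]
  have h4 : ‖∑ x ∈ C, ∑ y ∈ C.erase x, ((p : ℂ) * ph ψ) ^ wt (x - y)‖ - (C.card : ℝ) ≤
      ‖(∑ x ∈ C, ∑ y ∈ C.erase x, ((p : ℂ) * ph ψ) ^ wt (x - y)) + C.card‖ := by
    have h5 := norm_sub_norm_le (∑ x ∈ C, ∑ y ∈ C.erase x, ((p : ℂ) * ph ψ) ^ wt (x - y))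
      (-(C.card : ℂ))
    rw [norm_neg, sub_neg_eq_add] at h5
    have h6 : ‖(C.card : ℂ)‖ = (C.card : ℝ) := by
      rw [Complex.norm_natCast]
    rw [h6] at h5
    exact h5
  refine le_trans ?_ h4
  -- `|C| ≤ (1/2) |C|^2 pw n (-1 - τ) (1+p)^n`
  have hC0 : (0 : ℝ) < C.card := lt_of_lt_of_le (pw_pos n _) hC
  have hX : (C.card : ℝ) * 2 ≤ (C.card : ℝ) ^ 2 * pw n (-1 - τ) * (1 + p) ^ n := by
    have h5 : pw n c ≤ (C.card : ℝ) * pw n (-1 - τ) * (1 + p) ^ n := by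
      calc pw n c ≤ pw n ((L - c) + (-1 - τ) + (1 - L + 4 * c)) := pw_mono n (by linarith)
        _ = pw n (L - c) * pw n (-1 - τ) * (1 + p0) ^ n := by rw [hpow, pw_add, pw_add]
        _ ≤ (C.card : ℝ) * pw n (-1 - τ) * (1 + p) ^ n := by
            apply mul_le_mul _ _ (by positivity) (mul_nonneg hC0.le (pw_pos n _).le)
            · exact mul_le_mul_of_nonneg_right hC (pw_pos n _).le
            · exact pow_le_pow_left₀ (by linarith) (by linarith) n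
    calc (C.card : ℝ) * 2 ≤ C.card * pw n c := mul_le_mul_of_nonneg_left h2 hC0.le
      _ ≤ C.card * ((C.card : ℝ) * pw n (-1 - τ) * (1 + p) ^ n) :=
          mul_le_mul_of_nonneg_left h5 hC0.le
      _ = _ := by ring
  have hY : (C.card : ℝ) ^ 2 * pw n (-1 - 2 * τ) * (1 + p) ^ n * 2 ≤
      (C.card : ℝ) ^ 2 * pw n (-1 - τ) * (1 + p) ^ n := by
    have h5 : pw n (-1 - τ) = pw n (-1 - 2 * τ) * pw n τ := by
      rw [← pw_add]; congr 1; ring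
    rw [h5]
    have h6 : 0 ≤ (C.card : ℝ) ^ 2 * pw n (-1 - 2 * τ) * (1 + p) ^ n := by
      have := pw_pos n (-1 - 2 * τ)
      positivity
    calc _ ≤ (C.card : ℝ) ^ 2 * pw n (-1 - 2 * τ) * (1 + p) ^ n * pw n τ :=
          mul_le_mul_of_nonneg_left h1 h6
      _ = _ := by ring
  linarith

/-- **assembly (A), two-sided windows** -/
theorem rate_le_ofV (hN : NoAlignX) {δ L : ℝ} (hT : TypD δ L) (hF : ForcedV δ L) :
    ∃ ε : ℝ, 0 < ε ∧ Rr δ ≤ L - ε := by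
  classical
  obtain ⟨ψ0, p0, hp0, hp1, hcond, hF⟩ := hF
  have hπ := Real.pi_pos
  obtain ⟨v0, hv00, hv0p, hv0c⟩ : ∃ v0 : ℝ, 0 < v0 ∧ v0 < p0 ∧ (2 : ℝ) ^ (1 - L) < 1 + v0 := by
    refine ⟨max ((((2 : ℝ) ^ (1 - L) - 1) + p0) / 2) (p0 / 2), ?_, ?_, ?_⟩
    · exact lt_of_lt_of_le (by positivity) (le_max_right _ _)
    · apply max_lt <;> linarith
    · have := le_max_left ((((2 : ℝ) ^ (1 - L) - 1) + p0) / 2) (p0 / 2)
      linarith
  obtain ⟨ε1, hε10, hε1c⟩ : ∃ ε1 : ℝ, 0 < ε1 ∧ (2 : ℝ) ^ (1 - (L - ε1)) ≤ 1 + v0 := by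
    have hcont : ContinuousAt (fun x : ℝ => (2 : ℝ) ^ (1 - (L - x))) 0 :=
      ContinuousAt.rpow continuousAt_const (by fun_prop) (by left; norm_num)
    have h0 : (fun x : ℝ => (2 : ℝ) ^ (1 - (L - x))) 0 < 1 + v0 := by
      simp only [sub_zero]; exact hv0c
    have h1 := hcont.eventually_lt_const h0
    obtain ⟨r, hr, h2⟩ := Metric.eventually_nhds_iff.mp h1
    refine ⟨r / 2, by positivity, (h2 ?_).le⟩
    rw [Real.dist_eq, sub_zero, abs_of_pos (by positivity)]; linarith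
  obtain ⟨θ2, hθ20, hθ2π, hθ2c⟩ := exists_theta hp0 hv0p
  obtain ⟨M, hM⟩ := exists_nat_gt (max (Real.pi / (2 * θ2)) 1)
  have hM1 : Real.pi / (2 * θ2) < M := lt_of_le_of_lt (le_max_left _ _) hM
  have hM0 : 0 < M := by
    have : (0 : ℝ) < M := lt_of_lt_of_le one_pos ((le_max_right _ _).trans hM.le)
    exact_mod_cast this
  obtain ⟨g, hg, hgap⟩ := gap_fin2 ψ0 M
  have hMr : (0 : ℝ) < M := by exact_mod_cast hM0
  obtain ⟨w, ρ, hw0, hw1, hρ0, hF⟩ := hF (g / (2 * M)) (by positivity)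
  set θ1 : ℝ := min (θ2 / 2) (min (g / 4) (ρ / 2)) with hθ1
  have hθ10 : 0 < θ1 := lt_min (by positivity) (lt_min (by positivity) (by positivity))
  have hθ1a : θ1 ≤ θ2 / 2 := min_le_left _ _
  have hθ1b : θ1 ≤ g / 4 := (min_le_right _ _).trans (min_le_left _ _)
  have hθ1c : θ1 ≤ ρ / 2 := (min_le_right _ _).trans (min_le_right _ _)
  -- the angles of the window
  have hangle : ∀ ψ : ℝ, ρ ≤ |ψ - ψ0| → |ψ - ψ0| ≤ w → ∃ m : ℕ, m ≤ M ∧ ∃ j : ℤ,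
      2 * θ1 ≤ |m * ψ - Real.pi * j| ∧ |m * ψ - Real.pi * j| ≤ 2 * θ2 := by
    intro ψ h1 h2
    obtain ⟨j, k, hk0, hkM, hjk⟩ := Real.exists_int_int_abs_mul_sub_le (ψ / Real.pi) hM0
    obtain ⟨m, rfl⟩ : ∃ m : ℕ, k = m := ⟨k.toNat, (Int.toNat_of_nonneg hk0.le).symm⟩
    have hm1 : 1 ≤ m := by exact_mod_cast hk0
    have hmM : m ≤ M := by exact_mod_cast hkM
    have hm1' : (1 : ℝ) ≤ m := by exact_mod_cast hm1
    have hmM' : (m : ℝ) ≤ M := by exact_mod_cast hmM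
    have hmd : |(m : ℝ) * ψ - m * ψ0| = m * |ψ - ψ0| := by
      rw [← mul_sub, abs_mul, abs_of_nonneg (by linarith)]
    refine ⟨m, hmM, j, ?_, ?_⟩
    · rcases eq_or_ne ((m : ℝ) * ψ0) (Real.pi * j) with heq | hne
      · rw [← heq, hmd]
        have : ρ ≤ m * |ψ - ψ0| := by nlinarith
        linarith
      · have h3 := hgap m hm1 hmM j hne
        have h4 : (m : ℝ) * |ψ - ψ0| ≤ g / 2 := by
          calc (m : ℝ) * |ψ - ψ0| ≤ M * (g / (2 * M)) :=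
                mul_le_mul hmM' (h2.trans hw1) (abs_nonneg _) hMr.le
            _ = g / 2 := by field_simp
        rw [← hmd] at h4
        have h5 : |(m : ℝ) * ψ0 - Real.pi * j| ≤ |(m : ℝ) * ψ - Real.pi * j| +
            |(m : ℝ) * ψ - m * ψ0| := by
          have : (m : ℝ) * ψ0 - Real.pi * j = ((m : ℝ) * ψ - Real.pi * j) - (m * ψ - m * ψ0) := by
            ring
          rw [this]
          exact abs_sub _ _
        linarith
    · have h3 : (m : ℝ) * ψ - Real.pi * j = Real.pi * ((m : ℤ) * (ψ / Real.pi) - j) := by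
        push_cast; field_simp
      rw [h3, abs_mul, abs_of_pos hπ]
      have h4 : Real.pi * |((m : ℤ) : ℝ) * (ψ / Real.pi) - j| ≤ Real.pi * (1 / (M + 1)) :=
        mul_le_mul_of_nonneg_left hjk hπ.le
      refine h4.trans ?_
      rw [mul_one_div, div_le_iff₀ (by positivity)]
      rw [div_lt_iff₀ (by positivity)] at hM1
      nlinarith
  obtain ⟨τ, hτ, n1, hN⟩ := noAlign_fin hN hp0 hp1 hv00.le hθ10 (by linarith) hθ2π hθ2c M
  obtain ⟨c1, hc10, hAO⟩ := Amp_of_AmpO hp0 hcond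
  set τ1 : ℝ := min (τ / 4) c1 with hτ1
  have hτ10 : 0 < τ1 := lt_min (by positivity) hc10
  obtain ⟨n6, hAO⟩ := hAO τ1 hτ10 (min_le_right _ _)
  obtain ⟨ε2, hε2, n2, hF⟩ := hF τ1 hτ10
  obtain ⟨τT, hτT, n3, hU⟩ := WU_of_Typ (R := L - ε1) (τ' := τ) hv00 hε1c hτ
  obtain ⟨n4, hT⟩ := hT (τT / 2) (by positivity)
  obtain ⟨n5, hn5⟩ := pw_large 4 (show (0 : ℝ) < τ / 2 by positivity)
  set ε : ℝ := min (min ε2 c1) (min ε1 (τT / 2)) with hε
  have hε0 : 0 < ε := lt_min (lt_min hε2 hc10) (lt_min hε10 (by positivity))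
  have hεa : ε ≤ ε2 := (min_le_left _ _).trans (min_le_left _ _)
  have hεd : ε ≤ c1 := (min_le_left _ _).trans (min_le_right _ _)
  have hεb : ε ≤ ε1 := (min_le_right _ _).trans (min_le_left _ _)
  have hεc : ε ≤ τT / 2 := (min_le_right _ _).trans (min_le_right _ _)
  refine ⟨ε, hε0, Rr_le_of ⟨max n6 (max n1 (max n2 (max n3 (max n4 n5)))), ?_⟩⟩
  intro n hn C hC
  have hn6 : n6 ≤ n := (le_max_left _ _).trans hn
  replace hn := (le_max_right _ _).trans hn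
  have hn1 : n1 ≤ n := (le_max_left _ _).trans hn
  have hn' := (le_max_right _ _).trans hn
  have hn2 : n2 ≤ n := (le_max_left _ _).trans hn'
  have hn'' := (le_max_right _ _).trans hn'
  have hn3 : n3 ≤ n := (le_max_left _ _).trans hn''
  have hn''' := (le_max_right _ _).trans hn''
  have hn4 : n4 ≤ n := (le_max_left _ _).trans hn'''
  have hn5' : n5 ≤ n := (le_max_right _ _).trans hn'''
  by_contra hcon
  push Not at hcon
  have hc1 : pw n (L - ε2) ≤ C.card := (pw_mono n (by linarith)).trans hcon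
  have hc2 : pw n (L - ε1) ≤ C.card := (pw_mono n (by linarith)).trans hcon
  have hC0 : (0 : ℝ) < C.card := lt_of_lt_of_le (pw_pos n _) hcon
  have hCne : C.Nonempty := by rw [← Finset.card_pos]; exact_mod_cast hC0
  have hTyp : Typ C τT := by
    intro w hw1 hw2
    refine (hT n hn4 C hC w hw1 hw2).trans ?_
    apply mul_le_mul_of_nonneg_right _ (Nat.cast_nonneg _)
    rw [sq, mul_assoc]
    apply mul_le_mul_of_nonneg_left _ (Nat.cast_nonneg _)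
    calc pw n (L - 1 + τT / 2) ≤ pw n ((L - ε) + (τT - 1)) := pw_mono n (by linarith)
      _ = pw n (L - ε) * pw n (τT - 1) := pw_add _ _ _
      _ ≤ C.card * pw n (τT - 1) := mul_le_mul_of_nonneg_right hcon (pw_pos n _).le
  have hWU := hU n hn3 C hc2 hTyp
  have hdne : (dbl C).Nonempty := hCne.mono Finset.subset_union_left
  have hc3 : pw n (L - c1) ≤ C.card := (pw_mono n (by linarith)).trans hcon
  obtain ⟨p, ψ, hp1', hp2, hψ1, hψ2, hA⟩ := hF n hn2 C hC hc1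
  have hA : Amp C (τ / 2) p ψ :=
    Amp.mono (by have := min_le_left (τ / 4) c1; linarith) (hp0.le.trans hp1')
      (hAO n hn6 C hc3 p ψ hp1' hA)
  have h4 : 4 * pw n (-1 - τ) ≤ pw n (-1 - τ / 2) := by
    have h5 : pw n (-1 - τ / 2) = pw n (-1 - τ) * pw n (τ / 2) := by
      rw [← pw_add]; congr 1; ring
    rw [h5, mul_comm]
    exact mul_le_mul_of_nonneg_left (hn5 n hn5') (pw_pos n _).le
  obtain ⟨m, hmM, j, hj1, hj2⟩ := hangle ψ hψ1 hψ2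
  have hb1 : ∀ x : Wd n, ‖(if x ∈ C then (1 : ℂ) else 0)‖ ≤ 1 := by
    intro x; split_ifs <;> simp
  have hb2 : ∀ x : Wd n, ‖(if x + onesU ∈ C then (1 : ℂ) else 0)‖ ≤ 1 := by
    intro x; split_ifs <;> simp
  rcases le_total p 1 with hple | hpge
  · exact hN m hmM n hn1 (dbl C) hdne hWU _ _ hb1 hb1 p ψ hp1' hple ⟨j, hj1, hj2⟩
      (AmpW_of_le C h4 (hp0.le.trans hp1') hA)
  · have hppos : 0 < p := by linarith
    have habs : |(m : ℝ) * -ψ - Real.pi * ((-j : ℤ) : ℝ)| = |m * ψ - Real.pi * j| := by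
      have : (m : ℝ) * -ψ - Real.pi * ((-j : ℤ) : ℝ) = -(m * ψ - Real.pi * j) := by push_cast; ring
      rw [this, abs_neg]
    refine hN m hmM n hn1 (dbl C) hdne hWU _ _ hb1 hb2 p⁻¹ (-ψ) ?_ ?_ ⟨-j, ?_, ?_⟩
      (AmpW_of_ge C h4 hppos hA)
    · rw [le_inv_comm₀ hp0 hppos]
      rw [← one_div, le_div_iff₀ hp0]; linarith
    · exact inv_le_one_of_one_le₀ hpge
    · rw [habs]; exact hj1
    · rw [habs]; exact hj2

end Pool.Agent.Lib.MP_0430e4_lc.AC
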