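import Pool.Agent.Lib.MP_0430e4_lc.AC.DefsX

/-!
Project ALLCODES, NoAlignX, module NX1 (helper10): the mixture identity.

`J` is a random subset of the coordinates (each coordinate with probability `1-p`), the pieces of
`C` are the classes of words which agree on `J`.
-/

set_option autoImplicit false

open Finset

namespace Pool.Agent.Lib.MP_0430e4_lc.AC

open BY BY.Four

/-- the words of `C` which agree with `x` on `J` -/
def clsJ {n : ℕ} (C : Finset (Wd n)) (J : Finset (Fin n)) (x : Wd n) : Finset (Wd n) :=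
  C.filter (fun y => ∀ i ∈ J, y i = x i)

/-- the pieces of `C` on which the coordinates in `J` are constant -/
def pcs {n : ℕ} (C : Finset (Wd n)) (J : Finset (Fin n)) : Finset (Finset (Wd n)) :=
  C.image (clsJ C J)

/-- the weight of `J` -/
noncomputable def wJ {n : ℕ} (p : ℝ) (J : Finset (Fin n)) : ℝ :=
  (1 - p) ^ J.card * p ^ (n - J.card)

theorem wJ_nonneg {n : ℕ} {p : ℝ} (h0 : 0 ≤ p) (h1 : p ≤ 1) (J : Finset (Fin n)) :
    0 ≤ wJ p J := mul_nonneg (pow_nonneg (by linarith) _) (pow_nonneg h0 _)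

theorem pcs_subset {n : ℕ} {C : Finset (Wd n)} {J : Finset (Fin n)} {A : Finset (Wd n)}
    (hA : A ∈ pcs C J) : A ⊆ C := by
  obtain ⟨x, _, rfl⟩ := Finset.mem_image.mp hA
  exact Finset.filter_subset _ _

theorem pcs_nonempty {n : ℕ} {C : Finset (Wd n)} {J : Finset (Fin n)} {A : Finset (Wd n)}
    (hA : A ∈ pcs C J) : A.Nonempty := by
  obtain ⟨x, hx, rfl⟩ := Finset.mem_image.mp hA
  exact ⟨x, Finset.mem_filter.mpr ⟨hx, fun i _ => rfl⟩⟩

theorem pcs_const {n : ℕ} {C : Finset (Wd n)} {J : Finset (Fin n)} {A : Finset (Wd n)}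
    (hA : A ∈ pcs C J) : ∀ x ∈ A, ∀ y ∈ A, ∀ i ∈ J, x i = y i := by
  obtain ⟨z, _, rfl⟩ := Finset.mem_image.mp hA
  intro x hx y hy i hi
  rw [(Finset.mem_filter.mp hx).2 i hi, (Finset.mem_filter.mp hy).2 i hi]

theorem nx1_cls_eq {n : ℕ} (C : Finset (Wd n)) (J : Finset (Fin n)) {x y : Wd n}
    (h : y ∈ clsJ C J x) : clsJ C J y = clsJ C J x := by
  have h2 := (Finset.mem_filter.mp h).2
  unfold clsJ
  apply Finset.filter_congr
  intro z _
  constructor
  · intro hz i hi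
    rw [hz i hi, h2 i hi]
  · intro hz i hi
    rw [hz i hi, h2 i hi]

/-- summation over the pieces -/
theorem sum_pcs {n : ℕ} (C : Finset (Wd n)) (J : Finset (Fin n)) (G : Wd n → Wd n → ℂ) :
    ∑ A ∈ pcs C J, ∑ x ∈ A, ∑ y ∈ A, G x y =
      ∑ x ∈ C, ∑ y ∈ C, (if ∀ i ∈ J, x i = y i then G x y else 0) := by
  have h1 : ∀ A ∈ pcs C J, ∑ x ∈ A, ∑ y ∈ A, G x y =
      ∑ x ∈ C.filter (fun x => clsJ C J x = A), ∑ y ∈ clsJ C J x, G x y := by
    intro A hA
    have h2 : C.filter (fun x => clsJ C J x = A) = A := by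
      obtain ⟨z, hz, rfl⟩ := Finset.mem_image.mp hA
      ext x
      rw [Finset.mem_filter]
      constructor
      · rintro ⟨hx, h3⟩
        rw [← h3]
        exact Finset.mem_filter.mpr ⟨hx, fun i _ => rfl⟩
      · intro hx
        exact ⟨(Finset.mem_filter.mp hx).1, nx1_cls_eq C J hx⟩
    rw [h2]
    apply Finset.sum_congr rfl
    intro x hx
    rw [← h2] at hx
    rw [(Finset.mem_filter.mp hx).2]
  have hmap : ∀ x ∈ C, clsJ C J x ∈ pcs C J := fun x hx => Finset.mem_image_of_mem _ hx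
  have h3 := Finset.sum_fiberwise_of_maps_to hmap (fun x => ∑ y ∈ clsJ C J x, G x y)
  rw [Finset.sum_congr rfl h1, h3]
  apply Finset.sum_congr rfl
  intro x _
  unfold clsJ
  rw [Finset.sum_filter]
  apply Finset.sum_congr rfl
  intro y _
  by_cases h : ∀ i ∈ J, y i = x i
  · rw [if_pos h, if_pos (fun i hi => (h i hi).symm)]
  · rw [if_neg h, if_neg (fun h' => h (fun i hi => (h' i hi).symm))]

/-- expansion of one product over the coordinates -/
theorem nx1_expand {n : ℕ} (p : ℝ) (k : ZMod 2 → ZMod 2 → ℂ) (x y : Wd n) :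
    ∏ i, ((1 - (p : ℂ)) * (if x i = y i then 1 else 0) + (p : ℂ) * k (x i) (y i)) =
      ∑ J : Finset (Fin n), ((wJ p J : ℝ) : ℂ) *
        (if ∀ i ∈ J, x i = y i then ∏ i ∈ Jᶜ, k (x i) (y i) else 0) := by
  rw [Finset.prod_add, Finset.powerset_univ]
  apply Finset.sum_congr rfl
  intro J _
  rw [Finset.prod_mul_distrib, Finset.prod_mul_distrib, Finset.prod_const, Finset.prod_const,
    ← Finset.compl_eq_univ_sdiff, Finset.card_compl, Fintype.card_fin]
  unfold wJ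
  push_cast
  by_cases h : ∀ i ∈ J, x i = y i
  · rw [if_pos h, Finset.prod_congr rfl (fun i hi => if_pos (h i hi)), Finset.prod_const_one]
    ring
  · rw [if_neg h]
    push Not at h
    obtain ⟨i, hi, hne⟩ := h
    rw [Finset.prod_eq_zero hi (if_neg hne)]
    ring

/-- **mixture identity**, general form -/
theorem mixG {n : ℕ} (p : ℝ) (k : ZMod 2 → ZMod 2 → ℂ) (C : Finset (Wd n))
    (G : Wd n → Wd n → ℂ) :
    ∑ x ∈ C, ∑ y ∈ C,
      (∏ i, ((1 - (p : ℂ)) * (if x i = y i then 1 else 0) + (p : ℂ) * k (x i) (y i))) * G x y =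
    ∑ J : Finset (Fin n), ((wJ p J : ℝ) : ℂ) *
      ∑ A ∈ pcs C J, ∑ x ∈ A, ∑ y ∈ A, (∏ i ∈ Jᶜ, k (x i) (y i)) * G x y := by
  have h1 : ∀ J : Finset (Fin n), ((wJ p J : ℝ) : ℂ) *
      ∑ A ∈ pcs C J, ∑ x ∈ A, ∑ y ∈ A, (∏ i ∈ Jᶜ, k (x i) (y i)) * G x y =
      ∑ x ∈ C, ∑ y ∈ C, ((wJ p J : ℝ) : ℂ) *
        (if ∀ i ∈ J, x i = y i then ∏ i ∈ Jᶜ, k (x i) (y i) else 0) * G x y := by
    intro J
    rw [sum_pcs, Finset.mul_sum]
    apply Finset.sum_congr rfl; intro x _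
    rw [Finset.mul_sum]
    apply Finset.sum_congr rfl; intro y _
    split_ifs <;> ring
  rw [Finset.sum_congr rfl (fun J _ => h1 J)]
  symm
  rw [Finset.sum_comm]
  apply Finset.sum_congr rfl; intro x _
  rw [Finset.sum_comm]
  apply Finset.sum_congr rfl; intro y _
  rw [nx1_expand, Finset.sum_mul]

/-- a product over the coordinates with two values -/
theorem nx1_prod {n : ℕ} (x y : Wd n) (a b : ℂ) :
    ∏ i, (if x i = y i then a else b) = a ^ (n - wt (x - y)) * b ^ wt (x - y) := by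
  rw [← prod_wt]
  apply Finset.prod_congr rfl
  intro i _
  rw [Pi.sub_apply]
  by_cases h : x i = y i
  · rw [if_pos h, if_pos (sub_eq_zero.mpr h)]
  · rw [if_neg h, if_neg (fun h' => h (sub_eq_zero.mp h'))]

/-- **mixture identity** for the amplitude -/
theorem mixC {n : ℕ} (p : ℝ) (C : Finset (Wd n)) (G : Wd n → Wd n → ℂ) :
    ∑ x ∈ C, ∑ y ∈ C, (p : ℂ) ^ wt (x - y) * G x y =
      ∑ J : Finset (Fin n), ((wJ p J : ℝ) : ℂ) * ∑ A ∈ pcs C J, ∑ x ∈ A, ∑ y ∈ A, G x y := by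
  have h1 := mixG p (fun _ _ => 1) C G
  simp only [Finset.prod_const_one, one_mul, mul_one] at h1
  rw [← h1]
  apply Finset.sum_congr rfl; intro x _
  apply Finset.sum_congr rfl; intro y _
  congr 1
  have h2 : ∀ i, (1 - (p : ℂ)) * (if x i = y i then 1 else 0) + (p : ℂ) =
      if x i = y i then 1 else (p : ℂ) := by
    intro i
    split_ifs <;> ring
  rw [Finset.prod_congr rfl (fun i _ => h2 i), nx1_prod, one_pow, one_mul]

/-- **mixture identity** for the masses: `∑_J w_J ∑_A |A|^2 = ∑_{x,y} p^wt` -/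
theorem mixM {n : ℕ} (p : ℝ) (C : Finset (Wd n)) :
    ∑ x ∈ C, ∑ y ∈ C, p ^ wt (x - y) =
      ∑ J : Finset (Fin n), wJ p J * ∑ A ∈ pcs C J, (A.card : ℝ) ^ 2 := by
  have h1 := mixC p C (fun _ _ => 1)
  have h2 : ∀ A : Finset (Wd n), ∑ _x ∈ A, ∑ _y ∈ A, (1 : ℂ) = (((A.card : ℝ) ^ 2 : ℝ) : ℂ) := by
    intro A
    simp only [Finset.sum_const, nsmul_eq_mul, mul_one]
    push_cast
    ring
  simp only [mul_one, h2] at h1
  have h3 : ((∑ x ∈ C, ∑ y ∈ C, p ^ wt (x - y) : ℝ) : ℂ) =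
      ((∑ J : Finset (Fin n), wJ p J * ∑ A ∈ pcs C J, (A.card : ℝ) ^ 2 : ℝ) : ℂ) := by
    push_cast
    push_cast at h1
    exact h1
  exact_mod_cast h3

/-- **mixture identity** for the small angle kernel -/
theorem mixR {n : ℕ} (p a b : ℝ) (C : Finset (Wd n)) :
    ∑ J : Finset (Fin n), wJ p J *
      ∑ A ∈ pcs C J, ∑ x ∈ A, ∑ y ∈ A, ∏ i ∈ Jᶜ, (if x i = y i then a else b) =
    ∑ x ∈ C, ∑ y ∈ C, (1 - p + p * a) ^ (n - wt (x - y)) * (p * b) ^ wt (x - y) := by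
  have h1 := mixG p (fun u v => if u = v then (a : ℂ) else (b : ℂ)) C (fun _ _ => 1)
  simp only [mul_one] at h1
  have h2 : ∀ x y : Wd n, ∀ i, (1 - (p : ℂ)) * (if x i = y i then 1 else 0) +
      (p : ℂ) * (if x i = y i then (a : ℂ) else (b : ℂ)) =
      if x i = y i then (1 - (p : ℂ) + p * a) else (p : ℂ) * b := by
    intro x y i
    split_ifs <;> ring
  simp only [h2, nx1_prod] at h1
  have h3 : ((∑ J : Finset (Fin n), wJ p J *
      ∑ A ∈ pcs C J, ∑ x ∈ A, ∑ y ∈ A, ∏ i ∈ Jᶜ, (if x i = y i then a else b) : ℝ) : ℂ) =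
      ((∑ x ∈ C, ∑ y ∈ C, (1 - p + p * a) ^ (n - wt (x - y)) * (p * b) ^ wt (x - y) : ℝ) : ℂ) := by
    push_cast [apply_ite]
    exact h1.symm
  exact_mod_cast h3

end Pool.Agent.Lib.MP_0430e4_lc.AC
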