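import Pool.Agent.Lib.MP_0430e4_lc.AC.Defs

/-!
Project ALLCODES: small angles (helper72), `SmallS`.

With signs `s_i(x) = 1 - 2 x_i` one has `4 <x-x', y-y'> = <s(x)-s(x'), s(y)-s(y')>`, so
`Box = ∑_{x',y'} ∑_{x,y} conj-free unimodular f(x) g(y) exp (i θ <s(x),s(y)>)`, and
`exp (i θ <s,u>) = cos θ^T ∏ (1 + i t s u)`, `t = tan θ`. Cauchy-Schwarz in the characters gives
`|∑ f g ∏ (1 + i t s u)| ≤ ∑_{x,y ∈ A} ∏ (1 + t s u) = Qt`.
-/

set_option autoImplicit false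

open Finset
open scoped ComplexConjugate

namespace Pool.Agent.Lib.MP_0430e4_lc.AC

open BY BY.Four

namespace Sml

/-- the character `∏_{i ∈ S} s_i(x)` -/
noncomputable def chi {n : ℕ} (S : Finset (Fin n)) (x : Wd n) : ℝ := ∏ i ∈ S, sg (x i)

theorem chi_mul_self {n : ℕ} (S : Finset (Fin n)) (x : Wd n) : chi S x * chi S x = 1 := by
  unfold chi
  rw [← Finset.prod_mul_distrib]
  exact Finset.prod_eq_one fun i _ => sg_mul_self _

/-- expansion of the product kernel -/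
theorem prod_exp {n : ℕ} (T : Finset (Fin n)) (c : ℂ) (x y : Wd n) :
    ∏ i ∈ T, (1 + c * ((sg (x i) * sg (y i) : ℝ) : ℂ)) =
      ∑ S ∈ T.powerset, c ^ S.card * ((chi S x : ℝ) : ℂ) * ((chi S y : ℝ) : ℂ) := by
  rw [Finset.prod_one_add]
  apply Finset.sum_congr rfl
  intro S _
  rw [Finset.prod_mul_distrib, Finset.prod_const]
  unfold chi
  push_cast
  rw [Finset.prod_mul_distrib]
  ring

/-- `∑_S t^|S| |∑_x f(x) χ_S(x)|^2 ≤ ∑_{x,y} ∏ (1 + t s s)` for unimodular `f` -/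
theorem sq_le {n : ℕ} (T : Finset (Fin n)) (t : ℝ) (ht0 : 0 ≤ t) (ht1 : t ≤ 1) (A : Finset (Wd n))
    (f : Wd n → ℂ) (hf : ∀ x, ‖f x‖ ≤ 1) :
    ∑ S ∈ T.powerset, t ^ S.card * ‖∑ x ∈ A, f x * ((chi S x : ℝ) : ℂ)‖ ^ 2 ≤
      ∑ x ∈ A, ∑ y ∈ A, ∏ i ∈ T, (1 + t * (sg (x i) * sg (y i))) := by
  have h1 : ∀ S : Finset (Fin n), ((‖∑ x ∈ A, f x * ((chi S x : ℝ) : ℂ)‖ ^ 2 : ℝ) : ℂ) =
      ∑ x ∈ A, ∑ y ∈ A, (f x * conj (f y)) * (((chi S x : ℝ) : ℂ) * ((chi S y : ℝ) : ℂ)) := by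
    intro S
    rw [← Complex.normSq_eq_norm_sq, ← Complex.mul_conj, map_sum, Finset.sum_mul_sum]
    apply Finset.sum_congr rfl; intro x _
    apply Finset.sum_congr rfl; intro y _
    rw [map_mul, Complex.conj_ofReal]
    ring
  have h2 : ((∑ S ∈ T.powerset, t ^ S.card * ‖∑ x ∈ A, f x * ((chi S x : ℝ) : ℂ)‖ ^ 2 : ℝ) : ℂ) =
      ∑ x ∈ A, ∑ y ∈ A, (f x * conj (f y)) *
        ((∏ i ∈ T, (1 + t * (sg (x i) * sg (y i))) : ℝ) : ℂ) := by
    rw [Complex.ofReal_sum]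
    calc ∑ S ∈ T.powerset, ((t ^ S.card * ‖∑ x ∈ A, f x * ((chi S x : ℝ) : ℂ)‖ ^ 2 : ℝ) : ℂ)
        = ∑ S ∈ T.powerset, ∑ x ∈ A, ∑ y ∈ A, (f x * conj (f y)) *
            ((t : ℂ) ^ S.card * ((chi S x : ℝ) : ℂ) * ((chi S y : ℝ) : ℂ)) := by
          apply Finset.sum_congr rfl; intro S _
          rw [Complex.ofReal_mul, h1, Finset.mul_sum]
          apply Finset.sum_congr rfl; intro x _
          rw [Finset.mul_sum]
          apply Finset.sum_congr rfl; intro y _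
          push_cast
          ring
      _ = ∑ x ∈ A, ∑ y ∈ A, ∑ S ∈ T.powerset, (f x * conj (f y)) *
            ((t : ℂ) ^ S.card * ((chi S x : ℝ) : ℂ) * ((chi S y : ℝ) : ℂ)) := by
          rw [Finset.sum_comm]
          apply Finset.sum_congr rfl; intro x _
          rw [Finset.sum_comm]
      _ = _ := by
          apply Finset.sum_congr rfl; intro x _
          apply Finset.sum_congr rfl; intro y _
          rw [← Finset.mul_sum, ← prod_exp]
          push_cast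
          rfl
  have h3 : ∑ S ∈ T.powerset, t ^ S.card * ‖∑ x ∈ A, f x * ((chi S x : ℝ) : ℂ)‖ ^ 2 =
      ‖((∑ S ∈ T.powerset, t ^ S.card * ‖∑ x ∈ A, f x * ((chi S x : ℝ) : ℂ)‖ ^ 2 : ℝ) : ℂ)‖ := by
    rw [Complex.norm_real, Real.norm_of_nonneg]
    exact Finset.sum_nonneg fun S _ => mul_nonneg (pow_nonneg ht0 _) (sq_nonneg _)
  rw [h3, h2]
  refine (norm_sum_le _ _).trans (Finset.sum_le_sum fun x _ => ?_)
  refine (norm_sum_le _ _).trans (Finset.sum_le_sum fun y _ => ?_)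
  have h4 : 0 ≤ ∏ i ∈ T, (1 + t * (sg (x i) * sg (y i))) := by
    apply Finset.prod_nonneg
    intro i _
    have h5 : -1 ≤ sg (x i) * sg (y i) := by
      have := abs_mul (sg (x i)) (sg (y i))
      rw [abs_sg, abs_sg, mul_one] at this
      exact (abs_le.mp this.le).1
    nlinarith
  rw [norm_mul, norm_mul, Complex.norm_real, Real.norm_of_nonneg h4, RCLike.norm_conj]
  have h6 : ‖f x‖ * ‖f y‖ ≤ 1 := mul_le_one₀ (hf x) (norm_nonneg _) (hf y)
  exact mul_le_of_le_one_left h4 h6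

/-- the bilinear bound -/
theorem bil_le {n : ℕ} (T : Finset (Fin n)) (t : ℝ) (ht0 : 0 ≤ t) (ht1 : t ≤ 1) (A : Finset (Wd n))
    (f g : Wd n → ℂ) (hf : ∀ x, ‖f x‖ ≤ 1) (hg : ∀ x, ‖g x‖ ≤ 1) (c : ℂ) (hc : ‖c‖ = t) :
    ‖∑ x ∈ A, ∑ y ∈ A, f x * g y * ∏ i ∈ T, (1 + c * ((sg (x i) * sg (y i) : ℝ) : ℂ))‖ ≤
      ∑ x ∈ A, ∑ y ∈ A, ∏ i ∈ T, (1 + t * (sg (x i) * sg (y i))) := by
  have h1 : ∑ x ∈ A, ∑ y ∈ A, f x * g y * ∏ i ∈ T, (1 + c * ((sg (x i) * sg (y i) : ℝ) : ℂ)) =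
      ∑ S ∈ T.powerset, c ^ S.card * ((∑ x ∈ A, f x * ((chi S x : ℝ) : ℂ)) *
        (∑ y ∈ A, g y * ((chi S y : ℝ) : ℂ))) := by
    calc ∑ x ∈ A, ∑ y ∈ A, f x * g y * ∏ i ∈ T, (1 + c * ((sg (x i) * sg (y i) : ℝ) : ℂ))
        = ∑ x ∈ A, ∑ y ∈ A, ∑ S ∈ T.powerset, c ^ S.card * ((f x * ((chi S x : ℝ) : ℂ)) *
            (g y * ((chi S y : ℝ) : ℂ))) := by
          apply Finset.sum_congr rfl; intro x _
          apply Finset.sum_congr rfl; intro y _
          rw [prod_exp, Finset.mul_sum]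
          apply Finset.sum_congr rfl; intro S _
          ring
      _ = ∑ S ∈ T.powerset, ∑ x ∈ A, ∑ y ∈ A, c ^ S.card * ((f x * ((chi S x : ℝ) : ℂ)) *
            (g y * ((chi S y : ℝ) : ℂ))) := by
          symm
          rw [Finset.sum_comm]
          apply Finset.sum_congr rfl; intro x _
          rw [Finset.sum_comm]
      _ = _ := by
          apply Finset.sum_congr rfl; intro S _
          rw [Finset.sum_mul_sum, Finset.mul_sum]
          apply Finset.sum_congr rfl; intro x _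
          rw [Finset.mul_sum]
  rw [h1]
  have h2 : ∀ S ∈ T.powerset, ‖c ^ S.card * ((∑ x ∈ A, f x * ((chi S x : ℝ) : ℂ)) *
        (∑ y ∈ A, g y * ((chi S y : ℝ) : ℂ)))‖ ≤
      (t ^ S.card * ‖∑ x ∈ A, f x * ((chi S x : ℝ) : ℂ)‖ ^ 2 +
        t ^ S.card * ‖∑ x ∈ A, g x * ((chi S x : ℝ) : ℂ)‖ ^ 2) / 2 := by
    intro S _
    rw [norm_mul, norm_pow, hc, norm_mul]
    have h3 := two_mul_le_add_sq ‖∑ x ∈ A, f x * ((chi S x : ℝ) : ℂ)‖
      ‖∑ x ∈ A, g x * ((chi S x : ℝ) : ℂ)‖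
    have h4 : 0 ≤ t ^ S.card := pow_nonneg ht0 _
    nlinarith
  calc ‖∑ S ∈ T.powerset, c ^ S.card * ((∑ x ∈ A, f x * ((chi S x : ℝ) : ℂ)) *
        (∑ y ∈ A, g y * ((chi S y : ℝ) : ℂ)))‖
      ≤ ∑ S ∈ T.powerset, (t ^ S.card * ‖∑ x ∈ A, f x * ((chi S x : ℝ) : ℂ)‖ ^ 2 +
        t ^ S.card * ‖∑ x ∈ A, g x * ((chi S x : ℝ) : ℂ)‖ ^ 2) / 2 :=
        (norm_sum_le _ _).trans (Finset.sum_le_sum h2)
    _ = (∑ S ∈ T.powerset, t ^ S.card * ‖∑ x ∈ A, f x * ((chi S x : ℝ) : ℂ)‖ ^ 2 +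
          ∑ S ∈ T.powerset, t ^ S.card * ‖∑ x ∈ A, g x * ((chi S x : ℝ) : ℂ)‖ ^ 2) / 2 := by
        rw [← Finset.sum_div, Finset.sum_add_distrib]
    _ ≤ _ := by
        have h5 := sq_le T t ht0 ht1 A f hf
        have h6 := sq_le T t ht0 ht1 A g hg
        linarith

/-- inner product of the sign vectors over `T` -/
noncomputable def ip {n : ℕ} (T : Finset (Fin n)) (x y : Wd n) : ℝ := ∑ i ∈ T, sg (x i) * sg (y i)

theorem sg_cases {n : ℕ} (x : Wd n) (i : Fin n) : sg (x i) = 1 ∨ sg (x i) = -1 := by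
  unfold sg; split_ifs <;> simp

theorem ph_add (a b : ℝ) : ph (a + b) = ph a * ph b := by
  unfold ph
  rw [← Complex.exp_add]
  congr 1; push_cast; ring

theorem norm_ph' (a : ℝ) : ‖ph a‖ = 1 := Complex.norm_exp_ofReal_mul_I a

theorem conj_ph (a : ℝ) : conj (ph a) = ph (-a) := by
  unfold ph
  rw [← Complex.exp_conj]
  congr 1
  simp

/-- `exp (i θ <s,u>) = cos θ^T ∏ (1 + i t s u)` -/
theorem ph_ip {n : ℕ} (T : Finset (Fin n)) (θ : ℝ) (hθ : Real.cos θ ≠ 0) (x y : Wd n) :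
    ph (θ * ip T x y) = ((Real.cos θ ^ T.card : ℝ) : ℂ) *
      ∏ i ∈ T, (1 + ((Real.tan θ : ℝ) : ℂ) * Complex.I * ((sg (x i) * sg (y i) : ℝ) : ℂ)) := by
  have h1 : ph (θ * ip T x y) = ∏ i ∈ T, ph (θ * (sg (x i) * sg (y i))) := by
    unfold ph ip
    rw [← Complex.exp_sum]
    congr 1
    push_cast
    rw [Finset.mul_sum, Finset.sum_mul]
  have h2 : ∀ i ∈ T, ph (θ * (sg (x i) * sg (y i))) = ((Real.cos θ : ℝ) : ℂ) *
      (1 + ((Real.tan θ : ℝ) : ℂ) * Complex.I * ((sg (x i) * sg (y i) : ℝ) : ℂ)) := by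
    intro i _
    have h3 : Real.cos θ * Real.tan θ = Real.sin θ := by
      rw [mul_comm]; exact Real.tan_mul_cos hθ
    have h4 : sg (x i) * sg (y i) = 1 ∨ sg (x i) * sg (y i) = -1 := by
      rcases sg_cases x i with h | h <;> rcases sg_cases y i with h' | h' <;> rw [h, h'] <;> norm_num
    have h5 : ((Real.cos θ : ℝ) : ℂ) * (1 + ((Real.tan θ : ℝ) : ℂ) * Complex.I *
        ((sg (x i) * sg (y i) : ℝ) : ℂ)) = ((Real.cos θ : ℝ) : ℂ) +
        ((Real.cos θ * Real.tan θ : ℝ) : ℂ) * Complex.I * ((sg (x i) * sg (y i) : ℝ) : ℂ) := by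
      push_cast; ring
    rw [h5, h3]
    unfold ph
    rw [Complex.exp_mul_I, ← Complex.ofReal_cos, ← Complex.ofReal_sin]
    rcases h4 with h | h <;> rw [h]
    · rw [mul_one, Complex.ofReal_one, mul_one]
    · rw [show θ * (-1 : ℝ) = -θ by ring, Real.cos_neg, Real.sin_neg]
      push_cast; ring
  rw [h1, Finset.prod_congr rfl h2, Finset.prod_mul_distrib, Finset.prod_const]
  push_cast
  rfl

theorem lz_inj' {n : ℕ} : Function.Injective (lz : Wd n → (Fin n → ℤ)) := by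
  intro x y h
  funext i
  have h1 := congrFun h i
  unfold lz at h1
  have h2 : (x i).val = (y i).val := by exact_mod_cast h1
  exact ZMod.val_injective 2 h2

theorem two_val (a : ZMod 2) : (2 : ℝ) * (a.val : ℝ) = 1 - sg a := by
  rcases z01 a with rfl | rfl
  · simp [sg]
  · have : (1 : ZMod 2).val = 1 := rfl
    rw [sg_one, this]; norm_num

/-- `4 <x - x', y - y'>` in terms of the signs -/
theorem four_ip {n : ℕ} (T : Finset (Fin n)) (x x' y y' : Wd n) (h : ∀ i, i ∉ T → x i = x' i) :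
    (4 : ℝ) * ((((lz x - lz x') ⬝ᵥ (lz y - lz y') : ℤ)) : ℝ) =
      ip T x y - ip T x' y - ip T x y' + ip T x' y' := by
  have h1 : (4 : ℝ) * ((((lz x - lz x') ⬝ᵥ (lz y - lz y') : ℤ)) : ℝ) =
      ∑ i, (sg (x i) - sg (x' i)) * (sg (y i) - sg (y' i)) := by
    unfold dotProduct
    push_cast
    rw [Finset.mul_sum]
    apply Finset.sum_congr rfl
    intro i _
    unfold lz
    simp only [Pi.sub_apply]
    push_cast
    have e1 := two_val (x i)
    have e2 := two_val (x' i)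
    have e3 := two_val (y i)
    have e4 := two_val (y' i)
    have f1 : ((x i).val : ℝ) - ((x' i).val : ℝ) = (sg (x' i) - sg (x i)) / 2 := by linarith
    have f2 : ((y i).val : ℝ) - ((y' i).val : ℝ) = (sg (y' i) - sg (y i)) / 2 := by linarith
    rw [f1, f2]; ring
  rw [h1]
  have h2 : ∑ i, (sg (x i) - sg (x' i)) * (sg (y i) - sg (y' i)) =
      ∑ i ∈ T, (sg (x i) - sg (x' i)) * (sg (y i) - sg (y' i)) := by
    symm
    apply Finset.sum_subset (Finset.subset_univ T)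
    intro i _ hi
    rw [h i hi, sub_self, zero_mul]
  rw [h2]
  unfold ip
  rw [← Finset.sum_sub_distrib, ← Finset.sum_sub_distrib, ← Finset.sum_add_distrib]
  apply Finset.sum_congr rfl
  intro i _
  ring

/-- `(1+t)^(N-w) (1-t)^w = ∏ (1 + t s s)` -/
theorem prod_eq {n : ℕ} (T : Finset (Fin n)) (t : ℝ) (x y : Wd n) (h : ∀ i, i ∉ T → x i = y i) :
    ∏ i ∈ T, (1 + t * (sg (x i) * sg (y i))) =
      (1 + t) ^ (T.card - wt (x - y)) * (1 - t) ^ wt (x - y) := by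
  classical
  have h1 : ∀ i ∈ T, (1 + t * (sg (x i) * sg (y i))) = if x i = y i then 1 + t else 1 - t := by
    intro i _
    split_ifs with h2
    · rw [h2, sg_mul_self]; ring
    · rcases z01 (x i) with h3 | h3 <;> rcases z01 (y i) with h4 | h4
      · exact absurd (h3.trans h4.symm) h2
      · rw [h3, h4, sg_zero, sg_one]; ring
      · rw [h3, h4, sg_zero, sg_one]; ring
      · exact absurd (h3.trans h4.symm) h2
  rw [Finset.prod_congr rfl h1, Finset.prod_ite, Finset.prod_const, Finset.prod_const]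
  have h5 : (T.filter fun i => ¬ x i = y i).card = wt (x - y) := by
    unfold wt hammingNorm
    congr 1
    ext i
    simp only [Finset.mem_filter, Finset.mem_univ, true_and, Pi.sub_apply]
    constructor
    · rintro ⟨_, h6⟩
      exact sub_ne_zero.mpr h6
    · intro h6
      have h7 : ¬ x i = y i := sub_ne_zero.mp h6
      exact ⟨by by_contra hi; exact h7 (h i hi), h7⟩
  have h6 : (T.filter fun i => x i = y i).card = T.card - wt (x - y) := by
    rw [← h5]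
    have := Finset.card_filter_add_card_filter_not (s := T) (fun i => x i = y i)
    omega
  rw [h5, h6]

end Sml

open Sml

theorem small_holds : SmallS := by
  intro n A T θ hθ0 hθ hAT
  have hπ := Real.pi_pos
  have hcos : 0 < Real.cos θ := Real.cos_pos_of_mem_Ioo ⟨by linarith, by linarith⟩
  have ht0 : 0 ≤ Real.tan θ := by
    rcases hθ0.eq_or_lt with h | h
    · rw [← h, Real.tan_zero]
    · exact (Real.tan_pos_of_pos_of_lt_pi_div_two h (by linarith)).le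
  have ht1 : Real.tan θ ≤ 1 := by
    rw [← Real.tan_pi_div_four]
    exact (Real.tan_lt_tan_of_nonneg_of_lt_pi_div_two hθ0 (by linarith) hθ).le
  set t := Real.tan θ with ht
  -- the complex form
  have h1 : ((Box (A.image lz) (4 * θ) : ℝ) : ℂ) = ∑ x' ∈ A, ∑ y' ∈ A, ∑ x ∈ A, ∑ y ∈ A,
      (ph (-(θ * ip T x y')) * (ph (-(θ * ip T x' y)) * ph (θ * ip T x' y'))) *
        ph (θ * ip T x y) := by
    unfold Box
    rw [Finset.sum_image (fun a _ b _ h => lz_inj' h), Complex.ofReal_sum]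
    calc ∑ y ∈ A, ((∑ y' ∈ A.image lz, ‖∑ x ∈ A.image lz,
            ph (4 * θ * ((x ⬝ᵥ (lz y - y') : ℤ) : ℝ))‖ ^ 2 : ℝ) : ℂ)
        = ∑ y ∈ A, ∑ y' ∈ A, ∑ x ∈ A, ∑ x' ∈ A,
            (ph (-(θ * ip T x y')) * (ph (-(θ * ip T x' y)) * ph (θ * ip T x' y'))) *
              ph (θ * ip T x y) := by
          apply Finset.sum_congr rfl; intro y _
          rw [Finset.sum_image (fun a _ b _ h => lz_inj' h), Complex.ofReal_sum]
          apply Finset.sum_congr rfl; intro y' _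
          rw [Finset.sum_image (fun a _ b _ h => lz_inj' h)]
          rw [← Complex.normSq_eq_norm_sq, ← Complex.mul_conj, map_sum,
            Finset.sum_mul_sum]
          apply Finset.sum_congr rfl; intro x hx
          apply Finset.sum_congr rfl; intro x' hx'
          rw [conj_ph, ← ph_add, ← ph_add, ← ph_add, ← ph_add]
          congr 1
          have h2 := four_ip T x x' y y' (hAT x hx x' hx')
          have h3 : (((lz x - lz x') ⬝ᵥ (lz y - lz y') : ℤ) : ℝ) =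
              ((lz x ⬝ᵥ (lz y - lz y') : ℤ) : ℝ) - ((lz x' ⬝ᵥ (lz y - lz y') : ℤ) : ℝ) := by
            rw [sub_dotProduct]; push_cast; ring
          rw [h3] at h2
          linear_combination θ * h2
      _ = ∑ x' ∈ A, ∑ y' ∈ A, ∑ x ∈ A, ∑ y ∈ A,
            (ph (-(θ * ip T x y')) * (ph (-(θ * ip T x' y)) * ph (θ * ip T x' y'))) *
              ph (θ * ip T x y) := by
          rw [Finset.sum_comm]
          calc ∑ y' ∈ A, ∑ y ∈ A, ∑ x ∈ A, ∑ x' ∈ A,
                (ph (-(θ * ip T x y')) * (ph (-(θ * ip T x' y)) * ph (θ * ip T x' y'))) *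
                  ph (θ * ip T x y)
              = ∑ y' ∈ A, ∑ x' ∈ A, ∑ x ∈ A, ∑ y ∈ A,
                (ph (-(θ * ip T x y')) * (ph (-(θ * ip T x' y)) * ph (θ * ip T x' y'))) *
                  ph (θ * ip T x y) := by
                apply Finset.sum_congr rfl; intro y' _
                rw [Finset.sum_comm]
                calc _ = ∑ x ∈ A, ∑ x' ∈ A, ∑ y ∈ A,
                      (ph (-(θ * ip T x y')) * (ph (-(θ * ip T x' y)) * ph (θ * ip T x' y'))) *
                        ph (θ * ip T x y) := by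
                      apply Finset.sum_congr rfl; intro x _
                      rw [Finset.sum_comm]
                  _ = _ := by rw [Finset.sum_comm]
            _ = _ := by rw [Finset.sum_comm]
  have h2 : Box (A.image lz) (4 * θ) = ‖((Box (A.image lz) (4 * θ) : ℝ) : ℂ)‖ := by
    rw [Complex.norm_real, Real.norm_of_nonneg]
    unfold Box
    exact Finset.sum_nonneg fun _ _ => Finset.sum_nonneg fun _ _ => sq_nonneg _
  have hQ : Qt A T.card t = ∑ x ∈ A, ∑ y ∈ A, ∏ i ∈ T, (1 + t * (sg (x i) * sg (y i))) := by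
    unfold Qt
    apply Finset.sum_congr rfl; intro x hx
    apply Finset.sum_congr rfl; intro y hy
    rw [prod_eq T t x y (hAT x hx y hy)]
  have h3 : ∀ x' ∈ A, ∀ y' ∈ A, ‖∑ x ∈ A, ∑ y ∈ A,
      (ph (-(θ * ip T x y')) * (ph (-(θ * ip T x' y)) * ph (θ * ip T x' y'))) *
        ph (θ * ip T x y)‖ ≤ Real.cos θ ^ T.card * Qt A T.card t := by
    intro x' _ y' _
    have h4 : ∑ x ∈ A, ∑ y ∈ A,
        (ph (-(θ * ip T x y')) * (ph (-(θ * ip T x' y)) * ph (θ * ip T x' y'))) *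
          ph (θ * ip T x y) = ((Real.cos θ ^ T.card : ℝ) : ℂ) * ∑ x ∈ A, ∑ y ∈ A,
        ph (-(θ * ip T x y')) * (ph (-(θ * ip T x' y)) * ph (θ * ip T x' y')) *
          ∏ i ∈ T, (1 + ((t : ℝ) : ℂ) * Complex.I * ((sg (x i) * sg (y i) : ℝ) : ℂ)) := by
      rw [Finset.mul_sum]
      apply Finset.sum_congr rfl; intro x _
      rw [Finset.mul_sum]
      apply Finset.sum_congr rfl; intro y _
      rw [ph_ip T θ hcos.ne' x y]
      ring
    rw [h4, norm_mul, Complex.norm_real, Real.norm_of_nonneg (pow_nonneg hcos.le _), hQ]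
    apply mul_le_mul_of_nonneg_left _ (pow_nonneg hcos.le _)
    apply bil_le T t ht0 ht1 A (fun x => ph (-(θ * ip T x y')))
      (fun y => ph (-(θ * ip T x' y)) * ph (θ * ip T x' y'))
    · intro x; rw [norm_ph']
    · intro y; rw [norm_mul, norm_ph', norm_ph', mul_one]
    · rw [norm_mul, Complex.norm_I, mul_one, Complex.norm_real, Real.norm_of_nonneg ht0]
  rw [h2, h1]
  calc ‖∑ x' ∈ A, ∑ y' ∈ A, ∑ x ∈ A, ∑ y ∈ A,
        (ph (-(θ * ip T x y')) * (ph (-(θ * ip T x' y)) * ph (θ * ip T x' y'))) *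
          ph (θ * ip T x y)‖
      ≤ ∑ x' ∈ A, ∑ y' ∈ A, Real.cos θ ^ T.card * Qt A T.card t := by
        refine (norm_sum_le _ _).trans (Finset.sum_le_sum fun x' hx' => ?_)
        exact (norm_sum_le _ _).trans (Finset.sum_le_sum fun y' hy' => h3 x' hx' y' hy')
    _ = _ := by
        rw [Finset.sum_const, Finset.sum_const, nsmul_eq_mul, nsmul_eq_mul]
        ring

end Pool.Agent.Lib.MP_0430e4_lc.AC
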