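import Pool.Agent.Lib.MP_0430e4_lc.AC.NX1
import Pool.Agent.Lib.MP_0430e4_lc.AC.Sml

/-!
Project ALLCODES, NoAlignX, module NX2 (helper10): one piece at the small angle `m ψ` modulo `π`.
-/

set_option autoImplicit false

open Finset
open scoped ComplexConjugate

namespace Pool.Agent.Lib.MP_0430e4_lc.AC

open BY BY.Four

theorem nx2_ph_int (j N : ℤ) : ph (2 * Real.pi * (j : ℝ) * (N : ℝ)) = 1 := by
  unfold ph
  rw [Complex.exp_eq_one_iff]
  refine ⟨j * N, ?_⟩
  push_cast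
  ring

/-- the box norm has period `2π` -/
theorem Box_add {n : ℕ} (B : Finset (Fin n → ℤ)) (a : ℝ) (j : ℤ) :
    Box B (2 * Real.pi * j + a) = Box B a := by
  unfold Box
  apply Finset.sum_congr rfl; intro y _
  apply Finset.sum_congr rfl; intro y' _
  congr 2
  apply Finset.sum_congr rfl; intro x _
  rw [add_mul, Sml.ph_add, nx2_ph_int, one_mul]

/-- the box norm is even -/
theorem Box_neg {n : ℕ} (B : Finset (Fin n → ℤ)) (a : ℝ) : Box B (-a) = Box B a := by
  unfold Box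
  apply Finset.sum_congr rfl; intro y _
  apply Finset.sum_congr rfl; intro y' _
  congr 1
  have h1 : ∑ x ∈ B, ph (-a * ((x ⬝ᵥ (y - y') : ℤ) : ℝ)) =
      conj (∑ x ∈ B, ph (a * ((x ⬝ᵥ (y - y') : ℤ) : ℝ))) := by
    rw [map_sum]
    apply Finset.sum_congr rfl; intro x _
    rw [Sml.conj_ph]
    congr 1
    ring
  rw [h1, RCLike.norm_conj]

theorem Box_mult {n : ℕ} (B : Finset (Fin n → ℤ)) (m : ℕ) (ψ θ : ℝ) (j : ℤ)
    (h : |m * ψ - Real.pi * j| = 2 * θ) : Box B (m * (2 * ψ)) = Box B (4 * θ) := by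
  rcases abs_choice (m * ψ - Real.pi * j) with h1 | h1
  · rw [h1] at h
    have h2 : (m : ℝ) * (2 * ψ) = 2 * Real.pi * j + 4 * θ := by linarith
    rw [h2, Box_add]
  · rw [h1] at h
    have h2 : (m : ℝ) * (2 * ψ) = 2 * Real.pi * j + -(4 * θ) := by linarith
    rw [h2, Box_add, Box_neg]

/-- one piece -/
theorem piece_le {n : ℕ} (A : Finset (Wd n)) (J : Finset (Fin n))
    (hA : ∀ x ∈ A, ∀ y ∈ A, ∀ i ∈ J, x i = y i) (m : ℕ) (ψ θ : ℝ) (hθ0 : 0 ≤ θ)
    (hθ : θ < Real.pi / 4) (j : ℤ) (h : |m * ψ - Real.pi * j| = 2 * θ) :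
    Box (A.image lz) (m * (2 * ψ)) ≤ (A.card : ℝ) ^ 2 * ∑ x ∈ A, ∑ y ∈ A, ∏ i ∈ Jᶜ,
      (if x i = y i then Real.cos θ + Real.sin θ else Real.cos θ - Real.sin θ) := by
  have hπ := Real.pi_pos
  have hcos : 0 < Real.cos θ := Real.cos_pos_of_mem_Ioo ⟨by linarith, by linarith⟩
  have hAT : ∀ x ∈ A, ∀ y ∈ A, ∀ i, i ∉ Jᶜ → x i = y i := by
    intro x hx y hy i hi
    exact hA x hx y hy i (by simpa using hi)
  have h1 := small_holds n A Jᶜ θ hθ0 hθ hAT
  rw [Box_mult _ m ψ θ j h]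
  refine h1.trans (le_of_eq ?_)
  congr 1
  unfold Qt
  rw [Finset.mul_sum]
  apply Finset.sum_congr rfl; intro x hx
  rw [Finset.mul_sum]
  apply Finset.sum_congr rfl; intro y hy
  rw [← Sml.prod_eq Jᶜ (Real.tan θ) x y (hAT x hx y hy), ← Finset.prod_const,
    ← Finset.prod_mul_distrib]
  apply Finset.prod_congr rfl
  intro i _
  have h3 : Real.cos θ * Real.tan θ = Real.sin θ := by
    rw [mul_comm]; exact Real.tan_mul_cos hcos.ne'
  have h4 : Real.cos θ * (1 + Real.tan θ * (sg (x i) * sg (y i))) =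
      Real.cos θ + (Real.cos θ * Real.tan θ) * (sg (x i) * sg (y i)) := by ring
  rw [h4, h3]
  split_ifs with h2
  · rw [h2, sg_mul_self]; ring
  · rcases z01 (x i) with h5 | h5 <;> rcases z01 (y i) with h6 | h6
    · exact absurd (h5.trans h6.symm) h2
    · rw [h5, h6, sg_zero, sg_one]; ring
    · rw [h5, h6, sg_zero, sg_one]; ring
    · exact absurd (h5.trans h6.symm) h2

/-- `A.image lz` has as many elements as `A`, and its vectors have entries `0`, `1` -/
theorem card_image_lz {n : ℕ} (A : Finset (Wd n)) : (A.image lz).card = A.card :=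
  Finset.card_image_of_injective _ Sml.lz_inj'

theorem lz_01 {n : ℕ} (A : Finset (Wd n)) : ∀ x ∈ A.image lz, ∀ i, x i = 0 ∨ x i = 1 := by
  intro x hx i
  obtain ⟨w, _, rfl⟩ := Finset.mem_image.mp hx
  rcases z01 (w i) with h | h
  · left; unfold lz; rw [h]; rfl
  · right; unfold lz; rw [h]; rfl

end Pool.Agent.Lib.MP_0430e4_lc.AC
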