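import Pool.Agent.Lib.MP_0430e4_lc.BY.P.N04
import Pool.Agent.Lib.MP_0430e4_lc.BY.P.N05
import Pool.Agent.Lib.MP_0430e4_lc.BY.Beta
import Pool.Agent.Lib.MP_0430e4_lc.AC.ShD

/-!
Project ALLCODES, part Y (helper13): the W side for an ARBITRARY real polynomial `G`, any window of
angles `[pa, pb]` and any window `[ta, tb]` of the beta variable.

`bw n ta tb w` = part of `1 / choose n w = (n+1) ∫ t^w (1-t)^(n-w)` over `[ta, tb]`.
-/

set_option autoImplicit false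

open Finset Polynomial

namespace Pool.Agent.Lib.MP_0430e4_lc.AC

open BY

/-- part of `1 / choose n w` over the window `[ta, tb]` -/
noncomputable def bw (n : ℕ) (ta tb : ℝ) (w : ℕ) : ℝ :=
  (n + 1) * ∫ t in ta..tb, t ^ w * (1 - t) ^ (n - w)

/-- Chernoff bound for one term of the binomial distribution. -/
theorem chern {n w : ℕ} (hn : 1 ≤ n) (hw : w ≤ n) {t : ℝ} (h0 : 0 ≤ t) (h1 : t ≤ 1) :
    (n.choose w : ℝ) * (t ^ w * (1 - t) ^ (n - w)) ≤
      Real.exp (-(n * ((w : ℝ) / n - t) ^ 2 / 4)) := by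
  have hn0 : (0 : ℝ) < n := by exact_mod_cast hn
  set x : ℝ := (w : ℝ) / n with hx
  have hx0 : 0 ≤ x := by positivity
  have hx1 : x ≤ 1 := by rw [hx, div_le_one hn0]; exact_mod_cast hw
  have hwx : (w : ℝ) = n * x := by rw [hx]; field_simp
  set l : ℝ := (x - t) / 2 with hl
  have hl1 : |l| ≤ 1 := by
    rw [hl, abs_le]; constructor <;> linarith
  have e1 : Real.exp l ≤ 1 + l + l ^ 2 := by
    have := Real.abs_exp_sub_one_sub_id_le hl1
    have h2 := (abs_le.mp this).2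
    linarith
  have e2 : 1 - t + t * Real.exp l ≤ Real.exp (t * l + l ^ 2) := by
    have h3 : t * Real.exp l ≤ t * (1 + l + l ^ 2) := mul_le_mul_of_nonneg_left e1 h0
    have h4 : t * l ^ 2 ≤ l ^ 2 := by nlinarith [sq_nonneg l]
    have h5 := Real.add_one_le_exp (t * l + l ^ 2)
    nlinarith
  have e3 : (n.choose w : ℝ) * (t ^ w * (1 - t) ^ (n - w)) * Real.exp (l * w) ≤
      (1 - t + t * Real.exp l) ^ n := by
    rw [add_comm (1 - t), add_pow]
    have h6 := Finset.single_le_sum (s := Finset.range (n + 1))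
      (f := fun k => (t * Real.exp l) ^ k * (1 - t) ^ (n - k) * (n.choose k : ℝ))
      (fun k _ => by
        have : 0 ≤ 1 - t := by linarith
        positivity) (Finset.mem_range.mpr (Nat.lt_succ_of_le hw))
    refine le_trans (le_of_eq ?_) h6
    rw [mul_pow, ← Real.exp_nat_mul]
    have h7 : l * (w : ℝ) = (w : ℝ) * l := by ring
    rw [h7]; ring
  have e4 : (1 - t + t * Real.exp l) ^ n ≤ Real.exp (n * (t * l + l ^ 2)) := by
    rw [Real.exp_nat_mul]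
    refine pow_le_pow_left₀ ?_ e2 n
    have : 0 ≤ 1 - t := by linarith
    positivity
  have e5 : (n.choose w : ℝ) * (t ^ w * (1 - t) ^ (n - w)) ≤
      Real.exp (n * (t * l + l ^ 2)) * Real.exp (-(l * w)) := by
    rw [Real.exp_neg, ← div_eq_mul_inv, le_div_iff₀ (Real.exp_pos _)]
    exact e3.trans e4
  refine e5.trans ?_
  rw [← Real.exp_add]
  apply Real.exp_le_exp.mpr
  rw [hwx, hl]
  apply le_of_eq
  ring

theorem beta_ii (n w : ℕ) (a b : ℝ) :
    IntervalIntegrable (fun t : ℝ => t ^ w * (1 - t) ^ (n - w)) MeasureTheory.volume a b := by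
  apply Continuous.intervalIntegrable; fun_prop

theorem beta_nn (n w : ℕ) {a b : ℝ} (h0 : 0 ≤ a) (hab : a ≤ b) (h1 : b ≤ 1) :
    0 ≤ ∫ t in a..b, t ^ w * (1 - t) ^ (n - w) := by
  apply intervalIntegral.integral_nonneg hab
  intro t ht
  have h2 : 0 ≤ t := by linarith [ht.1]
  have h3 : 0 ≤ 1 - t := by linarith [ht.2]
  positivity

theorem bw_nonneg {n w : ℕ} {ta tb : ℝ} (h0 : 0 ≤ ta) (hab : ta ≤ tb) (h1 : tb ≤ 1) :
    0 ≤ bw n ta tb w := by
  unfold bw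
  exact mul_nonneg (by positivity) (beta_nn n w h0 hab h1)

/-- a pointwise bound of the integrand on the window -/
theorem bw_le_of {n w : ℕ} {ta tb B : ℝ} (h0 : 0 ≤ ta) (hab : ta ≤ tb) (h1 : tb ≤ 1)
    (hB0 : 0 ≤ B) (hB : ∀ t : ℝ, ta ≤ t → t ≤ tb → t ^ w * (1 - t) ^ (n - w) ≤ B) :
    bw n ta tb w ≤ (n + 1) * B := by
  unfold bw
  refine mul_le_mul_of_nonneg_left ?_ (by positivity)
  have h2 : ∫ t in ta..tb, t ^ w * (1 - t) ^ (n - w) ≤ ∫ t in ta..tb, B := by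
    apply intervalIntegral.integral_mono_on hab (beta_ii n w _ _) (by simp)
    intro t ht
    exact hB t ht.1 ht.2
  refine h2.trans ?_
  rw [intervalIntegral.integral_const, smul_eq_mul]
  nlinarith

/-- the two tails -/
theorem bw_tails {n w : ℕ} (hw : w ≤ n) (ta tb : ℝ) :
    ((n.choose w : ℝ))⁻¹ - bw n ta tb w = ((n : ℝ) + 1) *
      ((∫ t in (0 : ℝ)..ta, t ^ w * (1 - t) ^ (n - w)) +
        ∫ t in tb..(1 : ℝ), t ^ w * (1 - t) ^ (n - w)) := by
  rw [inv_choose_eq hw, ← intervalIntegral.integral_add_adjacent_intervals (beta_ii n w 0 ta)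
      (beta_ii n w ta 1),
    ← intervalIntegral.integral_add_adjacent_intervals (beta_ii n w ta tb)
      (beta_ii n w tb 1)]
  unfold bw
  ring

theorem bw_le_inv {n w : ℕ} {ta tb : ℝ} (h0 : 0 ≤ ta) (hab : ta ≤ tb) (h1 : tb ≤ 1)
    (hw : w ≤ n) : bw n ta tb w ≤ ((n.choose w : ℝ))⁻¹ := by
  have h := bw_tails hw ta tb
  have h2 := beta_nn n w (a := 0) (b := ta) le_rfl h0 (by linarith)
  have h3 := beta_nn n w (a := tb) (b := 1) (by linarith) h1 le_rfl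
  have h4 : 0 ≤ ((n : ℝ) + 1) *
      ((∫ t in (0 : ℝ)..ta, t ^ w * (1 - t) ^ (n - w)) +
        ∫ t in tb..(1 : ℝ), t ^ w * (1 - t) ^ (n - w)) :=
    mul_nonneg (by positivity) (add_nonneg h2 h3)
  linarith

/-- Chernoff, in the form used here -/
theorem chern_far {n w : ℕ} (hn : 1 ≤ n) (hw : w ≤ n) {t ρ : ℝ} (h0 : 0 ≤ t) (h1 : t ≤ 1)
    (hρ : 0 ≤ ρ) (hd : ρ ≤ |(w : ℝ) / n - t|) :
    t ^ w * (1 - t) ^ (n - w) ≤ ((n.choose w : ℝ))⁻¹ * Real.exp (-(ρ ^ 2 / 4) * n) := by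
  have hch : (0 : ℝ) < n.choose w := by exact_mod_cast Nat.choose_pos hw
  have hn0 : (0 : ℝ) < n := by exact_mod_cast hn
  have h2 : (n.choose w : ℝ) * (t ^ w * (1 - t) ^ (n - w)) ≤ Real.exp (-(ρ ^ 2 / 4) * n) := by
    refine (chern hn hw h0 h1).trans (Real.exp_le_exp.mpr ?_)
    have h5 : ρ ^ 2 ≤ ((w : ℝ) / n - t) ^ 2 := by
      rw [← sq_abs ((w : ℝ) / n - t)]
      exact pow_le_pow_left₀ hρ hd 2
    nlinarith [mul_le_mul_of_nonneg_left h5 hn0.le]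
  rw [inv_mul_eq_div, le_div_iff₀ hch, mul_comm]
  exact h2

/-- the window misses only an exponentially small part -/
theorem bw_out {n w : ℕ} (hn : 1 ≤ n) (hw : w ≤ n) {ta tb ρ : ℝ} (h0 : 0 ≤ ta) (hab : ta ≤ tb)
    (h1 : tb ≤ 1) (hρ : 0 ≤ ρ) (hlo : (ta + ρ) * n ≤ w) (hhi : (w : ℝ) ≤ (tb - ρ) * n) :
    ((n.choose w : ℝ))⁻¹ - bw n ta tb w ≤
      (n + 1) * (((n.choose w : ℝ))⁻¹ * Real.exp (-(ρ ^ 2 / 4) * n)) := by
  have hch : (0 : ℝ) < n.choose w := by exact_mod_cast Nat.choose_pos hw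
  rw [bw_tails hw]
  apply mul_le_mul_of_nonneg_left _ (by positivity)
  have hn0 : (0 : ℝ) < n := by exact_mod_cast hn
  have hx1 : ta + ρ ≤ (w : ℝ) / n := by rw [le_div_iff₀ hn0]; exact hlo
  have hx2 : (w : ℝ) / n ≤ tb - ρ := by rw [div_le_iff₀ hn0]; exact hhi
  set E := ((n.choose w : ℝ))⁻¹ * Real.exp (-(ρ ^ 2 / 4) * n) with hE
  have hE0 : 0 < E := by positivity
  have hA : (∫ t in (0 : ℝ)..ta, t ^ w * (1 - t) ^ (n - w)) ≤ ta * E := by
    have h6 : ∫ t in (0 : ℝ)..ta, t ^ w * (1 - t) ^ (n - w) ≤ ∫ t in (0 : ℝ)..ta, E := by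
      apply intervalIntegral.integral_mono_on h0 (beta_ii n w _ _) (by simp)
      intro t ht
      apply chern_far hn hw ht.1 (by linarith [ht.2]) hρ
      rw [le_abs]; left; linarith [ht.2]
    refine h6.trans (le_of_eq ?_)
    rw [intervalIntegral.integral_const, smul_eq_mul, sub_zero]
  have hB : (∫ t in tb..(1 : ℝ), t ^ w * (1 - t) ^ (n - w)) ≤ (1 - tb) * E := by
    have h6 : ∫ t in tb..(1 : ℝ), t ^ w * (1 - t) ^ (n - w) ≤ ∫ t in tb..(1 : ℝ), E := by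
      apply intervalIntegral.integral_mono_on h1 (beta_ii n w _ _) (by simp)
      intro t ht
      apply chern_far hn hw (by linarith [ht.1]) ht.2 hρ
      rw [le_abs]; right; linarith [ht.1]
    refine h6.trans (le_of_eq ?_)
    rw [intervalIntegral.integral_const, smul_eq_mul]
  nlinarith

/-- far weights see only an exponentially small part of the window -/
theorem bw_far {n w : ℕ} (hn : 1 ≤ n) (hw : w ≤ n) {ta tb ρ : ℝ} (h0 : 0 ≤ ta) (hab : ta ≤ tb)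
    (h1 : tb ≤ 1) (hρ : 0 ≤ ρ) (h : (w : ℝ) ≤ (ta - ρ) * n ∨ (tb + ρ) * n ≤ w) :
    bw n ta tb w ≤ (n + 1) * (((n.choose w : ℝ))⁻¹ * Real.exp (-(ρ ^ 2 / 4) * n)) := by
  have hn0 : (0 : ℝ) < n := by exact_mod_cast hn
  apply bw_le_of h0 hab h1 (by positivity)
  intro t ht1 ht2
  apply chern_far hn hw (by linarith) (by linarith) hρ
  rcases h with h | h
  · have h2 : (w : ℝ) / n ≤ ta - ρ := by rw [div_le_iff₀ hn0]; exact h
    rw [le_abs]; right; linarith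
  · have h2 : tb + ρ ≤ (w : ℝ) / n := by rw [le_div_iff₀ hn0]; exact h
    rw [le_abs]; left; linarith

/-- high weights, window below one half -/
theorem bw_high {n w : ℕ} (hw : w ≤ n) (hw2 : n ≤ 2 * w) {ta tb : ℝ} (h0 : 0 ≤ ta)
    (hab : ta ≤ tb) (h1 : tb ≤ 1 / 2) :
    bw n ta tb w ≤ (n + 1) * ((1 / 2) ^ n * (2 * tb) ^ (2 * w - n)) := by
  have htb : 0 ≤ tb := h0.trans hab
  apply bw_le_of h0 hab (by linarith) (by positivity)
  intro t ht1 ht2
  have ht0 : 0 ≤ t := h0.trans ht1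
  have e1 : t ^ w = t ^ (n - w) * t ^ (2 * w - n) := by
    rw [← pow_add]; congr 1; omega
  have e2 : (1 / 2 : ℝ) ^ n = (1 / 4) ^ (n - w) * (1 / 2) ^ (2 * w - n) := by
    have : (1 / 4 : ℝ) = (1 / 2) ^ 2 := by norm_num
    rw [this, ← pow_mul, ← pow_add]; congr 1; omega
  have h2 : t * (1 - t) ≤ 1 / 4 := by nlinarith [sq_nonneg (t - 1 / 2)]
  calc t ^ w * (1 - t) ^ (n - w) = (t * (1 - t)) ^ (n - w) * t ^ (2 * w - n) := by
        rw [e1, mul_pow]; ring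
    _ ≤ (1 / 4) ^ (n - w) * tb ^ (2 * w - n) := by
        apply mul_le_mul
        · apply pow_le_pow_left₀ _ h2
          apply mul_nonneg ht0; linarith
        · exact pow_le_pow_left₀ ht0 ht2 _
        · positivity
        · positivity
    _ = (1 / 2) ^ n * (2 * tb) ^ (2 * w - n) := by
        rw [e2, mul_assoc, ← mul_pow]
        congr 2; ring

/-- any weight, window around one half -/
theorem bw_half {n w : ℕ} (hw : w ≤ n) {ta tb ρ : ℝ} (h0 : 0 ≤ ta) (hab : ta ≤ tb)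
    (h1 : tb ≤ 1) (h2 : 1 / 2 - ρ ≤ ta) (h3 : tb ≤ 1 / 2 + ρ) :
    bw n ta tb w ≤ (n + 1) * (1 / 2 + ρ) ^ n := by
  have hρ : 0 ≤ 1 / 2 + ρ := by linarith
  apply bw_le_of h0 hab h1 (by positivity)
  intro t ht1 ht2
  have ht0 : 0 ≤ t := h0.trans ht1
  have ht3 : 0 ≤ 1 - t := by linarith
  calc t ^ w * (1 - t) ^ (n - w) ≤ (1 / 2 + ρ) ^ w * (1 / 2 + ρ) ^ (n - w) := by
        apply mul_le_mul
        · exact pow_le_pow_left₀ ht0 (by linarith) w
        · exact pow_le_pow_left₀ ht3 (by linarith) _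
        · positivity
        · positivity
    _ = (1 / 2 + ρ) ^ n := by rw [← pow_add, Nat.add_sub_cancel' hw]

/-! ### the off-diagonal enumerator -/

theorem wt_zero' {n : ℕ} : wt (0 : Wd n) = 0 := by
  unfold wt
  exact hammingNorm_zero

/-- the off-diagonal sum as a sum over the nonzero weights -/
theorem sum_off {n : ℕ} (C : Finset (Wd n)) (f : ℕ → ℂ) :
    ∑ x ∈ C, ∑ y ∈ C.erase x, f (wt (x - y)) = ∑ w ∈ Finset.Icc 1 n, (Nw C w : ℂ) * f w := by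
  classical
  have h1 : ∑ x ∈ C, ∑ y ∈ C, f (wt (x - y)) =
      ∑ x ∈ C, ∑ y ∈ C.erase x, f (wt (x - y)) + (C.card : ℂ) * f 0 := by
    rw [← nsmul_eq_mul, ← Finset.sum_const, ← Finset.sum_add_distrib]
    apply Finset.sum_congr rfl
    intro x hx
    rw [← Finset.sum_erase_add _ _ hx, sub_self, wt_zero']
  have h2 := sum_pairs C f
  have h3 : Finset.range (n + 1) = insert 0 (Finset.Icc 1 n) := by
    ext k
    simp only [Finset.mem_range, Finset.mem_insert, Finset.mem_Icc]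
    omega
  rw [h3, Finset.sum_insert (by simp), Nw_zero] at h2
  rw [h1] at h2
  linear_combination h2

/-- the off-diagonal enumerator at `t/((1-t)e^σ) e^{-iφ}` as a sum over the weights -/
theorem off_ray {n : ℕ} (C : Finset (Wd n)) {t σ : ℝ} (ht : t < 1) (φ : ℝ) :
    ((1 - t : ℝ) : ℂ) ^ n * ∑ x ∈ C, ∑ y ∈ C.erase x,
      (((t / ((1 - t) * Real.exp σ) : ℝ) : ℂ) * Complex.exp (-((φ : ℂ) * Complex.I))) ^ wt (x - y) =
    ∑ w ∈ Finset.Icc 1 n, (Nw C w : ℂ) * (((t ^ w * (1 - t) ^ (n - w) : ℝ) : ℂ) *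
      Complex.exp (-(w : ℂ) * ((σ : ℂ) + (φ : ℂ) * Complex.I))) := by
  rw [sum_off C (fun w => (((t / ((1 - t) * Real.exp σ) : ℝ) : ℂ) *
    Complex.exp (-((φ : ℂ) * Complex.I))) ^ w), Finset.mul_sum]
  apply Finset.sum_congr rfl
  intro w hw
  have hwn : w ≤ n := (Finset.mem_Icc.mp hw).2
  have h1t : ((1 - t : ℝ) : ℂ) ≠ 0 := by
    exact_mod_cast (sub_pos.mpr ht).ne'
  have h2 : ((1 - t : ℝ) : ℂ) ^ n = ((1 - t : ℝ) : ℂ) ^ (n - w) * ((1 - t : ℝ) : ℂ) ^ w := by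
    rw [← pow_add, Nat.sub_add_cancel hwn]
  have h3 : Complex.exp (-(w : ℂ) * ((σ : ℂ) + (φ : ℂ) * Complex.I)) =
      ((Real.exp σ : ℝ) : ℂ)⁻¹ ^ w * Complex.exp (-((φ : ℂ) * Complex.I)) ^ w := by
    rw [Complex.ofReal_exp, ← Complex.exp_neg, ← Complex.exp_nat_mul, ← Complex.exp_nat_mul,
      ← Complex.exp_add]
    congr 1; ring
  have h4 : (((t / ((1 - t) * Real.exp σ) : ℝ) : ℂ)) =
      (t : ℂ) * (((1 - t : ℝ) : ℂ)⁻¹ * ((Real.exp σ : ℝ) : ℂ)⁻¹) := by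
    rw [Complex.ofReal_div, Complex.ofReal_mul, div_eq_mul_inv, mul_inv]
  have h5 : ((t ^ w * (1 - t) ^ (n - w) : ℝ) : ℂ) = (t : ℂ) ^ w * ((1 - t : ℝ) : ℂ) ^ (n - w) := by
    push_cast; ring
  rw [h3, h4, h5, h2]
  have h6 : ((1 - t : ℝ) : ℂ) ^ w * (((1 - t : ℝ) : ℂ)⁻¹) ^ w = 1 := by
    rw [← mul_pow, mul_inv_cancel₀ h1t, one_pow]
  calc _ = (Nw C w : ℂ) * ((t : ℂ) ^ w * ((1 - t : ℝ) : ℂ) ^ (n - w) *
        (((1 - t : ℝ) : ℂ) ^ w * (((1 - t : ℝ) : ℂ)⁻¹) ^ w) *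
        (((Real.exp σ : ℝ) : ℂ)⁻¹ ^ w * Complex.exp (-((φ : ℂ) * Complex.I)) ^ w)) := by ring
    _ = _ := by rw [h6]; ring

/-- the pairing of the near part with the code, window `[ta, tb]`, off the diagonal -/
theorem win_off {n : ℕ} (C : Finset (Wd n)) (G : ℝ[X]) {σ pa pb ta tb A B : ℝ}
    (hta : ta ≤ tb) (htb : tb < 1) (hab : pa ≤ pb) (hA0 : 0 ≤ A) (hB0 : 0 ≤ B)
    (hA : ∀ φ : ℝ, pa ≤ φ → φ ≤ pb → ‖G.aeval (up σ φ)‖ ≤ A)
    (hB : ∀ φ : ℝ, pa ≤ φ → φ ≤ pb → ∀ t : ℝ, ta ≤ t → t ≤ tb →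
      (1 - t) ^ n * ‖∑ x ∈ C, ∑ y ∈ C.erase x, (((t / ((1 - t) * Real.exp σ) : ℝ) : ℂ) *
        Complex.exp (-((φ : ℂ) * Complex.I))) ^ wt (x - y)‖ ≤ B) :
    ‖∑ w ∈ Finset.Icc 1 n, (Nw C w : ℂ) * (bw n ta tb w : ℂ) * nr G σ pa pb w‖ ≤
      (n + 1) * (tb - ta) * (pb - pa) * A * B := by
  classical
  have hcont : Continuous fun φ : ℝ => G.aeval (up σ φ) := by
    apply (Polynomial.continuous_aeval G).comp
    unfold up
    fun_prop
  have e1 : ∑ w ∈ Finset.Icc 1 n, (Nw C w : ℂ) * (bw n ta tb w : ℂ) * nr G σ pa pb w =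
      ((n : ℂ) + 1) * ∫ t in ta..tb,
        ∑ w ∈ Finset.Icc 1 n, (Nw C w : ℂ) * ((t ^ w * (1 - t) ^ (n - w) : ℝ) : ℂ) *
          nr G σ pa pb w := by
    rw [intervalIntegral.integral_finsetSum, Finset.mul_sum]
    · apply Finset.sum_congr rfl
      intro w _
      have h2 : ∀ t : ℝ, (Nw C w : ℂ) * ((t ^ w * (1 - t) ^ (n - w) : ℝ) : ℂ) * nr G σ pa pb w =
          ((Nw C w : ℂ) * nr G σ pa pb w) * ((t ^ w * (1 - t) ^ (n - w) : ℝ) : ℂ) := fun t => by ring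
      simp only [h2]
      rw [intervalIntegral.integral_const_mul, intervalIntegral.integral_ofReal]
      unfold bw
      push_cast
      ring
    · intro w _
      apply Continuous.intervalIntegrable
      fun_prop
  rw [e1, norm_mul]
  have e2 : ‖(n : ℂ) + 1‖ = (n : ℝ) + 1 := by
    have : (n : ℂ) + 1 = ((n + 1 : ℝ) : ℂ) := by push_cast; ring
    rw [this, Complex.norm_real, Real.norm_eq_abs, abs_of_nonneg (by positivity)]
  rw [e2]
  have e3 : ‖∫ t in ta..tb, ∑ w ∈ Finset.Icc 1 n, (Nw C w : ℂ) *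
      ((t ^ w * (1 - t) ^ (n - w) : ℝ) : ℂ) * nr G σ pa pb w‖ ≤
      ((A * B) * (pb - pa)) * |tb - ta| := by
    apply intervalIntegral.norm_integral_le_of_norm_le_const
    intro t ht
    rw [Set.uIoc_of_le hta] at ht
    have ht1 : t < 1 := by linarith [ht.2]
    have h4 : ∑ w ∈ Finset.Icc 1 n, (Nw C w : ℂ) * ((t ^ w * (1 - t) ^ (n - w) : ℝ) : ℂ) *
        nr G σ pa pb w = ∫ φ in pa..pb, G.aeval (up σ φ) * (((1 - t : ℝ) : ℂ) ^ n *
          ∑ x ∈ C, ∑ y ∈ C.erase x, (((t / ((1 - t) * Real.exp σ) : ℝ) : ℂ) *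
            Complex.exp (-((φ : ℂ) * Complex.I))) ^ wt (x - y)) := by
      have h5 : ∀ φ : ℝ, G.aeval (up σ φ) * (((1 - t : ℝ) : ℂ) ^ n * ∑ x ∈ C, ∑ y ∈ C.erase x,
          (((t / ((1 - t) * Real.exp σ) : ℝ) : ℂ) * Complex.exp (-((φ : ℂ) * Complex.I))) ^ wt (x - y)) =
          ∑ w ∈ Finset.Icc 1 n, ((Nw C w : ℂ) * ((t ^ w * (1 - t) ^ (n - w) : ℝ) : ℂ)) *
            (G.aeval (up σ φ) * Complex.exp (-(w : ℂ) * ((σ : ℂ) + (φ : ℂ) * Complex.I))) := by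
        intro φ
        rw [off_ray C ht1 φ, Finset.mul_sum]
        apply Finset.sum_congr rfl
        intro w _
        ring
      simp only [h5]
      rw [intervalIntegral.integral_finsetSum]
      · apply Finset.sum_congr rfl
        intro w _
        rw [intervalIntegral.integral_const_mul]
        rfl
      · intro w _
        apply IntervalIntegrable.const_mul
        apply Continuous.intervalIntegrable
        fun_prop
    rw [h4]
    have h6 := intervalIntegral.norm_integral_le_of_norm_le_const (a := pa) (b := pb)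
      (f := fun φ : ℝ => G.aeval (up σ φ) * (((1 - t : ℝ) : ℂ) ^ n * ∑ x ∈ C, ∑ y ∈ C.erase x,
          (((t / ((1 - t) * Real.exp σ) : ℝ) : ℂ) * Complex.exp (-((φ : ℂ) * Complex.I))) ^ wt (x - y)))
      (C := A * B) (by
        intro φ hφ
        rw [Set.uIoc_of_le hab] at hφ
        rw [norm_mul]
        apply mul_le_mul (hA φ hφ.1.le hφ.2) _ (norm_nonneg _) hA0
        rw [norm_mul, norm_pow, Complex.norm_real, Real.norm_eq_abs, abs_of_nonneg (by linarith)]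
        exact hB φ hφ.1.le hφ.2 t ht.1.le ht.2)
    rw [abs_of_nonneg (by linarith)] at h6
    exact h6
  rw [abs_of_nonneg (by linarith)] at e3
  calc ((n : ℝ) + 1) * _ ≤ ((n : ℝ) + 1) * ((A * B) * (pb - pa) * (tb - ta)) :=
        mul_le_mul_of_nonneg_left e3 (by positivity)
    _ = _ := by ring

end Pool.Agent.Lib.MP_0430e4_lc.AC
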