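import Pool.Agent.Lib.MP_0430e4_lc.AC.PA2

/-!
Project ALLCODES, part Y (helper13): coefficients of `G` as integrals over two arcs, rectangle shift,
the finite inequality.
-/

set_option autoImplicit false

open Finset Polynomial

namespace Pool.Agent.Lib.MP_0430e4_lc.AC

open BY

theorem nr_cont (G : ℝ[X]) (σ : ℝ) (w : ℕ) :
    Continuous fun φ : ℝ => (G.aeval (up σ φ)) *
      Complex.exp (-(w : ℂ) * ((σ : ℂ) + (φ : ℂ) * Complex.I)) := by
  have h1 : Continuous fun φ : ℝ => G.aeval (up σ φ) := by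
    have h : Continuous fun φ : ℝ => up σ φ := by unfold up; fun_prop
    have h2 : Continuous fun z : ℂ => G.aeval z := Polynomial.continuous_aeval G
    exact h2.comp h
  exact h1.mul (by fun_prop)

theorem norm_ew (w : ℕ) (σ φ : ℝ) :
    ‖Complex.exp (-(w : ℂ) * ((σ : ℂ) + (φ : ℂ) * Complex.I))‖ = Real.exp (-(w * σ)) := by
  rw [Complex.norm_exp]
  congr 1
  simp

theorem nr_bound (G : ℝ[X]) {σ a b A : ℝ} (w : ℕ) (hab : a ≤ b)
    (hA : ∀ φ : ℝ, a ≤ φ → φ ≤ b → ‖G.aeval (up σ φ)‖ ≤ A) :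
    ‖nr G σ a b w‖ ≤ A * Real.exp (-(w * σ)) * (b - a) := by
  unfold nr
  have h : ‖∫ φ in a..b, (G.aeval (up σ φ)) *
      Complex.exp (-(w : ℂ) * ((σ : ℂ) + (φ : ℂ) * Complex.I))‖ ≤
      A * Real.exp (-(w * σ)) * |b - a| := by
    apply intervalIntegral.norm_integral_le_of_norm_le_const
    intro φ hφ
    rw [Set.uIoc_of_le hab] at hφ
    rw [norm_mul, norm_ew]
    exact mul_le_mul_of_nonneg_right (hA φ hφ.1.le hφ.2) (Real.exp_pos _).le
  rwa [abs_of_nonneg (by linarith)] at h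

/-- the part of the coefficient on the two arcs -/
noncomputable def bp (G : ℝ[X]) (σ p1 p2 p3 p4 : ℝ) (w : ℕ) : ℝ :=
  ((nr G σ p1 p2 w).re + (nr G σ p3 p4 w).re) / Real.pi

theorem coeff_split2 (G : ℝ[X]) {σ p1 p2 p3 p4 A : ℝ} (w : ℕ) (h1 : 0 ≤ p1) (h12 : p1 ≤ p2)
    (h23 : p2 ≤ p3) (h34 : p3 ≤ p4) (h4 : p4 ≤ Real.pi)
    (hA : ∀ φ : ℝ, 0 ≤ φ → φ ≤ Real.pi → (φ ≤ p1 ∨ (p2 ≤ φ ∧ φ ≤ p3) ∨ p4 ≤ φ) →
      ‖G.aeval (up σ φ)‖ ≤ A) :
    |G.coeff w - bp G σ p1 p2 p3 p4 w| ≤ A * Real.exp (-(w * σ)) := by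
  have hpp : 0 < Real.pi := Real.pi_pos
  have hA0 : 0 ≤ A := le_trans (norm_nonneg _) (hA 0 le_rfl hpp.le (Or.inl h1))
  have hB0 : 0 ≤ A * Real.exp (-(w * σ)) := mul_nonneg hA0 (Real.exp_pos _).le
  have e1 : nr G σ 0 Real.pi w = nr G σ 0 p1 w + nr G σ p1 p2 w + nr G σ p2 p3 w +
      nr G σ p3 p4 w + nr G σ p4 Real.pi w := by
    unfold nr
    have hc := nr_cont G σ w
    rw [intervalIntegral.integral_add_adjacent_intervals (hc.intervalIntegrable _ _)
      (hc.intervalIntegrable _ _),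
      intervalIntegral.integral_add_adjacent_intervals (hc.intervalIntegrable _ _)
      (hc.intervalIntegrable _ _),
      intervalIntegral.integral_add_adjacent_intervals (hc.intervalIntegrable _ _)
      (hc.intervalIntegrable _ _),
      intervalIntegral.integral_add_adjacent_intervals (hc.intervalIntegrable _ _)
      (hc.intervalIntegrable _ _)]
  have e2 : G.coeff w = (nr G σ 0 Real.pi w).re / Real.pi := by
    rw [← coeff_half G σ w]
    field_simp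
  have e3 : G.coeff w - bp G σ p1 p2 p3 p4 w =
      ((nr G σ 0 p1 w).re + (nr G σ p2 p3 w).re + (nr G σ p4 Real.pi w).re) / Real.pi := by
    unfold bp
    rw [e2, e1]
    simp only [Complex.add_re]
    ring
  rw [e3, abs_div, abs_of_pos hpp, div_le_iff₀ hpp]
  have b1 := nr_bound G (σ := σ) (A := A) w h1
    (fun φ ha hb => hA φ ha (by linarith) (Or.inl hb))
  have b2 := nr_bound G (σ := σ) (A := A) w h23
    (fun φ ha hb => hA φ (by linarith) (by linarith) (Or.inr (Or.inl ⟨ha, hb⟩)))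
  have b3 := nr_bound G (σ := σ) (A := A) w h4
    (fun φ ha hb => hA φ (by linarith) hb (Or.inr (Or.inr ha)))
  have c1 := Complex.abs_re_le_norm (nr G σ 0 p1 w)
  have c2 := Complex.abs_re_le_norm (nr G σ p2 p3 w)
  have c3 := Complex.abs_re_le_norm (nr G σ p4 Real.pi w)
  have d1 := abs_add_three (nr G σ 0 p1 w).re (nr G σ p2 p3 w).re (nr G σ p4 Real.pi w).re
  calc _ ≤ A * Real.exp (-(w * σ)) * (p1 - 0) + A * Real.exp (-(w * σ)) * (p3 - p2) +
        A * Real.exp (-(w * σ)) * (Real.pi - p4) := by linarith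
    _ = A * Real.exp (-(w * σ)) * (Real.pi - (p2 - p1) - (p4 - p3)) := by ring
    _ ≤ A * Real.exp (-(w * σ)) * Real.pi := by
        apply mul_le_mul_of_nonneg_left _ hB0
        linarith

/-- crude bound of the arc part -/
theorem bp_le (G : ℝ[X]) {σ p1 p2 p3 p4 A1 A2 : ℝ} (w : ℕ)
    (h1 : ‖nr G σ p1 p2 w‖ ≤ A1) (h2 : ‖nr G σ p3 p4 w‖ ≤ A2) :
    |bp G σ p1 p2 p3 p4 w| ≤ (A1 + A2) / Real.pi := by
  unfold bp
  rw [abs_div, abs_of_pos Real.pi_pos]
  apply div_le_div_of_nonneg_right _ Real.pi_pos.le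
  have c1 := Complex.abs_re_le_norm (nr G σ p1 p2 w)
  have c2 := Complex.abs_re_le_norm (nr G σ p3 p4 w)
  have d1 := abs_add_le (nr G σ p1 p2 w).re (nr G σ p3 p4 w).re
  linarith

/-! ### rectangle shift -/

/-- the integrand -/
noncomputable def nrH (G : ℝ[X]) (w : ℕ) (v : ℂ) : ℂ :=
  G.aeval (Complex.exp v) * Complex.exp (-(w : ℂ) * v)

theorem nrH_diff (G : ℝ[X]) (w : ℕ) : Differentiable ℂ (nrH G w) := by
  unfold nrH
  apply Differentiable.mul
  · have h : (fun v : ℂ => G.aeval (Complex.exp v)) =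
        (fun z : ℂ => (G.map (algebraMap ℝ ℂ)).eval z) ∘ Complex.exp := by
      funext v
      simp [Polynomial.eval_map, Polynomial.aeval_def]
    rw [h]
    exact (Polynomial.differentiable _).comp Complex.differentiable_exp
  · fun_prop

theorem nrH_norm (G : ℝ[X]) (w : ℕ) (s φ : ℝ) :
    ‖nrH G w ((s : ℂ) + (φ : ℂ) * Complex.I)‖ = ‖G.aeval (up s φ)‖ * Real.exp (-(w * s)) := by
  unfold nrH
  rw [norm_mul, norm_ew]
  rfl

theorem nrH_le {n : ℕ} {G : ℝ[X]} {w : ℕ} {s φ y κ : ℝ}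
    (h : ‖G.aeval (up s φ)‖ ≤ 2 ^ n * Real.exp (n * y)) (h1 : n * y - w * s ≤ -(κ * n)) :
    ‖nrH G w ((s : ℂ) + (φ : ℂ) * Complex.I)‖ ≤ 2 ^ n * Real.exp (-(κ * n)) := by
  rw [nrH_norm]
  refine (mul_le_mul_of_nonneg_right h (Real.exp_pos _).le).trans ?_
  rw [mul_assoc, ← Real.exp_add]
  apply mul_le_mul_of_nonneg_left _ (by positivity)
  apply Real.exp_le_exp.2
  linarith

/-- the near integral for weights outside the window of frequencies -/
theorem nr_off2 {n : ℕ} {G : ℝ[X]} {δ σ τ η κ e ωa ωb p1 p2 p3 p4 ρ κ3 pa pb : ℝ}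
    (hW : WOK n G δ σ τ η κ e ωa ωb p1 p2 p3 p4) (hab : pa ≤ pb)
    (harc : (pa = p1 ∧ pb = p2) ∨ (pa = p3 ∧ pb = p4)) (hlen : pb - pa ≤ 4)
    (hσ : 0 ≤ σ) (hστ : σ ≤ τ) (he : 0 < e) (hσe : σ * ωb ≤ e / 2)
    (hω : ωa ≤ ωb) (hωa : 0 < ωa) (hρ : 0 < ρ)
    (hκ1 : κ3 ≤ ρ * τ - η) (hκ2 : κ3 ≤ e / 2) (w : ℕ)
    (hw : (w : ℝ) ≤ (ωa - ρ) * n ∨ (ωb + ρ) * n ≤ w) :
    ‖nr G σ pa pb w‖ ≤ (4 + 4 * τ) * (2 ^ n * Real.exp (-(κ3 * n))) := by
  have hn0 : (0 : ℝ) ≤ n := Nat.cast_nonneg _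
  have hw0 : (0 : ℝ) ≤ w := Nat.cast_nonneg _
  have hτ0 : 0 ≤ τ := hσ.trans hστ
  have hon : ∀ φ : ℝ, pa ≤ φ → φ ≤ pb → OnArc p1 p2 p3 p4 φ := by
    intro φ h1 h2
    rcases harc with ⟨ha, hb⟩ | ⟨ha, hb⟩
    · left; rw [← ha, ← hb]; exact ⟨h1, h2⟩
    · right; rw [← ha, ← hb]; exact ⟨h1, h2⟩
  have hea : pa = p1 ∨ pa = p2 ∨ pa = p3 ∨ pa = p4 := by
    rcases harc with ⟨ha, hb⟩ | ⟨ha, hb⟩
    · left; exact ha
    · right; right; left; exact ha
  have heb : pb = p1 ∨ pb = p2 ∨ pb = p3 ∨ pb = p4 := by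
    rcases harc with ⟨ha, hb⟩ | ⟨ha, hb⟩
    · right; left; exact hb
    · right; right; right; exact hb
  obtain ⟨X, hX⟩ : ∃ X : ℝ, X = 2 ^ n * Real.exp (-(κ3 * n)) := ⟨_, rfl⟩
  have hX0 : 0 ≤ X := by rw [hX]; positivity
  have hfin : ∀ s1 : ℝ, |s1 - σ| ≤ 2 * τ →
      (∀ φ : ℝ, pa ≤ φ → φ ≤ pb → ‖nrH G w ((s1 : ℂ) + (φ : ℂ) * Complex.I)‖ ≤ X) →
      (∀ s ∈ Set.uIcc σ s1, ‖nrH G w ((s : ℂ) + (pa : ℂ) * Complex.I)‖ ≤ X) →
      (∀ s ∈ Set.uIcc σ s1, ‖nrH G w ((s : ℂ) + (pb : ℂ) * Complex.I)‖ ≤ X) →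
      ‖nr G σ pa pb w‖ ≤ (4 + 4 * τ) * X := by
    intro s1 hs1 hA hBa hBb
    have h := rect_le (nrH_diff G w) hab hA hBa hBb
    have h' : ‖nr G σ pa pb w‖ ≤ (pb - pa) * X + |s1 - σ| * (X + X) := h
    have h1 : (pb - pa) * X ≤ 4 * X := mul_le_mul_of_nonneg_right hlen hX0
    have h2 : |s1 - σ| * (X + X) ≤ 2 * τ * (X + X) := mul_le_mul_of_nonneg_right hs1 (by linarith)
    linarith
  rw [← hX]
  have hωb : 0 < ωb := lt_of_lt_of_le hωa hω
  have a2 : (η - ρ * τ) * n ≤ -(κ3 * n) := by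
    have := mul_le_mul_of_nonneg_right hκ1 hn0
    linarith
  have a3 : (-e) * n ≤ -(κ3 * n) := by
    have := mul_le_mul_of_nonneg_right hκ2 hn0
    have h5 : 0 ≤ e / 2 * n := by positivity
    linarith
  have a4 : (-e / 2) * n ≤ -(κ3 * n) := by
    have := mul_le_mul_of_nonneg_right hκ2 hn0
    linarith
  rcases hw with hw | hw
  · refine hfin (-τ) ?_ ?_ ?_ ?_
    · rw [abs_le]
      constructor <;> linarith
    · intro φ h1 h2
      rw [hX]
      refine nrH_le (hW.inn φ (hon φ h1 h2)) ?_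
      have a1 : w * τ ≤ (ωa - ρ) * n * τ := mul_le_mul_of_nonneg_right hw hτ0
      linarith [a1, a2, (by ring : (η - ρ * τ) * (n : ℝ) = n * (-(τ * ωa) + η) + (ωa - ρ) * n * τ)]
    all_goals
      intro s hs
      rw [Set.uIcc_of_ge (by linarith), Set.mem_Icc] at hs
      obtain ⟨hs1, hs2⟩ := hs
      rw [hX]
    · refine nrH_le (hW.edge s pa hs1 (by linarith) hea) ?_
      rcases le_total s 0 with h0 | h0
      · have hm : max (s * ωa) (s * ωb) = s * ωa := max_eq_left (by nlinarith)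
        rw [hm]
        have a1 : w * (-s) ≤ (ωa - ρ) * n * (-s) := mul_le_mul_of_nonneg_right hw (by linarith)
        have a5 : 0 ≤ ρ * n * (-s) := by
          have : 0 ≤ -s := by linarith
          positivity
        nlinarith
      · have hm : max (s * ωa) (s * ωb) = s * ωb := max_eq_right (by nlinarith)
        rw [hm]
        have a1 : 0 ≤ w * s := mul_nonneg hw0 h0
        have a5 : s * ωb ≤ σ * ωb := mul_le_mul_of_nonneg_right hs2 hωb.le
        have a6 : n * (s * ωb - e) ≤ n * (-e / 2) := mul_le_mul_of_nonneg_left (by linarith) hn0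
        linarith
    · refine nrH_le (hW.edge s pb hs1 (by linarith) heb) ?_
      rcases le_total s 0 with h0 | h0
      · have hm : max (s * ωa) (s * ωb) = s * ωa := max_eq_left (by nlinarith)
        rw [hm]
        have a1 : w * (-s) ≤ (ωa - ρ) * n * (-s) := mul_le_mul_of_nonneg_right hw (by linarith)
        have a5 : 0 ≤ ρ * n * (-s) := by
          have : 0 ≤ -s := by linarith
          positivity
        nlinarith
      · have hm : max (s * ωa) (s * ωb) = s * ωb := max_eq_right (by nlinarith)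
        rw [hm]
        have a1 : 0 ≤ w * s := mul_nonneg hw0 h0
        have a5 : s * ωb ≤ σ * ωb := mul_le_mul_of_nonneg_right hs2 hωb.le
        have a6 : n * (s * ωb - e) ≤ n * (-e / 2) := mul_le_mul_of_nonneg_left (by linarith) hn0
        linarith
  · refine hfin τ ?_ ?_ ?_ ?_
    · rw [abs_le]
      constructor <;> linarith
    · intro φ h1 h2
      rw [hX]
      refine nrH_le (hW.out φ (hon φ h1 h2)) ?_
      have a1 : (ωb + ρ) * n * τ ≤ w * τ := mul_le_mul_of_nonneg_right hw hτ0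
      linarith [a1, a2, (by ring : (η - ρ * τ) * (n : ℝ) = n * (τ * ωb + η) - (ωb + ρ) * n * τ)]
    all_goals
      intro s hs
      rw [Set.uIcc_of_le hστ, Set.mem_Icc] at hs
      obtain ⟨hs1, hs2⟩ := hs
      have h0 : 0 ≤ s := by linarith
      have hm : max (s * ωa) (s * ωb) = s * ωb := max_eq_right (by nlinarith)
      have a1 : (ωb + ρ) * n * s ≤ w * s := mul_le_mul_of_nonneg_right hw h0
      have a5 : 0 ≤ ρ * n * s := by positivity
      rw [hX]
    · refine nrH_le (hW.edge s pa (by linarith) hs2 hea) ?_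
      rw [hm]
      nlinarith
    · refine nrH_le (hW.edge s pb (by linarith) hs2 heb) ?_
      rw [hm]
      nlinarith

end Pool.Agent.Lib.MP_0430e4_lc.AC
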