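import Pool.Agent.Lib.MP_0430e4_lc.AC.PA3

/-!
Project ALLCODES, part Y (helper13): the finite inequality behind the abstract theorem.
-/

set_option autoImplicit false

open Finset Polynomial

namespace Pool.Agent.Lib.MP_0430e4_lc.AC

open BY

/-- high weights -/
def hiW (n d : ℕ) : Finset ℕ := (range (n + 1)).filter (fun w => n < w + d)

/-- middle weights -/
def miW (n d : ℕ) : Finset ℕ := (range (n + 1)).filter (fun w => d ≤ w ∧ w + d ≤ n)

/-- sums over the nonzero weights of a code of distance `d`, `2 d ≤ n` -/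
theorem sum_Icc_split {n d : ℕ} {C : Finset (Wd n)} (hC : IsCode d C) (hd : 1 ≤ d)
    (hdn : 2 * d ≤ n) (f : ℕ → ℝ) :
    ∑ w ∈ Finset.Icc 1 n, (Nw C w : ℝ) * f w =
      ∑ w ∈ miW n d, (Nw C w : ℝ) * f w + ∑ w ∈ hiW n d, (Nw C w : ℝ) * f w := by
  classical
  have hdisj : Disjoint (miW n d) (hiW n d) := by
    rw [Finset.disjoint_left]
    intro w h1 h2
    unfold miW at h1
    unfold hiW at h2
    rw [Finset.mem_filter] at h1 h2
    omega
  rw [← Finset.sum_union hdisj]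
  symm
  apply Finset.sum_subset
  · intro w hw
    rw [Finset.mem_union] at hw
    unfold miW hiW at hw
    rw [Finset.mem_filter, Finset.mem_filter, Finset.mem_range] at hw
    rw [Finset.mem_Icc]
    omega
  · intro w hw hnot
    rw [Finset.mem_Icc] at hw
    have hwd : w < d := by
      by_contra hcon
      apply hnot
      rw [Finset.mem_union]
      unfold miW hiW
      rw [Finset.mem_filter, Finset.mem_filter, Finset.mem_range]
      omega
    rw [Nw_of_lt hC (by omega) hwd]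
    simp

/-- the pairing, with the diagonal split off -/
theorem pair_split {n m d : ℕ} {C : Finset (Wd n)} (hC : IsCode d C) (hd : 1 ≤ d)
    (hdn : 2 * d ≤ n) (hm : m ≤ n) (c : ℕ → ℝ) :
    ∑ k ∈ range (m + 1), c k / n.choose k * Sk C k =
      C.card * ∑ k ∈ range (m + 1), c k +
      (∑ w ∈ miW n d, (Nw C w : ℝ) * ((Gp n m c).coeff w / n.choose w) +
        ∑ w ∈ hiW n d, (Nw C w : ℝ) * ((Gp n m c).coeff w / n.choose w)) := by
  have h3 : Finset.range (n + 1) = insert 0 (Finset.Icc 1 n) := by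
    ext k
    simp only [Finset.mem_range, Finset.mem_insert, Finset.mem_Icc]
    omega
  rw [pairing_fd, ← sum_Icc_split hC hd hdn, h3, Finset.sum_insert (by simp), Nw_zero, fd_zero hm]
  congr 1
  apply Finset.sum_congr rfl
  intro w hw
  have hwn : w ≤ n := (Finset.mem_Icc.mp hw).2
  have h2 : (n.choose w : ℝ) ≠ 0 := by exact_mod_cast (Nat.choose_pos hwn).ne'
  rw [← choose_mul_fd hm w c]
  congr 1
  field_simp

/-- **the finite inequality** -/
theorem fin_ineq {n m d : ℕ} {C : Finset (Wd n)} (hC : IsCode d C) (hd : 1 ≤ d)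
    (hdn : 2 * d ≤ n) (hm : m ≤ n) (c : ℕ → ℝ) {σ p1 p2 p3 p4 ta tb A B : ℝ}
    (h1 : 0 ≤ p1) (h12 : p1 ≤ p2) (h23 : p2 ≤ p3) (h34 : p3 ≤ p4) (h4 : p4 ≤ Real.pi)
    (h0t : 0 ≤ ta) (hta : ta ≤ tb) (htb : tb < 1) (hA0 : 0 ≤ A) (hB0 : 0 ≤ B)
    (hA : ∀ φ : ℝ, OnArc p1 p2 p3 p4 φ → ‖(Gp n m c).aeval (up σ φ)‖ ≤ A)
    (hB : ∀ φ : ℝ, OnArc p1 p2 p3 p4 φ → ∀ t : ℝ, ta ≤ t → t ≤ tb →
      (1 - t) ^ n * ‖∑ x ∈ C, ∑ y ∈ C.erase x, (((t / ((1 - t) * Real.exp σ) : ℝ) : ℂ) *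
        Complex.exp (-((φ : ℂ) * Complex.I))) ^ wt (x - y)‖ ≤ B) :
    ∑ k ∈ range (m + 1), c k / n.choose k * Sk C k ≤
      C.card * ∑ k ∈ range (m + 1), c k +
      ∑ w ∈ miW n d, (Nw C w : ℝ) * (|(Gp n m c).coeff w - bp (Gp n m c) σ p1 p2 p3 p4 w| /
        n.choose w) +
      ∑ w ∈ miW n d, (Nw C w : ℝ) * ((((n.choose w : ℝ))⁻¹ - bw n ta tb w) *
        |bp (Gp n m c) σ p1 p2 p3 p4 w|) +
      ∑ w ∈ hiW n d, (Nw C w : ℝ) * (bw n ta tb w * |bp (Gp n m c) σ p1 p2 p3 p4 w|) +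
      ∑ w ∈ hiW n d, (Nw C w : ℝ) * (|(Gp n m c).coeff w| / n.choose w) +
      (n + 1) * A * B := by
  classical
  obtain ⟨G, hG⟩ : ∃ G, G = Gp n m c := ⟨_, rfl⟩
  rw [← hG] at hA ⊢
  obtain ⟨b, hb⟩ : ∃ b : ℕ → ℝ, b = bp G σ p1 p2 p3 p4 := ⟨_, rfl⟩
  have hpp := Real.pi_pos
  rw [pair_split hC hd hdn hm c, ← hG, ← hb]
  -- the main part
  have hmain : ∑ w ∈ Finset.Icc 1 n, (Nw C w : ℝ) * (bw n ta tb w * b w) ≤ (n + 1) * A * B := by
    have e1 : ∑ w ∈ Finset.Icc 1 n, (Nw C w : ℝ) * (bw n ta tb w * b w) =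
        ((∑ w ∈ Finset.Icc 1 n, (Nw C w : ℂ) * (bw n ta tb w : ℂ) * nr G σ p1 p2 w).re +
          (∑ w ∈ Finset.Icc 1 n, (Nw C w : ℂ) * (bw n ta tb w : ℂ) * nr G σ p3 p4 w).re) /
            Real.pi := by
      rw [Complex.re_sum, Complex.re_sum, ← Finset.sum_add_distrib, Finset.sum_div]
      apply Finset.sum_congr rfl
      intro w _
      have e2 : ∀ z : ℂ, ((Nw C w : ℂ) * (bw n ta tb w : ℂ) * z).re =
          (Nw C w : ℝ) * bw n ta tb w * z.re := by
        intro z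
        have : (Nw C w : ℂ) * (bw n ta tb w : ℂ) = (((Nw C w : ℝ) * bw n ta tb w : ℝ) : ℂ) := by
          push_cast; rfl
        rw [this, Complex.re_ofReal_mul]
      rw [e2, e2, hb]
      unfold bp
      ring
    have f1 := win_off C G (σ := σ) hta htb h12 hA0 hB0 (fun φ ha hb => hA φ (Or.inl ⟨ha, hb⟩))
      (fun φ ha hb t hc hd => hB φ (Or.inl ⟨ha, hb⟩) t hc hd)
    have f2 := win_off C G (σ := σ) hta htb h34 hA0 hB0 (fun φ ha hb => hA φ (Or.inr ⟨ha, hb⟩))
      (fun φ ha hb t hc hd => hB φ (Or.inr ⟨ha, hb⟩) t hc hd)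
    rw [e1, div_le_iff₀ hpp]
    have g1 := (Complex.re_le_norm _).trans f1
    have g2 := (Complex.re_le_norm _).trans f2
    refine (add_le_add g1 g2).trans ?_
    have hAB : 0 ≤ ((n : ℝ) + 1) * A * B := by positivity
    have k1 : (tb - ta) * ((p2 - p1) + (p4 - p3)) ≤ 1 * Real.pi := by
      apply mul_le_mul
      · linarith
      · linarith
      · linarith
      · norm_num
    calc ((n : ℝ) + 1) * (tb - ta) * (p2 - p1) * A * B + (n + 1) * (tb - ta) * (p4 - p3) * A * B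
        = ((n + 1) * A * B) * ((tb - ta) * ((p2 - p1) + (p4 - p3))) := by ring
      _ ≤ ((n + 1) * A * B) * (1 * Real.pi) := mul_le_mul_of_nonneg_left k1 hAB
      _ = _ := by ring
  rw [sum_Icc_split hC hd hdn] at hmain
  -- middle weights
  have hmid : ∑ w ∈ miW n d, (Nw C w : ℝ) * (G.coeff w / n.choose w) ≤
      ∑ w ∈ miW n d, (Nw C w : ℝ) * (|G.coeff w - b w| / n.choose w) +
      ∑ w ∈ miW n d, (Nw C w : ℝ) * ((((n.choose w : ℝ))⁻¹ - bw n ta tb w) * |b w|) +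
      ∑ w ∈ miW n d, (Nw C w : ℝ) * (bw n ta tb w * b w) := by
    rw [← Finset.sum_add_distrib, ← Finset.sum_add_distrib]
    apply Finset.sum_le_sum
    intro w hw
    have hwn : w ≤ n := by
      unfold miW at hw
      rw [Finset.mem_filter, Finset.mem_range] at hw
      omega
    have hch : (0 : ℝ) < n.choose w := by exact_mod_cast Nat.choose_pos hwn
    rw [← mul_add, ← mul_add]
    apply mul_le_mul_of_nonneg_left _ (Nat.cast_nonneg _)
    have i1 : G.coeff w / n.choose w = (G.coeff w - b w) / n.choose w +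
        (((n.choose w : ℝ))⁻¹ - bw n ta tb w) * b w + bw n ta tb w * b w := by
      field_simp
      ring
    rw [i1]
    have i2 : (G.coeff w - b w) / n.choose w ≤ |G.coeff w - b w| / n.choose w :=
      div_le_div_of_nonneg_right (le_abs_self _) hch.le
    have i3 : (((n.choose w : ℝ))⁻¹ - bw n ta tb w) * b w ≤
        (((n.choose w : ℝ))⁻¹ - bw n ta tb w) * |b w| := by
      apply mul_le_mul_of_nonneg_left (le_abs_self _)
      have := bw_le_inv (n := n) (w := w) h0t hta htb.le hwn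
      linarith
    linarith
  have hhi1 : ∑ w ∈ hiW n d, (Nw C w : ℝ) * (G.coeff w / n.choose w) ≤
      ∑ w ∈ hiW n d, (Nw C w : ℝ) * (|G.coeff w| / n.choose w) := by
    apply Finset.sum_le_sum
    intro w hw
    apply mul_le_mul_of_nonneg_left _ (Nat.cast_nonneg _)
    exact div_le_div_of_nonneg_right (le_abs_self _) (Nat.cast_nonneg _)
  have hhi2 : -∑ w ∈ hiW n d, (Nw C w : ℝ) * (bw n ta tb w * b w) ≤
      ∑ w ∈ hiW n d, (Nw C w : ℝ) * (bw n ta tb w * |b w|) := by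
    rw [← Finset.sum_neg_distrib]
    apply Finset.sum_le_sum
    intro w hw
    have hbw := bw_nonneg (n := n) (w := w) h0t hta htb.le
    have : -((Nw C w : ℝ) * (bw n ta tb w * b w)) = (Nw C w : ℝ) * (bw n ta tb w * (-b w)) := by
      ring
    rw [this]
    apply mul_le_mul_of_nonneg_left _ (Nat.cast_nonneg _)
    exact mul_le_mul_of_nonneg_left (neg_le_abs _) hbw
  linarith

end Pool.Agent.Lib.MP_0430e4_lc.AC
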