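import Pool.Agent.Lib.MP_0430e4_lc.AC.PA4
import Pool.Agent.Lib.MP_0430e4_lc.AC.YT8

/-!
Project ALLCODES, part Y (helper13): the abstract theorem `forced_of` of both branches.
-/

set_option autoImplicit false

open Finset Polynomial

namespace Pool.Agent.Lib.MP_0430e4_lc.AC

open BY

section terms

variable {n d : ℕ} {C : Finset (Wd n)} {G : ℝ[X]}
  {δ σ τ η κ e ωa ωb p1 p2 p3 p4 ρ κ3 L ε : ℝ}

theorem pa_mi_card : ((miW n d).card : ℝ) ≤ n + 1 := by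
  have h : (miW n d).card ≤ n + 1 := by
    unfold miW
    calc _ ≤ (range (n + 1)).card := Finset.card_filter_le _ _
      _ = n + 1 := Finset.card_range _
  exact_mod_cast h

theorem pa_mi_mem {w : ℕ} (hw : w ∈ miW n d) : w ≤ n ∧ d ≤ w ∧ w + d ≤ n := by
  unfold miW at hw
  rw [Finset.mem_filter, Finset.mem_range] at hw
  omega

theorem pa_hi_mem {w : ℕ} (hw : w ∈ hiW n d) : w ≤ n ∧ n < w + d := by
  unfold hiW at hw
  rw [Finset.mem_filter, Finset.mem_range] at hw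
  omega

theorem pa_pw_two (n : ℕ) (L ε : ℝ) : pw n (L - 1 + ε) * 2 ^ n = pw n (L + ε) := by
  rw [← pw_one, ← pw_add]; congr 1; ring

/-- the arc part is at most the height of the bump -/
theorem bp_height (hW : WOK n G δ σ τ η κ e ωa ωb p1 p2 p3 p4) (hσ : 0 ≤ σ) (h1 : 0 ≤ p1)
    (h12 : p1 ≤ p2) (h23 : p2 ≤ p3) (h34 : p3 ≤ p4) (h4 : p4 ≤ Real.pi) (w : ℕ) :
    |bp G σ p1 p2 p3 p4 w| ≤ 2 ^ n * Real.exp (n * η) := by
  have hpp := Real.pi_pos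
  obtain ⟨A, hA⟩ : ∃ A : ℝ, A = 2 ^ n * Real.exp (n * η) := ⟨_, rfl⟩
  have hA0 : 0 ≤ A := by rw [hA]; positivity
  have he : Real.exp (-(w * σ)) ≤ 1 := by
    rw [Real.exp_le_one_iff]
    have : 0 ≤ (w : ℝ) * σ := by positivity
    linarith
  have b1 := nr_bound G (σ := σ) (A := A) w h12
    (fun φ ha hb => by rw [hA]; exact hW.arc φ (Or.inl ⟨ha, hb⟩))
  have b2 := nr_bound G (σ := σ) (A := A) w h34
    (fun φ ha hb => by rw [hA]; exact hW.arc φ (Or.inr ⟨ha, hb⟩))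
  have c1 : A * Real.exp (-(w * σ)) * (p2 - p1) ≤ A * (p2 - p1) := by
    apply mul_le_mul_of_nonneg_right _ (by linarith)
    have := mul_le_mul_of_nonneg_left he hA0
    linarith
  have c2 : A * Real.exp (-(w * σ)) * (p4 - p3) ≤ A * (p4 - p3) := by
    apply mul_le_mul_of_nonneg_right _ (by linarith)
    have := mul_le_mul_of_nonneg_left he hA0
    linarith
  refine (bp_le G w (b1.trans c1) (b2.trans c2)).trans ?_
  rw [← hA, div_le_iff₀ hpp]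
  have : A * (p2 - p1) + A * (p4 - p3) = A * ((p2 - p1) + (p4 - p3)) := by ring
  rw [this]
  apply mul_le_mul_of_nonneg_left _ hA0
  linarith

/-- the arc part for weights outside the window -/
theorem bp_off (hW : WOK n G δ σ τ η κ e ωa ωb p1 p2 p3 p4) (h1 : 0 ≤ p1)
    (h12 : p1 ≤ p2) (h23 : p2 ≤ p3) (h34 : p3 ≤ p4) (h4 : p4 ≤ Real.pi)
    (hσ : 0 ≤ σ) (hστ : σ ≤ τ) (he : 0 < e) (hσe : σ * ωb ≤ e / 2)
    (hω : ωa ≤ ωb) (hωa : 0 < ωa) (hρ : 0 < ρ)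
    (hκ1 : κ3 ≤ ρ * τ - η) (hκ2 : κ3 ≤ e / 2) (w : ℕ)
    (hw : (w : ℝ) ≤ (ωa - ρ) * n ∨ (ωb + ρ) * n ≤ w) :
    |bp G σ p1 p2 p3 p4 w| ≤ (8 + 8 * τ) * (2 ^ n * Real.exp (-(κ3 * n))) := by
  have hpp := Real.pi_pos
  have hp3 := Real.pi_gt_three
  have hp4 := Real.pi_lt_four
  have hτ0 : 0 ≤ τ := hσ.trans hστ
  have b1 := nr_off2 hW h12 (Or.inl ⟨rfl, rfl⟩) (by linarith) hσ hστ he hσe hω hωa hρ hκ1 hκ2 w hw
  have b2 := nr_off2 hW h34 (Or.inr ⟨rfl, rfl⟩) (by linarith) hσ hστ he hσe hω hωa hρ hκ1 hκ2 w hw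
  refine (bp_le G w b1 b2).trans ?_
  rw [div_le_iff₀ hpp]
  have h0 : 0 ≤ (8 + 8 * τ) * (2 ^ n * Real.exp (-(κ3 * n))) := by positivity
  calc _ = (8 + 8 * τ) * (2 ^ n * Real.exp (-(κ3 * n))) * 1 := by ring
    _ ≤ _ := mul_le_mul_of_nonneg_left (by linarith) h0

theorem pa_term1 (hW : WOK n G δ σ τ η κ e ωa ωb p1 p2 p3 p4) (h1 : 0 ≤ p1)
    (h12 : p1 ≤ p2) (h23 : p2 ≤ p3) (h34 : p3 ≤ p4) (h4 : p4 ≤ Real.pi) (hσ : 0 ≤ σ)
    (hd : δ * n ≤ d)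
    (hHA : ∀ w : ℕ, d ≤ w → w + d ≤ n →
      (Nw C w : ℝ) ≤ C.card * pw n (L - 1 + ε) * n.choose w) :
    ∑ w ∈ miW n d, (Nw C w : ℝ) * (|G.coeff w - bp G σ p1 p2 p3 p4 w| / n.choose w) ≤
      (n + 1) * (C.card * pw n (L + ε) * Real.exp (-(κ * n))) := by
  have hterm : ∀ w ∈ miW n d, (Nw C w : ℝ) * (|G.coeff w - bp G σ p1 p2 p3 p4 w| / n.choose w) ≤
      C.card * pw n (L + ε) * Real.exp (-(κ * n)) := by
    intro w hw
    obtain ⟨hwn, hdw, hwd⟩ := pa_mi_mem hw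
    have hch : (0 : ℝ) < n.choose w := by exact_mod_cast Nat.choose_pos hwn
    have a1 := hHA w hdw hwd
    have a2 := coeff_split2 G w h1 h12 h23 h34 h4 hW.far
    have a3 : Real.exp (n * (σ * δ - κ)) * Real.exp (-(w * σ)) ≤ Real.exp (-(κ * n)) := by
      rw [← Real.exp_add]
      apply Real.exp_le_exp.2
      have h5 : δ * n ≤ w := hd.trans (by exact_mod_cast hdw)
      have h6 : δ * n * σ ≤ w * σ := mul_le_mul_of_nonneg_right h5 hσ
      linarith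
    have a4 : |G.coeff w - bp G σ p1 p2 p3 p4 w| ≤ 2 ^ n * Real.exp (-(κ * n)) := by
      refine a2.trans ?_
      rw [mul_assoc]
      exact mul_le_mul_of_nonneg_left a3 (by positivity)
    calc (Nw C w : ℝ) * (|G.coeff w - bp G σ p1 p2 p3 p4 w| / n.choose w)
        ≤ (C.card * pw n (L - 1 + ε) * n.choose w) *
          (2 ^ n * Real.exp (-(κ * n)) / n.choose w) := by
          apply mul_le_mul a1 _ (by positivity) (by have := pw_pos n (L - 1 + ε); positivity)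
          exact div_le_div_of_nonneg_right a4 hch.le
      _ = C.card * (pw n (L - 1 + ε) * 2 ^ n) * Real.exp (-(κ * n)) := by
          field_simp
      _ = _ := by rw [pa_pw_two]
  refine (Finset.sum_le_sum hterm).trans ?_
  rw [Finset.sum_const, nsmul_eq_mul]
  apply mul_le_mul_of_nonneg_right pa_mi_card
  have := pw_pos n (L + ε)
  positivity

theorem pa_term2 (hn : 1 ≤ n) (hW : WOK n G δ σ τ η κ e ωa ωb p1 p2 p3 p4) (h1 : 0 ≤ p1)
    (h12 : p1 ≤ p2) (h23 : p2 ≤ p3) (h34 : p3 ≤ p4) (h4 : p4 ≤ Real.pi)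
    (hσ : 0 ≤ σ) (hστ : σ ≤ τ) (he : 0 < e) (hσe : σ * ωb ≤ e / 2)
    (hω : ωa ≤ ωb) (hρ : 0 < ρ) (hta : 0 < ωa - 2 * ρ) (htb : ωb + 2 * ρ < 1)
    (hκ1 : κ3 ≤ ρ * τ - η) (hκ2 : κ3 ≤ e / 2)
    (hHA : ∀ w : ℕ, d ≤ w → w + d ≤ n →
      (Nw C w : ℝ) ≤ C.card * pw n (L - 1 + ε) * n.choose w) :
    ∑ w ∈ miW n d, (Nw C w : ℝ) * ((((n.choose w : ℝ))⁻¹ - bw n (ωa - 2 * ρ) (ωb + 2 * ρ) w) *
        |bp G σ p1 p2 p3 p4 w|) ≤
      (n + 1) * (C.card * pw n (L + ε) * ((n + 1) * Real.exp (n * η - ρ ^ 2 / 4 * n) +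
        (8 + 8 * τ) * Real.exp (-(κ3 * n)))) := by
  have hτ0 : 0 ≤ τ := hσ.trans hστ
  have hterm : ∀ w ∈ miW n d, (Nw C w : ℝ) *
      ((((n.choose w : ℝ))⁻¹ - bw n (ωa - 2 * ρ) (ωb + 2 * ρ) w) * |bp G σ p1 p2 p3 p4 w|) ≤
      C.card * pw n (L + ε) * ((n + 1) * Real.exp (n * η - ρ ^ 2 / 4 * n) +
        (8 + 8 * τ) * Real.exp (-(κ3 * n))) := by
    intro w hw
    obtain ⟨hwn, hdw, hwd⟩ := pa_mi_mem hw
    have hch : (0 : ℝ) < n.choose w := by exact_mod_cast Nat.choose_pos hwn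
    have a1 := hHA w hdw hwd
    have hpw := pw_pos n (L - 1 + ε)
    have hpw2 := pw_pos n (L + ε)
    have hbwi := bw_le_inv (n := n) (w := w) hta.le (by linarith) htb.le hwn
    have hbw0 := bw_nonneg (n := n) (w := w) hta.le (by linarith : ωa - 2 * ρ ≤ ωb + 2 * ρ) htb.le
    -- it is enough to bound the bracket times `choose`
    have key : ∀ X : ℝ, 0 ≤ X → ((((n.choose w : ℝ))⁻¹ - bw n (ωa - 2 * ρ) (ωb + 2 * ρ) w) *
        |bp G σ p1 p2 p3 p4 w|) ≤ ((n.choose w : ℝ))⁻¹ * (2 ^ n * X) →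
        (Nw C w : ℝ) * ((((n.choose w : ℝ))⁻¹ - bw n (ωa - 2 * ρ) (ωb + 2 * ρ) w) *
          |bp G σ p1 p2 p3 p4 w|) ≤ C.card * pw n (L + ε) * X := by
      intro X hX hle
      calc (Nw C w : ℝ) * ((((n.choose w : ℝ))⁻¹ - bw n (ωa - 2 * ρ) (ωb + 2 * ρ) w) *
          |bp G σ p1 p2 p3 p4 w|) ≤ (Nw C w : ℝ) * (((n.choose w : ℝ))⁻¹ * (2 ^ n * X)) :=
            mul_le_mul_of_nonneg_left hle (Nat.cast_nonneg _)
        _ ≤ (C.card * pw n (L - 1 + ε) * n.choose w) * (((n.choose w : ℝ))⁻¹ * (2 ^ n * X)) :=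
            mul_le_mul_of_nonneg_right a1 (by positivity)
        _ = C.card * (pw n (L - 1 + ε) * 2 ^ n) * X := by field_simp
        _ = _ := by rw [pa_pw_two]
    by_cases hin : (ωa - ρ) * n ≤ w ∧ (w : ℝ) ≤ (ωb + ρ) * n
    · have b1 := bw_out hn hwn hta.le (by linarith : ωa - 2 * ρ ≤ ωb + 2 * ρ) htb.le hρ.le
        (by have := hin.1; linarith [(by ring : (ωa - 2 * ρ + ρ) * (n : ℝ) = (ωa - ρ) * n)])
        (by have := hin.2; linarith [(by ring : (ωb + 2 * ρ - ρ) * (n : ℝ) = (ωb + ρ) * n)])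
      have b2 := bp_height hW hσ h1 h12 h23 h34 h4 w
      refine (key ((n + 1) * Real.exp (n * η - ρ ^ 2 / 4 * n)) (by positivity) ?_).trans ?_
      · calc _ ≤ ((n : ℝ) + 1) * (((n.choose w : ℝ))⁻¹ * Real.exp (-(ρ ^ 2 / 4) * n)) *
              (2 ^ n * Real.exp (n * η)) :=
              mul_le_mul b1 b2 (abs_nonneg _) (by positivity)
          _ = _ := by
              have : Real.exp (n * η - ρ ^ 2 / 4 * n) =
                  Real.exp (-(ρ ^ 2 / 4) * n) * Real.exp (n * η) := by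
                rw [← Real.exp_add]; congr 1; ring
              rw [this]; ring
      · apply mul_le_mul_of_nonneg_left _ (by positivity)
        have : 0 ≤ (8 + 8 * τ) * Real.exp (-(κ3 * n)) := by positivity
        linarith
    · have hw' : (w : ℝ) ≤ (ωa - ρ) * n ∨ (ωb + ρ) * n ≤ w := by
        rw [not_and_or] at hin
        rcases hin with h | h
        · left; exact (not_le.mp h).le
        · right; exact (not_le.mp h).le
      have b2 := bp_off hW h1 h12 h23 h34 h4 hσ hστ he hσe hω (by linarith) hρ hκ1 hκ2 w hw'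
      refine (key ((8 + 8 * τ) * Real.exp (-(κ3 * n))) (by positivity) ?_).trans ?_
      · calc _ ≤ ((n.choose w : ℝ))⁻¹ * ((8 + 8 * τ) * (2 ^ n * Real.exp (-(κ3 * n)))) := by
              apply mul_le_mul _ b2 (abs_nonneg _) (by positivity)
              linarith
          _ = _ := by ring
      · apply mul_le_mul_of_nonneg_left _ (by positivity)
        have : 0 ≤ ((n : ℝ) + 1) * Real.exp (n * η - ρ ^ 2 / 4 * n) := by positivity
        linarith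
  refine (Finset.sum_le_sum hterm).trans ?_
  rw [Finset.sum_const, nsmul_eq_mul]
  apply mul_le_mul_of_nonneg_right pa_mi_card
  have := pw_pos n (L + ε)
  positivity

theorem pa_term4 (hW : WOK n G δ σ τ η κ e ωa ωb p1 p2 p3 p4) (h1 : 0 ≤ p1)
    (h12 : p1 ≤ p2) (h23 : p2 ≤ p3) (h34 : p3 ≤ p4) (h4 : p4 ≤ Real.pi) (hσ : 0 ≤ σ)
    {ta tb κ2 : ℝ} (h0t : 0 ≤ ta) (hta : ta ≤ tb) (htb : tb ≤ 1)
    (hi : ∑ w ∈ hiW n d, (Nw C w : ℝ) * bw n ta tb w ≤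
      (C.card : ℝ) ^ 2 * ((1 / 2) ^ n * Real.exp (-(κ2 * n)))) :
    ∑ w ∈ hiW n d, (Nw C w : ℝ) * (bw n ta tb w * |bp G σ p1 p2 p3 p4 w|) ≤
      (C.card : ℝ) ^ 2 * Real.exp (n * η - κ2 * n) := by
  have h2 : ∑ w ∈ hiW n d, (Nw C w : ℝ) * (bw n ta tb w * |bp G σ p1 p2 p3 p4 w|) ≤
      (∑ w ∈ hiW n d, (Nw C w : ℝ) * bw n ta tb w) * (2 ^ n * Real.exp (n * η)) := by
    rw [Finset.sum_mul]
    apply Finset.sum_le_sum
    intro w hw
    have hbw0 := bw_nonneg (n := n) (w := w) h0t hta htb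
    rw [mul_assoc]
    apply mul_le_mul_of_nonneg_left _ (Nat.cast_nonneg _)
    exact mul_le_mul_of_nonneg_left (bp_height hW hσ h1 h12 h23 h34 h4 w) hbw0
  refine h2.trans ((mul_le_mul_of_nonneg_right hi (by positivity)).trans (le_of_eq ?_))
  have e1 : (1 / 2 : ℝ) ^ n * 2 ^ n = 1 := by
    rw [← mul_pow]; norm_num
  have e2 : Real.exp (n * η - κ2 * n) = Real.exp (-(κ2 * n)) * Real.exp (n * η) := by
    rw [← Real.exp_add]; congr 1; ring
  calc _ = (C.card : ℝ) ^ 2 * (((1 / 2 : ℝ) ^ n * 2 ^ n) * (Real.exp (-(κ2 * n)) *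
        Real.exp (n * η))) := by ring
    _ = _ := by rw [e1, one_mul, e2]

end terms

/-- symmetry of the off-diagonal sum under conjugation -/
theorem pa_off_conj {n : ℕ} (C : Finset (Wd n)) (p φ : ℝ) :
    ‖∑ x ∈ C, ∑ y ∈ C.erase x, ((p : ℂ) * Complex.exp (-((φ : ℂ) * Complex.I))) ^ wt (x - y)‖ =
      ‖∑ x ∈ C, ∑ y ∈ C.erase x, ((p : ℂ) * ph φ) ^ wt (x - y)‖ := by
  have h : ∑ x ∈ C, ∑ y ∈ C.erase x, ((p : ℂ) * Complex.exp (-((φ : ℂ) * Complex.I))) ^ wt (x - y) =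
      (starRingEnd ℂ) (∑ x ∈ C, ∑ y ∈ C.erase x, ((p : ℂ) * ph φ) ^ wt (x - y)) := by
    rw [map_sum]
    apply Finset.sum_congr rfl
    intro x _
    rw [map_sum]
    apply Finset.sum_congr rfl
    intro y _
    rw [map_pow, map_mul, Complex.conj_ofReal]
    congr 2
    unfold ph
    rw [← Complex.exp_conj, map_mul, Complex.conj_ofReal, Complex.conj_I]
    congr 1; ring
  rw [h, Complex.norm_conj]

theorem pa_norm_ph (φ : ℝ) : ‖ph φ‖ = 1 := by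
  unfold ph
  exact Complex.norm_exp_ofReal_mul_I φ

end Pool.Agent.Lib.MP_0430e4_lc.AC
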