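import Pool.Agent.Lib.MP_0430e4_lc.AC.PA5
import Pool.Agent.Lib.MP_0430e4_lc.AC.YT7

/-!
Project ALLCODES, part Y (helper13): THE ABSTRACT THEOREM `forced_of` (both branches).
-/

set_option autoImplicit false

open Finset Polynomial

namespace Pool.Agent.Lib.MP_0430e4_lc.AC

open BY

theorem pa_poly {N K : ℝ} (hN : 1 ≤ N) (hK : 0 ≤ K) :
    3 + 2 * N + N * (N + K) ≤ (6 + K) * N ^ 3 := by
  have h2 : N ≤ N ^ 3 := by nlinarith [sq_nonneg N]
  have h3 : N ^ 2 ≤ N ^ 3 := by nlinarith [sq_nonneg N]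
  have h4 : 1 ≤ N ^ 3 := by nlinarith
  have h5 : K * N ≤ K * N ^ 3 := mul_le_mul_of_nonneg_left h2 hK
  nlinarith

theorem pa_pw_le_exp (n : ℕ) {x : ℝ} (hx : 0 ≤ x) : pw n x ≤ Real.exp (x * n) := by
  have hlog1 : Real.log 2 ≤ 1 := by
    have := Real.log_two_lt_d9
    linarith
  rw [pw_eq_exp]
  apply Real.exp_le_exp.2
  have h1 : x * Real.log 2 ≤ x * 1 := mul_le_mul_of_nonneg_left hlog1 hx
  have h2 : (n : ℝ) * (x * Real.log 2) ≤ n * (x * 1) :=
    mul_le_mul_of_nonneg_left h1 (Nat.cast_nonneg n)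
  linarith

theorem pa_last {M X E K N S : ℝ} (hM : 0 < M) (hE : 0 < E) (hN : 1 ≤ N) (hK : 0 ≤ K)
    (hX : X = M ^ 2 * E) (hpoly : 5 * (6 + K) * N ^ 3 * E ≤ 1)
    (hS : (1 / 4) * M ^ 2 ≤ S) (hS2 : S ≤ X + N * X + N * ((N + K) * X) + X + X + N * X) :
    False := by
  have hX0 : 0 < X := by rw [hX]; positivity
  have h1 : X + N * X + N * ((N + K) * X) + X + X + N * X = X * (3 + 2 * N + N * (N + K)) := by
    ring
  have h2 : X * (3 + 2 * N + N * (N + K)) ≤ X * ((6 + K) * N ^ 3) :=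
    mul_le_mul_of_nonneg_left (pa_poly hN hK) hX0.le
  have h3 : X * ((6 + K) * N ^ 3) = M ^ 2 * ((5 * (6 + K) * N ^ 3 * E) / 5) := by
    rw [hX]; ring
  have h4 : M ^ 2 * ((5 * (6 + K) * N ^ 3 * E) / 5) ≤ M ^ 2 * (1 / 5) := by
    apply mul_le_mul_of_nonneg_left _ (by positivity)
    linarith
  have h5 : 0 < M ^ 2 := by positivity
  linarith

/-- THE ABSTRACT THEOREM (both branches). `ta = ωa - 2ρ`, `tb = ωb + 2ρ` window of `t = p/(1+p)`. -/
theorem forced_of {δ L : ℝ} (h0 : 0 < δ) (h1 : δ < 1 / 2) (hL : L = Tensor.ell δ)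
    {ωa ωb ρ τ κ2 p1 p2 p3 p4 p0 q : ℝ}
    (hρ : 0 < ρ) (hτ : 0 < τ) (hκ2 : 0 < κ2) (hω : ωa ≤ ωb) (hta : 0 < ωa - 2 * ρ)
    (htb : ωb + 2 * ρ < 1) (hq : ωb + 2 * ρ ≤ q * (1 - (ωb + 2 * ρ)))
    (hp1 : 0 ≤ p1) (h12 : p1 ≤ p2) (h23 : p2 ≤ p3) (h34 : p3 ≤ p4) (hp4 : p4 ≤ Real.pi)
    -- high weights against the window
    (hi : ∃ ε2 : ℝ, 0 < ε2 ∧ ∃ n2 : ℕ, ∀ n ≥ n2, ∀ C : Finset (Wd n), IsCode ⌈δ * n⌉₊ C →
      pw n (L - ε2) ≤ C.card →
      ∑ w ∈ (range (n + 1)).filter (fun w => n < w + ⌈δ * n⌉₊),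
        (Nw C w : ℝ) * bw n (ωa - 2 * ρ) (ωb + 2 * ρ) w ≤
          (C.card : ℝ) ^ 2 * ((1 / 2) ^ n * Real.exp (-(κ2 * n))))
    (data : ∀ η : ℝ, 0 < η → ∃ σ κ e : ℝ, 0 < κ ∧ 0 < e ∧ 0 ≤ σ ∧ σ ≤ τ ∧ σ * ωb ≤ e / 2 ∧
      p0 * ((1 - (ωa - 2 * ρ)) * Real.exp σ) ≤ ωa - 2 * ρ ∧
      ∃ ε1 : ℝ, 0 < ε1 ∧ ∃ n1 : ℕ, ∀ n ≥ n1, ∀ C : Finset (Wd n), IsCode ⌈δ * n⌉₊ C →
        pw n (L - ε1) ≤ C.card → ∃ (m : ℕ) (c : ℕ → ℝ),
          COK n m c L δ κ C ∧ WOK n (Gp n m c) δ σ τ η κ e ωa ωb p1 p2 p3 p4) :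
    ∀ τ' : ℝ, 0 < τ' → ∃ ε : ℝ, 0 < ε ∧ ∃ n0 : ℕ, ∀ n ≥ n0, ∀ C : Finset (Wd n),
      IsCode ⌈δ * n⌉₊ C → pw n (L - ε) ≤ C.card →
      ∃ p ψ : ℝ, p0 ≤ p ∧ p ≤ q ∧ OnArc p1 p2 p3 p4 ψ ∧ AmpO C τ' ((p : ℂ) * ph ψ) := by
  intro τ' hτ'
  have hlog : 0 < Real.log 2 := Real.log_pos (by norm_num)
  have hlog1 : Real.log 2 ≤ 1 := by
    have := Real.log_two_lt_d9
    linarith
  -- the height
  obtain ⟨η, hη⟩ : ∃ η : ℝ, η = min (min (τ' * Real.log 2 / 2) (ρ * τ / 2))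
    (min (ρ ^ 2 / 8) (κ2 / 2)) := ⟨_, rfl⟩
  have hη0 : 0 < η := by
    rw [hη]
    exact lt_min (lt_min (by positivity) (by positivity)) (lt_min (by positivity) (by positivity))
  have hη1 : η ≤ τ' * Real.log 2 / 2 := by
    rw [hη]; exact (min_le_left _ _).trans (min_le_left _ _)
  have hη2 : η ≤ ρ * τ / 2 := by
    rw [hη]; exact (min_le_left _ _).trans (min_le_right _ _)
  have hη3 : η ≤ ρ ^ 2 / 8 := by
    rw [hη]; exact (min_le_right _ _).trans (min_le_left _ _)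
  have hη4 : η ≤ κ2 / 2 := by
    rw [hη]; exact (min_le_right _ _).trans (min_le_right _ _)
  obtain ⟨σ, κ, e, hκ, he, hσ0, hστ, hσe, hp0σ, ε1, hε1, n1, hdata⟩ := data η hη0
  obtain ⟨ε2, hε2, n2, hi⟩ := hi
  obtain ⟨κ3, hκ3⟩ : ∃ κ3 : ℝ, κ3 = min (ρ * τ / 2) (e / 2) := ⟨_, rfl⟩
  have hκ30 : 0 < κ3 := by rw [hκ3]; exact lt_min (by positivity) (by positivity)
  have hκ31 : κ3 ≤ ρ * τ - η := by
    have : κ3 ≤ ρ * τ / 2 := by rw [hκ3]; exact min_le_left _ _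
    linarith
  have hκ32 : κ3 ≤ e / 2 := by rw [hκ3]; exact min_le_right _ _
  -- the gain
  obtain ⟨g, hg⟩ : ∃ g : ℝ, g = min (min κ κ3) (min (min (ρ ^ 2 / 8) (κ2 / 2)) η) := ⟨_, rfl⟩
  have hg0 : 0 < g := by
    rw [hg]
    exact lt_min (lt_min hκ hκ30) (lt_min (lt_min (by positivity) (by positivity)) hη0)
  have hg1 : g ≤ κ := by rw [hg]; exact (min_le_left _ _).trans (min_le_left _ _)
  have hg2 : g ≤ κ3 := by rw [hg]; exact (min_le_left _ _).trans (min_le_right _ _)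
  have hg3 : g ≤ ρ ^ 2 / 8 := by
    rw [hg]; exact (min_le_right _ _).trans ((min_le_left _ _).trans (min_le_left _ _))
  have hg4 : g ≤ κ2 / 2 := by
    rw [hg]; exact (min_le_right _ _).trans ((min_le_left _ _).trans (min_le_right _ _))
  have hg5 : g ≤ η := by rw [hg]; exact (min_le_right _ _).trans (min_le_right _ _)
  obtain ⟨ε, hε⟩ : ∃ ε : ℝ, ε = min (min ε1 ε2) (g / 4) := ⟨_, rfl⟩
  have hε0 : 0 < ε := by rw [hε]; exact lt_min (lt_min hε1 hε2) (by positivity)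
  have hεa : ε ≤ ε1 := by rw [hε]; exact (min_le_left _ _).trans (min_le_left _ _)
  have hεb : ε ≤ ε2 := by rw [hε]; exact (min_le_left _ _).trans (min_le_right _ _)
  have hεc : ε ≤ g / 4 := by rw [hε]; exact min_le_right _ _
  obtain ⟨n3, hHA⟩ := ha_gen h0 h1 ε hε0
  obtain ⟨n4, hd2⟩ := two_ceil_le h0 h1
  obtain ⟨K, hK⟩ : ∃ K : ℝ, K = 8 + 8 * τ := ⟨_, rfl⟩
  have hK0 : 0 < K := by rw [hK]; positivity
  obtain ⟨n5, hn5⟩ := poly_le_pw (5 * (6 + K)) (g / 2) (by positivity)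
  refine ⟨ε, hε0, n1 + n2 + n3 + n4 + n5 + 1, fun n hn C hC hcard => ?_⟩
  have hn1' : 1 ≤ n := by omega
  have hnr : (0 : ℝ) < n := by exact_mod_cast hn1'
  obtain ⟨M, hM⟩ : ∃ M : ℝ, M = C.card := ⟨_, rfl⟩
  have hM0 : 0 < M := by rw [hM]; exact lt_of_lt_of_le (pw_pos n _) hcard
  have hc1 : pw n (L - ε1) ≤ C.card := (pw_mono n (by linarith)).trans hcard
  have hc2 : pw n (L - ε2) ≤ C.card := (pw_mono n (by linarith)).trans hcard
  obtain ⟨m, c, hCK, hWK⟩ := hdata n (by omega) C hC hc1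
  obtain ⟨d, hd⟩ : ∃ d : ℕ, d = ⌈δ * n⌉₊ := ⟨_, rfl⟩
  have hdn : δ * n ≤ d := by rw [hd]; exact Nat.le_ceil _
  have hd1 : 1 ≤ d := by
    rw [hd, Nat.one_le_ceil_iff]; positivity
  have hd2n : 2 * d ≤ n := by
    have h2 := hd2 n (by omega)
    rw [← hd] at h2
    have h3 : 0 ≤ (1 - 2 * δ) / 2 * n := by
      have : 0 ≤ 1 - 2 * δ := by linarith
      positivity
    have h4 : (2 * d : ℝ) ≤ n := by linarith
    exact_mod_cast h4
  rw [← hd] at hC
  have hHA' : ∀ w : ℕ, d ≤ w → w + d ≤ n →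
      (Nw C w : ℝ) ≤ C.card * pw n (L - 1 + ε) * n.choose w := by
    intro w hw1 hw2
    rw [hL]
    exact hHA n (by omega) C (by rw [← hd]; exact hC) w (by rw [← hd]; exact hw1)
      (by rw [← hd]; exact hw2)
  by_contra hcon
  push Not at hcon
  -- the bound of the enumerator
  obtain ⟨B, hB⟩ : ∃ B : ℝ, B = M ^ 2 * ((1 / 2) ^ n * Real.exp (-(2 * η * n))) := ⟨_, rfl⟩
  have hB0 : 0 ≤ B := by rw [hB]; positivity
  have hBle : ∀ φ : ℝ, OnArc p1 p2 p3 p4 φ → ∀ t : ℝ, ωa - 2 * ρ ≤ t → t ≤ ωb + 2 * ρ →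
      (1 - t) ^ n * ‖∑ x ∈ C, ∑ y ∈ C.erase x, (((t / ((1 - t) * Real.exp σ) : ℝ) : ℂ) *
        Complex.exp (-((φ : ℂ) * Complex.I))) ^ wt (x - y)‖ ≤ B := by
    intro φ hφ t ht1 ht2
    have ht0 : 0 < t := by linarith
    have ht3 : 0 < 1 - t := by linarith
    have hEσ := Real.exp_pos σ
    have hEσ1 : 1 ≤ Real.exp σ := Real.one_le_exp hσ0
    have hden : 0 < (1 - t) * Real.exp σ := by positivity
    obtain ⟨p, hp⟩ : ∃ p : ℝ, p = t / ((1 - t) * Real.exp σ) := ⟨_, rfl⟩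
    have hpp : 0 < p := by rw [hp]; positivity
    rw [← hp, pa_off_conj]
    have hp0 : p0 ≤ p := by
      rw [hp, le_div_iff₀ hden]
      by_cases hs : 0 ≤ p0
      · calc p0 * ((1 - t) * Real.exp σ) ≤ p0 * ((1 - (ωa - 2 * ρ)) * Real.exp σ) := by
              apply mul_le_mul_of_nonneg_left _ hs
              apply mul_le_mul_of_nonneg_right _ hEσ.le
              linarith
          _ ≤ ωa - 2 * ρ := hp0σ
          _ ≤ t := ht1
      · have : p0 * ((1 - t) * Real.exp σ) ≤ 0 :=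
          mul_nonpos_of_nonpos_of_nonneg (not_le.mp hs).le hden.le
        linarith
    have hpq : p ≤ q := by
      rw [hp, div_le_iff₀ hden]
      have hq0 : 0 < q := by
        by_contra hneg
        push Not at hneg
        have : q * (1 - (ωb + 2 * ρ)) ≤ 0 :=
          mul_nonpos_of_nonpos_of_nonneg hneg (by linarith)
        linarith
      calc t ≤ ωb + 2 * ρ := ht2
        _ ≤ q * (1 - (ωb + 2 * ρ)) := hq
        _ ≤ q * (1 - t) := mul_le_mul_of_nonneg_left (by linarith) hq0.le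
        _ = q * ((1 - t) * 1) := by ring
        _ ≤ q * ((1 - t) * Real.exp σ) := by
            apply mul_le_mul_of_nonneg_left _ hq0.le
            exact mul_le_mul_of_nonneg_left hEσ1 ht3.le
    have hno := hcon p φ hp0 hpq hφ
    unfold AmpO at hno
    rw [not_le] at hno
    rw [norm_mul, pa_norm_ph, mul_one, Complex.norm_real, Real.norm_eq_abs, abs_of_pos hpp,
      ← hM] at hno
    have h5 : (1 - t) * (1 + p) ≤ 1 := by
      have : (1 - t) * p ≤ t := by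
        rw [hp]
        have e1 : (1 - t) * (t / ((1 - t) * Real.exp σ)) = t / Real.exp σ := by
          field_simp
        rw [e1]
        exact div_le_self ht0.le hEσ1
      linarith
    calc (1 - t) ^ n * ‖∑ x ∈ C, ∑ y ∈ C.erase x, ((p : ℂ) * ph φ) ^ wt (x - y)‖
        ≤ (1 - t) ^ n * (M ^ 2 * pw n (-1 - τ') * (1 + p) ^ n) :=
          mul_le_mul_of_nonneg_left hno.le (by positivity)
      _ = M ^ 2 * pw n (-1 - τ') * ((1 - t) * (1 + p)) ^ n := by rw [mul_pow]; ring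
      _ ≤ M ^ 2 * pw n (-1 - τ') * 1 := by
          apply mul_le_mul_of_nonneg_left _ (by have := pw_pos n (-1 - τ'); positivity)
          exact pow_le_one₀ (by positivity) h5
      _ ≤ B := by
          rw [hB, mul_one]
          apply mul_le_mul_of_nonneg_left _ (by positivity)
          have e1 : pw n (-1 - τ') = (1 / 2) ^ n * Real.exp (-(τ' * Real.log 2 * n)) := by
            have : (-1 - τ' : ℝ) = -1 + -τ' := by ring
            rw [this, pw_add, pw_neg, pw_one, pw_eq_exp]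
            congr 1
            · rw [one_div, inv_pow]
            · congr 1; ring
          rw [e1]
          apply mul_le_mul_of_nonneg_left _ (by positivity)
          apply Real.exp_le_exp.2
          have : 2 * η * n ≤ τ' * Real.log 2 * n := mul_le_mul_of_nonneg_right (by linarith) hnr.le
          linarith
  -- the finite inequality
  obtain ⟨A, hA⟩ : ∃ A : ℝ, A = 2 ^ n * Real.exp (n * η) := ⟨_, rfl⟩
  have hA0 : 0 ≤ A := by rw [hA]; positivity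
  have hfin := fin_ineq hC hd1 hd2n hCK.deg c hp1 h12 h23 h34 hp4 hta.le
    (by linarith : ωa - 2 * ρ ≤ ωb + 2 * ρ) htb hA0 hB0 (fun φ hφ => by rw [hA]; exact hWK.arc φ hφ)
    hBle
  have t1 := pa_term1 hWK hp1 h12 h23 h34 hp4 hσ0 hdn hHA'
  have t2 := pa_term2 hn1' hWK hp1 h12 h23 h34 hp4 hσ0 hστ he hσe hω hρ hta htb hκ31 hκ32 hHA'
  have hi' : ∑ w ∈ hiW n d, (Nw C w : ℝ) * bw n (ωa - 2 * ρ) (ωb + 2 * ρ) w ≤
      (C.card : ℝ) ^ 2 * ((1 / 2) ^ n * Real.exp (-(κ2 * n))) := by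
    have := hi n (by omega) C (by rw [← hd]; exact hC) hc2
    rw [← hd] at this
    exact this
  have t4 := pa_term4 hWK hp1 h12 h23 h34 hp4 hσ0 hta.le (by linarith : ωa - 2 * ρ ≤ ωb + 2 * ρ)
    htb.le hi'
  have t5 : ∑ w ∈ hiW n d, (Nw C w : ℝ) * (|(Gp n m c).coeff w| / n.choose w) ≤
      (C.card : ℝ) ^ 2 * Real.exp (-(κ * n)) := by
    have := hCK.high
    rw [← hd] at this
    exact this
  have tk := hCK.kside
  have tm := hCK.mass
  rw [← hM] at hfin t1 t2 t4 t5 tk hcard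
  rw [← hK] at t2
  -- numerical part
  obtain ⟨E, hE⟩ : ∃ E : ℝ, E = Real.exp (-(g / 2 * n)) := ⟨_, rfl⟩
  have hE0 : 0 < E := by rw [hE]; exact Real.exp_pos _
  have hN : (1 : ℝ) ≤ (n : ℝ) + 1 := by linarith
  have hpoly : 5 * (6 + K) * ((n : ℝ) + 1) ^ 3 * E ≤ 1 := by
    have h5 := hn5 n (by omega)
    have h6 : pw n (g / 2) ≤ Real.exp (g / 2 * n) := pa_pw_le_exp n (by linarith only [hg0])
    have h7 : Real.exp (g / 2 * n) * E = 1 := by
      rw [hE, ← Real.exp_add]; simp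
    calc _ ≤ Real.exp (g / 2 * n) * E := mul_le_mul_of_nonneg_right (h5.trans h6) hE0.le
      _ = 1 := h7
  -- `M pw n (L + ε) exp (-g n) ≤ M² E`
  have hMpw : M * pw n (L + ε) ≤ M ^ 2 * Real.exp (g / 2 * n) := by
    have h5 : pw n (L + ε) = pw n (L - ε) * pw n (2 * ε) := by
      rw [← pw_add]; congr 1; ring
    have h6 : pw n (2 * ε) ≤ Real.exp (g / 2 * n) :=
      (pw_mono n (by linarith only [hεc])).trans (pa_pw_le_exp n (by linarith only [hg0]))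
    rw [h5]
    calc M * (pw n (L - ε) * pw n (2 * ε)) ≤ M * (M * Real.exp (g / 2 * n)) := by
          apply mul_le_mul_of_nonneg_left _ hM0.le
          exact mul_le_mul hcard h6 (pw_pos n _).le hM0.le
      _ = _ := by ring
  have hgE : Real.exp (g / 2 * n) * Real.exp (-(g * n)) = E := by
    rw [hE, ← Real.exp_add]; congr 1; ring
  have hexp : ∀ x : ℝ, g * n ≤ x → Real.exp (-x) ≤ Real.exp (-(g * n)) := by
    intro x hx
    apply Real.exp_le_exp.2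
    linarith
  have hgn : ∀ y : ℝ, g ≤ y → g * n ≤ y * n := fun y hy => mul_le_mul_of_nonneg_right hy hnr.le
  have hEg : Real.exp (-(g * n)) ≤ E := by
    rw [hE]
    apply Real.exp_le_exp.2
    have : 0 ≤ g / 2 * n := by positivity
    linarith
  -- bounds
  have u1 : M * pw n (L + ε) * Real.exp (-(g * n)) ≤ M ^ 2 * E := by
    calc _ ≤ M ^ 2 * Real.exp (g / 2 * n) * Real.exp (-(g * n)) :=
          mul_le_mul_of_nonneg_right hMpw (Real.exp_pos _).le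
      _ = M ^ 2 * E := by rw [mul_assoc, hgE]
  have v0 : M * ∑ k ∈ range (m + 1), c k ≤ M ^ 2 * E := by
    calc M * ∑ k ∈ range (m + 1), c k ≤ M * (pw n L * Real.exp (-(κ * n))) :=
          mul_le_mul_of_nonneg_left tm hM0.le
      _ ≤ M * (pw n (L + ε) * Real.exp (-(g * n))) := by
          apply mul_le_mul_of_nonneg_left _ hM0.le
          exact mul_le_mul (pw_mono n (by linarith)) (hexp _ (hgn κ hg1)) (Real.exp_pos _).le
            (pw_pos n _).le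
      _ ≤ M ^ 2 * E := by rw [← mul_assoc]; exact u1
  have v1 : ((n : ℝ) + 1) * (M * pw n (L + ε) * Real.exp (-(κ * n))) ≤
      ((n : ℝ) + 1) * (M ^ 2 * E) := by
    apply mul_le_mul_of_nonneg_left _ (by positivity)
    refine le_trans ?_ u1
    apply mul_le_mul_of_nonneg_left (hexp _ (hgn κ hg1))
    have := pw_pos n (L + ε)
    positivity
  have v2 : ((n : ℝ) + 1) * (M * pw n (L + ε) * ((n + 1) * Real.exp (n * η - ρ ^ 2 / 4 * n) +
      K * Real.exp (-(κ3 * n)))) ≤ ((n : ℝ) + 1) * ((n + 1 + K) * (M ^ 2 * E)) := by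
    apply mul_le_mul_of_nonneg_left _ (by positivity)
    have w1 : Real.exp (n * η - ρ ^ 2 / 4 * n) ≤ Real.exp (-(g * n)) := by
      apply Real.exp_le_exp.2
      have : (η + g) * n ≤ ρ ^ 2 / 4 * n := mul_le_mul_of_nonneg_right (by linarith) hnr.le
      linarith
    have w2 : Real.exp (-(κ3 * n)) ≤ Real.exp (-(g * n)) := hexp _ (hgn κ3 hg2)
    have w3 : ((n : ℝ) + 1) * Real.exp (n * η - ρ ^ 2 / 4 * n) + K * Real.exp (-(κ3 * n)) ≤
        (n + 1 + K) * Real.exp (-(g * n)) := by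
      have a1 := mul_le_mul_of_nonneg_left w1 (by positivity : (0 : ℝ) ≤ (n : ℝ) + 1)
      have a2 := mul_le_mul_of_nonneg_left w2 hK0.le
      linarith
    have hpos : 0 ≤ M * pw n (L + ε) := by
      have := pw_pos n (L + ε)
      positivity
    calc M * pw n (L + ε) * ((n + 1) * Real.exp (n * η - ρ ^ 2 / 4 * n) +
          K * Real.exp (-(κ3 * n))) ≤ M * pw n (L + ε) * ((n + 1 + K) * Real.exp (-(g * n))) :=
          mul_le_mul_of_nonneg_left w3 hpos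
      _ = (n + 1 + K) * (M * pw n (L + ε) * Real.exp (-(g * n))) := by ring
      _ ≤ (n + 1 + K) * (M ^ 2 * E) := mul_le_mul_of_nonneg_left u1 (by positivity)
  have v4 : M ^ 2 * Real.exp (n * η - κ2 * n) ≤ M ^ 2 * E := by
    apply mul_le_mul_of_nonneg_left _ (by positivity)
    refine le_trans ?_ hEg
    apply Real.exp_le_exp.2
    have : (η + g) * n ≤ κ2 * n := mul_le_mul_of_nonneg_right (by linarith) hnr.le
    linarith
  have v5 : M ^ 2 * Real.exp (-(κ * n)) ≤ M ^ 2 * E := by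
    apply mul_le_mul_of_nonneg_left _ (by positivity)
    exact (hexp _ (hgn κ hg1)).trans hEg
  have v6 : ((n : ℝ) + 1) * A * B ≤ ((n : ℝ) + 1) * (M ^ 2 * E) := by
    rw [mul_assoc]
    apply mul_le_mul_of_nonneg_left _ (by positivity)
    rw [hA, hB]
    have e1 : (2 : ℝ) ^ n * (1 / 2) ^ n = 1 := by
      rw [← mul_pow]; norm_num
    have e2 : Real.exp (n * η) * Real.exp (-(2 * η * n)) = Real.exp (-(η * n)) := by
      rw [← Real.exp_add]; congr 1; ring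
    calc (2 : ℝ) ^ n * Real.exp (n * η) * (M ^ 2 * ((1 / 2) ^ n * Real.exp (-(2 * η * n))))
        = M ^ 2 * ((2 : ℝ) ^ n * (1 / 2) ^ n) * (Real.exp (n * η) * Real.exp (-(2 * η * n))) := by
          ring
      _ = M ^ 2 * Real.exp (-(η * n)) := by rw [e1, e2]; ring
      _ ≤ M ^ 2 * E := by
          apply mul_le_mul_of_nonneg_left _ (by positivity)
          exact (hexp _ (hgn η hg5)).trans hEg
  -- conclusion
  refine pa_last hM0 hE0 hN hK0.le rfl hpoly tk (hfin.trans ?_)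
  exact add_le_add (add_le_add (add_le_add (add_le_add (add_le_add v0 (t1.trans v1))
    (t2.trans v2)) (t4.trans v4)) (t5.trans v5)) v6

end Pool.Agent.Lib.MP_0430e4_lc.AC
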