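import Pool.Agent.Lib.MP_0430e4_lc.AC.YT5
import Pool.Agent.Lib.MP_0430e4_lc.BY.H.HBm
import Pool.Agent.Lib.MP_0430e4_lc.BY.H.High

/-!
Project ALLCODES, part Y (helper13): the dual distribution (HB) and the high weights (HHigh) for
any `δ ∈ (0,1/2)`.
-/

set_option autoImplicit false

open Finset Filter Topology

namespace Pool.Agent.Lib.MP_0430e4_lc.AC

open BY

theorem main_ineq_gen {n : ℕ} {l b c m S M B : ℝ} (hn : 0 < (n : ℝ)) (hc : 0 < c) (hb : 0 ≤ b)
    (hl : l - b * n = c * n) (ch : ℝ) (hch : 0 < ch)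
    (hM : 0 ≤ M) (hB : 0 ≤ B)
    (h : (l - b * n) * (m / ((n + 1) * ch) * S) ≤ M * (n - b * n) * ((1 + 1) * B)) :
    m * S ≤ 2 / c * (n + 1) * (M * B * ch) := by
  have hpi : 0 ≤ b * (n : ℝ) := by positivity
  have hn1 : (0 : ℝ) < (n : ℝ) + 1 := by linarith
  have h2 : M * ((n : ℝ) - b * n) * ((1 + 1) * B) ≤ M * n * (2 * B) := by
    have h3 : M * ((n : ℝ) - b * n) ≤ M * n := mul_le_mul_of_nonneg_left (by linarith) hM
    have h4 : 0 ≤ (1 + 1) * B := by positivity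
    calc _ ≤ M * n * ((1 + 1) * B) := mul_le_mul_of_nonneg_right h3 h4
      _ = _ := by ring
  rw [hl] at h
  have h5 : c * n * (m / ((n + 1) * ch) * S) ≤ M * n * (2 * B) := h.trans h2
  have h6 : c * n * (m / ((n + 1) * ch) * S) = (m * S) * (c * n / ((n + 1) * ch)) := by
    field_simp
  rw [h6] at h5
  have h7 : m * S ≤ (M * n * (2 * B)) / (c * n / ((n + 1) * ch)) := by
    rw [le_div_iff₀ (by positivity)]
    exact h5
  calc m * S ≤ (M * n * (2 * B)) / (c * n / ((n + 1) * ch)) := h7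
    _ = _ := by field_simp

/-- **(HB)** for any relative distance. -/
theorem hb_gen {δ : ℝ} {U g : ℝ → ℝ} (P : Pot δ U g) (h0 : 0 < δ) (h1 : δ < 1 / 2) (ε : ℝ)
    (hε : 0 < ε) (x2 : ℝ) (hx0 : 0 < x2) (hx1 : x2 < 1) : ∃ n0 : ℕ, ∀ n ≥ n0,
    ∀ C : Finset (Wd n), IsCode ⌈δ * n⌉₊ C → ∀ k : ℕ, g x2 * n ≤ k →
      (2 * k ≤ n ∨ ∃ κ : ℝ, (∀ y : ℝ, 0 < y → y < 1 → g y ≤ κ) ∧ (k : ℝ) + (κ + ε) * n ≤ n) →
    ∃ x : ℝ, x2 ≤ x ∧ x < 1 ∧
      Sk C k * Real.exp (n * U x) ≤ C.card * pw n (Tensor.ell δ + ε) * x ^ k * n.choose k := by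
  have hlog : 0 < Real.log 2 := Real.log_pos (by norm_num)
  have hlog1 : Real.log 2 ≤ 1 := by
    have := Real.log_two_lt_d9
    linarith
  obtain ⟨a, ha, n1, hmass⟩ := mass_gen P h0 h1 (ε / 4 * Real.log 2) x2 (by positivity) hx0 hx1
  obtain ⟨ε', hε'⟩ : ∃ ε' : ℝ, ε' = min (ε / 4) a := ⟨_, rfl⟩
  have he0 : 0 < ε' := by rw [hε']; exact lt_min (by positivity) ha
  have he1 : ε' ≤ ε / 4 := by rw [hε']; exact min_le_left _ _
  have he2 : ε' ≤ a := by rw [hε']; exact min_le_right _ _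
  obtain ⟨c, hc0, hc1, -, n2, hnear⟩ := near_gen h0 ε' he0
  obtain ⟨n3, hn3⟩ := HBaux.pw_lin (2 / c) (show (0 : ℝ) < ε / 2 by positivity)
  refine ⟨n1 + n2 + n3 + 1, fun n hn C hC k hk1 hk2 => ?_⟩
  obtain ⟨f, H, hR, hW, hsum⟩ := hnear n (by omega)
  have hnpos : (0 : ℝ) < (n : ℝ) := by
    have : 0 < n := by omega
    exact_mod_cast this
  have hcn : 0 < c * (n : ℝ) := by positivity
  obtain ⟨b, hb⟩ : ∃ b : ℝ, b = 1 - 2 * δ := ⟨_, rfl⟩
  have hb0 : 0 < b := by rw [hb]; linarith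
  rw [← hb] at hW
  have hlev : b * (n : ℝ) ≤ (b + c) * n := by
    rw [add_mul]; linarith
  have hkn : k ≤ n := by
    rcases hk2 with h | ⟨κ, hκ, h⟩
    · omega
    · have h2 := P.nonneg h0 (show (0 : ℝ) < 1 / 2 by norm_num) (by norm_num)
      have h3 := hκ (1 / 2) (by norm_num) (by norm_num)
      have h4 : 0 ≤ (κ + ε) * n := by
        apply mul_nonneg _ hnpos.le
        linarith
      have h5 : (k : ℝ) ≤ n := by linarith
      exact_mod_cast h5
  obtain ⟨x, hx2, hxlt, j, hjk, ⟨y, hy0, hy1, hjy⟩, hE⟩ := hmass n (by omega) _ f H hR hW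
    (by rw [← hb]; exact hlev) (hsum.trans (pw_mono n (by linarith))) k hk1 hkn
  have hjk2 : j + k ≤ n := by
    rcases hk2 with h | ⟨κ, hκ, h⟩
    · omega
    · have h3 := hκ y hy0 hy1
      have h4 : (g y + ε / 4 * Real.log 2) * n ≤ (κ + ε) * n := by
        apply mul_le_mul_of_nonneg_right _ hnpos.le
        nlinarith
      have h5 : (j : ℝ) + k ≤ n := by linarith
      exact_mod_cast h5
  refine ⟨x, hx2, hxlt, ?_⟩
  have hxpos : 0 < x := lt_of_lt_of_le hx0 hx2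
  have hch : (0 : ℝ) < (n.choose k : ℝ) := by
    exact_mod_cast Nat.choose_pos hkn
  have hD : (n : ℝ) - 2 * (⌈δ * n⌉₊ : ℕ) ≤ b * n := by
    have h : δ * (n : ℝ) ≤ (⌈δ * n⌉₊ : ℝ) := Nat.le_ceil _
    rw [hb]; linarith
  have hB := slackB (l := (b + c) * n) (μ := b * n)
    (c := n.choose j * H j / ((n + 1) * n.choose k)) (d := ⌈δ * n⌉₊) (k := k) (f := addC f 1)
    (addC_nonneg hW.nonneg zero_le_one)
    (fun y => by
      rw [hatW_addC, one_mul]
      apply mul_nonneg (hW.hat y)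
      have := abs_le.mp (abs_psib y)
      linarith [this.1])
    (addC_adj zero_le_one hW.adj) hD hlev hC
    (fun y hy => HBaux.shell_le hR hW.nonneg hjk hjk2 y hy)
  rw [sum_addC] at hB
  have hf0 : 0 ≤ ∑ x, f x := Finset.sum_nonneg fun x _ => hW.nonneg x
  have hM : (0 : ℝ) ≤ C.card := Nat.cast_nonneg _
  have h3 := main_ineq_gen (m := n.choose j * H j) (S := Sk C k) (M := C.card) (B := ∑ x, f x)
    hnpos hc0 hb0.le (by ring) (n.choose k : ℝ) hch hM hf0 hB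
  have h4 : ∑ x, f x ≤ pw n (Tensor.ell δ + ε / 4) := hsum.trans (pw_mono n (by linarith))
  have hS := Sk_nonneg C k
  have hexp : Real.exp (ε / 4 * Real.log 2 * n) = pw n (ε / 4) := (HBaux.pw_exp n _).symm
  rw [hexp] at hE
  have hxk : 0 < x ^ k := pow_pos hxpos k
  have hp1 := pw_pos n (ε / 4)
  have hp2 := pw_pos n (Tensor.ell δ + ε / 4)
  have h5 : 2 / c * ((n : ℝ) + 1) ≤ pw n (ε / 2) := hn3 n (by omega)
  calc Sk C k * Real.exp (n * U x)
      ≤ Sk C k * (x ^ k * pw n (ε / 4) * (n.choose j * H j)) := mul_le_mul_of_nonneg_left hE hS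
    _ = x ^ k * pw n (ε / 4) * ((n.choose j * H j) * Sk C k) := by ring
    _ ≤ x ^ k * pw n (ε / 4) * (2 / c * (n + 1) * (C.card * (∑ x, f x) * n.choose k)) :=
        mul_le_mul_of_nonneg_left h3 (by positivity)
    _ ≤ x ^ k * pw n (ε / 4) * (pw n (ε / 2) * (C.card * pw n (Tensor.ell δ + ε / 4) *
          n.choose k)) := by
        apply mul_le_mul_of_nonneg_left _ (by positivity)
        apply mul_le_mul h5 _ (by positivity) (pw_pos n _).le
        apply mul_le_mul_of_nonneg_right _ hch.le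
        exact mul_le_mul_of_nonneg_left h4 hM
    _ = C.card * (pw n (ε / 4) * pw n (ε / 2) * pw n (Tensor.ell δ + ε / 4)) * x ^ k *
          n.choose k := by ring
    _ = C.card * pw n (Tensor.ell δ + ε) * x ^ k * n.choose k := by
        rw [← pw_add, ← pw_add]
        congr 4
        ring

end Pool.Agent.Lib.MP_0430e4_lc.AC
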