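import Pool.Agent.Lib.MP_0430e4_lc.AC.PA6
import Pool.Agent.Lib.MP_0430e4_lc.AC.YT6
import Pool.Agent.Lib.MP_0430e4_lc.AC.YT8

/-!
Project ALLCODES, part Y (helper13): lemmas for the users of `forced_of`: the k side (`kside_of`,
`kside_term`), the high weights against a window below `1/2` (`hi_low`), and `Gp_inv`.
-/

set_option autoImplicit false

open Finset Polynomial

namespace Pool.Agent.Lib.MP_0430e4_lc.AC

open BY

theorem pa_lin (A : ℝ) {t : ℝ} (ht : 0 < t) :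
    ∃ n0 : ℕ, ∀ n ≥ n0, A * ((n : ℝ) + 1) ≤ Real.exp (t * n) := by
  obtain ⟨n0, hn0⟩ := HBauxLin A ht
  exact ⟨n0, fun n hn => (hn0 n hn).trans (pa_pw_le_exp n ht.le)⟩

/-- the k side from HB: `c_0 ≥ 1/2`, `c_k ≥ 0` for `k ≤ κk n`, and for `k > κk n` a bound of the
sum of the terms -/
theorem kside_of {n m : ℕ} {c : ℕ → ℝ} {κk : ℝ} {C : Finset (Wd n)}
    (hc0 : 1 / 2 ≤ c 0) (hpos : ∀ k : ℕ, (k : ℝ) ≤ κk * n → 0 ≤ c k)
    (hb : ∑ k ∈ (range (m + 1)).filter (fun k : ℕ => κk * n < k), |c k| / n.choose k * Sk C k ≤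
      (1 / 4) * (C.card : ℝ) ^ 2) :
    (1 / 4) * (C.card : ℝ) ^ 2 ≤ ∑ k ∈ range (m + 1), c k / n.choose k * Sk C k := by
  have hM : 0 ≤ (C.card : ℝ) ^ 2 := by positivity
  have h0m : (0 : ℕ) ∈ range (m + 1) := mem_range.mpr (by omega)
  have hch : ∀ k : ℕ, (0 : ℝ) ≤ n.choose k := fun k => by positivity
  have habs : ∀ k : ℕ, 0 ≤ |c k| / n.choose k * Sk C k := fun k =>
    mul_nonneg (div_nonneg (abs_nonneg _) (hch k)) (Sk_nonneg C k)
  have e0 : c 0 / (n.choose 0 : ℝ) * Sk C 0 = c 0 * (C.card : ℝ) ^ 2 := by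
    rw [Nat.choose_zero_right, Sk_zero]; simp
  have hsplit := Finset.sum_filter_add_sum_filter_not (range (m + 1))
    (fun k : ℕ => κk * n < k) (fun k => c k / n.choose k * Sk C k)
  have h1 : -((1 / 4) * (C.card : ℝ) ^ 2) ≤
      ∑ k ∈ (range (m + 1)).filter (fun k : ℕ => κk * n < k), c k / n.choose k * Sk C k := by
    refine le_trans (neg_le_neg hb) ?_
    rw [← Finset.sum_neg_distrib]
    apply Finset.sum_le_sum
    intro k _
    have := neg_abs_le (c k)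
    have h2 : -|c k| / n.choose k ≤ c k / n.choose k := by
      apply div_le_div_of_nonneg_right this (hch k)
    calc -(|c k| / n.choose k * Sk C k) = -|c k| / n.choose k * Sk C k := by ring
      _ ≤ _ := mul_le_mul_of_nonneg_right h2 (Sk_nonneg C k)
  by_cases hk : κk * n < ((0 : ℕ) : ℝ)
  · -- then `C` is empty
    have h3 : |c 0| / n.choose 0 * Sk C 0 ≤ (1 / 4) * (C.card : ℝ) ^ 2 := by
      refine le_trans ?_ hb
      exact Finset.single_le_sum (f := fun k => |c k| / (n.choose k : ℝ) * Sk C k)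
        (fun k _ => habs k) (mem_filter.mpr ⟨h0m, hk⟩)
    rw [Nat.choose_zero_right, Sk_zero, Nat.cast_one, div_one] at h3
    have h4 : 1 / 2 ≤ |c 0| := hc0.trans (le_abs_self _)
    have h5 : (1 / 2) * (C.card : ℝ) ^ 2 ≤ |c 0| * (C.card : ℝ) ^ 2 :=
      mul_le_mul_of_nonneg_right h4 hM
    have h6 : (C.card : ℝ) ^ 2 = 0 := by linarith
    have h7 : (C.card : ℝ) = 0 := by
      rcases pow_eq_zero_iff (n := 2) (by norm_num) |>.mp h6 with h
      exact h
    have h8 : C = ∅ := Finset.card_eq_zero.mp (by exact_mod_cast h7)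
    have h9 : ∀ k : ℕ, Sk C k = 0 := by
      intro k
      unfold Sk
      rw [h8]
      simp
    rw [h6]
    simp [h9]
  · have h3 : c 0 * (C.card : ℝ) ^ 2 ≤
        ∑ k ∈ (range (m + 1)).filter (fun k : ℕ => ¬ κk * n < k), c k / n.choose k * Sk C k := by
      rw [← e0]
      refine Finset.single_le_sum (f := fun k => c k / (n.choose k : ℝ) * Sk C k) ?_
        (mem_filter.mpr ⟨h0m, hk⟩)
      intro k hk'
      rw [mem_filter, not_lt] at hk'
      exact mul_nonneg (div_nonneg (hpos k hk'.2) (hch k)) (Sk_nonneg C k)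
    have h4 : (1 / 2) * (C.card : ℝ) ^ 2 ≤ c 0 * (C.card : ℝ) ^ 2 :=
      mul_le_mul_of_nonneg_right hc0 hM
    linarith

/-- `hb_gen` form: the terms of the k side in the range `[κk n, n/2]` or `[κk n, (1-κh-κs) n]`
(`κh` any upper bound of `g`, `κs > 0` any slack) -/
theorem kside_term {δ : ℝ} {U g : ℝ → ℝ} (P : Pot δ U g) (h0 : 0 < δ) (h1 : δ < 1 / 2)
    {x2 κ κk κh κs : ℝ} (hx0 : 0 < x2) (hx1 : x2 < 1) (hκ : 0 < κ) (hk : g x2 ≤ κk)
    (hs : 0 < κs) (hh : ∀ y : ℝ, 0 < y → y < 1 → g y ≤ κh) :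
    ∃ ε : ℝ, 0 < ε ∧ ∃ n0 : ℕ, ∀ n ≥ n0, ∀ C : Finset (Wd n), IsCode ⌈δ * n⌉₊ C →
      pw n (Tensor.ell δ - ε) ≤ C.card → ∀ (k : ℕ) (a : ℝ), κk * n ≤ k →
      (2 * k ≤ n ∨ (k : ℝ) + (κh + κs) * n ≤ n) →
      (∀ x : ℝ, x2 ≤ x → x < 1 → |a| * x ^ k ≤ Real.exp (n * (U x - κ))) →
      |a| / n.choose k * Sk C k ≤ (C.card : ℝ) ^ 2 * Real.exp (-(κ / 2 * n)) := by
  have hlog : 0 < Real.log 2 := Real.log_pos (by norm_num)
  obtain ⟨ε, hε⟩ : ∃ ε : ℝ, ε = min κs (κ / (4 * Real.log 2)) := ⟨_, rfl⟩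
  have hε0 : 0 < ε := by rw [hε]; exact lt_min hs (by positivity)
  have hε1 : ε ≤ κs := by rw [hε]; exact min_le_left _ _
  have hε2 : ε ≤ κ / (4 * Real.log 2) := by rw [hε]; exact min_le_right _ _
  obtain ⟨n0, hn0⟩ := hb_gen P h0 h1 ε hε0 x2 hx0 hx1
  refine ⟨ε, hε0, n0, fun n hn C hC hcard k a hkk hor ha => ?_⟩
  have hnn : (0 : ℝ) ≤ n := Nat.cast_nonneg n
  have h2 : g x2 * n ≤ k := le_trans (mul_le_mul_of_nonneg_right hk hnn) hkk
  have h3 : 2 * k ≤ n ∨ ∃ κ : ℝ, (∀ y : ℝ, 0 < y → y < 1 → g y ≤ κ) ∧ (k : ℝ) + (κ + ε) * n ≤ n := by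
    rcases hor with h | h
    · exact Or.inl h
    · refine Or.inr ⟨κh, hh, le_trans ?_ h⟩
      have := mul_le_mul_of_nonneg_right hε1 hnn
      linarith
  obtain ⟨x, hx2, hx3, hx4⟩ := hn0 n hn C hC k h2 h3
  have hx : 0 < x := lt_of_lt_of_le hx0 hx2
  have hkn : k ≤ n := by
    rcases hor with h | h
    · omega
    · have hκh : 0 ≤ κh := le_trans (P.nonneg h0 hx hx3) (hh x hx hx3)
      have : (k : ℝ) ≤ n := by nlinarith
      exact_mod_cast this
  have hch : (0 : ℝ) < n.choose k := by exact_mod_cast Nat.choose_pos hkn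
  have hM : (0 : ℝ) ≤ C.card := Nat.cast_nonneg _
  have hcard2 : pw n (Tensor.ell δ + ε) ≤ C.card * pw n (2 * ε) := by
    have e : pw n (Tensor.ell δ + ε) = pw n (Tensor.ell δ - ε) * pw n (2 * ε) := by
      rw [← pw_add]; congr 1; ring
    rw [e]
    exact mul_le_mul_of_nonneg_right hcard (pw_pos n _).le
  have hpe : pw n (2 * ε) ≤ Real.exp (κ / 2 * n) := by
    unfold pw
    rw [Real.rpow_def_of_pos (by norm_num : (0 : ℝ) < 2)]
    apply Real.exp_le_exp.mpr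
    have h5 : 2 * ε * Real.log 2 ≤ κ / 2 := by
      have := mul_le_mul_of_nonneg_right hε2 (show 0 ≤ 2 * Real.log 2 by positivity)
      have e : κ / (4 * Real.log 2) * (2 * Real.log 2) = κ / 2 := by field_simp; ring
      rw [e] at this
      linarith
    have := mul_le_mul_of_nonneg_right h5 hnn
    nlinarith
  have hS := Sk_nonneg C k
  have hxk : 0 < x ^ k := by positivity
  have h6 := ha x hx2 hx3
  have hEU := Real.exp_pos (n * U x)
  -- |a| S ≤ M² C(n,k) e^{-κ n/2}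
  have h7 : |a| * Sk C k ≤ (C.card : ℝ) ^ 2 * Real.exp (-(κ / 2 * n)) * n.choose k := by
    have h8 : Sk C k * Real.exp (n * U x) ≤
        (C.card : ℝ) ^ 2 * Real.exp (κ / 2 * n) * x ^ k * n.choose k := by
      refine hx4.trans ?_
      have h9 : (C.card : ℝ) * pw n (Tensor.ell δ + ε) ≤
          (C.card : ℝ) ^ 2 * Real.exp (κ / 2 * n) := by
        calc (C.card : ℝ) * pw n (Tensor.ell δ + ε) ≤ C.card * (C.card * pw n (2 * ε)) :=
              mul_le_mul_of_nonneg_left hcard2 hM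
          _ ≤ C.card * (C.card * Real.exp (κ / 2 * n)) := by gcongr
          _ = _ := by ring
      have := mul_le_mul_of_nonneg_right h9 (mul_nonneg hxk.le hch.le)
      calc (C.card : ℝ) * pw n (Tensor.ell δ + ε) * x ^ k * n.choose k
          = (C.card : ℝ) * pw n (Tensor.ell δ + ε) * (x ^ k * n.choose k) := by ring
        _ ≤ _ := this
        _ = _ := by ring
    have h10 : |a| * Sk C k * Real.exp (n * U x) ≤
        (C.card : ℝ) ^ 2 * Real.exp (-(κ / 2 * n)) * n.choose k * Real.exp (n * U x) := by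
      calc |a| * Sk C k * Real.exp (n * U x) = |a| * (Sk C k * Real.exp (n * U x)) := by ring
        _ ≤ |a| * ((C.card : ℝ) ^ 2 * Real.exp (κ / 2 * n) * x ^ k * n.choose k) :=
            mul_le_mul_of_nonneg_left h8 (abs_nonneg a)
        _ = (|a| * x ^ k) * ((C.card : ℝ) ^ 2 * Real.exp (κ / 2 * n) * n.choose k) := by ring
        _ ≤ Real.exp (n * (U x - κ)) * ((C.card : ℝ) ^ 2 * Real.exp (κ / 2 * n) * n.choose k) :=
            mul_le_mul_of_nonneg_right h6 (by positivity)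
        _ = (C.card : ℝ) ^ 2 * (Real.exp (n * (U x - κ)) * Real.exp (κ / 2 * n)) * n.choose k := by
            ring
        _ = (C.card : ℝ) ^ 2 * (Real.exp (-(κ / 2 * n)) * Real.exp (n * U x)) * n.choose k := by
            congr 2
            rw [← Real.exp_add, ← Real.exp_add]
            congr 1
            ring
        _ = _ := by ring
    exact le_of_mul_le_mul_right h10 hEU
  rw [div_mul_eq_mul_div, div_le_iff₀ hch]
  exact h7

/-- the whole tail of the k side -/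
theorem kside_tail {δ : ℝ} {U g : ℝ → ℝ} (P : Pot δ U g) (h0 : 0 < δ) (h1 : δ < 1 / 2)
    {x2 κ κk κh κs : ℝ} (hx0 : 0 < x2) (hx1 : x2 < 1) (hκ : 0 < κ) (hk : g x2 ≤ κk)
    (hs : 0 < κs) (hh : ∀ y : ℝ, 0 < y → y < 1 → g y ≤ κh) :
    ∃ ε : ℝ, 0 < ε ∧ ∃ n0 : ℕ, ∀ n ≥ n0, ∀ C : Finset (Wd n), IsCode ⌈δ * n⌉₊ C →
      pw n (Tensor.ell δ - ε) ≤ C.card → ∀ (m : ℕ) (c : ℕ → ℝ), m ≤ n →
      (2 * m ≤ n ∨ (m : ℝ) + (κh + κs) * n ≤ n) →
      1 / 2 ≤ c 0 → (∀ k : ℕ, (k : ℝ) ≤ κk * n → 0 ≤ c k) →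
      (∀ k : ℕ, k ≤ m → κk * n < k → ∀ x : ℝ, x2 ≤ x → x < 1 →
        |c k| * x ^ k ≤ Real.exp (n * (U x - κ))) →
      (1 / 4) * (C.card : ℝ) ^ 2 ≤ ∑ k ∈ range (m + 1), c k / n.choose k * Sk C k := by
  obtain ⟨ε, hε, n0, H⟩ := kside_term P h0 h1 hx0 hx1 hκ hk hs hh
  obtain ⟨n1, hn1⟩ := pa_lin 4 (show 0 < κ / 2 by positivity)
  refine ⟨ε, hε, n0 + n1 + 1, fun n hn C hC hcard m c hm hor hc0 hpos hb => ?_⟩
  have hnn : (0 : ℝ) ≤ n := Nat.cast_nonneg n
  refine kside_of hc0 hpos ?_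
  have hM : (0 : ℝ) ≤ (C.card : ℝ) ^ 2 := by positivity
  have hterm : ∀ k ∈ (range (m + 1)).filter (fun k : ℕ => κk * n < k),
      |c k| / n.choose k * Sk C k ≤ (C.card : ℝ) ^ 2 * Real.exp (-(κ / 2 * n)) := by
    intro k hk'
    rw [mem_filter, mem_range] at hk'
    refine H n (by omega) C hC hcard k (c k) hk'.2.le ?_ (hb k (by omega) hk'.2)
    rcases hor with h | h
    · left; omega
    · right
      have : (k : ℝ) ≤ m := by exact_mod_cast (by omega : k ≤ m)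
      linarith
  have hcardle : (((range (m + 1)).filter (fun k : ℕ => κk * n < k)).card : ℝ) ≤ (n : ℝ) + 1 := by
    have h3 : ((range (m + 1)).filter (fun k : ℕ => κk * n < k)).card ≤ m + 1 := by
      refine (Finset.card_filter_le _ _).trans ?_
      rw [card_range]
    have h4 : ((range (m + 1)).filter (fun k : ℕ => κk * n < k)).card ≤ n + 1 := by omega
    exact_mod_cast h4
  have hpoly := hn1 n (by omega)
  calc ∑ k ∈ (range (m + 1)).filter (fun k : ℕ => κk * n < k), |c k| / n.choose k * Sk C k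
      ≤ ((range (m + 1)).filter (fun k : ℕ => κk * n < k)).card •
        ((C.card : ℝ) ^ 2 * Real.exp (-(κ / 2 * n))) := Finset.sum_le_card_nsmul _ _ _ hterm
    _ ≤ ((n : ℝ) + 1) * ((C.card : ℝ) ^ 2 * Real.exp (-(κ / 2 * n))) := by
        rw [nsmul_eq_mul]
        exact mul_le_mul_of_nonneg_right hcardle (by positivity)
    _ ≤ (1 / 4) * (C.card : ℝ) ^ 2 := by
        have h5 : ((n : ℝ) + 1) * Real.exp (-(κ / 2 * n)) ≤ 1 / 4 := by
          have hE := Real.exp_pos (κ / 2 * n)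
          rw [Real.exp_neg, ← div_eq_mul_inv, div_le_iff₀ hE]
          nlinarith [hpoly]
        nlinarith

/-- high weights against a window strictly below `1/2` -/
theorem hi_low {δ ta tb : ℝ} (h0 : 0 < δ) (h1 : δ < 1 / 2) (hta : 0 ≤ ta) (hab : ta ≤ tb)
    (htb : tb < 1 / 2) : ∃ κ2 : ℝ, 0 < κ2 ∧ ∃ n2 : ℕ, ∀ n ≥ n2, ∀ C : Finset (Wd n),
      ∑ w ∈ (range (n + 1)).filter (fun w => n < w + ⌈δ * n⌉₊), (Nw C w : ℝ) * bw n ta tb w ≤
          (C.card : ℝ) ^ 2 * ((1 / 2) ^ n * Real.exp (-(κ2 * n))) := by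
  obtain ⟨s, hs⟩ : ∃ s : ℝ, s = max (2 * tb) (1 / 2) := ⟨_, rfl⟩
  have hs0 : 0 < s := by rw [hs]; exact lt_of_lt_of_le (by norm_num) (le_max_right _ _)
  have hs1 : s < 1 := by rw [hs]; exact max_lt (by linarith) (by norm_num)
  have hs2 : 2 * tb ≤ s := by rw [hs]; exact le_max_left _ _
  have hb : 0 < (1 - 2 * δ) / 2 := by linarith
  have hls : 0 < -Real.log s := by
    have := Real.log_neg hs0 hs1
    linarith
  obtain ⟨κ2, hκ2⟩ : ∃ κ2 : ℝ, κ2 = (1 - 2 * δ) / 2 * (-Real.log s) / 2 := ⟨_, rfl⟩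
  have hκ : 0 < κ2 := by rw [hκ2]; positivity
  obtain ⟨n1, hn1⟩ := pa_lin 1 hκ
  obtain ⟨n2, hn2⟩ := two_ceil_le h0 h1
  refine ⟨κ2, hκ, n1 + n2 + 1, fun n hn C => ?_⟩
  have hlin := hn1 n (by omega)
  have hceil := hn2 n (by omega)
  rw [one_mul] at hlin
  have hnn : (0 : ℝ) ≤ n := Nat.cast_nonneg n
  have hterm : ∀ w ∈ (range (n + 1)).filter (fun w => n < w + ⌈δ * n⌉₊),
      (Nw C w : ℝ) * bw n ta tb w ≤ (Nw C w : ℝ) * ((1 / 2) ^ n * Real.exp (-(κ2 * n))) := by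
    intro w hw
    rw [mem_filter, mem_range] at hw
    apply mul_le_mul_of_nonneg_left _ (Nat.cast_nonneg _)
    have hwn : w ≤ n := by omega
    have hwr : (n : ℝ) < (w : ℝ) + (⌈δ * n⌉₊ : ℕ) := by exact_mod_cast hw.2
    have h2w : n ≤ 2 * w := by
      have h5 : (1 - 2 * δ) / 2 * n ≥ 0 := by positivity
      have h6 : 2 * (⌈δ * (n : ℝ)⌉₊ : ℝ) ≤ n := by linarith
      have h7 : 2 * ⌈δ * (n : ℝ)⌉₊ ≤ n := by exact_mod_cast h6
      omega
    refine (bw_high hwn h2w hta hab htb.le).trans ?_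
    have h8 : (2 * tb) ^ (2 * w - n) ≤ s ^ (2 * w - n) :=
      pow_le_pow_left₀ (by linarith) hs2 _
    have h9 : s ^ (2 * w - n) ≤ Real.exp (-(2 * κ2 * n)) := by
      rw [← Real.exp_log (pow_pos hs0 (2 * w - n)), Real.log_pow]
      apply Real.exp_le_exp.mpr
      have h10 : (1 - 2 * δ) / 2 * n ≤ ((2 * w - n : ℕ) : ℝ) := by
        rw [Nat.cast_sub h2w]
        push_cast
        linarith
      have h11 := mul_le_mul_of_nonneg_right h10 hls.le
      rw [hκ2]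
      linarith
    calc ((n : ℝ) + 1) * ((1 / 2) ^ n * (2 * tb) ^ (2 * w - n))
        ≤ Real.exp (κ2 * n) * ((1 / 2) ^ n * Real.exp (-(2 * κ2 * n))) := by
          apply mul_le_mul hlin _ (by
            have : 0 ≤ 2 * tb := by linarith
            positivity) (Real.exp_pos _).le
          exact mul_le_mul_of_nonneg_left (h8.trans h9) (by positivity)
      _ = (1 / 2) ^ n * (Real.exp (κ2 * n) * Real.exp (-(2 * κ2 * n))) := by ring
      _ = _ := by
          rw [← Real.exp_add]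
          congr 2
          ring
  have htot : ∑ w ∈ range (n + 1), (Nw C w : ℝ) = (C.card : ℝ) ^ 2 := by
    have h := sum_pairs C (fun _ => (1 : ℝ))
    simp only [mul_one, Finset.sum_const, nsmul_eq_mul] at h
    rw [← h]; ring
  calc ∑ w ∈ (range (n + 1)).filter (fun w => n < w + ⌈δ * n⌉₊), (Nw C w : ℝ) * bw n ta tb w
      ≤ ∑ w ∈ (range (n + 1)).filter (fun w => n < w + ⌈δ * n⌉₊),
        (Nw C w : ℝ) * ((1 / 2) ^ n * Real.exp (-(κ2 * n))) := Finset.sum_le_sum hterm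
    _ ≤ ∑ w ∈ range (n + 1), (Nw C w : ℝ) * ((1 / 2) ^ n * Real.exp (-(κ2 * n))) := by
        apply Finset.sum_le_sum_of_subset_of_nonneg (Finset.filter_subset _ _)
        intro w _ _
        positivity
    _ = _ := by rw [← Finset.sum_mul, htot]

/-- homogenized generating function of the Krawtchouk numbers -/
theorem pa_hom {n w : ℕ} (hw : w ≤ n) :
    ∑ k ∈ range (n + 1), Polynomial.C (kr n k w) * ((1 - X) ^ k * (1 + X) ^ (n - k)) =
      (Polynomial.C ((2 : ℝ) ^ n) * X ^ w : ℝ[X]) := by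
  apply Polynomial.eq_of_infinite_eval_eq
  refine Set.Infinite.mono ?_ (Set.Ioi_infinite (0 : ℝ))
  intro u hu
  have hu0 : (0 : ℝ) < u := hu
  have hb : (1 + u) ≠ 0 := by positivity
  show Polynomial.eval u _ = Polynomial.eval u _
  rw [Polynomial.eval_finsetSum]
  simp only [Polynomial.eval_mul, Polynomial.eval_C, Polynomial.eval_pow, Polynomial.eval_sub,
    Polynomial.eval_add, Polynomial.eval_one, Polynomial.eval_X]
  obtain ⟨P, hP⟩ : ∃ P : ℝ[X], P = (1 - X) ^ w * (1 + X) ^ (n - w) := ⟨_, rfl⟩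
  have hdeg : P.natDegree < n + 1 := by
    rw [hP]
    have h1 : ((1 - X : ℝ[X]) ^ w).natDegree ≤ w := by
      refine (Polynomial.natDegree_pow_le).trans ?_
      have h3 : (1 - X : ℝ[X]).natDegree ≤ 1 := by
        refine (Polynomial.natDegree_sub_le _ _).trans ?_
        simp
      calc w * (1 - X : ℝ[X]).natDegree ≤ w * 1 := Nat.mul_le_mul_left _ h3
        _ = w := mul_one w
    have h2 : ((1 + X : ℝ[X]) ^ (n - w)).natDegree ≤ n - w := by
      refine (Polynomial.natDegree_pow_le).trans ?_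
      have h3 : (1 + X : ℝ[X]).natDegree ≤ 1 := by
        refine (Polynomial.natDegree_add_le _ _).trans ?_
        simp
      calc (n - w) * (1 + X : ℝ[X]).natDegree ≤ (n - w) * 1 := Nat.mul_le_mul_left _ h3
        _ = n - w := mul_one _
    have := Polynomial.natDegree_mul_le (p := (1 - X : ℝ[X]) ^ w) (q := (1 + X : ℝ[X]) ^ (n - w))
    omega
  have hev : P.eval ((1 - u) / (1 + u)) =
      ∑ k ∈ range (n + 1), kr n k w * ((1 - u) / (1 + u)) ^ k := by
    rw [Polynomial.eval_eq_sum_range' hdeg]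
    apply Finset.sum_congr rfl
    intro k _
    rw [hP]; rfl
  have hterm : ∀ k ∈ range (n + 1), kr n k w * ((1 - u) ^ k * (1 + u) ^ (n - k)) =
      (1 + u) ^ n * (kr n k w * ((1 - u) / (1 + u)) ^ k) := by
    intro k hk
    have hkn : k ≤ n := Nat.lt_succ_iff.mp (mem_range.mp hk)
    have e1 : (1 + u) ^ n = (1 + u) ^ (n - k) * (1 + u) ^ k := by
      rw [← pow_add, Nat.sub_add_cancel hkn]
    rw [e1, div_pow]
    have h2 : (1 + u) ^ k ≠ 0 := pow_ne_zero _ hb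
    field_simp
  rw [Finset.sum_congr rfl hterm, ← Finset.mul_sum, ← hev, hP]
  simp only [Polynomial.eval_mul, Polynomial.eval_pow, Polynomial.eval_sub,
    Polynomial.eval_add, Polynomial.eval_one, Polynomial.eval_X]
  have e2 : 1 - (1 - u) / (1 + u) = 2 * u / (1 + u) := by field_simp; ring
  have e3 : 1 + (1 - u) / (1 + u) = 2 / (1 + u) := by field_simp; ring
  rw [e2, e3, div_pow, div_pow]
  have e4 : (1 + u) ^ n = (1 + u) ^ w * (1 + u) ^ (n - w) := by
    rw [← pow_add]; congr 1; omega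
  have e5 : (2 : ℝ) ^ n = 2 ^ w * 2 ^ (n - w) := by
    rw [← pow_add]; congr 1; omega
  rw [e4, e5, mul_pow]
  have h2 : (1 + u) ^ w ≠ 0 := pow_ne_zero _ hb
  have h3 : (1 + u) ^ (n - w) ≠ 0 := pow_ne_zero _ hb
  field_simp

/-- every real polynomial of degree `≤ n` is a `Gp` -/
theorem Gp_inv {n : ℕ} (G : ℝ[X]) (hG : G.natDegree ≤ n) :
    Gp n n (fun k => (1 / 2) ^ n * ∑ w ∈ range (n + 1), G.coeff w * kr n k w) = G := by
  unfold Gp
  have h1 : ∀ k ∈ range (n + 1),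
      (Polynomial.C ((1 / 2) ^ n * ∑ w ∈ range (n + 1), G.coeff w * kr n k w) *
        ((1 - X) ^ k * (1 + X) ^ (n - k)) : ℝ[X]) =
      ∑ w ∈ range (n + 1), Polynomial.C ((1 / 2) ^ n * G.coeff w) *
        (Polynomial.C (kr n k w) * ((1 - X) ^ k * (1 + X) ^ (n - k))) := by
    intro k _
    rw [Finset.mul_sum, map_sum, Finset.sum_mul]
    apply Finset.sum_congr rfl
    intro w _
    simp only [Polynomial.C_mul]
    ring
  rw [Finset.sum_congr rfl h1, Finset.sum_comm]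
  have h2 : ∀ w ∈ range (n + 1), ∑ k ∈ range (n + 1), (Polynomial.C ((1 / 2) ^ n * G.coeff w) *
        (Polynomial.C (kr n k w) * ((1 - X) ^ k * (1 + X) ^ (n - k))) : ℝ[X]) =
      Polynomial.C (G.coeff w) * X ^ w := by
    intro w hw
    have hwn : w ≤ n := Nat.lt_succ_iff.mp (mem_range.mp hw)
    rw [← Finset.mul_sum, pa_hom hwn, ← mul_assoc, ← Polynomial.C_mul]
    congr 2
    have : (1 / 2 : ℝ) ^ n * 2 ^ n = 1 := by rw [← mul_pow]; norm_num
    calc (1 / 2 : ℝ) ^ n * G.coeff w * 2 ^ n = (1 / 2 : ℝ) ^ n * 2 ^ n * G.coeff w := by ring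
      _ = G.coeff w := by rw [this, one_mul]
  rw [Finset.sum_congr rfl h2]
  exact (Polynomial.as_sum_range_C_mul_X_pow' (p := G) (by omega)).symm

end Pool.Agent.Lib.MP_0430e4_lc.AC
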