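import Pool.Agent.Lib.MP_0430e4_lc.AC.ShD

/-!
Sh1 (SHELL51.md section 2): sums over all centres.
PROOF of `centre`. `a^wt(x-c) = ∏_i (if x_i - c_i = 0 then 1 else a)` (as in `Four.prod_wt`, real
version), so the sum over `c` of the product is a product over `i` of `f_i(0) + f_i(1)` (real version
of `Four.sum_words`, substitute `c = x - v` or treat `c_i = 0, 1` directly); the factor of a
coordinate is `g00 + a b g11` if `x_i = y_i` and `b g01 + a g10` otherwise; collect with `prod_wt`.
-/

set_option autoImplicit false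

open Finset

namespace Pool.Agent.Lib.MP_0430e4_lc.AC

open BY BY.Four

variable {n : ℕ}

private theorem sh1_prod_wt (v : Wd n) (a b : ℝ) :
    ∏ i, (if v i = 0 then a else b) = a ^ (n - wt v) * b ^ wt v := by
  rw [Finset.prod_ite, Finset.prod_const, Finset.prod_const]
  have h1 : (univ.filter (fun i => ¬ v i = 0)).card = wt v := rfl
  have h2 : (univ.filter (fun i => v i = 0)).card = n - wt v := by
    have h3 := Finset.card_filter_add_card_filter_not (s := (univ : Finset (Fin n))) (fun i => v i = 0)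
    rw [h1, Finset.card_univ, Fintype.card_fin] at h3
    omega
  rw [h1, h2]

private theorem sh1_sum_words (f : Fin n → ZMod 2 → ℝ) :
    ∑ u : Wd n, ∏ i, f i (u i) = ∏ i, (f i 0 + f i 1) := by
  rw [← Fintype.piFinset_univ, ← Finset.prod_univ_sum]
  apply Finset.prod_congr rfl
  intro i _
  have : (univ : Finset (ZMod 2)) = {0, 1} := by decide
  rw [this, Finset.sum_pair (by decide)]

private theorem sh1_two (g : ZMod 2 → ZMod 2 → ℝ) (a b : ℝ) (s t : ZMod 2) :
    ((if s - 0 = 0 then 1 else a) * (if t - 0 = 0 then 1 else b) * g (s - 0) (t - 0)) +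
      ((if s - 1 = 0 then 1 else a) * (if t - 1 = 0 then 1 else b) * g (s - 1) (t - 1)) =
      if s - t = 0 then g 0 0 + a * b * g 1 1 else b * g 0 1 + a * g 1 0 := by
  have e1 : (0 : ZMod 2) - 1 = 1 := by decide
  have e2 : (1 : ZMod 2) - 0 = 1 := by decide
  have h01 : (1 : ZMod 2) ≠ 0 := by decide
  rcases z01 s with hs | hs <;> rcases z01 t with ht | ht
  · rw [hs, ht, e1, sub_self, if_pos rfl, if_neg h01]
    simp
  · rw [hs, ht, e1, e2, sub_self, sub_self, if_pos rfl, if_neg h01, if_neg h01]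
    simp
  · rw [hs, ht, e1, e2, sub_self, sub_self, if_pos rfl, if_neg h01, if_neg h01]
    simp [add_comm]
  · rw [hs, ht, e2, sub_self, if_pos rfl, if_neg h01]
    simp [add_comm]

theorem centre (x y : Wd n) (a b : ℝ) (g : ZMod 2 → ZMod 2 → ℝ) :
    ∑ c : Wd n, a ^ wt (x - c) * b ^ wt (y - c) * KK g (x - c) (y - c) =
      (g 0 0 + a * b * g 1 1) ^ (n - wt (x - y)) * (b * g 0 1 + a * g 1 0) ^ wt (x - y) := by
  have h1 : ∀ c : Wd n, a ^ wt (x - c) * b ^ wt (y - c) * KK g (x - c) (y - c) =
      ∏ i, ((if x i - c i = 0 then 1 else a) * (if y i - c i = 0 then 1 else b) *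
        g (x i - c i) (y i - c i)) := by
    intro c
    rw [Finset.prod_mul_distrib, Finset.prod_mul_distrib]
    have e1 := sh1_prod_wt (x - c) 1 a
    have e2 := sh1_prod_wt (y - c) 1 b
    rw [one_pow, one_mul] at e1 e2
    rw [← e1, ← e2]
    rfl
  rw [Finset.sum_congr rfl fun c _ => h1 c,
    sh1_sum_words (fun i t => (if x i - t = 0 then 1 else a) * (if y i - t = 0 then 1 else b) *
        g (x i - t) (y i - t)), ← sh1_prod_wt (x - y)]
  apply Finset.prod_congr rfl
  intro i _
  exact sh1_two g a b (x i) (y i)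

theorem centre_one (x y : Wd n) (a b : ℝ) :
    ∑ c : Wd n, a ^ wt (x - c) * b ^ wt (y - c) =
      (1 + a * b) ^ (n - wt (x - y)) * (a + b) ^ wt (x - y) := by
  have h := centre x y a b (fun _ _ => 1)
  unfold KK at h
  simp only [Finset.prod_const_one, mul_one] at h
  rw [h, add_comm b a]

theorem centre_single (x : Wd n) (a : ℝ) : ∑ c : Wd n, a ^ wt (x - c) = (1 + a) ^ n := by
  have h := centre_one x x a 1
  have h0 : wt (x - x) = 0 := by
    rw [sub_self]
    unfold wt
    exact hammingNorm_zero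
  simp only [one_pow, mul_one, h0, Nat.sub_zero, pow_zero] at h
  exact h

end Pool.Agent.Lib.MP_0430e4_lc.AC
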