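import Pool.Agent.Lib.MP_0430e4_lc.AC.ShD

/-!
Sh9 (SHELL51.md section 6): tensor Schur test.
PROOF. `U P = ∑_x F x ∏_i E (P i) (x i)`; then `∑_{x,y} F x H y ∏_i K (x i) (y i)`
`= ∑_{P,Q} ∏_i N (P i) (Q i) U P V Q` (expand `K = ∑_{p,q} N p q E p s E q t` in every coordinate:
`Finset.prod_univ_sum` / `Finset.sum_prod_piFinset`), and `∑_P ‖U P‖^2 = ∑_{x,x'} F x conj(F x') ∏_i k (x i) (x' i)`
with `k s t = E 0 s E 0 t + E 1 s E 1 t` (real). Schur: with `t00 = t11 = 1`, `t01 = B2`, `t10 = 1/B2`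
(`B2 = 2B`; if `B = 0` the off-diagonal entries vanish) `2 |N_PQ| |U_P| |V_Q| ≤ ∏|N| (∏t |U_P|^2 + ∏ t^(-1) |V_Q|^2)`,
and `∑_Q ∏_i |N (P i) (Q i)| t (P i) (Q i) = ∏_i (∑_q ..) ≤ 1`.
So `‖∑‖ ≤ (⟨F⟩ + ⟨H⟩)/2`. (The homogeneous form is not needed.)
-/

set_option autoImplicit false

open Finset

namespace Pool.Agent.Lib.MP_0430e4_lc.AC

open BY BY.Four

private theorem sh9_pus {R : Type*} [CommSemiring R] {n : ℕ} (f : Fin n → Fin 2 → R) :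
    ∏ i, ∑ j, f i j = ∑ P : Fin n → Fin 2, ∏ i, f i (P i) := by
  rw [Finset.prod_univ_sum, Fintype.piFinset_univ]

private def sh9E (E0 E1 : ZMod 2 → ℝ) (p : Fin 2) (s : ZMod 2) : ℝ := if p = 0 then E0 s else E1 s

private def sh9N {R : Type*} (N00 N01 N11 : R) (p q : Fin 2) : R :=
  if p = 0 then (if q = 0 then N00 else N01) else (if q = 0 then N01 else N11)

private noncomputable def sh9U {n : ℕ} (E0 E1 : ZMod 2 → ℝ) (F : Wd n → ℂ) (P : Fin n → Fin 2) : ℂ :=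
  ∑ x, F x * ∏ i, (sh9E E0 E1 (P i) (x i) : ℂ)

/-- the expansion of the bilinear form -/
private theorem sh9_expand {n : ℕ} (E0 E1 : ZMod 2 → ℝ) (N00 N01 N11 : ℂ) (F H : Wd n → ℂ) :
    ∑ x : Wd n, ∑ y : Wd n, F x * H y * ∏ i, (N00 * (E0 (x i) * E0 (y i) : ℝ) +
        N01 * (E0 (x i) * E1 (y i) + E1 (x i) * E0 (y i) : ℝ) + N11 * (E1 (x i) * E1 (y i) : ℝ)) =
      ∑ P : Fin n → Fin 2, ∑ Q : Fin n → Fin 2,
        (∏ i, sh9N N00 N01 N11 (P i) (Q i)) * (sh9U E0 E1 F P * sh9U E0 E1 H Q) := by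
  have h1 : ∀ x y : Wd n, ∏ i, (N00 * (E0 (x i) * E0 (y i) : ℝ) +
        N01 * (E0 (x i) * E1 (y i) + E1 (x i) * E0 (y i) : ℝ) + N11 * (E1 (x i) * E1 (y i) : ℝ)) =
      ∑ P : Fin n → Fin 2, ∑ Q : Fin n → Fin 2, (∏ i, sh9N N00 N01 N11 (P i) (Q i)) *
        ((∏ i, (sh9E E0 E1 (P i) (x i) : ℂ)) * ∏ i, (sh9E E0 E1 (Q i) (y i) : ℂ)) := by
    intro x y
    have h2 : ∀ i, (N00 * (E0 (x i) * E0 (y i) : ℝ) +
        N01 * (E0 (x i) * E1 (y i) + E1 (x i) * E0 (y i) : ℝ) + N11 * (E1 (x i) * E1 (y i) : ℝ)) =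
        ∑ p : Fin 2, ∑ q : Fin 2, sh9N N00 N01 N11 p q *
          ((sh9E E0 E1 p (x i) : ℂ) * (sh9E E0 E1 q (y i) : ℂ)) := by
      intro i
      simp only [Fin.sum_univ_two, sh9N, sh9E]
      simp only [if_true, Fin.one_eq_zero_iff, OfNat.ofNat_ne_one, if_false]
      push_cast
      ring
    rw [prod_congr rfl (fun i _ => h2 i), sh9_pus]
    refine sum_congr rfl fun P _ => ?_
    rw [sh9_pus]
    refine sum_congr rfl fun Q _ => ?_
    rw [prod_mul_distrib, prod_mul_distrib]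
  have h3 : ∀ P Q : Fin n → Fin 2, (∏ i, sh9N N00 N01 N11 (P i) (Q i)) *
      (sh9U E0 E1 F P * sh9U E0 E1 H Q) = ∑ x : Wd n, ∑ y : Wd n, F x * H y *
        ((∏ i, sh9N N00 N01 N11 (P i) (Q i)) *
        ((∏ i, (sh9E E0 E1 (P i) (x i) : ℂ)) * ∏ i, (sh9E E0 E1 (Q i) (y i) : ℂ))) := by
    intro P Q
    rw [sh9U, sh9U, sum_mul_sum, mul_sum]
    refine sum_congr rfl fun x _ => ?_
    rw [mul_sum]
    refine sum_congr rfl fun y _ => ?_
    ring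
  simp only [h3, h1, mul_sum]
  rw [← Fintype.sum_prod_type' (f := fun x y : Wd n => ∑ P : Fin n → Fin 2, ∑ Q : Fin n → Fin 2,
    F x * H y * ((∏ i, sh9N N00 N01 N11 (P i) (Q i)) *
        ((∏ i, (sh9E E0 E1 (P i) (x i) : ℂ)) * ∏ i, (sh9E E0 E1 (Q i) (y i) : ℂ))))]
  rw [sum_comm]
  refine sum_congr rfl fun P _ => ?_
  rw [sum_comm]
  refine sum_congr rfl fun Q _ => ?_
  rw [Fintype.sum_prod_type]

/-- the square sum of the coefficients -/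
private theorem sh9_sq {n : ℕ} (E0 E1 : ZMod 2 → ℝ) (F : Wd n → ℂ) :
    ∑ P : Fin n → Fin 2, ‖sh9U E0 E1 F P‖ ^ 2 ≤
      ∑ x : Wd n, ∑ y : Wd n, ‖F x‖ * ‖F y‖ * |KK (fun s t => E0 s * E0 t + E1 s * E1 t) x y| := by
  have h1 : ((∑ P : Fin n → Fin 2, ‖sh9U E0 E1 F P‖ ^ 2 : ℝ) : ℂ) =
      ∑ x : Wd n, ∑ y : Wd n, F x * (starRingEnd ℂ) (F y) *
        (KK (fun s t => E0 s * E0 t + E1 s * E1 t) x y : ℂ) := by
    have h2 : ∀ P : Fin n → Fin 2, ((‖sh9U E0 E1 F P‖ ^ 2 : ℝ) : ℂ) =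
        ∑ x : Wd n, ∑ y : Wd n, F x * (starRingEnd ℂ) (F y) *
          ∏ i, ((sh9E E0 E1 (P i) (x i) : ℂ) * (sh9E E0 E1 (P i) (y i) : ℂ)) := by
      intro P
      rw [Complex.ofReal_pow, ← Complex.mul_conj']
      rw [sh9U, map_sum, sum_mul_sum]
      refine sum_congr rfl fun x _ => sum_congr rfl fun y _ => ?_
      rw [map_mul, map_prod, prod_mul_distrib]
      simp only [Complex.conj_ofReal]
      ring
    have h3 : ∀ x y : Wd n, (KK (fun s t => E0 s * E0 t + E1 s * E1 t) x y : ℂ) =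
        ∑ P : Fin n → Fin 2,
          ∏ i, ((sh9E E0 E1 (P i) (x i) : ℂ) * (sh9E E0 E1 (P i) (y i) : ℂ)) := by
      intro x y
      rw [← sh9_pus (fun i p => (sh9E E0 E1 p (x i) : ℂ) * (sh9E E0 E1 p (y i) : ℂ)), KK,
        Complex.ofReal_prod]
      refine prod_congr rfl fun i _ => ?_
      simp only [Fin.sum_univ_two, sh9E]
      simp only [if_true, Fin.one_eq_zero_iff, OfNat.ofNat_ne_one, if_false]
      push_cast
      ring
    rw [Complex.ofReal_sum, sum_congr rfl (fun P _ => h2 P), sum_comm]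
    refine sum_congr rfl fun x _ => ?_
    rw [sum_comm]
    refine sum_congr rfl fun y _ => ?_
    rw [h3, mul_sum]
  have h4 : (0 : ℝ) ≤ ∑ P : Fin n → Fin 2, ‖sh9U E0 E1 F P‖ ^ 2 :=
    sum_nonneg fun P _ => sq_nonneg _
  have h5 : (∑ P : Fin n → Fin 2, ‖sh9U E0 E1 F P‖ ^ 2) =
      ‖((∑ P : Fin n → Fin 2, ‖sh9U E0 E1 F P‖ ^ 2 : ℝ) : ℂ)‖ := by
    rw [Complex.norm_real, Real.norm_of_nonneg h4]
  rw [h5, h1]
  refine (norm_sum_le _ _).trans (sum_le_sum fun x _ => ?_)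
  refine (norm_sum_le _ _).trans (sum_le_sum fun y _ => ?_)
  rw [norm_mul, norm_mul, RCLike.norm_conj, Complex.norm_real, Real.norm_eq_abs]

private theorem sh9_two {a T u v : ℝ} (ha : 0 ≤ a) (hT : 0 < T) :
    a * (u * v) ≤ (a * T * u ^ 2 + a * T⁻¹ * v ^ 2) / 2 := by
  have h1 : 0 ≤ a * T⁻¹ * (T * u - v) ^ 2 := by positivity
  have h2 : a * T⁻¹ * (T * u - v) ^ 2 = a * T * u ^ 2 + a * T⁻¹ * v ^ 2 - 2 * (a * (u * v)) := by
    field_simp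
    ring
  linarith

/-- tensor Schur test: `N` symmetric with `|N00| + 2B^2 ≤ 1`, `|N01| ≤ B`, `|N11| ≤ 1/2`. -/
theorem tensor_schur {n : ℕ} (E0 E1 : ZMod 2 → ℝ) (N00 N01 N11 : ℂ) {B : ℝ}
    (h00 : ‖N00‖ + 2 * B ^ 2 ≤ 1) (h01 : ‖N01‖ ≤ B) (h11 : ‖N11‖ ≤ 1 / 2)
    (F H : Wd n → ℂ) :
    ‖∑ x : Wd n, ∑ y : Wd n, F x * H y * ∏ i, (N00 * (E0 (x i) * E0 (y i) : ℝ) +
        N01 * (E0 (x i) * E1 (y i) + E1 (x i) * E0 (y i) : ℝ) + N11 * (E1 (x i) * E1 (y i) : ℝ))‖ ≤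
      (∑ x : Wd n, ∑ y : Wd n, ‖F x‖ * ‖F y‖ * |KK (fun s t => E0 s * E0 t + E1 s * E1 t) x y| +
        ∑ x : Wd n, ∑ y : Wd n, ‖H x‖ * ‖H y‖ * |KK (fun s t => E0 s * E0 t + E1 s * E1 t) x y|) / 2 := by
  -- the weight
  obtain ⟨b, hb, hb1, hb2⟩ : ∃ b : ℝ, 0 < b ∧ ‖N01‖ * b ≤ 2 * B ^ 2 ∧ ‖N01‖ * b⁻¹ ≤ 1 / 2 := by
    have hB : 0 ≤ B := (norm_nonneg _).trans h01
    rcases hB.eq_or_lt with h | h
    · have h0 : ‖N01‖ = 0 := le_antisymm (h01.trans h.symm.le) (norm_nonneg _)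
      refine ⟨1, one_pos, ?_, ?_⟩
      · rw [h0]
        nlinarith [sq_nonneg B]
      · rw [h0]
        norm_num
    · refine ⟨2 * B, by linarith, ?_, ?_⟩
      · nlinarith
      · rw [mul_inv_le_iff₀ (by linarith)]
        linarith
  have hn00 := norm_nonneg N00
  have hn01 := norm_nonneg N01
  have hn11 := norm_nonneg N11
  rw [sh9_expand]
  set U := sh9U E0 E1 F with hU
  set V := sh9U E0 E1 H with hV
  let a : Fin 2 → Fin 2 → ℝ := sh9N ‖N00‖ ‖N01‖ ‖N11‖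
  let t : Fin 2 → Fin 2 → ℝ := fun p q => if p = 0 then (if q = 0 then 1 else b) else (if q = 0 then b⁻¹ else 1)
  have ha0 : ∀ p q, 0 ≤ a p q := by
    intro p q
    simp only [a, sh9N]
    split_ifs <;> assumption
  have ht0 : ∀ p q, 0 < t p q := by
    intro p q
    simp only [t]
    split_ifs
    · exact one_pos
    · exact hb
    · exact inv_pos.2 hb
    · exact one_pos
  have hnN : ∀ p q, ‖sh9N N00 N01 N11 p q‖ = a p q := by
    intro p q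
    simp only [a, sh9N]
    split_ifs <;> rfl
  have hrow : ∀ p, ∑ q, a p q * t p q ≤ 1 := by
    intro p
    rw [Fin.sum_univ_two]
    simp only [a, t, sh9N]
    by_cases hp : p = 0
    · simp only [hp, if_true, Fin.one_eq_zero_iff, OfNat.ofNat_ne_one, if_false]
      linarith
    · simp only [hp, if_true, Fin.one_eq_zero_iff, OfNat.ofNat_ne_one, if_false]
      linarith
  have hcol : ∀ q, ∑ p, a p q * (t p q)⁻¹ ≤ 1 := by
    intro q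
    rw [Fin.sum_univ_two]
    simp only [a, t, sh9N]
    by_cases hq : q = 0
    · simp only [hq, if_true, Fin.one_eq_zero_iff, OfNat.ofNat_ne_one, if_false, inv_one, inv_inv]
      linarith
    · simp only [hq, if_true, Fin.one_eq_zero_iff, OfNat.ofNat_ne_one, if_false, inv_one, inv_inv]
      linarith
  have hrowP : ∀ P : Fin n → Fin 2, ∑ Q : Fin n → Fin 2, ∏ i, (a (P i) (Q i) * t (P i) (Q i)) ≤ 1 := by
    intro P
    rw [← sh9_pus (fun i q => a (P i) q * t (P i) q)]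
    exact prod_le_one (fun i _ => sum_nonneg fun q _ => mul_nonneg (ha0 _ _) (ht0 _ _).le)
      fun i _ => hrow (P i)
  have hcolQ : ∀ Q : Fin n → Fin 2, ∑ P : Fin n → Fin 2, ∏ i, (a (P i) (Q i) * (t (P i) (Q i))⁻¹) ≤ 1 := by
    intro Q
    rw [← sh9_pus (fun i p => a p (Q i) * (t p (Q i))⁻¹)]
    exact prod_le_one (fun i _ => sum_nonneg fun p _ => mul_nonneg (ha0 _ _) (inv_pos.2 (ht0 _ _)).le)
      fun i _ => hcol (Q i)
  have hstep : ∀ P Q : Fin n → Fin 2, ‖(∏ i, sh9N N00 N01 N11 (P i) (Q i)) * (U P * V Q)‖ ≤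
      ((∏ i, (a (P i) (Q i) * t (P i) (Q i))) * ‖U P‖ ^ 2 +
        (∏ i, (a (P i) (Q i) * (t (P i) (Q i))⁻¹)) * ‖V Q‖ ^ 2) / 2 := by
    intro P Q
    rw [norm_mul, norm_mul, norm_prod, prod_congr rfl (fun i _ => hnN (P i) (Q i)),
      prod_mul_distrib, prod_mul_distrib, prod_inv_distrib]
    exact sh9_two (prod_nonneg fun i _ => ha0 _ _) (prod_pos fun i _ => ht0 _ _)
  calc ‖∑ P : Fin n → Fin 2, ∑ Q : Fin n → Fin 2,
        (∏ i, sh9N N00 N01 N11 (P i) (Q i)) * (U P * V Q)‖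
      ≤ ∑ P : Fin n → Fin 2, ∑ Q : Fin n → Fin 2,
        ((∏ i, (a (P i) (Q i) * t (P i) (Q i))) * ‖U P‖ ^ 2 +
        (∏ i, (a (P i) (Q i) * (t (P i) (Q i))⁻¹)) * ‖V Q‖ ^ 2) / 2 := by
        refine (norm_sum_le _ _).trans (sum_le_sum fun P _ => ?_)
        exact (norm_sum_le _ _).trans (sum_le_sum fun Q _ => hstep P Q)
    _ = (∑ P : Fin n → Fin 2, (∑ Q : Fin n → Fin 2, ∏ i, (a (P i) (Q i) * t (P i) (Q i))) * ‖U P‖ ^ 2 +
        ∑ Q : Fin n → Fin 2, (∑ P : Fin n → Fin 2, ∏ i, (a (P i) (Q i) * (t (P i) (Q i))⁻¹)) *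
          ‖V Q‖ ^ 2) / 2 := by
        simp only [← sum_div, sum_add_distrib]
        congr 2
        · exact sum_congr rfl fun P _ => (sum_mul _ _ _).symm
        · rw [sum_comm]
          exact sum_congr rfl fun Q _ => (sum_mul _ _ _).symm
    _ ≤ (∑ P : Fin n → Fin 2, ‖U P‖ ^ 2 + ∑ Q : Fin n → Fin 2, ‖V Q‖ ^ 2) / 2 := by
        have e1 : ∑ P : Fin n → Fin 2, (∑ Q : Fin n → Fin 2, ∏ i, (a (P i) (Q i) * t (P i) (Q i))) *
            ‖U P‖ ^ 2 ≤ ∑ P : Fin n → Fin 2, ‖U P‖ ^ 2 :=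
          sum_le_sum fun P _ => mul_le_of_le_one_left (sq_nonneg _) (hrowP P)
        have e2 : ∑ Q : Fin n → Fin 2, (∑ P : Fin n → Fin 2,
            ∏ i, (a (P i) (Q i) * (t (P i) (Q i))⁻¹)) * ‖V Q‖ ^ 2 ≤ ∑ Q : Fin n → Fin 2, ‖V Q‖ ^ 2 :=
          sum_le_sum fun Q _ => mul_le_of_le_one_left (sq_nonneg _) (hcolQ Q)
        linarith
    _ ≤ _ := by
        have e1 := sh9_sq E0 E1 F
        have e2 := sh9_sq E0 E1 H
        rw [← hU] at e1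
        rw [← hV] at e2
        linarith

end Pool.Agent.Lib.MP_0430e4_lc.AC
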