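import Pool.Agent.Lib.MP_0430e4_lc.AC.Sh8
import Pool.Agent.Lib.MP_0430e4_lc.AC.Sh9
import Pool.Agent.Lib.MP_0430e4_lc.AC.Sml

/-!
Sh10 (SHELL51.md section 6, corollary): small angle on a shell.
PROOF. `lam = lamF φ r`, `E0 = sqrt lam`, `E1 s = 2 sqrt φ (s - r)`: `E0 E0 + E1 E1 = kp lam φ r`. `coord` gives
`ph(-2φ X_s X_t) = al + be (X_s + X_t) + ga X_s X_t = N00 E0 E0 + N01 (E0 E1 + E1 E0) + N11 E1 E1` with
`N00 = al/lam`, `N01 = be/(2 sqrt (lam φ))`, `N11 = ga/(4φ)`; `B = 2φ^2 v/(2 sqrt(lam φ))`,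
`B^2 = φ^3 v^2/lam`; `‖N00‖ + 2B^2 ≤ (1 - φ^2v^2 + 2 φ^3 v^2)/lam ≤ (1 - φ^2 v^2/2)/lam = 1` (φ ≤ 1/4).
`kernel_le`: `|F|, |H| ≤ 1` on `A`, 0 outside; `KK (kp ..) ≥ 0` because all entries are `> 0`
(`4 φ r (1-r) ≤ 1/4 < lam`).
`small_sh`: `Box = ∑_{y,y'} ∑_{x,x'} ph(2φ<x-x',y-y'>)`; for fixed `x', y'` the sum over `x, y` is
`∑ F x H y ph(2φ<x,y>)` with unimodular `F`, `H` times a constant, `<x,y> = ∑ (x_i-r)(y_i-r) + r ∑ x_i + r ∑ y_i - n r^2`
(absorb); conjugate to have the sign of `kernel_le`. So `Box ≤ |A|^2 K(A)`.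
-/

set_option autoImplicit false

open Finset
open scoped ComplexConjugate

namespace Pool.Agent.Lib.MP_0430e4_lc.AC

open BY BY.Four

namespace Sh10

theorem lam_pos {φ r : ℝ} (hφ0 : 0 < φ) (hφ1 : φ ≤ 1 / 4) (hr0 : 0 < r) (hr1 : r < 1) :
    1 / 2 < lamF φ r := by
  unfold lamF
  have h1 : 0 ≤ r * (1 - r) := mul_nonneg hr0.le (by linarith)
  have h2 : r * (1 - r) ≤ 1 / 4 := by nlinarith [sq_nonneg (r - 1 / 2)]
  have h3 : φ * (r * (1 - r)) ≤ 1 / 16 := by nlinarith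
  have h4 : 0 ≤ φ * (r * (1 - r)) := mul_nonneg hφ0.le h1
  have h5 : φ ^ 2 * r ^ 2 * (1 - r) ^ 2 = (φ * (r * (1 - r))) ^ 2 := by ring
  rw [h5]
  nlinarith

end Sh10

open Sh10

theorem kp_pos {φ r : ℝ} (hφ0 : 0 < φ) (hφ1 : φ ≤ 1 / 4) (hr0 : 0 < r) (hr1 : r < 1) (s t : ZMod 2) :
    0 < kp (lamF φ r) φ r s t := by
  have hlam := lam_pos hφ0 hφ1 hr0 hr1
  have h1 : 0 ≤ r * (1 - r) := mul_nonneg hr0.le (by linarith)
  have h2 : r * (1 - r) ≤ 1 / 4 := by nlinarith [sq_nonneg (r - 1 / 2)]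
  have h3 : φ * (r * (1 - r)) ≤ 1 / 16 := by nlinarith
  have h4 : 0 ≤ φ * (r * (1 - r)) := mul_nonneg hφ0.le h1
  have hv0 : ((0 : ZMod 2).val : ℝ) = 0 := by simp
  have hv1 : ((1 : ZMod 2).val : ℝ) = 1 := by
    have : (1 : ZMod 2).val = 1 := rfl
    rw [this]; norm_num
  unfold kp
  rcases z01 s with rfl | rfl <;> rcases z01 t with rfl | rfl
  · rw [hv0]
    have : 4 * φ * (0 - r) * (0 - r) = 4 * φ * r ^ 2 := by ring
    rw [this]
    positivity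
  · rw [hv0, hv1]
    have : 4 * φ * (0 - r) * (1 - r) = -(4 * (φ * (r * (1 - r)))) := by ring
    rw [this]
    linarith
  · rw [hv0, hv1]
    have : 4 * φ * (1 - r) * (0 - r) = -(4 * (φ * (r * (1 - r)))) := by ring
    rw [this]
    linarith
  · rw [hv1]
    have : 4 * φ * (1 - r) * (1 - r) = 4 * φ * (1 - r) ^ 2 := by ring
    rw [this]
    positivity

theorem kernel_le {n : ℕ} {φ r : ℝ} (hφ0 : 0 < φ) (hφ1 : φ ≤ 1 / 4) (hr0 : 0 < r) (hr1 : r < 1)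
    (A : Finset (Wd n)) (F H : Wd n → ℂ) (hF : ∀ x, ‖F x‖ ≤ 1) (hH : ∀ x, ‖H x‖ ≤ 1) :
    ‖∑ x ∈ A, ∑ y ∈ A, F x * H y *
        ∏ i, ph (-(2 * φ * (((x i).val : ℝ) - r) * (((y i).val : ℝ) - r)))‖ ≤
      ∑ x ∈ A, ∑ y ∈ A, KK (kp (lamF φ r) φ r) x y := by
  classical
  obtain ⟨al, be, ga, hK, hal, hbe, hga⟩ := coord hφ0 hφ1 hr0 hr1
  have hlam := lam_pos hφ0 hφ1 hr0 hr1
  set lam := lamF φ r with hlamdef
  have hlam0 : 0 < lam := by linarith
  set sl := Real.sqrt lam with hsl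
  set sp := Real.sqrt φ with hsp
  have hsl0 : 0 < sl := Real.sqrt_pos.mpr hlam0
  have hsp0 : 0 < sp := Real.sqrt_pos.mpr hφ0
  have hsl2 : sl * sl = lam := Real.mul_self_sqrt hlam0.le
  have hsp2 : sp * sp = φ := Real.mul_self_sqrt hφ0.le
  set v := r * (1 - r) with hv
  have hv0 : 0 ≤ v := mul_nonneg hr0.le (by linarith)
  set E0 : ZMod 2 → ℝ := fun _ => sl with hE0
  set E1 : ZMod 2 → ℝ := fun s => 2 * sp * ((s.val : ℝ) - r) with hE1
  set N00 : ℂ := al / (lam : ℂ) with hN00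
  set N01 : ℂ := be / ((2 * sl * sp : ℝ) : ℂ) with hN01
  set N11 : ℂ := ga / ((4 * φ : ℝ) : ℂ) with hN11
  set B : ℝ := φ * sp * v / sl with hB
  have hB2 : B ^ 2 = φ ^ 3 * v ^ 2 / lam := by
    rw [hB, div_pow, mul_pow, mul_pow, sq sl, hsl2, sq sp, hsp2]
    ring
  have h00 : ‖N00‖ + 2 * B ^ 2 ≤ 1 := by
    rw [hN00, norm_div, Complex.norm_real, Real.norm_of_nonneg hlam0.le, hB2]
    rw [show ‖al‖ / lam + 2 * (φ ^ 3 * v ^ 2 / lam) = (‖al‖ + 2 * (φ ^ 3 * v ^ 2)) / lam by ring,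
      div_le_one hlam0]
    have h1 : lam = 1 - φ ^ 2 * v ^ 2 / 2 := by
      rw [hlamdef, hv]; unfold lamF; ring
    have h2 : φ ^ 2 * r ^ 2 * (1 - r) ^ 2 = φ ^ 2 * v ^ 2 := by rw [hv]; ring
    rw [h2] at hal
    have h3 : φ ^ 3 * v ^ 2 = φ * (φ ^ 2 * v ^ 2) := by ring
    have h4 : 0 ≤ φ ^ 2 * v ^ 2 := by positivity
    rw [h3, h1]
    nlinarith
  have h01 : ‖N01‖ ≤ B := by
    rw [hN01, norm_div, Complex.norm_real, Real.norm_of_nonneg (by positivity), hB,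
      div_le_div_iff₀ (by positivity) hsl0]
    have h1 : φ * sp * v * (2 * sl * sp) = 2 * φ ^ 2 * v * sl := by
      rw [← hsp2]; ring
    rw [h1]
    exact mul_le_mul_of_nonneg_right hbe hsl0.le
  have h11 : ‖N11‖ ≤ 1 / 2 := by
    rw [hN11, norm_div, Complex.norm_real, Real.norm_of_nonneg (by positivity),
      div_le_div_iff₀ (by positivity) (by norm_num)]
    linarith
  set F' : Wd n → ℂ := fun x => if x ∈ A then F x else 0 with hF'
  set H' : Wd n → ℂ := fun x => if x ∈ A then H x else 0 with hH'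
  have key := tensor_schur E0 E1 N00 N01 N11 h00 h01 h11 F' H'
  have hent : ∀ s t : ZMod 2, ph (-(2 * φ * ((s.val : ℝ) - r) * ((t.val : ℝ) - r))) =
      N00 * (E0 s * E0 t : ℝ) + N01 * (E0 s * E1 t + E1 s * E0 t : ℝ) +
        N11 * (E1 s * E1 t : ℝ) := by
    intro s t
    rw [hK s t]
    have e1 : N00 * ((E0 s * E0 t : ℝ) : ℂ) = al := by
      rw [hN00]
      simp only [hE0]
      rw [hsl2, div_mul_cancel₀]
      exact_mod_cast hlam0.ne'
    have e2 : N01 * ((E0 s * E1 t + E1 s * E0 t : ℝ) : ℂ) =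
        be * ((((s.val : ℝ) - r : ℝ) : ℂ) + (((t.val : ℝ) - r : ℝ) : ℂ)) := by
      rw [hN01]
      simp only [hE0, hE1]
      have e3 : sl * (2 * sp * ((t.val : ℝ) - r)) + 2 * sp * ((s.val : ℝ) - r) * sl =
          (2 * sl * sp) * (((s.val : ℝ) - r) + ((t.val : ℝ) - r)) := by ring
      rw [e3, Complex.ofReal_mul (2 * sl * sp) _, ← mul_assoc, div_mul_cancel₀, Complex.ofReal_add]
      have : (2 * sl * sp : ℝ) ≠ 0 := by positivity
      exact_mod_cast this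
    have e4 : N11 * ((E1 s * E1 t : ℝ) : ℂ) =
        ga * ((((s.val : ℝ) - r) * ((t.val : ℝ) - r) : ℝ) : ℂ) := by
      rw [hN11]
      simp only [hE1]
      have e5 : 2 * sp * ((s.val : ℝ) - r) * (2 * sp * ((t.val : ℝ) - r)) =
          (4 * φ) * (((s.val : ℝ) - r) * ((t.val : ℝ) - r)) := by
        rw [← hsp2]; ring
      rw [e5, Complex.ofReal_mul (4 * φ) _, ← mul_assoc, div_mul_cancel₀]
      have : (4 * φ : ℝ) ≠ 0 := by positivity
      exact_mod_cast this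
    rw [e1, e2, e4]
  have hker : ∀ s t : ZMod 2, E0 s * E0 t + E1 s * E1 t = kp lam φ r s t := by
    intro s t
    simp only [hE0, hE1]
    unfold kp
    rw [hsl2, ← hsp2]
    ring
  have hKKeq : (fun s t => E0 s * E0 t + E1 s * E1 t) = kp lam φ r := by
    funext s t; exact hker s t
  rw [hKKeq] at key
  have hKKpos : ∀ x y : Wd n, 0 ≤ KK (kp lam φ r) x y := by
    intro x y
    unfold KK
    exact Finset.prod_nonneg fun i _ => (kp_pos hφ0 hφ1 hr0 hr1 _ _).le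
  have hleft : ∑ x : Wd n, ∑ y : Wd n, F' x * H' y * ∏ i, (N00 * (E0 (x i) * E0 (y i) : ℝ) +
        N01 * (E0 (x i) * E1 (y i) + E1 (x i) * E0 (y i) : ℝ) + N11 * (E1 (x i) * E1 (y i) : ℝ)) =
      ∑ x ∈ A, ∑ y ∈ A, F x * H y *
        ∏ i, ph (-(2 * φ * (((x i).val : ℝ) - r) * (((y i).val : ℝ) - r))) := by
    have s1 : ∀ x : Wd n, x ∉ A → ∑ y : Wd n, F' x * H' y *
        ∏ i, (N00 * (E0 (x i) * E0 (y i) : ℝ) +
        N01 * (E0 (x i) * E1 (y i) + E1 (x i) * E0 (y i) : ℝ) +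
        N11 * (E1 (x i) * E1 (y i) : ℝ)) = 0 := by
      intro x hx
      apply Finset.sum_eq_zero
      intro y _
      simp only [hF']
      rw [if_neg hx, zero_mul, zero_mul]
    rw [← Finset.sum_subset (Finset.subset_univ A) (fun x _ hx => s1 x hx)]
    apply Finset.sum_congr rfl; intro x hx
    rw [← Finset.sum_subset (Finset.subset_univ A)]
    · apply Finset.sum_congr rfl; intro y hy
      simp only [hF', hH']
      rw [if_pos hx, if_pos hy]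
      congr 1
      apply Finset.prod_congr rfl; intro i _
      rw [hent]
    · intro y _ hy
      simp only [hH']
      rw [if_neg hy, mul_zero, zero_mul]
  rw [hleft] at key
  have hright : ∀ G : Wd n → ℂ, (∀ x, ‖G x‖ ≤ 1) →
      ∑ x : Wd n, ∑ y : Wd n, ‖(if x ∈ A then G x else 0)‖ * ‖(if y ∈ A then G y else 0)‖ *
        |KK (kp lam φ r) x y| ≤ ∑ x ∈ A, ∑ y ∈ A, KK (kp lam φ r) x y := by
    intro G hG
    rw [← Finset.sum_subset (Finset.subset_univ A)]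
    · apply Finset.sum_le_sum; intro x hx
      rw [← Finset.sum_subset (Finset.subset_univ A)]
      · apply Finset.sum_le_sum; intro y hy
        rw [if_pos hx, if_pos hy, abs_of_nonneg (hKKpos x y)]
        exact mul_le_of_le_one_left (hKKpos x y)
          (mul_le_one₀ (hG x) (norm_nonneg _) (hG y))
      · intro y _ hy
        rw [if_neg hy, norm_zero, mul_zero, zero_mul]
    · intro x _ hx
      apply Finset.sum_eq_zero
      intro y _
      rw [if_neg hx, norm_zero, zero_mul, zero_mul]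
  have r1 := hright F hF
  have r2 := hright H hH
  refine key.trans ?_
  have r3 : ∑ x : Wd n, ∑ y : Wd n, ‖F' x‖ * ‖F' y‖ * |KK (kp lam φ r) x y| ≤
      ∑ x ∈ A, ∑ y ∈ A, KK (kp lam φ r) x y := r1
  have r4 : ∑ x : Wd n, ∑ y : Wd n, ‖H' x‖ * ‖H' y‖ * |KK (kp lam φ r) x y| ≤
      ∑ x ∈ A, ∑ y ∈ A, KK (kp lam φ r) x y := r2
  linarith

namespace Sh10

/-- the box norm as one sum of phases -/
theorem box_eq {n : ℕ} (A : Finset (Wd n)) (a : ℝ) :
    ((Box (A.image lz) a : ℝ) : ℂ) = ∑ x' ∈ A, ∑ y ∈ A, ∑ x ∈ A, ∑ y' ∈ A,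
      ph (a * (((lz x - lz x') ⬝ᵥ (lz y - lz y') : ℤ) : ℝ)) := by
  unfold Box
  rw [Finset.sum_image (fun a _ b _ h => Sml.lz_inj' h), Complex.ofReal_sum]
  calc ∑ y ∈ A, ((∑ y' ∈ A.image lz, ‖∑ x ∈ A.image lz,
          ph (a * ((x ⬝ᵥ (lz y - y') : ℤ) : ℝ))‖ ^ 2 : ℝ) : ℂ)
      = ∑ y ∈ A, ∑ y' ∈ A, ∑ x ∈ A, ∑ x' ∈ A,
          ph (a * (((lz x - lz x') ⬝ᵥ (lz y - lz y') : ℤ) : ℝ)) := by
        apply Finset.sum_congr rfl; intro y _
        rw [Finset.sum_image (fun a _ b _ h => Sml.lz_inj' h), Complex.ofReal_sum]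
        apply Finset.sum_congr rfl; intro y' _
        rw [Finset.sum_image (fun a _ b _ h => Sml.lz_inj' h)]
        rw [← Complex.normSq_eq_norm_sq, ← Complex.mul_conj, map_sum,
          Finset.sum_mul_sum]
        apply Finset.sum_congr rfl; intro x hx
        apply Finset.sum_congr rfl; intro x' hx'
        rw [Sml.conj_ph, ← Sml.ph_add]
        congr 1
        rw [sub_dotProduct]; push_cast; ring
    _ = ∑ y ∈ A, ∑ x' ∈ A, ∑ x ∈ A, ∑ y' ∈ A,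
          ph (a * (((lz x - lz x') ⬝ᵥ (lz y - lz y') : ℤ) : ℝ)) := by
        apply Finset.sum_congr rfl; intro y _
        calc ∑ y' ∈ A, ∑ x ∈ A, ∑ x' ∈ A,
              ph (a * (((lz x - lz x') ⬝ᵥ (lz y - lz y') : ℤ) : ℝ))
            = ∑ y' ∈ A, ∑ x' ∈ A, ∑ x ∈ A,
              ph (a * (((lz x - lz x') ⬝ᵥ (lz y - lz y') : ℤ) : ℝ)) := by
              apply Finset.sum_congr rfl; intro y' _
              rw [Finset.sum_comm]
          _ = ∑ x' ∈ A, ∑ y' ∈ A, ∑ x ∈ A,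
              ph (a * (((lz x - lz x') ⬝ᵥ (lz y - lz y') : ℤ) : ℝ)) := by
              rw [Finset.sum_comm]
          _ = _ := by
              apply Finset.sum_congr rfl; intro x' _
              rw [Finset.sum_comm]
    _ = _ := by rw [Finset.sum_comm]

/-- `∑ x_i` as a real number -/
noncomputable def sx {n : ℕ} (x : Wd n) : ℝ := ∑ i, ((x i).val : ℝ)

/-- `<x, y>` as a real number -/
noncomputable def dp {n : ℕ} (x y : Wd n) : ℝ := ∑ i, ((x i).val : ℝ) * ((y i).val : ℝ)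

theorem dot_cast {n : ℕ} (x x' y y' : Wd n) :
    (((lz x - lz x') ⬝ᵥ (lz y - lz y') : ℤ) : ℝ) =
      dp x y - dp x y' - dp x' y + dp x' y' := by
  unfold dp dotProduct lz
  push_cast
  rw [← Finset.sum_sub_distrib, ← Finset.sum_sub_distrib, ← Finset.sum_add_distrib]
  apply Finset.sum_congr rfl
  intro i _
  simp only [Pi.sub_apply]
  push_cast
  ring

theorem ph_dp {n : ℕ} (φ r : ℝ) (x y : Wd n) :
    ph (-(2 * φ * dp x y)) =
      ph (-(2 * φ * r * sx x)) * (ph (-(2 * φ * r * sx y)) * ph (2 * φ * n * r ^ 2)) *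
        ∏ i, ph (-(2 * φ * (((x i).val : ℝ) - r) * (((y i).val : ℝ) - r))) := by
  have h1 : ∏ i, ph (-(2 * φ * (((x i).val : ℝ) - r) * (((y i).val : ℝ) - r))) =
      ph (∑ i, (-(2 * φ * (((x i).val : ℝ) - r) * (((y i).val : ℝ) - r)))) := by
    unfold ph
    rw [← Complex.exp_sum]
    congr 1
    push_cast
    rw [Finset.sum_mul]
  rw [h1, ← Sml.ph_add, ← Sml.ph_add, ← Sml.ph_add]
  congr 1
  have h2 : ∑ i : Fin n, (-(2 * φ * (((x i).val : ℝ) - r) * (((y i).val : ℝ) - r))) =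
      -(2 * φ * dp x y) + 2 * φ * r * sx x + 2 * φ * r * sx y - 2 * φ * n * r ^ 2 := by
    unfold dp sx
    have h3 : ∀ i : Fin n, (-(2 * φ * (((x i).val : ℝ) - r) * (((y i).val : ℝ) - r))) =
        -(2 * φ * (((x i).val : ℝ) * ((y i).val : ℝ))) + 2 * φ * r * ((x i).val : ℝ) +
          2 * φ * r * ((y i).val : ℝ) - 2 * φ * r ^ 2 := by
      intro i; ring
    rw [Finset.sum_congr rfl fun i _ => h3 i, Finset.sum_sub_distrib, Finset.sum_add_distrib,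
      Finset.sum_add_distrib, Finset.sum_neg_distrib, ← Finset.mul_sum, ← Finset.mul_sum,
      ← Finset.mul_sum, Finset.sum_const, Finset.card_univ, Fintype.card_fin, nsmul_eq_mul]
    ring
  rw [h2]
  ring

end Sh10

theorem small_sh {n : ℕ} {φ r : ℝ} (hφ0 : 0 < φ) (hφ1 : φ ≤ 1 / 4) (hr0 : 0 < r) (hr1 : r < 1)
    (A : Finset (Wd n)) :
    Box (A.image lz) (2 * φ) ≤
      (A.card : ℝ) ^ 2 * ∑ x ∈ A, ∑ y ∈ A, KK (kp (lamF φ r) φ r) x y := by
  have h2 : Box (A.image lz) (2 * φ) = ‖((Box (A.image lz) (2 * φ) : ℝ) : ℂ)‖ := by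
    rw [Complex.norm_real, Real.norm_of_nonneg]
    unfold Box
    exact Finset.sum_nonneg fun _ _ => Finset.sum_nonneg fun _ _ => sq_nonneg _
  have h3 : ∀ x' ∈ A, ∀ y ∈ A, ‖∑ x ∈ A, ∑ y' ∈ A,
      ph (2 * φ * (((lz x - lz x') ⬝ᵥ (lz y - lz y') : ℤ) : ℝ))‖ ≤
      ∑ x ∈ A, ∑ y ∈ A, KK (kp (lamF φ r) φ r) x y := by
    intro x' _ y _
    have h4 : ∑ x ∈ A, ∑ y' ∈ A, ph (2 * φ * (((lz x - lz x') ⬝ᵥ (lz y - lz y') : ℤ) : ℝ)) =
        ∑ x ∈ A, ∑ y' ∈ A, (ph (2 * φ * dp x y) * ph (-(2 * φ * r * sx x))) *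
          (ph (-(2 * φ * dp x' y)) * ph (2 * φ * dp x' y') * ph (-(2 * φ * r * sx y')) *
            ph (2 * φ * n * r ^ 2)) *
          ∏ i, ph (-(2 * φ * (((x i).val : ℝ) - r) * (((y' i).val : ℝ) - r))) := by
      apply Finset.sum_congr rfl; intro x _
      apply Finset.sum_congr rfl; intro y' _
      rw [dot_cast]
      have h5 : 2 * φ * (dp x y - dp x y' - dp x' y + dp x' y') =
          2 * φ * dp x y + (-(2 * φ * dp x y')) + (-(2 * φ * dp x' y)) + 2 * φ * dp x' y' := by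
        ring
      rw [h5, Sml.ph_add, Sml.ph_add, Sml.ph_add, ph_dp φ r x y']
      ring
    rw [h4]
    apply kernel_le hφ0 hφ1 hr0 hr1 A (fun x => ph (2 * φ * dp x y) * ph (-(2 * φ * r * sx x)))
      (fun y' => ph (-(2 * φ * dp x' y)) * ph (2 * φ * dp x' y') * ph (-(2 * φ * r * sx y')) *
            ph (2 * φ * n * r ^ 2))
    · intro x; rw [norm_mul, Sml.norm_ph', Sml.norm_ph', mul_one]
    · intro y'; simp only [norm_mul, Sml.norm_ph', mul_one, le_refl]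
  rw [h2, Sh10.box_eq]
  calc ‖∑ x' ∈ A, ∑ y ∈ A, ∑ x ∈ A, ∑ y' ∈ A,
        ph (2 * φ * (((lz x - lz x') ⬝ᵥ (lz y - lz y') : ℤ) : ℝ))‖
      ≤ ∑ x' ∈ A, ∑ y' ∈ A, ∑ x ∈ A, ∑ y ∈ A, KK (kp (lamF φ r) φ r) x y := by
        refine (norm_sum_le _ _).trans (Finset.sum_le_sum fun x' hx' => ?_)
        exact (norm_sum_le _ _).trans (Finset.sum_le_sum fun y' hy' => h3 x' hx' y' hy')
    _ = _ := by
        rw [Finset.sum_const, Finset.sum_const, nsmul_eq_mul, nsmul_eq_mul]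
        ring

end Pool.Agent.Lib.MP_0430e4_lc.AC
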