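import Pool.Agent.Lib.MP_0430e4_lc.AC.ShD

/-!
Sh6 (SHELL51.md section 1): twist, from a point `u` to the exact point `z1`.
PROOF. `w = u/z1`. `w^wt(x-y) = ∏_i ((1+w)/2 + (1-w)/2 sg(x_i) sg(y_i)) =`
`∑_v ((1+w)/2)^(n - wt v) ((1-w)/2)^(wt v) e v x e v y` (`Four.expand` with `a = (1+w)/2`, `b = (1-w)/2`,
`a+b = 1`, `a-b = w`, and `e_add_right`). So the left side is at most
`∑_v |..| ‖∑ e v x e v y z1^wt(x-y)‖ ≤ (|1+w|/2 + |1-w|/2)^n max_v ‖..‖`, `|1+w| ≤ 2 + |1-w|`; take `f = e v`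
for the maximal `v` (`Finset.exists_max_image`).
-/

set_option autoImplicit false

open Finset

namespace Pool.Agent.Lib.MP_0430e4_lc.AC

open BY BY.Four

private theorem Sh6_e_sq {n : ℕ} (x v : Wd n) : e x v * e x v = 1 := by
  have h := abs_e x v
  rw [← abs_mul_abs_self, h, one_mul]

private theorem Sh6_e_sub {n : ℕ} (x y v : Wd n) : e (x - y) v = e x v * e y v := by
  have h1 := e_add_left (x - y) y v
  rw [sub_add_cancel] at h1
  rw [h1, mul_assoc, Sh6_e_sq, mul_one]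

private theorem Sh6_zero {n : ℕ} (u : Wd n) : e 0 u = 1 := by
  have h1 := e_add_left (0 : Wd n) 0 u
  rw [add_zero, Sh6_e_sq] at h1
  exact h1

private theorem Sh6_wt_zero {n : ℕ} : wt (0 : Wd n) = 0 := hammingNorm_zero

private theorem Sh6_sum {n : ℕ} (a b : ℝ) :
    ∑ v : Wd n, a ^ (n - wt v) * b ^ wt v = (a + b) ^ n := by
  have h1 := expand (0 : Wd n) (a : ℂ) (b : ℂ)
  rw [Sh6_wt_zero, pow_zero, mul_one, Nat.sub_zero] at h1
  have h2 : ((∑ v : Wd n, a ^ (n - wt v) * b ^ wt v : ℝ) : ℂ) = (((a + b) ^ n : ℝ) : ℂ) := by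
    push_cast
    rw [← h1]
    apply Finset.sum_congr rfl
    intro v _
    rw [Sh6_zero, Complex.ofReal_one, one_mul]
  exact_mod_cast h2

theorem twist {n : ℕ} (C : Finset (Wd n)) (u z1 : ℂ) (hz : z1 ≠ 0) :
    ∃ f : Wd n → ℝ, (∀ x, |f x| ≤ 1) ∧
      ‖∑ x ∈ C, ∑ y ∈ C.erase x, u ^ wt (x - y)‖ ≤
        (1 + ‖1 - u / z1‖) ^ n *
          ‖∑ x ∈ C, ∑ y ∈ C.erase x, (f x : ℂ) * (f y : ℂ) * z1 ^ wt (x - y)‖ := by
  classical
  obtain ⟨w, hw⟩ : ∃ w, w = u / z1 := ⟨_, rfl⟩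
  have huw : u = w * z1 := by rw [hw, div_mul_cancel₀ _ hz]
  obtain ⟨a, ha⟩ : ∃ a : ℂ, a = (1 + w) / 2 := ⟨_, rfl⟩
  obtain ⟨b, hb⟩ : ∃ b : ℂ, b = (1 - w) / 2 := ⟨_, rfl⟩
  have hab : a + b = 1 := by rw [ha, hb]; ring
  have hab' : a - b = w := by rw [ha, hb]; ring
  obtain ⟨S, hS⟩ : ∃ S : Wd n → ℂ, S = fun v => ∑ x ∈ C, ∑ y ∈ C.erase x,
    ((e x v : ℝ) : ℂ) * ((e y v : ℝ) : ℂ) * z1 ^ wt (x - y) := ⟨_, rfl⟩
  obtain ⟨v0, _, hv0⟩ := Finset.exists_max_image (univ : Finset (Wd n)) (fun v => ‖S v‖)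
    univ_nonempty
  refine ⟨fun x => e x v0, fun x => abs_e_le x v0, ?_⟩
  have e1 : ∑ x ∈ C, ∑ y ∈ C.erase x, u ^ wt (x - y) =
      ∑ v : Wd n, (a ^ (n - wt v) * b ^ wt v) * S v := by
    rw [hS]
    simp only [Finset.mul_sum]
    rw [Finset.sum_comm]
    apply Finset.sum_congr rfl
    intro x _
    rw [Finset.sum_comm]
    apply Finset.sum_congr rfl
    intro y _
    have h1 := expand (x - y) a b
    rw [hab, hab', one_pow, one_mul] at h1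
    rw [huw, mul_pow, ← h1, Finset.sum_mul]
    apply Finset.sum_congr rfl
    intro v _
    rw [Sh6_e_sub]
    push_cast
    ring
  have hn1 : ‖a‖ + ‖b‖ ≤ 1 + ‖1 - w‖ := by
    have h1 : ‖a‖ ≤ 1 + ‖1 - w‖ / 2 := by
      have h2 : a = 1 - (1 - w) / 2 := by rw [ha]; ring
      rw [h2]
      refine (norm_sub_le _ _).trans ?_
      rw [norm_one, norm_div, Complex.norm_ofNat]
    have h3 : ‖b‖ = ‖1 - w‖ / 2 := by rw [hb, norm_div, Complex.norm_ofNat]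
    linarith
  rw [e1, ← hw]
  calc ‖∑ v : Wd n, (a ^ (n - wt v) * b ^ wt v) * S v‖
      ≤ ∑ v : Wd n, ‖(a ^ (n - wt v) * b ^ wt v) * S v‖ := norm_sum_le _ _
    _ ≤ ∑ v : Wd n, (‖a‖ ^ (n - wt v) * ‖b‖ ^ wt v) * ‖S v0‖ := by
        apply Finset.sum_le_sum
        intro v _
        rw [norm_mul, norm_mul, norm_pow, norm_pow]
        exact mul_le_mul_of_nonneg_left (hv0 v (mem_univ v)) (by positivity)
    _ = (‖a‖ + ‖b‖) ^ n * ‖S v0‖ := by rw [← Finset.sum_mul, Sh6_sum]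
    _ ≤ (1 + ‖1 - w‖) ^ n * ‖S v0‖ := by
        apply mul_le_mul_of_nonneg_right _ (norm_nonneg _)
        exact pow_le_pow_left₀ (by positivity) hn1 n
    _ = _ := by rw [hS]

end Pool.Agent.Lib.MP_0430e4_lc.AC
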