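import Pool.Agent.Lib.MP_0430e4_lc.AC.Sh5
import Pool.Agent.Lib.MP_0430e4_lc.AC.Sh6
import Pool.Agent.Lib.MP_0430e4_lc.AC.Sh7
import Pool.Agent.Lib.MP_0430e4_lc.AC.Sh10
import Pool.Agent.Lib.MP_0430e4_lc.AC.Main

/-!
Sh11 (SHELL51.md section 7 and assembly).
`tab_small`: for small `φ > 0` the table `kp (lamF φ r) φ r`, `r = a/(1+a)`, satisfies `TabOK` with
`G = 1 + 4φ` (all conditions are strict at `φ = 0` or identities: `eig`: `k00 + 2a k01 + a^2 k11 =`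
`lam (1+a)^2 + 4φ (r - a(1-r))^2 = lam (1+a)^2`; `le1`: `2a k01 ≤ k00 + a^2 k11` because
`2a ≤ 1+a^2`; `h2` at `φ = 0`: `8a(1+a^2) < (1+a)^4`; `h1` at `φ = 0`: the hypothesis).
`no_align_sh`: twist (Sh6), `sh_piece` (Sh5), translate `A` by `c` (`wt` and `KK` are functions of
`x - c`), `box_w` (Sh7), `MultS`, `small_sh` (Sh10): `pw n (-η1) ≤ pw n τ' lamF^n`: contradiction.
`rate_le_of_sh`: choose `m, j` with `0 < |m ψ - π j| ≤ φ0` (Dirichlet: `Real.exists_int_int_abs_mul_sub_le`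
for `ψ/π`, or pigeonhole; not 0 because `ψ/π` is irrational), then as in `Main.rate_le_of`.
-/

set_option autoImplicit false

open Finset

namespace Pool.Agent.Lib.MP_0430e4_lc.AC

open BY BY.Four

private theorem v0 : ((0 : ZMod 2).val : ℝ) = 0 := by simp

private theorem v1 : ((1 : ZMod 2).val : ℝ) = 1 := by
  have h : (1 : ZMod 2).val = 1 := rfl
  rw [h]; norm_num

theorem tab_small {a R : ℝ} (ha0 : 0 < a) (ha1 : a < 1)
    (hR1 : (2 : ℝ) ^ (1 - R) * a ^ (a / (1 + a)) < 1 + a) :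
    ∃ φ0 : ℝ, 0 < φ0 ∧ φ0 ≤ 1 / 4 ∧ ∀ φ : ℝ, 0 < φ → φ ≤ φ0 →
      TabOK a (lamF φ (a / (1 + a))) (1 + 4 * φ) R (kp (lamF φ (a / (1 + a))) φ (a / (1 + a))) := by
  set X : ℝ := (2 : ℝ) ^ (1 - R) * a ^ (a / (1 + a)) with hX
  have hX0 : 0 < X := by
    rw [hX]
    exact mul_pos (Real.rpow_pos_of_pos (by norm_num) _) (Real.rpow_pos_of_pos ha0 _)
  refine ⟨min (1 / 4) ((1 + a - X) / 20), lt_min (by norm_num) (by linarith), min_le_left _ _, ?_⟩
  intro φ hφ0 hφ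
  have hφ1 : φ ≤ 1 / 4 := hφ.trans (min_le_left _ _)
  have hφ2 : φ ≤ (1 + a - X) / 20 := hφ.trans (min_le_right _ _)
  set r : ℝ := a / (1 + a) with hr
  have h1a : 0 < 1 + a := by linarith
  have hr0 : 0 < r := div_pos ha0 h1a
  have hr1 : r < 1 := by rw [hr, div_lt_one h1a]; linarith
  have hra : a * (1 - r) = r := by
    rw [hr]; field_simp; ring
  have hrr : 0 ≤ r * (1 - r) := mul_nonneg hr0.le (by linarith)
  have hrr1 : r * (1 - r) ≤ 1 / 4 := by nlinarith [sq_nonneg (r - 1 / 2)]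
  have hv0 : 0 ≤ φ ^ 2 * r ^ 2 * (1 - r) ^ 2 := by positivity
  have hv1 : φ ^ 2 * r ^ 2 * (1 - r) ^ 2 ≤ φ := by
    have e1 : φ ^ 2 * r ^ 2 * (1 - r) ^ 2 = (φ * (r * (1 - r))) ^ 2 := by ring
    have e2 : φ * (r * (1 - r)) ≤ 1 := by nlinarith
    have e3 : φ * (r * (1 - r)) ≤ φ := by nlinarith
    have e4 : 0 ≤ φ * (r * (1 - r)) := mul_nonneg hφ0.le hrr
    rw [e1]; nlinarith
  have hlam1 : lamF φ r ≤ 1 := by unfold lamF; linarith
  have hlam0 : 1 - φ ≤ lamF φ r := by unfold lamF; linarith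
  have hlampos : 0 < lamF φ r := by linarith
  have g00 : kp (lamF φ r) φ r 0 0 = lamF φ r + 4 * φ * r ^ 2 := by
    unfold kp; rw [v0]; ring
  have g01 : kp (lamF φ r) φ r 0 1 = lamF φ r - 4 * φ * (r * (1 - r)) := by
    unfold kp; rw [v0, v1]; ring
  have g10 : kp (lamF φ r) φ r 1 0 = lamF φ r - 4 * φ * (r * (1 - r)) := by
    unfold kp; rw [v0, v1]; ring
  have g11 : kp (lamF φ r) φ r 1 1 = lamF φ r + 4 * φ * (1 - r) ^ 2 := by
    unfold kp; rw [v1]; ring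
  have heig : kp (lamF φ r) φ r 0 0 + 2 * a * kp (lamF φ r) φ r 0 1 +
      a ^ 2 * kp (lamF φ r) φ r 1 1 = lamF φ r * (1 + a) ^ 2 := by
    rw [g00, g01, g11]
    have e : lamF φ r + 4 * φ * r ^ 2 + 2 * a * (lamF φ r - 4 * φ * (r * (1 - r))) +
        a ^ 2 * (lamF φ r + 4 * φ * (1 - r) ^ 2) =
        lamF φ r * (1 + a) ^ 2 + 4 * φ * (r - a * (1 - r)) ^ 2 := by ring
    rw [e, hra]; ring
  have p01 : 0 ≤ kp (lamF φ r) φ r 0 1 := by rw [g01]; nlinarith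
  refine { a0 := ha0, a1 := ha1, lam0 := hlampos, lam1 := hlam1, sym := by rw [g01, g10], p00 := ?_,
           p01 := p01, p11 := ?_, G00 := ?_, G11 := ?_, eig := heig, le1 := ?_, h2 := ?_, h1 := ?_ }
  · rw [g00]; positivity
  · rw [g11]; positivity
  · rw [g00]
    have h1 : r ^ 2 ≤ 1 := pow_le_one₀ hr0.le hr1.le
    have h2 := mul_le_mul_of_nonneg_left h1 (by positivity : (0 : ℝ) ≤ 4 * φ)
    linarith
  · rw [g11]
    have h1 : (1 - r) ^ 2 ≤ 1 := pow_le_one₀ (by linarith) (by linarith)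
    have h2 := mul_le_mul_of_nonneg_left h1 (by positivity : (0 : ℝ) ≤ 4 * φ)
    linarith
  · rw [g00, g01, g11]
    have e1 : 0 ≤ 4 * φ * r ^ 2 := by positivity
    have e2 : 0 ≤ a ^ 2 * (4 * φ * (1 - r) ^ 2) := by positivity
    have e3 : 0 ≤ 2 * a * (4 * φ * (r * (1 - r))) := by positivity
    have e4 : 0 ≤ lamF φ r * (1 - a) ^ 2 := by positivity
    have e5 : lamF φ r + 4 * φ * r ^ 2 + a ^ 2 * (lamF φ r + 4 * φ * (1 - r) ^ 2) -
        2 * a * (lamF φ r - 4 * φ * (r * (1 - r))) = lamF φ r * (1 - a) ^ 2 + 4 * φ * r ^ 2 +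
        a ^ 2 * (4 * φ * (1 - r) ^ 2) + 2 * a * (4 * φ * (r * (1 - r))) := by ring
    linarith
  · have e1 : lamF φ r ^ 2 * (1 + a) ^ 4 = (lamF φ r * (1 + a) ^ 2) ^ 2 := by ring
    rw [e1, ← heig]
    nlinarith [sq_nonneg (kp (lamF φ r) φ r 0 0 + a ^ 2 * kp (lamF φ r) φ r 1 1 -
      2 * a * kp (lamF φ r) φ r 0 1)]
  · rw [mul_assoc, ← hX]
    have e1 : (1 - φ) * (1 + a) ≤ lamF φ r * (1 + a) := mul_le_mul_of_nonneg_right hlam0 h1a.le
    refine lt_of_lt_of_le ?_ e1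
    have e2 : 1 + a + 4 * X ≤ 10 := by linarith
    have e3 : φ * (1 + a + 4 * X) ≤ φ * 10 := mul_le_mul_of_nonneg_left e2 hφ0.le
    have e4 : (1 + 4 * φ) * X - (1 - φ) * (1 + a) = φ * (1 + a + 4 * X) - (1 + a - X) := by ring
    linarith

private theorem norm_tw {p τ : ℝ} (hp : 0 < p) {u z1 : ℂ} (hz : ‖z1‖ = p) (hu : ‖u - z1‖ ≤ τ) :
    ‖1 - u / z1‖ ≤ τ / p ∧ p - τ ≤ ‖u‖ := by
  have hz1 : z1 ≠ 0 := by
    intro h
    rw [h, norm_zero] at hz
    linarith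
  constructor
  · have h1 : 1 - u / z1 = (z1 - u) / z1 := by
      rw [sub_div, div_self hz1]
    rw [h1, norm_div, hz, norm_sub_rev]
    exact div_le_div_of_nonneg_right hu hp.le
  · have h1 : ‖z1‖ ≤ ‖u‖ + ‖u - z1‖ := by
      have h2 : z1 = u - (u - z1) := by ring
      calc ‖z1‖ = ‖u - (u - z1)‖ := by rw [← h2]
        _ ≤ ‖u‖ + ‖u - z1‖ := norm_sub_le _ _
    linarith

private theorem small_tau {p τ1 : ℝ} (hp : 0 < p) (h1 : 0 < τ1) :
    ∃ τ : ℝ, 0 < τ ∧ τ ≤ τ1 ∧ τ ≤ p ∧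
      (2 : ℝ) ^ (-τ1) * (1 + p) * (1 + τ / p) ≤ (2 : ℝ) ^ (-τ) * (1 + (p - τ)) := by
  have hcont : ContinuousAt (fun τ : ℝ => (2 : ℝ) ^ (-τ) * (1 + (p - τ)) -
      (2 : ℝ) ^ (-τ1) * (1 + p) * (1 + τ / p)) 0 := by
    apply ContinuousAt.sub
    · apply ContinuousAt.mul
      · apply ContinuousAt.rpow continuousAt_const (by fun_prop)
        left; norm_num
      · fun_prop
    · fun_prop
  have h0 : 0 < (fun τ : ℝ => (2 : ℝ) ^ (-τ) * (1 + (p - τ)) -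
      (2 : ℝ) ^ (-τ1) * (1 + p) * (1 + τ / p)) 0 := by
    simp only [neg_zero, Real.rpow_zero, sub_zero, zero_div, add_zero, mul_one, one_mul]
    have e1 : (2 : ℝ) ^ (-τ1) < 1 := by
      apply Real.rpow_lt_one_of_one_lt_of_neg (by norm_num)
      linarith
    nlinarith
  have h2 := hcont.eventually_const_lt h0
  obtain ⟨ρ, hρ, h3⟩ := Metric.eventually_nhds_iff.mp h2
  refine ⟨min (ρ / 2) (min τ1 p), lt_min (by positivity) (lt_min h1 hp),
    (min_le_right _ _).trans (min_le_left _ _), (min_le_right _ _).trans (min_le_right _ _), ?_⟩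
  have h4 := h3 (y := min (ρ / 2) (min τ1 p)) (by
    rw [Real.dist_eq, sub_zero, abs_of_pos (lt_min (by positivity) (lt_min h1 hp))]
    have := min_le_left (ρ / 2) (min τ1 p); linarith)
  linarith

theorem no_align_sh (hM : MultS) {a R φ ψ : ℝ} {m : ℕ} {j : ℤ} (hφ0 : 0 < φ) (hφ1 : φ ≤ 1 / 4)
    (hφ : |(m : ℝ) * ψ - Real.pi * j| = φ)
    (hR1 : (2 : ℝ) ^ (1 - R) * a ^ (a / (1 + a)) < 1 + a)
    (hT : TabOK a (lamF φ (a / (1 + a))) (1 + 4 * φ) R (kp (lamF φ (a / (1 + a))) φ (a / (1 + a)))) :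
    ∃ τ : ℝ, 0 < τ ∧ ∃ n0 : ℕ, ∀ n ≥ n0, ∀ C : Finset (Wd n), pw n R ≤ C.card → Typ C τ →
      ∀ u : ℂ, ‖u - ((2 * a / (1 + a ^ 2) : ℝ) : ℂ) * ph ψ‖ ≤ τ → ¬ AmpO C τ u := by
  have ha0 := hT.a0
  have ha1 := hT.a1
  have hlam0 := hT.lam0
  set r : ℝ := a / (1 + a) with hr
  have h1a : 0 < 1 + a := by linarith
  have hr0 : 0 < r := div_pos ha0 h1a
  have hr1 : r < 1 := by rw [hr, div_lt_one h1a]; linarith
  set lam : ℝ := lamF φ r with hlam
  have hlamlt : lam < 1 := by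
    rw [hlam]; unfold lamF
    have : 0 < φ ^ 2 * r ^ 2 * (1 - r) ^ 2 := by
      have : 0 < 1 - r := by linarith
      positivity
    linarith
  set p : ℝ := 2 * a / (1 + a ^ 2) with hp
  have hp0 : 0 < p := by rw [hp]; positivity
  set g : ℝ := -Real.logb 2 lam with hg
  have hg0 : 0 < g := by
    have := Real.logb_neg (b := 2) (by norm_num) hlam0 hlamlt
    linarith
  have hlamn : ∀ n : ℕ, lam ^ n = pw n (-g) := by
    intro n
    unfold pw
    rw [hg, neg_neg]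
    rw [Real.rpow_mul (by norm_num), Real.rpow_logb (by norm_num) (by norm_num) hlam0,
      Real.rpow_natCast]
  obtain ⟨τM, hτM, nM, hM⟩ := hM m (g / 4) (by positivity)
  set τ' : ℝ := min (g / 4) (τM / 4) with hτ'
  have hτ'0 : 0 < τ' := lt_min (by positivity) (by positivity)
  obtain ⟨τ1, hτ1, n1, hP⟩ := sh_piece hT hR1 ψ hτ'0
  obtain ⟨τ, hτ, hττ1, hτp, hτc⟩ := small_tau hp0 hτ1
  refine ⟨τ, hτ, max (max nM n1) 1, ?_⟩
  intro n hn C hC hTyp u hu hAmp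
  have hn1 : nM ≤ n := (le_max_left _ _).trans ((le_max_left _ _).trans hn)
  have hn2 : n1 ≤ n := (le_max_right _ _).trans ((le_max_left _ _).trans hn)
  have hn3 : 1 ≤ n := (le_max_right _ _).trans hn
  set z1 : ℂ := ((p : ℝ) : ℂ) * ph ψ with hz1
  have hnz : ‖z1‖ = p := by
    rw [hz1, norm_mul, norm_ph, mul_one, Complex.norm_real, Real.norm_eq_abs, abs_of_pos hp0]
  have hz1ne : z1 ≠ 0 := by
    intro h
    rw [h, norm_zero] at hnz
    linarith
  obtain ⟨hw1, hw2⟩ := norm_tw hp0 hnz hu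
  obtain ⟨f, hf, htw⟩ := twist C u z1 hz1ne
  have hTyp1 : Typ C τ1 := by
    intro w hw1 hw2
    refine (hTyp w hw1 hw2).trans ?_
    apply mul_le_mul_of_nonneg_right _ (Nat.cast_nonneg _)
    apply mul_le_mul_of_nonneg_left _ (sq_nonneg _)
    exact pw_mono n (by linarith)
  have hpwn : ∀ x : ℝ, pw n x = ((2 : ℝ) ^ x) ^ n := by
    intro x
    unfold pw
    rw [Real.rpow_mul (by norm_num), Real.rpow_natCast]
  have hq0 : 0 < 1 + τ / p := by positivity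
  have hamp : pw n (-τ1) * ((C.card : ℝ) ^ 2 * pw n (-1) * (1 + p) ^ n) ≤
      ‖∑ x ∈ C, ∑ y ∈ C.erase x, (f x : ℂ) * (f y : ℂ) * z1 ^ wt (x - y)‖ := by
    unfold AmpO at hAmp
    have h1 : (C.card : ℝ) ^ 2 * pw n (-1 - τ) * (1 + ‖u‖) ^ n ≤ (1 + τ / p) ^ n *
        ‖∑ x ∈ C, ∑ y ∈ C.erase x, (f x : ℂ) * (f y : ℂ) * z1 ^ wt (x - y)‖ := by
      refine hAmp.trans (htw.trans ?_)
      apply mul_le_mul_of_nonneg_right _ (norm_nonneg _)
      apply pow_le_pow_left₀ (by positivity)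
      linarith
    have h2 : (1 + τ / p) ^ n * (pw n (-τ1) * ((C.card : ℝ) ^ 2 * pw n (-1) * (1 + p) ^ n)) ≤
        (C.card : ℝ) ^ 2 * pw n (-1 - τ) * (1 + ‖u‖) ^ n := by
      have e1 : (1 + τ / p) ^ n * (pw n (-τ1) * ((C.card : ℝ) ^ 2 * pw n (-1) * (1 + p) ^ n)) =
          (C.card : ℝ) ^ 2 * pw n (-1) * ((2 : ℝ) ^ (-τ1) * (1 + p) * (1 + τ / p)) ^ n := by
        rw [hpwn (-τ1), mul_pow, mul_pow]; ring
      have e2 : (C.card : ℝ) ^ 2 * pw n (-1 - τ) * (1 + ‖u‖) ^ n =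
          (C.card : ℝ) ^ 2 * pw n (-1) * ((2 : ℝ) ^ (-τ) * (1 + ‖u‖)) ^ n := by
        rw [sub_eq_add_neg, pw_add, hpwn (-τ), mul_pow]; ring
      rw [e1, e2]
      apply mul_le_mul_of_nonneg_left _ (mul_nonneg (sq_nonneg _) (pw_pos n _).le)
      apply pow_le_pow_left₀ (by positivity)
      refine hτc.trans ?_
      apply mul_le_mul_of_nonneg_left _ (Real.rpow_pos_of_pos (by norm_num) _).le
      linarith
    exact le_of_mul_le_mul_left (h2.trans h1) (by positivity)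
  obtain ⟨c, A, h, hAC, hAne, hh, hA1, hA2⟩ := hP n hn2 C hC hTyp1 f hf hamp
  -- translate
  set A' : Finset (Wd n) := A.image (fun x => x - c) with hA'
  have hinj : Function.Injective (fun x : Wd n => x - c) := fun x y hxy => sub_left_injective hxy
  have hcardA' : A'.card = A.card := Finset.card_image_of_injective _ hinj
  have hcard : ((A'.image lz).card : ℝ) = A.card := by
    rw [Finset.card_image_of_injective _ lz_inj, hcardA']
  have ha : (0 : ℝ) < A.card := by exact_mod_cast hAne.card_pos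
  have hS1 : ∑ x ∈ A', ∑ y ∈ A', ((h (x + c) : ℝ) : ℂ) * ((h (y + c) : ℝ) : ℂ) *
      ph (ψ * (wt (x - y) : ℝ)) =
      ∑ x ∈ A, ∑ y ∈ A, (h x : ℂ) * (h y : ℂ) * ph (ψ * (wt (x - y) : ℝ)) := by
    rw [hA', Finset.sum_image (fun x _ y _ hxy => hinj hxy)]
    apply Finset.sum_congr rfl; intro x _
    rw [Finset.sum_image (fun x _ y _ hxy => hinj hxy)]
    apply Finset.sum_congr rfl; intro y _
    rw [sub_add_cancel, sub_add_cancel, sub_sub_sub_cancel_right]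
  have hS2 : ∑ x ∈ A', ∑ y ∈ A', KK (kp lam φ r) x y =
      ∑ x ∈ A, ∑ y ∈ A, KK (kp lam φ r) (x - c) (y - c) := by
    rw [hA', Finset.sum_image (fun x _ y _ hxy => hinj hxy)]
    apply Finset.sum_congr rfl; intro x _
    rw [Finset.sum_image (fun x _ y _ hxy => hinj hxy)]
  have hb := box_w A' (fun x => ((h (x + c) : ℝ) : ℂ)) (fun x => ((h (x + c) : ℝ) : ℂ))
    (fun x => by rw [Complex.norm_real]; exact hh _) (fun x => by rw [Complex.norm_real]; exact hh _) ψ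
  rw [hS1, hcardA'] at hb
  have hbox1 : pw n (-τM) * ((A'.image lz).card : ℝ) ^ 4 ≤ Box (A'.image lz) (2 * ψ) := by
    rw [hcard]
    have h2 := (pow_le_pow_left₀ (mul_nonneg (pw_pos n _).le (sq_nonneg _)) hA1 4).trans hb
    have h3 : (pw n (-τ') * (A.card : ℝ) ^ 2) ^ 4 =
        (A.card : ℝ) ^ 4 * (pw n (4 * -τ') * (A.card : ℝ) ^ 4) := by
      rw [mul_pow, pw_pow]
      push_cast
      ring
    rw [h3] at h2
    have h4 := le_of_mul_le_mul_left h2 (by positivity)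
    refine le_trans ?_ h4
    apply mul_le_mul_of_nonneg_right _ (by positivity)
    apply pw_mono
    have := min_le_right (g / 4) (τM / 4)
    linarith
  have hbox2 := hM n hn1 (A'.image lz) ((hAne.image _).image _) (by
    intro x hx i
    obtain ⟨x', _, rfl⟩ := Finset.mem_image.mp hx
    exact lz_01M x' i) (2 * ψ) hbox1
  have hbox3 : Box (A'.image lz) (m * (2 * ψ)) = Box (A'.image lz) (2 * φ) := by
    have h1 : m * (2 * ψ) = 2 * (m * ψ - Real.pi * j) + 2 * Real.pi * j := by ring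
    rw [h1, Box_period]
    rcases abs_choice (m * ψ - Real.pi * j) with h | h
    · rw [← hφ, h]
    · rw [← Box_negM]
      congr 1
      rw [← hφ, h]; ring
  rw [hbox3, hcard] at hbox2
  have hsm := small_sh hφ0 hφ1 hr0 hr1 A'
  rw [← hlam, hS2, hcardA'] at hsm
  have hkey : pw n (-(g / 4)) * (A.card : ℝ) ^ 4 ≤ (A.card : ℝ) ^ 4 * (pw n (-g) * pw n τ') := by
    refine hbox2.trans (hsm.trans ?_)
    calc (A.card : ℝ) ^ 2 * ∑ x ∈ A, ∑ y ∈ A, KK (kp lam φ r) (x - c) (y - c)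
        ≤ (A.card : ℝ) ^ 2 * (pw n τ' * lam ^ n * (A.card : ℝ) ^ 2) :=
          mul_le_mul_of_nonneg_left hA2 (sq_nonneg _)
      _ = _ := by rw [hlamn]; ring
  have hkey2 : pw n (-(g / 4)) ≤ pw n (-g) * pw n τ' := by
    rw [mul_comm] at hkey
    exact le_of_mul_le_mul_left hkey (by positivity)
  have hfin : pw n (-(g / 4)) ≤ pw n (-(3 * g / 4)) := by
    calc pw n (-(g / 4)) ≤ pw n (-g) * pw n τ' := hkey2
      _ ≤ pw n (-g) * pw n (g / 4) :=
          mul_le_mul_of_nonneg_left (pw_mono n (min_le_left _ _)) (pw_pos n _).le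
      _ = pw n (-(3 * g / 4)) := by rw [← pw_add]; congr 1; ring
  have hn' : (1 : ℝ) ≤ n := by exact_mod_cast hn3
  have hlt : pw n (-(3 * g / 4)) < pw n (-(g / 4)) := by
    unfold pw
    apply Real.rpow_lt_rpow_of_exponent_lt (by norm_num)
    have h5 : 0 < g * n := mul_pos hg0 (by linarith)
    linarith
  linarith

/-- `R(δ) < L(δ)` from `MultS`, `TypD`, `ForcedO` -/
theorem rate_le_of_sh (hM : MultS) {δ L : ℝ} (hT : TypD δ L) (hF : ForcedO δ L) :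
    ∃ ε : ℝ, 0 < ε ∧ Rr δ ≤ L - ε := by
  obtain ⟨a, ψ, ha0, ha1, hirr, hcond, hF⟩ := hF
  have hπ := Real.pi_pos
  obtain ⟨θ, hθ0, hθc⟩ : ∃ θ : ℝ, 0 < θ ∧
      (2 : ℝ) ^ (1 - (L - θ)) * a ^ (a / (1 + a)) < 1 + a := by
    have hcont : ContinuousAt (fun θ : ℝ => (2 : ℝ) ^ (1 - (L - θ)) * a ^ (a / (1 + a))) 0 := by
      apply ContinuousAt.mul _ continuousAt_const
      apply ContinuousAt.rpow continuousAt_const (by fun_prop)
      left; norm_num
    have h0 : (fun θ : ℝ => (2 : ℝ) ^ (1 - (L - θ)) * a ^ (a / (1 + a))) 0 < 1 + a := by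
      simp only [sub_zero]
      exact hcond
    have h1 := hcont.eventually_lt_const h0
    obtain ⟨r, hr, h2⟩ := Metric.eventually_nhds_iff.mp h1
    refine ⟨r / 2, by positivity, ?_⟩
    apply h2
    rw [Real.dist_eq, sub_zero, abs_of_pos (by positivity)]
    linarith
  obtain ⟨φ0, hφ00, hφ04, htab⟩ := tab_small (R := L - θ) ha0 ha1 hθc
  -- Dirichlet
  obtain ⟨N, hN⟩ := exists_nat_gt (Real.pi / φ0)
  obtain ⟨m, hm0, -, hm⟩ := Real.exists_nat_abs_mul_sub_round_le (ψ / Real.pi) (n := N + 1) (by omega)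
  set j : ℤ := round ((m : ℝ) * (ψ / Real.pi)) with hj
  set φ : ℝ := |(m : ℝ) * ψ - Real.pi * j| with hφ
  have hφpos : 0 < φ := by
    rw [hφ, abs_pos, sub_ne_zero]
    exact hirr m j hm0
  have hφle : φ ≤ φ0 := by
    have h1 : (m : ℝ) * ψ - Real.pi * j = Real.pi * ((m : ℝ) * (ψ / Real.pi) - j) := by
      field_simp
    rw [hφ, h1, abs_mul, abs_of_pos hπ]
    have h2 : (0 : ℝ) < ((N + 1 : ℕ) : ℝ) + 1 := by positivity
    have h3 : Real.pi < φ0 * (((N + 1 : ℕ) : ℝ) + 1) := by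
      rw [div_lt_iff₀ hφ00] at hN
      push_cast
      nlinarith
    calc Real.pi * |(m : ℝ) * (ψ / Real.pi) - j| ≤ Real.pi * (1 / (((N + 1 : ℕ) : ℝ) + 1)) :=
          mul_le_mul_of_nonneg_left hm hπ.le
      _ ≤ φ0 := by
          rw [mul_one_div, div_le_iff₀ h2]
          exact h3.le
  obtain ⟨τ, hτ, n1, hNA⟩ := no_align_sh hM (m := m) (j := j) (ψ := ψ) hφpos (hφle.trans hφ04) rfl
    hθc (htab φ hφpos hφle)
  obtain ⟨ε2, hε2, n2, hF⟩ := hF τ hτ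
  obtain ⟨n3, hT⟩ := hT (τ / 2) (by positivity)
  set ε : ℝ := min ε2 (min θ (τ / 2)) with hε
  have hε0 : 0 < ε := lt_min hε2 (lt_min hθ0 (by positivity))
  have hεa : ε ≤ ε2 := min_le_left _ _
  have hεb : ε ≤ θ := (min_le_right _ _).trans (min_le_left _ _)
  have hεc : ε ≤ τ / 2 := (min_le_right _ _).trans (min_le_right _ _)
  refine ⟨ε, hε0, Rr_le_of ⟨max n1 (max n2 n3), ?_⟩⟩
  intro n hn C hC
  have hn1 : n1 ≤ n := (le_max_left _ _).trans hn
  have hn2 : n2 ≤ n := (le_max_left _ _).trans ((le_max_right _ _).trans hn)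
  have hn3 : n3 ≤ n := (le_max_right _ _).trans ((le_max_right _ _).trans hn)
  by_contra hcon
  push Not at hcon
  have hc1 : pw n (L - ε2) ≤ C.card := (pw_mono n (by linarith)).trans hcon
  have hc2 : pw n (L - θ) ≤ C.card := (pw_mono n (by linarith)).trans hcon
  have hTyp : Typ C τ := by
    intro w hw1 hw2
    refine (hT n hn3 C hC w hw1 hw2).trans ?_
    apply mul_le_mul_of_nonneg_right _ (Nat.cast_nonneg _)
    rw [sq, mul_assoc]
    apply mul_le_mul_of_nonneg_left _ (Nat.cast_nonneg _)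
    calc pw n (L - 1 + τ / 2) ≤ pw n ((L - ε) + (τ - 1)) := pw_mono n (by linarith)
      _ = pw n (L - ε) * pw n (τ - 1) := pw_add _ _ _
      _ ≤ C.card * pw n (τ - 1) := mul_le_mul_of_nonneg_right hcon (pw_pos n _).le
  obtain ⟨u, hu, hA⟩ := hF n hn2 C hC hc1
  exact hNA n hn1 C hc2 hTyp u hu hA

end Pool.Agent.Lib.MP_0430e4_lc.AC
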