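import Pool.Agent.Lib.MP_0430e4_lc.AC.ShD

/-!
Sh2 (SHELL51.md section 2, OFF): off-diagonal sums of `s^|x-y|`.
PROOF. The left side is `∑_{w=1}^{n} nP C w * s^w` (`Four.nP_sum` with `f w = s^w`, the pairs with
`x = y` are exactly those of distance 0, `Four.nP_zero`). For `2w ≤ n` use `Typ`:
`nP C w ≤ M^2 pw n (τ-1) choose n w`, and `∑_w choose n w s^w = (1+s)^n`. For `2w > n`:
`s^w = (sqrt s)^(2w) ≤ (sqrt s)^n`, and `∑_w nP C w = M^2` (`Four.nP_total`).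
-/

set_option autoImplicit false

open Finset

namespace Pool.Agent.Lib.MP_0430e4_lc.AC

open BY BY.Four

variable {n : ℕ}

private theorem off_eq (C : Finset (Wd n)) (f : ℕ → ℝ) :
    ∑ x ∈ C, ∑ y ∈ C.erase x, f (wt (x - y)) =
      ∑ w ∈ range n, (nP C (w + 1) : ℝ) * f (w + 1) := by
  have h1 : ∀ x ∈ C, ∑ y ∈ C.erase x, f (wt (x - y)) = ∑ y ∈ C, f (wt (x - y)) - f 0 := by
    intro x hx
    have h2 := Finset.sum_erase_add C (fun y => f (wt (x - y))) hx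
    have h3 : wt (x - x) = 0 := by
      rw [sub_self]
      exact hammingNorm_zero
    simp only [h3] at h2
    linarith
  rw [Finset.sum_congr rfl h1, Finset.sum_sub_distrib, nP_sum C f, Finset.sum_range_succ',
    nP_zero, Finset.sum_const]
  simp only [nsmul_eq_mul]
  ring

theorem off_sum {C : Finset (Wd n)} {τ : ℝ} (hT : Typ C τ) {s : ℝ} (h0 : 0 ≤ s) (h1 : s ≤ 1) :
    ∑ x ∈ C, ∑ y ∈ C.erase x, s ^ wt (x - y) ≤
      (C.card : ℝ) ^ 2 * pw n (τ - 1) * (1 + s) ^ n + (C.card : ℝ) ^ 2 * Real.sqrt s ^ n := by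
  rw [off_eq C (fun w => s ^ w)]
  have hs0 : 0 ≤ Real.sqrt s := Real.sqrt_nonneg s
  have hs1 : Real.sqrt s ≤ 1 := by
    rw [← Real.sqrt_one]
    exact Real.sqrt_le_sqrt h1
  have hp : 0 ≤ pw n (τ - 1) := (pw_pos n _).le
  have hA : 0 ≤ (C.card : ℝ) ^ 2 * pw n (τ - 1) := by positivity
  have key : ∀ w ∈ range n, (nP C (w + 1) : ℝ) * s ^ (w + 1) ≤
      (C.card : ℝ) ^ 2 * pw n (τ - 1) * (s ^ (w + 1) * (n.choose (w + 1) : ℝ)) +
        (nP C (w + 1) : ℝ) * Real.sqrt s ^ n := by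
    intro w _
    have hsp : 0 ≤ s ^ (w + 1) := pow_nonneg h0 _
    have hn0 : (0 : ℝ) ≤ (nP C (w + 1) : ℝ) := Nat.cast_nonneg _
    have hc0 : (0 : ℝ) ≤ (n.choose (w + 1) : ℝ) := Nat.cast_nonneg _
    by_cases hw : 2 * (w + 1) ≤ n
    · have h2 := hT (w + 1) (by omega) hw
      have h3 : (nP C (w + 1) : ℝ) * s ^ (w + 1) ≤
          ((C.card : ℝ) ^ 2 * pw n (τ - 1) * n.choose (w + 1)) * s ^ (w + 1) :=
        mul_le_mul_of_nonneg_right h2 hsp
      have h4 : 0 ≤ (nP C (w + 1) : ℝ) * Real.sqrt s ^ n := mul_nonneg hn0 (pow_nonneg hs0 _)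
      calc (nP C (w + 1) : ℝ) * s ^ (w + 1)
          ≤ ((C.card : ℝ) ^ 2 * pw n (τ - 1) * n.choose (w + 1)) * s ^ (w + 1) := h3
        _ = (C.card : ℝ) ^ 2 * pw n (τ - 1) * (s ^ (w + 1) * (n.choose (w + 1) : ℝ)) := by ring
        _ ≤ _ := le_add_of_nonneg_right h4
    · have h2 : s ^ (w + 1) ≤ Real.sqrt s ^ n := by
        have h3 : s ^ (w + 1) = Real.sqrt s ^ (2 * (w + 1)) := by
          rw [pow_mul, Real.sq_sqrt h0]
        rw [h3]
        exact pow_le_pow_of_le_one hs0 hs1 (by omega)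
      have h4 : 0 ≤ (C.card : ℝ) ^ 2 * pw n (τ - 1) * (s ^ (w + 1) * (n.choose (w + 1) : ℝ)) :=
        mul_nonneg hA (mul_nonneg hsp hc0)
      exact (mul_le_mul_of_nonneg_left h2 hn0).trans (le_add_of_nonneg_left h4)
  refine (Finset.sum_le_sum key).trans ?_
  rw [Finset.sum_add_distrib, ← Finset.mul_sum, ← Finset.sum_mul]
  refine add_le_add ?_ ?_
  · refine mul_le_mul_of_nonneg_left ?_ hA
    have h2 : (1 + s) ^ n = ∑ w ∈ range (n + 1), s ^ w * (n.choose w : ℝ) := by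
      rw [add_comm, add_pow]
      refine Finset.sum_congr rfl fun w _ => ?_
      rw [one_pow, mul_one]
    rw [h2, Finset.sum_range_succ']
    have h3 : (0 : ℝ) ≤ s ^ 0 * (n.choose 0 : ℝ) := by simp
    exact le_add_of_nonneg_right h3
  · refine mul_le_mul_of_nonneg_right ?_ (pow_nonneg hs0 _)
    have h2 : ((∑ w ∈ range (n + 1), nP C w : ℕ) : ℝ) = (C.card : ℝ) ^ 2 := by
      rw [nP_total]
      push_cast
      ring
    rw [Nat.cast_sum, Finset.sum_range_succ'] at h2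
    rw [← h2]
    exact le_add_of_nonneg_right (Nat.cast_nonneg _)

/-- the form used for `(A)^(n-d) B^d` with `B ≤ A`: `A (1 + B/A) = A + B`, `A sqrt (B/A) = sqrt (A B)` -/
theorem off_sum2 {C : Finset (Wd n)} {τ : ℝ} (hT : Typ C τ) {A B : ℝ} (hA : 0 < A) (hB : 0 ≤ B)
    (hBA : B ≤ A) :
    ∑ x ∈ C, ∑ y ∈ C.erase x, A ^ (n - wt (x - y)) * B ^ wt (x - y) ≤
      (C.card : ℝ) ^ 2 * pw n (τ - 1) * (A + B) ^ n + (C.card : ℝ) ^ 2 * Real.sqrt (A * B) ^ n := by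
  have h0 : 0 ≤ B / A := div_nonneg hB hA.le
  have h1 : B / A ≤ 1 := (div_le_one hA).2 hBA
  have h := off_sum hT h0 h1
  have e1 : ∀ x y : Wd n, A ^ (n - wt (x - y)) * B ^ wt (x - y) =
      A ^ n * (B / A) ^ wt (x - y) := by
    intro x y
    have hle : wt (x - y) ≤ n := wt_le _
    rw [div_pow]
    have h2 : A ^ n = A ^ (n - wt (x - y)) * A ^ wt (x - y) := by
      rw [← pow_add]
      congr 1
      omega
    have h3 : A ^ wt (x - y) ≠ 0 := pow_ne_zero _ hA.ne'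
    rw [h2]
    field_simp
  have e2 : ∑ x ∈ C, ∑ y ∈ C.erase x, A ^ (n - wt (x - y)) * B ^ wt (x - y) =
      A ^ n * ∑ x ∈ C, ∑ y ∈ C.erase x, (B / A) ^ wt (x - y) := by
    rw [Finset.mul_sum]
    refine Finset.sum_congr rfl fun x _ => ?_
    rw [Finset.mul_sum]
    exact Finset.sum_congr rfl fun y _ => e1 x y
  have e3 : A ^ n * (1 + B / A) ^ n = (A + B) ^ n := by
    rw [← mul_pow]
    congr 1
    field_simp
  have e4 : A ^ n * Real.sqrt (B / A) ^ n = Real.sqrt (A * B) ^ n := by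
    rw [← mul_pow]
    congr 1
    rw [show A * B = A ^ 2 * (B / A) by field_simp, Real.sqrt_mul (sq_nonneg A),
      Real.sqrt_sq hA.le]
  rw [e2]
  calc A ^ n * ∑ x ∈ C, ∑ y ∈ C.erase x, (B / A) ^ wt (x - y)
      ≤ A ^ n * ((C.card : ℝ) ^ 2 * pw n (τ - 1) * (1 + B / A) ^ n +
          (C.card : ℝ) ^ 2 * Real.sqrt (B / A) ^ n) :=
        mul_le_mul_of_nonneg_left h (pow_nonneg hA.le _)
    _ = (C.card : ℝ) ^ 2 * pw n (τ - 1) * (A ^ n * (1 + B / A) ^ n) +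
          (C.card : ℝ) ^ 2 * (A ^ n * Real.sqrt (B / A) ^ n) := by ring
    _ = _ := by rw [e3, e4]

end Pool.Agent.Lib.MP_0430e4_lc.AC
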