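import Pool.Agent.Lib.MP_0430e4_lc.AC.Sh1
import Pool.Agent.Lib.MP_0430e4_lc.AC.Sh2

/-!
Sh3 (SHELL51.md section 3): leaving the window costs nothing for pairs `x ≠ y`.
PROOF. `r = a/(1+a) ≤ 1/2`. If `x` is not in the window of `c`, then with `s = η`, `w = wt (x-c)`:
`1 ≤ exp (s (w - (r+η) n)) + exp (-s (w - (r-η) n))`. So the left side is at most `U(s) + U(-s)`,
`U(σ) = exp (-σ r n - |σ| η n) ∑_{x≠y} ∑_c (a e^σ)^wt(x-c) a^wt(y-c)`
  `= exp (-σ r n - |σ| η n) ∑_{x≠y} (1 + a^2 e^σ)^(n-d) (a e^σ + a)^d` (`centre_one`)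
and by `off_sum2` (`a e^σ + a ≤ 1 + a^2 e^σ` iff `a e^σ ≤ 1`: true for `η ≤ η0`)
  `≤ exp (..) M^2 [ pw n (τ-1) ((1+a e^σ)(1+a))^n + sqrt ((1+a^2 e^σ)(a e^σ+a))^n ]`.
First part: `(1 + a e^σ) = (1+a)(1 - r + r e^σ) ≤ (1+a) exp (r (e^σ - 1)) ≤ (1+a) exp (r (σ + σ^2))`
for `|σ| ≤ 1`, so the factor per coordinate is `(1+a)^2 exp (r σ^2 - |σ| η) ≤ (1+a)^2 exp (-η^2/2)`.
Second part: `(1+a^2 e^σ)(a e^σ + a) ≤ e^(2η) (1+a^2) 2a` and `e^(-σ r) ≤ e^η`, `2^n sqrt(..)^n <=`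
`(e^(2η) sqrt (8a(1+a^2)))^n`, where `8a(1+a^2) = (1+a)^4 - (1-a)^4 < (1+a)^4`: so for `η ≤ η0(a)`
it is at most `((1+a)^2 q)^n` with `q < 1` fixed. Take `γ` with `2^(-γ) ≥ exp (-η^2/2)`, `≥ q`.
-/

set_option autoImplicit false

open Finset

namespace Pool.Agent.Lib.MP_0430e4_lc.AC

open BY BY.Four

private theorem Sh3_pt {w r η N : ℝ} (hη : 0 < η) (h : ¬ |w - r * N| ≤ η * N) :
    1 ≤ Real.exp (η * w) * Real.exp (-(η * r + η ^ 2) * N) +
      Real.exp (-η * w) * Real.exp (-(-η * r + η ^ 2) * N) := by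
  rw [← Real.exp_add, ← Real.exp_add]
  rw [abs_le, not_and_or, not_le, not_le] at h
  rcases h with h | h
  · have h1 : 0 ≤ -η * w + -(-η * r + η ^ 2) * N := by nlinarith
    have h2 := Real.one_le_exp h1
    have h3 := (Real.exp_pos (η * w + -(η * r + η ^ 2) * N)).le
    linarith
  · have h1 : 0 ≤ η * w + -(η * r + η ^ 2) * N := by nlinarith
    have h2 := Real.one_le_exp h1
    have h3 := (Real.exp_pos (-η * w + -(-η * r + η ^ 2) * N)).le
    linarith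

private theorem Sh3_pow (a σ : ℝ) (w : ℕ) :
    Real.exp (σ * w) * a ^ w = (a * Real.exp σ) ^ w := by
  rw [mul_pow, ← Real.exp_nat_mul, mul_comm, mul_comm (w : ℝ) σ]

private theorem Sh3_pair {n : ℕ} {a r η : ℝ} (ha0 : 0 < a) (hη : 0 < η) (x y : Wd n) :
    ∑ c ∈ (univ : Finset (Wd n)).filter (fun c => ¬ |(wt (x - c) : ℝ) - r * n| ≤ η * n),
      a ^ wt (x - c) * a ^ wt (y - c) ≤
    Real.exp (-(η * r + η ^ 2) * n) *
      ((1 + a * Real.exp η * a) ^ (n - wt (x - y)) * (a * Real.exp η + a) ^ wt (x - y)) +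
    Real.exp (-(-η * r + η ^ 2) * n) *
      ((1 + a * Real.exp (-η) * a) ^ (n - wt (x - y)) *
        (a * Real.exp (-η) + a) ^ wt (x - y)) := by
  rw [← centre_one x y (a * Real.exp η) a, ← centre_one x y (a * Real.exp (-η)) a, mul_sum,
    mul_sum, ← sum_add_distrib]
  have h1 : ∀ c : Wd n, 0 ≤ Real.exp (-(η * r + η ^ 2) * n) *
      ((a * Real.exp η) ^ wt (x - c) * a ^ wt (y - c)) +
      Real.exp (-(-η * r + η ^ 2) * n) *
      ((a * Real.exp (-η)) ^ wt (x - c) * a ^ wt (y - c)) := by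
    intro c
    positivity
  refine (sum_le_sum fun c hc => ?_).trans
    (sum_le_sum_of_subset_of_nonneg (filter_subset _ _) fun c _ _ => h1 c)
  rw [mem_filter] at hc
  have h2 := Sh3_pt hη hc.2
  have h3 : 0 ≤ a ^ wt (x - c) * a ^ wt (y - c) := by positivity
  have h4 := mul_le_mul_of_nonneg_right h2 h3
  rw [one_mul] at h4
  refine h4.trans (le_of_eq ?_)
  rw [← Sh3_pow a η, ← Sh3_pow a (-η)]
  ring

private theorem Sh3_b1 {a σ : ℝ} (ha0 : 0 < a) (h1 : |σ| ≤ 1) :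
    1 + a * Real.exp σ ≤ (1 + a) * Real.exp (a / (1 + a) * (σ + σ ^ 2)) := by
  have h2 := Real.abs_exp_sub_one_sub_id_le h1
  have h3 : Real.exp σ - 1 ≤ σ + σ ^ 2 := by
    have := (abs_le.1 h2).2
    linarith
  have hr : 0 ≤ a / (1 + a) := by positivity
  have h4 : a / (1 + a) * (Real.exp σ - 1) + 1 ≤ Real.exp (a / (1 + a) * (σ + σ ^ 2)) :=
    (Real.add_one_le_exp _).trans (Real.exp_le_exp.2 (mul_le_mul_of_nonneg_left h3 hr))
  have h5 : 1 + a * Real.exp σ = (1 + a) * (a / (1 + a) * (Real.exp σ - 1) + 1) := by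
    field_simp
    ring
  rw [h5]
  exact mul_le_mul_of_nonneg_left h4 (by positivity)

private theorem Sh3_pw (n : ℕ) (x : ℝ) : ((2 : ℝ) ^ x) ^ n = pw n x := by
  rw [pw, Real.rpow_mul (by norm_num), Real.rpow_natCast]

private theorem Sh3_sig {a η σ q γ : ℝ} (ha0 : 0 < a) (ha1 : a < 1) (hη : 0 < η) (hη1 : η ≤ 1)
    (hσ : |σ| = η) (hae : a * Real.exp η ≤ 1)
    (hq : Real.exp (2 * η) * Real.sqrt (8 * a * (1 + a ^ 2)) ≤ q * (1 + a) ^ 2)
    (hγ1 : Real.exp (-(η ^ 2 / 2)) ≤ (2 : ℝ) ^ (-γ)) (hγ2 : q ≤ (2 : ℝ) ^ (-γ))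
    {n : ℕ} {C : Finset (Wd n)} {τ : ℝ} (hτ : 0 ≤ τ) (hT : Typ C τ) :
    Real.exp (-(σ * (a / (1 + a)) + η ^ 2) * n) * ∑ x ∈ C, ∑ y ∈ C.erase x,
      (1 + a * Real.exp σ * a) ^ (n - wt (x - y)) * (a * Real.exp σ + a) ^ wt (x - y) ≤
      2 * pw n (τ - γ) * ZZ a C := by
  have hσ1 : σ ≤ η := hσ ▸ le_abs_self σ
  have hσ2 : -σ ≤ η := hσ ▸ neg_le_abs σ
  have hsq : σ ^ 2 = η ^ 2 := by rw [← hσ, sq_abs]
  have he : Real.exp σ ≤ Real.exp η := Real.exp_le_exp.2 hσ1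
  have he0 := Real.exp_pos σ
  have he1 : 1 ≤ Real.exp η := Real.one_le_exp hη.le
  have hae' : a * Real.exp σ ≤ 1 := (mul_le_mul_of_nonneg_left he ha0.le).trans hae
  set A := 1 + a * Real.exp σ * a with hA
  set B := a * Real.exp σ + a with hB
  have hA0 : 0 < A := by positivity
  have hB0 : 0 < B := by positivity
  have hBA : B ≤ A := by
    rw [hA, hB]
    nlinarith
  have hoff := off_sum2 hT hA0 hB0.le hBA
  have hE : Real.exp (-(σ * (a / (1 + a)) + η ^ 2) * n) =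
      Real.exp (-(σ * (a / (1 + a)) + η ^ 2)) ^ n := by
    rw [← Real.exp_nat_mul, mul_comm]
  set E := Real.exp (-(σ * (a / (1 + a)) + η ^ 2)) with hEd
  have hE0 : 0 < E := Real.exp_pos _
  have hr0 : 0 ≤ a / (1 + a) := by positivity
  have hr1 : a / (1 + a) ≤ 1 / 2 := by
    rw [div_le_div_iff₀ (by positivity) (by norm_num)]
    linarith
  have k1 : E * (A + B) ≤ (1 + a) ^ 2 * (2 : ℝ) ^ (-γ) := by
    have h1 : A + B = (1 + a) * (1 + a * Real.exp σ) := by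
      rw [hA, hB]
      ring
    have h2 := Sh3_b1 (a := a) (σ := σ) ha0 (by rw [hσ]; exact hη1)
    have h3 : E * Real.exp (a / (1 + a) * (σ + σ ^ 2)) ≤ Real.exp (-(η ^ 2 / 2)) := by
      rw [hEd, ← Real.exp_add]
      apply Real.exp_le_exp.2
      rw [hsq]
      nlinarith [sq_nonneg η]
    calc E * (A + B) = (E * (1 + a)) * (1 + a * Real.exp σ) := by rw [h1]; ring
      _ ≤ (E * (1 + a)) * ((1 + a) * Real.exp (a / (1 + a) * (σ + σ ^ 2))) :=
          mul_le_mul_of_nonneg_left h2 (by positivity)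
      _ = (1 + a) ^ 2 * (E * Real.exp (a / (1 + a) * (σ + σ ^ 2))) := by ring
      _ ≤ (1 + a) ^ 2 * (2 : ℝ) ^ (-γ) :=
          mul_le_mul_of_nonneg_left (h3.trans hγ1) (by positivity)
  have k2 : 2 * (E * Real.sqrt (A * B)) ≤ (1 + a) ^ 2 * (2 : ℝ) ^ (-γ) := by
    have h1 : E ≤ Real.exp η := by
      rw [hEd]
      apply Real.exp_le_exp.2
      have h5 : -σ * (a / (1 + a)) ≤ η * 1 := by
        refine (mul_le_mul_of_nonneg_right hσ2 hr0).trans ?_
        exact mul_le_mul_of_nonneg_left (by linarith) hη.le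
      nlinarith [sq_nonneg η]
    have h2 : A ≤ Real.exp η * (1 + a ^ 2) := by
      rw [hA]
      nlinarith [mul_le_mul_of_nonneg_left he (by positivity : 0 ≤ a * a)]
    have h3 : B ≤ Real.exp η * (2 * a) := by
      rw [hB]
      nlinarith [mul_le_mul_of_nonneg_left he ha0.le, mul_le_mul_of_nonneg_left he1 ha0.le]
    have h4 : A * B ≤ (Real.exp η) ^ 2 * ((8 * a * (1 + a ^ 2)) / 2 ^ 2) := by
      refine (mul_le_mul h2 h3 hB0.le (by positivity)).trans (le_of_eq ?_)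
      ring
    have h5 : 2 * Real.sqrt (A * B) ≤ Real.exp η * Real.sqrt (8 * a * (1 + a ^ 2)) := by
      have h6 := Real.sqrt_le_sqrt h4
      have h7 : Real.sqrt (Real.exp η ^ 2 * (8 * a * (1 + a ^ 2) / 2 ^ 2)) =
          Real.exp η * (Real.sqrt (8 * a * (1 + a ^ 2)) / 2) := by
        rw [Real.sqrt_mul (by positivity), Real.sqrt_sq (by positivity),
          Real.sqrt_div (by positivity), Real.sqrt_sq (by norm_num)]
      rw [h7] at h6
      linarith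
    calc 2 * (E * Real.sqrt (A * B)) = E * (2 * Real.sqrt (A * B)) := by ring
      _ ≤ Real.exp η * (Real.exp η * Real.sqrt (8 * a * (1 + a ^ 2))) :=
          mul_le_mul h1 h5 (by positivity) (by positivity)
      _ = Real.exp (2 * η) * Real.sqrt (8 * a * (1 + a ^ 2)) := by
          rw [two_mul, Real.exp_add]
          ring
      _ ≤ q * (1 + a) ^ 2 := hq
      _ ≤ (2 : ℝ) ^ (-γ) * (1 + a) ^ 2 := mul_le_mul_of_nonneg_right hγ2 (by positivity)
      _ = (1 + a) ^ 2 * (2 : ℝ) ^ (-γ) := by ring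
  have m1 : (E * (A + B)) ^ n ≤ ((1 + a) ^ 2) ^ n * pw n (-γ) := by
    refine (pow_le_pow_left₀ (by positivity) k1 n).trans (le_of_eq ?_)
    rw [mul_pow, Sh3_pw]
  have m2 : (E * Real.sqrt (A * B)) ^ n ≤ pw n (-1) * (((1 + a) ^ 2) ^ n * pw n (-γ)) := by
    have h1 := pow_le_pow_left₀ (by positivity) k2 n
    rw [mul_pow, mul_pow ((1 + a) ^ 2), Sh3_pw] at h1
    have h2 : pw n (-1) * (2 : ℝ) ^ n = 1 := by
      rw [← pw_one, ← pw_add, neg_add_cancel, pw_zero]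
    calc (E * Real.sqrt (A * B)) ^ n
        = (pw n (-1) * (2 : ℝ) ^ n) * (E * Real.sqrt (A * B)) ^ n := by rw [h2, one_mul]
      _ = pw n (-1) * ((2 : ℝ) ^ n * (E * Real.sqrt (A * B)) ^ n) := by ring
      _ ≤ _ := mul_le_mul_of_nonneg_left h1 (pw_pos n _).le
  have hM : (0 : ℝ) ≤ (C.card : ℝ) ^ 2 := by positivity
  rw [hE]
  calc E ^ n * ∑ x ∈ C, ∑ y ∈ C.erase x, A ^ (n - wt (x - y)) * B ^ wt (x - y)
      ≤ E ^ n * ((C.card : ℝ) ^ 2 * pw n (τ - 1) * (A + B) ^ n +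
          (C.card : ℝ) ^ 2 * Real.sqrt (A * B) ^ n) :=
        mul_le_mul_of_nonneg_left hoff (by positivity)
    _ = (C.card : ℝ) ^ 2 * pw n (τ - 1) * (E * (A + B)) ^ n +
          (C.card : ℝ) ^ 2 * (E * Real.sqrt (A * B)) ^ n := by
        rw [mul_pow, mul_pow]
        ring
    _ ≤ (C.card : ℝ) ^ 2 * pw n (τ - 1) * (((1 + a) ^ 2) ^ n * pw n (-γ)) +
          (C.card : ℝ) ^ 2 * (pw n (-1) * (((1 + a) ^ 2) ^ n * pw n (-γ))) :=
        add_le_add (mul_le_mul_of_nonneg_left m1 (mul_nonneg hM (pw_pos n _).le))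
          (mul_le_mul_of_nonneg_left m2 hM)
    _ = (pw n τ + 1) * pw n (-γ) * ZZ a C := by
        rw [ZZ, sub_eq_add_neg, pw_add]
        ring
    _ ≤ (2 * pw n τ) * pw n (-γ) * ZZ a C := by
        have h1 : 1 ≤ pw n τ := by
          rw [← pw_zero n]
          exact pw_mono n hτ
        have h2 : 0 ≤ ZZ a C := by
          rw [ZZ]
          have := pw_pos n (-1)
          positivity
        refine mul_le_mul_of_nonneg_right ?_ h2
        refine mul_le_mul_of_nonneg_right ?_ (pw_pos n _).le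
        linarith
    _ = 2 * pw n (τ - γ) * ZZ a C := by
        rw [sub_eq_add_neg, pw_add]
        ring

theorem window_off {a : ℝ} (ha0 : 0 < a) (ha1 : a < 1) :
    ∃ η0 : ℝ, 0 < η0 ∧ ∀ η : ℝ, 0 < η → η ≤ η0 → ∃ γ : ℝ, 0 < γ ∧ ∀ (n : ℕ) (C : Finset (Wd n))
      (τ : ℝ), 0 ≤ τ → Typ C τ →
        ∑ x ∈ C, ∑ y ∈ C.erase x,
          ∑ c ∈ (univ : Finset (Wd n)).filter
            (fun c => ¬ |(wt (x - c) : ℝ) - a / (1 + a) * n| ≤ η * n),
            a ^ wt (x - c) * a ^ wt (y - c) ≤ 4 * pw n (τ - γ) * ZZ a C := by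
  have hs0 : 0 < Real.sqrt (8 * a * (1 + a ^ 2)) := Real.sqrt_pos.2 (by positivity)
  have hs1 : Real.sqrt (8 * a * (1 + a ^ 2)) < (1 + a) ^ 2 := by
    rw [Real.sqrt_lt' (by positivity)]
    have h1 : ((1 + a) ^ 2) ^ 2 - 8 * a * (1 + a ^ 2) = (1 - a) ^ 4 := by ring
    have h2 : 0 < (1 - a) ^ 4 := pow_pos (by linarith) 4
    linarith
  set q0 := Real.sqrt (8 * a * (1 + a ^ 2)) / (1 + a) ^ 2 with hq0d
  have hq0 : 0 < q0 := by positivity
  have hq1 : q0 < 1 := by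
    rw [hq0d, div_lt_one (by positivity)]
    exact hs1
  have hlq : Real.log q0 < 0 := Real.log_neg hq0 hq1
  have hla : Real.log a < 0 := Real.log_neg ha0 ha1
  have hl2 : 0 < Real.log 2 := Real.log_pos (by norm_num)
  refine ⟨min (min 1 (-Real.log a)) (-Real.log q0 / 4), ?_, ?_⟩
  · refine lt_min (lt_min one_pos (by linarith)) (by linarith)
  intro η hη hη0
  have hη1 : η ≤ 1 := hη0.trans ((min_le_left _ _).trans (min_le_left _ _))
  have hη2 : η ≤ -Real.log a := hη0.trans ((min_le_left _ _).trans (min_le_right _ _))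
  have hη3 : η ≤ -Real.log q0 / 4 := hη0.trans (min_le_right _ _)
  have hae : a * Real.exp η ≤ 1 := by
    calc a * Real.exp η ≤ a * Real.exp (-Real.log a) :=
          mul_le_mul_of_nonneg_left (Real.exp_le_exp.2 hη2) ha0.le
      _ = 1 := by rw [Real.exp_neg, Real.exp_log ha0, mul_inv_cancel₀ ha0.ne']
  have hq : Real.exp (2 * η) * Real.sqrt (8 * a * (1 + a ^ 2)) ≤
      Real.exp (Real.log q0 / 2) * (1 + a) ^ 2 := by
    have h1 : Real.sqrt (8 * a * (1 + a ^ 2)) = Real.exp (Real.log q0) * (1 + a) ^ 2 := by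
      rw [Real.exp_log hq0, hq0d]
      field_simp
    rw [h1, ← mul_assoc, ← Real.exp_add]
    refine mul_le_mul_of_nonneg_right (Real.exp_le_exp.2 ?_) (by positivity)
    linarith
  set m := min (η ^ 2 / 2) (-Real.log q0 / 2) with hm
  have hm0 : 0 < m := lt_min (by positivity) (by linarith)
  have h2γ : (2 : ℝ) ^ (-(m / Real.log 2)) = Real.exp (-m) := by
    rw [Real.rpow_def_of_pos (by norm_num)]
    congr 1
    field_simp
  have hγ1 : Real.exp (-(η ^ 2 / 2)) ≤ (2 : ℝ) ^ (-(m / Real.log 2)) := by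
    rw [h2γ]
    exact Real.exp_le_exp.2 (neg_le_neg (min_le_left _ _))
  have hγ2 : Real.exp (Real.log q0 / 2) ≤ (2 : ℝ) ^ (-(m / Real.log 2)) := by
    rw [h2γ]
    have h1 : m ≤ -Real.log q0 / 2 := min_le_right _ _
    exact Real.exp_le_exp.2 (by linarith)
  refine ⟨m / Real.log 2, by positivity, ?_⟩
  intro n C τ hτ hT
  have key := fun (σ : ℝ) (hσ : |σ| = η) =>
    Sh3_sig ha0 ha1 hη hη1 hσ hae hq hγ1 hγ2 (n := n) hτ hT
  have k1 := key η (abs_of_pos hη)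
  have k2 := key (-η) (by rw [abs_neg, abs_of_pos hη])
  have h1 : ∑ x ∈ C, ∑ y ∈ C.erase x,
      ∑ c ∈ (univ : Finset (Wd n)).filter
        (fun c => ¬ |(wt (x - c) : ℝ) - a / (1 + a) * n| ≤ η * n),
        a ^ wt (x - c) * a ^ wt (y - c) ≤
      ∑ x ∈ C, ∑ y ∈ C.erase x, (Real.exp (-(η * (a / (1 + a)) + η ^ 2) * n) *
      ((1 + a * Real.exp η * a) ^ (n - wt (x - y)) * (a * Real.exp η + a) ^ wt (x - y)) +
      Real.exp (-(-η * (a / (1 + a)) + η ^ 2) * n) *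
      ((1 + a * Real.exp (-η) * a) ^ (n - wt (x - y)) *
        (a * Real.exp (-η) + a) ^ wt (x - y))) :=
    sum_le_sum fun x _ => sum_le_sum fun y _ => Sh3_pair ha0 hη x y
  refine h1.trans ?_
  have h2 : ∑ x ∈ C, ∑ y ∈ C.erase x, (Real.exp (-(η * (a / (1 + a)) + η ^ 2) * n) *
      ((1 + a * Real.exp η * a) ^ (n - wt (x - y)) * (a * Real.exp η + a) ^ wt (x - y)) +
      Real.exp (-(-η * (a / (1 + a)) + η ^ 2) * n) *
      ((1 + a * Real.exp (-η) * a) ^ (n - wt (x - y)) *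
        (a * Real.exp (-η) + a) ^ wt (x - y))) =
      Real.exp (-(η * (a / (1 + a)) + η ^ 2) * n) * ∑ x ∈ C, ∑ y ∈ C.erase x,
      (1 + a * Real.exp η * a) ^ (n - wt (x - y)) * (a * Real.exp η + a) ^ wt (x - y) +
      Real.exp (-(-η * (a / (1 + a)) + η ^ 2) * n) * ∑ x ∈ C, ∑ y ∈ C.erase x,
      (1 + a * Real.exp (-η) * a) ^ (n - wt (x - y)) *
        (a * Real.exp (-η) + a) ^ wt (x - y) := by
    simp only [sum_add_distrib, mul_sum]
  rw [h2]
  linarith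

end Pool.Agent.Lib.MP_0430e4_lc.AC
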