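import Pool.Agent.Lib.MP_0430e4_lc.AC.Sh1
import Pool.Agent.Lib.MP_0430e4_lc.AC.Sh2

/-!
Sh4 (SHELL51.md section 4): the diagonal inside the window, and the totals (5), (6).
PROOF of `diag_le`. For `x` in the window of `c`, `w = wt (x-c) ≥ (r-η) n`, so
`a^w a^w ≤ a^w a^((r-η) n)` (`Real.rpow_natCast`, `rpow_le_rpow_of_exponent_ge`), and
`∑_c a^wt(x-c) = (1+a)^n` (`centre_single`). `KK g (x-c) (x-c) ≤ G^n`.
PROOF of `total`. Split the inner sum over `y` in `win` into `y = x` and `y ≠ x`.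
Diagonal: `diag_le`, and `(G a^(r-η) (1+a))^n M ≤ (G a^(r-η) (1+a) 2^(-R))^n M^2 ≤`
`(lam (1+a)^2 / 2)^n M^2 = lam^n ZZ` by `hη` and `pw n R ≤ M`.
Off-diagonal: all terms are nonnegative, drop the window (`win ⊆ C`), exchange sums, `centre` with
`b = a`: `(g00 + a^2 g11)^(n-d) (2 a g01)^d`, then `off_sum2`:
`≤ M^2 pw n (τ-1) (lam (1+a)^2)^n + M^2 sqrt ((g00+a^2 g11) 2 a g01)^n`, and the square root is at most
`lam (1+a)^2 / 2` by `h2`. `1 ≤ pw n τ`. Sum: `3 pw n τ lam^n ZZ`.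
-/

set_option autoImplicit false

open Finset

namespace Pool.Agent.Lib.MP_0430e4_lc.AC

open BY BY.Four

private theorem sh4_KK_nonneg {n : ℕ} {g : ZMod 2 → ZMod 2 → ℝ} (h : ∀ s t, 0 ≤ g s t) (x y : Wd n) :
    0 ≤ KK g x y := Finset.prod_nonneg (fun i _ => h _ _)

private theorem sh4_zmod2 (s : ZMod 2) : s = 0 ∨ s = 1 := by
  revert s; decide

private theorem sh4_KK_diag {n : ℕ} {G : ℝ} {g : ZMod 2 → ZMod 2 → ℝ}
    (p00 : 0 ≤ g 0 0) (p11 : 0 ≤ g 1 1) (G00 : g 0 0 ≤ G) (G11 : g 1 1 ≤ G) (z : Wd n) :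
    0 ≤ KK g z z ∧ KK g z z ≤ G ^ n := by
  have h0 : ∀ i, 0 ≤ g (z i) (z i) := by
    intro i
    rcases sh4_zmod2 (z i) with h | h <;> rw [h] <;> assumption
  have h1 : ∀ i, g (z i) (z i) ≤ G := by
    intro i
    rcases sh4_zmod2 (z i) with h | h <;> rw [h] <;> assumption
  constructor
  · exact Finset.prod_nonneg (fun i _ => h0 i)
  · unfold KK
    have := Finset.prod_le_prod (s := (univ : Finset (Fin n))) (fun i _ => h0 i) (fun i _ => h1 i)
    rwa [Finset.prod_const, Finset.card_univ, Fintype.card_fin] at this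

private theorem sh4_pw_pow (n : ℕ) (x : ℝ) : pw n x = ((2 : ℝ) ^ x) ^ n := by
  unfold pw
  rw [Real.rpow_mul (by norm_num), Real.rpow_natCast]

theorem diag_le {n : ℕ} {a : ℝ} (ha0 : 0 < a) (ha1 : a < 1) {G : ℝ} {g : ZMod 2 → ZMod 2 → ℝ}
    (p00 : 0 ≤ g 0 0) (p11 : 0 ≤ g 1 1) (G00 : g 0 0 ≤ G) (G11 : g 1 1 ≤ G) (r η : ℝ)
    (C : Finset (Wd n)) :
    ∑ c : Wd n, ∑ x ∈ win r η C c, a ^ wt (x - c) * a ^ wt (x - c) * KK g (x - c) (x - c) ≤
      C.card * (G * a ^ (r - η) * (1 + a)) ^ n := by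
  have hG : 0 ≤ G := p00.trans G00
  have har : 0 < a ^ (r - η) := Real.rpow_pos_of_pos ha0 _
  have hterm : ∀ c : Wd n, ∀ x ∈ win r η C c, a ^ wt (x - c) * a ^ wt (x - c) * KK g (x - c) (x - c) ≤
      a ^ wt (x - c) * ((a ^ (r - η)) ^ n * G ^ n) := by
    intro c x hx
    unfold win at hx
    rw [Finset.mem_filter] at hx
    have h1 := (abs_le.1 hx.2).1
    have h2 : (r - η) * n ≤ (wt (x - c) : ℝ) := by linarith
    have h3 : a ^ wt (x - c) ≤ (a ^ (r - η)) ^ n := by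
      rw [← Real.rpow_natCast a (wt (x - c)), ← Real.rpow_natCast (a ^ (r - η)) n,
        ← Real.rpow_mul ha0.le]
      exact Real.rpow_le_rpow_of_exponent_ge ha0 ha1.le h2
    obtain ⟨k0, k1⟩ := sh4_KK_diag p00 p11 G00 G11 (x - c)
    have h4 : 0 ≤ a ^ wt (x - c) := pow_nonneg ha0.le _
    calc a ^ wt (x - c) * a ^ wt (x - c) * KK g (x - c) (x - c)
        = a ^ wt (x - c) * (a ^ wt (x - c) * KK g (x - c) (x - c)) := by ring
      _ ≤ a ^ wt (x - c) * ((a ^ (r - η)) ^ n * G ^ n) :=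
          mul_le_mul_of_nonneg_left (mul_le_mul h3 k1 k0 (pow_nonneg har.le _)) h4
  have hnn : 0 ≤ (a ^ (r - η)) ^ n * G ^ n := mul_nonneg (pow_nonneg har.le _) (pow_nonneg hG _)
  calc ∑ c : Wd n, ∑ x ∈ win r η C c, a ^ wt (x - c) * a ^ wt (x - c) * KK g (x - c) (x - c)
      ≤ ∑ c : Wd n, ∑ x ∈ win r η C c, a ^ wt (x - c) * ((a ^ (r - η)) ^ n * G ^ n) :=
        Finset.sum_le_sum (fun c _ => Finset.sum_le_sum (fun x hx => hterm c x hx))
    _ ≤ ∑ c : Wd n, ∑ x ∈ C, a ^ wt (x - c) * ((a ^ (r - η)) ^ n * G ^ n) := by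
        refine Finset.sum_le_sum (fun c _ => ?_)
        refine Finset.sum_le_sum_of_subset_of_nonneg (Finset.filter_subset _ _) (fun x _ _ => ?_)
        exact mul_nonneg (pow_nonneg ha0.le _) hnn
    _ = ∑ x ∈ C, (∑ c : Wd n, a ^ wt (x - c)) * ((a ^ (r - η)) ^ n * G ^ n) := by
        rw [Finset.sum_comm]
        exact Finset.sum_congr rfl (fun x _ => by rw [Finset.sum_mul])
    _ = ∑ x ∈ C, (1 + a) ^ n * ((a ^ (r - η)) ^ n * G ^ n) :=
        Finset.sum_congr rfl (fun x _ => by rw [centre_single])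
    _ = C.card * (G * a ^ (r - η) * (1 + a)) ^ n := by
        rw [Finset.sum_const, nsmul_eq_mul, mul_pow, mul_pow]
        ring

theorem total {n : ℕ} {a lam G R : ℝ} {g : ZMod 2 → ZMod 2 → ℝ} (hg : TabOK a lam G R g) {η τ : ℝ}
    (hη : G * (2 : ℝ) ^ (1 - R) * a ^ (a / (1 + a) - η) ≤ lam * (1 + a)) (hτ : 0 ≤ τ)
    {C : Finset (Wd n)} (hR : pw n R ≤ C.card) (hT : Typ C τ) :
    ∑ c : Wd n, ∑ x ∈ win (a / (1 + a)) η C c, ∑ y ∈ win (a / (1 + a)) η C c,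
      a ^ wt (x - c) * a ^ wt (y - c) * KK g (x - c) (y - c) ≤ 3 * pw n τ * lam ^ n * ZZ a C := by
  classical
  obtain ⟨a0, a1, lam0, lam1, sym, p00, p01, p11, G00, G11, eig, le1, h2, h1⟩ := hg
  have hall : ∀ s t : ZMod 2, 0 ≤ g s t := by
    intro s t
    rcases sh4_zmod2 s with rfl | rfl <;> rcases sh4_zmod2 t with rfl | rfl
    · exact p00
    · exact p01
    · rw [← sym]; exact p01
    · exact p11
  have hF : ∀ c x y : Wd n, 0 ≤ a ^ wt (x - c) * a ^ wt (y - c) * KK g (x - c) (y - c) := fun c x y =>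
    mul_nonneg (mul_nonneg (pow_nonneg a0.le _) (pow_nonneg a0.le _)) (sh4_KK_nonneg hall _ _)
  have hM0 : (0 : ℝ) ≤ (C.card : ℝ) := Nat.cast_nonneg _
  have hMpos : (0 : ℝ) < (C.card : ℝ) := lt_of_lt_of_le (pw_pos n R) hR
  have hpwm : 0 < pw n (-1) := pw_pos n _
  have h1a : 0 < 1 + a := by linarith
  -- splitting
  have hsplit : ∀ c : Wd n, ∑ x ∈ win (a / (1 + a)) η C c, ∑ y ∈ win (a / (1 + a)) η C c,
      a ^ wt (x - c) * a ^ wt (y - c) * KK g (x - c) (y - c)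
      ≤ ∑ x ∈ win (a / (1 + a)) η C c, a ^ wt (x - c) * a ^ wt (x - c) * KK g (x - c) (x - c)
        + ∑ x ∈ C, ∑ y ∈ C.erase x, a ^ wt (x - c) * a ^ wt (y - c) * KK g (x - c) (y - c) := by
    intro c
    have hsub : win (a / (1 + a)) η C c ⊆ C := Finset.filter_subset _ _
    have e1 : ∀ x ∈ win (a / (1 + a)) η C c, ∑ y ∈ win (a / (1 + a)) η C c,
        a ^ wt (x - c) * a ^ wt (y - c) * KK g (x - c) (y - c)
        ≤ a ^ wt (x - c) * a ^ wt (x - c) * KK g (x - c) (x - c)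
          + ∑ y ∈ C.erase x, a ^ wt (x - c) * a ^ wt (y - c) * KK g (x - c) (y - c) := by
      intro x hx
      rw [← Finset.add_sum_erase _ _ hx]
      refine add_le_add le_rfl ?_
      exact Finset.sum_le_sum_of_subset_of_nonneg (Finset.erase_subset_erase x hsub)
        (fun y _ _ => hF c x y)
    refine (Finset.sum_le_sum e1).trans ?_
    rw [Finset.sum_add_distrib]
    refine add_le_add le_rfl ?_
    exact Finset.sum_le_sum_of_subset_of_nonneg hsub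
      (fun x _ _ => Finset.sum_nonneg (fun y _ => hF c x y))
  have hdiag := diag_le a0 a1 p00 p11 G00 G11 (a / (1 + a)) η C
  -- the off-diagonal part
  have hApos : 0 < g 0 0 + a * a * g 1 1 := by
    have : 0 < lam * (1 + a) ^ 2 := by positivity
    nlinarith
  have hB0 : 0 ≤ a * g 0 1 + a * g 1 0 := by
    rw [← sym]; positivity
  have hBA : a * g 0 1 + a * g 1 0 ≤ g 0 0 + a * a * g 1 1 := by
    rw [← sym]; nlinarith
  have hoff : ∑ c : Wd n, ∑ x ∈ C, ∑ y ∈ C.erase x, a ^ wt (x - c) * a ^ wt (y - c) * KK g (x - c) (y - c)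
      ≤ (C.card : ℝ) ^ 2 * pw n (τ - 1) * ((g 0 0 + a * a * g 1 1) + (a * g 0 1 + a * g 1 0)) ^ n
        + (C.card : ℝ) ^ 2 * Real.sqrt ((g 0 0 + a * a * g 1 1) * (a * g 0 1 + a * g 1 0)) ^ n := by
    have e2 : ∑ c : Wd n, ∑ x ∈ C, ∑ y ∈ C.erase x,
        a ^ wt (x - c) * a ^ wt (y - c) * KK g (x - c) (y - c)
        = ∑ x ∈ C, ∑ y ∈ C.erase x, (g 0 0 + a * a * g 1 1) ^ (n - wt (x - y))
          * (a * g 0 1 + a * g 1 0) ^ wt (x - y) := by
      rw [Finset.sum_comm]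
      refine Finset.sum_congr rfl (fun x _ => ?_)
      rw [Finset.sum_comm]
      exact Finset.sum_congr rfl (fun y _ => centre x y a a g)
    rw [e2]
    exact off_sum2 hT hApos hB0 hBA
  have hsum : (g 0 0 + a * a * g 1 1) + (a * g 0 1 + a * g 1 0) = lam * (1 + a) ^ 2 := by
    rw [← sym, ← eig]; ring
  have hsq : Real.sqrt ((g 0 0 + a * a * g 1 1) * (a * g 0 1 + a * g 1 0)) ≤ lam * (1 + a) ^ 2 / 2 := by
    rw [Real.sqrt_le_left (by positivity), ← sym]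
    nlinarith [h2]
  have hsqn : Real.sqrt ((g 0 0 + a * a * g 1 1) * (a * g 0 1 + a * g 1 0)) ^ n
      ≤ lam ^ n * (pw n (-1) * ((1 + a) ^ 2) ^ n) := by
    refine (pow_le_pow_left₀ (Real.sqrt_nonneg _) hsq n).trans (le_of_eq ?_)
    rw [pw_neg, pw_one, div_pow, mul_pow]
    field_simp
  have hpw1 : 1 ≤ pw n τ := by
    have := pw_mono n hτ
    rwa [pw_zero] at this
  -- the diagonal part
  have hdiag2 : C.card * (G * a ^ (a / (1 + a) - η) * (1 + a)) ^ n ≤ lam ^ n * ZZ a C := by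
    have hG : 0 ≤ G := p00.trans G00
    have har : 0 < a ^ (a / (1 + a) - η) := Real.rpow_pos_of_pos a0 _
    have hX0 : 0 ≤ G * a ^ (a / (1 + a) - η) * (1 + a) := by positivity
    have e3 : 1 ≤ (C.card : ℝ) * pw n (-R) := by
      have := mul_le_mul_of_nonneg_right hR (pw_pos n (-R)).le
      rwa [← pw_add, add_neg_cancel, pw_zero] at this
    have e4 : pw n (-R) = pw n (-1) * ((2 : ℝ) ^ (1 - R)) ^ n := by
      rw [← sh4_pw_pow, ← pw_add]
      congr 1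
      ring
    have e5 : ((2 : ℝ) ^ (1 - R)) ^ n * (G * a ^ (a / (1 + a) - η) * (1 + a)) ^ n
        ≤ (lam * (1 + a) * (1 + a)) ^ n := by
      rw [← mul_pow]
      refine pow_le_pow_left₀ (by positivity) ?_ n
      calc (2 : ℝ) ^ (1 - R) * (G * a ^ (a / (1 + a) - η) * (1 + a))
          = (G * (2 : ℝ) ^ (1 - R) * a ^ (a / (1 + a) - η)) * (1 + a) := by ring
        _ ≤ (lam * (1 + a)) * (1 + a) := mul_le_mul_of_nonneg_right hη h1a.le
    calc (C.card : ℝ) * (G * a ^ (a / (1 + a) - η) * (1 + a)) ^ n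
        = (C.card : ℝ) * (G * a ^ (a / (1 + a) - η) * (1 + a)) ^ n * 1 := by ring
      _ ≤ (C.card : ℝ) * (G * a ^ (a / (1 + a) - η) * (1 + a)) ^ n * ((C.card : ℝ) * pw n (-R)) :=
          mul_le_mul_of_nonneg_left e3 (mul_nonneg hM0 (pow_nonneg hX0 _))
      _ = (C.card : ℝ) ^ 2 * pw n (-1) * (((2 : ℝ) ^ (1 - R)) ^ n
            * (G * a ^ (a / (1 + a) - η) * (1 + a)) ^ n) := by rw [e4]; ring
      _ ≤ (C.card : ℝ) ^ 2 * pw n (-1) * (lam * (1 + a) * (1 + a)) ^ n :=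
          mul_le_mul_of_nonneg_left e5 (by positivity)
      _ = lam ^ n * ZZ a C := by
          unfold ZZ
          rw [mul_assoc lam, mul_pow lam, ← sq]
          ring
  have hZZ : 0 ≤ lam ^ n * ZZ a C := by
    unfold ZZ; positivity
  calc ∑ c : Wd n, ∑ x ∈ win (a / (1 + a)) η C c, ∑ y ∈ win (a / (1 + a)) η C c,
      a ^ wt (x - c) * a ^ wt (y - c) * KK g (x - c) (y - c)
      ≤ ∑ c : Wd n, (∑ x ∈ win (a / (1 + a)) η C c, a ^ wt (x - c) * a ^ wt (x - c) * KK g (x - c) (x - c)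
        + ∑ x ∈ C, ∑ y ∈ C.erase x, a ^ wt (x - c) * a ^ wt (y - c) * KK g (x - c) (y - c)) :=
        Finset.sum_le_sum (fun c _ => hsplit c)
    _ = (∑ c : Wd n, ∑ x ∈ win (a / (1 + a)) η C c, a ^ wt (x - c) * a ^ wt (x - c) * KK g (x - c) (x - c))
        + ∑ c : Wd n, ∑ x ∈ C, ∑ y ∈ C.erase x, a ^ wt (x - c) * a ^ wt (y - c) * KK g (x - c) (y - c) :=
        Finset.sum_add_distrib
    _ ≤ lam ^ n * ZZ a C + ((C.card : ℝ) ^ 2 * pw n (τ - 1) * (lam * (1 + a) ^ 2) ^ n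
        + (C.card : ℝ) ^ 2 * (lam ^ n * (pw n (-1) * ((1 + a) ^ 2) ^ n))) := by
        refine add_le_add (hdiag.trans hdiag2) (hoff.trans ?_)
        rw [hsum]
        exact add_le_add le_rfl (mul_le_mul_of_nonneg_left hsqn (sq_nonneg _))
    _ = (1 + pw n τ + 1) * (lam ^ n * ZZ a C) := by
        have : pw n (τ - 1) = pw n τ * pw n (-1) := by rw [← pw_add, sub_eq_add_neg]
        unfold ZZ
        rw [this, mul_pow lam]
        ring
    _ ≤ (3 * pw n τ) * (lam ^ n * ZZ a C) :=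
        mul_le_mul_of_nonneg_right (by linarith) hZZ
    _ = 3 * pw n τ * lam ^ n * ZZ a C := by ring

end Pool.Agent.Lib.MP_0430e4_lc.AC
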