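import Pool.Agent.Lib.MP_0430e4_lc.AC.Sh3
import Pool.Agent.Lib.MP_0430e4_lc.AC.Sh4

/-!
Sh5 (SHELL51.md sections 3, 4): the choice of the centre.
`p = 2a/(1+a^2)`, `(1+a^2)^n (M^2 2^(-n) (1+p)^n) = ZZ a C`; split the triples `(x,y,c)` into both words in
the window and the rest (`Sh3`), add the diagonal (`diag_le`), compare with the totals (`total`), choose `c`.
-/

set_option autoImplicit false

open Finset

namespace Pool.Agent.Lib.MP_0430e4_lc.AC

open BY BY.Four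

namespace Sh5

theorem pow_eq_pw {q : ℝ} (hq : 0 < q) (n : ℕ) : q ^ n = pw n (Real.logb 2 q) := by
  unfold pw
  rw [Real.rpow_mul (by norm_num), Real.rpow_logb (by norm_num) (by norm_num) hq, Real.rpow_natCast]

theorem pw_mul_nonneg (n : ℕ) (x : ℝ) : 0 ≤ pw n x := (pw_pos n x).le

theorem exists_eta {a lam G R τ' η0 : ℝ} (ha0 : 0 < a) (hη0 : 0 < η0) (hτ' : 0 < τ')
    (h1 : G * (2 : ℝ) ^ (1 - R) * a ^ (a / (1 + a)) < lam * (1 + a))
    (hR1 : (2 : ℝ) ^ (1 - R) * a ^ (a / (1 + a)) < 1 + a) :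
    ∃ η : ℝ, 0 < η ∧ η ≤ η0 ∧ G * (2 : ℝ) ^ (1 - R) * a ^ (a / (1 + a) - η) ≤ lam * (1 + a) ∧
      (2 : ℝ) ^ (1 - R) * a ^ (a / (1 + a) - η) < 1 + a ∧ (2 : ℝ) ^ (-(τ' / 2)) ≤ a ^ (4 * η) := by
  have hc : ContinuousAt (fun η : ℝ => a ^ (a / (1 + a) - η)) 0 := by
    apply ContinuousAt.rpow continuousAt_const (by fun_prop)
    left; exact ha0.ne'
  have hc1 : ContinuousAt (fun η : ℝ => G * (2 : ℝ) ^ (1 - R) * a ^ (a / (1 + a) - η)) 0 :=
    continuousAt_const.mul hc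
  have hc2 : ContinuousAt (fun η : ℝ => (2 : ℝ) ^ (1 - R) * a ^ (a / (1 + a) - η)) 0 :=
    continuousAt_const.mul hc
  have hc3 : ContinuousAt (fun η : ℝ => a ^ (4 * η)) 0 := by
    apply ContinuousAt.rpow continuousAt_const (by fun_prop)
    left; exact ha0.ne'
  have e1 := hc1.eventually_lt_const (u := lam * (1 + a)) (by simpa using h1)
  have e2 := hc2.eventually_lt_const (u := 1 + a) (by simpa using hR1)
  have e3 := hc3.eventually_const_lt (u := (2 : ℝ) ^ (-(τ' / 2))) (by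
    simp only [mul_zero, Real.rpow_zero]
    exact Real.rpow_lt_one_of_one_lt_of_neg (by norm_num) (by linarith))
  obtain ⟨ε, hε, h⟩ := Metric.eventually_nhds_iff.mp (e1.and (e2.and e3))
  refine ⟨min (ε / 2) η0, lt_min (by positivity) hη0, min_le_right _ _, ?_⟩
  have hd : dist (min (ε / 2) η0) 0 < ε := by
    rw [Real.dist_eq, sub_zero, abs_of_pos (lt_min (by positivity) hη0)]
    have := min_le_left (ε / 2) η0
    linarith
  obtain ⟨k1, k2, k3⟩ := h hd
  exact ⟨k1.le, k2, k3.le⟩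

variable {n : ℕ}

/-- total over all centres -/
theorem split_bound {a η : ℝ} (ha0 : 0 < a) (C : Finset (Wd n)) (f : Wd n → ℝ)
    (hf : ∀ x, |f x| ≤ 1) (r ψ : ℝ) :
    ‖∑ c : Wd n, ∑ x ∈ C, ∑ y ∈ C.erase x,
        ((a ^ wt (x - c) * a ^ wt (y - c) : ℝ) : ℂ) * ((f x : ℂ) * (f y : ℂ) * ph (ψ * (wt (x - y) : ℝ)))‖ ≤
      ‖∑ c : Wd n, ∑ x ∈ win r η C c, ∑ y ∈ win r η C c,
        ((a ^ wt (x - c) * a ^ wt (y - c) : ℝ) : ℂ) * ((f x : ℂ) * (f y : ℂ) * ph (ψ * (wt (x - y) : ℝ)))‖ +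
      ∑ c : Wd n, ∑ x ∈ win r η C c, a ^ wt (x - c) * a ^ wt (x - c) +
      2 * ∑ x ∈ C, ∑ y ∈ C.erase x,
          ∑ c ∈ (univ : Finset (Wd n)).filter (fun c => ¬ |(wt (x - c) : ℝ) - r * n| ≤ η * n),
            a ^ wt (x - c) * a ^ wt (y - c) := by
  classical
  set F : Wd n → Wd n → Wd n → ℂ := fun c x y =>
    ((a ^ wt (x - c) * a ^ wt (y - c) : ℝ) : ℂ) * ((f x : ℂ) * (f y : ℂ) * ph (ψ * (wt (x - y) : ℝ))) with hF
  have hph : ∀ s : ℝ, ‖ph s‖ = 1 := fun s => Complex.norm_exp_ofReal_mul_I s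
  have hFn : ∀ c x y, ‖F c x y‖ ≤ a ^ wt (x - c) * a ^ wt (y - c) := by
    intro c x y
    have h0 : 0 ≤ a ^ wt (x - c) * a ^ wt (y - c) := by positivity
    simp only [hF, norm_mul, hph, Complex.norm_real, Real.norm_eq_abs, mul_one]
    rw [← abs_mul, abs_of_nonneg h0]
    have h1 : |f x| * |f y| ≤ 1 := mul_le_one₀ (hf x) (abs_nonneg _) (hf y)
    calc a ^ wt (x - c) * a ^ wt (y - c) * (|f x| * |f y|) ≤
        a ^ wt (x - c) * a ^ wt (y - c) * 1 := mul_le_mul_of_nonneg_left h1 h0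
      _ = _ := mul_one _
  -- pointwise identity for one centre
  have key : ∀ c, ∑ x ∈ C, ∑ y ∈ C.erase x, F c x y =
      (∑ x ∈ win r η C c, ∑ y ∈ win r η C c, F c x y) - (∑ x ∈ win r η C c, F c x x) +
      (∑ x ∈ C, ∑ y ∈ C.erase x, if (x ∈ win r η C c ∧ y ∈ win r η C c) then 0 else F c x y) := by
    intro c
    have h1 : ∑ x ∈ C, ∑ y ∈ C.erase x, F c x y =
        ∑ x ∈ C, ∑ y ∈ C.erase x, (if (x ∈ win r η C c ∧ y ∈ win r η C c) then F c x y else 0) +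
        ∑ x ∈ C, ∑ y ∈ C.erase x, (if (x ∈ win r η C c ∧ y ∈ win r η C c) then 0 else F c x y) := by
      rw [← Finset.sum_add_distrib]
      apply Finset.sum_congr rfl; intro x _
      rw [← Finset.sum_add_distrib]
      apply Finset.sum_congr rfl; intro y _
      split_ifs <;> simp
    rw [h1]
    congr 1
    have h2 : ∑ x ∈ C, ∑ y ∈ C.erase x, (if (x ∈ win r η C c ∧ y ∈ win r η C c) then F c x y else 0) =
        ∑ x ∈ win r η C c, ∑ y ∈ (win r η C c).erase x, F c x y := by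
      have hsub : win r η C c ⊆ C := Finset.filter_subset _ _
      rw [← Finset.sum_subset hsub (f := fun x => ∑ y ∈ C.erase x,
        (if (x ∈ win r η C c ∧ y ∈ win r η C c) then F c x y else 0))]
      · apply Finset.sum_congr rfl; intro x hx
        rw [← Finset.sum_subset (Finset.erase_subset_erase x hsub)]
        · apply Finset.sum_congr rfl; intro y hy
          rw [if_pos ⟨hx, Finset.mem_of_mem_erase hy⟩]
        · intro y hy hy2
          rw [if_neg]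
          rintro ⟨_, h4⟩
          exact hy2 (Finset.mem_erase.mpr ⟨(Finset.mem_erase.mp hy).1, h4⟩)
      · intro x _ hx
        apply Finset.sum_eq_zero; intro y _
        rw [if_neg]; rintro ⟨h4, _⟩; exact hx h4
    rw [h2, ← Finset.sum_sub_distrib]
    apply Finset.sum_congr rfl; intro x hx
    rw [Finset.sum_erase_eq_sub hx]
  simp only [← hF] at *
  have h3 : ∑ c : Wd n, ∑ x ∈ C, ∑ y ∈ C.erase x, F c x y =
      (∑ c : Wd n, ∑ x ∈ win r η C c, ∑ y ∈ win r η C c, F c x y) -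
      (∑ c : Wd n, ∑ x ∈ win r η C c, F c x x) +
      (∑ c : Wd n, ∑ x ∈ C, ∑ y ∈ C.erase x,
        if (x ∈ win r η C c ∧ y ∈ win r η C c) then 0 else F c x y) := by
    rw [← Finset.sum_sub_distrib, ← Finset.sum_add_distrib]
    exact Finset.sum_congr rfl fun c _ => key c
  rw [h3]
  refine (norm_add_le _ _).trans ?_
  apply add_le_add
  · refine (norm_sub_le _ _).trans ?_
    apply add_le_add le_rfl
    refine (norm_sum_le _ _).trans ?_
    apply Finset.sum_le_sum; intro c _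
    refine (norm_sum_le _ _).trans ?_
    apply Finset.sum_le_sum; intro x _
    exact hFn c x x
  · have h4 : ‖∑ c : Wd n, ∑ x ∈ C, ∑ y ∈ C.erase x,
        if (x ∈ win r η C c ∧ y ∈ win r η C c) then 0 else F c x y‖ ≤
        ∑ c : Wd n, ∑ x ∈ C, ∑ y ∈ C.erase x,
          ((if ¬ |(wt (x - c) : ℝ) - r * n| ≤ η * n then a ^ wt (x - c) * a ^ wt (y - c) else 0) +
           (if ¬ |(wt (y - c) : ℝ) - r * n| ≤ η * n then a ^ wt (y - c) * a ^ wt (x - c) else 0)) := by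
      refine (norm_sum_le _ _).trans ?_
      apply Finset.sum_le_sum; intro c _
      refine (norm_sum_le _ _).trans ?_
      apply Finset.sum_le_sum; intro x hx
      refine (norm_sum_le _ _).trans ?_
      apply Finset.sum_le_sum; intro y hy
      have hyC : y ∈ C := Finset.mem_of_mem_erase hy
      have h0 : 0 ≤ a ^ wt (x - c) * a ^ wt (y - c) := by positivity
      have h0' : 0 ≤ a ^ wt (y - c) * a ^ wt (x - c) := by positivity
      by_cases hxw : |(wt (x - c) : ℝ) - r * n| ≤ η * n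
      · by_cases hyw : |(wt (y - c) : ℝ) - r * n| ≤ η * n
        · have hm : x ∈ win r η C c ∧ y ∈ win r η C c :=
            ⟨Finset.mem_filter.mpr ⟨hx, hxw⟩, Finset.mem_filter.mpr ⟨hyC, hyw⟩⟩
          rw [if_pos hm, norm_zero]
          apply add_nonneg <;> split_ifs <;> first | exact h0 | exact h0' | exact le_rfl
        · have hm : ¬ (x ∈ win r η C c ∧ y ∈ win r η C c) := by
            rintro ⟨_, h5⟩; exact hyw (Finset.mem_filter.mp h5).2
          rw [if_neg hm, if_pos hyw]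
          refine (hFn c x y).trans ?_
          rw [mul_comm]
          apply le_add_of_nonneg_left
          split_ifs <;> first | exact h0 | exact le_rfl
      · have hm : ¬ (x ∈ win r η C c ∧ y ∈ win r η C c) := by
          rintro ⟨h5, _⟩; exact hxw (Finset.mem_filter.mp h5).2
        rw [if_neg hm, if_pos hxw]
        refine (hFn c x y).trans ?_
        apply le_add_of_nonneg_right
        split_ifs <;> first | exact h0' | exact le_rfl
    refine h4.trans (le_of_eq ?_)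
    simp only [Finset.sum_add_distrib]
    have h5 : ∑ c : Wd n, ∑ x ∈ C, ∑ y ∈ C.erase x,
        (if ¬ |(wt (x - c) : ℝ) - r * n| ≤ η * n then a ^ wt (x - c) * a ^ wt (y - c) else 0) =
        ∑ x ∈ C, ∑ y ∈ C.erase x,
          ∑ c ∈ (univ : Finset (Wd n)).filter (fun c => ¬ |(wt (x - c) : ℝ) - r * n| ≤ η * n),
            a ^ wt (x - c) * a ^ wt (y - c) := by
      rw [Finset.sum_comm]
      apply Finset.sum_congr rfl; intro x _
      rw [Finset.sum_comm]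
      apply Finset.sum_congr rfl; intro y _
      rw [Finset.sum_filter]
    have h6 : ∑ c : Wd n, ∑ x ∈ C, ∑ y ∈ C.erase x,
        (if ¬ |(wt (y - c) : ℝ) - r * n| ≤ η * n then a ^ wt (y - c) * a ^ wt (x - c) else 0) =
        ∑ c : Wd n, ∑ x ∈ C, ∑ y ∈ C.erase x,
        (if ¬ |(wt (x - c) : ℝ) - r * n| ≤ η * n then a ^ wt (x - c) * a ^ wt (y - c) else 0) := by
      apply Finset.sum_congr rfl; intro c _
      apply Finset.sum_comm'
      intro x y
      simp only [Finset.mem_erase, ne_eq]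
      constructor
      · rintro ⟨h7, h8, h9⟩; exact ⟨⟨fun h => h8 h.symm, h7⟩, h9⟩
      · rintro ⟨⟨h7, h8⟩, h9⟩; exact ⟨h8, fun h => h7 h.symm, h9⟩
    rw [h6, h5]
    ring


/-- the total sum with `z1 = p e^(iψ)` written with centres -/
theorem sum_centres {a : ℝ} (ha0 : 0 < a) (C : Finset (Wd n)) (f : Wd n → ℝ) (ψ : ℝ) :
    ∑ c : Wd n, ∑ x ∈ C, ∑ y ∈ C.erase x,
        ((a ^ wt (x - c) * a ^ wt (y - c) : ℝ) : ℂ) * ((f x : ℂ) * (f y : ℂ) * ph (ψ * (wt (x - y) : ℝ))) =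
      (((1 + a ^ 2) ^ n : ℝ) : ℂ) * ∑ x ∈ C, ∑ y ∈ C.erase x, (f x : ℂ) * (f y : ℂ) *
          (((2 * a / (1 + a ^ 2) : ℝ) : ℂ) * ph ψ) ^ wt (x - y) := by
  have h1a : (0 : ℝ) < 1 + a ^ 2 := by positivity
  rw [Finset.sum_comm, Finset.mul_sum]
  apply Finset.sum_congr rfl; intro x _
  rw [Finset.sum_comm, Finset.mul_sum]
  apply Finset.sum_congr rfl; intro y _
  rw [← Finset.sum_mul, ← Complex.ofReal_sum, centre_one]
  have hd : wt (x - y) ≤ n := Four.wt_le _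
  have e1 : (1 + a * a) ^ (n - wt (x - y)) * (a + a) ^ wt (x - y) =
      (1 + a ^ 2) ^ n * (2 * a / (1 + a ^ 2)) ^ wt (x - y) := by
    rw [div_pow, mul_div_assoc', eq_div_iff (by positivity)]
    have : (1 + a ^ 2) ^ n = (1 + a ^ 2) ^ (n - wt (x - y)) * (1 + a ^ 2) ^ wt (x - y) := by
      rw [← pow_add]; congr 1; omega
    rw [this]; ring
  have e2 : ph (ψ * (wt (x - y) : ℝ)) = ph ψ ^ wt (x - y) := by
    unfold ph
    rw [← Complex.exp_nat_mul]
    congr 1; push_cast; ring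
  rw [e1, e2, mul_pow]
  push_cast
  ring

theorem ZZ_eq {a : ℝ} (C : Finset (Wd n)) :
    (1 + a ^ 2) ^ n * ((C.card : ℝ) ^ 2 * pw n (-1) * (1 + 2 * a / (1 + a ^ 2)) ^ n) = ZZ a C := by
  have h1a : (0 : ℝ) < 1 + a ^ 2 := by positivity
  unfold ZZ
  have : ((1 + a) ^ 2) ^ n = (1 + a ^ 2) ^ n * (1 + 2 * a / (1 + a ^ 2)) ^ n := by
    rw [← mul_pow]; congr 1; field_simp; ring
  rw [this]; ring

/-- the table identically 1 -/
theorem tab_one {a R : ℝ} (ha0 : 0 < a) (ha1 : a < 1)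
    (hR1 : (2 : ℝ) ^ (1 - R) * a ^ (a / (1 + a)) < 1 + a) : TabOK a 1 1 R (fun _ _ => 1) where
  a0 := ha0
  a1 := ha1
  lam0 := one_pos
  lam1 := le_rfl
  sym := rfl
  p00 := zero_le_one
  p01 := zero_le_one
  p11 := zero_le_one
  G00 := le_rfl
  G11 := le_rfl
  eig := by ring
  le1 := by nlinarith [sq_nonneg (1 - a)]
  h2 := by nlinarith [sq_nonneg ((1 - a) ^ 2)]
  h1 := by rw [one_mul, one_mul]; exact hR1

theorem KK_one (x y : Wd n) : KK (fun _ _ => 1) x y = 1 := by unfold KK; simp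

/-- lower bound of the sum of the amplitudes over all centres -/
theorem sum_amp {a R η γ τ : ℝ} (ha0 : 0 < a) (ha1 : a < 1)
    {C : Finset (Wd n)} (hR : pw n R ≤ C.card)
    (hq : (2 : ℝ) ^ (1 - R) * a ^ (a / (1 + a) - η) ≤ (1 + a) * (2 : ℝ) ^ (-γ))
    (hτγ : 4 * τ ≤ γ) (hτ : 0 ≤ τ) (hbig : 18 ≤ pw n (γ / 2))
    (hwin : ∑ x ∈ C, ∑ y ∈ C.erase x,
          ∑ c ∈ (univ : Finset (Wd n)).filter
            (fun c => ¬ |(wt (x - c) : ℝ) - a / (1 + a) * n| ≤ η * n),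
            a ^ wt (x - c) * a ^ wt (y - c) ≤ 4 * pw n (τ - γ) * ZZ a C)
    (f : Wd n → ℝ) (hf : ∀ x, |f x| ≤ 1) (ψ : ℝ)
    (hA : pw n (-τ) * ((C.card : ℝ) ^ 2 * pw n (-1) * (1 + 2 * a / (1 + a ^ 2)) ^ n) ≤
        ‖∑ x ∈ C, ∑ y ∈ C.erase x, (f x : ℂ) * (f y : ℂ) *
          (((2 * a / (1 + a ^ 2) : ℝ) : ℂ) * ph ψ) ^ wt (x - y)‖) :
    1 / 2 * pw n (-τ) * ZZ a C ≤ ∑ c : Wd n, ‖∑ x ∈ win (a / (1 + a)) η C c,
      ∑ y ∈ win (a / (1 + a)) η C c, ((a ^ wt (x - c) * a ^ wt (y - c) : ℝ) : ℂ) *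
        ((f x : ℂ) * (f y : ℂ) * ph (ψ * (wt (x - y) : ℝ)))‖ := by
  have hZ : 0 ≤ ZZ a C := by
    unfold ZZ
    have := pw_pos n (-1)
    positivity
  have h1a : (0 : ℝ) < (1 + a ^ 2) ^ n := by positivity
  have h1 := split_bound (η := η) ha0 C f hf (a / (1 + a)) ψ
  rw [sum_centres ha0, norm_mul, Complex.norm_real, Real.norm_eq_abs, abs_of_pos h1a] at h1
  have h2 : pw n (-τ) * ZZ a C ≤ (1 + a ^ 2) ^ n *
      ‖∑ x ∈ C, ∑ y ∈ C.erase x, (f x : ℂ) * (f y : ℂ) *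
          (((2 * a / (1 + a ^ 2) : ℝ) : ℂ) * ph ψ) ^ wt (x - y)‖ := by
    rw [← ZZ_eq (a := a) C]
    calc pw n (-τ) * ((1 + a ^ 2) ^ n * ((C.card : ℝ) ^ 2 * pw n (-1) * (1 + 2 * a / (1 + a ^ 2)) ^ n))
        = (1 + a ^ 2) ^ n * (pw n (-τ) * ((C.card : ℝ) ^ 2 * pw n (-1) *
          (1 + 2 * a / (1 + a ^ 2)) ^ n)) := by ring
      _ ≤ _ := mul_le_mul_of_nonneg_left hA h1a.le
  have hdiag : ∑ c : Wd n, ∑ x ∈ win (a / (1 + a)) η C c, a ^ wt (x - c) * a ^ wt (x - c) ≤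
      pw n (-γ) * ZZ a C := by
    have h3 := diag_le ha0 ha1 (G := 1) (g := fun _ _ => 1) zero_le_one zero_le_one le_rfl le_rfl
      (a / (1 + a)) η C
    simp only [KK_one, mul_one] at h3
    refine h3.trans ?_
    have h4 : (1 * a ^ (a / (1 + a) - η) * (1 + a)) ≤
        (2 : ℝ) ^ (R - 1) * ((1 + a) ^ 2 * (2 : ℝ) ^ (-γ)) := by
      have h5 : (2 : ℝ) ^ (R - 1) * (2 : ℝ) ^ (1 - R) = 1 := by
        rw [← Real.rpow_add (by norm_num)]; simp
      calc 1 * a ^ (a / (1 + a) - η) * (1 + a)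
          = (2 : ℝ) ^ (R - 1) * ((2 : ℝ) ^ (1 - R) * a ^ (a / (1 + a) - η)) * (1 + a) := by
            rw [← mul_assoc ((2 : ℝ) ^ (R - 1)), h5]
        _ ≤ (2 : ℝ) ^ (R - 1) * ((1 + a) * (2 : ℝ) ^ (-γ)) * (1 + a) := by
            apply mul_le_mul_of_nonneg_right _ (by linarith)
            exact mul_le_mul_of_nonneg_left hq (Real.rpow_nonneg (by norm_num) _)
        _ = _ := by ring
    have h6 : (1 * a ^ (a / (1 + a) - η) * (1 + a)) ^ n ≤
        pw n (R - 1) * (((1 + a) ^ 2) ^ n * pw n (-γ)) := by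
      have h7 : 0 ≤ 1 * a ^ (a / (1 + a) - η) * (1 + a) := by
        have := Real.rpow_pos_of_pos ha0 (a / (1 + a) - η)
        positivity
      refine (pow_le_pow_left₀ h7 h4 n).trans (le_of_eq ?_)
      rw [mul_pow, mul_pow]
      unfold pw
      rw [Real.rpow_mul (by norm_num), Real.rpow_mul (by norm_num), Real.rpow_natCast,
        Real.rpow_natCast]
    have h8 : pw n (R - 1) = pw n R * pw n (-1) := by rw [← pw_add]; congr 1
    calc (C.card : ℝ) * (1 * a ^ (a / (1 + a) - η) * (1 + a)) ^ n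
        ≤ C.card * (pw n (R - 1) * (((1 + a) ^ 2) ^ n * pw n (-γ))) :=
          mul_le_mul_of_nonneg_left h6 (Nat.cast_nonneg _)
      _ = (C.card * pw n R) * (pw n (-1) * (((1 + a) ^ 2) ^ n * pw n (-γ))) := by rw [h8]; ring
      _ ≤ (C.card * C.card) * (pw n (-1) * (((1 + a) ^ 2) ^ n * pw n (-γ))) := by
          apply mul_le_mul_of_nonneg_right _ (by
            have := pw_pos n (-1); have := pw_pos n (-γ); positivity)
          exact mul_le_mul_of_nonneg_left hR (Nat.cast_nonneg _)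
      _ = pw n (-γ) * ZZ a C := by unfold ZZ; ring
  have h9 : 2 * ∑ x ∈ C, ∑ y ∈ C.erase x,
          ∑ c ∈ (univ : Finset (Wd n)).filter
            (fun c => ¬ |(wt (x - c) : ℝ) - a / (1 + a) * n| ≤ η * n),
            a ^ wt (x - c) * a ^ wt (y - c) ≤ 8 * pw n (τ - γ) * ZZ a C := by linarith
  have h10 : 8 * pw n (τ - γ) + pw n (-γ) ≤ 1 / 2 * pw n (-τ) := by
    have e1 : pw n (τ - γ) ≤ pw n (-(γ / 2)) * pw n (-τ) := by
      rw [← pw_add]; exact pw_mono n (by linarith)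
    have e2 : pw n (-γ) ≤ pw n (-(γ / 2)) * pw n (-τ) := by
      rw [← pw_add]; exact pw_mono n (by linarith)
    have e3 : pw n (-(γ / 2)) ≤ 1 / 18 := by
      rw [pw_neg]
      rw [inv_le_comm₀ (pw_pos n _) (by norm_num)]
      simpa using hbig
    have e4 := pw_pos n (-τ)
    nlinarith
  have h11 : pw n (-τ) * ZZ a C - 1 / 2 * pw n (-τ) * ZZ a C ≤
      ‖∑ c : Wd n, ∑ x ∈ win (a / (1 + a)) η C c, ∑ y ∈ win (a / (1 + a)) η C c,
        ((a ^ wt (x - c) * a ^ wt (y - c) : ℝ) : ℂ) *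
          ((f x : ℂ) * (f y : ℂ) * ph (ψ * (wt (x - y) : ℝ)))‖ := by
    have h12 := mul_le_mul_of_nonneg_right h10 hZ
    linarith
  calc 1 / 2 * pw n (-τ) * ZZ a C = pw n (-τ) * ZZ a C - 1 / 2 * pw n (-τ) * ZZ a C := by ring
    _ ≤ _ := h11
    _ ≤ _ := norm_sum_le _ _

end Sh5

theorem sh_piece {a lam G R : ℝ} {g : ZMod 2 → ZMod 2 → ℝ} (hg : TabOK a lam G R g)
    (hR1 : (2 : ℝ) ^ (1 - R) * a ^ (a / (1 + a)) < 1 + a) (ψ : ℝ) {τ' : ℝ} (hτ' : 0 < τ') :
    ∃ τ : ℝ, 0 < τ ∧ ∃ n0 : ℕ, ∀ n ≥ n0, ∀ C : Finset (Wd n), pw n R ≤ C.card → Typ C τ →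
      ∀ f : Wd n → ℝ, (∀ x, |f x| ≤ 1) →
      pw n (-τ) * ((C.card : ℝ) ^ 2 * pw n (-1) * (1 + 2 * a / (1 + a ^ 2)) ^ n) ≤
        ‖∑ x ∈ C, ∑ y ∈ C.erase x, (f x : ℂ) * (f y : ℂ) *
          (((2 * a / (1 + a ^ 2) : ℝ) : ℂ) * ph ψ) ^ wt (x - y)‖ →
      ∃ (c : Wd n) (A : Finset (Wd n)) (h : Wd n → ℝ), A ⊆ C ∧ A.Nonempty ∧ (∀ x, |h x| ≤ 1) ∧
        pw n (-τ') * (A.card : ℝ) ^ 2 ≤
          ‖∑ x ∈ A, ∑ y ∈ A, (h x : ℂ) * (h y : ℂ) * ph (ψ * (wt (x - y) : ℝ))‖ ∧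
        ∑ x ∈ A, ∑ y ∈ A, KK g (x - c) (y - c) ≤ pw n τ' * lam ^ n * (A.card : ℝ) ^ 2 := by
  classical
  have ha0 := hg.a0
  have ha1 := hg.a1
  have hlam := hg.lam0
  obtain ⟨η0, hη0, hW⟩ := window_off ha0 ha1
  obtain ⟨η, hη, hηη0, hE1, hE2, hE3⟩ := Sh5.exists_eta (τ' := τ') ha0 hη0 hτ' hg.h1 hR1
  obtain ⟨γ1, hγ1, hW⟩ := hW η hη hηη0
  set q0 : ℝ := (2 : ℝ) ^ (1 - R) * a ^ (a / (1 + a) - η) / (1 + a) with hq0
  have h1a : (0 : ℝ) < 1 + a := by linarith
  have hq0pos : 0 < q0 := by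
    rw [hq0]
    have := Real.rpow_pos_of_pos ha0 (a / (1 + a) - η)
    have := Real.rpow_pos_of_pos (show (0 : ℝ) < 2 by norm_num) (1 - R)
    positivity
  have hq01 : q0 < 1 := by rw [hq0, div_lt_one h1a]; exact hE2
  set γ2 : ℝ := -Real.logb 2 q0 with hγ2
  have hγ2pos : 0 < γ2 := by
    have := Real.logb_neg (b := 2) (by norm_num) hq0pos hq01
    rw [hγ2]; linarith
  set γ : ℝ := min γ1 γ2 with hγ
  have hγpos : 0 < γ := lt_min hγ1 hγ2pos
  have hq : (2 : ℝ) ^ (1 - R) * a ^ (a / (1 + a) - η) ≤ (1 + a) * (2 : ℝ) ^ (-γ) := by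
    have h1 : q0 ≤ (2 : ℝ) ^ (-γ) := by
      calc q0 = (2 : ℝ) ^ Real.logb 2 q0 := (Real.rpow_logb (by norm_num) (by norm_num) hq0pos).symm
        _ ≤ (2 : ℝ) ^ (-γ) := by
            apply Real.rpow_le_rpow_of_exponent_le (by norm_num)
            have := min_le_right γ1 γ2
            rw [← hγ] at this
            rw [hγ2] at this; linarith
    rw [hq0, div_le_iff₀ h1a] at h1
    linarith
  set τ : ℝ := min (γ / 4) (τ' / 8) with hτ
  have hτpos : 0 < τ := lt_min (by positivity) (by positivity)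
  have hτγ : 4 * τ ≤ γ := by have := min_le_left (γ / 4) (τ' / 8); rw [← hτ] at this; linarith
  have hττ : 8 * τ ≤ τ' := by have := min_le_right (γ / 4) (τ' / 8); rw [← hτ] at this; linarith
  obtain ⟨nA, hnA⟩ := pw_large 18 (show (0 : ℝ) < γ / 2 by positivity)
  obtain ⟨nB, hnB⟩ := pw_large 24 (show (0 : ℝ) < τ' / 4 by positivity)
  refine ⟨τ, hτpos, max nA nB, ?_⟩
  intro n hn C hC hT f hf hA
  have hA18 := hnA n ((le_max_left _ _).trans hn)
  have hB24 := hnB n ((le_max_right _ _).trans hn)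
  have hwin := hW n C τ hτpos.le hT
  have hZpos : 0 < ZZ a C := by
    unfold ZZ
    have h1 := pw_pos n (-1)
    have h2 : (0 : ℝ) < C.card := lt_of_lt_of_le (pw_pos n _) hC
    positivity
  have hwin' : ∑ x ∈ C, ∑ y ∈ C.erase x,
          ∑ c ∈ (univ : Finset (Wd n)).filter
            (fun c => ¬ |(wt (x - c) : ℝ) - a / (1 + a) * n| ≤ η * n),
            a ^ wt (x - c) * a ^ wt (y - c) ≤ 4 * pw n (τ - γ) * ZZ a C := by
    refine hwin.trans ?_
    apply mul_le_mul_of_nonneg_right _ hZpos.le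
    apply mul_le_mul_of_nonneg_left _ (by norm_num)
    exact pw_mono n (by have := min_le_left γ1 γ2; rw [← hγ] at this; linarith)
  have hamp := Sh5.sum_amp ha0 ha1 hC hq hτγ hτpos.le hA18 hwin' f hf ψ hA
  have htot1 := total (Sh5.tab_one ha0 ha1 hR1) (η := η) (by rw [one_mul, one_mul]; exact hE2.le)
    hτpos.le hC hT
  simp only [Sh5.KK_one, mul_one, one_pow] at htot1
  have htot2 := total hg (η := η) hE1 hτpos.le hC hT
  set W : Wd n → Finset (Wd n) := fun c => win (a / (1 + a)) η C c with hWdef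
  set b : Wd n → ℝ := fun c => ‖∑ x ∈ W c, ∑ y ∈ W c, ((a ^ wt (x - c) * a ^ wt (y - c) : ℝ) : ℂ) *
        ((f x : ℂ) * (f y : ℂ) * ph (ψ * (wt (x - y) : ℝ)))‖ with hb
  set t1 : Wd n → ℝ := fun c => ∑ x ∈ W c, ∑ y ∈ W c, a ^ wt (x - c) * a ^ wt (y - c) with ht1
  set t2 : Wd n → ℝ := fun c => ∑ x ∈ W c, ∑ y ∈ W c,
    a ^ wt (x - c) * a ^ wt (y - c) * KK g (x - c) (y - c) with ht2
  have hlamn : 0 < lam ^ n := pow_pos hlam n
  set θ : ℝ := pw n (-(2 * τ)) / 24 with hθ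
  have hθpos : 0 < θ := by rw [hθ]; have := pw_pos n (-(2 * τ)); positivity
  -- choice of the centre
  obtain ⟨c, hc⟩ : ∃ c, θ * (t1 c + (lam ^ n)⁻¹ * t2 c) < b c := by
    by_contra hcon
    push Not at hcon
    have h1 : ∑ c : Wd n, b c ≤ θ * (3 * pw n τ * ZZ a C + (lam ^ n)⁻¹ * (3 * pw n τ * lam ^ n * ZZ a C)) := by
      calc ∑ c : Wd n, b c ≤ ∑ c : Wd n, θ * (t1 c + (lam ^ n)⁻¹ * t2 c) :=
            Finset.sum_le_sum fun c _ => hcon c
        _ = θ * (∑ c : Wd n, t1 c + (lam ^ n)⁻¹ * ∑ c : Wd n, t2 c) := by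
            rw [← Finset.mul_sum, Finset.sum_add_distrib, ← Finset.mul_sum]
        _ ≤ _ := by
            apply mul_le_mul_of_nonneg_left _ hθpos.le
            apply add_le_add htot1
            exact mul_le_mul_of_nonneg_left htot2 (inv_nonneg.mpr hlamn.le)
    have h2 : θ * (3 * pw n τ * ZZ a C + (lam ^ n)⁻¹ * (3 * pw n τ * lam ^ n * ZZ a C)) =
        1 / 4 * pw n (-τ) * ZZ a C := by
      have h3 : (lam ^ n)⁻¹ * (3 * pw n τ * lam ^ n * ZZ a C) = 3 * pw n τ * ZZ a C := by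
        field_simp
      have h4 : pw n (-(2 * τ)) * pw n τ = pw n (-τ) := by rw [← pw_add]; congr 1; ring
      rw [h3, hθ, ← h4]; ring
    have h5 : 0 < pw n (-τ) * ZZ a C := mul_pos (pw_pos n _) hZpos
    have h6 := hamp.trans (h1.trans (le_of_eq h2))
    linarith
  -- bounds of the weights on the window
  have hK0 : ∀ x y : Wd n, 0 ≤ KK g x y := by
    intro x y
    unfold KK
    apply Finset.prod_nonneg
    intro i _
    rcases z01 (x i) with hx | hx <;> rcases z01 (y i) with hy | hy <;> rw [hx, hy]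
    · exact hg.p00
    · exact hg.p01
    · rw [← hg.sym]; exact hg.p01
    · exact hg.p11
  have ht10 : 0 ≤ t1 c := by
    rw [ht1]
    exact Finset.sum_nonneg fun x _ => Finset.sum_nonneg fun y _ => by positivity
  have ht20 : 0 ≤ t2 c := by
    rw [ht2]
    exact Finset.sum_nonneg fun x _ => Finset.sum_nonneg fun y _ => mul_nonneg (by positivity) (hK0 _ _)
  have hbpos : 0 < b c := by
    refine lt_of_le_of_lt ?_ hc
    apply mul_nonneg hθpos.le
    have := mul_nonneg (inv_nonneg.mpr hlamn.le) ht20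
    linarith
  have hne : (W c).Nonempty := by
    rw [Finset.nonempty_iff_ne_empty]
    intro h0
    rw [hb] at hbpos
    simp only [h0, Finset.sum_empty, norm_zero, lt_self_iff_false] at hbpos
  set up : ℝ := a ^ ((a / (1 + a) - η) * n) with hup
  set lo : ℝ := a ^ ((a / (1 + a) + η) * n) with hlo
  have huppos : 0 < up := Real.rpow_pos_of_pos ha0 _
  have hlopos : 0 < lo := Real.rpow_pos_of_pos ha0 _
  have hwle : ∀ x ∈ W c, a ^ wt (x - c) ≤ up ∧ lo ≤ a ^ wt (x - c) := by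
    intro x hx
    have h1 := abs_le.mp (Finset.mem_filter.mp hx).2
    constructor
    · rw [hup, ← Real.rpow_natCast]
      apply Real.rpow_le_rpow_of_exponent_ge ha0 ha1.le
      linarith [h1.1]
    · rw [hlo, ← Real.rpow_natCast]
      apply Real.rpow_le_rpow_of_exponent_ge ha0 ha1.le
      linarith [h1.2]
  have hratio : lo ^ 2 / up ^ 2 = a ^ (4 * η * n) := by
    rw [hlo, hup, ← Real.rpow_natCast, ← Real.rpow_natCast, ← Real.rpow_mul ha0.le,
      ← Real.rpow_mul ha0.le, ← Real.rpow_sub ha0]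
    congr 1; push_cast; ring
  have hkey : pw n (-τ') ≤ θ * (lo ^ 2 / up ^ 2) := by
    have h1 : pw n (-(τ' / 2)) ≤ a ^ (4 * η * n) := by
      unfold pw
      rw [Real.rpow_mul (by norm_num), Real.rpow_mul ha0.le]
      exact Real.rpow_le_rpow (Real.rpow_nonneg (by norm_num) _) hE3 (Nat.cast_nonneg _)
    rw [hratio, hθ]
    have h2 : pw n (-τ') ≤ pw n (-(2 * τ)) / 24 * pw n (-(τ' / 2)) := by
      have h3 : pw n (-τ') * 24 ≤ pw n (-(2 * τ)) * pw n (-(τ' / 2)) := by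
        calc pw n (-τ') * 24 ≤ pw n (-τ') * pw n (τ' / 4) :=
              mul_le_mul_of_nonneg_left hB24 (pw_pos n _).le
          _ = pw n (-τ' + τ' / 4) := (pw_add _ _ _).symm
          _ ≤ pw n (-(2 * τ) + -(τ' / 2)) := pw_mono n (by linarith)
          _ = _ := pw_add _ _ _
      linarith
    refine h2.trans ?_
    apply mul_le_mul_of_nonneg_left h1
    have := pw_pos n (-(2 * τ)); positivity
  -- the weights
  set h : Wd n → ℝ := fun x => if x ∈ W c then f x * (a ^ wt (x - c) / up) else 0 with hh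
  have hh1 : ∀ x, |h x| ≤ 1 := by
    intro x
    rw [hh]
    by_cases hx : x ∈ W c
    · simp only [if_pos hx]
      rw [abs_mul]
      have h1 : |a ^ wt (x - c) / up| ≤ 1 := by
        rw [abs_of_nonneg (by positivity), div_le_one huppos]
        exact (hwle x hx).1
      exact mul_le_one₀ (hf x) (abs_nonneg _) h1
    · simp only [if_neg hx, abs_zero]; exact zero_le_one
  have hsum : ∑ x ∈ W c, ∑ y ∈ W c, (h x : ℂ) * (h y : ℂ) * ph (ψ * (wt (x - y) : ℝ)) =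
      ((1 / up ^ 2 : ℝ) : ℂ) * ∑ x ∈ W c, ∑ y ∈ W c, ((a ^ wt (x - c) * a ^ wt (y - c) : ℝ) : ℂ) *
        ((f x : ℂ) * (f y : ℂ) * ph (ψ * (wt (x - y) : ℝ))) := by
    rw [Finset.mul_sum]
    apply Finset.sum_congr rfl; intro x hx
    rw [Finset.mul_sum]
    apply Finset.sum_congr rfl; intro y hy
    rw [hh]
    simp only [if_pos hx, if_pos hy]
    push_cast
    ring
  have hnorm : ‖∑ x ∈ W c, ∑ y ∈ W c, (h x : ℂ) * (h y : ℂ) * ph (ψ * (wt (x - y) : ℝ))‖ =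
      b c / up ^ 2 := by
    rw [hsum, norm_mul, Complex.norm_real, Real.norm_eq_abs, abs_of_pos (by positivity)]
    rw [hb]; ring
  have hnormle : ‖∑ x ∈ W c, ∑ y ∈ W c, (h x : ℂ) * (h y : ℂ) * ph (ψ * (wt (x - y) : ℝ))‖ ≤
      ((W c).card : ℝ) ^ 2 := by
    refine (norm_sum_le _ _).trans ?_
    calc ∑ x ∈ W c, ‖∑ y ∈ W c, (h x : ℂ) * (h y : ℂ) * ph (ψ * (wt (x - y) : ℝ))‖
        ≤ ∑ x ∈ W c, ((W c).card : ℝ) := by
          apply Finset.sum_le_sum; intro x _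
          refine (norm_sum_le _ _).trans ?_
          calc ∑ y ∈ W c, ‖(h x : ℂ) * (h y : ℂ) * ph (ψ * (wt (x - y) : ℝ))‖ ≤ ∑ y ∈ W c, (1 : ℝ) := by
                apply Finset.sum_le_sum; intro y _
                have h1 : ‖ph (ψ * (wt (x - y) : ℝ))‖ = 1 := Complex.norm_exp_ofReal_mul_I _
                rw [norm_mul, norm_mul, h1, mul_one, Complex.norm_real, Complex.norm_real,
                  Real.norm_eq_abs, Real.norm_eq_abs]
                exact mul_le_one₀ (hh1 x) (abs_nonneg _) (hh1 y)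
            _ = ((W c).card : ℝ) := by simp
      _ = ((W c).card : ℝ) ^ 2 := by rw [Finset.sum_const, nsmul_eq_mul, sq]
  have ht1lo : lo ^ 2 * ((W c).card : ℝ) ^ 2 ≤ t1 c := by
    rw [ht1]
    calc lo ^ 2 * ((W c).card : ℝ) ^ 2 = ∑ x ∈ W c, ∑ y ∈ W c, lo * lo := by
          simp only [Finset.sum_const, nsmul_eq_mul]; ring
      _ ≤ _ := by
          apply Finset.sum_le_sum; intro x hx
          apply Finset.sum_le_sum; intro y hy
          exact mul_le_mul (hwle x hx).2 (hwle y hy).2 hlopos.le (by positivity)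
  have ht2lo : lo ^ 2 * ∑ x ∈ W c, ∑ y ∈ W c, KK g (x - c) (y - c) ≤ t2 c := by
    rw [ht2, Finset.mul_sum]
    apply Finset.sum_le_sum; intro x hx
    rw [Finset.mul_sum]
    apply Finset.sum_le_sum; intro y hy
    apply mul_le_mul_of_nonneg_right _ (hK0 _ _)
    rw [sq]
    exact mul_le_mul (hwle x hx).2 (hwle y hy).2 hlopos.le (by positivity)
  have hcard0 : (0 : ℝ) < (W c).card := by exact_mod_cast hne.card_pos
  refine ⟨c, W c, h, Finset.filter_subset _ _, hne, hh1, ?_, ?_⟩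
  · rw [hnorm, le_div_iff₀ (by positivity)]
    have h1 : θ * (lo ^ 2 * ((W c).card : ℝ) ^ 2) ≤ b c := by
      refine le_trans ?_ hc.le
      apply mul_le_mul_of_nonneg_left _ hθpos.le
      have := mul_nonneg (inv_nonneg.mpr hlamn.le) ht20
      linarith
    calc pw n (-τ') * ((W c).card : ℝ) ^ 2 * up ^ 2
        ≤ θ * (lo ^ 2 / up ^ 2) * ((W c).card : ℝ) ^ 2 * up ^ 2 := by
          apply mul_le_mul_of_nonneg_right _ (by positivity)
          exact mul_le_mul_of_nonneg_right hkey (by positivity)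
      _ = θ * (lo ^ 2 * ((W c).card : ℝ) ^ 2) := by field_simp
      _ ≤ b c := h1
  · have h1 : θ * ((lam ^ n)⁻¹ * (lo ^ 2 * ∑ x ∈ W c, ∑ y ∈ W c, KK g (x - c) (y - c))) ≤
        up ^ 2 * ((W c).card : ℝ) ^ 2 := by
      calc θ * ((lam ^ n)⁻¹ * (lo ^ 2 * ∑ x ∈ W c, ∑ y ∈ W c, KK g (x - c) (y - c)))
          ≤ θ * ((lam ^ n)⁻¹ * t2 c) := by
            apply mul_le_mul_of_nonneg_left _ hθpos.le
            exact mul_le_mul_of_nonneg_left ht2lo (inv_nonneg.mpr hlamn.le)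
        _ ≤ θ * (t1 c + (lam ^ n)⁻¹ * t2 c) := by
            apply mul_le_mul_of_nonneg_left _ hθpos.le
            linarith
        _ ≤ b c := hc.le
        _ = up ^ 2 * (b c / up ^ 2) := by field_simp
        _ ≤ _ := by
            apply mul_le_mul_of_nonneg_left _ (by positivity)
            rw [← hnorm]; exact hnormle
    set Kt : ℝ := ∑ x ∈ W c, ∑ y ∈ W c, KK g (x - c) (y - c) with hKt
    have hKt0 : 0 ≤ Kt := Finset.sum_nonneg fun x _ => Finset.sum_nonneg fun y _ => hK0 _ _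
    have h2 : θ * (lo ^ 2 / up ^ 2) * Kt ≤ lam ^ n * ((W c).card : ℝ) ^ 2 := by
      have h3 : θ * (lo ^ 2 / up ^ 2) * Kt =
          lam ^ n * ((θ * ((lam ^ n)⁻¹ * (lo ^ 2 * Kt))) / up ^ 2) := by
        field_simp
      rw [h3]
      apply mul_le_mul_of_nonneg_left _ hlamn.le
      rw [div_le_iff₀ (by positivity)]
      linarith
    have h4 : pw n (-τ') * Kt ≤ lam ^ n * ((W c).card : ℝ) ^ 2 :=
      (mul_le_mul_of_nonneg_right hkey hKt0).trans h2
    have h5 : pw n τ' * pw n (-τ') = 1 := by rw [← pw_add, add_neg_cancel, pw_zero]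
    calc Kt = pw n τ' * (pw n (-τ') * Kt) := by rw [← mul_assoc, h5, one_mul]
      _ ≤ pw n τ' * (lam ^ n * ((W c).card : ℝ) ^ 2) :=
          mul_le_mul_of_nonneg_left h4 (pw_pos n _).le
      _ = _ := by ring

end Pool.Agent.Lib.MP_0430e4_lc.AC
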