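import Pool.Agent.Lib.MP_0430e4_lc.AC.ShD

/-!
Sh8 (SHELL51.md section 6): the one-coordinate estimates.
`X 0 = -r`, `X 1 = 1-r`, weights `1-r`, `r`; `v = r(1-r)`. For all tables `K s t = ph (-2 φ X_s X_t)` there are
unique `al, be, ga` with `K s t = al + be (X_s + X_t) + ga X_s X_t`; solve:
`al = (1-r)^2 K00 + 2r(1-r) K01 + r^2 K11`, `ga = K00 - 2 K01 + K11`,
`be = (1-r)(K01 - K00) + r (K11 - K01)`.
PROOF of the bounds (`T = 2 φ X_s X_t`, `|X| ≤ 1`, sums over `s,t` with the weights; `E X = 0`,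
`E X^2 = v`, `E |X|^3 ≤ v`):
`|al| ≤ 1 - φ^2 v^2`: `‖exp(-iT) - (1 - iT - T^2/2)‖ ≤ |T|^3/6`, so
`|al - (1 - 2 φ^2 v^2)| ≤ (8 φ^3/6) (E|X|^3)^2 ≤ (4/3) φ^3 v^2 ≤ φ^2 v^2 / 3` and `2 φ^2 v^2 ≤ 1`.
`v be = E E K X_t`: `‖exp(-iT) - (1 - iT)‖ ≤ T^2/2`, so `v |be| ≤ 2 φ^2 E X^2 E|X|^3 ≤ 2 φ^2 v^2`.
`v^2 ga = E E K X_s X_t`: `‖exp(-iT) - 1‖ ≤ |T|`, so `v^2 |ga| ≤ 2 φ (E X^2)^2 = 2 φ v^2`.
-/

set_option autoImplicit false

open Finset

namespace Pool.Agent.Lib.MP_0430e4_lc.AC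

open BY BY.Four

theorem ph_e1 (T : ℝ) : ‖ph (-T) - 1‖ ≤ |T| := by
  have h := Real.norm_exp_I_mul_ofReal_sub_one_le (x := -T)
  rw [Real.norm_eq_abs, abs_neg, mul_comm] at h
  exact h

theorem ph_hasDeriv (T x : ℝ) :
    HasDerivAt (fun t : ℝ => ph (-(t * T))) (-(T * Complex.I) * ph (-(x * T))) x := by
  unfold ph
  have h1 : HasDerivAt (fun t : ℝ => -(t * T)) (-(1 * T)) x := ((hasDerivAt_id x).mul_const T).neg
  have h2 := (h1.ofReal_comp.mul_const Complex.I).cexp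
  refine h2.congr_deriv ?_
  push_cast
  ring

theorem ph_e2 (T : ℝ) : ‖ph (-T) - (1 - T * Complex.I)‖ ≤ T ^ 2 / 2 := by
  have key : ∀ ⦃x : ℝ⦄, x ∈ Set.Icc (0 : ℝ) 1 →
      ‖ph (-(x * T)) - (1 - x * T * Complex.I)‖ ≤ x ^ 2 * T ^ 2 / 2 := by
    have hd : ∀ x : ℝ, HasDerivAt (fun t : ℝ => ph (-(t * T)) - (1 - t * T * Complex.I))
        (-(T * Complex.I) * (ph (-(x * T)) - 1)) x := by
      intro x
      have h1 := ph_hasDeriv T x
      have h2 : HasDerivAt (fun t : ℝ => (1 : ℂ) - t * T * Complex.I)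
          (-(((1 : ℝ) : ℂ) * T * Complex.I)) x := by
        have h3 : HasDerivAt (fun t : ℝ => (t : ℂ)) ((1 : ℝ) : ℂ) x := (hasDerivAt_id x).ofReal_comp
        exact ((h3.mul_const (T : ℂ)).mul_const Complex.I).const_sub 1
      refine (h1.sub h2).congr_deriv ?_
      push_cast
      ring
    refine image_norm_le_of_norm_deriv_right_le_deriv_boundary
      (f' := fun x => -(T * Complex.I) * (ph (-(x * T)) - 1)) (B' := fun x => x * T ^ 2)
      (fun x _ => (hd x).continuousAt.continuousWithinAt) (fun x _ => (hd x).hasDerivWithinAt)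
      ?_ ?_ ?_
    · simp [ph]
    · intro x
      have h : HasDerivAt (fun t : ℝ => t ^ 2 * T ^ 2 / 2) ((2 * x ^ (2 - 1) * 1) * T ^ 2 / 2) x :=
        (((hasDerivAt_id x).pow 2).mul_const (T ^ 2)).div_const 2
      refine h.congr_deriv ?_
      ring
    · intro x hx
      have hx0 : 0 ≤ x := hx.1
      rw [norm_mul, norm_neg, norm_mul, Complex.norm_I, mul_one, Complex.norm_real,
        Real.norm_eq_abs]
      calc |T| * ‖ph (-(x * T)) - 1‖ ≤ |T| * |x * T| :=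
            mul_le_mul_of_nonneg_left (ph_e1 _) (abs_nonneg _)
        _ = x * T ^ 2 := by rw [abs_mul, abs_of_nonneg hx0, ← sq_abs T]; ring
  have := key (x := 1) ⟨zero_le_one, le_rfl⟩
  simpa using this

theorem ph_e3 (T : ℝ) : ‖ph (-T) - (1 - T * Complex.I - T ^ 2 / 2)‖ ≤ |T| ^ 3 / 6 := by
  have key : ∀ ⦃x : ℝ⦄, x ∈ Set.Icc (0 : ℝ) 1 →
      ‖ph (-(x * T)) - (1 - x * T * Complex.I - x ^ 2 * T ^ 2 / 2)‖ ≤ x ^ 3 * |T| ^ 3 / 6 := by
    have hd : ∀ x : ℝ, HasDerivAt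
        (fun t : ℝ => ph (-(t * T)) - (1 - t * T * Complex.I - t ^ 2 * T ^ 2 / 2))
        (-(T * Complex.I) * (ph (-(x * T)) - (1 - x * T * Complex.I))) x := by
      intro x
      have h1 := ph_hasDeriv T x
      have h3 : HasDerivAt (fun t : ℝ => (t : ℂ)) ((1 : ℝ) : ℂ) x := (hasDerivAt_id x).ofReal_comp
      have h2 : HasDerivAt (fun t : ℝ => (1 : ℂ) - t * T * Complex.I)
          (-(((1 : ℝ) : ℂ) * T * Complex.I)) x :=
        ((h3.mul_const (T : ℂ)).mul_const Complex.I).const_sub 1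
      have h4 : HasDerivAt (fun t : ℝ => (t : ℂ) ^ 2 * (T : ℂ) ^ 2 / 2)
          (((2 : ℕ) * (x : ℂ) ^ (2 - 1) * ((1 : ℝ) : ℂ)) * (T : ℂ) ^ 2 / 2) x :=
        ((h3.pow 2).mul_const ((T : ℂ) ^ 2)).div_const 2
      refine (h1.sub (h2.sub h4)).congr_deriv ?_
      push_cast
      linear_combination ((x : ℂ) * (T : ℂ) ^ 2) * Complex.I_sq
    refine image_norm_le_of_norm_deriv_right_le_deriv_boundary
      (f' := fun x => -(T * Complex.I) * (ph (-(x * T)) - (1 - x * T * Complex.I)))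
      (B' := fun x => x ^ 2 * |T| ^ 3 / 2)
      (fun x _ => (hd x).continuousAt.continuousWithinAt) (fun x _ => (hd x).hasDerivWithinAt)
      ?_ ?_ ?_
    · simp [ph]
    · intro x
      have h : HasDerivAt (fun t : ℝ => t ^ 3 * |T| ^ 3 / 6)
          (((3 : ℕ) * x ^ (3 - 1) * 1) * |T| ^ 3 / 6) x :=
        (((hasDerivAt_id x).pow 3).mul_const (|T| ^ 3)).div_const 6
      refine h.congr_deriv ?_
      push_cast
      ring
    · intro x hx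
      have hx0 : 0 ≤ x := hx.1
      rw [norm_mul, norm_neg, norm_mul, Complex.norm_I, mul_one, Complex.norm_real,
        Real.norm_eq_abs]
      have h5 := ph_e2 (x * T)
      have h6 : ph (-(x * T)) - (1 - ((x * T : ℝ) : ℂ) * Complex.I) =
          ph (-(x * T)) - (1 - x * T * Complex.I) := by push_cast; ring
      rw [h6] at h5
      calc |T| * ‖ph (-(x * T)) - (1 - x * T * Complex.I)‖ ≤ |T| * ((x * T) ^ 2 / 2) :=
            mul_le_mul_of_nonneg_left h5 (abs_nonneg _)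
        _ = x ^ 2 * |T| ^ 3 / 2 := by rw [mul_pow, ← sq_abs T]; ring
  have := key (x := 1) ⟨zero_le_one, le_rfl⟩
  simpa using this

theorem coord {φ r : ℝ} (hφ0 : 0 < φ) (hφ1 : φ ≤ 1 / 4) (hr0 : 0 < r) (hr1 : r < 1) :
    ∃ al be ga : ℂ,
      (∀ s t : ZMod 2, ph (-(2 * φ * ((s.val : ℝ) - r) * ((t.val : ℝ) - r))) =
        al + be * ((((s.val : ℝ) - r : ℝ) : ℂ) + (((t.val : ℝ) - r : ℝ) : ℂ)) +
          ga * ((((s.val : ℝ) - r) * ((t.val : ℝ) - r) : ℝ) : ℂ)) ∧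
      ‖al‖ ≤ 1 - φ ^ 2 * r ^ 2 * (1 - r) ^ 2 ∧ ‖be‖ ≤ 2 * φ ^ 2 * (r * (1 - r)) ∧ ‖ga‖ ≤ 2 * φ := by
  obtain ⟨T00, hT00⟩ : ∃ T : ℝ, T = 2 * φ * r * r := ⟨_, rfl⟩
  obtain ⟨T01, hT01⟩ : ∃ T : ℝ, T = -(2 * φ * r * (1 - r)) := ⟨_, rfl⟩
  obtain ⟨T11, hT11⟩ : ∃ T : ℝ, T = 2 * φ * (1 - r) * (1 - r) := ⟨_, rfl⟩
  obtain ⟨A, hA⟩ : ∃ z : ℂ, z = ph (-T00) := ⟨_, rfl⟩
  obtain ⟨B, hB⟩ : ∃ z : ℂ, z = ph (-T01) := ⟨_, rfl⟩
  obtain ⟨D, hD⟩ : ∃ z : ℂ, z = ph (-T11) := ⟨_, rfl⟩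
  have hs : 0 < 1 - r := by linarith
  have hv : 0 < r * (1 - r) := mul_pos hr0 hs
  have hv4 : r * (1 - r) ≤ 1 / 4 := by nlinarith [sq_nonneg (2 * r - 1)]
  have a00 : |T00| = 2 * φ * r * r := by rw [hT00]; exact abs_of_pos (by positivity)
  have a11 : |T11| = 2 * φ * (1 - r) * (1 - r) := by rw [hT11]; exact abs_of_pos (by positivity)
  have a01 : |T01| = 2 * φ * r * (1 - r) := by
    rw [hT01, abs_neg]; exact abs_of_pos (by positivity)
  refine ⟨(1 - r) ^ 2 * A + 2 * r * (1 - r) * B + r ^ 2 * D,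
    (1 - r) * (B - A) + r * (D - B), A - 2 * B + D, ?_, ?_, ?_, ?_⟩
  · have z0 : ((0 : ZMod 2).val : ℝ) = 0 := by simp
    have z1 : ((1 : ZMod 2).val : ℝ) = 1 := by
      have : (1 : ZMod 2).val = 1 := rfl
      rw [this]; norm_num
    have e00 : ph (-(2 * φ * (0 - r) * (0 - r))) = A := by
      rw [hA, hT00]; congr 1; ring
    have e01 : ph (-(2 * φ * (0 - r) * (1 - r))) = B := by
      rw [hB, hT01]; congr 1; ring
    have e10 : ph (-(2 * φ * (1 - r) * (0 - r))) = B := by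
      rw [hB, hT01]; congr 1; ring
    have e11 : ph (-(2 * φ * (1 - r) * (1 - r))) = D := by
      rw [hD, hT11]
    have h2 : ∀ s : ZMod 2, s = 0 ∨ s = 1 := by decide
    intro s t
    rcases h2 s with rfl | rfl <;> rcases h2 t with rfl | rfl
    · rw [z0, e00]; push_cast; ring
    · rw [z0, z1, e01]; push_cast; ring
    · rw [z0, z1, e10]; push_cast; ring
    · rw [z1, e11]; push_cast; ring
  · have h00 := ph_e3 T00
    have h01 := ph_e3 T01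
    have h11 := ph_e3 T11
    rw [← hA, a00] at h00
    rw [← hB, a01] at h01
    rw [← hD, a11] at h11
    have hre : (((1 - 2 * φ ^ 2 * (r * (1 - r)) ^ 2 : ℝ)) : ℂ) =
        (1 - r) ^ 2 * (1 - T00 * Complex.I - T00 ^ 2 / 2) +
        2 * r * (1 - r) * (1 - T01 * Complex.I - T01 ^ 2 / 2) +
        r ^ 2 * (1 - T11 * Complex.I - T11 ^ 2 / 2) := by
      rw [hT00, hT01, hT11]; push_cast; ring
    have hsplit : (1 - r) ^ 2 * A + 2 * r * (1 - r) * B + r ^ 2 * D =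
        (((1 - 2 * φ ^ 2 * (r * (1 - r)) ^ 2 : ℝ)) : ℂ) +
        ((((1 - r) ^ 2 : ℝ) : ℂ) * (A - (1 - T00 * Complex.I - T00 ^ 2 / 2)) +
        ((2 * r * (1 - r) : ℝ) : ℂ) * (B - (1 - T01 * Complex.I - T01 ^ 2 / 2)) +
        ((r ^ 2 : ℝ) : ℂ) * (D - (1 - T11 * Complex.I - T11 ^ 2 / 2))) := by
      rw [hre]; push_cast; ring
    rw [hsplit]
    have hn : ‖((((1 - r) ^ 2 : ℝ) : ℂ) * (A - (1 - T00 * Complex.I - T00 ^ 2 / 2)) +
        ((2 * r * (1 - r) : ℝ) : ℂ) * (B - (1 - T01 * Complex.I - T01 ^ 2 / 2)) +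
        ((r ^ 2 : ℝ) : ℂ) * (D - (1 - T11 * Complex.I - T11 ^ 2 / 2)))‖ ≤
        (1 - r) ^ 2 * ((2 * φ * r * r) ^ 3 / 6) + (2 * r * (1 - r)) * ((2 * φ * r * (1 - r)) ^ 3 / 6)
          + r ^ 2 * ((2 * φ * (1 - r) * (1 - r)) ^ 3 / 6) := by
      refine (norm_add₃_le).trans ?_
      rw [norm_mul, norm_mul, norm_mul, Complex.norm_real, Complex.norm_real, Complex.norm_real,
        Real.norm_of_nonneg (by positivity), Real.norm_of_nonneg (by positivity),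
        Real.norm_of_nonneg (by positivity)]
      gcongr
    refine (norm_add_le _ _).trans ?_
    rw [Complex.norm_real]
    have hpos : 0 ≤ 1 - 2 * φ ^ 2 * (r * (1 - r)) ^ 2 := by
      have h1 : φ ^ 2 ≤ 1 := by nlinarith
      have h2 : (r * (1 - r)) ^ 2 ≤ 1 / 4 := by nlinarith
      nlinarith [sq_nonneg φ, sq_nonneg (r * (1 - r))]
    rw [Real.norm_of_nonneg hpos]
    have hsum : (1 - r) ^ 2 * ((2 * φ * r * r) ^ 3 / 6) +
        (2 * r * (1 - r)) * ((2 * φ * r * (1 - r)) ^ 3 / 6)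
          + r ^ 2 * ((2 * φ * (1 - r) * (1 - r)) ^ 3 / 6) =
          4 / 3 * φ ^ 3 * (r * (1 - r)) ^ 2 * (r ^ 2 + (1 - r) ^ 2) ^ 2 := by ring
    have hq0 : 0 ≤ r ^ 2 + (1 - r) ^ 2 := by positivity
    have hq1 : r ^ 2 + (1 - r) ^ 2 ≤ 1 := by nlinarith
    have hq2 : (r ^ 2 + (1 - r) ^ 2) ^ 2 ≤ 1 := by nlinarith
    have hfin : 4 / 3 * φ ^ 3 * (r * (1 - r)) ^ 2 * (r ^ 2 + (1 - r) ^ 2) ^ 2 ≤
        φ ^ 2 * (r * (1 - r)) ^ 2 := by
      calc 4 / 3 * φ ^ 3 * (r * (1 - r)) ^ 2 * (r ^ 2 + (1 - r) ^ 2) ^ 2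
          ≤ 4 / 3 * φ ^ 3 * (r * (1 - r)) ^ 2 * 1 := by gcongr
        _ = (φ ^ 2 * (r * (1 - r)) ^ 2) * (4 / 3 * φ) := by ring
        _ ≤ (φ ^ 2 * (r * (1 - r)) ^ 2) * 1 := by
            refine mul_le_mul_of_nonneg_left (by linarith) (by positivity)
        _ = φ ^ 2 * (r * (1 - r)) ^ 2 := by ring
    rw [hsum] at hn
    have : φ ^ 2 * r ^ 2 * (1 - r) ^ 2 = φ ^ 2 * (r * (1 - r)) ^ 2 := by ring
    rw [this]
    linarith
  · have h00 := ph_e2 T00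
    have h01 := ph_e2 T01
    have h11 := ph_e2 T11
    rw [← hA] at h00
    rw [← hB] at h01
    rw [← hD] at h11
    have hid : ((r * (1 - r) : ℝ) : ℂ) * ((1 - r) * (B - A) + r * (D - B)) =
        (((1 - r) ^ 2 * (-r) : ℝ) : ℂ) * (A - (1 - T00 * Complex.I)) +
        (((r * (1 - r)) * (1 - 2 * r) : ℝ) : ℂ) * (B - (1 - T01 * Complex.I)) +
        ((r ^ 2 * (1 - r) : ℝ) : ℂ) * (D - (1 - T11 * Complex.I)) := by
      rw [hT00, hT01, hT11]; push_cast; ring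
    have hn : ‖((r * (1 - r) : ℝ) : ℂ) * ((1 - r) * (B - A) + r * (D - B))‖ ≤
        ((1 - r) ^ 2 * r) * (T00 ^ 2 / 2) + (r * (1 - r)) * (T01 ^ 2 / 2) +
          (r ^ 2 * (1 - r)) * (T11 ^ 2 / 2) := by
      rw [hid]
      refine (norm_add₃_le).trans ?_
      rw [norm_mul, norm_mul, norm_mul, Complex.norm_real, Complex.norm_real, Complex.norm_real]
      have k1 : ‖(1 - r) ^ 2 * (-r)‖ = (1 - r) ^ 2 * r := by
        rw [mul_neg, norm_neg, Real.norm_of_nonneg (by positivity)]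
      have k2 : ‖(r * (1 - r)) * (1 - 2 * r)‖ ≤ r * (1 - r) := by
        rw [norm_mul, Real.norm_of_nonneg hv.le]
        have : ‖1 - 2 * r‖ ≤ 1 := by rw [Real.norm_eq_abs, abs_le]; constructor <;> linarith
        nlinarith
      have k3 : ‖r ^ 2 * (1 - r)‖ = r ^ 2 * (1 - r) := Real.norm_of_nonneg (by positivity)
      rw [k1, k3]
      gcongr
    rw [norm_mul, Complex.norm_real, Real.norm_of_nonneg hv.le] at hn
    have hle : ((1 - r) ^ 2 * r) * (T00 ^ 2 / 2) + (r * (1 - r)) * (T01 ^ 2 / 2) +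
          (r ^ 2 * (1 - r)) * (T11 ^ 2 / 2) ≤ (r * (1 - r)) * (2 * φ ^ 2 * (r * (1 - r))) := by
      have h1 : ((1 - r) ^ 2 * r) * (T00 ^ 2 / 2) + (r * (1 - r)) * (T01 ^ 2 / 2) +
          (r ^ 2 * (1 - r)) * (T11 ^ 2 / 2) =
          (r * (1 - r)) * (2 * φ ^ 2 * (r * (1 - r))) * (1 - 2 * (r * (1 - r))) := by
        rw [hT00, hT01, hT11]; ring
      rw [h1]
      have h2 : 0 ≤ (r * (1 - r)) * (2 * φ ^ 2 * (r * (1 - r))) := by positivity
      nlinarith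
    exact le_of_mul_le_mul_left (hn.trans hle) hv
  · have h00 := ph_e1 T00
    have h01 := ph_e1 T01
    have h11 := ph_e1 T11
    rw [← hA, a00] at h00
    rw [← hB, a01] at h01
    rw [← hD, a11] at h11
    have hid : A - 2 * B + D = (A - 1) + (-2) * (B - 1) + (D - 1) := by ring
    rw [hid]
    refine (norm_add₃_le).trans ?_
    rw [norm_mul, norm_neg, Complex.norm_two]
    nlinarith

end Pool.Agent.Lib.MP_0430e4_lc.AC
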