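import Mathlib

/-!
Project ALLCODES, Y2 (helper55): the multiplier of branch II, part A: the rational function.
`hh s v = s^2 v (1 - v^2) / ((1 - v^2)^2 + 4 s^2 v^2)`, odd, real coefficients, simple poles at
`exp (+-i psi)`, `-exp (+-i psi)` (`s = sin psi`), real part zero on the imaginary axis and on the
unit circle, nonnegative real part on the right half of the disc.
-/

set_option autoImplicit false

open Complex

namespace Pool.Agent.Lib.MP_0430e4_lc.AC.T55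

/-- the denominator -/
noncomputable def dd (s : ℝ) (v : ℂ) : ℂ := (1 - v ^ 2) ^ 2 + 4 * (s : ℂ) ^ 2 * v ^ 2

/-- the rational function -/
noncomputable def hh (s : ℝ) (v : ℂ) : ℂ := (s : ℂ) ^ 2 * v * (1 - v ^ 2) / dd s v

/-- the multiplier (exponent) -/
noncomputable def SS (s ρ c : ℝ) (u : ℂ) : ℂ := hh s ((ρ : ℂ) * u) + (c : ℂ) * u

/-- the polynomial `|dd|^2` -/
noncomputable def D2 (s a b : ℝ) : ℝ :=
  (1 - (a ^ 2 + b ^ 2)) ^ 4 + 8 * (1 - (a ^ 2 + b ^ 2)) ^ 2 * (b ^ 2 * (1 - s ^ 2) + s ^ 2 * a ^ 2)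
    + 16 * (b ^ 2 - s ^ 2 * (a ^ 2 + b ^ 2)) ^ 2

theorem dd_re (s : ℝ) (v : ℂ) :
    (dd s v).re = (1 - (v.re ^ 2 - v.im ^ 2)) ^ 2 - (2 * v.re * v.im) ^ 2
      + 4 * s ^ 2 * (v.re ^ 2 - v.im ^ 2) := by
  simp only [dd, pow_two, add_re, sub_re, mul_re, one_re, ofReal_re, ofReal_im, sub_im, mul_im,
    one_im, re_ofNat, im_ofNat]
  ring

theorem dd_im (s : ℝ) (v : ℂ) :
    (dd s v).im = -(2 * (1 - (v.re ^ 2 - v.im ^ 2)) * (2 * v.re * v.im))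
      + 4 * s ^ 2 * (2 * v.re * v.im) := by
  simp only [dd, pow_two, add_im, sub_re, mul_re, one_re, ofReal_re, ofReal_im, sub_im, mul_im,
    one_im, re_ofNat, im_ofNat]
  ring

theorem normSq_dd (s : ℝ) (v : ℂ) : normSq (dd s v) = D2 s v.re v.im := by
  rw [normSq_apply, dd_re, dd_im, D2]
  ring

theorem D2_ge {s : ℝ} (hs : s ^ 2 ≤ 1) (a b : ℝ) : (1 - (a ^ 2 + b ^ 2)) ^ 4 ≤ D2 s a b := by
  have h1 : 0 ≤ 8 * (1 - (a ^ 2 + b ^ 2)) ^ 2 * (b ^ 2 * (1 - s ^ 2) + s ^ 2 * a ^ 2) := by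
    have := mul_nonneg (sq_nonneg b) (sub_nonneg.2 hs)
    positivity
  have h2 : 0 ≤ 16 * (b ^ 2 - s ^ 2 * (a ^ 2 + b ^ 2)) ^ 2 := by positivity
  unfold D2
  linarith

theorem D2_ge' {s : ℝ} (hs : s ^ 2 ≤ 1) (a b : ℝ) :
    16 * (b ^ 2 - s ^ 2 * (a ^ 2 + b ^ 2)) ^ 2 ≤ D2 s a b := by
  have h1 : 0 ≤ 8 * (1 - (a ^ 2 + b ^ 2)) ^ 2 * (b ^ 2 * (1 - s ^ 2) + s ^ 2 * a ^ 2) := by
    have := mul_nonneg (sq_nonneg b) (sub_nonneg.2 hs)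
    positivity
  have h2 : 0 ≤ (1 - (a ^ 2 + b ^ 2)) ^ 4 := by positivity
  unfold D2
  linarith

theorem D2_nonneg {s : ℝ} (hs : s ^ 2 ≤ 1) (a b : ℝ) : 0 ≤ D2 s a b :=
  le_trans (by positivity) (D2_ge hs a b)

theorem norm_sq_eq (v : ℂ) : ‖v‖ ^ 2 = v.re ^ 2 + v.im ^ 2 := by
  rw [← normSq_eq_norm_sq, normSq_apply]
  ring

theorem dd_ne {s : ℝ} (hs : s ^ 2 ≤ 1) {v : ℂ} (hv : ‖v‖ < 1) : dd s v ≠ 0 := by
  intro h
  have h1 : normSq (dd s v) = 0 := by rw [h, map_zero]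
  rw [normSq_dd] at h1
  have h2 := D2_ge hs v.re v.im
  rw [h1, ← norm_sq_eq] at h2
  have h3 : ‖v‖ ^ 2 < 1 := by
    have := norm_nonneg v
    nlinarith
  have h4 : 0 < (1 - ‖v‖ ^ 2) ^ 4 := pow_pos (by linarith) 4
  linarith

/-- the real part -/
theorem hh_re (s : ℝ) (v : ℂ) :
    (hh s v).re = s ^ 2 * v.re * (1 - (v.re ^ 2 + v.im ^ 2))
      * ((1 - (v.re ^ 2 + v.im ^ 2)) ^ 2 + 4 * v.im ^ 2 + 4 * s ^ 2 * (v.re ^ 2 + v.im ^ 2))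
      / D2 s v.re v.im := by
  rw [hh, div_re, normSq_dd, ← add_div]
  congr 1
  rw [dd_re, dd_im]
  simp only [pow_two, add_im, sub_re, mul_re, one_re, ofReal_re, ofReal_im, sub_im, mul_im,
    one_im, re_ofNat, im_ofNat]
  ring

theorem hh_neg (s : ℝ) (v : ℂ) : hh s (-v) = -hh s v := by
  unfold hh dd
  rw [neg_sq, mul_neg, neg_mul, neg_div]

theorem SS_neg (s ρ c : ℝ) (u : ℂ) : SS s ρ c (-u) = -SS s ρ c u := by
  unfold SS
  rw [mul_neg, mul_neg, hh_neg]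
  ring

theorem hh_conj (s : ℝ) (v : ℂ) :
    hh s ((starRingEnd ℂ) v) = (starRingEnd ℂ) (hh s v) := by
  simp only [hh, dd, map_div₀, map_mul, map_pow, map_sub, map_add, map_one, conj_ofReal,
    map_ofNat]

theorem SS_conj (s ρ c : ℝ) (u : ℂ) :
    SS s ρ c ((starRingEnd ℂ) u) = (starRingEnd ℂ) (SS s ρ c u) := by
  simp only [SS, map_add, map_mul, conj_ofReal, ← hh_conj]

theorem SS_re (s ρ c : ℝ) (u : ℂ) :
    (SS s ρ c u).re = (hh s ((ρ : ℂ) * u)).re + c * u.re := by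
  simp [SS]

theorem hh_re_nonneg {s : ℝ} (hs : s ^ 2 ≤ 1) {v : ℂ} (hv : ‖v‖ ≤ 1) (h : 0 ≤ v.re) :
    0 ≤ (hh s v).re := by
  rw [hh_re]
  have h1 : 0 ≤ 1 - (v.re ^ 2 + v.im ^ 2) := by
    rw [← norm_sq_eq]
    have := norm_nonneg v
    nlinarith
  have h2 := D2_nonneg hs v.re v.im
  positivity

theorem SS_re_nonneg {s ρ c : ℝ} (hs : s ^ 2 ≤ 1) (hρ : 0 ≤ ρ) (hρ1 : ρ ≤ 1) (hc : 0 ≤ c)
    {u : ℂ} (hu : ‖u‖ ≤ 1) (h : 0 ≤ u.re) : 0 ≤ (SS s ρ c u).re := by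
  rw [SS_re]
  have h1 : ‖(ρ : ℂ) * u‖ ≤ 1 := by
    rw [norm_mul, norm_real, Real.norm_of_nonneg hρ]
    exact mul_le_one₀ hρ1 (norm_nonneg _) hu
  have h2 : 0 ≤ ((ρ : ℂ) * u).re := by
    rw [re_ofReal_mul]
    exact mul_nonneg hρ h
  have := hh_re_nonneg hs h1 h2
  have h3 := mul_nonneg hc h
  linarith

theorem SS_re_zero (s ρ c : ℝ) {u : ℂ} (h : u.re = 0) : (SS s ρ c u).re = 0 := by
  rw [SS_re, hh_re, re_ofReal_mul, h]
  simp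

theorem hh_diff {s : ℝ} {v : ℂ} (h : dd s v ≠ 0) : DifferentiableAt ℂ (hh s) v := by
  have h1 : DifferentiableAt ℂ (dd s) v := by unfold dd; fun_prop
  have h2 : DifferentiableAt ℂ (fun v : ℂ => (s : ℂ) ^ 2 * v * (1 - v ^ 2)) v := by fun_prop
  exact h2.div h1 h

theorem SS_diffAt {s ρ c : ℝ} {u : ℂ} (h : dd s ((ρ : ℂ) * u) ≠ 0) :
    DifferentiableAt ℂ (SS s ρ c) u := by
  have h1 : DifferentiableAt ℂ (fun u : ℂ => (ρ : ℂ) * u) u := by fun_prop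
  have h2 : DifferentiableAt ℂ (fun u : ℂ => hh s ((ρ : ℂ) * u)) u :=
    DifferentiableAt.comp u (g := hh s) (hh_diff h) h1
  have h3 : DifferentiableAt ℂ (fun u : ℂ => (c : ℂ) * u) u := by fun_prop
  exact h2.add h3

theorem SS_diff {s ρ c : ℝ} (hs : s ^ 2 ≤ 1) (hρ : 0 < ρ) :
    DifferentiableOn ℂ (SS s ρ c) (Metric.ball 0 (1 / ρ)) := by
  intro u hu
  apply DifferentiableAt.differentiableWithinAt
  apply SS_diffAt
  apply dd_ne hs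
  rw [norm_mul, norm_real, Real.norm_of_nonneg hρ.le]
  rw [mem_ball_zero_iff, lt_div_iff₀ hρ] at hu
  linarith

end Pool.Agent.Lib.MP_0430e4_lc.AC.T55
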