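import Pool.Agent.Lib.MP_0430e4_lc.AC.T55A

/-!
Project ALLCODES, Y2 (helper55): the multiplier of branch II, part B: the unit circle.
-/

set_option autoImplicit false

open Complex

namespace Pool.Agent.Lib.MP_0430e4_lc.AC.T55

theorem window_gap {ψ w : ℝ} (h0 : 0 < ψ) (h1 : ψ < Real.pi / 2) (hw : 0 < w) :
    ∃ m : ℝ, 0 < m ∧ ∀ φ : ℝ, 0 ≤ φ → φ ≤ Real.pi / 2 → w ≤ |φ - ψ| →
      m ≤ |Real.sin φ ^ 2 - Real.sin ψ ^ 2| := by
  obtain ⟨w1, hw1, hw2, hw3, hw4⟩ : ∃ w1 : ℝ, 0 < w1 ∧ w1 ≤ w ∧ w1 ≤ ψ ∧ w1 ≤ Real.pi / 2 - ψ := by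
    refine ⟨min w (min ψ (Real.pi / 2 - ψ)), ?_, min_le_left _ _, ?_, ?_⟩
    · exact lt_min hw (lt_min h0 (by linarith))
    · exact le_trans (min_le_right _ _) (min_le_left _ _)
    · exact le_trans (min_le_right _ _) (min_le_right _ _)
  have hpi := Real.pi_pos
  have hs : 0 < Real.sin ψ := Real.sin_pos_of_pos_of_lt_pi h0 (by linarith)
  have hm1 : Real.sin (ψ - w1) < Real.sin ψ :=
    Real.sin_lt_sin_of_lt_of_le_pi_div_two (by linarith) (by linarith) (by linarith)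
  have hm2 : Real.sin ψ < Real.sin (ψ + w1) :=
    Real.sin_lt_sin_of_lt_of_le_pi_div_two (by linarith) (by linarith) (by linarith)
  refine ⟨Real.sin ψ * min (Real.sin ψ - Real.sin (ψ - w1)) (Real.sin (ψ + w1) - Real.sin ψ),
    mul_pos hs (lt_min (by linarith) (by linarith)), ?_⟩
  intro φ hφ0 hφ1 hφ
  have hsφ : 0 ≤ Real.sin φ := Real.sin_nonneg_of_nonneg_of_le_pi hφ0 (by linarith)
  have hfac : Real.sin φ ^ 2 - Real.sin ψ ^ 2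
      = (Real.sin φ - Real.sin ψ) * (Real.sin φ + Real.sin ψ) := by ring
  rw [hfac, abs_mul, abs_of_nonneg (by linarith : 0 ≤ Real.sin φ + Real.sin ψ)]
  have hmin : min (Real.sin ψ - Real.sin (ψ - w1)) (Real.sin (ψ + w1) - Real.sin ψ)
      ≤ |Real.sin φ - Real.sin ψ| := by
    rcases le_abs'.1 (le_trans hw2 hφ) with h | h
    · have h2 : Real.sin φ ≤ Real.sin (ψ - w1) :=
        Real.sin_le_sin_of_le_of_le_pi_div_two (by linarith) (by linarith) (by linarith)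
      refine le_trans (min_le_left _ _) ?_
      rw [abs_sub_comm]
      refine le_trans ?_ (le_abs_self _)
      linarith
    · have h2 : Real.sin (ψ + w1) ≤ Real.sin φ :=
        Real.sin_le_sin_of_le_of_le_pi_div_two (by linarith) (by linarith) (by linarith)
      refine le_trans (min_le_right _ _) ?_
      refine le_trans ?_ (le_abs_self _)
      linarith
  calc Real.sin ψ * min (Real.sin ψ - Real.sin (ψ - w1)) (Real.sin (ψ + w1) - Real.sin ψ)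
      ≤ Real.sin ψ * |Real.sin φ - Real.sin ψ| := mul_le_mul_of_nonneg_left hmin hs.le
    _ ≤ |Real.sin φ - Real.sin ψ| * (Real.sin φ + Real.sin ψ) := by
        rw [mul_comm]
        exact mul_le_mul_of_nonneg_left (by linarith) (abs_nonneg _)

/-- real kernel of the estimate -/
theorem kernel_bound {s ρ y m : ℝ} (hs0 : 0 < s) (hs1 : s ≤ 1) (hρ : 1 / 2 ≤ ρ) (hρ1 : ρ ≤ 1)
    (hy0 : 0 ≤ y) (hy1 : y ≤ 1) (hm : 0 < m) (hmy : m ≤ |y - s ^ 2|) :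
    s ^ 2 * ρ * ((1 - ρ ^ 2) ^ 2 + 4 * ρ ^ 2 * y + 4 * s ^ 2 * ρ ^ 2)
        / ((1 - ρ ^ 2) ^ 4 + 8 * (1 - ρ ^ 2) ^ 2 * ρ ^ 2 * (y * (1 - s ^ 2) + s ^ 2 * (1 - y))
          + 16 * ρ ^ 4 * (y - s ^ 2) ^ 2)
      - s ^ 2 * ρ * ((1 - ρ ^ 2) ^ 2 + 4 * s ^ 2 * ρ ^ 2)
        / ((1 - ρ ^ 2) ^ 2 + 4 * s ^ 2 * ρ ^ 2) ^ 2 ≤ 300 * y / (s ^ 2 * m ^ 2) := by
  have hs2 : s ^ 2 ≤ 1 := by nlinarith
  have hs2p : 0 < s ^ 2 := by positivity
  have hρ2 : ρ ^ 2 ≤ 1 := by nlinarith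
  have hρ2' : 1 / 4 ≤ ρ ^ 2 := by nlinarith
  have hρ4 : 1 ≤ 16 * ρ ^ 4 := by nlinarith
  have hρ4' : ρ ^ 4 ≤ 1 := by nlinarith
  set d : ℝ := 1 - ρ ^ 2 with hd
  have hd0 : 0 ≤ d := by linarith
  have hd1 : d ≤ 1 := by nlinarith
  have hd2 : d ^ 2 ≤ 1 := by nlinarith
  set N0 : ℝ := d ^ 2 + 4 * s ^ 2 * ρ ^ 2 with hN0
  have hN0p : 0 ≤ N0 := by positivity
  have hN05 : N0 ≤ 5 := by
    have : s ^ 2 * ρ ^ 2 ≤ 1 := mul_le_one₀ hs2 (by positivity) hρ2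
    nlinarith
  set D : ℝ := d ^ 4 + 8 * d ^ 2 * ρ ^ 2 * (y * (1 - s ^ 2) + s ^ 2 * (1 - y))
          + 16 * ρ ^ 4 * (y - s ^ 2) ^ 2 with hD
  have hm2 : m ^ 2 ≤ (y - s ^ 2) ^ 2 := by
    rw [← sq_abs (y - s ^ 2)]
    exact pow_le_pow_left₀ hm.le hmy 2
  have hA : 0 ≤ y * (1 - s ^ 2) + s ^ 2 * (1 - y) := by
    have := mul_nonneg hy0 (sub_nonneg.2 hs2)
    have := mul_nonneg hs2p.le (sub_nonneg.2 hy1)
    linarith
  have hDm : m ^ 2 ≤ D := by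
    have h1 : (y - s ^ 2) ^ 2 ≤ 16 * ρ ^ 4 * (y - s ^ 2) ^ 2 :=
      le_mul_of_one_le_left (sq_nonneg _) hρ4
    have h2 : 0 ≤ d ^ 4 + 8 * d ^ 2 * ρ ^ 2 * (y * (1 - s ^ 2) + s ^ 2 * (1 - y)) := by positivity
    rw [hD]
    linarith
  have hDp : 0 < D := lt_of_lt_of_le (by positivity) hDm
  have hN0s : s ^ 2 ≤ N0 := by
    have : s ^ 2 * 1 ≤ s ^ 2 * (4 * ρ ^ 2) := mul_le_mul_of_nonneg_left (by linarith) hs2p.le
    have h0 : 0 ≤ d ^ 2 := sq_nonneg _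
    rw [hN0]
    linarith
  have hN0pos : 0 < N0 := lt_of_lt_of_le hs2p hN0s
  have hsplit : s ^ 2 * ρ * (d ^ 2 + 4 * ρ ^ 2 * y + 4 * s ^ 2 * ρ ^ 2) / D
      - s ^ 2 * ρ * N0 / N0 ^ 2
      = s ^ 2 * ρ * (((N0 + 4 * ρ ^ 2 * y) * N0 - D) / (D * N0)) := by
    field_simp
    rw [hN0]
    ring
  rw [hsplit]
  have hnum : (N0 + 4 * ρ ^ 2 * y) * N0 - D ≤ 60 * y := by
    have e : (N0 + 4 * ρ ^ 2 * y) * N0 - D
        = 4 * ρ ^ 2 * y * N0 - 8 * d ^ 2 * ρ ^ 2 * (y * (1 - 2 * s ^ 2))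
          - 16 * ρ ^ 4 * y * (y - 2 * s ^ 2) := by
      rw [hN0, hD]
      ring
    rw [e]
    have t1 : 4 * ρ ^ 2 * y * N0 ≤ 20 * y := by
      have a1 : ρ ^ 2 * N0 ≤ 5 := by
        calc ρ ^ 2 * N0 ≤ 1 * 5 := mul_le_mul hρ2 hN05 hN0p (by norm_num)
          _ = 5 := by norm_num
      calc 4 * ρ ^ 2 * y * N0 = 4 * (y * (ρ ^ 2 * N0)) := by ring
        _ ≤ 4 * (y * 5) := by
            have := mul_le_mul_of_nonneg_left a1 hy0
            linarith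
        _ = 20 * y := by ring
    have t2 : -(8 * d ^ 2 * ρ ^ 2 * (y * (1 - 2 * s ^ 2))) ≤ 8 * y := by
      have a1 : d ^ 2 * ρ ^ 2 ≤ 1 := mul_le_one₀ hd2 (by positivity) hρ2
      have a2 : 0 ≤ d ^ 2 * ρ ^ 2 := by positivity
      have a3 : -(1 - 2 * s ^ 2) ≤ 1 := by linarith
      have a4 : d ^ 2 * ρ ^ 2 * (-(1 - 2 * s ^ 2)) ≤ 1 := by
        calc d ^ 2 * ρ ^ 2 * (-(1 - 2 * s ^ 2)) ≤ d ^ 2 * ρ ^ 2 * 1 :=
              mul_le_mul_of_nonneg_left a3 a2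
          _ ≤ 1 := by linarith
      calc -(8 * d ^ 2 * ρ ^ 2 * (y * (1 - 2 * s ^ 2)))
          = 8 * (y * (d ^ 2 * ρ ^ 2 * (-(1 - 2 * s ^ 2)))) := by ring
        _ ≤ 8 * (y * 1) := by
            have := mul_le_mul_of_nonneg_left a4 hy0
            linarith
        _ = 8 * y := by ring
    have t3 : -(16 * ρ ^ 4 * y * (y - 2 * s ^ 2)) ≤ 32 * y := by
      have a3 : -(y - 2 * s ^ 2) ≤ 2 := by linarith
      have a2 : 0 ≤ ρ ^ 4 := by positivity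
      have a4 : ρ ^ 4 * (-(y - 2 * s ^ 2)) ≤ 2 := by
        calc ρ ^ 4 * (-(y - 2 * s ^ 2)) ≤ ρ ^ 4 * 2 := mul_le_mul_of_nonneg_left a3 a2
          _ ≤ 2 := by linarith
      calc -(16 * ρ ^ 4 * y * (y - 2 * s ^ 2))
          = 16 * (y * (ρ ^ 4 * (-(y - 2 * s ^ 2)))) := by ring
        _ ≤ 16 * (y * 2) := by
            have := mul_le_mul_of_nonneg_left a4 hy0
            linarith
        _ = 32 * y := by ring
    linarith
  have hden : m ^ 2 * s ^ 2 ≤ D * N0 := mul_le_mul hDm hN0s hs2p.le hDp.le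
  have hdp : 0 < m ^ 2 * s ^ 2 := by positivity
  have h5 : ((N0 + 4 * ρ ^ 2 * y) * N0 - D) / (D * N0) ≤ 60 * y / (m ^ 2 * s ^ 2) :=
    calc ((N0 + 4 * ρ ^ 2 * y) * N0 - D) / (D * N0) ≤ 60 * y / (D * N0) :=
          div_le_div_of_nonneg_right hnum (by positivity)
      _ ≤ 60 * y / (m ^ 2 * s ^ 2) := div_le_div_of_nonneg_left (by positivity) hdp hden
  have h6 : 0 ≤ 60 * y / (m ^ 2 * s ^ 2) := by positivity
  calc s ^ 2 * ρ * (((N0 + 4 * ρ ^ 2 * y) * N0 - D) / (D * N0))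
      ≤ s ^ 2 * ρ * (60 * y / (m ^ 2 * s ^ 2)) :=
        mul_le_mul_of_nonneg_left h5 (by positivity)
    _ ≤ 1 * (60 * y / (m ^ 2 * s ^ 2)) := by
        apply mul_le_mul_of_nonneg_right _ h6
        nlinarith
    _ ≤ 300 * y / (s ^ 2 * m ^ 2) := by
        rw [one_mul, mul_comm (m ^ 2)]
        apply div_le_div_of_nonneg_right _ (by positivity)
        linarith

theorem hh_circle (s ρ φ : ℝ) :
    (hh s ((ρ : ℂ) * exp (φ * I))).re = (1 - ρ ^ 2) * Real.cos φ *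
      (s ^ 2 * ρ * ((1 - ρ ^ 2) ^ 2 + 4 * ρ ^ 2 * Real.sin φ ^ 2 + 4 * s ^ 2 * ρ ^ 2)
        / ((1 - ρ ^ 2) ^ 4 + 8 * (1 - ρ ^ 2) ^ 2 * ρ ^ 2 *
            (Real.sin φ ^ 2 * (1 - s ^ 2) + s ^ 2 * (1 - Real.sin φ ^ 2))
          + 16 * ρ ^ 4 * (Real.sin φ ^ 2 - s ^ 2) ^ 2)) := by
  have h1 : ((ρ : ℂ) * exp (φ * I)).re = ρ * Real.cos φ := by
    rw [re_ofReal_mul, exp_ofReal_mul_I_re]
  have h2 : ((ρ : ℂ) * exp (φ * I)).im = ρ * Real.sin φ := by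
    rw [im_ofReal_mul, exp_ofReal_mul_I_im]
  have h3 : (ρ * Real.cos φ) ^ 2 + (ρ * Real.sin φ) ^ 2 = ρ ^ 2 := by
    rw [mul_pow, mul_pow, ← mul_add, Real.cos_sq_add_sin_sq, mul_one]
  have hc : Real.cos φ ^ 2 = 1 - Real.sin φ ^ 2 := Real.cos_sq' φ
  rw [hh_re, h1, h2, D2, h3, mul_div_assoc']
  congr 1
  · ring
  · rw [mul_pow, mul_pow, hc]
    ring

theorem hh_real_re (s ρ : ℝ) :
    (hh s (ρ : ℂ)).re = (1 - ρ ^ 2) *
      (s ^ 2 * ρ * ((1 - ρ ^ 2) ^ 2 + 4 * s ^ 2 * ρ ^ 2)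
        / ((1 - ρ ^ 2) ^ 2 + 4 * s ^ 2 * ρ ^ 2) ^ 2) := by
  rw [hh_re, ofReal_re, ofReal_im, D2, mul_div_assoc']
  congr 1
  · ring
  · ring

/-- the constant of the circle estimate -/
theorem circle {ψ w : ℝ} (h0 : 0 < ψ) (h1 : ψ < Real.pi / 2) (hw : 0 < w) :
    ∃ K : ℝ, 0 < K ∧ ∀ ρ : ℝ, 1 / 2 ≤ ρ → ρ < 1 → ∀ φ : ℝ, 0 ≤ φ → φ ≤ Real.pi → w ≤ |φ - ψ| →
      (SS (Real.sin ψ) ρ (K * (1 - ρ)) (exp (φ * I))).re
        ≤ (SS (Real.sin ψ) ρ (K * (1 - ρ)) 1).re - K * (1 - ρ) / 2 * (1 - Real.cos φ) := by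
  obtain ⟨m, hm, hgap⟩ := window_gap h0 h1 hw
  have hpi := Real.pi_pos
  have hs : 0 < Real.sin ψ := Real.sin_pos_of_pos_of_lt_pi h0 (by linarith)
  have hs1 : Real.sin ψ ≤ 1 := Real.sin_le_one ψ
  set s := Real.sin ψ with hsdef
  have hs2 : s ^ 2 ≤ 1 := by nlinarith
  refine ⟨2400 / (s ^ 2 * m ^ 2), by positivity, ?_⟩
  intro ρ hρ hρ1 φ hφ0 hφ1 hφ
  set K : ℝ := 2400 / (s ^ 2 * m ^ 2) with hK
  have hKp : 0 < K := by positivity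
  have hc : 0 < K * (1 - ρ) := mul_pos hKp (by linarith)
  have hcos1 : Real.cos φ ≤ 1 := Real.cos_le_one φ
  have hρ2 : 0 ≤ 1 - ρ ^ 2 := by nlinarith
  have e1 : (SS s ρ (K * (1 - ρ)) (exp (φ * I))).re
      = (hh s ((ρ : ℂ) * exp (φ * I))).re + K * (1 - ρ) * Real.cos φ := by
    rw [SS_re, exp_ofReal_mul_I_re]
  have e2 : (SS s ρ (K * (1 - ρ)) 1).re = (hh s (ρ : ℂ)).re + K * (1 - ρ) := by
    rw [SS_re, mul_one, one_re, mul_one]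
  rw [e1, e2]
  have hh0 : 0 ≤ (hh s (ρ : ℂ)).re := by
    apply hh_re_nonneg hs2
    · rw [norm_real, Real.norm_of_nonneg (by linarith)]
      exact hρ1.le
    · rw [ofReal_re]
      linarith
  rcases le_total (Real.cos φ) 0 with hcos | hcos
  · have h3 : (hh s ((ρ : ℂ) * exp (φ * I))).re ≤ 0 := by
      have h4 : 0 ≤ (hh s (-((ρ : ℂ) * exp (φ * I)))).re := by
        apply hh_re_nonneg hs2
        · rw [norm_neg, norm_mul, norm_exp_ofReal_mul_I, norm_real,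
            Real.norm_of_nonneg (by linarith), mul_one]
          exact hρ1.le
        · rw [neg_re, re_ofReal_mul, exp_ofReal_mul_I_re]
          have : 0 ≤ ρ * -Real.cos φ := mul_nonneg (by linarith) (by linarith)
          linarith
      rw [hh_neg, neg_re] at h4
      linarith
    nlinarith
  · have hφ2 : φ ≤ Real.pi / 2 := by
      by_contra h
      push Not at h
      rcases lt_or_eq_of_le hφ1 with h5 | h5
      · have := Real.cos_neg_of_pi_div_two_lt_of_lt h (by linarith)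
        linarith
      · rw [h5, Real.cos_pi] at hcos
        linarith
    have hg := hgap φ hφ0 hφ2 hφ
    have hy0 : 0 ≤ Real.sin φ ^ 2 := sq_nonneg _
    have hy1 : Real.sin φ ^ 2 ≤ 1 := Real.sin_sq_le_one φ
    have hk := kernel_bound hs hs1 hρ hρ1.le hy0 hy1 hm hg
    rw [hh_circle, hh_real_re]
    set G : ℝ := s ^ 2 * ρ * ((1 - ρ ^ 2) ^ 2 + 4 * ρ ^ 2 * Real.sin φ ^ 2 + 4 * s ^ 2 * ρ ^ 2)
        / ((1 - ρ ^ 2) ^ 4 + 8 * (1 - ρ ^ 2) ^ 2 * ρ ^ 2 *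
            (Real.sin φ ^ 2 * (1 - s ^ 2) + s ^ 2 * (1 - Real.sin φ ^ 2))
          + 16 * ρ ^ 4 * (Real.sin φ ^ 2 - s ^ 2) ^ 2) with hG
    set G0 : ℝ := s ^ 2 * ρ * ((1 - ρ ^ 2) ^ 2 + 4 * s ^ 2 * ρ ^ 2)
        / ((1 - ρ ^ 2) ^ 2 + 4 * s ^ 2 * ρ ^ 2) ^ 2 with hG0
    have hGp : 0 ≤ G := by
      rw [hG]
      have := mul_nonneg hy0 (sub_nonneg.2 hs2)
      have := mul_nonneg (sq_nonneg s) (sub_nonneg.2 hy1)
      apply div_nonneg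
      · positivity
      · positivity
    have hy2 : Real.sin φ ^ 2 ≤ 2 * (1 - Real.cos φ) := by
      rw [Real.sin_sq]
      nlinarith
    have hk2 : G - G0 ≤ K / 4 * (1 - Real.cos φ) := by
      refine le_trans hk ?_
      have : 300 * Real.sin φ ^ 2 / (s ^ 2 * m ^ 2) ≤ 300 * (2 * (1 - Real.cos φ)) / (s ^ 2 * m ^ 2) := by
        apply div_le_div_of_nonneg_right _ (by positivity)
        linarith
      refine le_trans this (le_of_eq ?_)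
      rw [hK]
      ring
    have h7 : (1 - ρ ^ 2) * Real.cos φ * G ≤ (1 - ρ ^ 2) * G := by
      have h70 := mul_nonneg (mul_nonneg hρ2 hGp) (sub_nonneg.2 hcos1)
      linarith
    have h8 : (1 - ρ ^ 2) * (G - G0) ≤ (2 * (1 - ρ)) * (K / 4 * (1 - Real.cos φ)) := by
      have h9 : 0 ≤ K / 4 * (1 - Real.cos φ) := mul_nonneg (by positivity) (by linarith)
      calc (1 - ρ ^ 2) * (G - G0) ≤ (1 - ρ ^ 2) * (K / 4 * (1 - Real.cos φ)) :=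
            mul_le_mul_of_nonneg_left hk2 hρ2
        _ ≤ (2 * (1 - ρ)) * (K / 4 * (1 - Real.cos φ)) :=
            mul_le_mul_of_nonneg_right (by nlinarith) h9
    linarith

end Pool.Agent.Lib.MP_0430e4_lc.AC.T55
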