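import Pool.Agent.Lib.MP_0430e4_lc.AC.T55B

/-!
Project ALLCODES, Y2 (helper55): the multiplier of branch II, part C: the real segment, the level,
and the existence theorem `exists_mult`.
-/

set_option autoImplicit false

open Complex Filter Topology Set

namespace Pool.Agent.Lib.MP_0430e4_lc.AC.T55

/-- the real denominator -/
noncomputable def dr (s v : ℝ) : ℝ := (1 - v ^ 2) ^ 2 + 4 * s ^ 2 * v ^ 2

/-- the rational function on the real axis -/
noncomputable def hr (s v : ℝ) : ℝ := s ^ 2 * v * (1 - v ^ 2) / dr s v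

/-- its derivative -/
noncomputable def hr' (s v : ℝ) : ℝ :=
  (s ^ 2 * (1 - 3 * v ^ 2) * dr s v
    - s ^ 2 * v * (1 - v ^ 2) * (-(4 * v * (1 - v ^ 2)) + 8 * s ^ 2 * v)) / dr s v ^ 2

theorem dr_pos {s : ℝ} (hs : 0 < s) (v : ℝ) : 0 < dr s v := by
  unfold dr
  rcases eq_or_ne v 0 with h | h
  · subst h
    norm_num
  · have h1 : 0 < v ^ 2 := by positivity
    have h2 : 0 ≤ (1 - v ^ 2) ^ 2 := sq_nonneg _
    have h3 : 0 < 4 * s ^ 2 * v ^ 2 := by positivity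
    linarith

theorem hh_ofReal (s v : ℝ) : hh s (v : ℂ) = (hr s v : ℂ) := by
  unfold hh hr dd dr
  push_cast
  rfl

theorem dd_ofReal (s v : ℝ) : dd s (v : ℂ) = (dr s v : ℂ) := by
  unfold dd dr
  push_cast
  rfl

theorem SS_ofReal (s ρ c x : ℝ) : SS s ρ c (x : ℂ) = ((hr s (ρ * x) + c * x : ℝ) : ℂ) := by
  rw [SS, ← ofReal_mul, hh_ofReal]
  push_cast
  rfl

theorem dr_cont (s : ℝ) : Continuous (dr s) := by unfold dr; fun_prop

theorem hr_cont {s : ℝ} (hs : 0 < s) : Continuous (hr s) := by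
  unfold hr
  exact Continuous.div (by fun_prop) (dr_cont s) (fun v => (dr_pos hs v).ne')

theorem hr'_cont {s : ℝ} (hs : 0 < s) : Continuous (hr' s) := by
  have := dr_cont s
  unfold hr'
  exact Continuous.div (by fun_prop) (by fun_prop) (fun v => (pow_pos (dr_pos hs v) 2).ne')

theorem hr_one (s : ℝ) : hr s 1 = 0 := by simp [hr]

theorem hr'_one {s : ℝ} (hs : 0 < s) : hr' s 1 = -(1 / 2) := by
  have : s ≠ 0 := hs.ne'
  unfold hr' dr
  field_simp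
  ring

/-- complex derivative at a real point -/
theorem hh_hasDerivAt {s : ℝ} (hs : 0 < s) (v : ℝ) :
    HasDerivAt (hh s) ((hr' s v : ℝ) : ℂ) (v : ℂ) := by
  have hd : dd s (v : ℂ) ≠ 0 := by
    rw [dd_ofReal]
    exact_mod_cast (dr_pos hs v).ne'
  have h1 : HasDerivAt (fun v : ℂ => (s : ℂ) ^ 2 * v * (1 - v ^ 2))
      ((s : ℂ) ^ 2 * (1 - 3 * (v : ℂ) ^ 2)) (v : ℂ) := by
    have a : HasDerivAt (fun v : ℂ => (s : ℂ) ^ 2 * v) ((s : ℂ) ^ 2 * 1) (v : ℂ) :=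
      (hasDerivAt_id (v : ℂ)).const_mul _
    have b : HasDerivAt (fun v : ℂ => 1 - v ^ 2) (-(2 * (v : ℂ))) (v : ℂ) := by
      have := (hasDerivAt_pow 2 (v : ℂ)).const_sub 1
      simpa using this
    exact (a.mul b).congr_deriv (by ring)
  have h2 : HasDerivAt (dd s)
      (-(4 * (v : ℂ) * (1 - (v : ℂ) ^ 2)) + 8 * (s : ℂ) ^ 2 * (v : ℂ)) (v : ℂ) := by
    have b : HasDerivAt (fun v : ℂ => 1 - v ^ 2) (-(2 * (v : ℂ))) (v : ℂ) := by
      have := (hasDerivAt_pow 2 (v : ℂ)).const_sub 1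
      simpa using this
    have b2 := b.pow 2
    have c : HasDerivAt (fun v : ℂ => 4 * (s : ℂ) ^ 2 * v ^ 2) (4 * (s : ℂ) ^ 2 * (2 * (v : ℂ)))
        (v : ℂ) := by
      have := (hasDerivAt_pow 2 (v : ℂ)).const_mul (4 * (s : ℂ) ^ 2)
      simpa using this
    exact (b2.add c).congr_deriv (by push_cast; ring)
  have h3 := h1.div h2 hd
  refine h3.congr_deriv ?_
  rw [dd_ofReal]
  unfold hr'
  push_cast
  rfl

theorem SS_hasDerivAt_one {s : ℝ} (hs : 0 < s) (ρ c : ℝ) :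
    HasDerivAt (SS s ρ c) ((ρ * hr' s ρ + c : ℝ) : ℂ) 1 := by
  have h1 : HasDerivAt (fun u : ℂ => (ρ : ℂ) * u) ((ρ : ℂ) * 1) (1 : ℂ) :=
    (hasDerivAt_id (1 : ℂ)).const_mul _
  have h2 : HasDerivAt (hh s) ((hr' s ρ : ℝ) : ℂ) ((ρ : ℂ) * 1) := by
    rw [mul_one]
    exact hh_hasDerivAt hs ρ
  have h3 := HasDerivAt.comp (1 : ℂ) h2 h1
  have h4 : HasDerivAt (fun u : ℂ => (c : ℂ) * u) ((c : ℂ) * 1) (1 : ℂ) :=
    (hasDerivAt_id (1 : ℂ)).const_mul _
  have h5 := h3.add h4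
  have e : ((ρ * hr' s ρ + c : ℝ) : ℂ) = (hr' s ρ : ℂ) * ((ρ : ℂ) * 1) + (c : ℂ) * 1 := by
    push_cast
    ring
  rw [e]
  exact h5

/-- the elementary inequality behind `D < 0` -/
theorem arctan_ge {x : ℝ} (h0 : 0 ≤ x) (h1 : x ≤ 1) :
    x * (1 - x ^ 2) / (1 + x ^ 2) ^ 2 ≤ Real.arctan x - x ^ 3 / 3 := by
  let f : ℝ → ℝ := fun x => Real.arctan x - x ^ 3 / 3 - x * (1 - x ^ 2) / (1 + x ^ 2) ^ 2
  have hder : ∀ x : ℝ, HasDerivAt f (8 * x ^ 2 / (1 + x ^ 2) ^ 3 - x ^ 2) x := by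
    intro x
    have hp : (1 + x ^ 2) ≠ 0 := by positivity
    have a := Real.hasDerivAt_arctan x
    have b : HasDerivAt (fun x : ℝ => x ^ 3 / 3) (x ^ 2) x := by
      exact ((hasDerivAt_pow 3 x).div_const 3).congr_deriv (by push_cast; ring)
    have c1 : HasDerivAt (fun x : ℝ => x * (1 - x ^ 2)) (1 - 3 * x ^ 2) x := by
      exact ((hasDerivAt_id' x).mul ((hasDerivAt_pow 2 x).const_sub 1)).congr_deriv
        (by push_cast; ring)
    have c2 : HasDerivAt (fun x : ℝ => (1 + x ^ 2) ^ 2) (4 * x * (1 + x ^ 2)) x := by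
      exact (((hasDerivAt_pow 2 x).const_add 1).pow 2).congr_deriv (by push_cast; ring)
    have c := c1.div c2 (pow_ne_zero 2 hp)
    refine ((a.sub b).sub c).congr_deriv ?_
    field_simp
    ring
  have hmono : MonotoneOn f (Icc 0 1) := by
    apply monotoneOn_of_deriv_nonneg (convex_Icc 0 1)
    · exact fun x _ => (hder x).continuousAt.continuousWithinAt
    · exact fun x _ => (hder x).differentiableAt.differentiableWithinAt
    · intro x hx
      rw [interior_Icc] at hx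
      rw [(hder x).deriv]
      have h2 : (1 + x ^ 2) ^ 3 ≤ 8 := by
        have h3 : 1 + x ^ 2 ≤ 2 := by nlinarith [hx.1, hx.2]
        calc (1 + x ^ 2) ^ 3 ≤ 2 ^ 3 := pow_le_pow_left₀ (by positivity) h3 3
          _ = 8 := by norm_num
      rw [sub_nonneg, le_div_iff₀ (by positivity)]
      nlinarith [sq_nonneg x]
  have h := hmono (left_mem_Icc.2 zero_le_one) ⟨h0, h1⟩ h0
  simp only [f] at h
  simp at h
  linarith

/-- `hh` at `u = (1 - x)/(1 + x)`, real `x` -/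
theorem hr_z {s x : ℝ} (hs : 0 < s) (hx : 0 ≤ x) :
    hr s ((1 - x) / (1 + x)) = s ^ 2 * (x * (1 - x ^ 2)) / (s ^ 2 * (1 - x ^ 2) ^ 2 + 4 * x ^ 2) := by
  have h1 : (1 + x) ≠ 0 := by positivity
  have h2 : s ^ 2 * (1 - x ^ 2) ^ 2 + 4 * x ^ 2 ≠ 0 := by
    rcases eq_or_ne x 0 with h | h
    · subst h
      have := hs.ne'
      simp [this]
    · have : 0 < x ^ 2 := by positivity
      have := mul_nonneg (sq_nonneg s) (sq_nonneg (1 - x ^ 2))
      intro h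
      linarith
  have h3 : dr s ((1 - x) / (1 + x)) * (1 + x) ^ 4 = 4 * (s ^ 2 * (1 - x ^ 2) ^ 2 + 4 * x ^ 2) := by
    unfold dr
    field_simp
    ring
  have h4 : dr s ((1 - x) / (1 + x)) ≠ 0 := (dr_pos hs _).ne'
  unfold hr
  rw [div_eq_div_iff h4 h2]
  have h5 : dr s ((1 - x) / (1 + x)) = 4 * (s ^ 2 * (1 - x ^ 2) ^ 2 + 4 * x ^ 2) / (1 + x) ^ 4 := by
    rw [eq_div_iff (pow_ne_zero 4 h1), h3]
  rw [h5]
  field_simp
  ring

theorem hr_le {s x : ℝ} (hs : 0 < s) (hs1 : s ≤ 1) (hx : 0 ≤ x) (hx1 : x ≤ 1) :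
    hr s ((1 - x) / (1 + x)) ≤ Real.arctan x - x ^ 3 / 3 := by
  refine le_trans ?_ (arctan_ge hx hx1)
  rw [hr_z hs hx]
  have h0 : 0 ≤ x * (1 - x ^ 2) := mul_nonneg hx (by nlinarith)
  have hs2 : s ^ 2 ≤ 1 := by nlinarith
  have h1 : s ^ 2 * (1 + x ^ 2) ^ 2 ≤ s ^ 2 * (1 - x ^ 2) ^ 2 + 4 * x ^ 2 := by
    have : s ^ 2 * (4 * x ^ 2) ≤ 4 * x ^ 2 := by
      have := mul_le_mul_of_nonneg_right hs2 (by positivity : 0 ≤ 4 * x ^ 2)
      linarith
    nlinarith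
  calc s ^ 2 * (x * (1 - x ^ 2)) / (s ^ 2 * (1 - x ^ 2) ^ 2 + 4 * x ^ 2)
      ≤ s ^ 2 * (x * (1 - x ^ 2)) / (s ^ 2 * (1 + x ^ 2) ^ 2) :=
        div_le_div_of_nonneg_left (by positivity) (by positivity) h1
    _ = x * (1 - x ^ 2) / (1 + x ^ 2) ^ 2 := by
        have := hs.ne'
        field_simp

/-- twice minus the derivative at `u = 1`, i.e. the derivative in `z` at `z = 0` -/
noncomputable def lam (s K ρ : ℝ) : ℝ := -2 * (ρ * hr' s ρ + K * (1 - ρ))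

theorem lam_cont {s : ℝ} (hs : 0 < s) (K : ℝ) : Continuous (lam s K) := by
  have := hr'_cont hs
  unfold lam
  fun_prop

theorem lam_one {s : ℝ} (hs : 0 < s) (K : ℝ) : lam s K 1 = 1 := by
  unfold lam
  rw [hr'_one hs]
  ring

/-- the segment function -/
noncomputable def EE (s K ρ x : ℝ) : ℝ :=
  hr s (ρ * ((1 - x) / (1 + x))) + K * (1 - ρ) * ((1 - x) / (1 + x)) - (hr s ρ + K * (1 - ρ))
    - lam s K ρ * Real.arctan x

theorem seg_event {s K r0 : ℝ} (hs : 0 < s) (hs1 : s ≤ 1) (hr0 : 0 < r0) :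
    ∀ᶠ ρ in 𝓝 (1 : ℝ), ∀ x ∈ Icc r0 1, EE s K ρ x < -(r0 ^ 3 / 6) := by
  apply isCompact_Icc.eventually_forall_of_forall_eventually
  intro x hx
  have hx0 : 0 < x := lt_of_lt_of_le hr0 hx.1
  have hval : EE s K 1 x < -(r0 ^ 3 / 6) := by
    unfold EE
    rw [one_mul, lam_one hs, hr_one]
    have h1 := hr_le hs hs1 hx0.le hx.2
    have h2 : r0 ^ 3 ≤ x ^ 3 := pow_le_pow_left₀ hr0.le hx.1 3
    have h3 : 0 < r0 ^ 3 := by positivity
    linarith
  have hcont : ContinuousAt (fun p : ℝ × ℝ => EE s K p.1 p.2) (1, x) := by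
    have c1 : ContinuousAt (fun p : ℝ × ℝ => (1 - p.2) / (1 + p.2)) (1, x) := by
      apply ContinuousAt.div (by fun_prop) (by fun_prop)
      simp only
      positivity
    have c2 : ContinuousAt (fun p : ℝ × ℝ => hr s (p.1 * ((1 - p.2) / (1 + p.2)))) (1, x) :=
      (hr_cont hs).continuousAt.comp (continuousAt_fst.mul c1)
    have c3 : Continuous (fun p : ℝ × ℝ => hr s p.1) := (hr_cont hs).comp continuous_fst
    have c4 : Continuous (fun p : ℝ × ℝ => lam s K p.1) := (lam_cont hs K).comp continuous_fst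
    have c5 : Continuous (fun p : ℝ × ℝ => Real.arctan p.2) :=
      Real.continuous_arctan.comp continuous_snd
    have c6 : Continuous (fun p : ℝ × ℝ => K * (1 - p.1)) := by fun_prop
    unfold EE
    exact ((c2.add (c6.continuousAt.mul c1)).sub (c3.continuousAt.add c6.continuousAt)).sub
      (c4.continuousAt.mul c5.continuousAt)
  exact hcont.eventually_lt_const hval

/-- no poles near `z = 0` -/
theorem dd_z_ne {s : ℝ} (hs : 0 < s) (hs1 : s ≤ 1) {z : ℂ} (hz : ‖z‖ ≤ s / 4) :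
    dd s ((1 - z) / (1 + z)) ≠ 0 := by
  have hz1 : ‖z‖ ≤ 1 / 4 := by linarith
  have h1 : (1 + z) ≠ 0 := by
    intro h
    have : z = -1 := by linear_combination h
    rw [this, norm_neg, norm_one] at hz1
    linarith
  intro h
  have h2 : dd s ((1 - z) / (1 + z)) * (1 + z) ^ 4
      = 4 * ((s : ℂ) ^ 2 * (1 - z ^ 2) ^ 2 + 4 * z ^ 2) := by
    unfold dd
    field_simp
    ring
  rw [h, zero_mul] at h2
  have h3 : (s : ℂ) ^ 2 * (1 - z ^ 2) ^ 2 = -(4 * z ^ 2) := by linear_combination -(1 / 4) * h2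
  have h4 : s ^ 2 * ‖1 - z ^ 2‖ ^ 2 = 4 * ‖z‖ ^ 2 := by
    have := congrArg norm h3
    rw [norm_mul, norm_pow, norm_pow, norm_neg, norm_mul, norm_pow, norm_real,
      Real.norm_of_nonneg hs.le] at this
    simpa using this
  have h5 : 1 - ‖z‖ ^ 2 ≤ ‖1 - z ^ 2‖ := by
    have := norm_sub_norm_le (1 : ℂ) (z ^ 2)
    rw [norm_one, norm_pow] at this
    exact this
  have hn := norm_nonneg z
  have h6 : ‖z‖ ^ 2 ≤ 1 / 16 := by nlinarith
  have h7 : (15 / 16) ^ 2 ≤ ‖1 - z ^ 2‖ ^ 2 := pow_le_pow_left₀ (by norm_num) (by linarith) 2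
  have h8 : ‖z‖ ^ 2 ≤ (s / 4) ^ 2 := pow_le_pow_left₀ hn hz 2
  have h9 : s ^ 2 * (15 / 16) ^ 2 ≤ s ^ 2 * ‖1 - z ^ 2‖ ^ 2 :=
    mul_le_mul_of_nonneg_left h7 (sq_nonneg s)
  have h10 : 0 < s ^ 2 := by positivity
  nlinarith

theorem small_event {s : ℝ} (hs : 0 < s) (hs1 : s ≤ 1) :
    ∀ᶠ ρ : ℝ in 𝓝 (1 : ℝ), ∀ z ∈ Metric.closedBall (0 : ℂ) (s / 4),
      dd s ((ρ : ℂ) * ((1 - z) / (1 + z))) ≠ 0 := by
  apply (isCompact_closedBall (0 : ℂ) (s / 4)).eventually_forall_of_forall_eventually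
  intro z hz
  rw [mem_closedBall_zero_iff] at hz
  have hz1 : ‖z‖ ≤ 1 / 4 := by linarith
  have h1 : (1 + z) ≠ 0 := by
    intro h
    have : z = -1 := by linear_combination h
    rw [this, norm_neg, norm_one] at hz1
    linarith
  have c1 : ContinuousAt (fun p : ℝ × ℂ => (1 - p.2) / (1 + p.2)) ((1 : ℝ), z) := by
    apply ContinuousAt.div (by fun_prop) (by fun_prop)
    simpa using h1
  have c2 : ContinuousAt (fun p : ℝ × ℂ => (p.1 : ℂ) * ((1 - p.2) / (1 + p.2))) ((1 : ℝ), z) :=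
    (continuous_ofReal.comp continuous_fst).continuousAt.mul c1
  have c3 : Continuous (dd s) := by unfold dd; fun_prop
  have c4 : ContinuousAt (fun p : ℝ × ℂ => dd s ((p.1 : ℂ) * ((1 - p.2) / (1 + p.2))))
      ((1 : ℝ), z) := c3.continuousAt.comp c2
  apply c4.eventually_ne
  simp only [ofReal_one, one_mul]
  exact dd_z_ne hs hs1 hz

/-- the properties of the multiplier -/
structure MultB (ψ w r0 rz : ℝ) (S : ℂ → ℂ) (R lam c1 c3 : ℝ) : Prop where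
  hR : 1 < R
  hlam : 0 < lam
  hc1 : 0 < c1
  hc3 : 0 < c3
  diff : DifferentiableOn ℂ S (Metric.ball 0 R)
  conj : ∀ u, S ((starRingEnd ℂ) u) = (starRingEnd ℂ) (S u)
  odd : ∀ u, S (-u) = -S u
  nonneg : ∀ u : ℂ, ‖u‖ ≤ 1 → 0 ≤ u.re → 0 ≤ (S u).re
  zero : ∀ u : ℂ, u.re = 0 → (S u).re = 0
  pos1 : 0 < (S 1).re
  deriv1 : HasDerivAt S ((-lam / 2 : ℝ) : ℂ) 1
  circle : ∀ φ : ℝ, 0 ≤ φ → φ ≤ Real.pi → w ≤ |φ - ψ| →
    (S (exp (φ * I))).re ≤ (S 1).re - c1 * (1 - Real.cos φ)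
  seg : ∀ x : ℝ, r0 ≤ x → x ≤ 1 →
    (S ((((1 - x) / (1 + x) : ℝ)) : ℂ)).re ≤ (S 1).re + lam * Real.arctan x - c3
  small : DifferentiableOn ℂ (fun z : ℂ => S ((1 - z) / (1 + z))) (Metric.ball 0 rz)

/-- **Existence of the multiplier.** The radius `sin ψ / 4` of the disc around `z = 0` does not
depend on the window `w` nor on `r0`. -/
theorem exists_mult {ψ w r0 : ℝ} (h0 : 0 < ψ) (h1 : ψ < Real.pi / 2) (hw : 0 < w) (hr0 : 0 < r0) :
    ∃ (S : ℂ → ℂ) (R lam c1 c3 : ℝ), MultB ψ w r0 (Real.sin ψ / 4) S R lam c1 c3 := by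
  obtain ⟨K, hK, hcirc⟩ := circle h0 h1 hw
  have hpi := Real.pi_pos
  have hs : 0 < Real.sin ψ := Real.sin_pos_of_pos_of_lt_pi h0 (by linarith)
  have hs1 : Real.sin ψ ≤ 1 := Real.sin_le_one ψ
  set s := Real.sin ψ with hsdef
  have hs2 : s ^ 2 ≤ 1 := by nlinarith
  have e1 := seg_event (K := K) hs hs1 hr0
  have e2 := small_event hs hs1
  have e3 : ∀ᶠ ρ in 𝓝 (1 : ℝ), 1 / 2 < lam s K ρ := by
    apply (lam_cont hs K).continuousAt.eventually_const_lt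
    rw [lam_one hs]
    norm_num
  have e4 : ∀ᶠ ρ in 𝓝 (1 : ℝ), 1 / 2 < ρ := eventually_gt_nhds (by norm_num)
  have e5 : ∀ᶠ ρ in 𝓝[<] (1 : ℝ), (∀ x ∈ Icc r0 1, EE s K ρ x < -(r0 ^ 3 / 6)) ∧
      (∀ z ∈ Metric.closedBall (0 : ℂ) (s / 4), dd s ((ρ : ℂ) * ((1 - z) / (1 + z))) ≠ 0) ∧
      1 / 2 < lam s K ρ ∧ 1 / 2 < ρ ∧ ρ < 1 := by
    filter_upwards [nhdsWithin_le_nhds e1, nhdsWithin_le_nhds e2, nhdsWithin_le_nhds e3,
      nhdsWithin_le_nhds e4, self_mem_nhdsWithin] with ρ a1 a2 a3 a4 a5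
    exact ⟨a1, a2, a3, a4, a5⟩
  obtain ⟨ρ, hseg, hsmall, hlam, hρ, hρ1⟩ := e5.exists
  have hρ0 : 0 < ρ := by linarith
  have hc : 0 < K * (1 - ρ) := mul_pos hK (by linarith)
  have hone : (SS s ρ (K * (1 - ρ)) 1).re = hr s ρ + K * (1 - ρ) := by
    have := SS_ofReal s ρ (K * (1 - ρ)) 1
    rw [ofReal_one] at this
    rw [this, ofReal_re, mul_one, mul_one]
  refine ⟨SS s ρ (K * (1 - ρ)), 1 / ρ, lam s K ρ, K * (1 - ρ) / 2, r0 ^ 3 / 6, ?_⟩
  refine ⟨?_, by linarith, by positivity, by positivity, SS_diff hs2 hρ0, SS_conj _ _ _,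
    SS_neg _ _ _, ?_, ?_, ?_, ?_, ?_, ?_, ?_⟩
  · rw [lt_div_iff₀ hρ0]
    linarith
  · exact fun u hu h => SS_re_nonneg hs2 hρ0.le hρ1.le hc.le hu h
  · exact fun u h => SS_re_zero _ _ _ h
  · rw [SS_re, mul_one]
    have : 0 ≤ (hh s (ρ : ℂ)).re := by
      apply hh_re_nonneg hs2
      · rw [norm_real, Real.norm_of_nonneg hρ0.le]
        exact hρ1.le
      · rw [ofReal_re]
        exact hρ0.le
    rw [one_re, mul_one]
    linarith
  · have h := SS_hasDerivAt_one hs ρ (K * (1 - ρ))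
    have e : (ρ * hr' s ρ + K * (1 - ρ) : ℝ) = -lam s K ρ / 2 := by
      unfold lam
      ring
    rw [e] at h
    exact h
  · intro φ a b c
    exact hcirc ρ hρ.le hρ1 φ a b c
  · intro x hx hx1
    have h := hseg x ⟨hx, hx1⟩
    rw [SS_ofReal, ofReal_re, hone]
    unfold EE at h
    linarith
  · intro z hz
    apply DifferentiableAt.differentiableWithinAt
    rw [mem_ball_zero_iff] at hz
    have hz1 : ‖z‖ ≤ 1 / 4 := by linarith
    have h1 : (1 + z) ≠ 0 := by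
      intro h
      have : z = -1 := by linear_combination h
      rw [this, norm_neg, norm_one] at hz1
      linarith
    have hd := hsmall z (by rw [mem_closedBall_zero_iff]; exact hz.le)
    have a1 : DifferentiableAt ℂ (SS s ρ (K * (1 - ρ))) ((1 - z) / (1 + z)) := SS_diffAt hd
    have a2 : DifferentiableAt ℂ (fun z : ℂ => (1 - z) / (1 + z)) z :=
      DifferentiableAt.div (by fun_prop) (by fun_prop) h1
    exact DifferentiableAt.comp z a1 a2

end Pool.Agent.Lib.MP_0430e4_lc.AC.T55
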