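import Pool.Agent.Lib.MP_0430e4_lc.AC.T55C

/-!
Project ALLCODES, Y2 (helper55): the multiplier of branch II, part D: consequences of `MultB`:
bounds, the level contour, the half disc.
-/

set_option autoImplicit false

open Complex Filter Topology Set

namespace Pool.Agent.Lib.MP_0430e4_lc.AC.T55

variable {ψ w r0 rz R lam c1 c3 : ℝ} {S : ℂ → ℂ}

/-- uniform bound on a slightly larger disc -/
theorem MultB.bound (h : MultB ψ w r0 rz S R lam c1 c3) :
    ∃ R' B : ℝ, 1 < R' ∧ R' < R ∧ 0 < B ∧ ∀ u : ℂ, ‖u‖ ≤ R' → ‖S u‖ ≤ B := by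
  obtain ⟨R', h1, h2⟩ := exists_between h.hR
  have hsub : Metric.closedBall (0 : ℂ) R' ⊆ Metric.ball 0 R := Metric.closedBall_subset_ball h2
  have hc : ContinuousOn S (Metric.closedBall 0 R') := h.diff.continuousOn.mono hsub
  obtain ⟨B, hB⟩ := (isCompact_closedBall (0 : ℂ) R').exists_bound_of_continuousOn hc
  refine ⟨R', max B 1, h1, h2, lt_of_lt_of_le one_pos (le_max_right _ _), ?_⟩
  intro u hu
  exact le_trans (hB u (mem_closedBall_zero_iff.2 hu)) (le_max_left _ _)

/-- bound on a smaller disc around `z = 0` -/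
theorem MultB.small_bound (h : MultB ψ w r0 rz S R lam c1 c3) {r : ℝ} (hr : r < rz) :
    ∃ B : ℝ, 0 < B ∧ ∀ z : ℂ, ‖z‖ ≤ r → ‖S ((1 - z) / (1 + z))‖ ≤ B := by
  have hsub : Metric.closedBall (0 : ℂ) r ⊆ Metric.ball 0 rz := Metric.closedBall_subset_ball hr
  have hc : ContinuousOn (fun z : ℂ => S ((1 - z) / (1 + z))) (Metric.closedBall 0 r) :=
    h.small.continuousOn.mono hsub
  obtain ⟨B, hB⟩ := (isCompact_closedBall (0 : ℂ) r).exists_bound_of_continuousOn hc
  refine ⟨max B 1, lt_of_lt_of_le one_pos (le_max_right _ _), ?_⟩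
  intro z hz
  exact le_trans (hB z (mem_closedBall_zero_iff.2 hz)) (le_max_left _ _)

/-- `S` is real on the real axis -/
theorem MultB.im_zero (h : MultB ψ w r0 rz S R lam c1 c3) (x : ℝ) : (S (x : ℂ)).im = 0 := by
  have := h.conj (x : ℂ)
  rw [conj_ofReal] at this
  exact conj_eq_iff_im.1 this.symm

theorem norm_exp_t (t φ : ℝ) : ‖exp ((t : ℂ) + φ * I)‖ = Real.exp t := by
  rw [norm_exp]
  simp

/-- level contour: the circle `|u| = e^t` outside the window -/
theorem MultB.level (h : MultB ψ w r0 rz S R lam c1 c3) {η : ℝ} (hη : 0 < η) :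
    ∃ t0 : ℝ, 0 < t0 ∧ ∀ t φ : ℝ, 0 ≤ t → t ≤ t0 → 0 ≤ φ → φ ≤ Real.pi → w ≤ |φ - ψ| →
      (S (exp ((t : ℂ) + φ * I))).re ≤ (S 1).re - (lam / 2 - η) * t := by
  have hpi := Real.pi_pos
  have hlam := h.hlam
  have hc1 := h.hc1
  -- derivative near `(0, 0)`
  have hball : ∀ᶠ u : ℂ in 𝓝 1, u ∈ Metric.ball (0 : ℂ) R := by
    apply Metric.isOpen_ball.mem_nhds
    rw [mem_ball_zero_iff, norm_one]
    exact h.hR
  have hanal : AnalyticOnNhd ℂ S (Metric.ball 0 R) :=
    h.diff.analyticOnNhd Metric.isOpen_ball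
  have h1mem : (1 : ℂ) ∈ Metric.ball (0 : ℂ) R := by
    rw [mem_ball_zero_iff, norm_one]
    exact h.hR
  have hdc : ContinuousAt (deriv S) 1 := (hanal.deriv 1 h1mem).continuousAt
  have hd1 : deriv S 1 = ((-lam / 2 : ℝ) : ℂ) := h.deriv1.deriv
  have hgc : ContinuousAt (fun u : ℂ => (deriv S u * u).re) 1 :=
    continuous_re.continuousAt.comp (hdc.mul continuousAt_id)
  have hg1 : ∀ᶠ u : ℂ in 𝓝 1, (deriv S u * u).re < -(lam / 2 - η) := by
    apply hgc.eventually_lt_const
    show (deriv S 1 * 1).re < -(lam / 2 - η)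
    rw [hd1, mul_one, ofReal_re]
    linarith
  have hmap : Tendsto (fun p : ℝ × ℝ => exp ((p.1 : ℂ) + p.2 * I)) (𝓝 (0, 0)) (𝓝 1) := by
    have : Continuous (fun p : ℝ × ℝ => exp ((p.1 : ℂ) + p.2 * I)) := by fun_prop
    have h2 := this.tendsto (0, 0)
    simpa using h2
  have hev := hmap.eventually (hball.and hg1)
  rw [nhds_prod_eq, eventually_prod_iff] at hev
  obtain ⟨pa, hpa, pb, hpb, hab⟩ := hev
  obtain ⟨t1, ht1, hta⟩ := Metric.eventually_nhds_iff.1 hpa
  obtain ⟨φ0, hφ0, hφb⟩ := Metric.eventually_nhds_iff.1 hpb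
  have hbox : ∀ t φ : ℝ, 0 ≤ t → t < t1 → 0 ≤ φ → φ < φ0 →
      exp ((t : ℂ) + φ * I) ∈ Metric.ball (0 : ℂ) R ∧
        (deriv S (exp ((t : ℂ) + φ * I)) * exp ((t : ℂ) + φ * I)).re < -(lam / 2 - η) := by
    intro t φ a b c d
    apply hab (x := t) _ (y := φ) _
    · apply hta
      rw [Real.dist_eq, sub_zero, abs_of_nonneg a]
      exact b
    · apply hφb
      rw [Real.dist_eq, sub_zero, abs_of_nonneg c]
      exact d
  -- the angle separating the two regimes
  obtain ⟨φ1, hφ1, hφ1', hφ1pi⟩ : ∃ φ1 : ℝ, 0 < φ1 ∧ φ1 < φ0 ∧ φ1 ≤ Real.pi := by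
    refine ⟨min (φ0 / 2) Real.pi, lt_min (by linarith) hpi, ?_, min_le_right _ _⟩
    exact lt_of_le_of_lt (min_le_left _ _) (by linarith)
  have hcos : Real.cos φ1 < 1 := by
    have := Real.cos_lt_cos_of_nonneg_of_le_pi le_rfl hφ1pi hφ1
    rwa [Real.cos_zero] at this
  set κ : ℝ := c1 * (1 - Real.cos φ1) / 2 with hκ
  have hκp : 0 < κ := by
    have := mul_pos hc1 (sub_pos.2 hcos)
    rw [hκ]
    linarith
  -- far region
  have hF : IsCompact {φ : ℝ | φ ∈ Icc φ1 Real.pi ∧ w ≤ |φ - ψ|} := by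
    apply isCompact_Icc.inter_right (t := {φ : ℝ | w ≤ |φ - ψ|})
    exact isClosed_le continuous_const (by fun_prop)
  have hfar : ∀ᶠ t : ℝ in 𝓝 (0 : ℝ), ∀ φ ∈ {φ : ℝ | φ ∈ Icc φ1 Real.pi ∧ w ≤ |φ - ψ|},
      (S (exp ((t : ℂ) + φ * I))).re < (S 1).re - κ := by
    apply hF.eventually_forall_of_forall_eventually
    rintro φ ⟨hφm, hφw⟩
    have hu : exp (((0 : ℝ) : ℂ) + φ * I) ∈ Metric.ball (0 : ℂ) R := by
      rw [mem_ball_zero_iff, norm_exp_t, Real.exp_zero]
      exact h.hR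
    have hSc : ContinuousAt S (exp (((0 : ℝ) : ℂ) + φ * I)) :=
      (h.diff.differentiableAt (Metric.isOpen_ball.mem_nhds hu)).continuousAt
    have hc0 : Continuous (fun p : ℝ × ℝ => exp ((p.1 : ℂ) + p.2 * I)) := by fun_prop
    have hcc : ContinuousAt (fun p : ℝ × ℝ => (S (exp ((p.1 : ℂ) + p.2 * I))).re) (0, φ) := by
      apply continuous_re.continuousAt.comp
      exact ContinuousAt.comp (f := fun p : ℝ × ℝ => exp ((p.1 : ℂ) + p.2 * I)) (x := (0, φ)) hSc
        hc0.continuousAt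
    apply hcc.eventually_lt_const
    simp only [ofReal_zero, zero_add]
    have h3 := h.circle φ (by linarith [hφm.1]) hφm.2 hφw
    have h4 : Real.cos φ ≤ Real.cos φ1 :=
      Real.cos_le_cos_of_nonneg_of_le_pi hφ1.le hφm.2 hφm.1
    have h5 : c1 * (1 - Real.cos φ1) ≤ c1 * (1 - Real.cos φ) :=
      mul_le_mul_of_nonneg_left (by linarith) hc1.le
    rw [hκ]
    rw [hκ] at hκp
    linarith
  obtain ⟨t2, ht2, htb⟩ := Metric.eventually_nhds_iff.1 hfar
  refine ⟨min (t1 / 2) (min (t2 / 2) (κ / lam)), ?_, ?_⟩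
  · exact lt_min (by linarith) (lt_min (by linarith) (by positivity))
  intro t φ ht htm hφ hφpi hw
  have hta' : t < t1 := lt_of_le_of_lt (le_trans htm (min_le_left _ _)) (by linarith)
  have htb' : t < t2 :=
    lt_of_le_of_lt (le_trans htm (le_trans (min_le_right _ _) (min_le_left _ _))) (by linarith)
  have htc : t ≤ κ / lam := le_trans htm (le_trans (min_le_right _ _) (min_le_right _ _))
  rcases le_or_gt φ1 φ with hcase | hcase
  · have h3 := htb (y := t) (by rw [Real.dist_eq, sub_zero, abs_of_nonneg ht]; exact htb')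
      φ ⟨⟨hcase, hφpi⟩, hw⟩
    have h4 : lam * t ≤ κ := by
      rw [le_div_iff₀ hlam] at htc
      linarith
    have h5 : 0 ≤ η * t := by positivity
    have h6 : 0 ≤ lam * t := by positivity
    linarith
  · -- near region: mean value
    have hφlt : φ < φ0 := by linarith
    have hderiv : ∀ τ : ℝ, 0 ≤ τ → τ < t1 →
        HasDerivAt (fun τ : ℝ => (S (exp ((τ : ℂ) + φ * I))).re)
          (deriv S (exp ((τ : ℂ) + φ * I)) * exp ((τ : ℂ) + φ * I)).re τ := by
      intro τ a b
      have hin := (hbox τ φ a b hφ hφlt).1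
      have d1 : HasDerivAt S (deriv S (exp ((τ : ℂ) + φ * I))) (exp ((τ : ℂ) + φ * I)) :=
        (h.diff.differentiableAt (Metric.isOpen_ball.mem_nhds hin)).hasDerivAt
      have d2 : HasDerivAt (fun v : ℂ => exp (v + φ * I)) (exp ((τ : ℂ) + φ * I)) (τ : ℂ) := by
        have e1 : HasDerivAt (fun v : ℂ => v + φ * I) 1 (τ : ℂ) :=
          (hasDerivAt_id (τ : ℂ)).add_const _
        simpa using e1.cexp
      have d3 : HasDerivAt (fun v : ℂ => S (exp (v + φ * I)))
          (deriv S (exp ((τ : ℂ) + φ * I)) * exp ((τ : ℂ) + φ * I)) (τ : ℂ) :=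
        HasDerivAt.comp (τ : ℂ) d1 d2
      exact d3.real_of_complex
    have hcv := Convex.image_sub_le_mul_sub_of_deriv_le (convex_Icc 0 t)
      (f := fun τ : ℝ => (S (exp ((τ : ℂ) + φ * I))).re) (C := -(lam / 2 - η))
      (fun τ hτ => (hderiv τ hτ.1 (lt_of_le_of_lt hτ.2 hta')).continuousAt.continuousWithinAt)
      (by
        intro τ hτ
        rw [interior_Icc] at hτ
        exact (hderiv τ hτ.1.le (lt_trans hτ.2 hta')).differentiableAt.differentiableWithinAt)
      (by
        intro τ hτ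
        rw [interior_Icc] at hτ
        rw [(hderiv τ hτ.1.le (lt_trans hτ.2 hta')).deriv]
        exact (hbox τ φ hτ.1.le (lt_trans hτ.2 hta') hφ hφlt).2.le)
      0 (left_mem_Icc.2 ht) t (right_mem_Icc.2 ht) ht
    simp only [ofReal_zero, zero_add, sub_zero] at hcv
    have h3 := h.circle φ hφ hφpi hw
    have h4 : 0 ≤ c1 * (1 - Real.cos φ) := mul_nonneg hc1.le (by linarith [Real.cos_le_one φ])
    linarith

theorem one_add_ne {z : ℂ} (hz : 0 ≤ z.re) : 1 + z ≠ 0 := by
  intro h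
  have := congrArg Complex.re h
  rw [add_re, one_re, zero_re] at this
  linarith

theorem norm_u_le {z : ℂ} (hz : 0 ≤ z.re) : ‖(1 - z) / (1 + z)‖ ≤ 1 := by
  rw [norm_div, div_le_one (norm_pos_iff.2 (one_add_ne hz))]
  rw [← sq_le_sq₀ (norm_nonneg _) (norm_nonneg _), norm_sq_eq, norm_sq_eq]
  simp only [sub_re, add_re, one_re, sub_im, add_im, one_im]
  nlinarith

theorem re_u_eq {z : ℂ} : ((1 - z) / (1 + z)).re = (1 - ‖z‖ ^ 2) / normSq (1 + z) := by
  rw [div_re, norm_sq_eq, ← add_div]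
  congr 1
  simp only [sub_re, add_re, one_re, sub_im, add_im, one_im]
  ring

/-- half disc: near the real axis and near `|z| = 1` -/
theorem MultB.half (h : MultB ψ w r0 rz S R lam c1 c3) (hr1 : r0 ≤ 1) :
    ∃ θ0 x3 : ℝ, 0 < θ0 ∧ x3 < 1 ∧ ∀ z : ℂ, 0 ≤ z.re → r0 ≤ ‖z‖ → ‖z‖ ≤ 1 →
      (|arg z| ≤ θ0 ∨ x3 ≤ ‖z‖) →
      (S ((1 - z) / (1 + z))).re ≤ (S 1).re + lam * Real.arctan ‖z‖ - c3 / 2 := by
  have hc3 := h.hc3
  set f : ℂ → ℝ := fun z => (S ((1 - z) / (1 + z))).re - (S 1).re - lam * Real.arctan ‖z‖ with hf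
  set K : Set ℂ := {z : ℂ | 0 ≤ z.re ∧ r0 ≤ ‖z‖ ∧ ‖z‖ ≤ 1} with hK
  have hKc : IsClosed K := by
    apply IsClosed.inter (isClosed_le continuous_const continuous_re)
    exact IsClosed.inter (isClosed_le continuous_const continuous_norm)
      (isClosed_le continuous_norm continuous_const)
  have hKcomp : IsCompact K := by
    apply (isCompact_closedBall (0 : ℂ) 1).of_isClosed_subset hKc
    intro z hz
    exact mem_closedBall_zero_iff.2 hz.2.2
  have hfc : ContinuousOn f K := by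
    intro z hz
    apply ContinuousAt.continuousWithinAt
    have h1 : ContinuousAt (fun z : ℂ => (1 - z) / (1 + z)) z :=
      ContinuousAt.div (by fun_prop) (by fun_prop) (one_add_ne hz.1)
    have hin : (1 - z) / (1 + z) ∈ Metric.ball (0 : ℂ) R := by
      rw [mem_ball_zero_iff]
      exact lt_of_le_of_lt (norm_u_le hz.1) h.hR
    have h2 : ContinuousAt S ((1 - z) / (1 + z)) :=
      (h.diff.differentiableAt (Metric.isOpen_ball.mem_nhds hin)).continuousAt
    have h3 : ContinuousAt (fun z : ℂ => (S ((1 - z) / (1 + z))).re) z := by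
      apply continuous_re.continuousAt.comp
      exact ContinuousAt.comp (f := fun z : ℂ => (1 - z) / (1 + z)) (x := z) h2 h1
    have h4 : ContinuousAt (fun z : ℂ => Real.arctan ‖z‖) z :=
      (Real.continuous_arctan.comp continuous_norm).continuousAt
    exact (h3.sub continuousAt_const).sub (continuousAt_const.mul h4)
  have hreal : ∀ z ∈ K, z.im = 0 → f z ≤ -c3 := by
    intro z hz him
    have hzr : z = (z.re : ℂ) := by
      apply Complex.ext
      · rw [ofReal_re]
      · rw [ofReal_im, him]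
    have hn : ‖z‖ = z.re := by
      rw [hzr, norm_real, Real.norm_of_nonneg hz.1, ofReal_re]
    have hs := h.seg z.re (hn ▸ hz.2.1) (hn ▸ hz.2.2)
    have he : (1 - z) / (1 + z) = (((1 - z.re) / (1 + z.re) : ℝ) : ℂ) := by
      rw [hzr]
      push_cast
      simp
    simp only [hf]
    rw [he, hn]
    linarith
  have hcirc : ∀ z ∈ K, ‖z‖ = 1 → f z ≤ -c3 := by
    intro z hz hn
    have hu : ((1 - z) / (1 + z)).re = 0 := by
      rw [re_u_eq, hn]
      norm_num
    have h1 := h.seg 1 hr1 le_rfl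
    have h2 : (S ((((1 - 1) / (1 + 1) : ℝ)) : ℂ)).re = 0 := by
      apply h.zero
      norm_num
    rw [h2] at h1
    simp only [hf]
    rw [h.zero _ hu, hn]
    linarith
  set B : Set ℂ := K ∩ {z | -c3 / 2 ≤ f z} with hB
  have hBc : IsCompact B := by
    have : IsClosed B := hfc.preimage_isClosed_of_isClosed hKc isClosed_Ici
    exact hKcomp.of_isClosed_subset this inter_subset_left
  have hBprop : ∀ z ∈ B, 0 < |arg z| ∧ ‖z‖ < 1 := by
    rintro z ⟨hz, hfz⟩
    have hfz' : -c3 / 2 ≤ f z := hfz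
    constructor
    · rw [abs_pos]
      intro harg
      have him : z.im = 0 := by
        have := arg_eq_zero_iff.1 harg
        exact this.2
      have := hreal z hz him
      linarith
    · rcases lt_or_eq_of_le hz.2.2 with h1 | h1
      · exact h1
      · have := hcirc z hz h1
        linarith
  have hconcl : ∀ z ∈ K, z ∉ B →
      (S ((1 - z) / (1 + z))).re ≤ (S 1).re + lam * Real.arctan ‖z‖ - c3 / 2 := by
    intro z hz hzB
    have : ¬ (-c3 / 2 ≤ f z) := fun hc => hzB ⟨hz, hc⟩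
    push Not at this
    simp only [hf] at this
    linarith
  rcases B.eq_empty_or_nonempty with hE | hN
  · refine ⟨1, 0, one_pos, one_pos, ?_⟩
    intro z a b c _
    apply hconcl z ⟨a, b, c⟩
    rw [hE]
    exact notMem_empty z
  · have hargc : ContinuousOn (fun z : ℂ => |arg z|) B := by
      intro z hz
      apply ContinuousAt.continuousWithinAt
      have hsl : z ∈ slitPlane := by
        rcases lt_or_eq_of_le hz.1.1 with h1 | h1
        · exact Or.inl h1
        · right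
          intro him
          have := hreal z hz.1 him
          have h2 : -c3 / 2 ≤ f z := hz.2
          linarith
      exact (continuousAt_arg hsl).abs
    obtain ⟨za, hza, hmin⟩ := hBc.exists_isMinOn hN hargc
    obtain ⟨zb, hzb, hmax⟩ := hBc.exists_isMaxOn hN continuous_norm.continuousOn
    refine ⟨|arg za| / 2, (‖zb‖ + 1) / 2, by linarith [(hBprop za hza).1],
      by linarith [(hBprop zb hzb).2], ?_⟩
    intro z a b c hor
    apply hconcl z ⟨a, b, c⟩
    intro hzB
    rcases hor with h1 | h1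
    · have h2 : |arg za| ≤ |arg z| := hmin hzB
      have h3 := (hBprop za hza).1
      linarith
    · have h2 : ‖z‖ ≤ ‖zb‖ := hmax hzB
      have h3 := (hBprop zb hzb).2
      linarith

end Pool.Agent.Lib.MP_0430e4_lc.AC.T55
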