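import Pool.Agent.Lib.MP_0430e4_lc.AC.T55D

/-!
Project ALLCODES, Y2 (helper55): the multiplier with a bound near `z = 0` that depends only on `ψ`.
-/

set_option autoImplicit false

open Complex Filter Topology Set

namespace Pool.Agent.Lib.MP_0430e4_lc.AC.T55

/-- all `ρ < 1` close to `1` are good -/
theorem mult_event {ψ w r0 : ℝ} (h0 : 0 < ψ) (h1 : ψ < Real.pi / 2) (hw : 0 < w) (hr0 : 0 < r0) :
    ∃ K : ℝ, 0 < K ∧ ∀ᶠ ρ in 𝓝[<] (1 : ℝ),
      MultB ψ w r0 (Real.sin ψ / 4) (SS (Real.sin ψ) ρ (K * (1 - ρ))) (1 / ρ)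
        (lam (Real.sin ψ) K ρ) (K * (1 - ρ) / 2) (r0 ^ 3 / 6) := by
  obtain ⟨K, hK, hcirc⟩ := circle h0 h1 hw
  refine ⟨K, hK, ?_⟩
  have hpi := Real.pi_pos
  have hs : 0 < Real.sin ψ := Real.sin_pos_of_pos_of_lt_pi h0 (by linarith)
  have hs1 : Real.sin ψ ≤ 1 := Real.sin_le_one ψ
  set s := Real.sin ψ with hsdef
  have hs2 : s ^ 2 ≤ 1 := by nlinarith
  have e1 := seg_event (K := K) hs hs1 hr0
  have e2 := small_event hs hs1
  have e3 : ∀ᶠ ρ in 𝓝 (1 : ℝ), 1 / 2 < lam s K ρ := by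
    apply (lam_cont hs K).continuousAt.eventually_const_lt
    rw [lam_one hs]
    norm_num
  have e4 : ∀ᶠ ρ in 𝓝 (1 : ℝ), 1 / 2 < ρ := eventually_gt_nhds (by norm_num)
  filter_upwards [nhdsWithin_le_nhds e1, nhdsWithin_le_nhds e2, nhdsWithin_le_nhds e3,
    nhdsWithin_le_nhds e4, self_mem_nhdsWithin] with ρ hseg hsmall hlam hρ hρ1'
  have hρ1 : ρ < 1 := hρ1'
  have hρ0 : 0 < ρ := by linarith
  have hc : 0 < K * (1 - ρ) := mul_pos hK (by linarith)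
  have hone : (SS s ρ (K * (1 - ρ)) 1).re = hr s ρ + K * (1 - ρ) := by
    have := SS_ofReal s ρ (K * (1 - ρ)) 1
    rw [ofReal_one] at this
    rw [this, ofReal_re, mul_one, mul_one]
  refine ⟨?_, by linarith, by positivity, by positivity, SS_diff hs2 hρ0, SS_conj _ _ _,
    SS_neg _ _ _, ?_, ?_, ?_, ?_, ?_, ?_, ?_⟩
  · rw [lt_div_iff₀ hρ0]
    linarith
  · exact fun u hu h => SS_re_nonneg hs2 hρ0.le hρ1.le hc.le hu h
  · exact fun u h => SS_re_zero _ _ _ h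
  · rw [SS_re, mul_one]
    have : 0 ≤ (hh s (ρ : ℂ)).re := by
      apply hh_re_nonneg hs2
      · rw [norm_real, Real.norm_of_nonneg hρ0.le]
        exact hρ1.le
      · rw [ofReal_re]
        exact hρ0.le
    rw [one_re, mul_one]
    linarith
  · have h := SS_hasDerivAt_one hs ρ (K * (1 - ρ))
    have e : (ρ * hr' s ρ + K * (1 - ρ) : ℝ) = -lam s K ρ / 2 := by
      unfold lam
      ring
    rw [e] at h
    exact h
  · intro φ a b c
    exact hcirc ρ hρ.le hρ1 φ a b c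
  · intro x hx hx1
    have h := hseg x ⟨hx, hx1⟩
    rw [SS_ofReal, ofReal_re, hone]
    unfold EE at h
    linarith
  · intro z hz
    apply DifferentiableAt.differentiableWithinAt
    rw [mem_ball_zero_iff] at hz
    have hz1 : ‖z‖ ≤ 1 / 4 := by linarith
    have h1 : (1 + z) ≠ 0 := by
      intro h
      have : z = -1 := by linear_combination h
      rw [this, norm_neg, norm_one] at hz1
      linarith
    have hd := hsmall z (by rw [mem_closedBall_zero_iff]; exact hz.le)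
    have a1 : DifferentiableAt ℂ (SS s ρ (K * (1 - ρ))) ((1 - z) / (1 + z)) := SS_diffAt hd
    have a2 : DifferentiableAt ℂ (fun z : ℂ => (1 - z) / (1 + z)) z :=
      DifferentiableAt.div (by fun_prop) (by fun_prop) h1
    exact DifferentiableAt.comp z a1 a2

/-- the part `hh` near `z = 0`, uniformly in `ρ` near `1` -/
theorem hh_small_bound {s : ℝ} (hs : 0 < s) (hs1 : s ≤ 1) :
    ∃ A1 : ℝ, 0 < A1 ∧ ∀ᶠ ρ : ℝ in 𝓝 (1 : ℝ), ∀ z ∈ Metric.closedBall (0 : ℂ) (s / 4),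
      ‖hh s ((ρ : ℂ) * ((1 - z) / (1 + z)))‖ < A1 := by
  have hne : ∀ z ∈ Metric.closedBall (0 : ℂ) (s / 4), (1 + z) ≠ 0 := by
    intro z hz h
    rw [mem_closedBall_zero_iff] at hz
    have : z = -1 := by linear_combination h
    rw [this, norm_neg, norm_one] at hz
    linarith
  have hcont : ∀ z ∈ Metric.closedBall (0 : ℂ) (s / 4),
      ContinuousAt (fun p : ℝ × ℂ => ‖hh s ((p.1 : ℂ) * ((1 - p.2) / (1 + p.2)))‖) ((1 : ℝ), z) := by
    intro z hz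
    have c1 : ContinuousAt (fun p : ℝ × ℂ => (1 - p.2) / (1 + p.2)) ((1 : ℝ), z) := by
      apply ContinuousAt.div (by fun_prop) (by fun_prop)
      simpa using hne z hz
    have c2 : ContinuousAt (fun p : ℝ × ℂ => (p.1 : ℂ) * ((1 - p.2) / (1 + p.2))) ((1 : ℝ), z) :=
      (continuous_ofReal.comp continuous_fst).continuousAt.mul c1
    have c3 : ContinuousAt (hh s) (((1 : ℝ) : ℂ) * ((1 - z) / (1 + z))) := by
      apply (hh_diff _).continuousAt
      rw [ofReal_one, one_mul]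
      exact dd_z_ne hs hs1 (mem_closedBall_zero_iff.1 hz)
    exact (ContinuousAt.comp (f := fun p : ℝ × ℂ => (p.1 : ℂ) * ((1 - p.2) / (1 + p.2)))
      (x := ((1 : ℝ), z)) c3 c2).norm
  have hb : ContinuousOn (fun z : ℂ => ‖hh s (((1 : ℝ) : ℂ) * ((1 - z) / (1 + z)))‖)
      (Metric.closedBall (0 : ℂ) (s / 4)) := by
    intro z hz
    apply ContinuousAt.continuousWithinAt
    have c0 : ContinuousAt (fun z : ℂ => ((1 : ℝ), z)) z := by fun_prop
    exact ContinuousAt.comp (f := fun z : ℂ => ((1 : ℝ), z)) (x := z) (hcont z hz) c0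
  obtain ⟨B, hB⟩ := (isCompact_closedBall (0 : ℂ) (s / 4)).exists_bound_of_continuousOn hb
  refine ⟨max B 0 + 1, by positivity, ?_⟩
  apply (isCompact_closedBall (0 : ℂ) (s / 4)).eventually_forall_of_forall_eventually
  intro z hz
  apply (hcont z hz).eventually_lt_const
  have h1 := hB z hz
  rw [norm_norm] at h1
  have h2 := le_max_left B 0
  show ‖hh s (((1 : ℝ) : ℂ) * ((1 - z) / (1 + z)))‖ < _
  linarith

/-- **the multiplier, with a bound near `z = 0` depending only on `ψ`** -/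
theorem exists_mult_unif {ψ : ℝ} (h0 : 0 < ψ) (h1 : ψ < Real.pi / 2) :
    ∃ A0 : ℝ, 0 < A0 ∧ ∀ w r0 : ℝ, 0 < w → 0 < r0 →
      ∃ (S : ℂ → ℂ) (R lam c1 c3 : ℝ), MultB ψ w r0 (Real.sin ψ / 4) S R lam c1 c3 ∧
        ∀ z : ℂ, ‖z‖ ≤ Real.sin ψ / 4 → ‖S ((1 - z) / (1 + z)) - S 1‖ ≤ A0 := by
  have hpi := Real.pi_pos
  have hs : 0 < Real.sin ψ := Real.sin_pos_of_pos_of_lt_pi h0 (by linarith)
  have hs1 : Real.sin ψ ≤ 1 := Real.sin_le_one ψ
  obtain ⟨A1, hA1, hev⟩ := hh_small_bound hs hs1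
  refine ⟨2 * A1 + 1, by positivity, ?_⟩
  intro w r0 hw hr0
  obtain ⟨K, hK, hm⟩ := mult_event h0 h1 hw hr0
  have e4 : ∀ᶠ ρ in 𝓝 (1 : ℝ), K * (1 - ρ) < 1 := by
    have : ContinuousAt (fun ρ : ℝ => K * (1 - ρ)) 1 := by fun_prop
    apply this.eventually_lt_const
    norm_num
  have hev' : ∀ᶠ ρ : ℝ in 𝓝[<] (1 : ℝ), ∀ z ∈ Metric.closedBall (0 : ℂ) (Real.sin ψ / 4),
      ‖hh (Real.sin ψ) ((ρ : ℂ) * ((1 - z) / (1 + z)))‖ < A1 := hev.filter_mono nhdsWithin_le_nhds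
  have e4' : ∀ᶠ ρ : ℝ in 𝓝[<] (1 : ℝ), K * (1 - ρ) < 1 := e4.filter_mono nhdsWithin_le_nhds
  have e5 : ∀ᶠ ρ : ℝ in 𝓝[<] (1 : ℝ), ρ < 1 := self_mem_nhdsWithin
  obtain ⟨ρ, hM, hb, hK1, hρ1'⟩ := (hm.and (hev'.and (e4'.and e5))).exists
  refine ⟨_, _, _, _, _, hM, ?_⟩
  intro z hz
  have hz1 : ‖z‖ ≤ 1 / 4 := by linarith
  have hzm : z ∈ Metric.closedBall (0 : ℂ) (Real.sin ψ / 4) := mem_closedBall_zero_iff.2 hz
  have h0m : (0 : ℂ) ∈ Metric.closedBall (0 : ℂ) (Real.sin ψ / 4) := by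
    rw [mem_closedBall_zero_iff, norm_zero]
    positivity
  have b1 := hb z hzm
  have b2 := hb 0 h0m
  rw [sub_zero, add_zero, div_one, mul_one] at b2
  have hne : (1 + z) ≠ 0 := by
    intro h
    have : z = -1 := by linear_combination h
    rw [this, norm_neg, norm_one] at hz1
    linarith
  have hn1 : 3 / 4 ≤ ‖1 + z‖ := by
    have := norm_sub_norm_le (1 : ℂ) (-z)
    rw [norm_one, norm_neg, sub_neg_eq_add] at this
    linarith
  have hu : ‖(1 - z) / (1 + z) - 1‖ ≤ 1 := by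
    have e : (1 - z) / (1 + z) - 1 = -(2 * z) / (1 + z) := by
      field_simp
      ring
    rw [e, norm_div, norm_neg, norm_mul, div_le_one (by linarith)]
    have : ‖(2 : ℂ)‖ = 2 := by norm_num
    rw [this]
    linarith
  have e : SS (Real.sin ψ) ρ (K * (1 - ρ)) ((1 - z) / (1 + z)) - SS (Real.sin ψ) ρ (K * (1 - ρ)) 1
      = hh (Real.sin ψ) ((ρ : ℂ) * ((1 - z) / (1 + z))) - hh (Real.sin ψ) (ρ : ℂ)
        + ((K * (1 - ρ) : ℝ) : ℂ) * ((1 - z) / (1 + z) - 1) := by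
    unfold SS
    rw [mul_one]
    ring
  rw [e]
  have hK0 : 0 ≤ K * (1 - ρ) := mul_nonneg hK.le (by linarith)
  calc ‖hh (Real.sin ψ) ((ρ : ℂ) * ((1 - z) / (1 + z))) - hh (Real.sin ψ) (ρ : ℂ)
        + ((K * (1 - ρ) : ℝ) : ℂ) * ((1 - z) / (1 + z) - 1)‖
      ≤ ‖hh (Real.sin ψ) ((ρ : ℂ) * ((1 - z) / (1 + z))) - hh (Real.sin ψ) (ρ : ℂ)‖
        + ‖((K * (1 - ρ) : ℝ) : ℂ) * ((1 - z) / (1 + z) - 1)‖ := norm_add_le _ _
    _ ≤ (A1 + A1) + 1 * 1 := by
        apply add_le_add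
        · refine le_trans (norm_sub_le _ _) ?_
          exact add_le_add b1.le b2.le
        · rw [norm_mul, norm_real, Real.norm_of_nonneg hK0]
          exact mul_le_mul hK1.le hu (norm_nonneg _) zero_le_one
    _ = 2 * A1 + 1 := by ring

end Pool.Agent.Lib.MP_0430e4_lc.AC.T55
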