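import Pool.Agent.Lib.MP_0430e4_lc.AC.Defs
import Pool.Agent.Lib.MP_0430e4_lc.BY.U.HAg

/-!
# Project ALLCODES: typical distances at every relative distance
-/

set_option autoImplicit false

open Finset

namespace Pool.Agent.Lib.MP_0430e4_lc.AC

open BY BY.Four

/-- all codes with distance `δ n` have typical distances up to `n / 2` -/
theorem typD {δ : ℝ} (hδ0 : 0 < δ) (hδ1 : δ < 1 / 2) : TypD δ (Tensor.ell δ) := by
  intro ε hε
  obtain ⟨n1, hn1⟩ := HA_gen hδ0 hδ1 ε hε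
  obtain ⟨n2, hn2⟩ := exists_nat_gt (2 / (1 - 2 * δ))
  refine ⟨max n1 (max n2 1), fun n hn C hC w hw1 hw2 => ?_⟩
  have g1 : n1 ≤ n := (le_max_left _ _).trans hn
  have g2 : n2 ≤ n := (le_max_left _ _).trans ((le_max_right _ _).trans hn)
  have g3 : 1 ≤ n := (le_max_right _ _).trans ((le_max_right _ _).trans hn)
  have hn0 : (0 : ℝ) < n := by exact_mod_cast g3
  have e : nP C w = Nw C w := rfl
  rw [e]
  by_cases h : ⌈δ * (n : ℝ)⌉₊ ≤ w
  · apply hn1 n g1 C hC w h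
    have h2 : (0 : ℝ) < 1 - 2 * δ := by linarith
    have h3 : 2 < (1 - 2 * δ) * n := by
      have : (n2 : ℝ) ≤ n := by exact_mod_cast g2
      rw [div_lt_iff₀ h2] at hn2
      nlinarith
    have h4 : (⌈δ * (n : ℝ)⌉₊ : ℝ) < δ * n + 1 := Nat.ceil_lt_add_one (by positivity)
    have h5 : 2 * ⌈δ * (n : ℝ)⌉₊ ≤ n := by
      have : ((2 * ⌈δ * (n : ℝ)⌉₊ : ℕ) : ℝ) ≤ n := by push_cast; linarith
      exact_mod_cast this
    omega
  · have h0 : Nw C w = 0 := Nw_of_lt hC (by omega) (by omega)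
    rw [h0, Nat.cast_zero]
    have := pw_pos n (Tensor.ell δ - 1 + ε)
    positivity

end Pool.Agent.Lib.MP_0430e4_lc.AC
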