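import Pool.Agent.Lib.MP_0430e4_lc.BY.Final
import Pool.Agent.Lib.MP_0430e4_lc.QB.BMIN
import Pool.Agent.Lib.MP_0430e4_lc.QB.STRICT

/-!
ALLCODES (helper51): `R < L` at every point of a compact interval gives a uniform gap (`R` is monotone
and continuous from the left by shortening, `L` is continuous).
-/

set_option autoImplicit false

open Finset Filter Topology

namespace Pool.Agent.Lib.MP_0430e4_lc.AC

open BY

theorem un_gap {a b : ℝ} (ha : 0 < a)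
    (h : ∀ δ : ℝ, a ≤ δ → δ ≤ b → Rr δ < Tensor.ell δ) :
    ∃ c : ℝ, 0 < c ∧ ∀ δ : ℝ, a ≤ δ → δ ≤ b → Rr δ ≤ Tensor.ell δ - c := by
  have key : ∃ c : ℝ, 0 < c ∧ ∀ δ ∈ Set.Icc a b, Rr δ ≤ Tensor.ell δ - c := by
    refine isCompact_Icc.induction_on
      (p := fun s : Set ℝ => ∃ c : ℝ, 0 < c ∧ ∀ δ ∈ s, Rr δ ≤ Tensor.ell δ - c) ?_ ?_ ?_ ?_
    · exact ⟨1, one_pos, fun δ hδ => absurd hδ (Set.notMem_empty δ)⟩
    · rintro s t hst ⟨c, hc, h1⟩
      exact ⟨c, hc, fun δ hδ => h1 δ (hst hδ)⟩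
    · rintro s t ⟨c, hc, h1⟩ ⟨c', hc', h2⟩
      refine ⟨min c c', lt_min hc hc', fun δ hδ => ?_⟩
      rcases hδ with hδ | hδ
      · have := h1 δ hδ
        linarith [min_le_left c c']
      · have := h2 δ hδ
        linarith [min_le_right c c']
    · intro x hx
      have hx0 : 0 < x := lt_of_lt_of_le ha hx.1
      have hlt := h x hx.1 hx.2
      obtain ⟨g, hg⟩ : ∃ g : ℝ, g = Tensor.ell x - Rr x := ⟨_, rfl⟩
      have hg0 : 0 < g := by rw [hg]; linarith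
      obtain ⟨κ, hκ, h1⟩ := Rr_le_near (r := Rr x + g / 4) hx0 (by linarith)
      have h2 : ∀ᶠ δ in 𝓝 x, Tensor.ell x - g / 4 < Tensor.ell δ :=
        (Exact.ell_continuousAt hx0).eventually_const_lt (by linarith)
      have h3 : ∀ᶠ δ in 𝓝 x, x - κ < δ := eventually_gt_nhds (by linarith)
      refine ⟨{δ | Tensor.ell x - g / 4 < Tensor.ell δ ∧ x - κ < δ},
        mem_nhdsWithin_of_mem_nhds (h2.and h3), g / 2, by linarith, fun δ hδ => ?_⟩
      have h4 := h1 δ hδ.2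
      have h5 := hδ.1
      linarith
  obtain ⟨c, hc, h1⟩ := key
  exact ⟨c, hc, fun δ h2 h3 => h1 δ ⟨h2, h3⟩⟩

end Pool.Agent.Lib.MP_0430e4_lc.AC
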