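import Pool.Agent.Lib.MP_0430e4_lc.AC.DefsX
import Pool.Agent.Lib.MP_0430e4_lc.AC.Main

/-!
Project ALLCODES (helper1): typical distances up to `n/2` bound the whole enumerator; the complement.
-/

set_option autoImplicit false

open Finset

namespace Pool.Agent.Lib.MP_0430e4_lc.AC

open BY BY.Four

variable {n : ℕ}

/-- real form of `expand` -/
theorem expandR (v : Wd n) (a b : ℝ) :
    ∑ u : Wd n, e v u * (a ^ (n - wt u) * b ^ wt u) = (a + b) ^ (n - wt v) * (a - b) ^ wt v := by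
  have h := expand v (a : ℂ) (b : ℂ)
  exact_mod_cast h

theorem sum_expandR (C : Finset (Wd n)) (a b : ℝ) :
    ∑ x ∈ C, ∑ y ∈ C, (a + b) ^ (n - wt (x - y)) * (a - b) ^ wt (x - y) =
      ∑ u : Wd n, (∑ x ∈ C, e x u) ^ 2 * (a ^ (n - wt u) * b ^ wt u) := by
  have h1 : ∀ x y : Wd n, (a + b) ^ (n - wt (x - y)) * (a - b) ^ wt (x - y) =
      ∑ u : Wd n, e x u * e y u * (a ^ (n - wt u) * b ^ wt u) := by
    intro x y
    rw [← expandR]
    apply Finset.sum_congr rfl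
    intro u _
    rw [sub_eq_add', e_add_left]
  rw [Finset.sum_congr rfl fun x _ => Finset.sum_congr rfl fun y _ => h1 x y]
  rw [Finset.sum_congr rfl fun x _ => Finset.sum_comm, Finset.sum_comm]
  apply Finset.sum_congr rfl
  intro u _
  rw [sq, Finset.sum_mul_sum, Finset.sum_mul]
  apply Finset.sum_congr rfl
  intro x _
  rw [Finset.sum_mul]

/-- complementing one argument does not increase the sum -/
theorem sum_compl_le (C : Finset (Wd n)) {s : ℝ} (h0 : 0 ≤ s) (h1 : s ≤ 1) :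
    ∑ x ∈ C, ∑ y ∈ C, s ^ (n - wt (x - y)) ≤ ∑ x ∈ C, ∑ y ∈ C, s ^ wt (x - y) := by
  have e1 := sum_expandR C ((1 + s) / 2) ((1 - s) / 2)
  have e2 := sum_expandR C ((1 + s) / 2) (-((1 - s) / 2))
  have a1 : (1 + s) / 2 + (1 - s) / 2 = 1 := by ring
  have a2 : (1 + s) / 2 - (1 - s) / 2 = s := by ring
  have a3 : (1 + s) / 2 + -((1 - s) / 2) = s := by ring
  have a4 : (1 + s) / 2 - -((1 - s) / 2) = 1 := by ring
  rw [a1, a2] at e1
  rw [a3, a4] at e2
  simp only [one_pow, one_mul, mul_one] at e1 e2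
  rw [e1, e2]
  apply Finset.sum_le_sum
  intro u _
  apply mul_le_mul_of_nonneg_left _ (sq_nonneg _)
  apply mul_le_mul_of_nonneg_left _ (by positivity)
  calc (-((1 - s) / 2)) ^ wt u ≤ |(-((1 - s) / 2)) ^ wt u| := le_abs_self _
    _ = ((1 - s) / 2) ^ wt u := by
        rw [abs_pow, abs_neg, abs_of_nonneg (by linarith)]

/-- the enumerator is controlled by the weights up to `n/2` -/
theorem half_le (C : Finset (Wd n)) {s : ℝ} (h0 : 0 ≤ s) (h1 : s ≤ 1) :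
    (1 - s) * ∑ x ∈ C, ∑ y ∈ C, s ^ wt (x - y) ≤
      ∑ x ∈ C, ∑ y ∈ C, if 2 * wt (x - y) ≤ n then s ^ wt (x - y) else 0 := by
  have h2 := sum_compl_le C h0 h1
  have h3 : ∑ x ∈ C, ∑ y ∈ C, s ^ wt (x - y) ≤
      (∑ x ∈ C, ∑ y ∈ C, if 2 * wt (x - y) ≤ n then s ^ wt (x - y) else 0) +
        s * ∑ x ∈ C, ∑ y ∈ C, s ^ (n - wt (x - y)) := by
    rw [Finset.mul_sum, ← Finset.sum_add_distrib]
    apply Finset.sum_le_sum; intro x _
    rw [Finset.mul_sum, ← Finset.sum_add_distrib]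
    apply Finset.sum_le_sum; intro y _
    split_ifs with h
    · have : 0 ≤ s * s ^ (n - wt (x - y)) := by positivity
      linarith
    · push Not at h
      rw [zero_add, ← pow_succ']
      apply pow_le_pow_of_le_one h0 h1
      have := wt_le (x - y)
      omega
  nlinarith

theorem pow_four {n : ℕ} (hn : 2 ≤ n) : (1 : ℝ) ≤ 4 * (1 - 1 / (n : ℝ)) ^ n := by
  have hn' : (2 : ℝ) ≤ n := by exact_mod_cast hn
  have hpos : (0 : ℝ) < n := by linarith
  have h0 : 0 ≤ 1 - 1 / (n : ℝ) := by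
    rw [sub_nonneg, div_le_one hpos]; linarith
  -- split `n = a + b` with `a, b ≤ (n+1)/2`
  have key : ∀ k : ℕ, 2 * k ≤ n → (1 / 2 : ℝ) ≤ (1 - 1 / (n : ℝ)) ^ k := by
    intro k hk
    have hk' : (2 : ℝ) * k ≤ n := by exact_mod_cast hk
    have h1 := one_add_mul_le_pow (a := -(1 / (n : ℝ))) (by linarith) k
    have h2 : (k : ℝ) * (1 / n) ≤ 1 / 2 := by
      rw [mul_one_div, div_le_iff₀ hpos]; linarith
    have h3 : (1 + -(1 / (n : ℝ))) = 1 - 1 / n := by ring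
    rw [h3] at h1
    nlinarith
  rcases Nat.even_or_odd' n with ⟨k, hk | hk⟩
  · have h1 := key k (by omega)
    have h2 : (1 - 1 / (n : ℝ)) ^ n = (1 - 1 / (n : ℝ)) ^ k * (1 - 1 / (n : ℝ)) ^ k := by
      rw [← pow_add]; congr 1; omega
    rw [h2]; nlinarith
  · -- odd `n = 2k+1 ≥ 3`
    have hk1 : 1 ≤ k := by omega
    have hk' : (1 : ℝ) ≤ k := by exact_mod_cast hk1
    have hnk : (n : ℝ) = 2 * k + 1 := by exact_mod_cast hk
    have h1 := one_add_mul_le_pow (a := -(1 / (n : ℝ))) (by linarith) k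
    have h3 : (1 + -(1 / (n : ℝ))) = 1 - 1 / n := by ring
    rw [h3] at h1
    have h4 : 1 + (k : ℝ) * -(1 / n) = (k + 1) / (2 * k + 1) := by
      rw [hnk]; field_simp; ring
    have h5 : 1 - 1 / (n : ℝ) = 2 * k / (2 * k + 1) := by
      rw [hnk]; field_simp; ring
    have h2 : (1 - 1 / (n : ℝ)) ^ n =
        (1 - 1 / (n : ℝ)) ^ k * (1 - 1 / (n : ℝ)) ^ k * (1 - 1 / (n : ℝ)) := by
      rw [← pow_add, ← pow_succ]; congr 1; omega
    rw [h4] at h1
    have h6 : (0 : ℝ) < (k + 1) / (2 * k + 1) := by positivity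
    have h7 : ((k + 1) / (2 * k + 1) : ℝ) * ((k + 1) / (2 * k + 1)) ≤
        (1 - 1 / (n : ℝ)) ^ k * (1 - 1 / (n : ℝ)) ^ k := by nlinarith
    have h8 : (1 : ℝ) ≤ 4 * (((k + 1) / (2 * k + 1) : ℝ) * ((k + 1) / (2 * k + 1)) *
        (2 * k / (2 * k + 1))) := by
      have h9 : (0 : ℝ) < (2 * k + 1) ^ 3 := by positivity
      have h10 : 4 * (((k + 1) / (2 * k + 1) : ℝ) * ((k + 1) / (2 * k + 1)) *
        (2 * k / (2 * k + 1))) = 8 * k * (k + 1) ^ 2 / (2 * k + 1) ^ 3 := by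
        field_simp
        norm_num
      rw [h10, le_div_iff₀ h9]
      nlinarith [sq_nonneg ((k : ℝ) - 1), mul_nonneg (sub_nonneg.mpr hk') (sub_nonneg.mpr hk')]
    rw [h2, h5] at *
    have h11 : (0 : ℝ) ≤ 2 * k / (2 * k + 1) := by positivity
    nlinarith [mul_le_mul_of_nonneg_right h7 h11]

/-- all onesU -/
def onesU : Wd n := fun _ => 1

theorem wt_add_onesU (x : Wd n) : wt (x + onesU) = n - wt x := by
  have h := Finset.card_filter_add_card_filter_not (s := (univ : Finset (Fin n))) (fun i => x i ≠ 0)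
  have h1 : (univ.filter (fun i => x i ≠ 0)).card = wt x := rfl
  have h2 : (univ.filter (fun i => ¬ x i ≠ 0)).card = wt (x + onesU) := by
    have h3 : (univ.filter (fun i => ¬ x i ≠ 0)) = univ.filter (fun i => (x + onesU : Wd n) i ≠ 0) := by
      apply Finset.filter_congr
      intro i _
      have h4 : (x + onesU : Wd n) i = x i + 1 := rfl
      rw [h4]
      have h5 : ∀ a : ZMod 2, ¬ a ≠ 0 ↔ a + 1 ≠ 0 := by decide
      exact h5 (x i)
    rw [h3]
    rfl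
  rw [h1, h2, Finset.card_univ, Fintype.card_fin] at h
  omega

theorem WU_core (C : Finset (Wd n)) {v : ℝ} (h0 : 0 ≤ v) (h1 : v ≤ 1) (hn : 2 ≤ n) :
    ∑ x ∈ C, ∑ y ∈ C, v ^ wt (x - y) ≤
      4 * n * ∑ x ∈ C, ∑ y ∈ C, if 2 * wt (x - y) ≤ n then v ^ wt (x - y) else 0 := by
  have hn' : (2 : ℝ) ≤ n := by exact_mod_cast hn
  have hpos : (0 : ℝ) < n := by linarith
  set q : ℝ := 1 - 1 / n with hq
  have hq0 : 0 ≤ q := by
    rw [hq, sub_nonneg, div_le_one hpos]; linarith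
  have hq1 : q ≤ 1 := by
    rw [hq]; have : 0 ≤ 1 / (n : ℝ) := by positivity
    linarith
  set s : ℝ := q * v with hs
  have hs0 : 0 ≤ s := mul_nonneg hq0 h0
  have hsv : s ≤ v := by rw [hs]; nlinarith
  have hs1 : s ≤ 1 := hsv.trans h1
  have h2 := half_le C hs0 hs1
  have h3 : 1 / (n : ℝ) ≤ 1 - s := by
    have : s ≤ q := by rw [hs]; nlinarith
    rw [hq] at this; linarith
  have h4 := pow_four hn
  rw [← hq] at h4
  have h5 : ∑ x ∈ C, ∑ y ∈ C, v ^ wt (x - y) ≤ 4 * ∑ x ∈ C, ∑ y ∈ C, s ^ wt (x - y) := by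
    rw [Finset.mul_sum]
    apply Finset.sum_le_sum; intro x _
    rw [Finset.mul_sum]
    apply Finset.sum_le_sum; intro y _
    have h6 : q ^ n ≤ q ^ wt (x - y) := pow_le_pow_of_le_one hq0 hq1 (wt_le _)
    have h7 : 0 ≤ v ^ wt (x - y) := pow_nonneg h0 _
    rw [hs, mul_pow]
    nlinarith
  have h8 : 0 ≤ ∑ x ∈ C, ∑ y ∈ C, s ^ wt (x - y) :=
    Finset.sum_nonneg fun x _ => Finset.sum_nonneg fun y _ => pow_nonneg hs0 _
  have h9 : ∑ x ∈ C, ∑ y ∈ C, s ^ wt (x - y) ≤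
      n * ∑ x ∈ C, ∑ y ∈ C, if 2 * wt (x - y) ≤ n then s ^ wt (x - y) else 0 := by
    have h10 : 1 / (n : ℝ) * ∑ x ∈ C, ∑ y ∈ C, s ^ wt (x - y) ≤
        ∑ x ∈ C, ∑ y ∈ C, if 2 * wt (x - y) ≤ n then s ^ wt (x - y) else 0 :=
      (mul_le_mul_of_nonneg_right h3 h8).trans h2
    rw [one_div, inv_mul_le_iff₀ hpos] at h10
    exact h10
  have h11 : (∑ x ∈ C, ∑ y ∈ C, if 2 * wt (x - y) ≤ n then s ^ wt (x - y) else 0) ≤
      ∑ x ∈ C, ∑ y ∈ C, if 2 * wt (x - y) ≤ n then v ^ wt (x - y) else 0 := by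
    apply Finset.sum_le_sum; intro x _
    apply Finset.sum_le_sum; intro y _
    split_ifs
    · exact pow_le_pow_left₀ hs0 hsv _
    · exact le_rfl
  calc ∑ x ∈ C, ∑ y ∈ C, v ^ wt (x - y) ≤ 4 * ∑ x ∈ C, ∑ y ∈ C, s ^ wt (x - y) := h5
    _ ≤ 4 * (n * ∑ x ∈ C, ∑ y ∈ C, if 2 * wt (x - y) ≤ n then s ^ wt (x - y) else 0) := by
        linarith
    _ ≤ 4 * (n * ∑ x ∈ C, ∑ y ∈ C, if 2 * wt (x - y) ≤ n then v ^ wt (x - y) else 0) := by
        apply mul_le_mul_of_nonneg_left _ (by norm_num)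
        exact mul_le_mul_of_nonneg_left h11 hpos.le
    _ = _ := by ring

/-- low weights by typical distances -/
theorem low_le (C : Finset (Wd n)) {τ v : ℝ} (hT : Typ C τ) (h0 : 0 ≤ v) :
    (∑ x ∈ C, ∑ y ∈ C, if 2 * wt (x - y) ≤ n then v ^ wt (x - y) else 0) ≤
      C.card + (C.card : ℝ) ^ 2 * pw n (τ - 1) * (1 + v) ^ n := by
  rw [nP_sum C (fun w => if 2 * w ≤ n then v ^ w else 0)]
  simp only [nsmul_eq_mul]
  have hzero : nP C 0 = C.card := by
    unfold nP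
    rw [show ((C ×ˢ C).filter fun p => wt (p.1 - p.2) = 0) = C.image (fun x => (x, x)) from ?_,
      Finset.card_image_of_injective _ (fun x y h => (Prod.mk.inj h).1)]
    ext ⟨x, y⟩
    simp only [Finset.mem_filter, Finset.mem_product, Finset.mem_image, Prod.mk.injEq, wt,
      hammingNorm_eq_zero, sub_eq_zero]
    constructor
    · rintro ⟨⟨hx, _⟩, rfl⟩; exact ⟨x, hx, rfl, rfl⟩
    · rintro ⟨a, ha, rfl, rfl⟩; exact ⟨⟨ha, ha⟩, rfl⟩
  have h1 : ∀ w ∈ range (n + 1), (nP C w : ℝ) * (if 2 * w ≤ n then v ^ w else 0) ≤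
      (if w = 0 then (C.card : ℝ) else 0) +
        (C.card : ℝ) ^ 2 * pw n (τ - 1) * ((n.choose w : ℝ) * v ^ w) := by
    intro w _
    have hp := pw_pos n (τ - 1)
    have hr : 0 ≤ (C.card : ℝ) ^ 2 * pw n (τ - 1) * ((n.choose w : ℝ) * v ^ w) := by positivity
    by_cases hw0 : w = 0
    · subst hw0
      rw [hzero]
      simp only [mul_zero, Nat.zero_le, if_true, pow_zero, mul_one, Nat.choose_zero_right,
        Nat.cast_one] at hr ⊢
      linarith
    · rw [if_neg hw0, zero_add]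
      split_ifs with h
      · have := hT w (Nat.pos_of_ne_zero hw0) h
        calc (nP C w : ℝ) * v ^ w ≤ (C.card : ℝ) ^ 2 * pw n (τ - 1) * n.choose w * v ^ w :=
              mul_le_mul_of_nonneg_right this (by positivity)
          _ = _ := by ring
      · rw [mul_zero]; exact hr
  refine (Finset.sum_le_sum h1).trans ?_
  rw [Finset.sum_add_distrib, ← Finset.mul_sum, Finset.sum_ite_eq' (range (n + 1)) 0,
    if_pos (Finset.mem_range.2 (Nat.succ_pos _))]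
  have h2 : ∑ w ∈ range (n + 1), (n.choose w : ℝ) * v ^ w = (1 + v) ^ n := by
    rw [add_comm (1 : ℝ) v, add_pow]
    apply Finset.sum_congr rfl
    intro w _
    rw [one_pow]; ring
  rw [h2]

/-- the union of the code and its complement -/
def dbl (C : Finset (Wd n)) : Finset (Wd n) := C ∪ C.image (· + onesU)

theorem ones_add_ones : (onesU : Wd n) + onesU = 0 := by
  funext i
  simp only [onesU, Pi.add_apply, Pi.zero_apply]
  decide

theorem wt_sub_ones (x y : Wd n) : wt (x - (y + onesU)) = n - wt (x - y) := by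
  rw [sub_eq_add', sub_eq_add', ← add_assoc, wt_add_onesU]

theorem wt_ones_sub (x y : Wd n) : wt (x + onesU - y) = n - wt (x - y) := by
  rw [sub_eq_add', sub_eq_add', add_right_comm, wt_add_onesU]

theorem wt_ones_ones (x y : Wd n) : wt (x + onesU - (y + onesU)) = wt (x - y) := by
  rw [add_sub_add_right_eq_sub]

theorem add_ones_inj : Function.Injective (fun x : Wd n => x + onesU) := add_left_injective _

theorem dbl_sum_le (C : Finset (Wd n)) {v : ℝ} (h0 : 0 ≤ v) (h1 : v ≤ 1) :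
    ∑ x ∈ dbl C, ∑ y ∈ dbl C, v ^ wt (x - y) ≤ 4 * ∑ x ∈ C, ∑ y ∈ C, v ^ wt (x - y) := by
  have hU : ∀ F : Wd n → ℝ, (∀ x, 0 ≤ F x) → ∑ x ∈ dbl C, F x ≤
      ∑ x ∈ C, F x + ∑ x ∈ C, F (x + onesU) := by
    intro F hF
    unfold dbl
    have h := Finset.sum_union_inter (s₁ := C) (s₂ := C.image (· + onesU)) (f := F)
    have h2 : 0 ≤ ∑ x ∈ C ∩ C.image (· + onesU), F x := Finset.sum_nonneg fun x _ => hF x
    have h3 : ∑ x ∈ C.image (· + onesU), F x = ∑ x ∈ C, F (x + onesU) :=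
      Finset.sum_image fun a _ b _ h => add_ones_inj h
    linarith
  have hc := sum_compl_le C h0 h1
  have h2 : ∀ x : Wd n, 0 ≤ ∑ y ∈ dbl C, v ^ wt (x - y) := fun x =>
    Finset.sum_nonneg fun y _ => pow_nonneg h0 _
  refine (hU _ h2).trans ?_
  have h3 : ∀ x : Wd n, ∑ y ∈ dbl C, v ^ wt (x - y) ≤
      ∑ y ∈ C, v ^ wt (x - y) + ∑ y ∈ C, v ^ (n - wt (x - y)) := by
    intro x
    refine (hU _ fun y => pow_nonneg h0 _).trans (le_of_eq ?_)
    simp only [wt_sub_ones]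
  have h4 : ∀ x : Wd n, ∑ y ∈ dbl C, v ^ wt (x + onesU - y) ≤
      ∑ y ∈ C, v ^ (n - wt (x - y)) + ∑ y ∈ C, v ^ wt (x - y) := by
    intro x
    refine (hU _ fun y => pow_nonneg h0 _).trans (le_of_eq ?_)
    simp only [wt_ones_ones]
    simp only [wt_ones_sub]
  calc ∑ x ∈ C, ∑ y ∈ dbl C, v ^ wt (x - y) + ∑ x ∈ C, ∑ y ∈ dbl C, v ^ wt (x + onesU - y)
      ≤ ∑ x ∈ C, (∑ y ∈ C, v ^ wt (x - y) + ∑ y ∈ C, v ^ (n - wt (x - y))) +
        ∑ x ∈ C, (∑ y ∈ C, v ^ (n - wt (x - y)) + ∑ y ∈ C, v ^ wt (x - y)) :=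
        add_le_add (Finset.sum_le_sum fun x _ => h3 x) (Finset.sum_le_sum fun x _ => h4 x)
    _ = 2 * ∑ x ∈ C, ∑ y ∈ C, v ^ wt (x - y) + 2 * ∑ x ∈ C, ∑ y ∈ C, v ^ (n - wt (x - y)) := by
        rw [Finset.sum_add_distrib, Finset.sum_add_distrib]; ring
    _ ≤ _ := by linarith

theorem card_dbl_ge (C : Finset (Wd n)) : C.card ≤ (dbl C).card :=
  Finset.card_le_card Finset.subset_union_left

theorem card_dbl_le (C : Finset (Wd n)) : (dbl C).card ≤ 2 * C.card := by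
  unfold dbl
  refine (Finset.card_union_le _ _).trans ?_
  have := Finset.card_image_le (s := C) (f := fun x => x + onesU)
  omega

/-- **upper bound from typical distances**, for the code and its complement together -/
theorem WU_of_Typ {R v0 τ' : ℝ} (hv0 : 0 < v0) (hcond : (2 : ℝ) ^ (1 - R) ≤ 1 + v0) (hτ' : 0 < τ') :
    ∃ τ : ℝ, 0 < τ ∧ ∃ n0 : ℕ, ∀ n ≥ n0, ∀ C : Finset (Wd n), pw n R ≤ C.card → Typ C τ →
      WU (dbl C) τ' v0 := by
  -- `32 n ≤ 2^(τ' n / 2)`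
  obtain ⟨n1, hn1⟩ : ∃ n1 : ℕ, ∀ n ≥ n1, (32 : ℝ) * n ≤ pw n (τ' / 2) := by
    have h1 : Filter.Tendsto (fun n : ℕ => (n : ℝ) * ((2 : ℝ) ^ (-(τ' / 2))) ^ n) Filter.atTop
        (nhds 0) := by
      have h2 : (2 : ℝ) ^ (-(τ' / 2)) < 1 := Real.rpow_lt_one_of_one_lt_of_neg (by norm_num) (by linarith)
      have h3 := tendsto_self_mul_const_pow_of_lt_one (r := (2 : ℝ) ^ (-(τ' / 2))) (by positivity) h2
      exact h3
    have h4 := h1.eventually_le_const (show (0 : ℝ) < 1 / 32 by norm_num)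
    obtain ⟨n1, h5⟩ := Filter.eventually_atTop.mp h4
    refine ⟨n1, fun n hn => ?_⟩
    have h6 := h5 n hn
    have h7 : ((2 : ℝ) ^ (-(τ' / 2))) ^ n = (pw n (τ' / 2))⁻¹ := by
      rw [← pw_neg]; unfold pw
      rw [← Real.rpow_natCast, ← Real.rpow_mul (by norm_num)]
    rw [h7] at h6
    have h8 := pw_pos n (τ' / 2)
    rw [mul_inv_le_iff₀ h8] at h6
    linarith
  refine ⟨τ' / 2, by positivity, max n1 2, ?_⟩
  intro n hn C hC hT v hv hv1
  have hn1' := hn1 n ((le_max_left _ _).trans hn)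
  have hn2 : 2 ≤ n := (le_max_right _ _).trans hn
  have hv' : 0 ≤ v := hv0.le.trans hv
  have h1 := WU_core C hv' hv1 hn2
  have h2 := low_le C hT hv'
  have h3 := dbl_sum_le C hv' hv1
  have hC0 : (0 : ℝ) < C.card := lt_of_lt_of_le (pw_pos n R) hC
  have hp := pw_pos n (τ' / 2 - 1)
  have h4 : (C.card : ℝ) ≤ (C.card : ℝ) ^ 2 * pw n (τ' / 2 - 1) * (1 + v) ^ n := by
    have h5 : pw n (1 - R) ≤ (1 + v) ^ n := by
      calc pw n (1 - R) = ((2 : ℝ) ^ (1 - R)) ^ n := by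
            unfold pw; rw [Real.rpow_mul (by norm_num), Real.rpow_natCast]
        _ ≤ (1 + v) ^ n := pow_le_pow_left₀ (by positivity) (by linarith) n
    have h6 : (1 : ℝ) ≤ pw n R * pw n (τ' / 2 - 1) * pw n (1 - R) := by
      rw [← pw_add, ← pw_add, ← pw_zero n]
      apply pw_mono; linarith
    have h7 : pw n R * pw n (τ' / 2 - 1) * pw n (1 - R) ≤
        C.card * pw n (τ' / 2 - 1) * (1 + v) ^ n := by
      apply mul_le_mul _ h5 (pw_pos n _).le (by positivity)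
      exact mul_le_mul_of_nonneg_right hC hp.le
    have h8 : (1 : ℝ) ≤ C.card * pw n (τ' / 2 - 1) * (1 + v) ^ n := h6.trans h7
    calc (C.card : ℝ) = C.card * 1 := (mul_one _).symm
      _ ≤ C.card * (C.card * pw n (τ' / 2 - 1) * (1 + v) ^ n) :=
          mul_le_mul_of_nonneg_left h8 hC0.le
      _ = _ := by ring
  set X : ℝ := (C.card : ℝ) ^ 2 * pw n (τ' / 2 - 1) * (1 + v) ^ n with hX
  have hX0 : 0 ≤ X := by rw [hX]; positivity
  have h9 : ∑ x ∈ dbl C, ∑ y ∈ dbl C, v ^ wt (x - y) ≤ (32 * n) * X := by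
    have hn0 : (0 : ℝ) ≤ n := Nat.cast_nonneg _
    have h10 : ∑ x ∈ C, ∑ y ∈ C, v ^ wt (x - y) ≤ 4 * n * (2 * X) := by
      refine h1.trans ?_
      apply mul_le_mul_of_nonneg_left _ (by positivity)
      linarith
    calc ∑ x ∈ dbl C, ∑ y ∈ dbl C, v ^ wt (x - y) ≤ 4 * ∑ x ∈ C, ∑ y ∈ C, v ^ wt (x - y) := h3
      _ ≤ 4 * (4 * n * (2 * X)) := by linarith
      _ = (32 * n) * X := by ring
  refine h9.trans ?_
  calc (32 * n) * X ≤ pw n (τ' / 2) * X := mul_le_mul_of_nonneg_right hn1' hX0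
    _ = (C.card : ℝ) ^ 2 * pw n (τ' - 1) * (1 + v) ^ n := by
        rw [hX]
        have : pw n (τ' - 1) = pw n (τ' / 2) * pw n (τ' / 2 - 1) := by
          rw [← pw_add]; congr 1; ring
        rw [this]; ring
    _ ≤ _ := by
        apply mul_le_mul_of_nonneg_right _ (by positivity)
        apply mul_le_mul_of_nonneg_right _ (pw_pos n _).le
        apply pow_le_pow_left₀ hC0.le
        exact_mod_cast card_dbl_ge C

end Pool.Agent.Lib.MP_0430e4_lc.AC
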