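import Pool.Agent.Lib.MP_0430e4_lc.AC.YT10
import Pool.Agent.Lib.MP_0430e4_lc.AC.PA2
import Pool.Agent.Lib.MP_0430e4_lc.YG.A4

/-!
Project ALLCODES, part Y2 (`δ < δ*`): definitions (helper71).

`η = t/2`, `Rc η = [0,η] × [-π/2, π/2]`, `w = wS η s = zz (η - s)` (transform side, `‖w‖ ≤ 1`,
`0 ≤ Re w`), `z = zS η s = (1-w)/(1+w)`, `PhS η c s` = potential of branch II at `z`.
-/

set_option autoImplicit false

open Finset Polynomial

namespace Pool.Agent.Lib.MP_0430e4_lc.AC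

open LPLOW Lower BY

/-- the point `w` of the closed right half disc -/
noncomputable def wS (η : ℝ) (s : ℂ) : ℂ := zz (nm η) ((η : ℂ) - s)

/-- `z = (1-w)/(1+w)` -/
noncomputable def zS (η : ℝ) (s : ℂ) : ℂ := zu (wS η s)

/-- the majorant of the transform side: `(1/n) log |q(w)|` for `q(1) = 1` -/
noncomputable def VhS (η c : ℝ) (s : ℂ) : ℝ := (GG (nm η) c ((η : ℂ) - s)).re - c

/-- the potential of branch II at `z = zS η s` -/
noncomputable def PhS (η c : ℝ) (s : ℂ) : ℝ :=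
  VhS η c s + (Real.log 2 - Real.log ‖1 + wS η s‖)

/-- derivative of the exponent of the mass with respect to the level -/
noncomputable def lam2 (t : ℝ) : ℝ := Or (t / 2) 0 / 2 * (t / 2)

/-- relative distance of branch II -/
noncomputable def dII (t : ℝ) : ℝ := (1 - Exact.sII t) / 2

/-- the multiplier of Y2: `S` odd, real, analytic in `|u| < R`; on `|u| = 1` its real part is largest
at the bump `ψ`. `x2`: from here on the potential inequality `D` holds. `r0`, `A0` do not depend on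
`x2`, `th`. -/
structure Mul (ψ th x2 r0 A0 : ℝ) (S : ℂ → ℂ) (R A c : ℝ) : Prop where
  hR : 1 < R
  hc : 0 < c
  hA : 0 < A
  diff : DifferentiableOn ℂ S (Metric.ball 0 R)
  conj : ∀ u : ℂ, S (starRingEnd ℂ u) = starRingEnd ℂ (S u)
  odd : ∀ u : ℂ, S (-u) = -S u
  bd : ∀ u : ℂ, ‖u‖ < R → ‖S u‖ ≤ A
  pos1 : 0 < (S 1).re
  right : ∀ u : ℂ, ‖u‖ ≤ 1 → 0 ≤ u.re → 0 ≤ (S u).re
  /-- the unit circle off the bump -/
  circ : ∀ φ : ℝ, 0 ≤ φ → φ ≤ Real.pi → (φ ≤ ψ - th ∨ ψ + th ≤ φ) →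
    (S (up 0 φ)).re ≤ (S 1).re - c * (1 - Real.cos φ)
  slope : (deriv S 1).re < 0
  /-- the potential inequality -/
  D : ∀ x : ℝ, x2 ≤ x → x ≤ 1 →
    (S (zu (x : ℂ))).re - (S 1).re + 2 * (deriv S 1).re * Real.arctan x < 0
  zdiff : DifferentiableOn ℂ (fun z => S (zu z)) (Metric.ball 0 r0)
  zbd : ∀ z : ℂ, ‖z‖ < r0 → ‖S (zu z) - S 1‖ ≤ A0

/-- coefficients of `exp (n ε (S u - S 1))` -/
noncomputable def tc (S : ℂ → ℂ) (ε : ℝ) (n j : ℕ) : ℝ :=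
  (iteratedDeriv j (fun u : ℂ => Complex.exp ((n : ℂ) * ((ε : ℂ) * (S u - S 1)))) 0).re /
    j.factorial

/-- the multiplier cut at degree `J` -/
noncomputable def TJ (S : ℂ → ℂ) (ε : ℝ) (n J : ℕ) : ℝ[X] :=
  ∑ j ∈ range (J + 1), Polynomial.monomial j (tc S ε n j)

/-- a cut certificate of length `n0` on the transform side, `q(1) = 1`. `A` constant, `e` excess of the
exponent of the mass over that of level `sII t`, `κ` mean, `K0` degree. -/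
structure QB (t : ℝ) (n0 K0 : ℕ) (A e κ : ℝ) (q : ℝ[X]) : Prop where
  nonneg : ∀ j : ℕ, 0 ≤ q.coeff j
  deg : q.natDegree ≤ K0
  one : q.eval 1 = 1
  mean : q.derivative.eval 1 ≤ κ * n0
  mass : q.eval 0 ≤ A * Real.exp (n0 * (-Exact.cval t + e))
  bd : ∀ s ∈ YG.Rc (t / 2), ‖q.aeval (wS (t / 2) s)‖ ≤
    A * (Real.exp (n0 * (VhS (t / 2) (Exact.cval t) s + e / (t / 2) * s.re)) +
      ‖wS (t / 2) s‖ ^ K0)
  bdn : ∀ s ∈ YG.Rc (t / 2), ‖q.aeval (-wS (t / 2) s)‖ ≤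
    A * (Real.exp (n0 * (VhS (t / 2) (Exact.cval t) s + e / (t / 2) * s.re)) +
      ‖wS (t / 2) s‖ ^ K0)

/-- the degree of the cut certificate -/
noncomputable def Kx (ξ : ℝ) (n0 : ℕ) : ℕ := ⌊(1 / 2 - ξ) * n0⌋₊

/-- the test polynomial (transform side, `G(1) ≈ 1`) -/
noncomputable def Gq (q : ℝ[X]) (n0 : ℕ) (S : ℂ → ℂ) (ε η' : ℝ) (n : ℕ) : ℝ[X] :=
  q ^ (n / n0) * TJ S ε n ⌊η' * n⌋₊

/-- coefficients of `(1+z)^n G((1-z)/(1+z))` -/
noncomputable def cK (n : ℕ) (G : ℝ[X]) (k : ℕ) : ℝ := ∑ w ∈ range (n + 1), G.coeff w * kr n k w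

/-- linear gap of the potential over `(1/2) log (1+x^2)` -/
def GapOK (t ξ : ℝ) : Prop := ∀ x : ℝ, 0 < x → x < 1 →
  Real.log (1 + x ^ 2) / 2 + 8 * ξ * x ≤ UII t x

/-- the slope of the majorant near `e^(iψ)` is at least `ωa` -/
def SlopeArc (t ωa ψ τ1 : ℝ) : Prop := ∀ s φ : ℝ, -τ1 ≤ s → s ≤ 0 → |φ - ψ| ≤ τ1 →
  ∃ ζ ∈ YG.Rc (t / 2), wS (t / 2) ζ = up s φ ∧ VhS (t / 2) (Exact.cval t) ζ ≤ ωa * s

end Pool.Agent.Lib.MP_0430e4_lc.AC
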