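import Pool.Agent.Lib.MP_0430e4_lc.AC.YSlope
import Pool.Agent.Lib.MP_0430e4_lc.AC.Y2D

/-!
Y2 module Arc (helper51, on top of helper72's `slope_at`): `slope_box` in polar coordinates of `w`,
near `w = i`. The preimage of `e^(iψ)` in the closed rectangle is unique (`y2arc_uniq`), by compactness
the preimages of nearby points are near it.
-/

set_option autoImplicit false

open Finset Polynomial

namespace Pool.Agent.Lib.MP_0430e4_lc.AC

open LPLOW LPLOW.BII Lower BY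

/-- `Im Lam (i t)` -/
noncomputable def y2arc_lam (η t : ℝ) : ℝ := (Lam η ((t : ℂ) * Complex.I)).im

theorem y2arc_S_pi (η : ℝ) (u : ℂ) :
    LPLOW.S (LPLOW.BII.cM η) (u + Real.pi * Complex.I) = LPLOW.S (LPLOW.BII.cM η) u := by
  unfold LPLOW.S
  congr 1
  funext k
  unfold LPLOW.BII.cM
  by_cases hk : Even k
  · obtain ⟨m, rfl⟩ := hk
    rw [mul_add, Complex.exp_add]
    have h : ((m + m : ℤ) : ℂ) * (Real.pi * Complex.I) = m * (2 * Real.pi * Complex.I) := by
      push_cast; ring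
    rw [h, Complex.exp_int_mul_two_pi_mul_I, mul_one]
  · rw [if_neg hk]
    simp

theorem y2arc_lam_eq (η t : ℝ) :
    Lam η ((t : ℂ) * Complex.I) = (y2arc_lam η t : ℂ) * Complex.I := by
  have h := Lam_re_imag (η := η) ((t : ℂ) * Complex.I) (by simp)
  apply Complex.ext
  · rw [h]; simp
  · simp [y2arc_lam]

theorem y2arc_lam_half (η : ℝ) : y2arc_lam η (Real.pi / 2) = Real.pi / 2 := by
  have h1 := y2arc_S_pi η (((-(Real.pi / 2) : ℝ) : ℂ) * Complex.I)
  have e1 : (((-(Real.pi / 2) : ℝ) : ℂ) * Complex.I) + Real.pi * Complex.I =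
      ((Real.pi / 2 : ℝ) : ℂ) * Complex.I := by push_cast; ring
  have e2 : (((-(Real.pi / 2) : ℝ) : ℂ) * Complex.I) = -(((Real.pi / 2 : ℝ) : ℂ) * Complex.I) := by
    push_cast; ring
  rw [e1, e2, S_neg_odd (LPLOW.BII.cM_neg η)] at h1
  have h2 : LPLOW.S (LPLOW.BII.cM η) (((Real.pi / 2 : ℝ) : ℂ) * Complex.I) = 0 := by
    linear_combination (1 / 2) * h1
  unfold y2arc_lam Lam
  rw [h2]
  simp

theorem y2arc_lam_deriv {η : ℝ} (hη : 0 < η) (t : ℝ) :
    HasDerivAt (y2arc_lam η) (LPLOW.S (cO η) ((t : ℂ) * Complex.I)).re t := by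
  have h1 := hasDerivAt_Lam hη (s := (t : ℂ) * Complex.I) (by simpa using hη)
  have h2 : HasDerivAt (fun x : ℝ => (x : ℂ) * Complex.I) Complex.I t := by
    simpa using (Complex.ofRealCLM.hasDerivAt (x := t)).mul_const Complex.I
  have h3 := h1.scomp t h2
  have h4 := Complex.imCLM.hasFDerivAt.comp_hasDerivAt t h3
  refine h4.congr_deriv ?_
  simp

theorem y2arc_lam_mono {η : ℝ} (hη : 0 < η) : StrictMono (y2arc_lam η) := by
  apply strictMono_of_deriv_pos
  intro t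
  rw [(y2arc_lam_deriv hη t).deriv]
  have := LPLOW.OO_re_pos hη t
  rwa [mul_comm] at this

theorem y2arc_lam_neg (η t : ℝ) : y2arc_lam η (-t) = -y2arc_lam η t := by
  unfold y2arc_lam Lam
  have e2 : (((-t : ℝ) : ℂ) * Complex.I) = -((t : ℂ) * Complex.I) := by
    push_cast; ring
  rw [e2, S_neg_odd (LPLOW.BII.cM_neg η)]
  simp only [Complex.add_im, Complex.neg_im]
  ring

theorem y2arc_wS (η : ℝ) (s : ℂ) : wS η ((η : ℂ) - s) = YG.Z η s := by
  unfold wS nm YG.Z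
  rw [sub_sub_cancel]

theorem y2arc_Z {η : ℝ} (hη : 0 < η) {u : ℂ} (hu : |u.re| < η) :
    YG.Z η ((η : ℂ) + u) = Complex.exp (Lam η u) := zz_add hη hu

theorem y2arc_V {η : ℝ} (hη : 0 < η) (c : ℝ) {u : ℂ} (hu : |u.re| < η) :
    VhS η c (-u) = (VV η ((c - Lower.f0 (Real.exp (-η) ^ 2)) / η) u).re := by
  unfold VhS nm
  rw [sub_neg_eq_add, GG_add hη c hu]
  simp

theorem y2arc_kst {t : ℝ} (ht : 0 < t) :
    (Exact.cval t - Lower.f0 (Real.exp (-(t / 2)) ^ 2)) / (t / 2) = kst (t / 2) := by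
  have hη : 0 < t / 2 := by linarith
  have h1 := cval_eq_f0 ht
  rw [Lower.r_eq hη] at h1
  unfold kst
  rw [LPLOW.Pos.SS_pi, Complex.ofReal_re, h1]
  field_simp
  ring

/-- the preimage of `e^(iψ)` -/
theorem y2arc_uniq {η : ℝ} (hη : 0 < η) {t1 ψ : ℝ} (h1 : y2arc_lam η t1 = ψ)
    (hψ : |ψ| < Real.pi / 2) {s : ℂ} (hs : s ∈ YG.Rc η) (h : YG.Z η s = up 0 ψ) :
    s = (η : ℂ) + (t1 : ℂ) * Complex.I := by
  have hπ := Real.pi_pos
  obtain ⟨⟨a0, a1⟩, ai⟩ := YG.mem_Rc.1 hs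
  have hre : s.re = η := by
    by_contra hne
    have hlt : s.re < η := lt_of_le_of_ne a1 hne
    have h2 := YG.Z_norm_lt_one hη a0 hlt
    rw [h] at h2
    unfold up at h2
    rw [Complex.norm_exp] at h2
    simp at h2
  have e1 : s = (η : ℂ) + (s.im : ℂ) * Complex.I := by
    apply Complex.ext
    · simp [hre]
    · simp
  rw [e1, y2arc_Z hη (by simpa using hη), y2arc_lam_eq] at h
  unfold up at h
  have e2 : ((0 : ℝ) : ℂ) + (ψ : ℂ) * Complex.I = (ψ : ℂ) * Complex.I := by simp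
  rw [e2] at h
  have hai := abs_le.1 ai
  have hψ' := abs_lt.1 hψ
  have m := (y2arc_lam_mono hη).monotone
  have l1 : y2arc_lam η s.im ≤ Real.pi / 2 := by
    have := m hai.2
    rwa [y2arc_lam_half] at this
  have l2 : -(Real.pi / 2) ≤ y2arc_lam η s.im := by
    have := m hai.1
    rwa [y2arc_lam_neg, y2arc_lam_half] at this
  have h3 : y2arc_lam η s.im = ψ := by
    have g1 := Complex.log_exp (x := (y2arc_lam η s.im : ℂ) * Complex.I) (by simp; linarith)
      (by simp; linarith)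
    have g2 := Complex.log_exp (x := (ψ : ℂ) * Complex.I) (by simp; linarith) (by simp; linarith)
    rw [h, g2] at g1
    have g3 := congrArg Complex.im g1
    simpa using g3.symm
  have h4 : s.im = t1 := (y2arc_lam_mono hη).injective (by rw [h3, h1])
  rw [e1, h4]

theorem slope_arc {t : ℝ} (ht : 0 < t) {ωa : ℝ} (h : ωa < (1 - Iq.AZ t) / 2) :
    ∃ φ0 : ℝ, 0 < φ0 ∧ φ0 < Real.pi / 2 ∧ ∀ ψ : ℝ, φ0 < ψ → ψ < Real.pi / 2 →
      ∃ τ1 : ℝ, 0 < τ1 ∧ SlopeArc t ωa ψ τ1 := by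
  have hπ := Real.pi_pos
  obtain ⟨η, rfl⟩ : ∃ η : ℝ, t = 2 * η := ⟨t / 2, by ring⟩
  have hη : 0 < η := by linarith
  have hη2 : 2 * η / 2 = η := by ring
  obtain ⟨a, a0, a1, ha⟩ := slope_at hη h
  have m := y2arc_lam_mono hη
  have hl0 : y2arc_lam η 0 = 0 := by
    have h2 := y2arc_lam_neg η 0
    rw [neg_zero] at h2
    linarith
  refine ⟨y2arc_lam η a, ?_, ?_, ?_⟩
  · rw [← hl0]; exact m a0
  · have := m a1
    rwa [y2arc_lam_half] at this
  intro ψ h1 h2
  -- the point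
  have hcont : Continuous (y2arc_lam η) :=
    continuous_iff_continuousAt.2 fun x => (y2arc_lam_deriv hη x).continuousAt
  obtain ⟨t1, ⟨ht1, ht2⟩, ht3⟩ : ψ ∈ y2arc_lam η '' Set.Icc a (Real.pi / 2) := by
    apply intermediate_value_Icc a1.le hcont.continuousOn
    rw [y2arc_lam_half]
    exact ⟨h1.le, h2.le⟩
  have ht4 : t1 < Real.pi / 2 := by
    rcases lt_or_eq_of_le ht2 with h3 | h3
    · exact h3
    · rw [h3, y2arc_lam_half] at ht3
      linarith
  obtain ⟨σ, hσ0, hση, hσ1, hσ2, hσ⟩ := ha t1 ht1 ht4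
  have hψ0 : 0 < ψ := by
    have : y2arc_lam η 0 < y2arc_lam η a := m a0
    linarith
  -- compactness
  set K : Set ℂ := YG.Rc η ∩ {s : ℂ | σ ≤ max |s.re - η| |s.im - t1|} with hK
  have hKc : IsCompact K := by
    apply YG.Rc_compact.inter_right
    apply isClosed_le continuous_const
    fun_prop
  have hKcont : ContinuousOn (fun s => ‖YG.Z η s - up 0 ψ‖) K :=
    ((YG.Z_contOn_Rc hη).mono Set.inter_subset_left).sub continuousOn_const |>.norm
  obtain ⟨g, hg0, hg⟩ : ∃ g : ℝ, 0 < g ∧ ∀ s ∈ K, g ≤ ‖YG.Z η s - up 0 ψ‖ := by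
    rcases K.eq_empty_or_nonempty with he | hne
    · exact ⟨1, one_pos, fun s hs => by rw [he] at hs; exact absurd hs (Set.notMem_empty _)⟩
    · obtain ⟨s0, hs0, hmin⟩ := hKc.exists_isMinOn hne hKcont
      refine ⟨‖YG.Z η s0 - up 0 ψ‖, ?_, fun s hs => hmin hs⟩
      rw [norm_pos_iff, sub_ne_zero]
      intro heq
      have h5 := y2arc_uniq hη ht3 (by rw [abs_of_pos hψ0]; exact h2) hs0.1 heq
      have h6 : σ ≤ max |s0.re - η| |s0.im - t1| := hs0.2
      rw [h5] at h6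
      simp at h6
      linarith
  -- continuity of `up` at `(0, ψ)`
  have hup : ContinuousAt (fun p : ℝ × ℝ => up p.1 p.2) (0, ψ) := by
    unfold up
    fun_prop
  obtain ⟨ρ, hρ0, hρ⟩ := Metric.continuousAt_iff.1 hup g hg0
  set τ1 : ℝ := min (ρ / 2) ((Real.pi / 2 - ψ) / 2 ⊓ ψ / 2) with hτ
  have hτ0 : 0 < τ1 := lt_min (by linarith) (lt_min (by linarith) (by linarith))
  have hτa : τ1 ≤ ρ / 2 := min_le_left _ _
  have hτb : τ1 ≤ (Real.pi / 2 - ψ) / 2 := (min_le_right _ _).trans (min_le_left _ _)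
  have hτc : τ1 ≤ ψ / 2 := (min_le_right _ _).trans (min_le_right _ _)
  refine ⟨τ1, hτ0, fun s φ hs0 hs1 hφ => ?_⟩
  rw [hη2]
  have hφ' := abs_le.1 hφ
  have hw1 : ‖up s φ‖ = Real.exp s := by
    unfold up
    rw [Complex.norm_exp]
    simp
  have hw2 : 0 ≤ (up s φ).re := by
    unfold up
    rw [Complex.exp_re]
    apply mul_nonneg (Real.exp_pos _).le
    apply Real.cos_nonneg_of_mem_Icc
    simp
    constructor <;> linarith
  obtain ⟨s0, hs0R, hs0Z⟩ := YG.surj_right hη (z := up s φ)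
    (by rw [hw1]; exact Real.exp_le_one_iff.2 hs1) hw2
  obtain ⟨⟨b0, b1⟩, bi⟩ := YG.mem_Rc.1 hs0R
  have hbox : max |s0.re - η| |s0.im - t1| < σ := by
    by_contra hcon
    push Not at hcon
    have h5 := hg s0 ⟨hs0R, hcon⟩
    rw [hs0Z] at h5
    have h6 := hρ (x := (s, φ)) (by
      rw [Prod.dist_eq]
      apply max_lt
      · rw [Real.dist_eq, sub_zero, abs_of_nonpos hs1]; linarith
      · rw [Real.dist_eq]; simp only; linarith)
    rw [dist_eq_norm] at h6
    simp only at h6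
    linarith
  obtain ⟨hb1, hb2⟩ := max_lt_iff.1 hbox
  set u : ℂ := s0 - η with hu
  have hure : u.re = s0.re - η := by simp [hu]
  have huim : u.im = s0.im := by simp [hu]
  have hu0 : |u.re| < η := by rw [hure]; linarith
  have hus : (η : ℂ) + u = s0 := by simp [hu]
  refine ⟨(η : ℂ) - s0, ?_, ?_, ?_⟩
  · rw [YG.mem_Rc]
    simp only [Complex.sub_re, Complex.ofReal_re, Complex.sub_im, Complex.ofReal_im, zero_sub,
      abs_neg]
    exact ⟨⟨by linarith, by linarith⟩, bi⟩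
  · rw [y2arc_wS, hs0Z]
  · have e1 : (η : ℂ) - s0 = -u := by rw [hu]; ring
    have e2 := y2arc_kst (t := 2 * η) ht
    rw [hη2] at e2
    rw [e1, y2arc_V hη _ hu0, e2]
    have e3 : u = (((-(-u.re) : ℝ) : ℂ)) + (u.im : ℂ) * Complex.I := by
      apply Complex.ext <;> simp
    have h7 := hσ (-u.re) (by rw [hure]; linarith) (by
      rw [hure]
      have := (abs_lt.1 hb1).1
      linarith) u.im (by rw [huim]; exact hb2.le)
    rw [← e3] at h7
    refine h7.trans (le_of_eq ?_)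
    have h8 := y2arc_Z hη hu0
    rw [hus, hs0Z] at h8
    have h9 := congrArg norm h8
    rw [hw1, Complex.norm_exp] at h9
    rw [Real.exp_injective h9.symm]

end Pool.Agent.Lib.MP_0430e4_lc.AC
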