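import Pool.Agent.Lib.MP_0430e4_lc.AC.IqB
import Pool.Agent.Lib.MP_0430e4_lc.AC.Y2D

/-!
Y2 module C (helper51): the real constants of Y2Fin.
-/

set_option autoImplicit false

open Finset Polynomial

namespace Pool.Agent.Lib.MP_0430e4_lc.AC

open LPLOW Lower BY

/-- radius `a0`, slope `ωa`, and the room `ρ0` -/
theorem y2c_a {t : ℝ} (ht : 0 < t) : ∃ a0 ωa ρ0 : ℝ, 0 < a0 ∧ a0 < 1 ∧
    (1 - Tensor.ell (dII t)) * Real.log 2 < Real.binEntropy (a0 / (1 + a0)) ∧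
    0 < ωa ∧ ωa < 1 / 2 ∧ ωa < (1 - Iq.AZ t) / 2 ∧ 0 < ρ0 ∧
    ∀ ρ : ℝ, 0 < ρ → ρ ≤ ρ0 → 0 < ωa - 2 * ρ ∧
      2 * a0 / (1 + a0 ^ 2) * (1 - (ωa - 2 * ρ)) < ωa - 2 * ρ := by
  have hE := Iq.cval_lt_ent ht
  obtain ⟨hA0, hA1⟩ := Iq.AZ_main ht
  have hth : Real.tanh (t / 2) < 1 := Real.tanh_lt_one _
  have hth0 : 0 ≤ Real.tanh (t / 2) := by
    rw [Real.tanh_eq_sinh_div_cosh]
    apply div_nonneg _ (Real.cosh_pos _).le
    rw [Real.sinh_nonneg_iff]; linarith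
  have hA2 : Iq.AZ t < 1 := by nlinarith
  set A : ℝ := Iq.AZ t with hA
  set r : ℝ := √A with hr
  have hr0 : 0 < r := Real.sqrt_pos.2 hA0
  have hr2 : r ^ 2 = A := Real.sq_sqrt hA0.le
  have hr1 : r < 1 := by nlinarith
  set b1 : ℝ := (1 - r) / 2 with hb1
  have hb10 : 0 < b1 := by rw [hb1]; linarith
  have hb11 : b1 < 1 / 2 := by rw [hb1]; linarith
  have hcont : ContinuousAt Real.binEntropy b1 := Real.binEntropy_continuous.continuousAt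
  have hev : ∀ᶠ b in nhds b1, Exact.cval t < Real.binEntropy b := hcont.eventually_const_lt hE
  have hev2 : ∀ᶠ b in nhdsWithin b1 (Set.Iio b1), Exact.cval t < Real.binEntropy b :=
    hev.filter_mono nhdsWithin_le_nhds
  obtain ⟨b, hb, hbm⟩ := (hev2.and (Ioo_mem_nhdsLT hb10)).exists
  have hbb0 : 0 < b := hbm.1
  have hbb1 : b < b1 := hbm.2
  set a0 : ℝ := b / (1 - b) with ha0
  have h1b : 0 < 1 - b := by linarith
  have ha00 : 0 < a0 := div_pos hbb0 h1b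
  have ha01 : a0 < 1 := by rw [ha0, div_lt_one h1b]; linarith
  have hfrac : a0 / (1 + a0) = b := by
    rw [ha0]; field_simp; ring
  set X : ℝ := 2 * b * (1 - b) with hX
  have hX0 : 0 < X := by rw [hX]; positivity
  have hX1 : X < (1 - A) / 2 := by
    have e : (1 - A) / 2 = 2 * b1 * (1 - b1) := by rw [hb1, ← hr2]; ring
    rw [e, hX]
    nlinarith
  set ωa : ℝ := (X + (1 - A) / 2) / 2 with hω
  have hω1 : ωa < (1 - A) / 2 := by rw [hω]; linarith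
  have hω2 : X < ωa := by rw [hω]; linarith
  refine ⟨a0, ωa, (ωa - X) / 4, ha00, ha01, ?_, by linarith, by linarith, hω1, by linarith, ?_⟩
  · rw [hfrac]
    have h := ell_II ht
    have e : (1 - Tensor.ell (dII t)) * Real.log 2 = Exact.cval t := by
      unfold dII
      linarith
    rw [e]
    exact hb
  · intro ρ hρ0 hρ1
    have hx : X < ωa - 2 * ρ := by linarith
    refine ⟨by linarith, ?_⟩
    set x : ℝ := ωa - 2 * ρ with hxd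
    have e1 : 2 * a0 / (1 + a0 ^ 2) = X / (1 - X) := by
      have h1X : 0 < 1 - X := by linarith
      rw [div_eq_div_iff (by positivity) h1X.ne', ha0, hX]
      field_simp
      ring
    have h1X : 0 < 1 - X := by linarith
    rw [e1, div_mul_eq_mul_div, div_lt_iff₀ h1X]
    nlinarith

/-- an angle which is no rational multiple of `π` -/
theorem y2c_psi {φ0 : ℝ} (h : φ0 < Real.pi / 2) : ∃ ψ : ℝ, φ0 < ψ ∧ ψ < Real.pi / 2 ∧
    ∀ (m : ℕ) (j : ℤ), 0 < m → (m : ℝ) * ψ ≠ Real.pi * j := by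
  have hπ := Real.pi_pos
  obtain ⟨r, hr, h1, h2⟩ := exists_irrational_btwn (show φ0 / Real.pi < 1 / 2 by
    rw [div_lt_iff₀ hπ]; linarith)
  refine ⟨Real.pi * r, ?_, ?_, ?_⟩
  · rw [div_lt_iff₀ hπ] at h1; linarith
  · nlinarith
  · intro m j hm he
    have hm' : (m : ℝ) ≠ 0 := by exact_mod_cast hm.ne'
    have h3 : (m : ℝ) * r = j := by
      apply mul_left_cancel₀ hπ.ne'
      rw [← he]; ring
    have h4 : r = ((j / m : ℚ) : ℝ) := by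
      push_cast
      rw [eq_div_iff hm', ← h3]; ring
    exact hr ⟨_, h4.symm⟩

/-- the cut `ξ`, the room `ρ`, and `q` -/
theorem y2c_xi {ωa ρ0 ξ0 s : ℝ} (h1 : ωa < 1 / 2) (h2 : 0 < ρ0) (h3 : 0 < ξ0) (h4 : 0 < s) :
    ∃ ξ ρ q : ℝ, 0 < ξ ∧ ξ ≤ ξ0 ∧ ξ ≤ 1 / 8 ∧ 8 * ξ ≤ s ∧ ωa ≤ 1 / 2 - ξ ∧ 0 < ρ ∧ ρ ≤ ρ0 ∧
      (1 / 2 - ξ / 2) + 2 * ρ < 1 / 2 ∧ 0 < q ∧ q < 1 ∧
      (1 / 2 - ξ / 2) + 2 * ρ ≤ q * (1 - ((1 / 2 - ξ / 2) + 2 * ρ)) := by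
  obtain ⟨ξ, hξ⟩ : ∃ ξ : ℝ, ξ = min (min ξ0 (1 / 8)) (min (s / 8) (1 / 2 - ωa)) := ⟨_, rfl⟩
  have a1 : 0 < ξ := by
    rw [hξ]
    exact lt_min (lt_min h3 (by norm_num)) (lt_min (by linarith) (by linarith))
  have a2 : ξ ≤ ξ0 := by rw [hξ]; exact (min_le_left _ _).trans (min_le_left _ _)
  have a3 : ξ ≤ 1 / 8 := by rw [hξ]; exact (min_le_left _ _).trans (min_le_right _ _)
  have a4 : ξ ≤ s / 8 := by rw [hξ]; exact (min_le_right _ _).trans (min_le_left _ _)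
  have a5 : ξ ≤ 1 / 2 - ωa := by rw [hξ]; exact (min_le_right _ _).trans (min_le_right _ _)
  obtain ⟨ρ, hρ⟩ : ∃ ρ : ℝ, ρ = min ρ0 (ξ / 8) := ⟨_, rfl⟩
  have b1 : 0 < ρ := by rw [hρ]; exact lt_min h2 (by linarith)
  have b2 : ρ ≤ ρ0 := by rw [hρ]; exact min_le_left _ _
  have b3 : ρ ≤ ξ / 8 := by rw [hρ]; exact min_le_right _ _
  have c1 : 0 < 1 - ((1 / 2 - ξ / 2) + 2 * ρ) := by linarith
  refine ⟨ξ, ρ, ((1 / 2 - ξ / 2) + 2 * ρ) / (1 - ((1 / 2 - ξ / 2) + 2 * ρ)), a1, a2, a3,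
    by linarith, by linarith, b1, b2, by linarith, div_pos (by linarith) c1, ?_, ?_⟩
  · rw [div_lt_one c1]; linarith
  · rw [div_mul_cancel₀ _ c1.ne']

/-- the size `ε` of the multiplier from the level loss `x'` of the certificate -/
theorem y2c_eps {ν D lam ε0 : ℝ} (h0 : 0 < ν) (h1 : ν < 1) (hD : D < 0) (hlam : 0 ≤ lam)
    (hε : 0 < ε0) : ∃ ν' x0 : ℝ, 0 < ν' ∧ ν' < 1 ∧ 0 < x0 ∧ ∀ x' : ℝ, 0 < x' → x' ≤ x0 →
      ∃ ε : ℝ, 0 < ε ∧ ε ≤ ε0 ∧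
        -((1 - ν') * lam * x') ≤ (1 - ν) * (2 * D * lam) * ε ∧ x' / 2 + ε * D < 0 := by
  have hk : 0 < 1 - ν / 2 := by linarith
  have hl : 0 < -(2 * D) := by linarith
  refine ⟨ν / 4, ε0 * (-(2 * D) * (1 - ν / 2)), by linarith, by linarith, by positivity,
    fun x' hx0 hx1 => ?_⟩
  have hd : 0 < -(2 * D) * (1 - ν / 2) := by positivity
  refine ⟨x' / (-(2 * D) * (1 - ν / 2)), by positivity, ?_, ?_, ?_⟩
  · rw [div_le_iff₀ hd]; exact hx1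
  · set ε : ℝ := x' / (-(2 * D) * (1 - ν / 2)) with he
    have hx : x' = ε * (-(2 * D) * (1 - ν / 2)) := by rw [he, div_mul_cancel₀ _ hd.ne']
    have hε1 : 0 < ε := by positivity
    rw [hx]
    have h2 : 0 ≤ -(2 * D) * lam * ε := by positivity
    nlinarith [mul_nonneg h2 (by nlinarith : (0 : ℝ) ≤ (1 - ν / 4) * (1 - ν / 2) - (1 - ν))]
  · set ε : ℝ := x' / (-(2 * D) * (1 - ν / 2)) with he
    have hx : x' = ε * (-(2 * D) * (1 - ν / 2)) := by rw [he, div_mul_cancel₀ _ hd.ne']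
    have hε1 : 0 < ε := by positivity
    rw [hx]
    nlinarith [mul_pos hε1 hl, mul_pos (mul_pos hε1 hl) h0]

/-- the half width of the arc -/
theorem y2c_th {ψ τ τ1 : ℝ} (h0 : 0 < ψ) (h1 : ψ < Real.pi / 2) (hτ : 0 < τ) (hτ1 : 0 < τ1) :
    ∃ th : ℝ, 0 < th ∧ th ≤ τ ∧ th ≤ τ1 ∧ 0 < ψ - th ∧ ψ + th < Real.pi / 2 := by
  refine ⟨min (min τ τ1) (min (ψ / 2) ((Real.pi / 2 - ψ) / 2)), ?_, ?_, ?_, ?_, ?_⟩
  · exact lt_min (lt_min hτ hτ1) (lt_min (by linarith) (by linarith))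
  · exact (min_le_left _ _).trans (min_le_left _ _)
  · exact (min_le_left _ _).trans (min_le_right _ _)
  · have : min (min τ τ1) (min (ψ / 2) ((Real.pi / 2 - ψ) / 2)) ≤ ψ / 2 :=
      (min_le_right _ _).trans (min_le_left _ _)
    linarith
  · have : min (min τ τ1) (min (ψ / 2) ((Real.pi / 2 - ψ) / 2)) ≤ (Real.pi / 2 - ψ) / 2 :=
      (min_le_right _ _).trans (min_le_right _ _)
    linarith

end Pool.Agent.Lib.MP_0430e4_lc.AC
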