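import Pool.Agent.Lib.MP_0430e4_lc.AC.YF4

/-!
Project ALLCODES, part Y2, (F5) for certificates and for arbitrary polynomials on the `w`-side,
helper80.
-/

set_option autoImplicit false

open Filter Topology Set Complex

namespace Pool.Agent.Lib.MP_0430e4_lc.AC.YF

open LPLOW LPLOW.Pos YG BY

section
variable {η : ℝ} (hη : 0 < η)
include hη

/-- the maximum principle in the form used for cut certificates: `F` on the `w`-side -/
theorem strip_Ur {c N : ℝ} {F : ℂ → ℂ} (hF : Differentiable ℂ F) (n : ℕ)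
    (h1 : ∀ w : ℂ, ‖w‖ = 1 → ‖F w‖ ≤ N * 2 ^ n)
    (h2 : ∀ y : ℝ, ‖F ((y : ℂ) * I)‖ ≤
      N * Real.exp (n * (Real.log 2 - c)) * √(1 + y ^ 2) ^ n)
    {s : ℂ} (hs : s ∈ Rc η) :
    ‖F (Z η s)‖ ≤ N * (‖1 + Z η s‖ ^ n * Real.exp (n * Ur η c s)) := by
  have hs' := mem_Rc.1 hs
  have hne := one_add_Z_ne' hη hs
  have hn : 0 < ‖1 + Z η s‖ := norm_pos_iff.2 hne
  have h3 := Lower.three_lines (nm_pos hη) (nm_lt hη) c hF
    (N := N * Real.exp (n * (Real.log 2 - c))) n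
    (fun w hw => by
      rw [mul_assoc, ← Real.exp_add]
      have e : Real.exp ((n : ℝ) * (Real.log 2 - c) + n * c) = 2 ^ n := by
        rw [show (n : ℝ) * (Real.log 2 - c) + n * c = n * Real.log 2 by ring, Real.exp_nat_mul,
          Real.exp_log (by norm_num)]
      rw [e]
      exact h1 w hw)
    (fun y => h2 y) hs'.1.1 (by rw [eta_nm hη]; exact hs'.1.2)
  refine h3.trans (le_of_eq ?_)
  have e2 : ‖1 + Z η s‖ ^ n = Real.exp (n * Real.log ‖1 + Z η s‖) := by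
    rw [Real.exp_nat_mul, Real.exp_log hn]
  rw [e2, ← Real.exp_add, mul_assoc, ← Real.exp_add]
  congr 2
  unfold Ur
  ring

/-- the bound for certificates, on the `z`-side -/
theorem cert_Ur {c ε : ℝ} {n : ℕ} {l : ℝ} {f : Wd n → ℝ} (hf : WCert l f)
    (hm : ∑ x, f x ≤ Real.exp (n * (Real.log 2 - c + ε))) {s : ℂ} (hs : s ∈ Rc η) :
    ‖Pf f (zs η s)‖ ≤ Real.exp (n * (Ur η c s + ε * (1 - s.re / η))) := by
  have hs' := mem_Rc.1 hs
  have hne := one_add_Z_ne' hη hs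
  have hn : 0 < ‖1 + Z η s‖ := norm_pos_iff.2 hne
  have h2 := strip2 hη hf hm (s := (η : ℂ) - s) (by simp; exact hs'.1.2) (by simp; exact hs'.1.1)
  rw [sub_sub_cancel] at h2
  have e1 : Lower.zz (nm η) s = Z η s := rfl
  rw [e1, Pf_hat_eq f hne, norm_mul, norm_pow] at h2
  have e2 : ‖1 + Z η s‖ ^ n = Real.exp (n * Real.log ‖1 + Z η s‖) := by
    rw [Real.exp_nat_mul, Real.exp_log hn]
  have e3 : Real.exp (n * ((Lower.GG (nm η) c s).re + (Real.log 2 - c) + ε / η * ((η : ℂ) - s).re)) =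
      ‖1 + Z η s‖ ^ n * Real.exp (n * (Ur η c s + ε * (1 - s.re / η))) := by
    rw [e2, ← Real.exp_add]
    congr 1
    unfold Ur
    rw [Complex.sub_re, Complex.ofReal_re]
    field_simp
    ring
  rw [e3] at h2
  have h4 : 0 < ‖1 + Z η s‖ ^ n := by positivity
  exact le_of_mul_le_mul_left h2 h4

end

/-- **(F5d) for certificates** of mass `exp n (ell + g)`: strictly smaller than `exp (n U)` off the
real axis -/
theorem cert_unif {t : ℝ} (ht : 0 < t) {x2 x3 th : ℝ} (hx2 : 0 < x2) (hx3 : x3 < 1) (hth : 0 < th) :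
    ∃ g : ℝ, 0 < g ∧ ∀ (n : ℕ) (l : ℝ) (f : Wd n → ℝ), WCert l f →
      ∑ x, f x ≤ Real.exp (n * (Real.log 2 - Exact.cval t + g)) →
      ∀ z : ℂ, 0 ≤ z.re → x2 ≤ ‖z‖ → ‖z‖ ≤ x3 → th * ‖z‖ ≤ |z.im| →
      ‖Pf f z‖ ≤ Real.exp (n * (UII t ‖z‖ - g)) := by
  have hη : 0 < t / 2 := by linarith
  obtain ⟨g, hg, h⟩ := Ur_unif ht hx2 hx3 hth
  refine ⟨g / 2, by linarith, fun n l f hf hm z h0 h1 h2 h3 => ?_⟩
  obtain ⟨s, hs, hz⟩ := exists_zs hη (z := z) (by linarith) h0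
  rw [← hz] at h1 h2 h3 ⊢
  have hs' := mem_Rc.1 hs
  have h4 := cert_Ur hη hf hm hs
  refine h4.trans (Real.exp_le_exp.2 (mul_le_mul_of_nonneg_left ?_ (Nat.cast_nonneg n)))
  have h5 := h s hs h1 h2 h3
  have h6 : 0 ≤ s.re / (t / 2) := div_nonneg hs'.1.1 hη.le
  have h7 : g / 2 * (1 - s.re / (t / 2)) ≤ g / 2 := by
    have := mul_nonneg (show (0 : ℝ) ≤ g / 2 by linarith) h6
    linarith
  linarith

end Pool.Agent.Lib.MP_0430e4_lc.AC.YF
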