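import Pool.Agent.Lib.MP_0430e4_lc.AC.Y2D
import Pool.Agent.Lib.MP_0430e4_lc.AC.YF5

/-!
Y2 module F (helper80, from YF1..YF5): the potential of branch II is largest on the real axis.
-/

set_option autoImplicit false

open Finset Polynomial

namespace Pool.Agent.Lib.MP_0430e4_lc.AC

open LPLOW Lower BY

theorem y2f_mem {η : ℝ} {s : ℂ} (hs : s ∈ YG.Rc η) : (η : ℂ) - s ∈ YG.Rc η := by
  rw [YG.mem_Rc] at hs ⊢
  rw [Complex.sub_re, Complex.sub_im, Complex.ofReal_re, Complex.ofReal_im, zero_sub, abs_neg]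
  exact ⟨⟨by linarith [hs.1.2], by linarith [hs.1.1]⟩, hs.2⟩

theorem y2f_zS (η : ℝ) (s : ℂ) : zS η s = YF.zs η ((η : ℂ) - s) := rfl

theorem y2f_PhS (η c : ℝ) (s : ℂ) : PhS η c s = YF.Ur η c ((η : ℂ) - s) := by
  unfold PhS VhS YF.Ur
  have e : wS η s = YG.Z η ((η : ℂ) - s) := rfl
  rw [e]
  ring

variable {t : ℝ} (ht : 0 < t)
include ht

theorem F5_le {s : ℂ} (hs : s ∈ YG.Rc (t / 2)) (h0 : 0 < ‖zS (t / 2) s‖) (h1 : ‖zS (t / 2) s‖ < 1) :
    PhS (t / 2) (Exact.cval t) s ≤ UII t ‖zS (t / 2) s‖ := by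
  rw [y2f_PhS, y2f_zS]
  rw [y2f_zS] at h0 h1
  have e : (((t / 2 : ℝ)) : ℂ) = ((t / 2 : ℝ) : ℂ) := rfl
  exact YF.Ur_le ht (y2f_mem hs) (norm_pos_iff.1 h0) h1

theorem F5_lt {s : ℂ} (hs : s ∈ YG.Rc (t / 2)) (h0 : 0 < ‖zS (t / 2) s‖) (h1 : ‖zS (t / 2) s‖ < 1)
    (hi : s.im ≠ 0) : PhS (t / 2) (Exact.cval t) s < UII t ‖zS (t / 2) s‖ := by
  have hη : 0 < t / 2 := by linarith
  rw [y2f_PhS, y2f_zS]
  rw [y2f_zS] at h0 h1
  have hs' := y2f_mem hs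
  obtain ⟨w, hw⟩ : ∃ w : ℂ, w = ((t / 2 : ℝ) : ℂ) - s := ⟨_, rfl⟩
  rw [← hw] at h0 h1 hs' ⊢
  have hwi : w.im ≠ 0 := by
    rw [hw, Complex.sub_im, Complex.ofReal_im, zero_sub]
    exact neg_ne_zero.2 hi
  by_cases him : (YF.zs (t / 2) w).im = 0
  · rcases YF.cases_lt hη hs' h1 with h2 | h2
    · exfalso
      have h2' := YG.mem_Rp.1 h2
      have habs : |w.re| < t / 2 := abs_lt.2 ⟨by linarith [h2'.1.1], h2'.1.2⟩
      have habs' : |(starRingEnd ℂ w).re| < t / 2 := by rw [Complex.conj_re]; exact habs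
      have hZ : YG.Z (t / 2) (starRingEnd ℂ w) = YG.Z (t / 2) w := by
        have e1 : YF.zs (t / 2) (starRingEnd ℂ w) = YF.zs (t / 2) w := by
          rw [YF.zs_conj]; exact Complex.conj_eq_iff_im.2 him
        have n1 := YG.one_add_Z_ne hη habs
        have n2 := YG.one_add_Z_ne hη habs'
        unfold YF.zs at e1
        rw [div_eq_div_iff n2 n1] at e1
        have : (2 : ℂ) * YG.Z (t / 2) (starRingEnd ℂ w) = 2 * YG.Z (t / 2) w := by
          linear_combination -e1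
        exact mul_left_cancel₀ two_ne_zero this
      have hc : starRingEnd ℂ w = w := by
        apply YG.Z_inj hη _ _ _ h2'.1.1.le h2'.1.2 h2'.2.le hZ
        · rw [Complex.conj_re]; exact h2'.1.1.le
        · rw [Complex.conj_re]; exact h2'.1.2
        · rw [Complex.conj_im, abs_neg]; exact h2'.2.le
      exact hwi (Complex.conj_eq_iff_im.1 hc)
    · rw [YF.Ur_outer hη _ h2.1 h2.2.le]
      exact gapII ht h0 h1
  · exact YF.Ur_lt ht hs' (norm_pos_iff.1 h0) h1 him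

theorem F5_one {s : ℂ} (hs : s ∈ YG.Rc (t / 2)) (h1 : ‖zS (t / 2) s‖ = 1) :
    PhS (t / 2) (Exact.cval t) s ≤ Real.log 2 - Exact.cval t := by
  rw [y2f_PhS]
  rw [y2f_zS] at h1
  exact YF.Ur_one ht (y2f_mem hs) h1

end Pool.Agent.Lib.MP_0430e4_lc.AC
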