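import Pool.Agent.Lib.MP_0430e4_lc.AC.Y2D
import Pool.Agent.Lib.MP_0430e4_lc.AC.IqB

/-!
Y2, preparations of the assembly (helper71): choice of `a0`, of the angle, constants.
-/

set_option autoImplicit false

open Finset Polynomial

namespace Pool.Agent.Lib.MP_0430e4_lc.AC

open LPLOW Lower BY

theorem fa_AZ {t : ℝ} (ht : 0 < t) : 0 < Iq.AZ t ∧ Iq.AZ t < 1 := by
  obtain ⟨h1, h2⟩ := Iq.AZ_main ht
  refine ⟨h1, h2.trans_lt ?_⟩
  have h3 : |Real.tanh (t / 2)| < 1 := Real.abs_tanh_lt_one _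
  have h4 := (sq_lt_one_iff_abs_lt_one (Real.tanh (t / 2))).2 h3
  exact h4

theorem fa_sel {t : ℝ} (ht : 0 < t) : ∃ a0 ωa ρ0 : ℝ, 0 < a0 ∧ a0 < 1 ∧
    Exact.cval t < Real.binEntropy (a0 / (1 + a0)) ∧ ωa < (1 - Iq.AZ t) / 2 ∧ 0 < ρ0 ∧
    ∀ ρ : ℝ, 0 ≤ ρ → ρ ≤ ρ0 → 0 < ωa - 2 * ρ ∧
      (2 * a0 / (1 + a0 ^ 2)) * (1 - (ωa - 2 * ρ)) < ωa - 2 * ρ := by
  obtain ⟨hA0, hA1⟩ := fa_AZ ht
  have hent := Iq.cval_lt_ent ht
  set A : ℝ := Iq.AZ t with hA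
  set x : ℝ := √A with hx
  have hx2 : x ^ 2 = A := Real.sq_sqrt hA0.le
  have hx0 : 0 < x := Real.sqrt_pos.2 hA0
  have hx1 : x < 1 := by nlinarith
  obtain ⟨a1, ha1⟩ : ∃ a1 : ℝ, a1 = (1 - x) / (1 + x) := ⟨_, rfl⟩
  have hxp : 0 < 1 + x := by linarith
  have ha10 : 0 < a1 := by rw [ha1]; exact div_pos (by linarith) hxp
  have ha11 : a1 < 1 := by rw [ha1, div_lt_one hxp]; linarith
  have hfr : a1 / (1 + a1) = (1 - x) / 2 := by
    rw [ha1]; field_simp; ring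
  have hcont : ContinuousAt (fun a : ℝ => Real.binEntropy (a / (1 + a))) a1 := by
    apply Real.binEntropy_continuous.continuousAt.comp
    apply ContinuousAt.div continuousAt_id (by fun_prop)
    positivity
  have hlt : Exact.cval t < (fun a : ℝ => Real.binEntropy (a / (1 + a))) a1 := by
    simp only
    rw [hfr]; exact hent
  have hev := hcont.eventually_const_lt hlt
  rw [Metric.eventually_nhds_iff] at hev
  obtain ⟨d, hd, hev⟩ := hev
  obtain ⟨a0, ha0⟩ : ∃ a0 : ℝ, a0 = max (a1 - d / 2) (a1 / 2) := ⟨_, rfl⟩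
  have h00 : 0 < a0 := by rw [ha0]; exact lt_of_lt_of_le (by linarith) (le_max_right _ _)
  have h01 : a0 < a1 := by rw [ha0]; exact max_lt (by linarith) (by linarith)
  have h02 : a1 - d / 2 ≤ a0 := by rw [ha0]; exact le_max_left _ _
  have he := hev (y := a0) (by rw [Real.dist_eq, abs_lt]; constructor <;> linarith)
  obtain ⟨p0, hp0⟩ : ∃ p0 : ℝ, p0 = 2 * a0 / (1 + a0 ^ 2) := ⟨_, rfl⟩
  have hp00 : 0 < p0 := by rw [hp0]; positivity
  have hp1 : p0 < (1 - A) / (1 + A) := by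
    have e1 : (1 - A) / (1 + A) = 2 * a1 / (1 + a1 ^ 2) := by
      rw [← hx2, ha1]
      field_simp
      ring
    rw [e1, hp0, div_lt_div_iff₀ (by positivity) (by positivity)]
    nlinarith [mul_pos (sub_pos.2 h01) (show 0 < 1 - a0 * a1 by nlinarith)]
  obtain ⟨ta, hta⟩ : ∃ ta : ℝ, ta = p0 / (1 + p0) := ⟨_, rfl⟩
  have hta0 : 0 < ta := by rw [hta]; positivity
  have hta1 : ta < (1 - A) / 2 := by
    rw [hta, div_lt_div_iff₀ (by positivity) (by norm_num)]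
    rw [lt_div_iff₀ (by positivity)] at hp1
    nlinarith
  refine ⟨a0, (ta + (1 - A) / 2) / 2, ((ta + (1 - A) / 2) / 2 - ta) / 4, h00, by linarith, he,
    by linarith, by linarith, fun ρ hρ0 hρ1 => ?_⟩
  have h5 : ta < (ta + (1 - A) / 2) / 2 - 2 * ρ := by linarith
  refine ⟨by linarith, ?_⟩
  rw [← hp0]
  generalize (ta + (1 - A) / 2) / 2 - 2 * ρ = y at h5 ⊢
  rw [hta, div_lt_iff₀ (by positivity)] at h5
  nlinarith

theorem fa_irr {a b : ℝ} (hab : a < b) : ∃ ψ : ℝ, a < ψ ∧ ψ < b ∧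
    ∀ (m : ℕ) (j : ℤ), 0 < m → (m : ℝ) * ψ ≠ Real.pi * j := by
  have hpi := Real.pi_pos
  obtain ⟨r, hr, h1, h2⟩ := exists_irrational_btwn (div_lt_div_of_pos_right hab hpi)
  refine ⟨Real.pi * r, ?_, ?_, fun m j hm h => ?_⟩
  · rw [div_lt_iff₀ hpi] at h1; linarith
  · rw [lt_div_iff₀ hpi] at h2; linarith
  · have hm' : (m : ℝ) ≠ 0 := by exact_mod_cast hm.ne'
    have h3 : (m : ℝ) * r = j := by
      have h4 : Real.pi * ((m : ℝ) * r) = Real.pi * j := by rw [← h]; ring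
      exact mul_left_cancel₀ hpi.ne' h4
    apply hr
    refine ⟨(j : ℚ) / (m : ℚ), ?_⟩
    push_cast
    rw [← h3]
    field_simp

/-- `pw n (ell (dII t)) = exp (n (log 2 - cval t))` -/
theorem fa_pw {t : ℝ} (ht : 0 < t) (n : ℕ) :
    pw n (Tensor.ell (dII t)) = Real.exp (n * (Real.log 2 - Exact.cval t)) := by
  rw [pw_eq_exp]
  unfold dII
  rw [ell_II ht]

theorem fa_dII {t : ℝ} (ht : 0 < t) : 0 < dII t ∧ dII t < 1 / 2 := by
  have h1 := Exact.sII_pos ht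
  have h2 := Exact.sII_lt_one ht
  unfold dII
  constructor <;> linarith

theorem fa_ell {t : ℝ} (ht : 0 < t) : (1 - Tensor.ell (dII t)) * Real.log 2 = Exact.cval t := by
  have h := ell_II ht
  unfold dII
  linarith [h]

theorem fa_sigma {p0 ta : ℝ} (h : p0 * (1 - ta) < ta) (h1 : ta < 1) : ∃ σ0 : ℝ, 0 < σ0 ∧
    ∀ σ : ℝ, 0 ≤ σ → σ ≤ σ0 → p0 * ((1 - ta) * Real.exp σ) ≤ ta := by
  have hc : ContinuousAt (fun σ : ℝ => p0 * ((1 - ta) * Real.exp σ)) 0 := by fun_prop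
  have hlt : (fun σ : ℝ => p0 * ((1 - ta) * Real.exp σ)) 0 < ta := by
    simp only [Real.exp_zero, mul_one]; exact h
  have hev := hc.eventually_lt_const hlt
  rw [Metric.eventually_nhds_iff] at hev
  obtain ⟨d, hd, hev⟩ := hev
  refine ⟨d / 2, by linarith, fun σ h0 h2 => (hev (y := σ) ?_).le⟩
  rw [Real.dist_eq, sub_zero, abs_of_nonneg h0]
  linarith

/-- degrees -/
theorem fa_Kx {ξ : ℝ} (hξ : ξ ≤ 1 / 2) (n0 : ℕ) : (Kx ξ n0 : ℝ) ≤ (1 / 2 - ξ) * n0 := by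
  unfold Kx
  apply Nat.floor_le
  apply mul_nonneg (by linarith) (Nat.cast_nonneg _)

theorem fa_deg {t ξ A e κ ε η' : ℝ} {n0 : ℕ} {q : ℝ[X]} {S : ℂ → ℂ}
    (hQ : QB t n0 (Kx ξ n0) A e κ q) (hξ : ξ ≤ 1 / 2) (hT : ∀ n J : ℕ, (TJ S ε n J).natDegree ≤ J)
    (hη : 0 ≤ η') (n : ℕ) : ((Gq q n0 S ε η' n).natDegree : ℝ) ≤ (1 / 2 - ξ + η') * n := by
  have h1 : (Gq q n0 S ε η' n).natDegree ≤ (n / n0) * Kx ξ n0 + ⌊η' * n⌋₊ := by
    unfold Gq
    refine Polynomial.natDegree_mul_le.trans (add_le_add ?_ (hT _ _))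
    exact Polynomial.natDegree_pow_le.trans (Nat.mul_le_mul_left _ hQ.deg)
  have h2 : ((Gq q n0 S ε η' n).natDegree : ℝ) ≤ ((n / n0 : ℕ) : ℝ) * Kx ξ n0 + (⌊η' * n⌋₊ : ℝ) := by
    exact_mod_cast h1
  have h3 := fa_Kx hξ n0
  have h4 : (⌊η' * n⌋₊ : ℝ) ≤ η' * n := Nat.floor_le (by positivity)
  have h5 : ((n / n0 : ℕ) : ℝ) * (n0 : ℝ) ≤ n := by exact_mod_cast Nat.div_mul_le_self n n0
  have h6 : ((n / n0 : ℕ) : ℝ) * Kx ξ n0 ≤ (1 / 2 - ξ) * n := by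
    calc ((n / n0 : ℕ) : ℝ) * Kx ξ n0 ≤ ((n / n0 : ℕ) : ℝ) * ((1 / 2 - ξ) * n0) :=
          mul_le_mul_of_nonneg_left h3 (Nat.cast_nonneg _)
      _ = (1 / 2 - ξ) * (((n / n0 : ℕ) : ℝ) * n0) := by ring
      _ ≤ _ := mul_le_mul_of_nonneg_left h5 (by linarith)
  linarith

theorem fa_mass {t A e κ η' ε s1 L : ℝ} {n0 : ℕ} {K0 : ℕ} {q : ℝ[X]} {S : ℂ → ℂ}
    (hQ : QB t n0 K0 A e κ q) (hA : 1 ≤ A) (he : e ≤ 0) (hn0 : 1 ≤ n0) (hc : 0 ≤ Exact.cval t)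
    (hT : ∀ n J : ℕ, (TJ S ε n J).eval 0 = Real.exp (-(n * (ε * s1))))
    (hL : Real.log A / n0 ≤ ε * s1 / 4) (hs : 0 < ε * s1)
    (hpw : ∀ n : ℕ, pw n L = Real.exp (n * (Real.log 2 - Exact.cval t))) :
    ∃ n1 : ℕ, ∀ n ≥ n1, ∀ κ' : ℝ, κ' ≤ ε * s1 / 4 →
      2 ^ n * (Gq q n0 S ε η' n).eval 0 ≤ pw n L * Real.exp (-(κ' * n)) := by
  have hn0' : (0 : ℝ) < n0 := by exact_mod_cast hn0
  refine ⟨⌈n0 * Exact.cval t / (ε * s1 / 2)⌉₊ + 1, fun n hn κ' hκ' => ?_⟩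
  have hn1 : n0 * Exact.cval t / (ε * s1 / 2) ≤ n := by
    have h1 := Nat.le_ceil (n0 * Exact.cval t / (ε * s1 / 2))
    have h2 : ((⌈n0 * Exact.cval t / (ε * s1 / 2)⌉₊ + 1 : ℕ) : ℝ) ≤ n := by exact_mod_cast hn
    push_cast at h2
    linarith
  rw [div_le_iff₀ (by positivity)] at hn1
  have hq0 : 0 ≤ q.eval 0 := by
    rw [← Polynomial.coeff_zero_eq_eval_zero]; exact hQ.nonneg 0
  set m : ℕ := n / n0 with hm
  have hm1 : (m : ℝ) * n0 ≤ n := by exact_mod_cast Nat.div_mul_le_self n n0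
  have hm2 : (n : ℝ) - n0 ≤ m * n0 := by
    have h3 : n < (m + 1) * n0 := by
      rw [hm]; exact Nat.lt_mul_of_div_lt (Nat.lt_succ_self _) (by omega)
    have h4 : (n : ℝ) < ((m : ℝ) + 1) * n0 := by exact_mod_cast h3
    linarith
  have hAexp : A = Real.exp (Real.log A) := (Real.exp_log (by linarith)).symm
  have hlogA : 0 ≤ Real.log A := Real.log_nonneg hA
  have h1 : q.eval 0 ^ m ≤ Real.exp (m * (Real.log A + n0 * (-Exact.cval t + e))) := by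
    calc q.eval 0 ^ m ≤ (A * Real.exp (n0 * (-Exact.cval t + e))) ^ m := pow_le_pow_left₀ hq0 hQ.mass m
      _ = (Real.exp (Real.log A + n0 * (-Exact.cval t + e))) ^ m := by
          rw [Real.exp_add, ← hAexp]
      _ = _ := by rw [← Real.exp_nat_mul]
  have h2 : (Gq q n0 S ε η' n).eval 0 = q.eval 0 ^ m * Real.exp (-(n * (ε * s1))) := by
    unfold Gq
    rw [Polynomial.eval_mul, Polynomial.eval_pow, hT]
  rw [h2, hpw]
  have h2n : (2 : ℝ) ^ n = Real.exp (n * Real.log 2) := by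
    rw [Real.exp_nat_mul, Real.exp_log (by norm_num)]
  rw [h2n, ← Real.exp_add]
  calc Real.exp (n * Real.log 2) * (q.eval 0 ^ m * Real.exp (-(n * (ε * s1)))) ≤
      Real.exp (n * Real.log 2) * (Real.exp (m * (Real.log A + n0 * (-Exact.cval t + e))) *
        Real.exp (-(n * (ε * s1)))) := by
        apply mul_le_mul_of_nonneg_left _ (Real.exp_pos _).le
        exact mul_le_mul_of_nonneg_right h1 (Real.exp_pos _).le
    _ = Real.exp (n * Real.log 2 + (m * (Real.log A + n0 * (-Exact.cval t + e)) +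
        -(n * (ε * s1)))) := by rw [← Real.exp_add, ← Real.exp_add]
    _ ≤ _ := by
        apply Real.exp_le_exp.2
        have h5 : (m : ℝ) * Real.log A ≤ n * (ε * s1 / 4) := by
          have h6 : Real.log A ≤ ε * s1 / 4 * n0 := by rwa [div_le_iff₀ hn0'] at hL
          calc (m : ℝ) * Real.log A ≤ m * (ε * s1 / 4 * n0) := mul_le_mul_of_nonneg_left h6 (Nat.cast_nonneg _)
            _ = ε * s1 / 4 * (m * n0) := by ring
            _ ≤ ε * s1 / 4 * n := mul_le_mul_of_nonneg_left hm1 (by linarith)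
            _ = _ := by ring
        have h7 : (m : ℝ) * (n0 * (-Exact.cval t + e)) ≤ -(n * Exact.cval t) + n0 * Exact.cval t := by
          have h8 : (m : ℝ) * n0 * e ≤ 0 := mul_nonpos_of_nonneg_of_nonpos (by positivity) he
          have h9 : ((n : ℝ) - n0) * Exact.cval t ≤ (m * n0) * Exact.cval t :=
            mul_le_mul_of_nonneg_right hm2 hc
          nlinarith
        have h10 : κ' * n ≤ ε * s1 / 4 * n := mul_le_mul_of_nonneg_right hκ' (Nat.cast_nonneg _)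
        nlinarith

end Pool.Agent.Lib.MP_0430e4_lc.AC
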