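import Pool.Agent.Lib.MP_0430e4_lc.AC.YT9
import Pool.Agent.Lib.MP_0430e4_lc.LPLOW.Jac

/-!
Project ALLCODES, part Y2 (helper72): the cost function of branch II on the real axis dominates
`arctan z`.  The proof uses the Jacobi system of `LPLOW/Jac`: with `A`, `C`, `O` the real values
of the three series, `A = A(0) cosh M`, `C = A(0) sinh M`, `O² = O(0)² + 4 A(0)² sinh² M` and
`2 A(0) < O(0)`, hence `O ≤ O(0) cosh M`.
-/

set_option autoImplicit false

open Finset Filter Topology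

namespace Pool.Agent.Lib.MP_0430e4_lc.AC

open LPLOW Lower BY
open LPLOW.Pos

/-- real values of `S (cC η)` -/
noncomputable def Cr (η s : ℝ) : ℝ := (S (cC η) (s : ℂ)).re

theorem S_ofReal_eq (c : ℤ → ℝ) (s : ℝ) : S c (s : ℂ) = (((S c (s : ℂ)).re : ℝ) : ℂ) := by
  have h := S_conj c (s : ℂ)
  rw [Complex.conj_ofReal] at h
  exact (Complex.conj_eq_iff_re.1 h.symm).symm

theorem S_cA_ofReal (η s : ℝ) : S (cA η) (s : ℂ) = (Ar η s : ℂ) := S_ofReal_eq _ _

theorem S_cC_ofReal (η s : ℝ) : S (cC η) (s : ℂ) = (Cr η s : ℂ) := S_ofReal_eq _ _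

theorem S_cO_ofReal (η s : ℝ) : S (cO η) (s : ℂ) = (Or η s : ℂ) := S_ofReal_eq _ _

section
variable {η : ℝ} (hη : 0 < η)

theorem Cr_zero (η : ℝ) : Cr η 0 = 0 := by
  unfold Cr
  rw [Complex.ofReal_zero, cC_zero, Complex.zero_re]

include hη

theorem hasDerivAt_Ar {s : ℝ} (hs : |s| < η) : HasDerivAt (Ar η) (Cr η s * Or η s) s := by
  have h := (AA_hasDerivAt hη (u := (s : ℂ)) (by simpa using hs)).real_of_complex
  refine h.congr_deriv ?_
  rw [S_cC_ofReal, S_cO_ofReal, ← Complex.ofReal_mul, Complex.ofReal_re]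

theorem hasDerivAt_Cr {s : ℝ} (hs : |s| < η) : HasDerivAt (Cr η) (Ar η s * Or η s) s := by
  have h := (CC_hasDerivAt hη (u := (s : ℂ)) (by simpa using hs)).real_of_complex
  refine h.congr_deriv ?_
  rw [S_cA_ofReal, S_cO_ofReal, ← Complex.ofReal_mul, Complex.ofReal_re]

theorem hasDerivAt_Or {s : ℝ} (hs : |s| < η) : HasDerivAt (Or η) (4 * (Ar η s * Cr η s)) s := by
  have h := (OO_hasDerivAt hη (u := (s : ℂ)) (by simpa using hs)).real_of_complex
  refine h.congr_deriv ?_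
  rw [S_cA_ofReal, S_cC_ofReal]
  have : (4 : ℂ) * ((Ar η s : ℂ) * (Cr η s : ℂ)) = ((4 * (Ar η s * Cr η s) : ℝ) : ℂ) := by
    push_cast
    ring
  rw [this, Complex.ofReal_re]

/-- `A = A(0) cosh M`, `C = A(0) sinh M` -/
theorem ArCr_eq {s : ℝ} (hs : |s| < η) :
    Ar η s = Ar η 0 * Real.cosh (Mr η s) ∧ Cr η s = Ar η 0 * Real.sinh (Mr η s) := by
  have h0 : |(0 : ℝ)| < η := by simpa using hη
  -- `(A + C) e^{-M}` and `(A - C) e^{M}` are constant
  have hconst : ∀ f : ℝ → ℝ, (∀ x : ℝ, |x| < η → HasDerivAt f 0 x) → f s = f 0 := by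
    intro f hf
    have hop : IsOpen (Set.Ioo (-η) η) := isOpen_Ioo
    have hpc : IsPreconnected (Set.Ioo (-η) η) := isPreconnected_Ioo
    exact hop.is_const_of_deriv_eq_zero hpc
      (fun x hx => (hf x (abs_lt.2 hx)).differentiableAt.differentiableWithinAt)
      (fun x hx => (hf x (abs_lt.2 hx)).deriv) (abs_lt.1 hs) (abs_lt.1 h0)
  have e1 := hconst (fun x => (Ar η x + Cr η x) * Real.exp (-Mr η x)) (fun x hx => by
    have h1 := ((hasDerivAt_Ar hη hx).add (hasDerivAt_Cr hη hx)).mul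
      ((hasDerivAt_Mr hη hx).neg.exp)
    refine h1.congr_deriv ?_
    simp only [Pi.add_apply]
    ring)
  have e2 := hconst (fun x => (Ar η x - Cr η x) * Real.exp (Mr η x)) (fun x hx => by
    have h1 := ((hasDerivAt_Ar hη hx).sub (hasDerivAt_Cr hη hx)).mul
      ((hasDerivAt_Mr hη hx).exp)
    refine h1.congr_deriv ?_
    simp only [Pi.sub_apply]
    ring)
  simp only [Mr_zero, neg_zero, Real.exp_zero, mul_one, Cr_zero, add_zero, sub_zero] at e1 e2
  have hp : Real.exp (Mr η s) * Real.exp (-Mr η s) = 1 := by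
    rw [← Real.exp_add, add_neg_cancel, Real.exp_zero]
  have e3 : Ar η s + Cr η s = Ar η 0 * Real.exp (Mr η s) := by
    linear_combination Real.exp (Mr η s) * e1 - (Ar η s + Cr η s) * hp
  have e4 : Ar η s - Cr η s = Ar η 0 * Real.exp (-Mr η s) := by
    linear_combination Real.exp (-Mr η s) * e2 - (Ar η s - Cr η s) * hp
  rw [Real.cosh_eq, Real.sinh_eq]
  constructor
  · linear_combination (e3 + e4) / 2
  · linear_combination (e3 - e4) / 2

/-- `O² = O(0)² + 4 A(0)² sinh² M` -/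
theorem Or_sq {s : ℝ} (hs : |s| < η) :
    Or η s ^ 2 = Or η 0 ^ 2 + 4 * Ar η 0 ^ 2 * Real.sinh (Mr η s) ^ 2 := by
  have h1 := jac_OA hη (u := (s : ℂ)) (by simpa using hs)
  have h2 := jac_OA hη (u := ((0 : ℝ) : ℂ)) (by simpa using hη)
  rw [← h2, S_cO_ofReal, S_cA_ofReal, S_cO_ofReal, S_cA_ofReal] at h1
  have h3 : Or η s ^ 2 - 4 * Ar η s ^ 2 = Or η 0 ^ 2 - 4 * Ar η 0 ^ 2 := by
    have : (((Or η s ^ 2 - 4 * Ar η s ^ 2 : ℝ)) : ℂ) = ((Or η 0 ^ 2 - 4 * Ar η 0 ^ 2 : ℝ) : ℂ) := by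
      push_cast
      exact h1
    exact_mod_cast this
  have h4 := (ArCr_eq hη hs).1
  have h5 := Real.cosh_sq (Mr η s)
  rw [h4] at h3
  linear_combination h3 + 4 * Ar η 0 ^ 2 * h5

theorem Ar_zero_pos : 0 < Ar η 0 := by
  have h := AA_eq hη 0
  rw [Complex.ofReal_zero, mul_zero] at h
  unfold Ar
  rw [Complex.ofReal_zero, h, Complex.ofReal_re]
  exact ar_zero_pos hη

/-- the constant of `jac_OA` is positive -/
theorem Or_zero_sq : 4 * Ar η 0 ^ 2 < Or η 0 ^ 2 := by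
  have h2 := jac_OA hη (u := ((0 : ℝ) : ℂ)) (by simpa using hη)
  rw [S_cO_ofReal, S_cA_ofReal] at h2
  have h3 := OO_eq η (Real.pi / 2)
  have e : ((Real.pi / 2 : ℝ) : ℂ) = (Real.pi : ℂ) / 2 := by push_cast; ring
  rw [e] at h3
  rw [h3] at h2
  have h4 : Or η 0 ^ 2 - 4 * Ar η 0 ^ 2 = xr (2 * η) (Real.pi / 2) ^ 2 := by
    have : (((Or η 0 ^ 2 - 4 * Ar η 0 ^ 2 : ℝ)) : ℂ)
        = ((xr (2 * η) (Real.pi / 2) ^ 2 : ℝ) : ℂ) := by
      push_cast
      exact h2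
    exact_mod_cast this
  have h5 := xr_pos (η := 2 * η) (by linarith) (Real.pi / 2)
  nlinarith

theorem two_Ar_lt_Or : 2 * Ar η 0 < Or η 0 := by
  have h1 := Or_zero_sq hη
  have h2 := Or_pos hη (s := 0) (by simpa using hη)
  have h3 := Ar_zero_pos hη
  nlinarith

/-- `O ≤ O(0) cosh M` -/
theorem Or_le_cosh {s : ℝ} (hs : |s| < η) : Or η s ≤ Or η 0 * Real.cosh (Mr η s) := by
  have h1 := Or_sq hη hs
  have h2 := Or_pos hη (s := 0) (by simpa using hη)
  have h3 := Or_pos hη hs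
  have h4 := Or_zero_sq hη
  have h5 := Real.cosh_sq (Mr η s)
  have h6 := Real.cosh_pos (Mr η s)
  have h7 : 4 * Ar η 0 ^ 2 * Real.sinh (Mr η s) ^ 2 ≤ Or η 0 ^ 2 * Real.sinh (Mr η s) ^ 2 :=
    mul_le_mul_of_nonneg_right h4.le (sq_nonneg _)
  have h8 : Or η s ^ 2 ≤ (Or η 0 * Real.cosh (Mr η s)) ^ 2 := by
    rw [mul_pow, h5, h1]
    nlinarith
  exact (sq_le_sq₀ h3.le (mul_nonneg h2.le h6.le)).1 h8

/-- `O(0) ≤ O` -/
theorem Or_zero_le {s : ℝ} (hs : |s| < η) : Or η 0 ≤ Or η s := by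
  have h1 := Or_sq hη hs
  have h2 := Or_pos hη (s := 0) (by simpa using hη)
  have h3 := Or_pos hη hs
  have h4 : Or η 0 ^ 2 ≤ Or η s ^ 2 := by
    rw [h1]
    have : 0 ≤ 4 * Ar η 0 ^ 2 * Real.sinh (Mr η s) ^ 2 := by positivity
    linarith
  exact (sq_le_sq₀ h2.le h3.le).1 h4

omit hη in
/-- `1 - z² = (1 + z²) / cosh M` -/
theorem Zs_cosh (s : ℝ) : (1 - Zs η s ^ 2) * Real.cosh (Mr η s) = 1 + Zs η s ^ 2 := by
  unfold Zs
  rw [Real.tanh_eq_sinh_div_cosh]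
  have h1 : Real.cosh (Mr η s) = Real.cosh (Mr η s / 2) ^ 2 + Real.sinh (Mr η s / 2) ^ 2 := by
    have := Real.cosh_two_mul (Mr η s / 2)
    rwa [mul_div_cancel₀ _ (two_ne_zero)] at this
  have h2 := Real.cosh_sq (Mr η s / 2)
  have hc := (Real.cosh_pos (Mr η s / 2)).ne'
  rw [h1, div_pow]
  generalize Real.cosh (Mr η s / 2) = C at *
  generalize Real.sinh (Mr η s / 2) = D at *
  have h3 : D ^ 2 = C ^ 2 - 1 := by linarith
  rw [h3]
  field_simp
  ring

/-- `dz/ds ≤ (O(0)/2) (1 + z²)` -/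
theorem Zs'_le {s : ℝ} (hs : |s| < η) : Zs' η s ≤ Or η 0 / 2 * (1 + Zs η s ^ 2) := by
  have h1 := Or_le_cosh hη hs
  have h2 := one_sub_Zs_sq_pos (η := η) s
  have h3 := Zs_cosh (η := η) s
  unfold Zs'
  calc (1 - Zs η s ^ 2) * (Or η s / 2)
      ≤ (1 - Zs η s ^ 2) * ((Or η 0 * Real.cosh (Mr η s)) / 2) := by
        apply mul_le_mul_of_nonneg_left _ h2.le
        linarith
    _ = Or η 0 / 2 * ((1 - Zs η s ^ 2) * Real.cosh (Mr η s)) := by ring
    _ = _ := by rw [h3]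

/-- **the cost function dominates `arctan`** -/
theorem arctan_Zs_le {s : ℝ} (h0 : 0 ≤ s) (h1 : s < η) :
    Real.arctan (Zs η s) ≤ Or η 0 / 2 * s := by
  have hmono : AntitoneOn (fun x => Real.arctan (Zs η x) - Or η 0 / 2 * x) (Set.Ico 0 η) := by
    have hd : ∀ x ∈ Set.Ico 0 η, HasDerivAt (fun x => Real.arctan (Zs η x) - Or η 0 / 2 * x)
        (1 / (1 + Zs η x ^ 2) * Zs' η x - Or η 0 / 2) x := by
      intro x hx
      have hx' : |x| < η := abs_lt.2 ⟨by linarith [hx.1], hx.2⟩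
      have ha := (Real.hasDerivAt_arctan (Zs η x)).comp x (hasDerivAt_Zs hη hx')
      exact (ha.sub ((hasDerivAt_id x).const_mul (Or η 0 / 2))).congr_deriv (by simp)
    apply antitoneOn_of_deriv_nonpos (convex_Ico 0 η)
    · intro x hx
      exact (hd x hx).continuousAt.continuousWithinAt
    · intro x hx
      rw [interior_Ico] at hx
      exact (hd x ⟨hx.1.le, hx.2⟩).differentiableAt.differentiableWithinAt
    · intro x hx
      rw [interior_Ico] at hx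
      rw [(hd x ⟨hx.1.le, hx.2⟩).deriv]
      have hx' : |x| < η := abs_lt.2 ⟨by linarith [hx.1], hx.2⟩
      have h2 := Zs'_le hη hx'
      have h3 : 0 < 1 + Zs η x ^ 2 := by positivity
      rw [sub_nonpos, one_div, inv_mul_le_iff₀ h3]
      linarith
  have := hmono ⟨le_rfl, hη⟩ ⟨h0, h1⟩ h0
  simp only [Zs_zero, Real.arctan_zero, mul_zero, sub_zero] at this
  linarith

end

/-- `z (1 - z²)/(1 + z²)² ≤ arctan z - z³/3` on `[0, 1]` -/
theorem h_le_arctan {z : ℝ} (h0 : 0 ≤ z) (h1 : z ≤ 1) :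
    z * (1 - z ^ 2) / (1 + z ^ 2) ^ 2 ≤ Real.arctan z - z ^ 3 / 3 := by
  have hmono : MonotoneOn (fun x : ℝ => Real.arctan x - x ^ 3 / 3
      - x * (1 - x ^ 2) / (1 + x ^ 2) ^ 2) (Set.Icc 0 1) := by
    have hd : ∀ x : ℝ, HasDerivAt (fun x : ℝ => Real.arctan x - x ^ 3 / 3
        - x * (1 - x ^ 2) / (1 + x ^ 2) ^ 2) (8 * x ^ 2 / (1 + x ^ 2) ^ 3 - x ^ 2) x := by
      intro x
      have hx : 0 < 1 + x ^ 2 := by positivity
      have ha := Real.hasDerivAt_arctan x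
      have hb := ((hasDerivAt_id x).pow 3).div_const 3
      have hc := ((hasDerivAt_id x).mul (((hasDerivAt_id x).pow 2).const_sub 1)).div
        ((((hasDerivAt_id x).pow 2).const_add 1).pow 2) (pow_pos hx 2).ne'
      refine ((ha.sub hb).sub hc).congr_deriv ?_
      simp only [id, Pi.pow_apply, Pi.mul_apply, Nat.cast_ofNat, mul_one]
      field_simp
      ring
    apply monotoneOn_of_deriv_nonneg (convex_Icc 0 1)
    · intro x _
      exact (hd x).continuousAt.continuousWithinAt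
    · intro x _
      exact (hd x).differentiableAt.differentiableWithinAt
    · intro x hx
      rw [interior_Icc] at hx
      rw [(hd x).deriv]
      have h2 : (1 + x ^ 2) ^ 3 ≤ 8 := by
        have hx2 : x ^ 2 ≤ 1 := by nlinarith [hx.1, hx.2]
        calc (1 + x ^ 2) ^ 3 ≤ (1 + 1) ^ 3 := by gcongr
          _ = 8 := by norm_num
      have h3 : 0 < (1 + x ^ 2) ^ 3 := by positivity
      rw [sub_nonneg, le_div_iff₀ h3]
      nlinarith [sq_nonneg x]
  have := hmono ⟨le_rfl, zero_le_one⟩ ⟨h0, h1⟩ h0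
  norm_num at this
  linarith

/-- **the difference of the gain and the cost on the real axis** (helper55's `D(z)`): for
`h ≤ z (1 - z²)/(1 + z²)²` one has `h - v ≤ - z³/3`, `v = (O(0)/2) s` -/
theorem D_le {η : ℝ} (hη : 0 < η) {s : ℝ} (h0 : 0 ≤ s) (h1 : s < η) :
    Zs η s * (1 - Zs η s ^ 2) / (1 + Zs η s ^ 2) ^ 2 - Or η 0 / 2 * s ≤ -(Zs η s ^ 3 / 3) := by
  have ha := arctan_Zs_le hη h0 h1
  have hb := h_le_arctan (Zs_nonneg hη h0 h1) (Zs_lt_one (η := η) s).le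
  linarith

/-- the cost function of branch II as a function of `x = Zs`: `vk t x = (O(0)/2) s`, normalised to
slope one at `x = 0`; `t = 2 η` -/
noncomputable def vk (t x : ℝ) : ℝ := Or (t / 2) 0 / 2 * sx (t / 2) (Zs (t / 2)) x

theorem vk_ge {t : ℝ} (ht : 0 < t) {x : ℝ} (h0 : 0 < x) (h1 : x < 1) : Real.arctan x ≤ vk t x := by
  have hη : 0 < t / 2 := by linarith
  obtain ⟨g0, g1, g2⟩ := sx_spec ((upII hη).exists_s h0 h1)
  have := arctan_Zs_le hη g0.le g1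
  rwa [g2] at this

theorem h_sub_vk_le {t : ℝ} (ht : 0 < t) {x : ℝ} (h0 : 0 < x) (h1 : x < 1) :
    x * (1 - x ^ 2) / (1 + x ^ 2) ^ 2 - vk t x ≤ -(x ^ 3 / 3) := by
  have ha := vk_ge ht h0 h1
  have hb := h_le_arctan h0.le h1.le
  linarith

theorem vk_pos {t : ℝ} (ht : 0 < t) {x : ℝ} (h0 : 0 < x) (h1 : x < 1) : 0 < vk t x := by
  have hη : 0 < t / 2 := by linarith
  obtain ⟨g0, g1, g2⟩ := sx_spec ((upII hη).exists_s h0 h1)
  have := Or_pos hη (s := 0) (by simpa using hη)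
  unfold vk
  positivity

/-- the cost stays below its value at the contact arc -/
theorem vk_lt {t : ℝ} (ht : 0 < t) {x : ℝ} (h0 : 0 < x) (h1 : x < 1) :
    vk t x < t / 2 * (Or (t / 2) 0 / 2) := by
  have hη : 0 < t / 2 := by linarith
  obtain ⟨g0, g1, g2⟩ := sx_spec ((upII hη).exists_s h0 h1)
  have := Or_pos hη (s := 0) (by simpa using hη)
  unfold vk
  nlinarith

/-- the derivative of the cost function is at least `1/(1 + x²)` -/
theorem hasDerivAt_vk {t : ℝ} (ht : 0 < t) {x : ℝ} (h0 : 0 < x) (h1 : x < 1) :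
    ∃ v : ℝ, HasDerivAt (vk t) v x ∧ 1 / (1 + x ^ 2) ≤ v := by
  have hη : 0 < t / 2 := by linarith
  obtain ⟨g0, g1, g2⟩ := sx_spec ((upII hη).exists_s h0 h1)
  have hs : |sx (t / 2) (Zs (t / 2)) x| < t / 2 := abs_lt.2 ⟨by linarith, g1⟩
  refine ⟨_, ((upII hη).inv_deriv h0 h1).const_mul (Or (t / 2) 0 / 2), ?_⟩
  have h2 := Zs'_le hη hs
  rw [g2] at h2
  have h3 : 0 < Zs' (t / 2) (sx (t / 2) (Zs (t / 2)) x) := by
    unfold Zs'
    have := one_sub_Zs_sq_pos (η := t / 2) (sx (t / 2) (Zs (t / 2)) x)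
    have := Or_pos hη hs
    positivity
  rw [← div_eq_mul_inv, div_le_div_iff₀ (by positivity) h3]
  linarith

/-- value of `O(0)` as the series `∑ sech (j t)`, `t = 2 η` -/
theorem Or_zero_eq (η : ℝ) : Or η 0 = ∑' j : ℤ, Exact.sech (j * (2 * η)) := by
  unfold Or
  rw [Complex.ofReal_zero, cO_reindex, mul_zero, S_zero, Complex.ofReal_re]
  rfl

end Pool.Agent.Lib.MP_0430e4_lc.AC
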