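import Pool.Agent.Lib.MP_0430e4_lc.AC.YGap
import Pool.Agent.Lib.MP_0430e4_lc.AC.YVk
import Pool.Agent.Lib.MP_0430e4_lc.AC.Y2D

/-!
Y2 module G (helper72): linear gap, the value of `UII` at `1`. (`arctan (Zs η s) ≤ Or η 0 / 2 * s` is
`arctan_Zs_le` of AC/YVk.)
-/

set_option autoImplicit false

open Finset Polynomial

namespace Pool.Agent.Lib.MP_0430e4_lc.AC

open LPLOW Lower BY

theorem half_le_arctan {x : ℝ} (h0 : 0 < x) (h1 : x < 1) : x / 2 ≤ Real.arctan x := by
  have hpi := Real.pi_gt_three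
  have hc := Real.one_sub_sq_div_two_le_cos (x := x / 2)
  have hs := Real.sin_le (x := x / 2) (by linarith)
  have hc2 : 1 / 2 ≤ Real.cos (x / 2) := by nlinarith
  have ht : Real.tan (x / 2) ≤ x := by
    rw [Real.tan_eq_sin_div_cos, div_le_iff₀ (by linarith)]
    nlinarith
  have ha := Real.arctan_mono ht
  rwa [Real.arctan_tan (by linarith) (by linarith)] at ha

theorem gap_lin {t : ℝ} (ht : 0 < t) : ∃ ξ0 : ℝ, 0 < ξ0 ∧ ∀ ξ : ℝ, ξ ≤ ξ0 → GapOK t ξ := by
  have hη : 0 < t / 2 := by linarith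
  have hc := cval_lt_half ht
  have hO : 0 < Or (t / 2) 0 := Or_pos hη (by simpa using hη)
  set η : ℝ := t / 2 with hηd
  refine ⟨(Real.log 2 / 2 - Exact.cval t) / (8 * (Or η 0 * η)),
    div_pos (by linarith) (by positivity), fun ξ hξ x h0 h1 => ?_⟩
  obtain ⟨g0, g1, g2⟩ := sx_spec ((upII hη).exists_s h0 h1)
  have h2 := gap_real hη (Exact.cval t) g0.le g1
  have h3 := arctan_Zs_le hη g0.le g1
  rw [g2] at h2 h3
  have h4 := half_le_arctan h0 h1
  set s := sx η (Zs η) x with hs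
  have h5 : x / (Or η 0 * η) ≤ s / η := by
    rw [div_le_div_iff₀ (by positivity) hη]
    have : x ≤ Or η 0 * s := by linarith
    nlinarith
  have h6 : (Real.log 2 / 2 - Exact.cval t) * (x / (Or η 0 * η)) ≤
      (Real.log 2 / 2 - Exact.cval t) * (s / η) := mul_le_mul_of_nonneg_left h5 (by linarith)
  have h7 : 8 * ξ * x ≤ 8 * ((Real.log 2 / 2 - Exact.cval t) / (8 * (Or η 0 * η))) * x := by
    apply mul_le_mul_of_nonneg_right _ h0.le
    linarith
  have h8 : 8 * ((Real.log 2 / 2 - Exact.cval t) / (8 * (Or η 0 * η))) * x =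
      (Real.log 2 / 2 - Exact.cval t) * (x / (Or η 0 * η)) := by
    field_simp
  have h9 : UII t x = Us η (Exact.cval t) s := rfl
  rw [h9]
  linarith

theorem sx_tendsto_top {η : ℝ} (hη : 0 < η) :
    Filter.Tendsto (sx η (Zs η)) (nhdsWithin 1 (Set.Iio 1)) (nhdsWithin η (Set.Iio η)) := by
  have H := upII hη
  have ev : ∀ᶠ x : ℝ in nhdsWithin 1 (Set.Iio 1), 0 < x ∧ x < 1 := by
    filter_upwards [Ioo_mem_nhdsLT (show (0 : ℝ) < 1 by norm_num)] with x hx
    exact ⟨hx.1, hx.2⟩
  apply tendsto_nhdsWithin_iff.2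
  constructor
  · apply tendsto_order.2
    constructor
    · intro a ha
      set s0 : ℝ := max a (η / 2) with hs0
      have a0 : 0 < s0 := lt_of_lt_of_le (by linarith) (le_max_right _ _)
      have a1 : s0 < η := max_lt ha (by linarith)
      filter_upwards [ev, Ioo_mem_nhdsLT (Zs_lt_one (η := η) s0)] with x hx hx2
      exact lt_of_le_of_lt (le_max_left _ _) (H.lt_inv hx.1 hx.2 a0 a1 hx2.1)
    · intro a ha
      filter_upwards [ev] with x hx
      exact (H.spec hx.1 hx.2).2.1.trans ha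
  · filter_upwards [ev] with x hx
    exact (H.spec hx.1 hx.2).2.1

theorem Us_tendsto_top {η : ℝ} (hη : 0 < η) (c : ℝ) :
    Filter.Tendsto (Us η c) (nhdsWithin η (Set.Iio η)) (nhds (Real.log 2 - c)) := by
  have hr0 := nm_pos hη
  have hr1 := nm_lt hη
  -- the value of the majorant at zero
  have hG0 : (GG (nm η) c 0).re = 0 := by
    obtain ⟨y, hy1, hy2⟩ := zz_zero hr0 hr1 c (s := 0) (by simp)
    have hz : zz (nm η) 0 = 0 := by unfold zz; simp
    rw [hz] at hy1
    have hy : y = 0 := by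
      have := hy1.symm
      rcases mul_eq_zero.1 this with h | h
      · exact_mod_cast h
      · exact absurd h Complex.I_ne_zero
    rw [hy] at hy2
    have h3 : Real.exp (GG (nm η) c 0).re = 1 := by rw [← hy2]; simp
    exact (Real.exp_eq_one_iff _).1 h3
  have h1 : ContinuousAt (fun s : ℂ => (GG (nm η) c s).re) 0 :=
    Complex.continuous_re.continuousAt.comp
      (GG_diff hr0 hr1 c (s := 0) (by simp) (by rw [eta_nm hη]; simpa using hη.le)).continuousAt
  have h2 : ContinuousAt (fun s : ℝ => ((η : ℂ) - (s : ℂ))) η := by fun_prop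
  have h3 : ContinuousAt (fun s : ℝ => (GG (nm η) c ((η : ℂ) - (s : ℂ))).re) η := by
    apply ContinuousAt.comp (f := fun s : ℝ => ((η : ℂ) - (s : ℂ)))
      (g := fun s : ℂ => (GG (nm η) c s).re)
    · simpa using h1
    · exact h2
  have h4 : Filter.Tendsto (fun s : ℝ => (GG (nm η) c ((η : ℂ) - (s : ℂ))).re)
      (nhdsWithin η (Set.Iio η)) (nhds 0) := by
    have h5 := h3.tendsto.mono_left (nhdsWithin_le_nhds (s := Set.Iio η))
    rw [sub_self, hG0] at h5
    exact h5
  have h6 := wr_tendsto hη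
  have h7 : Filter.Tendsto (fun s : ℝ => Real.log (1 + wr η s)) (nhdsWithin η (Set.Iio η))
      (nhds (Real.log (1 + 0))) :=
    Filter.Tendsto.log (tendsto_const_nhds.add h6) (by norm_num)
  have h8 := (h4.add (tendsto_const_nhds (x := Real.log 2 - c))).sub h7
  have e : 0 + (Real.log 2 - c) - Real.log (1 + 0) = Real.log 2 - c := by
    rw [add_zero, Real.log_one]; ring
  rw [e] at h8
  refine h8.congr' ?_
  filter_upwards [Ioo_mem_nhdsLT hη] with s hs
  rw [GG_Vs hη c hs.1.le hs.2]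
  rfl

theorem UII_one {t : ℝ} (ht : 0 < t) :
    Filter.Tendsto (UII t) (nhdsWithin 1 (Set.Iio 1)) (nhds (Real.log 2 - Exact.cval t)) := by
  have hη : 0 < t / 2 := by linarith
  exact (Us_tendsto_top hη (Exact.cval t)).comp (sx_tendsto_top hη)

end Pool.Agent.Lib.MP_0430e4_lc.AC
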