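import Pool.Agent.Lib.MP_0430e4_lc.AC.Y2D

/-!
Y2 module Geo: `(1-κ) log|1+z| + κ log|1-z|` on circles. Concavity of `log`:
`|1±z|² = a ± b`, `a = 1 + |z|²`, `b = 2 Re z`.
-/

set_option autoImplicit false

open Finset Polynomial

namespace Pool.Agent.Lib.MP_0430e4_lc.AC

open LPLOW Lower BY

private theorem geo_nsq (z : ℂ) : ‖1 + z‖ ^ 2 = 1 + ‖z‖ ^ 2 + 2 * z.re ∧
    ‖1 - z‖ ^ 2 = 1 + ‖z‖ ^ 2 - 2 * z.re := by
  rw [← Complex.normSq_eq_norm_sq, ← Complex.normSq_eq_norm_sq, ← Complex.normSq_eq_norm_sq]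
  simp only [Complex.normSq_apply, Complex.add_re, Complex.add_im, Complex.sub_re, Complex.sub_im,
    Complex.one_re, Complex.one_im]
  constructor <;> ring

private theorem geo_ne {z : ℂ} (h1 : ‖z‖ < 1) : 1 + z ≠ 0 := by
  intro h
  have h2 : z = -1 := by linear_combination h
  rw [h2] at h1
  simp at h1

private theorem geo_core {n K : ℕ} (hK : 2 * K ≤ n) {z : ℂ} (h1 : ‖z‖ < 1) :
    (‖1 + z‖ ^ n * ‖zu z‖ ^ K) ^ 2 ≤
      (1 + ‖z‖ ^ 2) ^ n * Real.exp (((n : ℝ) - 2 * K) * (2 * z.re / (1 + ‖z‖ ^ 2))) := by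
  have hne := geo_ne h1
  have hp : 0 < ‖1 + z‖ := norm_pos_iff.2 hne
  obtain ⟨e1, e2⟩ := geo_nsq z
  have ha : (0 : ℝ) < 1 + ‖z‖ ^ 2 := by positivity
  set a := 1 + ‖z‖ ^ 2 with hadef
  have hp1 : ‖1 + z‖ ^ 2 ≤ a * Real.exp (2 * z.re / a) := by
    have h := Real.add_one_le_exp (2 * z.re / a)
    have h2 : a * (2 * z.re / a + 1) ≤ a * Real.exp (2 * z.re / a) :=
      mul_le_mul_of_nonneg_left h ha.le
    have h3 : a * (2 * z.re / a + 1) = a + 2 * z.re := by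
      field_simp
      ring
    rw [e1]
    linarith
  have hp2 : ‖1 - z‖ ^ 2 ≤ a * Real.exp (-(2 * z.re / a)) := by
    have h := Real.add_one_le_exp (-(2 * z.re / a))
    have h2 : a * (-(2 * z.re / a) + 1) ≤ a * Real.exp (-(2 * z.re / a)) :=
      mul_le_mul_of_nonneg_left h ha.le
    have h3 : a * (-(2 * z.re / a) + 1) = a - 2 * z.re := by
      field_simp
      ring
    rw [e2]
    linarith
  obtain ⟨m, rfl⟩ : ∃ m, n = m + K := ⟨n - K, by omega⟩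
  have e3 : ‖1 + z‖ ^ (m + K) * ‖zu z‖ ^ K = ‖1 + z‖ ^ m * ‖1 - z‖ ^ K := by
    unfold zu
    rw [norm_div, div_pow, pow_add]
    field_simp
  rw [e3]
  calc (‖1 + z‖ ^ m * ‖1 - z‖ ^ K) ^ 2 = (‖1 + z‖ ^ 2) ^ m * (‖1 - z‖ ^ 2) ^ K := by ring
    _ ≤ (a * Real.exp (2 * z.re / a)) ^ m * (a * Real.exp (-(2 * z.re / a))) ^ K := by
      apply mul_le_mul
      · exact pow_le_pow_left₀ (by positivity) hp1 _
      · exact pow_le_pow_left₀ (by positivity) hp2 _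
      · positivity
      · positivity
    _ = a ^ (m + K) * Real.exp ((((m + K : ℕ) : ℝ) - 2 * K) * (2 * z.re / a)) := by
      rw [mul_pow, mul_pow, ← Real.exp_nat_mul, ← Real.exp_nat_mul, pow_add]
      have : Real.exp ((((m + K : ℕ) : ℝ) - 2 * K) * (2 * z.re / a))
          = Real.exp ((m : ℝ) * (2 * z.re / a)) * Real.exp ((K : ℝ) * (-(2 * z.re / a))) := by
        rw [← Real.exp_add]
        congr 1
        push_cast
        ring
      rw [this]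
      ring

private theorem geo_fin {n : ℕ} {x e : ℝ} {z : ℂ} (hx : 0 ≤ x)
    (h : x ^ 2 ≤ (1 + ‖z‖ ^ 2) ^ n * Real.exp e) :
    x ≤ Real.exp (n * (Real.log (1 + ‖z‖ ^ 2) / 2) + e / 2) := by
  have ha : (0 : ℝ) < 1 + ‖z‖ ^ 2 := by positivity
  have h2 : (1 + ‖z‖ ^ 2) ^ n * Real.exp e
      = Real.exp (n * (Real.log (1 + ‖z‖ ^ 2) / 2) + e / 2) ^ 2 := by
    rw [← Real.exp_nat_mul]
    have h3 : (1 + ‖z‖ ^ 2) ^ n = Real.exp (n * Real.log (1 + ‖z‖ ^ 2)) := by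
      rw [Real.exp_nat_mul, Real.exp_log ha]
    rw [h3, ← Real.exp_add]
    congr 1
    push_cast
    ring
  rw [h2] at h
  exact (pow_le_pow_iff_left₀ hx (Real.exp_pos _).le two_ne_zero).1 h

/-- left half plane -/
theorem geo_left {n K : ℕ} (hK : 2 * K ≤ n) {z : ℂ} (hz : z.re ≤ 0) (h1 : ‖z‖ < 1) :
    ‖1 + z‖ ^ n * ‖zu z‖ ^ K ≤ Real.exp (n * (Real.log (1 + ‖z‖ ^ 2) / 2)) := by
  have h := geo_fin (by positivity) (geo_core hK h1)
  refine h.trans (Real.exp_le_exp.2 ?_)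
  have hK' : (2 : ℝ) * K ≤ n := by exact_mod_cast hK
  have h2 : ((n : ℝ) - 2 * K) * (2 * z.re / (1 + ‖z‖ ^ 2)) ≤ 0 := by
    apply mul_nonpos_of_nonneg_of_nonpos (by linarith)
    apply div_nonpos_of_nonpos_of_nonneg (by linarith) (by positivity)
  linarith

/-- everywhere -/
theorem geo_all {n K : ℕ} {ξ : ℝ} (hK : 2 * K ≤ n) (hξ : (1 / 2 - ξ) * n ≤ K) {z : ℂ}
    (h1 : ‖z‖ < 1) :
    ‖1 + z‖ ^ n * ‖zu z‖ ^ K ≤ Real.exp (n * (Real.log (1 + ‖z‖ ^ 2) / 2 + 2 * ξ * ‖z‖)) := by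
  have h := geo_fin (by positivity) (geo_core hK h1)
  refine h.trans (Real.exp_le_exp.2 ?_)
  have hK' : (2 : ℝ) * K ≤ n := by exact_mod_cast hK
  have h2 : 2 * z.re / (1 + ‖z‖ ^ 2) ≤ 2 * ‖z‖ := by
    rw [div_le_iff₀ (by positivity)]
    have h3 := Complex.re_le_norm z
    have h4 : 0 ≤ ‖z‖ := norm_nonneg z
    nlinarith [pow_nonneg h4 3]
  have h3 : ((n : ℝ) - 2 * K) * (2 * z.re / (1 + ‖z‖ ^ 2)) ≤ ((n : ℝ) - 2 * K) * (2 * ‖z‖) :=
    mul_le_mul_of_nonneg_left h2 (by linarith)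
  have h4 : ((n : ℝ) - 2 * K) * (2 * ‖z‖) ≤ (2 * ξ * n) * (2 * ‖z‖) := by
    apply mul_le_mul_of_nonneg_right _ (by positivity)
    linarith
  have h5 : (n : ℝ) * (Real.log (1 + ‖z‖ ^ 2) / 2 + 2 * ξ * ‖z‖)
      = n * (Real.log (1 + ‖z‖ ^ 2) / 2) + (2 * ξ * n) * (2 * ‖z‖) / 2 := by ring
  rw [h5]
  linarith

/-- `zu` is an involution, `‖zu z‖ ≤ 1` iff `0 ≤ Re z` -/
theorem zu_norm_le {z : ℂ} (hz : 0 ≤ z.re) : ‖zu z‖ ≤ 1 := by
  obtain ⟨e1, e2⟩ := geo_nsq z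
  unfold zu
  rw [norm_div]
  apply div_le_one_of_le₀ _ (norm_nonneg _)
  apply (pow_le_pow_iff_left₀ (norm_nonneg _) (norm_nonneg _) two_ne_zero).1
  rw [e1, e2]
  linarith

theorem zu_norm_ge {z : ℂ} (hz : z.re ≤ 0) (h1 : ‖z‖ < 1) : 1 ≤ ‖zu z‖ := by
  obtain ⟨e1, e2⟩ := geo_nsq z
  have hp : 0 < ‖1 + z‖ := norm_pos_iff.2 (geo_ne h1)
  unfold zu
  rw [norm_div, one_le_div hp]
  apply (pow_le_pow_iff_left₀ (norm_nonneg _) (norm_nonneg _) two_ne_zero).1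
  rw [e1, e2]
  linarith

theorem zu_norm_le_of {z : ℂ} {r : ℝ} (h : ‖z‖ ≤ r) (h1 : r < 1) : ‖zu z‖ ≤ (1 + r) / (1 - r) := by
  have h0 : 0 ≤ r := (norm_nonneg z).trans h
  have h2 : ‖1 - z‖ ≤ 1 + r := by
    have := norm_sub_le (1 : ℂ) z
    rw [norm_one] at this
    linarith
  have h3 : 1 - r ≤ ‖1 + z‖ := by
    have := norm_sub_norm_le (1 : ℂ) (-z)
    rw [norm_one, norm_neg, sub_neg_eq_add] at this
    linarith
  unfold zu
  rw [norm_div]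
  exact div_le_div₀ (by linarith) h2 (by linarith) h3

theorem zu_zu {z : ℂ} (h : 1 + z ≠ 0) : zu (zu z) = z := by
  unfold zu
  have h2 : 1 + (1 - z) / (1 + z) = 2 / (1 + z) := by
    field_simp
    ring
  have h3 : 1 - (1 - z) / (1 + z) = 2 * z / (1 + z) := by
    field_simp
    ring
  rw [h2, h3]
  field_simp

theorem zu_re_nonneg {z : ℂ} (h1 : ‖z‖ ≤ 1) : 0 ≤ (zu z).re := by
  unfold zu
  rw [Complex.div_re, ← add_div]
  apply div_nonneg _ (Complex.normSq_nonneg _)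
  have h2 : Complex.normSq z ≤ 1 := by
    rw [Complex.normSq_eq_norm_sq]
    nlinarith [norm_nonneg z]
  rw [Complex.normSq_apply] at h2
  simp only [Complex.add_re, Complex.add_im, Complex.sub_re, Complex.sub_im, Complex.one_re,
    Complex.one_im]
  nlinarith

/-- every `z` of the open right half disc is a `zS η s` -/
theorem zS_surj {η : ℝ} (hη : 0 < η) {z : ℂ} (h1 : ‖z‖ < 1) (hz : 0 ≤ z.re) :
    ∃ s ∈ YG.Rc η, wS η s = zu z ∧ zS η s = z := by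
  obtain ⟨s, hs, hsz⟩ := YG.surj_right hη (z := zu z) (zu_norm_le hz) (zu_re_nonneg h1.le)
  rw [YG.mem_Rc] at hs
  have hw : wS η ((η : ℂ) - s) = zu z := by
    unfold wS nm
    rw [sub_sub_cancel]
    exact hsz
  refine ⟨(η : ℂ) - s, ?_, hw, ?_⟩
  · rw [YG.mem_Rc]
    simp only [Complex.sub_re, Complex.sub_im, Complex.ofReal_re, Complex.ofReal_im, zero_sub,
      abs_neg]
    exact ⟨⟨by linarith [hs.1.2], by linarith [hs.1.1]⟩, hs.2⟩
  · unfold zS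
    rw [hw]
    exact zu_zu (geo_ne h1)

end Pool.Agent.Lib.MP_0430e4_lc.AC
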