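import Pool.Agent.Lib.MP_0430e4_lc.AC.Y2D

/-!
Y2 module K0: the coefficients `cK n G k` of `(1+z)^n G((1-z)/(1+z))`.
-/

set_option autoImplicit false

open Finset Polynomial

namespace Pool.Agent.Lib.MP_0430e4_lc.AC

open LPLOW Lower BY

section
variable {n : ℕ} {G : ℝ[X]}

/-! ### auxiliary -/

private theorem k0_iter (p : ℂ[X]) (k : ℕ) :
    iteratedDeriv k (fun z : ℂ => p.eval z) = fun z => (derivative^[k] p).eval z := by
  induction k with
  | zero => simp [iteratedDeriv_zero]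
  | succ k ih =>
    rw [iteratedDeriv_succ, ih]
    funext z
    rw [Polynomial.deriv, Function.iterate_succ_apply']

private theorem k0_iter_zero (p : ℂ[X]) (k : ℕ) :
    iteratedDeriv k (fun z : ℂ => p.eval z) 0 = (k.factorial : ℂ) * p.coeff k := by
  rw [k0_iter]
  simp only []
  rw [← Polynomial.coeff_zero_eq_eval_zero, Polynomial.coeff_iterate_derivative, zero_add,
    Nat.descFactorial_self, nsmul_eq_mul]

private theorem k0_sum_iter (a : ℕ → ℝ) {n k : ℕ} (hk : k ≤ n) :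
    iteratedDeriv k (fun z : ℂ => ∑ j ∈ range (n + 1), (a j : ℂ) * z ^ j) 0 =
      (k.factorial : ℂ) * (a k : ℂ) := by
  have h1 : (fun z : ℂ => ∑ j ∈ range (n + 1), (a j : ℂ) * z ^ j) =
      fun z : ℂ => (∑ j ∈ range (n + 1), Polynomial.C (a j : ℂ) * X ^ j : ℂ[X]).eval z := by
    funext z
    rw [Polynomial.eval_finsetSum]
    simp
  rw [h1, k0_iter_zero, Polynomial.finsetSum_coeff]
  congr 1
  simp only [Polynomial.coeff_C_mul, Polynomial.coeff_X_pow]
  rw [Finset.sum_eq_single k]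
  · simp
  · intro b _ hb
    rw [if_neg (fun h => hb h.symm), mul_zero]
  · intro h
    exact absurd (Finset.mem_range.mpr (Nat.lt_succ_of_le hk)) h

private theorem k0_cauchy_fn {f : ℂ → ℂ} {r x B : ℝ} (hf : DifferentiableOn ℂ f (Metric.ball 0 r))
    (h0 : 0 < x) (hx : x < r) (k : ℕ) (hB : ∀ z : ℂ, ‖z‖ = x → ‖f z‖ ≤ B) {c : ℝ}
    (hc : iteratedDeriv k f 0 = (k.factorial : ℂ) * (c : ℂ)) : |c| * x ^ k ≤ B := by
  have h1 : DiffContOnCl ℂ f (Metric.ball 0 x) := by
    apply DifferentiableOn.diffContOnCl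
    rw [closure_ball _ h0.ne']
    exact hf.mono (Metric.closedBall_subset_ball hx)
  have h2 := Complex.norm_iteratedDeriv_le_of_forall_mem_sphere_norm_le k h0 h1 (C := B)
    (fun z hz => hB z (by rwa [mem_sphere_zero_iff_norm] at hz))
  rw [hc, norm_mul, Complex.norm_natCast, Complex.norm_real, Real.norm_eq_abs] at h2
  have hf0 : (0 : ℝ) < k.factorial := by exact_mod_cast Nat.factorial_pos k
  have hxk : 0 < x ^ k := pow_pos h0 k
  rw [le_div_iff₀ hxk, mul_assoc] at h2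
  exact le_of_mul_le_mul_left h2 hf0

private theorem k0_poly_cauchy (a : ℕ → ℝ) {n k : ℕ} (hk : k ≤ n) {x B : ℝ} (h0 : 0 < x)
    (hB : ∀ z : ℂ, ‖z‖ = x → ‖∑ j ∈ range (n + 1), (a j : ℂ) * z ^ j‖ ≤ B) :
    |a k| * x ^ k ≤ B := by
  refine k0_cauchy_fn (f := fun z : ℂ => ∑ j ∈ range (n + 1), (a j : ℂ) * z ^ j) (r := x + 1) ?_ h0
    (by linarith) k hB (k0_sum_iter a hk)
  apply Differentiable.differentiableOn
  fun_prop

private theorem k0_aeval {p : ℝ[X]} {m : ℕ} (hp : p.natDegree ≤ m) (z : ℂ) :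
    p.aeval z = ∑ j ∈ range (m + 1), (p.coeff j : ℂ) * z ^ j := by
  rw [Polynomial.aeval_eq_sum_range' (Nat.lt_succ_of_le hp)]
  apply Finset.sum_congr rfl
  intro j _
  rw [Complex.real_smul]

private theorem k0_gp_coeff (n : ℕ) (G : ℝ[X]) (k : ℕ) :
    (BY.Gp n n (fun w => G.coeff w)).coeff k = cK n G k := by
  unfold BY.Gp cK
  rw [Polynomial.finsetSum_coeff]
  apply Finset.sum_congr rfl
  intro w _
  rw [Polynomial.coeff_C_mul]
  rfl

private theorem k0_gp_deg (n : ℕ) (c : ℕ → ℝ) : (BY.Gp n n c).natDegree ≤ n := by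
  unfold BY.Gp
  apply Polynomial.natDegree_sum_le_of_forall_le
  intro w hw
  have hwn : w ≤ n := Nat.lt_succ_iff.mp (Finset.mem_range.mp hw)
  refine (Polynomial.natDegree_C_mul_le _ _).trans ?_
  refine (Polynomial.natDegree_mul_le).trans ?_
  have h1 : ((1 - X) ^ w : ℝ[X]).natDegree ≤ w := by
    refine Polynomial.natDegree_pow_le.trans ?_
    have : (1 - X : ℝ[X]).natDegree ≤ 1 := by
      refine (Polynomial.natDegree_sub_le _ _).trans ?_
      simp
    calc w * (1 - X : ℝ[X]).natDegree ≤ w * 1 := Nat.mul_le_mul le_rfl this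
      _ = w := mul_one w
  have h2 : ((1 + X) ^ (n - w) : ℝ[X]).natDegree ≤ n - w := by
    refine Polynomial.natDegree_pow_le.trans ?_
    have : (1 + X : ℝ[X]).natDegree ≤ 1 := by
      refine (Polynomial.natDegree_add_le _ _).trans ?_
      simp
    calc (n - w) * (1 + X : ℝ[X]).natDegree ≤ (n - w) * 1 := Nat.mul_le_mul le_rfl this
      _ = n - w := mul_one _
  omega

theorem cK_eval (hG : G.natDegree ≤ n) {z : ℂ} (hz : 1 + z ≠ 0) :
    ∑ k ∈ range (n + 1), (cK n G k : ℂ) * z ^ k = (1 + z) ^ n * G.aeval (zu z) := by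
  have h1 : ∑ k ∈ range (n + 1), (cK n G k : ℂ) * z ^ k =
      (BY.Gp n n (fun w => G.coeff w)).aeval z := by
    rw [k0_aeval (k0_gp_deg n _) z]
    apply Finset.sum_congr rfl
    intro k _
    rw [k0_gp_coeff]
  rw [h1, Gp_eval le_rfl _ z hz, k0_aeval hG]
  rfl

theorem cK_cauchy (hG : G.natDegree ≤ n) {x B : ℝ} (h0 : 0 < x) (h1 : x < 1)
    (hB : ∀ z : ℂ, ‖z‖ = x → ‖(1 + z) ^ n * G.aeval (zu z)‖ ≤ B) (k : ℕ) (hk : k ≤ n) :
    |cK n G k| * x ^ k ≤ B := by
  refine k0_poly_cauchy (cK n G) hk h0 ?_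
  intro z hz
  have hz1 : 1 + z ≠ 0 := by
    intro h
    have h2 : z = -1 := by linear_combination h
    rw [h2, norm_neg, norm_one] at hz
    linarith
  rw [cK_eval hG hz1]
  exact hB z hz

/-- reversal: `(1+z)^n G(-u)` -/
theorem cK_rev_cauchy (hG : G.natDegree ≤ n) {x B : ℝ} (h0 : 0 < x) (h1 : x < 1)
    (hB : ∀ z : ℂ, ‖z‖ = x → ‖(1 + z) ^ n * G.aeval (-zu z)‖ ≤ B) (j : ℕ) (hj : j ≤ n) :
    |cK n G (n - j)| * x ^ j ≤ B := by
  refine k0_poly_cauchy (fun j => cK n G (n - j)) hj h0 ?_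
  intro z hz
  have hz0 : z ≠ 0 := by
    intro h
    rw [h, norm_zero] at hz
    linarith
  have hz1 : 1 + z ≠ 0 := by
    intro h
    have h2 : z = -1 := by linear_combination h
    rw [h2, norm_neg, norm_one] at hz
    linarith
  have hz2 : 1 + z⁻¹ ≠ 0 := by
    intro h
    apply hz1
    have : z * (1 + z⁻¹) = 0 := by rw [h, mul_zero]
    rw [mul_add, mul_inv_cancel₀ hz0, mul_one] at this
    linear_combination this
  have h3 := cK_eval hG hz2
  have h4 : zu z⁻¹ = -zu z := by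
    unfold zu
    have : 1 + z⁻¹ = (1 + z) * z⁻¹ := by field_simp; ring
    rw [this]
    field_simp
    ring
  have h5 : ∑ j ∈ range (n + 1), ((cK n G (n - j) : ℝ) : ℂ) * z ^ j =
      z ^ n * ∑ k ∈ range (n + 1), (cK n G k : ℂ) * z⁻¹ ^ k := by
    rw [← Finset.sum_range_reflect, Finset.mul_sum]
    apply Finset.sum_congr rfl
    intro k hk
    have hkn : k ≤ n := Nat.lt_succ_iff.mp (Finset.mem_range.mp hk)
    have e1 : n + 1 - 1 - k = n - k := by omega
    have e2 : n - (n - k) = k := by omega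
    rw [e1, e2]
    have e3 : z ^ n = z ^ (n - k) * z ^ k := by rw [← pow_add]; congr 1; omega
    rw [e3, inv_pow]
    have e4 : z ^ k ≠ 0 := pow_ne_zero _ hz0
    field_simp
  rw [h5, h3, h4]
  have h6 : z ^ n * ((1 + z⁻¹) ^ n * (aeval (-zu z)) G) = (1 + z) ^ n * (aeval (-zu z)) G := by
    rw [← mul_assoc, ← mul_pow]
    congr 2
    rw [mul_add, mul_inv_cancel₀ hz0]
    ring
  rw [h6]
  exact hB z hz

theorem cK_zero (hG : G.natDegree ≤ n) : cK n G 0 = G.eval 1 := by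
  unfold cK
  rw [Polynomial.eval_eq_sum_range' (Nat.lt_succ_of_le hG)]
  apply Finset.sum_congr rfl
  intro w _
  unfold kr
  rw [Polynomial.coeff_zero_eq_eval_zero]
  simp

theorem cK_sum (hG : G.natDegree ≤ n) : ∑ k ∈ range (n + 1), cK n G k = 2 ^ n * G.eval 0 := by
  have h1 : ∑ k ∈ range (n + 1), cK n G k = (BY.Gp n n (fun w => G.coeff w)).eval 1 := by
    rw [Polynomial.eval_eq_sum_range' (Nat.lt_succ_of_le (k0_gp_deg n _))]
    apply Finset.sum_congr rfl
    intro k _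
    rw [k0_gp_coeff, one_pow, mul_one]
  rw [h1]
  unfold BY.Gp
  rw [Polynomial.eval_finsetSum, Finset.sum_eq_single 0]
  · rw [← Polynomial.coeff_zero_eq_eval_zero G]
    simp only [pow_zero, one_mul, Nat.sub_zero, Polynomial.eval_mul, Polynomial.eval_C,
      Polynomial.eval_pow, Polynomial.eval_add, Polynomial.eval_one, Polynomial.eval_X]
    norm_num
    ring
  · intro b _ hb
    simp [hb]
  · intro h
    exact absurd (Finset.mem_range.mpr (Nat.succ_pos n)) h

theorem Gp_cK (hG : G.natDegree ≤ n) : Gp n n (cK n G) = Polynomial.C (2 ^ n) * G := by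
  apply Polynomial.eq_of_infinite_eval_eq
  refine Set.Infinite.mono ?_ (Set.Ioi_infinite (0 : ℝ))
  intro u hu
  have hu0 : (0 : ℝ) < u := hu
  rw [Set.mem_ofPred_eq]
  have h1 : (1 : ℂ) + (u : ℂ) ≠ 0 := by
    intro h
    have : (1 : ℝ) + u = 0 := by exact_mod_cast h
    linarith
  have h2 := Gp_eval (n := n) le_rfl (cK n G) (u : ℂ) h1
  set z : ℂ := (1 - (u : ℂ)) / (1 + (u : ℂ)) with hz
  have h3 : 1 + z = 2 / (1 + (u : ℂ)) := by rw [hz]; field_simp; ring
  have h4 : 1 + z ≠ 0 := by rw [h3]; exact div_ne_zero two_ne_zero h1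
  have h5 : zu z = (u : ℂ) := by
    unfold zu
    rw [h3, hz]
    field_simp
    ring
  rw [cK_eval hG h4, h3, h5] at h2
  have h6 : (1 + (u : ℂ)) ^ n * ((2 / (1 + (u : ℂ))) ^ n * (aeval (u : ℂ)) G) =
      2 ^ n * (aeval (u : ℂ)) G := by
    rw [← mul_assoc, ← mul_pow]
    congr 2
    field_simp
  rw [h6] at h2
  have h7 : ∀ p : ℝ[X], p.aeval (u : ℂ) = ((p.eval u : ℝ) : ℂ) := by
    intro p
    have := Polynomial.aeval_algebraMap_apply ℂ u p
    rw [Polynomial.coe_aeval_eq_eval] at this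
    exact this
  rw [h7, h7] at h2
  rw [Polynomial.eval_mul, Polynomial.eval_C]
  have h8 : (((BY.Gp n n (cK n G)).eval u : ℝ) : ℂ) = ((2 ^ n * G.eval u : ℝ) : ℂ) := by
    rw [h2]; push_cast; ring
  exact_mod_cast h8

/-- `[z^k] (1+z)^n P(u) T(u)` for `P = ∑ P_w X^w`, `T(u(z)) = exp (n ε S~(z))`, is the mixture of the
`[z^k] (1+z)^(n-w) (1-z)^w exp (n ε S~)`; hence `cK n (P * TJ) k ≥ - |tail_k|` -/
theorem cK_lower {P TT : ℝ[X]} (hP : ∀ w, 0 ≤ P.coeff w) (hPn : P.natDegree ≤ n)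
    (hd : (P * TT).natDegree ≤ n) {r : ℝ}
    (hr0 : 0 < r) (hr1 : r < 1) {E : ℂ → ℂ} (hE : DifferentiableOn ℂ E (Metric.ball 0 r))
    {k : ℕ} (hpos : ∀ w : ℕ, w ≤ P.natDegree → ∃ b : ℝ, 0 ≤ b ∧ iteratedDeriv k (fun z : ℂ =>
      (1 + z) ^ (n - w) * (1 - z) ^ w * E z) 0 = (k.factorial : ℂ) * (b : ℂ)) :
    ∃ a : ℝ, 0 ≤ a ∧ -a ≤ cK n (P * TT) k ∧ ∀ x B : ℝ, 0 < x → x < r →
      (∀ z : ℂ, ‖z‖ = x → ‖(1 + z) ^ n * (P.aeval (zu z) * (TT.aeval (zu z) - E z))‖ ≤ B) →
        a * x ^ k ≤ B := by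
  choose! b hb0 hb using hpos
  set Q : ℂ[X] := (BY.Gp n n (fun w => (P * TT).coeff w)).map (algebraMap ℝ ℂ) with hQ
  set F2 : ℂ → ℂ := fun z => ∑ w ∈ range (P.natDegree + 1),
    (P.coeff w : ℂ) * ((1 + z) ^ (n - w) * (1 - z) ^ w * E z) with hF2
  set β : ℝ := ∑ w ∈ range (P.natDegree + 1), P.coeff w * b w with hβ
  have hβ0 : 0 ≤ β := Finset.sum_nonneg fun w hw =>
    mul_nonneg (hP w) (hb0 w (Nat.lt_succ_iff.mp (Finset.mem_range.mp hw)))
  have hball : Metric.ball (0 : ℂ) r ∈ nhds (0 : ℂ) := Metric.ball_mem_nhds _ hr0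
  have hEc : ContDiffAt ℂ k E 0 :=
    (hE.contDiffOn Metric.isOpen_ball).contDiffAt hball
  have hterm : ∀ w : ℕ, ContDiffAt ℂ k (fun z : ℂ => (1 + z) ^ (n - w) * (1 - z) ^ w * E z) 0 := by
    intro w
    have h1 : ContDiffAt ℂ k (fun z : ℂ => (1 + z) ^ (n - w) * (1 - z) ^ w) 0 := by
      fun_prop
    exact h1.mul hEc
  have hterm' : ∀ w : ℕ, ContDiffAt ℂ k
      (fun z : ℂ => (P.coeff w : ℂ) * ((1 + z) ^ (n - w) * (1 - z) ^ w * E z)) 0 := by
    intro w
    exact contDiffAt_const.mul (hterm w)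
  have hF2c : ContDiffAt ℂ k F2 0 := by
    rw [hF2]
    exact ContDiffAt.sum fun w _ => hterm' w
  have hQc : ContDiffAt ℂ k (fun z : ℂ => Q.eval z) 0 := by
    have : (fun z : ℂ => Q.eval z) = fun z : ℂ => Q.aeval z := by
      funext z; rw [Polynomial.coe_aeval_eq_eval]
    rw [this]
    exact (Polynomial.contDiff_aeval Q k).contDiffAt
  have hQcoeff : Q.coeff k = ((cK n (P * TT) k : ℝ) : ℂ) := by
    rw [hQ, Polynomial.coeff_map, k0_gp_coeff]
    rfl
  have hF2i : iteratedDeriv k F2 0 = (k.factorial : ℂ) * (β : ℂ) := by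
    rw [hF2, iteratedDeriv_fun_sum (fun w _ => hterm' w), hβ]
    push_cast
    rw [Finset.mul_sum]
    apply Finset.sum_congr rfl
    intro w hw
    have hw' : w ≤ P.natDegree := Nat.lt_succ_iff.mp (Finset.mem_range.mp hw)
    have h1 := iteratedDeriv_const_mul (P.coeff w : ℂ) (hterm w)
    rw [h1, hb w hw']
    ring
  have hdiff : iteratedDeriv k (fun z : ℂ => Q.eval z - F2 z) 0 =
      (k.factorial : ℂ) * ((cK n (P * TT) k - β : ℝ) : ℂ) := by
    have h1 : (fun z : ℂ => Q.eval z - F2 z) = (fun z : ℂ => Q.eval z) - F2 := rfl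
    rw [h1, iteratedDeriv_sub hQc hF2c, k0_iter_zero, hF2i, hQcoeff]
    push_cast
    ring
  have hEq : ∀ z : ℂ, ‖z‖ < r → Q.eval z - F2 z =
      (1 + z) ^ n * (P.aeval (zu z) * (TT.aeval (zu z) - E z)) := by
    intro z hz
    have hz1 : 1 + z ≠ 0 := by
      intro h
      have h2 : z = -1 := by linear_combination h
      rw [h2, norm_neg, norm_one] at hz
      linarith
    have e1 : Q.eval z = (1 + z) ^ n * (P.aeval (zu z) * TT.aeval (zu z)) := by
      have h2 : Q.eval z = (BY.Gp n n (fun w => (P * TT).coeff w)).aeval z := by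
        rw [hQ, Polynomial.eval_map_algebraMap]
      rw [h2, Gp_eval le_rfl _ z hz1, ← map_mul, k0_aeval hd]
      rfl
    have e2 : F2 z = (1 + z) ^ n * (P.aeval (zu z) * E z) := by
      rw [k0_aeval le_rfl (p := P), hF2, Finset.sum_mul, Finset.mul_sum]
      apply Finset.sum_congr rfl
      intro w hw
      have hw' : w ≤ P.natDegree := Nat.lt_succ_iff.mp (Finset.mem_range.mp hw)
      have e3 : (1 + z) ^ n = (1 + z) ^ (n - w) * (1 + z) ^ w := by
        rw [← pow_add]; congr 1; omega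
      have e4 : (1 + z) ^ w ≠ 0 := pow_ne_zero _ hz1
      unfold zu
      rw [e3, div_pow]
      field_simp
    rw [e1, e2]
    ring
  refine ⟨|cK n (P * TT) k - β|, abs_nonneg _, ?_, ?_⟩
  · have := neg_abs_le (cK n (P * TT) k - β)
    linarith
  · intro x B hx0 hxr hB
    have hdf : DifferentiableOn ℂ (fun z : ℂ => Q.eval z - F2 z) (Metric.ball 0 r) := by
      apply DifferentiableOn.sub
      · exact Q.differentiable.differentiableOn
      · rw [hF2]
        apply DifferentiableOn.fun_sum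
        intro w _
        apply DifferentiableOn.const_mul
        apply DifferentiableOn.mul _ hE
        apply Differentiable.differentiableOn
        fun_prop
    refine k0_cauchy_fn hdf hx0 hxr k ?_ hdiff
    intro z hz
    rw [hEq z (by rw [hz]; exact hxr)]
    exact hB z hz

end

end Pool.Agent.Lib.MP_0430e4_lc.AC
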