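import Pool.Agent.Lib.MP_0430e4_lc.AC.Y2T
import Pool.Agent.Lib.MP_0430e4_lc.AC.Y2K0

/-!
Y2 module H (helper51): the side conditions of `COK` for `c = cK n (Gq q n0 S ε η' n)`: degree, value at
`1`, mass, high weights.
-/

set_option autoImplicit false

open Finset Polynomial

namespace Pool.Agent.Lib.MP_0430e4_lc.AC

open LPLOW Lower BY

theorem y2h_deg {q : ℝ[X]} {n0 : ℕ} {S : ℂ → ℂ} {ε η' ξ : ℝ} (hξ : ξ ≤ 1 / 2) (hη : 0 ≤ η')
    (hη1 : η' ≤ ξ) (hq : q.natDegree ≤ Kx ξ n0) (n : ℕ) :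
    2 * (Gq q n0 S ε η' n).natDegree ≤ n := by
  have h1 : (Gq q n0 S ε η' n).natDegree ≤ n / n0 * Kx ξ n0 + ⌊η' * n⌋₊ := by
    unfold Gq
    refine Polynomial.natDegree_mul_le.trans (add_le_add ?_ (TJ_deg S ε n _))
    exact Polynomial.natDegree_pow_le.trans (Nat.mul_le_mul_left _ hq)
  have h2 : ((n / n0 * n0 : ℕ) : ℝ) ≤ n := by exact_mod_cast Nat.div_mul_le_self n n0
  have h3 : (Kx ξ n0 : ℝ) ≤ (1 / 2 - ξ) * n0 := by
    unfold Kx
    exact Nat.floor_le (mul_nonneg (by linarith) (Nat.cast_nonneg _))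
  have h4 : (⌊η' * n⌋₊ : ℝ) ≤ η' * n := Nat.floor_le (mul_nonneg hη (Nat.cast_nonneg _))
  have h5 : ((Gq q n0 S ε η' n).natDegree : ℝ) ≤ (n / n0 : ℕ) * (Kx ξ n0 : ℝ) + ⌊η' * n⌋₊ := by
    exact_mod_cast h1
  have hn : (0 : ℝ) ≤ n := Nat.cast_nonneg _
  have h6 : ((n / n0 : ℕ) : ℝ) * (Kx ξ n0 : ℝ) ≤ (1 / 2 - ξ) * n := by
    have h7 : ((n / n0 : ℕ) : ℝ) * (Kx ξ n0 : ℝ) ≤ ((n / n0 : ℕ) : ℝ) * ((1 / 2 - ξ) * n0) :=
      mul_le_mul_of_nonneg_left h3 (Nat.cast_nonneg _)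
    push_cast at h2
    have h8 : (1 / 2 - ξ) * (((n / n0 : ℕ) : ℝ) * n0) ≤ (1 / 2 - ξ) * n :=
      mul_le_mul_of_nonneg_left h2 (by linarith)
    nlinarith
  have h9 : (2 * (Gq q n0 S ε η' n).natDegree : ℝ) ≤ n := by nlinarith
  exact_mod_cast h9

section
variable {ψ th x2 r0 A0 R A c : ℝ} {S : ℂ → ℂ}

/-- `cK 0 ≥ 1/2` -/
theorem y2h_c0 (h : Mul ψ th x2 r0 A0 S R A c) {η' : ℝ} (hη : 0 < η') :
    ∃ ε0 : ℝ, 0 < ε0 ∧ ∀ ε : ℝ, 0 ≤ ε → ε ≤ ε0 → ∃ n1 : ℕ, ∀ n ≥ n1, ∀ (q : ℝ[X]) (n0 : ℕ),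
      q.eval 1 = 1 → (Gq q n0 S ε η' n).natDegree ≤ n →
      1 / 2 ≤ cK n (Gq q n0 S ε η' n) 0 := by
  obtain ⟨ct, ε0, hct, hε0, H⟩ := TJ_close h (R1 := 1) le_rfl h.hR hη
  refine ⟨ε0, hε0, fun ε h0 h1 => ?_⟩
  obtain ⟨n1, hn1⟩ := H ε h0 h1
  have hev : ∀ᶠ n : ℕ in Filter.atTop, Real.log 2 ≤ ct * n :=
    (Filter.Tendsto.const_mul_atTop hct tendsto_natCast_atTop_atTop).eventually_ge_atTop _
  obtain ⟨n2, hn2⟩ := Filter.eventually_atTop.1 hev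
  refine ⟨max n1 n2, fun n hn q n0 hq hd => ?_⟩
  rw [cK_zero hd]
  unfold Gq
  rw [Polynomial.eval_mul, Polynomial.eval_pow, hq, one_pow, one_mul]
  have h2 := hn1 n (le_of_max_le_left hn) 1 (by simp)
  rw [sub_self, mul_zero, mul_zero, Complex.exp_zero, norm_one, one_pow, one_mul] at h2
  have h3 := hn2 n (le_of_max_le_right hn)
  have h4 : (TJ S ε n ⌊η' * n⌋₊).aeval (1 : ℂ) = (((TJ S ε n ⌊η' * n⌋₊).eval 1 : ℝ) : ℂ) := by
    have := Polynomial.aeval_algebraMap_apply ℂ (1 : ℝ) (TJ S ε n ⌊η' * n⌋₊)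
    simpa [Polynomial.coe_aeval_eq_eval] using this
  rw [h4] at h2
  have h5 : ‖(((TJ S ε n ⌊η' * n⌋₊).eval 1 : ℝ) : ℂ) - 1‖ =
      |(TJ S ε n ⌊η' * n⌋₊).eval 1 - 1| := by
    rw [← Complex.ofReal_one, ← Complex.ofReal_sub, Complex.norm_real, Real.norm_eq_abs]
  rw [h5] at h2
  have h6 : Real.exp (-(ct * n)) ≤ 1 / 2 := by
    have : Real.exp (-(ct * n)) ≤ Real.exp (-Real.log 2) := Real.exp_le_exp.2 (by linarith)
    rw [Real.exp_neg (Real.log 2), Real.exp_log (by norm_num)] at this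
    linarith
  have h7 := (abs_le.1 h2).1
  linarith

/-- the mass -/
theorem y2h_mass {t : ℝ} (h : Mul ψ th x2 r0 A0 S R A c) (ht : 0 < t) {ε : ℝ} (hε : 0 < ε)
    {A1 : ℝ} (hA1 : 1 ≤ A1) {n0 K0 : ℕ} (hn0 : 1 ≤ n0)
    (hN : Real.log A1 / n0 ≤ ε * (S 1).re / 4) {q : ℝ[X]} {e κq : ℝ} (hq : QB t n0 K0 A1 e κq q)
    (he : e ≤ 0) (η' : ℝ) :
    ∃ n1 : ℕ, ∀ n ≥ n1, (Gq q n0 S ε η' n).natDegree ≤ n → ∀ κ : ℝ, κ ≤ ε * (S 1).re / 2 →
      ∑ k ∈ range (n + 1), cK n (Gq q n0 S ε η' n) k ≤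
        pw n (Tensor.ell (dII t)) * Real.exp (-(κ * n)) := by
  have hs := h.pos1
  have hgain : 0 < ε * (S 1).re := mul_pos hε hs
  set cv : ℝ := Exact.cval t with hcv
  have hev : ∀ᶠ n : ℕ in Filter.atTop, (n0 : ℝ) * |cv| ≤ ε * (S 1).re / 4 * n :=
    (Filter.Tendsto.const_mul_atTop (by positivity) tendsto_natCast_atTop_atTop).eventually_ge_atTop _
  obtain ⟨n1, hn1⟩ := Filter.eventually_atTop.1 hev
  refine ⟨n1, fun n hn hd κ hκ => ?_⟩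
  have hn2 := hn1 n hn
  rw [cK_sum hd]
  unfold Gq
  rw [Polynomial.eval_mul, Polynomial.eval_pow, TJ_zero h]
  have hq0 : 0 ≤ q.eval 0 := by
    rw [← Polynomial.coeff_zero_eq_eval_zero]; exact hq.nonneg 0
  set m : ℕ := n / n0 with hm
  have hn0' : (0 : ℝ) < n0 := by exact_mod_cast hn0
  have hmn : (m : ℝ) * n0 ≤ n := by exact_mod_cast Nat.div_mul_le_self n n0
  have hmn2 : (n : ℝ) ≤ m * n0 + n0 := by
    have h1 := Nat.div_add_mod n n0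
    have h2 := Nat.mod_lt n (show 0 < n0 by omega)
    have h3 : (n : ℝ) = n0 * m + (n % n0 : ℕ) := by exact_mod_cast h1.symm
    have h4 : ((n % n0 : ℕ) : ℝ) ≤ n0 := by exact_mod_cast h2.le
    rw [h3]; linarith
  have hlogA : 0 ≤ Real.log A1 := Real.log_nonneg hA1
  have hA1' : A1 = Real.exp (Real.log A1) := (Real.exp_log (by linarith)).symm
  have h1 : q.eval 0 ^ m ≤ Real.exp (m * (Real.log A1 + n0 * (-cv + e))) := by
    have h2 : q.eval 0 ≤ Real.exp (Real.log A1 + n0 * (-cv + e)) := by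
      rw [Real.exp_add, ← hA1']; exact hq.mass
    calc q.eval 0 ^ m ≤ Real.exp (Real.log A1 + n0 * (-cv + e)) ^ m := pow_le_pow_left₀ hq0 h2 m
      _ = _ := by rw [← Real.exp_nat_mul]
  have h3 : (m : ℝ) * (Real.log A1 + n0 * (-cv + e)) ≤
      -(n * cv) + n0 * |cv| + n * (ε * (S 1).re / 4) := by
    have a1 : (m : ℝ) * Real.log A1 ≤ n * (ε * (S 1).re / 4) := by
      have b1 : Real.log A1 ≤ n0 * (ε * (S 1).re / 4) := by
        rw [div_le_iff₀ hn0'] at hN; linarith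
      calc (m : ℝ) * Real.log A1 ≤ m * (n0 * (ε * (S 1).re / 4)) :=
            mul_le_mul_of_nonneg_left b1 (Nat.cast_nonneg _)
        _ = (m * n0) * (ε * (S 1).re / 4) := by ring
        _ ≤ n * (ε * (S 1).re / 4) := mul_le_mul_of_nonneg_right hmn (by positivity)
    have a2 : (m : ℝ) * (n0 * e) ≤ 0 :=
      mul_nonpos_of_nonneg_of_nonpos (Nat.cast_nonneg _)
        (mul_nonpos_of_nonneg_of_nonpos hn0'.le he)
    have a3 : -((m : ℝ) * n0 * cv) ≤ -(n * cv) + n0 * |cv| := by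
      have b1 : ((n : ℝ) - m * n0) * cv ≤ n0 * |cv| := by
        calc ((n : ℝ) - m * n0) * cv ≤ ((n : ℝ) - m * n0) * |cv| :=
              mul_le_mul_of_nonneg_left (le_abs_self _) (by linarith)
          _ ≤ n0 * |cv| := mul_le_mul_of_nonneg_right (by linarith) (abs_nonneg _)
      linarith
    have e1 : (m : ℝ) * (Real.log A1 + n0 * (-cv + e)) =
        m * Real.log A1 + m * (n0 * e) + -((m : ℝ) * n0 * cv) := by ring
    rw [e1]; linarith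
  have h4 : pw n (Tensor.ell (dII t)) = Real.exp (n * (Real.log 2 - cv)) := by
    rw [pw_eq_exp]
    unfold dII
    rw [ell_II ht]
  have h5 : (2 : ℝ) ^ n = Real.exp (n * Real.log 2) := by
    rw [Real.exp_nat_mul, Real.exp_log (by norm_num)]
  rw [h4, h5, ← Real.exp_add]
  calc Real.exp (n * Real.log 2) * (q.eval 0 ^ m * Real.exp (-(n * (ε * (S 1).re))))
      ≤ Real.exp (n * Real.log 2) * (Real.exp (m * (Real.log A1 + n0 * (-cv + e))) *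
          Real.exp (-(n * (ε * (S 1).re)))) := by
        apply mul_le_mul_of_nonneg_left _ (Real.exp_pos _).le
        exact mul_le_mul_of_nonneg_right h1 (Real.exp_pos _).le
    _ = Real.exp (n * Real.log 2 + (m * (Real.log A1 + n0 * (-cv + e)) +
          -(n * (ε * (S 1).re)))) := by rw [← Real.exp_add, ← Real.exp_add]
    _ ≤ _ := by
        apply Real.exp_le_exp.2
        have hnn : (0 : ℝ) ≤ n := Nat.cast_nonneg _
        have h6 : κ * n ≤ ε * (S 1).re / 2 * n := mul_le_mul_of_nonneg_right hκ hnn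
        nlinarith

/-- `COK` from the k side -/
theorem y2h_cok {t : ℝ} (h : Mul ψ th x2 r0 A0 S R A c) (ht : 0 < t) {ξ η' : ℝ} (hξ : ξ ≤ 1 / 2)
    (hη : 0 ≤ η') (hη1 : η' ≤ ξ) {ε : ℝ} (hε : 0 < ε)
    {A1 : ℝ} (hA1 : 1 ≤ A1) {n0 : ℕ} (hn0 : 1 ≤ n0)
    (hN : Real.log A1 / n0 ≤ ε * (S 1).re / 4) {q : ℝ[X]} {e κq : ℝ}
    (hq : QB t n0 (Kx ξ n0) A1 e κq q) (he : e ≤ 0) :
    ∃ n1 : ℕ, ∀ n ≥ n1, ∀ κ : ℝ, κ ≤ ε * (S 1).re / 2 → ∀ C : Finset (Wd n),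
      (1 / 4) * (C.card : ℝ) ^ 2 ≤
        ∑ k ∈ range (n + 1), cK n (Gq q n0 S ε η' n) k / n.choose k * Sk C k →
      COK n n (cK n (Gq q n0 S ε η' n)) (Tensor.ell (dII t)) (dII t) κ C := by
  obtain ⟨n1, hn1⟩ := y2h_mass h ht hε hA1 hn0 hN hq he η'
  refine ⟨max n1 1, fun n hn κ hκ C hk => ?_⟩
  have hn2 : 1 ≤ n := le_of_max_le_right hn
  have hd2 := y2h_deg (S := S) (ε := ε) hξ hη hη1 hq.deg n
  have hd : (Gq q n0 S ε η' n).natDegree ≤ n := by omega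
  refine ⟨le_rfl, hk, hn1 n (le_of_max_le_left hn) hd κ hκ, ?_⟩
  have hs := Exact.sII_pos ht
  have hs1 := Exact.sII_lt_one ht
  rw [Finset.sum_eq_zero]
  · positivity
  · intro w hw
    rw [Finset.mem_filter] at hw
    have hw2 := hw.2
    rw [Gp_cK hd, Polynomial.coeff_C_mul]
    have hz : (Gq q n0 S ε η' n).coeff w = 0 := by
      apply Polynomial.coeff_eq_zero_of_natDegree_lt
      -- `w > n/2`
      have h1 : (⌈dII t * n⌉₊ : ℝ) < dII t * n + 1 := by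
        apply Nat.ceil_lt_add_one
        unfold dII
        exact mul_nonneg (by linarith) (Nat.cast_nonneg _)
      have h2 : (n : ℝ) + 1 ≤ w + ⌈dII t * n⌉₊ := by exact_mod_cast hw2
      have h3 : dII t * n ≤ n / 2 := by
        unfold dII
        have : (0 : ℝ) < n := by exact_mod_cast hn2
        nlinarith
      have h4 : (n : ℝ) < 2 * w := by linarith
      have h5 : n < 2 * w := by exact_mod_cast h4
      omega
    rw [hz]
    simp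

end

end Pool.Agent.Lib.MP_0430e4_lc.AC
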