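import Pool.Agent.Lib.MP_0430e4_lc.AC.YMix

/-!
Y2 module Mix (helper84): the positive mixture lemma with `κ` depending only on `r0`, `A0`, `ξ`.
-/

set_option autoImplicit false

open Finset Polynomial Metric

namespace Pool.Agent.Lib.MP_0430e4_lc.AC

open BY

private theorem ymu_log {z : ℂ} (hz : ‖z‖ ≤ 1 / 2) : ‖Complex.log (1 + z)‖ ≤ 1 := by
  have h1 := Complex.norm_log_one_add_half_le_self hz
  linarith

theorem mix_unif {r0 A0 ξ : ℝ} (hr0 : 0 < r0) (hr1 : r0 < 1) (hA : 0 < A0) (hξ : 0 < ξ) :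
    ∃ κ : ℝ, 0 < κ ∧ ∀ S : ℂ → ℂ, DifferentiableOn ℂ S (Metric.ball 0 r0) →
      (∀ z : ℂ, ‖z‖ < r0 → S (starRingEnd ℂ z) = starRingEnd ℂ (S z)) → S 0 = 0 →
      (∀ z : ℂ, ‖z‖ < r0 → ‖S z‖ ≤ A0) → ∃ ε0 : ℝ, 0 < ε0 ∧ ∀ ε : ℝ, 0 ≤ ε → ε ≤ ε0 →
      ∀ n w k : ℕ, 1 ≤ n → (w : ℝ) ≤ (1 / 2 - ξ) * n → (k : ℝ) ≤ κ * n → ∃ r : ℝ, 0 < r ∧
        iteratedDeriv k (fun z : ℂ => (1 + z) ^ (n - w) * (1 - z) ^ w *
          Complex.exp ((n : ℂ) * ((ε : ℂ) * S z))) 0 = (k.factorial : ℂ) * (r : ℂ) := by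
  have hA0 : 0 ≤ A0 := hA.le
  set r1 : ℝ := r0 / 4 with hr1'
  have hr1p : 0 < r1 := by positivity
  set M : ℝ := 2 + A0 with hMd
  refine ⟨(r1 * ξ) ^ 2 / (4 * M + 2 * (r1 * ξ)), by positivity, ?_⟩
  intro S hS hc h0 hA
  have hS0 : DifferentiableAt ℂ S 0 := hS.differentiableAt (ball_mem_nhds 0 hr0)
  set D : ℝ := ‖deriv S 0‖ with hD
  refine ⟨min 1 (ξ / (D + 1)), lt_min one_pos (by positivity), ?_⟩
  intro ε hε0 hε1 n w k hn hw hk
  have hε1' : ε ≤ 1 := hε1.trans (min_le_left _ _)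
  have hεD : ε * D ≤ ξ := by
    have h1 : ε ≤ ξ / (D + 1) := hε1.trans (min_le_right _ _)
    have hD0 : 0 ≤ D := norm_nonneg _
    calc ε * D ≤ ξ / (D + 1) * (D + 1) := mul_le_mul h1 (by linarith) hD0 (by positivity)
      _ = ξ := by field_simp
  have hn0 : (0 : ℝ) < n := by exact_mod_cast hn
  have hnc : (n : ℂ) ≠ 0 := by exact_mod_cast hn0.ne'
  set om : ℝ := (w : ℝ) / n with hom
  have hom0 : 0 ≤ om := by positivity
  have homξ : om ≤ 1 / 2 - ξ := by rw [hom, div_le_iff₀ hn0]; exact hw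
  have hwn : w ≤ n := by
    have h1 : (w : ℝ) ≤ n := by
      refine hw.trans ?_
      nlinarith
    exact_mod_cast h1
  have hwom : (w : ℂ) = (n : ℂ) * (om : ℂ) := by rw [hom]; push_cast; field_simp
  have hnw : ((n - w : ℕ) : ℂ) = (n : ℂ) * ((1 - om : ℝ) : ℂ) := by
    rw [Nat.cast_sub hwn, hwom]; push_cast; ring
  set ψ : ℂ → ℂ := fun z => ((1 - om : ℝ) : ℂ) * Complex.log (1 + (r1 : ℂ) * z) +
    (om : ℂ) * Complex.log (1 + -((r1 : ℂ) * z)) + (ε : ℂ) * S ((r1 : ℂ) * z) with hψ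
  have hsm : ∀ z : ℂ, ‖z‖ < 2 → ‖(r1 : ℂ) * z‖ < r0 / 2 := by
    intro z hz
    rw [norm_mul, Complex.norm_real, Real.norm_of_nonneg hr1p.le, hr1']
    nlinarith
  have hsm2 : ∀ z : ℂ, ‖z‖ < 2 → ‖(r1 : ℂ) * z‖ ≤ 1 / 2 := fun z hz => by
    have := hsm z hz
    linarith
  have hsl : ∀ x : ℂ, ‖x‖ ≤ 1 / 2 → 1 + x ∈ Complex.slitPlane := by
    intro x hx
    apply Complex.mem_slitPlane_of_norm_lt_one
    linarith
  have hdiff : DifferentiableOn ℂ ψ (ball 0 2) := by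
    intro z hz
    rw [mem_ball_zero_iff] at hz
    have hS1 : DifferentiableAt ℂ S ((r1 : ℂ) * z) := by
      apply hS.differentiableAt
      apply isOpen_ball.mem_nhds
      rw [mem_ball_zero_iff]
      have := hsm z hz
      linarith
    have hl1 : DifferentiableAt ℂ (fun z : ℂ => Complex.log (1 + (r1 : ℂ) * z)) z := by
      apply DifferentiableAt.clog
      · fun_prop
      · exact hsl _ (hsm2 z hz)
    have hl2 : DifferentiableAt ℂ (fun z : ℂ => Complex.log (1 + -((r1 : ℂ) * z))) z := by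
      apply DifferentiableAt.clog
      · fun_prop
      · exact hsl _ (by rw [norm_neg]; exact hsm2 z hz)
    have hl3 : DifferentiableAt ℂ (fun z : ℂ => S ((r1 : ℂ) * z)) z := by
      have h2 : DifferentiableAt ℂ (fun z : ℂ => (r1 : ℂ) * z) z := by fun_prop
      exact DifferentiableAt.comp z hS1 h2
    exact (((hl1.const_mul _).add (hl2.const_mul _)).add (hl3.const_mul _)).differentiableWithinAt
  have hlc : ∀ x : ℂ, ‖x‖ ≤ 1 / 2 → Complex.log (1 + starRingEnd ℂ x) =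
      starRingEnd ℂ (Complex.log (1 + x)) := by
    intro x hx
    rw [← Complex.log_conj _ (Complex.slitPlane_arg_ne_pi (hsl x hx)), map_add, map_one]
  have hconj : ∀ z : ℂ, ‖z‖ < 2 → ψ (starRingEnd ℂ z) = starRingEnd ℂ (ψ z) := by
    intro z hz
    have e0 : (r1 : ℂ) * starRingEnd ℂ z = starRingEnd ℂ ((r1 : ℂ) * z) := by
      rw [map_mul, Complex.conj_ofReal]
    simp only [hψ]
    rw [e0, ← map_neg (starRingEnd ℂ), hlc _ (hsm2 z hz), hlc _ (by rw [norm_neg]; exact hsm2 z hz),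
      hc _ (by have := hsm z hz; linarith)]
    simp only [map_add, map_mul, Complex.conj_ofReal]
  have hψ0 : ψ 0 = 0 := by simp [hψ, h0]
  have hbd : ∀ z : ℂ, ‖z‖ < 2 → ‖ψ z‖ ≤ M := by
    intro z hz
    have h1 := ymu_log (hsm2 z hz)
    have h2 := ymu_log (z := -((r1 : ℂ) * z)) (by rw [norm_neg]; exact hsm2 z hz)
    have h3 := hA ((r1 : ℂ) * z) (by have := hsm z hz; linarith)
    have ha : ‖((1 - om : ℝ) : ℂ)‖ ≤ 1 := by
      rw [Complex.norm_real, Real.norm_of_nonneg (by linarith)]; linarith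
    have hb : ‖((om : ℝ) : ℂ)‖ ≤ 1 := by
      rw [Complex.norm_real, Real.norm_of_nonneg hom0]; linarith
    have hce : ‖((ε : ℝ) : ℂ)‖ ≤ 1 := by
      rw [Complex.norm_real, Real.norm_of_nonneg hε0]; exact hε1'
    calc ‖ψ z‖ ≤ ‖((1 - om : ℝ) : ℂ) * Complex.log (1 + (r1 : ℂ) * z)‖ +
          ‖(om : ℂ) * Complex.log (1 + -((r1 : ℂ) * z))‖ + ‖(ε : ℂ) * S ((r1 : ℂ) * z)‖ :=
          norm_add₃_le
      _ ≤ 1 * 1 + 1 * 1 + 1 * A0 := by
          rw [norm_mul, norm_mul, norm_mul]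
          exact add_le_add (add_le_add (mul_le_mul ha h1 (norm_nonneg _) zero_le_one)
            (mul_le_mul hb h2 (norm_nonneg _) zero_le_one)) (mul_le_mul hce h3 (norm_nonneg _) zero_le_one)
      _ = M := by rw [hMd]; ring
  have hder : HasDerivAt ψ (((1 - om : ℝ) : ℂ) * (r1 : ℂ) + (om : ℂ) * (-(r1 : ℂ)) +
      (ε : ℂ) * (deriv S 0 * (r1 : ℂ))) 0 := by
    have hm : HasDerivAt (fun z : ℂ => (r1 : ℂ) * z) (r1 : ℂ) 0 := by
      simpa using (hasDerivAt_id (0 : ℂ)).const_mul (r1 : ℂ)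
    have hl1 : HasDerivAt (fun z : ℂ => Complex.log (1 + (r1 : ℂ) * z)) (r1 : ℂ) 0 := by
      have h1 := (hm.const_add 1).clog (by simp)
      simpa using h1
    have hl2 : HasDerivAt (fun z : ℂ => Complex.log (1 + -((r1 : ℂ) * z))) (-(r1 : ℂ)) 0 := by
      have h1 := (hm.neg.const_add 1).clog (by simp)
      simpa using h1
    have hl3 : HasDerivAt (fun z : ℂ => S ((r1 : ℂ) * z)) (deriv S 0 * (r1 : ℂ)) 0 := by
      have h1 : HasDerivAt S (deriv S 0) ((r1 : ℂ) * 0) := by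
        rw [mul_zero]; exact hS0.hasDerivAt
      exact h1.comp 0 hm
    exact ((hl1.const_mul _).add (hl2.const_mul _)).add (hl3.const_mul _)
  have hd : r1 * ξ ≤ (deriv ψ 0).re := by
    rw [hder.deriv]
    have h1 : (((1 - om : ℝ) : ℂ) * (r1 : ℂ) + (om : ℂ) * (-(r1 : ℂ)) +
      (ε : ℂ) * (deriv S 0 * (r1 : ℂ))).re = r1 * ((1 - 2 * om) + ε * (deriv S 0).re) := by
      simp only [Complex.add_re, Complex.mul_re, Complex.ofReal_re, Complex.ofReal_im, Complex.neg_re,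
        Complex.neg_im, Complex.mul_im]
      ring
    rw [h1]
    apply mul_le_mul_of_nonneg_left _ hr1p.le
    have h2 : -D ≤ (deriv S 0).re := by
      have := Complex.abs_re_le_norm (deriv S 0)
      exact (abs_le.mp this).1
    have h3 : -(ε * D) ≤ ε * (deriv S 0).re := by nlinarith
    linarith
  obtain ⟨r, hr, hre⟩ := ymix_exp (ψ := ψ) (M := M) (s0 := r1 * ξ) (by positivity) hdiff hconj hψ0
    hbd hd hn0 k hk
  -- compare
  set f : ℂ → ℂ := fun z : ℂ => (1 + z) ^ (n - w) * (1 - z) ^ w *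
          Complex.exp ((n : ℂ) * ((ε : ℂ) * S z)) with hf
  have hloc : (fun z => Complex.exp (((n : ℝ) : ℂ) * ψ z)) =ᶠ[nhds 0] fun z => f ((r1 : ℂ) * z) := by
    filter_upwards [ball_mem_nhds (0 : ℂ) (two_pos : (0 : ℝ) < 2)] with z hz
    rw [mem_ball_zero_iff] at hz
    have h1 : (1 : ℂ) + (r1 : ℂ) * z ≠ 0 := Complex.slitPlane_ne_zero (hsl _ (hsm2 z hz))
    have h2 : (1 : ℂ) + -((r1 : ℂ) * z) ≠ 0 :=
      Complex.slitPlane_ne_zero (hsl _ (by rw [norm_neg]; exact hsm2 z hz))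
    have e1 : (1 + (r1 : ℂ) * z) ^ (n - w) =
        Complex.exp (((n - w : ℕ) : ℂ) * Complex.log (1 + (r1 : ℂ) * z)) := by
      rw [Complex.exp_nat_mul, Complex.exp_log h1]
    have e2 : (1 - (r1 : ℂ) * z) ^ w =
        Complex.exp ((w : ℂ) * Complex.log (1 + -((r1 : ℂ) * z))) := by
      rw [Complex.exp_nat_mul, Complex.exp_log h2, sub_eq_add_neg]
    simp only [hf]
    rw [e1, e2, ← Complex.exp_add, ← Complex.exp_add, hnw, hwom]
    congr 1
    simp only [hψ]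
    push_cast
    ring
  have hiter := hloc.iteratedDeriv_eq k
  rw [ymix_iter_mul, hre] at hiter
  simp only [mul_zero] at hiter
  have hr1k : ((r1 : ℂ)) ^ k ≠ 0 := pow_ne_zero _ (by exact_mod_cast hr1p.ne')
  refine ⟨r / r1 ^ k, by positivity, ?_⟩
  have h3 : iteratedDeriv k f 0 = (k.factorial : ℂ) * (r : ℂ) / (r1 : ℂ) ^ k := by
    rw [eq_div_iff hr1k, hiter]
    ring
  rw [h3]
  push_cast
  ring


end Pool.Agent.Lib.MP_0430e4_lc.AC
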