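import Pool.Agent.Lib.MP_0430e4_lc.AC.Y2D

/-!
Y2 module T: the cut multiplier `TJ`. Proof: Cauchy's estimate `|tc j| R2^j ≤ exp (2 A ε n)` for
`R2 < R`, Taylor series of `exp (n ε (S u - S 1))` on the ball of radius `R`.
-/

set_option autoImplicit false

open Finset Polynomial

namespace Pool.Agent.Lib.MP_0430e4_lc.AC

open LPLOW Lower BY

section
variable {ψ th x2 r0 A0 R A c : ℝ} {S : ℂ → ℂ}

theorem TJ_deg (S : ℂ → ℂ) (ε : ℝ) (n J : ℕ) : (TJ S ε n J).natDegree ≤ J := by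
  unfold TJ
  refine natDegree_sum_le_of_forall_le _ _ (fun j hj => ?_)
  refine (natDegree_monomial_le _).trans ?_
  have := Finset.mem_range.1 hj
  omega

private theorem S0 (h : Mul ψ th x2 r0 A0 S R A c) : S 0 = 0 := by
  have h1 := h.odd 0
  rw [neg_zero] at h1
  have h2 : S 0 + S 0 = 0 := by
    nth_rewrite 1 [h1]
    ring
  have h3 : (2 : ℂ) * S 0 = 0 := by rw [two_mul]; exact h2
  rcases mul_eq_zero.1 h3 with h4 | h4
  · norm_num at h4
  · exact h4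

private theorem S1 (h : Mul ψ th x2 r0 A0 S R A c) : ((S 1).re : ℂ) = S 1 := by
  have h1 := h.conj 1
  rw [map_one] at h1
  exact Complex.conj_eq_iff_re.1 h1.symm

theorem TJ_zero (h : Mul ψ th x2 r0 A0 S R A c) (ε : ℝ) (n J : ℕ) :
    (TJ S ε n J).eval 0 = Real.exp (-(n * (ε * (S 1).re))) := by
  have h0 : (TJ S ε n J).eval 0 = tc S ε n 0 := by
    rw [← coeff_zero_eq_eval_zero]
    unfold TJ
    rw [finsetSum_coeff, Finset.sum_eq_single 0]
    · simp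
    · intro b _ hb
      rw [coeff_monomial, if_neg hb]
    · intro hb
      exact absurd (Finset.mem_range.2 (Nat.succ_pos J)) hb
  rw [h0]
  unfold tc
  rw [iteratedDeriv_zero, S0 h, ← S1 h]
  have e1 : (n : ℂ) * ((ε : ℂ) * (0 - (((S 1).re : ℝ) : ℂ))) =
      ((-(n * (ε * (S 1).re)) : ℝ) : ℂ) := by
    push_cast
    ring
  rw [e1, ← Complex.ofReal_exp, Complex.ofReal_re]
  simp

/-- the multiplier -/
private noncomputable def ff (S : ℂ → ℂ) (ε : ℝ) (n : ℕ) (u : ℂ) : ℂ :=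
  Complex.exp ((n : ℂ) * ((ε : ℂ) * (S u - S 1)))

private theorem ff_bd (h : Mul ψ th x2 r0 A0 S R A c) {ε : ℝ} (hε : 0 ≤ ε) (n : ℕ) {u : ℂ}
    (hu : ‖u‖ < R) : ‖ff S ε n u‖ ≤ Real.exp (n * (2 * A * ε)) := by
  unfold ff
  rw [Complex.norm_exp]
  have e1 : ((n : ℂ) * ((ε : ℂ) * (S u - S 1))).re = n * (ε * ((S u).re - (S 1).re)) := by
    have : (n : ℂ) * ((ε : ℂ) * (S u - S 1)) = (((n : ℝ) * ε : ℝ) : ℂ) * (S u - S 1) := by
      push_cast
      ring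
    rw [this, Complex.re_ofReal_mul, Complex.sub_re]
    ring
  rw [e1]
  apply Real.exp_le_exp.2
  have h2 : (S u).re ≤ A := (Complex.re_le_norm _).trans (h.bd u hu)
  have h3 : 0 < (S 1).re := h.pos1
  have h4 : 0 < A := h.hA
  have h5 : ε * ((S u).re - (S 1).re) ≤ 2 * A * ε := by nlinarith
  exact mul_le_mul_of_nonneg_left h5 (Nat.cast_nonneg n)

private theorem ff_diff (h : Mul ψ th x2 r0 A0 S R A c) (ε : ℝ) (n : ℕ) :
    DifferentiableOn ℂ (ff S ε n) (Metric.ball 0 R) := by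
  unfold ff
  have hd := h.diff
  exact ((((hd.sub_const (S 1)).const_mul (ε : ℂ)).const_mul (n : ℂ))).cexp

private theorem tc_eq (S : ℂ → ℂ) (ε : ℝ) (n j : ℕ) :
    tc S ε n j = (iteratedDeriv j (ff S ε n) 0).re / j.factorial := rfl

private theorem tc_bd (h : Mul ψ th x2 r0 A0 S R A c) {R2 : ℝ} (h2 : 0 < R2) (h3 : R2 < R)
    {ε : ℝ} (hε : 0 ≤ ε) (n j : ℕ) : |tc S ε n j| ≤ Real.exp (n * (2 * A * ε)) / R2 ^ j := by
  have hcl : DiffContOnCl ℂ (ff S ε n) (Metric.ball 0 R2) :=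
    (ff_diff h ε n).diffContOnCl_ball (Metric.closedBall_subset_ball h3)
  have hC : ∀ z ∈ Metric.sphere (0 : ℂ) R2, ‖ff S ε n z‖ ≤ Real.exp (n * (2 * A * ε)) := by
    intro z hz
    apply ff_bd h hε
    rw [mem_sphere_zero_iff_norm.1 hz]
    exact h3
  have hk := Complex.norm_iteratedDeriv_le_of_forall_mem_sphere_norm_le j h2 hcl hC
  rw [tc_eq, abs_div, Nat.abs_cast]
  have hf : (0 : ℝ) < j.factorial := by exact_mod_cast j.factorial_pos
  rw [div_le_iff₀ hf]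
  calc |(iteratedDeriv j (ff S ε n) 0).re| ≤ ‖iteratedDeriv j (ff S ε n) 0‖ :=
        Complex.abs_re_le_norm _
    _ ≤ _ := hk
    _ = _ := by ring

private theorem tc_real (h : Mul ψ th x2 r0 A0 S R A c) (ε : ℝ) (n j : ℕ) :
    (((iteratedDeriv j (ff S ε n) 0).re : ℝ) : ℂ) = iteratedDeriv j (ff S ε n) 0 := by
  have hcf : (starRingEnd ℂ) ∘ (ff S ε n) ∘ (starRingEnd ℂ) = ff S ε n := by
    funext u
    simp only [Function.comp_apply, ff]
    rw [← Complex.exp_conj, map_mul, map_mul, map_sub, h.conj u, Complex.conj_conj,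
      Complex.conj_natCast, Complex.conj_ofReal]
    rw [← S1 h, Complex.conj_ofReal]
  have key : ∀ k : ℕ, (starRingEnd ℂ) ∘ (iteratedDeriv k (ff S ε n)) ∘ (starRingEnd ℂ) =
      iteratedDeriv k (ff S ε n) := by
    intro k
    induction k with
    | zero => rw [iteratedDeriv_zero]; exact hcf
    | succ k ih =>
      rw [iteratedDeriv_succ, ← deriv_conj_conj, ih]
  have hk := congrFun (key j) 0
  simp only [Function.comp_apply, map_zero] at hk
  exact Complex.conj_eq_iff_re.1 hk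

private theorem ff_sum (h : Mul ψ th x2 r0 A0 S R A c) (ε : ℝ) (n : ℕ) {u : ℂ} (hu : ‖u‖ < R) :
    HasSum (fun j : ℕ => ((tc S ε n j : ℝ) : ℂ) * u ^ j) (ff S ε n u) := by
  have hz : u ∈ Metric.ball (0 : ℂ) R := by rwa [mem_ball_zero_iff]
  have hs := Complex.hasSum_taylorSeries_on_ball (ff_diff h ε n) hz
  have he : (fun j : ℕ => ((tc S ε n j : ℝ) : ℂ) * u ^ j) = fun j : ℕ =>
      (j.factorial : ℂ)⁻¹ • (u - 0) ^ j • iteratedDeriv j (ff S ε n) 0 := by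
    funext j
    rw [tc_eq, Complex.ofReal_div, tc_real h, Complex.ofReal_natCast, sub_zero, smul_eq_mul,
      smul_eq_mul, div_eq_mul_inv]
    ring
  rw [he]
  exact hs

private theorem TJ_aeval (S : ℂ → ℂ) (ε : ℝ) (n J : ℕ) (u : ℂ) :
    (TJ S ε n J).aeval u = ∑ j ∈ range (J + 1), ((tc S ε n j : ℝ) : ℂ) * u ^ j := by
  unfold TJ
  rw [map_sum]
  refine Finset.sum_congr rfl (fun j _ => ?_)
  rw [aeval_monomial]
  rfl

/-- crude bound, everywhere -/
theorem TJ_crude (h : Mul ψ th x2 r0 A0 S R A c) : ∃ B : ℝ, 1 ≤ B ∧ ∀ ε : ℝ, 0 ≤ ε → ∀ (n J : ℕ) (u : ℂ),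
    ‖(TJ S ε n J).aeval u‖ ≤ B * Real.exp (n * (2 * A * ε)) * max 1 ‖u‖ ^ J := by
  have hR := h.hR
  set R2 : ℝ := (1 + R) / 2 with hR2
  have h12 : 1 < R2 := by rw [hR2]; linarith
  have h2R : R2 < R := by rw [hR2]; linarith
  have h02 : 0 < R2 := by linarith
  have hinv : R2⁻¹ < 1 := inv_lt_one_of_one_lt₀ h12
  have hinv0 : 0 ≤ R2⁻¹ := by positivity
  refine ⟨(1 - R2⁻¹)⁻¹, ?_, ?_⟩
  · apply one_le_inv₀ (by linarith) |>.2
    linarith
  · intro ε hε n J u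
    rw [TJ_aeval]
    have hm1 : (1 : ℝ) ≤ max 1 ‖u‖ := le_max_left _ _
    have hm2 : ‖u‖ ≤ max 1 ‖u‖ := le_max_right _ _
    calc ‖∑ j ∈ range (J + 1), ((tc S ε n j : ℝ) : ℂ) * u ^ j‖
        ≤ ∑ j ∈ range (J + 1), ‖((tc S ε n j : ℝ) : ℂ) * u ^ j‖ := norm_sum_le _ _
      _ ≤ ∑ j ∈ range (J + 1), Real.exp (n * (2 * A * ε)) * max 1 ‖u‖ ^ J * R2⁻¹ ^ j := by
          refine Finset.sum_le_sum (fun j hj => ?_)
          have hjJ : j ≤ J := by have := Finset.mem_range.1 hj; omega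
          rw [norm_mul, norm_pow, Complex.norm_real, Real.norm_eq_abs]
          have h5 := tc_bd h h02 h2R hε n j
          have h6 : ‖u‖ ^ j ≤ max 1 ‖u‖ ^ J :=
            (pow_le_pow_left₀ (norm_nonneg u) hm2 j).trans (pow_le_pow_right₀ hm1 hjJ)
          calc |tc S ε n j| * ‖u‖ ^ j ≤ (Real.exp (n * (2 * A * ε)) / R2 ^ j) * max 1 ‖u‖ ^ J :=
                mul_le_mul h5 h6 (by positivity) (by positivity)
            _ = _ := by rw [inv_pow]; ring
      _ = Real.exp (n * (2 * A * ε)) * max 1 ‖u‖ ^ J * ∑ j ∈ range (J + 1), R2⁻¹ ^ j := by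
          rw [Finset.mul_sum]
      _ ≤ Real.exp (n * (2 * A * ε)) * max 1 ‖u‖ ^ J * (1 - R2⁻¹)⁻¹ := by
          apply mul_le_mul_of_nonneg_left _ (by positivity)
          rw [← tsum_geometric_of_lt_one hinv0 hinv]
          exact (summable_geometric_of_lt_one hinv0 hinv).sum_le_tsum _
            (fun i _ => by positivity)
      _ = _ := by ring

/-- the cut multiplier and the multiplier on the disc of radius `R1 < R` -/
theorem TJ_close (h : Mul ψ th x2 r0 A0 S R A c) {R1 η' : ℝ} (h1 : 1 ≤ R1) (hR1 : R1 < R)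
    (hη : 0 < η') : ∃ ct ε0 : ℝ, 0 < ct ∧ 0 < ε0 ∧ ∀ ε : ℝ, 0 ≤ ε → ε ≤ ε0 → ∃ n1 : ℕ, ∀ n ≥ n1,
    ∀ u : ℂ, ‖u‖ ≤ R1 →
      ‖(TJ S ε n ⌊η' * n⌋₊).aeval u - Complex.exp ((n : ℂ) * ((ε : ℂ) * (S u - S 1)))‖ ≤
        ‖u‖ ^ ⌊η' * n⌋₊ * Real.exp (-(ct * n)) := by
  have hA := h.hA
  obtain ⟨R2, h12, h2R⟩ := exists_between hR1
  have h02 : 0 < R2 := by linarith
  have h2 : 1 < R2 := by linarith
  set L : ℝ := Real.log R2 with hL
  have hL0 : 0 < L := Real.log_pos h2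
  set ρ : ℝ := R1 / R2 with hρ
  have hρ1 : ρ < 1 := by rw [hρ, div_lt_one h02]; exact h12
  have hρ0 : 0 < ρ := by rw [hρ]; exact div_pos (by linarith) h02
  set C : ℝ := R2 * (ρ / (1 - ρ)) with hC
  have hC0 : 0 < C := mul_pos h02 (div_pos hρ0 (by linarith))
  refine ⟨η' * L / 4, η' * L / (8 * A), by positivity, by positivity, fun ε hε hε0 => ?_⟩
  refine ⟨⌈2 * C / (η' * L)⌉₊, fun n hn u hu => ?_⟩
  have huR : ‖u‖ < R := by linarith
  set J : ℕ := ⌊η' * n⌋₊ with hJ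
  have hsum := ff_sum h ε n huR
  have htail := (hasSum_nat_add_iff' (J + 1)).2 hsum
  have hnorm : ∀ j : ℕ, ‖((tc S ε n (j + (J + 1)) : ℝ) : ℂ) * u ^ (j + (J + 1))‖ ≤
      (Real.exp (n * (2 * A * ε)) * (‖u‖ ^ J * R2⁻¹ ^ J) * ρ) * ρ ^ j := by
    intro j
    rw [norm_mul, norm_pow, Complex.norm_real, Real.norm_eq_abs]
    have h5 := tc_bd h h02 h2R hε n (j + (J + 1))
    have h6 : ‖u‖ * R2⁻¹ ≤ ρ := by
      rw [hρ, div_eq_mul_inv]
      exact mul_le_mul_of_nonneg_right hu (by positivity)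
    calc |tc S ε n (j + (J + 1))| * ‖u‖ ^ (j + (J + 1))
        ≤ (Real.exp (n * (2 * A * ε)) / R2 ^ (j + (J + 1))) * ‖u‖ ^ (j + (J + 1)) :=
          mul_le_mul_of_nonneg_right h5 (by positivity)
      _ = Real.exp (n * (2 * A * ε)) * (‖u‖ ^ J * R2⁻¹ ^ J) * (‖u‖ * R2⁻¹) ^ (j + 1) := by
          rw [mul_pow, inv_pow, inv_pow]
          field_simp
          ring
      _ ≤ Real.exp (n * (2 * A * ε)) * (‖u‖ ^ J * R2⁻¹ ^ J) * ρ ^ (j + 1) := by
          apply mul_le_mul_of_nonneg_left _ (by positivity)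
          exact pow_le_pow_left₀ (by positivity) h6 _
      _ = _ := by ring
  have hgeo : HasSum (fun j : ℕ => (Real.exp (n * (2 * A * ε)) * (‖u‖ ^ J * R2⁻¹ ^ J) * ρ) * ρ ^ j)
      ((Real.exp (n * (2 * A * ε)) * (‖u‖ ^ J * R2⁻¹ ^ J) * ρ) * (1 - ρ)⁻¹) :=
    (hasSum_geometric_of_lt_one hρ0.le hρ1).mul_left _
  have hb := htail.norm_le_of_bounded hgeo hnorm
  have hrw : ‖(TJ S ε n J).aeval u - Complex.exp ((n : ℂ) * ((ε : ℂ) * (S u - S 1)))‖ =
      ‖ff S ε n u - ∑ i ∈ range (J + 1), ((tc S ε n i : ℝ) : ℂ) * u ^ i‖ := by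
    rw [TJ_aeval, norm_sub_rev]
    rfl
  rw [hrw]
  refine hb.trans ?_
  -- numeric part
  have hn0 : (0 : ℝ) ≤ n := Nat.cast_nonneg n
  have hJn : η' * n < J + 1 := Nat.lt_floor_add_one _
  have hpw : R2⁻¹ ^ J ≤ R2 * Real.exp (-(η' * n * L)) := by
    rw [inv_pow, ← Real.rpow_natCast, ← Real.rpow_neg h02.le, Real.rpow_def_of_pos h02]
    have : R2 = Real.exp L := (Real.exp_log h02).symm
    nth_rewrite 2 [this]
    rw [← Real.exp_add]
    apply Real.exp_le_exp.2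
    rw [← hL]
    nlinarith
  have hCn : C ≤ Real.exp (η' * L / 2 * n) := by
    have h7 : 2 * C / (η' * L) ≤ n := (Nat.le_ceil _).trans (by exact_mod_cast hn)
    rw [div_le_iff₀ (by positivity)] at h7
    have h8 := Real.add_one_le_exp (η' * L / 2 * n)
    linarith
  have hex : Real.exp (n * (2 * A * ε)) ≤ Real.exp (η' * L / 4 * n) := by
    apply Real.exp_le_exp.2
    have : 2 * A * ε ≤ η' * L / 4 := by
      rw [le_div_iff₀ (by positivity)] at hε0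
      linarith
    nlinarith
  calc Real.exp (n * (2 * A * ε)) * (‖u‖ ^ J * R2⁻¹ ^ J) * ρ * (1 - ρ)⁻¹
      = ‖u‖ ^ J * (Real.exp (n * (2 * A * ε)) * R2⁻¹ ^ J * (ρ / (1 - ρ))) := by ring
    _ ≤ ‖u‖ ^ J * (Real.exp (η' * L / 4 * n) * (R2 * Real.exp (-(η' * n * L))) * (ρ / (1 - ρ))) := by
        apply mul_le_mul_of_nonneg_left _ (by positivity)
        apply mul_le_mul_of_nonneg_right _ (div_nonneg hρ0.le (by linarith))
        exact mul_le_mul hex hpw (by positivity) (by positivity)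
    _ = ‖u‖ ^ J * (C * (Real.exp (η' * L / 4 * n) * Real.exp (-(η' * n * L)))) := by
        rw [hC]; ring
    _ ≤ ‖u‖ ^ J * (Real.exp (η' * L / 2 * n) *
          (Real.exp (η' * L / 4 * n) * Real.exp (-(η' * n * L)))) := by
        apply mul_le_mul_of_nonneg_left _ (by positivity)
        exact mul_le_mul_of_nonneg_right hCn (by positivity)
    _ = ‖u‖ ^ J * Real.exp (-(η' * L / 4 * n)) := by
        rw [← Real.exp_add, ← Real.exp_add]
        ring_nf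

end

end Pool.Agent.Lib.MP_0430e4_lc.AC
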