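import Pool.Agent.Lib.MP_0430e4_lc.AC.Y2P
import Pool.Agent.Lib.MP_0430e4_lc.AC.Y2T
import Pool.Agent.Lib.MP_0430e4_lc.AC.Y2Mix
import Pool.Agent.Lib.MP_0430e4_lc.AC.Y2K0
import Pool.Agent.Lib.MP_0430e4_lc.AC.HBS

/-!
Y2 module K1: low `k`: positive up to an exponentially small tail. `cK_lower` with
`P = q^(n/n0)`, `TT = TJ`, `E z = exp (n ε (S (zu z) - S 1))`; `mix_unif` for the main part. The tail on
`‖z‖ = x ≤ r0/2`: right half: `q_right`, `F5_le`, `GapOK` and `TJ_close` (`‖u‖ ≤ 1`); left half: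
`P_left`, for `‖zu z‖ ≤ R1` `TJ_close`, else `TJ_crude` and `Mul.zbd` with `ε` small against the gap.
`x ≥ r0/2`: `κp ≤ gII t (r0/2)` and `Pot.ge_log`.
-/

set_option autoImplicit false

open Finset Polynomial

namespace Pool.Agent.Lib.MP_0430e4_lc.AC

open LPLOW Lower BY

private theorem k1_coeff_pow {q : ℝ[X]} (hq : ∀ j, 0 ≤ q.coeff j) (m : ℕ) :
    ∀ j, 0 ≤ (q ^ m).coeff j := by
  induction m with
  | zero =>
    intro j
    rw [pow_zero, Polynomial.coeff_one]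
    split_ifs <;> norm_num
  | succ m ih =>
    intro j
    rw [pow_succ, Polynomial.coeff_mul]
    exact Finset.sum_nonneg fun p _ => mul_nonneg (ih _) (hq _)

private theorem k1_deg {ξ : ℝ} (hξ : ξ ≤ 1 / 2) {q : ℝ[X]} {n0 : ℕ} (hq : q.natDegree ≤ Kx ξ n0)
    (n : ℕ) : ((q ^ (n / n0)).natDegree : ℝ) ≤ (1 / 2 - ξ) * n := by
  have h1 : (q ^ (n / n0)).natDegree ≤ (n / n0) * Kx ξ n0 :=
    Polynomial.natDegree_pow_le.trans (Nat.mul_le_mul_left _ hq)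
  have h2 : (Kx ξ n0 : ℝ) ≤ (1 / 2 - ξ) * n0 := by
    unfold Kx
    exact Nat.floor_le (mul_nonneg (by linarith) (Nat.cast_nonneg _))
  have h3 : ((n / n0 : ℕ) : ℝ) * n0 ≤ n := by exact_mod_cast Nat.div_mul_le_self n n0
  have h4 : ((q ^ (n / n0)).natDegree : ℝ) ≤ ((n / n0 : ℕ) : ℝ) * (Kx ξ n0 : ℝ) := by
    exact_mod_cast h1
  calc ((q ^ (n / n0)).natDegree : ℝ) ≤ ((n / n0 : ℕ) : ℝ) * (Kx ξ n0 : ℝ) := h4
    _ ≤ ((n / n0 : ℕ) : ℝ) * ((1 / 2 - ξ) * n0) :=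
        mul_le_mul_of_nonneg_left h2 (Nat.cast_nonneg _)
    _ = (1 / 2 - ξ) * (((n / n0 : ℕ) : ℝ) * n0) := by ring
    _ ≤ (1 / 2 - ξ) * n := mul_le_mul_of_nonneg_left h3 (by linarith)

private theorem k1_right {t ξ : ℝ} (ht : 0 < t) (hξ : 0 < ξ) (hξ1 : ξ ≤ 1 / 8) (hG : GapOK t ξ)
    {n0 : ℕ} {A1 e κq : ℝ} {q : ℝ[X]} (hA1 : 1 ≤ A1) (h : QB t n0 (Kx ξ n0) A1 e κq q) (he : e ≤ 0)
    (hn0 : 1 ≤ n0) (hn : 1 ≤ ξ * n0) {z : ℂ} (hz : 0 ≤ z.re) (h0 : 0 < ‖z‖) (h1 : ‖z‖ < 1)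
    (n : ℕ) : ‖1 + z‖ ^ n * ‖q.aeval (zu z)‖ ^ (n / n0) ≤
      (2 : ℝ) ^ n0 * Real.exp (n0 * |UII t ‖z‖|) *
        Real.exp (n * (UII t ‖z‖ + Real.log (2 * A1) / n0)) := by
  obtain ⟨s, hs, -, hzS, hb, -⟩ := q_right ht h hξ (by linarith) hn hz h0 h1
  have hU := F5_le ht hs (by rw [hzS]; exact h0) (by rw [hzS]; exact h1)
  rw [hzS] at hU
  have hsre : 0 ≤ s.re := (YG.mem_Rc.1 hs).1.1
  have hg := hG ‖z‖ h0 h1
  have hξz : 0 < ξ * ‖z‖ := mul_pos hξ h0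
  have h2 : ‖1 + z‖ ≤ 2 := by
    have := norm_add_le (1 : ℂ) z
    rw [norm_one] at this
    linarith
  apply pow_pad (norm_nonneg _) h2 (norm_nonneg _) hn0 (by linarith)
  refine hb.trans ?_
  have e1 : (n0 : ℝ) * (PhS (t / 2) (Exact.cval t) s + e / (t / 2) * s.re) ≤ n0 * UII t ‖z‖ := by
    apply mul_le_mul_of_nonneg_left _ (Nat.cast_nonneg _)
    have : e / (t / 2) * s.re ≤ 0 :=
      mul_nonpos_of_nonpos_of_nonneg (div_nonpos_of_nonpos_of_nonneg he (by linarith)) hsre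
    linarith
  have e2 : (n0 : ℝ) * (Real.log (1 + ‖z‖ ^ 2) / 2 + 4 * ξ * ‖z‖) ≤ n0 * UII t ‖z‖ := by
    apply mul_le_mul_of_nonneg_left _ (Nat.cast_nonneg _)
    linarith
  have f1 := Real.exp_le_exp.2 e1
  have f2 := Real.exp_le_exp.2 e2
  have hA0 : 0 ≤ A1 := by linarith
  calc A1 * (Real.exp (n0 * (PhS (t / 2) (Exact.cval t) s + e / (t / 2) * s.re)) +
          Real.exp (n0 * (Real.log (1 + ‖z‖ ^ 2) / 2 + 4 * ξ * ‖z‖)))
      ≤ A1 * (Real.exp (n0 * UII t ‖z‖) + Real.exp (n0 * UII t ‖z‖)) :=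
        mul_le_mul_of_nonneg_left (add_le_add f1 f2) hA0
    _ = 2 * A1 * Real.exp (n0 * UII t ‖z‖) := by ring

private theorem k1_zu_conj (z : ℂ) : zu (starRingEnd ℂ z) = starRingEnd ℂ (zu z) := by
  unfold zu
  rw [map_div₀, map_sub, map_add, map_one]

private theorem k1_zu_zero : zu 0 = 1 := by
  unfold zu
  simp

/-- the three zones of the small disc -/
private theorem k1_point {t ξ : ℝ} (ht : 0 < t) (hξ : 0 < ξ) (hξ1 : ξ ≤ 1 / 8) (hG : GapOK t ξ)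
    {ψ th x2 r0 A0 R A c : ℝ} {S : ℂ → ℂ} (hM : Mul ψ th x2 r0 A0 S R A c) {η' : ℝ} (hη : 0 < η')
    (hηξ : η' ≤ ξ) {R1 x1 ct B ε A1 e κq : ℝ} (hR1 : 1 < R1) (hx1 : x1 = (R1 - 1) / (R1 + 1))
    (hct : 0 < ct) (hB : 1 ≤ B) (hε : 0 < ε) (hεx : ε * (2 * A + A0) ≤ 4 * ξ * x1) (hA1 : 1 ≤ A1)
    {n0 n : ℕ} {q : ℝ[X]} (hq : QB t n0 (Kx ξ n0) A1 e κq q) (he : e ≤ 0) (hn0 : 1 ≤ n0)
    (hn : 1 ≤ ξ * n0) (hnA : Real.log (2 * A1) / n0 ≤ ct / 4) {M : ℝ}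
    (hn1 : n0 * (Real.log 2 + M) ≤ n * (ct / 2)) (hn2 : Real.log (B + 1) ≤ n * (2 * ξ * x1))
    (hclose : ∀ u : ℂ, ‖u‖ ≤ R1 →
      ‖(TJ S ε n ⌊η' * n⌋₊).aeval u - Complex.exp ((n : ℂ) * ((ε : ℂ) * (S u - S 1)))‖ ≤
        ‖u‖ ^ ⌊η' * n⌋₊ * Real.exp (-(ct * n)))
    (hcrude : ∀ (u : ℂ), ‖(TJ S ε n ⌊η' * n⌋₊).aeval u‖ ≤
      B * Real.exp (n * (2 * A * ε)) * max 1 ‖u‖ ^ ⌊η' * n⌋₊)
    {z : ℂ} (h0 : 0 < ‖z‖) (h1 : ‖z‖ < 1) (hzr : ‖z‖ < r0) (hUM : UII t ‖z‖ ≤ M) :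
    ‖(1 + z) ^ n * ((q ^ (n / n0)).aeval (zu z) * ((TJ S ε n ⌊η' * n⌋₊).aeval (zu z) -
      Complex.exp ((n : ℂ) * ((ε : ℂ) * (S (zu z) - S 1)))))‖ ≤
      Real.exp (n * (UII t ‖z‖ - min (ct / 4) (2 * ξ * x1))) := by
  have hg := hG ‖z‖ h0 h1
  have hlog : 0 ≤ Real.log (1 + ‖z‖ ^ 2) := Real.log_nonneg (by linarith [sq_nonneg ‖z‖])
  have hξz : 0 < ξ * ‖z‖ := mul_pos hξ h0
  have hU0 : 0 ≤ UII t ‖z‖ := by linarith
  have hnn : (0 : ℝ) ≤ n := Nat.cast_nonneg _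
  have hx1p : 0 < x1 := by rw [hx1]; exact div_pos (by linarith) (by linarith)
  have hm1 := min_le_left (ct / 4) (2 * ξ * x1)
  have hm2 := min_le_right (ct / 4) (2 * ξ * x1)
  obtain ⟨J, hJ⟩ : ∃ J : ℕ, J = ⌊η' * n⌋₊ := ⟨_, rfl⟩
  rw [← hJ] at hclose hcrude ⊢
  obtain ⟨u, hu⟩ : ∃ u : ℂ, u = zu z := ⟨_, rfl⟩
  obtain ⟨D, hD⟩ : ∃ D : ℂ, D = (TJ S ε n J).aeval (zu z) -
      Complex.exp ((n : ℂ) * ((ε : ℂ) * (S (zu z) - S 1))) := ⟨_, rfl⟩
  rw [← hD]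
  have hnorm : ‖(1 + z) ^ n * ((q ^ (n / n0)).aeval (zu z) * D)‖ =
      ‖1 + z‖ ^ n * ‖q.aeval (zu z)‖ ^ (n / n0) * ‖D‖ := by
    rw [norm_mul, norm_mul, norm_pow, map_pow, norm_pow, mul_assoc]
  rw [hnorm]
  have hpre : 0 ≤ ‖1 + z‖ ^ n * ‖q.aeval (zu z)‖ ^ (n / n0) := by positivity
  rcases le_total 0 z.re with hre | hre
  · -- right half plane
    have hu1 : ‖zu z‖ ≤ 1 := zu_norm_le hre
    have hDb : ‖D‖ ≤ Real.exp (-(ct * n)) := by
      rw [hD]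
      refine (hclose (zu z) (hu1.trans hR1.le)).trans ?_
      have : ‖zu z‖ ^ J ≤ 1 := pow_le_one₀ (norm_nonneg _) hu1
      calc ‖zu z‖ ^ J * Real.exp (-(ct * n)) ≤ 1 * Real.exp (-(ct * n)) :=
            mul_le_mul_of_nonneg_right this (Real.exp_pos _).le
        _ = _ := one_mul _
    have hr := k1_right ht hξ hξ1 hG hA1 hq he hn0 hn hre h0 h1 n
    rw [abs_of_nonneg hU0] at hr
    have h2 : (2 : ℝ) ^ n0 = Real.exp (n0 * Real.log 2) := by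
      rw [Real.exp_nat_mul, Real.exp_log (by norm_num)]
    rw [h2, ← Real.exp_add, ← Real.exp_add] at hr
    calc ‖1 + z‖ ^ n * ‖q.aeval (zu z)‖ ^ (n / n0) * ‖D‖
        ≤ Real.exp (n0 * Real.log 2 + n0 * UII t ‖z‖ +
            n * (UII t ‖z‖ + Real.log (2 * A1) / n0)) * Real.exp (-(ct * n)) :=
          mul_le_mul hr hDb (norm_nonneg _) (Real.exp_pos _).le
      _ = Real.exp (n0 * Real.log 2 + n0 * UII t ‖z‖ +
            n * (UII t ‖z‖ + Real.log (2 * A1) / n0) + -(ct * n)) := (Real.exp_add _ _).symm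
      _ ≤ _ := by
          apply Real.exp_le_exp.2
          have a1 : (n0 : ℝ) * UII t ‖z‖ ≤ n0 * M :=
            mul_le_mul_of_nonneg_left hUM (Nat.cast_nonneg _)
          have a2 : (n : ℝ) * (Real.log (2 * A1) / n0) ≤ n * (ct / 4) :=
            mul_le_mul_of_nonneg_left hnA hnn
          have a3 : (n : ℝ) * min (ct / 4) (2 * ξ * x1) ≤ n * (ct / 4) :=
            mul_le_mul_of_nonneg_left hm1 hnn
          linarith
  · -- left half plane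
    have hu1 : 1 ≤ ‖zu z‖ := zu_norm_ge hre h1
    obtain ⟨hP, -⟩ := P_left (n := n) hq hξ (by linarith) hn0 hη hηξ hre h1
    rw [← hJ] at hP
    rcases le_or_gt ‖zu z‖ R1 with hc | hc
    · have hDb := hclose (zu z) hc
      rw [← hD] at hDb
      calc ‖1 + z‖ ^ n * ‖q.aeval (zu z)‖ ^ (n / n0) * ‖D‖
          ≤ ‖1 + z‖ ^ n * ‖q.aeval (zu z)‖ ^ (n / n0) * (‖zu z‖ ^ J * Real.exp (-(ct * n))) :=
            mul_le_mul_of_nonneg_left hDb hpre
        _ = (‖1 + z‖ ^ n * ‖q.aeval (zu z)‖ ^ (n / n0) * ‖zu z‖ ^ J) * Real.exp (-(ct * n)) := by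
            ring
        _ ≤ Real.exp (n * (Real.log (1 + ‖z‖ ^ 2) / 2)) * Real.exp (-(ct * n)) :=
            mul_le_mul_of_nonneg_right hP (Real.exp_pos _).le
        _ = Real.exp (n * (Real.log (1 + ‖z‖ ^ 2) / 2) + -(ct * n)) := (Real.exp_add _ _).symm
        _ ≤ _ := by
            apply Real.exp_le_exp.2
            have a1 : (n : ℝ) * (Real.log (1 + ‖z‖ ^ 2) / 2) ≤ n * UII t ‖z‖ :=
              mul_le_mul_of_nonneg_left (by linarith) hnn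
            have a3 : (n : ℝ) * min (ct / 4) (2 * ξ * x1) ≤ n * (ct / 4) :=
              mul_le_mul_of_nonneg_left hm1 hnn
            have a4 : 0 ≤ (n : ℝ) * ct := mul_nonneg hnn hct.le
            linarith
    · have hxx : x1 ≤ ‖z‖ := by
        by_contra hcon
        rw [not_le] at hcon
        have hx11 : x1 < 1 := by
          rw [hx1, div_lt_one (by linarith)]
          linarith
        have h3 := zu_norm_le_of hcon.le hx11
        have h4 : (1 + x1) / (1 - x1) = R1 := by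
          rw [hx1]
          have : R1 + 1 ≠ 0 := by linarith
          field_simp
          ring
        rw [h4] at h3
        linarith
      have hT := hcrude (zu z)
      rw [max_eq_right hu1] at hT
      have hE : ‖Complex.exp ((n : ℂ) * ((ε : ℂ) * (S (zu z) - S 1)))‖ ≤
          Real.exp (n * (ε * A0)) := by
        rw [Complex.norm_exp]
        apply Real.exp_le_exp.2
        refine (Complex.re_le_norm _).trans ?_
        rw [norm_mul, norm_mul, Complex.norm_natCast, Complex.norm_real, Real.norm_of_nonneg hε.le]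
        apply mul_le_mul_of_nonneg_left _ hnn
        exact mul_le_mul_of_nonneg_left (hM.zbd z hzr) hε.le
      have hup : 1 ≤ ‖zu z‖ ^ J := one_le_pow₀ hu1
      have hA := hM.hA
      have hA0 : 0 ≤ A0 := (norm_nonneg _).trans (hM.zbd z hzr)
      have g1 : Real.exp (n * (2 * A * ε)) ≤ Real.exp (n * (4 * ξ * x1)) := by
        apply Real.exp_le_exp.2
        apply mul_le_mul_of_nonneg_left _ hnn
        linarith [mul_nonneg hε.le hA0]
      have g2 : Real.exp (n * (ε * A0)) ≤ Real.exp (n * (4 * ξ * x1)) := by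
        apply Real.exp_le_exp.2
        apply mul_le_mul_of_nonneg_left _ hnn
        linarith [mul_nonneg hε.le hA.le]
      have hDb : ‖D‖ ≤ ‖zu z‖ ^ J * ((B + 1) * Real.exp (n * (4 * ξ * x1))) := by
        rw [hD]
        refine (norm_sub_le _ _).trans ?_
        have h5 : B * Real.exp (n * (2 * A * ε)) ≤ B * Real.exp (n * (4 * ξ * x1)) :=
          mul_le_mul_of_nonneg_left g1 (by linarith)
        calc _ ≤ B * Real.exp (n * (2 * A * ε)) * ‖zu z‖ ^ J + Real.exp (n * (ε * A0)) :=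
              add_le_add hT hE
          _ ≤ B * Real.exp (n * (4 * ξ * x1)) * ‖zu z‖ ^ J +
                Real.exp (n * (4 * ξ * x1)) * ‖zu z‖ ^ J := by
              apply add_le_add
              · exact mul_le_mul_of_nonneg_right h5 (by positivity)
              · refine g2.trans ?_
                exact le_mul_of_one_le_right (Real.exp_pos _).le hup
          _ = _ := by ring
      have hBe : B + 1 ≤ Real.exp (n * (2 * ξ * x1)) := by
        rw [← Real.exp_log (show (0 : ℝ) < B + 1 by linarith)]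
        exact Real.exp_le_exp.2 hn2
      calc ‖1 + z‖ ^ n * ‖q.aeval (zu z)‖ ^ (n / n0) * ‖D‖
          ≤ ‖1 + z‖ ^ n * ‖q.aeval (zu z)‖ ^ (n / n0) *
              (‖zu z‖ ^ J * ((B + 1) * Real.exp (n * (4 * ξ * x1)))) :=
            mul_le_mul_of_nonneg_left hDb hpre
        _ = (‖1 + z‖ ^ n * ‖q.aeval (zu z)‖ ^ (n / n0) * ‖zu z‖ ^ J) *
              ((B + 1) * Real.exp (n * (4 * ξ * x1))) := by ring
        _ ≤ Real.exp (n * (Real.log (1 + ‖z‖ ^ 2) / 2)) *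
              (Real.exp (n * (2 * ξ * x1)) * Real.exp (n * (4 * ξ * x1))) := by
            apply mul_le_mul hP _ (by positivity) (Real.exp_pos _).le
            exact mul_le_mul_of_nonneg_right hBe (Real.exp_pos _).le
        _ = Real.exp (n * (Real.log (1 + ‖z‖ ^ 2) / 2) +
              (n * (2 * ξ * x1) + n * (4 * ξ * x1))) := by
            rw [Real.exp_add, Real.exp_add]
        _ ≤ _ := by
            apply Real.exp_le_exp.2
            have b1 : Real.log (1 + ‖z‖ ^ 2) / 2 + 8 * ξ * x1 ≤ UII t ‖z‖ := by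
              have : ξ * x1 ≤ ξ * ‖z‖ := mul_le_mul_of_nonneg_left hxx hξ.le
              linarith
            have a1 : (n : ℝ) * (Real.log (1 + ‖z‖ ^ 2) / 2 + 8 * ξ * x1) ≤ n * UII t ‖z‖ :=
              mul_le_mul_of_nonneg_left b1 hnn
            have a3 : (n : ℝ) * min (ct / 4) (2 * ξ * x1) ≤ n * (2 * ξ * x1) :=
              mul_le_mul_of_nonneg_left hm2 hnn
            linarith

theorem K1_bound {t : ℝ} (ht : 0 < t) {ξ r0 A0 : ℝ} (hξ : 0 < ξ) (hξ1 : ξ ≤ 1 / 8) (hr0 : 0 < r0)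
    (hr1 : r0 < 1) (hA0 : 0 < A0) (hG : GapOK t ξ) : ∃ κp : ℝ, 0 < κp ∧ κp ≤ 1 / 4 ∧
    ∀ (ψ th x2 R A c : ℝ) (S : ℂ → ℂ), Mul ψ th x2 r0 A0 S R A c → ∀ η' : ℝ, 0 < η' → η' ≤ ξ →
    ∃ ε0 : ℝ, 0 < ε0 ∧ ∀ ε : ℝ, 0 < ε → ε ≤ ε0 → ∃ κ : ℝ, 0 < κ ∧ ∀ A1 : ℝ, 1 ≤ A1 → ∃ N0 : ℕ,
    ∀ n0 ≥ N0, ∀ (q : ℝ[X]) (e κq : ℝ), QB t n0 (Kx ξ n0) A1 e κq q → e ≤ 0 → ∃ n1 : ℕ, ∀ n ≥ n1,
    ∀ k : ℕ, (k : ℝ) ≤ κp * n → ∃ a : ℝ, 0 ≤ a ∧ -a ≤ cK n (Gq q n0 S ε η' n) k ∧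
      ∀ x : ℝ, 0 < x → x < 1 → a * x ^ k ≤ Real.exp (n * (UII t x - κ)) := by
  obtain ⟨κm, hκm, hmix⟩ := mix_unif hr0 hr1 hA0 hξ
  have P := potII ht
  have hs0 := Exact.sII_pos ht
  have hs1 := Exact.sII_lt_one ht
  have hd0 : 0 < (1 - Exact.sII t) / 2 := by linarith
  have hd1 : (1 - Exact.sII t) / 2 < 1 / 2 := by linarith
  have hh0 : 0 < r0 / 2 := by linarith
  have hh1 : r0 / 2 < 1 := by linarith
  have hg0 : 0 < gII t (r0 / 2) := P.pos hd0 hd1 hh0 hh1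
  have hκp : 0 < min (min κm (gII t (r0 / 2))) (1 / 4) :=
    lt_min (lt_min hκm hg0) (by norm_num)
  refine ⟨min (min κm (gII t (r0 / 2))) (1 / 4), hκp, min_le_right _ _, ?_⟩
  intro ψ th x2 R A c S hM η' hη hηξ
  obtain ⟨R1, hR1d⟩ : ∃ R1 : ℝ, R1 = (1 + R) / 2 := ⟨_, rfl⟩
  have hR := hM.hR
  have hR1 : 1 < R1 := by rw [hR1d]; linarith
  have hR1R : R1 < R := by rw [hR1d]; linarith
  obtain ⟨ct, ε1, hct, hε1, hclose⟩ := TJ_close hM hR1.le hR1R hη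
  obtain ⟨B, hB, hcrude⟩ := TJ_crude hM
  obtain ⟨ε2, hε2, hmix2⟩ := hmix (fun z => S (zu z) - S 1) (hM.zdiff.sub_const _) (by
    intro z _
    have h1 : S 1 = starRingEnd ℂ (S 1) := by
      have := hM.conj 1
      rwa [map_one] at this
    simp only [map_sub]
    rw [k1_zu_conj, hM.conj, ← h1]) (by
    simp only [k1_zu_zero, sub_self]) hM.zbd
  obtain ⟨x1, hx1⟩ : ∃ x1 : ℝ, x1 = (R1 - 1) / (R1 + 1) := ⟨_, rfl⟩
  have hx1p : 0 < x1 := by rw [hx1]; exact div_pos (by linarith) (by linarith)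
  have hA := hM.hA
  have hAA : 0 < 2 * A + A0 := by linarith
  refine ⟨min (min ε1 ε2) (4 * ξ * x1 / (2 * A + A0)),
    lt_min (lt_min hε1 hε2) (by positivity), ?_⟩
  intro ε hε hεle
  have hεa : ε ≤ ε1 := hεle.trans ((min_le_left _ _).trans (min_le_left _ _))
  have hεb : ε ≤ ε2 := hεle.trans ((min_le_left _ _).trans (min_le_right _ _))
  have hεx : ε * (2 * A + A0) ≤ 4 * ξ * x1 := by
    have := hεle.trans (min_le_right _ _)
    rwa [le_div_iff₀ hAA] at this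
  refine ⟨min (ct / 4) (2 * ξ * x1), lt_min (by positivity) (by positivity), ?_⟩
  intro A1 hA1
  obtain ⟨nT, hT⟩ := hclose ε hε.le hεa
  refine ⟨⌈1 / ξ⌉₊ + ⌈4 * Real.log (2 * A1) / ct⌉₊ + 1, ?_⟩
  intro n0 hn0 q e κq hq he
  have hn01 : 1 ≤ n0 := by omega
  have hn0p : (0 : ℝ) < n0 := by exact_mod_cast hn01
  have hna : 1 ≤ ξ * n0 := by
    have h1 : 1 / ξ ≤ n0 := (Nat.le_ceil _).trans (by exact_mod_cast (by omega))
    rw [div_le_iff₀ hξ] at h1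
    linarith
  have hnA : Real.log (2 * A1) / n0 ≤ ct / 4 := by
    have h1 : 4 * Real.log (2 * A1) / ct ≤ n0 := (Nat.le_ceil _).trans (by exact_mod_cast (by omega))
    rw [div_le_iff₀ hct] at h1
    rw [div_le_iff₀ hn0p]
    linarith
  obtain ⟨M, hMd⟩ : ∃ M : ℝ, M = UII t (r0 / 2) := ⟨_, rfl⟩
  refine ⟨nT + ⌈2 * (n0 * (Real.log 2 + M)) / ct⌉₊ + ⌈Real.log (B + 1) / (2 * ξ * x1)⌉₊ + 1, ?_⟩
  intro n hn k hk
  have hnpos : 1 ≤ n := by omega
  have hnn : (0 : ℝ) ≤ n := Nat.cast_nonneg _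
  have hn1 : n0 * (Real.log 2 + M) ≤ n * (ct / 2) := by
    have h1 : 2 * (n0 * (Real.log 2 + M)) / ct ≤ n :=
      (Nat.le_ceil _).trans (by exact_mod_cast (by omega))
    rw [div_le_iff₀ hct] at h1
    linarith
  have hn2 : Real.log (B + 1) ≤ n * (2 * ξ * x1) := by
    have h1 : Real.log (B + 1) / (2 * ξ * x1) ≤ n :=
      (Nat.le_ceil _).trans (by exact_mod_cast (by omega))
    rwa [div_le_iff₀ (by positivity)] at h1
  have hkm : (k : ℝ) ≤ κm * n := hk.trans (mul_le_mul_of_nonneg_right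
    ((min_le_left _ _).trans (min_le_left _ _)) hnn)
  have hkg : (k : ℝ) ≤ gII t (r0 / 2) * n := hk.trans (mul_le_mul_of_nonneg_right
    ((min_le_left _ _).trans (min_le_right _ _)) hnn)
  have hdeg := k1_deg (show ξ ≤ 1 / 2 by linarith) hq.deg n
  have hPn : (q ^ (n / n0)).natDegree ≤ n := by
    have h1 : ((q ^ (n / n0)).natDegree : ℝ) ≤ n := by nlinarith
    exact_mod_cast h1
  have hJ : (⌊η' * n⌋₊ : ℝ) ≤ η' * n := Nat.floor_le (by positivity)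
  have hPT : (q ^ (n / n0) * TJ S ε n ⌊η' * n⌋₊).natDegree ≤ n := by
    refine Polynomial.natDegree_mul_le.trans ?_
    have h2 := TJ_deg S ε n ⌊η' * n⌋₊
    have h3 : ((TJ S ε n ⌊η' * n⌋₊).natDegree : ℝ) ≤ (⌊η' * n⌋₊ : ℝ) := by exact_mod_cast h2
    have h4 : ((q ^ (n / n0)).natDegree : ℝ) + ((TJ S ε n ⌊η' * n⌋₊).natDegree : ℝ) ≤ n := by
      have : η' * n ≤ ξ * n := mul_le_mul_of_nonneg_right hηξ hnn
      linarith
    exact_mod_cast h4
  obtain ⟨a, ha0, hak, hax⟩ := cK_lower (n := n) (P := q ^ (n / n0))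
    (TT := TJ S ε n ⌊η' * n⌋₊) (k1_coeff_pow hq.nonneg _) hPn hPT hr0 hr1
    (E := fun z => Complex.exp ((n : ℂ) * ((ε : ℂ) * (S (zu z) - S 1))))
    ((((hM.zdiff.sub_const (S 1)).const_mul (ε : ℂ)).const_mul (n : ℂ)).cexp) (k := k) (by
      intro w hw
      have hw' : (w : ℝ) ≤ (1 / 2 - ξ) * n := le_trans (by exact_mod_cast hw) hdeg
      obtain ⟨b, hb, hbe⟩ := hmix2 ε hε.le hεb n w k hnpos hw' hkm
      exact ⟨b, hb.le, hbe⟩)
  refine ⟨a, ha0, hak, ?_⟩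
  have hsmall : ∀ x : ℝ, 0 < x → x ≤ r0 / 2 →
      a * x ^ k ≤ Real.exp (n * (UII t x - min (ct / 4) (2 * ξ * x1))) := by
    intro x hx0 hx
    apply hax x _ hx0 (by linarith)
    intro z hz
    have h0 : 0 < ‖z‖ := by rw [hz]; exact hx0
    have h1 : ‖z‖ < 1 := by rw [hz]; linarith
    have hzr : ‖z‖ < r0 := by rw [hz]; linarith
    have hUM : UII t ‖z‖ ≤ M := by
      rw [hMd, hz]
      have h2 := P.ge_log hd0 hx0 hx hh1
      have h3 := P.nonneg hd0 hx0 (lt_of_le_of_lt hx hh1)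
      have h4 : 0 ≤ Real.log (r0 / 2) - Real.log x := by
        have := Real.log_le_log hx0 hx
        linarith
      have h5 := mul_nonneg h3 h4
      linarith
    have := k1_point ht hξ hξ1 hG hM hη hηξ hR1 hx1 hct hB hε hεx hA1 hq he hn01 hna hnA hn1 hn2
      (hT n (by omega)) (hcrude ε hε.le n ⌊η' * n⌋₊) h0 h1 hzr hUM
    rw [hz] at this
    exact this
  intro x hx0 hx1'
  rcases le_total x (r0 / 2) with h | h
  · exact hsmall x hx0 h
  · have h1 := hsmall (r0 / 2) hh0 le_rfl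
    have h2 := P.ge_log hd0 hh0 h hx1'
    have h4 : 0 ≤ Real.log x - Real.log (r0 / 2) := by
      have := Real.log_le_log hh0 h
      linarith
    have h5 : (k : ℝ) * (Real.log x - Real.log (r0 / 2)) ≤ n * (UII t x - UII t (r0 / 2)) := by
      calc (k : ℝ) * (Real.log x - Real.log (r0 / 2))
          ≤ gII t (r0 / 2) * n * (Real.log x - Real.log (r0 / 2)) :=
            mul_le_mul_of_nonneg_right hkg h4
        _ = n * (gII t (r0 / 2) * (Real.log x - Real.log (r0 / 2))) := by ring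
        _ ≤ _ := mul_le_mul_of_nonneg_left h2 hnn
    have e1 : x ^ k = Real.exp (k * Real.log x) := by
      rw [Real.exp_nat_mul, Real.exp_log hx0]
    have e2 : (r0 / 2) ^ k = Real.exp (k * Real.log (r0 / 2)) := by
      rw [Real.exp_nat_mul, Real.exp_log hh0]
    have e3 : x ^ k = (r0 / 2) ^ k * Real.exp (k * (Real.log x - Real.log (r0 / 2))) := by
      rw [e1, e2, ← Real.exp_add]
      congr 1
      ring
    rw [e3, ← mul_assoc]
    calc a * (r0 / 2) ^ k * Real.exp (k * (Real.log x - Real.log (r0 / 2)))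
        ≤ Real.exp (n * (UII t (r0 / 2) - min (ct / 4) (2 * ξ * x1))) *
            Real.exp (n * (UII t x - UII t (r0 / 2))) :=
          mul_le_mul h1 (Real.exp_le_exp.2 h5) (Real.exp_pos _).le (Real.exp_pos _).le
      _ = Real.exp (n * (UII t x - min (ct / 4) (2 * ξ * x1))) := by
          rw [← Real.exp_add]
          congr 1
          ring

end Pool.Agent.Lib.MP_0430e4_lc.AC
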