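import Pool.Agent.Lib.MP_0430e4_lc.AC.Y2F
import Pool.Agent.Lib.MP_0430e4_lc.AC.Y2G
import Pool.Agent.Lib.MP_0430e4_lc.AC.Y2Geo
import Pool.Agent.Lib.MP_0430e4_lc.AC.YVk

/-!
Y2 module Key: the potential inequality on the right half disc, by compactness of `Rc (t/2)`.
Equality set of `PhS ≤ U`: the real axis and `‖z‖ = 1`; there
`D(s) = (1-ν) 2 S'(1) (O(0)/2) Re s + Re S(w) - S(1) < 0` (real axis: `Mul.D` and `vk_ge`;
`‖z‖ = 1`: `w` is imaginary, `Re S(w) = 0` as `S` is odd and real).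
-/

set_option autoImplicit false

open Finset Polynomial

namespace Pool.Agent.Lib.MP_0430e4_lc.AC

open LPLOW Lower BY

/-- `UII` with its value at `1` -/
private noncomputable def Uc (t : ℝ) : ℝ → ℝ :=
  Function.update (UII t) 1 (Real.log 2 - Exact.cval t)

/-- the linear term for `ν = 0` -/
private noncomputable def D0 (t : ℝ) (S : ℂ → ℂ) (s : ℂ) : ℝ :=
  (deriv S 1).re * Or (t / 2) 0 * s.re + ((S (wS (t / 2) s)).re - (S 1).re)

private theorem Uc_cont {t : ℝ} (ht : 0 < t) : ContinuousOn (Uc t) (Set.Ioc 0 1) := by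
  intro x hx
  unfold Uc
  rcases hx.2.lt_or_eq with h | h
  · apply ContinuousAt.continuousWithinAt
    rw [continuousAt_update_of_ne h.ne]
    exact YF.UII_contAt ht hx.1 h
  · rw [h, continuousWithinAt_update_same]
    apply (UII_one ht).mono_left
    apply nhdsWithin_mono
    intro y hy
    exact lt_of_le_of_ne hy.1.2 hy.2

private theorem wS_re {η : ℝ} (hη : 0 < η) {s : ℂ} (hs : s ∈ YG.Rc η) : 0 ≤ (wS η s).re :=
  YF.Z_re_nonneg' hη (y2f_mem hs)

private theorem wS_norm {η : ℝ} (hη : 0 < η) {s : ℂ} (hs : s ∈ YG.Rc η) : ‖wS η s‖ ≤ 1 :=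
  YF.Z_norm_le hη (y2f_mem hs)

private theorem wS_ne {η : ℝ} (hη : 0 < η) {s : ℂ} (hs : s ∈ YG.Rc η) : 1 + wS η s ≠ 0 :=
  YF.one_add_Z_ne' hη (y2f_mem hs)

private theorem wS_cont {η : ℝ} (hη : 0 < η) : ContinuousOn (wS η) (YG.Rc η) := by
  have h1 : ContinuousOn (fun s : ℂ => YG.Z η ((η : ℂ) - s)) (YG.Rc η) :=
    (YG.Z_contOn_Rc hη).comp (by fun_prop) (fun s hs => y2f_mem hs)
  exact h1

private theorem zS_cont {η : ℝ} (hη : 0 < η) : ContinuousOn (zS η) (YG.Rc η) := by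
  have h1 : ContinuousOn (fun s : ℂ => YF.zs η ((η : ℂ) - s)) (YG.Rc η) :=
    (YF.zs_contOn hη).comp (by fun_prop) (fun s hs => y2f_mem hs)
  exact h1

private theorem PhS_cont {η : ℝ} (hη : 0 < η) (c : ℝ) : ContinuousOn (PhS η c) (YG.Rc η) := by
  have h1 : ContinuousOn (fun s : ℂ => YF.Ur η c ((η : ℂ) - s)) (YG.Rc η) :=
    (YF.Ur_contOn hη c).comp (by fun_prop) (fun s hs => y2f_mem hs)
  exact h1.congr (fun s _ => y2f_PhS η c s)

private theorem zS_norm_le {η : ℝ} (hη : 0 < η) {s : ℂ} (hs : s ∈ YG.Rc η) : ‖zS η s‖ ≤ 1 := by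
  have hne := wS_ne hη hs
  have hre := wS_re hη hs
  unfold zS zu
  rw [norm_div, div_le_one (norm_pos_iff.2 hne), Complex.norm_eq_sqrt_sq_add_sq,
    Complex.norm_eq_sqrt_sq_add_sq]
  apply Real.sqrt_le_sqrt
  simp
  nlinarith

private theorem wS_re_zero {η : ℝ} (hη : 0 < η) {s : ℂ} (hs : s ∈ YG.Rc η) (h1 : ‖zS η s‖ = 1) :
    (wS η s).re = 0 := by
  have hne := wS_ne hη hs
  unfold zS zu at h1
  rw [norm_div, div_eq_one_iff_eq (norm_ne_zero_iff.2 hne)] at h1
  have h2 : ‖1 - wS η s‖ ^ 2 = ‖1 + wS η s‖ ^ 2 := by rw [h1]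
  rw [← Complex.normSq_eq_norm_sq, ← Complex.normSq_eq_norm_sq, Complex.normSq_apply,
    Complex.normSq_apply] at h2
  simp at h2
  nlinarith

/-- on the equality set the linear term is negative -/
private theorem key_pt {t : ℝ} (ht : 0 < t) {ψ th x2 r0 A0 R A c : ℝ} {S : ℂ → ℂ}
    (h : Mul ψ th x2 r0 A0 S R A c) (hx0 : 0 < x2) {s : ℂ} (hs : s ∈ YG.Rc (t / 2))
    (hx : x2 ≤ ‖zS (t / 2) s‖) :
    PhS (t / 2) (Exact.cval t) s - Uc t ‖zS (t / 2) s‖ < 0 ∨ D0 t S s < 0 := by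
  have hη : 0 < t / 2 := by linarith
  have hO : 0 < Or (t / 2) 0 := Or_pos hη (by rw [abs_zero]; exact hη)
  have hs' := YG.mem_Rc.1 hs
  rcases (zS_norm_le hη hs).lt_or_eq with h1 | h1
  · have hU : Uc t ‖zS (t / 2) s‖ = UII t ‖zS (t / 2) s‖ := by
      unfold Uc
      rw [Function.update_of_ne h1.ne]
    rw [hU]
    by_cases hi : s.im = 0
    · have hm := y2f_mem hs
      have h1' : ‖YF.zs (t / 2) (((t / 2 : ℝ) : ℂ) - s)‖ < 1 := h1
      rcases YF.cases_lt hη hm h1' with h2 | h2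
      · right
        have h2' := YG.mem_Rp.1 h2
        rw [Complex.sub_re, Complex.ofReal_re] at h2'
        have g0 : 0 < s.re := by linarith [h2'.1.2]
        have g1 : s.re < t / 2 := by linarith [h2'.1.1]
        have hse : s = (s.re : ℂ) := by
          apply Complex.ext
          · rw [Complex.ofReal_re]
          · rw [Complex.ofReal_im, hi]
        have e1 : ((t / 2 : ℝ) : ℂ) - s = ((t / 2 - s.re : ℝ) : ℂ) := by
          rw [Complex.ofReal_sub, ← hse]
        have e2 := YF.zs_real hη (s := t / 2 - s.re) (by linarith) (by linarith)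
        rw [← e1, show t / 2 - (t / 2 - s.re) = s.re by ring] at e2
        have e3 : zS (t / 2) s = ((Zs (t / 2) s.re : ℝ) : ℂ) := e2
        have e4 : wS (t / 2) s = zu ((Zs (t / 2) s.re : ℝ) : ℂ) := by
          rw [← e3]
          unfold zS
          rw [zu_zu (wS_ne hη hs)]
        have hp := Zs_pos hη g0 g1
        have hl := Zs_lt_one (η := t / 2) s.re
        have hx' : x2 ≤ Zs (t / 2) s.re := by
          rw [e3, Complex.norm_real, Real.norm_of_nonneg hp.le] at hx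
          exact hx
        have hD := h.D _ hx' hl.le
        have ha := arctan_Zs_le hη g0.le g1
        unfold D0
        rw [e4]
        have h5 : (deriv S 1).re * Or (t / 2) 0 * s.re ≤
            2 * (deriv S 1).re * Real.arctan (Zs (t / 2) s.re) := by
          have h6 := mul_le_mul_of_nonpos_left ha h.slope.le
          linarith
        linarith
      · left
        have h3 := YF.Ur_outer hη (Exact.cval t) h2.1 h2.2.le
        have h4 := gapII ht (lt_of_lt_of_le hx0 hx) h1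
        have h5 : ‖YF.zs (t / 2) (((t / 2 : ℝ) : ℂ) - s)‖ = ‖zS (t / 2) s‖ := rfl
        rw [y2f_PhS, h3, h5]
        linarith
    · left
      have := F5_lt ht hs (lt_of_lt_of_le hx0 hx) h1 hi
      linarith
  · right
    have hw := wS_re_zero hη hs h1
    have hc : starRingEnd ℂ (wS (t / 2) s) = -(wS (t / 2) s) := by
      apply Complex.ext
      · rw [Complex.conj_re, Complex.neg_re, hw, neg_zero]
      · rw [Complex.conj_im, Complex.neg_im]
    have h2 := h.conj (wS (t / 2) s)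
    rw [hc, h.odd] at h2
    have h3 := congrArg Complex.re h2
    rw [Complex.neg_re, Complex.conj_re] at h3
    have h4 : (S (wS (t / 2) s)).re = 0 := by linarith
    unfold D0
    rw [h4]
    have h5 : (deriv S 1).re * Or (t / 2) 0 * s.re ≤ 0 :=
      mul_nonpos_of_nonpos_of_nonneg (mul_nonpos_of_nonpos_of_nonneg h.slope.le hO.le) hs'.1.1
    linarith [h.pos1]

private theorem PhS_le_Uc {t : ℝ} (ht : 0 < t) {s : ℂ} (hs : s ∈ YG.Rc (t / 2))
    (hx : 0 < ‖zS (t / 2) s‖) : PhS (t / 2) (Exact.cval t) s ≤ Uc t ‖zS (t / 2) s‖ := by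
  have hη : 0 < t / 2 := by linarith
  rcases (zS_norm_le hη hs).lt_or_eq with h1 | h1
  · unfold Uc
    rw [Function.update_of_ne h1.ne]
    exact F5_le ht hs hx h1
  · unfold Uc
    rw [h1, Function.update_self]
    exact F5_one ht hs h1

theorem key2 {t : ℝ} (ht : 0 < t) {ψ th x2 r0 A0 R A c : ℝ} {S : ℂ → ℂ}
    (h : Mul ψ th x2 r0 A0 S R A c) (hx0 : 0 < x2) (hx1 : x2 < 1) :
    ∃ ε0 ν : ℝ, 0 < ε0 ∧ 0 < ν ∧ ν < 1 ∧ ∀ ε : ℝ, 0 < ε → ε ≤ ε0 → ∃ κ : ℝ, 0 < κ ∧ ∀ e : ℝ,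
      e ≤ (1 - ν) * (2 * (deriv S 1).re * lam2 t) * ε → ∀ s ∈ YG.Rc (t / 2),
      x2 ≤ ‖zS (t / 2) s‖ → ‖zS (t / 2) s‖ < 1 →
      PhS (t / 2) (Exact.cval t) s + e / (t / 2) * s.re +
        ε * ((S (wS (t / 2) s)).re - (S 1).re) ≤ UII t ‖zS (t / 2) s‖ - κ := by
  have hη : 0 < t / 2 := by linarith
  have hO : 0 < Or (t / 2) 0 := Or_pos hη (by rw [abs_zero]; exact hη)
  obtain ⟨K, hK⟩ : ∃ K : Set ℂ, K = {s : ℂ | s ∈ YG.Rc (t / 2) ∧ x2 ≤ ‖zS (t / 2) s‖} :=
    ⟨_, rfl⟩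
  have hKR : K ⊆ YG.Rc (t / 2) := by rw [hK]; exact fun s hs => hs.1
  have hKc : IsCompact K := by
    have hcl : IsClosed K := by
      rw [hK]
      have e : {s : ℂ | s ∈ YG.Rc (t / 2) ∧ x2 ≤ ‖zS (t / 2) s‖} =
          YG.Rc (t / 2) ∩ (zS (t / 2)) ⁻¹' {z : ℂ | x2 ≤ ‖z‖} := rfl
      rw [e]
      exact (zS_cont hη).preimage_isClosed_of_isClosed (YG.Rc_compact (η := t / 2)).isClosed
        (isClosed_le continuous_const continuous_norm)
    exact (YG.Rc_compact (η := t / 2)).of_isClosed_subset hcl hKR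
  have hw1 : ∀ s ∈ YG.Rc (t / 2), ‖wS (t / 2) s‖ < R := fun s hs =>
    lt_of_le_of_lt (wS_norm hη hs) h.hR
  have hDc : ContinuousOn (D0 t S) K := by
    unfold D0
    have h1 : ContinuousOn (fun s => S (wS (t / 2) s)) K := by
      apply h.diff.continuousOn.comp ((wS_cont hη).mono hKR)
      intro s hs
      rw [Metric.mem_ball, dist_zero_right]
      exact hw1 s (hKR hs)
    have h2 : ContinuousOn (fun s => (S (wS (t / 2) s)).re) K :=
      Complex.continuous_re.comp_continuousOn h1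
    have h3 : ContinuousOn (fun s : ℂ => (deriv S 1).re * Or (t / 2) 0 * s.re) K :=
      (continuous_const.mul Complex.continuous_re).continuousOn
    exact h3.add (h2.sub continuousOn_const)
  have hFc : ContinuousOn (fun s => PhS (t / 2) (Exact.cval t) s - Uc t ‖zS (t / 2) s‖) K := by
    apply ((PhS_cont hη _).mono hKR).sub
    apply (Uc_cont ht).comp ((zS_cont hη).mono hKR).norm
    intro s hs
    have hs2 := hs
    rw [hK] at hs2
    exact ⟨lt_of_lt_of_le hx0 hs2.2, zS_norm_le hη hs2.1⟩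
  obtain ⟨d, hd0, hd⟩ : ∃ d : ℝ, 0 < d ∧ ∀ s ∈ K,
      PhS (t / 2) (Exact.cval t) s - Uc t ‖zS (t / 2) s‖ ≤ -d ∨ D0 t S s ≤ -d := by
    rcases K.eq_empty_or_nonempty with he | hne
    · exact ⟨1, one_pos, fun s hs => by rw [he] at hs; exact absurd hs (Set.notMem_empty s)⟩
    · obtain ⟨s0, hs0, hmax⟩ := hKc.exists_isMaxOn hne (hFc.inf hDc)
      have hs2 := hs0
      rw [hK] at hs2
      have hpt := key_pt ht h hx0 hs2.1 hs2.2
      refine ⟨-(min (PhS (t / 2) (Exact.cval t) s0 - Uc t ‖zS (t / 2) s0‖) (D0 t S s0)), ?_, ?_⟩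
      · rw [neg_pos]
        rcases hpt with h1 | h1
        · exact lt_of_le_of_lt (min_le_left _ _) h1
        · exact lt_of_le_of_lt (min_le_right _ _) h1
      · intro s hs
        have h2 : min (PhS (t / 2) (Exact.cval t) s - Uc t ‖zS (t / 2) s‖) (D0 t S s) ≤
            min (PhS (t / 2) (Exact.cval t) s0 - Uc t ‖zS (t / 2) s0‖) (D0 t S s0) := hmax hs
        rw [neg_neg]
        rcases min_le_iff.1 h2 with h3 | h3
        · exact Or.inl h3
        · exact Or.inr h3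
  obtain ⟨B, hB⟩ : ∃ B : ℝ, B = -(deriv S 1).re * Or (t / 2) 0 * (t / 2) := ⟨_, rfl⟩
  have hB0 : 0 < B := by
    rw [hB]
    have := h.slope
    exact mul_pos (mul_pos (by linarith) hO) hη
  obtain ⟨ν, hν⟩ : ∃ ν : ℝ, ν = min (1 / 2) (d / (2 * B)) := ⟨_, rfl⟩
  have hν0 : 0 < ν := by rw [hν]; exact lt_min (by norm_num) (by positivity)
  have hν1 : ν ≤ 1 / 2 := by rw [hν]; exact min_le_left _ _
  have hνB : ν * B ≤ d / 2 := by
    have h1 : ν ≤ d / (2 * B) := by rw [hν]; exact min_le_right _ _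
    rw [le_div_iff₀ (by positivity)] at h1
    linarith
  have hA := h.hA
  refine ⟨d / (4 * A + d), ν, by positivity, hν0, by linarith, fun ε hε hε0 => ?_⟩
  refine ⟨min (d / 2) (ε * (d / 2)), by positivity, fun e he s hs hsx hs1 => ?_⟩
  have hsK : s ∈ K := by rw [hK]; exact ⟨hs, hsx⟩
  have hs' := YG.mem_Rc.1 hs
  have hF0 := PhS_le_Uc ht hs (lt_of_lt_of_le hx0 hsx)
  have hU : Uc t ‖zS (t / 2) s‖ = UII t ‖zS (t / 2) s‖ := by
    unfold Uc
    rw [Function.update_of_ne hs1.ne]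
  rw [hU] at hF0
  have hdk := hd s hsK
  rw [hU] at hdk
  -- the linear term
  have hlin : e / (t / 2) * s.re + ε * ((S (wS (t / 2) s)).re - (S 1).re) ≤
      ε * (D0 t S s + ν * B) := by
    have h1 : e / (t / 2) ≤ (1 - ν) * ((deriv S 1).re * Or (t / 2) 0) * ε := by
      rw [div_le_iff₀ hη]
      unfold lam2 at he
      linarith
    have h2 := mul_le_mul_of_nonneg_right h1 hs'.1.1
    have h3 : -(ν * ((deriv S 1).re * Or (t / 2) 0) * s.re) ≤ ν * B := by
      rw [hB]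
      have h4 : 0 ≤ ν * (-(deriv S 1).re * Or (t / 2) 0) := by
        have := h.slope
        exact mul_nonneg hν0.le (mul_nonneg (by linarith) hO.le)
      have h5 := mul_le_mul_of_nonneg_left hs'.1.2 h4
      linarith
    have h6 := mul_le_mul_of_nonneg_left h3 hε.le
    unfold D0
    linarith
  have hD0 : D0 t S s ≤ 2 * A := by
    unfold D0
    have h1 : (deriv S 1).re * Or (t / 2) 0 * s.re ≤ 0 :=
      mul_nonpos_of_nonpos_of_nonneg (mul_nonpos_of_nonpos_of_nonneg h.slope.le hO.le) hs'.1.1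
    have h2 := (Complex.re_le_norm (S (wS (t / 2) s))).trans (h.bd _ (hw1 s hs))
    have h3 := h.pos1
    linarith
  rcases hdk with h1 | h1
  · have h2 : ε * (D0 t S s + ν * B) ≤ d / (4 * A + d) * (2 * A + d / 2) := by
      calc ε * (D0 t S s + ν * B) ≤ ε * (2 * A + d / 2) :=
            mul_le_mul_of_nonneg_left (by linarith) hε.le
        _ ≤ _ := mul_le_mul_of_nonneg_right hε0 (by positivity)
    have h3 : d / (4 * A + d) * (2 * A + d / 2) = d / 2 := by
      field_simp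
      ring
    have h4 := min_le_left (d / 2) (ε * (d / 2))
    linarith
  · have h2 : ε * (D0 t S s + ν * B) ≤ ε * (-(d / 2)) :=
      mul_le_mul_of_nonneg_left (by linarith) hε.le
    have h4 := min_le_right (d / 2) (ε * (d / 2))
    linarith

end Pool.Agent.Lib.MP_0430e4_lc.AC
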