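import Pool.Agent.Lib.MP_0430e4_lc.AC.Y2P
import Pool.Agent.Lib.MP_0430e4_lc.AC.Y2T
import Pool.Agent.Lib.MP_0430e4_lc.AC.Y2Key

/-!
Y2 module K2: the test function on the circles `x2 ≤ ‖z‖ < 1`. Right half: `q_right`, `key2`,
`TJ_close` at `R1 = 1` (the term `‖u‖^K0` and the error of `TJ` by `GapOK`, `F5_le`); left half:
`P_left`, `TJ_crude`, `ε` small against `ξ x2`. Then `pow_pad`.
-/

set_option autoImplicit false

open Finset Polynomial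

namespace Pool.Agent.Lib.MP_0430e4_lc.AC

open LPLOW Lower BY

/-- two numbers which tend to infinity -/
private theorem K2_exp {κ : ℝ} (hκ : 0 < κ) (X : ℝ) : ∃ n1 : ℕ, ∀ n : ℕ, n1 ≤ n →
    X ≤ Real.exp (κ * n) := by
  obtain ⟨n1, hn1⟩ := exists_nat_gt (X / κ)
  refine ⟨n1, fun n hn => ?_⟩
  have h1 : (n1 : ℝ) ≤ n := by exact_mod_cast hn
  have h2 : X < κ * n := by
    rw [div_lt_iff₀ hκ] at hn1
    linarith [mul_le_mul_of_nonneg_right h1 hκ.le]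
  have h3 := Real.add_one_le_exp (κ * n)
  linarith

private theorem K2_right {a b T Y1 Y2 E ct U κ' A1 lam : ℝ} {n0 n : ℕ} (ha : 0 ≤ a) (ha2 : a ≤ 2)
    (hb : 0 ≤ b) (hb1 : b ≤ 1) (hA1 : 1 ≤ A1)
    (hq : a ^ n0 * b ≤ A1 * (Real.exp (n0 * Y1) + Real.exp (n0 * Y2))) (hY2 : 0 ≤ Y2)
    (hlog : Real.log (2 * A1) / n0 ≤ lam) (hT0 : 0 ≤ T)
    (hT : T ≤ Real.exp (n * E) + Real.exp (-(ct * n)))
    (h11 : Y1 + E ≤ U - κ') (h12 : Y2 + E ≤ U - κ') (h21 : Y1 - ct ≤ U - κ')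
    (h22 : Y2 - ct ≤ U - κ')
    (hpad : ∀ {Y B : ℝ}, 1 ≤ B → a ^ n0 * b ≤ B * Real.exp (n0 * Y) →
      a ^ n * b ^ (n / n0) ≤ (2 : ℝ) ^ n0 * Real.exp (n0 * |Y|) *
        Real.exp (n * (Y + Real.log B / n0))) :
    a ^ n * b ^ (n / n0) * T ≤ 4 ^ n0 * 2 * Real.exp (n * (U - κ' + lam)) := by
  have hl2 : 0 ≤ Real.log 2 := Real.log_nonneg (by norm_num)
  have hn0' : (0 : ℝ) ≤ n0 := Nat.cast_nonneg _
  have hn' : (0 : ℝ) ≤ n := Nat.cast_nonneg _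
  set Y : ℝ := min (max Y1 Y2) (Real.log 2) with hYdef
  have hY0 : 0 ≤ Y := le_min (hY2.trans (le_max_right _ _)) hl2
  have hYl : Y ≤ Real.log 2 := min_le_right _ _
  have hYm : Y ≤ max Y1 Y2 := min_le_left _ _
  have hexp2 : Real.exp (n0 * Real.log 2) = 2 ^ n0 := by
    rw [mul_comm, Real.exp_mul, Real.exp_log (by norm_num), Real.rpow_natCast]
  have hB : (1 : ℝ) ≤ 2 * A1 := by linarith
  have hmain : a ^ n0 * b ≤ 2 * A1 * Real.exp (n0 * Y) := by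
    rcases min_choice (max Y1 Y2) (Real.log 2) with h | h
    · rw [hYdef, h]
      have e1 : Real.exp (n0 * Y1) ≤ Real.exp (n0 * max Y1 Y2) :=
        Real.exp_le_exp.2 (mul_le_mul_of_nonneg_left (le_max_left _ _) hn0')
      have e2 : Real.exp (n0 * Y2) ≤ Real.exp (n0 * max Y1 Y2) :=
        Real.exp_le_exp.2 (mul_le_mul_of_nonneg_left (le_max_right _ _) hn0')
      calc a ^ n0 * b ≤ A1 * (Real.exp (n0 * Y1) + Real.exp (n0 * Y2)) := hq
        _ ≤ A1 * (Real.exp (n0 * max Y1 Y2) + Real.exp (n0 * max Y1 Y2)) :=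
            mul_le_mul_of_nonneg_left (add_le_add e1 e2) (by linarith)
        _ = 2 * A1 * Real.exp (n0 * max Y1 Y2) := by ring
    · rw [hYdef, h, hexp2]
      have e1 : a ^ n0 ≤ 2 ^ n0 := pow_le_pow_left₀ ha ha2 n0
      have e2 : a ^ n0 * b ≤ 2 ^ n0 * 1 := mul_le_mul e1 hb1 hb (by positivity)
      have e3 : (0 : ℝ) ≤ 2 ^ n0 := by positivity
      nlinarith
  have h1 := hpad hB hmain
  have h2 : (2 : ℝ) ^ n0 * Real.exp (n0 * |Y|) ≤ 4 ^ n0 := by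
    rw [abs_of_nonneg hY0]
    have e1 : Real.exp (n0 * Y) ≤ 2 ^ n0 := by
      rw [← hexp2]
      exact Real.exp_le_exp.2 (mul_le_mul_of_nonneg_left hYl hn0')
    calc (2 : ℝ) ^ n0 * Real.exp (n0 * Y) ≤ 2 ^ n0 * 2 ^ n0 :=
          mul_le_mul_of_nonneg_left e1 (by positivity)
      _ = 4 ^ n0 := by rw [← mul_pow]; norm_num
  have h3 : a ^ n * b ^ (n / n0) ≤ 4 ^ n0 * Real.exp (n * (Y + lam)) := by
    refine h1.trans (mul_le_mul h2 (Real.exp_le_exp.2 ?_) (Real.exp_pos _).le (by positivity))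
    exact mul_le_mul_of_nonneg_left (by linarith) hn'
  have hYE : Y + E ≤ U - κ' := by
    rcases max_choice Y1 Y2 with h | h <;> rw [h] at hYm <;> linarith
  have hYc : Y - ct ≤ U - κ' := by
    rcases max_choice Y1 Y2 with h | h <;> rw [h] at hYm <;> linarith
  calc a ^ n * b ^ (n / n0) * T
      ≤ 4 ^ n0 * Real.exp (n * (Y + lam)) * (Real.exp (n * E) + Real.exp (-(ct * n))) :=
        mul_le_mul h3 hT hT0 (by positivity)
    _ = 4 ^ n0 * (Real.exp (n * (Y + E + lam)) + Real.exp (n * (Y - ct + lam))) := by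
        rw [mul_assoc, mul_add, ← Real.exp_add, ← Real.exp_add]
        ring_nf
    _ ≤ 4 ^ n0 * (Real.exp (n * (U - κ' + lam)) + Real.exp (n * (U - κ' + lam))) := by
        refine mul_le_mul_of_nonneg_left (add_le_add ?_ ?_) (by positivity)
        · exact Real.exp_le_exp.2 (mul_le_mul_of_nonneg_left (by linarith) hn')
        · exact Real.exp_le_exp.2 (mul_le_mul_of_nonneg_left (by linarith) hn')
    _ = 4 ^ n0 * 2 * Real.exp (n * (U - κ' + lam)) := by ring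

theorem K2_bound {t : ℝ} (ht : 0 < t) {ξ ψ th x2 r0 A0 R A c : ℝ} {S : ℂ → ℂ} (hξ : 0 < ξ)
    (hξ1 : ξ ≤ 1 / 8) (hG : GapOK t ξ) (h : Mul ψ th x2 r0 A0 S R A c) (hx0 : 0 < x2) (hx1 : x2 < 1)
    {η' : ℝ} (hη : 0 < η') (hη1 : η' ≤ ξ) : ∃ ε0 ν : ℝ, 0 < ε0 ∧ 0 < ν ∧ ν < 1 ∧ ∀ ε : ℝ, 0 < ε →
    ε ≤ ε0 → ∃ κ : ℝ, 0 < κ ∧ ∀ A1 : ℝ, 1 ≤ A1 → ∃ N0 : ℕ, ∀ n0 ≥ N0, ∀ (q : ℝ[X]) (e κq : ℝ),
    QB t n0 (Kx ξ n0) A1 e κq q → e ≤ (1 - ν) * (2 * (deriv S 1).re * lam2 t) * ε →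
    ∃ n1 : ℕ, ∀ n ≥ n1, ∀ z : ℂ, x2 ≤ ‖z‖ → ‖z‖ < 1 →
      ‖(1 + z) ^ n * (Gq q n0 S ε η' n).aeval (zu z)‖ ≤ Real.exp (n * (UII t ‖z‖ - κ)) := by
  obtain ⟨εk, ν, hεk, hν, hν1, hkey⟩ := key2 ht h hx0 hx1
  obtain ⟨ct, εt, hct, hεt, hclose⟩ := TJ_close h le_rfl h.hR hη
  obtain ⟨B, hB, hcr⟩ := TJ_crude h
  have hA := h.hA
  have hξx : 0 < ξ * x2 := mul_pos hξ hx0
  refine ⟨min (min εk εt) (ξ * x2 / A), ν, lt_min (lt_min hεk hεt) (by positivity), hν, hν1, ?_⟩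
  intro ε hε hεle
  have h1 : ε ≤ εk := hεle.trans ((min_le_left _ _).trans (min_le_left _ _))
  have h2 : ε ≤ εt := hεle.trans ((min_le_left _ _).trans (min_le_right _ _))
  have h3 : A * ε ≤ ξ * x2 := by
    have := hεle.trans (min_le_right _ _)
    rw [le_div_iff₀ hA] at this
    linarith
  obtain ⟨κk, hκk, hk⟩ := hkey ε hε h1
  obtain ⟨nt, hnt⟩ := hclose ε hε.le h2
  obtain ⟨κ', hκ'⟩ : ∃ κ' : ℝ, κ' = min (min κk ct) (ξ * x2) := ⟨_, rfl⟩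
  have hκpos : 0 < κ' := by
    rw [hκ']
    exact lt_min (lt_min hκk hct) hξx
  have hκ1 : κ' ≤ κk := by
    rw [hκ']
    exact (min_le_left _ _).trans (min_le_left _ _)
  have hκ2 : κ' ≤ ct := by
    rw [hκ']
    exact (min_le_left _ _).trans (min_le_right _ _)
  have hκ3 : κ' ≤ ξ * x2 := by
    rw [hκ']
    exact min_le_right _ _
  refine ⟨κ' / 4, by positivity, fun A1 hA1 => ?_⟩
  obtain ⟨N0, hN0⟩ : ∃ N0 : ℕ, ∀ n0 : ℕ, N0 ≤ n0 → 1 ≤ n0 ∧ 1 ≤ ξ * n0 ∧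
      Real.log (2 * A1) / n0 ≤ κ' / 4 := by
    obtain ⟨a, ha⟩ := exists_nat_gt (1 / ξ)
    obtain ⟨b, hb⟩ := exists_nat_gt (Real.log (2 * A1) / (κ' / 4))
    refine ⟨a + b + 1, fun n0 hn => ?_⟩
    have e1 : (a : ℝ) + b + 1 ≤ n0 := by exact_mod_cast hn
    have e2 : (0 : ℝ) ≤ a := Nat.cast_nonneg _
    have e3 : (0 : ℝ) ≤ b := Nat.cast_nonneg _
    refine ⟨by omega, ?_, ?_⟩
    · rw [div_lt_iff₀ hξ] at ha
      linarith [mul_le_mul_of_nonneg_right (show (a : ℝ) ≤ n0 by linarith) hξ.le]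
    · rw [div_lt_iff₀ (by positivity)] at hb
      rw [div_le_iff₀ (by linarith)]
      linarith [mul_le_mul_of_nonneg_right (show (b : ℝ) ≤ n0 by linarith)
        (show (0 : ℝ) ≤ κ' / 4 by positivity)]
  refine ⟨N0, fun n0 hn0 q e κq hQ he => ?_⟩
  obtain ⟨hn1, hn2, hn3⟩ := hN0 n0 hn0
  obtain ⟨m1, hm1⟩ := K2_exp (κ := κ' / 4) (by positivity) (4 ^ n0 * 2)
  obtain ⟨m2, hm2⟩ := K2_exp (κ := κ' / 4) (by positivity) B
  refine ⟨nt + m1 + m2, fun n hn z hz1 hz2 => ?_⟩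
  have hnn : nt ≤ n ∧ m1 ≤ n ∧ m2 ≤ n := ⟨by omega, by omega, by omega⟩
  have hn' : (0 : ℝ) ≤ n := Nat.cast_nonneg _
  have hz0 : 0 < ‖z‖ := lt_of_lt_of_le hx0 hz1
  have hgap := hG ‖z‖ hz0 hz2
  have ha2 : ‖1 + z‖ ≤ 2 := by
    have := norm_add_le (1 : ℂ) z
    rw [norm_one] at this
    linarith
  have hξz : ξ * x2 ≤ ξ * ‖z‖ := mul_le_mul_of_nonneg_left hz1 hξ.le
  have hS1 : ‖S 1‖ ≤ A := h.bd 1 (by rw [norm_one]; exact h.hR)
  have heq : ‖(1 + z) ^ n * (Gq q n0 S ε η' n).aeval (zu z)‖ =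
      ‖1 + z‖ ^ n * ‖q.aeval (zu z)‖ ^ (n / n0) * ‖(TJ S ε n ⌊η' * n⌋₊).aeval (zu z)‖ := by
    unfold Gq
    rw [map_mul, map_pow, norm_mul, norm_mul, norm_pow, norm_pow, mul_assoc]
  rw [heq]
  rcases le_total 0 z.re with hre | hre
  · obtain ⟨s, hs, hw, hzs, hq, -⟩ := q_right ht hQ hξ (by linarith) hn2 hre hz0 hz2
    have hu1 : ‖zu z‖ ≤ 1 := zu_norm_le hre
    have hsre : 0 ≤ s.re := by
      have := hs.1
      exact this.1
    have hSu : ‖S (zu z)‖ ≤ A := h.bd _ (lt_of_le_of_lt hu1 h.hR)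
    have hE : (S (zu z)).re - (S 1).re ≤ 2 * A := by
      have e1 := (Complex.abs_re_le_norm (S (zu z))).trans hSu
      have e2 := (Complex.abs_re_le_norm (S 1)).trans hS1
      have e3 := abs_le.1 e1
      have e4 := abs_le.1 e2
      linarith [e3.2, e4.1]
    have hEε : ε * ((S (zu z)).re - (S 1).re) ≤ 2 * (ξ * x2) := by
      have e1 := mul_le_mul_of_nonneg_left hE hε.le
      linarith
    have hk1 := hk e he s hs (by rw [hzs]; exact hz1) (by rw [hzs]; exact hz2)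
    rw [hzs, hw] at hk1
    have hF := F5_le ht hs (by rw [hzs]; exact hz0) (by rw [hzs]; exact hz2)
    rw [hzs] at hF
    have he0 : e ≤ 0 := by
      have e1 : 0 < Or (t / 2) 0 := Or_pos (by positivity) (by simpa using by positivity)
      have e2 : 0 < lam2 t := by
        unfold lam2
        positivity
      have e3 : (deriv S 1).re < 0 := h.slope
      have e4 : 2 * (deriv S 1).re * lam2 t < 0 := mul_neg_of_neg_of_pos (by linarith) e2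
      have e5 : (1 - ν) * (2 * (deriv S 1).re * lam2 t) < 0 :=
        mul_neg_of_pos_of_neg (by linarith) e4
      have e6 : (1 - ν) * (2 * (deriv S 1).re * lam2 t) * ε < 0 := mul_neg_of_neg_of_pos e5 hε
      linarith
    have he1 : e / (t / 2) * s.re ≤ 0 :=
      mul_nonpos_of_nonpos_of_nonneg (div_nonpos_of_nonpos_of_nonneg he0 (by positivity)) hsre
    have hT : ‖(TJ S ε n ⌊η' * n⌋₊).aeval (zu z)‖ ≤
        Real.exp (n * (ε * ((S (zu z)).re - (S 1).re))) + Real.exp (-(ct * n)) := by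
      have e1 := hnt n hnn.1 (zu z) hu1
      have e2 : ‖Complex.exp ((n : ℂ) * ((ε : ℂ) * (S (zu z) - S 1)))‖ =
          Real.exp (n * (ε * ((S (zu z)).re - (S 1).re))) := by
        rw [Complex.norm_exp]
        congr 1
        have e3 : (n : ℂ) * ((ε : ℂ) * (S (zu z) - S 1)) =
            (((n : ℝ) * ε : ℝ) : ℂ) * (S (zu z) - S 1) := by
          push_cast
          ring
        rw [e3, Complex.re_ofReal_mul, Complex.sub_re]
        ring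
      have e3 : ‖zu z‖ ^ ⌊η' * n⌋₊ * Real.exp (-(ct * n)) ≤ Real.exp (-(ct * n)) := by
        have := pow_le_one₀ (n := ⌊η' * n⌋₊) (norm_nonneg (zu z)) hu1
        have e4 := Real.exp_pos (-(ct * n))
        exact mul_le_of_le_one_left e4.le this
      have e4 := norm_sub_norm_le ((TJ S ε n ⌊η' * n⌋₊).aeval (zu z))
        (Complex.exp ((n : ℂ) * ((ε : ℂ) * (S (zu z) - S 1))))
      rw [e2] at e4
      linarith
    have hlog0 : 0 ≤ Real.log (1 + ‖z‖ ^ 2) := Real.log_nonneg (by linarith [sq_nonneg ‖z‖])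
    have hξz0 : 0 ≤ ξ * ‖z‖ := by positivity
    have g1 : 0 ≤ Real.log (1 + ‖z‖ ^ 2) / 2 + 4 * ξ * ‖z‖ := by
      have : 4 * ξ * ‖z‖ = 4 * (ξ * ‖z‖) := by ring
      rw [this]
      linarith
    have g2 : Real.log (1 + ‖z‖ ^ 2) / 2 + 4 * ξ * ‖z‖ + ε * ((S (zu z)).re - (S 1).re) ≤
        UII t ‖z‖ - κ' := by
      have e1 : 4 * ξ * ‖z‖ = 4 * (ξ * ‖z‖) := by ring
      have e2 : 8 * ξ * ‖z‖ = 8 * (ξ * ‖z‖) := by ring
      rw [e2] at hgap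
      rw [e1]
      linarith
    have g3 : Real.log (1 + ‖z‖ ^ 2) / 2 + 4 * ξ * ‖z‖ - ct ≤ UII t ‖z‖ - κ' := by
      have e1 : 4 * ξ * ‖z‖ = 4 * (ξ * ‖z‖) := by ring
      have e2 : 8 * ξ * ‖z‖ = 8 * (ξ * ‖z‖) := by ring
      rw [e2] at hgap
      rw [e1]
      linarith
    have hmain := K2_right (a := ‖1 + z‖) (b := ‖q.aeval (zu z)‖)
      (T := ‖(TJ S ε n ⌊η' * n⌋₊).aeval (zu z)‖)
      (Y1 := PhS (t / 2) (Exact.cval t) s + e / (t / 2) * s.re)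
      (Y2 := Real.log (1 + ‖z‖ ^ 2) / 2 + 4 * ξ * ‖z‖)
      (E := ε * ((S (zu z)).re - (S 1).re)) (ct := ct) (U := UII t ‖z‖) (κ' := κ') (A1 := A1)
      (lam := κ' / 4) (n0 := n0) (n := n) (norm_nonneg _) ha2 (norm_nonneg _) (q_in hQ hu1)
      hA1 hq g1 hn3 (norm_nonneg _) hT (by linarith) g2 (by linarith)
      g3 (fun hB' hq' => pow_pad (norm_nonneg _) ha2 (norm_nonneg _) hn1 hB' hq' n)
    refine hmain.trans ?_
    calc 4 ^ n0 * 2 * Real.exp (n * (UII t ‖z‖ - κ' + κ' / 4))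
        ≤ Real.exp (κ' / 4 * n) * Real.exp (n * (UII t ‖z‖ - κ' + κ' / 4)) :=
          mul_le_mul_of_nonneg_right (hm1 n hnn.2.1) (Real.exp_pos _).le
      _ ≤ Real.exp (n * (UII t ‖z‖ - κ' / 4)) := by
          rw [← Real.exp_add]
          apply Real.exp_le_exp.2
          have e1 : κ' / 4 * n + n * (UII t ‖z‖ - κ' + κ' / 4) =
            n * (UII t ‖z‖ - κ' / 2) := by ring
          rw [e1]
          exact mul_le_mul_of_nonneg_left (by linarith) hn'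
  · have h4 := (P_left hQ hξ (by linarith) hn1 hη hη1 (n := n) hre hz2).1
    have hu1 : 1 ≤ ‖zu z‖ := zu_norm_ge hre hz2
    have h5 := hcr ε hε.le n ⌊η' * n⌋₊ (zu z)
    rw [max_eq_right hu1] at h5
    calc ‖1 + z‖ ^ n * ‖q.aeval (zu z)‖ ^ (n / n0) * ‖(TJ S ε n ⌊η' * n⌋₊).aeval (zu z)‖
        ≤ ‖1 + z‖ ^ n * ‖q.aeval (zu z)‖ ^ (n / n0) *
          (B * Real.exp (n * (2 * A * ε)) * ‖zu z‖ ^ ⌊η' * n⌋₊) :=
          mul_le_mul_of_nonneg_left h5 (by positivity)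
      _ = B * Real.exp (n * (2 * A * ε)) *
          (‖1 + z‖ ^ n * ‖q.aeval (zu z)‖ ^ (n / n0) * ‖zu z‖ ^ ⌊η' * n⌋₊) := by ring
      _ ≤ B * Real.exp (n * (2 * A * ε)) * Real.exp (n * (Real.log (1 + ‖z‖ ^ 2) / 2)) :=
          mul_le_mul_of_nonneg_left h4 (by positivity)
      _ ≤ Real.exp (κ' / 4 * n) * Real.exp (n * (2 * A * ε)) *
          Real.exp (n * (Real.log (1 + ‖z‖ ^ 2) / 2)) := by
          refine mul_le_mul_of_nonneg_right (mul_le_mul_of_nonneg_right (hm2 n hnn.2.2)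
            (Real.exp_pos _).le) (Real.exp_pos _).le
      _ ≤ Real.exp (n * (UII t ‖z‖ - κ' / 4)) := by
          rw [← Real.exp_add, ← Real.exp_add]
          apply Real.exp_le_exp.2
          have e1 : κ' / 4 + 2 * A * ε + Real.log (1 + ‖z‖ ^ 2) / 2 ≤ UII t ‖z‖ - κ' / 4 := by
            have e3 : 8 * ξ * ‖z‖ = 8 * (ξ * ‖z‖) := by ring
            rw [e3] at hgap
            linarith
          have e2 := mul_le_mul_of_nonneg_left e1 hn'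
          linarith

end Pool.Agent.Lib.MP_0430e4_lc.AC
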