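import Pool.Agent.Lib.MP_0430e4_lc.AC.Y2P
import Pool.Agent.Lib.MP_0430e4_lc.AC.Y2T

/-!
Y2 module K3: the reversed test function on all circles. Right half: `|T(-u)| ≤ exp (-n ε S(1))`
(`Mul.right`, odd), `q_right`, `F5_le`, `GapOK`. Left half near `0`: `Re S(u) ≥ S(1)/2` for `u` near `1`;
elsewhere `P_left`, `TJ_crude` with `ε` small against the gap.
-/

set_option autoImplicit false

open Finset Polynomial

namespace Pool.Agent.Lib.MP_0430e4_lc.AC

open LPLOW Lower BY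

private theorem k3_ub {t : ℝ} (ht : 0 < t) : ∃ C : ℝ, 0 ≤ C ∧ ∀ x : ℝ, 0 < x → x < 1 → UII t x ≤ C := by
  have P := potII ht
  have h0 : 0 < (1 - Exact.sII t) / 2 := by linarith [Exact.sII_lt_one ht]
  have hl2 : 0 < Real.log 2 := Real.log_pos (by norm_num)
  refine ⟨|Tensor.ell ((1 - Exact.sII t) / 2) + 1| * Real.log 2 + 1, by positivity, fun x hx0 hx1 => ?_⟩
  obtain ⟨e1, he1, n1, H1⟩ := P.lb x 1 hx0 hx1 one_pos
  obtain ⟨c, hc, -, -, n5, H5⟩ := near_gen h0 (min e1 1) (lt_min he1 one_pos)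
  obtain ⟨n, hn⟩ : ∃ n : ℕ, n = n1 + n5 + 1 := ⟨_, rfl⟩
  obtain ⟨f, H, -, hW, hs⟩ := H5 n (by omega)
  have hl : (1 - 2 * ((1 - Exact.sII t) / 2)) * (n : ℝ) ≤ (1 - 2 * ((1 - Exact.sII t) / 2) + c) * n := by
    apply mul_le_mul_of_nonneg_right _ (Nat.cast_nonneg n)
    linarith
  have h1 := H1 n (by omega) _ f hW hl (hs.trans (pw_mono n (add_le_add le_rfl (min_le_left _ _))))
  have h2 : Pfr f x ≤ ∑ y, f y := by
    unfold Pfr
    apply Finset.sum_le_sum
    intro y _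
    exact mul_le_of_le_one_right (hW.nonneg y) (pow_le_one₀ hx0.le hx1.le)
  have h3 : Real.exp (n * (UII t x - 1)) ≤
      Real.exp (n * ((Tensor.ell ((1 - Exact.sII t) / 2) + 1) * Real.log 2)) := by
    rw [← pw_eq_exp]
    exact h1.trans (h2.trans (hs.trans (pw_mono n (add_le_add le_rfl (min_le_right _ _)))))
  rw [Real.exp_le_exp] at h3
  have hn0 : (0 : ℝ) < n := by
    have : 0 < n := by omega
    exact_mod_cast this
  have h4 := le_of_mul_le_mul_left h3 hn0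
  have h5 : (Tensor.ell ((1 - Exact.sII t) / 2) + 1) * Real.log 2 ≤
      |Tensor.ell ((1 - Exact.sII t) / 2) + 1| * Real.log 2 :=
    mul_le_mul_of_nonneg_right (le_abs_self _) hl2.le
  linarith

private theorem k3_big (M : ℝ) {μ : ℝ} (hμ : 0 < μ) : ∃ n1 : ℕ, ∀ n : ℕ, n1 ≤ n → M ≤ Real.exp (n * μ) := by
  refine ⟨⌈M / μ⌉₊, fun n hn => ?_⟩
  have h1 : M / μ ≤ n := (Nat.le_ceil _).trans (by exact_mod_cast hn)
  have h2 : M ≤ n * μ := by
    rw [div_le_iff₀ hμ] at h1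
    exact h1
  have h3 := Real.add_one_le_exp ((n : ℝ) * μ)
  linarith

private theorem k3_exp (n : ℕ) (ε : ℝ) (w : ℂ) :
    ‖Complex.exp ((n : ℂ) * ((ε : ℂ) * w))‖ = Real.exp (n * (ε * w.re)) := by
  rw [Complex.norm_exp]
  congr 1
  have h1 : (n : ℂ) * ((ε : ℂ) * w) = (((n : ℝ) * ε : ℝ) : ℂ) * w := by
    push_cast
    ring
  rw [h1, Complex.re_ofReal_mul]
  ring

private theorem k3_cont {ψ th x2 r0 A0 R A c : ℝ} {S : ℂ → ℂ} (h : Mul ψ th x2 r0 A0 S R A c) :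
    ∃ r : ℝ, 0 < r ∧ ∀ z : ℂ, ‖z‖ < r → (S 1).re / 2 < (S (zu z)).re ∧ ‖zu z‖ < (1 + R) / 2 := by
  have hR := h.hR
  have hs1 := h.pos1
  have hzu : ContinuousAt zu 0 := by
    have : zu = fun u : ℂ => (1 - u) / (1 + u) := rfl
    rw [this]
    apply ContinuousAt.div
    · exact (continuous_const.sub continuous_id).continuousAt
    · exact (continuous_const.add continuous_id).continuousAt
    · simp
  have hzu0 : zu 0 = 1 := by
    unfold zu
    simp
  have hS : ContinuousAt S (zu 0) := by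
    rw [hzu0]
    refine (h.diff.differentiableAt (Metric.isOpen_ball.mem_nhds ?_)).continuousAt
    rw [Metric.mem_ball, dist_zero_right, norm_one]
    exact hR
  have hS' : Filter.Tendsto (fun z => (S (zu z)).re) (nhds 0) (nhds (S 1).re) := by
    have h1 := (Complex.continuous_re.continuousAt.comp (ContinuousAt.comp hS hzu)).tendsto
    simp only [Function.comp_apply, hzu0] at h1
    exact h1
  have hN : Filter.Tendsto (fun z => ‖zu z‖) (nhds 0) (nhds 1) := by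
    have h1 := hzu.norm.tendsto
    rw [hzu0, norm_one] at h1
    exact h1
  have e1 := hS'.eventually_const_lt (show (S 1).re / 2 < (S 1).re by linarith)
  have e2 := hN.eventually_lt_const (show (1 : ℝ) < (1 + R) / 2 by linarith)
  obtain ⟨r, hr, H⟩ := Metric.eventually_nhds_iff.1 (e1.and e2)
  refine ⟨r, hr, fun z hz => H ?_⟩
  rw [dist_zero_right]
  exact hz

private theorem k3_neg {ε a b μ : ℝ} (hε : 0 ≤ ε) (ha : 0 ≤ a) (h : μ ≤ ε * b) :
    ε * (-a - b) ≤ -μ := by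
  have h1 := mul_nonneg hε ha
  linarith

theorem K3_bound {t : ℝ} (ht : 0 < t) {ξ ψ th x2 r0 A0 R A c : ℝ} {S : ℂ → ℂ} (hξ : 0 < ξ)
    (hξ1 : ξ ≤ 1 / 8) (hG : GapOK t ξ) (h : Mul ψ th x2 r0 A0 S R A c)
    {η' : ℝ} (hη : 0 < η') (hη1 : η' ≤ ξ) : ∃ ε0 : ℝ, 0 < ε0 ∧ ∀ ε : ℝ, 0 < ε →
    ε ≤ ε0 → ∃ κ : ℝ, 0 < κ ∧ ∀ A1 : ℝ, 1 ≤ A1 → ∃ N0 : ℕ, ∀ n0 ≥ N0, ∀ (q : ℝ[X]) (e κq : ℝ),
    QB t n0 (Kx ξ n0) A1 e κq q → e ≤ 0 →
    ∃ n1 : ℕ, ∀ n ≥ n1, ∀ z : ℂ, 0 < ‖z‖ → ‖z‖ < 1 →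
      ‖(1 + z) ^ n * (Gq q n0 S ε η' n).aeval (-zu z)‖ ≤ Real.exp (n * (UII t ‖z‖ - κ)) := by
  have hR := h.hR
  have hs1 := h.pos1
  have hA := h.hA
  obtain ⟨C, hC0, hC⟩ := k3_ub ht
  obtain ⟨ct1, ε1, hct1, hε1, H1⟩ := TJ_close h (R1 := 1) le_rfl hR hη
  obtain ⟨ct2, ε2, hct2, hε2, H2⟩ := TJ_close h (R1 := (1 + R) / 2) (by linarith) (by linarith) hη
  obtain ⟨B, hB1, HB⟩ := TJ_crude h
  obtain ⟨r, hr, Hr⟩ := k3_cont h
  refine ⟨min ε1 (min ε2 (2 * ξ * r / A)), lt_min hε1 (lt_min hε2 (by positivity)), fun ε hε hεle => ?_⟩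
  have hεa : ε ≤ ε1 := hεle.trans (min_le_left _ _)
  have hεb : ε ≤ ε2 := hεle.trans ((min_le_right _ _).trans (min_le_left _ _))
  have hεc : ε * A ≤ 2 * ξ * r := by
    have h1 : ε ≤ 2 * ξ * r / A := hεle.trans ((min_le_right _ _).trans (min_le_right _ _))
    rwa [le_div_iff₀ hA] at h1
  obtain ⟨na, Ha⟩ := H1 ε hε.le hεa
  obtain ⟨nb, Hb⟩ := H2 ε hε.le hεb
  obtain ⟨μ, hμ⟩ : ∃ μ : ℝ, μ = min (ε * (S 1).re) (min ct1 (min ct2 (4 * ξ * r))) := ⟨_, rfl⟩
  have hμ0 : 0 < μ := by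
    rw [hμ]
    exact lt_min (by positivity) (lt_min hct1 (lt_min hct2 (by positivity)))
  have hμ1 : μ ≤ ε * (S 1).re := by rw [hμ]; exact min_le_left _ _
  have hμ2 : μ ≤ ct1 := by rw [hμ]; exact (min_le_right _ _).trans (min_le_left _ _)
  have hμ3 : μ ≤ ct2 := by
    rw [hμ]; exact (min_le_right _ _).trans ((min_le_right _ _).trans (min_le_left _ _))
  have hμ4 : μ ≤ 4 * ξ * r := by
    rw [hμ]; exact (min_le_right _ _).trans ((min_le_right _ _).trans (min_le_right _ _))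
  refine ⟨μ / 4, by positivity, fun A1 hA1 => ?_⟩
  refine ⟨max 1 (max ⌈1 / ξ⌉₊ ⌈4 * Real.log (2 * A1) / μ⌉₊), fun n0 hn0 q e κq hQ he => ?_⟩
  have hn01 : 1 ≤ n0 := (le_max_left _ _).trans hn0
  have hn0R : (1 : ℝ) ≤ n0 := by exact_mod_cast hn01
  have hn0ξ : 1 ≤ ξ * n0 := by
    have h1 : ⌈1 / ξ⌉₊ ≤ n0 := (le_max_left _ _).trans ((le_max_right _ _).trans hn0)
    have h2 : 1 / ξ ≤ (n0 : ℝ) := (Nat.le_ceil _).trans (by exact_mod_cast h1)
    rw [div_le_iff₀ hξ] at h2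
    linarith
  have hlogB : Real.log (2 * A1) / n0 ≤ μ / 4 := by
    have h1 : ⌈4 * Real.log (2 * A1) / μ⌉₊ ≤ n0 := (le_max_right _ _).trans ((le_max_right _ _).trans hn0)
    have h2 : 4 * Real.log (2 * A1) / μ ≤ (n0 : ℝ) := (Nat.le_ceil _).trans (by exact_mod_cast h1)
    rw [div_le_iff₀ hμ0] at h2
    rw [div_le_iff₀ (by linarith)]
    linarith
  obtain ⟨nc, Hc⟩ := k3_big (2 * ((2 : ℝ) ^ n0 * Real.exp (n0 * C)) + B + 2) (half_pos hμ0)
  refine ⟨max na (max nb nc), fun n hn z hz0 hz1 => ?_⟩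
  have hna : na ≤ n := (le_max_left _ _).trans hn
  have hnb : nb ≤ n := (le_max_left _ _).trans ((le_max_right _ _).trans hn)
  have hnc : nc ≤ n := (le_max_right _ _).trans ((le_max_right _ _).trans hn)
  have hM := Hc n hnc
  have hnR : (0 : ℝ) ≤ n := Nat.cast_nonneg n
  have hgap := hG ‖z‖ hz0 hz1
  have hUC := hC ‖z‖ hz0 hz1
  have hlog0 : 0 ≤ Real.log (1 + ‖z‖ ^ 2) := Real.log_nonneg (le_add_of_nonneg_right (sq_nonneg ‖z‖))
  have hU0 : 0 ≤ UII t ‖z‖ := by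
    have : 0 ≤ 8 * ξ * ‖z‖ := by positivity
    linarith
  have hP1 : 0 < (2 : ℝ) ^ n0 * Real.exp (n0 * C) := by positivity
  have hsplit : ‖(1 + z) ^ n * (Gq q n0 S ε η' n).aeval (-zu z)‖ =
      ‖1 + z‖ ^ n * ‖q.aeval (-zu z)‖ ^ (n / n0) * ‖(TJ S ε n ⌊η' * n⌋₊).aeval (-zu z)‖ := by
    unfold Gq
    rw [map_mul, map_pow, norm_mul, norm_mul, norm_pow, norm_pow]
    ring
  rw [hsplit]
  have hodd : S (-zu z) = -S (zu z) := h.odd _
  have hexp : ‖Complex.exp ((n : ℂ) * ((ε : ℂ) * (S (-zu z) - S 1)))‖ =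
      Real.exp (n * (ε * (-(S (zu z)).re - (S 1).re))) := by
    rw [k3_exp, hodd]
    simp
  rcases le_total 0 z.re with hre | hre
  · -- the right half plane
    obtain ⟨s, hs, hw, hzS, -, hq2⟩ := q_right ht hQ hξ (by linarith) hn0ξ hre hz0 hz1
    have hu1 : ‖zu z‖ ≤ 1 := zu_norm_le hre
    have hure : 0 ≤ (zu z).re := zu_re_nonneg hz1.le
    have hSre : 0 ≤ (S (zu z)).re := h.right _ hu1 hure
    have hF := F5_le ht hs (by rw [hzS]; exact hz0) (by rw [hzS]; exact hz1)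
    rw [hzS] at hF
    have hsre : 0 ≤ s.re := by
      have h1 : s.re ∈ Set.Icc 0 (t / 2) := (Complex.mem_reProdIm.1 hs).1
      exact h1.1
    have hes : e / (t / 2) * s.re ≤ 0 :=
      mul_nonpos_of_nonpos_of_nonneg (div_nonpos_of_nonpos_of_nonneg he (by linarith)) hsre
    have hxp : 0 ≤ 4 * ξ * ‖z‖ := by positivity
    have hb : ‖1 + z‖ ^ n0 * ‖q.aeval (-zu z)‖ ≤ (2 * A1) * Real.exp (n0 * UII t ‖z‖) := by
      refine hq2.trans ?_
      have g1 : Real.exp (n0 * (PhS (t / 2) (Exact.cval t) s + e / (t / 2) * s.re)) ≤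
          Real.exp (n0 * UII t ‖z‖) := by
        apply Real.exp_le_exp.2
        apply mul_le_mul_of_nonneg_left _ (by linarith)
        linarith
      have g2 : Real.exp (n0 * (Real.log (1 + ‖z‖ ^ 2) / 2 + 4 * ξ * ‖z‖)) ≤
          Real.exp (n0 * UII t ‖z‖) := by
        apply Real.exp_le_exp.2
        apply mul_le_mul_of_nonneg_left _ (by linarith)
        linarith
      have g3 := mul_le_mul_of_nonneg_left (add_le_add g1 g2) (show (0 : ℝ) ≤ A1 by linarith)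
      linarith
    have ha2 : ‖1 + z‖ ≤ 2 := by
      calc ‖1 + z‖ ≤ ‖(1 : ℂ)‖ + ‖z‖ := norm_add_le _ _
        _ ≤ 2 := by rw [norm_one]; linarith
    have hpad := pow_pad (norm_nonneg (1 + z)) ha2 (norm_nonneg (q.aeval (-zu z))) hn01 (by linarith) hb n
    rw [abs_of_nonneg hU0] at hpad
    have hT : ‖(TJ S ε n ⌊η' * n⌋₊).aeval (-zu z)‖ ≤ 2 * Real.exp (-(n * μ)) := by
      have g1 := Ha n hna (-zu z) (by rw [norm_neg]; exact hu1)
      have g2 : ‖-zu z‖ ^ ⌊η' * n⌋₊ ≤ 1 := pow_le_one₀ (norm_nonneg _) (by rw [norm_neg]; exact hu1)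
      have g3 : ‖-zu z‖ ^ ⌊η' * n⌋₊ * Real.exp (-(ct1 * n)) ≤ Real.exp (-(n * μ)) := by
        calc ‖-zu z‖ ^ ⌊η' * n⌋₊ * Real.exp (-(ct1 * n)) ≤ 1 * Real.exp (-(ct1 * n)) :=
              mul_le_mul_of_nonneg_right g2 (Real.exp_pos _).le
          _ ≤ Real.exp (-(n * μ)) := by
              rw [one_mul]
              apply Real.exp_le_exp.2
              have g6 := mul_le_mul_of_nonneg_left hμ2 hnR
              rw [mul_comm ct1]
              exact neg_le_neg g6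
      have g4 : Real.exp (n * (ε * (-(S (zu z)).re - (S 1).re))) ≤ Real.exp (-(n * μ)) := by
        apply Real.exp_le_exp.2
        have g6 := k3_neg hε.le hSre hμ1
        rw [← mul_neg]
        exact mul_le_mul_of_nonneg_left g6 hnR
      have g5 := norm_sub_norm_le ((TJ S ε n ⌊η' * n⌋₊).aeval (-zu z))
        (Complex.exp ((n : ℂ) * ((ε : ℂ) * (S (-zu z) - S 1))))
      rw [hexp] at g5
      linarith
    have hT0 : 0 ≤ ‖(TJ S ε n ⌊η' * n⌋₊).aeval (-zu z)‖ := norm_nonneg _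
    calc ‖1 + z‖ ^ n * ‖q.aeval (-zu z)‖ ^ (n / n0) * ‖(TJ S ε n ⌊η' * n⌋₊).aeval (-zu z)‖
        ≤ ((2 : ℝ) ^ n0 * Real.exp (n0 * UII t ‖z‖) * Real.exp (n * (UII t ‖z‖ + Real.log (2 * A1) / n0))) *
          (2 * Real.exp (-(n * μ))) := mul_le_mul hpad hT hT0 (by positivity)
      _ ≤ ((2 : ℝ) ^ n0 * Real.exp (n0 * C) * Real.exp (n * (UII t ‖z‖ + μ / 4))) *
          (2 * Real.exp (-(n * μ))) := by
          apply mul_le_mul_of_nonneg_right _ (by positivity)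
          apply mul_le_mul
          · apply mul_le_mul_of_nonneg_left _ (by positivity)
            apply Real.exp_le_exp.2
            exact mul_le_mul_of_nonneg_left hUC (by linarith)
          · apply Real.exp_le_exp.2
            apply mul_le_mul_of_nonneg_left _ hnR
            linarith
          · positivity
          · positivity
      _ = (2 * ((2 : ℝ) ^ n0 * Real.exp (n0 * C))) * Real.exp (n * (UII t ‖z‖ + μ / 4) + -(n * μ)) := by
          rw [Real.exp_add]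
          ring
      _ ≤ Real.exp (n * (μ / 2)) * Real.exp (n * (UII t ‖z‖ + μ / 4) + -(n * μ)) := by
          apply mul_le_mul_of_nonneg_right _ (Real.exp_pos _).le
          linarith
      _ = Real.exp (n * (UII t ‖z‖ - μ / 4)) := by
          rw [← Real.exp_add]
          congr 1
          ring
  · -- the left half plane
    have hu1 : 1 ≤ ‖zu z‖ := zu_norm_ge hre hz1
    have hPL := (P_left hQ hξ (by linarith) hn01 hη hη1 (n := n) hre hz1).2
    have hPL0 : 0 ≤ ‖1 + z‖ ^ n * ‖q.aeval (-zu z)‖ ^ (n / n0) := by positivity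
    have hup : 0 < ‖zu z‖ ^ ⌊η' * n⌋₊ := by positivity
    rcases lt_or_ge ‖z‖ r with hzr | hzr
    · obtain ⟨f1, f2⟩ := Hr z hzr
      have hT : ‖(TJ S ε n ⌊η' * n⌋₊).aeval (-zu z)‖ ≤ ‖zu z‖ ^ ⌊η' * n⌋₊ * (2 * Real.exp (-(n * μ))) := by
        have g1 := Hb n hnb (-zu z) (by rw [norm_neg]; exact f2.le)
        rw [norm_neg] at g1
        have g2 : 1 ≤ ‖zu z‖ ^ ⌊η' * n⌋₊ := one_le_pow₀ hu1
        have g3 : ‖zu z‖ ^ ⌊η' * n⌋₊ * Real.exp (-(ct2 * n)) ≤ ‖zu z‖ ^ ⌊η' * n⌋₊ * Real.exp (-(n * μ)) := by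
          apply mul_le_mul_of_nonneg_left _ hup.le
          apply Real.exp_le_exp.2
          have g6 := mul_le_mul_of_nonneg_left hμ3 hnR
          rw [mul_comm ct2]
          exact neg_le_neg g6
        have g4 : Real.exp (n * (ε * (-(S (zu z)).re - (S 1).re))) ≤
            ‖zu z‖ ^ ⌊η' * n⌋₊ * Real.exp (-(n * μ)) := by
          have g6 : Real.exp (n * (ε * (-(S (zu z)).re - (S 1).re))) ≤ Real.exp (-(n * μ)) := by
            apply Real.exp_le_exp.2
            have g7 := k3_neg hε.le ((half_pos hs1).le.trans f1.le) hμ1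
            rw [← mul_neg]
            exact mul_le_mul_of_nonneg_left g7 hnR
          refine g6.trans ?_
          exact le_mul_of_one_le_left (Real.exp_pos _).le g2
        have g5 := norm_sub_norm_le ((TJ S ε n ⌊η' * n⌋₊).aeval (-zu z))
          (Complex.exp ((n : ℂ) * ((ε : ℂ) * (S (-zu z) - S 1))))
        rw [hexp] at g5
        linarith
      calc ‖1 + z‖ ^ n * ‖q.aeval (-zu z)‖ ^ (n / n0) * ‖(TJ S ε n ⌊η' * n⌋₊).aeval (-zu z)‖
          ≤ ‖1 + z‖ ^ n * ‖q.aeval (-zu z)‖ ^ (n / n0) * (‖zu z‖ ^ ⌊η' * n⌋₊ * (2 * Real.exp (-(n * μ)))) :=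
            mul_le_mul_of_nonneg_left hT hPL0
        _ = (‖1 + z‖ ^ n * ‖q.aeval (-zu z)‖ ^ (n / n0) * ‖zu z‖ ^ ⌊η' * n⌋₊) * (2 * Real.exp (-(n * μ))) := by
            ring
        _ ≤ Real.exp (n * UII t ‖z‖) * (Real.exp (n * (μ / 2)) * Real.exp (-(n * μ))) := by
            apply mul_le_mul
            · refine hPL.trans (Real.exp_le_exp.2 ?_)
              apply mul_le_mul_of_nonneg_left _ hnR
              have : 0 ≤ 8 * ξ * ‖z‖ := by positivity
              linarith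
            · apply mul_le_mul_of_nonneg_right _ (Real.exp_pos _).le
              linarith
            · positivity
            · positivity
        _ = Real.exp (n * (UII t ‖z‖ - μ / 2)) := by
            rw [← Real.exp_add, ← Real.exp_add]
            congr 1
            ring
        _ ≤ Real.exp (n * (UII t ‖z‖ - μ / 4)) := by
            apply Real.exp_le_exp.2
            apply mul_le_mul_of_nonneg_left _ hnR
            linarith
    · have hT := HB ε hε.le n ⌊η' * n⌋₊ (-zu z)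
      rw [norm_neg, max_eq_right hu1] at hT
      calc ‖1 + z‖ ^ n * ‖q.aeval (-zu z)‖ ^ (n / n0) * ‖(TJ S ε n ⌊η' * n⌋₊).aeval (-zu z)‖
          ≤ ‖1 + z‖ ^ n * ‖q.aeval (-zu z)‖ ^ (n / n0) *
            (B * Real.exp (n * (2 * A * ε)) * ‖zu z‖ ^ ⌊η' * n⌋₊) := mul_le_mul_of_nonneg_left hT hPL0
        _ = (‖1 + z‖ ^ n * ‖q.aeval (-zu z)‖ ^ (n / n0) * ‖zu z‖ ^ ⌊η' * n⌋₊) *
            (B * Real.exp (n * (2 * A * ε))) := by ring
        _ ≤ Real.exp (n * (UII t ‖z‖ - 8 * ξ * r)) * (Real.exp (n * (μ / 2)) * Real.exp (n * (4 * ξ * r))) := by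
            apply mul_le_mul
            · refine hPL.trans (Real.exp_le_exp.2 ?_)
              apply mul_le_mul_of_nonneg_left _ hnR
              have : 8 * ξ * r ≤ 8 * ξ * ‖z‖ := mul_le_mul_of_nonneg_left hzr (by positivity)
              linarith
            · apply mul_le_mul
              · linarith
              · apply Real.exp_le_exp.2
                apply mul_le_mul_of_nonneg_left _ hnR
                linarith
              · positivity
              · positivity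
            · positivity
            · positivity
        _ = Real.exp (n * (UII t ‖z‖ - 4 * ξ * r + μ / 2)) := by
            rw [← Real.exp_add, ← Real.exp_add]
            congr 1
            ring
        _ ≤ Real.exp (n * (UII t ‖z‖ - μ / 4)) := by
            apply Real.exp_le_exp.2
            apply mul_le_mul_of_nonneg_left _ hnR
            linarith

end Pool.Agent.Lib.MP_0430e4_lc.AC
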