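import Pool.Agent.Lib.MP_0430e4_lc.AC.HBS
import Pool.Agent.Lib.MP_0430e4_lc.AC.PA2
import Pool.Agent.Lib.MP_0430e4_lc.AC.YT6

/-!
Y2 module Kk: the k side from the three bounds (`hb_gen`, `hb_sym`, trivial `Sk ≤ C(n,k) M²`). Any branch.
-/

set_option autoImplicit false

open Finset Polynomial

namespace Pool.Agent.Lib.MP_0430e4_lc.AC

open LPLOW Lower BY

private theorem kk_Sk_le {n : ℕ} (C : Finset (Wd n)) (k : ℕ) :
    Sk C k ≤ n.choose k * (C.card : ℝ) ^ 2 := by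
  unfold Sk
  calc ∑ y ∈ univ.filter (fun y : Wd n => wt y = k), (∑ x ∈ C, BY.e x y) ^ 2
      ≤ ∑ y ∈ univ.filter (fun y : Wd n => wt y = k), (C.card : ℝ) ^ 2 := by
        apply Finset.sum_le_sum
        intro y _
        have h1 : |∑ x ∈ C, BY.e x y| ≤ C.card := by
          calc |∑ x ∈ C, BY.e x y| ≤ ∑ x ∈ C, |BY.e x y| := Finset.abs_sum_le_sum_abs _ _
            _ = C.card := by simp [abs_e]
        calc (∑ x ∈ C, BY.e x y) ^ 2 = |∑ x ∈ C, BY.e x y| ^ 2 := (sq_abs _).symm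
          _ ≤ _ := pow_le_pow_left₀ (abs_nonneg _) h1 2
    _ = n.choose k * (C.card : ℝ) ^ 2 := by
        rw [Finset.sum_const, card_wt, nsmul_eq_mul]

private theorem kk_hb {n k : ℕ} {L ε1 ε κ a x u S M c : ℝ} (ha : 0 ≤ a) (hc : 0 < c)
    (hM : 0 ≤ M) (hS : S * Real.exp (n * u) ≤ M * pw n (L + ε1) * x ^ k * c)
    (hax : a * x ^ k ≤ Real.exp (n * (u - κ))) (hM2 : pw n (L - ε) ≤ M)
    (hε : (ε1 + ε) * Real.log 2 ≤ κ / 2) : a / c * S ≤ M ^ 2 * Real.exp (-(κ / 2 * n)) := by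
  have hn : (0 : ℝ) ≤ n := Nat.cast_nonneg n
  have e1 : pw n (L + ε1) ≤ M * Real.exp (κ / 2 * n) := by
    have h1 : L + ε1 = (L - ε) + (ε1 + ε) := by ring
    rw [h1, pw_add]
    apply mul_le_mul hM2 _ (pw_pos n _).le hM
    rw [HBaux.pw_exp]
    exact Real.exp_le_exp.mpr (mul_le_mul_of_nonneg_right hε hn)
  have e2 : a / c * S ≤ (a * x ^ k) * (M * pw n (L + ε1)) * Real.exp (-(n * u)) := by
    have h2 : S ≤ M * pw n (L + ε1) * x ^ k * c * Real.exp (-(n * u)) := by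
      rw [Real.exp_neg, ← div_eq_mul_inv, le_div_iff₀ (Real.exp_pos _)]
      exact hS
    calc a / c * S ≤ a / c * (M * pw n (L + ε1) * x ^ k * c * Real.exp (-(n * u))) :=
          mul_le_mul_of_nonneg_left h2 (div_nonneg ha hc.le)
      _ = _ := by field_simp
  have hpw := pw_pos n (L + ε1)
  calc a / c * S ≤ (a * x ^ k) * (M * pw n (L + ε1)) * Real.exp (-(n * u)) := e2
    _ ≤ Real.exp (n * (u - κ)) * (M * (M * Real.exp (κ / 2 * n))) * Real.exp (-(n * u)) := by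
        apply mul_le_mul_of_nonneg_right _ (Real.exp_pos _).le
        apply mul_le_mul hax _ (mul_nonneg hM hpw.le) (Real.exp_pos _).le
        exact mul_le_mul_of_nonneg_left e1 hM
    _ = M ^ 2 * (Real.exp (n * (u - κ)) * Real.exp (κ / 2 * n) * Real.exp (-(n * u))) := by ring
    _ = M ^ 2 * Real.exp (-(κ / 2 * n)) := by
        rw [← Real.exp_add, ← Real.exp_add]
        congr 2
        ring

private theorem kk_triv {n k : ℕ} {κ a x u : ℝ} (hx : 0 < x)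
    (hu : u ≤ κ / 4) (hk : (k : ℝ) * (-Real.log x) ≤ κ / 4 * n)
    (hax : a * x ^ k ≤ Real.exp (n * (u - κ))) : a ≤ Real.exp (-(κ / 2 * n)) := by
  have hn : (0 : ℝ) ≤ n := Nat.cast_nonneg n
  have hxk : 0 < x ^ k := pow_pos hx k
  have h1 : x ^ k = Real.exp (k * Real.log x) := by
    rw [Real.exp_nat_mul, Real.exp_log hx]
  have h2 : a ≤ Real.exp (n * (u - κ)) / x ^ k := by
    rw [le_div_iff₀ hxk]
    exact hax
  refine h2.trans ?_
  rw [h1, ← Real.exp_sub, Real.exp_le_exp]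
  nlinarith [mul_le_mul_of_nonneg_left hu hn]

/-- one term, all `k ≤ n/2`, no lower bound on `k`; `j = k` or `j = n - k` -/
theorem kterm_all {δ : ℝ} {U g : ℝ → ℝ} (P : Pot δ U g) (h0 : 0 < δ) (h1 : δ < 1 / 2) {κ : ℝ}
    (hκ : 0 < κ) : ∃ ε κ' : ℝ, 0 < ε ∧ 0 < κ' ∧ ∃ n0 : ℕ, ∀ n ≥ n0, ∀ C : Finset (Wd n),
      IsCode ⌈δ * n⌉₊ C → pw n (Tensor.ell δ - ε) ≤ C.card → ∀ (k : ℕ) (a : ℝ), 2 * k ≤ n → 0 ≤ a →
      (∀ x : ℝ, 0 < x → x < 1 → a * x ^ k ≤ Real.exp (n * (U x - κ))) →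
      a / n.choose k * Sk C k ≤ (C.card : ℝ) ^ 2 * Real.exp (-(κ' * n)) ∧
      a / n.choose k * Sk C (n - k) ≤ (C.card : ℝ) ^ 2 * Real.exp (-(κ' * n)) := by
  have hlog1 : Real.log 2 ≤ 1 := by
    have := Real.log_two_lt_d9
    linarith
  -- the point `x3` for small `k`
  obtain ⟨x3, hx30, hx31, hU3⟩ : ∃ x : ℝ, 0 < x ∧ x < 1 ∧ U x ≤ κ / 4 := by
    have h2 := P.tendsto_zero.eventually_lt_const (show (0 : ℝ) < κ / 4 by linarith)
    have h3 : ∀ᶠ x : ℝ in nhdsWithin 0 (Set.Ioi 0), x ∈ Set.Ioo (0 : ℝ) 1 :=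
      Ioo_mem_nhdsGT one_pos
    obtain ⟨x, hx, hx2⟩ := (h2.and h3).exists
    exact ⟨x, hx2.1, hx2.2, hx.le⟩
  have hl3 : 0 ≤ -Real.log x3 := by
    have := Real.log_nonpos hx30.le hx31.le
    linarith
  obtain ⟨x2, hx20, hx21, hg2⟩ := P.g_small h0 (e := κ / 4 / (-Real.log x3 + 1)) (by positivity)
  have hg := hg2 x2 hx20 le_rfl
  obtain ⟨n1, H1⟩ := hb_gen P h0 h1 (κ / 4) (by positivity) x2 hx20 hx21
  obtain ⟨n2, H2⟩ := hb_sym P h0 h1 (κ / 4) (by positivity) x2 hx20 hx21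
  refine ⟨κ / 4, κ / 2, by positivity, by positivity, n1 + n2, fun n hn C hC hM k a hk ha hax => ?_⟩
  have hnn : (0 : ℝ) ≤ n := Nat.cast_nonneg n
  have hkn : k ≤ n := by omega
  have hch : (0 : ℝ) < (n.choose k : ℝ) := by exact_mod_cast Nat.choose_pos hkn
  have hM0 : (0 : ℝ) ≤ C.card := Nat.cast_nonneg _
  have hε : (κ / 4 + κ / 4) * Real.log 2 ≤ κ / 2 := by nlinarith
  by_cases hcase : g x2 * n ≤ k
  · obtain ⟨x, hxa, hxb, hS⟩ := H1 n (by omega) C hC k hcase (Or.inl hk)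
    obtain ⟨y, hya, hyb, hT⟩ := H2 n (by omega) C hC k hcase (Or.inl hk)
    exact ⟨kk_hb ha hch hM0 hS (hax x (lt_of_lt_of_le hx20 hxa) hxb) hM hε,
      kk_hb ha hch hM0 hT (hax y (lt_of_lt_of_le hx20 hya) hyb) hM hε⟩
  · push Not at hcase
    have h3 : (k : ℝ) * (-Real.log x3) ≤ κ / 4 * n := by
      have h4 : (k : ℝ) ≤ κ / 4 / (-Real.log x3 + 1) * n :=
        hcase.le.trans (mul_le_mul_of_nonneg_right hg.le hnn)
      have h5 : (0 : ℝ) < -Real.log x3 + 1 := by linarith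
      calc (k : ℝ) * (-Real.log x3) ≤ (κ / 4 / (-Real.log x3 + 1) * n) * (-Real.log x3) :=
            mul_le_mul_of_nonneg_right h4 hl3
        _ ≤ (κ / 4 / (-Real.log x3 + 1) * n) * (-Real.log x3 + 1) :=
            mul_le_mul_of_nonneg_left (by linarith) (by positivity)
        _ = κ / 4 * n := by field_simp
    have h6 := kk_triv hx30 hU3 h3 (hax x3 hx30 hx31)
    have h7 : ∀ j : ℕ, (n.choose j : ℝ) = n.choose k →
        a / n.choose k * Sk C j ≤ (C.card : ℝ) ^ 2 * Real.exp (-(κ / 2 * n)) := by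
      intro j hj
      calc a / n.choose k * Sk C j ≤ a / n.choose k * (n.choose j * (C.card : ℝ) ^ 2) :=
            mul_le_mul_of_nonneg_left (kk_Sk_le C j) (div_nonneg ha hch.le)
        _ = a * (C.card : ℝ) ^ 2 := by
            rw [hj]
            field_simp
        _ ≤ Real.exp (-(κ / 2 * n)) * (C.card : ℝ) ^ 2 :=
            mul_le_mul_of_nonneg_right h6 (sq_nonneg _)
        _ = _ := mul_comm _ _
    exact ⟨h7 k rfl, h7 (n - k) (by rw [Nat.choose_symm hkn])⟩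

theorem kside2 {δ : ℝ} {U g : ℝ → ℝ} (P : Pot δ U g) (h0 : 0 < δ) (h1 : δ < 1 / 2)
    {x2 κp κ : ℝ} (hx0 : 0 < x2) (hx1 : x2 < 1) (hg : g x2 ≤ κp) (hκp : κp ≤ 1 / 4) (hκ : 0 < κ) :
    ∃ ε : ℝ, 0 < ε ∧ ∃ n0 : ℕ, ∀ n ≥ n0, ∀ C : Finset (Wd n), IsCode ⌈δ * n⌉₊ C →
      pw n (Tensor.ell δ - ε) ≤ C.card → ∀ c : ℕ → ℝ, 1 / 2 ≤ c 0 →
      (∀ k : ℕ, (k : ℝ) ≤ κp * n → ∃ a : ℝ, 0 ≤ a ∧ -a ≤ c k ∧
        ∀ x : ℝ, 0 < x → x < 1 → a * x ^ k ≤ Real.exp (n * (U x - κ))) →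
      (∀ k : ℕ, κp * n < k → 2 * k ≤ n → ∀ x : ℝ, x2 ≤ x → x < 1 →
        |c k| * x ^ k ≤ Real.exp (n * (U x - κ))) →
      (∀ j : ℕ, 2 * j ≤ n → ∀ x : ℝ, 0 < x → x < 1 →
        |c (n - j)| * x ^ j ≤ Real.exp (n * (U x - κ))) →
      (1 / 4) * (C.card : ℝ) ^ 2 ≤ ∑ k ∈ range (n + 1), c k / n.choose k * Sk C k := by
  have hlog1 : Real.log 2 ≤ 1 := by
    have := Real.log_two_lt_d9
    linarith
  obtain ⟨ε1, κ1, hε1, hκ1, n1, H1⟩ := kterm_all P h0 h1 hκ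
  obtain ⟨n2, H2⟩ := hb_gen P h0 h1 (κ / 4) (by positivity) x2 hx0 hx1
  obtain ⟨b, hb⟩ : ∃ b : ℝ, b = min κ1 (κ / 2) := ⟨_, rfl⟩
  have hb0 : 0 < b := by rw [hb]; exact lt_min hκ1 (by positivity)
  have hb1 : b ≤ κ1 := by rw [hb]; exact min_le_left _ _
  have hb2 : b ≤ κ / 2 := by rw [hb]; exact min_le_right _ _
  obtain ⟨n3, hn3⟩ := exists_nat_ge (8 / b ^ 2)
  refine ⟨min ε1 (κ / 4), lt_min hε1 (by positivity), n1 + n2 + n3 + 1,
    fun n hn C hC hM c hc0 hA hB hD => ?_⟩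
  have hnn : (0 : ℝ) ≤ n := Nat.cast_nonneg n
  have hM0 : (0 : ℝ) ≤ C.card := Nat.cast_nonneg _
  have hM1 : pw n (Tensor.ell δ - ε1) ≤ C.card :=
    (pw_mono n (by linarith [min_le_left ε1 (κ / 4)])).trans hM
  have hM2 : pw n (Tensor.ell δ - κ / 4) ≤ C.card :=
    (pw_mono n (by linarith [min_le_right ε1 (κ / 4)])).trans hM
  have hκe : (κ / 4 + κ / 4) * Real.log 2 ≤ κ / 2 := by nlinarith
  have hbe : ∀ κ' : ℝ, b ≤ κ' → (C.card : ℝ) ^ 2 * Real.exp (-(κ' * n)) ≤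
      (C.card : ℝ) ^ 2 * Real.exp (-(b * n)) := by
    intro κ' h
    apply mul_le_mul_of_nonneg_left _ (sq_nonneg _)
    rw [Real.exp_le_exp]
    have := mul_le_mul_of_nonneg_right h hnn
    linarith
  -- every term
  have hterm : ∀ k : ℕ, k ≤ n → -((C.card : ℝ) ^ 2 * Real.exp (-(b * n))) ≤
      c k / n.choose k * Sk C k := by
    intro k hkn
    have hch : (0 : ℝ) < (n.choose k : ℝ) := by exact_mod_cast Nat.choose_pos hkn
    have hS := Sk_nonneg C k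
    have habs : -(|c k| / n.choose k * Sk C k) ≤ c k / n.choose k * Sk C k := by
      have h3 : -|c k| ≤ c k := neg_abs_le _
      have h4 : -|c k| / n.choose k ≤ c k / n.choose k := div_le_div_of_nonneg_right h3 hch.le
      have h5 := mul_le_mul_of_nonneg_right h4 hS
      calc -(|c k| / n.choose k * Sk C k) = -|c k| / n.choose k * Sk C k := by ring
        _ ≤ _ := h5
    by_cases hk1 : (k : ℝ) ≤ κp * n
    · obtain ⟨a, ha, hac, hax⟩ := hA k hk1
      have hk2 : 2 * k ≤ n := by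
        have h3 : (k : ℝ) ≤ 1 / 4 * n := hk1.trans (mul_le_mul_of_nonneg_right hκp hnn)
        have h4 : (2 * k : ℝ) ≤ n := by linarith
        exact_mod_cast h4
      have h5 := (H1 n (by omega) C hC hM1 k a hk2 ha hax).1
      have h6 : -a / n.choose k ≤ c k / n.choose k := div_le_div_of_nonneg_right hac hch.le
      have h7 := mul_le_mul_of_nonneg_right h6 hS
      have h8 : -a / n.choose k * Sk C k = -(a / n.choose k * Sk C k) := by ring
      rw [h8] at h7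
      have h9 := h5.trans (hbe κ1 hb1)
      linarith
    · push Not at hk1
      by_cases hk2 : 2 * k ≤ n
      · have hgk : g x2 * n ≤ k := (mul_le_mul_of_nonneg_right hg hnn).trans hk1.le
        obtain ⟨x, hxa, hxb, hSx⟩ := H2 n (by omega) C hC k hgk (Or.inl hk2)
        have h5 := kk_hb (abs_nonneg (c k)) hch hM0 hSx (hB k hk1 hk2 x hxa hxb) hM2 hκe
        have h9 := h5.trans (hbe (κ / 2) hb2)
        linarith
      · obtain ⟨j, hj⟩ : ∃ j : ℕ, j = n - k := ⟨_, rfl⟩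
        have hj2 : 2 * j ≤ n := by omega
        have hjk : n - j = k := by omega
        have hjn : j ≤ n := by omega
        have h5 := (H1 n (by omega) C hC hM1 j |c (n - j)| hj2 (abs_nonneg _) (hD j hj2)).2
        have h6 : n.choose j = n.choose k := by rw [← hjk, Nat.choose_symm hjn]
        rw [hjk, h6] at h5
        have h9 := h5.trans (hbe κ1 hb1)
        linarith
  rw [Finset.sum_range_succ']
  have hz : (1 / 2) * (C.card : ℝ) ^ 2 ≤ c 0 / n.choose 0 * Sk C 0 := by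
    rw [Sk_zero, Nat.choose_zero_right, Nat.cast_one, div_one]
    exact mul_le_mul_of_nonneg_right hc0 (sq_nonneg _)
  have hsum : -((n : ℝ) * ((C.card : ℝ) ^ 2 * Real.exp (-(b * n)))) ≤
      ∑ k ∈ range n, c (k + 1) / n.choose (k + 1) * Sk C (k + 1) := by
    calc -((n : ℝ) * ((C.card : ℝ) ^ 2 * Real.exp (-(b * n))))
        = ∑ _k ∈ range n, -((C.card : ℝ) ^ 2 * Real.exp (-(b * n))) := by
          rw [Finset.sum_const, Finset.card_range, nsmul_eq_mul]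
          ring
      _ ≤ _ := by
          apply Finset.sum_le_sum
          intro k hk
          exact hterm (k + 1) (by have := Finset.mem_range.mp hk; omega)
  have hexp : (n : ℝ) * Real.exp (-(b * n)) ≤ 1 / 4 := by
    have hn1 : (1 : ℝ) ≤ n := by
      have : 1 ≤ n := by omega
      exact_mod_cast this
    have hn3' : 8 / b ^ 2 ≤ (n : ℝ) := by
      refine hn3.trans ?_
      have : n3 ≤ n := by omega
      exact_mod_cast this
    have h3 := Real.quadratic_le_exp_of_nonneg (show 0 ≤ b * (n : ℝ) by positivity)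
    have h4 : (8 : ℝ) ≤ n * b ^ 2 := by
      rw [div_le_iff₀ (by positivity)] at hn3'
      exact hn3'
    rw [Real.exp_neg, ← div_eq_mul_inv, div_le_iff₀ (Real.exp_pos _)]
    nlinarith [mul_le_mul_of_nonneg_right h4 hnn]
  have hfin : (n : ℝ) * ((C.card : ℝ) ^ 2 * Real.exp (-(b * n))) ≤ 1 / 4 * (C.card : ℝ) ^ 2 := by
    calc (n : ℝ) * ((C.card : ℝ) ^ 2 * Real.exp (-(b * n)))
        = ((n : ℝ) * Real.exp (-(b * n))) * (C.card : ℝ) ^ 2 := by ring
      _ ≤ 1 / 4 * (C.card : ℝ) ^ 2 := mul_le_mul_of_nonneg_right hexp (sq_nonneg _)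
  linarith

end Pool.Agent.Lib.MP_0430e4_lc.AC
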