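import Pool.Agent.Lib.MP_0430e4_lc.AC.Y2D
import Pool.Agent.Lib.MP_0430e4_lc.AC.T55D

/-!
Y2 module M (helper55, T55): the multiplier exists.
`S u = h (ρ u) + c u`, `h u = sin² ψ · u (1-u²) / (1 - 2 cos 2ψ u² + u⁴)`; order of choice: r0, A0 (from ψ
only), x2, th, c, ρ.
-/

set_option autoImplicit false

open Finset Polynomial

namespace Pool.Agent.Lib.MP_0430e4_lc.AC

open LPLOW Lower BY

section

open Complex Filter Topology Set

private theorem Y2M_ne {s : ℝ} (hs1 : s ≤ 1) {z : ℂ} (hz : ‖z‖ ≤ s / 4) : (1 + z) ≠ 0 := by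
  have hz1 : ‖z‖ ≤ 1 / 4 := by linarith
  intro h
  have : z = -1 := by linear_combination h
  rw [this, norm_neg, norm_one] at hz1
  linarith

private theorem Y2M_hcont {s : ℝ} {v : ℂ} (h : T55.dd s v ≠ 0) : ContinuousAt (T55.hh s) v :=
  (T55.hh_diff h).continuousAt

/-- the bound of `h` near `z = 0`, for `ρ` near `1` -/
private theorem Y2M_event {s : ℝ} (hs : 0 < s) (hs1 : s ≤ 1) : ∃ M0 : ℝ, 0 < M0 ∧
    ∀ᶠ ρ : ℝ in 𝓝 (1 : ℝ), ∀ z ∈ Metric.closedBall (0 : ℂ) (s / 4),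
      ‖T55.hh s ((ρ : ℂ) * ((1 - z) / (1 + z)))‖ < M0 := by
  have hc : ContinuousOn (fun z : ℂ => T55.hh s ((1 - z) / (1 + z)))
      (Metric.closedBall (0 : ℂ) (s / 4)) := by
    intro z hz
    rw [mem_closedBall_zero_iff] at hz
    have h1 := Y2M_ne hs1 hz
    have c1 : ContinuousAt (fun z : ℂ => (1 - z) / (1 + z)) z :=
      ContinuousAt.div (by fun_prop) (by fun_prop) h1
    exact (ContinuousAt.comp (f := fun z : ℂ => (1 - z) / (1 + z)) (g := T55.hh s)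
      (Y2M_hcont (T55.dd_z_ne hs hs1 hz)) c1).continuousWithinAt
  obtain ⟨M, hM⟩ := (isCompact_closedBall (0 : ℂ) (s / 4)).exists_bound_of_continuousOn hc
  refine ⟨max M 0 + 1, by positivity, ?_⟩
  apply (isCompact_closedBall (0 : ℂ) (s / 4)).eventually_forall_of_forall_eventually
  intro z hz
  have hMz := hM z hz
  rw [mem_closedBall_zero_iff] at hz
  have h1 := Y2M_ne hs1 hz
  have c1 : ContinuousAt (fun p : ℝ × ℂ => (1 - p.2) / (1 + p.2)) ((1 : ℝ), z) := by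
    apply ContinuousAt.div (by fun_prop) (by fun_prop)
    simpa using h1
  have c2 : ContinuousAt (fun p : ℝ × ℂ => (p.1 : ℂ) * ((1 - p.2) / (1 + p.2))) ((1 : ℝ), z) :=
    (continuous_ofReal.comp continuous_fst).continuousAt.mul c1
  have c3 : ContinuousAt (fun p : ℝ × ℂ => ‖T55.hh s ((p.1 : ℂ) * ((1 - p.2) / (1 + p.2)))‖)
      ((1 : ℝ), z) := by
    refine ContinuousAt.norm ?_
    refine ContinuousAt.comp (f := fun p : ℝ × ℂ => (p.1 : ℂ) * ((1 - p.2) / (1 + p.2)))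
      (g := T55.hh s) ?_ c2
    apply Y2M_hcont
    simp only [ofReal_one, one_mul]
    exact T55.dd_z_ne hs hs1 hz
  apply c3.eventually_lt_const
  simp only [ofReal_one, one_mul]
  have h2 : ‖T55.hh s ((1 - z) / (1 + z))‖ ≤ max M 0 := le_trans hMz (le_max_left _ _)
  linarith

private theorem Y2M_exists {ψ : ℝ} (h0 : 0 < ψ) (h1 : ψ < Real.pi / 2) : ∃ A0 : ℝ, 0 < A0 ∧
    ∀ w r0 : ℝ, 0 < w → 0 < r0 → ∃ (S : ℂ → ℂ) (R lam c1 c3 : ℝ),
      T55.MultB ψ w r0 (Real.sin ψ / 4) S R lam c1 c3 ∧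
        ∀ z : ℂ, ‖z‖ < Real.sin ψ / 4 → ‖S ((1 - z) / (1 + z)) - S 1‖ ≤ A0 := by
  have hpi := Real.pi_pos
  have hs : 0 < Real.sin ψ := Real.sin_pos_of_pos_of_lt_pi h0 (by linarith)
  have hs1 : Real.sin ψ ≤ 1 := Real.sin_le_one ψ
  set s := Real.sin ψ with hsdef
  obtain ⟨M0, hM0, e6⟩ := Y2M_event hs hs1
  refine ⟨M0 + 5, by positivity, ?_⟩
  intro w r0 hw hr0
  obtain ⟨K, hK, hcirc⟩ := T55.circle h0 h1 hw
  have hs2 : s ^ 2 ≤ 1 := by nlinarith
  have e1 := T55.seg_event (K := K) hs hs1 hr0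
  have e2 := T55.small_event hs hs1
  have e3 : ∀ᶠ ρ in 𝓝 (1 : ℝ), 1 / 2 < T55.lam s K ρ := by
    apply (T55.lam_cont hs K).continuousAt.eventually_const_lt
    rw [T55.lam_one hs]
    norm_num
  have e4 : ∀ᶠ ρ in 𝓝 (1 : ℝ), 1 / 2 < ρ := eventually_gt_nhds (by norm_num)
  have e7 : ∀ᶠ ρ in 𝓝 (1 : ℝ), K * (1 - ρ) < 1 := by
    have hcK : Continuous (fun ρ : ℝ => K * (1 - ρ)) := by fun_prop
    apply hcK.continuousAt.eventually_lt_const
    simp
  have e8 : ∀ᶠ ρ in 𝓝 (1 : ℝ), |T55.hr s ρ| < 1 := by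
    apply (T55.hr_cont hs).abs.continuousAt.eventually_lt_const
    simp only [T55.hr_one, abs_zero]
    exact one_pos
  have e5 : ∀ᶠ ρ in 𝓝[<] (1 : ℝ), (∀ x ∈ Icc r0 1, T55.EE s K ρ x < -(r0 ^ 3 / 6)) ∧
      (∀ z ∈ Metric.closedBall (0 : ℂ) (s / 4), T55.dd s ((ρ : ℂ) * ((1 - z) / (1 + z))) ≠ 0) ∧
      1 / 2 < T55.lam s K ρ ∧ 1 / 2 < ρ ∧ ρ < 1 ∧
      (∀ z ∈ Metric.closedBall (0 : ℂ) (s / 4),
        ‖T55.hh s ((ρ : ℂ) * ((1 - z) / (1 + z)))‖ < M0) ∧ K * (1 - ρ) < 1 ∧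
      |T55.hr s ρ| < 1 := by
    filter_upwards [nhdsWithin_le_nhds e1, nhdsWithin_le_nhds e2, nhdsWithin_le_nhds e3,
      nhdsWithin_le_nhds e4, self_mem_nhdsWithin, nhdsWithin_le_nhds e6, nhdsWithin_le_nhds e7,
      nhdsWithin_le_nhds e8] with ρ a1 a2 a3 a4 a5 a6 a7 a8
    exact ⟨a1, a2, a3, a4, a5, a6, a7, a8⟩
  obtain ⟨ρ, hseg, hsmall, hlam, hρ, hρ1, hM, hK1, hr1⟩ := e5.exists
  have hρ0 : 0 < ρ := by linarith
  have hc : 0 < K * (1 - ρ) := mul_pos hK (by linarith)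
  have hone' : T55.SS s ρ (K * (1 - ρ)) 1 = ((T55.hr s ρ + K * (1 - ρ) : ℝ) : ℂ) := by
    have := T55.SS_ofReal s ρ (K * (1 - ρ)) 1
    rw [ofReal_one] at this
    rw [this, mul_one, mul_one]
  have hone : (T55.SS s ρ (K * (1 - ρ)) 1).re = T55.hr s ρ + K * (1 - ρ) := by
    rw [hone', ofReal_re]
  refine ⟨T55.SS s ρ (K * (1 - ρ)), 1 / ρ, T55.lam s K ρ, K * (1 - ρ) / 2, r0 ^ 3 / 6, ?_, ?_⟩
  · refine ⟨?_, by linarith, by positivity, by positivity, T55.SS_diff hs2 hρ0, T55.SS_conj _ _ _,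
      T55.SS_neg _ _ _, ?_, ?_, ?_, ?_, ?_, ?_, ?_⟩
    · rw [lt_div_iff₀ hρ0]
      linarith
    · exact fun u hu h => T55.SS_re_nonneg hs2 hρ0.le hρ1.le hc.le hu h
    · exact fun u h => T55.SS_re_zero _ _ _ h
    · rw [T55.SS_re, mul_one]
      have : 0 ≤ (T55.hh s (ρ : ℂ)).re := by
        apply T55.hh_re_nonneg hs2
        · rw [norm_real, Real.norm_of_nonneg hρ0.le]
          exact hρ1.le
        · rw [ofReal_re]
          exact hρ0.le
      rw [one_re, mul_one]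
      linarith
    · have h := T55.SS_hasDerivAt_one hs ρ (K * (1 - ρ))
      have e : (ρ * T55.hr' s ρ + K * (1 - ρ) : ℝ) = -T55.lam s K ρ / 2 := by
        unfold T55.lam
        ring
      rw [e] at h
      exact h
    · intro φ a b c
      exact hcirc ρ hρ.le hρ1 φ a b c
    · intro x hx hx1
      have h := hseg x ⟨hx, hx1⟩
      rw [T55.SS_ofReal, ofReal_re, hone]
      unfold T55.EE at h
      linarith
    · intro z hz
      apply DifferentiableAt.differentiableWithinAt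
      rw [mem_ball_zero_iff] at hz
      have h1 := Y2M_ne hs1 hz.le
      have hd := hsmall z (by rw [mem_closedBall_zero_iff]; exact hz.le)
      have a1 : DifferentiableAt ℂ (T55.SS s ρ (K * (1 - ρ))) ((1 - z) / (1 + z)) :=
        T55.SS_diffAt hd
      have a2 : DifferentiableAt ℂ (fun z : ℂ => (1 - z) / (1 + z)) z :=
        DifferentiableAt.div (by fun_prop) (by fun_prop) h1
      exact DifferentiableAt.comp z a1 a2
  · intro z hz
    have h1 := Y2M_ne hs1 hz.le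
    have hb := hM z (by rw [mem_closedBall_zero_iff]; exact hz.le)
    have hz1 : ‖z‖ ≤ 1 / 4 := by linarith
    have hq : ‖(1 - z) / (1 + z)‖ ≤ 2 := by
      rw [norm_div, div_le_iff₀ (norm_pos_iff.2 h1)]
      have h2 : ‖1 - z‖ ≤ 1 + ‖z‖ := by
        have := norm_sub_le (1 : ℂ) z
        rwa [norm_one] at this
      have h3 : 1 - ‖z‖ ≤ ‖1 + z‖ := by
        have := norm_sub_norm_le (1 : ℂ) (-z)
        rw [norm_one, norm_neg, sub_neg_eq_add] at this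
        exact this
      linarith
    have hSz : T55.SS s ρ (K * (1 - ρ)) ((1 - z) / (1 + z)) =
        T55.hh s ((ρ : ℂ) * ((1 - z) / (1 + z))) +
          ((K * (1 - ρ) : ℝ) : ℂ) * ((1 - z) / (1 + z)) := rfl
    rw [hSz, hone']
    have n1 : ‖((K * (1 - ρ) : ℝ) : ℂ) * ((1 - z) / (1 + z))‖ ≤ 2 := by
      rw [norm_mul, norm_real, Real.norm_of_nonneg hc.le]
      calc K * (1 - ρ) * ‖(1 - z) / (1 + z)‖ ≤ 1 * 2 :=
            mul_le_mul hK1.le hq (norm_nonneg _) one_pos.le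
        _ = 2 := by norm_num
    have n2 : ‖((T55.hr s ρ + K * (1 - ρ) : ℝ) : ℂ)‖ ≤ 2 := by
      rw [norm_real, Real.norm_eq_abs]
      have := abs_add_le (T55.hr s ρ) (K * (1 - ρ))
      rw [abs_of_pos hc] at this
      linarith
    have n3 := norm_sub_le (T55.hh s ((ρ : ℂ) * ((1 - z) / (1 + z))) +
          ((K * (1 - ρ) : ℝ) : ℂ) * ((1 - z) / (1 + z))) ((T55.hr s ρ + K * (1 - ρ) : ℝ) : ℂ)
    have n4 := norm_add_le (T55.hh s ((ρ : ℂ) * ((1 - z) / (1 + z))))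
          (((K * (1 - ρ) : ℝ) : ℂ) * ((1 - z) / (1 + z)))
    linarith

end

theorem mul_exists {ψ : ℝ} (h0 : 0 < ψ) (h1 : ψ < Real.pi / 2) : ∃ r0 A0 : ℝ, 0 < r0 ∧ r0 < 1 ∧
    0 < A0 ∧ ∀ x2 th : ℝ, 0 < x2 → 0 < th → ∃ (S : ℂ → ℂ) (R A c : ℝ), Mul ψ th x2 r0 A0 S R A c := by
  obtain ⟨A0, hA0, H⟩ := Y2M_exists h0 h1
  have hs : 0 < Real.sin ψ := Real.sin_pos_of_pos_of_lt_pi h0 (by linarith [Real.pi_pos])
  have hs1 : Real.sin ψ ≤ 1 := Real.sin_le_one ψ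
  refine ⟨Real.sin ψ / 4, A0, by positivity, by linarith, hA0, ?_⟩
  intro x2 th hx2 hth
  obtain ⟨S, R, lam, c1, c3, h, hzb⟩ := H th x2 hth hx2
  obtain ⟨R', B, hR1, hR2, hB, hbd⟩ := h.bound
  have hd : deriv S 1 = ((-lam / 2 : ℝ) : ℂ) := h.deriv1.deriv
  refine ⟨S, R', B, c1, ?_⟩
  refine
    { hR := hR1
      hc := h.hc1
      hA := hB
      diff := h.diff.mono (Metric.ball_subset_ball hR2.le)
      conj := h.conj
      odd := h.odd
      bd := fun u hu => hbd u hu.le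
      pos1 := h.pos1
      right := h.nonneg
      circ := ?_
      slope := ?_
      D := ?_
      zdiff := h.small
      zbd := fun z hz => hzb z hz }
  · intro φ a b hφ
    have h2 : th ≤ |φ - ψ| := by
      rcases hφ with hφ | hφ
      · rw [abs_sub_comm]
        exact le_trans (by linarith) (le_abs_self _)
      · exact le_trans (by linarith) (le_abs_self _)
    have h3 := h.circle φ a b h2
    unfold up
    rw [Complex.ofReal_zero, zero_add]
    exact h3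
  · rw [hd, Complex.ofReal_re]
    have := h.hlam
    linarith
  · intro x hx hx1
    have h2 := h.seg x hx hx1
    have h3 := h.hc3
    rw [hd, Complex.ofReal_re]
    have e : zu (x : ℂ) = (((1 - x) / (1 + x) : ℝ) : ℂ) := by
      unfold zu
      push_cast
      rfl
    rw [e]
    have e2 : 2 * (-lam / 2) * Real.arctan x = -(lam * Real.arctan x) := by ring
    rw [e2]
    linarith

end Pool.Agent.Lib.MP_0430e4_lc.AC
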