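import Pool.Agent.Lib.MP_0430e4_lc.AC.Y2Geo
import Pool.Agent.Lib.MP_0430e4_lc.AC.Y2F

/-!
Y2 module P: bounds of one certificate `q` of length `n0` and of `(1+z)^n q^(n/n0)`.
-/

set_option autoImplicit false

open Finset Polynomial

namespace Pool.Agent.Lib.MP_0430e4_lc.AC

open LPLOW Lower BY

/-- the modulus of a polynomial is at most the polynomial of the moduli -/
private theorem y2p_abs (q : ℝ[X]) (u : ℂ) :
    ‖q.aeval u‖ ≤ ∑ j ∈ range (q.natDegree + 1), |q.coeff j| * ‖u‖ ^ j := by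
  rw [Polynomial.aeval_eq_sum_range]
  refine (norm_sum_le _ _).trans (Finset.sum_le_sum fun j _ => ?_)
  rw [norm_smul, norm_pow, Real.norm_eq_abs]

section
variable {t : ℝ} {n0 K0 : ℕ} {A e κ ξ : ℝ} {q : ℝ[X]}

private theorem y2p_one (h : QB t n0 K0 A e κ q) :
    ∑ j ∈ range (q.natDegree + 1), q.coeff j = 1 := by
  have := h.one
  rw [Polynomial.eval_eq_sum_range] at this
  simpa using this

/-- nonnegative coefficients, total one -/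
theorem q_out (h : QB t n0 K0 A e κ q) {u : ℂ} (hu : 1 ≤ ‖u‖) : ‖q.aeval u‖ ≤ ‖u‖ ^ K0 := by
  refine (y2p_abs q u).trans ?_
  calc ∑ j ∈ range (q.natDegree + 1), |q.coeff j| * ‖u‖ ^ j
      ≤ ∑ j ∈ range (q.natDegree + 1), q.coeff j * ‖u‖ ^ K0 := by
        refine Finset.sum_le_sum fun j hj => ?_
        rw [abs_of_nonneg (h.nonneg j)]
        refine mul_le_mul_of_nonneg_left (pow_le_pow_right₀ hu ?_) (h.nonneg j)
        have := Finset.mem_range.1 hj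
        have := h.deg
        omega
    _ = ‖u‖ ^ K0 := by rw [← Finset.sum_mul, y2p_one h, one_mul]

theorem q_in (h : QB t n0 K0 A e κ q) {u : ℂ} (hu : ‖u‖ ≤ 1) : ‖q.aeval u‖ ≤ 1 := by
  refine (y2p_abs q u).trans ?_
  calc ∑ j ∈ range (q.natDegree + 1), |q.coeff j| * ‖u‖ ^ j
      ≤ ∑ j ∈ range (q.natDegree + 1), q.coeff j := by
        refine Finset.sum_le_sum fun j hj => ?_
        rw [abs_of_nonneg (h.nonneg j)]
        exact mul_le_of_le_one_right (h.nonneg j) (pow_le_one₀ (norm_nonneg u) hu)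
    _ = 1 := y2p_one h

private theorem y2p_exp {x : ℝ} (h0 : 0 ≤ x) (h1 : x ≤ 1) : Real.exp x ≤ 1 + x + x ^ 2 := by
  have h2 := Real.norm_exp_sub_one_sub_id_le (x := x) (by rw [Real.norm_eq_abs, abs_of_nonneg h0]; exact h1)
  rw [Real.norm_eq_abs, Real.norm_eq_abs, sq_abs] at h2
  have := le_abs_self (Real.exp x - 1 - x)
  linarith

private theorem y2p_up (σ φ : ℝ) : ‖up σ φ‖ = Real.exp σ := by
  unfold up
  rw [Complex.norm_exp]
  simp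

private theorem y2p_mean (h : QB t n0 K0 A e κ q) :
    ∑ j ∈ range (q.natDegree + 1), q.coeff j * (j : ℝ) ≤ κ * n0 := by
  have := h.mean
  rw [Polynomial.derivative_eval, Polynomial.sum_over_range] at this
  · simpa using this
  · intro n
    simp

/-- concentration: `|q(e^(σ+iφ))| ≤ exp (κ n0 σ + n0² σ²)` -/
theorem q_mean (h : QB t n0 K0 A e κ q) (hK : K0 ≤ n0) {σ φ : ℝ} (h0 : 0 ≤ σ) (h1 : σ * n0 ≤ 1) :
    ‖q.aeval (up σ φ)‖ ≤ Real.exp (κ * n0 * σ + (n0 : ℝ) ^ 2 * σ ^ 2) := by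
  refine (y2p_abs q _).trans ?_
  rw [y2p_up]
  have hstep : ∑ j ∈ range (q.natDegree + 1), |q.coeff j| * Real.exp σ ^ j ≤
      1 + σ * (κ * n0) + (n0 : ℝ) ^ 2 * σ ^ 2 := by
    calc ∑ j ∈ range (q.natDegree + 1), |q.coeff j| * Real.exp σ ^ j
        ≤ ∑ j ∈ range (q.natDegree + 1),
            (q.coeff j + σ * (q.coeff j * (j : ℝ)) + (n0 : ℝ) ^ 2 * σ ^ 2 * q.coeff j) := by
          refine Finset.sum_le_sum fun j hj => ?_
          have hj1 := Finset.mem_range.1 hj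
          have hd := h.deg
          have hjn : (j : ℝ) ≤ n0 := by
            have : j ≤ n0 := by omega
            exact_mod_cast this
          have hj0 : (0 : ℝ) ≤ j := Nat.cast_nonneg j
          have hx0 : 0 ≤ (j : ℝ) * σ := mul_nonneg hj0 h0
          have hxn : (j : ℝ) * σ ≤ n0 * σ := mul_le_mul_of_nonneg_right hjn h0
          have hx1 : (j : ℝ) * σ ≤ 1 := by linarith [mul_comm (n0 : ℝ) σ]
          rw [abs_of_nonneg (h.nonneg j), ← Real.exp_nat_mul]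
          have he := y2p_exp hx0 hx1
          have hsq : ((j : ℝ) * σ) ^ 2 ≤ (n0 : ℝ) ^ 2 * σ ^ 2 := by
            rw [← mul_pow]
            exact pow_le_pow_left₀ hx0 hxn 2
          have := mul_le_mul_of_nonneg_left (he.trans (by linarith :
            1 + (j : ℝ) * σ + ((j : ℝ) * σ) ^ 2 ≤ 1 + (j : ℝ) * σ + (n0 : ℝ) ^ 2 * σ ^ 2)) (h.nonneg j)
          refine this.trans (le_of_eq ?_)
          ring
      _ = 1 + σ * (∑ j ∈ range (q.natDegree + 1), q.coeff j * (j : ℝ)) +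
            (n0 : ℝ) ^ 2 * σ ^ 2 := by
          rw [Finset.sum_add_distrib, Finset.sum_add_distrib, ← Finset.mul_sum, ← Finset.mul_sum,
            y2p_one h, mul_one]
      _ ≤ 1 + σ * (κ * n0) + (n0 : ℝ) ^ 2 * σ ^ 2 := by
          have := mul_le_mul_of_nonneg_left (y2p_mean h) h0
          linarith
  refine hstep.trans ?_
  have := Real.add_one_le_exp (κ * n0 * σ + (n0 : ℝ) ^ 2 * σ ^ 2)
  linarith [mul_comm σ (κ * n0)]

private theorem y2p_add {z : ℂ} (hz : -1 < z.re) : 1 + z ≠ 0 := by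
  intro h
  have := congrArg Complex.re h
  simp at this
  linarith

private theorem y2p_pow {a Y : ℝ} (ha : 0 < a) (m : ℕ) :
    a ^ m * Real.exp (m * Y) = Real.exp (m * (Y + Real.log a)) := by
  rw [mul_add, Real.exp_add, mul_comm]
  congr 1
  rw [Real.exp_nat_mul, Real.exp_log ha]

/-- right half plane, both signs of `u` -/
theorem q_right (ht : 0 < t) (h : QB t n0 (Kx ξ n0) A e κ q) (hξ : 0 < ξ) (hξ1 : ξ ≤ 1 / 4)
    (hn : 1 ≤ ξ * n0) {z : ℂ} (hz : 0 ≤ z.re) (h0 : 0 < ‖z‖) (h1 : ‖z‖ < 1) :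
    ∃ s ∈ YG.Rc (t / 2), wS (t / 2) s = zu z ∧ zS (t / 2) s = z ∧
      ‖1 + z‖ ^ n0 * ‖q.aeval (zu z)‖ ≤
        A * (Real.exp (n0 * (PhS (t / 2) (Exact.cval t) s + e / (t / 2) * s.re)) +
          Real.exp (n0 * (Real.log (1 + ‖z‖ ^ 2) / 2 + 4 * ξ * ‖z‖))) ∧
      ‖1 + z‖ ^ n0 * ‖q.aeval (-zu z)‖ ≤
        A * (Real.exp (n0 * (PhS (t / 2) (Exact.cval t) s + e / (t / 2) * s.re)) +
          Real.exp (n0 * (Real.log (1 + ‖z‖ ^ 2) / 2 + 4 * ξ * ‖z‖))) := by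
  obtain ⟨s, hs, hw, hzs⟩ := zS_surj (half_pos ht) h1 hz
  have hz1 : 1 + z ≠ 0 := y2p_add (by linarith)
  have hzn : 0 < ‖1 + z‖ := norm_pos_iff.2 hz1
  have hK1 : ((Kx ξ n0 : ℕ) : ℝ) ≤ (1 / 2 - ξ) * n0 :=
    Nat.floor_le (mul_nonneg (by linarith) (Nat.cast_nonneg n0))
  have hK2 : (1 / 2 - ξ) * n0 < ((Kx ξ n0 : ℕ) : ℝ) + 1 := Nat.lt_floor_add_one _
  have hn0 : (0 : ℝ) ≤ n0 := Nat.cast_nonneg n0
  have hgeo : ‖1 + z‖ ^ n0 * ‖zu z‖ ^ (Kx ξ n0) ≤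
      Real.exp (n0 * (Real.log (1 + ‖z‖ ^ 2) / 2 + 4 * ξ * ‖z‖)) := by
    have := geo_all (n := n0) (K := Kx ξ n0) (ξ := 2 * ξ) (by
      have : (2 : ℝ) * ((Kx ξ n0 : ℕ) : ℝ) ≤ n0 := by nlinarith
      exact_mod_cast this) (by nlinarith) h1
    refine this.trans (le_of_eq ?_)
    congr 2
    ring
  have hA : 0 ≤ A := by
    have hb := h.mass
    have h00 : 0 ≤ q.eval 0 := by
      rw [← Polynomial.coeff_zero_eq_eval_zero]
      exact h.nonneg 0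
    by_contra hcon
    have := mul_neg_of_neg_of_pos (not_le.1 hcon) (Real.exp_pos (n0 * (-Exact.cval t + e)))
    linarith
  have hmain : ∀ X : ℝ, X ≤ A * (Real.exp (n0 * (VhS (t / 2) (Exact.cval t) s + e / (t / 2) * s.re)) +
      ‖wS (t / 2) s‖ ^ (Kx ξ n0)) →
      ‖1 + z‖ ^ n0 * X ≤ A * (Real.exp (n0 * (PhS (t / 2) (Exact.cval t) s + e / (t / 2) * s.re)) +
          Real.exp (n0 * (Real.log (1 + ‖z‖ ^ 2) / 2 + 4 * ξ * ‖z‖))) := by
    intro X hX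
    have hmul := mul_le_mul_of_nonneg_left hX (pow_nonneg hzn.le n0)
    refine hmul.trans ?_
    have hlog : Real.log 2 - Real.log ‖1 + wS (t / 2) s‖ = Real.log ‖1 + z‖ := by
      have hww : (1 + wS (t / 2) s) * (1 + z) = 2 := by
        rw [hw]
        unfold zu
        field_simp
        ring
      have hne : 1 + wS (t / 2) s ≠ 0 := by
        intro hh
        rw [hh, zero_mul] at hww
        norm_num at hww
      have hn2 : ‖1 + wS (t / 2) s‖ * ‖1 + z‖ = 2 := by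
        rw [← norm_mul, hww]
        simp
      have := congrArg Real.log hn2
      rw [Real.log_mul (norm_ne_zero_iff.2 hne) hzn.ne'] at this
      linarith
    have hP : ‖1 + z‖ ^ n0 * Real.exp (n0 * (VhS (t / 2) (Exact.cval t) s + e / (t / 2) * s.re)) =
        Real.exp (n0 * (PhS (t / 2) (Exact.cval t) s + e / (t / 2) * s.re)) := by
      rw [y2p_pow hzn]
      congr 2
      unfold PhS
      rw [hlog]
      ring
    calc ‖1 + z‖ ^ n0 * (A * (Real.exp (n0 * (VhS (t / 2) (Exact.cval t) s + e / (t / 2) * s.re)) +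
          ‖wS (t / 2) s‖ ^ (Kx ξ n0)))
        = A * (‖1 + z‖ ^ n0 *
            Real.exp (n0 * (VhS (t / 2) (Exact.cval t) s + e / (t / 2) * s.re)) +
            ‖1 + z‖ ^ n0 * ‖wS (t / 2) s‖ ^ (Kx ξ n0)) := by ring
      _ ≤ _ := by
          refine mul_le_mul_of_nonneg_left (add_le_add hP.le ?_) hA
          rw [hw]
          exact hgeo
  refine ⟨s, hs, hw, hzs, hmain _ ?_, hmain _ ?_⟩
  · have := h.bd s hs
    rwa [hw] at this ⊢
  · have := h.bdn s hs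
    rwa [hw] at this ⊢

/-- from one certificate to its power: padding with `n - n0 (n/n0) < n0` letters -/
theorem pow_pad {Y B : ℝ} {a b : ℝ} (ha : 0 ≤ a) (ha2 : a ≤ 2) (hb : 0 ≤ b) (hn0 : 1 ≤ n0) (hB : 1 ≤ B)
    (h : a ^ n0 * b ≤ B * Real.exp (n0 * Y)) (n : ℕ) :
    a ^ n * b ^ (n / n0) ≤ (2 : ℝ) ^ n0 * Real.exp (n0 * |Y|) *
      Real.exp (n * (Y + Real.log B / n0)) := by
  have hr : n % n0 < n0 := Nat.mod_lt _ hn0
  have hdiv : n0 * (n / n0) + n % n0 = n := Nat.div_add_mod n n0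
  have hn0' : (0 : ℝ) < n0 := by exact_mod_cast hn0
  have hB0 : 0 < B := by linarith
  have hlB : 0 ≤ Real.log B := Real.log_nonneg hB
  have hdr : (n0 : ℝ) * ((n / n0 : ℕ) : ℝ) + ((n % n0 : ℕ) : ℝ) = n := by exact_mod_cast hdiv
  have hrr : ((n % n0 : ℕ) : ℝ) ≤ n0 := by exact_mod_cast hr.le
  have hr0 : (0 : ℝ) ≤ ((n % n0 : ℕ) : ℝ) := Nat.cast_nonneg _
  have h1 : a ^ n * b ^ (n / n0) = (a ^ n0 * b) ^ (n / n0) * a ^ (n % n0) := by
    conv_lhs => rw [← hdiv]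
    rw [pow_add, pow_mul, mul_pow]
    have : (n0 * (n / n0) + n % n0) / n0 = n / n0 := by rw [hdiv]
    rw [this]
    ring
  have h2 : (a ^ n0 * b) ^ (n / n0) ≤ (B * Real.exp (n0 * Y)) ^ (n / n0) :=
    pow_le_pow_left₀ (mul_nonneg (pow_nonneg ha _) hb) h _
  have h3 : a ^ (n % n0) ≤ (2 : ℝ) ^ n0 :=
    (pow_le_pow_left₀ ha ha2 _).trans (pow_le_pow_right₀ (by norm_num) hr.le)
  have h4 : (B * Real.exp (n0 * Y)) ^ (n / n0) ≤
      Real.exp (n0 * |Y|) * Real.exp (n * (Y + Real.log B / n0)) := by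
    have e1 : (B * Real.exp (n0 * Y)) ^ (n / n0) =
        Real.exp (((n / n0 : ℕ) : ℝ) * (Real.log B + n0 * Y)) := by
      rw [Real.exp_nat_mul (Real.log B + n0 * Y), Real.exp_add, Real.exp_log hB0]
    rw [e1, ← Real.exp_add]
    apply Real.exp_le_exp.2
    have e2 : ((n / n0 : ℕ) : ℝ) ≤ n / n0 := by
      rw [le_div_iff₀ hn0']
      linarith [mul_comm (n0 : ℝ) ((n / n0 : ℕ) : ℝ)]
    have e3 : ((n / n0 : ℕ) : ℝ) * Real.log B ≤ n / n0 * Real.log B :=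
      mul_le_mul_of_nonneg_right e2 hlB
    have e4 : ((n / n0 : ℕ) : ℝ) * (n0 * Y) = n * Y - ((n % n0 : ℕ) : ℝ) * Y := by
      rw [← hdr]
      ring
    have e5 : -(((n % n0 : ℕ) : ℝ) * Y) ≤ n0 * |Y| := by
      have := neg_abs_le Y
      have := abs_nonneg Y
      nlinarith [mul_le_mul_of_nonneg_right hrr (abs_nonneg Y)]
    have e6 : (n : ℝ) * (Y + Real.log B / n0) = n * Y + n / n0 * Real.log B := by
      field_simp
    rw [e6, mul_add, e4]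
    linarith
  rw [h1]
  calc (a ^ n0 * b) ^ (n / n0) * a ^ (n % n0)
      ≤ (Real.exp (n0 * |Y|) * Real.exp (n * (Y + Real.log B / n0))) * 2 ^ n0 :=
        mul_le_mul (h2.trans h4) h3 (pow_nonneg ha _) (by positivity)
    _ = _ := by ring

/-- the left half plane -/
theorem P_left (h : QB t n0 (Kx ξ n0) A e κ q) (hξ : 0 < ξ) (hξ1 : ξ ≤ 1 / 4) (hn0 : 1 ≤ n0)
    {η' : ℝ} (hη : 0 < η') (hη1 : η' ≤ ξ) {n : ℕ} {z : ℂ} (hz : z.re ≤ 0) (h1 : ‖z‖ < 1) :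
    ‖1 + z‖ ^ n * ‖q.aeval (zu z)‖ ^ (n / n0) * ‖zu z‖ ^ ⌊η' * n⌋₊ ≤
      Real.exp (n * (Real.log (1 + ‖z‖ ^ 2) / 2)) ∧
    ‖1 + z‖ ^ n * ‖q.aeval (-zu z)‖ ^ (n / n0) * ‖zu z‖ ^ ⌊η' * n⌋₊ ≤
      Real.exp (n * (Real.log (1 + ‖z‖ ^ 2) / 2)) := by
  have hu : 1 ≤ ‖zu z‖ := zu_norm_ge hz h1
  have hK1 : ((Kx ξ n0 : ℕ) : ℝ) ≤ (1 / 2 - ξ) * n0 :=
    Nat.floor_le (mul_nonneg (by linarith) (Nat.cast_nonneg n0))
  have hnn : (0 : ℝ) ≤ n := Nat.cast_nonneg n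
  have hfl : ((⌊η' * n⌋₊ : ℕ) : ℝ) ≤ η' * n := Nat.floor_le (mul_nonneg hη.le hnn)
  have hdiv : ((n0 * (n / n0) : ℕ) : ℝ) ≤ n := by exact_mod_cast Nat.mul_div_le n n0
  have hK : 2 * (Kx ξ n0 * (n / n0) + ⌊η' * n⌋₊) ≤ n := by
    have e1 : ((Kx ξ n0 : ℕ) : ℝ) * ((n / n0 : ℕ) : ℝ) ≤ (1 / 2 - ξ) * n := by
      calc ((Kx ξ n0 : ℕ) : ℝ) * ((n / n0 : ℕ) : ℝ)
          ≤ (1 / 2 - ξ) * n0 * ((n / n0 : ℕ) : ℝ) :=
            mul_le_mul_of_nonneg_right hK1 (Nat.cast_nonneg _)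
        _ = (1 / 2 - ξ) * ((n0 * (n / n0) : ℕ) : ℝ) := by push_cast; ring
        _ ≤ (1 / 2 - ξ) * n := mul_le_mul_of_nonneg_left hdiv (by linarith)
    have e2 : η' * n ≤ ξ * n := mul_le_mul_of_nonneg_right hη1 hnn
    have : (2 : ℝ) * (((Kx ξ n0 : ℕ) : ℝ) * ((n / n0 : ℕ) : ℝ) + ((⌊η' * n⌋₊ : ℕ) : ℝ)) ≤ n := by
      linarith
    exact_mod_cast this
  have key : ∀ v : ℂ, ‖v‖ = ‖zu z‖ →
      ‖1 + z‖ ^ n * ‖q.aeval v‖ ^ (n / n0) * ‖zu z‖ ^ ⌊η' * n⌋₊ ≤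
        Real.exp (n * (Real.log (1 + ‖z‖ ^ 2) / 2)) := by
    intro v hv
    have hq := q_out h (u := v) (by rw [hv]; exact hu)
    rw [hv] at hq
    have hq2 : ‖q.aeval v‖ ^ (n / n0) ≤ ‖zu z‖ ^ (Kx ξ n0 * (n / n0)) := by
      rw [pow_mul]
      exact pow_le_pow_left₀ (norm_nonneg _) hq _
    calc ‖1 + z‖ ^ n * ‖q.aeval v‖ ^ (n / n0) * ‖zu z‖ ^ ⌊η' * n⌋₊
        ≤ ‖1 + z‖ ^ n * ‖zu z‖ ^ (Kx ξ n0 * (n / n0)) * ‖zu z‖ ^ ⌊η' * n⌋₊ := by gcongr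
      _ = ‖1 + z‖ ^ n * ‖zu z‖ ^ (Kx ξ n0 * (n / n0) + ⌊η' * n⌋₊) := by
          rw [mul_assoc, ← pow_add]
      _ ≤ _ := geo_left hK hz h1
  exact ⟨key _ rfl, key _ (norm_neg _)⟩

end

end Pool.Agent.Lib.MP_0430e4_lc.AC
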