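import Pool.Agent.Lib.MP_0430e4_lc.AC.Y2D
import Pool.Agent.Lib.MP_0430e4_lc.AC.YC1

/-!
Y2 module Q (helper80): the cut certificate. Fixed certificate of level `(1 - 2 dII t - x') n0` with mass
`≤ exp n0 (log 2 - cval t - (1-ν) lam2 t x')` (cost lemma YC1), cut at `K0 = Kx ξ n0`
(Markov: `∑ wt x * hatW f x ≤ 2^n0 (n0 - l)/2`, `l ≥ 4 ξ n0`), `strip2` and its mirror image `strip2n`.
`A = (1 - 2 ξ) / (2 ξ)`.
-/

set_option autoImplicit false

open Finset Polynomial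

namespace Pool.Agent.Lib.MP_0430e4_lc.AC

open LPLOW Lower BY

/-- mirror image of `strip2` -/
theorem strip2n {η c : ℝ} (hη : 0 < η) {n : ℕ} {l ε : ℝ} {f : Wd n → ℝ} (hf : WCert l f)
    (hm : ∑ x, f x ≤ Real.exp (n * (Real.log 2 - c + ε))) {s : ℂ} (h0 : 0 ≤ s.re)
    (h1 : s.re ≤ η) :
    ‖Pf (hatW f) (-zz (nm η) ((η : ℂ) - s))‖ ≤
      Real.exp (n * ((GG (nm η) c ((η : ℂ) - s)).re + (Real.log 2 - c) + ε / η * s.re)) := by
  have hen := eta_nm hη
  have h2 := three_lines (nm_pos hη) (nm_lt hη) (c - ε) (F := fun w => Pf (hatW f) (-w))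
    ((differentiable_Pf (hatW f)).comp differentiable_neg)
    (N := Real.exp (n * (Real.log 2 - c + ε))) n
    (fun z hz => by
      rw [← Real.exp_add]
      refine (norm_Pf_hat_le hf (by rw [norm_neg]; exact hz.le)).trans (le_of_eq ?_)
      have : (n : ℝ) * (Real.log 2 - c + ε) + n * (c - ε) = n * Real.log 2 := by ring
      rw [this, Real.exp_nat_mul, Real.exp_log (by norm_num)])
    (fun y => by
      have h3 := norm_Pf_hat_imag hf (-y)
      have e : (((-y : ℝ)) : ℂ) * Complex.I = -((y : ℂ) * Complex.I) := by push_cast; ring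
      rw [e, neg_sq] at h3
      exact h3.trans (mul_le_mul_of_nonneg_right hm (by positivity)))
    (s := (η : ℂ) - s) (by rw [Complex.sub_re, Complex.ofReal_re]; linarith)
    (by rw [Complex.sub_re, Complex.ofReal_re, hen]; linarith)
  refine h2.trans (le_of_eq ?_)
  rw [← Real.exp_add]
  congr 1
  rw [GG_re, GG_re, hen, Complex.sub_re, Complex.ofReal_re]
  field_simp
  ring

/-! ### the cut of one certificate -/

section
variable {n : ℕ} {l : ℝ} {f : Wd n → ℝ}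

/-- the mean weight of the transform -/
theorem y2q_mean (hf : WCert l f) : ∑ x, (wt x : ℝ) * hatW f x ≤ 2 ^ n * ((n - l) / 2) := by
  have h1 := sum_hatW (fun y => ∑ i, f (y + sing i))
  have h2 : ∑ x, hatW (fun y => ∑ i, f (y + sing i)) x =
      n * ∑ x, hatW f x - 2 * ∑ x, (wt x : ℝ) * hatW f x := by
    rw [Finset.mul_sum, Finset.mul_sum, ← Finset.sum_sub_distrib]
    apply Finset.sum_congr rfl
    intro x _
    rw [hatW_adj]
    ring
  rw [h2, sum_hatW, hf.one] at h1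
  have h3 := hf.adj 0
  rw [hf.one, mul_one] at h3
  have h4 : (0 : ℝ) < 2 ^ n := by positivity
  have h5 := mul_le_mul_of_nonneg_left h3 h4.le
  linarith

/-- the transform mass up to weight `K` -/
noncomputable def y2q_M (f : Wd n → ℝ) (K : ℕ) : ℝ :=
  ∑ x ∈ univ.filter (fun x : Wd n => wt x ≤ K), hatW f x

/-- the cut certificate -/
noncomputable def y2q_q (f : Wd n → ℝ) (K : ℕ) : ℝ[X] :=
  ∑ x ∈ univ.filter (fun x : Wd n => wt x ≤ K), Polynomial.monomial (wt x) (hatW f x / y2q_M f K)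

theorem y2q_split (f : Wd n → ℝ) (K : ℕ) (g : Wd n → ℝ) :
    ∑ x, g x = ∑ x ∈ univ.filter (fun x : Wd n => wt x ≤ K), g x +
      ∑ x ∈ univ.filter (fun x : Wd n => ¬ wt x ≤ K), g x :=
  (Finset.sum_filter_add_sum_filter_not univ (fun x : Wd n => wt x ≤ K) g).symm

/-- Markov -/
theorem y2q_markov (hf : WCert l f) {K : ℕ} {κ : ℝ} (hκ : (n - l) / 2 ≤ κ * n) (hκ0 : 0 ≤ κ)
    {b : ℝ} (hb0 : 0 < b) (hb : b * n < K + 1) :
    2 ^ n * (1 - κ / b) ≤ y2q_M f K := by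
  have h1 := y2q_mean hf
  have h2 : (0 : ℝ) < 2 ^ n := by positivity
  have h3 : ∑ x, hatW f x = 2 ^ n := by rw [sum_hatW, hf.one, mul_one]
  rw [y2q_split f K] at h3
  set M1 := ∑ x ∈ univ.filter (fun x : Wd n => ¬ wt x ≤ K), hatW f x with hM1
  have h4 : ((K : ℝ) + 1) * M1 ≤ ∑ x, (wt x : ℝ) * hatW f x := by
    rw [y2q_split f K (fun x => (wt x : ℝ) * hatW f x), hM1, Finset.mul_sum]
    have h5 : 0 ≤ ∑ x ∈ univ.filter (fun x : Wd n => wt x ≤ K), (wt x : ℝ) * hatW f x :=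
      Finset.sum_nonneg fun x _ => mul_nonneg (Nat.cast_nonneg _) (hf.hat x)
    have h6 : ∑ x ∈ univ.filter (fun x : Wd n => ¬ wt x ≤ K), ((K : ℝ) + 1) * hatW f x ≤
        ∑ x ∈ univ.filter (fun x : Wd n => ¬ wt x ≤ K), (wt x : ℝ) * hatW f x := by
      apply Finset.sum_le_sum
      intro x hx
      rw [Finset.mem_filter] at hx
      apply mul_le_mul_of_nonneg_right _ (hf.hat x)
      have : K + 1 ≤ wt x := by omega
      exact_mod_cast this
    linarith
  have hM1n : 0 ≤ M1 := Finset.sum_nonneg fun x _ => hf.hat x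
  have h5 : ((K : ℝ) + 1) * M1 ≤ 2 ^ n * (κ * n) :=
    h4.trans (h1.trans (mul_le_mul_of_nonneg_left hκ h2.le))
  have hK : (0 : ℝ) < K + 1 := by positivity
  have h6 : M1 ≤ 2 ^ n * (κ / b) := by
    have h7 : b * M1 * n ≤ 2 ^ n * κ * n := by
      have : b * n * M1 ≤ (K + 1) * M1 := mul_le_mul_of_nonneg_right hb.le hM1n
      nlinarith
    rcases Nat.eq_zero_or_pos n with hn | hn
    · subst hn
      have h8 : M1 ≤ 0 := by
        have : ((K : ℝ) + 1) * M1 ≤ 0 := by simpa using h5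
        by_contra hcon
        push Not at hcon
        have := mul_pos hK hcon
        linarith
      have : 0 ≤ (2 : ℝ) ^ 0 * (κ / b) := by positivity
      linarith
    · have hn' : (0 : ℝ) < n := by exact_mod_cast hn
      have h8 : b * M1 ≤ 2 ^ n * κ := le_of_mul_le_mul_right h7 hn'
      rw [← mul_div_assoc, le_div_iff₀ hb0]
      linarith
  have h7 : y2q_M f K + M1 = 2 ^ n := h3
  have h8 : (2 : ℝ) ^ n * (1 - κ / b) = 2 ^ n - 2 ^ n * (κ / b) := by ring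
  linarith

theorem y2q_eval_one {K : ℕ} (hM : 0 < y2q_M f K) : (y2q_q f K).eval 1 = 1 := by
  unfold y2q_q
  rw [Polynomial.eval_finset_sum]
  have h : ∀ x ∈ univ.filter (fun x : Wd n => wt x ≤ K),
      (Polynomial.monomial (wt x) (hatW f x / y2q_M f K)).eval 1 = hatW f x / y2q_M f K := by
    intro x _
    rw [Polynomial.eval_monomial, one_pow, mul_one]
  rw [Finset.sum_congr rfl h, ← Finset.sum_div]
  exact div_self hM.ne'

theorem y2q_coeff (hf : WCert l f) {K : ℕ} (hM : 0 < y2q_M f K) (j : ℕ) :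
    0 ≤ (y2q_q f K).coeff j := by
  unfold y2q_q
  rw [Polynomial.finset_sum_coeff]
  apply Finset.sum_nonneg
  intro x _
  rw [Polynomial.coeff_monomial]
  split_ifs
  · exact div_nonneg (hf.hat x) hM.le
  · exact le_rfl

theorem y2q_deg (f : Wd n → ℝ) (K : ℕ) : (y2q_q f K).natDegree ≤ K := by
  unfold y2q_q
  apply Polynomial.natDegree_sum_le_of_forall_le
  intro x hx
  rw [Finset.mem_filter] at hx
  exact (Polynomial.natDegree_monomial_le _).trans hx.2

theorem y2q_der (hf : WCert l f) {K : ℕ} {κ : ℝ} (hκ : (n - l) / 2 ≤ κ * n)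
    (hK : κ * n ≤ K + 1) (hM : 0 < y2q_M f K) :
    (y2q_q f K).derivative.eval 1 ≤ κ * n := by
  have h0 : (y2q_q f K).derivative.eval 1 =
      (∑ x ∈ univ.filter (fun x : Wd n => wt x ≤ K), (wt x : ℝ) * hatW f x) / y2q_M f K := by
    unfold y2q_q
    rw [Polynomial.derivative_sum, Polynomial.eval_finset_sum, Finset.sum_div]
    apply Finset.sum_congr rfl
    intro x _
    rw [Polynomial.derivative_monomial, Polynomial.eval_monomial, one_pow, mul_one]
    ring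
  rw [h0, div_le_iff₀ hM]
  have h1 := y2q_mean hf
  have h2 : (0 : ℝ) < 2 ^ n := by positivity
  have h3 : ∑ x, hatW f x = 2 ^ n := by rw [sum_hatW, hf.one, mul_one]
  rw [y2q_split f K] at h3
  rw [y2q_split f K (fun x => (wt x : ℝ) * hatW f x)] at h1
  set M1 := ∑ x ∈ univ.filter (fun x : Wd n => ¬ wt x ≤ K), hatW f x with hM1
  have h6 : κ * n * M1 ≤
      ∑ x ∈ univ.filter (fun x : Wd n => ¬ wt x ≤ K), (wt x : ℝ) * hatW f x := by
    rw [hM1, Finset.mul_sum]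
    apply Finset.sum_le_sum
    intro x hx
    rw [Finset.mem_filter] at hx
    apply mul_le_mul_of_nonneg_right _ (hf.hat x)
    have : K + 1 ≤ wt x := by omega
    have h7 : (K : ℝ) + 1 ≤ wt x := by exact_mod_cast this
    linarith
  have h7 : y2q_M f K + M1 = 2 ^ n := h3
  have h8 := mul_le_mul_of_nonneg_left hκ h2.le
  have h9 : κ * n * y2q_M f K = 2 ^ n * (κ * n) - κ * n * M1 := by
    rw [← h7]; ring
  rw [h9]
  linarith

theorem y2q_eval_zero (f : Wd n → ℝ) (K : ℕ) :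
    (y2q_q f K).eval 0 = (∑ x, f x) / y2q_M f K := by
  unfold y2q_q
  rw [Polynomial.eval_finset_sum]
  rw [Finset.sum_eq_single_of_mem (0 : Wd n)]
  · have hw : wt (0 : Wd n) = 0 := by unfold wt; simp
    rw [hw, Polynomial.eval_monomial, pow_zero, mul_one]
    congr 1
    unfold hatW
    apply Finset.sum_congr rfl
    intro y _
    rw [e_zero_left, mul_one]
  · rw [Finset.mem_filter]
    have hw : wt (0 : Wd n) = 0 := by unfold wt; simp
    exact ⟨Finset.mem_univ _, by rw [hw]; exact Nat.zero_le _⟩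
  · intro x _ hx
    have hw : wt x ≠ 0 := by
      unfold wt
      exact hammingNorm_ne_zero_iff.2 hx
    rw [Polynomial.eval_monomial, zero_pow hw, mul_zero]

/-- the cut certificate on the closed disc -/
theorem y2q_bd (hf : WCert l f) {K : ℕ} {A : ℝ} (hA : 0 < A) (hM : 2 ^ n / A ≤ y2q_M f K) {w : ℂ}
    (hw : ‖w‖ ≤ 1) {E : ℝ} (hE : ‖Pf (hatW f) w‖ ≤ 2 ^ n * E) :
    ‖(y2q_q f K).aeval w‖ ≤ A * (E + ‖w‖ ^ K) := by
  have h2 : (0 : ℝ) < 2 ^ n := by positivity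
  have hM0 : 0 < y2q_M f K := lt_of_lt_of_le (by positivity) hM
  have h0 : (y2q_q f K).aeval w =
      (∑ x ∈ univ.filter (fun x : Wd n => wt x ≤ K), (hatW f x : ℂ) * w ^ wt x) / (y2q_M f K : ℂ) := by
    unfold y2q_q
    rw [map_sum, Finset.sum_div]
    apply Finset.sum_congr rfl
    intro x _
    rw [Polynomial.aeval_monomial]
    show (((hatW f x / y2q_M f K : ℝ)) : ℂ) * w ^ wt x = _
    push_cast
    ring
  have h3 : ∑ x ∈ univ.filter (fun x : Wd n => wt x ≤ K), (hatW f x : ℂ) * w ^ wt x =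
      Pf (hatW f) w - ∑ x ∈ univ.filter (fun x : Wd n => ¬ wt x ≤ K), (hatW f x : ℂ) * w ^ wt x := by
    unfold Pf
    rw [← Finset.sum_filter_add_sum_filter_not univ (fun x : Wd n => wt x ≤ K)
      (fun x => (hatW f x : ℂ) * w ^ wt x)]
    ring
  have h4 : ‖∑ x ∈ univ.filter (fun x : Wd n => ¬ wt x ≤ K), (hatW f x : ℂ) * w ^ wt x‖ ≤
      2 ^ n * ‖w‖ ^ K := by
    have h5 : ∀ x ∈ univ.filter (fun x : Wd n => ¬ wt x ≤ K), ‖(hatW f x : ℂ) * w ^ wt x‖ ≤
        hatW f x * ‖w‖ ^ K := by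
      intro x hx
      rw [Finset.mem_filter] at hx
      rw [norm_mul, norm_pow, Complex.norm_real, Real.norm_of_nonneg (hf.hat x)]
      apply mul_le_mul_of_nonneg_left _ (hf.hat x)
      exact pow_le_pow_of_le_one (norm_nonneg w) hw (by omega)
    calc ‖∑ x ∈ univ.filter (fun x : Wd n => ¬ wt x ≤ K), (hatW f x : ℂ) * w ^ wt x‖
        ≤ ∑ x ∈ univ.filter (fun x : Wd n => ¬ wt x ≤ K), hatW f x * ‖w‖ ^ K :=
          (norm_sum_le _ _).trans (Finset.sum_le_sum h5)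
      _ = (∑ x ∈ univ.filter (fun x : Wd n => ¬ wt x ≤ K), hatW f x) * ‖w‖ ^ K := by
          rw [Finset.sum_mul]
      _ ≤ (∑ x, hatW f x) * ‖w‖ ^ K := by
          apply mul_le_mul_of_nonneg_right _ (by positivity)
          exact Finset.sum_le_univ_sum_of_nonneg fun x => hf.hat x
      _ = 2 ^ n * ‖w‖ ^ K := by rw [sum_hatW, hf.one, mul_one]
  rw [h0, norm_div, Complex.norm_real, Real.norm_of_nonneg hM0.le, div_le_iff₀ hM0, h3]
  refine (norm_sub_le _ _).trans ?_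
  have h6 : ‖Pf (hatW f) w‖ + ‖∑ x ∈ univ.filter (fun x : Wd n => ¬ wt x ≤ K),
      (hatW f x : ℂ) * w ^ wt x‖ ≤ 2 ^ n * (E + ‖w‖ ^ K) := by
    rw [mul_add]
    exact add_le_add hE h4
  refine h6.trans ?_
  have h7 : 0 ≤ E + ‖w‖ ^ K := by
    have : 0 ≤ 2 ^ n * E := (norm_nonneg _).trans hE
    have : 0 ≤ E := by
      by_contra hcon
      push Not at hcon
      have := mul_neg_of_pos_of_neg h2 hcon
      linarith
    positivity
  rw [div_le_iff₀ hA] at hM
  calc 2 ^ n * (E + ‖w‖ ^ K) ≤ (y2q_M f K * A) * (E + ‖w‖ ^ K) :=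
        mul_le_mul_of_nonneg_right hM h7
    _ = A * (E + ‖w‖ ^ K) * y2q_M f K := by ring

end

theorem y2q_lam (t : ℝ) : lam2 t = ycK t := by
  unfold lam2 ycK
  ring

theorem qb_exists {t : ℝ} (ht : 0 < t)
    (hfirst : ∀ t' : ℝ, 0 < t' → t' < t → Exact.sII t' < Exact.sII t)
    {ξ : ℝ} (hξ : 0 < ξ) (hξ1 : 8 * ξ ≤ Exact.sII t) :
    ∃ A : ℝ, 1 ≤ A ∧ ∀ ν x0 : ℝ, 0 < ν → 0 < x0 → ∃ x' : ℝ, 0 < x' ∧ x' ≤ x0 ∧ ∀ N : ℕ,
      ∃ n0 ≥ N, ∃ q : ℝ[X], QB t n0 (Kx ξ n0) A (-((1 - ν) * lam2 t * x')) (dII t + x' / 2) q := by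
  have hs1 := Exact.sII_lt_one ht
  have hsp := Exact.sII_pos ht
  have hη : 0 < t / 2 := by linarith
  have hξ2 : ξ < 1 / 8 := by linarith
  obtain ⟨A, hA⟩ : ∃ A : ℝ, A = (1 - 2 * ξ) / (2 * ξ) := ⟨_, rfl⟩
  have hA1 : 1 ≤ A := by
    rw [hA, le_div_iff₀ (by positivity)]
    linarith
  refine ⟨A, hA1, fun ν x0 hν hx0 => ?_⟩
  obtain ⟨x, hx, hx1, hcert⟩ := yc_cert ht hfirst (τ := ν / 2) (by linarith)
    (x0 := min x0 (Exact.sII t / 2)) (lt_min hx0 (by linarith))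
  have hxa := (hx1.trans_le (min_le_left _ _)).le
  have hxb := hx1.trans_le (min_le_right _ _)
  refine ⟨x, hx, hxa, fun N => ?_⟩
  have hK := ycK_pos ht
  obtain ⟨n0, hn0⟩ := hcert (x * ycK t * (ν / 2)) (by positivity)
  obtain ⟨n, hn⟩ : ∃ n : ℕ, n = max (max n0 N) 1 := ⟨_, rfl⟩
  have hnn0 : n0 ≤ n := by rw [hn]; exact (le_max_left _ _).trans (le_max_left _ _)
  have hnN : N ≤ n := by rw [hn]; exact (le_max_right _ _).trans (le_max_left _ _)
  have hn1 : 1 ≤ n := by rw [hn]; exact le_max_right _ _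
  have hnr : (0 : ℝ) < n := by exact_mod_cast hn1
  obtain ⟨f, H, -, hf, hm⟩ := hn0 n hnn0
  refine ⟨n, hnN, y2q_q f (Kx ξ n), ?_⟩
  -- the mass exponent
  obtain ⟨ε, hε⟩ : ∃ ε : ℝ, ε = -((1 - ν) * lam2 t * x) := ⟨_, rfl⟩
  have hm' : ∑ y, f y ≤ Real.exp (n * (Real.log 2 - Exact.cval t + ε)) := by
    refine hm.trans (le_of_eq ?_)
    congr 2
    rw [hε, y2q_lam]
    ring
  rw [← hε]
  obtain ⟨κ, hκ⟩ : ∃ κ : ℝ, κ = dII t + x / 2 := ⟨_, rfl⟩
  have hκ' : κ = (1 - Exact.sII t + x) / 2 := by rw [hκ]; unfold dII; ring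
  have hκ0 : 0 ≤ κ := by rw [hκ']; linarith
  have hl : ((n : ℝ) - (Exact.sII t - x) * n) / 2 ≤ κ * n := by
    rw [hκ']
    apply le_of_eq
    ring
  obtain ⟨b, hb⟩ : ∃ b : ℝ, b = 1 / 2 - ξ := ⟨_, rfl⟩
  have hb0 : 0 < b := by rw [hb]; linarith
  have hbK : b * n < (Kx ξ n : ℝ) + 1 := by
    rw [hb]
    unfold Kx
    exact Nat.lt_floor_add_one _
  have hκb : κ ≤ b := by rw [hκ', hb]; linarith
  have hM : 2 ^ n / A ≤ y2q_M f (Kx ξ n) := by
    have h1 := y2q_markov hf hl hκ0 hb0 hbK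
    refine le_trans ?_ h1
    have h2 : (0 : ℝ) < 2 ^ n := by positivity
    rw [div_eq_mul_inv]
    apply mul_le_mul_of_nonneg_left _ h2.le
    have h3 : κ / b ≤ (1 - 4 * ξ) / (1 - 2 * ξ) := by
      rw [hκ', hb, div_le_div_iff₀ (by linarith) (by linarith)]
      have h4 : 4 * ξ ≤ Exact.sII t - x := by linarith
      nlinarith
    have h5 : A⁻¹ = 1 - (1 - 4 * ξ) / (1 - 2 * ξ) := by
      rw [hA, inv_div]
      have : 1 - 2 * ξ ≠ 0 := by linarith
      field_simp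
      ring
    rw [h5]
    linarith
  have hA0 : 0 < A := by linarith
  have hM0 : 0 < y2q_M f (Kx ξ n) := lt_of_lt_of_le (by positivity) hM
  have hstrip : ∀ s ∈ YG.Rc (t / 2), ∀ w : ℂ, ‖w‖ = ‖wS (t / 2) s‖ →
      ‖Pf (hatW f) w‖ ≤ Real.exp (n * ((GG (nm (t / 2)) (Exact.cval t) (((t / 2 : ℝ) : ℂ) - s)).re +
        (Real.log 2 - Exact.cval t) + ε / (t / 2) * s.re)) →
      ‖(y2q_q f (Kx ξ n)).aeval w‖ ≤
        A * (Real.exp (n * (VhS (t / 2) (Exact.cval t) s + ε / (t / 2) * s.re)) +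
          ‖wS (t / 2) s‖ ^ (Kx ξ n)) := by
    intro s hs w hw h1
    have hwn : ‖w‖ ≤ 1 := by
      rw [hw]
      have hs' := YG.mem_Rc.1 hs
      have e : wS (t / 2) s = YG.Z (t / 2) (((t / 2 : ℝ) : ℂ) - s) := rfl
      rw [e]
      rcases hs'.1.1.eq_or_lt with h2 | h2
      · exact (YG.Z_norm hη (by rw [Complex.sub_re, Complex.ofReal_re, ← h2, sub_zero])).le
      · exact (YG.Z_norm_lt_one hη (by rw [Complex.sub_re, Complex.ofReal_re]; linarith [hs'.1.2])
          (by rw [Complex.sub_re, Complex.ofReal_re]; linarith)).le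
    rw [← hw]
    apply y2q_bd hf hA0 hM hwn
    refine h1.trans (le_of_eq ?_)
    have e2 : (2 : ℝ) ^ n = Real.exp (n * Real.log 2) := by
      rw [Real.exp_nat_mul, Real.exp_log (by norm_num)]
    rw [e2, ← Real.exp_add]
    congr 1
    unfold VhS
    ring
  refine ⟨fun j => y2q_coeff hf hM0 j, y2q_deg f _, y2q_eval_one hM0, ?_, ?_, ?_, ?_⟩
  · rw [← hκ]
    apply y2q_der hf hl _ hM0
    have := mul_le_mul_of_nonneg_right hκb hnr.le
    linarith
  · rw [y2q_eval_zero, div_le_iff₀ hM0]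
    refine hm'.trans ?_
    have e2 : (2 : ℝ) ^ n = Real.exp (n * Real.log 2) := by
      rw [Real.exp_nat_mul, Real.exp_log (by norm_num)]
    have e3 : Real.exp (n * (Real.log 2 - Exact.cval t + ε)) =
        A * Real.exp (n * (-Exact.cval t + ε)) * (2 ^ n / A) := by
      have : A * Real.exp (n * (-Exact.cval t + ε)) * (2 ^ n / A) =
          Real.exp (n * (-Exact.cval t + ε)) * 2 ^ n := by
        field_simp
      rw [this, e2, ← Real.exp_add]
      congr 1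
      ring
    rw [e3]
    exact mul_le_mul_of_nonneg_left hM (by positivity)
  · intro s hs
    have hs' := YG.mem_Rc.1 hs
    exact hstrip s hs _ rfl (strip2 hη hf hm' hs'.1.1 hs'.1.2)
  · intro s hs
    have hs' := YG.mem_Rc.1 hs
    exact hstrip s hs _ (norm_neg _) (strip2n hη hf hm' hs'.1.1 hs'.1.2)

end Pool.Agent.Lib.MP_0430e4_lc.AC
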