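import Pool.Agent.Lib.MP_0430e4_lc.AC.Y2P
import Pool.Agent.Lib.MP_0430e4_lc.AC.Y2T

/-!
Y2 module W: the circles of the transform side: `WOK` for `2^n Gq`.
far: `q_mean`, `mul_far` (level surplus) and `TJ_close`; arc, out, inn: `TJ_crude`, `SlopeArc`; edge:
`mul_edge`.
-/

set_option autoImplicit false

open Finset Polynomial

namespace Pool.Agent.Lib.MP_0430e4_lc.AC

open LPLOW Lower BY

section
variable {ψ th x2 r0 A0 R A c : ℝ} {S : ℂ → ℂ}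

private theorem Y2W_norm (s φ : ℝ) : ‖up s φ‖ = Real.exp s := by
  unfold up
  rw [Complex.norm_exp]
  simp

private theorem Y2W_up0 : up 0 0 = 1 := by
  unfold up
  simp

private theorem Y2W_hd (φ σ : ℝ) : HasDerivAt (fun s : ℝ => up s φ) (up σ φ) σ := by
  have h1 : HasDerivAt (fun s : ℝ => ((s : ℂ) + (φ : ℂ) * Complex.I)) 1 σ := by
    have h0 := Complex.ofRealCLM.hasDerivAt (x := σ)
    simpa using h0.add_const ((φ : ℂ) * Complex.I)
  have h2 := h1.cexp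
  simpa [up] using h2

private theorem Y2W_mem {s φ : ℝ} (hs : Real.exp s < R) : up s φ ∈ Metric.ball (0 : ℂ) R := by
  rw [mem_ball_zero_iff, Y2W_norm]
  exact hs

private theorem Y2W_hS (h : Mul ψ th x2 r0 A0 S R A c) {φ σ : ℝ} (hσ : Real.exp σ < R) :
    HasDerivAt (fun s : ℝ => (S (up s φ)).re) ((deriv S (up σ φ) * up σ φ).re) σ := by
  have h1 : HasDerivAt S (deriv S (up σ φ)) (up σ φ) :=
    (h.diff.differentiableAt (Metric.isOpen_ball.mem_nhds (Y2W_mem hσ))).hasDerivAt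
  have h2 : HasDerivAt (fun s : ℝ => S (up s φ)) (deriv S (up σ φ) * up σ φ) σ :=
    h1.comp σ (Y2W_hd φ σ)
  have h3 := Complex.reCLM.hasFDerivAt.comp_hasDerivAt σ h2
  simpa [Function.comp_def] using h3

private theorem Y2W_mv (h : Mul ψ th x2 r0 A0 S R A c) {φ σ C : ℝ} (hσ : 0 ≤ σ)
    (hR : Real.exp σ < R)
    (hC : ∀ s : ℝ, 0 ≤ s → s ≤ σ → (deriv S (up s φ) * up s φ).re ≤ C) :
    (S (up σ φ)).re - (S (up 0 φ)).re ≤ C * σ := by
  have hd : ∀ s ∈ Set.Icc (0 : ℝ) σ, HasDerivAt (fun s : ℝ => (S (up s φ)).re)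
      ((deriv S (up s φ) * up s φ).re) s := fun s hs =>
    Y2W_hS h (lt_of_le_of_lt (Real.exp_le_exp.2 hs.2) hR)
  have := Convex.image_sub_le_mul_sub_of_deriv_le (convex_Icc 0 σ)
    (fun s hs => (hd s hs).continuousAt.continuousWithinAt)
    (fun s hs => (hd s (interior_subset hs)).differentiableAt.differentiableWithinAt)
    (C := C)
    (fun s hs => by
      rw [(hd s (interior_subset hs)).deriv]
      exact hC s (interior_subset hs).1 (interior_subset hs).2)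
    0 (Set.left_mem_Icc.2 hσ) σ (Set.right_mem_Icc.2 hσ) hσ
  simpa using this

private theorem Y2W_dcont (h : Mul ψ th x2 r0 A0 S R A c) :
    ContinuousOn (deriv S) (Metric.ball 0 R) :=
  (h.diff.deriv Metric.isOpen_ball).continuousOn

private theorem Y2W_bdd (h : Mul ψ th x2 r0 A0 S R A c) :
    ∃ B : ℝ, 0 ≤ B ∧ ∀ s φ : ℝ, Real.exp s ≤ (1 + R) / 2 →
      (deriv S (up s φ) * up s φ).re ≤ B := by
  have hR := h.hR
  have hsub : Metric.closedBall (0 : ℂ) ((1 + R) / 2) ⊆ Metric.ball 0 R :=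
    Metric.closedBall_subset_ball (by linarith)
  obtain ⟨B, hB⟩ := (isCompact_closedBall (0 : ℂ) ((1 + R) / 2)).exists_bound_of_continuousOn
    ((Y2W_dcont h).mono hsub)
  have hB0 : 0 ≤ B := (norm_nonneg _).trans (hB 0 (by
    rw [Metric.mem_closedBall, dist_self]; linarith))
  refine ⟨B * ((1 + R) / 2), by positivity, fun s φ hs => ?_⟩
  have h1 : up s φ ∈ Metric.closedBall (0 : ℂ) ((1 + R) / 2) := by
    rw [mem_closedBall_zero_iff, Y2W_norm]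
    exact hs
  calc (deriv S (up s φ) * up s φ).re ≤ ‖deriv S (up s φ) * up s φ‖ := Complex.re_le_norm _
    _ = ‖deriv S (up s φ)‖ * ‖up s φ‖ := norm_mul _ _
    _ ≤ B * ((1 + R) / 2) := by
      rw [Y2W_norm]
      exact mul_le_mul (hB _ h1) hs (Real.exp_pos s).le hB0

private theorem Y2W_near (h : Mul ψ th x2 r0 A0 S R A c) {ν : ℝ} (hν : 0 < ν) :
    ∃ ρ : ℝ, 0 < ρ ∧ ρ ≤ 1 ∧ ∀ s φ : ℝ, |s| ≤ ρ → |φ| ≤ ρ →
      (deriv S (up s φ) * up s φ).re ≤ (deriv S 1).re + ν := by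
  have hcu : Continuous (fun p : ℝ × ℝ => up p.1 p.2) := by
    unfold up
    fun_prop
  have h1 : (1 : ℂ) ∈ Metric.ball (0 : ℂ) R := by
    rw [mem_ball_zero_iff, norm_one]
    exact h.hR
  have h2 : ContinuousAt (deriv S) (up (0 : ℝ × ℝ).1 (0 : ℝ × ℝ).2) := by
    have : up (0 : ℝ × ℝ).1 (0 : ℝ × ℝ).2 = 1 := Y2W_up0
    rw [this]
    exact (Y2W_dcont h).continuousAt (Metric.isOpen_ball.mem_nhds h1)
  have h3 : ContinuousAt (fun p : ℝ × ℝ => (deriv S (up p.1 p.2) * up p.1 p.2).re) 0 := by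
    have h4 : ContinuousAt (fun p : ℝ × ℝ => deriv S (up p.1 p.2)) 0 :=
      ContinuousAt.comp (g := deriv S) (f := fun p : ℝ × ℝ => up p.1 p.2) h2 hcu.continuousAt
    exact Complex.continuous_re.continuousAt.comp (h4.mul hcu.continuousAt)
  have h5 : (deriv S (up (0 : ℝ × ℝ).1 (0 : ℝ × ℝ).2) * up (0 : ℝ × ℝ).1 (0 : ℝ × ℝ).2).re <
      (deriv S 1).re + ν := by
    have : up (0 : ℝ × ℝ).1 (0 : ℝ × ℝ).2 = 1 := Y2W_up0
    rw [this, mul_one]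
    linarith
  obtain ⟨ρ, hρ, hρ2⟩ := Metric.eventually_nhds_iff.1 (h3.eventually_lt_const h5)
  refine ⟨min (ρ / 2) 1, lt_min (by linarith) one_pos, min_le_right _ _, fun s φ hs hφ => ?_⟩
  have hs' : |s| < ρ := lt_of_le_of_lt (hs.trans (min_le_left _ _)) (by linarith)
  have hφ' : |φ| < ρ := lt_of_le_of_lt (hφ.trans (min_le_left _ _)) (by linarith)
  have := @hρ2 (s, φ) (by
    rw [Prod.dist_eq]
    simp only [Prod.fst_zero, Prod.snd_zero, Real.dist_eq, sub_zero]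
    exact max_lt hs' hφ')
  exact this.le

/-- next to the unit circle, off the bump: `Re S(e^(σ+iφ)) ≤ S(1) + σ (S'(1) + ν)` -/
theorem mul_far (h : Mul ψ th x2 r0 A0 S R A c) {ν : ℝ} (hν : 0 < ν) (_hth : 0 < ψ - th) :
    ∃ σ0 : ℝ, 0 < σ0 ∧ ∀ σ φ : ℝ, 0 ≤ σ → σ ≤ σ0 → 0 ≤ φ → φ ≤ Real.pi →
      (φ ≤ ψ - th ∨ ψ + th ≤ φ) →
      (S (up σ φ)).re ≤ (S 1).re + σ * ((deriv S 1).re + ν) := by
  obtain ⟨B, hB0, hB⟩ := Y2W_bdd h
  obtain ⟨ρ, hρ, hρ1, hF⟩ := Y2W_near h hν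
  have hR := h.hR
  have hc := h.hc
  have hpi : 3 < Real.pi := Real.pi_gt_three
  have hL : 0 < Real.log ((1 + R) / 2) := Real.log_pos (by linarith)
  have hcos : Real.cos ρ < 1 := by
    rw [← Real.cos_zero]
    exact Real.cos_lt_cos_of_nonneg_of_le_pi le_rfl (by linarith) hρ
  have hg : 0 < c * (1 - Real.cos ρ) := mul_pos hc (by linarith)
  have hD : 0 < B + |(deriv S 1).re + ν| + 1 := by positivity
  refine ⟨min (min ρ (Real.log ((1 + R) / 2)))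
    (c * (1 - Real.cos ρ) / (B + |(deriv S 1).re + ν| + 1)),
    lt_min (lt_min hρ hL) (div_pos hg hD), ?_⟩
  intro σ φ hσ hσ1 hφ hφ1 hφ2
  have s1 : σ ≤ ρ := hσ1.trans ((min_le_left _ _).trans (min_le_left _ _))
  have s2 : σ ≤ Real.log ((1 + R) / 2) := hσ1.trans ((min_le_left _ _).trans (min_le_right _ _))
  have s3 : σ ≤ c * (1 - Real.cos ρ) / (B + |(deriv S 1).re + ν| + 1) :=
    hσ1.trans (min_le_right _ _)
  rw [le_div_iff₀ hD] at s3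
  have hexp : Real.exp σ ≤ (1 + R) / 2 := by
    calc Real.exp σ ≤ Real.exp (Real.log ((1 + R) / 2)) := Real.exp_le_exp.2 s2
      _ = (1 + R) / 2 := Real.exp_log (by linarith)
  have hexp2 : Real.exp σ < R := by linarith
  have h0 := h.circ φ hφ hφ1 hφ2
  rcases le_total φ ρ with hφρ | hφρ
  · have h1 := Y2W_mv h (φ := φ) (C := (deriv S 1).re + ν) hσ hexp2 (fun s hs hs2 =>
      hF s φ (by rw [abs_of_nonneg hs]; exact hs2.trans s1) (by rw [abs_of_nonneg hφ]; exact hφρ))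
    have h2 : 0 ≤ c * (1 - Real.cos φ) := mul_nonneg hc.le (by linarith [Real.cos_le_one φ])
    linarith
  · have h1 := Y2W_mv h (φ := φ) (C := B) hσ hexp2 (fun s hs hs2 =>
      hB s φ ((Real.exp_le_exp.2 hs2).trans hexp))
    have h2 : Real.cos φ ≤ Real.cos ρ := Real.cos_le_cos_of_nonneg_of_le_pi hρ.le hφ1 hφρ
    have h3 : c * (1 - Real.cos ρ) ≤ c * (1 - Real.cos φ) :=
      mul_le_mul_of_nonneg_left (by linarith) hc.le
    have h4 : -(σ * |(deriv S 1).re + ν|) ≤ σ * ((deriv S 1).re + ν) := by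
      rw [← mul_neg]
      exact mul_le_mul_of_nonneg_left (neg_abs_le _) hσ
    linarith

private theorem Y2W_edge1 (h : Mul ψ th x2 r0 A0 S R A c) {φ : ℝ} (h0 : 0 < φ)
    (h1 : φ < Real.pi) (h2 : φ ≤ ψ - th ∨ ψ + th ≤ φ) :
    ∃ ce τ0 : ℝ, 0 < ce ∧ 0 < τ0 ∧ ∀ s : ℝ, |s| ≤ τ0 → (S (up s φ)).re ≤ (S 1).re - ce := by
  have hc := h.hc
  have hcirc := h.circ φ h0.le h1.le h2
  have hcos : Real.cos φ < 1 := by
    rw [← Real.cos_zero]
    exact Real.cos_lt_cos_of_nonneg_of_le_pi le_rfl h1.le h0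
  have hg : 0 < c * (1 - Real.cos φ) := mul_pos hc (by linarith)
  have hcont : ContinuousAt (fun s : ℝ => (S (up s φ)).re) 0 :=
    (Y2W_hS h (φ := φ) (σ := 0) (by rw [Real.exp_zero]; exact h.hR)).continuousAt
  have hlt : (S (up 0 φ)).re < (S 1).re - c * (1 - Real.cos φ) / 2 := by linarith
  obtain ⟨ρ, hρ, hρ2⟩ := Metric.eventually_nhds_iff.1 (hcont.eventually_lt_const hlt)
  refine ⟨c * (1 - Real.cos φ) / 2, ρ / 2, by linarith, by linarith, fun s hs => ?_⟩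
  have := @hρ2 s (by rw [Real.dist_eq, sub_zero]; linarith)
  exact this.le

/-- at the ends of the arc -/
theorem mul_edge (h : Mul ψ th x2 r0 A0 S R A c) (hth0 : 0 < th) (hth : 0 < ψ - th)
    (hth2 : ψ + th < Real.pi) :
    ∃ ce τ0 : ℝ, 0 < ce ∧ 0 < τ0 ∧ ∀ s φ : ℝ, |s| ≤ τ0 → (φ = ψ - th ∨ φ = ψ + th) →
      (S (up s φ)).re ≤ (S 1).re - ce := by
  obtain ⟨c1, t1, hc1, ht1, h1⟩ := Y2W_edge1 h (φ := ψ - th) hth (by linarith) (Or.inl le_rfl)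
  obtain ⟨c2, t2, hc2, ht2, h2⟩ := Y2W_edge1 h (φ := ψ + th) (by linarith) hth2 (Or.inr le_rfl)
  refine ⟨min c1 c2, min t1 t2, lt_min hc1 hc2, lt_min ht1 ht2, fun s φ hs hφ => ?_⟩
  rcases hφ with rfl | rfl
  · have := h1 s (hs.trans (min_le_left _ _))
    have := min_le_left c1 c2
    linarith
  · have := h2 s (hs.trans (min_le_right _ _))
    have := min_le_right c1 c2
    linarith

/-! ### powers of the certificate -/

private theorem Y2W_m {n n0 : ℕ} (hn0 : 1 ≤ n0) : ((n / n0 : ℕ) : ℝ) * n0 ≤ n ∧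
    (n : ℝ) - n0 ≤ ((n / n0 : ℕ) : ℝ) * n0 := by
  have h1 : n / n0 * n0 ≤ n := Nat.div_mul_le_self n n0
  have h2 : n < n / n0 * n0 + n0 := by
    have := Nat.lt_div_mul_add (a := n) (b := n0) (by omega)
    exact this
  constructor
  · exact_mod_cast h1
  · have h3 : (n : ℝ) < ((n / n0 : ℕ) : ℝ) * n0 + n0 := by exact_mod_cast h2
    linarith

private theorem Y2W_K {ξ : ℝ} (hξ1 : ξ ≤ 1 / 8) (hξ : 0 < ξ) (n0 : ℕ) :
    (Kx ξ n0 : ℝ) ≤ (1 / 2 - ξ) * n0 ∧ (1 / 2 - ξ) * n0 - 1 ≤ (Kx ξ n0 : ℝ) := by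
  have h0 : (0 : ℝ) ≤ (1 / 2 - ξ) * n0 := mul_nonneg (by linarith) (Nat.cast_nonneg _)
  unfold Kx
  exact ⟨Nat.floor_le h0, by linarith [(Nat.lt_floor_add_one ((1 / 2 - ξ) * (n0 : ℝ))).le]⟩

/-- outside the unit circle -/
private theorem Y2W_out {t ξ A1 e κq : ℝ} {n0 : ℕ} {q : ℝ[X]} (hξ : 0 < ξ) (hξ1 : ξ ≤ 1 / 8)
    (hn0 : 1 ≤ n0) (hq : QB t n0 (Kx ξ n0) A1 e κq q) {s : ℝ} (hs : 0 ≤ s) (φ : ℝ) (n : ℕ) :
    ‖q.aeval (up s φ)‖ ^ (n / n0) ≤ Real.exp (n * (s * (1 / 2 - ξ))) := by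
  have h1 : ‖q.aeval (up s φ)‖ ≤ Real.exp (s * Kx ξ n0) := by
    have := q_out hq (u := up s φ) (by rw [Y2W_norm]; exact Real.one_le_exp hs)
    rw [Y2W_norm] at this
    rw [mul_comm, Real.exp_nat_mul]
    exact this
  have h2 := (Y2W_K hξ1 hξ n0).1
  have h3 := (Y2W_m (n := n) hn0).1
  calc ‖q.aeval (up s φ)‖ ^ (n / n0) ≤ Real.exp (s * Kx ξ n0) ^ (n / n0) :=
        pow_le_pow_left₀ (norm_nonneg _) h1 _
    _ = Real.exp (((n / n0 : ℕ) : ℝ) * (s * Kx ξ n0)) := (Real.exp_nat_mul _ _).symm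
    _ ≤ Real.exp (n * (s * (1 / 2 - ξ))) := by
      apply Real.exp_le_exp.2
      have hm : (0 : ℝ) ≤ ((n / n0 : ℕ) : ℝ) := Nat.cast_nonneg _
      calc ((n / n0 : ℕ) : ℝ) * (s * Kx ξ n0) ≤ ((n / n0 : ℕ) : ℝ) * (s * ((1 / 2 - ξ) * n0)) :=
            mul_le_mul_of_nonneg_left (mul_le_mul_of_nonneg_left h2 hs) hm
        _ = (((n / n0 : ℕ) : ℝ) * n0) * (s * (1 / 2 - ξ)) := by ring
        _ ≤ n * (s * (1 / 2 - ξ)) :=
            mul_le_mul_of_nonneg_right h3 (mul_nonneg hs (by linarith))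

/-- inside the unit circle, on the arc -/
private theorem Y2W_inn {t ξ A1 e κq ωa τ1 : ℝ} {n0 : ℕ} {q : ℝ[X]} (ht : 0 < t) (hξ : 0 < ξ)
    (hξ1 : ξ ≤ 1 / 8) (hn0 : 1 ≤ n0) (hA1 : 1 ≤ A1) (hq : QB t n0 (Kx ξ n0) A1 e κq q)
    (he : e ≤ 0) (hω0 : 0 < ωa) (hω : ωa ≤ 1 / 2 - ξ) (hSA : SlopeArc t ωa ψ τ1)
    {s φ : ℝ} (hs : -τ1 ≤ s) (hs0 : s ≤ 0) (hφ : |φ - ψ| ≤ τ1) (n : ℕ) :
    ‖q.aeval (up s φ)‖ ^ (n / n0) ≤
      Real.exp (n * (s * ωa + Real.log (A1 * (1 + Real.exp τ1)) / n0) + ωa * τ1 * n0) := by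
  obtain ⟨ζ, hζ, hw, hV⟩ := hSA s φ hs hs0 hφ
  have hn0' : (0 : ℝ) < n0 := by exact_mod_cast hn0
  have hζre : 0 ≤ ζ.re := by
    have := hζ
    unfold YG.Rc at this
    exact this.1.1
  have h1 := hq.bd ζ hζ
  rw [hw, Y2W_norm] at h1
  have h2 : VhS (t / 2) (Exact.cval t) ζ + e / (t / 2) * ζ.re ≤ ωa * s := by
    have : e / (t / 2) * ζ.re ≤ 0 :=
      mul_nonpos_of_nonpos_of_nonneg (div_nonpos_of_nonpos_of_nonneg he (by linarith)) hζre
    linarith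
  have h3 : Real.exp (n0 * (VhS (t / 2) (Exact.cval t) ζ + e / (t / 2) * ζ.re)) ≤
      Real.exp (n0 * (ωa * s)) := Real.exp_le_exp.2 (mul_le_mul_of_nonneg_left h2 hn0'.le)
  have h4 : Real.exp s ^ Kx ξ n0 ≤ Real.exp τ1 * Real.exp (n0 * (ωa * s)) := by
    rw [← Real.exp_nat_mul, ← Real.exp_add]
    apply Real.exp_le_exp.2
    have h5 := (Y2W_K hξ1 hξ n0).2
    have h6 : ωa * n0 - 1 ≤ (Kx ξ n0 : ℝ) := by nlinarith
    nlinarith
  have hB1 : 1 ≤ A1 * (1 + Real.exp τ1) := by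
    have := Real.exp_pos τ1
    linarith [mul_nonneg (show (0 : ℝ) ≤ A1 by linarith) this.le]
  have h7 : ‖q.aeval (up s φ)‖ ≤
      Real.exp (Real.log (A1 * (1 + Real.exp τ1)) + n0 * (ωa * s)) := by
    rw [Real.exp_add, Real.exp_log (by linarith)]
    calc ‖q.aeval (up s φ)‖ ≤ A1 * (Real.exp (n0 * (VhS (t / 2) (Exact.cval t) ζ +
          e / (t / 2) * ζ.re)) + Real.exp s ^ Kx ξ n0) := h1
      _ ≤ A1 * (Real.exp (n0 * (ωa * s)) + Real.exp τ1 * Real.exp (n0 * (ωa * s))) :=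
          mul_le_mul_of_nonneg_left (add_le_add h3 h4) (by linarith)
      _ = A1 * (1 + Real.exp τ1) * Real.exp (n0 * (ωa * s)) := by ring
  have hlog : 0 ≤ Real.log (A1 * (1 + Real.exp τ1)) := Real.log_nonneg hB1
  obtain ⟨m1, m2⟩ := Y2W_m (n := n) hn0
  have hm : (0 : ℝ) ≤ ((n / n0 : ℕ) : ℝ) := Nat.cast_nonneg _
  calc ‖q.aeval (up s φ)‖ ^ (n / n0) ≤
      Real.exp (Real.log (A1 * (1 + Real.exp τ1)) + n0 * (ωa * s)) ^ (n / n0) :=
        pow_le_pow_left₀ (norm_nonneg _) h7 _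
    _ = Real.exp (((n / n0 : ℕ) : ℝ) * (Real.log (A1 * (1 + Real.exp τ1)) + n0 * (ωa * s))) :=
        (Real.exp_nat_mul _ _).symm
    _ ≤ _ := by
      apply Real.exp_le_exp.2
      have a1 : ((n / n0 : ℕ) : ℝ) ≤ n / n0 := by
        rw [le_div_iff₀ hn0']
        exact m1
      have a2 : ((n / n0 : ℕ) : ℝ) * Real.log (A1 * (1 + Real.exp τ1)) ≤
          n / n0 * Real.log (A1 * (1 + Real.exp τ1)) := mul_le_mul_of_nonneg_right a1 hlog
      have a3 : (((n / n0 : ℕ) : ℝ) * n0) * (ωa * s) ≤ (n - n0) * (ωa * s) :=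
        mul_le_mul_of_nonpos_right m2 (mul_nonpos_of_nonneg_of_nonpos hω0.le hs0)
      have a4 : -(ωa * s) * n0 ≤ ωa * τ1 * n0 := by
        apply mul_le_mul_of_nonneg_right _ hn0'.le
        nlinarith
      have a5 : n / n0 * Real.log (A1 * (1 + Real.exp τ1)) =
          n * (Real.log (A1 * (1 + Real.exp τ1)) / n0) := by ring
      have a6 : ((n / n0 : ℕ) : ℝ) * (Real.log (A1 * (1 + Real.exp τ1)) + n0 * (ωa * s)) =
          ((n / n0 : ℕ) : ℝ) * Real.log (A1 * (1 + Real.exp τ1)) +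
            (((n / n0 : ℕ) : ℝ) * n0) * (ωa * s) := by ring
      rw [a6]
      linarith

/-- next to the unit circle -/
private theorem Y2W_mean {t ξ A1 e κq : ℝ} {n0 : ℕ} {q : ℝ[X]} (hξ : 0 < ξ) (hξ1 : ξ ≤ 1 / 8)
    (hn0 : 1 ≤ n0) (hq : QB t n0 (Kx ξ n0) A1 e κq q) {σ : ℝ} (hσ : 0 ≤ σ) (hσ1 : σ * n0 ≤ 1)
    (φ : ℝ) (n : ℕ) :
    ‖q.aeval (up σ φ)‖ ^ (n / n0) ≤
      Real.exp (n * (κq * σ + n0 * σ ^ 2) + n0 * (|κq| * σ)) := by
  have hn0' : (0 : ℝ) < n0 := by exact_mod_cast hn0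
  have hK : Kx ξ n0 ≤ n0 := by
    have h2 := (Y2W_K hξ1 hξ n0).1
    have h3 : (Kx ξ n0 : ℝ) ≤ n0 := by nlinarith
    exact_mod_cast h3
  have h1 := q_mean hq hK (φ := φ) hσ hσ1
  obtain ⟨m1, m2⟩ := Y2W_m (n := n) hn0
  calc ‖q.aeval (up σ φ)‖ ^ (n / n0) ≤
      Real.exp (κq * n0 * σ + (n0 : ℝ) ^ 2 * σ ^ 2) ^ (n / n0) :=
        pow_le_pow_left₀ (norm_nonneg _) h1 _
    _ = Real.exp (((n / n0 : ℕ) : ℝ) * (κq * n0 * σ + (n0 : ℝ) ^ 2 * σ ^ 2)) :=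
        (Real.exp_nat_mul _ _).symm
    _ ≤ _ := by
      apply Real.exp_le_exp.2
      have a1 : ((n / n0 : ℕ) : ℝ) * (κq * n0 * σ + (n0 : ℝ) ^ 2 * σ ^ 2) =
          (((n / n0 : ℕ) : ℝ) * n0) * (κq * σ) + (((n / n0 : ℕ) : ℝ) * n0) * (n0 * σ ^ 2) := by
        ring
      have a2 : (((n / n0 : ℕ) : ℝ) * n0) * (n0 * σ ^ 2) ≤ n * (n0 * σ ^ 2) :=
        mul_le_mul_of_nonneg_right m1 (by positivity)
      have a3 : (((n / n0 : ℕ) : ℝ) * n0) * (κq * σ) ≤ n * (κq * σ) + n0 * (|κq| * σ) := by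
        have b1 : κq * σ ≤ |κq| * σ := mul_le_mul_of_nonneg_right (le_abs_self _) hσ
        have b2 : -(κq * σ) ≤ |κq| * σ := by
          rw [← neg_mul]
          exact mul_le_mul_of_nonneg_right (neg_le_abs _) hσ
        have b3 : 0 ≤ |κq| * σ := by positivity
        have b4 : 0 ≤ (n : ℝ) - ((n / n0 : ℕ) : ℝ) * n0 := by linarith
        have b5 : ((n : ℝ) - ((n / n0 : ℕ) : ℝ) * n0) * (-(κq * σ)) ≤
            ((n : ℝ) - ((n / n0 : ℕ) : ℝ) * n0) * (|κq| * σ) :=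
          mul_le_mul_of_nonneg_left b2 b4
        have b6 : ((n : ℝ) - ((n / n0 : ℕ) : ℝ) * n0) * (|κq| * σ) ≤ n0 * (|κq| * σ) :=
          mul_le_mul_of_nonneg_right (by linarith) b3
        linarith
      rw [a1]
      linarith

private theorem Y2W_G (q : ℝ[X]) (n0 : ℕ) (S : ℂ → ℂ) (ε η' : ℝ) (n : ℕ) (u : ℂ) {E : ℝ}
    (h : ‖q.aeval u‖ ^ (n / n0) * ‖(TJ S ε n ⌊η' * n⌋₊).aeval u‖ ≤ Real.exp E) :
    ‖(Polynomial.C (2 ^ n) * Gq q n0 S ε η' n).aeval u‖ ≤ 2 ^ n * Real.exp E := by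
  have h1 : ‖(Polynomial.C (2 ^ n) * Gq q n0 S ε η' n).aeval u‖ =
      2 ^ n * (‖q.aeval u‖ ^ (n / n0) * ‖(TJ S ε n ⌊η' * n⌋₊).aeval u‖) := by
    have e1 : (Polynomial.C (2 ^ n) * Gq q n0 S ε η' n).aeval u =
        (2 : ℂ) ^ n * ((q.aeval u) ^ (n / n0) * (TJ S ε n ⌊η' * n⌋₊).aeval u) := by
      unfold Gq
      simp
    rw [e1, norm_mul, norm_mul, norm_pow, norm_pow]
    simp
  rw [h1]
  exact mul_le_mul_of_nonneg_left h (by positivity)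

/-- the multiplier off the bump or at the ends of the arc: two exponentials -/
private theorem Y2W_TJ {ε ct η' : ℝ} {n : ℕ} {u : ℂ} {w s : ℝ} (hε : 0 ≤ ε) (hη' : 0 ≤ η')
    (hu : ‖u‖ = Real.exp s)
    (hw : (S u).re - (S 1).re ≤ w)
    (hTJ : ‖(TJ S ε n ⌊η' * n⌋₊).aeval u - Complex.exp ((n : ℂ) * ((ε : ℂ) * (S u - S 1)))‖ ≤
        ‖u‖ ^ ⌊η' * n⌋₊ * Real.exp (-(ct * n))) :
    ‖(TJ S ε n ⌊η' * n⌋₊).aeval u‖ ≤ Real.exp (n * (ε * w)) +
      Real.exp (n * (max (s * η') 0 - ct)) := by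
  have h1 : ‖Complex.exp ((n : ℂ) * ((ε : ℂ) * (S u - S 1)))‖ ≤ Real.exp (n * (ε * w)) := by
    rw [Complex.norm_exp]
    apply Real.exp_le_exp.2
    have : ((n : ℂ) * ((ε : ℂ) * (S u - S 1))).re = n * (ε * ((S u).re - (S 1).re)) := by
      rw [← Complex.ofReal_natCast, Complex.re_ofReal_mul, Complex.re_ofReal_mul, Complex.sub_re]
    rw [this]
    exact mul_le_mul_of_nonneg_left (mul_le_mul_of_nonneg_left hw hε) (Nat.cast_nonneg _)
  have hn : (0 : ℝ) ≤ n := Nat.cast_nonneg _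
  have hJ : (⌊η' * (n : ℝ)⌋₊ : ℝ) ≤ η' * n := Nat.floor_le (mul_nonneg hη' hn)
  have hJ0 : (0 : ℝ) ≤ (⌊η' * (n : ℝ)⌋₊ : ℝ) := Nat.cast_nonneg _
  have h2 : ‖u‖ ^ ⌊η' * (n : ℝ)⌋₊ * Real.exp (-(ct * n)) ≤
      Real.exp (n * (max (s * η') 0 - ct)) := by
    rw [hu, ← Real.exp_nat_mul, ← Real.exp_add]
    apply Real.exp_le_exp.2
    have h3 : (⌊η' * (n : ℝ)⌋₊ : ℝ) * s ≤ n * max (s * η') 0 := by
      rcases le_total 0 s with hs | hs
      · calc (⌊η' * (n : ℝ)⌋₊ : ℝ) * s ≤ (η' * n) * s := mul_le_mul_of_nonneg_right hJ hs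
          _ = n * (s * η') := by ring
          _ ≤ n * max (s * η') 0 := mul_le_mul_of_nonneg_left (le_max_left _ _) hn
      · calc (⌊η' * (n : ℝ)⌋₊ : ℝ) * s ≤ 0 := mul_nonpos_of_nonneg_of_nonpos hJ0 hs
          _ ≤ n * max (s * η') 0 := mul_nonneg hn (le_max_right _ _)
    linarith
  calc ‖(TJ S ε n ⌊η' * n⌋₊).aeval u‖ =
      ‖Complex.exp ((n : ℂ) * ((ε : ℂ) * (S u - S 1))) + ((TJ S ε n ⌊η' * n⌋₊).aeval u -
        Complex.exp ((n : ℂ) * ((ε : ℂ) * (S u - S 1))))‖ := by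
        rw [add_sub_cancel]
    _ ≤ _ := (norm_add_le _ _).trans (add_le_add h1 (hTJ.trans h2))

private theorem Y2W_two {X a b E : ℝ} (h : X ≤ Real.exp a + Real.exp b) (ha : a + 1 ≤ E)
    (hb : b + 1 ≤ E) : X ≤ Real.exp E := by
  have h2 : 2 * Real.exp (E - 1) ≤ Real.exp E := by
    have h3 : Real.exp E = Real.exp 1 * Real.exp (E - 1) := by
      rw [← Real.exp_add]; congr 1; ring
    rw [h3]
    have h4 : (2 : ℝ) ≤ Real.exp 1 := by
      have := Real.add_one_le_exp (1 : ℝ)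
      linarith
    exact mul_le_mul_of_nonneg_right h4 (Real.exp_pos _).le
  have h5 : Real.exp a ≤ Real.exp (E - 1) := Real.exp_le_exp.2 (by linarith)
  have h6 : Real.exp b ≤ Real.exp (E - 1) := Real.exp_le_exp.2 (by linarith)
  linarith

theorem W_bound {t : ℝ} (ht : 0 < t) {ξ ωa τ1 : ℝ} (hξ : 0 < ξ) (hξ1 : ξ ≤ 1 / 8)
    (h : Mul ψ th x2 r0 A0 S R A c) (hψ : ψ < Real.pi / 2) (hth0 : 0 < th) (hth : 0 < ψ - th)
    (hth2 : ψ + th < Real.pi / 2) (hω0 : 0 < ωa) (hω : ωa ≤ 1 / 2 - ξ) (hτ1 : 0 < τ1)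
    (hSA : SlopeArc t ωa ψ τ1) (hth1 : th ≤ τ1) {η' : ℝ} (hη : 0 < η') (hη1 : η' ≤ ξ / 2) :
    ∃ τ : ℝ, 0 < τ ∧ ∀ η : ℝ, 0 < η → ∃ ε0 : ℝ, 0 < ε0 ∧ ∀ ε : ℝ, 0 < ε → ε ≤ ε0 →
    ∀ A1 : ℝ, 1 ≤ A1 → ∃ N0 : ℕ, ∀ n0 ≥ N0, ∀ (q : ℝ[X]) (e κq : ℝ),
    QB t n0 (Kx ξ n0) A1 e κq q → e ≤ 0 → κq + ε * (deriv S 1).re < dII t → ∀ σ0 : ℝ, 0 < σ0 →
    ∃ σ κ e' : ℝ, 0 < κ ∧ 0 < e' ∧ 0 ≤ σ ∧ σ ≤ τ ∧ σ ≤ σ0 ∧ σ * (1 / 2 - ξ / 2) ≤ e' / 2 ∧
    ∃ n1 : ℕ, ∀ n ≥ n1, ∀ κ' : ℝ, κ' ≤ κ →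
      WOK n (Polynomial.C (2 ^ n) * Gq q n0 S ε η' n) (dII t) σ τ η κ' e' ωa (1 / 2 - ξ / 2)
        (ψ - th) (ψ + th) (ψ + th) (ψ + th) := by
  have hpi : 3 < Real.pi := Real.pi_gt_three
  have hR := h.hR
  have hA := h.hA
  have hR1 : (1 : ℝ) ≤ (1 + R) / 2 := by linarith
  have hR2 : (1 + R) / 2 < R := by linarith
  obtain ⟨ct, εc, hct, hεc, hclose⟩ := TJ_close h hR1 hR2 hη
  obtain ⟨BB, hBB, hcrude⟩ := TJ_crude h
  obtain ⟨ce, τ0, hce, hτ0, hedge⟩ := mul_edge h hth0 hth (by linarith)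
  have hL : 0 < Real.log ((1 + R) / 2) := Real.log_pos (by linarith)
  have hBBl : 0 ≤ Real.log BB := Real.log_nonneg hBB
  have hBBe : Real.exp (Real.log BB) = BB := Real.exp_log (by linarith)
  obtain ⟨τ, hτdef⟩ : ∃ τ : ℝ, τ = min (min τ1 τ0) (Real.log ((1 + R) / 2)) := ⟨_, rfl⟩
  have hτ : 0 < τ := by rw [hτdef]; exact lt_min (lt_min hτ1 hτ0) hL
  have ττ1 : τ ≤ τ1 := by rw [hτdef]; exact (min_le_left _ _).trans (min_le_left _ _)
  have ττ0 : τ ≤ τ0 := by rw [hτdef]; exact (min_le_left _ _).trans (min_le_right _ _)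
  have τL : τ ≤ Real.log ((1 + R) / 2) := by rw [hτdef]; exact min_le_right _ _
  have hexpR : ∀ s φ : ℝ, s ≤ τ → ‖up s φ‖ ≤ (1 + R) / 2 := by
    intro s φ hs
    rw [Y2W_norm]
    calc Real.exp s ≤ Real.exp (Real.log ((1 + R) / 2)) := Real.exp_le_exp.2 (hs.trans τL)
      _ = (1 + R) / 2 := Real.exp_log (by linarith)
  refine ⟨τ, hτ, fun η hη0 => ?_⟩
  refine ⟨min εc (η / (8 * A)), lt_min hεc (by positivity), fun ε hε hεle A1 hA1 => ?_⟩
  have hεc1 : ε ≤ εc := hεle.trans (min_le_left _ _)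
  have hεA : 2 * A * ε ≤ η / 4 := by
    have h1 : ε ≤ η / (8 * A) := hεle.trans (min_le_right _ _)
    rw [le_div_iff₀ (by positivity)] at h1
    linarith
  obtain ⟨n1, hTJ⟩ := hclose ε hε.le hεc1
  obtain ⟨e', he'def⟩ : ∃ e' : ℝ, e' = min (ε * ce) ct / 4 := ⟨_, rfl⟩
  have he' : 0 < e' := by
    rw [he'def]
    have : 0 < min (ε * ce) ct := lt_min (mul_pos hε hce) hct
    linarith
  have he1 : 4 * e' ≤ ε * ce := by
    rw [he'def]
    have := min_le_left (ε * ce) ct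
    linarith
  have he2 : 4 * e' ≤ ct := by
    rw [he'def]
    have := min_le_right (ε * ce) ct
    linarith
  obtain ⟨lB, hlBdef⟩ : ∃ lB : ℝ, lB = Real.log (A1 * (1 + Real.exp τ1)) := ⟨_, rfl⟩
  have hlB : 0 ≤ lB := by
    rw [hlBdef]
    apply Real.log_nonneg
    have h1 := Real.exp_pos τ1
    have h2 : 1 * (1 + Real.exp τ1) ≤ A1 * (1 + Real.exp τ1) :=
      mul_le_mul_of_nonneg_right hA1 (by linarith)
    linarith
  obtain ⟨m0, hm0def⟩ : ∃ m0 : ℝ, m0 = min (η / 4) e' := ⟨_, rfl⟩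
  have hm0 : 0 < m0 := by rw [hm0def]; exact lt_min (by linarith) he'
  obtain ⟨N0, hN0⟩ := exists_nat_ge (lB / m0)
  refine ⟨N0 + 1, fun n0 hn0N q e κq hq he hgap σ0 hσ0 => ?_⟩
  have hn01 : 1 ≤ n0 := by omega
  have hn0' : (0 : ℝ) < n0 := by exact_mod_cast hn01
  have hn0'' : (1 : ℝ) ≤ n0 := by exact_mod_cast hn01
  have hlBn : lB / n0 ≤ m0 := by
    rw [div_le_iff₀ hn0']
    have h1 : (N0 : ℝ) ≤ n0 := by exact_mod_cast (by omega : N0 ≤ n0)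
    have h2 : lB / m0 ≤ n0 := hN0.trans h1
    rw [div_le_iff₀ hm0] at h2
    linarith
  have hlBη : lB / n0 ≤ η / 4 := hlBn.trans (by rw [hm0def]; exact min_le_left _ _)
  have hlBe : lB / n0 ≤ e' := hlBn.trans (by rw [hm0def]; exact min_le_right _ _)
  obtain ⟨g, hgdef⟩ : ∃ g : ℝ, g = dII t - (κq + ε * (deriv S 1).re) := ⟨_, rfl⟩
  have hg : 0 < g := by rw [hgdef]; linarith
  obtain ⟨σf, hσf, hfar⟩ := mul_far h (ν := g / (4 * ε)) (by positivity) hth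
  obtain ⟨DD, hDDdef⟩ : ∃ DD : ℝ, DD = 4 * (|κq| + 1 + η' + |dII t|) := ⟨_, rfl⟩
  have hDD : 0 < DD := by rw [hDDdef]; positivity
  obtain ⟨σ, hσdef⟩ : ∃ σ : ℝ, σ = min (min (min σ0 τ) (min σf (1 / n0)))
    (min (min (g / (8 * n0)) e') (min (η / 4) (ct / DD))) := ⟨_, rfl⟩
  have hσ : 0 < σ := by
    rw [hσdef]
    refine lt_min (lt_min (lt_min hσ0 hτ) (lt_min hσf (by positivity)))
      (lt_min (lt_min (by positivity) he') (lt_min (by linarith) (by positivity)))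
  have q1 : σ ≤ σ0 := by
    rw [hσdef]; exact (min_le_left _ _).trans ((min_le_left _ _).trans (min_le_left _ _))
  have q2 : σ ≤ τ := by
    rw [hσdef]; exact (min_le_left _ _).trans ((min_le_left _ _).trans (min_le_right _ _))
  have q3 : σ ≤ σf := by
    rw [hσdef]; exact (min_le_left _ _).trans ((min_le_right _ _).trans (min_le_left _ _))
  have q4 : σ ≤ 1 / n0 := by
    rw [hσdef]; exact (min_le_left _ _).trans ((min_le_right _ _).trans (min_le_right _ _))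
  have q5 : σ ≤ g / (8 * n0) := by
    rw [hσdef]; exact (min_le_right _ _).trans ((min_le_left _ _).trans (min_le_left _ _))
  have q6 : σ ≤ e' := by
    rw [hσdef]; exact (min_le_right _ _).trans ((min_le_left _ _).trans (min_le_right _ _))
  have q7 : σ ≤ η / 4 := by
    rw [hσdef]; exact (min_le_right _ _).trans ((min_le_right _ _).trans (min_le_left _ _))
  have q8 : σ ≤ ct / DD := by
    rw [hσdef]; exact (min_le_right _ _).trans ((min_le_right _ _).trans (min_le_right _ _))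
  rw [le_div_iff₀ hn0'] at q4
  rw [le_div_iff₀ (by positivity)] at q5
  rw [le_div_iff₀ hDD] at q8
  obtain ⟨κ, hκdef⟩ : ∃ κ : ℝ, κ = min (g * σ / 4) (ct / 4) := ⟨_, rfl⟩
  have hκ : 0 < κ := by rw [hκdef]; exact lt_min (by positivity) (by positivity)
  have hκ1 : κ ≤ g * σ / 4 := by rw [hκdef]; exact min_le_left _ _
  have hκ2 : κ ≤ ct / 4 := by rw [hκdef]; exact min_le_right _ _
  -- thresholds for `n`
  obtain ⟨N1, hN1⟩ := exists_nat_ge ((1 + n0 * (|κq| * σ)) / κ)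
  obtain ⟨N2, hN2⟩ := exists_nat_ge ((Real.log BB + ωa * τ1 * n0) / (η / 4))
  obtain ⟨N3, hN3⟩ := exists_nat_ge ((1 + ωa * τ1 * n0) / e')
  refine ⟨σ, κ, e', hκ, he', hσ.le, q2, q1, ?_, n1 + N1 + N2 + N3, fun n hn κ' hκ' => ?_⟩
  · have h1 : σ * (1 / 2 - ξ / 2) ≤ σ * (1 / 2) :=
      mul_le_mul_of_nonneg_left (by linarith) hσ.le
    linarith
  have hn1 : n1 ≤ n := by omega
  have hnn : (0 : ℝ) ≤ n := Nat.cast_nonneg _
  have hNκ : 1 + n0 * (|κq| * σ) ≤ n * κ := by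
    have h1 : (N1 : ℝ) ≤ n := by exact_mod_cast (by omega : N1 ≤ n)
    have h2 := hN1.trans h1
    rwa [div_le_iff₀ hκ] at h2
  have hNη : Real.log BB + ωa * τ1 * n0 ≤ n * (η / 4) := by
    have h1 : (N2 : ℝ) ≤ n := by exact_mod_cast (by omega : N2 ≤ n)
    have h2 := hN2.trans h1
    rwa [div_le_iff₀ (by linarith)] at h2
  have hNe : 1 + ωa * τ1 * n0 ≤ n * e' := by
    have h1 : (N3 : ℝ) ≤ n := by exact_mod_cast (by omega : N3 ≤ n)
    have h2 := hN3.trans h1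
    rwa [div_le_iff₀ he'] at h2
  have hωτ : 0 ≤ ωa * τ1 * n0 := by positivity
  have hTJn := hTJ n hn1
  -- the crude bound outside
  have hcr : ∀ s φ : ℝ, 0 ≤ s → ‖(TJ S ε n ⌊η' * n⌋₊).aeval (up s φ)‖ ≤
      Real.exp (Real.log BB + n * (2 * A * ε + s * η')) := by
    intro s φ hs
    have h1 := hcrude ε hε.le n ⌊η' * n⌋₊ (up s φ)
    rw [Y2W_norm, max_eq_right (Real.one_le_exp hs), ← Real.exp_nat_mul] at h1
    have hJ : (⌊η' * (n : ℝ)⌋₊ : ℝ) ≤ η' * n := Nat.floor_le (by positivity)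
    refine h1.trans ?_
    rw [Real.exp_add, hBBe, mul_assoc, ← Real.exp_add]
    refine mul_le_mul_of_nonneg_left (Real.exp_le_exp.2 ?_) (by linarith)
    have h2 : (⌊η' * (n : ℝ)⌋₊ : ℝ) * s ≤ (η' * n) * s := mul_le_mul_of_nonneg_right hJ hs
    linarith
  have hcr2 : ∀ s φ : ℝ, s ≤ 0 → ‖(TJ S ε n ⌊η' * n⌋₊).aeval (up s φ)‖ ≤
      Real.exp (Real.log BB + n * (2 * A * ε)) := by
    intro s φ hs
    have h1 := hcrude ε hε.le n ⌊η' * n⌋₊ (up s φ)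
    rw [Y2W_norm, max_eq_left (Real.exp_le_one_iff.2 hs), one_pow, mul_one] at h1
    refine h1.trans ?_
    rw [Real.exp_add, hBBe]
  have harc : ∀ φ : ℝ, OnArc (ψ - th) (ψ + th) (ψ + th) (ψ + th) φ → |φ - ψ| ≤ τ1 := by
    intro φ hφ
    rw [abs_le]
    rcases hφ with ⟨a, b⟩ | ⟨a, b⟩
    · constructor <;> linarith
    · constructor <;> linarith
  have hgo : ∀ s φ E : ℝ, ‖q.aeval (up s φ)‖ ^ (n / n0) *
      ‖(TJ S ε n ⌊η' * n⌋₊).aeval (up s φ)‖ ≤ Real.exp E →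
      ‖(Polynomial.C (2 ^ n) * Gq q n0 S ε η' n).aeval (up s φ)‖ ≤ 2 ^ n * Real.exp E :=
    fun s φ E hE => Y2W_G q n0 S ε η' n (up s φ) hE
  -- products
  have hprod : ∀ s φ a b : ℝ, ‖q.aeval (up s φ)‖ ^ (n / n0) ≤ Real.exp a →
      ‖(TJ S ε n ⌊η' * n⌋₊).aeval (up s φ)‖ ≤ Real.exp b →
      ‖q.aeval (up s φ)‖ ^ (n / n0) * ‖(TJ S ε n ⌊η' * n⌋₊).aeval (up s φ)‖ ≤
        Real.exp (a + b) := by
    intro s φ a b ha hb
    rw [Real.exp_add]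
    exact mul_le_mul ha hb (norm_nonneg _) (Real.exp_pos _).le
  have hprod2 : ∀ s φ a b b' : ℝ, ‖q.aeval (up s φ)‖ ^ (n / n0) ≤ Real.exp a →
      ‖(TJ S ε n ⌊η' * n⌋₊).aeval (up s φ)‖ ≤ Real.exp b + Real.exp b' →
      ‖q.aeval (up s φ)‖ ^ (n / n0) * ‖(TJ S ε n ⌊η' * n⌋₊).aeval (up s φ)‖ ≤
        Real.exp (a + b) + Real.exp (a + b') := by
    intro s φ a b b' ha hb
    rw [Real.exp_add, Real.exp_add, ← mul_add]
    exact mul_le_mul ha hb (norm_nonneg _) (Real.exp_pos _).le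
  refine ⟨?_, ?_, ?_, ?_, ?_⟩
  · -- far
    intro φ hφ hφ1 hφ2
    have hφ3 : φ ≤ ψ - th ∨ ψ + th ≤ φ := by
      rcases hφ2 with a | ⟨a, _⟩ | a
      · exact Or.inl a
      · exact Or.inr a
      · exact Or.inr a
    apply hgo
    have b1 := Y2W_mean hξ hξ1 hn01 hq hσ.le q4 φ n
    have b2 := hfar σ φ hσ.le q3 hφ hφ1 hφ3
    have b3 := Y2W_TJ (S := S) (w := σ * ((deriv S 1).re + g / (4 * ε))) (s := σ) hε.le hη.le
      (Y2W_norm σ φ) (by linarith) (hTJn (up σ φ) (hexpR σ φ q2))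
    rw [max_eq_left (by positivity)] at b3
    have b4 := hprod2 σ φ _ _ _ b1 b3
    have e1 : ε * (σ * ((deriv S 1).re + g / (4 * ε))) = σ * (ε * (deriv S 1).re) + σ * g / 4 := by
      field_simp
    have e2 : dII t = g + (κq + ε * (deriv S 1).re) := by rw [hgdef]; ring
    have e3 : n0 * σ ^ 2 ≤ g * σ / 8 := by
      have := mul_le_mul_of_nonneg_right q5 hσ.le
      linarith
    have e33 : 0 < g * σ := mul_pos hg hσ
    refine Y2W_two b4 ?_ ?_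
    · rw [e1]
      have e4 : κq * σ + n0 * σ ^ 2 + (σ * (ε * (deriv S 1).re) + σ * g / 4) + κ ≤
          σ * dII t - κ' := by
        rw [e2]; linarith
      have e5 := mul_le_mul_of_nonneg_left e4 hnn
      linarith
    · have e6 : κq * σ + n0 * σ ^ 2 + (σ * η' - ct) + κ ≤ σ * dII t - κ' := by
        have f1 : κq * σ ≤ |κq| * σ := mul_le_mul_of_nonneg_right (le_abs_self _) hσ.le
        have f2 : -(|dII t| * σ) ≤ σ * dII t := by
          have := mul_le_mul_of_nonneg_right (neg_abs_le (dII t)) hσ.le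
          linarith
        have f3 : n0 * σ ^ 2 ≤ 1 * σ := by
          have := mul_le_mul_of_nonneg_right q4 hσ.le
          linarith
        rw [hDDdef] at q8
        linarith
      have e7 := mul_le_mul_of_nonneg_left e6 hnn
      linarith
  · -- arc
    intro φ hφ
    apply hgo
    have b1 := Y2W_out hξ hξ1 hn01 hq hσ.le φ n
    have b4 := hprod σ φ _ _ b1 (hcr σ φ hσ.le)
    refine b4.trans (Real.exp_le_exp.2 ?_)
    have p1 : σ * η' ≤ σ * (ξ / 2) := mul_le_mul_of_nonneg_left hη1 hσ.le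
    have p2 : 0 ≤ σ * ξ := mul_nonneg hσ.le hξ.le
    have e1 : σ * (1 / 2 - ξ) + (2 * A * ε + σ * η') + η / 4 ≤ η := by linarith
    have e2 := mul_le_mul_of_nonneg_left e1 hnn
    linarith
  · -- out
    intro φ hφ
    apply hgo
    have b1 := Y2W_out hξ hξ1 hn01 hq hτ.le φ n
    have b4 := hprod τ φ _ _ b1 (hcr τ φ hτ.le)
    refine b4.trans (Real.exp_le_exp.2 ?_)
    have p1 : τ * η' ≤ τ * (ξ / 2) := mul_le_mul_of_nonneg_left hη1 hτ.le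
    have e1 : τ * (1 / 2 - ξ) + (2 * A * ε + τ * η') + η / 4 ≤ τ * (1 / 2 - ξ / 2) + η := by
      linarith
    have e2 := mul_le_mul_of_nonneg_left e1 hnn
    linarith
  · -- inn
    intro φ hφ
    apply hgo
    have b1 := Y2W_inn ht hξ hξ1 hn01 hA1 hq he hω0 hω hSA (s := -τ) (φ := φ) (by linarith)
      (by linarith) (harc φ hφ) n
    rw [← hlBdef] at b1
    have b4 := hprod (-τ) φ _ _ b1 (hcr2 (-τ) φ (by linarith))
    refine b4.trans (Real.exp_le_exp.2 ?_)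
    have e1 : -τ * ωa + lB / n0 + 2 * A * ε + η / 4 ≤ -(τ * ωa) + η := by linarith
    have e2 := mul_le_mul_of_nonneg_left e1 hnn
    linarith
  · -- edge
    intro s φ hs hs1 hφ
    have hφ3 : φ = ψ - th ∨ φ = ψ + th := by
      rcases hφ with a | a | a | a
      · exact Or.inl a
      · exact Or.inr a
      · exact Or.inr a
      · exact Or.inr a
    have hφ4 : |φ - ψ| ≤ τ1 := by
      rcases hφ3 with rfl | rfl
      · rw [abs_le]; constructor <;> linarith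
      · rw [abs_le]; constructor <;> linarith
    apply hgo
    have b2 := hedge s φ (abs_le.2 ⟨by linarith, by linarith⟩) hφ3
    have b3 := Y2W_TJ (S := S) (w := -ce) (s := s) hε.le hη.le
      (Y2W_norm s φ) (by linarith) (hTJn (up s φ) (hexpR s φ hs1))
    rcases le_total 0 s with hs0 | hs0
    · have b1 := Y2W_out hξ hξ1 hn01 hq hs0 φ n
      have b4 := hprod2 s φ _ _ _ b1 b3
      rw [max_eq_left (by positivity : 0 ≤ s * η')] at b4
      have m1 : s * (1 / 2 - ξ / 2) ≤ max (s * ωa) (s * (1 / 2 - ξ / 2)) := le_max_right _ _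
      have p1 : s * η' ≤ s * (ξ / 2) := mul_le_mul_of_nonneg_left hη1 hs0
      have p2 : 0 ≤ s * ξ := mul_nonneg hs0 hξ.le
      refine Y2W_two b4 ?_ ?_
      · have e1 : s * (1 / 2 - ξ) + ε * -ce + e' ≤
            max (s * ωa) (s * (1 / 2 - ξ / 2)) - e' := by linarith
        have e2 := mul_le_mul_of_nonneg_left e1 hnn
        linarith
      · have e1 : s * (1 / 2 - ξ) + (s * η' - ct) + e' ≤
            max (s * ωa) (s * (1 / 2 - ξ / 2)) - e' := by linarith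
        have e2 := mul_le_mul_of_nonneg_left e1 hnn
        linarith
    · have b1 := Y2W_inn ht hξ hξ1 hn01 hA1 hq he hω0 hω hSA (s := s) (φ := φ) (by linarith)
        hs0 hφ4 n
      rw [← hlBdef] at b1
      have b4 := hprod2 s φ _ _ _ b1 b3
      rw [max_eq_right (mul_nonpos_of_nonpos_of_nonneg hs0 hη.le)] at b4
      have m1 : s * ωa ≤ max (s * ωa) (s * (1 / 2 - ξ / 2)) := le_max_left _ _
      refine Y2W_two b4 ?_ ?_
      · have e1 : s * ωa + lB / n0 + ε * -ce + e' ≤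
            max (s * ωa) (s * (1 / 2 - ξ / 2)) - e' := by linarith
        have e2 := mul_le_mul_of_nonneg_left e1 hnn
        linarith
      · have e1 : s * ωa + lB / n0 + (0 - ct) + e' ≤
            max (s * ωa) (s * (1 / 2 - ξ / 2)) - e' := by linarith
        have e2 := mul_le_mul_of_nonneg_left e1 hnn
        linarith

end

end Pool.Agent.Lib.MP_0430e4_lc.AC
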