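import Pool.Agent.Lib.MP_0430e4_lc.AC.Y2M
import Pool.Agent.Lib.MP_0430e4_lc.AC.Y2Q
import Pool.Agent.Lib.MP_0430e4_lc.AC.Y2K1
import Pool.Agent.Lib.MP_0430e4_lc.AC.Y2K2
import Pool.Agent.Lib.MP_0430e4_lc.AC.Y2K3
import Pool.Agent.Lib.MP_0430e4_lc.AC.Y2Kk
import Pool.Agent.Lib.MP_0430e4_lc.AC.Y2Arc
import Pool.Agent.Lib.MP_0430e4_lc.AC.Y2W
import Pool.Agent.Lib.MP_0430e4_lc.AC.Y2G
import Pool.Agent.Lib.MP_0430e4_lc.AC.Y2C
import Pool.Agent.Lib.MP_0430e4_lc.AC.Y2H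
import Pool.Agent.Lib.MP_0430e4_lc.AC.PA7
import Pool.Agent.Lib.MP_0430e4_lc.AC.Final2

/-!
Y2, final assembly (helper51): `ForcedS` on branch II, at the first parameter `t` of its level.
Order of constants: a0, ωa, ρ0; ψ, τ1; ξ, ρ, q; r0, A0; κp; x2; A1; then for `τ`: th, S; `τ'`; for `η`:
ε0, ν; x', ε; κ's; n0, the certificate; σ; n.
-/

set_option autoImplicit false

open Finset Polynomial

namespace Pool.Agent.Lib.MP_0430e4_lc.AC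

open LPLOW Lower BY

theorem y2z_ph {p ψ ψ' th : ℝ} (hp : |p| ≤ 1) (h : |ψ' - ψ| ≤ th) :
    ‖(p : ℂ) * ph ψ' - (p : ℂ) * ph ψ‖ ≤ th := by
  have h1 : ‖ph ψ' - ph ψ‖ ≤ |ψ' - ψ| := by
    have e : ph ψ' - ph ψ = ph ψ * (Complex.exp (((ψ' - ψ : ℝ) : ℂ) * Complex.I) - 1) := by
      unfold ph
      rw [mul_sub, mul_one, ← Complex.exp_add]
      congr 2
      push_cast; ring
    rw [e, norm_mul]
    have e1 : ‖ph ψ‖ = 1 := by
      unfold ph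
      exact Complex.norm_exp_ofReal_mul_I ψ
    rw [e1, one_mul]
    have := Real.norm_exp_I_mul_ofReal_sub_one_le (x := ψ' - ψ)
    rw [mul_comm] at this
    simpa [Real.norm_eq_abs] using this
  rw [← mul_sub, norm_mul, Complex.norm_real, Real.norm_eq_abs]
  calc |p| * ‖ph ψ' - ph ψ‖ ≤ 1 * |ψ' - ψ| :=
        mul_le_mul hp h1 (norm_nonneg _) zero_le_one
    _ ≤ th := by rw [one_mul]; exact h

theorem forcedS_II' {t : ℝ} (ht : 0 < t)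
    (hfirst : ∀ t' : ℝ, 0 < t' → t' < t → Exact.sII t' < Exact.sII t) :
    ForcedS (dII t) (Tensor.ell (dII t)) := by
  have hs := Exact.sII_pos ht
  have hs1 := Exact.sII_lt_one ht
  have hd0 : 0 < dII t := by unfold dII; linarith
  have hd1 : dII t < 1 / 2 := by unfold dII; linarith
  have P : Pot (dII t) (UII t) (gII t) := potII ht
  obtain ⟨a0, ωa, ρ0, ha0, ha1, hent, hω0, hω1, hω2, hρ0, hρ⟩ := y2c_a ht
  obtain ⟨φ0, hφ0, hφ1, hArc⟩ := slope_arc ht hω2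
  obtain ⟨ψ, hψ0, hψ1, hirr⟩ := y2c_psi hφ1
  obtain ⟨τ1, hτ1, hSA⟩ := hArc ψ hψ0 hψ1
  have hψp : 0 < ψ := by linarith
  obtain ⟨ξ0, hξ0, hgap⟩ := gap_lin ht
  obtain ⟨ξ, ρ, q, hξ, hξξ, hξ8, hξs, hωξ, hρ1, hρ2, hb, hq0, hq1, hqq⟩ :=
    y2c_xi hω1 hρ0 hξ0 hs
  have hG : GapOK t ξ := hgap ξ hξξ
  obtain ⟨r0, A0, hr0, hr1, hA0, hMul⟩ := mul_exists hψp hψ1
  obtain ⟨κp, hκp, hκp4, hK1⟩ := K1_bound ht hξ hξ8 hr0 hr1 hA0 hG
  obtain ⟨x2, hx0, hx1, hgx⟩ := P.g_small hd0 (e := κp) hκp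
  obtain ⟨A1, hA1, hQ⟩ := qb_exists ht hfirst hξ hξs
  obtain ⟨hta, hp0⟩ := hρ ρ hρ1 hρ2
  obtain ⟨κ2, hκ2, n2, hhi⟩ := hi_low (δ := dII t) hd0 hd1 (ta := ωa - 2 * ρ)
    (tb := (1 / 2 - ξ / 2) + 2 * ρ) hta.le (by linarith) hb
  refine ⟨a0, q, ψ, ha0, ha1, hq1, hirr, hent, fun τ hτ => ?_⟩
  obtain ⟨th, hth, hthτ, hthτ1, hth0, hth2⟩ := y2c_th hψp hψ1 hτ hτ1
  obtain ⟨S, R, A, c, hM⟩ := hMul x2 th hx0 hth
  have hη' : 0 < ξ / 2 := by linarith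
  have hη'1 : ξ / 2 ≤ ξ := by linarith
  have hD := hM.slope
  have hS1 := hM.pos1
  obtain ⟨τ', hτ', hW⟩ := W_bound ht hξ hξ8 hM hψ1 hth hth0 hth2 hω0 hωξ hτ1 hSA hthτ1
    (η' := ξ / 2) hη' le_rfl
  have hπ := Real.pi_pos
  have hlam : 0 < lam2 t := by
    have := Or_pos (η := t / 2) (by linarith) (s := 0) (by simpa using (by linarith : 0 < t / 2))
    unfold lam2
    positivity
  set p0 : ℝ := 2 * a0 / (1 + a0 ^ 2) with hp0d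
  have hp0p : 0 < p0 := by rw [hp0d]; positivity
  have hF := forced_of (δ := dII t) (L := Tensor.ell (dII t)) hd0 hd1 rfl
    (ωa := ωa) (ωb := 1 / 2 - ξ / 2) (ρ := ρ) (τ := τ') (κ2 := κ2)
    (p1 := ψ - th) (p2 := ψ + th) (p3 := ψ + th) (p4 := ψ + th) (p0 := p0) (q := q)
    hρ1 hτ' hκ2 (by linarith) hta (by linarith) hqq hth0.le (by linarith) le_rfl le_rfl
    (by linarith) ⟨1, one_pos, n2, fun n hn C _ _ => hhi n hn C⟩ ?_ τ hτ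
  · obtain ⟨ε, hε, n0, H⟩ := hF
    refine ⟨ε, hε, n0, fun n hn C hC hcard => ?_⟩
    obtain ⟨p, ψ', h1, h2, h3, h4⟩ := H n hn C hC hcard
    refine ⟨p, (p : ℂ) * ph ψ', h1, h2, ?_, h4⟩
    have hp : |p| ≤ 1 := by
      rw [abs_of_pos (lt_of_lt_of_le hp0p h1)]
      linarith
    refine (y2z_ph hp (?_ : |ψ' - ψ| ≤ th)).trans hthτ
    rw [abs_le]
    rcases h3 with ⟨h5, h6⟩ | ⟨h5, h6⟩
    · constructor <;> linarith
    · constructor <;> linarith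
  -- the data
  intro η hη
  obtain ⟨εW, hεW, hW1⟩ := hW η hη
  obtain ⟨εa, hεa, hKa⟩ := hK1 ψ th x2 R A c S hM (ξ / 2) hη' hη'1
  obtain ⟨εb, ν, hεb, hν0, hν1, hKb⟩ := K2_bound ht hξ hξ8 hG hM hx0 hx1 hη' hη'1
  obtain ⟨εc, hεc, hKc⟩ := K3_bound ht hξ hξ8 hG hM hη' hη'1
  obtain ⟨εd, hεd, hKd⟩ := y2h_c0 hM hη'
  obtain ⟨ε0, hε0⟩ : ∃ ε0 : ℝ, ε0 = min (min εW εa) (min (min εb εc) εd) := ⟨_, rfl⟩
  have hε0p : 0 < ε0 := by
    rw [hε0]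
    exact lt_min (lt_min hεW hεa) (lt_min (lt_min hεb hεc) hεd)
  have l1 : ε0 ≤ εW := by rw [hε0]; exact (min_le_left _ _).trans (min_le_left _ _)
  have l2 : ε0 ≤ εa := by rw [hε0]; exact (min_le_left _ _).trans (min_le_right _ _)
  have l3 : ε0 ≤ εb := by
    rw [hε0]; exact (min_le_right _ _).trans ((min_le_left _ _).trans (min_le_left _ _))
  have l4 : ε0 ≤ εc := by
    rw [hε0]; exact (min_le_right _ _).trans ((min_le_left _ _).trans (min_le_right _ _))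
  have l5 : ε0 ≤ εd := by rw [hε0]; exact (min_le_right _ _).trans (min_le_right _ _)
  obtain ⟨ν', x0, hν'0, hν'1, hx00, hxx⟩ := y2c_eps hν0 hν1 hD hlam.le hε0p
  obtain ⟨x', hx'0, hx'1, hQ1⟩ := hQ ν' x0 hν'0 hx00
  obtain ⟨ε, hε, hεε, hcond1, hcond2⟩ := hxx x' hx'0 hx'1
  obtain ⟨κa, hκa, hKa1⟩ := hKa ε hε (hεε.trans l2)
  obtain ⟨κb, hκb, hKb1⟩ := hKb ε hε (hεε.trans l3)
  obtain ⟨κc, hκc, hKc1⟩ := hKc ε hε (hεε.trans l4)
  obtain ⟨nd, hKd1⟩ := hKd ε hε.le (hεε.trans l5)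
  obtain ⟨NW, hW2⟩ := hW1 ε hε (hεε.trans l1) A1 hA1
  obtain ⟨Na, hKa2⟩ := hKa1 A1 hA1
  obtain ⟨Nb, hKb2⟩ := hKb1 A1 hA1
  obtain ⟨Nc, hKc2⟩ := hKc1 A1 hA1
  have hgain : 0 < ε * (S 1).re / 4 := by positivity
  obtain ⟨Nd, hNd⟩ := exists_nat_ge (Real.log A1 / (ε * (S 1).re / 4))
  obtain ⟨n0, hn0, Q, hQB⟩ := hQ1 (NW + Na + Nb + Nc + Nd + 1)
  have hn01 : 1 ≤ n0 := by omega
  have hlogn : Real.log A1 / n0 ≤ ε * (S 1).re / 4 := by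
    have h1 : (Nd : ℝ) ≤ n0 := by
      have : Nd ≤ n0 := by omega
      exact_mod_cast this
    have h2 : (0 : ℝ) < n0 := by exact_mod_cast hn01
    rw [div_le_iff₀ hgain] at hNd
    rw [div_le_iff₀ h2]
    refine hNd.trans ?_
    rw [mul_comm (Nd : ℝ)]
    exact mul_le_mul_of_nonneg_left h1 hgain.le
  obtain ⟨e, he⟩ : ∃ e : ℝ, e = -((1 - ν') * lam2 t * x') := ⟨_, rfl⟩
  rw [← he] at hQB hcond1
  have he0 : e ≤ 0 := by
    rw [he]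
    have : 0 ≤ (1 - ν') * lam2 t * x' :=
      mul_nonneg (mul_nonneg (by linarith) hlam.le) hx'0.le
    linarith
  -- the radius `σ0`
  obtain ⟨σ0, hσ0, hσ0'⟩ : ∃ σ0 : ℝ, 0 < σ0 ∧
      p0 * ((1 - (ωa - 2 * ρ)) * Real.exp σ0) ≤ ωa - 2 * ρ := by
    have h1 : 0 < p0 * (1 - (ωa - 2 * ρ)) := mul_pos hp0p (by linarith)
    refine ⟨Real.log ((ωa - 2 * ρ) / (p0 * (1 - (ωa - 2 * ρ)))), ?_, ?_⟩
    · apply Real.log_pos
      rw [one_lt_div h1]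
      exact hp0
    · rw [Real.exp_log (div_pos hta h1), ← mul_assoc, mul_div_cancel₀ _ h1.ne']
  obtain ⟨σ, κW, e', hκW, he', hσn, hστ, hσσ, hσe, nW, hWOK⟩ :=
    hW2 n0 (by omega) Q e _ hQB he0 (by linarith) σ0 hσ0
  obtain ⟨na, hKa3⟩ := hKa2 n0 (by omega) Q e _ hQB he0
  obtain ⟨nb, hKb3⟩ := hKb2 n0 (by omega) Q e _ hQB hcond1
  obtain ⟨nc, hKc3⟩ := hKc2 n0 (by omega) Q e _ hQB he0
  obtain ⟨nC, hCOK⟩ := y2h_cok hM ht (by linarith : ξ ≤ 1 / 2) hη'.le hη'1 hε hA1 hn01 hlogn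
    hQB he0
  obtain ⟨κ3, hκ3⟩ : ∃ κ3 : ℝ, κ3 = min κa (min κb κc) := ⟨_, rfl⟩
  have hκ30 : 0 < κ3 := by rw [hκ3]; exact lt_min hκa (lt_min hκb hκc)
  have m1 : κ3 ≤ κa := by rw [hκ3]; exact min_le_left _ _
  have m2 : κ3 ≤ κb := by rw [hκ3]; exact (min_le_right _ _).trans (min_le_left _ _)
  have m3 : κ3 ≤ κc := by rw [hκ3]; exact (min_le_right _ _).trans (min_le_right _ _)
  obtain ⟨εk, hεk, nk, hk⟩ := kside2 P hd0 hd1 hx0 hx1 (hgx x2 hx0 le_rfl).le hκp4 hκ30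
  have mono : ∀ (n : ℕ) (u κ' : ℝ), κ3 ≤ κ' →
      Real.exp (n * (u - κ')) ≤ Real.exp (n * (u - κ3)) := by
    intro n u κ' h
    apply Real.exp_le_exp.2
    exact mul_le_mul_of_nonneg_left (by linarith) (Nat.cast_nonneg n)
  refine ⟨σ, min κW (ε * (S 1).re / 2), e', lt_min hκW (by positivity), he', hσn, hστ, hσe, ?_,
    εk, hεk, nW + na + nb + nc + nC + nd + nk, fun n hn C hC hcard => ?_⟩
  · refine le_trans ?_ hσ0'
    apply mul_le_mul_of_nonneg_left _ hp0p.le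
    exact mul_le_mul_of_nonneg_left (Real.exp_le_exp.2 hσσ) (by linarith)
  have hdeg2 := y2h_deg (S := S) (ε := ε) (by linarith : ξ ≤ 1 / 2) hη'.le hη'1 hQB.deg n
  have hdeg : (Gq Q n0 S ε (ξ / 2) n).natDegree ≤ n := by omega
  refine ⟨n, cK n (Gq Q n0 S ε (ξ / 2) n), ?_, ?_⟩
  · refine hCOK n (by omega) _ (min_le_right _ _) C ?_
    refine hk n (by omega) C hC hcard _ (hKd1 n (by omega) Q n0 hQB.one hdeg) ?_ ?_ ?_
    · intro k hkk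
      obtain ⟨a, ha, ha1, ha2⟩ := hKa3 n (by omega) k hkk
      exact ⟨a, ha, ha1, fun x hx hx' => (ha2 x hx hx').trans (mono n _ _ m1)⟩
    · intro k _ hk2 x hxa hxb
      refine cK_cauchy hdeg (lt_of_lt_of_le hx0 hxa) hxb (fun z hz => ?_) k (by omega)
      have := hKb3 n (by omega) z (by rw [hz]; exact hxa) (by rw [hz]; exact hxb)
      rw [hz] at this
      exact this.trans (mono n _ _ m2)
    · intro j hj x hxa hxb
      refine cK_rev_cauchy hdeg hxa hxb (fun z hz => ?_) j (by omega)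
      have := hKc3 n (by omega) z (by rw [hz]; exact hxa) (by rw [hz]; exact hxb)
      rw [hz] at this
      exact this.trans (mono n _ _ m3)
  · rw [Gp_cK hdeg]
    exact hWOK n (by omega) _ (min_le_left _ _)

/-- the target of Y2 -/
theorem forcedS1 : FS1 := fun _ ht h => forcedS_II' ht h

end Pool.Agent.Lib.MP_0430e4_lc.AC
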