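import Pool.Agent.Lib.MP_0430e4_lc.AC.YT10
import Pool.Agent.Lib.MP_0430e4_lc.YG.A4

/-!
Project ALLCODES, part Y2, (F5a), helper80.

`SS` and `EE` are positive on the imaginary axis; `TT / AA 0 = cos φ + i E sin φ` on `Re s = η`;
hence `Im TT ≥ c sinh (2 Re s) sin (2 Im s)` on the quarter rectangle `[0, η] × [0, π/2]`.
-/

set_option autoImplicit false

open Filter Topology Set Complex

namespace Pool.Agent.Lib.MP_0430e4_lc.AC.YF

open LPLOW LPLOW.Pos YG

/-! ### positivity of `SS` on the imaginary axis -/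

theorem cos_twist {η : ℝ} (hη : 0 < η) (t v : ℝ) :
    S (fun M : ℤ => hx η M * Real.cos (2 * M * t)) (2 * v * I)
      = (((xr η (v + t) + xr η (v - t)) / 2 : ℝ) : ℂ) := by
  have h1 : HasSum (fun M : ℤ => (hx η M : ℂ) * Complex.exp (M * (2 * ((v + t : ℝ) : ℂ) * I)))
      (xr η (v + t) : ℂ) := by
    rw [← XX_real]
    exact ((hx_dec hη).summable (by simpa using hη)).hasSum
  have h2 : HasSum (fun M : ℤ => (hx η M : ℂ) * Complex.exp (M * (2 * ((v - t : ℝ) : ℂ) * I)))
      (xr η (v - t) : ℂ) := by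
    rw [← XX_real]
    exact ((hx_dec hη).summable (by simpa using hη)).hasSum
  have h3 := (h1.add h2).mul_left (1 / 2 : ℂ)
  have e : ((((xr η (v + t) + xr η (v - t)) / 2 : ℝ)) : ℂ) =
      1 / 2 * ((xr η (v + t) : ℂ) + (xr η (v - t) : ℂ)) := by
    push_cast; ring
  rw [e, ← h3.tsum_eq]
  unfold S
  apply tsum_congr
  intro M
  have e1 : Complex.exp ((M : ℂ) * (2 * ((v + t : ℝ) : ℂ) * I)) =
      Complex.exp ((M : ℂ) * (2 * v * I)) * Complex.exp (((2 * M * t : ℝ) : ℂ) * I) := by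
    rw [← Complex.exp_add]; congr 1; push_cast; ring
  have e2 : Complex.exp ((M : ℂ) * (2 * ((v - t : ℝ) : ℂ) * I)) =
      Complex.exp ((M : ℂ) * (2 * v * I)) * Complex.exp (-(((2 * M * t : ℝ) : ℂ)) * I) := by
    rw [← Complex.exp_add]; congr 1; push_cast; ring
  have e3 : ((Real.cos (2 * M * t) : ℝ) : ℂ) =
      (Complex.exp (((2 * M * t : ℝ) : ℂ) * I) + Complex.exp (-(((2 * M * t : ℝ) : ℂ)) * I)) / 2 := by
    rw [Complex.ofReal_cos]; rfl
  rw [e1, e2, Complex.ofReal_mul, e3]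
  ring

theorem SS_twist {η : ℝ} (hη : 0 < η) (t : ℝ) :
    S (cS η) (I * t) = ((∑' M : ℤ, hx η M * (hx η (-M) * Real.cos (2 * ((-M : ℤ) : ℝ) * t)) : ℝ) : ℂ) := by
  have h : (S (cS η) (I * t)).im = 0 := S_real_imag (cS_neg η) _ (by simp)
  have h1 : S (cS η) (I * t) = (((S (cS η) (I * t)).re : ℝ) : ℂ) := by
    apply Complex.ext
    · simp
    · simpa using h
  rw [h1]
  congr 1
  rw [cS_reindex]
  unfold S
  rw [Complex.re_tsum ((dec_hx_sq hη).summable (by simpa using hη))]
  apply tsum_congr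
  intro M
  have h2 : Complex.exp ((M : ℂ) * (2 * (I * t))) = Complex.exp (((2 * M * t : ℝ) : ℂ) * I) := by
    congr 1
    push_cast
    ring
  rw [h2, Complex.re_ofReal_mul, Complex.exp_ofReal_mul_I_re, hx_neg]
  push_cast
  rw [show 2 * -(M : ℝ) * t = -(2 * M * t) by ring, Real.cos_neg]
  ring

/-- `SS > 0` on the imaginary axis -/
theorem SS_pos {η : ℝ} (hη : 0 < η) (t : ℝ) : 0 < (S (cS η) (I * t)).re := by
  rw [SS_twist hη, Complex.ofReal_re]
  set a : ℤ → ℝ := hx η with ha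
  set b : ℤ → ℝ := fun M : ℤ => hx η M * Real.cos (2 * M * t) with hb
  have hda : Dec η a := hx_dec hη
  have hdb : Dec η b := hda.of_le (fun k => by
    rw [hb, abs_mul]
    exact mul_le_of_le_one_right (abs_nonneg _) (Real.abs_cos_le_one _))
  have hcvl : cvl a b 0 =
      ∑' M : ℤ, hx η M * (hx η (-M) * Real.cos (2 * ((-M : ℤ) : ℝ) * t)) := by
    unfold cvl
    apply tsum_congr
    intro M
    simp only [ha, hb, zero_sub]
  have hcd : Summable (fun N => |cvl a b N|) := by
    have h6 := summable_mul_of_summable_norm (hda.summable_coeff hη).of_abs.norm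
      (hdb.summable_coeff hη).of_abs.norm
    let e : ℤ × ℤ ≃ ℤ × ℤ :=
      { toFun := fun p => (p.2, p.1 - p.2)
        invFun := fun p => (p.1 + p.2, p.1)
        left_inv := fun p => by ext <;> simp
        right_inv := fun p => by ext <;> simp }
    have h7 : Summable (fun p : ℤ × ℤ => a p.2 * b (p.1 - p.2)) := (e.summable_iff).2 h6
    exact h7.prod.abs
  have h4 : ∫ v in (0 : ℝ)..Real.pi, S a (2 * v * I) * S b (2 * v * I)
      = Real.pi * cvl a b 0 := by
    rw [← integral_S hcd]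
    congr 1
    funext v
    exact S_mul hda hdb (by simpa using hη)
  have h5 : ∀ v : ℝ, S a (2 * v * I) * S b (2 * v * I) =
      ((xr η v * ((xr η (v + t) + xr η (v - t)) / 2) : ℝ) : ℂ) := by
    intro v
    rw [hb, cos_twist hη, Complex.ofReal_mul]
    congr 1
    exact XX_real η v
  have h6 : ∫ v in (0 : ℝ)..Real.pi, S a (2 * v * I) * S b (2 * v * I) =
      ((∫ v in (0 : ℝ)..Real.pi, xr η v * ((xr η (v + t) + xr η (v - t)) / 2) : ℝ) : ℂ) := by
    rw [← intervalIntegral.integral_ofReal]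
    congr 1
    funext v
    exact h5 v
  rw [h6] at h4
  have h7 : (∫ v in (0 : ℝ)..Real.pi, xr η v * ((xr η (v + t) + xr η (v - t)) / 2)) =
      Real.pi * cvl a b 0 := by
    exact_mod_cast h4
  have h8 : 0 < ∫ v in (0 : ℝ)..Real.pi, xr η v * ((xr η (v + t) + xr η (v - t)) / 2) := by
    apply intervalIntegral.intervalIntegral_pos_of_pos _ _ Real.pi_pos
    · apply Continuous.intervalIntegrable
      have := xr_continuous hη
      fun_prop
    · intro v
      have h1 := xr_pos hη v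
      have h2 := xr_pos hη (v + t)
      have h3 := xr_pos hη (v - t)
      positivity
  rw [h7] at h8
  rw [← hcvl]
  exact (mul_pos_iff_of_pos_left Real.pi_pos).1 h8

theorem cE_eq_cS (η : ℝ) : cE η = cS (2 * η) := by
  funext k
  unfold cE cS
  rw [show (k : ℝ) * (2 * η / 2) = k * η by ring]

/-- `EE > 0` on the imaginary axis -/
theorem EE_pos {η : ℝ} (hη : 0 < η) (t : ℝ) : 0 < (S (cE η) (I * t)).re := by
  rw [cE_eq_cS]
  exact SS_pos (by linarith) t

/-! ### the derivative of the majorant -/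

/-- the critical slope -/
noncomputable def ks (η : ℝ) : ℝ := (1 - K1 η) / 4

/-- `f0` plus `η` times the critical slope -/
noncomputable def cs (η : ℝ) : ℝ := Lower.f0 (Real.exp (-η) ^ 2) + η * ks η

section
variable {η : ℝ} (hη : 0 < η)
include hη

omit hη in
theorem AA_zero_im : (AA η 0).im = 0 := S_real_imag (cA_neg η) _ (by simp)

theorem AA0_pos : 0 < (AA η 0).re := A_zero_pos hη

theorem AA0_eq : AA η 0 = (((AA η 0).re : ℝ) : ℂ) := by
  apply Complex.ext
  · simp
  · simpa using AA_zero_im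

/-- `UU' = TT AA / AA 0` at the critical slope -/
theorem UU_deriv {s : ℂ} (hs : |s.re| < η) :
    HasDerivAt (UU η (ks η)) (S (cT η) s * AA η s / AA η 0) s := by
  refine (hasDerivAt_UU hη (ks η) hs).congr_deriv ?_
  have h1 := ident_I hη hs
  rw [SS_pi] at h1
  have h2 : AA η 0 ≠ 0 := AA_zero_ne hη
  rw [eq_div_iff h2]
  have e1 : S (cT η) s * AA η s = S (cT η) s * S (cA η) s := rfl
  have e2 : S (cA η) 0 = AA η 0 := rfl
  rw [e1, h1, e2]
  unfold ks
  push_cast
  ring

theorem exp_GG_UU {s : ℂ} (h0 : 0 ≤ s.re) (h1 : s.re < η) :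
    Complex.exp (2 * (Lower.GG (Real.exp (-η) ^ 2) (cs η) s - UU η (ks η) s)) = 1 - Z η s ^ 2 := by
  have h2 := Lower.one_sub_zz_sq hη h0 h1
  have h3 := Lower.S_cU hη h0 h1
  have h4 : (cs η - Lower.f0 (Real.exp (-η) ^ 2)) / η = ks η := by
    unfold cs
    field_simp
    ring
  unfold Z
  rw [h2]
  congr 1
  unfold Lower.GG UU
  rw [Lower.eta_eq hη, h4]
  have e : S (cU η) s = S (Lower.cU η) s := rfl
  rw [e, h3]
  ring

/-- `GG' = AA (TT / AA 0 - Z)` -/
theorem GG_deriv {s : ℂ} (h0 : 0 < s.re) (h1 : s.re < η) :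
    HasDerivAt (Lower.GG (Real.exp (-η) ^ 2) (cs η))
      (S (cT η) s * AA η s / AA η 0 - Z η s * AA η s) s := by
  have habs : |s.re| < η := abs_lt.2 ⟨by linarith, h1⟩
  have hd := (Lower.GG_diff r0 (r1 hη) (cs η) h0.le
    (by rw [Lower.eta_eq hη]; exact h1.le)).hasDerivAt
  set g := deriv (Lower.GG (Real.exp (-η) ^ 2) (cs η)) s with hg
  have h2 := ((hd.sub (UU_deriv hη habs)).const_mul (2 : ℂ)).cexp
  have h3 : HasDerivAt (fun s => 1 - Z η s ^ 2) (-(2 * Z η s * (AA η s * (1 - Z η s ^ 2)))) s := by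
    have h4 := ((Z_deriv hη habs).pow 2).const_sub 1
    refine h4.congr_deriv ?_
    push_cast
    ring
  have hopen : {w : ℂ | 0 < w.re ∧ w.re < η} ∈ 𝓝 s := by
    have ho : IsOpen {w : ℂ | 0 < w.re ∧ w.re < η} :=
      (isOpen_lt continuous_const Complex.continuous_re).inter
        (isOpen_lt Complex.continuous_re continuous_const)
    exact ho.mem_nhds ⟨h0, h1⟩
  have h5 : (fun s => Complex.exp (2 * (Lower.GG (Real.exp (-η) ^ 2) (cs η) s - UU η (ks η) s)))
      =ᶠ[𝓝 s] fun s => 1 - Z η s ^ 2 := by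
    filter_upwards [hopen] with w hw
    exact exp_GG_UU hη hw.1.le hw.2
  have h6 := (h3.congr_of_eventuallyEq h5).unique h2
  have h7 : 1 - Z η s ^ 2 ≠ 0 := by
    rw [← exp_GG_UU hη h0.le h1]
    exact Complex.exp_ne_zero _
  simp only [Pi.sub_apply] at h6
  rw [exp_GG_UU hη h0.le h1] at h6
  have h8 : (1 - Z η s ^ 2) * 2 ≠ 0 := mul_ne_zero h7 two_ne_zero
  have h9 : g = S (cT η) s * AA η s / AA η 0 - Z η s * AA η s := by
    apply mul_left_cancel₀ h8
    linear_combination -h6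
  rw [← h9]
  exact hd

/-- the relation between the two expansions, left of the outer side -/
theorem outer_left {u : ℂ} (h0 : -η < u.re) (h1 : u.re < 0) :
    ((ks η : ℂ) + (S (cO η) u - 1) / 2 - (S (cS η) u - 1) / 4) *
      (1 - Complex.exp (BII.Lam η u) ^ 2) * AA η 0 =
    Complex.exp (BII.Lam η u) * S (cO η) u *
      (S (cT η) ((η : ℂ) + u) - AA η 0 * Complex.exp (BII.Lam η u)) := by
  have habs : |u.re| < η := abs_lt.2 ⟨h0, by linarith⟩
  have hs0 : 0 < ((η : ℂ) + u).re := by simp; linarith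
  have hs1 : ((η : ℂ) + u).re < η := by simp; linarith
  have hsabs : |((η : ℂ) + u).re| < η := abs_lt.2 ⟨by linarith, hs1⟩
  have h4 : (cs η - Lower.f0 (Real.exp (-η) ^ 2)) / η = ks η := by
    unfold cs
    field_simp
    ring
  have hZ : Z η ((η : ℂ) + u) = Complex.exp (BII.Lam η u) := BII.zz_add hη habs
  -- first derivative
  have d1 := GG_deriv hη hs0 hs1
  have hopen : {w : ℂ | |(w - (η : ℂ)).re| < η} ∈ 𝓝 ((η : ℂ) + u) := by
    apply IsOpen.mem_nhds
    · exact isOpen_lt (continuous_abs.comp (Complex.continuous_re.comp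
        (continuous_id.sub continuous_const))) continuous_const
    · show |(((η : ℂ) + u) - (η : ℂ)).re| < η
      rw [add_sub_cancel_left]
      exact habs
  have d2 : HasDerivAt (Lower.GG (Real.exp (-η) ^ 2) (cs η))
      ((ks η : ℂ) + (S (cO η) u - 1) / 2 - (S (cS η) u - 1) / 4) ((η : ℂ) + u) := by
    have e1 : HasDerivAt (fun w : ℂ => w - (η : ℂ)) 1 ((η : ℂ) + u) :=
      (hasDerivAt_id _).sub_const _
    have e2 : HasDerivAt (BII.VV η (ks η))
        ((ks η : ℂ) + (S (cO η) u - 1) / 2 - (S (cS η) u - 1) / 4) (((η : ℂ) + u) - (η : ℂ)) := by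
      rw [add_sub_cancel_left]
      exact BII.hasDerivAt_VV hη (ks η) habs
    have e3 := (e2.comp ((η : ℂ) + u) e1).const_add ((cs η : ℝ) : ℂ)
    rw [mul_one] at e3
    refine e3.congr_of_eventuallyEq ?_
    filter_upwards [hopen] with w hw
    have h5 := BII.GG_add hη (cs η) hw
    rw [h4] at h5
    rw [show (w : ℂ) = (η : ℂ) + (w - (η : ℂ)) by ring, h5]
    simp
  have hg := d1.unique d2
  -- derivative of `Z`
  have d3 := Z_deriv hη hsabs
  have d4 : HasDerivAt (Z η) (Complex.exp (BII.Lam η u) * S (cO η) u) ((η : ℂ) + u) := by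
    have e1 : HasDerivAt (fun w : ℂ => w - (η : ℂ)) 1 ((η : ℂ) + u) :=
      (hasDerivAt_id _).sub_const _
    have e2 : HasDerivAt (fun w => Complex.exp (BII.Lam η w))
        (Complex.exp (BII.Lam η u) * S (cO η) u) (((η : ℂ) + u) - (η : ℂ)) := by
      rw [add_sub_cancel_left]
      exact (BII.hasDerivAt_Lam hη habs).cexp
    have e3 := e2.comp ((η : ℂ) + u) e1
    rw [mul_one] at e3
    refine e3.congr_of_eventuallyEq ?_
    filter_upwards [hopen] with w hw
    have h5 := BII.zz_add hη hw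
    show Lower.zz _ w = _
    rw [show (w : ℂ) = (η : ℂ) + (w - (η : ℂ)) by ring, h5]
    simp
  have hz := d3.unique d4
  rw [hZ] at hz hg
  rw [← hg, ← hz]
  have h6 : AA η 0 ≠ 0 := AA_zero_ne hη
  field_simp

/-- the relation on the outer side -/
theorem outer_eq (t : ℝ) :
    ((ks η : ℂ) + (S (cO η) (t * I) - 1) / 2 - (S (cS η) (t * I) - 1) / 4) *
      (1 - Complex.exp (BII.Lam η (t * I)) ^ 2) * AA η 0 =
    Complex.exp (BII.Lam η (t * I)) * S (cO η) (t * I) *
      (S (cT η) ((η : ℂ) + t * I) - AA η 0 * Complex.exp (BII.Lam η (t * I))) := by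
  have hre : |((t : ℂ) * I).re| < η := by simpa using hη
  have hL : ContinuousAt (BII.Lam η) (t * I) := (BII.hasDerivAt_Lam hη hre).continuousAt
  have hO : ContinuousAt (S (cO η)) (t * I) := (dec_cO hη).continuousAt hre
  have hS : ContinuousAt (S (cS η)) (t * I) := (dec_cS hη).continuousAt hre
  have hT : ContinuousAt (fun u => S (cT η) ((η : ℂ) + u)) (t * I) := by
    apply ContinuousAt.comp (g := S (cT η)) (f := fun u : ℂ => (η : ℂ) + u)
    · apply (dec_cT hη).continuousAt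
      rw [abs_lt]
      constructor <;> simp <;> linarith
    · fun_prop
  obtain ⟨F, hFd⟩ : ∃ F : ℂ → ℂ, F = fun u : ℂ =>
      ((ks η : ℂ) + (S (cO η) u - 1) / 2 - (S (cS η) u - 1) / 4) *
      (1 - Complex.exp (BII.Lam η u) ^ 2) * AA η 0 -
      Complex.exp (BII.Lam η u) * S (cO η) u *
      (S (cT η) ((η : ℂ) + u) - AA η 0 * Complex.exp (BII.Lam η u)) := ⟨_, rfl⟩
  have hF : ContinuousAt F (((0 : ℝ) : ℂ) + t * I) := by
    rw [Complex.ofReal_zero, zero_add, hFd]
    have hE : ContinuousAt (fun u => Complex.exp (BII.Lam η u)) (t * I) := hL.cexp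
    fun_prop
  have hp : ContinuousAt (fun x : ℝ => (x : ℂ) + t * I) 0 := by fun_prop
  have hF2 : ContinuousAt (fun x : ℝ => F ((x : ℂ) + t * I)) 0 :=
    ContinuousAt.comp (g := F) (f := fun x : ℝ => (x : ℂ) + t * I) hF hp
  have h1 := hF2.tendsto.mono_left (nhdsWithin_le_nhds (s := Iio 0))
  have h2 : Tendsto (fun x : ℝ => F ((x : ℂ) + t * I)) (𝓝[<] 0) (𝓝 0) := by
    apply tendsto_const_nhds.congr'
    filter_upwards [Ioo_mem_nhdsLT (show -η < 0 by linarith)] with x hx
    have := outer_left hη (u := (x : ℂ) + t * I) (by simpa using hx.1) (by simpa using hx.2)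
    rw [hFd]
    simp only
    rw [this, sub_self]
  have h3 := tendsto_nhds_unique h1 h2
  rw [Complex.ofReal_zero, zero_add, hFd] at h3
  exact sub_eq_zero.1 h3

/-- `Im TT = AA 0 · (EE / OO 0) · Im Z` on the outer side -/
theorem outer_im (t : ℝ) :
    (S (cT η) ((η : ℂ) + t * I)).im = (AA η 0).re *
      ((S (cE η) (I * t)).re / (S (cO η) 0).re) * (Z η ((η : ℂ) + t * I)).im := by
  have hre : |((t : ℂ) * I).re| < η := by simpa using hη
  have h0 := outer_eq hη t
  have hZ : Z η ((η : ℂ) + t * I) = Complex.exp (BII.Lam η (t * I)) := BII.zz_add hη hre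
  have hn : ‖Z η ((η : ℂ) + t * I)‖ = 1 := Z_norm hη (by simp)
  rw [← hZ] at h0
  set w := Z η ((η : ℂ) + t * I) with hw
  set O := S (cO η) (t * I) with hO
  set T := S (cT η) ((η : ℂ) + t * I) with hT
  have e0 : (t : ℂ) * I = I * t := mul_comm _ _
  -- the slope of the majorant
  have h2 := ident_II hη (s := t * I) hre
  rw [SS_pi] at h2
  have hOp : 0 < O.re := by rw [hO, e0]; exact OO_re_pos hη t
  have hO0 := BII.O_zero_pos hη
  have hO1 : O = ((O.re : ℝ) : ℂ) := by
    apply Complex.ext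
    · simp
    · rw [hO, e0, Complex.ofReal_im]; exact OO_im t
  have hEi : (S (cE η) (t * I)).im = 0 := S_real_imag (cE_neg η) _ (by simp)
  have hE1 : S (cE η) (t * I) = (((S (cE η) (I * t)).re : ℝ) : ℂ) := by
    apply Complex.ext
    · rw [Complex.ofReal_re, e0]
    · rw [Complex.ofReal_im]; exact hEi
  have hO01 : S (cO η) 0 = (((S (cO η) 0).re : ℝ) : ℂ) := by
    apply Complex.ext
    · simp
    · have := S_real_imag (cO_neg η) (0 : ℂ) (by simp)
      simpa using this
  set E := (S (cE η) (I * t)).re with hE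
  set O0 := (S (cO η) 0).re with hO0d
  set a := (AA η 0).re with ha
  have h3 : ((ks η : ℂ) + (O - 1) / 2 - (S (cS η) (t * I) - 1) / 4) =
      O / 2 * (1 - (E : ℂ) / O0) := by
    have hne : (O0 : ℂ) ≠ 0 := by exact_mod_cast hO0.ne'
    rw [hE1, hO01] at h2
    have h4 : S (cS η) (t * I) = (E : ℂ) * O * 2 / O0 - (K1 η : ℂ) := by
      field_simp
      linear_combination -2 * h2
    rw [h4]
    unfold ks
    push_cast
    ring
  rw [h3, AA0_eq hη] at h0
  have hOne : O ≠ 0 := by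
    intro h; rw [h] at hOp; simp at hOp
  have h5 : (1 / 2 * (1 - (E : ℂ) / O0)) * (1 - w ^ 2) * (a : ℂ) = w * (T - a * w) := by
    apply mul_left_cancel₀ hOne
    linear_combination h0
  -- multiply by the conjugate
  have h6 : w * (starRingEnd ℂ) w = 1 := by
    rw [Complex.mul_conj, Complex.normSq_eq_norm_sq, hn]
    simp
  have h7 : T = (a : ℂ) * w + (1 / 2 * (1 - (E : ℂ) / O0)) * a * ((starRingEnd ℂ) w - w) := by
    linear_combination (-(starRingEnd ℂ) w) * h5 - (T - a * w +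
      (1 / 2 * (1 - (E : ℂ) / O0)) * a * w) * h6
  have h8 : (starRingEnd ℂ) w - w = ((-2 * w.im : ℝ) : ℂ) * I := by
    apply Complex.ext <;> simp
    ring
  have h9 : T = (a : ℂ) * w + (((1 / 2 * (1 - E / O0)) * a * (-2 * w.im) : ℝ) : ℂ) * I := by
    rw [h7, h8]; push_cast; ring
  rw [h9, Complex.add_im, Complex.im_ofReal_mul, Complex.im_ofReal_mul, Complex.I_im]
  ring

end

end Pool.Agent.Lib.MP_0430e4_lc.AC.YF
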