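import Pool.Agent.Lib.MP_0430e4_lc.AC.YF1

/-!
Project ALLCODES, part Y2, (F5a), helper80: `Im TT ≥ c sinh (2 Re s) sin (2 Im s)` on the quarter
rectangle `[0, η] × [0, π/2]`, `c > 0`.
-/

set_option autoImplicit false

open Filter Topology Set Complex

namespace Pool.Agent.Lib.MP_0430e4_lc.AC.YF

open LPLOW LPLOW.Pos YG

/-! ### derivatives on vertical lines -/

theorem vline {f : ℂ → ℂ} {f' : ℂ} {x t : ℝ} (h : HasDerivAt f f' ((x : ℂ) + t * I)) :
    HasDerivAt (fun t : ℝ => f ((x : ℂ) + t * I)) (I * f') t := by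
  have h2 : HasDerivAt (fun t : ℝ => (x : ℂ) + t * I) I t := by
    have := ((Complex.ofRealCLM.hasDerivAt (x := t)).mul_const I).const_add (x : ℂ)
    simpa using this
  have h3 : HasDerivAt (f ∘ fun t : ℝ => (x : ℂ) + t * I) (I • f') t := h.scomp t h2
  exact h3

theorem vline_im {f : ℂ → ℂ} {f' : ℂ} {x t : ℝ} (h : HasDerivAt f f' ((x : ℂ) + t * I)) :
    HasDerivAt (fun t : ℝ => (f ((x : ℂ) + t * I)).im) f'.re t := by
  have h4 := (Complex.imCLM.hasFDerivAt.comp_hasDerivAt t (vline h))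
  refine h4.congr_deriv ?_
  simp

theorem vline_re {f : ℂ → ℂ} {f' : ℂ} {x t : ℝ} (h : HasDerivAt f f' ((x : ℂ) + t * I)) :
    HasDerivAt (fun t : ℝ => (f ((x : ℂ) + t * I)).re) (-f'.im) t := by
  have h4 := (Complex.reCLM.hasFDerivAt.comp_hasDerivAt t (vline h))
  refine h4.congr_deriv ?_
  simp

theorem im_cosh_two (s : ℂ) :
    (Complex.cosh (2 * s)).im = Real.sinh (2 * s.re) * Real.sin (2 * s.im) := by
  have h : (2 : ℂ) * s = ((2 * s.re : ℝ) : ℂ) + ((2 * s.im : ℝ) : ℂ) * I := by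
    apply Complex.ext <;> simp
  rw [h, Complex.cosh_add, Complex.cosh_mul_I, Complex.sinh_mul_I, Complex.add_im]
  rw [← Complex.ofReal_cosh, ← Complex.ofReal_cos, ← Complex.ofReal_sinh, ← Complex.ofReal_sin,
    ← mul_assoc, ← Complex.ofReal_mul, ← Complex.ofReal_mul, Complex.ofReal_im, zero_add,
    Complex.im_ofReal_mul, Complex.I_im, mul_one]

/-! ### the angle on the outer side -/

theorem cM_zero_odd (η : ℝ) (k : ℤ) (hk : Odd k) : BII.cM η k = 0 := by
  unfold BII.cM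
  rw [if_neg (Int.not_even_iff_odd.2 hk)]

theorem Lam_half_pi (η : ℝ) : BII.Lam η (((0 : ℝ) : ℂ) + (Real.pi / 2 : ℝ) * I) =
    ((Real.pi / 2 : ℝ) : ℂ) * I := by
  have h1 : S (BII.cM η) (-(((Real.pi / 2 : ℝ) : ℂ) * I)) = -S (BII.cM η) (((Real.pi / 2 : ℝ) : ℂ) * I) :=
    S_neg_odd (BII.cM_neg η) _
  have h2 : S (BII.cM η) (-(((Real.pi / 2 : ℝ) : ℂ) * I) + Real.pi * I) =
      S (BII.cM η) (-(((Real.pi / 2 : ℝ) : ℂ) * I)) := by
    rw [S_add_pi]
    congr 1
    funext k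
    unfold tw
    rcases Int.even_or_odd k with hk | hk
    · rw [hk.neg_one_zpow, one_mul]
    · rw [cM_zero_odd η k hk, mul_zero]
  have h3 : -(((Real.pi / 2 : ℝ) : ℂ) * I) + Real.pi * I = ((Real.pi / 2 : ℝ) : ℂ) * I := by
    push_cast; ring
  rw [h3, h1] at h2
  have h4 : S (BII.cM η) (((Real.pi / 2 : ℝ) : ℂ) * I) = 0 := self_eq_neg.1 h2
  unfold BII.Lam
  rw [Complex.ofReal_zero, zero_add, h4, add_zero]

theorem Lam_zero (η : ℝ) : BII.Lam η 0 = 0 := by
  unfold BII.Lam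
  rw [S_odd_zero (BII.cM_neg η), add_zero]

section
variable {η : ℝ} (hη : 0 < η)
include hη

theorem cont_vert {c : ℤ → ℝ} {κ : ℝ} (hκ : 0 < κ) (hc : Dec κ c) :
    Continuous fun t : ℝ => (S c (I * t)).re := by
  apply Complex.continuous_re.comp
  rw [continuous_iff_continuousAt]
  intro t
  apply ContinuousAt.comp (g := S c) (f := fun t : ℝ => I * (t : ℂ))
  · exact hc.continuousAt (by simpa using hκ)
  · fun_prop

theorem EE_min : ∃ e : ℝ, 0 < e ∧ ∀ t ∈ Icc (0 : ℝ) (Real.pi / 2), e ≤ (S (cE η) (I * t)).re := by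
  have hpi := Real.pi_pos
  have hc := cont_vert hη (κ := 2 * η) (by linarith) (dec_cE hη)
  obtain ⟨t0, _, h1⟩ := (isCompact_Icc (a := (0 : ℝ)) (b := Real.pi / 2)).exists_isMinOn
    ⟨0, ⟨le_rfl, by positivity⟩⟩ hc.continuousOn
  exact ⟨_, EE_pos hη t0, fun t ht => h1 ht⟩

theorem OO_min : ∃ m : ℝ, 0 < m ∧ ∀ t ∈ Icc (0 : ℝ) (Real.pi / 2), m ≤ (S (cO η) (I * t)).re := by
  have hpi := Real.pi_pos
  have hc := cont_vert hη (κ := η) hη (dec_cO hη)
  obtain ⟨t0, _, h1⟩ := (isCompact_Icc (a := (0 : ℝ)) (b := Real.pi / 2)).exists_isMinOn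
    ⟨0, ⟨le_rfl, by positivity⟩⟩ hc.continuousOn
  exact ⟨_, OO_re_pos hη t0, fun t ht => h1 ht⟩

/-- the angle of `Z (η + i t)` -/
theorem phi_deriv (t : ℝ) : HasDerivAt (fun t : ℝ => (BII.Lam η (((0 : ℝ) : ℂ) + t * I)).im)
    (S (cO η) (I * t)).re t := by
  have h := BII.hasDerivAt_Lam hη (s := ((0 : ℝ) : ℂ) + t * I) (by simpa using hη)
  have h2 := vline_im h
  have e : ((0 : ℝ) : ℂ) + t * I = I * t := by push_cast; ring
  rw [e] at h2
  exact h2

theorem sin_phi {m : ℝ} (hm : 0 < m)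
    (hO : ∀ t ∈ Icc (0 : ℝ) (Real.pi / 2), m ≤ (S (cO η) (I * t)).re)
    {t : ℝ} (h0 : 0 ≤ t) (h1 : t ≤ Real.pi / 2) :
    m / Real.pi * Real.sin (2 * t) ≤ (Z η ((η : ℂ) + t * I)).im := by
  have hpi := Real.pi_pos
  obtain ⟨φ, hφ⟩ : ∃ φ : ℝ → ℝ, φ = fun t : ℝ => (BII.Lam η (((0 : ℝ) : ℂ) + t * I)).im := ⟨_, rfl⟩
  have hd : ∀ t : ℝ, HasDerivAt φ (S (cO η) (I * t)).re t := by
    rw [hφ]; exact phi_deriv hη
  have hφ0 : φ 0 = 0 := by
    rw [hφ]
    simp [Lam_zero]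
  have hφ1 : φ (Real.pi / 2) = Real.pi / 2 := by
    rw [hφ]
    show (BII.Lam η (((0 : ℝ) : ℂ) + (Real.pi / 2 : ℝ) * I)).im = _
    rw [Lam_half_pi]
    simp
  have hmono : MonotoneOn (fun t => φ t - m * t) (Icc 0 (Real.pi / 2)) := by
    apply monotoneOn_of_deriv_nonneg (convex_Icc _ _)
    · intro x _
      exact ((hd x).sub ((hasDerivAt_id x).const_mul m)).continuousAt.continuousWithinAt
    · intro x _
      exact ((hd x).sub ((hasDerivAt_id x).const_mul m)).differentiableAt.differentiableWithinAt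
    · intro x hx
      rw [interior_Icc] at hx
      have h2 := ((hd x).sub ((hasDerivAt_id x).const_mul m)).deriv
      have h3 : deriv (fun t => φ t - m * t) x = (S (cO η) (I * x)).re - m * 1 := h2
      rw [h3]
      have := hO x ⟨hx.1.le, hx.2.le⟩
      linarith
  have g1 := hmono ⟨le_rfl, by positivity⟩ ⟨h0, h1⟩ h0
  have g2 := hmono ⟨h0, h1⟩ ⟨by positivity, le_rfl⟩ h1
  simp only [hφ0, hφ1, mul_zero, sub_zero] at g1 g2
  have hl : m * t ≤ φ t := by linarith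
  have hu : φ t ≤ Real.pi / 2 := by
    have := mul_le_mul_of_nonneg_left h1 hm.le
    linarith
  have hre : |(((0 : ℝ) : ℂ) + t * I).re| < η := by simpa using hη
  have hZ : (Z η ((η : ℂ) + t * I)).im = Real.sin (φ t) := by
    have h2 := BII.zz_add hη hre
    have e : (η : ℂ) + (((0 : ℝ) : ℂ) + t * I) = (η : ℂ) + t * I := by push_cast; ring
    rw [e] at h2
    have h3 : Z η ((η : ℂ) + t * I) = Complex.exp (BII.Lam η (((0 : ℝ) : ℂ) + t * I)) := h2
    have h4 : BII.Lam η (((0 : ℝ) : ℂ) + t * I) = (φ t : ℂ) * I := by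
      apply Complex.ext
      · rw [BII.Lam_re_imag _ (by simp)]
        simp
      · rw [hφ]; simp
    rw [h3, h4, Complex.exp_ofReal_mul_I_im]
  rw [hZ]
  have h5 : 0 ≤ φ t := le_trans (mul_nonneg hm.le h0) hl
  have h6 := Real.mul_le_sin h5 hu
  have h7 : Real.sin (2 * t) ≤ 2 * t := Real.sin_le (by linarith)
  calc m / Real.pi * Real.sin (2 * t) ≤ m / Real.pi * (2 * t) :=
        mul_le_mul_of_nonneg_left h7 (by positivity)
    _ = 2 / Real.pi * (m * t) := by ring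
    _ ≤ 2 / Real.pi * φ t := mul_le_mul_of_nonneg_left hl (by positivity)
    _ ≤ _ := h6

/-- the top side -/
theorem TT_top {x : ℝ} (h0 : 0 < x) (h1 : x < η) :
    0 ≤ (S (cT η) ((x : ℂ) + (Real.pi / 2 : ℝ) * I)).im := by
  have habs : |((x : ℂ) + (Real.pi / 2 : ℝ) * I).re| < η := by
    rw [abs_lt]; constructor <;> simp <;> linarith
  have h2 := ident_I hη habs
  rw [SS_pi] at h2
  have h3 := AA_line_pos hη h0 h1
  have h4 := AA_line (η := η) x
  have h5 : S (cA η) ((x : ℂ) + (Real.pi / 2 : ℝ) * I) = AA η ((x : ℂ) + (Real.pi / 2 : ℝ) * I) := rfl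
  have h6 := SS_re_le hη (σ := x) (by rw [abs_of_pos h0]; exact h1)
  rw [SS_pi, Complex.ofReal_re] at h6
  have e : (x : ℂ) + I * (Real.pi / 2) = (x : ℂ) + (Real.pi / 2 : ℝ) * I := by push_cast; ring
  rw [e] at h6
  set a := (AA η ((x : ℂ) + (Real.pi / 2 : ℝ) * I)).im with ha
  have h7 : S (cA η) 0 = (((AA η 0).re : ℝ) : ℂ) := AA0_eq hη
  rw [h5, h4, h7] at h2
  have h8 := congrArg Complex.re h2
  have e1 : (S (cT η) ((x : ℂ) + (Real.pi / 2 : ℝ) * I) * ((a : ℂ) * I)).re =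
      -(a * (S (cT η) ((x : ℂ) + (Real.pi / 2 : ℝ) * I)).im) := by
    rw [show S (cT η) ((x : ℂ) + (Real.pi / 2 : ℝ) * I) * ((a : ℂ) * I) =
      (a : ℂ) * (S (cT η) ((x : ℂ) + (Real.pi / 2 : ℝ) * I) * I) by ring, Complex.re_ofReal_mul]
    simp
  have e2 : ((((AA η 0).re : ℝ) : ℂ) / 4 * (S (cS η) ((x : ℂ) + (Real.pi / 2 : ℝ) * I) -
      (K1 η : ℂ))).re = (AA η 0).re / 4 *
      ((S (cS η) ((x : ℂ) + (Real.pi / 2 : ℝ) * I)).re - K1 η) := by
    rw [show (((AA η 0).re : ℝ) : ℂ) / 4 = (((AA η 0).re / 4 : ℝ) : ℂ) by push_cast; ring,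
      Complex.re_ofReal_mul, Complex.sub_re, Complex.ofReal_re]
  rw [e1, e2] at h8
  have h9 := AA0_pos hη
  by_contra hneg
  push Not at hneg
  have h10 : 0 < -(a * (S (cT η) ((x : ℂ) + (Real.pi / 2 : ℝ) * I)).im) := by
    have := mul_neg_of_pos_of_neg h3 hneg
    linarith
  have h11 : (AA η 0).re / 4 * ((S (cS η) ((x : ℂ) + (Real.pi / 2 : ℝ) * I)).re - K1 η) ≤ 0 :=
    mul_nonpos_of_nonneg_of_nonpos (by positivity) (by linarith)
  linarith

/-- **(F5a)** -/
theorem TT_im : ∃ c : ℝ, 0 < c ∧ ∀ s : ℂ, 0 ≤ s.re → s.re ≤ η → 0 ≤ s.im → s.im ≤ Real.pi / 2 →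
    c * (Real.sinh (2 * s.re) * Real.sin (2 * s.im)) ≤ (S (cT η) s).im := by
  have hpi := Real.pi_pos
  obtain ⟨e, he, hE⟩ := EE_min hη
  obtain ⟨m, hm, hO⟩ := OO_min hη
  have hA := AA0_pos hη
  have hO0 := BII.O_zero_pos hη
  have hsh : 0 < Real.sinh (2 * η) := Real.sinh_pos_iff.2 (by linarith)
  obtain ⟨c, hc⟩ : ∃ c : ℝ, c = (AA η 0).re * (e / (S (cO η) 0).re) * (m / Real.pi) /
    Real.sinh (2 * η) := ⟨_, rfl⟩
  have hc0 : 0 < c := by rw [hc]; positivity
  refine ⟨c, hc0, fun s h0 h1 h2 h3 => ?_⟩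
  have hright : ∀ s : ℂ, s.re = η → 0 ≤ s.im → s.im ≤ Real.pi / 2 →
      c * (Real.sinh (2 * s.re) * Real.sin (2 * s.im)) ≤ (S (cT η) s).im := by
    intro s hs g0 g1
    have e1 : s = (η : ℂ) + s.im * I := by
      apply Complex.ext <;> simp [hs]
    rw [hs]
    have h4 := outer_im hη s.im
    rw [← e1] at h4
    rw [h4]
    have h5 := sin_phi hη hm hO g0 g1
    rw [← e1] at h5
    have h6 := hE s.im ⟨g0, g1⟩
    have h7 : 0 ≤ Real.sin (2 * s.im) := Real.sin_nonneg_of_nonneg_of_le_pi (by linarith) (by linarith)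
    have h8 : 0 ≤ (Z η s).im := le_trans (by positivity) h5
    calc c * (Real.sinh (2 * η) * Real.sin (2 * s.im))
        = (AA η 0).re * (e / (S (cO η) 0).re) * (m / Real.pi * Real.sin (2 * s.im)) := by
          rw [hc]; field_simp
      _ ≤ (AA η 0).re * (e / (S (cO η) 0).re) * (Z η s).im :=
          mul_le_mul_of_nonneg_left h5 (by positivity)
      _ ≤ (AA η 0).re * ((S (cE η) (I * s.im)).re / (S (cO η) 0).re) * (Z η s).im := by
          apply mul_le_mul_of_nonneg_right _ h8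
          apply mul_le_mul_of_nonneg_left _ hA.le
          exact div_le_div_of_nonneg_right h6 hO0.le
  have hleft : ∀ s : ℂ, s.re = 0 →
      c * (Real.sinh (2 * s.re) * Real.sin (2 * s.im)) ≤ (S (cT η) s).im := by
    intro s hs
    rw [hs, S_real_imag (cT_neg η) s hs]
    simp
  have key := im_le_of_frontier (f := fun s => (c : ℂ) * Complex.cosh (2 * s) - S (cT η) s)
    (a := 0) (b := η) (c := 0) (d := Real.pi / 2) (M := 0) hη (by positivity) ?_ ?_ ?_
    (s := s) h0 h1 h2 h3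
  · rw [Complex.sub_im, Complex.im_ofReal_mul, im_cosh_two] at key
    linarith
  · intro s ha hb _ _
    apply DifferentiableAt.sub
    · fun_prop
    · exact ((dec_cT hη).hasDerivAt (s := s) (by rw [abs_lt]; constructor <;> linarith)).differentiableAt
  · intro s hs g0 g1
    rw [Complex.sub_im, Complex.im_ofReal_mul, im_cosh_two]
    rcases hs with hs | hs
    · have := hleft s hs
      linarith
    · have := hright s hs g0 g1
      linarith
  · intro s hs g0 g1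
    rw [Complex.sub_im, Complex.im_ofReal_mul, im_cosh_two]
    rcases hs with hs | hs
    · rw [hs, S_real_real s hs]
      simp
    · rcases g0.eq_or_lt with g2 | g2
      · have := hleft s g2.symm
        linarith
      · rcases g1.eq_or_lt with g3 | g3
        · have := hright s g3 (by rw [hs]; positivity) hs.le
          linarith
        · have e1 : s = (s.re : ℂ) + (Real.pi / 2 : ℝ) * I := by
            apply Complex.ext <;> simp [hs]
          have h4 := TT_top hη g2 g3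
          rw [← e1] at h4
          rw [hs, show 2 * (Real.pi / 2) = Real.pi by ring, Real.sin_pi]
          simp only [mul_zero, zero_sub, Left.neg_nonpos_iff]
          exact h4

/-- `Im TT > 0` in the open quarter rectangle (and on the outer side) -/
theorem TT_im_pos {s : ℂ} (h0 : 0 < s.re) (h1 : s.re ≤ η) (h2 : 0 < s.im) (h3 : s.im < Real.pi / 2) :
    0 < (S (cT η) s).im := by
  obtain ⟨c, hc, h⟩ := TT_im hη
  refine lt_of_lt_of_le ?_ (h s h0.le h1 h2.le h3.le)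
  have h4 : 0 < Real.sinh (2 * s.re) := Real.sinh_pos_iff.2 (by linarith)
  have h5 : 0 < Real.sin (2 * s.im) := Real.sin_pos_of_pos_of_lt_pi (by linarith) (by linarith)
  positivity

end

end Pool.Agent.Lib.MP_0430e4_lc.AC.YF
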