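import Pool.Agent.Lib.MP_0430e4_lc.AC.YF2

/-!
Project ALLCODES, part Y2, (F5b), helper80: `LL` maps the open rectangle onto the half strip
`Re ζ > 0, |Im ζ| < π/4`; along vertical lines of the half strip `Re UU` is strictly smaller off the
real axis.
-/

set_option autoImplicit false

open Filter Topology Set Complex

namespace Pool.Agent.Lib.MP_0430e4_lc.AC.YF

open LPLOW LPLOW.Pos YG

theorem UU_conj (η κ : ℝ) (s : ℂ) : UU η κ (starRingEnd ℂ s) = starRingEnd ℂ (UU η κ s) := by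
  unfold UU
  rw [map_add, map_mul, Complex.conj_ofReal, S_conj]

section
variable {η : ℝ} (hη : 0 < η)
include hη

/-- `LL` is onto the half strip -/
theorem LL_surj {ζ : ℂ} (h0 : 0 < ζ.re) (h1 : |ζ.im| < Real.pi / 4) :
    ∃ s ∈ Rp η, LL η s = ζ := by
  have hpi := Real.pi_pos
  have him := abs_lt.1 h1
  obtain ⟨z, hz⟩ : ∃ z : ℂ, z = Complex.exp (-2 * ζ) := ⟨_, rfl⟩
  have hzn : ‖z‖ < 1 := by
    rw [hz, Complex.norm_exp, Real.exp_lt_one_iff]
    simp [h0]
  have hzr : 0 < z.re := by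
    rw [hz, Complex.exp_re]
    apply mul_pos (Real.exp_pos _)
    apply Real.cos_pos_of_mem_Ioo
    constructor <;> simp <;> linarith
  have hne : 1 + z ≠ 0 := by
    intro h
    have := congrArg Complex.re h
    simp at this
    linarith
  have hD : (1 - z) / (1 + z) ∈ Dp := by
    constructor
    · rw [norm_div, div_lt_one (norm_pos_iff.2 hne)]
      rw [Complex.norm_eq_sqrt_sq_add_sq, Complex.norm_eq_sqrt_sq_add_sq]
      apply Real.sqrt_lt_sqrt (by positivity)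
      simp
      nlinarith
    · rw [Complex.div_re]
      have hns : 0 < Complex.normSq (1 + z) := Complex.normSq_pos.2 hne
      have hn2 : z.re ^ 2 + z.im ^ 2 < 1 := by
        have h3 : ‖z‖ ^ 2 < 1 := by
          have := norm_nonneg z
          nlinarith
        rwa [← Complex.normSq_eq_norm_sq, Complex.normSq_apply, ← sq, ← sq] at h3
      rw [← add_div]
      apply div_pos _ hns
      simp
      nlinarith
  obtain ⟨s, hs, hsz⟩ := surj_Dp hη hD
  refine ⟨s, hs, ?_⟩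
  have hs' := mem_Rp.1 hs
  have habs : |s.re| < η := abs_lt.2 ⟨by linarith [hs'.1.1], hs'.1.2⟩
  have h2 := one_sub_Z hη habs
  have h3 := one_add_Z_ne hη habs
  have h4 : Complex.exp (-2 * LL η s) = Complex.exp (-2 * ζ) := by
    rw [← hz]
    apply mul_right_cancel₀ h3
    rw [← h2, hsz]
    field_simp
    ring
  obtain ⟨k, hk⟩ := Complex.exp_eq_exp_iff_exists_int.1 h4
  have h5 := abs_lt.1 (LL_im_lt hη habs hs'.2)
  have h6 := congrArg Complex.im hk
  simp at h6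
  have hk0 : k = 0 := by
    by_contra hne0
    have h7 : (1 : ℝ) ≤ |(k : ℝ)| := by exact_mod_cast Int.one_le_abs hne0
    have h8 : |(k : ℝ)| * (2 * Real.pi) = |(k : ℝ) * (2 * Real.pi)| := by
      rw [abs_mul, abs_of_pos (show (0 : ℝ) < 2 * Real.pi by positivity)]
    have h9 : |(k : ℝ) * (2 * Real.pi)| < Real.pi := by
      rw [abs_lt]; constructor <;> linarith
    nlinarith
  rw [hk0] at hk
  have : (-2 : ℂ) * LL η s = -2 * ζ := by simpa using hk
  exact mul_left_cancel₀ (by norm_num) this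

theorem LL_analytic : AnalyticOnNhd ℂ (LL η) {w : ℂ | |w.re| < η} :=
  DifferentiableOn.analyticOnNhd (fun _ hs => (LL_deriv hη hs).differentiableAt.differentiableWithinAt)
    isOpen_str

omit hη in
theorem isOpen_Rp : IsOpen (Rp η) := isOpen_Ioo.reProdIm isOpen_Ioo

theorem inj_Rp {a b : ℂ} (ha : a ∈ Rp η) (hb : b ∈ Rp η) (h : LL η a = LL η b) : a = b := by
  rw [mem_Rp] at ha hb
  exact LL_inj hη ha.1.1.le ha.1.2 ha.2.le hb.1.1.le hb.1.2 hb.2.le h

/-- the inverse along a vertical line has the expected derivative -/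
theorem inv_line {ρ : ℝ} (hρ : 0 < ρ) {τ : ℝ → ℂ}
    (hτ : ∀ y : ℝ, |y| < Real.pi / 4 → τ y ∈ Rp η ∧ LL η (τ y) = (ρ : ℂ) + y * I)
    {y : ℝ} (hy : |y| < Real.pi / 4) : HasDerivAt τ (I / AA η (τ y)) y := by
  obtain ⟨h1, h2⟩ := hτ y hy
  have h1' := mem_Rp.1 h1
  have habs : |(τ y).re| < η := abs_lt.2 ⟨by linarith [h1'.1.1], h1'.1.2⟩
  have hA : AA η (τ y) ≠ 0 := by
    intro h
    have := AA_re_pos hη habs h1'.2
    rw [h] at this
    simp at this
  have hs : HasStrictDerivAt (LL η) (AA η (τ y)) (τ y) := by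
    have h3 := (LL_analytic hη _ habs).hasStrictDerivAt
    rwa [(LL_deriv hη habs).deriv] at h3
  set g := hs.localInverse (LL η) (AA η (τ y)) (τ y) hA with hg
  have hgd : HasStrictDerivAt g (AA η (τ y))⁻¹ (LL η (τ y)) := hs.to_localInverse hA
  have hgr : ∀ᶠ ζ in 𝓝 (LL η (τ y)), LL η (g ζ) = ζ := hs.eventually_right_inverse hA
  have hg0 : g (LL η (τ y)) = τ y := (hs.eventually_left_inverse hA).self_of_nhds
  have hgc : ContinuousAt g (LL η (τ y)) := hgd.hasDerivAt.continuousAt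
  have hgm : ∀ᶠ ζ in 𝓝 (LL η (τ y)), g ζ ∈ Rp η := by
    apply hgc.eventually_mem
    rw [hg0]
    exact isOpen_Rp.mem_nhds h1
  have hline : HasDerivAt (fun y : ℝ => (ρ : ℂ) + y * I) I y := by
    have := ((Complex.ofRealCLM.hasDerivAt (x := y)).mul_const I).const_add (ρ : ℂ)
    simpa using this
  have hcomp : HasDerivAt (g ∘ fun y : ℝ => (ρ : ℂ) + y * I) (I • (AA η (τ y))⁻¹) y := by
    apply HasDerivAt.scomp y _ hline
    rw [← h2]
    exact hgd.hasDerivAt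
  have hEv : τ =ᶠ[𝓝 y] (g ∘ fun y : ℝ => (ρ : ℂ) + y * I) := by
    have e1 : ContinuousAt (fun y : ℝ => (ρ : ℂ) + y * I) y := by fun_prop
    have e2 : ∀ᶠ y' in 𝓝 y, LL η (g ((ρ : ℂ) + (y' : ℝ) * I)) = (ρ : ℂ) + (y' : ℝ) * I := by
      rw [h2] at hgr
      exact e1.eventually hgr
    have e3 : ∀ᶠ y' in 𝓝 y, g ((ρ : ℂ) + (y' : ℝ) * I) ∈ Rp η := by
      rw [h2] at hgm
      exact e1.eventually hgm
    have e4 : ∀ᶠ y' in 𝓝 y, |y'| < Real.pi / 4 :=
      (isOpen_lt continuous_abs continuous_const).mem_nhds hy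
    filter_upwards [e2, e3, e4] with y' k2 k3 k4
    obtain ⟨k5, k6⟩ := hτ y' k4
    apply inj_Rp hη k5 k3
    show LL η (τ y') = LL η (g ((ρ : ℂ) + (y' : ℝ) * I))
    rw [k2, k6]
  refine (hcomp.congr_of_eventuallyEq hEv).congr_deriv ?_
  rw [smul_eq_mul, div_eq_mul_inv]

/-- the sign of `Im s` is that of `Im LL` -/
theorem im_pos_of_LL {s : ℂ} (hs : s ∈ Rp η) (h : 0 < (LL η s).im) : 0 < s.im := by
  have hpi := Real.pi_pos
  rw [mem_Rp] at hs
  by_contra hcon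
  push Not at hcon
  have h1 := im_L_nonneg hη (s := starRingEnd ℂ s) (by
    rw [Complex.conj_re, abs_lt]; constructor <;> linarith [hs.1.1, hs.1.2])
    (by rw [Complex.conj_im]; linarith)
    (by rw [Complex.conj_im]; linarith [(abs_lt.1 hs.2).1])
  rw [im_L_conj] at h1
  have : (LL η s).im = (S (cL η) s).im := rfl
  linarith

/-- **(F5b)**, upper half -/
theorem UU_strict_up {s : ℂ} (hs : s ∈ Rp η) (him : 0 < s.im) {σ : ℝ} (h0 : 0 < σ) (h1 : σ < η)
    (heq : (LL η s).re = (LL η (σ : ℂ)).re) :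
    (UU η (ks η) s).re < (UU η (ks η) (σ : ℂ)).re := by
  have hpi := Real.pi_pos
  have hs' := mem_Rp.1 hs
  have habs : |s.re| < η := abs_lt.2 ⟨by linarith [hs'.1.1], hs'.1.2⟩
  have hσ : ((σ : ℝ) : ℂ) ∈ Rp η := by
    rw [mem_Rp]
    refine ⟨⟨by simpa using h0, by simpa using h1⟩, ?_⟩
    simp only [Complex.ofReal_im, abs_zero]
    positivity
  obtain ⟨ρ, hρd⟩ : ∃ ρ : ℝ, ρ = (LL η s).re := ⟨_, rfl⟩
  obtain ⟨y0, hy0d⟩ : ∃ y0 : ℝ, y0 = (LL η s).im := ⟨_, rfl⟩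
  have hρ : 0 < ρ := by rw [hρd]; exact LL_re_pos hη hs'.1.1 hs'.1.2 hs'.2
  have hσi : (LL η (σ : ℂ)).im = 0 := S_real_real _ (by simp)
  have hLσ : LL η (σ : ℂ) = (ρ : ℂ) + ((0 : ℝ) : ℂ) * I := by
    apply Complex.ext
    · rw [← heq, ← hρd]; simp
    · rw [hσi]; simp
  have hLs : LL η s = (ρ : ℂ) + (y0 : ℂ) * I := by
    apply Complex.ext
    · rw [← hρd]; simp
    · rw [← hy0d]; simp
  have hy1 : |y0| < Real.pi / 4 := by rw [hy0d]; exact LL_im_lt hη habs hs'.2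
  have hy0 : 0 < y0 := by
    have h2 : 0 ≤ y0 := by
      rw [hy0d]
      exact im_L_nonneg hη habs him.le (by linarith [(abs_lt.1 hs'.2).2])
    rcases h2.lt_or_eq with h3 | h3
    · exact h3
    · exfalso
      rw [← h3] at hLs
      have h4 := inj_Rp hη hs hσ (by rw [hLs, hLσ])
      rw [h4] at him
      simp at him
  have hex : ∀ y : ℝ, ∃ w : ℂ, |y| < Real.pi / 4 → w ∈ Rp η ∧ LL η w = (ρ : ℂ) + y * I := by
    intro y
    by_cases hy : |y| < Real.pi / 4
    · obtain ⟨w, hw1, hw2⟩ := LL_surj hη (ζ := (ρ : ℂ) + y * I) (by simpa using hρ) (by simpa using hy)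
      exact ⟨w, fun _ => ⟨hw1, hw2⟩⟩
    · exact ⟨0, fun h => absurd h hy⟩
  choose τ hτ using hex
  have hy1' := abs_lt.1 hy1
  have hpi4 : |(0 : ℝ)| < Real.pi / 4 := by rw [abs_zero]; positivity
  have hτ0 : τ 0 = (σ : ℂ) := inj_Rp hη (hτ 0 hpi4).1 hσ (by rw [(hτ 0 hpi4).2, hLσ])
  have hτy : τ y0 = s := inj_Rp hη (hτ y0 hy1).1 hs (by rw [(hτ y0 hy1).2, hLs])
  have hmem : ∀ y ∈ Icc (0 : ℝ) y0, |y| < Real.pi / 4 := by
    intro y hy
    rw [abs_of_nonneg hy.1]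
    linarith [hy.2, hy1'.2]
  have hder : ∀ y ∈ Icc (0 : ℝ) y0, HasDerivAt (fun y => (UU η (ks η) (τ y)).re)
      (-((S (cT η) (τ y)).im / (AA η 0).re)) y := by
    intro y hy
    have k0 := hmem y hy
    obtain ⟨k1, k2⟩ := hτ y k0
    have k3 := mem_Rp.1 k1
    have k4 : |(τ y).re| < η := abs_lt.2 ⟨by linarith [k3.1.1], k3.1.2⟩
    have k5 := inv_line hη hρ hτ k0
    have k6 : HasDerivAt ((UU η (ks η)) ∘ τ)
        ((I / AA η (τ y)) • (S (cT η) (τ y) * AA η (τ y) / AA η 0)) y :=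
      HasDerivAt.scomp y (UU_deriv hη k4) k5
    have k7 := (Complex.reCLM.hasFDerivAt.comp_hasDerivAt y k6)
    have hA : AA η (τ y) ≠ 0 := by
      intro h
      have := AA_re_pos hη k4 k3.2
      rw [h] at this
      simp at this
    have hA0 := AA0_pos hη
    refine k7.congr_deriv ?_
    have e : (I / AA η (τ y)) • (S (cT η) (τ y) * AA η (τ y) / AA η 0) =
        (((AA η 0).re)⁻¹ : ℝ) * (I * S (cT η) (τ y)) := by
      have h5 := AA0_eq hη
      obtain ⟨a, ha⟩ : ∃ a : ℝ, a = (AA η 0).re := ⟨_, rfl⟩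
      rw [← ha] at h5 hA0 ⊢
      rw [smul_eq_mul, h5]
      have : (a : ℂ) ≠ 0 := by exact_mod_cast hA0.ne'
      push_cast
      field_simp
    rw [e]
    show ((((AA η 0).re)⁻¹ : ℝ) * (I * S (cT η) (τ y)) : ℂ).re = _
    rw [Complex.re_ofReal_mul, Complex.I_mul_re]
    field_simp
  have hanti : StrictAntiOn (fun y => (UU η (ks η) (τ y)).re) (Icc 0 y0) := by
    apply strictAntiOn_of_deriv_neg (convex_Icc _ _)
    · intro y hy
      exact (hder y hy).continuousAt.continuousWithinAt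
    · intro y hy
      rw [interior_Icc] at hy
      rw [(hder y ⟨hy.1.le, hy.2.le⟩).deriv]
      have k0 := hmem y ⟨hy.1.le, hy.2.le⟩
      obtain ⟨k1, k2⟩ := hτ y k0
      have k3 := mem_Rp.1 k1
      have k4 : 0 < (τ y).im := im_pos_of_LL hη k1 (by rw [k2]; simpa using hy.1)
      have k5 := TT_im_pos hη k3.1.1 k3.1.2.le k4 (abs_lt.1 k3.2).2
      have := AA0_pos hη
      have : 0 < (S (cT η) (τ y)).im / (AA η 0).re := by positivity
      linarith
  have h2 := hanti ⟨le_rfl, hy0.le⟩ ⟨hy0.le, le_rfl⟩ hy0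
  simp only [hτ0, hτy] at h2
  exact h2

/-- **(F5b)** -/
theorem UU_strict {s : ℂ} (hs : s ∈ Rp η) (him : s.im ≠ 0) {σ : ℝ} (h0 : 0 < σ) (h1 : σ < η)
    (heq : (LL η s).re = (LL η (σ : ℂ)).re) :
    (UU η (ks η) s).re < (UU η (ks η) (σ : ℂ)).re := by
  rcases lt_or_gt_of_ne him with h | h
  · have hs2 : starRingEnd ℂ s ∈ Rp η := by
      rw [mem_Rp] at hs ⊢
      rw [Complex.conj_re, Complex.conj_im, abs_neg]
      exact hs
    have h2 := UU_strict_up hη hs2 (by rw [Complex.conj_im]; linarith) h0 h1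
      (by rw [LL_conj, Complex.conj_re]; exact heq)
    rwa [UU_conj, Complex.conj_re] at h2
  · exact UU_strict_up hη hs h h0 h1 heq

/-- the real point with the given `Re LL` -/
theorem exists_real {ρ : ℝ} (hρ : 0 < ρ) : ∃ σ : ℝ, 0 < σ ∧ σ < η ∧ LL η (σ : ℂ) = (ρ : ℂ) := by
  have hpi := Real.pi_pos
  obtain ⟨s, hs, h2⟩ := LL_surj hη (ζ := (ρ : ℂ)) (by simpa using hρ)
    (by rw [Complex.ofReal_im, abs_zero]; positivity)
  have hs2 : starRingEnd ℂ s ∈ Rp η := by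
    rw [mem_Rp] at hs ⊢
    rw [Complex.conj_re, Complex.conj_im, abs_neg]
    exact hs
  have h3 : starRingEnd ℂ s = s := by
    apply inj_Rp hη hs2 hs
    rw [LL_conj, h2, Complex.conj_ofReal]
  have h4 : s = (s.re : ℂ) := (Complex.conj_eq_iff_re.1 h3).symm
  have hs' := mem_Rp.1 hs
  exact ⟨s.re, hs'.1.1, hs'.1.2, by rw [← h4]; exact h2⟩

end

end Pool.Agent.Lib.MP_0430e4_lc.AC.YF
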