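import Pool.Agent.Lib.MP_0430e4_lc.AC.YT10
import Pool.Agent.Lib.MP_0430e4_lc.AC.IqB

/-!
Project ALLCODES, part Y2 (helper72): the gap lemma of branch II.

* `sI_lt_sII : sI t < sII t`, `cval_lt_half : cval t < log 2 / 2`;
* `gap_strip` (the maximum principle applied to the polynomial `1 + w ^ 2`): in the whole strip
  `log |1 + w ^ 2| / 2 ≤ Re GG + (log 2 / 2 - c) (1 - Re s / η)`;
* `gap_real`, `gapII`: `log (1 + x ^ 2) / 2 + (log 2 / 2 - c) s / η ≤ U x`.
-/

set_option autoImplicit false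

open Finset Filter Topology

namespace Pool.Agent.Lib.MP_0430e4_lc.AC

open LPLOW Lower BY

/-! ### `cval t < log 2 / 2` -/

theorem cO_zero_SZ (η : ℝ) : (S (cO η) 0).re = Iq.SZ (2 * η) := by
  rw [Pos.cO_reindex, mul_zero, S_zero, Complex.ofReal_re]
  rfl

theorem xr_zero_SZ (η : ℝ) : Pos.xr η 0 = Iq.SZ η := by
  unfold Pos.xr Pos.XX
  rw [Complex.ofReal_zero, mul_zero, zero_mul, S_zero, Complex.ofReal_re]
  rfl

theorem cS_zero_lt {η : ℝ} (hη : 0 < η) : (S (cS η) 0).re < Iq.SZ η ^ 2 := by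
  have h1 : (S (cS η) 0).re = ∑' M : ℤ, Exact.sech (M * η) ^ 2 := by
    rw [Pos.cS_reindex, mul_zero, S_zero, Complex.ofReal_re]
    rfl
  have h2 := Iq.SZ_ge hη
  have h3 := Exact.sech_pos η
  have h4 : ∑' M : ℤ, Exact.sech (M * η) ^ 2 ≤ Iq.SZ η := by
    unfold Iq.SZ
    have hs : Summable fun M : ℤ => Exact.sech (M * η) ^ 2 := by
      refine Summable.of_nonneg_of_le (fun j => sq_nonneg _) (fun j => ?_) (Iq.summable_z hη)
      have h5 := Exact.sech_pos (j * η)
      have h6 := Exact.sech_le_one (j * η)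
      nlinarith
    apply Summable.tsum_le_tsum _ hs (Iq.summable_z hη)
    intro M
    have h5 := Exact.sech_pos (M * η)
    have h6 := Exact.sech_le_one (M * η)
    nlinarith
  rw [h1]
  nlinarith

theorem sI_lt_sII {t : ℝ} (ht : 0 < t) : Exact.sI t < Exact.sII t := by
  set η : ℝ := t / 2 with hηd
  have hη : 0 < η := by rw [hηd]; linarith
  have re0 : ∀ c : ℤ → ℝ, S c 0 = (((S c 0).re : ℝ) : ℂ) := by
    intro c
    have := S_ofReal c 0
    simpa using this
  -- the four numbers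
  have hA0 : 0 < (S (cA η) 0).re := A_zero_pos hη
  have hO0 : 0 < (S (cO η) 0).re := by
    have := OO_re_pos hη 0
    simpa using this
  have hK : 0 < Pos.K1 η := Pos.K1_pos hη
  -- identities
  have i1 := ident_I hη (s := 0) (by simpa using hη)
  rw [Pos.SS_pi, re0 (cT η), re0 (cA η), re0 (cS η)] at i1
  have j1 : (S (cT η) 0).re * (S (cA η) 0).re =
      (S (cA η) 0).re / 4 * ((S (cS η) 0).re - Pos.K1 η) := by exact_mod_cast i1
  have j1' : (S (cT η) 0).re = ((S (cS η) 0).re - Pos.K1 η) / 4 := by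
    apply mul_right_cancel₀ hA0.ne'
    linarith
  have i2 := SS_add hη
  rw [Pos.SS_pi, re0 (cE η), re0 (cS η)] at i2
  have j2 : (S (cS η) 0).re + Pos.K1 η = 2 * (S (cE η) 0).re := by exact_mod_cast i2
  have i3 := OO_sq_sub hη 0
  rw [Complex.ofReal_zero, mul_zero, Pos.SS_pi, re0 (cO η), re0 (cA η)] at i3
  have j3 : (S (cO η) 0).re ^ 2 - 4 * (S (cA η) 0).re ^ 2 = Pos.K1 η := by exact_mod_cast i3
  have i4 := Pos.OA_add hη 0
  rw [Complex.ofReal_zero, mul_zero, zero_div, re0 (cO η), re0 (cA η)] at i4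
  have j4 : (S (cO η) 0).re + 2 * (S (cA η) 0).re = Pos.xr η 0 := by exact_mod_cast i4
  have h5 := cS_zero_lt hη
  rw [← xr_zero_SZ, ← j4] at h5
  rw [← sI_eq ht, ← sII_eq t, j1']
  have j2' : (S (cE η) 0).re = ((S (cS η) 0).re + Pos.K1 η) / 2 := by linarith
  rw [j2']
  set o := (S (cO η) 0).re with ho
  set a := (S (cA η) 0).re with ha
  set s := (S (cS η) 0).re with hs
  set K := Pos.K1 η with hKd
  have h6 : 0 < o - 2 * a := by
    by_contra hcon
    push Not at hcon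
    nlinarith
  rw [div_lt_div_iff₀ hA0 hO0]
  have h7 : (o - 2 * a) * s < (o - 2 * a) * (o + 2 * a) ^ 2 := mul_lt_mul_of_pos_left h5 h6
  have h8 : (o - 2 * a) * (o + 2 * a) ^ 2 = K * (o + 2 * a) := by rw [← j3]; ring
  rw [h8] at h7
  nlinarith

theorem cval_nonneg' {t : ℝ} (ht : 0 < t) : Exact.cval t ≤ (1 + t) * Real.exp (-t) :=
  (Iq.cval_lt_hm ht).le.trans (Exact.hm_le ht.le)

theorem cval_lt_half {t : ℝ} (ht : 0 < t) : Exact.cval t < Real.log 2 / 2 := by
  have hl2 : 0 < Real.log 2 := Real.log_pos (by norm_num)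
  by_contra hcon
  push Not at hcon
  have hs := sI_lt_sII ht
  have hsI := Exact.sI_pos ht
  have hsII1 := Exact.sII_lt_one ht
  have e1 := (Exact.fin_I Exact.inputs ht).1
  have e2 := (Exact.fin_II Exact.inputs ht).1
  set C : ℝ := Exact.cval t / Real.log 2 with hC
  have hC1 : 1 / 2 ≤ C := by
    rw [hC, le_div_iff₀ hl2]; linarith
  -- a far point
  have t1 : ∀ᶠ u in atTop, Exact.sI u < Exact.sI t := Exact.tendsto_sI_top.eventually_lt_const hsI
  have t2 : ∀ᶠ u : ℝ in atTop, (1 + u) * Real.exp (-u) < Real.log 2 / 4 := by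
    have h1 : Tendsto (fun u : ℝ => (1 + u) * Real.exp (-u)) atTop (𝓝 0) := by
      have h2 := Real.tendsto_pow_mul_exp_neg_atTop_nhds_zero 1
      have h3 := Real.tendsto_exp_neg_atTop_nhds_zero
      have h4 := h3.add h2
      rw [add_zero] at h4
      refine h4.congr fun u => ?_
      rw [pow_one]; ring
    exact h1.eventually_lt_const (by positivity)
  obtain ⟨u, ⟨hu1, hu2⟩, hu0⟩ := ((t1.and t2).and (eventually_gt_atTop 0)).exists
  have e3 := (Exact.fin_I Exact.inputs hu0).1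
  have hcu : Exact.cval u / Real.log 2 < 1 / 4 := by
    rw [div_lt_iff₀ hl2]
    have := cval_nonneg' hu0
    linarith
  have hsu := Exact.sI_pos hu0
  -- convexity
  set x1 : ℝ := (1 - Exact.sII t) / 2 with hx1
  set x2 : ℝ := (1 - Exact.sI t) / 2 with hx2
  set x3 : ℝ := (1 - Exact.sI u) / 2 with hx3
  have h12 : x1 < x2 := by rw [hx1, hx2]; linarith
  have h23 : x2 < x3 := by rw [hx2, hx3]; linarith
  have h10 : 0 ≤ x1 := by rw [hx1]; linarith
  have hcv := Tensor.ell_convexOn.slope_mono_adjacent (x := x1) (y := x2) (z := x3)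
    (Set.mem_Ici.2 h10) (Set.mem_Ici.2 (by linarith)) h12 h23
  rw [e1, e2, e3] at hcv
  have h3 : 0 ≤ (C - (1 - C)) / (x2 - x1) := by
    apply div_nonneg <;> linarith
  have h4 : (Exact.cval u / Real.log 2 - C) / (x3 - x2) < 0 := by
    apply div_neg_of_neg_of_pos <;> linarith
  linarith

/-! ### the maximum principle for `1 + w ^ 2` -/

section
variable {η : ℝ} (hη : 0 < η)
include hη

/-- the gap in the whole strip -/
theorem gap_strip (c : ℝ) {s : ℂ} (h0 : 0 ≤ s.re) (h1 : s.re ≤ η) :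
    ‖1 + zz (nm η) ((η : ℂ) - s) ^ 2‖ ≤ Real.exp (2 * ((GG (nm η) c ((η : ℂ) - s)).re +
      (Real.log 2 / 2 - c) * (1 - s.re / η))) := by
  have hen := eta_nm hη
  have h2 := three_lines (nm_pos hη) (nm_lt hη) (Real.log 2 / 2)
    (F := fun z : ℂ => 1 + z ^ 2) (by fun_prop) (N := 1) 2
    (fun z hz => by
      rw [one_mul]
      have e : Real.exp ((2 : ℕ) * (Real.log 2 / 2)) = 2 := by
        rw [show ((2 : ℕ) : ℝ) * (Real.log 2 / 2) = Real.log 2 by push_cast; ring,
          Real.exp_log (by norm_num)]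
      rw [e]
      refine (norm_add_le _ _).trans ?_
      rw [norm_one, norm_pow, hz]
      norm_num)
    (fun y => by
      rw [one_mul, Real.sq_sqrt (by positivity)]
      have e : (1 : ℂ) + ((y : ℂ) * Complex.I) ^ 2 = ((1 - y ^ 2 : ℝ) : ℂ) := by
        rw [mul_pow, Complex.I_sq]; push_cast; ring
      rw [e, Complex.norm_real, Real.norm_eq_abs, abs_le]
      constructor <;> nlinarith [sq_nonneg y])
    (s := (η : ℂ) - s) (by rw [Complex.sub_re, Complex.ofReal_re]; linarith)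
    (by rw [Complex.sub_re, Complex.ofReal_re, hen]; linarith)
  refine h2.trans (le_of_eq ?_)
  rw [one_mul]
  congr 1
  rw [GG_re, GG_re, hen, Complex.sub_re, Complex.ofReal_re]
  push_cast
  field_simp
  ring

/-- the gap on the real axis -/
theorem gap_real (c : ℝ) {s : ℝ} (h0 : 0 ≤ s) (h1 : s < η) :
    Real.log (1 + Zs η s ^ 2) / 2 + (Real.log 2 / 2 - c) * (s / η) ≤ Us η c s := by
  have h2 := gap_strip hη c (s := (s : ℂ)) (by simpa using h0) (by simpa using h1.le)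
  rw [zz_wr hη h0 h1, Complex.ofReal_re] at h2
  set w := wr η s with hw
  have hw0 : 0 < w := wr_pos s
  have e1 : ‖(1 : ℂ) + ((w : ℝ) : ℂ) ^ 2‖ = 1 + w ^ 2 := by
    have : (1 : ℂ) + ((w : ℝ) : ℂ) ^ 2 = ((1 + w ^ 2 : ℝ) : ℂ) := by push_cast; rfl
    rw [this, Complex.norm_real, Real.norm_of_nonneg (by positivity)]
  rw [e1] at h2
  have h3 := Real.log_le_log (by positivity) h2
  rw [Real.log_exp] at h3
  have h4 := GG_Vs hη c h0 h1
  have h5 : Zs η s = (1 - w) / (1 + w) := by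
    rw [eq_div_iff (by positivity)]; exact wr_mul s
  have h6 : 1 + Zs η s ^ 2 = 2 * (1 + w ^ 2) / (1 + w) ^ 2 := by
    rw [h5]
    field_simp
    ring
  have h7 : Real.log (1 + Zs η s ^ 2) = Real.log 2 + Real.log (1 + w ^ 2) -
      2 * Real.log (1 + w) := by
    rw [h6, Real.log_div (by positivity) (by positivity), Real.log_mul (by norm_num) (by positivity),
      Real.log_pow]
    push_cast
    ring
  unfold Us
  rw [← h4, ← hw, h7]
  linarith

end

/-- **the gap lemma of branch II** -/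
theorem gapII {t : ℝ} (ht : 0 < t) {x : ℝ} (h0 : 0 < x) (h1 : x < 1) :
    Real.log (1 + x ^ 2) / 2 < UII t x := by
  have hη : 0 < t / 2 := by linarith
  obtain ⟨s, hs0, hs1, hs2⟩ := (upII hη).exists_s h0 h1
  obtain ⟨g0, g1, g2⟩ := sx_spec ⟨s, hs0, hs1, hs2⟩
  have h2 := gap_real hη (Exact.cval t) g0.le g1
  rw [g2] at h2
  have h3 : 0 < (Real.log 2 / 2 - Exact.cval t) * (sx (t / 2) (Zs (t / 2)) x / (t / 2)) := by
    have := cval_lt_half ht
    apply mul_pos (by linarith)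
    positivity
  unfold UII
  linarith

/-- the gap lemma of branch II, uniform version -/
theorem gapII_unif {t : ℝ} (ht : 0 < t) {x0 : ℝ} (h0 : 0 < x0) (h1 : x0 < 1) :
    ∃ g : ℝ, 0 < g ∧ ∀ x : ℝ, x0 ≤ x → x < 1 → Real.log (1 + x ^ 2) / 2 + g ≤ UII t x := by
  have hη : 0 < t / 2 := by linarith
  have hsx : ∀ x : ℝ, 0 < x → x < 1 → 0 < sx (t / 2) (Zs (t / 2)) x ∧
      sx (t / 2) (Zs (t / 2)) x < t / 2 ∧ Zs (t / 2) (sx (t / 2) (Zs (t / 2)) x) = x :=
    fun x hx0 hx1 => sx_spec ((upII hη).exists_s hx0 hx1)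
  obtain ⟨g0, g1, g2⟩ := hsx x0 h0 h1
  have hc := cval_lt_half ht
  refine ⟨(Real.log 2 / 2 - Exact.cval t) * (sx (t / 2) (Zs (t / 2)) x0 / (t / 2)),
    mul_pos (by linarith) (by positivity), fun x hx hx1 => ?_⟩
  obtain ⟨k0, k1, k2⟩ := hsx x (by linarith) hx1
  have h2 := gap_real hη (Exact.cval t) k0.le k1
  rw [k2] at h2
  have h3 : sx (t / 2) (Zs (t / 2)) x0 ≤ sx (t / 2) (Zs (t / 2)) x := by
    by_contra hcon
    push Not at hcon
    have := Zs_strictMono hη (Set.mem_Ico.2 ⟨k0.le, k1⟩) (Set.mem_Ico.2 ⟨g0.le, g1⟩) hcon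
    rw [k2, g2] at this
    linarith
  have h4 : (Real.log 2 / 2 - Exact.cval t) * (sx (t / 2) (Zs (t / 2)) x0 / (t / 2)) ≤
      (Real.log 2 / 2 - Exact.cval t) * (sx (t / 2) (Zs (t / 2)) x / (t / 2)) := by
    apply mul_le_mul_of_nonneg_left _ (by linarith)
    exact div_le_div_of_nonneg_right h3 hη.le
  unfold UII
  linarith

end Pool.Agent.Lib.MP_0430e4_lc.AC
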