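import Pool.Agent.Lib.MP_0430e4_lc.AC.YF3
import Pool.Agent.Lib.MP_0430e4_lc.AC.YGap

/-!
Project ALLCODES, part Y2, (F5b), (F5c), (F5d), helper80: branch II, the majorant at a point
`z = (1 - w)/(1 + w)`, `w = Z η s`, of the closed right half disc compared with `U (|z|)`.

* `zs η s` the point, `Ur η c s` the majorant of `log |Q z| / n` for certificates of mass
  `exp n (log 2 - c)`;
* `Ur_lt` : `Ur s < UII t ‖z‖` if `0 < ‖z‖ < 1` and `z` is not real (closed rectangle);
* `Ur_le` : `Ur s ≤ UII t ‖z‖` if `0 < ‖z‖ < 1`;  `Ur_one` : `Ur s ≤ log 2 - c` if `‖z‖ = 1`;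
* `Ur_unif` : uniform gap on `x2 ≤ ‖z‖ ≤ x3`, `th ≤ |arg z|`.
-/

set_option autoImplicit false

open Filter Topology Set Complex

namespace Pool.Agent.Lib.MP_0430e4_lc.AC.YF

open LPLOW LPLOW.Pos YG

/-- the point of the `z`-disc -/
noncomputable def zs (η : ℝ) (s : ℂ) : ℂ := (1 - Z η s) / (1 + Z η s)

/-- the majorant on the `z`-side -/
noncomputable def Ur (η c : ℝ) (s : ℂ) : ℝ :=
  (Lower.GG (nm η) c s).re + (Real.log 2 - c) - Real.log ‖1 + Z η s‖

theorem zs_conj (η : ℝ) (s : ℂ) : zs η (starRingEnd ℂ s) = starRingEnd ℂ (zs η s) := by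
  unfold zs
  rw [Z_conj, map_div₀, map_sub, map_add, map_one]

/-- `cval t` is the critical value -/
theorem cval_eq_cs {t : ℝ} (ht : 0 < t) : Exact.cval t = cs (t / 2) := by
  have hη : 0 < t / 2 := by linarith
  have h1 := cval_eq_f0 ht
  rw [Lower.r_eq hη] at h1
  unfold cs ks
  rw [h1]

section
variable {η : ℝ} (hη : 0 < η)
include hη

theorem zs_eq {s : ℂ} (h : |s.re| < η) : zs η s = Complex.exp (-2 * LL η s) := by
  unfold zs
  rw [div_eq_iff (one_add_Z_ne hη h)]
  exact one_sub_Z hη h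

theorem zs_norm {s : ℂ} (h : |s.re| < η) : ‖zs η s‖ = Real.exp (-2 * (LL η s).re) := by
  rw [zs_eq hη h, Complex.norm_exp]
  simp

/-- `Re Z ≥ 0` on the closed rectangle -/
theorem Z_re_nonneg' {s : ℂ} (hs : s ∈ Rc η) : 0 ≤ (Z η s).re := by
  have hpi := Real.pi_pos
  have hcl : s ∈ closure (Rp η) := by
    unfold Rp
    rw [Complex.closure_reProdIm, closure_Ioo hη.ne, closure_Ioo (by linarith)]
    exact hs
  have h1 : ContinuousWithinAt (fun s => (Z η s).re) (Rp η) s := by
    apply ContinuousAt.continuousWithinAt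
    rw [mem_Rc] at hs
    exact Complex.continuous_re.continuousAt.comp
      (Z_cont hη (by rw [abs_of_nonneg hs.1.1]; exact hs.1.2))
  have h2 := h1.mem_closure_image hcl
  have h3 : (fun s => (Z η s).re) '' Rp η ⊆ Ici 0 := by
    rintro _ ⟨w, hw, rfl⟩
    rw [mem_Rp] at hw
    exact (Z_re_pos hη hw.1.1 hw.1.2 hw.2).le
  exact closure_minimal h3 isClosed_Ici h2

theorem one_add_Z_ne' {s : ℂ} (hs : s ∈ Rc η) : 1 + Z η s ≠ 0 := by
  intro h
  have := Z_re_nonneg' hη hs
  have h2 := congrArg Complex.re h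
  simp at h2
  linarith

theorem Z_norm_le {s : ℂ} (hs : s ∈ Rc η) : ‖Z η s‖ ≤ 1 := by
  rw [mem_Rc] at hs
  rcases hs.1.2.lt_or_eq with h | h
  · exact (Z_norm_lt_one hη hs.1.1 h).le
  · exact (Z_norm hη h).le

/-- the potential in strip form -/
theorem Ur_eq {s : ℂ} (h0 : 0 ≤ s.re) (h1 : s.re < η) :
    Ur η (cs η) s = Real.log 2 - cs η + (UU η (ks η) s).re - (LL η s).re := by
  have habs : |s.re| < η := abs_lt.2 ⟨by linarith, h1⟩
  have h2 := exp_GG_UU hη h0 h1
  have h3 := one_sub_Z hη habs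
  have hne := one_add_Z_ne hη habs
  have h4 : 1 - Z η s ^ 2 = Complex.exp (-2 * LL η s) * (1 + Z η s) ^ 2 := by
    have : 1 - Z η s ^ 2 = (1 - Z η s) * (1 + Z η s) := by ring
    rw [this, h3]
    ring
  rw [h4] at h2
  have h5 := congrArg norm h2
  rw [norm_mul, norm_pow, Complex.norm_exp, Complex.norm_exp] at h5
  have e1 : (2 * (Lower.GG (Real.exp (-η) ^ 2) (cs η) s - UU η (ks η) s)).re =
      2 * ((Lower.GG (Real.exp (-η) ^ 2) (cs η) s).re - (UU η (ks η) s).re) := by simp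
  have e2 : (-2 * LL η s).re = -2 * (LL η s).re := by simp
  rw [e1, e2] at h5
  have hn : 0 < ‖1 + Z η s‖ := norm_pos_iff.2 hne
  have h6 := congrArg Real.log h5
  rw [Real.log_exp, Real.log_mul (Real.exp_ne_zero _) (by positivity), Real.log_exp,
    Real.log_pow] at h6
  push_cast at h6
  unfold Ur nm
  linarith

/-- the real axis -/
theorem zs_real {s : ℝ} (h0 : 0 < s) (h1 : s < η) : zs η ((s : ℝ) : ℂ) = ((Zs η (η - s) : ℝ) : ℂ) := by
  have h2 := zz_wr hη (s := η - s) (by linarith) (by linarith)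
  have e : (η : ℂ) - ((η - s : ℝ) : ℂ) = (s : ℂ) := by push_cast; ring
  rw [e] at h2
  have h3 : Z η (s : ℂ) = (wr η (η - s) : ℂ) := h2
  have h4 := wr_pos (η := η) (η - s)
  have h5 : Zs η (η - s) = (1 - wr η (η - s)) / (1 + wr η (η - s)) := by
    rw [eq_div_iff (by positivity)]; exact wr_mul _
  unfold zs
  rw [h3, h5]
  push_cast
  rfl

theorem Ur_real (c : ℝ) {s : ℝ} (h0 : 0 < s) (h1 : s < η) :
    Ur η c ((s : ℝ) : ℂ) = Us η c (η - s) := by
  have h2 := zz_wr hη (s := η - s) (by linarith) (by linarith)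
  have e : (η : ℂ) - ((η - s : ℝ) : ℂ) = (s : ℂ) := by push_cast; ring
  have h6 := GG_Vs hη c (s := η - s) (by linarith) (by linarith)
  rw [e] at h2 h6
  have h3 : Z η (s : ℂ) = (wr η (η - s) : ℂ) := h2
  have h4 := wr_pos (η := η) (η - s)
  unfold Ur Us
  rw [h6, h3]
  have e2 : (1 : ℂ) + (wr η (η - s) : ℂ) = ((1 + wr η (η - s) : ℝ) : ℂ) := by push_cast; rfl
  rw [e2, Complex.norm_real, Real.norm_of_nonneg (by positivity)]

/-- points of modulus less than one: either in the open rectangle or on the outer side -/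
theorem cases_lt {s : ℂ} (hs : s ∈ Rc η) (h : ‖zs η s‖ < 1) :
    s ∈ Rp η ∨ (s.re = η ∧ |s.im| < Real.pi / 2) := by
  have hne := one_add_Z_ne' hη hs
  have hre : 0 < (Z η s).re := by
    unfold zs at h
    rw [norm_div, div_lt_one (norm_pos_iff.2 hne)] at h
    rw [Complex.norm_eq_sqrt_sq_add_sq, Complex.norm_eq_sqrt_sq_add_sq] at h
    have h2 := (Real.sqrt_lt_sqrt_iff (by positivity)).1 h
    simp at h2
    nlinarith
  have hs' := mem_Rc.1 hs
  have him : |s.im| < Real.pi / 2 := by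
    rcases hs'.2.lt_or_eq with h1 | h1
    · exact h1
    · exfalso
      rcases abs_choice s.im with h2 | h2
      · rw [h2] at h1
        rw [Z_re_line h1] at hre
        exact lt_irrefl _ hre
      · rw [h2] at h1
        rw [Z_re_line' (by linarith)] at hre
        exact lt_irrefl _ hre
  have hre0 : 0 < s.re := by
    rcases hs'.1.1.lt_or_eq with h1 | h1
    · exact h1
    · exfalso
      rw [Z_re_zero h1.symm] at hre
      exact lt_irrefl _ hre
  rcases hs'.1.2.lt_or_eq with h1 | h1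
  · left
    rw [mem_Rp]
    exact ⟨⟨hre0, h1⟩, him⟩
  · right
    exact ⟨h1, him⟩

/-- on the outer side the majorant is `log (1 + |z|²) / 2` -/
theorem Ur_outer (c : ℝ) {s : ℂ} (h1 : s.re = η) (h2 : |s.im| ≤ Real.pi / 2) :
    Ur η c s = Real.log (1 + ‖zs η s‖ ^ 2) / 2 := by
  have hs : s ∈ Rc η := by rw [mem_Rc]; exact ⟨⟨by linarith, h1.le⟩, h2⟩
  have hne := one_add_Z_ne' hη hs
  have hn : 0 < ‖1 + Z η s‖ := norm_pos_iff.2 hne
  have h3 := Z_norm hη h1
  have h4 : (Lower.GG (nm η) c s).re = c :=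
    Lower.GG_re_outer (nm_pos hη) (nm_lt hη) c (by rw [eta_nm hη]; exact h1)
  have h5 : ‖1 - Z η s‖ ^ 2 + ‖1 + Z η s‖ ^ 2 = 4 := by
    have e : ∀ w : ℂ, ‖w‖ ^ 2 = w.re ^ 2 + w.im ^ 2 := by
      intro w
      rw [← Complex.normSq_eq_norm_sq, Complex.normSq_apply]
      ring
    have h6 := e (Z η s)
    rw [h3] at h6
    rw [e, e]
    simp
    nlinarith
  have h6 : 1 + ‖zs η s‖ ^ 2 = 4 / ‖1 + Z η s‖ ^ 2 := by
    unfold zs
    rw [norm_div, div_pow, ← h5]
    field_simp
    ring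
  have h7 : Real.log 4 = 2 * Real.log 2 := by
    rw [show (4 : ℝ) = 2 ^ 2 by norm_num, Real.log_pow]
    push_cast
    ring
  unfold Ur
  rw [h6, Real.log_div (by norm_num) (by positivity), Real.log_pow, h4, h7]
  push_cast
  ring

/-- the majorant is continuous on the closed rectangle -/
theorem Ur_contOn (c : ℝ) : ContinuousOn (Ur η c) (Rc η) := by
  intro s hs
  have hne := one_add_Z_ne' hη hs
  have hs' := mem_Rc.1 hs
  have h1 : ContinuousAt (Lower.GG (nm η) c) s :=
    (Lower.GG_diff (nm_pos hη) (nm_lt hη) c hs'.1.1 (by rw [eta_nm hη]; exact hs'.1.2)).continuousAt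
  have h2 : ContinuousAt (Z η) s := Z_cont hη (by rw [abs_of_nonneg hs'.1.1]; exact hs'.1.2)
  apply ContinuousAt.continuousWithinAt
  unfold Ur
  apply ContinuousAt.sub
  · exact (Complex.continuous_re.continuousAt.comp h1).add continuousAt_const
  · exact ((continuousAt_const.add h2).norm).log (norm_ne_zero_iff.2 hne)

theorem zs_contOn : ContinuousOn (zs η) (Rc η) := by
  intro s hs
  have hne := one_add_Z_ne' hη hs
  have hs' := mem_Rc.1 hs
  have h2 : ContinuousAt (Z η) s := Z_cont hη (by rw [abs_of_nonneg hs'.1.1]; exact hs'.1.2)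
  apply ContinuousAt.continuousWithinAt
  unfold zs
  exact (continuousAt_const.sub h2).div (continuousAt_const.add h2) hne

/-- every point of the closed right half disc is of the form `zs η s` -/
theorem exists_zs {z : ℂ} (h1 : ‖z‖ ≤ 1) (h2 : 0 ≤ z.re) : ∃ s ∈ Rc η, zs η s = z := by
  have hne : 1 + z ≠ 0 := by
    intro h
    have := congrArg Complex.re h
    simp at this
    linarith
  have hns : 0 < Complex.normSq (1 + z) := Complex.normSq_pos.2 hne
  have hn2 : z.re ^ 2 + z.im ^ 2 ≤ 1 := by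
    have h3 : ‖z‖ ^ 2 ≤ 1 := by
      have := norm_nonneg z
      nlinarith
    rwa [← Complex.normSq_eq_norm_sq, Complex.normSq_apply, ← sq, ← sq] at h3
  obtain ⟨s, hs, hsz⟩ := surj_right hη (z := (1 - z) / (1 + z))
    (by
      rw [norm_div, div_le_one (norm_pos_iff.2 hne)]
      rw [Complex.norm_eq_sqrt_sq_add_sq, Complex.norm_eq_sqrt_sq_add_sq]
      apply Real.sqrt_le_sqrt
      simp
      nlinarith)
    (by
      rw [Complex.div_re, ← add_div]
      apply div_nonneg _ hns.le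
      simp
      nlinarith)
  refine ⟨s, hs, ?_⟩
  unfold zs
  rw [hsz]
  have h5 : (1 : ℂ) + (1 - z) / (1 + z) ≠ 0 := by
    have : (1 : ℂ) + (1 - z) / (1 + z) = 2 / (1 + z) := by field_simp; ring
    rw [this]
    exact div_ne_zero two_ne_zero hne
  rw [div_eq_iff h5]
  field_simp
  ring

/-- on the unit circle the majorant is at most its value on the slit (inner part) -/
theorem Ur_one_lt {s : ℂ} (hs : s ∈ Rc η) (h : ‖zs η s‖ = 1) (h1 : s.re < η) :
    Ur η (cs η) s ≤ Real.log 2 - cs η := by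
  have hs' := mem_Rc.1 hs
  have habs : |s.re| < η := abs_lt.2 ⟨by linarith [hs'.1.1], h1⟩
  have hL : (LL η s).re = 0 := by
    rw [zs_norm hη habs, Real.exp_eq_one_iff] at h
    linarith
  rw [Ur_eq hη hs'.1.1 h1, hL]
  -- `s` is on the left side or on the top or bottom side
  have hcase : s.re = 0 ∨ |s.im| = Real.pi / 2 := by
    by_contra hcon
    push Not at hcon
    have h2 : 0 < s.re := lt_of_le_of_ne hs'.1.1 (Ne.symm hcon.1)
    have h3 : |s.im| < Real.pi / 2 := lt_of_le_of_ne hs'.2 hcon.2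
    have := LL_re_pos hη h2 h1 h3
    linarith
  have hUU : (UU η (ks η) s).re ≤ 0 := by
    rcases hcase with h2 | h2
    · exact (UU_re_imag (ks η) s h2).le
    · have key : ∀ x : ℝ, 0 ≤ x → x < η → (UU η (ks η) (x + I * (Real.pi / 2))).re ≤ 0 := by
        intro x hx0 hx1
        have h3 := psi_b (κ := ks η) hη (fun y hy0 hy1 => SS_re_le hη (by
          rw [abs_of_nonneg hy0]; exact hy1)) x hx0 hx1
        rw [SS_pi, Complex.ofReal_re] at h3
        have : ks η - (1 - K1 η) / 4 = 0 := by unfold ks; ring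
        rw [this, zero_mul] at h3
        exact h3
      have h3 := key s.re hs'.1.1 h1
      rcases abs_choice s.im with h4 | h4
      · rw [h4] at h2
        have e : s = (s.re : ℂ) + I * (Real.pi / 2) := by
          apply Complex.ext
          · simp
          · simp [h2]
        rw [← e] at h3
        exact h3
      · rw [h4] at h2
        have e : starRingEnd ℂ s = (s.re : ℂ) + I * (Real.pi / 2) := by
          apply Complex.ext
          · simp
          · simp; linarith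
        rw [← e, UU_conj, Complex.conj_re] at h3
        exact h3
  linarith

end

/-! ### branch II -/

section
variable {t : ℝ} (ht : 0 < t)
include ht

/-- **(F5b)** off the real axis the majorant is strictly smaller than on the real axis -/
theorem Ur_lt {s : ℂ} (hs : s ∈ Rc (t / 2)) (h0 : zs (t / 2) s ≠ 0) (h1 : ‖zs (t / 2) s‖ < 1)
    (him : (zs (t / 2) s).im ≠ 0) :
    Ur (t / 2) (Exact.cval t) s < UII t ‖zs (t / 2) s‖ := by
  have hη : 0 < t / 2 := by linarith
  rcases cases_lt hη hs h1 with h2 | h2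
  · have h2' := mem_Rp.1 h2
    have habs : |s.re| < t / 2 := abs_lt.2 ⟨by linarith [h2'.1.1], h2'.1.2⟩
    have hL := LL_re_pos hη h2'.1.1 h2'.1.2 h2'.2
    obtain ⟨σ, g0, g1, g2⟩ := exists_real hη hL
    have hLe : (LL (t / 2) s).re = (LL (t / 2) (σ : ℂ)).re := by rw [g2, Complex.ofReal_re]
    have hsim : s.im ≠ 0 := by
      intro h
      apply him
      have h3 : starRingEnd ℂ s = s := Complex.conj_eq_iff_im.2 h
      have h4 := zs_conj (t / 2) s
      rw [h3] at h4
      exact Complex.conj_eq_iff_im.1 h4.symm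
    have h3 := UU_strict hη h2 hsim g0 g1 hLe
    have hσa : |((σ : ℝ) : ℂ).re| < t / 2 := by
      rw [Complex.ofReal_re, abs_of_pos g0]; exact g1
    have h4 := Ur_eq hη h2'.1.1.le h2'.1.2
    have h5 := Ur_eq hη (s := (σ : ℂ)) (by simpa using g0.le) (by simpa using g1)
    have h6 : ‖zs (t / 2) s‖ = Zs (t / 2) (t / 2 - σ) := by
      have e1 : ‖zs (t / 2) s‖ = ‖zs (t / 2) (σ : ℂ)‖ := by
        rw [zs_norm hη habs, zs_norm hη hσa, hLe]
      rw [e1, zs_real hη g0 g1, Complex.norm_real,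
        Real.norm_of_nonneg (Zs_nonneg hη (by linarith) (by linarith))]
    have h7 : UII t ‖zs (t / 2) s‖ = Us (t / 2) (Exact.cval t) (t / 2 - σ) := by
      unfold UII
      rw [h6, (upII hη).inv_eq (by linarith) (by linarith)]
    rw [h7, ← Ur_real hη _ g0 g1, cval_eq_cs ht, h4, h5, hLe]
    linarith
  · rw [Ur_outer hη _ h2.1 h2.2.le]
    exact gapII ht (norm_pos_iff.2 h0) h1

/-- the weak inequality, the real axis included -/
theorem Ur_le {s : ℂ} (hs : s ∈ Rc (t / 2)) (h0 : zs (t / 2) s ≠ 0) (h1 : ‖zs (t / 2) s‖ < 1) :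
    Ur (t / 2) (Exact.cval t) s ≤ UII t ‖zs (t / 2) s‖ := by
  have hη : 0 < t / 2 := by linarith
  by_cases him : (zs (t / 2) s).im = 0
  · rcases cases_lt hη hs h1 with h2 | h2
    · have h2' := mem_Rp.1 h2
      have habs : |s.re| < t / 2 := abs_lt.2 ⟨by linarith [h2'.1.1], h2'.1.2⟩
      have habs' : |(starRingEnd ℂ s).re| < t / 2 := by rw [Complex.conj_re]; exact habs
      -- `s` is real by injectivity
      have hZ : Z (t / 2) (starRingEnd ℂ s) = Z (t / 2) s := by
        have e1 : zs (t / 2) (starRingEnd ℂ s) = zs (t / 2) s := by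
          rw [zs_conj]; exact Complex.conj_eq_iff_im.2 him
        have n1 := one_add_Z_ne hη habs
        have n2 := one_add_Z_ne hη habs'
        unfold zs at e1
        rw [div_eq_div_iff n2 n1] at e1
        have : (2 : ℂ) * Z (t / 2) (starRingEnd ℂ s) = 2 * Z (t / 2) s := by
          linear_combination -e1
        exact mul_left_cancel₀ two_ne_zero this
      have hc : starRingEnd ℂ s = s := by
        apply Z_inj hη _ _ _ h2'.1.1.le h2'.1.2 h2'.2.le hZ
        · rw [Complex.conj_re]; exact h2'.1.1.le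
        · rw [Complex.conj_re]; exact h2'.1.2
        · rw [Complex.conj_im, abs_neg]; exact h2'.2.le
      have hreal : s = (s.re : ℂ) := (Complex.conj_eq_iff_re.1 hc).symm
      have h3 := Ur_real hη (Exact.cval t) h2'.1.1 h2'.1.2
      have h4 := zs_real hη h2'.1.1 h2'.1.2
      rw [← hreal] at h3 h4
      have h5 : ‖zs (t / 2) s‖ = Zs (t / 2) (t / 2 - s.re) := by
        rw [h4, Complex.norm_real,
          Real.norm_of_nonneg (Zs_nonneg hη (by linarith [h2'.1.2]) (by linarith [h2'.1.1]))]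
      unfold UII
      rw [h3, h5, (upII hη).inv_eq (by linarith [h2'.1.2]) (by linarith [h2'.1.1])]
    · rw [Ur_outer hη _ h2.1 h2.2.le]
      exact (gapII ht (norm_pos_iff.2 h0) h1).le
  · exact (Ur_lt ht hs h0 h1 him).le

/-- **(F5c)** the unit circle -/
theorem Ur_one {s : ℂ} (hs : s ∈ Rc (t / 2)) (h : ‖zs (t / 2) s‖ = 1) :
    Ur (t / 2) (Exact.cval t) s ≤ Real.log 2 - Exact.cval t := by
  have hη : 0 < t / 2 := by linarith
  have hs' := mem_Rc.1 hs
  rcases hs'.1.2.lt_or_eq with h1 | h1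
  · rw [cval_eq_cs ht]
    exact Ur_one_lt hη hs h h1
  · rw [Ur_outer hη _ h1 hs'.2, h]
    have := cval_lt_half ht
    norm_num
    linarith

theorem UII_contAt {x : ℝ} (h0 : 0 < x) (h1 : x < 1) : ContinuousAt (UII t) x :=
  ((potII ht).deriv x h0 h1).continuousAt

/-- **(F5d)** uniform gap off the real axis -/
theorem Ur_unif {x2 x3 th : ℝ} (hx2 : 0 < x2) (hx3 : x3 < 1) (hth : 0 < th) :
    ∃ g : ℝ, 0 < g ∧ ∀ s ∈ Rc (t / 2), x2 ≤ ‖zs (t / 2) s‖ → ‖zs (t / 2) s‖ ≤ x3 →
      th * ‖zs (t / 2) s‖ ≤ |(zs (t / 2) s).im| →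
      Ur (t / 2) (Exact.cval t) s ≤ UII t ‖zs (t / 2) s‖ - g := by
  have hη : 0 < t / 2 := by linarith
  obtain ⟨K, hK⟩ : ∃ K : Set ℂ, K = {s : ℂ | s ∈ Rc (t / 2) ∧ (x2 ≤ ‖zs (t / 2) s‖ ∧
    ‖zs (t / 2) s‖ ≤ x3 ∧ th * ‖zs (t / 2) s‖ ≤ |(zs (t / 2) s).im|)} := ⟨_, rfl⟩
  have hKc : IsCompact K := by
    have hz := zs_contOn hη
    have hcl : IsClosed K := by
      rw [hK]
      have e : {s : ℂ | s ∈ Rc (t / 2) ∧ (x2 ≤ ‖zs (t / 2) s‖ ∧
          ‖zs (t / 2) s‖ ≤ x3 ∧ th * ‖zs (t / 2) s‖ ≤ |(zs (t / 2) s).im|)} =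
          Rc (t / 2) ∩ (zs (t / 2)) ⁻¹' {z : ℂ | x2 ≤ ‖z‖ ∧ ‖z‖ ≤ x3 ∧ th * ‖z‖ ≤ |z.im|} := rfl
      rw [e]
      apply hz.preimage_isClosed_of_isClosed (Rc_compact (η := t / 2)).isClosed
      have c1 : IsClosed {z : ℂ | x2 ≤ ‖z‖} := isClosed_le continuous_const continuous_norm
      have c2 : IsClosed {z : ℂ | ‖z‖ ≤ x3} := isClosed_le continuous_norm continuous_const
      have c3 : IsClosed {z : ℂ | th * ‖z‖ ≤ |z.im|} :=
        isClosed_le (continuous_const.mul continuous_norm) (continuous_abs.comp Complex.continuous_im)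
      exact c1.inter (c2.inter c3)
    apply (Rc_compact (η := t / 2)).of_isClosed_subset hcl
    rw [hK]
    exact fun s hs => hs.1
  have hpos : ∀ s ∈ K, 0 < UII t ‖zs (t / 2) s‖ - Ur (t / 2) (Exact.cval t) s := by
    intro s hs
    rw [hK] at hs
    obtain ⟨h1, h2, h3, h4⟩ := hs
    have h5 : 0 < ‖zs (t / 2) s‖ := by linarith
    have h6 : (zs (t / 2) s).im ≠ 0 := by
      intro h
      rw [h, abs_zero] at h4
      nlinarith
    have := Ur_lt ht h1 (norm_pos_iff.1 h5) (by linarith) h6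
    linarith
  have hcont : ContinuousOn (fun s => UII t ‖zs (t / 2) s‖ - Ur (t / 2) (Exact.cval t) s) K := by
    intro s hs
    have hs2 : s ∈ K := hs
    rw [hK] at hs2
    obtain ⟨h1, h2, h3, _⟩ := hs2
    have hsub : K ⊆ Rc (t / 2) := by rw [hK]; exact fun s hs => hs.1
    apply ContinuousWithinAt.sub
    · apply ContinuousAt.comp_continuousWithinAt (g := UII t)
      · exact UII_contAt ht (by linarith) (by linarith)
      · exact ((zs_contOn hη s h1).mono hsub).norm
    · exact (Ur_contOn hη _ s h1).mono hsub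
  rcases K.eq_empty_or_nonempty with he | hne
  · refine ⟨1, one_pos, fun s h1 h2 h3 h4 => ?_⟩
    exfalso
    have : s ∈ K := by rw [hK]; exact ⟨h1, h2, h3, h4⟩
    rw [he] at this
    exact this
  · obtain ⟨s0, hs0, hmin⟩ := hKc.exists_isMinOn hne hcont
    refine ⟨_, hpos s0 hs0, fun s h1 h2 h3 h4 => ?_⟩
    have h5 : s ∈ K := by rw [hK]; exact ⟨h1, h2, h3, h4⟩
    have h6 := hmin h5
    simp only [mem_ofPred_eq] at h6
    linarith

end

end Pool.Agent.Lib.MP_0430e4_lc.AC.YF
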