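import Pool.Agent.Lib.MP_0430e4_lc.AC.YMix

/-!
# ALLCODES, Y1 (helper50): local limit lemma for the powers of ONE fixed function

`Φ` holomorphic on the unit disc, real on the reals, positive on `[0,xc]`, with
`|Φ (x e^(iθ))| ≤ Φ x (1 - c x (1 - cos θ))`, `Φ' 0 > 0`. Then for `K < xc Φ' xc / Φ xc` and all large
`m` the coefficients of `z^k`, `k ≤ K m`, of `Φ^m` are positive.
-/

set_option autoImplicit false

open Finset Metric MeasureTheory

namespace Pool.Agent.Lib.MP_0430e4_lc.AC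

/-- `Re (q^m) ≥ (Re q)^m - m |Im q| K^(m-1)`, `K ≥ |q|` -/
theorem llt_re_pow (q : ℂ) {K : ℝ} (hK : ‖q‖ ≤ K) (m : ℕ) :
    q.re ^ m - m * |q.im| * K ^ (m - 1) ≤ (q ^ m).re := by
  have hK0 : 0 ≤ K := (norm_nonneg _).trans hK
  have h1 := geom_sum₂_mul q (q.re : ℂ) m
  have h2 : ‖q - (q.re : ℂ)‖ = |q.im| := by
    have : q - (q.re : ℂ) = (q.im : ℂ) * Complex.I := by
      apply Complex.ext <;> simp
    rw [this, norm_mul, Complex.norm_I, mul_one, Complex.norm_real, Real.norm_eq_abs]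
  have h3 : ‖∑ i ∈ range m, q ^ i * (q.re : ℂ) ^ (m - 1 - i)‖ ≤ m * K ^ (m - 1) := by
    refine (norm_sum_le _ _).trans ?_
    have : ∀ i ∈ range m, ‖q ^ i * (q.re : ℂ) ^ (m - 1 - i)‖ ≤ K ^ (m - 1) := by
      intro i hi
      rw [mem_range] at hi
      rw [norm_mul, norm_pow, norm_pow]
      have h4 : ‖(q.re : ℂ)‖ ≤ K := by
        rw [Complex.norm_real, Real.norm_eq_abs]
        exact (Complex.abs_re_le_norm q).trans hK
      calc ‖q‖ ^ i * ‖(q.re : ℂ)‖ ^ (m - 1 - i) ≤ K ^ i * K ^ (m - 1 - i) :=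
            mul_le_mul (pow_le_pow_left₀ (norm_nonneg _) hK _) (pow_le_pow_left₀ (norm_nonneg _) h4 _)
              (by positivity) (by positivity)
        _ = K ^ (m - 1) := by rw [← pow_add]; congr 1; omega
    refine (Finset.sum_le_sum this).trans ?_
    rw [Finset.sum_const, card_range, nsmul_eq_mul]
  have h5 : ‖q ^ m - (q.re : ℂ) ^ m‖ ≤ m * |q.im| * K ^ (m - 1) := by
    rw [← h1, norm_mul, h2]
    calc _ ≤ m * K ^ (m - 1) * |q.im| := mul_le_mul_of_nonneg_right h3 (abs_nonneg _)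
      _ = _ := by ring
  have h6 : (q ^ m - (q.re : ℂ) ^ m).re = (q ^ m).re - q.re ^ m := by
    rw [Complex.sub_re, ← Complex.ofReal_pow, Complex.ofReal_re]
  have h7 := Complex.abs_re_le_norm (q ^ m - (q.re : ℂ) ^ m)
  rw [h6] at h7
  have h8 := (abs_le.mp (h7.trans h5)).1
  linarith

/-- `∫_0^π θ^3 exp (-a θ^2) ≤ 1/(2a^2)` -/
theorem llt_cube {a : ℝ} (ha : 0 < a) :
    ∫ θ in (0 : ℝ)..Real.pi, θ ^ 3 * Real.exp (-(a * θ ^ 2)) ≤ 1 / (2 * a ^ 2) := by
  have hd : ∀ θ ∈ Set.uIcc (0 : ℝ) Real.pi, HasDerivAt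
      (fun θ : ℝ => -((θ ^ 2 / (2 * a) + 1 / (2 * a ^ 2)) * Real.exp (-(a * θ ^ 2))))
      (θ ^ 3 * Real.exp (-(a * θ ^ 2))) θ := by
    intro θ _
    have h1 : HasDerivAt (fun θ : ℝ => θ ^ 2 / (2 * a) + 1 / (2 * a ^ 2)) (2 * θ / (2 * a)) θ := by
      have := ((hasDerivAt_pow 2 θ).div_const (2 * a)).add_const (1 / (2 * a ^ 2))
      simpa using this
    have h2 : HasDerivAt (fun θ : ℝ => Real.exp (-(a * θ ^ 2)))
        (Real.exp (-(a * θ ^ 2)) * -(a * (2 * θ))) θ := by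
      have := ((hasDerivAt_pow 2 θ).const_mul a).neg.exp
      simpa using this
    have h3 := (h1.mul h2).neg
    convert! h3 using 1
    have : a ≠ 0 := ha.ne'
    field_simp
    ring
  have hc : IntervalIntegrable (fun θ : ℝ => θ ^ 3 * Real.exp (-(a * θ ^ 2))) volume 0 Real.pi := by
    apply Continuous.intervalIntegrable
    fun_prop
  rw [intervalIntegral.integral_eq_sub_of_hasDerivAt hd hc]
  have h4 : 0 ≤ (Real.pi ^ 2 / (2 * a) + 1 / (2 * a ^ 2)) * Real.exp (-(a * Real.pi ^ 2)) := by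
    positivity
  simp only [ne_eq, OfNat.ofNat_ne_zero, not_false_eq_true, zero_pow, mul_zero, neg_zero,
    Real.exp_zero, mul_one, zero_div, zero_add]
  linarith

/-- **the integral of the local limit lemma** -/
theorem llt_core {A B b : ℝ} (hA : 1 ≤ A) (hB : 0 ≤ B) (hb : 0 < b) :
    ∃ m0 : ℕ, ∀ m ≥ m0, ∀ q : ℝ → ℂ, Continuous q →
      (∀ θ : ℝ, 0 ≤ θ → θ ≤ Real.pi → ‖q θ‖ ≤ Real.exp (-(b * θ ^ 2))) →
      (∀ θ : ℝ, 0 ≤ θ → θ ≤ Real.pi → 1 - A * θ ^ 2 ≤ (q θ).re) →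
      (∀ θ : ℝ, 0 ≤ θ → θ ≤ Real.pi → |(q θ).im| ≤ B * θ ^ 3) →
      0 < ∫ θ in (0 : ℝ)..Real.pi, (q θ ^ m).re := by
  have hπ := Real.pi_pos
  have hA0 : 0 < A := by linarith
  set θ0 : ℝ := 1 / Real.sqrt (2 * A) with hθ0
  have hs2 : 0 < Real.sqrt (2 * A) := Real.sqrt_pos.mpr (by positivity)
  have hθ00 : 0 < θ0 := by positivity
  have hθ0sq : θ0 ^ 2 = 1 / (2 * A) := by
    rw [hθ0, div_pow, one_pow, Real.sq_sqrt (by positivity)]
  have hθ01 : θ0 ≤ 1 := by
    rw [hθ0, div_le_one hs2]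
    apply Real.le_sqrt_of_sq_le
    linarith
  set D : ℝ := 2 * B / b ^ 2 + Real.pi / (b * θ0 ^ 2) with hD
  have hD0 : 0 ≤ D := by positivity
  obtain ⟨m0, hm0⟩ := exists_nat_gt ((2 * D / θ0) ^ 2)
  refine ⟨max m0 2, fun m hm q hqc h1 h2 h3 => ?_⟩
  have hmm0 : m0 ≤ m := (le_max_left _ _).trans hm
  have hm2 : 2 ≤ m := (le_max_right _ _).trans hm
  have hmR : (2 : ℝ) ≤ m := by exact_mod_cast hm2
  have hmp : (0 : ℝ) < m := by linarith
  have hsm : 0 < Real.sqrt m := Real.sqrt_pos.mpr hmp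
  have hsm1 : 1 ≤ Real.sqrt m := by
    apply Real.le_sqrt_of_sq_le
    linarith
  have hkey : 2 * D / θ0 < Real.sqrt m := by
    apply Real.lt_sqrt_of_sq_lt
    refine lt_of_lt_of_le hm0 ?_
    exact_mod_cast hmm0
  set s : ℝ := θ0 / Real.sqrt m with hs
  have hs0 : 0 < s := by positivity
  have hsθ : s ≤ θ0 := by
    rw [hs, div_le_iff₀ hsm]
    nlinarith
  have hsπ : s ≤ Real.pi := by
    have := Real.pi_gt_three
    linarith
  have hssq : m * (A * s ^ 2) = 1 / 2 := by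
    rw [hs, div_pow, Real.sq_sqrt hmp.le, hθ0sq]
    field_simp
  -- `m / (m-1)^2 ≤ 4/m`
  have hm1 : (0 : ℝ) < (m : ℝ) - 1 := by linarith
  have hcast : ((m - 1 : ℕ) : ℝ) = (m : ℝ) - 1 := by
    rw [Nat.cast_sub (by omega)]; simp
  set E2 : ℝ → ℝ := fun θ => m * B * (θ ^ 3 * Real.exp (-(b * (m - 1) * θ ^ 2))) with hE2
  set E3 : ℝ := 1 / (b * θ0 ^ 2 * m) with hE3
  have hE30 : 0 ≤ E3 := by positivity
  set h : ℝ → ℝ := fun θ => (q θ ^ m).re + E2 θ + E3 with hh
  have hE20 : ∀ θ : ℝ, 0 ≤ θ → 0 ≤ E2 θ := by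
    intro θ hθ
    simp only [hE2]
    positivity
  -- basic lower bound on `[0,θ0]`
  have hlow : ∀ θ : ℝ, 0 ≤ θ → θ ≤ θ0 → (1 - A * θ ^ 2) ^ m ≤ (q θ ^ m).re + E2 θ := by
    intro θ hθ hθ'
    have hθπ : θ ≤ Real.pi := by have := Real.pi_gt_three; linarith
    have g1 := llt_re_pow (q θ) (h1 θ hθ hθπ) m
    have g2 : 0 ≤ 1 - A * θ ^ 2 := by
      have : θ ^ 2 ≤ θ0 ^ 2 := pow_le_pow_left₀ hθ hθ' 2
      rw [hθ0sq] at this
      have h4 : A * θ ^ 2 ≤ A * (1 / (2 * A)) := mul_le_mul_of_nonneg_left this hA0.le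
      have h5 : A * (1 / (2 * A)) = 1 / 2 := by field_simp
      linarith
    have g3 : (1 - A * θ ^ 2) ^ m ≤ (q θ).re ^ m := pow_le_pow_left₀ g2 (h2 θ hθ hθπ) m
    have g4 : m * |(q θ).im| * Real.exp (-(b * θ ^ 2)) ^ (m - 1) ≤ E2 θ := by
      have g5 : Real.exp (-(b * θ ^ 2)) ^ (m - 1) = Real.exp (-(b * (m - 1) * θ ^ 2)) := by
        rw [← Real.exp_nat_mul, hcast]
        congr 1; ring
      rw [g5]
      simp only [hE2]
      calc _ ≤ m * (B * θ ^ 3) * Real.exp (-(b * (m - 1) * θ ^ 2)) := by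
            apply mul_le_mul_of_nonneg_right _ (Real.exp_pos _).le
            exact mul_le_mul_of_nonneg_left (h3 θ hθ hθπ) hmp.le
        _ = _ := by ring
    linarith
  have hpos : ∀ θ : ℝ, 0 ≤ θ → θ ≤ Real.pi → 0 ≤ h θ := by
    intro θ hθ hθπ
    simp only [hh]
    rcases le_total θ θ0 with hc | hc
    · have g1 := hlow θ hθ hc
      have g2 : 0 ≤ 1 - A * θ ^ 2 := by
        have : θ ^ 2 ≤ θ0 ^ 2 := pow_le_pow_left₀ hθ hc 2
        rw [hθ0sq] at this
        have h4 : A * θ ^ 2 ≤ A * (1 / (2 * A)) := mul_le_mul_of_nonneg_left this hA0.le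
        have h5 : A * (1 / (2 * A)) = 1 / 2 := by field_simp
        linarith
      have g3 : 0 ≤ (1 - A * θ ^ 2) ^ m := pow_nonneg g2 m
      linarith
    · have g1 : ‖q θ ^ m‖ ≤ E3 := by
        rw [norm_pow]
        calc ‖q θ‖ ^ m ≤ Real.exp (-(b * θ ^ 2)) ^ m :=
              pow_le_pow_left₀ (norm_nonneg _) (h1 θ hθ hθπ) m
          _ = Real.exp (-(b * θ ^ 2 * m)) := by
              rw [← Real.exp_nat_mul]; congr 1; ring
          _ ≤ Real.exp (-(b * θ0 ^ 2 * m)) := by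
              apply Real.exp_le_exp.mpr
              have : θ0 ^ 2 ≤ θ ^ 2 := pow_le_pow_left₀ hθ00.le hc 2
              have : b * θ0 ^ 2 * m ≤ b * θ ^ 2 * m := by gcongr
              linarith
          _ ≤ 1 / (b * θ0 ^ 2 * m) := by
              have g2 : 0 < b * θ0 ^ 2 * m := by positivity
              rw [Real.exp_neg, ← one_div]
              apply one_div_le_one_div_of_le g2
              have := Real.add_one_le_exp (b * θ0 ^ 2 * m)
              linarith
      have g2 := Complex.abs_re_le_norm (q θ ^ m)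
      have g3 := (abs_le.mp (g2.trans g1)).1
      have g4 := hE20 θ hθ
      linarith
  have hbig : ∀ θ : ℝ, 0 ≤ θ → θ ≤ s → 1 / 2 ≤ h θ := by
    intro θ hθ hθs
    simp only [hh]
    have g1 := hlow θ hθ (hθs.trans hsθ)
    have g2 : (1 : ℝ) / 2 ≤ (1 - A * θ ^ 2) ^ m := by
      have g3 : A * θ ^ 2 ≤ A * s ^ 2 := by gcongr
      have g4 : (-2 : ℝ) ≤ -(A * θ ^ 2) := by
        have : A * s ^ 2 ≤ A * θ0 ^ 2 := by gcongr
        rw [hθ0sq] at this
        have h5 : A * (1 / (2 * A)) = 1 / 2 := by field_simp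
        linarith
      have g5 := one_add_mul_le_pow g4 m
      have g6 : m * (A * θ ^ 2) ≤ 1 / 2 := by
        rw [← hssq]
        exact mul_le_mul_of_nonneg_left g3 hmp.le
      calc (1 : ℝ) / 2 ≤ 1 + (m : ℝ) * -(A * θ ^ 2) := by linarith
        _ ≤ (1 + -(A * θ ^ 2)) ^ m := g5
        _ = _ := by ring
    linarith
  have hqm : Continuous fun θ : ℝ => (q θ ^ m).re := Complex.continuous_re.comp (hqc.pow m)
  have hE2c : Continuous E2 := by
    simp only [hE2]; fun_prop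
  have hhc : Continuous h := by
    simp only [hh]
    exact (hqm.add hE2c).add continuous_const
  have hi : ∀ a b : ℝ, IntervalIntegrable h volume a b := fun a b => hhc.intervalIntegrable a b
  -- lower bound of `∫ h`
  have hI1 : s / 2 ≤ ∫ θ in (0 : ℝ)..Real.pi, h θ := by
    rw [← intervalIntegral.integral_add_adjacent_intervals (hi 0 s) (hi s Real.pi)]
    have i1 : s / 2 ≤ ∫ θ in (0 : ℝ)..s, h θ := by
      have := intervalIntegral.integral_mono_on (a := 0) (b := s) hs0.le (f := fun _ => (1 : ℝ) / 2) (g := h)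
        (continuous_const.intervalIntegrable _ _) (hi 0 s) (fun θ hθ => hbig θ hθ.1 hθ.2)
      rw [intervalIntegral.integral_const, sub_zero, smul_eq_mul] at this
      linarith
    have i2 : 0 ≤ ∫ θ in s..Real.pi, h θ :=
      intervalIntegral.integral_nonneg hsπ fun θ hθ => hpos θ (hs0.le.trans hθ.1) hθ.2
    linarith
  have hI2 : ∫ θ in (0 : ℝ)..Real.pi, h θ = (∫ θ in (0 : ℝ)..Real.pi, (q θ ^ m).re) +
      (∫ θ in (0 : ℝ)..Real.pi, E2 θ) + Real.pi * E3 := by
    have g1 : ∫ θ in (0 : ℝ)..Real.pi, h θ = (∫ θ in (0 : ℝ)..Real.pi, ((q θ ^ m).re + E2 θ)) +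
        ∫ θ in (0 : ℝ)..Real.pi, E3 :=
      intervalIntegral.integral_add ((hqm.add hE2c).intervalIntegrable _ _)
        (continuous_const.intervalIntegrable _ _)
    rw [g1, intervalIntegral.integral_add (hqm.intervalIntegrable _ _) (hE2c.intervalIntegrable _ _),
      intervalIntegral.integral_const, sub_zero, smul_eq_mul]
  have hI3 : ∫ θ in (0 : ℝ)..Real.pi, E2 θ ≤ 2 * B / b ^ 2 / m := by
    simp only [hE2]
    rw [intervalIntegral.integral_const_mul]
    have g1 := llt_cube (a := b * (m - 1)) (by positivity)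
    calc (m : ℝ) * B * ∫ θ in (0 : ℝ)..Real.pi, θ ^ 3 * Real.exp (-(b * (m - 1) * θ ^ 2))
        ≤ m * B * (1 / (2 * (b * (m - 1)) ^ 2)) :=
          mul_le_mul_of_nonneg_left g1 (by positivity)
      _ ≤ 2 * B / b ^ 2 / m := by
          have g2 : (m : ℝ) ^ 2 ≤ 4 * (m - 1) ^ 2 := by nlinarith
          rw [show m * B * (1 / (2 * (b * ((m : ℝ) - 1)) ^ 2)) = (B / (2 * b ^ 2)) * (m / (m - 1) ^ 2) by
            field_simp]
          rw [show 2 * B / b ^ 2 / (m : ℝ) = (B / (2 * b ^ 2)) * (4 / m) by field_simp; ring]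
          apply mul_le_mul_of_nonneg_left _ (by positivity)
          rw [div_le_div_iff₀ (by positivity) hmp]
          linarith
  have hI4 : Real.pi * E3 = Real.pi / (b * θ0 ^ 2) / m := by
    rw [hE3]; field_simp
  have hfin : D / m < s / 2 := by
    rw [div_lt_iff₀ hθ00] at hkey
    rw [hs, div_lt_iff₀ hmp]
    have g1 : θ0 / Real.sqrt m / 2 * m = Real.sqrt m * θ0 / 2 := by
      have : (m : ℝ) = Real.sqrt m * Real.sqrt m := (Real.mul_self_sqrt hmp.le).symm
      field_simp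
      linarith [this]
    rw [g1]
    linarith
  have hD' : D / m = 2 * B / b ^ 2 / m + Real.pi / (b * θ0 ^ 2) / m := by
    rw [hD]; ring
  linarith

/-- Taylor coefficient at `0` of a function which is real on the reals -/
noncomputable def llt_tco (f : ℂ → ℂ) (k : ℕ) : ℝ := (iteratedDeriv k f 0).re / (k.factorial : ℝ)

theorem llt_tco_eq {f : ℂ → ℂ} (hr : ∀ z : ℂ, ‖z‖ < 1 → f (starRingEnd ℂ z) = starRingEnd ℂ (f z))
    (k : ℕ) : iteratedDeriv k f 0 = (k.factorial : ℂ) * (llt_tco f k : ℂ) := by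
  have h1 := ymix_real (f := f) one_pos hr k
  have h2 : (k.factorial : ℂ) ≠ 0 := by exact_mod_cast Nat.factorial_ne_zero k
  rw [← h1]
  unfold llt_tco
  push_cast
  field_simp

theorem llt_tco_hasSum {f : ℂ → ℂ} (hd : DifferentiableOn ℂ f (ball 0 1))
    (hr : ∀ z : ℂ, ‖z‖ < 1 → f (starRingEnd ℂ z) = starRingEnd ℂ (f z)) {z : ℂ} (hz : ‖z‖ < 1) :
    HasSum (fun j : ℕ => (llt_tco f j : ℂ) * z ^ j) (f z) := by
  have h1 := Complex.hasSum_taylorSeries_on_ball hd (z := z) (by rwa [mem_ball_zero_iff])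
  convert! h1 using 2 with j
  have h2 : (j.factorial : ℂ) ≠ 0 := by exact_mod_cast Nat.factorial_ne_zero j
  rw [llt_tco_eq hr, smul_eq_mul, smul_eq_mul, sub_zero]
  field_simp

theorem llt_conj_deriv {f : ℂ → ℂ}
    (hr : ∀ z : ℂ, ‖z‖ < 1 → f (starRingEnd ℂ z) = starRingEnd ℂ (f z)) {z : ℂ} (hz : ‖z‖ < 1) :
    deriv f (starRingEnd ℂ z) = starRingEnd ℂ (deriv f z) := by
  have h1 : (starRingEnd ℂ ∘ f ∘ starRingEnd ℂ) =ᶠ[nhds z] f := by
    have : ball (0 : ℂ) 1 ∈ nhds z := isOpen_ball.mem_nhds (by rwa [mem_ball_zero_iff])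
    filter_upwards [this] with w hw
    rw [mem_ball_zero_iff] at hw
    simp only [Function.comp_apply]
    rw [hr w hw, Complex.conj_conj]
  have h2 := h1.deriv_eq
  rw [deriv_conj_conj] at h2
  simp only [Function.comp_apply] at h2
  rw [← h2, Complex.conj_conj]

theorem llt_tco_hasSum_deriv {f : ℂ → ℂ} (hd : DifferentiableOn ℂ f (ball 0 1))
    (hr : ∀ z : ℂ, ‖z‖ < 1 → f (starRingEnd ℂ z) = starRingEnd ℂ (f z)) {z : ℂ} (hz : ‖z‖ < 1) :
    HasSum (fun j : ℕ => (((j : ℝ) * llt_tco f j : ℝ) : ℂ) * z ^ j) (z * deriv f z) := by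
  have h1 := Complex.hasSum_taylorSeries_on_ball (hd.deriv isOpen_ball) (z := z)
    (by rwa [mem_ball_zero_iff])
  have h2 := h1.mul_left z
  have h3 : HasSum (fun j : ℕ => (((((j + 1 : ℕ) : ℝ)) * llt_tco f (j + 1) : ℝ) : ℂ) * z ^ (j + 1))
      (z * deriv f z) := by
    convert! h2 using 2 with j
    have h4 : (j.factorial : ℂ) ≠ 0 := by exact_mod_cast Nat.factorial_ne_zero j
    have h5 : iteratedDeriv j (deriv f) 0 = iteratedDeriv (j + 1) f 0 := by
      rw [iteratedDeriv_succ']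
    rw [smul_eq_mul, smul_eq_mul, sub_zero, h5, llt_tco_eq hr, Nat.factorial_succ]
    push_cast
    field_simp
    ring
  have h6 := (hasSum_nat_add_iff (f := fun j : ℕ => (((j : ℝ) * llt_tco f j : ℝ) : ℂ) * z ^ j) 1).mp h3
  simpa using h6

theorem llt_tco_le {f : ℂ → ℂ} (hd : DifferentiableOn ℂ f (ball 0 1)) {ρ : ℝ} (h0 : 0 < ρ)
    (h1 : ρ < 1) : ∃ M : ℝ, 0 ≤ M ∧ ∀ j : ℕ, |llt_tco f j| ≤ M / ρ ^ j := by
  have hcont : ContinuousOn f (closedBall 0 ρ) :=
    hd.continuousOn.mono (closedBall_subset_ball h1)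
  obtain ⟨M, hM⟩ := (isCompact_closedBall (0 : ℂ) ρ).exists_bound_of_continuousOn hcont
  refine ⟨M, (norm_nonneg _).trans (hM 0 (by simp [h0.le])), fun j => ?_⟩
  have hdc : DiffContOnCl ℂ f (ball 0 ρ) := by
    apply DifferentiableOn.diffContOnCl
    rw [closure_ball _ h0.ne']
    exact hd.mono (closedBall_subset_ball h1)
  have h2 := Complex.norm_iteratedDeriv_le_of_forall_mem_sphere_norm_le j h0 hdc
    (C := M) (fun z hz => hM z (sphere_subset_closedBall hz))
  have hf : (0 : ℝ) < j.factorial := by exact_mod_cast Nat.factorial_pos j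
  unfold llt_tco
  rw [abs_div, abs_of_pos hf, div_le_div_iff₀ hf (by positivity)]
  have h3 := (Complex.abs_re_le_norm (iteratedDeriv j f 0)).trans h2
  rw [le_div_iff₀ (by positivity)] at h3
  linarith

/-- `exp (i a)` -/
noncomputable def llt_eph (a : ℝ) : ℂ := Complex.exp ((a : ℂ) * Complex.I)

theorem llt_eph_norm (a : ℝ) : ‖llt_eph a‖ = 1 := Complex.norm_exp_ofReal_mul_I a

theorem llt_eph_cont : Continuous llt_eph := by unfold llt_eph; fun_prop

theorem llt_eph_conj (a : ℝ) : starRingEnd ℂ (llt_eph a) = llt_eph (-a) := by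
  unfold llt_eph
  rw [← Complex.exp_conj]
  congr 1
  simp

theorem llt_eph_pow (a : ℝ) (k : ℕ) : llt_eph a ^ k = llt_eph (k * a) := by
  unfold llt_eph
  rw [← Complex.exp_nat_mul]
  congr 1; push_cast; ring

theorem llt_eph_mul (a b : ℝ) : llt_eph a * llt_eph b = llt_eph (a + b) := by
  unfold llt_eph
  rw [← Complex.exp_add]
  congr 1; push_cast; ring

theorem llt_eph_two_pi (a : ℝ) (k : ℤ) : llt_eph (a + 2 * Real.pi * k) = llt_eph a := by
  unfold llt_eph
  have h : (((a + 2 * Real.pi * k : ℝ) : ℂ)) * Complex.I =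
      ((a : ℝ) : ℂ) * Complex.I + (k : ℂ) * (2 * Real.pi * Complex.I) := by
    push_cast; ring
  rw [h, Complex.exp_add, Complex.exp_int_mul_two_pi_mul_I, mul_one]

theorem llt_eph_re (a : ℝ) : (llt_eph a).re = Real.cos a := by
  unfold llt_eph; rw [Complex.exp_ofReal_mul_I_re]

theorem llt_eph_im (a : ℝ) : (llt_eph a).im = Real.sin a := by
  unfold llt_eph; rw [Complex.exp_ofReal_mul_I_im]

/-- the coefficient as an integral over the half circle -/
theorem llt_tco_integral {f : ℂ → ℂ} (hd : DifferentiableOn ℂ f (ball 0 1))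
    (hr : ∀ z : ℂ, ‖z‖ < 1 → f (starRingEnd ℂ z) = starRingEnd ℂ (f z)) {x : ℝ} (h0 : 0 < x)
    (h1 : x < 1) (k : ℕ) :
    llt_tco f k * x ^ k * Real.pi =
      ∫ θ in (0 : ℝ)..Real.pi, (f (x * llt_eph θ) * llt_eph (-(k * θ))).re := by
  have hπ := Real.pi_pos
  have hdc : DifferentiableOn ℂ f (closedBall 0 x) := hd.mono (closedBall_subset_ball h1)
  have h2 := hdc.circleIntegral_one_div_sub_center_pow_smul h0 k
  have hx0 : (x : ℂ) ≠ 0 := by exact_mod_cast h0.ne'
  have hfac : (k.factorial : ℂ) ≠ 0 := by exact_mod_cast Nat.factorial_ne_zero k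
  set g : ℝ → ℂ := fun θ => f (x * llt_eph θ) * llt_eph (-(k * θ)) with hg
  have hcm : ∀ θ : ℝ, circleMap 0 x θ = x * llt_eph θ := by
    intro θ; unfold circleMap llt_eph; simp
  have hint : ∮ z in C(0, x), (1 / (z - 0) ^ (k + 1)) • f z =
      ∫ θ in (0 : ℝ)..2 * Real.pi, (Complex.I / (x : ℂ) ^ k) * g θ := by
    unfold circleIntegral
    apply intervalIntegral.integral_congr
    intro θ _
    simp only [deriv_circleMap, hcm, smul_eq_mul, sub_zero, hg]
    have he : llt_eph θ ≠ 0 := by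
      intro h
      have := llt_eph_norm θ
      rw [h, norm_zero] at this
      norm_num at this
    have he2 : llt_eph (-(k * θ)) = (llt_eph θ ^ k)⁻¹ := by
      rw [llt_eph_pow]
      apply eq_inv_of_mul_eq_one_left
      rw [llt_eph_mul]
      simp [llt_eph]
    rw [he2, mul_pow]
    field_simp
    ring
  rw [hint, intervalIntegral.integral_const_mul, llt_tco_eq hr, smul_eq_mul] at h2
  have hgc : Continuous g := by
    simp only [hg]
    apply Continuous.mul
    · have : Continuous fun θ : ℝ => (x : ℂ) * llt_eph θ := continuous_const.mul llt_eph_cont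
      apply hd.continuousOn.comp_continuous this
      intro θ
      rw [mem_ball_zero_iff, norm_mul, llt_eph_norm, mul_one, Complex.norm_real, Real.norm_eq_abs,
        abs_of_pos h0]
      exact h1
    · exact llt_eph_cont.comp (by fun_prop)
  have h3 : ((llt_tco f k * x ^ k * (2 * Real.pi) : ℝ) : ℂ) = ∫ θ in (0 : ℝ)..2 * Real.pi, g θ := by
    have hI : Complex.I ≠ 0 := Complex.I_ne_zero
    have hxk : (x : ℂ) ^ k ≠ 0 := pow_ne_zero _ hx0
    have h4 : Complex.I / (x : ℂ) ^ k * (∫ θ in (0 : ℝ)..2 * Real.pi, g θ) =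
        Complex.I / (x : ℂ) ^ k * ((llt_tco f k * x ^ k * (2 * Real.pi) : ℝ) : ℂ) := by
      rw [h2]
      push_cast
      field_simp
    exact (mul_left_cancel₀ (div_ne_zero hI hxk) h4).symm
  have h5 : llt_tco f k * x ^ k * (2 * Real.pi) = ∫ θ in (0 : ℝ)..2 * Real.pi, (g θ).re := by
    have h6 := congrArg Complex.re h3
    rw [Complex.ofReal_re] at h6
    rw [h6]
    have h7 := Complex.reCLM.intervalIntegral_comp_comm (f := g) (a := 0) (b := 2 * Real.pi)
      (μ := volume) (hgc.intervalIntegrable _ _)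
    simpa using h7.symm
  have hsym : ∀ θ : ℝ, (g (2 * Real.pi - θ)).re = (g θ).re := by
    intro θ
    have e1 : llt_eph (2 * Real.pi - θ) = starRingEnd ℂ (llt_eph θ) := by
      rw [llt_eph_conj]
      have := llt_eph_two_pi (-θ) 1
      rw [← this]; congr 1; push_cast; ring
    have e2 : llt_eph (-(k * (2 * Real.pi - θ))) = starRingEnd ℂ (llt_eph (-(k * θ))) := by
      rw [llt_eph_conj]
      have := llt_eph_two_pi (- -(k * θ)) (-(k : ℤ))
      rw [← this]; congr 1; push_cast; ring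
    simp only [hg]
    have e3 : ‖(x : ℂ) * llt_eph θ‖ < 1 := by
      rw [norm_mul, llt_eph_norm, mul_one, Complex.norm_real, Real.norm_eq_abs, abs_of_pos h0]
      exact h1
    have e4 : (x : ℂ) * starRingEnd ℂ (llt_eph θ) = starRingEnd ℂ ((x : ℂ) * llt_eph θ) := by
      rw [map_mul, Complex.conj_ofReal]
    rw [e1, e2, e4, hr _ e3, ← map_mul, Complex.conj_re]
  have hrc : Continuous fun θ : ℝ => (g θ).re := Complex.continuous_re.comp hgc
  have h8 : ∫ θ in (0 : ℝ)..2 * Real.pi, (g θ).re = (∫ θ in (0 : ℝ)..Real.pi, (g θ).re) +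
      ∫ θ in Real.pi..2 * Real.pi, (g θ).re :=
    (intervalIntegral.integral_add_adjacent_intervals (hrc.intervalIntegrable _ _)
      (hrc.intervalIntegrable _ _)).symm
  have h9 : ∫ θ in Real.pi..2 * Real.pi, (g θ).re = ∫ θ in (0 : ℝ)..Real.pi, (g θ).re := by
    have := intervalIntegral.integral_comp_sub_left (a := 0) (b := Real.pi)
      (fun θ => (g θ).re) (2 * Real.pi)
    rw [show 2 * Real.pi - Real.pi = Real.pi by ring, sub_zero] at this
    rw [← this]
    apply intervalIntegral.integral_congr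
    intro θ _
    exact hsym θ
  rw [h8, h9] at h5
  linarith

end Pool.Agent.Lib.MP_0430e4_lc.AC
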