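import Pool.Agent.Lib.MP_0430e4_lc.AC.YLLT1

/-!
# ALLCODES, Y1 (helper50): local limit lemma, the theorem

See `YLLT1`. `llt_low`: small `k`; `llt_mid`: `k/m` in a compact interval; `llt_fix`: the theorem.
-/

set_option autoImplicit false

open Finset Metric MeasureTheory

namespace Pool.Agent.Lib.MP_0430e4_lc.AC

/-- small `k` -/
theorem llt_low {Φ : ℂ → ℂ} (hd : DifferentiableOn ℂ Φ (ball 0 1))
    (hr : ∀ z : ℂ, ‖z‖ < 1 → Φ (starRingEnd ℂ z) = starRingEnd ℂ (Φ z)) (h0 : 0 < (Φ 0).re)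
    (h1 : 0 < (deriv Φ 0).re) :
    ∃ κ : ℝ, 0 < κ ∧ ∀ m : ℕ, 1 ≤ m → ∀ k : ℕ, (k : ℝ) ≤ κ * m →
      0 < llt_tco (fun z => Φ z ^ m) k := by
  have hreal : ((Φ 0).re : ℂ) = Φ 0 := by
    have := hr 0 (by simp)
    rw [map_zero] at this
    exact Complex.conj_eq_iff_re.mp this.symm
  have hΦ0 : Φ 0 ≠ 0 := by rw [← hreal]; exact_mod_cast h0.ne'
  have hnb : ball (0 : ℂ) 1 ∈ nhds (0 : ℂ) := ball_mem_nhds 0 one_pos
  have hc0 : ContinuousAt (fun z => Φ z / Φ 0) 0 :=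
    ((hd.differentiableAt hnb).continuousAt).div_const _
  obtain ⟨r, hr0, hrb⟩ := Metric.continuousAt_iff.mp hc0 (1 / 2) (by norm_num)
  set r0 : ℝ := min r 1 with hr0'
  have hr00 : 0 < r0 := lt_min hr0 one_pos
  set r1 : ℝ := r0 / 2 with hr1
  have hr10 : 0 < r1 := by positivity
  have hsmall : ∀ z : ℂ, ‖z‖ < 2 → ‖Φ (r1 * z) / Φ 0 - 1‖ < 1 / 2 ∧ ‖(r1 : ℂ) * z‖ < 1 := by
    intro z hz
    have e1 : ‖(r1 : ℂ) * z‖ < r0 := by
      rw [norm_mul, Complex.norm_real, Real.norm_eq_abs, abs_of_pos hr10]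
      nlinarith
    have e2 := hrb (x := (r1 : ℂ) * z) (by rw [dist_zero_right]; exact e1.trans_le (min_le_left _ _))
    rw [dist_eq_norm, div_self hΦ0] at e2
    exact ⟨e2, e1.trans_le (min_le_right _ _)⟩
  set ψ : ℂ → ℂ := fun z => Complex.log (Φ (r1 * z) / Φ 0) with hψ
  have hslit : ∀ z : ℂ, ‖z‖ < 2 → Φ (r1 * z) / Φ 0 ∈ Complex.slitPlane := by
    intro z hz
    have e1 := (hsmall z hz).1
    have e2 := Complex.mem_slitPlane_of_norm_lt_one (z := Φ (r1 * z) / Φ 0 - 1) (by linarith)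
    rwa [add_sub_cancel] at e2
  have hlin : DifferentiableOn ℂ (fun z : ℂ => (r1 : ℂ) * z) (ball 0 2) := by fun_prop
  have hcomp : DifferentiableOn ℂ (fun z : ℂ => Φ (r1 * z)) (ball 0 2) := by
    apply hd.comp hlin
    intro z hz
    rw [mem_ball_zero_iff] at hz ⊢
    exact (hsmall z hz).2
  have hψd : DifferentiableOn ℂ ψ (ball 0 2) := by
    apply DifferentiableOn.clog (hcomp.div_const _)
    intro z hz
    rw [mem_ball_zero_iff] at hz
    exact hslit z hz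
  have hψr : ∀ z : ℂ, ‖z‖ < 2 → ψ (starRingEnd ℂ z) = starRingEnd ℂ (ψ z) := by
    intro z hz
    have e1 : (r1 : ℂ) * starRingEnd ℂ z = starRingEnd ℂ ((r1 : ℂ) * z) := by
      rw [map_mul, Complex.conj_ofReal]
    have e2 : Φ 0 = starRingEnd ℂ (Φ 0) := by
      rw [← hreal, Complex.conj_ofReal]
    simp only [hψ]
    rw [e1, hr _ (hsmall z hz).2]
    conv_lhs => rw [e2]
    rw [← map_div₀, Complex.log_conj]
    have := hslit z hz
    rw [Complex.mem_slitPlane_iff_arg] at this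
    exact this.1
  have hψ0 : ψ 0 = 0 := by
    simp only [hψ]
    rw [mul_zero, div_self hΦ0, Complex.log_one]
  have hψM : ∀ z : ℂ, ‖z‖ < 2 → ‖ψ z‖ ≤ 1 := by
    intro z hz
    have e1 := (hsmall z hz).1
    have e2 := Complex.norm_log_one_add_half_le_self (z := Φ (r1 * z) / Φ 0 - 1) e1.le
    rw [add_sub_cancel] at e2
    simp only [hψ]
    linarith
  have hψderiv : (deriv ψ 0).re = r1 * (deriv Φ 0).re / (Φ 0).re := by
    have e1 : HasDerivAt Φ (deriv Φ 0) ((r1 : ℂ) * 0) := by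
      rw [mul_zero]
      exact (hd.differentiableAt hnb).hasDerivAt
    have e2 : HasDerivAt (fun z : ℂ => (r1 : ℂ) * z) (r1 : ℂ) 0 := by
      simpa using (hasDerivAt_id (0 : ℂ)).const_mul (r1 : ℂ)
    have e3 : HasDerivAt (fun z : ℂ => Φ (r1 * z)) (deriv Φ 0 * r1) 0 :=
      HasDerivAt.comp (0 : ℂ) e1 e2
    have e4 := (e3.div_const (Φ 0)).clog (by
      have := hslit 0 (by simp)
      exact this)
    have e5 : deriv ψ 0 = deriv Φ 0 * r1 / Φ 0 := by
      have : HasDerivAt ψ (deriv Φ 0 * r1 / Φ 0 / (Φ ((r1 : ℂ) * 0) / Φ 0)) 0 := e4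
      rw [this.deriv, mul_zero, div_self hΦ0, div_one]
    have e6 : deriv Φ 0 * (r1 : ℂ) / Φ 0 = ((r1 / (Φ 0).re : ℝ) : ℂ) * deriv Φ 0 := by
      have e7 : ((r1 / (Φ 0).re : ℝ) : ℂ) = (r1 : ℂ) / Φ 0 := by
        rw [Complex.ofReal_div r1, hreal]
      rw [e7]
      ring
    rw [e5, e6, Complex.re_ofReal_mul]
    ring
  set s0 : ℝ := r1 * (deriv Φ 0).re / (Φ 0).re with hs0
  have hs00 : 0 < s0 := by positivity
  refine ⟨s0 ^ 2 / (4 * 1 + 2 * s0), by positivity, fun m hm k hk => ?_⟩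
  have hm0 : (0 : ℝ) < m := by exact_mod_cast hm
  obtain ⟨ρ, hρ, he⟩ := ymix_exp hs00 hψd hψr hψ0 hψM hψderiv.ge hm0 k hk
  obtain ⟨F, hF⟩ : ∃ F : ℂ → ℂ, F = fun w => Φ w ^ m := ⟨_, rfl⟩
  have hev : (fun z => Complex.exp (((m : ℝ) : ℂ) * ψ z)) =ᶠ[nhds 0]
      (fun z => (1 / Φ 0 ^ m) * F (r1 * z)) := by
    filter_upwards [ball_mem_nhds (0 : ℂ) two_pos] with z hz
    rw [mem_ball_zero_iff] at hz
    have e1 : Φ (r1 * z) / Φ 0 ≠ 0 := Complex.slitPlane_ne_zero (hslit z hz)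
    have e2 : Complex.exp (((m : ℝ) : ℂ) * ψ z) = (Complex.exp (ψ z)) ^ m := by
      rw [← Complex.exp_nat_mul]; congr 1
    rw [e2]
    simp only [hψ, hF]
    rw [Complex.exp_log e1, div_pow]
    ring
  rw [hev.iteratedDeriv_eq k, iteratedDeriv_const_mul_field, ymix_iter_mul] at he
  simp only [mul_zero] at he
  rw [← hF]
  unfold llt_tco
  have hf0 : (0 : ℝ) < k.factorial := by exact_mod_cast Nat.factorial_pos k
  have e3 : iteratedDeriv k F 0 =
      ((k.factorial * ρ * (Φ 0).re ^ m / r1 ^ k : ℝ) : ℂ) := by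
    have e4 : (r1 : ℂ) ^ k ≠ 0 := pow_ne_zero _ (by exact_mod_cast hr10.ne')
    have e5 : Φ 0 ^ m ≠ 0 := pow_ne_zero _ hΦ0
    push_cast
    rw [hreal]
    field_simp
    field_simp at he
    linear_combination he
  rw [e3, Complex.ofReal_re]
  positivity

theorem llt_sin (y : ℝ) : |Real.sin y - y| ≤ 2 * |y| ^ 3 := by
  have key : ∀ y : ℝ, 0 ≤ y → |Real.sin y - y| ≤ 2 * y ^ 3 := by
    intro y hy
    rcases hy.eq_or_lt with h | h
    · rw [← h]; simp
    have h1 : Real.sin y ≤ y := Real.sin_le hy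
    rw [abs_of_nonpos (by linarith)]
    have h3 := Real.sin_gt_sub_cube h
    have h4 : 0 < y ^ 3 := by positivity
    linarith
  rcases le_total 0 y with h | h
  · rw [abs_of_nonneg h]; exact key y h
  · have h1 := key (-y) (by linarith)
    rw [Real.sin_neg] at h1
    rw [abs_of_nonpos h]
    have h2 : |(-Real.sin y) - (-y)| = |Real.sin y - y| := by
      rw [← abs_neg]; congr 1; ring
    rw [← h2]; exact h1

theorem llt_sumW {M t K : ℝ} (ht0 : 0 ≤ t) (ht : t < 1) :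
    Summable fun j : ℕ => M * t ^ j * ((j : ℝ) + K) ^ 3 := by
  have ht' : ‖t‖ < 1 := by rw [Real.norm_eq_abs, abs_of_nonneg ht0]; exact ht
  have h3 := summable_pow_mul_geometric_of_norm_lt_one 3 ht'
  have h2 := summable_pow_mul_geometric_of_norm_lt_one 2 ht'
  have h1 := summable_pow_mul_geometric_of_norm_lt_one 1 ht'
  have h0 := summable_pow_mul_geometric_of_norm_lt_one 0 ht'
  have := ((h3.mul_left M).add (h2.mul_left (3 * K * M))).add
    ((h1.mul_left (3 * K ^ 2 * M)).add (h0.mul_left (K ^ 3 * M)))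
  refine this.congr fun j => ?_
  ring

/-- `k/m` in a compact interval -/
theorem llt_mid {Φ : ℂ → ℂ} {c xa xc : ℝ} (hd : DifferentiableOn ℂ Φ (ball 0 1))
    (hr : ∀ z : ℂ, ‖z‖ < 1 → Φ (starRingEnd ℂ z) = starRingEnd ℂ (Φ z)) (hc : 0 < c)
    (ha : 0 < xa) (hac : xa ≤ xc) (hx1 : xc < 1)
    (hp : ∀ x : ℝ, xa ≤ x → x ≤ xc → 0 < (Φ x).re)
    (hang : ∀ x : ℝ, xa ≤ x → x ≤ xc → ∀ θ : ℝ, 0 ≤ θ → θ ≤ Real.pi →
      ‖Φ (x * llt_eph θ)‖ ≤ (Φ x).re * (1 - c * x * (1 - Real.cos θ))) :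
    ∃ m0 : ℕ, ∀ m ≥ m0, ∀ (k : ℕ) (x : ℝ), xa ≤ x → x ≤ xc →
      (k : ℝ) * (Φ x).re = m * (x * (deriv Φ x).re) → 0 < llt_tco (fun z => Φ z ^ m) k := by
  have hπ := Real.pi_pos
  have hxc0 : 0 < xc := ha.trans_le hac
  -- minimum of `Φ`
  obtain ⟨p0, hp0, hpm⟩ : ∃ p0 : ℝ, 0 < p0 ∧ ∀ x : ℝ, xa ≤ x → x ≤ xc → p0 ≤ (Φ x).re := by
    have hcont : ContinuousOn (fun x : ℝ => (Φ x).re) (Set.Icc xa xc) := by
      apply Complex.continuous_re.comp_continuousOn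
      apply hd.continuousOn.comp (Complex.continuous_ofReal.continuousOn)
      intro x hx
      rw [mem_ball_zero_iff, Complex.norm_real, Real.norm_eq_abs, abs_of_pos (ha.trans_le hx.1)]
      exact hx.2.trans_lt hx1
    obtain ⟨x0, hx0, hmin⟩ := isCompact_Icc.exists_isMinOn ⟨xa, le_rfl, hac⟩ hcont
    exact ⟨(Φ x0).re, hp x0 hx0.1 hx0.2, fun x h1 h2 => hmin ⟨h1, h2⟩⟩
  obtain ⟨ρ, hρ⟩ : ∃ ρ : ℝ, ρ = (1 + xc) / 2 := ⟨_, rfl⟩
  have hρ0 : 0 < ρ := by rw [hρ]; positivity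
  have hρ1 : ρ < 1 := by rw [hρ]; linarith
  have hρx : xc < ρ := by rw [hρ]; linarith
  obtain ⟨M, hM0, hM⟩ := llt_tco_le hd hρ0 hρ1
  obtain ⟨t, ht⟩ : ∃ t : ℝ, t = xc / ρ := ⟨_, rfl⟩
  have ht0 : 0 ≤ t := by rw [ht]; positivity
  have ht1 : t < 1 := by rw [ht, div_lt_one hρ0]; exact hρx
  set W : ℕ → ℝ := fun j => M / p0 * t ^ j with hW
  have hW0 : ∀ j, 0 ≤ W j := fun j => by simp only [hW]; positivity
  have hsumW : ∀ K : ℝ, Summable fun j : ℕ => W j * ((j : ℝ) + K) ^ 3 := fun K =>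
    llt_sumW ht0 ht1
  set S1 : ℝ := ∑' j : ℕ, W j * ((j : ℝ) + 1) ^ 3 with hS1
  have hS10 : 0 ≤ S1 := tsum_nonneg fun j => mul_nonneg (hW0 j) (by positivity)
  set S : ℝ := ∑' j : ℕ, W j * ((j : ℝ) + (S1 + 1)) ^ 3 with hS
  have hS0 : 0 ≤ S := tsum_nonneg fun j => mul_nonneg (hW0 j) (by positivity)
  have hSs : HasSum (fun j : ℕ => W j * ((j : ℝ) + (S1 + 1)) ^ 3) S := (hsumW _).hasSum
  have hS1s : HasSum (fun j : ℕ => W j * ((j : ℝ) + 1) ^ 3) S1 := (hsumW _).hasSum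
  obtain ⟨m1, hm1⟩ := llt_core (A := max 1 S) (B := 2 * S) (b := c * xa * (2 / Real.pi ^ 2))
    (le_max_left _ _) (by positivity) (by positivity)
  refine ⟨max m1 1, fun m hm k x hxa hxc hk => ?_⟩
  have hmm1 : m1 ≤ m := (le_max_left _ _).trans hm
  have hmp : 1 ≤ m := (le_max_right _ _).trans hm
  have hm0 : (0 : ℝ) < m := by exact_mod_cast hmp
  have hx0 : 0 < x := ha.trans_le hxa
  have hxl1 : x < 1 := hxc.trans_lt hx1
  have hxn : ‖(x : ℂ)‖ < 1 := by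
    rw [Complex.norm_real, Real.norm_eq_abs, abs_of_pos hx0]; exact hxl1
  set P : ℝ := (Φ x).re with hP
  have hPp : 0 < P := hp x hxa hxc
  have hPmin : p0 ≤ P := hpm x hxa hxc
  set μ : ℝ := k / m with hμ
  have hkμ : (k : ℝ) = m * μ := by rw [hμ]; field_simp
  have hμP : μ * P = x * (deriv Φ x).re := by
    rw [hkμ] at hk
    have : (m : ℝ) * (μ * P) = m * (x * (deriv Φ x).re) := by linarith
    exact mul_left_cancel₀ hm0.ne' this
  have hμ0 : 0 ≤ μ := by rw [hμ]; positivity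
  -- the weights
  set w : ℕ → ℝ := fun j => llt_tco Φ j * x ^ j / P with hw
  have hwW : ∀ j, |w j| ≤ W j := by
    intro j
    simp only [hw, hW]
    rw [abs_div, abs_mul, abs_of_pos hPp, abs_of_nonneg (by positivity : (0 : ℝ) ≤ x ^ j)]
    calc |llt_tco Φ j| * x ^ j / P ≤ (M / ρ ^ j) * xc ^ j / p0 := by
          have e1 := hM j
          have e2 : x ^ j ≤ xc ^ j := pow_le_pow_left₀ hx0.le hxc j
          gcongr
      _ = M / p0 * t ^ j := by
          have e3 : ρ ^ j ≠ 0 := (pow_pos hρ0 j).ne'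
          rw [ht, div_pow]
          field_simp
  have hs1 : HasSum w 1 := by
    have e1 := llt_tco_hasSum hd hr hxn
    have e2 := (Complex.reCLM.hasSum e1).div_const P
    rw [Complex.reCLM_apply, div_self hPp.ne'] at e2
    convert! e2 using 2 with j
    simp only [hw, Complex.reCLM_apply]
    rw [← Complex.ofReal_pow, ← Complex.ofReal_mul, Complex.ofReal_re]
  have hs2 : HasSum (fun j : ℕ => w j * j) μ := by
    have e1 := llt_tco_hasSum_deriv hd hr hxn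
    have e2 := (Complex.reCLM.hasSum e1).div_const P
    have e3 : Complex.reCLM ((x : ℂ) * deriv Φ x) / P = μ := by
      rw [Complex.reCLM_apply, Complex.re_ofReal_mul, ← hμP]
      field_simp
    rw [e3] at e2
    convert! e2 using 2 with j
    simp only [hw, Complex.reCLM_apply]
    rw [← Complex.ofReal_pow, ← Complex.ofReal_mul, Complex.ofReal_re]
    ring
  have hμS : μ ≤ S1 := by
    refine hasSum_le (fun j => ?_) hs2 hS1s
    have e1 := (abs_le.mp (hwW j)).2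
    have e2 : (j : ℝ) ≤ ((j : ℝ) + 1) ^ 3 := by
      have : (0 : ℝ) ≤ j := Nat.cast_nonneg j
      nlinarith [mul_nonneg this this, mul_nonneg (mul_nonneg this this) this]
    calc w j * j ≤ W j * j := mul_le_mul_of_nonneg_right e1 (Nat.cast_nonneg j)
      _ ≤ _ := mul_le_mul_of_nonneg_left e2 (hW0 j)
  have hjμ : ∀ j : ℕ, |(j : ℝ) - μ| ≤ (j : ℝ) + (S1 + 1) ∧ (1 : ℝ) ≤ (j : ℝ) + (S1 + 1) := by
    intro j
    have : (0 : ℝ) ≤ j := Nat.cast_nonneg j
    refine ⟨?_, by linarith⟩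
    rw [abs_le]; constructor <;> linarith
  have hs3 : HasSum (fun j : ℕ => w j * ((j : ℝ) - μ)) 0 := by
    have := hs2.sub (hs1.mul_right μ)
    rw [one_mul, sub_self] at this
    convert! this using 2 with j
    ring
  -- the function `q`
  set q : ℝ → ℂ := fun θ => Φ (x * llt_eph θ) * llt_eph (-(μ * θ)) / (P : ℂ) with hq
  have hPc : (P : ℂ) ≠ 0 := by exact_mod_cast hPp.ne'
  have hin : ∀ θ : ℝ, ‖(x : ℂ) * llt_eph θ‖ < 1 := by
    intro θ
    rw [norm_mul, llt_eph_norm, mul_one]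
    exact hxn
  have hqs : ∀ θ : ℝ, HasSum (fun j : ℕ => ((w j : ℝ) : ℂ) * llt_eph (((j : ℝ) - μ) * θ)) (q θ) := by
    intro θ
    have e1 := ((llt_tco_hasSum hd hr (hin θ)).mul_right (llt_eph (-(μ * θ)))).div_const (P : ℂ)
    convert! e1 using 2 with j
    have e2 : llt_eph (((j : ℝ) - μ) * θ) = llt_eph θ ^ j * llt_eph (-(μ * θ)) := by
      rw [llt_eph_pow, llt_eph_mul]; congr 1; ring
    rw [e2, mul_pow]
    simp only [hw]
    push_cast
    field_simp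
  have hqre : ∀ θ : ℝ, HasSum (fun j : ℕ => w j * Real.cos (((j : ℝ) - μ) * θ)) (q θ).re := by
    intro θ
    have e1 := Complex.reCLM.hasSum (hqs θ)
    convert! e1 using 2 with j
    rw [Complex.reCLM_apply, Complex.re_ofReal_mul, llt_eph_re]
  have hqim : ∀ θ : ℝ, HasSum (fun j : ℕ => w j * Real.sin (((j : ℝ) - μ) * θ)) (q θ).im := by
    intro θ
    have e1 := Complex.imCLM.hasSum (hqs θ)
    convert! e1 using 2 with j
    rw [Complex.imCLM_apply, Complex.im_ofReal_mul, llt_eph_im]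
  have hb1 : ∀ θ : ℝ, 0 ≤ θ → θ ≤ Real.pi →
      ‖q θ‖ ≤ Real.exp (-(c * xa * (2 / Real.pi ^ 2) * θ ^ 2)) := by
    intro θ h0 h1
    simp only [hq]
    rw [norm_div, norm_mul, llt_eph_norm, mul_one, Complex.norm_real, Real.norm_eq_abs,
      abs_of_pos hPp, div_le_iff₀ hPp]
    refine (hang x hxa hxc θ h0 h1).trans ?_
    rw [mul_comm]
    apply mul_le_mul_of_nonneg_right _ hPp.le
    have e1 := Real.cos_le_one_sub_mul_cos_sq (x := θ) (by rw [abs_of_nonneg h0]; exact h1)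
    have e2 : c * xa * (2 / Real.pi ^ 2) * θ ^ 2 ≤ c * x * (1 - Real.cos θ) := by
      calc c * xa * (2 / Real.pi ^ 2) * θ ^ 2 = (c * xa) * (2 / Real.pi ^ 2 * θ ^ 2) := by ring
        _ ≤ (c * x) * (2 / Real.pi ^ 2 * θ ^ 2) := by gcongr
        _ ≤ (c * x) * (1 - Real.cos θ) := by
            apply mul_le_mul_of_nonneg_left _ (by positivity)
            linarith
    have e3 := Real.add_one_le_exp (-(c * xa * (2 / Real.pi ^ 2) * θ ^ 2))
    linarith
  have hb2 : ∀ θ : ℝ, 0 ≤ θ → θ ≤ Real.pi → 1 - max 1 S * θ ^ 2 ≤ (q θ).re := by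
    intro θ h0 h1
    have e1 : HasSum (fun j : ℕ => w j * (1 - Real.cos (((j : ℝ) - μ) * θ))) (1 - (q θ).re) := by
      have := hs1.sub (hqre θ)
      convert! this using 2 with j
      ring
    have e2 : 1 - (q θ).re ≤ S * θ ^ 2 := by
      refine hasSum_le (fun j => ?_) e1 (hSs.mul_right (θ ^ 2))
      have f1 := (abs_le.mp (hwW j)).2
      have f2 := Real.one_sub_sq_div_two_le_cos (x := ((j : ℝ) - μ) * θ)
      have f3 : 0 ≤ 1 - Real.cos (((j : ℝ) - μ) * θ) := by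
        have := Real.cos_le_one (((j : ℝ) - μ) * θ); linarith
      obtain ⟨f4, f5⟩ := hjμ j
      have f6 : ((j : ℝ) - μ) ^ 2 ≤ ((j : ℝ) + (S1 + 1)) ^ 3 := by
        calc ((j : ℝ) - μ) ^ 2 = |(j : ℝ) - μ| ^ 2 := (sq_abs _).symm
          _ ≤ ((j : ℝ) + (S1 + 1)) ^ 2 := pow_le_pow_left₀ (abs_nonneg _) f4 2
          _ ≤ ((j : ℝ) + (S1 + 1)) ^ 3 := pow_le_pow_right₀ f5 (by norm_num)
      calc w j * (1 - Real.cos (((j : ℝ) - μ) * θ)) ≤ W j * (1 - Real.cos (((j : ℝ) - μ) * θ)) :=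
            mul_le_mul_of_nonneg_right f1 f3
        _ ≤ W j * (((j : ℝ) - μ) ^ 2 * θ ^ 2) := by
            apply mul_le_mul_of_nonneg_left _ (hW0 j)
            have : 0 ≤ (((j : ℝ) - μ) * θ) ^ 2 := sq_nonneg _
            nlinarith
        _ ≤ W j * (((j : ℝ) + (S1 + 1)) ^ 3 * θ ^ 2) := by
            apply mul_le_mul_of_nonneg_left _ (hW0 j)
            exact mul_le_mul_of_nonneg_right f6 (sq_nonneg _)
        _ = _ := by ring
    have e3 : S * θ ^ 2 ≤ max 1 S * θ ^ 2 :=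
      mul_le_mul_of_nonneg_right (le_max_right _ _) (sq_nonneg _)
    linarith
  have hb3 : ∀ θ : ℝ, 0 ≤ θ → θ ≤ Real.pi → |(q θ).im| ≤ 2 * S * θ ^ 3 := by
    intro θ h0 h1
    have e1 : HasSum (fun j : ℕ => w j * (Real.sin (((j : ℝ) - μ) * θ) - ((j : ℝ) - μ) * θ))
        (q θ).im := by
      have := (hqim θ).sub (hs3.mul_right θ)
      rw [zero_mul, sub_zero] at this
      convert! this using 2 with j
      ring
    have hterm : ∀ j : ℕ, |w j * (Real.sin (((j : ℝ) - μ) * θ) - ((j : ℝ) - μ) * θ)| ≤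
        W j * ((j : ℝ) + (S1 + 1)) ^ 3 * (2 * θ ^ 3) := by
      intro j
      obtain ⟨f4, f5⟩ := hjμ j
      rw [abs_mul]
      have f1 := llt_sin (((j : ℝ) - μ) * θ)
      rw [abs_mul, abs_of_nonneg h0, mul_pow] at f1
      have f2 : |(j : ℝ) - μ| ^ 3 ≤ ((j : ℝ) + (S1 + 1)) ^ 3 :=
        pow_le_pow_left₀ (abs_nonneg _) f4 3
      have f3 : 2 * (|(j : ℝ) - μ| ^ 3 * θ ^ 3) ≤ ((j : ℝ) + (S1 + 1)) ^ 3 * (2 * θ ^ 3) := by
        have : 0 ≤ θ ^ 3 := by positivity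
        nlinarith
      calc |w j| * |Real.sin (((j : ℝ) - μ) * θ) - ((j : ℝ) - μ) * θ|
          ≤ W j * (((j : ℝ) + (S1 + 1)) ^ 3 * (2 * θ ^ 3)) :=
            mul_le_mul (hwW j) (f1.trans f3) (abs_nonneg _) (hW0 j)
        _ = _ := by ring
    have e2 := hSs.mul_right (2 * θ ^ 3)
    have e3 : (q θ).im ≤ S * (2 * θ ^ 3) :=
      hasSum_le (fun j => (abs_le.mp (hterm j)).2) e1 e2
    have e4 : -(S * (2 * θ ^ 3)) ≤ (q θ).im := by
      refine hasSum_le (fun j => ?_) e2.neg e1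
      exact (abs_le.mp (hterm j)).1
    rw [abs_le]
    constructor <;> linarith
  have hqc : Continuous q := by
    simp only [hq]
    apply Continuous.div_const
    apply Continuous.mul
    · have : Continuous fun θ : ℝ => (x : ℂ) * llt_eph θ := continuous_const.mul llt_eph_cont
      apply hd.continuousOn.comp_continuous this
      intro θ
      rw [mem_ball_zero_iff]
      exact hin θ
    · exact llt_eph_cont.comp (by fun_prop)
  have hI := hm1 m hmm1 q hqc hb1 hb2 hb3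
  -- the coefficient
  have hdm : DifferentiableOn ℂ (fun z => Φ z ^ m) (ball 0 1) := hd.pow m
  have hrm : ∀ z : ℂ, ‖z‖ < 1 → (fun z => Φ z ^ m) (starRingEnd ℂ z) =
      starRingEnd ℂ ((fun z => Φ z ^ m) z) := by
    intro z hz
    simp only
    rw [hr z hz, map_pow]
  have hco := llt_tco_integral hdm hrm hx0 hxl1 k
  have heq : ∫ θ in (0 : ℝ)..Real.pi,
      ((fun z => Φ z ^ m) (x * llt_eph θ) * llt_eph (-(k * θ))).re =
      P ^ m * ∫ θ in (0 : ℝ)..Real.pi, (q θ ^ m).re := by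
    rw [← intervalIntegral.integral_const_mul]
    apply intervalIntegral.integral_congr
    intro θ _
    simp only [hq]
    have e1 : llt_eph (-(k * θ)) = llt_eph (-(μ * θ)) ^ m := by
      rw [llt_eph_pow]; congr 1; rw [hkμ]; ring
    rw [e1, div_pow, mul_pow]
    have e2 : Φ (↑x * llt_eph θ) ^ m * llt_eph (-(μ * θ)) ^ m =
        ((P ^ m : ℝ) : ℂ) * (Φ (↑x * llt_eph θ) ^ m * llt_eph (-(μ * θ)) ^ m / (P : ℂ) ^ m) := by
      push_cast
      field_simp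
    rw [e2, Complex.re_ofReal_mul]
    congr 2
    push_cast
    field_simp
  rw [heq] at hco
  have h1 : 0 < llt_tco (fun z => Φ z ^ m) k * x ^ k * Real.pi := by
    rw [hco]; positivity
  have h2 : 0 < x ^ k * Real.pi := by positivity
  rw [mul_assoc] at h1
  exact (mul_pos_iff_of_pos_right h2).mp h1

/-- **LOCAL LIMIT LEMMA** for the powers of one fixed function -/
theorem llt_fix {Φ : ℂ → ℂ} {c xc K : ℝ} (hd : DifferentiableOn ℂ Φ (ball 0 1))
    (hr : ∀ z : ℂ, ‖z‖ < 1 → Φ (starRingEnd ℂ z) = starRingEnd ℂ (Φ z)) (hc : 0 < c)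
    (hx0 : 0 < xc) (hx1 : xc < 1) (hp : ∀ x : ℝ, 0 ≤ x → x ≤ xc → 0 < (Φ x).re)
    (hs : 0 < (deriv Φ 0).re)
    (hang : ∀ x : ℝ, 0 < x → x ≤ xc → ∀ θ : ℝ, 0 ≤ θ → θ ≤ Real.pi →
      ‖Φ (x * llt_eph θ)‖ ≤ (Φ x).re * (1 - c * x * (1 - Real.cos θ)))
    (hK : K * (Φ xc).re < xc * (deriv Φ xc).re) :
    ∃ m0 : ℕ, ∀ m ≥ m0, ∀ k : ℕ, (k : ℝ) ≤ K * m → 0 < llt_tco (fun z => Φ z ^ m) k := by
  have hP0 : 0 < (Φ 0).re := by simpa using hp 0 le_rfl hx0.le
  obtain ⟨κ, hκ, hlow⟩ := llt_low hd hr hP0 hs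
  -- `f x = x Re Φ' x / Re Φ x`
  set f : ℝ → ℝ := fun x => x * (deriv Φ x).re / (Φ x).re with hf
  have hin : ∀ x : ℝ, x ∈ Set.Icc (0 : ℝ) xc → (x : ℂ) ∈ ball (0 : ℂ) 1 := by
    intro x hx
    rw [mem_ball_zero_iff, Complex.norm_real, Real.norm_eq_abs, abs_of_nonneg hx.1]
    exact hx.2.trans_lt hx1
  have hcΦ : ContinuousOn (fun x : ℝ => (Φ x).re) (Set.Icc 0 xc) :=
    Complex.continuous_re.comp_continuousOn
      (hd.continuousOn.comp Complex.continuous_ofReal.continuousOn hin)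
  have hcd : ContinuousOn (fun x : ℝ => (deriv Φ x).re) (Set.Icc 0 xc) :=
    Complex.continuous_re.comp_continuousOn
      ((hd.deriv isOpen_ball).continuousOn.comp Complex.continuous_ofReal.continuousOn hin)
  have hcr : ContinuousOn (fun x : ℝ => (deriv Φ x).re / (Φ x).re) (Set.Icc 0 xc) :=
    hcd.div hcΦ fun x hx => (hp x hx.1 hx.2).ne'
  have hcf : ContinuousOn f (Set.Icc 0 xc) := by
    have := (continuous_id.continuousOn (s := Set.Icc (0 : ℝ) xc)).mul hcr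
    refine this.congr fun x _ => ?_
    show x * (deriv Φ x).re / (Φ x).re = x * ((deriv Φ x).re / (Φ x).re)
    ring
  obtain ⟨B, hB⟩ := isCompact_Icc.exists_bound_of_continuousOn hcr
  have hB0 : 0 ≤ B := (norm_nonneg _).trans (hB 0 ⟨le_rfl, hx0.le⟩)
  set xa : ℝ := min xc (κ / (B + 1)) with hxa
  have hxa0 : 0 < xa := lt_min hx0 (by positivity)
  obtain ⟨m1, hmid⟩ := llt_mid (c := c) (xa := xa) (xc := xc) hd hr hc hxa0 (min_le_left _ _) hx1
    (fun x h1 h2 => hp x (hxa0.le.trans h1) h2)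
    (fun x h1 h2 => hang x (hxa0.trans_le h1) h2)
  refine ⟨max m1 1, fun m hm k hk => ?_⟩
  have hm1 : m1 ≤ m := (le_max_left _ _).trans hm
  have hmp : 1 ≤ m := (le_max_right _ _).trans hm
  have hm0 : (0 : ℝ) < m := by exact_mod_cast hmp
  rcases le_or_gt (k : ℝ) (κ * m) with hkκ | hkκ
  · exact hlow m hmp k hkκ
  · have hPc : 0 < (Φ xc).re := hp xc hx0.le le_rfl
    have hfc : K < f xc := by
      simp only [hf]
      rw [lt_div_iff₀ hPc]
      exact hK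
    have hf0 : f 0 = 0 := by simp [hf]
    set μ : ℝ := k / m with hμ
    have hkμ : (k : ℝ) = m * μ := by rw [hμ]; field_simp
    have hμK : μ ≤ K := by rw [hμ, div_le_iff₀ hm0]; exact hk
    have hμκ : κ < μ := by rw [hμ, lt_div_iff₀ hm0]; exact hkκ
    have hμ0 : 0 ≤ μ := hκ.le.trans hμκ.le
    obtain ⟨x, hx, hfx⟩ := intermediate_value_Icc hx0.le hcf
      (show μ ∈ Set.Icc (f 0) (f xc) by rw [hf0]; exact ⟨hμ0, hμK.trans hfc.le⟩)
    have hPx : 0 < (Φ x).re := hp x hx.1 hx.2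
    have hxax : xa ≤ x := by
      refine (min_le_right _ _).trans ?_
      rw [div_le_iff₀ (by positivity)]
      have e1 := hB x hx
      rw [Real.norm_eq_abs] at e1
      have e2 : f x = x * ((deriv Φ x).re / (Φ x).re) := by simp only [hf]; ring
      have e3 : f x ≤ x * B := by
        rw [e2]
        exact mul_le_mul_of_nonneg_left ((le_abs_self _).trans e1) hx.1
      have e4 := hx.1
      nlinarith
    apply hmid m hm1 k x hxax hx.2
    rw [hkμ, ← hfx]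
    simp only [hf]
    field_simp

end Pool.Agent.Lib.MP_0430e4_lc.AC
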