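import Pool.Agent.Lib.MP_0430e4_lc.BY.LowPos

/-!
# Positive mixture lemma (ALLCODES, Y2; helper71's Y_SIMPLE71 section 2)

`S` holomorphic on `|z| < r0`, real on the reals, `S 0 = 0`, `|S| ≤ A`. For `w ≤ (1/2 - ξ) n`,
`0 ≤ ε ≤ ε0`, `k ≤ κ n` the `k`-th Taylor coefficient of
`(1+z)^(n-w) (1-z)^w exp (n ε S z)` is a positive real number (`κ`, `ε0` depend on `ξ, r0, A` only).
-/

set_option autoImplicit false

open Finset Metric

namespace Pool.Agent.Lib.MP_0430e4_lc.AC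

open BY

theorem ymix_iter_mul (c : ℂ) (f : ℂ → ℂ) (k : ℕ) :
    iteratedDeriv k (fun z => f (c * z)) = fun z => c ^ k * iteratedDeriv k f (c * z) := by
  induction k with
  | zero => simp [iteratedDeriv_zero]
  | succ k ih =>
    rw [iteratedDeriv_succ, ih, iteratedDeriv_succ]
    funext z
    rw [deriv_const_mul_field]
    have h := deriv_comp_mul_left c (iteratedDeriv k f) z
    rw [h, smul_eq_mul, pow_succ]
    ring

theorem ymix_iter_conj (f : ℂ → ℂ) (k : ℕ) :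
    iteratedDeriv k (starRingEnd ℂ ∘ f ∘ starRingEnd ℂ) =
      starRingEnd ℂ ∘ iteratedDeriv k f ∘ starRingEnd ℂ := by
  induction k with
  | zero => simp [iteratedDeriv_zero]
  | succ k ih => rw [iteratedDeriv_succ, ih, deriv_conj_conj, iteratedDeriv_succ]

/-- the Taylor coefficients of a function which is real on the reals are real -/
theorem ymix_real {f : ℂ → ℂ} {R : ℝ} (hR : 0 < R)
    (hc : ∀ z : ℂ, ‖z‖ < R → f (starRingEnd ℂ z) = starRingEnd ℂ (f z)) (k : ℕ) :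
    ((iteratedDeriv k f 0).re : ℂ) = iteratedDeriv k f 0 := by
  have h1 : (starRingEnd ℂ ∘ f ∘ starRingEnd ℂ) =ᶠ[nhds 0] f := by
    filter_upwards [ball_mem_nhds (0 : ℂ) hR] with z hz
    rw [mem_ball_zero_iff] at hz
    simp only [Function.comp_apply]
    rw [hc z hz, Complex.conj_conj]
  have h2 := h1.iteratedDeriv_eq k
  rw [ymix_iter_conj] at h2
  simp only [Function.comp_apply, map_zero] at h2
  exact Complex.conj_eq_iff_re.mp h2

private theorem ymix_geom (j : ℕ) : (j : ℝ) ≤ (3 / 2) ^ j := by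
  rcases Nat.lt_or_ge j 2 with h | h
  · interval_cases j <;> norm_num
  · induction j, h using Nat.le_induction with
    | base => norm_num
    | succ j hj ih =>
      have h2 : (2 : ℝ) ≤ j := by exact_mod_cast hj
      rw [pow_succ]
      push_cast
      nlinarith

/-- **uniform positivity of the low coefficients of `exp (n ψ)`**: only `ψ' (0) ≥ s0` and a bound of
`ψ` on the disc of radius 2 matter. -/
theorem ymix_exp {ψ : ℂ → ℂ} {M s0 : ℝ} (hs0 : 0 < s0) (hψ : DifferentiableOn ℂ ψ (ball 0 2))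
    (hc : ∀ z : ℂ, ‖z‖ < 2 → ψ (starRingEnd ℂ z) = starRingEnd ℂ (ψ z)) (h0 : ψ 0 = 0)
    (hM : ∀ z : ℂ, ‖z‖ < 2 → ‖ψ z‖ ≤ M) (hd : s0 ≤ (deriv ψ 0).re) {n : ℝ} (hn : 0 < n) (k : ℕ)
    (hk : (k : ℝ) ≤ s0 ^ 2 / (4 * M + 2 * s0) * n) :
    ∃ r : ℝ, 0 < r ∧
      iteratedDeriv k (fun z => Complex.exp ((n : ℂ) * ψ z)) 0 = (k.factorial : ℂ) * (r : ℂ) := by
  have hM0 : 0 ≤ M := by
    have := hM 0 (by simp)
    exact (norm_nonneg _).trans this
  set s : ℝ := (deriv ψ 0).re with hs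
  set γ : ℕ → ℝ := fun j => (j : ℝ) * ((iteratedDeriv j ψ 0).re / (j.factorial : ℝ)) with hγ
  have hreal := ymix_real (f := ψ) two_pos hc
  have hγ1 : γ 1 = s := by simp [hγ, iteratedDeriv_one, hs]
  have hbd : ∀ j : ℕ, |γ j| ≤ M := by
    intro j
    have hdc : DiffContOnCl ℂ ψ (ball 0 (3 / 2)) := by
      apply DifferentiableOn.diffContOnCl
      rw [closure_ball _ (by norm_num)]
      exact hψ.mono (closedBall_subset_ball (by norm_num))
    have h1 := Complex.norm_iteratedDeriv_le_of_forall_mem_sphere_norm_le j (R := 3 / 2) (by norm_num) hdc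
      (C := M) (fun z hz => hM z (by
        rw [mem_sphere_zero_iff_norm] at hz
        rw [hz]; norm_num))
    have h2 : |(iteratedDeriv j ψ 0).re| ≤ ‖iteratedDeriv j ψ 0‖ := Complex.abs_re_le_norm _
    have hf : (0 : ℝ) < j.factorial := by exact_mod_cast Nat.factorial_pos j
    have h3 : |γ j| = j * (|(iteratedDeriv j ψ 0).re| / j.factorial) := by
      rw [hγ, abs_mul, abs_div, abs_of_pos hf, Nat.abs_cast]
    have h4 : |(iteratedDeriv j ψ 0).re| / j.factorial ≤ M / (3 / 2) ^ j := by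
      rw [div_le_div_iff₀ hf (by positivity)]
      have h5 := h2.trans h1
      rw [le_div_iff₀ (by positivity)] at h5
      linarith
    rw [h3]
    calc (j : ℝ) * (|(iteratedDeriv j ψ 0).re| / j.factorial) ≤ (3 / 2) ^ j * (M / (3 / 2) ^ j) :=
          mul_le_mul (ymix_geom j) h4 (by positivity) (by positivity)
      _ = M := by field_simp
  have hss : s0 ≤ s := hd
  have hspos : 0 < s := lt_of_lt_of_le hs0 hss
  have hden : 0 < 4 * M + 2 * s0 := by positivity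
  have hκ : s0 ^ 2 / (4 * M + 2 * s0) * (4 * M + 2 * s) ≤ s ^ 2 := by
    rw [div_mul_eq_mul_div, div_le_iff₀ hden]
    have e1 : s0 ^ 2 ≤ s ^ 2 := pow_le_pow_left₀ hs0.le hss 2
    have e2 : s0 ^ 2 * s ≤ s ^ 2 * s0 := by nlinarith [mul_pos hs0 hspos]
    nlinarith [mul_le_mul_of_nonneg_right e1 hM0]
  refine exp_low_pos (ψ := ψ) (R := 2) two_pos hψ h0 (s := s) (G := M)
    (κ := s0 ^ 2 / (4 * M + 2 * s0)) hspos hM0 (by positivity) hκ γ hγ1 (fun j _ => hbd j) ?_ hn k hk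
  intro j
  have h1 := hreal (j + 1)
  rw [← h1]
  simp only [hγ]
  rw [Nat.factorial_succ]
  have hj : ((j : ℝ) + 1) ≠ 0 := by positivity
  have hj' : ((j : ℂ) + 1) ≠ 0 := by exact_mod_cast hj
  have hjf : ((j.factorial : ℕ) : ℂ) ≠ 0 := by exact_mod_cast Nat.factorial_ne_zero j
  push_cast
  field_simp

private theorem ymix_log {z : ℂ} (hz : ‖z‖ ≤ 1 / 2) : ‖Complex.log (1 + z)‖ ≤ 1 := by
  have h1 := Complex.norm_log_one_add_half_le_self hz
  linarith

/-- **POSITIVE MIXTURE LEMMA** -/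
theorem mix_pos {S : ℂ → ℂ} {r0 A ξ : ℝ} (hr0 : 0 < r0) (hr1 : r0 ≤ 1)
    (hS : DifferentiableOn ℂ S (ball 0 r0))
    (hc : ∀ z : ℂ, ‖z‖ < r0 → S (starRingEnd ℂ z) = starRingEnd ℂ (S z)) (h0 : S 0 = 0)
    (hA : ∀ z : ℂ, ‖z‖ < r0 → ‖S z‖ ≤ A) (hξ : 0 < ξ) :
    ∃ κ : ℝ, 0 < κ ∧ ∃ ε0 : ℝ, 0 < ε0 ∧ ∀ ε : ℝ, 0 ≤ ε → ε ≤ ε0 → ∀ n w k : ℕ, 1 ≤ n →
      (w : ℝ) ≤ (1 / 2 - ξ) * n → (k : ℝ) ≤ κ * n → ∃ r : ℝ, 0 < r ∧
        iteratedDeriv k (fun z : ℂ => (1 + z) ^ (n - w) * (1 - z) ^ w *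
          Complex.exp ((n : ℂ) * ((ε : ℂ) * S z))) 0 = (k.factorial : ℂ) * (r : ℂ) := by
  have hA0 : 0 ≤ A := (norm_nonneg _).trans (hA 0 (by simpa using hr0))
  have hS0 : DifferentiableAt ℂ S 0 := hS.differentiableAt (ball_mem_nhds 0 hr0)
  set D : ℝ := ‖deriv S 0‖ with hD
  set r1 : ℝ := r0 / 4 with hr1'
  have hr1p : 0 < r1 := by positivity
  set M : ℝ := 2 + A with hMd
  refine ⟨(r1 * ξ) ^ 2 / (4 * M + 2 * (r1 * ξ)), by positivity, min 1 (ξ / (D + 1)),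
    lt_min one_pos (by positivity), ?_⟩
  intro ε hε0 hε1 n w k hn hw hk
  have hε1' : ε ≤ 1 := hε1.trans (min_le_left _ _)
  have hεD : ε * D ≤ ξ := by
    have h1 : ε ≤ ξ / (D + 1) := hε1.trans (min_le_right _ _)
    have hD0 : 0 ≤ D := norm_nonneg _
    calc ε * D ≤ ξ / (D + 1) * (D + 1) := mul_le_mul h1 (by linarith) hD0 (by positivity)
      _ = ξ := by field_simp
  have hn0 : (0 : ℝ) < n := by exact_mod_cast hn
  have hnc : (n : ℂ) ≠ 0 := by exact_mod_cast hn0.ne'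
  set om : ℝ := (w : ℝ) / n with hom
  have hom0 : 0 ≤ om := by positivity
  have homξ : om ≤ 1 / 2 - ξ := by rw [hom, div_le_iff₀ hn0]; exact hw
  have hwn : w ≤ n := by
    have h1 : (w : ℝ) ≤ n := by
      refine hw.trans ?_
      nlinarith
    exact_mod_cast h1
  have hwom : (w : ℂ) = (n : ℂ) * (om : ℂ) := by rw [hom]; push_cast; field_simp
  have hnw : ((n - w : ℕ) : ℂ) = (n : ℂ) * ((1 - om : ℝ) : ℂ) := by
    rw [Nat.cast_sub hwn, hwom]; push_cast; ring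
  set ψ : ℂ → ℂ := fun z => ((1 - om : ℝ) : ℂ) * Complex.log (1 + (r1 : ℂ) * z) +
    (om : ℂ) * Complex.log (1 + -((r1 : ℂ) * z)) + (ε : ℂ) * S ((r1 : ℂ) * z) with hψ
  have hsm : ∀ z : ℂ, ‖z‖ < 2 → ‖(r1 : ℂ) * z‖ < r0 / 2 := by
    intro z hz
    rw [norm_mul, Complex.norm_real, Real.norm_of_nonneg hr1p.le, hr1']
    nlinarith
  have hsm2 : ∀ z : ℂ, ‖z‖ < 2 → ‖(r1 : ℂ) * z‖ ≤ 1 / 2 := fun z hz => by
    have := hsm z hz
    linarith
  have hsl : ∀ x : ℂ, ‖x‖ ≤ 1 / 2 → 1 + x ∈ Complex.slitPlane := by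
    intro x hx
    apply Complex.mem_slitPlane_of_norm_lt_one
    linarith
  have hdiff : DifferentiableOn ℂ ψ (ball 0 2) := by
    intro z hz
    rw [mem_ball_zero_iff] at hz
    have hS1 : DifferentiableAt ℂ S ((r1 : ℂ) * z) := by
      apply hS.differentiableAt
      apply isOpen_ball.mem_nhds
      rw [mem_ball_zero_iff]
      have := hsm z hz
      linarith
    have hl1 : DifferentiableAt ℂ (fun z : ℂ => Complex.log (1 + (r1 : ℂ) * z)) z := by
      apply DifferentiableAt.clog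
      · fun_prop
      · exact hsl _ (hsm2 z hz)
    have hl2 : DifferentiableAt ℂ (fun z : ℂ => Complex.log (1 + -((r1 : ℂ) * z))) z := by
      apply DifferentiableAt.clog
      · fun_prop
      · exact hsl _ (by rw [norm_neg]; exact hsm2 z hz)
    have hl3 : DifferentiableAt ℂ (fun z : ℂ => S ((r1 : ℂ) * z)) z := by
      have h2 : DifferentiableAt ℂ (fun z : ℂ => (r1 : ℂ) * z) z := by fun_prop
      exact DifferentiableAt.comp z hS1 h2
    exact (((hl1.const_mul _).add (hl2.const_mul _)).add (hl3.const_mul _)).differentiableWithinAt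
  have hlc : ∀ x : ℂ, ‖x‖ ≤ 1 / 2 → Complex.log (1 + starRingEnd ℂ x) =
      starRingEnd ℂ (Complex.log (1 + x)) := by
    intro x hx
    rw [← Complex.log_conj _ (Complex.slitPlane_arg_ne_pi (hsl x hx)), map_add, map_one]
  have hconj : ∀ z : ℂ, ‖z‖ < 2 → ψ (starRingEnd ℂ z) = starRingEnd ℂ (ψ z) := by
    intro z hz
    have e0 : (r1 : ℂ) * starRingEnd ℂ z = starRingEnd ℂ ((r1 : ℂ) * z) := by
      rw [map_mul, Complex.conj_ofReal]
    simp only [hψ]
    rw [e0, ← map_neg (starRingEnd ℂ), hlc _ (hsm2 z hz), hlc _ (by rw [norm_neg]; exact hsm2 z hz),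
      hc _ (by have := hsm z hz; linarith)]
    simp only [map_add, map_mul, Complex.conj_ofReal]
  have hψ0 : ψ 0 = 0 := by simp [hψ, h0]
  have hbd : ∀ z : ℂ, ‖z‖ < 2 → ‖ψ z‖ ≤ M := by
    intro z hz
    have h1 := ymix_log (hsm2 z hz)
    have h2 := ymix_log (z := -((r1 : ℂ) * z)) (by rw [norm_neg]; exact hsm2 z hz)
    have h3 := hA ((r1 : ℂ) * z) (by have := hsm z hz; linarith)
    have ha : ‖((1 - om : ℝ) : ℂ)‖ ≤ 1 := by
      rw [Complex.norm_real, Real.norm_of_nonneg (by linarith)]; linarith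
    have hb : ‖((om : ℝ) : ℂ)‖ ≤ 1 := by
      rw [Complex.norm_real, Real.norm_of_nonneg hom0]; linarith
    have hce : ‖((ε : ℝ) : ℂ)‖ ≤ 1 := by
      rw [Complex.norm_real, Real.norm_of_nonneg hε0]; exact hε1'
    calc ‖ψ z‖ ≤ ‖((1 - om : ℝ) : ℂ) * Complex.log (1 + (r1 : ℂ) * z)‖ +
          ‖(om : ℂ) * Complex.log (1 + -((r1 : ℂ) * z))‖ + ‖(ε : ℂ) * S ((r1 : ℂ) * z)‖ :=
          norm_add₃_le
      _ ≤ 1 * 1 + 1 * 1 + 1 * A := by
          rw [norm_mul, norm_mul, norm_mul]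
          exact add_le_add (add_le_add (mul_le_mul ha h1 (norm_nonneg _) zero_le_one)
            (mul_le_mul hb h2 (norm_nonneg _) zero_le_one)) (mul_le_mul hce h3 (norm_nonneg _) zero_le_one)
      _ = M := by rw [hMd]; ring
  have hder : HasDerivAt ψ (((1 - om : ℝ) : ℂ) * (r1 : ℂ) + (om : ℂ) * (-(r1 : ℂ)) +
      (ε : ℂ) * (deriv S 0 * (r1 : ℂ))) 0 := by
    have hm : HasDerivAt (fun z : ℂ => (r1 : ℂ) * z) (r1 : ℂ) 0 := by
      simpa using (hasDerivAt_id (0 : ℂ)).const_mul (r1 : ℂ)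
    have hl1 : HasDerivAt (fun z : ℂ => Complex.log (1 + (r1 : ℂ) * z)) (r1 : ℂ) 0 := by
      have h1 := (hm.const_add 1).clog (by simp)
      simpa using h1
    have hl2 : HasDerivAt (fun z : ℂ => Complex.log (1 + -((r1 : ℂ) * z))) (-(r1 : ℂ)) 0 := by
      have h1 := (hm.neg.const_add 1).clog (by simp)
      simpa using h1
    have hl3 : HasDerivAt (fun z : ℂ => S ((r1 : ℂ) * z)) (deriv S 0 * (r1 : ℂ)) 0 := by
      have h1 : HasDerivAt S (deriv S 0) ((r1 : ℂ) * 0) := by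
        rw [mul_zero]; exact hS0.hasDerivAt
      exact h1.comp 0 hm
    exact ((hl1.const_mul _).add (hl2.const_mul _)).add (hl3.const_mul _)
  have hd : r1 * ξ ≤ (deriv ψ 0).re := by
    rw [hder.deriv]
    have h1 : (((1 - om : ℝ) : ℂ) * (r1 : ℂ) + (om : ℂ) * (-(r1 : ℂ)) +
      (ε : ℂ) * (deriv S 0 * (r1 : ℂ))).re = r1 * ((1 - 2 * om) + ε * (deriv S 0).re) := by
      simp only [Complex.add_re, Complex.mul_re, Complex.ofReal_re, Complex.ofReal_im, Complex.neg_re,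
        Complex.neg_im, Complex.mul_im]
      ring
    rw [h1]
    apply mul_le_mul_of_nonneg_left _ hr1p.le
    have h2 : -D ≤ (deriv S 0).re := by
      have := Complex.abs_re_le_norm (deriv S 0)
      exact (abs_le.mp this).1
    have h3 : -(ε * D) ≤ ε * (deriv S 0).re := by nlinarith
    linarith
  obtain ⟨r, hr, hre⟩ := ymix_exp (ψ := ψ) (M := M) (s0 := r1 * ξ) (by positivity) hdiff hconj hψ0
    hbd hd hn0 k hk
  -- compare
  set f : ℂ → ℂ := fun z : ℂ => (1 + z) ^ (n - w) * (1 - z) ^ w *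
          Complex.exp ((n : ℂ) * ((ε : ℂ) * S z)) with hf
  have hloc : (fun z => Complex.exp (((n : ℝ) : ℂ) * ψ z)) =ᶠ[nhds 0] fun z => f ((r1 : ℂ) * z) := by
    filter_upwards [ball_mem_nhds (0 : ℂ) (two_pos : (0 : ℝ) < 2)] with z hz
    rw [mem_ball_zero_iff] at hz
    have h1 : (1 : ℂ) + (r1 : ℂ) * z ≠ 0 := Complex.slitPlane_ne_zero (hsl _ (hsm2 z hz))
    have h2 : (1 : ℂ) + -((r1 : ℂ) * z) ≠ 0 :=
      Complex.slitPlane_ne_zero (hsl _ (by rw [norm_neg]; exact hsm2 z hz))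
    have e1 : (1 + (r1 : ℂ) * z) ^ (n - w) =
        Complex.exp (((n - w : ℕ) : ℂ) * Complex.log (1 + (r1 : ℂ) * z)) := by
      rw [Complex.exp_nat_mul, Complex.exp_log h1]
    have e2 : (1 - (r1 : ℂ) * z) ^ w =
        Complex.exp ((w : ℂ) * Complex.log (1 + -((r1 : ℂ) * z))) := by
      rw [Complex.exp_nat_mul, Complex.exp_log h2, sub_eq_add_neg]
    simp only [hf]
    rw [e1, e2, ← Complex.exp_add, ← Complex.exp_add, hnw, hwom]
    congr 1
    simp only [hψ]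
    push_cast
    ring
  have hiter := hloc.iteratedDeriv_eq k
  rw [ymix_iter_mul, hre] at hiter
  simp only [mul_zero] at hiter
  have hr1k : ((r1 : ℂ)) ^ k ≠ 0 := pow_ne_zero _ (by exact_mod_cast hr1p.ne')
  refine ⟨r / r1 ^ k, by positivity, ?_⟩
  have h3 : iteratedDeriv k f 0 = (k.factorial : ℂ) * (r : ℂ) / (r1 : ℂ) ^ k := by
    rw [eq_div_iff hr1k, hiter]
    ring
  rw [h3]
  push_cast
  ring

end Pool.Agent.Lib.MP_0430e4_lc.AC
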