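import Pool.Agent.Lib.MP_0430e4_lc.LPLOW.ContII
import Pool.Agent.Lib.MP_0430e4_lc.AC.IqB

/-!
Project ALLCODES, part Y2 (helper72): the slope of the majorant of branch II on the circle `|w| = 1`
near the point `w = i`.

With `κ⋆ = (1 - SS(iπ/2)) / 4` the derivative of `Re VV` at `i t` is
`(1/2) O(t) (1 - E(t)/O(0))`, that of `Re Lam` is `O(t)`; at `t = π/2` the quotient is
`(1 - AZ (2 η)) / 2`.
-/

set_option autoImplicit false

open Complex Filter Topology Set

namespace Pool.Agent.Lib.MP_0430e4_lc.AC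

open LPLOW LPLOW.BII

/-- `SS(iπ/2)`, real part -/
noncomputable def kst (η : ℝ) : ℝ := (1 - (S (cS η) (I * (Real.pi / 2))).re) / 4

/-- `O(0) = SZ (2η)` -/
theorem O_zero_eq (η : ℝ) : (S (cO η) 0).re = Iq.SZ (2 * η) := by
  rw [Pos.cO_reindex, mul_zero, S_zero, Complex.ofReal_re]
  rfl

/-- `E(iπ/2) = BZ (2η)` -/
theorem E_half_pi (η : ℝ) : S (cE η) (I * (Real.pi / 2)) = ((Iq.BZ (2 * η) : ℝ) : ℂ) := by
  have h0 : S (cE η) (I * (Real.pi / 2)) =
      S (fun M => Pos.hx (2 * η) M ^ 2) (2 * (I * (Real.pi / 2))) := by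
    apply Pos.S_even
    · intro k hk
      unfold cE
      rw [if_neg (Int.not_even_iff_odd.2 hk)]
    · intro M
      unfold cE Pos.hx
      rw [if_pos ⟨M, by ring⟩]
      congr 2
      push_cast
      ring
  have h1 : 2 * (I * ((Real.pi : ℂ) / 2)) = 0 + Real.pi * I := by ring
  rw [h0, h1, Pos.S_add_pi, S_zero]
  rfl

/-- the slope near the end of the arc: box version -/
theorem slope_box {η : ℝ} (hη : 0 < η) {κ0 : ℝ} (h : κ0 < (1 - Iq.AZ (2 * η)) / 2) :
    ∃ τ : ℝ, 0 < τ ∧ τ < η ∧ ∀ s : ℝ, 0 ≤ s → s ≤ τ → ∀ t : ℝ, |t - Real.pi / 2| ≤ τ →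
      (VV η (kst η) (((-s : ℝ) : ℂ) + t * I)).re ≤
        κ0 * (Lam η (((-s : ℝ) : ℂ) + t * I)).re := by
  have hη2 : 0 < 2 * η := by linarith
  set κ : ℝ := kst η with hκ
  have hO0 := O_zero_pos hη
  let g : ℝ → ℝ → ℝ := fun x t => ((κ : ℂ) + (S (cO η) (x + t * I) - 1) / 2
    - (S (cS η) (x + t * I) - 1) / 4).re - κ0 * (S (cO η) (x + t * I)).re
  -- positivity at the point
  have hg0 : 0 < g 0 (Real.pi / 2) := by
    have h1 := ident_II hη (s := I * (Real.pi / 2)) (by simpa using hη)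
    have hO : 0 < (S (cO η) (I * (Real.pi / 2))).re := by
      have := OO_re_pos hη (Real.pi / 2)
      push_cast at this
      exact this
    have hOi : (S (cO η) (I * (Real.pi / 2))).im = 0 := S_real_imag (cO_neg η) _ (by simp)
    have hO0i : (S (cO η) 0).im = 0 := S_real_imag (cO_neg η) _ (by simp)
    rw [E_half_pi] at h1
    have h2 := congrArg Complex.re h1
    rw [Complex.re_ofReal_mul] at h2
    have h3 : (S (cO η) 0 / 2 * (S (cS η) (I * (Real.pi / 2)) + S (cS η) (I * (Real.pi / 2)))).re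
        = (S (cO η) 0).re * (S (cS η) (I * (Real.pi / 2))).re := by
      have e : S (cO η) 0 / 2 = (((S (cO η) 0).re / 2 : ℝ) : ℂ) := by
        apply Complex.ext
        · simp
        · simp [hO0i]
      rw [e, Complex.re_ofReal_mul, Complex.add_re]
      ring
    rw [h3, O_zero_eq, ← Iq.AZ_mul_SZ hη2] at h2
    have hS0 : 0 < Iq.SZ (2 * η) := by rw [← O_zero_eq]; exact hO0
    have h5 : Iq.AZ (2 * η) * (S (cO η) (I * (Real.pi / 2))).re =
        (S (cS η) (I * (Real.pi / 2))).re := by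
      apply mul_left_cancel₀ hS0.ne'
      linarith
    have hpt : ((0 : ℝ) : ℂ) + ((Real.pi / 2 : ℝ) : ℂ) * I = I * (Real.pi / 2) := by
      push_cast; ring
    simp only [g]
    rw [hpt]
    have h4 : ((κ : ℂ) + (S (cO η) (I * (Real.pi / 2)) - 1) / 2
        - (S (cS η) (I * (Real.pi / 2)) - 1) / 4).re
        = κ + ((S (cO η) (I * (Real.pi / 2))).re - 1) / 2
          - ((S (cS η) (I * (Real.pi / 2))).re - 1) / 4 := by
      simp
    rw [h4, hκ]
    unfold kst
    rw [← h5]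
    have h6 : 0 < (S (cO η) (I * (Real.pi / 2))).re * ((1 - Iq.AZ (2 * η)) / 2 - κ0) :=
      mul_pos hO (by linarith)
    nlinarith
  -- continuity
  have hcont : ContinuousAt (fun p : ℝ × ℝ => g p.1 p.2) (0, Real.pi / 2) := by
    have hre : |(((0 : ℝ) : ℂ) + ((Real.pi / 2 : ℝ) : ℂ) * I).re| < η := by
      simpa using hη
    have hmap : ContinuousAt (fun p : ℝ × ℝ => (p.1 : ℂ) + p.2 * I) (0, Real.pi / 2) := by fun_prop
    have c1 : ContinuousAt (fun p : ℝ × ℝ => S (cS η) ((p.1 : ℂ) + p.2 * I)) (0, Real.pi / 2) :=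
      ContinuousAt.comp (g := S (cS η)) (f := fun p : ℝ × ℝ => (p.1 : ℂ) + p.2 * I)
        ((dec_cS hη).continuousAt hre) hmap
    have c2 : ContinuousAt (fun p : ℝ × ℝ => S (cO η) ((p.1 : ℂ) + p.2 * I)) (0, Real.pi / 2) :=
      ContinuousAt.comp (g := S (cO η)) (f := fun p : ℝ × ℝ => (p.1 : ℂ) + p.2 * I)
        ((dec_cO hη).continuousAt hre) hmap
    apply ContinuousAt.sub
    · exact Complex.continuous_re.continuousAt.comp
        (((continuousAt_const).add ((c2.sub continuousAt_const).div_const 2)).sub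
          ((c1.sub continuousAt_const).div_const 4))
    · exact continuousAt_const.mul (Complex.continuous_re.continuousAt.comp c2)
  have hev := hcont.eventually_const_lt hg0
  obtain ⟨ρ, hρ, hρ2⟩ := Metric.eventually_nhds_iff.mp hev
  obtain ⟨τ, hτ0, hτ1⟩ := exists_between (lt_min hρ hη)
  have hτρ : τ < ρ := hτ1.trans_le (min_le_left _ _)
  have hτη : τ < η := hτ1.trans_le (min_le_right _ _)
  refine ⟨τ, hτ0, hτη, fun s hs0 hs1 t ht => ?_⟩
  have hgx : ∀ x : ℝ, -s ≤ x → x ≤ 0 → 0 < g x t := by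
    intro x hx0 hx1
    have h1 := hρ2 (y := (x, t)) (by
      rw [Prod.dist_eq]
      apply max_lt
      · rw [Real.dist_eq, sub_zero, abs_of_nonpos hx1]; linarith
      · rw [Real.dist_eq]; simp only; linarith)
    exact h1
  have hder : ∀ x ∈ Icc (-s) (0 : ℝ), HasDerivAt
      (fun x : ℝ => (VV η κ (x + t * I)).re - κ0 * (Lam η (x + t * I)).re) (g x t) x := by
    intro x hx
    have hre : |((x : ℂ) + t * I).re| < η := by
      simp only [Complex.add_re, Complex.ofReal_re, Complex.mul_re, Complex.I_re, mul_zero,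
        Complex.ofReal_im, Complex.I_im, mul_one, sub_self, add_zero]
      exact abs_lt.2 ⟨by linarith [hx.1], by linarith [hx.2]⟩
    have d1 := hasDerivAt_re_line (f := VV η κ)
      (f' := fun s => κ + (S (cO η) s - 1) / 2 - (S (cS η) s - 1) / 4) (hasDerivAt_VV hη κ hre)
    have d2 := hasDerivAt_re_line (f := Lam η) (f' := S (cO η)) (hasDerivAt_Lam hη hre)
    exact d1.sub (d2.const_mul κ0)
  have hmono : MonotoneOn (fun x : ℝ => (VV η κ (x + t * I)).re
      - κ0 * (Lam η (x + t * I)).re) (Icc (-s) 0) := by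
    apply monotoneOn_of_deriv_nonneg (convex_Icc (-s) 0)
    · intro x hx
      exact (hder x hx).continuousAt.continuousWithinAt
    · intro x hx
      rw [interior_Icc] at hx
      exact (hder x ⟨hx.1.le, hx.2.le⟩).differentiableAt.differentiableWithinAt
    · intro x hx
      rw [interior_Icc] at hx
      rw [(hder x ⟨hx.1.le, hx.2.le⟩).deriv]
      exact (hgx x hx.1.le hx.2.le).le
  have h1 := hmono ⟨le_rfl, by linarith⟩ ⟨by linarith, le_rfl⟩ (show -s ≤ (0 : ℝ) by linarith)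
  simp only [Complex.ofReal_zero, zero_add] at h1
  rw [VV_re_imag κ (t * I : ℂ) (by simp), Lam_re_imag (t * I : ℂ) (by simp)] at h1
  linarith

/-- the slope near the end of the arc, at interior angles arbitrarily close to `π/2` -/
theorem slope_at {η : ℝ} (hη : 0 < η) {κ0 : ℝ} (h : κ0 < (1 - Iq.AZ (2 * η)) / 2) :
    ∃ a : ℝ, 0 < a ∧ a < Real.pi / 2 ∧ ∀ t1 : ℝ, a ≤ t1 → t1 < Real.pi / 2 → ∃ τ : ℝ, 0 < τ ∧
      τ < η ∧ t1 + τ < Real.pi / 2 ∧ 0 < t1 - τ ∧
      ∀ s : ℝ, 0 ≤ s → s ≤ τ → ∀ t : ℝ, |t - t1| ≤ τ →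
      (VV η (kst η) (((-s : ℝ) : ℂ) + t * I)).re ≤
        κ0 * (Lam η (((-s : ℝ) : ℂ) + t * I)).re := by
  obtain ⟨τ, hτ0, hτη, hτ⟩ := slope_box hη h
  have hπ := Real.pi_pos
  set ρ : ℝ := min (τ / 2) (Real.pi / 8) with hρ
  have hρ0 : 0 < ρ := lt_min (by positivity) (by positivity)
  have hρ1 : ρ ≤ τ / 2 := min_le_left _ _
  have hρ2 : ρ ≤ Real.pi / 8 := min_le_right _ _
  refine ⟨Real.pi / 2 - ρ, by linarith, by linarith, fun t1 h1 h2 => ?_⟩
  set σ : ℝ := min ρ ((Real.pi / 2 - t1) / 2) with hσ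
  have hσ0 : 0 < σ := lt_min hρ0 (by linarith)
  have hσ1 : σ ≤ ρ := min_le_left _ _
  have hσ2 : σ ≤ (Real.pi / 2 - t1) / 2 := min_le_right _ _
  refine ⟨σ, hσ0, by linarith, by linarith, by linarith, fun s hs0 hs1 t ht => ?_⟩
  have h3 := abs_le.1 ht
  apply hτ s hs0 (by linarith) t
  rw [abs_le]
  constructor <;> linarith

end Pool.Agent.Lib.MP_0430e4_lc.AC
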