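import Pool.Agent.Lib.MP_0430e4_lc.AC.YT9

/-!
Project ALLCODES, part Y (helper13): branch II, near-optimal certificates are large at every real
point (`lbII`), the upper bound (`ubII`) and the potential `potII`.
-/

set_option autoImplicit false

open Finset Filter Topology Metric Set

namespace Pool.Agent.Lib.MP_0430e4_lc.AC

open LPLOW Lower BY

/-! ### the transform side -/

theorem Pf_hat {n : ℕ} (f : Wd n → ℝ) (w : ℂ) : Pf (hatW f) w =
    ∑ y, (f y : ℂ) * ((1 - w) ^ wt y * (1 + w) ^ (n - wt y)) := by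
  unfold Pf hatW
  have h1 : ∀ x : Wd n, ((∑ y, f y * e x y : ℝ) : ℂ) * w ^ wt x =
      ∑ y : Wd n, (f y : ℂ) * ((e y x : ℝ) * w ^ wt x) := by
    intro x
    rw [Complex.ofReal_sum, Finset.sum_mul]
    apply Finset.sum_congr rfl
    intro y _
    rw [e_comm x y]
    push_cast
    ring
  rw [Finset.sum_congr rfl fun x _ => h1 x, Finset.sum_comm]
  apply Finset.sum_congr rfl
  intro y _
  rw [← Finset.mul_sum]
  congr 1
  exact gen_e (R := ℂ) y w

theorem Pf_hat_eq {n : ℕ} (f : Wd n → ℝ) {w : ℂ} (hw : 1 + w ≠ 0) :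
    Pf (hatW f) w = (1 + w) ^ n * Pf f ((1 - w) / (1 + w)) := by
  rw [Pf_hat]
  unfold Pf
  rw [Finset.mul_sum]
  apply Finset.sum_congr rfl
  intro y _
  have h : (1 + w) ^ n = (1 + w) ^ wt y * (1 + w) ^ (n - wt y) := by
    rw [← pow_add, Nat.add_sub_cancel' (wt_le y)]
  rw [h, div_pow]
  have h2 : (1 + w) ^ wt y ≠ 0 := pow_ne_zero _ hw
  field_simp

theorem norm_Pf_hat_le {n : ℕ} {l : ℝ} {f : Wd n → ℝ} (hf : WCert l f) {w : ℂ} (hw : ‖w‖ ≤ 1) :
    ‖Pf (hatW f) w‖ ≤ 2 ^ n := by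
  calc ‖Pf (hatW f) w‖ ≤ Pfr (hatW f) ‖w‖ := norm_Pf_le hf.hat w
    _ ≤ Pfr (hatW f) 1 := Pfr_mono hf.hat (norm_nonneg w) hw
    _ = 2 ^ n := by rw [Pfr_one, sum_hatW, hf.one, mul_one]

theorem norm_Pf_hat_imag {n : ℕ} {l : ℝ} {f : Wd n → ℝ} (hf : WCert l f) (y : ℝ) :
    ‖Pf (hatW f) ((y : ℂ) * Complex.I)‖ ≤ (∑ x, f x) * √(1 + y ^ 2) ^ n := by
  have g1 : ‖(1 : ℂ) - (y : ℂ) * Complex.I‖ = √(1 + y ^ 2) := by
    rw [Complex.norm_eq_sqrt_sq_add_sq]
    congr 1
    simp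
  have g2 : ‖(1 : ℂ) + (y : ℂ) * Complex.I‖ = √(1 + y ^ 2) := by
    rw [Complex.norm_eq_sqrt_sq_add_sq]
    congr 1
    simp
  rw [Pf_hat, Finset.sum_mul]
  refine (norm_sum_le _ _).trans (le_of_eq (Finset.sum_congr rfl fun x _ => ?_))
  rw [norm_mul, norm_mul, norm_pow, norm_pow, g1, g2, ← pow_add,
    Nat.add_sub_cancel' (wt_le x), Complex.norm_real, Real.norm_of_nonneg (hf.nonneg x)]

theorem one_add_wr_pos (η s : ℝ) : 0 < 1 + wr η s := by
  have := wr_pos (η := η) s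
  linarith

theorem Pf_hat_real {n : ℕ} {f : Wd n → ℝ} (hf : ∀ x, 0 ≤ f x) (η : ℝ) {s : ℝ}
    (hs : 0 ≤ Zs η s) :
    ‖Pf (hatW f) (wr η s : ℂ)‖ = (1 + wr η s) ^ n * Pfr f (Zs η s) := by
  have hw := one_add_wr_pos η s
  have h1 : (1 : ℂ) + (wr η s : ℂ) ≠ 0 := by
    have : (1 : ℂ) + (wr η s : ℂ) = ((1 + wr η s : ℝ) : ℂ) := by push_cast; rfl
    rw [this]
    exact_mod_cast hw.ne'
  have h2 : (1 - (wr η s : ℂ)) / (1 + (wr η s : ℂ)) = (Zs η s : ℂ) := by
    have h3 : Zs η s = (1 - wr η s) / (1 + wr η s) := by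
      rw [eq_div_iff hw.ne']; exact wr_mul s
    rw [h3]
    push_cast
    rfl
  have h4 : 0 ≤ Pfr f (Zs η s) := by
    unfold Pfr
    exact Finset.sum_nonneg fun x _ => mul_nonneg (hf x) (pow_nonneg hs _)
  rw [Pf_hat_eq f h1, h2, Pf_ofReal, norm_mul, norm_pow, Complex.norm_real, Real.norm_of_nonneg h4]
  congr 2
  have : (1 : ℂ) + (wr η s : ℂ) = ((1 + wr η s : ℝ) : ℂ) := by push_cast; rfl
  rw [this, Complex.norm_real, Real.norm_of_nonneg hw.le]

/-- the maximum principle on the strip -/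
theorem strip2 {η c : ℝ} (hη : 0 < η) {n : ℕ} {l ε : ℝ} {f : Wd n → ℝ} (hf : WCert l f)
    (hm : ∑ x, f x ≤ Real.exp (n * (Real.log 2 - c + ε))) {s : ℂ} (h0 : 0 ≤ s.re)
    (h1 : s.re ≤ η) :
    ‖Pf (hatW f) (zz (nm η) ((η : ℂ) - s))‖ ≤
      Real.exp (n * ((GG (nm η) c ((η : ℂ) - s)).re + (Real.log 2 - c) + ε / η * s.re)) := by
  have hen := eta_nm hη
  have h2 := three_lines (nm_pos hη) (nm_lt hη) (c - ε) (differentiable_Pf (hatW f))
    (N := Real.exp (n * (Real.log 2 - c + ε))) n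
    (fun z hz => by
      rw [← Real.exp_add]
      refine (norm_Pf_hat_le hf hz.le).trans (le_of_eq ?_)
      have : (n : ℝ) * (Real.log 2 - c + ε) + n * (c - ε) = n * Real.log 2 := by ring
      rw [this, Real.exp_nat_mul, Real.exp_log (by norm_num)])
    (fun y => (norm_Pf_hat_imag hf y).trans (mul_le_mul_of_nonneg_right hm (by positivity)))
    (s := (η : ℂ) - s) (by rw [Complex.sub_re, Complex.ofReal_re]; linarith)
    (by rw [Complex.sub_re, Complex.ofReal_re, hen]; linarith)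
  refine h2.trans (le_of_eq ?_)
  rw [← Real.exp_add]
  congr 1
  rw [GG_re, GG_re, hen, Complex.sub_re, Complex.ofReal_re]
  field_simp
  ring

/-- upper bound on the real axis -/
theorem ubII {η c ε : ℝ} (hη : 0 < η) {s0 : ℝ} (h0 : 0 ≤ s0) (h1 : s0 < η) {n : ℕ} {l : ℝ}
    {f : Wd n → ℝ} (hf : WCert l f) (hm : ∑ x, f x ≤ Real.exp (n * (Real.log 2 - c + ε))) :
    Pfr f (Zs η s0) ≤ Real.exp (n * (Us η c s0 + ε / η * s0)) := by
  have hZ := Zs_nonneg hη h0 h1
  have h2 := strip2 hη hf hm (s := (s0 : ℂ)) (by simpa using h0) (by simpa using h1.le)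
  rw [zz_wr hη h0 h1, Pf_hat_real hf.nonneg η hZ, GG_Vs hη c h0 h1, Complex.ofReal_re] at h2
  have hw := one_add_wr_pos η s0
  have h3 : Real.exp (n * (Vs η c s0 + ε / η * s0)) =
      (1 + wr η s0) ^ n * Real.exp (n * (Us η c s0 + ε / η * s0)) := by
    have h9 : (1 + wr η s0) ^ n = Real.exp (n * Real.log (1 + wr η s0)) := by
      rw [Real.exp_nat_mul, Real.exp_log hw]
    rw [h9, ← Real.exp_add]
    unfold Us
    congr 1; ring
  rw [h3] at h2
  exact le_of_mul_le_mul_left h2 (by positivity)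

/-- **Lower bound**, abstract form. -/
theorem lo_core2 {η c0 σ : ℝ} (hη : 0 < η) (hσ0 : 0 < σ)
    (hcrit : Us' η c0 0 ≤ σ * (Or η 0 / 2))
    {s0 β : ℝ} (hs0 : 0 < s0) (hs1 : s0 < η) (hβ : 0 < β) :
    ∃ ε0 : ℝ, 0 < ε0 ∧ ∀ ε : ℝ, 0 ≤ ε → ε ≤ ε0 → ∀ (n : ℕ) (l : ℝ) (f : Wd n → ℝ), 1 ≤ n →
      WCert l f → σ * n ≤ l → ∑ x, f x ≤ Real.exp (n * (Real.log 2 - c0 + ε)) →
      Real.exp (n * (Us η c0 s0 - β)) ≤ Pfr f (Zs η s0) := by
  have hr0 := nm_pos hη
  have hr1 := nm_lt hη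
  have hen := eta_nm hη
  have hpi := Real.pi_pos
  -- the majorant as a function of the strip variable
  obtain ⟨MV, hMV⟩ : ∃ MV : ℂ → ℝ, MV = fun s =>
    (GG (nm η) c0 ((η : ℂ) - s)).re + (Real.log 2 - c0) := ⟨_, rfl⟩
  have hcs : ∀ s : ℂ, ContinuousAt (fun s : ℂ => (η : ℂ) - s) s := fun s => by fun_prop
  have hMc : ∀ s : ℂ, 0 ≤ s.re → s.re ≤ η → ContinuousAt MV s := by
    intro s h0 h1
    rw [hMV]
    apply ContinuousAt.add _ continuousAt_const
    apply Complex.continuous_re.continuousAt.comp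
    apply ContinuousAt.comp (f := fun s : ℂ => (η : ℂ) - s) (g := GG (nm η) c0) _ (hcs s)
    exact (GG_diff hr0 hr1 c0 (by rw [Complex.sub_re, Complex.ofReal_re]; linarith)
      (by rw [hen, Complex.sub_re, Complex.ofReal_re]; linarith)).continuousAt
  have hMr : ∀ s : ℝ, 0 ≤ s → s < η → MV (s : ℂ) = Vs η c0 s := by
    intro s h0 h1
    rw [hMV]
    exact GG_Vs hη c0 h0 h1
  -- `w` as a function of the strip variable
  obtain ⟨wc, hwc⟩ : ∃ wc : ℂ → ℂ, wc = fun s => zz (nm η) ((η : ℂ) - s) := ⟨_, rfl⟩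
  have hwd : ∀ s : ℂ, 0 ≤ s.re → s.re ≤ η → DifferentiableAt ℂ wc s := by
    intro s h0 h1
    rw [hwc]
    apply DifferentiableAt.comp (f := fun s : ℂ => (η : ℂ) - s) (g := zz (nm η)) s
    · exact zz_diff hr0 hr1 (by rw [Complex.sub_re, Complex.ofReal_re]; linarith)
        (by rw [hen, Complex.sub_re, Complex.ofReal_re]; linarith)
    · fun_prop
  have hwr : ∀ s : ℝ, 0 ≤ s → s < η → wc (s : ℂ) = (wr η s : ℂ) := by
    intro s h0 h1
    rw [hwc]
    exact zz_wr hη h0 h1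
  -- the point `s1 < s0`
  have hUc : ContinuousAt (Us η c0) s0 :=
    (hasDerivAt_Us hη c0 (by rw [abs_of_pos hs0]; exact hs1)).continuousAt
  obtain ⟨d1, hd1, hU1⟩ := Metric.continuousAt_iff.mp hUc (β / 8) (by positivity)
  set h : ℝ := min (d1 / 2) (s0 / 2) with hh
  have hh0 : 0 < h := lt_min (by positivity) (by positivity)
  set s1 : ℝ := s0 - h with hs1d
  have h11 : h ≤ s0 / 2 := min_le_right _ _
  have h12 : h ≤ d1 / 2 := min_le_left _ _
  have hs10 : 0 < s1 := by rw [hs1d]; linarith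
  have hs1lt : s1 < s0 := by rw [hs1d]; linarith
  have hs1η : s1 < η := hs1lt.trans hs1
  have hU2 : Us η c0 s0 - β / 8 ≤ Us η c0 s1 := by
    have := hU1 (x := s1) (by rw [Real.dist_eq, hs1d, abs_lt]; constructor <;> linarith)
    rw [Real.dist_eq] at this
    linarith [(abs_lt.mp this).1]
  have hZ : Zs η s1 < Zs η s0 :=
    Zs_strictMono hη ⟨hs10.le, hs1η⟩ ⟨hs0.le, hs1⟩ hs1lt
  have hw1 := one_add_wr_pos η s1
  -- the radius: `z`
  have hne1 : (1 : ℂ) + wc (s1 : ℂ) ≠ 0 := by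
    rw [hwr s1 hs10.le hs1η]
    have : (1 : ℂ) + (wr η s1 : ℂ) = ((1 + wr η s1 : ℝ) : ℂ) := by push_cast; rfl
    rw [this]
    exact_mod_cast hw1.ne'
  have hwcont : ContinuousAt wc (s1 : ℂ) :=
    (hwd _ (by simpa using hs10.le) (by simpa using hs1η.le)).continuousAt
  have hc1 : ContinuousAt (fun s : ℂ => ‖(1 - wc s) / (1 + wc s)‖) (s1 : ℂ) :=
    ((continuousAt_const.sub hwcont).div (continuousAt_const.add hwcont) hne1).norm
  have hz1 : ‖(1 - wc (s1 : ℂ)) / (1 + wc (s1 : ℂ))‖ = Zs η s1 := by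
    have h2 : (1 - (wr η s1 : ℂ)) / (1 + (wr η s1 : ℂ)) = (Zs η s1 : ℂ) := by
      have h3 : Zs η s1 = (1 - wr η s1) / (1 + wr η s1) := by
        rw [eq_div_iff hw1.ne']; exact wr_mul s1
      rw [h3]
      push_cast
      rfl
    rw [hwr s1 hs10.le hs1η, h2, Complex.norm_real, Real.norm_eq_abs,
      abs_of_nonneg (Zs_nonneg hη hs10.le hs1η)]
  obtain ⟨d2, hd2, hz2⟩ := Metric.continuousAt_iff.mp hc1 (Zs η s0 - Zs η s1) (by linarith)
  obtain ⟨d3, hd3, hG3⟩ := Metric.continuousAt_iff.mp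
    (hMc (s1 : ℂ) (by simpa using hs10.le) (by simpa using hs1η.le)) (β / 8) (by positivity)
  -- `|1 + w|` near `s1`
  have hc4 : ContinuousAt (fun s : ℂ => ‖1 + wc s‖) (s1 : ℂ) :=
    (continuousAt_const.add hwcont).norm
  have hz4 : ‖1 + wc (s1 : ℂ)‖ = 1 + wr η s1 := by
    rw [hwr s1 hs10.le hs1η]
    have : (1 : ℂ) + (wr η s1 : ℂ) = ((1 + wr η s1 : ℝ) : ℂ) := by push_cast; rfl
    rw [this, Complex.norm_real, Real.norm_of_nonneg hw1.le]
  have hexp8 : 0 < (1 + wr η s1) * Real.exp (β / 8) - (1 + wr η s1) := by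
    have : 1 < Real.exp (β / 8) := Real.one_lt_exp_iff.2 (by positivity)
    nlinarith
  obtain ⟨d4, hd4, hz5⟩ := Metric.continuousAt_iff.mp hc4 _ (lt_min hexp8 hw1)
  set ρ : ℝ := min (min (d2 / 2) (min (d3 / 2) (d4 / 2))) s1 with hρd
  have hρ : 0 < ρ := lt_min (lt_min (by positivity) (lt_min (by positivity) (by positivity))) hs10
  have hρ2 : ρ < d2 := lt_of_le_of_lt ((min_le_left _ _).trans (min_le_left _ _)) (by linarith)
  have hρ3 : ρ < d3 := lt_of_le_of_lt ((min_le_left _ _).trans ((min_le_right _ _).trans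
    (min_le_left _ _))) (by linarith)
  have hρ5 : ρ < d4 := lt_of_le_of_lt ((min_le_left _ _).trans ((min_le_right _ _).trans
    (min_le_right _ _))) (by linarith)
  have hρ4 : ρ ≤ s1 := min_le_right _ _
  -- small constants
  have hA0 : 0 < Or η 0 / 2 := by
    have := Or_pos hη (s := 0) (by simpa using hη)
    positivity
  set D : ℝ := σ * (Or η 0 / 2) with hD
  have hD0 : 0 < D := mul_pos hσ0 hA0
  set Q : ℝ := Real.pi * s1 ^ 2 / ρ with hQ
  have hQ0 : 0 < Q := by positivity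
  set θ : ℝ := min (β / (16 * Q)) (D / 2) with hθd
  have hθ : 0 < θ := lt_min (by positivity) (by positivity)
  have hθ1 : θ ≤ β / (16 * Q) := min_le_left _ _
  have hθ2 : θ ≤ D / 2 := min_le_right _ _
  obtain ⟨e1, he1, hn1⟩ := near_le hθ (Us_zero c0)
    (hasDerivAt_Us hη c0 (s := 0) (by simpa using hη))
  have hZd : HasDerivAt (fun s => σ * Zs η s) D 0 := by
    have h2 := (hasDerivAt_Zs hη (s := 0) (by simpa using hη)).const_mul σ
    refine h2.congr_deriv ?_
    unfold Zs'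
    rw [Zs_zero]; ring
  obtain ⟨e2, he2, hn2⟩ := near_ge hθ (by rw [Zs_zero, mul_zero]) hZd
  refine ⟨θ * η, by positivity, ?_⟩
  intro ε hε hεθ n l f hn hf hl hm
  by_contra hcon
  push Not at hcon
  have hn0 : (0 : ℝ) < n := by exact_mod_cast hn
  set s : ℝ := min (min (s1 / 2) (min (e1 / 2) (e2 / 2))) (min (1 / (n * D)) (θ / (n * D ^ 2)))
    with hsd
  have hs : 0 < s := by
    apply lt_min (lt_min (by positivity) (lt_min (by positivity) (by positivity)))
      (lt_min (by positivity) (by positivity))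
  have hsa : s ≤ s1 / 2 := (min_le_left _ _).trans (min_le_left _ _)
  have hsb : s ≤ e1 / 2 := (min_le_left _ _).trans ((min_le_right _ _).trans (min_le_left _ _))
  have hsc : s ≤ e2 / 2 := (min_le_left _ _).trans ((min_le_right _ _).trans (min_le_right _ _))
  have hsd1 : n * D * s ≤ 1 := by
    have h : s ≤ 1 / (n * D) := (min_le_right _ _).trans (min_le_left _ _)
    rw [le_div_iff₀ (by positivity)] at h
    linarith
  have hse : n * D ^ 2 * s ≤ θ := by
    have h : s ≤ θ / (n * D ^ 2) := (min_le_right _ _).trans (min_le_right _ _)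
    rw [le_div_iff₀ (by positivity)] at h
    linarith
  have hsη : s < η := by linarith
  -- the function
  set G : ℂ → ℂ := fun w => Pf (hatW f) (wc w) *
    Complex.exp (-((n : ℂ) * (GG (nm η) c0 ((η : ℂ) - w) + ((Real.log 2 - c0 : ℝ) : ℂ) +
      ((ε / η : ℝ) : ℂ) * w))) with hG
  have hnG : ∀ w : ℂ, ‖G w‖ = ‖Pf (hatW f) (wc w)‖ *
      Real.exp (-(n * (MV w + ε / η * w.re))) := by
    intro w
    rw [hG]
    simp only [norm_mul, Complex.norm_exp, Complex.neg_re]
    have h5 : ((n : ℂ) * (GG (nm η) c0 ((η : ℂ) - w) + ((Real.log 2 - c0 : ℝ) : ℂ) +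
        ((ε / η : ℝ) : ℂ) * w)).re = n * (MV w + ε / η * w.re) := by
      rw [← Complex.ofReal_natCast, Complex.re_ofReal_mul, Complex.add_re, Complex.add_re,
        Complex.ofReal_re, Complex.re_ofReal_mul, hMV]
    rw [h5]
  have hdisc : ∀ z : ℂ, ‖z - s1 / 2‖ ≤ s1 / 2 → 0 ≤ z.re ∧ z.re ≤ η := by
    intro z hz
    have h3 := abs_le.mp (Complex.abs_re_le_norm (z - s1 / 2))
    have h4 : (z - (s1 : ℂ) / 2).re = z.re - s1 / 2 := by
      rw [Complex.sub_re]
      congr 1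
      have : (s1 : ℂ) / 2 = ((s1 / 2 : ℝ) : ℂ) := by push_cast; ring
      rw [this, Complex.ofReal_re]
    rw [h4] at h3
    constructor <;> linarith [h3.1, h3.2]
  have hG1 : ∀ z : ℂ, ‖z - s1 / 2‖ ≤ s1 / 2 → ‖G z‖ ≤ 1 := by
    intro z hz
    obtain ⟨ha, hb⟩ := hdisc z hz
    have h3 := strip2 hη hf hm ha hb
    rw [hnG, Real.exp_neg, ← div_eq_mul_inv, div_le_one (Real.exp_pos _), hwc, hMV]
    exact h3
  have hGd : ∀ z : ℂ, ‖z - s1 / 2‖ ≤ s1 / 2 → DifferentiableAt ℂ G z := by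
    intro z hz
    obtain ⟨ha, hb⟩ := hdisc z hz
    have h4 : DifferentiableAt ℂ (fun w : ℂ => GG (nm η) c0 ((η : ℂ) - w)) z := by
      apply DifferentiableAt.comp (f := fun s : ℂ => (η : ℂ) - s) (g := GG (nm η) c0) z
      · exact GG_diff hr0 hr1 c0 (by rw [Complex.sub_re, Complex.ofReal_re]; linarith)
          (by rw [hen, Complex.sub_re, Complex.ofReal_re]; linarith)
      · fun_prop
    have h5 : DifferentiableAt ℂ (fun w : ℂ => Pf (hatW f) (wc w)) z :=
      (differentiable_Pf (hatW f) _).comp z (hwd z ha hb)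
    exact h5.mul ((((h4.add (differentiableAt_const _)).add
      (differentiableAt_id.const_mul _)).const_mul (n : ℂ)).neg.cexp)
  have hGq : ∀ z : ℂ, ‖z - s1 / 2‖ ≤ s1 / 2 → ‖z - s1‖ ≤ ρ → ‖G z‖ ≤ Real.exp (-(n * (β / 2))) := by
    intro z hz hzρ
    obtain ⟨ha, hb⟩ := hdisc z hz
    have hne : 1 + wc z ≠ 0 := by
      intro h0
      have h3 := hz5 (x := z) (by rw [dist_eq_norm]; exact lt_of_le_of_lt hzρ hρ5)
      rw [Real.dist_eq, hz4, h0, norm_zero, zero_sub, abs_neg, abs_of_pos hw1] at h3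
      exact absurd (h3.trans_le (min_le_right _ _)) (lt_irrefl _)
    have h2 : ‖(1 - wc z) / (1 + wc z)‖ ≤ Zs η s0 := by
      have h3 := hz2 (x := z) (by rw [dist_eq_norm]; exact lt_of_le_of_lt hzρ hρ2)
      rw [Real.dist_eq, hz1] at h3
      linarith [(abs_lt.mp h3).2]
    have h2' : ‖1 + wc z‖ ≤ (1 + wr η s1) * Real.exp (β / 8) := by
      have h3 := hz5 (x := z) (by rw [dist_eq_norm]; exact lt_of_le_of_lt hzρ hρ5)
      rw [Real.dist_eq, hz4] at h3
      have h4 := (abs_lt.mp h3).2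
      have h5 : min ((1 + wr η s1) * Real.exp (β / 8) - (1 + wr η s1)) (1 + wr η s1) ≤ _ :=
        min_le_left _ _
      linarith
    have h4 : ‖Pf (hatW f) (wc z)‖ ≤ ((1 + wr η s1) * Real.exp (β / 8)) ^ n *
        Real.exp (n * (Us η c0 s0 - β)) := by
      rw [Pf_hat_eq f hne, norm_mul, norm_pow]
      apply mul_le_mul (pow_le_pow_left₀ (norm_nonneg _) h2' n) _ (norm_nonneg _) (by positivity)
      exact ((norm_Pf_le hf.nonneg _).trans (Pfr_mono hf.nonneg (norm_nonneg _) h2)).trans hcon.le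
    have h5 : Vs η c0 s1 - β / 8 ≤ MV z := by
      have h3 := hG3 (x := z) (by rw [dist_eq_norm]; exact lt_of_le_of_lt hzρ hρ3)
      rw [Real.dist_eq, hMr s1 hs10.le hs1η] at h3
      linarith [(abs_lt.mp h3).1]
    have h6 : 0 ≤ ε / η * z.re := by positivity
    have h7 : ((1 + wr η s1) * Real.exp (β / 8)) ^ n =
        Real.exp (n * (Real.log (1 + wr η s1) + β / 8)) := by
      rw [Real.exp_nat_mul, Real.exp_add, Real.exp_log hw1]
    rw [hnG]
    rw [h7, ← Real.exp_add] at h4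
    have h8 : Us η c0 s1 = Vs η c0 s1 - Real.log (1 + wr η s1) := rfl
    calc ‖Pf (hatW f) (wc z)‖ * Real.exp (-(n * (MV z + ε / η * z.re)))
        ≤ Real.exp (n * (Real.log (1 + wr η s1) + β / 8) + n * (Us η c0 s0 - β)) *
          Real.exp (-(n * (Vs η c0 s1 - β / 8))) := by
          apply mul_le_mul h4 _ (Real.exp_pos _).le (Real.exp_pos _).le
          apply Real.exp_le_exp.2
          apply neg_le_neg
          apply mul_le_mul_of_nonneg_left _ hn0.le
          linarith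
      _ ≤ Real.exp (-(n * (β / 2))) := by
          rw [← Real.exp_add]
          apply Real.exp_le_exp.2
          have h9 : (n : ℝ) * (Real.log (1 + wr η s1) + β / 8) + n * (Us η c0 s0 - β) +
              -(n * (Vs η c0 s1 - β / 8)) =
              n * (Real.log (1 + wr η s1) + β / 8 + (Us η c0 s0 - β) - (Vs η c0 s1 - β / 8)) := by
            ring
          have h10 : (n : ℝ) * (Real.log (1 + wr η s1) + β / 8 + (Us η c0 s0 - β) -
              (Vs η c0 s1 - β / 8)) ≤ n * (-(β / 2)) := by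
            apply mul_le_mul_of_nonneg_left _ hn0.le
            linarith
          linarith
  -- rotations
  set m : ℕ := ⌈Q / (2 * s)⌉₊ with hmd
  have hQs : 0 < Q / (2 * s) := by positivity
  have hm1 : 1 ≤ m := by
    rw [hmd, Nat.one_le_ceil_iff]; exact hQs
  have hm0 : (0 : ℝ) < m := by exact_mod_cast hm1
  have hm2 : Q / (2 * s) ≤ m := Nat.le_ceil _
  have hm4 : Real.pi / m ≤ 2 * s * ρ / s1 ^ 2 := by
    rw [div_le_iff₀ hm0, div_mul_eq_mul_div, le_div_iff₀ (by positivity)]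
    rw [div_le_iff₀ (by positivity)] at hm2
    have h3 : Real.pi * s1 ^ 2 = Q * ρ := by rw [hQ]; field_simp
    rw [h3]
    calc Q * ρ ≤ m * (2 * s) * ρ := mul_le_mul_of_nonneg_right hm2 hρ.le
      _ = _ := by ring
  have hT := touch2 hs10 hGd hG1 hGq hs (by linarith) hm1 hm4
  have hlowG : Real.exp (-(n * (4 * θ * s))) ≤ ‖G (s : ℂ)‖ := by
    have hZs := Zs_nonneg hη hs.le hsη
    rw [hnG, hwr s hs.le hsη, Pf_hat_real hf.nonneg η hZs, hMr s hs.le hsη, Complex.ofReal_re]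
    have hws := one_add_wr_pos η s
    have h2 := Pfr_lower hf hZs
    have h3 := hn2 s hs (by linarith)
    have h4 := hn1 s hs (by linarith)
    have h5 : Us η c0 s + ε / η * s ≤ (D + θ) * s + θ * s := by
      have h9 : ε / η * s ≤ θ * s := by
        apply mul_le_mul_of_nonneg_right _ hs.le
        rw [div_le_iff₀ hη]
        exact hεθ
      have h10 : (Us' η c0 0 + θ) * s ≤ (D + θ) * s := by
        apply mul_le_mul_of_nonneg_right _ hs.le
        linarith
      linarith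
    set u : ℝ := n * (D - θ) * s with hu
    have hDθ : 0 < D - θ := by linarith
    have hu0 : 0 ≤ u := by positivity
    have hu1 : u ≤ 1 := by
      refine le_trans ?_ hsd1
      rw [hu]
      apply mul_le_mul_of_nonneg_right _ hs.le
      apply mul_le_mul_of_nonneg_left _ hn0.le
      linarith
    have hu2 : u ^ 2 ≤ n * (θ * s) := by
      have h6 : u ≤ n * D * s := by
        rw [hu]
        apply mul_le_mul_of_nonneg_right _ hs.le
        apply mul_le_mul_of_nonneg_left _ hn0.le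
        linarith
      calc u ^ 2 ≤ (n * D * s) ^ 2 := pow_le_pow_left₀ hu0 h6 2
        _ = (n * D ^ 2 * s) * (n * s) := by ring
        _ ≤ θ * (n * s) := mul_le_mul_of_nonneg_right hse (by positivity)
        _ = n * (θ * s) := by ring
    have h7 : Real.exp (u - u ^ 2) ≤ Pfr f (Zs η s) := by
      refine (exp_sub_sq_le hu0 hu1).trans (le_trans ?_ h2)
      have h8 : u ≤ l * Zs η s := by
        calc u = n * ((D - θ) * s) := by rw [hu]; ring
          _ ≤ n * (σ * Zs η s) := mul_le_mul_of_nonneg_left h3 hn0.le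
          _ = (σ * n) * Zs η s := by ring
          _ ≤ l * Zs η s := mul_le_mul_of_nonneg_right hl hZs
      linarith
    have h8 : (1 + wr η s) ^ n * Pfr f (Zs η s) * Real.exp (-(n * (Vs η c0 s + ε / η * s))) =
        Pfr f (Zs η s) * Real.exp (-(n * (Us η c0 s + ε / η * s))) := by
      have h9 : (1 + wr η s) ^ n = Real.exp (n * Real.log (1 + wr η s)) := by
        rw [Real.exp_nat_mul, Real.exp_log hws]
      have h10 : Real.exp (n * Real.log (1 + wr η s)) * Real.exp (-(n * (Vs η c0 s + ε / η * s)))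
          = Real.exp (-(n * (Us η c0 s + ε / η * s))) := by
        rw [← Real.exp_add]
        congr 1
        unfold Us
        ring
      rw [h9, ← h10]
      ring
    rw [h8]
    calc Real.exp (-(n * (4 * θ * s)))
        ≤ Real.exp (u - u ^ 2) * Real.exp (-(n * ((D + θ) * s + θ * s))) := by
          rw [← Real.exp_add]
          apply Real.exp_le_exp.2
          have e1 : (n : ℝ) * ((D + θ) * s + θ * s) = u + 3 * (n * (θ * s)) := by rw [hu]; ring
          have e2 : (n : ℝ) * (4 * θ * s) = 4 * (n * (θ * s)) := by ring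
          rw [e1, e2]
          linarith only [hu2]
      _ ≤ Pfr f (Zs η s) * Real.exp (-(n * (Us η c0 s + ε / η * s))) := by
          apply mul_le_mul h7 _ (Real.exp_pos _).le ((Real.exp_pos _).le.trans h7)
          apply Real.exp_le_exp.2
          apply neg_le_neg
          exact mul_le_mul_of_nonneg_left h5 hn0.le
  have h9 : Real.exp (-(n * (4 * θ * s))) ^ m ≤ Real.exp (-(n * (β / 2))) :=
    (pow_le_pow_left₀ (Real.exp_pos _).le hlowG m).trans hT
  rw [← Real.exp_nat_mul, Real.exp_le_exp] at h9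
  have h10 : (n : ℝ) * (β / 2) ≤ n * (4 * θ * (m * s)) := by linarith
  have h11' : β / 2 ≤ 4 * θ * (m * s) := le_of_mul_le_mul_left h10 hn0
  have hm3 : (m : ℝ) * s < Q / 2 + s := by
    have h2 : (m : ℝ) < Q / (2 * s) + 1 := Nat.ceil_lt_add_one hQs.le
    calc (m : ℝ) * s < (Q / (2 * s) + 1) * s := mul_lt_mul_of_pos_right h2 hs
      _ = Q / 2 + s := by field_simp
  have hQs1 : 3 * s1 ≤ Q := by
    rw [hQ, le_div_iff₀ hρ]
    have h3 := Real.pi_gt_three
    calc 3 * s1 * ρ ≤ 3 * s1 * s1 := mul_le_mul_of_nonneg_left hρ4 (by positivity)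
      _ = 3 * s1 ^ 2 := by ring
      _ ≤ Real.pi * s1 ^ 2 := mul_le_mul_of_nonneg_right h3.le (by positivity)
  have h12' : (m : ℝ) * s ≤ Q := by linarith
  have h13 : 4 * θ * (m * s) ≤ 4 * θ * Q := mul_le_mul_of_nonneg_left h12' (by positivity)
  have h14 : θ * Q ≤ β / 16 := by
    calc θ * Q ≤ β / (16 * Q) * Q := mul_le_mul_of_nonneg_right hθ1 hQ0.le
      _ = β / 16 := by field_simp
  linarith

/-- near-optimal certificates are large at every real point (branch II) -/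
theorem lbII {t : ℝ} (ht : 0 < t) {s0 β : ℝ} (h0 : 0 < s0) (h1 : s0 < t / 2) (hβ : 0 < β) :
    ∃ a : ℝ, 0 < a ∧ ∀ n ≥ 1, ∀ (l : ℝ) (f : Wd n → ℝ), WCert l f → Exact.sII t * n ≤ l →
    ∑ x, f x ≤ Real.exp (n * (Real.log 2 - Exact.cval t + a)) →
    Real.exp (n * (Us (t / 2) (Exact.cval t) s0 - β)) ≤ Pfr f (Zs (t / 2) s0) := by
  have hη : 0 < t / 2 := by linarith
  obtain ⟨ε0, hε0, h⟩ := lo_core2 hη (Exact.sII_pos ht) (slope_crit2 ht).le h0 h1 hβ
  exact ⟨ε0, hε0, fun n hn l f hf hl hm => h ε0 hε0.le le_rfl n l f hn hf hl hm⟩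

/-- the potential of branch II -/
noncomputable def UII (t x : ℝ) : ℝ := Us (t / 2) (Exact.cval t) (sx (t / 2) (Zs (t / 2)) x)

/-- `x U'(x)` on branch II -/
noncomputable def gII (t x : ℝ) : ℝ := x * (Us' (t / 2) (Exact.cval t)
  (sx (t / 2) (Zs (t / 2)) x) / Zs' (t / 2) (sx (t / 2) (Zs (t / 2)) x))

theorem ell_II {t : ℝ} (ht : 0 < t) :
    Tensor.ell ((1 - Exact.sII t) / 2) * Real.log 2 = Real.log 2 - Exact.cval t := by
  have hl2 : 0 < Real.log 2 := Real.log_pos (by norm_num)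
  rw [(Exact.fin_II Exact.inputs ht).1]
  field_simp

theorem potII {t : ℝ} (ht : 0 < t) : Pot ((1 - Exact.sII t) / 2) (UII t) (gII t) := by
  have hη : 0 < t / 2 := by linarith
  have hl2 : 0 < Real.log 2 := Real.log_pos (by norm_num)
  have hlv : 1 - 2 * ((1 - Exact.sII t) / 2) = Exact.sII t := by ring
  have hell := ell_II ht
  apply pot_of (upII hη) (fun s h0 h1 => hasDerivAt_Us hη (Exact.cval t)
      (by rw [abs_of_pos h0]; exact h1))
    (fun s h0 h1 => cont_Us' hη _ (by rw [abs_of_pos h0]; exact h1))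
  · rw [hlv]
    have h1 := (hasDerivAt_Us hη (Exact.cval t) (s := 0) (by simpa using hη)).tendsto_slope_zero_right
    have h2 := (hasDerivAt_Zs hη (s := 0) (by simpa using hη)).tendsto_slope_zero_right
    have hA : 0 < Or (t / 2) 0 / 2 := by
      have := Or_pos hη (s := 0) (by simpa using hη)
      positivity
    have e2 : Zs' (t / 2) 0 = Or (t / 2) 0 / 2 := by
      unfold Zs'
      rw [Zs_zero]; ring
    rw [slope_crit2 ht] at h1
    rw [e2] at h2
    have h3 := h1.div h2 hA.ne'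
    rw [mul_div_assoc, div_self hA.ne', mul_one] at h3
    refine h3.congr' ?_
    filter_upwards [Ioo_mem_nhdsGT hη] with s hs
    simp only [Pi.div_apply, zero_add, smul_eq_mul]
    rw [Us_zero, Zs_zero]
    have hs0 : s ≠ 0 := hs.1.ne'
    have hZ := (Zs_pos hη hs.1 hs.2).ne'
    simp only [sub_zero]
    field_simp
  · intro s β h0 h1 hβ
    obtain ⟨a, ha, h⟩ := lbII ht h0 h1 hβ
    refine ⟨a / Real.log 2, by positivity, 1, fun n hn l f hf hl hm => h n hn l f hf ?_ ?_⟩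
    · rw [hlv] at hl; exact hl
    · refine hm.trans (le_of_eq ?_)
      rw [pw_eq_exp, add_mul, hell, div_mul_cancel₀ _ hl2.ne']
  · intro s β h0 h1 hβ
    refine ⟨β / Real.log 2, by positivity, 1, fun n hn l f hf hl hm => ?_⟩
    have hm' : ∑ x, f x ≤ Real.exp (n * (Real.log 2 - Exact.cval t + β)) := by
      refine hm.trans (le_of_eq ?_)
      rw [pw_eq_exp, add_mul, hell, div_mul_cancel₀ _ hl2.ne']
    have h2 := ubII hη h0.le h1 hf hm'
    refine h2.trans (Real.exp_le_exp.2 ?_)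
    apply mul_le_mul_of_nonneg_left _ (Nat.cast_nonneg n)
    have : β / (t / 2) * s ≤ β := by
      rw [div_mul_eq_mul_div, div_le_iff₀ hη]
      exact mul_le_mul_of_nonneg_left h1.le hβ.le
    linarith

end Pool.Agent.Lib.MP_0430e4_lc.AC
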