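import Pool.Agent.Lib.MP_0430e4_lc.Lower.Strip
import Pool.Agent.Lib.MP_0430e4_lc.LPLOW.CoefI

/-!
Project ALLCODES, part Y (helper13): the potential of branch I on the real axis, in strip coordinates.

`η > 0` half of the level spacing, nome `r = exp (-2 η)`, `z = zz r s = tanh (S (cL η) s)`,
`U(s) = Re GG r c s = (c - f0)/η s + S (cU η) s + log (1 - z²) / 2`.
-/

set_option autoImplicit false

open Finset Filter Topology

namespace Pool.Agent.Lib.MP_0430e4_lc.AC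

open LPLOW Lower

/-- the nome -/
noncomputable def nm (η : ℝ) : ℝ := Real.exp (-η) ^ 2

/-- `artanh z` on the real axis -/
noncomputable def Lr (η s : ℝ) : ℝ := (S (cL η) (s : ℂ)).re

/-- `dL/ds` -/
noncomputable def Ar (η s : ℝ) : ℝ := (S (cA η) (s : ℂ)).re

/-- `z` on the real axis -/
noncomputable def Zr (η s : ℝ) : ℝ := Real.tanh (Lr η s)

/-- the potential on the real axis -/
noncomputable def Ur (η c s : ℝ) : ℝ := (GG (nm η) c (s : ℂ)).re

section
variable {η : ℝ} (hη : 0 < η)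
include hη

theorem nm_pos : 0 < nm η := by
  unfold nm; positivity

theorem nm_lt : nm η < 1 := (rq (q_pos hη) (q_lt hη)).2

theorem eta_nm : eta (nm η) = η := eta_eq hη

omit hη in
theorem S_ofReal (c : ℤ → ℝ) (s : ℝ) : S c (s : ℂ) = (((S c (s : ℂ)).re : ℝ) : ℂ) := by
  apply Complex.ext
  · simp
  · rw [S_real_real _ (Complex.ofReal_im s)]; simp

theorem abs_re_lt {s : ℝ} (h0 : 0 ≤ s) (h1 : s < η) : |((s : ℂ)).re| < η := by
  rw [Complex.ofReal_re, abs_of_nonneg h0]; exact h1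

theorem hasDerivAt_Lr {s : ℝ} (hs : |s| < η) : HasDerivAt (Lr η) (Ar η s) s := by
  have h := hasDerivAt_L hη (s := (s : ℂ)) (by simpa using hs)
  exact h.real_of_complex

omit hη in
theorem Lr_zero : Lr η 0 = 0 := by
  unfold Lr
  exact L_re_imag _ (by simp)

omit hη in
theorem cA_nonneg (k : ℤ) : 0 ≤ cA η k := by
  unfold cA
  split_ifs
  · have := LPLOW.sech_pos ((k : ℝ) * η)
    positivity
  · exact le_rfl

theorem Ar_pos {s : ℝ} (hs : |s| < η) : 0 < Ar η s := by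
  unfold Ar
  have hd := (dec_cA hη).summable (s := (s : ℂ)) (by simpa using hs)
  have he : ∀ k : ℤ, (cA η k : ℂ) * Complex.exp (k * (s : ℂ)) =
      ((cA η k * Real.exp (k * s) : ℝ) : ℂ) := by
    intro k; push_cast; rfl
  have h1 : S (cA η) (s : ℂ) = ((∑' k : ℤ, cA η k * Real.exp (k * s) : ℝ) : ℂ) := by
    unfold S
    rw [Complex.ofReal_tsum]
    exact tsum_congr he
  have h2 : Summable fun k : ℤ => cA η k * Real.exp (k * s) := by
    have h3 : Summable fun k : ℤ => ((cA η k * Real.exp (k * s) : ℝ) : ℂ) :=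
      hd.congr he
    exact_mod_cast h3
  rw [h1, Complex.ofReal_re]
  refine h2.tsum_pos (fun k => mul_nonneg (cA_nonneg k) (Real.exp_pos _).le) 1 ?_
  apply mul_pos _ (Real.exp_pos _)
  unfold cA
  rw [if_pos (by decide)]
  have := LPLOW.sech_pos (((1 : ℤ) : ℝ) * η)
  positivity

theorem Lr_strictMono : StrictMonoOn (Lr η) (Set.Ico 0 η) := by
  apply strictMonoOn_of_deriv_pos (convex_Ico 0 η)
  · intro s hs
    exact (hasDerivAt_Lr hη (abs_lt.2 ⟨by linarith [hs.1], hs.2⟩)).continuousAt.continuousWithinAt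
  · intro s hs
    rw [interior_Ico] at hs
    have h : |s| < η := abs_lt.2 ⟨by linarith [hs.1], hs.2⟩
    rw [(hasDerivAt_Lr hη h).deriv]
    exact Ar_pos hη h

omit hη in
theorem Zr_zero : Zr η 0 = 0 := by
  unfold Zr; rw [Lr_zero, Real.tanh_zero]

omit hη in
theorem Zr_lt_one (s : ℝ) : Zr η s < 1 := Real.tanh_lt_one _

omit hη in
theorem tanh_strictMono : StrictMono Real.tanh := by
  intro a b hab
  rw [Real.tanh_eq_sinh_div_cosh, Real.tanh_eq_sinh_div_cosh,
    div_lt_div_iff₀ (Real.cosh_pos a) (Real.cosh_pos b)]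
  have h := Real.sinh_sub b a
  have h2 : 0 < Real.sinh (b - a) := Real.sinh_pos_iff.2 (by linarith)
  rw [h] at h2
  linarith [mul_comm (Real.cosh b) (Real.sinh a)]

theorem Zr_strictMono : StrictMonoOn (Zr η) (Set.Ico 0 η) := by
  intro a ha b hb hab
  exact tanh_strictMono (Lr_strictMono hη ha hb hab)

theorem Zr_pos {s : ℝ} (h0 : 0 < s) (h1 : s < η) : 0 < Zr η s := by
  have := Zr_strictMono hη ⟨le_rfl, hη⟩ ⟨h0.le, h1⟩ h0
  rwa [Zr_zero] at this

theorem Zr_nonneg {s : ℝ} (h0 : 0 ≤ s) (h1 : s < η) : 0 ≤ Zr η s := by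
  rcases h0.eq_or_lt with h | h
  · rw [← h, Zr_zero]
  · exact (Zr_pos hη h h1).le

theorem hasDerivAt_Zr {s : ℝ} (hs : |s| < η) :
    HasDerivAt (Zr η) ((1 - Zr η s ^ 2) * Ar η s) s := by
  have h1 : HasDerivAt Real.tanh (1 - Real.tanh (Lr η s) ^ 2) (Lr η s) := by
    have h2 := (Real.hasDerivAt_sinh (Lr η s)).div (Real.hasDerivAt_cosh (Lr η s))
      (Real.cosh_pos _).ne'
    have e : Real.tanh = Real.sinh / Real.cosh := by
      funext x; exact Real.tanh_eq_sinh_div_cosh x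
    rw [e]
    refine h2.congr_deriv ?_
    have hc := (Real.cosh_pos (Lr η s)).ne'
    show _ = 1 - (Real.sinh (Lr η s) / Real.cosh (Lr η s)) ^ 2
    field_simp
  exact h1.comp s (hasDerivAt_Lr hη hs)

theorem zz_real {s : ℝ} (h0 : 0 ≤ s) (h1 : s < η) : zz (nm η) (s : ℂ) = (Zr η s : ℂ) := by
  have h := one_sub_zz hη (s := (s : ℂ)) (by simpa using h0) (by simpa using h1)
  have hne := one_add_zz_ne hη (s := (s : ℂ)) (by simpa using h0) (by simpa using h1)
  have hL : S (cL η) (s : ℂ) = (Lr η s : ℂ) := S_ofReal _ s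
  rw [hL] at h
  have e1 : Complex.exp (-2 * (Lr η s : ℂ)) = ((Real.exp (-(2 * Lr η s)) : ℝ) : ℂ) := by
    push_cast; congr 1; ring
  rw [e1] at h
  have hE : 0 < Real.exp (-(2 * Lr η s)) := Real.exp_pos _
  have h2 : Zr η s * (1 + Real.exp (-(2 * Lr η s))) = 1 - Real.exp (-(2 * Lr η s)) := by
    unfold Zr
    set x := Lr η s
    rw [Real.tanh_eq_sinh_div_cosh, Real.sinh_eq, Real.cosh_eq]
    have h3 : Real.exp (-(2 * x)) = Real.exp (-x) * Real.exp (-x) := by
      rw [← Real.exp_add]; congr 1; ring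
    have h4 : Real.exp x * Real.exp (-x) = 1 := by
      rw [← Real.exp_add, add_neg_cancel, Real.exp_zero]
    have h5 := Real.exp_pos x
    have h6 := Real.exp_pos (-x)
    rw [h3, div_mul_eq_mul_div, div_eq_iff (by positivity)]
    linear_combination Real.exp (-x) * h4
  have h3 : ((Zr η s * (1 + Real.exp (-(2 * Lr η s))) : ℝ) : ℂ) =
      ((1 - Real.exp (-(2 * Lr η s)) : ℝ) : ℂ) := by rw [h2]
  rw [Complex.ofReal_mul, Complex.ofReal_add, Complex.ofReal_sub, Complex.ofReal_one] at h3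
  set E : ℂ := ((Real.exp (-(2 * Lr η s)) : ℝ) : ℂ)
  have hE1 : (1 : ℂ) + E ≠ 0 := by
    have : (1 : ℂ) + E = ((1 + Real.exp (-(2 * Lr η s)) : ℝ) : ℂ) := by
      rw [Complex.ofReal_add, Complex.ofReal_one]
    rw [this]
    exact_mod_cast (by positivity : (1 + Real.exp (-(2 * Lr η s)) : ℝ) ≠ 0)
  apply mul_right_cancel₀ hE1
  rw [h3]
  have h' : 1 - zz (nm η) (s : ℂ) = E * (1 + zz (nm η) (s : ℂ)) := h
  linear_combination -h'

omit hη in
theorem one_sub_Zr_sq_pos (s : ℝ) : 0 < 1 - Zr η s ^ 2 := by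
  have h1 := Real.tanh_lt_one (Lr η s)
  have h2 := Real.neg_one_lt_tanh (Lr η s)
  unfold Zr
  nlinarith

/-- the formula for the potential -/
theorem Ur_eq (c : ℝ) {s : ℝ} (h0 : 0 ≤ s) (h1 : s < η) :
    Ur η c s = (c - f0 (nm η)) / η * s + (S (Lower.cU η) (s : ℂ)).re +
      Real.log (1 - Zr η s ^ 2) / 2 := by
  have hs0 : 0 ≤ ((s : ℂ)).re := by simpa using h0
  have hs1 : ((s : ℂ)).re < η := by simpa using h1
  have hU := S_cU hη hs0 hs1
  have hsq := one_sub_zz_sq hη hs0 hs1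
  have hz := zz_real hη h0 h1
  unfold Ur
  rw [GG_re, eta_nm hη, Complex.ofReal_re]
  have e1 : (S (Lower.cU η) (s : ℂ)).re = -(KK (nm η) (Complex.exp (2 * (s : ℂ)))).re +
      (T2 (fa (nm η)) (Complex.exp (2 * (s : ℂ)))).re / 2 := by
    have h2 : S (Lower.cU η) (s : ℂ) = -KK (nm η) (Complex.exp (2 * (s : ℂ))) +
        (1 / 2) * T2 (fa (nm η)) (Complex.exp (2 * (s : ℂ))) := hU
    rw [h2]
    have h3 : (1 / 2 : ℂ) * T2 (fa (nm η)) (Complex.exp (2 * (s : ℂ)))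
        = (((1 / 2 : ℝ)) : ℂ) * T2 (fa (nm η)) (Complex.exp (2 * (s : ℂ))) := by push_cast; rfl
    rw [h3, Complex.add_re, Complex.neg_re, Complex.re_ofReal_mul]
    ring
  have e2 : Real.log (1 - Zr η s ^ 2) = 2 * f0 (nm η) -
      (T2 (fa (nm η)) (Complex.exp (2 * (s : ℂ)))).re := by
    have h2 : (1 : ℂ) - zz (nm η) (s : ℂ) ^ 2 = Complex.exp (2 * (f0 (nm η) : ℂ) -
        T2 (fa (nm η)) (Complex.exp (2 * (s : ℂ)))) := hsq
    rw [hz] at h2
    have h3 : (1 : ℂ) - (Zr η s : ℂ) ^ 2 = ((1 - Zr η s ^ 2 : ℝ) : ℂ) := by push_cast; rfl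
    rw [h3] at h2
    have h4 := congrArg norm h2
    rw [Complex.norm_real, Real.norm_eq_abs, abs_of_pos (one_sub_Zr_sq_pos s),
      Complex.norm_exp] at h4
    rw [h4, Real.log_exp]
    simp
  rw [e1, e2]
  ring

theorem Ur_le (c : ℝ) {s : ℝ} (h0 : 0 ≤ s) (h1 : s < η) :
    Ur η c s ≤ (c - f0 (nm η)) / η * s + (S (Lower.cU η) (s : ℂ)).re := by
  rw [Ur_eq hη c h0 h1]
  have h2 : Real.log (1 - Zr η s ^ 2) ≤ 0 := by
    apply Real.log_nonpos (one_sub_Zr_sq_pos s).le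
    nlinarith [sq_nonneg (Zr η s)]
  linarith

theorem Ur_add (c ε s : ℝ) : Ur η (c + ε) s = Ur η c s + ε / η * s := by
  unfold Ur
  rw [GG_re, GG_re, eta_nm hη, Complex.ofReal_re]
  ring

/-- derivative at zero of the majorant of the potential -/
theorem hasDerivAt_maj (κ : ℝ) : HasDerivAt (fun s : ℝ => κ * s + (S (Lower.cU η) (s : ℂ)).re)
    (κ + ((S (cS η) 0).re - 1) / 4) 0 := by
  have h1 := (Lower.hasDerivAt_U hη (s := ((0 : ℝ) : ℂ)) (by simpa using hη)).real_of_complex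
  have h2 : HasDerivAt (fun s : ℝ => κ * s) κ 0 := by
    simpa using (hasDerivAt_id (0 : ℝ)).const_mul κ
  refine (h2.add h1).congr_deriv ?_
  rw [Complex.ofReal_zero]
  congr 1
  have h3 : (S (cS η) 0 - 1) / 4 = ((((1 : ℝ) / 4 : ℝ)) : ℂ) * (S (cS η) 0 - 1) := by
    push_cast; ring
  rw [h3, Complex.re_ofReal_mul, Complex.sub_re, Complex.one_re]
  ring

omit hη in
theorem maj_zero (κ : ℝ) : κ * 0 + (S (Lower.cU η) ((0 : ℝ) : ℂ)).re = 0 := by
  have h := UU_re_imag (η := η) κ ((0 : ℝ) : ℂ) (by simp)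
  unfold UU at h
  rw [Complex.add_re, Complex.re_ofReal_mul, Complex.ofReal_re] at h
  exact h

end

/-- the slope at zero at the critical value -/
theorem slope_crit {t : ℝ} (ht : 0 < t) :
    (Exact.cval t - f0 (nm (t / 2))) / (t / 2) + ((S (cS (t / 2)) 0).re - 1) / 4 =
      Exact.sI t * Ar (t / 2) 0 := by
  have hη : 0 < t / 2 := by linarith
  have h1 := cval_eq_f0 ht
  rw [r_eq hη] at h1
  have h2 : (Exact.cval t - f0 (nm (t / 2))) / (t / 2) = (1 - Pos.K1 (t / 2)) / 4 := by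
    unfold nm
    rw [h1]
    field_simp
    ring
  have h3 := ident_I hη (s := 0) (by simpa using hη)
  rw [Pos.SS_pi] at h3
  have h4 := congrArg Complex.re h3
  have hT : S (cT (t / 2)) 0 = (((S (cT (t / 2)) 0).re : ℝ) : ℂ) := by
    have := S_ofReal (cT (t / 2)) 0
    simpa using this
  have hA : S (cA (t / 2)) 0 = (((S (cA (t / 2)) 0).re : ℝ) : ℂ) := by
    have := S_ofReal (cA (t / 2)) 0
    simpa using this
  have hS : S (cS (t / 2)) 0 = (((S (cS (t / 2)) 0).re : ℝ) : ℂ) := by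
    have := S_ofReal (cS (t / 2)) 0
    simpa using this
  have hA0 := A_zero_pos hη
  have h5 : (S (cT (t / 2)) 0).re * (S (cA (t / 2)) 0).re =
      (S (cA (t / 2)) 0).re / 4 * ((S (cS (t / 2)) 0).re - Pos.K1 (t / 2)) := by
    rw [hT, hA, hS] at h3
    have h6 : (((S (cT (t / 2)) 0).re * (S (cA (t / 2)) 0).re : ℝ) : ℂ) =
        (((S (cA (t / 2)) 0).re / 4 * ((S (cS (t / 2)) 0).re - Pos.K1 (t / 2)) : ℝ) : ℂ) := by
      push_cast
      simpa using h3
    exact_mod_cast h6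
  have h7 : (S (cT (t / 2)) 0).re = ((S (cS (t / 2)) 0).re - Pos.K1 (t / 2)) / 4 := by
    apply mul_right_cancel₀ hA0.ne'
    rw [h5]; ring
  have h8 : Ar (t / 2) 0 = (S (cA (t / 2)) 0).re := by
    unfold Ar; rw [Complex.ofReal_zero]
  rw [h2, ← sI_eq ht, h8, div_mul_cancel₀ _ hA0.ne', h7]
  ring

end Pool.Agent.Lib.MP_0430e4_lc.AC
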