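import Pool.Agent.Lib.MP_0430e4_lc.AC.YT2
import Pool.Agent.Lib.MP_0430e4_lc.BY.H.UB
import Pool.Agent.Lib.MP_0430e4_lc.BY.H.Mp

/-!
Project ALLCODES, part Y (helper13): near-optimal certificates are large at every real point
(branch I, any modulus). `lbI` is the general form of `BY.lb`.
-/

set_option autoImplicit false

open Finset Filter Topology Metric Set

namespace Pool.Agent.Lib.MP_0430e4_lc.AC

open LPLOW Lower BY

/-- A function bounded by one in the disc with diameter `[0, x0]` and by `q` near `x0`. -/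
theorem touch2 {G : ℂ → ℂ} {x0 ρ q : ℝ} (hx0 : 0 < x0)
    (hd : ∀ z : ℂ, ‖z - x0 / 2‖ ≤ x0 / 2 → DifferentiableAt ℂ G z)
    (h1 : ∀ z : ℂ, ‖z - x0 / 2‖ ≤ x0 / 2 → ‖G z‖ ≤ 1)
    (hq : ∀ z : ℂ, ‖z - x0 / 2‖ ≤ x0 / 2 → ‖z - x0‖ ≤ ρ → ‖G z‖ ≤ q) {r : ℝ} (hr : 0 < r)
    (hr2 : 2 * r ≤ x0) {m : ℕ} (hm : 1 ≤ m) (hmr : Real.pi / m ≤ 2 * r * ρ / x0 ^ 2) :
    ‖G (r : ℂ)‖ ^ m ≤ q := by
  set s : ℝ := 1 - 2 * r / x0 with hs
  have hs0 : 0 ≤ s := by
    rw [hs, sub_nonneg, div_le_one hx0]; exact hr2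
  have hs1 : 0 < 1 - s := by
    rw [hs]
    have : 0 < 2 * r / x0 := by positivity
    linarith
  have hρ : 0 ≤ ρ := by
    have h2 : 0 < Real.pi / m := by
      have := Real.pi_pos
      have hm0 : (0 : ℝ) < m := by exact_mod_cast hm
      positivity
    have h3 : 0 < 2 * r * ρ / x0 ^ 2 := lt_of_lt_of_le h2 hmr
    by_contra h4
    push Not at h4
    have h5 : 2 * r * ρ / x0 ^ 2 ≤ 0 := by
      apply div_nonpos_of_nonpos_of_nonneg _ (by positivity)
      nlinarith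
    linarith
  have hlow : ∀ t : ℂ, ‖t‖ ≤ 1 → 1 - s ≤ ‖1 - s * t‖ := by
    intro t ht
    have h2 : ‖(s : ℂ) * t‖ ≤ s := by
      rw [norm_mul, Complex.norm_real, Real.norm_eq_abs, abs_of_nonneg hs0]
      nlinarith [norm_nonneg t]
    have h3 := norm_sub_norm_le (1 : ℂ) (s * t)
    rw [norm_one] at h3
    linarith
  have hne : ∀ t : ℂ, ‖t‖ ≤ 1 → 1 - s * t ≠ 0 := by
    intro t ht h
    have := hlow t ht
    rw [h, norm_zero] at this
    linarith
  set φ : ℂ → ℂ := fun t => r * (1 + t) / (1 - s * t) with hφ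
  have hsx : (x0 / 2) * s = x0 / 2 - r := by
    rw [hs]; field_simp
  have hsxC : ((x0 : ℂ) / 2) * s = x0 / 2 - r := by
    have : ((x0 / 2 * s : ℝ) : ℂ) = ((x0 / 2 - r : ℝ) : ℂ) := by rw [hsx]
    push_cast at this
    exact this
  have hc : ∀ t : ℂ, ‖t‖ ≤ 1 → φ t - x0 / 2 = x0 / 2 * ((t - s) / (1 - s * t)) := by
    intro t ht
    have h2 := hne t ht
    have h3 : φ t * (1 - s * t) = r * (1 + t) := div_mul_cancel₀ _ h2
    have h4 : (t - s) / (1 - s * t) * (1 - s * t) = t - s := div_mul_cancel₀ _ h2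
    apply mul_right_cancel₀ h2
    linear_combination h3 - (x0 : ℂ) / 2 * h4 + (1 + t) * hsxC
  have hx : ∀ t : ℂ, ‖t‖ ≤ 1 → φ t - x0 = (x0 - r) * ((t - 1) / (1 - s * t)) := by
    intro t ht
    have h2 := hne t ht
    have h3 : φ t * (1 - s * t) = r * (1 + t) := div_mul_cancel₀ _ h2
    have h4 : (t - 1) / (1 - s * t) * (1 - s * t) = t - 1 := div_mul_cancel₀ _ h2
    apply mul_right_cancel₀ h2
    linear_combination h3 - ((x0 : ℂ) - r) * h4 + (2 * t) * hsxC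
  have hmob : ∀ t : ℂ, ‖t‖ ≤ 1 → ‖(t - s) / (1 - s * t)‖ ≤ 1 := by
    intro t ht
    rw [norm_div, div_le_one (norm_pos_iff.mpr (hne t ht))]
    rw [← sq_le_sq₀ (norm_nonneg _) (norm_nonneg _), ← Complex.normSq_eq_norm_sq,
      ← Complex.normSq_eq_norm_sq, Complex.normSq_apply, Complex.normSq_apply]
    have h2 : t.re ^ 2 + t.im ^ 2 ≤ 1 := by
      have h3 := Complex.normSq_eq_norm_sq t
      rw [Complex.normSq_apply] at h3
      nlinarith [norm_nonneg t]
    simp only [Complex.sub_re, Complex.ofReal_re, Complex.sub_im, Complex.ofReal_im, sub_zero,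
      Complex.one_re, Complex.mul_re, zero_mul, Complex.one_im, Complex.mul_im, add_zero, zero_sub]
    have h4 : 0 ≤ (1 - s ^ 2) * (1 - (t.re ^ 2 + t.im ^ 2)) := by
      apply mul_nonneg _ (by linarith)
      nlinarith
    nlinarith
  have hcen : ∀ t : ℂ, ‖t‖ ≤ 1 → ‖φ t - x0 / 2‖ ≤ x0 / 2 := by
    intro t ht
    rw [hc t ht, norm_mul]
    have h2 : ‖(x0 : ℂ) / 2‖ = x0 / 2 := by
      rw [norm_div, Complex.norm_real, Real.norm_eq_abs, abs_of_pos hx0]
      norm_num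
    rw [h2]
    calc x0 / 2 * ‖(t - s) / (1 - s * t)‖ ≤ x0 / 2 * 1 :=
          mul_le_mul_of_nonneg_left (hmob t ht) (by positivity)
      _ = x0 / 2 := mul_one _
  have hφ0 : φ 0 = r := by rw [hφ]; simp
  have hdφ : ∀ t : ℂ, ‖t‖ ≤ 1 → DifferentiableAt ℂ φ t := by
    intro t ht
    rw [hφ]
    exact (((differentiableAt_const _).add differentiableAt_id).const_mul _).div
      ((differentiableAt_const _).sub (differentiableAt_id.const_mul _)) (hne t ht)
  have hdG : ∀ t : ℂ, ‖t‖ ≤ 1 → DifferentiableAt ℂ (G ∘ φ) t := by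
    intro t ht
    exact (hd _ (hcen t ht)).comp t (hdφ t ht)
  have hdc : DiffContOnCl ℂ (G ∘ φ) (ball 0 1) := by
    constructor
    · intro t ht
      rw [mem_ball_zero_iff] at ht
      exact (hdG t ht.le).differentiableWithinAt
    · intro t ht
      rw [closure_ball 0 one_ne_zero, mem_closedBall_zero_iff] at ht
      exact (hdG t ht).continuousAt.continuousWithinAt
  have h5 := rot_bound hdc (α := 2 * r * ρ / x0 ^ 2) (q := q) (fun t ht => ?_) (fun t ht ht2 => ?_) hm hmr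
  · rwa [Function.comp, hφ0] at h5
  · exact h1 _ (hcen t ht.le)
  · refine hq _ (hcen t ht.le) ?_
    rw [hx t ht.le, norm_mul, norm_div]
    have h6 : ‖(x0 : ℂ) - r‖ = x0 - r := by
      rw [← Complex.ofReal_sub, Complex.norm_real, Real.norm_eq_abs, abs_of_nonneg (by linarith)]
    rw [h6]
    have h7 := hlow t ht.le
    have h8 : 1 - s = 2 * r / x0 := by rw [hs]; ring
    have h9 : ‖t - 1‖ / ‖1 - s * t‖ ≤ 2 * r * ρ / x0 ^ 2 / (2 * r / x0) := by
      rw [← h8]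
      exact div_le_div₀ (by positivity) ht2 hs1 h7
    calc (x0 - r) * (‖t - 1‖ / ‖1 - s * t‖) ≤ (x0 - r) * (2 * r * ρ / x0 ^ 2 / (2 * r / x0)) :=
          mul_le_mul_of_nonneg_left h9 (by linarith)
      _ = (x0 - r) / x0 * ρ := by field_simp
      _ ≤ 1 * ρ := by
          apply mul_le_mul_of_nonneg_right _ hρ
          rw [div_le_one hx0]
          linarith
      _ = ρ := one_mul _

/-- `exp (u - u²) ≤ 1 + u` -/
theorem exp_sub_sq_le {u : ℝ} (hu0 : 0 ≤ u) (hu1 : u ≤ 1) : Real.exp (u - u ^ 2) ≤ 1 + u := by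
  have e4 := Real.one_sub_le_exp_neg (u - u ^ 2)
  have e5 : 0 < 1 - (u - u ^ 2) := by nlinarith [sq_nonneg (u - 1 / 2)]
  have e6 : Real.exp (u - u ^ 2) * Real.exp (-(u - u ^ 2)) = 1 := by
    rw [← Real.exp_add, add_neg_cancel, Real.exp_zero]
  have e7 : Real.exp (u - u ^ 2) * (1 - (u - u ^ 2)) ≤ 1 :=
    (mul_le_mul_of_nonneg_left e4 (Real.exp_pos _).le).trans e6.le
  have e8 : 1 ≤ (1 + u) * (1 - (u - u ^ 2)) := by nlinarith [pow_nonneg hu0 3]
  exact le_of_mul_le_mul_right (e7.trans e8) e5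

/-- a function with derivative `d` at zero is at least `(d - θ) s` near zero -/
theorem near_ge {g : ℝ → ℝ} {d θ : ℝ} (hθ : 0 < θ) (h0 : g 0 = 0) (hg : HasDerivAt g d 0) :
    ∃ δ : ℝ, 0 < δ ∧ ∀ s : ℝ, 0 < s → s < δ → (d - θ) * s ≤ g s := by
  have h2 := hg.tendsto_slope_zero_right
  have h3 := (tendsto_order.1 h2).1 (d - θ) (by linarith)
  rw [eventually_nhdsWithin_iff, Metric.eventually_nhds_iff] at h3
  obtain ⟨δ, hδ, h4⟩ := h3
  refine ⟨δ, hδ, fun r hr hrδ => ?_⟩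
  have h5 := h4 (y := r) (by rw [Real.dist_eq, sub_zero, abs_of_pos hr]; exact hrδ) hr
  simp only [zero_add, h0, sub_zero, smul_eq_mul] at h5
  rw [lt_inv_mul_iff₀ hr] at h5
  linarith [mul_comm r (d - θ)]

theorem near_le {g : ℝ → ℝ} {d θ : ℝ} (hθ : 0 < θ) (h0 : g 0 = 0) (hg : HasDerivAt g d 0) :
    ∃ δ : ℝ, 0 < δ ∧ ∀ s : ℝ, 0 < s → s < δ → g s ≤ (d + θ) * s := by
  obtain ⟨δ, hδ, h⟩ := near_ge hθ (g := fun s => -g s) (by simp [h0]) hg.neg
  refine ⟨δ, hδ, fun s h1 h2 => ?_⟩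
  have := h s h1 h2
  linarith

/-- **Lower bound**, abstract form. -/
theorem lo_core {η c0 σ : ℝ} (hη : 0 < η) (hσ0 : 0 < σ)
    (hcrit : (c0 - f0 (nm η)) / η + ((S (cS η) 0).re - 1) / 4 ≤ σ * Ar η 0)
    {s0 β : ℝ} (hs0 : 0 < s0) (hs1 : s0 < η) (hβ : 0 < β) :
    ∃ ε0 : ℝ, 0 < ε0 ∧ ∀ ε : ℝ, 0 ≤ ε → ε ≤ ε0 → ∀ (n : ℕ) (P : ℂ → ℂ), 1 ≤ n →
      Differentiable ℂ P →
      (∀ z : ℂ, ‖z‖ = 1 → ‖P z‖ ≤ Real.exp (n * (c0 + ε))) →
      (∀ y : ℝ, ‖P ((y : ℂ) * Complex.I)‖ ≤ √(1 + y ^ 2) ^ n) →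
      (∀ (z : ℂ) (x : ℝ), ‖z‖ ≤ x → ‖P z‖ ≤ ‖P (x : ℂ)‖) →
      (∀ r : ℝ, 0 ≤ r → 1 + σ * n * r ≤ ‖P (r : ℂ)‖) →
      Real.exp (n * (Ur η c0 s0 - β)) ≤ ‖P (Zr η s0 : ℂ)‖ := by
  have hr0 := nm_pos hη
  have hr1 := nm_lt hη
  have hen := eta_nm hη
  have hpi := Real.pi_pos
  -- the point `s1 < s0`
  have hGc : ∀ s : ℂ, 0 ≤ s.re → s.re ≤ η → ContinuousAt (fun s => (GG (nm η) c0 s).re) s := by
    intro s h0 h1
    exact Complex.continuous_re.continuousAt.comp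
      (GG_diff hr0 hr1 c0 h0 (by rw [hen]; exact h1)).continuousAt
  have hUc : ContinuousAt (Ur η c0) s0 := by
    have h1 := hGc (s0 : ℂ) (by simpa using hs0.le) (by simpa using hs1.le)
    exact ContinuousAt.comp (f := fun x : ℝ => (x : ℂ)) h1 Complex.continuous_ofReal.continuousAt
  obtain ⟨d1, hd1, hU1⟩ := Metric.continuousAt_iff.mp hUc (β / 4) (by positivity)
  set h : ℝ := min (d1 / 2) (s0 / 2) with hh
  have hh0 : 0 < h := lt_min (by positivity) (by positivity)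
  set s1 : ℝ := s0 - h with hs1d
  have h11 : h ≤ s0 / 2 := min_le_right _ _
  have h12 : h ≤ d1 / 2 := min_le_left _ _
  have hs10 : 0 < s1 := by rw [hs1d]; linarith
  have hs1lt : s1 < s0 := by rw [hs1d]; linarith
  have hs1η : s1 < η := hs1lt.trans hs1
  have hU2 : Ur η c0 s0 - β / 4 ≤ Ur η c0 s1 := by
    have := hU1 (x := s1) (by rw [Real.dist_eq, hs1d, abs_lt]; constructor <;> linarith)
    rw [Real.dist_eq] at this
    linarith [(abs_lt.mp this).1]
  have hZ : Zr η s1 < Zr η s0 :=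
    Zr_strictMono hη ⟨hs10.le, hs1η⟩ ⟨hs0.le, hs1⟩ hs1lt
  -- the radius
  have hc1 : ContinuousAt (fun s : ℂ => ‖zz (nm η) s‖) (s1 : ℂ) :=
    (zz_diff hr0 hr1 (by simpa using hs10.le) (by rw [hen]; simpa using hs1η.le)).continuousAt.norm
  have hz1 : ‖zz (nm η) (s1 : ℂ)‖ = Zr η s1 := by
    rw [zz_real hη hs10.le hs1η, Complex.norm_real, Real.norm_eq_abs,
      abs_of_nonneg (Zr_nonneg hη hs10.le hs1η)]
  obtain ⟨d2, hd2, hz2⟩ := Metric.continuousAt_iff.mp hc1 (Zr η s0 - Zr η s1) (by linarith)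
  obtain ⟨d3, hd3, hG3⟩ := Metric.continuousAt_iff.mp
    (hGc (s1 : ℂ) (by simpa using hs10.le) (by simpa using hs1η.le)) (β / 4) (by positivity)
  set ρ : ℝ := min (min (d2 / 2) (d3 / 2)) s1 with hρd
  have hρ : 0 < ρ := lt_min (lt_min (by positivity) (by positivity)) hs10
  have hρ2 : ρ < d2 := lt_of_le_of_lt ((min_le_left _ _).trans (min_le_left _ _)) (by linarith)
  have hρ3 : ρ < d3 := lt_of_le_of_lt ((min_le_left _ _).trans (min_le_right _ _)) (by linarith)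
  have hρ4 : ρ ≤ s1 := min_le_right _ _
  -- small constants
  have hA0 : 0 < Ar η 0 := Ar_pos hη (by simpa using hη)
  set D : ℝ := σ * Ar η 0 with hD
  have hD0 : 0 < D := mul_pos hσ0 hA0
  -- total loss per unit: θ; number of rotations m ≈ π s1² / (2 s ρ) * 2
  set Q : ℝ := Real.pi * s1 ^ 2 / ρ with hQ
  have hQ0 : 0 < Q := by positivity
  set θ : ℝ := min (β / (16 * Q)) (D / 2) with hθd
  have hθ : 0 < θ := lt_min (by positivity) (by positivity)
  have hθ1 : θ ≤ β / (16 * Q) := min_le_left _ _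
  have hθ2 : θ ≤ D / 2 := min_le_right _ _
  obtain ⟨e1, he1, hn1⟩ := near_le hθ (maj_zero ((c0 - f0 (nm η)) / η)) (hasDerivAt_maj hη _)
  have hZd : HasDerivAt (fun s => σ * Zr η s) D 0 := by
    have h2 := (hasDerivAt_Zr hη (s := 0) (by simpa using hη)).const_mul σ
    refine h2.congr_deriv ?_
    rw [Zr_zero]; ring
  obtain ⟨e2, he2, hn2⟩ := near_ge hθ (by rw [Zr_zero, mul_zero]) hZd
  refine ⟨θ * η, by positivity, ?_⟩
  intro ε hε hεθ n P hn hP h1 h0 hmono hlow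
  by_contra hcon
  push Not at hcon
  have hn0 : (0 : ℝ) < n := by exact_mod_cast hn
  set s : ℝ := min (min (s1 / 2) (min (e1 / 2) (e2 / 2))) (min (1 / (n * D)) (θ / (n * D ^ 2)))
    with hsd
  have hs : 0 < s := by
    apply lt_min (lt_min (by positivity) (lt_min (by positivity) (by positivity)))
      (lt_min (by positivity) (by positivity))
  have hsa : s ≤ s1 / 2 := (min_le_left _ _).trans (min_le_left _ _)
  have hsb : s ≤ e1 / 2 := (min_le_left _ _).trans ((min_le_right _ _).trans (min_le_left _ _))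
  have hsc : s ≤ e2 / 2 := (min_le_left _ _).trans ((min_le_right _ _).trans (min_le_right _ _))
  have hsd1 : n * D * s ≤ 1 := by
    have h : s ≤ 1 / (n * D) := (min_le_right _ _).trans (min_le_left _ _)
    rw [le_div_iff₀ (by positivity)] at h
    linarith
  have hse : n * D ^ 2 * s ≤ θ := by
    have h : s ≤ θ / (n * D ^ 2) := (min_le_right _ _).trans (min_le_right _ _)
    rw [le_div_iff₀ (by positivity)] at h
    linarith
  have hsη : s < η := by linarith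
  -- the function
  set G : ℂ → ℂ := fun w => P (zz (nm η) w) * Complex.exp (-((n : ℂ) * GG (nm η) (c0 + ε) w)) with hG
  have hnG : ∀ w : ℂ, ‖G w‖ = ‖P (zz (nm η) w)‖ *
      Real.exp (-(n * (GG (nm η) (c0 + ε) w).re)) := by
    intro w
    rw [hG]
    simp only [norm_mul, Complex.norm_exp, Complex.neg_re]
    have h5 : ((n : ℂ) * GG (nm η) (c0 + ε) w).re = n * (GG (nm η) (c0 + ε) w).re := by
      rw [← Complex.ofReal_natCast, Complex.re_ofReal_mul]
    rw [h5]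
  have hGG : ∀ w : ℂ, (GG (nm η) (c0 + ε) w).re = (GG (nm η) c0 w).re + ε / η * w.re := by
    intro w
    rw [GG_re, GG_re, hen]
    ring
  have hdisc : ∀ z : ℂ, ‖z - s1 / 2‖ ≤ s1 / 2 → 0 ≤ z.re ∧ z.re ≤ η := by
    intro z hz
    have h3 := abs_le.mp (Complex.abs_re_le_norm (z - s1 / 2))
    have h4 : (z - (s1 : ℂ) / 2).re = z.re - s1 / 2 := by
      rw [Complex.sub_re]
      congr 1
      have : (s1 : ℂ) / 2 = ((s1 / 2 : ℝ) : ℂ) := by push_cast; ring
      rw [this, Complex.ofReal_re]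
    rw [h4] at h3
    constructor <;> linarith [h3.1, h3.2]
  have hG1 : ∀ z : ℂ, ‖z - s1 / 2‖ ≤ s1 / 2 → ‖G z‖ ≤ 1 := by
    intro z hz
    obtain ⟨ha, hb⟩ := hdisc z hz
    have h3 := three_lines hr0 hr1 (c0 + ε) hP (N := 1) n (fun z hz => by rw [one_mul]; exact h1 z hz)
      (fun y => by rw [one_mul]; exact h0 y) ha (by rw [hen]; exact hb)
    rw [hnG, Real.exp_neg, ← div_eq_mul_inv, div_le_one (Real.exp_pos _)]
    linarith
  have hGd : ∀ z : ℂ, ‖z - s1 / 2‖ ≤ s1 / 2 → DifferentiableAt ℂ G z := by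
    intro z hz
    obtain ⟨ha, hb⟩ := hdisc z hz
    have hb' : z.re ≤ eta (nm η) := by rw [hen]; exact hb
    exact ((hP _).comp z (zz_diff hr0 hr1 ha hb')).mul
      (((GG_diff hr0 hr1 (c0 + ε) ha hb').const_mul (n : ℂ)).neg.cexp)
  have hGq : ∀ z : ℂ, ‖z - s1 / 2‖ ≤ s1 / 2 → ‖z - s1‖ ≤ ρ → ‖G z‖ ≤ Real.exp (-(n * (β / 2))) := by
    intro z hz hzρ
    obtain ⟨ha, hb⟩ := hdisc z hz
    have h2 : ‖zz (nm η) z‖ ≤ Zr η s0 := by
      have h3 := hz2 (x := z) (by rw [dist_eq_norm]; exact lt_of_le_of_lt hzρ hρ2)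
      rw [Real.dist_eq, hz1] at h3
      linarith [(abs_lt.mp h3).2]
    have h4 : ‖P (zz (nm η) z)‖ ≤ Real.exp (n * (Ur η c0 s0 - β)) := (hmono _ _ h2).trans hcon.le
    have h5 : Ur η c0 s1 - β / 4 ≤ (GG (nm η) c0 z).re := by
      have h3 := hG3 (x := z) (by rw [dist_eq_norm]; exact lt_of_le_of_lt hzρ hρ3)
      rw [Real.dist_eq] at h3
      have h6 : (GG (nm η) c0 (s1 : ℂ)).re = Ur η c0 s1 := rfl
      linarith [(abs_lt.mp h3).1]
    have h6 : (GG (nm η) c0 z).re ≤ (GG (nm η) (c0 + ε) z).re := by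
      rw [hGG]
      have : 0 ≤ ε / η * z.re := by positivity
      linarith
    rw [hnG]
    calc ‖P (zz (nm η) z)‖ * Real.exp (-(n * (GG (nm η) (c0 + ε) z).re))
        ≤ Real.exp (n * (Ur η c0 s0 - β)) * Real.exp (-(n * (Ur η c0 s0 - β / 2))) := by
          apply mul_le_mul h4 _ (Real.exp_pos _).le (Real.exp_pos _).le
          apply Real.exp_le_exp.2
          apply neg_le_neg
          apply mul_le_mul_of_nonneg_left _ hn0.le
          linarith
      _ = Real.exp (-(n * (β / 2))) := by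
          rw [← Real.exp_add]; congr 1; ring
  -- rotations
  set m : ℕ := ⌈Q / (2 * s)⌉₊ with hm
  have hQs : 0 < Q / (2 * s) := by positivity
  have hm1 : 1 ≤ m := by
    rw [hm, Nat.one_le_ceil_iff]; exact hQs
  have hm0 : (0 : ℝ) < m := by exact_mod_cast hm1
  have hm2 : Q / (2 * s) ≤ m := Nat.le_ceil _
  have hm4 : Real.pi / m ≤ 2 * s * ρ / s1 ^ 2 := by
    rw [div_le_iff₀ hm0, div_mul_eq_mul_div, le_div_iff₀ (by positivity)]
    rw [div_le_iff₀ (by positivity)] at hm2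
    have h3 : Real.pi * s1 ^ 2 = Q * ρ := by rw [hQ]; field_simp
    rw [h3]
    calc Q * ρ ≤ m * (2 * s) * ρ := mul_le_mul_of_nonneg_right hm2 hρ.le
      _ = _ := by ring
  have hT := touch2 hs10 hGd hG1 hGq hs (by linarith) hm1 hm4
  have hlowG : Real.exp (-(n * (4 * θ * s))) ≤ ‖G (s : ℂ)‖ := by
    rw [hnG, zz_real hη hs.le hsη]
    have hZs := Zr_nonneg hη hs.le hsη
    have h2 := hlow (Zr η s) hZs
    have h3 := hn2 s hs (by linarith)
    have h4 := hn1 s hs (by linarith)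
    have h5 : (GG (nm η) (c0 + ε) (s : ℂ)).re ≤ (D + θ) * s + θ * s := by
      rw [hGG]
      have h6 : (GG (nm η) c0 (s : ℂ)).re = Ur η c0 s := rfl
      have h7 := Ur_le hη c0 hs.le hsη
      have h8 : ((c0 - f0 (nm η)) / η + ((S (cS η) 0).re - 1) / 4 + θ) * s ≤ (D + θ) * s := by
        apply mul_le_mul_of_nonneg_right _ hs.le
        linarith
      have h9 : ε / η * ((s : ℂ)).re ≤ θ * s := by
        rw [Complex.ofReal_re]
        apply mul_le_mul_of_nonneg_right _ hs.le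
        rw [div_le_iff₀ hη]
        exact hεθ
      rw [h6]
      linarith
    set u : ℝ := n * (D - θ) * s with hu
    have hDθ : 0 < D - θ := by linarith
    have hu0 : 0 ≤ u := by positivity
    have hu1 : u ≤ 1 := by
      refine le_trans ?_ hsd1
      rw [hu]
      apply mul_le_mul_of_nonneg_right _ hs.le
      apply mul_le_mul_of_nonneg_left _ hn0.le
      linarith
    have hu2 : u ^ 2 ≤ n * (θ * s) := by
      have h6 : u ≤ n * D * s := by
        rw [hu]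
        apply mul_le_mul_of_nonneg_right _ hs.le
        apply mul_le_mul_of_nonneg_left _ hn0.le
        linarith
      calc u ^ 2 ≤ (n * D * s) ^ 2 := pow_le_pow_left₀ hu0 h6 2
        _ = (n * D ^ 2 * s) * (n * s) := by ring
        _ ≤ θ * (n * s) := mul_le_mul_of_nonneg_right hse (by positivity)
        _ = n * (θ * s) := by ring
    have h7 : Real.exp (u - u ^ 2) ≤ ‖P (Zr η s : ℂ)‖ := by
      refine (exp_sub_sq_le hu0 hu1).trans (le_trans ?_ h2)
      have h8 : u ≤ n * (σ * Zr η s) := by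
        calc u = n * ((D - θ) * s) := by rw [hu]; ring
          _ ≤ n * (σ * Zr η s) := mul_le_mul_of_nonneg_left h3 hn0.le
      linarith [h8, (by ring : (n : ℝ) * (σ * Zr η s) = σ * n * Zr η s)]
    calc Real.exp (-(n * (4 * θ * s)))
        ≤ Real.exp (u - u ^ 2) * Real.exp (-(n * ((D + θ) * s + θ * s))) := by
          rw [← Real.exp_add]
          apply Real.exp_le_exp.2
          have e1 : (n : ℝ) * ((D + θ) * s + θ * s) = u + 3 * (n * (θ * s)) := by rw [hu]; ring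
          have e2 : (n : ℝ) * (4 * θ * s) = 4 * (n * (θ * s)) := by ring
          rw [e1, e2]
          linarith only [hu2]
      _ ≤ ‖P (Zr η s : ℂ)‖ * Real.exp (-(n * (GG (nm η) (c0 + ε) (s : ℂ)).re)) := by
          apply mul_le_mul h7 _ (Real.exp_pos _).le (norm_nonneg _)
          apply Real.exp_le_exp.2
          apply neg_le_neg
          exact mul_le_mul_of_nonneg_left h5 hn0.le
  have h9 : Real.exp (-(n * (4 * θ * s))) ^ m ≤ Real.exp (-(n * (β / 2))) :=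
    (pow_le_pow_left₀ (Real.exp_pos _).le hlowG m).trans hT
  rw [← Real.exp_nat_mul, Real.exp_le_exp] at h9
  have h10 : (n : ℝ) * (β / 2) ≤ n * (4 * θ * (m * s)) := by linarith
  have h11 : β / 2 ≤ 4 * θ * (m * s) := le_of_mul_le_mul_left h10 hn0
  have hm3 : (m : ℝ) * s < Q / 2 + s := by
    have h2 : (m : ℝ) < Q / (2 * s) + 1 := Nat.ceil_lt_add_one hQs.le
    calc (m : ℝ) * s < (Q / (2 * s) + 1) * s := mul_lt_mul_of_pos_right h2 hs
      _ = Q / 2 + s := by field_simp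
  have hQs1 : 3 * s1 ≤ Q := by
    rw [hQ, le_div_iff₀ hρ]
    have h3 := Real.pi_gt_three
    calc 3 * s1 * ρ ≤ 3 * s1 * s1 := mul_le_mul_of_nonneg_left hρ4 (by positivity)
      _ = 3 * s1 ^ 2 := by ring
      _ ≤ Real.pi * s1 ^ 2 := mul_le_mul_of_nonneg_right h3.le (by positivity)
  have h12 : (m : ℝ) * s ≤ Q := by linarith
  have h13 : 4 * θ * (m * s) ≤ 4 * θ * Q := mul_le_mul_of_nonneg_left h12 (by positivity)
  have h14 : θ * Q ≤ β / 16 := by
    calc θ * Q ≤ β / (16 * Q) * Q := mul_le_mul_of_nonneg_right hθ1 hQ0.le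
      _ = β / 16 := by field_simp
  linarith

/-- near-optimal certificates are large at every real point (branch I) -/
theorem lbI {t : ℝ} (ht : 0 < t) {s0 β : ℝ} (h0 : 0 < s0) (h1 : s0 < t / 2) (hβ : 0 < β) :
    ∃ a : ℝ, 0 < a ∧ ∀ n ≥ 1, ∀ (l : ℝ) (f : Wd n → ℝ), WCert l f → Exact.sI t * n ≤ l →
    ∑ x, f x ≤ Real.exp (n * (Exact.cval t + a)) →
    Real.exp (n * (Ur (t / 2) (Exact.cval t) s0 - β)) ≤ Pfr f (Zr (t / 2) s0) := by
  have hη : 0 < t / 2 := by linarith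
  obtain ⟨ε0, hε0, h⟩ := lo_core hη (Exact.sI_pos ht) (slope_crit ht).le h0 h1 hβ
  refine ⟨ε0, hε0, fun n hn l f hf hl hm => ?_⟩
  have hZ := Zr_nonneg hη h0.le h1
  have hnorm : ∀ r : ℝ, 0 ≤ r → ‖Pf f (r : ℂ)‖ = Pfr f r := by
    intro r hr
    have h3 : 0 ≤ Pfr f r := by
      unfold Pfr
      exact Finset.sum_nonneg fun x _ => mul_nonneg (hf.nonneg x) (pow_nonneg hr _)
    rw [Pf_ofReal, Complex.norm_real, Real.norm_eq_abs, abs_of_nonneg h3]
  have h2 := h ε0 hε0.le le_rfl n (Pf f) hn (differentiable_Pf f) (fun z hz => ?_) (fun y => ?_)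
    (fun z x hzx => ?_) (fun r hr => ?_)
  · rwa [hnorm _ hZ] at h2
  · calc ‖Pf f z‖ ≤ Pfr f ‖z‖ := norm_Pf_le hf.nonneg z
      _ = ∑ x, f x := by rw [hz, Pfr_one f]
      _ ≤ _ := hm
  · exact Pf_imag hf y
  · have hx : 0 ≤ x := (norm_nonneg z).trans hzx
    rw [hnorm x hx]
    exact (norm_Pf_le hf.nonneg z).trans (Pfr_mono hf.nonneg (norm_nonneg z) hzx)
  · rw [hnorm r hr]
    refine le_trans ?_ (Pfr_lower hf hr)
    have := mul_le_mul_of_nonneg_right hl hr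
    linarith

/-- upper bound on the real axis -/
theorem ubI {η c : ℝ} (hη : 0 < η) {s0 : ℝ} (h0 : 0 ≤ s0) (h1 : s0 < η) {n : ℕ} {l : ℝ}
    {f : Wd n → ℝ} (hf : WCert l f) (hm : ∑ x, f x ≤ Real.exp (n * c)) :
    Pfr f (Zr η s0) ≤ Real.exp (n * Ur η c s0) := by
  have hZ := Zr_nonneg hη h0 h1
  have h3 : 0 ≤ Pfr f (Zr η s0) := by
    unfold Pfr
    exact Finset.sum_nonneg fun x _ => mul_nonneg (hf.nonneg x) (pow_nonneg hZ _)
  have h := three_lines (nm_pos hη) (nm_lt hη) c (differentiable_Pf f) (N := 1) n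
    (fun z hz => by
      rw [one_mul]
      calc ‖Pf f z‖ ≤ Pfr f ‖z‖ := norm_Pf_le hf.nonneg z
        _ = ∑ x, f x := by rw [hz, Pfr_one f]
        _ ≤ _ := hm)
    (fun y => by rw [one_mul]; exact Pf_imag hf y) (s := (s0 : ℂ)) (by simpa using h0)
    (by rw [eta_nm hη]; simpa using h1.le)
  rw [zz_real hη h0 h1, one_mul, Pf_ofReal, Complex.norm_real, Real.norm_eq_abs,
    abs_of_nonneg h3] at h
  exact h

end Pool.Agent.Lib.MP_0430e4_lc.AC
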