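import Pool.Agent.Lib.MP_0430e4_lc.AC.YT3
import Pool.Agent.Lib.MP_0430e4_lc.AC.YT1

/-!
Project ALLCODES, part Y (helper13): the potential of near-optimal certificates on the real axis,
abstract form `Pot δ U g` (`U` = limit of `log (Pfr f x) / n`, `g x = x U'(x)`), any branch.
-/

set_option autoImplicit false

open Finset Filter Topology

namespace Pool.Agent.Lib.MP_0430e4_lc.AC

open BY

/-- `U` is the logarithmic limit of near-optimal certificates of level `(1 - 2 δ) n` on `(0,1)`, with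
derivative `g x / x`. -/
structure Pot (δ : ℝ) (U g : ℝ → ℝ) : Prop where
  deriv : ∀ x, 0 < x → x < 1 → HasDerivAt U (g x / x) x
  cont : ∀ x, 0 < x → x < 1 → ContinuousAt g x
  slope : Tendsto (fun x => U x / x) (𝓝[>] 0) (𝓝 (1 - 2 * δ))
  lb : ∀ x β, 0 < x → x < 1 → 0 < β → ∃ a : ℝ, 0 < a ∧ ∃ n0 : ℕ, ∀ n ≥ n0, ∀ (l : ℝ)
    (f : Wd n → ℝ), WCert l f → (1 - 2 * δ) * n ≤ l → ∑ x, f x ≤ pw n (Tensor.ell δ + a) →
    Real.exp (n * (U x - β)) ≤ Pfr f x
  ub : ∀ x β, 0 < x → x < 1 → 0 < β → ∃ a : ℝ, 0 < a ∧ ∃ n0 : ℕ, ∀ n ≥ n0, ∀ (l : ℝ)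
    (f : Wd n → ℝ), WCert l f → (1 - 2 * δ) * n ≤ l → ∑ x, f x ≤ pw n (Tensor.ell δ + a) →
    Pfr f x ≤ Real.exp (n * (U x + β))

theorem pair_term {a b q : ℝ} (ha : 0 < a) (hab : a ≤ b) (hq : 1 ≤ q) (i j : ℕ) :
    (q * a) ^ i * b ^ j + (q * a) ^ j * b ^ i ≤ a ^ i * (q * b) ^ j + a ^ j * (q * b) ^ i := by
  have key : ∀ i j : ℕ, i ≤ j → (q * a) ^ i * b ^ j + (q * a) ^ j * b ^ i ≤
      a ^ i * (q * b) ^ j + a ^ j * (q * b) ^ i := by
    intro i j hij
    obtain ⟨d, rfl⟩ := Nat.exists_eq_add_of_le hij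
    have h1 : q ^ i ≤ q ^ (i + d) := pow_le_pow_right₀ hq (Nat.le_add_right _ _)
    have h2 : a ^ (i + d) * b ^ i ≤ a ^ i * b ^ (i + d) := by
      rw [pow_add, pow_add]
      have h3 : a ^ d ≤ b ^ d := pow_le_pow_left₀ ha.le hab d
      have h4 : 0 ≤ a ^ i * b ^ i := mul_nonneg (pow_pos ha i).le (pow_pos (ha.trans_le hab) i).le
      calc a ^ i * a ^ d * b ^ i = a ^ i * b ^ i * a ^ d := by ring
        _ ≤ a ^ i * b ^ i * b ^ d := mul_le_mul_of_nonneg_left h3 h4
        _ = a ^ i * (b ^ i * b ^ d) := by ring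
    have h5 : 0 ≤ (q ^ (i + d) - q ^ i) * (a ^ i * b ^ (i + d) - a ^ (i + d) * b ^ i) :=
      mul_nonneg (by linarith) (by linarith)
    rw [mul_pow, mul_pow, mul_pow, mul_pow]
    nlinarith [h5]
  rcases le_total i j with h | h
  · exact key i j h
  · have := key j i h
    linarith

theorem Pfr_pair {n : ℕ} {f : Wd n → ℝ} (hf : ∀ x, 0 ≤ f x) {a b q : ℝ} (ha : 0 < a) (hab : a ≤ b)
    (hq : 1 ≤ q) : Pfr f (q * a) * Pfr f b ≤ Pfr f a * Pfr f (q * b) := by
  have h1 : ∀ u v : ℝ, Pfr f u * Pfr f v = ∑ x, ∑ y, f x * f y * (u ^ wt x * v ^ wt y) := by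
    intro u v
    unfold Pfr
    rw [Finset.sum_mul_sum]
    apply Finset.sum_congr rfl; intro x _
    apply Finset.sum_congr rfl; intro y _
    ring
  have h2 : ∀ u v : ℝ, 2 * (Pfr f u * Pfr f v) =
      ∑ x, ∑ y, f x * f y * (u ^ wt x * v ^ wt y + u ^ wt y * v ^ wt x) := by
    intro u v
    have h3 : Pfr f u * Pfr f v = ∑ x, ∑ y, f x * f y * (u ^ wt y * v ^ wt x) := by
      rw [h1, Finset.sum_comm]
      apply Finset.sum_congr rfl; intro x _
      apply Finset.sum_congr rfl; intro y _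
      ring
    rw [two_mul]
    nth_rewrite 1 [h1]
    rw [h3, ← Finset.sum_add_distrib]
    apply Finset.sum_congr rfl; intro x _
    rw [← Finset.sum_add_distrib]
    apply Finset.sum_congr rfl; intro y _
    ring
  have h3 : 2 * (Pfr f (q * a) * Pfr f b) ≤ 2 * (Pfr f a * Pfr f (q * b)) := by
    rw [h2, h2]
    apply Finset.sum_le_sum; intro x _
    apply Finset.sum_le_sum; intro y _
    exact mul_le_mul_of_nonneg_left (pair_term ha hab hq _ _) (mul_nonneg (hf x) (hf y))
  linarith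

namespace Pot

variable {δ : ℝ} {U g : ℝ → ℝ} (P : Pot δ U g) (h0 : 0 < δ)
include P h0

/-- some near-optimal certificate of large length sees `U` at four points -/
theorem four {β : ℝ} (hβ : 0 < β) {x1 x2 x3 x4 : ℝ} (a1 : 0 < x1) (b1 : x1 < 1) (a2 : 0 < x2)
    (b2 : x2 < 1) (a3 : 0 < x3) (b3 : x3 < 1) (a4 : 0 < x4) (b4 : x4 < 1) :
    ∃ (n : ℕ) (f : Wd n → ℝ), 1 ≤ n ∧ (∀ x, 0 ≤ f x) ∧
      Real.exp (n * (U x1 - β)) ≤ Pfr f x1 ∧ Real.exp (n * (U x2 - β)) ≤ Pfr f x2 ∧
      Pfr f x3 ≤ Real.exp (n * (U x3 + β)) ∧ Pfr f x4 ≤ Real.exp (n * (U x4 + β)) := by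
  obtain ⟨e1, he1, n1, H1⟩ := P.lb x1 β a1 b1 hβ
  obtain ⟨e2, he2, n2, H2⟩ := P.lb x2 β a2 b2 hβ
  obtain ⟨e3, he3, n3, H3⟩ := P.ub x3 β a3 b3 hβ
  obtain ⟨e4, he4, n4, H4⟩ := P.ub x4 β a4 b4 hβ
  obtain ⟨c, hc, -, -, n5, H5⟩ := near_gen h0 (min (min e1 e2) (min e3 e4))
    (lt_min (lt_min he1 he2) (lt_min he3 he4))
  obtain ⟨n, hn⟩ : ∃ n : ℕ, n = n1 + n2 + n3 + n4 + n5 + 1 := ⟨_, rfl⟩
  obtain ⟨f, H, -, hW, hs⟩ := H5 n (by omega)
  have hl : (1 - 2 * δ) * (n : ℝ) ≤ (1 - 2 * δ + c) * n := by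
    apply mul_le_mul_of_nonneg_right _ (Nat.cast_nonneg n)
    linarith
  have m1 : min (min e1 e2) (min e3 e4) ≤ e1 := (min_le_left _ _).trans (min_le_left _ _)
  have m2 : min (min e1 e2) (min e3 e4) ≤ e2 := (min_le_left _ _).trans (min_le_right _ _)
  have m3 : min (min e1 e2) (min e3 e4) ≤ e3 := (min_le_right _ _).trans (min_le_left _ _)
  have m4 : min (min e1 e2) (min e3 e4) ≤ e4 := (min_le_right _ _).trans (min_le_right _ _)
  have k : ∀ e : ℝ, min (min e1 e2) (min e3 e4) ≤ e → ∑ x, f x ≤ pw n (Tensor.ell δ + e) := by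
    intro e he
    exact hs.trans (pw_mono n (add_le_add le_rfl he))
  exact ⟨n, f, by omega, hW.nonneg,
    H1 n (by omega) _ f hW hl (k e1 m1), H2 n (by omega) _ f hW hl (k e2 m2),
    H3 n (by omega) _ f hW hl (k e3 m3), H4 n (by omega) _ f hW hl (k e4 m4)⟩

theorem cross {a b q : ℝ} (ha : 0 < a) (hab : a ≤ b) (hq : 1 ≤ q) (hb : q * b < 1) :
    U (q * a) + U b ≤ U a + U (q * b) := by
  by_contra hcon
  push Not at hcon
  have hb0 : 0 < b := ha.trans_le hab
  have hb1 : b < 1 := by nlinarith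
  have hqa : q * a < 1 := by nlinarith
  obtain ⟨β, hβ⟩ : ∃ β : ℝ, β = (U (q * a) + U b - (U a + U (q * b))) / 8 := ⟨_, rfl⟩
  have hβ0 : 0 < β := by rw [hβ]; linarith
  obtain ⟨n, f, hn, hf, e1, e2, e3, e4⟩ := P.four h0 hβ0 (x1 := q * a) (x2 := b) (x3 := a)
    (x4 := q * b) (by positivity) hqa hb0 hb1 ha (by linarith) (by positivity) hb
  have hp := Pfr_pair hf ha hab hq
  have hn0 : (0 : ℝ) < n := by exact_mod_cast hn
  have h1 : Real.exp (n * (U (q * a) - β)) * Real.exp (n * (U b - β)) ≤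
      Real.exp (n * (U a + β)) * Real.exp (n * (U (q * b) + β)) := by
    have hP : ∀ r : ℝ, 0 ≤ r → 0 ≤ Pfr f r := by
      intro r hr
      unfold Pfr
      exact Finset.sum_nonneg fun x _ => mul_nonneg (hf x) (pow_nonneg hr _)
    calc _ ≤ Pfr f (q * a) * Pfr f b := mul_le_mul e1 e2 (Real.exp_pos _).le (hP _ (by positivity))
      _ ≤ Pfr f a * Pfr f (q * b) := hp
      _ ≤ _ := mul_le_mul e3 e4 (hP _ (by positivity)) (Real.exp_pos _).le
  rw [← Real.exp_add, ← Real.exp_add, Real.exp_le_exp] at h1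
  have h2 : (n : ℝ) * (U (q * a) - β + (U b - β)) ≤ n * (U a + β + (U (q * b) + β)) := by linarith
  have h3 := le_of_mul_le_mul_left h2 hn0
  linarith

/-- `U` is convex in `log x` -/
theorem mono {a b : ℝ} (ha : 0 < a) (hab : a ≤ b) (hb : b < 1) : g a ≤ g b := by
  have hb0 : 0 < b := ha.trans_le hab
  by_contra hcon
  push Not at hcon
  have hd : HasDerivAt (fun s : ℝ => U a + U ((1 + s) * b) - (U ((1 + s) * a) + U b))
      (g b - g a) 0 := by
    have k : ∀ x : ℝ, 0 < x → x < 1 → HasDerivAt (fun s : ℝ => U ((1 + s) * x)) (g x) 0 := by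
      intro x hx0 hx1
      have h1 : HasDerivAt (fun s : ℝ => (1 + s) * x) x 0 := by
        have := ((hasDerivAt_id (0 : ℝ)).const_add 1).mul_const x
        simpa using this
      have h2 : HasDerivAt U (g x / x) ((1 + 0) * x) := by
        rw [add_zero, one_mul]; exact P.deriv x hx0 hx1
      refine (h2.comp 0 h1).congr_deriv ?_
      field_simp
    have h3 := ((k b hb0 hb).const_add (U a)).sub ((k a ha (hab.trans_lt hb)).add_const (U b))
    exact h3
  obtain ⟨e, he, hle⟩ := near_le (θ := (g a - g b) / 2) (by linarith) (by simp) hd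
  set s : ℝ := min (e / 2) ((1 / b - 1) / 2) with hs
  have hb1 : 0 < 1 / b - 1 := by
    rw [sub_pos, lt_div_iff₀ hb0]; linarith
  have hs0 : 0 < s := lt_min (by linarith) (by linarith)
  have hs1 : s < e := lt_of_le_of_lt (min_le_left _ _) (by linarith)
  have hs2 : (1 + s) * b < 1 := by
    have h1 : s < 1 / b - 1 := lt_of_le_of_lt (min_le_right _ _) (by linarith)
    have h2 : 1 + s < 1 / b := by linarith
    calc (1 + s) * b < 1 / b * b := mul_lt_mul_of_pos_right h2 hb0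
      _ = 1 := by field_simp
  have h1 := hle s hs0 hs1
  have h2 := P.cross h0 ha hab (q := 1 + s) (by linarith) hs2
  have h3 : (g b - g a + (g a - g b) / 2) * s < 0 := by
    have : g b - g a + (g a - g b) / 2 < 0 := by linarith
    exact mul_neg_of_neg_of_pos this hs0
  linarith

theorem le_log {y y' : ℝ} (hy : 0 < y) (h : y ≤ y') (h1 : y' < 1) :
    U y' - U y ≤ g y' * (Real.log y' - Real.log y) := by
  have hd : ∀ x ∈ Set.Icc y y',
      HasDerivAt (fun x => U x - g y' * Real.log x) (g x / x - g y' * x⁻¹) x := by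
    intro x hx
    have hx0 : 0 < x := lt_of_lt_of_le hy hx.1
    exact (P.deriv x hx0 (lt_of_le_of_lt hx.2 h1)).sub
      ((Real.hasDerivAt_log hx0.ne').const_mul _)
  have hanti : AntitoneOn (fun x => U x - g y' * Real.log x) (Set.Icc y y') := by
    apply antitoneOn_of_deriv_nonpos (convex_Icc _ _)
    · exact fun x hx => (hd x hx).continuousAt.continuousWithinAt
    · exact fun x hx => (hd x (interior_subset hx)).differentiableAt.differentiableWithinAt
    · intro x hx
      have hx' := interior_subset hx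
      rw [(hd x hx').deriv]
      have hx0 : 0 < x := lt_of_lt_of_le hy hx'.1
      have h2 := P.mono h0 hx0 hx'.2 h1
      rw [div_eq_mul_inv, ← sub_mul]
      exact mul_nonpos_of_nonpos_of_nonneg (by linarith) (inv_pos.mpr hx0).le
  have h3 := hanti (Set.left_mem_Icc.mpr h) (Set.right_mem_Icc.mpr h) h
  simp only at h3
  linarith

theorem ge_log {y y' : ℝ} (hy : 0 < y) (h : y ≤ y') (h1 : y' < 1) :
    g y * (Real.log y' - Real.log y) ≤ U y' - U y := by
  have hd : ∀ x ∈ Set.Icc y y',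
      HasDerivAt (fun x => U x - g y * Real.log x) (g x / x - g y * x⁻¹) x := by
    intro x hx
    have hx0 : 0 < x := lt_of_lt_of_le hy hx.1
    exact (P.deriv x hx0 (lt_of_le_of_lt hx.2 h1)).sub
      ((Real.hasDerivAt_log hx0.ne').const_mul _)
  have hmono : MonotoneOn (fun x => U x - g y * Real.log x) (Set.Icc y y') := by
    apply monotoneOn_of_deriv_nonneg (convex_Icc _ _)
    · exact fun x hx => (hd x hx).continuousAt.continuousWithinAt
    · exact fun x hx => (hd x (interior_subset hx)).differentiableAt.differentiableWithinAt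
    · intro x hx
      have hx' := interior_subset hx
      rw [(hd x hx').deriv]
      have hx0 : 0 < x := lt_of_lt_of_le hy hx'.1
      have h2 := P.mono h0 hy hx'.1 (lt_of_le_of_lt hx'.2 h1)
      rw [div_eq_mul_inv, ← sub_mul]
      exact mul_nonneg (by linarith) (inv_pos.mpr hx0).le
  have h3 := hmono (Set.left_mem_Icc.mpr h) (Set.right_mem_Icc.mpr h) h
  simp only at h3
  linarith

omit h0 in
/-- `U x → 0` at zero -/
theorem tendsto_zero : Tendsto U (𝓝[>] 0) (𝓝 0) := by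
  have h1 : Tendsto (fun x : ℝ => x) (𝓝[>] 0) (𝓝 0) := tendsto_id.mono_left nhdsWithin_le_nhds
  have h2 := P.slope.mul h1
  rw [mul_zero] at h2
  refine h2.congr' ?_
  filter_upwards [self_mem_nhdsWithin] with x hx
  have : x ≠ 0 := (Set.mem_Ioi.mp hx).ne'
  field_simp

/-- `g` is nonnegative -/
theorem nonneg {x : ℝ} (hx : 0 < x) (hx1 : x < 1) : 0 ≤ g x := by
  by_contra hcon
  push Not at hcon
  -- then `U` is decreasing below `x`, with derivative at most `g x / y`, so `U y` is unbounded above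
  have h1 : ∀ y : ℝ, 0 < y → y < x → U x - g x * (Real.log x - Real.log y) ≤ U y := by
    intro y hy hyx
    have := P.le_log h0 hy hyx.le hx1
    linarith
  have h2 : Tendsto (fun y : ℝ => U x - g x * (Real.log x - Real.log y)) (𝓝[>] 0) atTop := by
    have h3 : Tendsto (fun y : ℝ => Real.log x - Real.log y) (𝓝[>] 0) atTop := by
      have := tendsto_neg_atBot_atTop.comp Real.tendsto_log_nhdsGT_zero
      exact tendsto_atTop_add_const_left _ _ this
    have h4 : Tendsto (fun y : ℝ => (-g x) * (Real.log x - Real.log y)) (𝓝[>] 0) atTop :=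
      h3.const_mul_atTop (by linarith)
    refine (tendsto_atTop_add_const_left _ (U x) h4).congr (fun y => ?_)
    ring
  have h5 := P.tendsto_zero
  have e1 := h2.eventually (eventually_gt_atTop (1 : ℝ))
  have e2 := h5.eventually_lt_const (show (0 : ℝ) < 1 by norm_num)
  have e3 : ∀ᶠ y : ℝ in 𝓝[>] 0, y < x := by
    filter_upwards [Ioo_mem_nhdsGT hx] with y hy using hy.2
  have e4 : ∀ᶠ y : ℝ in 𝓝[>] 0, 0 < y := self_mem_nhdsWithin
  obtain ⟨y, hy1, hy2, hy3, hy4⟩ := (e1.and (e2.and (e3.and e4))).exists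
  have := h1 y hy4 hy3
  linarith

theorem pos (h1 : δ < 1 / 2) {x : ℝ} (hx : 0 < x) (hx1 : x < 1) : 0 < g x := by
  rcases (P.nonneg h0 hx hx1).eq_or_lt with h | h
  · exfalso
    -- `g = 0` on `(0, x]`, so `U` is constant there
    have hz : ∀ y : ℝ, 0 < y → y ≤ x → g y = 0 := by
      intro y hy hyx
      have a1 := P.mono h0 hy hyx hx1
      have a2 := P.nonneg h0 hy (lt_of_le_of_lt hyx hx1)
      linarith
    have hU : ∀ y : ℝ, 0 < y → y < x → U y = U x := by
      intro y hy hyx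
      have a1 := P.le_log h0 hy hyx.le hx1
      have a2 := P.ge_log h0 hy hyx.le hx1
      rw [← h, zero_mul] at a1
      rw [hz y hy hyx.le, zero_mul] at a2
      linarith
    have hc : Tendsto U (𝓝[>] 0) (𝓝 (U x)) := by
      apply tendsto_const_nhds.congr'
      filter_upwards [Ioo_mem_nhdsGT hx] with y hy
      exact (hU y hy.1 hy.2).symm
    have hU0 : U x = 0 := tendsto_nhds_unique hc P.tendsto_zero
    have hs : Tendsto (fun y => U y / y) (𝓝[>] 0) (𝓝 0) := by
      apply tendsto_const_nhds.congr'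
      filter_upwards [Ioo_mem_nhdsGT hx] with y hy
      rw [hU y hy.1 hy.2, hU0, zero_div]
    have := tendsto_nhds_unique hs P.slope
    linarith
  · exact h

/-- `g → 0` at zero -/
theorem g_small {e : ℝ} (he : 0 < e) : ∃ x : ℝ, 0 < x ∧ x < 1 ∧ ∀ y : ℝ, 0 < y → y ≤ x → g y < e := by
  have h1 := P.tendsto_zero.eventually_lt_const (show (0 : ℝ) < e / 4 by linarith)
  have h2 := P.tendsto_zero.eventually_const_lt (show -(e / 4) < (0 : ℝ) by linarith)
  have h3 := h1.and h2
  rw [eventually_nhdsWithin_iff, Metric.eventually_nhds_iff] at h3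
  obtain ⟨d, hd, h4⟩ := h3
  set z : ℝ := min (d / 2) (1 / 2) with hz
  have hz0 : 0 < z := lt_min (by linarith) (by norm_num)
  have hzd : z < d := lt_of_le_of_lt (min_le_left _ _) (by linarith)
  have hz1 : z < 1 := lt_of_le_of_lt (min_le_right _ _) (by norm_num)
  refine ⟨z / Real.exp 1, by positivity, ?_, fun y hy hyx => ?_⟩
  · rw [div_lt_one (Real.exp_pos _)]
    have := Real.add_one_le_exp (1 : ℝ)
    linarith
  · have he1 : y * Real.exp 1 ≤ z := by
      rw [le_div_iff₀ (Real.exp_pos _)] at hyx; exact hyx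
    have hye : y ≤ y * Real.exp 1 := by
      have := Real.add_one_le_exp (1 : ℝ)
      nlinarith
    have hz' : 0 < y * Real.exp 1 := by positivity
    have a1 := P.ge_log h0 hy hye (by linarith)
    rw [Real.log_mul hy.ne' (Real.exp_pos _).ne', Real.log_exp] at a1
    have b1 := h4 (y := y * Real.exp 1) (by
      rw [Real.dist_eq, sub_zero, abs_of_pos hz']; linarith) hz'
    have b2 := h4 (y := y) (by
      rw [Real.dist_eq, sub_zero, abs_of_pos hy]; linarith) hy
    have := b1.1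
    have := b2.2
    linarith

end Pot

end Pool.Agent.Lib.MP_0430e4_lc.AC
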