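import Pool.Agent.Lib.MP_0430e4_lc.AC.YT7
import Pool.Agent.Lib.MP_0430e4_lc.Lower.Strip2
import Pool.Agent.Lib.MP_0430e4_lc.LPLOW.CoefII

/-!
Project ALLCODES, part Y (helper13): the potential of branch II on the real axis.

Strip coordinate `s ∈ [0, η)`, `w = zz r (η - s) = exp (- Mr s)` decreases from `1` to `0`,
`z = (1 - w)/(1 + w) = tanh (Mr s / 2) = Zs s`, `Vs` is the majorant of the transform side, and
`Us = Vs - log (1 + w)`.
-/

set_option autoImplicit false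

open Finset Filter Topology

namespace Pool.Agent.Lib.MP_0430e4_lc.AC

open LPLOW Lower BY

/-- `log (1/w)` on the real axis -/
noncomputable def Mr (η s : ℝ) : ℝ := s + (S (Lower.cM η) (s : ℂ)).re

/-- `dM/ds` -/
noncomputable def Or (η s : ℝ) : ℝ := (S (cO η) (s : ℂ)).re

/-- `w` on the real axis -/
noncomputable def wr (η s : ℝ) : ℝ := Real.exp (-Mr η s)

/-- `z` on the real axis -/
noncomputable def Zs (η s : ℝ) : ℝ := Real.tanh (Mr η s / 2)

/-- the majorant of the transform side -/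
noncomputable def Vs (η c s : ℝ) : ℝ :=
  Real.log 2 - (c - f0 (nm η)) / η * s - (S (Lower.cW η) (s : ℂ)).re

/-- the potential of branch II on the real axis -/
noncomputable def Us (η c s : ℝ) : ℝ := Vs η c s - Real.log (1 + wr η s)

/-- derivative of `Zs` -/
noncomputable def Zs' (η s : ℝ) : ℝ := (1 - Zs η s ^ 2) * (Or η s / 2)

/-- derivative of `Us` -/
noncomputable def Us' (η c s : ℝ) : ℝ :=
  -((c - f0 (nm η)) / η) + (1 + (S (cS η) (s : ℂ)).re) / 4 - Zs η s * (Or η s / 2)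

theorem S_odd_neg {c : ℤ → ℝ} (hc : ∀ k, c (-k) = -c k) (s : ℂ) : S c (-s) = -S c s := by
  unfold S
  rw [← (Equiv.neg ℤ).tsum_eq, ← tsum_neg]
  apply tsum_congr
  intro k
  simp only [Equiv.neg_apply]
  rw [hc]
  push_cast
  rw [neg_mul_neg, neg_mul]

theorem S_odd_zero {c : ℤ → ℝ} (hc : ∀ k, c (-k) = -c k) : S c 0 = 0 := by
  have h := S_odd_neg hc 0
  rw [neg_zero] at h
  exact self_eq_neg.mp h

section
variable {η : ℝ} (hη : 0 < η)
include hη

theorem hasDerivAt_Mr {s : ℝ} (hs : |s| < η) : HasDerivAt (Mr η) (Or η s) s := by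
  have h := (Lower.hasDerivAt_M hη (s := (s : ℂ)) (by simpa using hs)).real_of_complex
  refine ((hasDerivAt_id s).add h).congr_deriv ?_
  unfold Or
  rw [Complex.sub_re, Complex.one_re]
  ring

omit hη in
theorem Mr_zero : Mr η 0 = 0 := by
  unfold Mr
  rw [Complex.ofReal_zero, S_odd_zero (cM_neg η)]
  simp

omit hη in
theorem cO_nonneg (k : ℤ) : 0 ≤ cO η k := by
  unfold cO
  split_ifs
  · exact (LPLOW.sech_pos _).le
  · exact le_rfl

theorem Or_pos {s : ℝ} (hs : |s| < η) : 0 < Or η s := by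
  unfold Or
  have hd := (dec_cO hη).summable (s := (s : ℂ)) (by simpa using hs)
  have he : ∀ k : ℤ, (cO η k : ℂ) * Complex.exp (k * (s : ℂ)) =
      ((cO η k * Real.exp (k * s) : ℝ) : ℂ) := by
    intro k; push_cast; rfl
  have h1 : S (cO η) (s : ℂ) = ((∑' k : ℤ, cO η k * Real.exp (k * s) : ℝ) : ℂ) := by
    unfold S
    rw [Complex.ofReal_tsum]
    exact tsum_congr he
  have h2 : Summable fun k : ℤ => cO η k * Real.exp (k * s) := by
    have h3 : Summable fun k : ℤ => ((cO η k * Real.exp (k * s) : ℝ) : ℂ) :=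
      hd.congr he
    exact_mod_cast h3
  rw [h1, Complex.ofReal_re]
  refine h2.tsum_pos (fun k => mul_nonneg (cO_nonneg k) (Real.exp_pos _).le) 0 ?_
  apply mul_pos _ (Real.exp_pos _)
  unfold cO
  rw [if_pos (by decide)]
  exact LPLOW.sech_pos _

theorem Mr_strictMono : StrictMonoOn (Mr η) (Set.Ico 0 η) := by
  apply strictMonoOn_of_deriv_pos (convex_Ico 0 η)
  · intro s hs
    exact (hasDerivAt_Mr hη (abs_lt.2 ⟨by linarith [hs.1], hs.2⟩)).continuousAt.continuousWithinAt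
  · intro s hs
    rw [interior_Ico] at hs
    have h : |s| < η := abs_lt.2 ⟨by linarith [hs.1], hs.2⟩
    rw [(hasDerivAt_Mr hη h).deriv]
    exact Or_pos hη h

omit hη in
theorem Zs_zero : Zs η 0 = 0 := by
  unfold Zs; rw [Mr_zero, zero_div, Real.tanh_zero]

omit hη in
theorem Zs_lt_one (s : ℝ) : Zs η s < 1 := Real.tanh_lt_one _

theorem Zs_strictMono : StrictMonoOn (Zs η) (Set.Ico 0 η) := by
  intro a ha b hb hab
  have := Mr_strictMono hη ha hb hab
  exact tanh_strictMono (by linarith)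

theorem Zs_pos {s : ℝ} (h0 : 0 < s) (h1 : s < η) : 0 < Zs η s := by
  have := Zs_strictMono hη ⟨le_rfl, hη⟩ ⟨h0.le, h1⟩ h0
  rwa [Zs_zero] at this

theorem Zs_nonneg {s : ℝ} (h0 : 0 ≤ s) (h1 : s < η) : 0 ≤ Zs η s := by
  rcases h0.eq_or_lt with h | h
  · rw [← h, Zs_zero]
  · exact (Zs_pos hη h h1).le

omit hη in
theorem one_sub_Zs_sq_pos (s : ℝ) : 0 < 1 - Zs η s ^ 2 := by
  have h1 := Real.tanh_lt_one (Mr η s / 2)
  have h2 := Real.neg_one_lt_tanh (Mr η s / 2)
  unfold Zs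
  nlinarith

theorem hasDerivAt_Zs {s : ℝ} (hs : |s| < η) : HasDerivAt (Zs η) (Zs' η s) s := by
  have h1 : HasDerivAt Real.tanh (1 - Real.tanh (Mr η s / 2) ^ 2) (Mr η s / 2) := by
    have h2 := (Real.hasDerivAt_sinh (Mr η s / 2)).div (Real.hasDerivAt_cosh (Mr η s / 2))
      (Real.cosh_pos _).ne'
    have e : Real.tanh = Real.sinh / Real.cosh := by
      funext x; exact Real.tanh_eq_sinh_div_cosh x
    rw [e]
    refine h2.congr_deriv ?_
    have hc := (Real.cosh_pos (Mr η s / 2)).ne'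
    show _ = 1 - (Real.sinh (Mr η s / 2) / Real.cosh (Mr η s / 2)) ^ 2
    field_simp
  exact h1.comp s ((hasDerivAt_Mr hη hs).div_const 2)

omit hη in
theorem wr_pos (s : ℝ) : 0 < wr η s := Real.exp_pos _

omit hη in
theorem wr_mul (s : ℝ) : Zs η s * (1 + wr η s) = 1 - wr η s := by
  unfold Zs wr
  obtain ⟨x, hx⟩ : ∃ x, x = Mr η s := ⟨_, rfl⟩
  rw [← hx]
  rw [Real.tanh_eq_sinh_div_cosh, Real.sinh_eq, Real.cosh_eq]
  have h3 : Real.exp (-x) = Real.exp (-(x / 2)) * Real.exp (-(x / 2)) := by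
    rw [← Real.exp_add]; congr 1; ring
  have h4 : Real.exp (x / 2) * Real.exp (-(x / 2)) = 1 := by
    rw [← Real.exp_add, add_neg_cancel, Real.exp_zero]
  have h5 := Real.exp_pos (x / 2)
  have h6 := Real.exp_pos (-(x / 2))
  rw [h3, div_mul_eq_mul_div, div_eq_iff (by positivity)]
  linear_combination Real.exp (-(x / 2)) * h4

/-- the point of the strip -/
theorem zz_wr {s : ℝ} (h0 : 0 ≤ s) (h1 : s < η) :
    zz (nm η) ((η : ℂ) - (s : ℂ)) = (wr η s : ℂ) := by
  have h := Lower.zz_shift hη (u := -(s : ℂ)) (by simpa using h1) (by simpa using h0)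
  rw [← sub_eq_add_neg] at h
  unfold nm
  rw [h, S_odd_neg (cM_neg η), S_ofReal]
  unfold wr Mr
  push_cast
  congr 1
  ring

theorem wr_tendsto : Tendsto (wr η) (𝓝[<] η) (𝓝 0) := by
  have hr0 := nm_pos hη
  have hr1 := nm_lt hη
  have h1 : ContinuousAt (fun s : ℂ => ‖zz (nm η) s‖) 0 :=
    (zz_diff hr0 hr1 (by simp) (by rw [eta_nm hη]; simpa using hη.le)).continuousAt.norm
  have h2 : ContinuousAt (fun s : ℝ => ((η : ℂ) - (s : ℂ))) η := by fun_prop
  have h3 : ContinuousAt (fun s : ℝ => ‖zz (nm η) ((η : ℂ) - (s : ℂ))‖) η := by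
    apply ContinuousAt.comp (f := fun s : ℝ => ((η : ℂ) - (s : ℂ))) (g := fun s : ℂ => ‖zz (nm η) s‖)
    · simpa using h1
    · exact h2
  have h5 : ‖zz (nm η) ((η : ℂ) - (η : ℂ))‖ = 0 := by
    rw [sub_self]
    unfold zz
    simp
  have h4 : Tendsto (fun s : ℝ => ‖zz (nm η) ((η : ℂ) - (s : ℂ))‖) (𝓝[<] η) (𝓝 0) := by
    rw [← h5]
    exact h3.tendsto.mono_left nhdsWithin_le_nhds
  refine h4.congr' ?_
  filter_upwards [Ioo_mem_nhdsLT hη] with s hs
  rw [zz_wr hη hs.1.le hs.2, Complex.norm_real, Real.norm_eq_abs, abs_of_pos (wr_pos s)]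

theorem Zs_tendsto_one : Tendsto (Zs η) (𝓝[<] η) (𝓝 1) := by
  have h := wr_tendsto hη
  have h2 : Tendsto (fun s => (1 - wr η s) / (1 + wr η s)) (𝓝[<] η) (𝓝 ((1 - 0) / (1 + 0))) :=
    (tendsto_const_nhds.sub h).div (tendsto_const_nhds.add h) (by norm_num)
  have e : ((1 : ℝ) - 0) / (1 + 0) = 1 := by norm_num
  rw [e] at h2
  refine h2.congr (fun s => ?_)
  have := wr_pos (η := η) s
  rw [div_eq_iff (by positivity), wr_mul]

theorem cont_Or {s : ℝ} (hs : |s| < η) : ContinuousAt (Or η) s := cont_S hη (dec_cO hη) hs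

theorem cont_Zs' {s : ℝ} (hs : |s| < η) : ContinuousAt (Zs' η) s := by
  have h1 := (hasDerivAt_Zs hη hs).continuousAt
  exact (continuousAt_const.sub (h1.pow 2)).mul ((cont_Or hη hs).div_const 2)

theorem cont_Us' (c : ℝ) {s : ℝ} (hs : |s| < η) : ContinuousAt (Us' η c) s := by
  have h1 := (hasDerivAt_Zs hη hs).continuousAt
  exact (continuousAt_const.add ((continuousAt_const.add (cont_S hη (dec_cS hη) hs)).div_const
    4)).sub (h1.mul ((cont_Or hη hs).div_const 2))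

theorem upII : Up η (Zs η) (Zs' η) where
  hb := hη
  hd s h0 h1 := hasDerivAt_Zs hη (by rw [abs_of_pos h0]; exact h1)
  pos s h0 h1 := mul_pos (one_sub_Zs_sq_pos s)
    (by have := Or_pos hη (s := s) (by rw [abs_of_pos h0]; exact h1); positivity)
  cont s h0 h1 := cont_Zs' hη (by rw [abs_of_pos h0]; exact h1)
  zero := by
    have h := (hasDerivAt_Zs hη (s := 0) (by simpa using hη)).continuousAt.tendsto
    rw [Zs_zero] at h
    exact h.mono_left nhdsWithin_le_nhds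
  one := Zs_tendsto_one hη

/-- the majorant on the strip -/
theorem GG_shift (c : ℝ) {u : ℂ} (h0 : -η < u.re) (h1 : u.re ≤ 0) :
    (GG (nm η) c ((η : ℂ) + u)).re = c + (c - f0 (nm η)) / η * u.re + (S (Lower.cW η) u).re := by
  have hK := Lower.KK_shift hη h0 h1
  rw [GG_re, eta_nm hη]
  have e1 : (S (Lower.cW η) u).re = -(KK (nm η) (Complex.exp (2 * ((η : ℂ) + u)))).re := by
    rw [← hK, Complex.neg_re]; rfl
  rw [e1, Complex.add_re, Complex.ofReal_re]
  have hη0 := hη.ne'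
  field_simp
  ring

theorem GG_Vs (c : ℝ) {s : ℝ} (h0 : 0 ≤ s) (h1 : s < η) :
    (GG (nm η) c ((η : ℂ) - (s : ℂ))).re + (Real.log 2 - c) = Vs η c s := by
  rw [sub_eq_add_neg, GG_shift hη c (u := -(s : ℂ)) (by simpa using h1) (by simpa using h0),
    S_odd_neg (cW_neg η)]
  unfold Vs
  rw [Complex.neg_re, Complex.neg_re, Complex.ofReal_re]
  ring

theorem hasDerivAt_Us (c : ℝ) {s : ℝ} (hs : |s| < η) : HasDerivAt (Us η c) (Us' η c s) s := by
  have h1 := (Lower.hasDerivAt_W hη (s := (s : ℂ)) (by simpa using hs)).real_of_complex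
  have h2 : HasDerivAt (fun s : ℝ => (c - f0 (nm η)) / η * s) ((c - f0 (nm η)) / η) s := by
    simpa using (hasDerivAt_id s).const_mul ((c - f0 (nm η)) / η)
  have h3 : HasDerivAt (wr η) (Real.exp (-Mr η s) * (-Or η s)) s :=
    (hasDerivAt_Mr hη hs).neg.exp
  have hw := wr_pos (η := η) s
  have h4 := (h3.const_add 1).log (show (1 : ℝ) + wr η s ≠ 0 by positivity)
  have h5 : (-1 / 4 + S (cO η) (s : ℂ) / 2 - S (cS η) (s : ℂ) / 4).re =
      -1 / 4 + Or η s / 2 - (S (cS η) (s : ℂ)).re / 4 := by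
    have e1 : S (cO η) (s : ℂ) / 2 = (((1 : ℝ) / 2 : ℝ) : ℂ) * S (cO η) (s : ℂ) := by
      push_cast; ring
    have e2 : S (cS η) (s : ℂ) / 4 = (((1 : ℝ) / 4 : ℝ) : ℂ) * S (cS η) (s : ℂ) := by
      push_cast; ring
    have e3 : (-1 / 4 : ℂ) = (((-1 : ℝ) / 4 : ℝ) : ℂ) := by push_cast; ring
    rw [e1, e2, e3, Complex.sub_re, Complex.add_re, Complex.re_ofReal_mul, Complex.re_ofReal_mul,
      Complex.ofReal_re]
    unfold Or
    ring
  refine (((h2.const_sub (Real.log 2)).sub h1).sub h4).congr_deriv ?_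
  rw [h5]
  unfold Us'
  have h6 := wr_mul (η := η) s
  have h7 : Zs η s = (1 - wr η s) / (1 + wr η s) := by
    rw [eq_div_iff (by positivity)]; exact h6
  rw [h7]
  have h8 : Real.exp (-Mr η s) = wr η s := rfl
  rw [h8]
  field_simp
  ring

omit hη in
theorem Us_zero (c : ℝ) : Us η c 0 = 0 := by
  unfold Us Vs
  rw [Complex.ofReal_zero, S_odd_zero (cW_neg η)]
  have : wr η 0 = 1 := by
    unfold wr; rw [Mr_zero]; simp
  rw [this]
  norm_num

end

/-- the slope at zero at the critical value -/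
theorem slope_crit2 {t : ℝ} (ht : 0 < t) :
    Us' (t / 2) (Exact.cval t) 0 = Exact.sII t * (Or (t / 2) 0 / 2) := by
  have hη : 0 < t / 2 := by linarith
  have h1 := cval_eq_f0 ht
  rw [r_eq hη] at h1
  have h2 : (Exact.cval t - f0 (nm (t / 2))) / (t / 2) = (1 - Pos.K1 (t / 2)) / 4 := by
    unfold nm
    rw [h1]
    field_simp
    ring
  have h3 := SS_add hη
  rw [Pos.SS_pi] at h3
  have hE : S (cE (t / 2)) 0 = (((S (cE (t / 2)) 0).re : ℝ) : ℂ) := by
    have := S_ofReal (cE (t / 2)) 0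
    simpa using this
  have hS : S (cS (t / 2)) 0 = (((S (cS (t / 2)) 0).re : ℝ) : ℂ) := by
    have := S_ofReal (cS (t / 2)) 0
    simpa using this
  have h4 : (S (cS (t / 2)) 0).re + Pos.K1 (t / 2) = 2 * (S (cE (t / 2)) 0).re := by
    rw [hE, hS] at h3
    exact_mod_cast h3
  have hO0 : 0 < Or (t / 2) 0 := Or_pos hη (by simpa using hη)
  have h8 : Or (t / 2) 0 = (S (cO (t / 2)) 0).re := by
    unfold Or; rw [Complex.ofReal_zero]
  have h9 : Exact.sII t * Or (t / 2) 0 = (S (cE (t / 2)) 0).re := by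
    rw [← sII_eq, ← h8, div_mul_cancel₀ _ hO0.ne']
  unfold Us'
  rw [h2, Zs_zero, Complex.ofReal_zero]
  linear_combination (-1 / 2 : ℝ) * h9 + (1 / 4 : ℝ) * h4

end Pool.Agent.Lib.MP_0430e4_lc.AC
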